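import Pool.Agent.H43.PL.M03

/-! The parts of this file: H43.LM.MscY, H76.EHB.Planch, H53.MID.Plw, H43.LM.MsY. -/

section

/-!
# LM MscY: mean square of the Dirichlet polynomial, general `f`, small `P`

Merge `Pool.Agent.H53.TPS.msc_f` (file `H53/TPS/MscF.lean`: general `f`, `P ≥ N^{e1}`, `VKp`) with `Pool.Agent.H53.MIX.msc_w` (file `H53/MIX/MscW.lean`: `P ≥ exp(L^{t2})`, `VKw t1`, `vk_pr_w` in place of `vk_pr`).
-/

set_option autoImplicit false

namespace Pool.Agent.H43.LM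

open Finset MeasureTheory
open Pool.Agent.H53.MID (Pl Kl fac_sq mvt)
open Pool.Agent.H53.MIX (vk_pr_w)
open Pool.Agent.H91.PK (ee)
open Pool.Agent.H53.MID (Cs cc cut SqB)
open Pool.Agent.H53.MIX (VKw)
open Pool.Agent.H53.TPS (SWf)
open Pool.Agent.H35.W (pb)

private theorem MscY_int (p q : ℝ → ℝ) (hp : Continuous p) (hq : Continuous q)
    (hq0 : ∀ t, 0 ≤ q t) (U T M a b : ℝ) (hM : 0 ≤ M) (ha : 0 ≤ a) (hb : 0 ≤ b)
    (h1 : ∀ t ∈ Set.Icc (-U) U, M ≤ |T + t| → p t ≤ a)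
    (h2 : ∀ t ∈ Set.Icc (-U) U, |T + t| < M → p t * q t ≤ b) :
    ∫ t in Set.Icc (-U) U, p t * q t ≤ a * (∫ t in Set.Icc (-U) U, q t) + 2 * M * b := by
  set S : Set ℝ := Set.Ioo (-T - M) (-T + M) with hS
  have hint1 : IntegrableOn (fun t => p t * q t) (Set.Icc (-U) U) :=
    (hp.mul hq).continuousOn.integrableOn_Icc
  have hint2 : IntegrableOn q (Set.Icc (-U) U) := hq.continuousOn.integrableOn_Icc
  have hvol : volume S ≠ ⊤ := by
    rw [hS, Real.volume_Ioo]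
    exact ENNReal.ofReal_ne_top
  have hint3 : Integrable (S.indicator (fun _ : ℝ => b)) volume :=
    (integrable_indicator_iff measurableSet_Ioo).2 (integrableOn_const hvol)
  have hnn : ∀ t, 0 ≤ S.indicator (fun _ : ℝ => b) t :=
    fun t => Set.indicator_nonneg (fun _ _ => hb) t
  have e1 : ∫ t in Set.Icc (-U) U, p t * q t ≤
      ∫ t in Set.Icc (-U) U, (a * q t + S.indicator (fun _ : ℝ => b) t) := by
    refine setIntegral_mono_on hint1 ((hint2.const_mul a).add hint3.integrableOn)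
      measurableSet_Icc fun t ht => ?_
    rcases le_or_gt M |T + t| with h | h
    · have := mul_le_mul_of_nonneg_right (h1 t ht h) (hq0 t)
      have := hnn t
      linarith
    · have hmem : t ∈ S := by
        rw [hS, Set.mem_Ioo]
        rw [abs_lt] at h
        constructor <;> linarith only [h, h.1, h.2]
      rw [Set.indicator_of_mem hmem]
      have := h2 t ht h
      have := mul_nonneg ha (hq0 t)
      linarith
  have e2 : ∫ t in Set.Icc (-U) U, (a * q t + S.indicator (fun _ : ℝ => b) t) =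
      a * (∫ t in Set.Icc (-U) U, q t) + ∫ t in Set.Icc (-U) U, S.indicator (fun _ : ℝ => b) t := by
    rw [integral_add (hint2.const_mul a) hint3.integrableOn, integral_const_mul]
  have e3 : ∫ t in Set.Icc (-U) U, S.indicator (fun _ : ℝ => b) t ≤ 2 * M * b := by
    refine (setIntegral_le_integral hint3 (Filter.Eventually.of_forall hnn)).trans ?_
    rw [integral_indicator_const _ measurableSet_Ioo, Real.volume_real_Ioo_of_le (by linarith only [hM]),
      smul_eq_mul]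
    exact le_of_eq (by ring)
  linarith only [e1, e2, e3]

private theorem MscY_ee_cont (y : ℝ) (T : ℝ) : Continuous fun t : ℝ => ee (-((T + t) * y)) := by
  unfold Pool.Agent.H91.PK.ee
  fun_prop

private theorem MscY_norm_ee (t : ℝ) : ‖ee t‖ = 1 := Pool.Agent.H91.PK.LSa_norm_ee t

private theorem MscY_Pl_cont (P d l : ℕ) (T : ℝ) : Continuous fun t : ℝ => Pl P d l (T + t) := by
  unfold Pl
  exact continuous_finsetSum _ fun p _ => MscY_ee_cont _ _

private theorem MscY_Kl_cont (f : ℕ → ℝ) (K1 K2 : ℕ) (a T : ℝ) :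
    Continuous fun t : ℝ => Kl f K1 K2 a (T + t) := by
  unfold Kl
  exact continuous_finsetSum _ fun p _ => continuous_const.mul (MscY_ee_cont _ _)

private theorem MscY_Pl_le (P d l : ℕ) (s : ℝ) : ‖Pl P d l s‖ ≤ P := by
  unfold Pl
  refine (norm_sum_le _ _).trans ?_
  simp only [MscY_norm_ee, sum_const, nsmul_eq_mul, mul_one]
  have h : ((pb P).filter (fun p => p % d = l % d)).card ≤ P := by
    refine (Finset.card_filter_le _ _).trans ?_
    unfold Pool.Agent.H35.W.pb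
    refine (Finset.card_filter_le _ _).trans ?_
    rw [Nat.card_Ioc]
    omega
  exact_mod_cast h

/-- `Kl` as a sum over `[1, K2]` -/
private theorem MscY_Kl_eq (f : ℕ → ℝ) (K1 K2 : ℕ) (a s : ℝ) :
    Kl f K1 K2 a s = ∑ m ∈ Icc 1 K2, ((cut K1 K2 f m : ℂ) * ee (-(m * a))) *
      ee (-(s * Real.log m)) := by
  unfold Kl
  have hsub : Ioc K1 K2 ⊆ Icc 1 K2 := by
    intro m hm
    rw [mem_Ioc] at hm
    rw [mem_Icc]
    omega
  rw [← sum_subset hsub (f := fun m => ((cut K1 K2 f m : ℂ) * ee (-(m * a))) *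
      ee (-(s * Real.log m)))]
  · refine Finset.sum_congr rfl fun m hm => ?_
    unfold cut
    rw [if_pos hm]
  · intro m _ hm
    unfold cut
    rw [if_neg hm]
    simp

/-- mean square of `Kl` -/
private theorem MscY_Kl_ms (f : ℕ → ℝ) (K1 K2 w0 Y : ℕ) (L a T U : ℝ) (hK : 1 ≤ K2) (hU : 0 ≤ U)
    (h : SqB (cut K1 K2 f) w0 Y L) (hw : w0 ≤ K2 + 1) (hY : K2 + 1 ≤ Y) :
    ∫ t in Set.Icc (-U) U, ‖Kl f K1 K2 a (T + t)‖ ^ 2 ≤
      (2 * U + 2 * K2 * (1 + Real.log K2)) * ((K2 + 1) * L ^ 4) := by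
  have h1 := mvt (fun m => (cut K1 K2 f m : ℂ) * ee (-(m * a))) K2 U T hK hU
  simp only [← MscY_Kl_eq] at h1
  refine h1.trans ?_
  have h2 : ∑ m ∈ Icc 1 K2, ‖(cut K1 K2 f m : ℂ) * ee (-(m * a))‖ ^ 2 ≤ (K2 + 1) * L ^ 4 := by
    have h3 := h 0 (K2 + 1) hw (by omega)
    rw [zero_add] at h3
    push_cast at h3
    refine le_trans ?_ h3
    have h4 : ∑ m ∈ Icc 1 K2, ‖(cut K1 K2 f m : ℂ) * ee (-(m * a))‖ ^ 2 =
        ∑ m ∈ Icc 1 K2, cut K1 K2 f m ^ 2 := by
      refine Finset.sum_congr rfl fun m _ => ?_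
      rw [norm_mul, MscY_norm_ee, mul_one, Complex.norm_real, Real.norm_eq_abs, sq_abs]
    rw [h4]
    refine Finset.sum_le_sum_of_subset_of_nonneg ?_ fun m _ _ => sq_nonneg _
    intro m hm
    rw [mem_Icc] at hm
    rw [mem_Ico]
    omega
  have h5 : 0 ≤ 2 * U + 2 * K2 * (1 + Real.log K2) := by
    have : 0 ≤ Real.log K2 := Real.log_natCast_nonneg K2
    positivity
  exact mul_le_mul_of_nonneg_left h2 h5

/-- the elementary thresholds -/
private theorem MscY_big (t2 : ℝ) (ht2 : 0 < t2) : ∃ N0 : ℕ, ∀ N : ℕ, N0 ≤ N →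
    50 ≤ Real.log N ∧ 12 ≤ Real.exp (Real.log N ^ t2) ∧ 3 ≤ N := by
  have h1 := Real.tendsto_log_atTop.eventually
    ((tendsto_rpow_atTop ht2).eventually (Filter.eventually_ge_atTop (11 : ℝ)))
  have h2 := (Real.tendsto_log_atTop.eventually (Filter.eventually_ge_atTop (50 : ℝ))).and
    (h1.and (Filter.eventually_ge_atTop (3 : ℝ)))
  have h3 := tendsto_natCast_atTop_atTop (R := ℝ) |>.eventually h2
  obtain ⟨x1, hx1⟩ := Filter.eventually_atTop.1 h3
  refine ⟨x1, fun N hN => ?_⟩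
  obtain ⟨g1, g2, g3⟩ := hx1 N hN
  refine ⟨g1, ?_, by exact_mod_cast g3⟩
  have := Real.add_one_le_exp (Real.log N ^ t2)
  linarith only [g2, this]

/-- final arithmetic -/
private theorem MscY_arith (N P K2 d U L : ℝ) (A' C' K' : ℕ) (hN : 0 < N) (hP : 0 < P)
    (hL : 50 ≤ L) (hd : d ≤ L ^ C') (hd0 : 0 ≤ d) (hU : 1 ≤ U) (hUP : U * P ≤ N)
    (hK : 1 ≤ K2) (hKP : K2 * P ≤ 16 * N) (lk : ℝ) (hlk : lk ≤ L) (hlk0 : 0 ≤ lk) :
    d * (d * ((P / L ^ (C' + A' + 6)) ^ 2 * ((2 * U + 2 * K2 * (1 + lk)) * ((K2 + 1) * L ^ 4)) +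
      2 * L ^ K' * (P * (K2 / L ^ (C' + K' + A' + 10))) ^ 2)) ≤ N ^ 2 / L ^ A' := by
  have hL0 : 0 < L := by linarith only [hL]
  have hL1 : 1 ≤ L := by linarith only [hL]
  have hdd : d * d ≤ (L ^ C') ^ 2 := by
    rw [sq]
    exact mul_le_mul hd hd hd0 (by positivity)
  have hPU : P * U ≤ N := by linarith only [hUP]
  -- first term
  have a1 : P * (2 * U + 2 * K2 * (1 + lk)) ≤ N * (66 * L) := by
    have e1 : P * K2 * (1 + lk) ≤ 16 * N * (2 * L) := by
      have : P * K2 ≤ 16 * N := by linarith only [hKP]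
      exact mul_le_mul this (by linarith only [hL, hlk]) (by linarith only [hlk0]) (by positivity)
    have e2 : N ≤ N * L := le_mul_of_one_le_right hN.le hL1
    nlinarith only [hUP, e1, e2]
  have a2 : P * (K2 + 1) ≤ 32 * N := by
    have : P * 1 ≤ P * K2 := mul_le_mul_of_nonneg_left hK hP.le
    linarith only [hKP, this]
  have a3 : P ^ 2 * ((2 * U + 2 * K2 * (1 + lk)) * ((K2 + 1) * L ^ 4)) ≤ N ^ 2 * L ^ 7 := by
    have e1 : 0 ≤ 2 * U + 2 * K2 * (1 + lk) := by positivity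
    calc P ^ 2 * ((2 * U + 2 * K2 * (1 + lk)) * ((K2 + 1) * L ^ 4))
        = (P * (2 * U + 2 * K2 * (1 + lk))) * (P * (K2 + 1)) * L ^ 4 := by ring
      _ ≤ (N * (66 * L)) * (32 * N) * L ^ 4 := by
          refine mul_le_mul_of_nonneg_right (mul_le_mul a1 a2 (by positivity) (by positivity)) (by positivity)
      _ = N ^ 2 * (2112 * L ^ 5) := by ring
      _ ≤ N ^ 2 * L ^ 7 := by
          refine mul_le_mul_of_nonneg_left ?_ (by positivity)
          have : 2112 ≤ L ^ 2 := by nlinarith only [hL]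
          calc 2112 * L ^ 5 ≤ L ^ 2 * L ^ 5 := mul_le_mul_of_nonneg_right this (by positivity)
            _ = L ^ 7 := by ring
  have b1 : P ^ 2 * K2 ^ 2 ≤ 256 * N ^ 2 := by
    have : (P * K2) ^ 2 ≤ (16 * N) ^ 2 := pow_le_pow_left₀ (by positivity) (by linarith only [hKP]) 2
    nlinarith only [this]
  have c1 : (P / L ^ (C' + A' + 6)) ^ 2 * ((2 * U + 2 * K2 * (1 + lk)) * ((K2 + 1) * L ^ 4)) ≤
      N ^ 2 / ((L ^ C') ^ 2 * L ^ A') * (1 / 2) := by
    rw [div_pow, div_mul_eq_mul_div, div_le_iff₀ (by positivity)]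
    refine a3.trans ?_
    have e : N ^ 2 / ((L ^ C') ^ 2 * L ^ A') * (1 / 2) * (L ^ (C' + A' + 6)) ^ 2 =
        N ^ 2 * (L ^ 7 * (L ^ A' * L ^ 5 / 2)) := by
      rw [pow_add, pow_add]
      field_simp
    rw [e]
    refine mul_le_mul_of_nonneg_left ?_ (by positivity)
    have h1 : 1 ≤ L ^ A' := one_le_pow₀ hL1
    have h2 : 2 ≤ L ^ 5 := by
      calc (2 : ℝ) ≤ L := by linarith only [hL]
        _ = L ^ 1 := (pow_one L).symm
        _ ≤ L ^ 5 := pow_le_pow_right₀ hL1 (by norm_num)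
    refine le_mul_of_one_le_right (by positivity) ?_
    nlinarith only [h1, h2]
  have c2 : 2 * L ^ K' * (P * (K2 / L ^ (C' + K' + A' + 10))) ^ 2 ≤
      N ^ 2 / ((L ^ C') ^ 2 * L ^ A') * (1 / 2) := by
    have e0 : 2 * L ^ K' * (P * (K2 / L ^ (C' + K' + A' + 10))) ^ 2 =
        2 * L ^ K' * (P ^ 2 * K2 ^ 2) / (L ^ (C' + K' + A' + 10)) ^ 2 := by
      field_simp
    rw [e0, div_le_iff₀ (by positivity)]
    have e : N ^ 2 / ((L ^ C') ^ 2 * L ^ A') * (1 / 2) * (L ^ (C' + K' + A' + 10)) ^ 2 =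
        N ^ 2 * L ^ K' * (L ^ K' * L ^ A' * L ^ 20 / 2) := by
      rw [pow_add, pow_add, pow_add]
      field_simp
    rw [e]
    have h1 : 1 ≤ L ^ A' := one_le_pow₀ hL1
    have h1' : 1 ≤ L ^ K' := one_le_pow₀ hL1
    have h3 : 1 ≤ L ^ K' * L ^ A' := one_le_mul_of_one_le_of_one_le h1' h1
    have h2 : 1024 ≤ L ^ 20 := by
      calc (1024 : ℝ) ≤ L ^ 2 := by nlinarith only [hL]
        _ ≤ L ^ 20 := pow_le_pow_right₀ hL1 (by norm_num)
    have h4 : 512 ≤ L ^ K' * L ^ A' * L ^ 20 / 2 := by nlinarith only [h3, h2]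
    calc 2 * L ^ K' * (P ^ 2 * K2 ^ 2) ≤ 2 * L ^ K' * (256 * N ^ 2) :=
          mul_le_mul_of_nonneg_left b1 (by positivity)
      _ = N ^ 2 * L ^ K' * 512 := by ring
      _ ≤ _ := mul_le_mul_of_nonneg_left h4 (by positivity)
  have hX : 0 ≤ N ^ 2 / ((L ^ C') ^ 2 * L ^ A') := by positivity
  calc _ = d * d * ((P / L ^ (C' + A' + 6)) ^ 2 * ((2 * U + 2 * K2 * (1 + lk)) * ((K2 + 1) * L ^ 4)) +
      2 * L ^ K' * (P * (K2 / L ^ (C' + K' + A' + 10))) ^ 2) := by ring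
    _ ≤ d * d * (N ^ 2 / ((L ^ C') ^ 2 * L ^ A')) := by
        refine mul_le_mul_of_nonneg_left ?_ (by positivity)
        linarith only [c1, c2]
    _ ≤ (L ^ C') ^ 2 * (N ^ 2 / ((L ^ C') ^ 2 * L ^ A')) := mul_le_mul_of_nonneg_right hdd hX
    _ = N ^ 2 / L ^ A' := by
        field_simp

private theorem MscY_SqB (f : ℕ → ℝ) (K1 K2 w0 Y : ℕ) (L : ℝ) (h : SqB f w0 Y L) :
    SqB (cut K1 K2 f) w0 Y L := by
  intro u w h1 h2
  refine le_trans (Finset.sum_le_sum fun k _ => ?_) (h u w h1 h2)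
  unfold cut
  split_ifs
  · exact le_rfl
  · rw [zero_pow two_ne_zero]
    exact sq_nonneg _

theorem msc_y (t1 t2 : ℝ) (h0 : 0 < t1) (h12 : t1 < t2) (hVK : VKw t1) (A' C' : ℕ) : ∃ m k N0 : ℕ, ∀ N : ℕ, N0 ≤ N →
    ∀ (P X d b w0 : ℕ) (f : ℕ → ℝ) (T U : ℝ), Real.exp (Real.log N ^ t2) ≤ P → P ^ 2 ≤ N → 1 ≤ d → (d : ℝ) ≤ Real.log N ^ C' →
    |T| ≤ (N : ℝ) ^ 2 → 1 ≤ U → U * P ≤ N → 24 * N ≤ X → w0 ≤ 12 * N / P → SqB f w0 (N ^ 4) (Real.log N) →
    SWf f N P C' m k →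
    ∫ t in Set.Icc (-U) U, ‖Cs (cc (cut (N / (16 * P)) (12 * N / P) f) P ((b : ℝ) / d) T) X t‖ ^ 2
      ≤ (N : ℝ) ^ 2 / Real.log N ^ A' := by
  obtain ⟨K', N1, hN1⟩ := vk_pr_w t1 t2 h0 h12 hVK (C' + A' + 6) C'
  obtain ⟨N4, hN4⟩ := MscY_big t2 (h0.trans h12)
  refine ⟨K', C' + K' + A' + 10, max N1 N4, fun N hN P X d b w0 f T U hP1 hP2 hd1 hd2 hT hU hUP hX hw0
    hsq hSW => ?_⟩
  have g1 := hN1 N (le_trans (le_max_left _ _) hN)
  obtain ⟨hL, hbig, hN3'⟩ := hN4 N (le_trans (le_max_right _ _) hN)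
  unfold SWf at hSW
  set L := Real.log N with hLdef
  have hL1 : 1 ≤ L := by linarith only [hL]
  have hL0 : 0 < L := by linarith only [hL]
  have hNR : (3 : ℝ) ≤ N := by exact_mod_cast hN3'
  have hP0 : (0 : ℝ) < P := lt_of_lt_of_le (Real.exp_pos _) hP1
  have hP0' : 0 < P := by exact_mod_cast hP0
  have hP12 : 12 ≤ P := by
    have h1 : (12 : ℝ) ≤ P := hbig.trans hP1
    exact_mod_cast h1
  have hPN : P ≤ N := by nlinarith only [hP2, hP0']
  set K1 := N / (16 * P) with hK1def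
  set K2 := 12 * N / P with hK2def
  have hK2P : K2 * P ≤ 12 * N := Nat.div_mul_le_self _ _
  have hK2N : K2 ≤ N := by
    rw [hK2def]
    refine Nat.div_le_of_le_mul ?_
    exact Nat.mul_le_mul_right N hP12
  have hK2' : 1 ≤ K2 := by
    rw [hK2def, Nat.le_div_iff_mul_le hP0']
    omega
  have hK2R : (1 : ℝ) ≤ K2 := by exact_mod_cast hK2'
  have hK20 : (0 : ℝ) < K2 := by linarith only [hK2R]
  have hNP : (N / P : ℝ) ≤ K2 := by
    rw [div_le_iff₀ hP0]
    have h1 : 12 * N < (K2 + 1) * P := by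
      have h2 := Nat.lt_div_mul_add (a := 12 * N) hP0'
      rw [← hK2def] at h2
      rw [add_mul, one_mul]
      exact h2
    have h3 : N ≤ K2 * P := by
      have h4 : (K2 + 1) * P = K2 * P + P := by ring
      rw [h4] at h1
      omega
    exact_mod_cast h3
  have hX' : 2 * P * K2 ≤ X := by
    have h1 : 2 * P * K2 = 2 * (K2 * P) := by ring
    omega
  have hUN : U ≤ N := by
    have hP1' : (1 : ℝ) ≤ P := by
      exact_mod_cast hP0'
    nlinarith only [hUP, hP1, hbig, hU]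
  -- pointwise
  have hpt : ∀ t : ℝ, ‖Cs (cc (cut K1 K2 f) P ((b : ℝ) / d) T) X t‖ ^ 2 ≤
      d * ∑ l ∈ range d, ‖Pl P d l (T + t)‖ ^ 2 * ‖Kl f K1 K2 ((l : ℝ) * b / d) (T + t)‖ ^ 2 :=
    fun t => fac_sq f P K1 K2 X d b T t hd1 hX'
  have hcontP : ∀ l, Continuous fun t : ℝ => ‖Pl P d l (T + t)‖ ^ 2 :=
    fun l => (MscY_Pl_cont P d l T).norm.pow 2
  have hcontK : ∀ l : ℕ, Continuous fun t : ℝ => ‖Kl f K1 K2 ((l : ℝ) * b / d) (T + t)‖ ^ 2 :=
    fun l => (MscY_Kl_cont f K1 K2 _ T).norm.pow 2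
  have hcontC : Continuous fun t : ℝ => ‖Cs (cc (cut K1 K2 f) P ((b : ℝ) / d) T) X t‖ ^ 2 := by
    refine Continuous.pow (Continuous.norm ?_) 2
    unfold Cs
    refine continuous_finsetSum _ fun m _ => continuous_const.mul ?_
    have := MscY_ee_cont (Real.log m) 0
    simpa only [zero_add] using this
  have hI1 : ∫ t in Set.Icc (-U) U, ‖Cs (cc (cut K1 K2 f) P ((b : ℝ) / d) T) X t‖ ^ 2 ≤
      d * ∑ l ∈ range d, ∫ t in Set.Icc (-U) U,
        ‖Pl P d l (T + t)‖ ^ 2 * ‖Kl f K1 K2 ((l : ℝ) * b / d) (T + t)‖ ^ 2 := by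
    have hi : ∀ l ∈ range d, Integrable (fun t : ℝ => ‖Pl P d l (T + t)‖ ^ 2 *
        ‖Kl f K1 K2 ((l : ℝ) * b / d) (T + t)‖ ^ 2) (volume.restrict (Set.Icc (-U) U)) :=
      fun l _ => ((hcontP l).mul (hcontK l)).continuousOn.integrableOn_Icc
    rw [← integral_finsetSum _ hi, ← integral_const_mul]
    refine setIntegral_mono_on hcontC.continuousOn.integrableOn_Icc ?_ measurableSet_Icc
      fun t _ => hpt t
    refine Continuous.continuousOn ?_ |>.integrableOn_Icc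
    exact continuous_const.mul (continuous_finsetSum _ fun l _ => (hcontP l).mul (hcontK l))
  refine hI1.trans ?_
  -- each class
  have hcl : ∀ l ∈ range d, ∫ t in Set.Icc (-U) U,
        ‖Pl P d l (T + t)‖ ^ 2 * ‖Kl f K1 K2 ((l : ℝ) * b / d) (T + t)‖ ^ 2 ≤
      (P / L ^ (C' + A' + 6)) ^ 2 * ((2 * U + 2 * K2 * (1 + Real.log K2)) * ((K2 + 1) * L ^ 4)) +
      2 * L ^ K' * (P * (K2 / L ^ (C' + K' + A' + 10))) ^ 2 := by
    intro l _
    have k1 := MscY_int (fun t => ‖Pl P d l (T + t)‖ ^ 2)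
      (fun t => ‖Kl f K1 K2 ((l : ℝ) * b / d) (T + t)‖ ^ 2) (hcontP l) (hcontK l)
      (fun t => by positivity) U T (L ^ K') ((P / L ^ (C' + A' + 6)) ^ 2)
      ((P * (K2 / L ^ (C' + K' + A' + 10))) ^ 2) (by positivity) (by positivity) (by positivity)
      ?_ ?_
    · refine k1.trans ?_
      have k2 := MscY_Kl_ms f K1 K2 w0 (N ^ 4) L ((l : ℝ) * b / d) T U hK2' (by linarith only [hU])
        (MscY_SqB f K1 K2 w0 (N ^ 4) L hsq) ?_ ?_
      · have := mul_le_mul_of_nonneg_left k2 (by positivity : (0 : ℝ) ≤ (P / L ^ (C' + A' + 6)) ^ 2)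
        linarith only [this]
      · omega
      · have : N + 1 ≤ N ^ 4 := by
          calc N + 1 ≤ N * N := by nlinarith only [hP12, hPN, hN3']
            _ = N ^ 2 := (sq N).symm
            _ ≤ N ^ 4 := Nat.pow_le_pow_right (by omega) (by norm_num)
        omega
    · intro t ht hM
      rw [Set.mem_Icc] at ht
      have habs : |T + t| ≤ (N : ℝ) ^ 3 := by
        have h1 : |t| ≤ U := abs_le.2 ht
        have h2 : |T + t| ≤ |T| + |t| := abs_add_le _ _
        nlinarith only [hT, hNR, hUN, h1, h2, sq_nonneg (N : ℝ)]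
      have k2 := g1 P d l (T + t) hP1 hPN hd1 hd2 hM habs
      exact pow_le_pow_left₀ (norm_nonneg _) k2 2
    · intro t ht hM
      have k2 := hSW d (l * b) (T + t) hd1 hd2 hM.le
      have k3 : ‖Kl f K1 K2 ((l : ℝ) * b / d) (T + t)‖ ≤ K2 / L ^ (C' + K' + A' + 10) := by
        have k5 : (N / P : ℝ) / L ^ (C' + K' + A' + 10) ≤ K2 / L ^ (C' + K' + A' + 10) :=
          div_le_div_of_nonneg_right hNP (by positivity)
        refine le_trans (le_of_eq ?_) (k2.trans k5)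
        unfold Kl
        congr 1
        refine Finset.sum_congr rfl fun m _ => ?_
        rw [Nat.cast_mul]
      have k4 := MscY_Pl_le P d l (T + t)
      show ‖Pl P d l (T + t)‖ ^ 2 * ‖Kl f K1 K2 ((l : ℝ) * b / d) (T + t)‖ ^ 2 ≤ _
      rw [← mul_pow]
      exact pow_le_pow_left₀ (by positivity)
        (mul_le_mul k4 k3 (norm_nonneg _) (Nat.cast_nonneg P)) 2
  have hsum := Finset.sum_le_sum hcl
  rw [sum_const, card_range, nsmul_eq_mul] at hsum
  refine (mul_le_mul_of_nonneg_left hsum (Nat.cast_nonneg d)).trans ?_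
  refine MscY_arith N P K2 d U L A' C' K' (by linarith only [hNR]) hP0 hL hd2 (Nat.cast_nonneg d) hU
    hUP hK2R ?_ (Real.log K2) ?_ (Real.log_natCast_nonneg K2)
  · have h1 : K2 * P ≤ 16 * N := by omega
    exact_mod_cast h1
  · exact Real.log_le_log hK20 (by exact_mod_cast hK2N)

end Pool.Agent.H43.LM

end

section

/-!
# EHB Planch: Plancherel for integrable square integrable functions

Route A: Mathlib's `MeasureTheory.Lp.norm_fourier_eq` (`Mathlib/Analysis/Fourier/LpSpace.lean`) plus the identification of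
the `L²` Fourier transform with the integral: approximate `G` by Schwartz functions simultaneously in `L¹` and `L²`
(density, `SchwartzMap.toLp_fourier_eq`); the transforms converge uniformly and in `L²`, so the limits agree a.e.
Route B (elementary).  `Ĝ(ξ) = ∫ G(u) e(-uξ) du` is bounded and continuous.  For `ε > 0`
`∫ |Ĝ(ξ)|^2 exp(-π (ε ξ)^2) dξ = ∫∫ G(u) conj G(v) (1/ε) exp(-π ((u-v)/ε)^2) du dv` (Fubini and the Gaussian transform, `gft2` scaled).
The right side is `∫ c(w) (1/ε) exp(-π (w/ε)^2) dw` with `c(w) = ∫ G(u + w) conj G(u) du`, a bounded continuous function of `w`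
(continuity of translation in `L²`), `c(0) = ∫ |G|^2`, so it tends to `∫|G|^2` as `ε → 0` (for example by
`Real.tendsto_integral_gaussian_smul'` or directly).  The left side increases to `∫ |Ĝ|^2` (monotone convergence), which is
therefore finite.
-/

set_option autoImplicit false

namespace Pool.Agent.H76.EHB

open Finset MeasureTheory
open Pool.Agent.H91.PK (ee)
open scoped FourierTransform ContDiff SchwartzMap

private theorem planch_eq (G : ℝ → ℂ) (ξ : ℝ) :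
    ∫ u, G u * ee (-(u * ξ)) = FourierTransform.fourier G ξ := by
  rw [Real.fourier_real_eq_integral_exp_smul]
  apply integral_congr_ae
  filter_upwards with u
  rw [ee, smul_eq_mul, mul_comm]
  congr 2
  push_cast
  ring

private theorem planch_continuous (G : ℝ → ℂ) (h1 : Integrable G) :
    Continuous (FourierTransform.fourier G : ℝ → ℂ) :=
  VectorFourier.fourierIntegral_continuous Real.continuous_fourierChar
    (by exact continuous_inner) h1

private theorem planch_ae (G : ℝ → ℂ) (h1 : Integrable G) (h2 : MemLp G 2) :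
    (FourierTransform.fourier (h2.toLp G) : Lp (α := ℝ) ℂ 2) =ᵐ[volume]
      (FourierTransform.fourier G : ℝ → ℂ) := by
  apply ae_eq_of_integral_contDiff_smul_eq
  · exact (Lp.memLp _).locallyIntegrable one_le_two
  · exact (planch_continuous G h1).locallyIntegrable
  · intro g g_smooth g_cpt
    have hg₁ : HasCompactSupport (Complex.ofRealCLM ∘ g) := g_cpt.comp_left rfl
    have hg₂ : ContDiff ℝ ∞ (Complex.ofRealCLM ∘ g) := by fun_prop
    set φ : 𝓢(ℝ, ℂ) := hg₁.toSchwartzMap hg₂ with hφ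
    have e1 : ∫ x, g x • (FourierTransform.fourier (h2.toLp G) : Lp (α := ℝ) ℂ 2) x
        = Lp.toTemperedDistribution (FourierTransform.fourier (h2.toLp G) : Lp (α := ℝ) ℂ 2) φ := by
      rw [Lp.toTemperedDistribution_apply]
      rfl
    have e2 : Lp.toTemperedDistribution (FourierTransform.fourier (h2.toLp G) : Lp (α := ℝ) ℂ 2) φ
        = Lp.toTemperedDistribution (h2.toLp G) (FourierTransform.fourier φ) := by
      rw [← Lp.fourier_toTemperedDistribution_eq]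
      rfl
    have e3 : Lp.toTemperedDistribution (h2.toLp G) (FourierTransform.fourier φ)
        = ∫ x, (FourierTransform.fourier φ : 𝓢(ℝ, ℂ)) x • G x := by
      rw [Lp.toTemperedDistribution_apply]
      apply integral_congr_ae
      filter_upwards [h2.coeFn_toLp] with x hx
      rw [hx]
    have e4 : ∫ x, (FourierTransform.fourier φ : 𝓢(ℝ, ℂ)) x • G x
        = ∫ x, φ x • (FourierTransform.fourier G : ℝ → ℂ) x := by
      have h := VectorFourier.integral_fourierIntegral_smul_eq_flip (L := innerₗ ℝ)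
        (μ := volume) (ν := volume) (f := (φ : ℝ → ℂ)) (g := G)
        Real.continuous_fourierChar continuous_inner φ.integrable h1
      simpa using! h
    rw [e1, e2, e3, e4]
    rfl

private theorem planch_sq (f : Lp (α := ℝ) ℂ 2) : ‖f‖ ^ 2 = ∫ u, ‖f u‖ ^ 2 := by
  have h : (RCLike.re (inner ℂ f f) : ℝ) = ‖f‖ ^ 2 := by
    rw [inner_self_eq_norm_sq]
  rw [← h, L2.inner_def]
  have h2 : ∫ a, (inner ℂ (f a) (f a) : ℂ) = ((∫ u, ‖f u‖ ^ 2 : ℝ) : ℂ) := by
    rw [← integral_complex_ofReal]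
    apply integral_congr_ae
    filter_upwards with u
    rw [inner_self_eq_norm_sq_to_K]
    push_cast
    rfl
  rw [h2]
  exact Complex.ofReal_re _

theorem planch (G : ℝ → ℂ) (h1 : Integrable G) (h2 : MemLp G 2) :
    Integrable (fun ξ : ℝ => ‖∫ u, G u * ee (-(u * ξ))‖ ^ 2) ∧
      ∫ ξ : ℝ, ‖∫ u, G u * ee (-(u * ξ))‖ ^ 2 = ∫ u, ‖G u‖ ^ 2 := by
  have hae := planch_ae G h1 h2
  have hmem : MemLp (FourierTransform.fourier G : ℝ → ℂ) 2 :=
    (memLp_congr_ae hae).1 (Lp.memLp _)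
  have hfun : (fun ξ : ℝ => ‖∫ u, G u * ee (-(u * ξ))‖ ^ 2)
      = fun ξ : ℝ => ‖(FourierTransform.fourier G : ℝ → ℂ) ξ‖ ^ 2 := by
    funext ξ
    rw [planch_eq]
  rw [hfun]
  refine ⟨hmem.integrable_norm_pow (by norm_num), ?_⟩
  have e1 : ∫ ξ : ℝ, ‖(FourierTransform.fourier G : ℝ → ℂ) ξ‖ ^ 2
      = ∫ ξ : ℝ, ‖(FourierTransform.fourier (h2.toLp G) : Lp (α := ℝ) ℂ 2) ξ‖ ^ 2 := by
    apply integral_congr_ae
    filter_upwards [hae] with ξ hξ
    rw [hξ]
  have e2 : ∫ u, ‖G u‖ ^ 2 = ∫ u, ‖(h2.toLp G) u‖ ^ 2 := by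
    apply integral_congr_ae
    filter_upwards [h2.coeFn_toLp] with u hu
    rw [hu]
  rw [e1, e2, ← planch_sq, ← planch_sq, Lp.norm_fourier_eq]

end Pool.Agent.H76.EHB

end

section

/-!
# MID Plw: Plancherel for multiplicative windows

Proof.  `G(u) = Dw c X θ u = ∑_m c m 1[log m - θ ≤ u < log m]` is a bounded step function with compact support (in `L¹ ∩ L²`).
`∫ G(u) ee(-(u t)) du = ∑_m c m ee(-(t log m)) κ(t) = Cs c X t · κ(t)`, `κ(t) = ∫_{-θ}^0 ee(-(v t)) dv`, `‖κ(t)‖ ≤ θ`, `‖κ(t)‖ ≤ 1/(π |t|)`.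
`Pool.Agent.H76.EHB.planch`: `∫ ‖G‖^2 = ∫ ‖Cs c X t‖^2 ‖κ t‖^2 dt ≤ θ^2 ∫_{|t| ≤ U} ‖Cs‖^2 + ∫_{|t| > U} ‖Cs‖^2/(π^2 t^2) dt`.
Tail: dyadic pieces `2^j U < |t| ≤ 2^(j+1) U` and `mvt` (`τ = 0`): `≤ ∑_j (4^j U^2 π^2)^(-1) (2^(j+2) U + 2 X (1 + log X)) ∑|c|^2
≤ (4/U + 4 X (1+log X)/U^2) ∑ |c|^2` (or: `1/t^2 = ∫_{|t|}^∞ 2 v^(-3) dv` and Tonelli).
-/

set_option autoImplicit false

namespace Pool.Agent.H53.MID

open Finset MeasureTheory
open Pool.Agent.H91.PK (ee)

private noncomputable def Plw_k (θ t : ℝ) : ℂ := ∫ v in (-θ)..0, ee (-(v * t))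

private theorem Plw_cont (t : ℝ) : Continuous (fun v : ℝ => ee (-(v * t))) := by
  unfold ee
  fun_prop

private theorem Plw_cont2 (s : ℝ) : Continuous (fun t : ℝ => ee (-(t * s))) := by
  unfold ee
  fun_prop

private theorem Plw_k_le (θ t : ℝ) (hθ : 0 < θ) : ‖Plw_k θ t‖ ≤ θ := by
  have h := intervalIntegral.norm_integral_le_of_norm_le_const (a := -θ) (b := 0) (C := 1)
    (f := fun v : ℝ => ee (-(v * t))) (fun v _ => (Pool.Agent.H91.PK.LSa_norm_ee _).le)
  have h2 : |(0 : ℝ) - -θ| = θ := by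
    rw [sub_neg_eq_add, zero_add, abs_of_pos hθ]
  rw [h2, one_mul] at h
  exact h

private theorem Plw_k_le2 (θ t : ℝ) (ht : t ≠ 0) : ‖Plw_k θ t‖ ≤ 1 / (Real.pi * |t|) := by
  have hpi := Real.pi_pos
  have hc : (-(2 * Real.pi * t) * Complex.I : ℂ) ≠ 0 := by
    have : (2 * Real.pi * t : ℂ) ≠ 0 := by
      have h1 : (Real.pi : ℂ) ≠ 0 := by exact_mod_cast hpi.ne'
      have h2 : (t : ℂ) ≠ 0 := by exact_mod_cast ht
      exact mul_ne_zero (mul_ne_zero two_ne_zero h1) h2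
    exact mul_ne_zero (neg_ne_zero.2 this) Complex.I_ne_zero
  have e : ∀ v : ℝ, ee (-(v * t)) = Complex.exp ((-(2 * Real.pi * t) * Complex.I : ℂ) * (v : ℂ)) := by
    intro v
    unfold ee
    congr 1
    push_cast
    ring
  unfold Plw_k
  simp_rw [e]
  rw [integral_exp_mul_complex hc, norm_div]
  have h1 : ‖(-(2 * Real.pi * t) * Complex.I : ℂ)‖ = 2 * Real.pi * |t| := by
    rw [norm_mul, norm_neg, Complex.norm_I, mul_one, norm_mul, norm_mul]
    simp [abs_of_pos hpi]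
  rw [h1]
  have h2 : ∀ v : ℝ, ‖Complex.exp ((-(2 * Real.pi * t) * Complex.I : ℂ) * (v : ℂ))‖ = 1 := by
    intro v
    rw [← e]
    exact Pool.Agent.H91.PK.LSa_norm_ee _
  have h3 : ‖Complex.exp ((-(2 * Real.pi * t) * Complex.I : ℂ) * ((0 : ℝ) : ℂ)) -
      Complex.exp ((-(2 * Real.pi * t) * Complex.I : ℂ) * ((-θ : ℝ) : ℂ))‖ ≤ 2 := by
    refine (norm_sub_le _ _).trans ?_
    rw [h2, h2]
    norm_num
  have h4 : 0 < |t| := abs_pos.2 ht
  calc _ ≤ 2 / (2 * Real.pi * |t|) := div_le_div_of_nonneg_right h3 (by positivity)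
    _ = 1 / (Real.pi * |t|) := by
      field_simp

private theorem Plw_Dw (c : ℕ → ℂ) (X : ℕ) (θ u : ℝ) :
    Dw c X θ u = ∑ m ∈ Icc 1 X, (Set.Ico (Real.log m - θ) (Real.log m)).indicator (fun _ => c m) u := by
  unfold Dw
  rw [Finset.sum_filter]
  refine Finset.sum_congr rfl fun m _ => ?_
  by_cases h : u < Real.log m ∧ Real.log m ≤ u + θ
  · rw [if_pos h, Set.indicator_of_mem]
    exact ⟨by linarith [h.2], h.1⟩
  · rw [if_neg h, Set.indicator_of_notMem]
    rintro ⟨h1, h2⟩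
    exact h ⟨h2, by linarith⟩

private theorem Plw_int1 (c : ℕ → ℂ) (X : ℕ) (θ : ℝ) : Integrable (fun u => Dw c X θ u) := by
  simp_rw [Plw_Dw]
  refine integrable_finsetSum _ fun m _ => ?_
  rw [integrable_indicator_iff measurableSet_Ico]
  exact integrableOn_const (by simp) (by simp)

private theorem Plw_mem (c : ℕ → ℂ) (X : ℕ) (θ : ℝ) : MemLp (fun u => Dw c X θ u) 2 := by
  simp_rw [Plw_Dw]
  refine memLp_finsetSum _ fun m _ => ?_
  exact memLp_indicator_const 2 measurableSet_Ico (c m) (Or.inr (by simp))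

private theorem Plw_four (c : ℕ → ℂ) (X : ℕ) (θ t : ℝ) (hθ : 0 < θ) :
    ∫ u, Dw c X θ u * ee (-(u * t)) = Cs c X t * Plw_k θ t := by
  have h1 : ∀ u : ℝ, Dw c X θ u * ee (-(u * t)) = ∑ m ∈ Icc 1 X,
      (Set.Ico (Real.log m - θ) (Real.log m)).indicator (fun u : ℝ => c m * ee (-(u * t))) u := by
    intro u
    rw [Plw_Dw, Finset.sum_mul]
    refine Finset.sum_congr rfl fun m _ => ?_
    by_cases h : u ∈ Set.Ico (Real.log m - θ) (Real.log m)
    · rw [Set.indicator_of_mem h, Set.indicator_of_mem h]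
    · rw [Set.indicator_of_notMem h, Set.indicator_of_notMem h, zero_mul]
  simp_rw [h1]
  rw [integral_finsetSum]
  · unfold Cs
    rw [Finset.sum_mul]
    refine Finset.sum_congr rfl fun m _ => ?_
    rw [integral_indicator measurableSet_Ico, integral_Ico_eq_integral_Ioo, ← integral_Ioc_eq_integral_Ioo,
      ← intervalIntegral.integral_of_le (by linarith), intervalIntegral.integral_const_mul, mul_assoc]
    congr 1
    unfold Plw_k
    rw [← intervalIntegral.integral_const_mul]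
    have h2 := intervalIntegral.integral_comp_add_right (a := -θ) (b := 0)
      (fun u : ℝ => ee (-(u * t))) (Real.log m)
    have h3 : -θ + Real.log m = Real.log m - θ := by ring
    rw [h3, zero_add] at h2
    rw [← h2]
    refine intervalIntegral.integral_congr fun v _ => ?_
    show ee (-((v + Real.log m) * t)) = ee (-(t * Real.log m)) * ee (-(v * t))
    rw [← Pool.Agent.H91.PK.LSa_ee_add]
    congr 1
    ring
  · intro m _
    rw [integrable_indicator_iff measurableSet_Ico]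
    exact ((continuous_const.mul (Plw_cont t)).integrableOn_Icc).mono_set Set.Ico_subset_Icc_self

private theorem Plw_Cs_cont (c : ℕ → ℂ) (X : ℕ) : Continuous (fun t => Cs c X t) := by
  unfold Cs
  exact continuous_finsetSum _ fun m _ => continuous_const.mul (Plw_cont2 _)

/-- one dyadic step -/
private theorem Plw_step (c : ℕ → ℂ) (X : ℕ) (θ V : ℝ) (hX : 1 ≤ X) (hV : 0 < V)
    (hI : Integrable (fun t : ℝ => ‖Cs c X t * Plw_k θ t‖ ^ 2)) :
    ∫ t in Set.Icc (-(2 * V)) (2 * V), ‖Cs c X t * Plw_k θ t‖ ^ 2 ≤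
      (∫ t in Set.Icc (-V) V, ‖Cs c X t * Plw_k θ t‖ ^ 2) +
        1 / (9 * V ^ 2) * ((4 * V + 2 * X * (1 + Real.log X)) * ∑ m ∈ Icc 1 X, ‖c m‖ ^ 2) := by
  have hpi := Real.pi_gt_three
  have hmv := mvt c X (2 * V) 0 hX (by linarith)
  have hC : Continuous (fun t => ‖Cs c X t‖ ^ 2) := (Plw_Cs_cont c X).norm.pow 2
  have h1 : ∫ t in Set.Icc (-(2 * V)) (2 * V), ‖Cs c X t * Plw_k θ t‖ ^ 2 ≤
      ∫ t in Set.Icc (-(2 * V)) (2 * V), ((Set.Icc (-V) V).indicator (fun t => ‖Cs c X t * Plw_k θ t‖ ^ 2) t +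
        1 / (9 * V ^ 2) * ‖Cs c X t‖ ^ 2) := by
    refine setIntegral_mono_on hI.integrableOn ?_ measurableSet_Icc ?_
    · refine Integrable.add ?_ ?_
      · exact ((hI.integrableOn (s := Set.Icc (-V) V)).integrable_indicator measurableSet_Icc).integrableOn
      · exact (continuous_const.mul hC).integrableOn_Icc
    · intro t _
      by_cases h : t ∈ Set.Icc (-V) V
      · rw [Set.indicator_of_mem h]
        have : 0 ≤ 1 / (9 * V ^ 2) * ‖Cs c X t‖ ^ 2 := by positivity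
        linarith
      · rw [Set.indicator_of_notMem h, zero_add, norm_mul, mul_pow, mul_comm]
        refine mul_le_mul_of_nonneg_right ?_ (by positivity)
        have hlt : V < |t| := by
          by_contra hcon
          push Not at hcon
          exact h ⟨by linarith [(abs_le.1 hcon).1], (abs_le.1 hcon).2⟩
        have ht : t ≠ 0 := by
          intro h0
          rw [h0, abs_zero] at hlt
          linarith
        have h2 := Plw_k_le2 θ t ht
        have h3 : 1 / (Real.pi * |t|) ≤ 1 / (3 * V) := by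
          apply one_div_le_one_div_of_le (by positivity)
          exact mul_le_mul hpi.le hlt.le hV.le (by linarith)
        calc ‖Plw_k θ t‖ ^ 2 ≤ (1 / (3 * V)) ^ 2 := pow_le_pow_left₀ (norm_nonneg _) (h2.trans h3) 2
          _ = 1 / (9 * V ^ 2) := by
            field_simp
            norm_num
  refine h1.trans ?_
  rw [integral_add]
  · refine add_le_add ?_ ?_
    · rw [setIntegral_indicator measurableSet_Icc]
      refine le_of_eq ?_
      congr 2
      ext t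
      simp only [Set.mem_inter_iff, Set.mem_Icc]
      constructor
      · exact fun h => h.2
      · intro h
        exact ⟨⟨by linarith [h.1], by linarith [h.2]⟩, h⟩
    · rw [integral_const_mul]
      refine mul_le_mul_of_nonneg_left ?_ (by positivity)
      have h5 : ∀ t : ℝ, ∑ m ∈ Icc 1 X, c m * ee (-((0 + t) * Real.log m)) = Cs c X t := by
        intro t
        unfold Cs
        simp
      simp_rw [h5] at hmv
      refine hmv.trans (le_of_eq ?_)
      ring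
  · exact ((hI.integrableOn (s := Set.Icc (-V) V)).integrable_indicator measurableSet_Icc).integrableOn
  · exact (continuous_const.mul hC).integrableOn_Icc

private theorem Plw_iter (c : ℕ → ℂ) (X : ℕ) (θ U : ℝ) (hX : 1 ≤ X) (hU : 0 < U)
    (hI : Integrable (fun t : ℝ => ‖Cs c X t * Plw_k θ t‖ ^ 2)) (n : ℕ) :
    ∫ t in Set.Icc (-(2 ^ n * U)) (2 ^ n * U), ‖Cs c X t * Plw_k θ t‖ ^ 2 ≤
      (∫ t in Set.Icc (-U) U, ‖Cs c X t * Plw_k θ t‖ ^ 2) +
        (1 - 1 / 2 ^ n) * ((4 / U + 4 * X * (1 + Real.log X) / U ^ 2) * ∑ m ∈ Icc 1 X, ‖c m‖ ^ 2) := by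
  have hS : 0 ≤ ∑ m ∈ Icc 1 X, ‖c m‖ ^ 2 := Finset.sum_nonneg fun _ _ => by positivity
  have hlog : 0 ≤ Real.log X := Real.log_natCast_nonneg X
  induction n with
  | zero => simp
  | succ n ih =>
    have hV : 0 < 2 ^ n * U := by positivity
    have h1 := Plw_step c X θ (2 ^ n * U) hX hV hI
    have e1 : (2 : ℝ) ^ (n + 1) * U = 2 * (2 ^ n * U) := by ring
    rw [e1]
    have h2 : 1 / (9 * (2 ^ n * U) ^ 2) * ((4 * (2 ^ n * U) + 2 * X * (1 + Real.log X)) * ∑ m ∈ Icc 1 X, ‖c m‖ ^ 2) ≤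
        (1 / 2 ^ (n + 1)) * ((4 / U + 4 * X * (1 + Real.log X) / U ^ 2) * ∑ m ∈ Icc 1 X, ‖c m‖ ^ 2) := by
      rw [← mul_assoc (1 / (9 * (2 ^ n * U) ^ 2)), ← mul_assoc (1 / (2 : ℝ) ^ (n + 1))]
      refine mul_le_mul_of_nonneg_right ?_ hS
      have h3 : 1 / (9 * (2 ^ n * U) ^ 2) * (4 * (2 ^ n * U)) ≤ 1 / 2 ^ (n + 1) * (4 / U) := by
        rw [pow_succ]
        have hp : (0 : ℝ) < 2 ^ n := by positivity
        rw [one_div_mul_eq_div, one_div_mul_eq_div, div_div, div_le_div_iff₀ (by positivity) (by positivity)]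
        nlinarith [mul_pos hp hU, mul_pos (mul_pos hp hU) (mul_pos hp hU)]
      have h4 : 1 / (9 * (2 ^ n * U) ^ 2) * (2 * X * (1 + Real.log X)) ≤
          1 / 2 ^ (n + 1) * (4 * X * (1 + Real.log X) / U ^ 2) := by
        have hp : (1 : ℝ) ≤ 2 ^ n := one_le_pow₀ (by norm_num)
        have hA : 0 ≤ (X : ℝ) * (1 + Real.log X) := by positivity
        have e2 : 1 / (9 * (2 ^ n * U) ^ 2) * (2 * X * (1 + Real.log X)) =
            (X * (1 + Real.log X)) * (2 / (9 * (2 ^ n * U) ^ 2)) := by ring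
        have e3 : 1 / 2 ^ (n + 1) * (4 * X * (1 + Real.log X) / U ^ 2) =
            (X * (1 + Real.log X)) * (4 / (2 ^ (n + 1) * U ^ 2)) := by
          field_simp
        rw [e2, e3]
        refine mul_le_mul_of_nonneg_left ?_ hA
        rw [div_le_div_iff₀ (by positivity) (by positivity), pow_succ]
        have hU2 : 0 < U ^ 2 := by positivity
        nlinarith [mul_le_mul_of_nonneg_right hp (mul_nonneg (le_trans zero_le_one hp) hU2.le),
          mul_pos (lt_of_lt_of_le one_pos hp) hU2]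
      calc _ = 1 / (9 * (2 ^ n * U) ^ 2) * (4 * (2 ^ n * U)) +
            1 / (9 * (2 ^ n * U) ^ 2) * (2 * X * (1 + Real.log X)) := by ring
        _ ≤ _ := add_le_add h3 h4
        _ = _ := by ring
    have e4 : (1 : ℝ) - 1 / 2 ^ (n + 1) = (1 - 1 / 2 ^ n) + 1 / 2 ^ (n + 1) := by
      rw [pow_succ]
      field_simp
      ring
    rw [e4, add_mul]
    linarith

theorem plw (c : ℕ → ℂ) (X : ℕ) (θ U : ℝ) (hX : 1 ≤ X) (hθ : 0 < θ) (hU : 0 < U) :
    Integrable (fun u => ‖Dw c X θ u‖ ^ 2) ∧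
    ∫ u, ‖Dw c X θ u‖ ^ 2 ≤ θ ^ 2 * (∫ t in Set.Icc (-U) U, ‖Cs c X t‖ ^ 2)
      + (4 / U + 4 * X * (1 + Real.log X) / U ^ 2) * ∑ m ∈ Icc 1 X, ‖c m‖ ^ 2 := by
  have hm := Plw_mem c X θ
  refine ⟨hm.integrable_norm_pow (by norm_num), ?_⟩
  obtain ⟨hI, hE⟩ := Pool.Agent.H76.EHB.planch (fun u => Dw c X θ u) (Plw_int1 c X θ) hm
  simp_rw [Plw_four c X θ _ hθ] at hI hE
  rw [← hE]
  have hS : 0 ≤ ∑ m ∈ Icc 1 X, ‖c m‖ ^ 2 := Finset.sum_nonneg fun _ _ => by positivity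
  have hlog : 0 ≤ Real.log X := Real.log_natCast_nonneg X
  have h1 : ∫ t in Set.Icc (-U) U, ‖Cs c X t * Plw_k θ t‖ ^ 2 ≤ θ ^ 2 * (∫ t in Set.Icc (-U) U, ‖Cs c X t‖ ^ 2) := by
    rw [← integral_const_mul]
    refine setIntegral_mono_on hI.integrableOn ?_ measurableSet_Icc ?_
    · exact (continuous_const.mul ((Plw_Cs_cont c X).norm.pow 2)).integrableOn_Icc
    · intro t _
      rw [norm_mul, mul_pow, mul_comm]
      refine mul_le_mul_of_nonneg_right ?_ (by positivity)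
      exact pow_le_pow_left₀ (norm_nonneg _) (Plw_k_le θ t hθ) 2
  have hcov : AECover volume Filter.atTop (fun n : ℕ => Set.Icc (-(2 ^ n * U)) (2 ^ n * U)) := by
    have ht : Filter.Tendsto (fun n : ℕ => (2 : ℝ) ^ n * U) Filter.atTop Filter.atTop :=
      (tendsto_pow_atTop_atTop_of_one_lt (by norm_num)).atTop_mul_const hU
    exact aecover_Icc (Filter.tendsto_neg_atTop_atBot.comp ht) ht
  have hlim := hcov.integral_tendsto_of_countably_generated hI
  refine le_of_tendsto hlim (Filter.Eventually.of_forall fun n => ?_)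
  refine (Plw_iter c X θ U hX hU hI n).trans ?_
  refine add_le_add h1 ?_
  have h2 : 0 ≤ (4 / U + 4 * X * (1 + Real.log X) / U ^ 2) * ∑ m ∈ Icc 1 X, ‖c m‖ ^ 2 := by positivity
  have h3 : (0 : ℝ) ≤ 1 / 2 ^ n := by positivity
  nlinarith

end Pool.Agent.H53.MID

end

section

/-!
# LM MsY: mean square over multiplicative windows, general `f`, small `P`

Copy of `Pool.Agent.H53.TPS.ms_f` (file `H53/TPS/MsF.lean`) with `msc_y` in place of `msc_f` (compare `ms_w` in `H53/MIX/MsW.lean` for small `P`).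
-/

set_option autoImplicit false

namespace Pool.Agent.H43.LM

open Finset MeasureTheory
open Pool.Agent.H91.PK (ee)
open Pool.Agent.H35.W (pb)
open Pool.Agent.H53.MID
open Pool.Agent.H53.MIX (VKw)
open Pool.Agent.H53.TPS (SWf)

private theorem MsY_cc (f : ℕ → ℝ) (P m : ℕ) (a T : ℝ) : ‖cc f P a T m‖ = |Fp f P m| := by
  unfold cc
  rw [norm_mul, norm_mul, Pool.Agent.H91.PK.LSa_norm_ee, Pool.Agent.H91.PK.LSa_norm_ee, mul_one, mul_one,
    Complex.norm_real, Real.norm_eq_abs]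

private theorem MsY_card (P m : ℕ) (hm : 1 ≤ m) : (((pb P).filter (fun p => p ∣ m)).card : ℝ) ≤ 2 * Real.log m := by
  have hsub : (pb P).filter (fun p => p ∣ m) ⊆ m.primeFactors := by
    intro p hp
    rw [Finset.mem_filter] at hp
    unfold pb at hp
    rw [Finset.mem_filter] at hp
    exact Nat.mem_primeFactors.2 ⟨hp.1.2, hp.2, by omega⟩
  have h1 : 2 ^ m.primeFactors.card ≤ m := by
    calc 2 ^ m.primeFactors.card = ∏ _p ∈ m.primeFactors, 2 := by rw [Finset.prod_const]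
      _ ≤ ∏ p ∈ m.primeFactors, p := Finset.prod_le_prod' fun p hp => (Nat.prime_of_mem_primeFactors hp).two_le
      _ ≤ m := Nat.le_of_dvd (by omega) (Nat.prod_primeFactors_dvd m)
  have h2 : 2 ^ ((pb P).filter (fun p => p ∣ m)).card ≤ m :=
    (Nat.pow_le_pow_right (by norm_num) (Finset.card_le_card hsub)).trans h1
  have h3 : (2 : ℝ) ^ ((pb P).filter (fun p => p ∣ m)).card ≤ m := by exact_mod_cast h2
  have h4 := Real.log_le_log (by positivity) h3
  rw [Real.log_pow] at h4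
  have h5 := Real.log_two_gt_d9
  have h6 : (0 : ℝ) ≤ (((pb P).filter (fun p => p ∣ m)).card : ℝ) := by positivity
  nlinarith only [h4, h5]

private theorem MsY_sum (f : ℕ → ℝ) (P K1 K2 X : ℕ) (M S : ℝ) (hM0 : 0 ≤ M)
    (hM : ∀ m ∈ Icc 1 X, (((pb P).filter (fun p => p ∣ m)).card : ℝ) ≤ M)
    (hS : ∑ k ∈ Ico 0 (0 + (K2 + 1)), cut K1 K2 f k ^ 2 ≤ S) :
    ∑ m ∈ Icc 1 X, |Fp (cut K1 K2 f) P m| ^ 2 ≤ M * (P * S) := by
  have h1 : ∀ m ∈ Icc 1 X, |Fp (cut K1 K2 f) P m| ^ 2 ≤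
      M * ∑ p ∈ (pb P).filter (fun p => p ∣ m), cut K1 K2 f (m / p) ^ 2 := by
    intro m hm
    rw [sq_abs]
    unfold Fp
    refine sq_sum_le_card_mul_sum_sq.trans ?_
    exact mul_le_mul_of_nonneg_right (hM m hm) (Finset.sum_nonneg fun _ _ => sq_nonneg _)
  refine (Finset.sum_le_sum h1).trans ?_
  rw [← Finset.mul_sum]
  refine mul_le_mul_of_nonneg_left ?_ hM0
  have hS0 : 0 ≤ S := (Finset.sum_nonneg fun _ _ => sq_nonneg _).trans hS
  have h2 : ∑ m ∈ Icc 1 X, ∑ p ∈ (pb P).filter (fun p => p ∣ m), cut K1 K2 f (m / p) ^ 2 =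
      ∑ p ∈ pb P, ∑ m ∈ (Icc 1 X).filter (fun m => p ∣ m), cut K1 K2 f (m / p) ^ 2 := by
    simp_rw [Finset.sum_filter]
    exact Finset.sum_comm
  rw [h2]
  have h3 : ∀ p ∈ pb P, ∑ m ∈ (Icc 1 X).filter (fun m => p ∣ m), cut K1 K2 f (m / p) ^ 2 ≤ S := by
    intro p _
    refine le_trans ?_ hS
    have hinj : Set.InjOn (fun m => m / p) (((Icc 1 X).filter (fun m => p ∣ m) : Finset ℕ) : Set ℕ) := by
      intro a ha b hb hab
      rw [Finset.mem_coe, Finset.mem_filter] at ha hb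
      have e : a / p = b / p := hab
      rw [← Nat.div_mul_cancel ha.2, ← Nat.div_mul_cancel hb.2, e]
    rw [← Finset.sum_image (f := fun k => cut K1 K2 f k ^ 2) (g := fun m => m / p) hinj]
    rw [← Finset.sum_filter_ne_zero]
    refine Finset.sum_le_sum_of_subset_of_nonneg ?_ fun _ _ _ => sq_nonneg _
    intro k hk
    rw [Finset.mem_filter] at hk
    rw [Finset.mem_Ico]
    refine ⟨Nat.zero_le _, ?_⟩
    by_contra hcon
    apply hk.2
    have : cut K1 K2 f k = 0 := by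
      unfold cut
      rw [if_neg]
      rw [Finset.mem_Ioc]
      omega
    simp [this]
  refine (Finset.sum_le_sum h3).trans ?_
  rw [Finset.sum_const, nsmul_eq_mul]
  refine mul_le_mul_of_nonneg_right ?_ hS0
  have h4 : (pb P).card ≤ P := by
    unfold pb
    refine (Finset.card_filter_le _ _).trans ?_
    rw [Nat.card_Ioc]
    omega
  exact_mod_cast h4

theorem ms_y (t1 t2 : ℝ) (h0 : 0 < t1) (h12 : t1 < t2) (hVK : VKw t1) (A' C' : ℕ) : ∃ C4 m k N0 : ℕ, ∀ N : ℕ, N0 ≤ N →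
    ∀ (P X d b w0 : ℕ) (f : ℕ → ℝ) (T θ : ℝ), Real.exp (Real.log N ^ t2) ≤ P → P ^ 2 ≤ N → 1 ≤ d → (d : ℝ) ≤ Real.log N ^ C' →
    |T| ≤ (N : ℝ) ^ 2 → 24 * N ≤ X → X ≤ 64 * N → 0 < θ → θ ≤ 1 → P * Real.log N ^ C4 ≤ θ * N →
    w0 ≤ 12 * N / P → SqB f w0 (N ^ 4) (Real.log N) → SWf f N P C' m k →
    Integrable (fun u => ‖Dw (cc (cut (N / (16 * P)) (12 * N / P) f) P ((b : ℝ) / d) T) X θ u‖ ^ 2) ∧
    ∫ u, ‖Dw (cc (cut (N / (16 * P)) (12 * N / P) f) P ((b : ℝ) / d) T) X θ u‖ ^ 2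
      ≤ θ ^ 2 * (N : ℝ) ^ 2 / Real.log N ^ A' := by
  obtain ⟨m, k, N1, hN1⟩ := msc_y t1 t2 h0 h12 hVK (A' + 1) C'
  refine ⟨A' + 12, m, k, max N1 64, fun N hN P X d b w0 f T θ hP1 hP2 hd1 hd2 hT hX0 hX1 hθ0 hθ1 hθ2 hw hSqB hSWf => ?_⟩
  have hNN1 : N1 ≤ N := (le_max_left _ _).trans hN
  have hN64 : 64 ≤ N := (le_max_right _ _).trans hN
  have hN64' : (64 : ℝ) ≤ N := by exact_mod_cast hN64
  have hN0 : (0 : ℝ) < N := by linarith only [hN64']
  obtain ⟨L, hL⟩ : ∃ L, L = Real.log N := ⟨_, rfl⟩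
  have hlog64 : Real.log 64 = 6 * Real.log 2 := by
    rw [show (64 : ℝ) = 2 ^ 6 by norm_num, Real.log_pow]
    norm_num
  have hlog2 := Real.log_two_gt_d9
  have hL4 : 4 ≤ L := by
    rw [hL]
    have h1 := Real.log_le_log (by norm_num) hN64'
    linarith only [hlog64, hlog2, h1]
  have hL0 : 0 < L := by linarith only [hL4]
  have hX2 : 1 ≤ X := by omega
  have hlogX : Real.log X ≤ 2 * L := by
    have h1 : (X : ℝ) ≤ N * N := by
      have h2 : (X : ℝ) ≤ 64 * N := by exact_mod_cast hX1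
      nlinarith only [h2, hN64']
    have h3 := Real.log_le_log (by exact_mod_cast hX2) h1
    rw [Real.log_mul hN0.ne' hN0.ne', ← hL] at h3
    linarith only [h3]
  rw [← hL] at hd2 hθ2 hSqB ⊢
  have hP0 : (1 : ℝ) ≤ P := by
    refine le_trans ?_ hP1
    apply Real.one_le_exp
    exact Real.rpow_nonneg (Real.log_natCast_nonneg N) _
  have hP0' : 1 ≤ P := by exact_mod_cast hP0
  obtain ⟨K2, hK2⟩ : ∃ K2, K2 = 12 * N / P := ⟨_, rfl⟩
  have hPN : P ≤ N := by nlinarith only [hP2, hP0']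
  have hKP : K2 * P ≤ 12 * N := by
    rw [hK2]
    exact Nat.div_mul_le_self _ _
  have hK12 : 12 ≤ K2 := by
    rw [hK2]
    exact (Nat.le_div_iff_mul_le (by omega)).2 (by omega)
  have hSq : ∑ k ∈ Ico 0 (0 + (K2 + 1)), cut (N / (16 * P)) K2 f k ^ 2 ≤ ((K2 + 1 : ℕ) : ℝ) * L ^ 4 := by
    have h1 := hSqB 0 (K2 + 1) (by rw [hK2]; omega) ?_
    · refine le_trans (Finset.sum_le_sum fun k _ => ?_) h1
      unfold cut
      split_ifs
      · exact le_rfl
      · rw [zero_pow two_ne_zero]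
        exact sq_nonneg _
    · have h2 : K2 + 1 ≤ 13 * N := by
        have h3 : K2 ≤ 12 * N := by nlinarith only [hP0', hKP]
        omega
      have h4 : N * 64 ^ 3 ≤ N ^ 4 := by
        calc N * 64 ^ 3 ≤ N * N ^ 3 := Nat.mul_le_mul_left _ (Nat.pow_le_pow_left hN64 3)
          _ = N ^ 4 := by ring
      omega
  obtain ⟨U, hU⟩ : ∃ U, U = L ^ (A' + 12) / θ := ⟨_, rfl⟩
  have hLC1 : 1 ≤ L ^ (A' + 12) := one_le_pow₀ (by linarith only [hL4])
  have hU1 : 1 ≤ U := by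
    rw [hU, le_div_iff₀ hθ0]
    linarith only [hθ1, hLC1]
  have hUP : U * P ≤ N := by
    rw [hU, div_mul_eq_mul_div, div_le_iff₀ hθ0]
    linarith only [hθ2]
  have hU0 : 0 < U := by linarith only [hU1]
  have hθN : 1 ≤ θ * N := by
    refine le_trans ?_ hθ2
    nlinarith only [hP0, hLC1]
  have hmsc := hN1 N hNN1 P X d b w0 f T U hP1 hP2 hd1 (by rw [← hL]; exact hd2) hT hU1 hUP hX0 hw
    (by rw [← hL]; exact hSqB) hSWf
  rw [← hL, ← hK2] at hmsc
  rw [← hK2]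
  obtain ⟨hI, hplw⟩ := plw (cc (cut (N / (16 * P)) K2 f) P ((b : ℝ) / d) T) X θ U hX2 hθ0 hU0
  refine ⟨hI, hplw.trans ?_⟩
  have hsum : ∑ m ∈ Icc 1 X, ‖cc (cut (N / (16 * P)) K2 f) P ((b : ℝ) / d) T m‖ ^ 2 ≤ 128 * N * L ^ 5 := by
    simp_rw [MsY_cc]
    have h1 := MsY_sum f P (N / (16 * P)) K2 X (4 * L) (((K2 + 1 : ℕ) : ℝ) * L ^ 4) (by positivity) ?_ hSq
    · refine h1.trans ?_
      have h2 : (K2 : ℝ) * P ≤ 12 * N := by exact_mod_cast hKP
      have h5 : (P : ℝ) ≤ N := by exact_mod_cast hPN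
      push_cast
      have h3 : (P : ℝ) * ((K2 : ℝ) + 1) ≤ 32 * N := by nlinarith only [hN64', h2, h5]
      calc 4 * L * ((P : ℝ) * (((K2 : ℝ) + 1) * L ^ 4)) = (P * (K2 + 1)) * (4 * L ^ 5) := by ring
        _ ≤ (32 * N) * (4 * L ^ 5) := mul_le_mul_of_nonneg_right h3 (by positivity)
        _ = 128 * N * L ^ 5 := by ring
    · intro m hm
      rw [Finset.mem_Icc] at hm
      refine (MsY_card P m hm.1).trans ?_
      have h2 : Real.log m ≤ Real.log X :=
        Real.log_le_log (by exact_mod_cast hm.1) (by exact_mod_cast hm.2)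
      linarith only [hlogX, h2]
  have hX0r : (X : ℝ) ≤ 64 * N := by exact_mod_cast hX1
  have hlogX0 : 0 ≤ Real.log X := Real.log_natCast_nonneg X
  have hfac : 4 / U + 4 * X * (1 + Real.log X) / U ^ 2 ≤
      4 * θ / L ^ (A' + 12) + 768 * N * L * θ ^ 2 / (L ^ (A' + 12)) ^ 2 := by
    refine add_le_add (le_of_eq ?_) ?_
    · rw [hU]
      field_simp
    · rw [hU, div_pow, div_div_eq_mul_div]
      apply div_le_div_of_nonneg_right _ (by positivity)
      apply mul_le_mul_of_nonneg_right _ (by positivity)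
      have h1 : 1 + Real.log X ≤ 3 * L := by linarith only [hL4, hlogX]
      calc 4 * (X : ℝ) * (1 + Real.log X) ≤ 4 * (64 * N) * (3 * L) := by
            apply mul_le_mul (by linarith only [hX0r]) h1 (by linarith only [hlogX0]) (by positivity)
        _ = 768 * N * L := by ring
  have hfirst : θ ^ 2 * (∫ t in Set.Icc (-U) U, ‖Cs (cc (cut (N / (16 * P)) K2 f) P ((b : ℝ) / d) T) X t‖ ^ 2) ≤
      (1 / 4) * (θ ^ 2 * (N : ℝ) ^ 2 / L ^ A') := by
    refine (mul_le_mul_of_nonneg_left hmsc (by positivity)).trans ?_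
    have e0 : θ ^ 2 * ((N : ℝ) ^ 2 / L ^ (A' + 1)) = (θ ^ 2 * (N : ℝ) ^ 2 / L ^ A') * (1 / L) := by
      rw [pow_succ L A']
      field_simp
    rw [e0, mul_comm]
    have h1 : 0 ≤ θ ^ 2 * (N : ℝ) ^ 2 / L ^ A' := by positivity
    refine mul_le_mul_of_nonneg_right ?_ h1
    exact one_div_le_one_div_of_le (by norm_num) hL4
  have hsecond : (4 / U + 4 * X * (1 + Real.log X) / U ^ 2) *
      ∑ m ∈ Icc 1 X, ‖cc (cut (N / (16 * P)) K2 f) P ((b : ℝ) / d) T m‖ ^ 2 ≤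
      (1 / 2) * (θ ^ 2 * (N : ℝ) ^ 2 / L ^ A') := by
    have h0 : 0 ≤ ∑ m ∈ Icc 1 X, ‖cc (cut (N / (16 * P)) K2 f) P ((b : ℝ) / d) T m‖ ^ 2 :=
      Finset.sum_nonneg fun _ _ => by positivity
    refine (mul_le_mul hfac hsum h0 (by positivity)).trans ?_
    have e1 : (4 * θ / L ^ (A' + 12) + 768 * N * L * θ ^ 2 / (L ^ (A' + 12)) ^ 2) * (128 * N * L ^ 5) =
        (θ * N / L ^ A') * (512 / L ^ 7) + (θ ^ 2 * (N : ℝ) ^ 2 / L ^ A') * (98304 / L ^ (A' + 18)) := by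
      rw [add_mul]
      congr 1
      · rw [div_mul_eq_mul_div, div_mul_div_comm, div_eq_div_iff (by positivity) (by positivity)]
        ring
      · rw [div_mul_eq_mul_div, div_mul_div_comm, div_eq_div_iff (by positivity) (by positivity)]
        ring
    rw [e1]
    have h2 : θ * N / L ^ A' ≤ θ ^ 2 * (N : ℝ) ^ 2 / L ^ A' := by
      apply div_le_div_of_nonneg_right _ (by positivity)
      nlinarith only [hθN]
    have h3 : 512 / L ^ 7 ≤ 1 / 32 := by
      rw [div_le_div_iff₀ (by positivity) (by norm_num)]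
      have h4 : (4 : ℝ) ^ 7 ≤ L ^ 7 := pow_le_pow_left₀ (by norm_num) hL4 7
      norm_num at h4 ⊢
      linarith only [h4]
    have h5 : 98304 / L ^ (A' + 18) ≤ 1 / 32 := by
      rw [div_le_div_iff₀ (by positivity) (by norm_num)]
      have h4 : (4 : ℝ) ^ 18 ≤ L ^ 18 := pow_le_pow_left₀ (by norm_num) hL4 18
      have h6 : L ^ 18 ≤ L ^ (A' + 18) := pow_le_pow_right₀ (by linarith only [hL4]) (by omega)
      norm_num at h4 ⊢
      linarith only [h6, h4]
    have hq : 0 ≤ θ ^ 2 * (N : ℝ) ^ 2 / L ^ A' := by positivity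
    have hq2 : 0 ≤ θ * N / L ^ A' := by positivity
    have h7 : θ * N / L ^ A' * (512 / L ^ 7) ≤ (θ ^ 2 * (N : ℝ) ^ 2 / L ^ A') * (1 / 32) :=
      mul_le_mul h2 h3 (by positivity) hq
    have h8 : (θ ^ 2 * (N : ℝ) ^ 2 / L ^ A') * (98304 / L ^ (A' + 18)) ≤ (θ ^ 2 * (N : ℝ) ^ 2 / L ^ A') * (1 / 32) :=
      mul_le_mul_of_nonneg_left h5 hq
    linarith only [hq, h7, h8]
  have hq : 0 ≤ θ ^ 2 * (N : ℝ) ^ 2 / L ^ A' := by positivity
  linarith only [hfirst, hsecond, hq]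

end Pool.Agent.H43.LM

end
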