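import Mathlib

/-! The parts of this file: H91.GoldMertens, H92.EH.Exp, H91.GoldWeight, H76.EHB.Lap, H76.EHB.Vdc1, H92.EH.Dual. -/

section

/-!
Explicit weak forms of the theorem of Mertens for `∑ 1/p`.
-/

namespace Pool.Agent.H91.Gold

open Finset Real
open scoped ArithmeticFunction.vonMangoldt

/-- Discrete partial summation. -/
theorem abel_le {w z : ℕ} (hwz : w ≤ z) {c : ℝ} (hc : 0 ≤ c) {a b f : ℕ → ℝ}
    (hf0 : ∀ k, w < k → k ≤ z → 0 ≤ f k) (hf1 : 0 ≤ f (w + 1)) (hf : ∀ k, w < k → k < z → f (k + 1) ≤ f k)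
    (hA : ∀ m, w ≤ m → m ≤ z → ∑ k ∈ Ioc w m, a k ≤ ∑ k ∈ Ioc w m, b k + c) :
    ∑ k ∈ Ioc w z, a k * f k ≤ ∑ k ∈ Ioc w z, b k * f k + c * f (w + 1) := by
  have key : ∀ m, w ≤ m → m < z →
      (∑ k ∈ Ioc w (m + 1), b k + c - ∑ k ∈ Ioc w (m + 1), a k) * f (m + 1)
        ≤ ∑ k ∈ Ioc w (m + 1), b k * f k + c * f (w + 1) - ∑ k ∈ Ioc w (m + 1), a k * f k := by
    intro m hm
    induction m, hm using Nat.le_induction with
    | base =>
      intro _
      have : Ioc w (w + 1) = {w + 1} := by ext x; simp only [mem_Ioc, mem_singleton]; omega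
      rw [this]
      simp
      linarith only
    | succ m hm ih =>
      intro hmz
      have ih' := ih (by omega)
      have e : ∀ h : ℕ → ℝ, ∑ k ∈ Ioc w (m + 1 + 1), h k = ∑ k ∈ Ioc w (m + 1), h k + h (m + 1 + 1) := by
        intro h
        rw [sum_Ioc_succ_top (by omega)]
      rw [e, e, e, e]
      have h1 := hA (m + 1) (by omega) (by omega)
      have h2 := hf (m + 1) (by omega) hmz
      have h3 : (∑ k ∈ Ioc w (m + 1), b k + c - ∑ k ∈ Ioc w (m + 1), a k) * f (m + 1 + 1)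
          ≤ (∑ k ∈ Ioc w (m + 1), b k + c - ∑ k ∈ Ioc w (m + 1), a k) * f (m + 1) :=
        mul_le_mul_of_nonneg_left h2 (by linarith only [h1])
      nlinarith only [ih', h3]
  rcases eq_or_lt_of_le hwz with h | h
  · subst h
    simp
    positivity
  · obtain ⟨m, rfl⟩ : ∃ m, z = m + 1 := ⟨z - 1, by omega⟩
    have h1 := key m (by omega) (by omega)
    have h2 := hA (m + 1) (by omega) le_rfl
    have h3 := hf0 (m + 1) (by omega) le_rfl
    have h4 : 0 ≤ (∑ k ∈ Ioc w (m + 1), b k + c - ∑ k ∈ Ioc w (m + 1), a k) * f (m + 1) :=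
      mul_nonneg (by linarith only [h2]) h3
    linarith only [h1, h4]

/-- The sum of `Λ d / d` for `d ≤ n`. -/
noncomputable def Mt (n : ℕ) : ℝ := ∑ d ∈ Ioc 0 n, Λ d / d

theorem log_fact_eq (n : ℕ) : ∑ k ∈ Ioc 0 n, Real.log k = ∑ d ∈ Ioc 0 n, Λ d * ((n / d : ℕ) : ℝ) := by
  rw [← ArithmeticFunction.sum_Ioc_mul_zeta_eq_sum, ArithmeticFunction.vonMangoldt_mul_zeta]
  rfl

theorem log_fact_ge (n : ℕ) (hn : 1 ≤ n) : n * Real.log n - n ≤ ∑ k ∈ Ioc 0 n, Real.log k := by
  induction n, hn using Nat.le_induction with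
  | base => simp
  | succ n hn ih =>
    rw [sum_Ioc_succ_top (by omega)]
    have hn0 : (0 : ℝ) < n := by exact_mod_cast hn
    have h1 : Real.log ((n + 1 : ℕ) : ℝ) - Real.log n ≤ 1 / n := by
      rw [← Real.log_div (by positivity) hn0.ne']
      have := Real.log_le_sub_one_of_pos (x := ((n + 1 : ℕ) : ℝ) / n) (by positivity)
      have e : ((n + 1 : ℕ) : ℝ) / n - 1 = 1 / n := by push_cast; field_simp; ring
      linarith only [this, e]
    have h2 : (n : ℝ) * (Real.log ((n + 1 : ℕ) : ℝ) - Real.log n) ≤ 1 := by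
      calc (n : ℝ) * (Real.log ((n + 1 : ℕ) : ℝ) - Real.log n) ≤ n * (1 / n) :=
            mul_le_mul_of_nonneg_left h1 hn0.le
        _ = 1 := by field_simp
    push_cast at *
    nlinarith only [ih, h2]

theorem log_fact_le (n : ℕ) (hn : 1 ≤ n) :
    ∑ k ∈ Ioc 0 n, Real.log k ≤ n * Real.log n - n + 1 + Real.log n := by
  induction n, hn using Nat.le_induction with
  | base => simp
  | succ n hn ih =>
    rw [sum_Ioc_succ_top (by omega)]
    have hn0 : (0 : ℝ) < n := by exact_mod_cast hn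
    have h1 : 1 / ((n + 1 : ℕ) : ℝ) ≤ Real.log ((n + 1 : ℕ) : ℝ) - Real.log n := by
      have h := Real.log_le_sub_one_of_pos (x := (n : ℝ) / ((n + 1 : ℕ) : ℝ)) (by positivity)
      rw [Real.log_div hn0.ne' (by positivity)] at h
      have e : (n : ℝ) / ((n + 1 : ℕ) : ℝ) - 1 = - (1 / ((n + 1 : ℕ) : ℝ)) := by
        push_cast; field_simp; ring
      linarith only [h, e]
    have h2 : 1 ≤ ((n + 1 : ℕ) : ℝ) * (Real.log ((n + 1 : ℕ) : ℝ) - Real.log n) := by
      calc (1 : ℝ) = ((n + 1 : ℕ) : ℝ) * (1 / ((n + 1 : ℕ) : ℝ)) := by field_simp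
        _ ≤ _ := mul_le_mul_of_nonneg_left h1 (by positivity)
    push_cast at *
    nlinarith only [ih, h2]

theorem Mt_ge (n : ℕ) (hn : 1 ≤ n) : Real.log n - 1 ≤ Mt n := by
  have hn0 : (0 : ℝ) < n := by exact_mod_cast hn
  have h1 := log_fact_ge n hn
  rw [log_fact_eq] at h1
  have h2 : ∑ d ∈ Ioc 0 n, Λ d * ((n / d : ℕ) : ℝ) ≤ n * Mt n := by
    unfold Mt
    rw [mul_sum]
    apply sum_le_sum
    intro d _
    have := @Nat.cast_div_le ℝ _ _ _ n d
    calc Λ d * ((n / d : ℕ) : ℝ) ≤ Λ d * ((n : ℝ) / d) :=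
          mul_le_mul_of_nonneg_left this ArithmeticFunction.vonMangoldt_nonneg
      _ = n * (Λ d / d) := by ring
  have h3 : (n : ℝ) * (Real.log n - 1) ≤ n * Mt n := by linarith only [h1, h2]
  exact le_of_mul_le_mul_left h3 hn0

theorem sum_inv_le_log (m n : ℕ) (hm : 1 ≤ m) (hmn : m ≤ n) :
    ∑ k ∈ Ioc m n, (1 : ℝ) / k ≤ Real.log n - Real.log m := by
  induction n, hmn using Nat.le_induction with
  | base => simp
  | succ n hn ih =>
    rw [sum_Ioc_succ_top (by omega)]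
    have hn0 : (0 : ℝ) < n := by exact_mod_cast (by omega : 0 < n)
    have h1 : 1 / ((n + 1 : ℕ) : ℝ) ≤ Real.log ((n + 1 : ℕ) : ℝ) - Real.log n := by
      have h := Real.log_le_sub_one_of_pos (x := (n : ℝ) / ((n + 1 : ℕ) : ℝ)) (by positivity)
      rw [Real.log_div hn0.ne' (by positivity)] at h
      have e : (n : ℝ) / ((n + 1 : ℕ) : ℝ) - 1 = - (1 / ((n + 1 : ℕ) : ℝ)) := by
        push_cast; field_simp; ring
      linarith only [h, e]
    linarith only [ih, h1]

/-- Weight bounding the fractional part of `n / d`. -/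
noncomputable def hf (n d : ℕ) : ℝ := if 2 * d ≤ n then 1 else (n : ℝ) / d - 1

theorem frac_le {n d : ℕ} (hd : 0 < d) (hdn : d ≤ n) :
    (n : ℝ) / d ≤ ((n / d : ℕ) : ℝ) + hf n d := by
  have hd0 : (0 : ℝ) < d := by exact_mod_cast hd
  unfold hf
  split_ifs with h
  · rw [div_le_iff₀ hd0]
    have h1 := Nat.div_add_mod n d
    have h2 := Nat.mod_lt n hd
    have h3 : n ≤ d * (n / d) + d := by omega
    have h4 : (n : ℝ) ≤ d * ((n / d : ℕ) : ℝ) + d := by exact_mod_cast h3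
    linarith only [h4]
  · have : n / d = 1 := by
      apply Nat.div_eq_of_lt_le
      · omega
      · omega
    rw [this]; push_cast; linarith only

theorem hf_nonneg {n d : ℕ} (hd : 0 < d) (hdn : d ≤ n) : 0 ≤ hf n d := by
  unfold hf
  split_ifs with h
  · norm_num
  · have hd0 : (0 : ℝ) < d := by exact_mod_cast hd
    rw [sub_nonneg, one_le_div hd0]
    exact_mod_cast hdn

theorem hf_le_one {n d : ℕ} (hd : 0 < d) : hf n d ≤ 1 := by
  unfold hf
  split_ifs with h
  · norm_num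
  · have hd0 : (0 : ℝ) < d := by exact_mod_cast hd
    have : (n : ℝ) ≤ 2 * d := by exact_mod_cast (by omega : n ≤ 2 * d)
    rw [sub_le_iff_le_add, div_le_iff₀ hd0]
    linarith only [this]

theorem hf_anti {n d : ℕ} (hd : 0 < d) (_hdn : d < n) : hf n (d + 1) ≤ hf n d := by
  by_cases h : 2 * d ≤ n
  · have : hf n d = 1 := by unfold hf; rw [if_pos h]
    rw [this]; exact hf_le_one (by omega)
  · have h' : ¬ 2 * (d + 1) ≤ n := by omega
    unfold hf
    rw [if_neg h, if_neg h']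
    have hd0 : (0 : ℝ) < d := by exact_mod_cast hd
    have : (n : ℝ) / ((d + 1 : ℕ) : ℝ) ≤ n / d := by
      apply div_le_div_of_nonneg_left (by positivity) hd0
      push_cast; linarith only
    linarith only [this]

theorem sum_hf_le (n : ℕ) (hn : 2 ≤ n) : ∑ d ∈ Ioc 0 n, hf n d ≤ n * Real.log 2 + 1 := by
  have h1 : Ioc 0 n = Ioc 0 (n / 2) ∪ Ioc (n / 2) n := by
    rw [Ioc_union_Ioc_eq_Ioc (by omega) (by omega)]
  have h2 : Disjoint (Ioc 0 (n / 2)) (Ioc (n / 2) n) := by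
    rw [disjoint_left]; intro x hx hy; simp at hx hy; omega
  rw [h1, sum_union h2]
  have h3 : ∑ d ∈ Ioc 0 (n / 2), hf n d = (n / 2 : ℕ) := by
    rw [sum_congr rfl (g := fun _ => (1 : ℝ))]
    · simp
    · intro d hd
      unfold hf
      rw [if_pos]
      simp at hd; omega
  have h4 : ∑ d ∈ Ioc (n / 2) n, hf n d = n * ∑ d ∈ Ioc (n / 2) n, (1 : ℝ) / d - ((n - n / 2 : ℕ) : ℝ) := by
    rw [sum_congr rfl (g := fun d : ℕ => (n : ℝ) * (1 / (d : ℝ)) - 1)]
    · rw [sum_sub_distrib, ← mul_sum]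
      simp
    · intro d hd
      unfold hf
      rw [if_neg]
      · ring
      · simp at hd; omega
  have h5 := sum_inv_le_log (n / 2) n (by omega) (by omega)
  rw [h3, h4]
  have hm0 : (0 : ℝ) < (n / 2 : ℕ) := by exact_mod_cast (by omega : 0 < n / 2)
  rcases Nat.even_or_odd' n with ⟨m, rfl | rfl⟩
  · have e1 : 2 * m / 2 = m := by omega
    have e2 : 2 * m - 2 * m / 2 = m := by omega
    rw [e1] at h5 ⊢
    rw [show 2 * m - m = m by omega]
    have hm : (0 : ℝ) < m := by rw [e1] at hm0; exact hm0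
    have : Real.log ((2 * m : ℕ) : ℝ) - Real.log m = Real.log 2 := by
      push_cast; rw [Real.log_mul (by norm_num) hm.ne']; ring
    rw [this] at h5
    have h6 := mul_le_mul_of_nonneg_left h5 (by positivity : (0 : ℝ) ≤ ((2 * m : ℕ) : ℝ))
    linarith only [h6]
  · have e1 : (2 * m + 1) / 2 = m := by omega
    rw [e1] at h5 hm0 ⊢
    rw [show 2 * m + 1 - m = m + 1 by omega]
    have h6 : Real.log ((2 * m + 1 : ℕ) : ℝ) - Real.log m ≤ Real.log 2 + 1 / (2 * m) := by
      have : Real.log ((2 * m + 1 : ℕ) : ℝ) - Real.log m = Real.log 2 + Real.log (((2 * m + 1 : ℕ) : ℝ) / (2 * m)) := by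
        rw [← Real.log_div (by positivity) hm0.ne', ← Real.log_mul (by norm_num) (by positivity)]
        congr 1; field_simp
      rw [this]
      have h7 := Real.log_le_sub_one_of_pos (x := ((2 * m + 1 : ℕ) : ℝ) / (2 * m)) (by positivity)
      have e : ((2 * m + 1 : ℕ) : ℝ) / (2 * m) - 1 = 1 / (2 * m) := by push_cast; field_simp; ring
      linarith only [h7, e]
    have h8 := mul_le_mul_of_nonneg_left (h5.trans h6) (by positivity : (0 : ℝ) ≤ ((2 * m + 1 : ℕ) : ℝ))
    have h9 : ((2 * m + 1 : ℕ) : ℝ) * (1 / (2 * m)) ≤ 2 := by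
      rw [mul_one_div, div_le_iff₀ (by positivity)]
      push_cast
      have : (1 : ℝ) ≤ m := by exact_mod_cast (by omega : 1 ≤ m)
      linarith only [hm0, this]
    push_cast at *
    linarith only [h8, h9]

theorem card_primesLE_le (m : ℕ) (hm : 1 ≤ m) : 2 * (Nat.primesLE m).card ≤ m + 1 := by
  have h : ∀ m : ℕ, 1 ≤ m → 2 * (Nat.primesLE m).card ≤ m + 1 ∧ 2 * (Nat.primesLE (m + 1)).card ≤ m + 2 := by
    intro m hm
    induction m, hm using Nat.le_induction with
    | base => decide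
    | succ m hm ih =>
      refine ⟨ih.2, ?_⟩
      have h1 : Nat.primesLE (m + 1 + 1) ⊆ Nat.primesLE m ∪ {m + 1 + 1, m + 1} := by
        intro p hp
        rw [Nat.mem_primesLE] at hp
        simp only [mem_union, Nat.mem_primesLE, mem_insert, mem_singleton]
        by_cases h : p ≤ m
        · exact Or.inl ⟨h, hp.2⟩
        · right; omega
      have h2 : ∃ q, (Nat.primesLE (m + 1 + 1)) ⊆ insert q (Nat.primesLE m) ∨ m + 1 + 1 ≤ 3 := by
        rcases le_or_gt (m + 1 + 1) 3 with h | h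
        · exact ⟨0, Or.inr h⟩
        · have h3 : ∃ q, ∀ p, p.Prime → m < p → p ≤ m + 1 + 1 → p = q := by
            rcases Nat.even_or_odd m with hm | hm
            · refine ⟨m + 1, fun p hp h4 h5 => ?_⟩
              by_contra h6
              have h7 : p = m + 1 + 1 := by omega
              have h8 : Even p := by rw [h7]; exact (hm.add_one).add_one
              have := (hp.even_iff).1 h8
              omega
            · refine ⟨m + 1 + 1, fun p hp h4 h5 => ?_⟩
              by_contra h6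
              have h7 : p = m + 1 := by omega
              have h8 : Even p := by rw [h7]; exact hm.add_one
              have := (hp.even_iff).1 h8
              omega
          obtain ⟨q, hq⟩ := h3
          refine ⟨q, Or.inl ?_⟩
          intro p hp
          rw [Nat.mem_primesLE] at hp
          rw [mem_insert, Nat.mem_primesLE]
          by_cases h : p ≤ m
          · exact Or.inr ⟨h, hp.2⟩
          · exact Or.inl (hq p hp.2 (by omega) hp.1)
      obtain ⟨q, hq | hq⟩ := h2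
      · have := card_le_card hq
        have h4 := card_insert_le q (Nat.primesLE m)
        have := ih.1
        omega
      · have : m = 1 := by omega
        subst this
        decide
  exact (h m hm).1

theorem psi_sub_theta_le' (n : ℕ) (hn : 1 ≤ n) :
    Chebyshev.psi n - Chebyshev.theta n ≤ (Real.sqrt n + 1) / 2 * Real.log n := by
  rw [Chebyshev.psi_eq_sum_mul_log_prime, Chebyshev.theta_eq_sum_primesLE_log, ← sum_sub_distrib]
  have hs : 1 ≤ n.sqrt := Nat.le_sqrt.2 (by simpa using hn)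
  have hsub : Nat.primesLE n.sqrt ⊆ Nat.primesLE n := by
    intro p hp
    rw [Nat.mem_primesLE] at hp ⊢
    exact ⟨hp.1.trans (Nat.sqrt_le_self n), hp.2⟩
  have h0 : ∑ p ∈ Nat.primesLE n, ((Nat.log p n : ℝ) * Real.log p - Real.log p)
      = ∑ p ∈ Nat.primesLE n.sqrt, ((Nat.log p n : ℝ) * Real.log p - Real.log p) := by
    symm
    apply sum_subset hsub
    intro p hp hnp
    rw [Nat.mem_primesLE] at hp hnp
    have hlt : n.sqrt < p := by
      by_contra h
      push Not at h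
      exact hnp ⟨h, hp.2⟩
    have h1 : n < p * p := Nat.sqrt_lt.1 hlt
    have h2 : Nat.log p n = 1 := by
      rw [Nat.log_eq_iff]
      · refine ⟨by simp; exact hp.1, by rw [sq]; exact h1⟩
      · left; norm_num
    rw [h2]; simp
  rw [h0]
  have h1 : ∀ p ∈ Nat.primesLE n.sqrt, ((Nat.log p n : ℝ) * Real.log p - Real.log p) ≤ Real.log n := by
    intro p hp
    rw [Nat.mem_primesLE] at hp
    have hp0 : (0 : ℝ) < p := by exact_mod_cast hp.2.pos
    have h2 : (Nat.log p n : ℝ) * Real.log p ≤ Real.log n := by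
      rw [← Real.log_pow]
      apply Real.log_le_log (by positivity)
      exact_mod_cast Nat.pow_log_le_self p (by omega)
    have h3 : 0 ≤ Real.log p := Real.log_natCast_nonneg p
    linarith only [h2, h3]
  refine (sum_le_sum h1).trans ?_
  rw [sum_const, nsmul_eq_mul]
  apply mul_le_mul_of_nonneg_right _ (Real.log_natCast_nonneg n)
  have h4 := card_primesLE_le n.sqrt hs
  have h5 : (2 : ℝ) * (Nat.primesLE n.sqrt).card ≤ n.sqrt + 1 := by exact_mod_cast h4
  have h6 : (n.sqrt : ℝ) ≤ Real.sqrt n := Real.nat_sqrt_le_real_sqrt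
  linarith only [h5, h6]

theorem Mt_le (n : ℕ) (hn : 1024 ≤ n) : Mt n ≤ Real.log n + 0.0818 := by
  have hn0 : (0 : ℝ) < n := by exact_mod_cast (by omega : 0 < n)
  have hnr : (1024 : ℝ) ≤ n := by exact_mod_cast hn
  have h1 : n * Mt n ≤ ∑ d ∈ Ioc 0 n, Λ d * ((n / d : ℕ) : ℝ) + ∑ d ∈ Ioc 0 n, Λ d * hf n d := by
    unfold Mt
    rw [mul_sum, ← sum_add_distrib]
    apply sum_le_sum
    intro d hd
    rw [mem_Ioc] at hd
    have := frac_le hd.1 hd.2
    have := mul_le_mul_of_nonneg_left this (ArithmeticFunction.vonMangoldt_nonneg (n := d))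
    calc (n : ℝ) * (Λ d / d) = Λ d * (n / d) := by ring
      _ ≤ _ := by linarith only [this]
  rw [← log_fact_eq] at h1
  have h2 := log_fact_le n (by omega)
  -- the fractional part sum
  have h3 : ∑ d ∈ Ioc 0 n, Λ d * hf n d
      ≤ ∑ d ∈ Ioc 0 n, (if d.Prime then Real.log d else 0) * hf n d
        + (Chebyshev.psi n - Chebyshev.theta n) := by
    have e1 : Chebyshev.psi n - Chebyshev.theta n
        = ∑ d ∈ Ioc 0 n, (Λ d - (if d.Prime then Real.log d else 0)) := by
      rw [sum_sub_distrib, Chebyshev.psi, Chebyshev.theta, sum_filter]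
      simp
    rw [e1, ← sum_add_distrib]
    apply sum_le_sum
    intro d hd
    rw [mem_Ioc] at hd
    have k1 := hf_le_one (n := n) hd.1
    have k2 : 0 ≤ Λ d - (if d.Prime then Real.log d else 0) := by
      split_ifs with hp
      · rw [ArithmeticFunction.vonMangoldt_apply_prime hp]; simp
      · simpa using ArithmeticFunction.vonMangoldt_nonneg
    nlinarith only [k1, k2]
  have h4 : ∑ d ∈ Ioc 0 n, (if d.Prime then Real.log d else 0) * hf n d
      ≤ ∑ d ∈ Ioc 0 n, Real.log 4 * hf n d + 0 * hf n (0 + 1) := by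
    apply abel_le (Nat.zero_le n) le_rfl
    · intro k hk1 hk2; exact hf_nonneg hk1 hk2
    · exact hf_nonneg (by omega) (by omega)
    · intro k hk1 hk2; exact hf_anti hk1 hk2
    · intro m _ _
      have := Chebyshev.theta_le_log4_mul_x (x := (m : ℝ)) (by positivity)
      rw [Chebyshev.theta, sum_filter] at this
      simp only [Nat.floor_natCast] at this
      simp only [sum_const, Nat.card_Ioc, nsmul_eq_mul, Nat.sub_zero, add_zero]
      linarith only [this]
  rw [← mul_sum] at h4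
  have h5 := sum_hf_le n (by omega)
  have h6 := psi_sub_theta_le' n (by omega)
  -- numerical bounds
  have l2 := Real.log_two_lt_d9
  have l2' := Real.log_two_gt_d9
  have l4 : Real.log 4 = 2 * Real.log 2 := by
    rw [show (4 : ℝ) = 2 ^ 2 by norm_num, Real.log_pow]; norm_num
  have l4pos : 0 < Real.log 4 := by rw [l4]; linarith only [l2, l2']
  have hs32 : (32 : ℝ) ≤ Real.sqrt n := by
    rw [show (32 : ℝ) = Real.sqrt 1024 by
      rw [show (1024 : ℝ) = 32 ^ 2 by norm_num, Real.sqrt_sq (by norm_num)]]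
    exact Real.sqrt_le_sqrt hnr
  have hss : Real.sqrt n * Real.sqrt n = n := Real.mul_self_sqrt hn0.le
  have hlog : Real.log n ≤ 0.21661 * Real.sqrt n := by
    have hanti := Real.log_div_sqrt_antitoneOn
    have he : Real.exp 2 ≤ 1024 := by
      have := Real.exp_one_lt_d9
      have h : Real.exp 2 = Real.exp 1 * Real.exp 1 := by rw [← Real.exp_add]; norm_num
      rw [h]
      have := Real.exp_pos 1
      nlinarith
    have := hanti (Set.mem_Ici.2 he) (Set.mem_Ici.2 (he.trans hnr)) hnr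
    simp only at this
    have e1 : Real.sqrt 1024 = 32 := by
      rw [show (1024 : ℝ) = 32 ^ 2 by norm_num, Real.sqrt_sq (by norm_num)]
    have e2 : Real.log 1024 = 10 * Real.log 2 := by
      rw [show (1024 : ℝ) = 2 ^ 10 by norm_num, Real.log_pow]; norm_num
    rw [e1, e2] at this
    have hspos : 0 < Real.sqrt n := by linarith only [l2, l2', hs32]
    rw [div_le_iff₀ hspos] at this
    refine this.trans ?_
    apply mul_le_mul_of_nonneg_right _ hspos.le
    linarith only [l2, l2']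
  have hlog0 : 0 ≤ Real.log n := Real.log_natCast_nonneg n
  have h7 : (Real.sqrt n + 1) / 2 * Real.log n ≤ 0.11169 * n := by
    calc (Real.sqrt n + 1) / 2 * Real.log n ≤ (Real.sqrt n + 1) / 2 * (0.21661 * Real.sqrt n) :=
          mul_le_mul_of_nonneg_left hlog (by positivity)
      _ = 0.108305 * (Real.sqrt n * Real.sqrt n) + 0.108305 * Real.sqrt n := by ring
      _ ≤ 0.11169 * n := by
        rw [hss]
        nlinarith only [hnr, hss, l2, l2', hs32]
  have h8 : Real.log n ≤ 0.00677 * n := by nlinarith only [hnr, hss, hlog, l2, l2', hs32]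
  have h9 : Real.log 4 * (∑ d ∈ Ioc 0 n, hf n d) ≤ Real.log 4 * (n * Real.log 2 + 1) :=
    mul_le_mul_of_nonneg_left h5 l4pos.le
  have h10 : Real.log 4 * (n * Real.log 2 + 1) ≤ 0.96091 * n + 1.3863 := by
    rw [l4]
    have : Real.log 2 * Real.log 2 ≤ 0.480453015 := by nlinarith only [l2, l2']
    nlinarith only [hnr, l2, l2', this]
  have h11 : n * Mt n ≤ n * (Real.log n + 0.0818) := by nlinarith only [hnr, h1, h2, h3, h4, h6, l2, l2', h7, h8, h9, h10]
  exact le_of_mul_le_mul_left h11 hn0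

end Pool.Agent.H91.Gold

end

section

/-!
The additive character `e t = exp (2 π i t)` and elementary estimates.
-/

set_option autoImplicit false

namespace Pool.Agent.H92.EH

open Finset

/-- `e t = exp (2 π i t)`. -/
noncomputable def e (t : ℝ) : ℂ := Complex.exp (Complex.I * ((2 * Real.pi * t : ℝ) : ℂ))

theorem e_add (s t : ℝ) : e (s + t) = e s * e t := by
  unfold e
  rw [← Complex.exp_add]
  congr 1
  push_cast
  ring

theorem norm_e (t : ℝ) : ‖e t‖ = 1 := Complex.norm_exp_I_mul_ofReal _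

theorem e_int (n : ℤ) : e n = 1 := by
  unfold e
  rw [Complex.exp_eq_one_iff]
  exact ⟨n, by push_cast; ring⟩

theorem e_add_int (t : ℝ) (n : ℤ) : e (t + n) = e t := by
  rw [e_add, e_int, mul_one]

theorem e_sub_int (t : ℝ) (n : ℤ) : e (t - n) = e t := by
  have := e_add_int t (-n)
  push_cast at this
  rw [← sub_eq_add_neg] at this
  exact this

theorem e_neg (t : ℝ) : e (-t) = (starRingEnd ℂ) (e t) := by
  unfold e
  rw [← Complex.exp_conj, map_mul, Complex.conj_I, Complex.conj_ofReal]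
  congr 1
  push_cast
  ring

theorem e_mul_conj (s t : ℝ) : e s * (starRingEnd ℂ) (e t) = e (s - t) := by
  rw [← e_neg, ← e_add, sub_eq_add_neg]

theorem e_nat_mul (n : ℕ) (t : ℝ) : e (n * t) = e t ^ n := by
  unfold e
  rw [← Complex.exp_nat_mul]
  congr 1
  push_cast
  ring

/-- Lower bound for `|e t - 1|` when `|t| ≤ 1/2`. -/
theorem le_norm_e_sub_one_of_abs_le {t : ℝ} (ht : |t| ≤ 1 / 2) : 4 * |t| ≤ ‖e t - 1‖ := by
  unfold e
  rw [Complex.norm_exp_I_mul_ofReal_sub_one]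
  have h1 : 2 * Real.pi * t / 2 = Real.pi * t := by ring
  rw [h1]
  have h2 : 2 / Real.pi * |Real.pi * t| ≤ |Real.sin (Real.pi * t)| := by
    apply Real.mul_abs_le_abs_sin
    rw [abs_mul, abs_of_pos Real.pi_pos]
    have := Real.pi_pos
    nlinarith
  rw [abs_mul, abs_of_pos Real.pi_pos] at h2
  have h3 : 2 / Real.pi * (Real.pi * |t|) = 2 * |t| := by
    field_simp
  rw [h3] at h2
  simp only [norm_mul, Real.norm_eq_abs]
  rw [abs_of_pos (by norm_num : (0:ℝ) < 2)]
  linarith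

/-- If `|t - m| ≥ δ` for all integers `m` then `|e t - 1| ≥ 4 δ`. -/
theorem le_norm_e_sub_one {t δ : ℝ} (h : ∀ m : ℤ, δ ≤ |t - m|) : 4 * δ ≤ ‖e t - 1‖ := by
  have h1 := h (round t)
  have h2 : |t - round t| ≤ 1 / 2 := abs_sub_round t
  have h3 := le_norm_e_sub_one_of_abs_le h2
  rw [e_sub_int] at h3
  linarith

end Pool.Agent.H92.EH

end

section

/-!
The logarithmic weights of Richert combined with the sieve of `GoldChain`.
-/

namespace Pool.Agent.H91.Gold

open Finset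

/-- The primes in the interval `(x, y]`. -/
def Pr (x y : ℕ) : Finset ℕ := (Ioc x y).filter Nat.Prime

end Pool.Agent.H91.Gold

end

section

/-!
# EHB Lap: iterated differences of `1/(x+β)`

`LL hs β x = ∫_0^∞ exp(-(x+β) s) ∏_{h ∈ hs} (1 - exp(-h s)) ds` for `x + β > 0`, all `h > 0`.
`LL_nil`: `1/(x+β)`.  `LL_cons`: `(1 - e^{-hs}) e^{-(x+β)s} = e^{-(x+β)s} - e^{-(x+h+β)s}`.
`LL_le`, `LL_ge`: `h s e^{-hs} ≤ 1 - e^{-hs} ≤ h s` and `∫_0^∞ e^{-c s} s^J ds = J!/c^{J+1}` (`Real.integral_rpow_mul_exp_neg_mul_Ioi` or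
`integral_exp_neg_mul_rpow`...).
`LL_deriv`: by induction on `hs` from `LL_cons` (derivative of `LL (h :: hs)` at `x` is the difference of the derivatives), the derivative at `x`
is `-∫_0^∞ s exp(-(x+β)s) ∏(1 - e^{-hs}) ds ≤ 0`; it may be simplest to define `LD` by this integral, prove `LD_nil` (`1/(x+β)^2`), `LD_cons`,
`0 ≤ LD`, `HasDerivAt (LL hs β) (-LD hs β x) x`, and the continuity of `LD` by the same induction.
-/

set_option autoImplicit false

namespace Pool.Agent.H76.EHB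

open MeasureTheory

noncomputable def LL (hs : List ℝ) (β x : ℝ) : ℝ :=
  ∫ s in Set.Ioi (0 : ℝ), Real.exp (-(x + β) * s) * (hs.map (fun h => 1 - Real.exp (-h * s))).prod

noncomputable def LD (hs : List ℝ) (β x : ℝ) : ℝ :=
  ∫ s in Set.Ioi (0 : ℝ), s * (Real.exp (-(x + β) * s) * (hs.map (fun h => 1 - Real.exp (-h * s))).prod)

private lemma lap_prod_nonneg (hs : List ℝ) (hpos : ∀ g ∈ hs, 0 < g) {s : ℝ} (h0 : 0 < s) :
    0 ≤ (hs.map (fun h => 1 - Real.exp (-h * s))).prod := by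
  induction hs with
  | nil => simp
  | cons a l ih =>
    rw [List.map_cons, List.prod_cons]
    have ha : 0 < a := hpos a (by simp)
    have h1 : Real.exp (-a * s) ≤ 1 := by
      rw [Real.exp_le_one_iff]
      nlinarith
    exact mul_nonneg (by linarith) (ih (fun g hg => hpos g (by simp [hg])))

private lemma lap_prod_le_one (hs : List ℝ) (hpos : ∀ g ∈ hs, 0 < g) {s : ℝ} (h0 : 0 < s) :
    (hs.map (fun h => 1 - Real.exp (-h * s))).prod ≤ 1 := by
  induction hs with
  | nil => simp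
  | cons a l ih =>
    rw [List.map_cons, List.prod_cons]
    have h1 : 0 < Real.exp (-a * s) := Real.exp_pos _
    have h2 := ih (fun g hg => hpos g (by simp [hg]))
    have h3 := lap_prod_nonneg l (fun g hg => hpos g (by simp [hg])) h0
    have ha : 0 < a := hpos a (by simp)
    have h4 : Real.exp (-a * s) ≤ 1 := by
      rw [Real.exp_le_one_iff]
      nlinarith
    calc (1 - Real.exp (-a * s)) * (l.map (fun h => 1 - Real.exp (-h * s))).prod
        ≤ 1 * 1 := mul_le_mul (by linarith) h2 h3 (by norm_num)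
      _ = 1 := by norm_num

private lemma lap_prod_le (hs : List ℝ) (hpos : ∀ g ∈ hs, 0 < g) {s : ℝ} (h0 : 0 < s) :
    (hs.map (fun h => 1 - Real.exp (-h * s))).prod ≤ hs.prod * s ^ hs.length := by
  induction hs with
  | nil => simp
  | cons a l ih =>
    rw [List.map_cons, List.prod_cons, List.prod_cons, List.length_cons]
    have h2 := ih (fun g hg => hpos g (by simp [hg]))
    have h3 := lap_prod_nonneg l (fun g hg => hpos g (by simp [hg])) h0
    have ha : 0 < a := hpos a (by simp)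
    have h4 : 1 - Real.exp (-a * s) ≤ a * s := by
      have := Real.add_one_le_exp (-a * s)
      nlinarith
    calc (1 - Real.exp (-a * s)) * (l.map (fun h => 1 - Real.exp (-h * s))).prod
        ≤ (a * s) * (l.prod * s ^ l.length) := mul_le_mul h4 h2 h3 (by positivity)
      _ = a * l.prod * s ^ (l.length + 1) := by ring

private lemma lap_prod_pos (hs : List ℝ) (hpos : ∀ g ∈ hs, 0 < g) : 0 < hs.prod := by
  induction hs with
  | nil => simp
  | cons a l ih =>
    rw [List.prod_cons]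
    exact mul_pos (hpos a (by simp)) (ih (fun g hg => hpos g (by simp [hg])))

private lemma lap_sum_nonneg (hs : List ℝ) (hpos : ∀ g ∈ hs, 0 < g) : 0 ≤ hs.sum := by
  induction hs with
  | nil => simp
  | cons a l ih =>
    rw [List.sum_cons]
    have := hpos a (by simp)
    have := ih (fun g hg => hpos g (by simp [hg]))
    linarith

private lemma lap_prod_ge (hs : List ℝ) (hpos : ∀ g ∈ hs, 0 < g) {s : ℝ} (h0 : 0 < s) :
    hs.prod * s ^ hs.length * Real.exp (-hs.sum * s) ≤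
      (hs.map (fun h => 1 - Real.exp (-h * s))).prod := by
  induction hs with
  | nil => simp
  | cons a l ih =>
    rw [List.map_cons, List.prod_cons, List.prod_cons, List.length_cons, List.sum_cons]
    have h2 := ih (fun g hg => hpos g (by simp [hg]))
    have hl := lap_prod_pos l (fun g hg => hpos g (by simp [hg]))
    have h3 := lap_prod_nonneg l (fun g hg => hpos g (by simp [hg])) h0
    have ha : 0 < a := hpos a (by simp)
    have h4 : a * s * Real.exp (-a * s) ≤ 1 - Real.exp (-a * s) := by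
      have h5 := Real.add_one_le_exp (a * s)
      have h6 : Real.exp (a * s) * Real.exp (-a * s) = 1 := by
        rw [← Real.exp_add]; simp
      have h7 := Real.exp_pos (-a * s)
      nlinarith [mul_le_mul_of_nonneg_right h5 h7.le]
    have h8 : Real.exp (-(a + l.sum) * s) = Real.exp (-a * s) * Real.exp (-l.sum * s) := by
      rw [← Real.exp_add]; ring_nf
    calc a * l.prod * s ^ (l.length + 1) * Real.exp (-(a + l.sum) * s)
        = (a * s * Real.exp (-a * s)) * (l.prod * s ^ l.length * Real.exp (-l.sum * s)) := by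
          rw [h8]; ring
      _ ≤ (1 - Real.exp (-a * s)) * (l.map (fun h => 1 - Real.exp (-h * s))).prod := by
          apply mul_le_mul h4 h2 (by positivity)
          exact le_trans (by positivity) h4

private lemma lap_cont (hs : List ℝ) :
    Continuous (fun s : ℝ => (hs.map (fun h => 1 - Real.exp (-h * s))).prod) := by
  induction hs with
  | nil => simpa using continuous_const
  | cons a l ih =>
    simp only [List.map_cons, List.prod_cons]
    fun_prop

private lemma lap_pow_int (n : ℕ) {c : ℝ} (hc : 0 < c) :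
    IntegrableOn (fun s : ℝ => s ^ n * Real.exp (-c * s)) (Set.Ioi 0) := by
  have h := integrableOn_rpow_mul_exp_neg_mul_rpow (p := 1) (s := (n : ℝ)) (b := c)
    (by have : (0 : ℝ) ≤ n := Nat.cast_nonneg n
        linarith) one_pos hc
  refine h.congr_fun (fun s _ => ?_) measurableSet_Ioi
  simp [Real.rpow_natCast]

private lemma lap_pow_integral (n : ℕ) {c : ℝ} (hc : 0 < c) :
    ∫ s in Set.Ioi (0 : ℝ), s ^ n * Real.exp (-c * s) = (n.factorial : ℝ) / c ^ (n + 1) := by
  have h := Real.integral_rpow_mul_exp_neg_mul_Ioi (a := (n : ℝ) + 1) (r := c) (by positivity) hc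
  have h1 : ∫ s in Set.Ioi (0 : ℝ), s ^ n * Real.exp (-c * s)
      = ∫ t : ℝ in Set.Ioi 0, t ^ ((n : ℝ) + 1 - 1) * Real.exp (-(c * t)) := by
    apply setIntegral_congr_fun measurableSet_Ioi
    intro s _
    simp [Real.rpow_natCast]
  rw [h1, h, Real.Gamma_nat_eq_factorial]
  have h2 : (1 / c) ^ ((n : ℝ) + 1) = 1 / c ^ (n + 1) := by
    have : ((n : ℝ) + 1) = ((n + 1 : ℕ) : ℝ) := by push_cast; ring
    rw [this, Real.rpow_natCast, one_div, one_div, inv_pow]
  rw [h2]
  ring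

private lemma lap_int (hs : List ℝ) (hpos : ∀ g ∈ hs, 0 < g) {c : ℝ} (hc : 0 < c) :
    IntegrableOn (fun s : ℝ => Real.exp (-c * s) * (hs.map (fun h => 1 - Real.exp (-h * s))).prod)
      (Set.Ioi 0) := by
  have h := lap_pow_int 0 hc
  refine Integrable.mono' h ?_ ?_
  · exact (Continuous.aestronglyMeasurable (by
      have := lap_cont hs
      fun_prop))
  · refine (ae_restrict_iff' measurableSet_Ioi).mpr (Filter.Eventually.of_forall (fun s hs0 => ?_))
    have h0 : 0 < s := hs0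
    have h1 := lap_prod_nonneg hs hpos h0
    have h2 := lap_prod_le_one hs hpos h0
    have h3 := Real.exp_pos (-c * s)
    rw [Real.norm_of_nonneg (by positivity)]
    simp only [pow_zero, one_mul]
    nlinarith

private lemma lap_int' (hs : List ℝ) (hpos : ∀ g ∈ hs, 0 < g) {c : ℝ} (hc : 0 < c) :
    IntegrableOn (fun s : ℝ =>
      s * (Real.exp (-c * s) * (hs.map (fun h => 1 - Real.exp (-h * s))).prod)) (Set.Ioi 0) := by
  have h := lap_pow_int 1 hc
  refine Integrable.mono' h ?_ ?_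
  · exact (Continuous.aestronglyMeasurable (by
      have := lap_cont hs
      fun_prop))
  · refine (ae_restrict_iff' measurableSet_Ioi).mpr (Filter.Eventually.of_forall (fun s hs0 => ?_))
    have h0 : 0 < s := hs0
    have h1 := lap_prod_nonneg hs hpos h0
    have h2 := lap_prod_le_one hs hpos h0
    have h3 := Real.exp_pos (-c * s)
    rw [Real.norm_of_nonneg (by positivity)]
    simp only [pow_one]
    apply mul_le_mul_of_nonneg_left _ h0.le
    nlinarith

theorem LL_nil (β x : ℝ) (hx : 0 < x + β) : LL [] β x = 1 / (x + β) := by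
  have h := lap_pow_integral 0 hx
  simp only [pow_zero, one_mul, Nat.factorial_zero, Nat.cast_one, zero_add, pow_one] at h
  simpa [LL] using h

theorem LL_cons (h : ℝ) (hs : List ℝ) (β x : ℝ) (hx : 0 < x + β) (hh : 0 < h) (hpos : ∀ g ∈ hs, 0 < g) :
    LL (h :: hs) β x = LL hs β x - LL hs β (x + h) := by
  have h1 := lap_int hs hpos hx
  have h2 := lap_int hs hpos (c := x + h + β) (by linarith)
  unfold LL
  rw [← integral_sub h1 h2]
  apply setIntegral_congr_fun measurableSet_Ioi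
  intro s _
  simp only [List.map_cons, List.prod_cons]
  have h3 : Real.exp (-(x + h + β) * s) = Real.exp (-(x + β) * s) * Real.exp (-h * s) := by
    rw [← Real.exp_add]; ring_nf
  rw [h3]
  ring

private lemma LD_nil (β x : ℝ) (hx : 0 < x + β) : LD [] β x = 1 / (x + β) ^ 2 := by
  have h := lap_pow_integral 1 hx
  simp only [pow_one, Nat.factorial_one, Nat.cast_one, one_add_one_eq_two] at h
  simpa [LD] using h

private lemma LD_cons (h : ℝ) (hs : List ℝ) (β x : ℝ) (hx : 0 < x + β) (hh : 0 < h)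
    (hpos : ∀ g ∈ hs, 0 < g) :
    LD (h :: hs) β x = LD hs β x - LD hs β (x + h) := by
  have h1 := lap_int' hs hpos hx
  have h2 := lap_int' hs hpos (c := x + h + β) (by linarith)
  unfold LD
  rw [← integral_sub h1 h2]
  apply setIntegral_congr_fun measurableSet_Ioi
  intro s _
  simp only [List.map_cons, List.prod_cons]
  have h3 : Real.exp (-(x + h + β) * s) = Real.exp (-(x + β) * s) * Real.exp (-h * s) := by
    rw [← Real.exp_add]; ring_nf
  rw [h3]
  ring

theorem LL_le (hs : List ℝ) (β x : ℝ) (hx : 0 < x + β) (hpos : ∀ g ∈ hs, 0 < g) :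
    LL hs β x ≤ (hs.length.factorial : ℝ) * hs.prod / (x + β) ^ (hs.length + 1) := by
  have h1 := lap_int hs hpos hx
  have h2 := (lap_pow_int hs.length hx).const_mul hs.prod
  have h3 : LL hs β x ≤ ∫ s in Set.Ioi (0 : ℝ),
      hs.prod * (s ^ hs.length * Real.exp (-(x + β) * s)) := by
    unfold LL
    apply setIntegral_mono_on h1 h2 measurableSet_Ioi
    intro s hs0
    have h0 : 0 < s := hs0
    have h4 := lap_prod_le hs hpos h0
    have h5 := Real.exp_pos (-(x + β) * s)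
    nlinarith [mul_le_mul_of_nonneg_left h4 h5.le]
  rw [integral_const_mul, lap_pow_integral hs.length hx] at h3
  calc LL hs β x ≤ hs.prod * ((hs.length.factorial : ℝ) / (x + β) ^ (hs.length + 1)) := h3
    _ = (hs.length.factorial : ℝ) * hs.prod / (x + β) ^ (hs.length + 1) := by ring

theorem LL_ge (hs : List ℝ) (β x : ℝ) (hx : 0 < x + β) (hpos : ∀ g ∈ hs, 0 < g) :
    (hs.length.factorial : ℝ) * hs.prod / (x + β + hs.sum) ^ (hs.length + 1) ≤ LL hs β x := by
  have h1 := lap_int hs hpos hx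
  have hs0 := lap_sum_nonneg hs hpos
  have hx2 : 0 < x + β + hs.sum := by linarith
  have h2 := (lap_pow_int hs.length hx2).const_mul hs.prod
  have h3 : ∫ s in Set.Ioi (0 : ℝ),
      hs.prod * (s ^ hs.length * Real.exp (-(x + β + hs.sum) * s)) ≤ LL hs β x := by
    unfold LL
    apply setIntegral_mono_on h2 h1 measurableSet_Ioi
    intro s hs0
    have h0 : 0 < s := hs0
    have h4 := lap_prod_ge hs hpos h0
    have h5 := Real.exp_pos (-(x + β) * s)
    have h6 : Real.exp (-(x + β + hs.sum) * s)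
        = Real.exp (-(x + β) * s) * Real.exp (-hs.sum * s) := by
      rw [← Real.exp_add]; ring_nf
    rw [h6]
    calc hs.prod * (s ^ hs.length * (Real.exp (-(x + β) * s) * Real.exp (-hs.sum * s)))
        = Real.exp (-(x + β) * s) * (hs.prod * s ^ hs.length * Real.exp (-hs.sum * s)) := by ring
      _ ≤ Real.exp (-(x + β) * s) * (hs.map (fun h => 1 - Real.exp (-h * s))).prod :=
          mul_le_mul_of_nonneg_left h4 h5.le
  rw [integral_const_mul, lap_pow_integral hs.length hx2] at h3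
  calc (hs.length.factorial : ℝ) * hs.prod / (x + β + hs.sum) ^ (hs.length + 1)
      = hs.prod * ((hs.length.factorial : ℝ) / (x + β + hs.sum) ^ (hs.length + 1)) := by ring
    _ ≤ LL hs β x := h3

theorem LD_nonneg (hs : List ℝ) (β x : ℝ) (hpos : ∀ g ∈ hs, 0 < g) : 0 ≤ LD hs β x := by
  unfold LD
  apply setIntegral_nonneg measurableSet_Ioi
  intro s hs0
  have h0 : 0 < s := hs0
  have h1 := lap_prod_nonneg hs hpos h0
  positivity

theorem LL_hasDerivAt (hs : List ℝ) (β x : ℝ) (hx : 0 < x + β) (hpos : ∀ g ∈ hs, 0 < g) :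
    HasDerivAt (LL hs β) (-LD hs β x) x := by
  induction hs generalizing x with
  | nil =>
    rw [LD_nil β x hx]
    have h1 : HasDerivAt (fun y : ℝ => (y + β)⁻¹) (-1 / (x + β) ^ 2) x :=
      ((hasDerivAt_id x).add_const β).inv hx.ne'
    have h2 : (LL [] β) =ᶠ[nhds x] (fun y : ℝ => (y + β)⁻¹) := by
      have h3 : ∀ᶠ y in nhds x, -β < y := lt_mem_nhds (by linarith)
      filter_upwards [h3] with y hy
      rw [LL_nil β y (by linarith), one_div]
    have h4 := h1.congr_of_eventuallyEq h2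
    have h5 : -(1 / (x + β) ^ 2) = -1 / (x + β) ^ 2 := by ring
    rw [h5]
    exact h4
  | cons a l ih =>
    have ha : 0 < a := hpos a (by simp)
    have hl : ∀ g ∈ l, 0 < g := fun g hg => hpos g (by simp [hg])
    rw [LD_cons a l β x hx ha hl]
    have h1 := ih x hx hl
    have h2 := (ih (x + a) (by linarith) hl).comp_add_const x a
    have h3 : (LL (a :: l) β) =ᶠ[nhds x] (fun y : ℝ => LL l β y - LL l β (y + a)) := by
      have h4 : ∀ᶠ y in nhds x, -β < y := lt_mem_nhds (by linarith)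
      filter_upwards [h4] with y hy
      exact LL_cons a l β y (by linarith) ha hl
    have h5 := (h1.sub h2).congr_of_eventuallyEq h3
    have h6 : -(LD l β x - LD l β (x + a)) = -LD l β x - -LD l β (x + a) := by ring
    rw [h6]
    exact h5

theorem LD_continuousOn (hs : List ℝ) (β : ℝ) (hpos : ∀ g ∈ hs, 0 < g) :
    ContinuousOn (LD hs β) (Set.Ioi (-β)) := by
  induction hs with
  | nil =>
    have h1 : ContinuousOn (fun y : ℝ => 1 / (y + β) ^ 2) (Set.Ioi (-β)) := by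
      apply ContinuousOn.div continuousOn_const (by fun_prop)
      intro y hy
      have : 0 < y + β := by
        have : -β < y := hy
        linarith
      positivity
    refine h1.congr (fun y hy => ?_)
    have : -β < y := hy
    exact LD_nil β y (by linarith)
  | cons a l ih =>
    have ha : 0 < a := hpos a (by simp)
    have hl : ∀ g ∈ l, 0 < g := fun g hg => hpos g (by simp [hg])
    have h1 := ih hl
    have h2 : ContinuousOn (fun y : ℝ => LD l β (y + a)) (Set.Ioi (-β)) := by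
      refine h1.comp (by fun_prop) (fun y hy => ?_)
      have : -β < y := hy
      show -β < y + a
      linarith
    refine (h1.sub h2).congr (fun y hy => ?_)
    have : -β < y := hy
    exact LD_cons a l β y (by linarith) ha hl

end Pool.Agent.H76.EHB

end

section

/-!
# EHB Vdc1: the inequality of Weyl and van der Corput

Put `z n = 0` outside `Ioc a b`.  `H ∑_n z_n = ∑_m ∑_{0 ≤ h < H} z_{m+h}` where `m` runs over at most `Y + H ≤ 2Y` integers; Cauchy:
`H^2 |∑ z|^2 ≤ (Y+H) ∑_m |∑_{h<H} z_{m+h}|^2 = (Y+H) ∑_{h1,h2<H} ∑_m z_{m+h1} conj z_{m+h2}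
 ≤ (Y+H) (H Y + 2 H ∑_{h=1}^{H-1} |∑_n z_{n+h} conj z_n|)`, the inner sum over `n ∈ Ioc a (b-h)`.
(Work with integers or shift; with natural numbers take `m + h` with `m` from `a + 1 - H`: use `ℤ` or replace `z_{m+h}` by
`z_{m-h}`, `m ∈ Ioc a (b + H)`.)
-/

set_option autoImplicit false

namespace Pool.Agent.H76.EHB

open Finset

private theorem vdc_shift (g : ℕ → ℂ) (c d h : ℕ) :
    ∑ n ∈ Ioc c d, g (n + h) = ∑ m ∈ Ioc (c + h) (d + h), g m := by
  rw [← Finset.map_add_right_Ioc, Finset.sum_map]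
  simp

private theorem vdc_pair (z w : ℕ → ℂ) (a b H : ℕ)
    (hw1 : ∀ n ∈ Ioc a b, w n = z n) (hw0 : ∀ n, n ∉ Ioc a b → w n = 0) (h1 h2 : ℕ)
    (h12 : h1 ≤ h2) (h2H : h2 ≤ H) :
    ∑ m ∈ Ioc a (b + H), w (m - h1) * (starRingEnd ℂ) (w (m - h2))
      = ∑ n ∈ Ioc a (b - (h2 - h1)), z (n + (h2 - h1)) * (starRingEnd ℂ) (z n) := by
  have e1 : ∑ n ∈ Ioc a (b - (h2 - h1)), z (n + (h2 - h1)) * (starRingEnd ℂ) (z n)
      = ∑ n ∈ Ioc a (b - (h2 - h1)), (fun m => w (m - h1) * (starRingEnd ℂ) (w (m - h2))) (n + h2) := by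
    refine Finset.sum_congr rfl fun n hn => ?_
    rw [mem_Ioc] at hn
    show z (n + (h2 - h1)) * (starRingEnd ℂ) (z n)
      = w (n + h2 - h1) * (starRingEnd ℂ) (w (n + h2 - h2))
    have e2 : n + h2 - h2 = n := by omega
    have e3 : n + h2 - h1 = n + (h2 - h1) := by omega
    rw [e2, e3, hw1 n (mem_Ioc.2 ⟨by omega, by omega⟩), hw1 _ (mem_Ioc.2 ⟨by omega, by omega⟩)]
  rw [e1, vdc_shift (fun m => w (m - h1) * (starRingEnd ℂ) (w (m - h2))) _ _ h2]
  symm
  apply Finset.sum_subset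
  · intro m hm
    rw [mem_Ioc] at hm ⊢
    omega
  · intro m hm hm2
    rw [mem_Ioc] at hm hm2
    by_cases hc : m - h1 ∈ Ioc a b
    · have hc2 : m - h2 ∉ Ioc a b := by
        intro hc2
        rw [mem_Ioc] at hc hc2
        apply hm2
        omega
      rw [hw0 _ hc2]; simp
    · rw [hw0 _ hc]; simp

private theorem vdc_single (z w : ℕ → ℂ) (a b H : ℕ)
    (hw1 : ∀ n ∈ Ioc a b, w n = z n) (hw0 : ∀ n, n ∉ Ioc a b → w n = 0) (h : ℕ) (hH : h ≤ H) :
    ∑ m ∈ Ioc a (b + H), w (m - h) = ∑ n ∈ Ioc a b, z n := by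
  have e1 : ∑ n ∈ Ioc a b, z n = ∑ n ∈ Ioc a b, (fun m => w (m - h)) (n + h) := by
    refine Finset.sum_congr rfl fun n hn => ?_
    show z n = w (n + h - h)
    rw [show n + h - h = n by omega, hw1 n hn]
  rw [e1, vdc_shift (fun m => w (m - h)) _ _ h]
  symm
  apply Finset.sum_subset
  · intro m hm
    rw [mem_Ioc] at hm ⊢
    omega
  · intro m hm hm2
    rw [mem_Ioc] at hm hm2
    refine hw0 _ fun hc => ?_
    rw [mem_Ioc] at hc
    apply hm2
    omega

theorem vdc_step (z : ℕ → ℂ) (hz : ∀ n, ‖z n‖ ≤ 1) (a b Y H : ℕ) (hab : b - a ≤ Y) (hH : 1 ≤ H)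
    (hHY : H ≤ Y) :
    ‖∑ n ∈ Ioc a b, z n‖ ^ 2
      ≤ 2 * (Y : ℝ) ^ 2 / H + 4 * (Y : ℝ) / H * ∑ h ∈ Icc 1 H,
          ‖∑ n ∈ Ioc a (b - h), z (n + h) * (starRingEnd ℂ) (z n)‖ := by
  classical
  set w : ℕ → ℂ := fun n => if n ∈ Ioc a b then z n else 0 with hw
  have hw1 : ∀ n ∈ Ioc a b, w n = z n := fun n hn => by simp only [hw, if_pos hn]
  have hw0 : ∀ n, n ∉ Ioc a b → w n = 0 := fun n hn => by simp only [hw, if_neg hn]
  set C : ℕ → ℝ := fun h => ‖∑ n ∈ Ioc a (b - h), z (n + h) * (starRingEnd ℂ) (z n)‖ with hC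
  have hC0 : ∀ h, 0 ≤ C h := fun h => norm_nonneg _
  set Sg : ℝ := ∑ h ∈ Icc 1 H, C h with hSg
  have hSg0 : 0 ≤ Sg := Finset.sum_nonneg fun h _ => hC0 h
  have hCz : C 0 ≤ Y := by
    simp only [hC]
    refine (norm_sum_le _ _).trans ?_
    calc ∑ n ∈ Ioc a (b - 0), ‖z (n + 0) * (starRingEnd ℂ) (z n)‖
        ≤ ∑ n ∈ Ioc a (b - 0), (1:ℝ) := by
          refine Finset.sum_le_sum fun n _ => ?_
          rw [norm_mul, RCLike.norm_conj]
          calc ‖z (n + 0)‖ * ‖z n‖ ≤ 1 * 1 := mul_le_mul (hz _) (hz _) (norm_nonneg _) (by norm_num)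
            _ = 1 := by norm_num
      _ = ((b - a : ℕ) : ℝ) := by simp
      _ ≤ Y := by exact_mod_cast hab
  -- pairs
  set T : ℕ → ℕ → ℂ := fun h1 h2 => ∑ m ∈ Ioc a (b + H), w (m - h1) * (starRingEnd ℂ) (w (m - h2))
    with hT
  have hTle : ∀ h1 h2, h1 ≤ h2 → h2 ≤ H → ‖T h1 h2‖ = C (h2 - h1) := by
    intro h1 h2 h12 h2H
    simp only [hT, hC]
    rw [vdc_pair z w a b H hw1 hw0 h1 h2 h12 h2H]
  have hTsymm : ∀ h1 h2, ‖T h1 h2‖ = ‖T h2 h1‖ := by
    intro h1 h2
    rw [← RCLike.norm_conj (T h1 h2)]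
    congr 1
    simp only [hT, map_sum, map_mul, Complex.conj_conj]
    exact Finset.sum_congr rfl fun m _ => mul_comm _ _
  -- row sums
  have hrow : ∀ h1 ∈ range H, ∑ h2 ∈ range H, ‖T h1 h2‖ ≤ Y + 2 * Sg := by
    intro h1 hh1
    rw [mem_range] at hh1
    have hsplit : ∑ h2 ∈ range H, ‖T h1 h2‖
        = ∑ h2 ∈ range h1, ‖T h1 h2‖ + ∑ h2 ∈ Ico h1 H, ‖T h1 h2‖ := by
      rw [Finset.sum_range_add_sum_Ico _ hh1.le]
    rw [hsplit]
    have hA : ∑ h2 ∈ range h1, ‖T h1 h2‖ ≤ Sg := by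
      have e : ∑ h2 ∈ range h1, ‖T h1 h2‖ = ∑ h2 ∈ range h1, C (h1 - h2) := by
        refine Finset.sum_congr rfl fun h2 hh2 => ?_
        rw [mem_range] at hh2
        rw [hTsymm, hTle h2 h1 hh2.le hh1.le]
      rw [e]
      have e2 : ∑ h2 ∈ range h1, C (h1 - h2) = ∑ d ∈ Icc 1 h1, C d := by
        refine Finset.sum_nbij' (fun h2 => h1 - h2) (fun d => h1 - d) ?_ ?_ ?_ ?_ ?_
        · intro x hx
          rw [mem_range] at hx
          rw [mem_Icc]; omega
        · intro x hx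
          rw [mem_Icc] at hx
          rw [mem_range]; omega
        · intro x hx
          rw [mem_range] at hx
          show h1 - (h1 - x) = x
          omega
        · intro x hx
          rw [mem_Icc] at hx
          show h1 - (h1 - x) = x
          omega
        · intro x _
          rfl
      rw [e2]
      refine Finset.sum_le_sum_of_subset_of_nonneg ?_ fun h _ _ => hC0 h
      exact Finset.Icc_subset_Icc le_rfl hh1.le
    have hB : ∑ h2 ∈ Ico h1 H, ‖T h1 h2‖ ≤ Y + Sg := by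
      have e : ∑ h2 ∈ Ico h1 H, ‖T h1 h2‖ = ∑ h2 ∈ Ico h1 H, C (h2 - h1) := by
        refine Finset.sum_congr rfl fun h2 hh2 => ?_
        rw [mem_Ico] at hh2
        rw [hTle h1 h2 hh2.1 hh2.2.le]
      rw [e, Finset.sum_Ico_eq_sum_range]
      have e2 : ∑ i ∈ range (H - h1), C (h1 + i - h1) = ∑ i ∈ range (H - h1), C i :=
        Finset.sum_congr rfl fun i _ => by rw [Nat.add_sub_cancel_left]
      rw [e2]
      obtain ⟨m, hm⟩ : ∃ m, H - h1 = m + 1 := ⟨H - h1 - 1, by omega⟩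
      rw [hm, Finset.sum_range_succ']
      have e3 : ∑ k ∈ range m, C (k + 1) ≤ Sg := by
        have e4 : ∑ k ∈ range m, C (k + 1) = ∑ d ∈ Ico 1 (m + 1), C d := by
          rw [Finset.sum_Ico_eq_sum_range]
          simp [add_comm]
        rw [e4]
        refine Finset.sum_le_sum_of_subset_of_nonneg ?_ fun h _ _ => hC0 h
        intro x hx
        rw [mem_Ico] at hx
        rw [mem_Icc]; omega
      linarith
    linarith
  -- the main identity
  have hS1 : (H : ℂ) * ∑ n ∈ Ioc a b, z n = ∑ m ∈ Ioc a (b + H), ∑ h ∈ range H, w (m - h) := by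
    rw [Finset.sum_comm]
    rw [Finset.sum_congr rfl (fun h hh => vdc_single z w a b H hw1 hw0 h (by
      rw [mem_range] at hh; exact hh.le))]
    simp
  have hS2 : ((∑ m ∈ Ioc a (b + H), ‖∑ h ∈ range H, w (m - h)‖ ^ 2 : ℝ) : ℂ)
      = ∑ h1 ∈ range H, ∑ h2 ∈ range H, T h1 h2 := by
    push_cast
    have e : ∀ m, ((‖∑ h ∈ range H, w (m - h)‖ : ℂ)) ^ 2
        = ∑ h1 ∈ range H, ∑ h2 ∈ range H, w (m - h1) * (starRingEnd ℂ) (w (m - h2)) := by
      intro m
      rw [← Complex.mul_conj']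
      rw [map_sum, Finset.sum_mul_sum]
    rw [Finset.sum_congr rfl (fun m _ => e m), Finset.sum_comm]
    refine Finset.sum_congr rfl fun h1 _ => ?_
    rw [Finset.sum_comm]
  have hS3 : ∑ m ∈ Ioc a (b + H), ‖∑ h ∈ range H, w (m - h)‖ ^ 2 ≤ H * (Y + 2 * Sg) := by
    have hnn : 0 ≤ ∑ m ∈ Ioc a (b + H), ‖∑ h ∈ range H, w (m - h)‖ ^ 2 :=
      Finset.sum_nonneg fun m _ => by positivity
    have e : ∑ m ∈ Ioc a (b + H), ‖∑ h ∈ range H, w (m - h)‖ ^ 2
        = ‖((∑ m ∈ Ioc a (b + H), ‖∑ h ∈ range H, w (m - h)‖ ^ 2 : ℝ) : ℂ)‖ := by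
      rw [Complex.norm_real, Real.norm_of_nonneg hnn]
    rw [e, hS2]
    refine (norm_sum_le _ _).trans ?_
    calc ∑ h1 ∈ range H, ‖∑ h2 ∈ range H, T h1 h2‖
        ≤ ∑ h1 ∈ range H, (Y + 2 * Sg) :=
          Finset.sum_le_sum fun h1 hh1 => (norm_sum_le _ _).trans (hrow h1 hh1)
      _ = H * (Y + 2 * Sg) := by
        rw [Finset.sum_const, card_range, nsmul_eq_mul]
  have hcs : ‖∑ m ∈ Ioc a (b + H), ∑ h ∈ range H, w (m - h)‖ ^ 2
      ≤ ((Ioc a (b + H)).card : ℝ) * ∑ m ∈ Ioc a (b + H), ‖∑ h ∈ range H, w (m - h)‖ ^ 2 := by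
    have h1 : ‖∑ m ∈ Ioc a (b + H), ∑ h ∈ range H, w (m - h)‖
        ≤ ∑ m ∈ Ioc a (b + H), ‖∑ h ∈ range H, w (m - h)‖ := norm_sum_le _ _
    have h2 : (∑ m ∈ Ioc a (b + H), ‖∑ h ∈ range H, w (m - h)‖) ^ 2
        ≤ ((Ioc a (b + H)).card : ℝ) * ∑ m ∈ Ioc a (b + H), ‖∑ h ∈ range H, w (m - h)‖ ^ 2 :=
      sq_sum_le_card_mul_sum_sq
    exact (pow_le_pow_left₀ (norm_nonneg _) h1 2).trans h2
  have hcard : ((Ioc a (b + H)).card : ℝ) ≤ 2 * Y := by
    rw [Nat.card_Ioc]
    have : b + H - a ≤ 2 * Y := by omega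
    exact_mod_cast this
  have hH0 : (0:ℝ) < H := by exact_mod_cast hH
  have hfin : (H:ℝ) ^ 2 * ‖∑ n ∈ Ioc a b, z n‖ ^ 2 ≤ 2 * Y * (H * (Y + 2 * Sg)) := by
    have e : (H:ℝ) ^ 2 * ‖∑ n ∈ Ioc a b, z n‖ ^ 2 = ‖(H : ℂ) * ∑ n ∈ Ioc a b, z n‖ ^ 2 := by
      rw [norm_mul, mul_pow, Complex.norm_natCast]
    rw [e, hS1]
    refine hcs.trans ?_
    have hnn : 0 ≤ ∑ m ∈ Ioc a (b + H), ‖∑ h ∈ range H, w (m - h)‖ ^ 2 :=
      Finset.sum_nonneg fun m _ => by positivity
    exact mul_le_mul hcard hS3 hnn (by positivity)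
  have e : 2 * (Y : ℝ) ^ 2 / H + 4 * (Y : ℝ) / H * Sg = 2 * Y * (H * (Y + 2 * Sg)) / H ^ 2 := by
    field_simp; ring
  rw [e, le_div_iff₀ (by positivity)]
  linarith

end Pool.Agent.H76.EHB

end

section

/-!
The dual form of the additive large sieve inequality for well spaced points.
-/

set_option autoImplicit false

namespace Pool.Agent.H92.EH

open Finset

/-- The Dirichlet kernel. -/
noncomputable def D (M : ℕ) (t : ℝ) : ℂ := ∑ m ∈ range M, e (m * t)

theorem norm_D_le_nat (M : ℕ) (t : ℝ) : ‖D M t‖ ≤ M := by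
  unfold D
  refine (norm_sum_le _ _).trans ?_
  simp [norm_e]

theorem norm_D_neg (M : ℕ) (t : ℝ) : ‖D M (-t)‖ = ‖D M t‖ := by
  have : D M (-t) = (starRingEnd ℂ) (D M t) := by
    unfold D
    rw [map_sum]
    refine sum_congr rfl fun m _ => ?_
    rw [← e_neg]
    congr 1
    ring
  rw [this]
  simp

theorem norm_D_le (M : ℕ) {t δ : ℝ} (hδ : 0 < δ) (h : ∀ m : ℤ, δ ≤ |t - m|) :
    ‖D M t‖ ≤ 1 / (2 * δ) := by
  have h1 : D M t * (e t - 1) = e t ^ M - 1 := by
    unfold D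
    rw [← geom_sum_mul]
    congr 1
    refine sum_congr rfl fun m _ => ?_
    rw [e_nat_mul]
  have h2 : ‖e t ^ M - 1‖ ≤ 2 := by
    refine (norm_sub_le _ _).trans ?_
    rw [norm_pow, norm_e, one_pow, norm_one]
    norm_num
  have h3 := le_norm_e_sub_one h
  have h4 : ‖D M t‖ * ‖e t - 1‖ ≤ 2 := by rw [← norm_mul, h1]; exact h2
  rw [le_div_iff₀ (by positivity)]
  have h5 : ‖D M t‖ * (4 * δ) ≤ 2 := (mul_le_mul_of_nonneg_left h3 (norm_nonneg _)).trans h4
  linarith

/-- Sum of inverse squares over distinct positive integers. -/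
theorem sum_inv_sq_le {ι : Type*} (S : Finset ι) (m : ι → ℕ) (hm : ∀ j ∈ S, 1 ≤ m j)
    (hinj : Set.InjOn m S) : ∑ j ∈ S, ((m j : ℝ) ^ 2)⁻¹ ≤ 2 := by
  classical
  rw [← sum_image (f := fun k : ℕ => ((k : ℝ) ^ 2)⁻¹) (g := m) hinj]
  have hsub : S.image m ⊆ Ioo 0 ((S.image m).sup id + 1) := by
    intro k hk
    rw [mem_Ioo]
    refine ⟨?_, Nat.lt_succ_of_le (le_sup (f := id) hk)⟩
    obtain ⟨j, hj, rfl⟩ := mem_image.mp hk
    exact hm j hj
  refine (sum_le_sum_of_subset_of_nonneg hsub ?_).trans ?_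
  · intro i _ _
    positivity
  · have := sum_Ioo_inv_sq_le (α := ℝ) 0 ((S.image m).sup id + 1)
    simpa using this

/-- One sided estimate used for the row sums. -/
theorem row_aux {ι : Type*} (S : Finset ι) (β : ι → ℝ) (M : ℕ) (hM : 0 < M)
    (h0 : ∀ j ∈ S, ∀ m : ℤ, (1 : ℝ) / M ≤ |β j - m|)
    (hsp : ∀ i ∈ S, ∀ j ∈ S, i ≠ j → ∀ m : ℤ, (1 : ℝ) / M ≤ |β i - β j - m|)
    (hhalf : ∀ j ∈ S, Int.fract (β j) ≤ 1 / 2) (K : ℕ) :
    ∑ j ∈ S, ‖D K (β j)‖ ^ 2 ≤ (M : ℝ) ^ 2 / 2 := by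
  have hM' : (0 : ℝ) < M := by exact_mod_cast hM
  set m : ι → ℕ := fun j => ⌊(M : ℝ) * Int.fract (β j)⌋₊ with hmdef
  have hfr : ∀ j ∈ S, (1 : ℝ) / M ≤ Int.fract (β j) := by
    intro j hj
    have := h0 j hj ⌊β j⌋
    rwa [show β j - (⌊β j⌋ : ℤ) = Int.fract (β j) from rfl, abs_of_nonneg (Int.fract_nonneg _)]
      at this
  have hm1 : ∀ j ∈ S, 1 ≤ m j := by
    intro j hj
    rw [hmdef]
    apply Nat.le_floor
    have := hfr j hj
    rw [div_le_iff₀ hM'] at this
    push_cast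
    linarith
  have hmle : ∀ j ∈ S, (m j : ℝ) ≤ M * Int.fract (β j) := by
    intro j _
    exact Nat.floor_le (by have := Int.fract_nonneg (β j); positivity)
  have hmlt : ∀ j ∈ S, (M : ℝ) * Int.fract (β j) < m j + 1 := by
    intro j _
    exact Nat.lt_floor_add_one _
  have hinj : Set.InjOn m S := by
    intro i hi j hj hij
    by_contra hne
    have h1 := hmle i hi
    have h2 := hmlt i hi
    have h3 := hmle j hj
    have h4 := hmlt j hj
    have h5 : (m i : ℝ) = m j := by exact_mod_cast hij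
    have h6 := hsp i hi j hj hne (⌊β i⌋ - ⌊β j⌋)
    have h7 : β i - β j - ((⌊β i⌋ - ⌊β j⌋ : ℤ) : ℝ) = Int.fract (β i) - Int.fract (β j) := by
      simp only [Int.fract]
      push_cast
      ring
    rw [h7, div_le_iff₀ hM'] at h6
    have h8 : |Int.fract (β i) - Int.fract (β j)| * M < 1 := by
      rw [← abs_of_pos hM', ← abs_mul, abs_lt]
      constructor <;> nlinarith
    linarith
  have hbound : ∀ j ∈ S, ‖D K (β j)‖ ^ 2 ≤ (M : ℝ) ^ 2 / 4 * ((m j : ℝ) ^ 2)⁻¹ := by
    intro j hj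
    have hmpos : (0 : ℝ) < m j := by exact_mod_cast hm1 j hj
    have hdist : ∀ k : ℤ, (m j : ℝ) / M ≤ |β j - k| := by
      intro k
      have h1 : Int.fract (β j) ≤ |β j - k| := by
        have hf := hhalf j hj
        have hf0 := Int.fract_nonneg (β j)
        have hβ : β j = ⌊β j⌋ + Int.fract (β j) := (Int.floor_add_fract _).symm
        rcases le_or_gt k ⌊β j⌋ with hk | hk
        · have hk' : (k : ℝ) ≤ ⌊β j⌋ := by exact_mod_cast hk
          rw [le_abs]
          left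
          linarith
        · have hk' : (⌊β j⌋ : ℝ) + 1 ≤ k := by exact_mod_cast hk
          rw [le_abs]
          right
          linarith
      refine le_trans ?_ h1
      rw [div_le_iff₀ hM']
      have := hmle j hj
      linarith
    have h1 := norm_D_le K (t := β j) (δ := (m j : ℝ) / M) (by positivity) hdist
    have h2 : (1 : ℝ) / (2 * ((m j : ℝ) / M)) = M / (2 * m j) := by
      field_simp
    rw [h2] at h1
    calc ‖D K (β j)‖ ^ 2 ≤ (M / (2 * m j)) ^ 2 := pow_le_pow_left₀ (norm_nonneg _) h1 2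
      _ = (M : ℝ) ^ 2 / 4 * ((m j : ℝ) ^ 2)⁻¹ := by
        field_simp
        ring
  calc ∑ j ∈ S, ‖D K (β j)‖ ^ 2 ≤ ∑ j ∈ S, (M : ℝ) ^ 2 / 4 * ((m j : ℝ) ^ 2)⁻¹ :=
        sum_le_sum hbound
    _ = (M : ℝ) ^ 2 / 4 * ∑ j ∈ S, ((m j : ℝ) ^ 2)⁻¹ := by rw [mul_sum]
    _ ≤ (M : ℝ) ^ 2 / 4 * 2 := by
        apply mul_le_mul_of_nonneg_left (sum_inv_sq_le S m hm1 hinj)
        positivity
    _ = (M : ℝ) ^ 2 / 2 := by ring

/-- Row sums of the kernel. -/
theorem row_sum_le {ι : Type*} [DecidableEq ι] (J : Finset ι) (α : ι → ℝ) (M : ℕ) (hM : 0 < M)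
    (hsp : ∀ i ∈ J, ∀ j ∈ J, i ≠ j → ∀ m : ℤ, (1 : ℝ) / M ≤ |α i - α j - m|)
    (i : ι) (hi : i ∈ J) :
    ∑ j ∈ J, ‖D (2 * M) (α i - α j)‖ ^ 2 ≤ 5 * (M : ℝ) ^ 2 := by
  have hM' : (0 : ℝ) < M := by exact_mod_cast hM
  rw [← add_sum_erase J _ hi]
  have h1 : ‖D (2 * M) (α i - α i)‖ ^ 2 ≤ 4 * (M : ℝ) ^ 2 := by
    have := norm_D_le_nat (2 * M) (α i - α i)
    push_cast at this
    calc ‖D (2 * M) (α i - α i)‖ ^ 2 ≤ (2 * (M : ℝ)) ^ 2 :=
          pow_le_pow_left₀ (norm_nonneg _) this 2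
      _ = 4 * (M : ℝ) ^ 2 := by ring
  set S := J.erase i with hS
  have hSJ : ∀ j ∈ S, j ∈ J ∧ j ≠ i := by
    intro j hj
    rw [hS, mem_erase] at hj
    exact ⟨hj.2, hj.1⟩
  set S1 := S.filter (fun j => Int.fract (α i - α j) ≤ 1 / 2) with hS1
  set S2 := S.filter (fun j => ¬ Int.fract (α i - α j) ≤ 1 / 2) with hS2
  have hsplit : ∑ j ∈ S, ‖D (2 * M) (α i - α j)‖ ^ 2
      = ∑ j ∈ S1, ‖D (2 * M) (α i - α j)‖ ^ 2 + ∑ j ∈ S2, ‖D (2 * M) (α i - α j)‖ ^ 2 :=
    (sum_filter_add_sum_filter_not S _ _).symm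
  have hA : ∑ j ∈ S1, ‖D (2 * M) (α i - α j)‖ ^ 2 ≤ (M : ℝ) ^ 2 / 2 := by
    apply row_aux S1 (fun j => α i - α j) M hM
    · intro j hj m
      rw [hS1, mem_filter] at hj
      obtain ⟨hjJ, hne⟩ := hSJ j hj.1
      exact hsp i hi j hjJ (Ne.symm hne) m
    · intro j hj k hk hne m
      rw [hS1, mem_filter] at hj hk
      have := hsp k (hSJ k hk.1).1 j (hSJ j hj.1).1 (Ne.symm hne) m
      have heq : α i - α j - (α i - α k) - (m : ℝ) = α k - α j - m := by ring
      show (1 : ℝ) / M ≤ |α i - α j - (α i - α k) - (m : ℝ)|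
      rw [heq]
      exact this
    · intro j hj
      rw [hS1, mem_filter] at hj
      exact hj.2
  have hB : ∑ j ∈ S2, ‖D (2 * M) (α i - α j)‖ ^ 2 ≤ (M : ℝ) ^ 2 / 2 := by
    have : ∑ j ∈ S2, ‖D (2 * M) (α i - α j)‖ ^ 2 = ∑ j ∈ S2, ‖D (2 * M) (α j - α i)‖ ^ 2 := by
      refine sum_congr rfl fun j _ => ?_
      rw [← norm_D_neg, neg_sub]
    rw [this]
    apply row_aux S2 (fun j => α j - α i) M hM
    · intro j hj m
      rw [hS2, mem_filter] at hj
      obtain ⟨hjJ, hne⟩ := hSJ j hj.1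
      exact hsp j hjJ i hi hne m
    · intro j hj k hk hne m
      rw [hS2, mem_filter] at hj hk
      have := hsp j (hSJ j hj.1).1 k (hSJ k hk.1).1 hne m
      have heq : α j - α i - (α k - α i) - (m : ℝ) = α j - α k - m := by ring
      show (1 : ℝ) / M ≤ |α j - α i - (α k - α i) - (m : ℝ)|
      rw [heq]
      exact this
    · intro j hj
      rw [hS2, mem_filter] at hj
      have h2 := hj.2
      push Not at h2
      have h3 : Int.fract (α j - α i) = 1 - Int.fract (α i - α j) := by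
        rw [← neg_sub (α i) (α j)]
        apply Int.fract_neg
        intro h
        rw [h] at h2
        norm_num at h2
      show Int.fract (α j - α i) ≤ 1 / 2
      rw [h3]
      linarith
  rw [hsplit]
  linarith

/-- Dual form of the large sieve inequality. -/
theorem dual_large_sieve {ι : Type*} [DecidableEq ι] (J : Finset ι) (α : ι → ℝ) (c : ι → ℂ)
    (M N : ℕ) (hN : N ≤ M) (hM : 0 < M)
    (hsp : ∀ i ∈ J, ∀ j ∈ J, i ≠ j → ∀ m : ℤ, (1 : ℝ) / M ≤ |α i - α j - m|) :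
    ∑ n ∈ Icc 1 N, ‖∑ j ∈ J, c j * e (n * α j)‖ ^ 2 ≤ 5 * M * ∑ j ∈ J, ‖c j‖ ^ 2 := by
  have hM' : (0 : ℝ) < M := by exact_mod_cast hM
  set f : ℤ → ℂ := fun n => ∑ j ∈ J, c j * e (n * α j) with hf
  -- expansion of the double sum
  have hexp : ∑ m ∈ range (2 * M), ∑ m' ∈ range (2 * M), ‖f ((m : ℤ) - m')‖ ^ 2
      ≤ ∑ i ∈ J, ∑ j ∈ J, ‖c i‖ * ‖c j‖ * ‖D (2 * M) (α i - α j)‖ ^ 2 := by
    have h1 : ∀ m m' : ℕ, ((‖f ((m : ℤ) - m')‖ ^ 2 : ℝ) : ℂ)
        = ∑ i ∈ J, ∑ j ∈ J, c i * (starRingEnd ℂ) (c j) *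
          (e (m * (α i - α j)) * (starRingEnd ℂ) (e (m' * (α i - α j)))) := by
      intro m m'
      push_cast
      rw [← Complex.mul_conj', hf]
      simp only
      rw [map_sum, sum_mul_sum]
      refine sum_congr rfl fun i _ => sum_congr rfl fun j _ => ?_
      rw [map_mul]
      have : e (((m : ℤ) - (m' : ℤ) : ℤ) * α i) * (starRingEnd ℂ) (e (((m : ℤ) - (m' : ℤ) : ℤ) * α j))
          = e (m * (α i - α j)) * (starRingEnd ℂ) (e (m' * (α i - α j))) := by
        rw [e_mul_conj, e_mul_conj]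
        congr 1
        push_cast
        ring
      rw [← this]
      ring
    have h2 : ((∑ m ∈ range (2 * M), ∑ m' ∈ range (2 * M), ‖f ((m : ℤ) - m')‖ ^ 2 : ℝ) : ℂ)
        = ∑ i ∈ J, ∑ j ∈ J, c i * (starRingEnd ℂ) (c j) *
          ((‖D (2 * M) (α i - α j)‖ ^ 2 : ℝ) : ℂ) := by
      rw [Complex.ofReal_sum]
      simp_rw [Complex.ofReal_sum, h1]
      have h3 : ∀ i j : ι, ((‖D (2 * M) (α i - α j)‖ ^ 2 : ℝ) : ℂ)
          = ∑ m ∈ range (2 * M), ∑ m' ∈ range (2 * M),
            (e (m * (α i - α j)) * (starRingEnd ℂ) (e (m' * (α i - α j)))) := by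
        intro i j
        push_cast
        rw [← Complex.mul_conj']
        unfold D
        rw [map_sum, sum_mul_sum]
      simp_rw [h3, mul_sum]
      -- reorder sums
      have e1 : ∀ m : ℕ, ∑ m' ∈ range (2 * M), ∑ i ∈ J, ∑ j ∈ J,
            c i * (starRingEnd ℂ) (c j) *
              (e (m * (α i - α j)) * (starRingEnd ℂ) (e (m' * (α i - α j))))
          = ∑ i ∈ J, ∑ j ∈ J, ∑ m' ∈ range (2 * M),
            c i * (starRingEnd ℂ) (c j) *
              (e (m * (α i - α j)) * (starRingEnd ℂ) (e (m' * (α i - α j)))) := by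
        intro m
        rw [sum_comm]
        refine sum_congr rfl fun i _ => ?_
        rw [sum_comm]
      simp_rw [e1]
      rw [sum_comm]
      refine sum_congr rfl fun i _ => ?_
      rw [sum_comm]
    have h4 : (∑ m ∈ range (2 * M), ∑ m' ∈ range (2 * M), ‖f ((m : ℤ) - m')‖ ^ 2 : ℝ)
        = ‖((∑ m ∈ range (2 * M), ∑ m' ∈ range (2 * M), ‖f ((m : ℤ) - m')‖ ^ 2 : ℝ) : ℂ)‖ := by
      rw [Complex.norm_real, Real.norm_of_nonneg]
      exact sum_nonneg fun _ _ => sum_nonneg fun _ _ => by positivity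
    rw [h4, h2]
    refine (norm_sum_le _ _).trans (sum_le_sum fun i _ => ?_)
    refine (norm_sum_le _ _).trans (sum_le_sum fun j _ => ?_)
    rw [norm_mul, norm_mul, RCLike.norm_conj, Complex.norm_real, Real.norm_of_nonneg (by positivity)]
  -- lower bound of the double sum
  have hlow : (M : ℝ) * ∑ n ∈ Icc 1 N, ‖∑ j ∈ J, c j * e (n * α j)‖ ^ 2
      ≤ ∑ m ∈ range (2 * M), ∑ m' ∈ range (2 * M), ‖f ((m : ℤ) - m')‖ ^ 2 := by
    have h1 : (M : ℝ) * ∑ n ∈ Icc 1 N, ‖∑ j ∈ J, c j * e (n * α j)‖ ^ 2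
        = ∑ p ∈ (Icc 1 N) ×ˢ (range M), ‖f (p.1 : ℤ)‖ ^ 2 := by
      rw [sum_product, mul_sum]
      refine sum_congr rfl fun n _ => ?_
      have h0 : ∑ y ∈ range M, ‖f (((n, y) : ℕ × ℕ).1 : ℤ)‖ ^ 2
          = ∑ _y ∈ range M, ‖f (n : ℤ)‖ ^ 2 := rfl
      rw [h0, sum_const, card_range, nsmul_eq_mul, hf]
      simp
    rw [h1, ← sum_product']
    have h2 : ∑ p ∈ (Icc 1 N) ×ˢ (range M), ‖f (p.1 : ℤ)‖ ^ 2
        = ∑ p ∈ ((Icc 1 N) ×ˢ (range M)).image (fun p : ℕ × ℕ => (p.1 + p.2, p.2)),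
          ‖f ((p.1 : ℤ) - p.2)‖ ^ 2 := by
      rw [sum_image]
      · refine sum_congr rfl fun p _ => ?_
        congr 3
        push_cast
        ring
      · rintro ⟨a, b⟩ _ ⟨a', b'⟩ _ h
        simp only [Prod.mk.injEq] at h ⊢
        omega
    rw [h2]
    apply sum_le_sum_of_subset_of_nonneg
    · intro p hp
      obtain ⟨⟨a, b⟩, hq, rfl⟩ := mem_image.mp hp
      rw [mem_product, mem_Icc, mem_range] at hq
      rw [mem_product, mem_range, mem_range]
      simp only at hq ⊢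
      omega
    · intro _ _ _
      positivity
  -- Schur test
  have hschur : ∑ i ∈ J, ∑ j ∈ J, ‖c i‖ * ‖c j‖ * ‖D (2 * M) (α i - α j)‖ ^ 2
      ≤ 5 * (M : ℝ) ^ 2 * ∑ j ∈ J, ‖c j‖ ^ 2 := by
    have h1 : ∑ i ∈ J, ∑ j ∈ J, ‖c i‖ * ‖c j‖ * ‖D (2 * M) (α i - α j)‖ ^ 2
        ≤ ∑ i ∈ J, ∑ j ∈ J, (‖c i‖ ^ 2 / 2 * ‖D (2 * M) (α i - α j)‖ ^ 2
          + ‖c j‖ ^ 2 / 2 * ‖D (2 * M) (α i - α j)‖ ^ 2) := by
      refine sum_le_sum fun i _ => sum_le_sum fun j _ => ?_
      rw [← add_mul]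
      apply mul_le_mul_of_nonneg_right _ (by positivity)
      nlinarith [sq_nonneg (‖c i‖ - ‖c j‖)]
    refine h1.trans ?_
    simp_rw [sum_add_distrib]
    have h2 : ∑ i ∈ J, ∑ j ∈ J, ‖c i‖ ^ 2 / 2 * ‖D (2 * M) (α i - α j)‖ ^ 2
        ≤ 5 * (M : ℝ) ^ 2 / 2 * ∑ j ∈ J, ‖c j‖ ^ 2 := by
      rw [mul_sum]
      refine sum_le_sum fun i hi => ?_
      rw [← mul_sum]
      have := row_sum_le J α M hM hsp i hi
      nlinarith [sq_nonneg ‖c i‖]
    have h3 : ∑ i ∈ J, ∑ j ∈ J, ‖c j‖ ^ 2 / 2 * ‖D (2 * M) (α i - α j)‖ ^ 2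
        = ∑ i ∈ J, ∑ j ∈ J, ‖c i‖ ^ 2 / 2 * ‖D (2 * M) (α i - α j)‖ ^ 2 := by
      rw [sum_comm]
      refine sum_congr rfl fun i _ => sum_congr rfl fun j _ => ?_
      rw [← norm_D_neg, neg_sub]
    rw [h3]
    linarith
  have hfinal := hlow.trans (hexp.trans hschur)
  have : (M : ℝ) * ∑ n ∈ Icc 1 N, ‖∑ j ∈ J, c j * e (n * α j)‖ ^ 2
      ≤ M * (5 * M * ∑ j ∈ J, ‖c j‖ ^ 2) := by
    refine hfinal.trans (le_of_eq ?_)
    ring
  exact le_of_mul_le_mul_left this hM'

end Pool.Agent.H92.EH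

end
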