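import Pool.Agent.H43.PL.M01
import Pool.Agent.H43.PL.M02
import Pool.Agent.H43.PL.M05

/-! The parts of this file: H76.EHB.Ibp, H76.EHB.AvA, H76.EHB.Vdc2, H76.EHB.AvB, H76.EHB.VdcF, H53.MID.BaseA. -/

section

/-!
# EHB Ibp: sums with a small monotone derivative of the phase

`∑_{a<n≤b} ee(φ n) - ∫_a^b ee(φ x) dx = ∑_n ∫_{n-1}^n (ee(φ n) - ee(φ x)) dx`, at most `2π Λ (b-a)` in absolute value (mean value theorem,
`|φ'| ≤ Λ`).  And `∫_a^b ee(φ) = ∫ (2πi σ ψ ee(φ)) * 1/(2πi σ ψ)`: by parts `= [ee(φ)/(2πiσψ)]_a^b + ∫ ee(φ) ψ'/(2πiσψ²)`, at most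
`2/(2πλ) + (1/2π) ∫ (-ψ')/ψ² = 2/(2πλ) + (1/2π)(1/ψ(b) - 1/ψ(a)) ≤ 3/(2πλ) ≤ 1/λ`.
-/

set_option autoImplicit false

namespace Pool.Agent.H76.EHB

open Finset MeasureTheory
open Pool.Agent.H91.PK (ee)

theorem Ibp_ee_hasDerivAt (φ : ℝ → ℝ) (φ' x : ℝ) (h : HasDerivAt φ φ' x) :
    HasDerivAt (fun y => ee (φ y)) (2 * Real.pi * φ' * Complex.I * ee (φ x)) x := by
  unfold ee
  have h1 : HasDerivAt (fun y : ℝ => ((φ y : ℝ) : ℂ)) (φ' : ℂ) x := h.ofReal_comp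
  have h2 : HasDerivAt (fun y : ℝ => 2 * (Real.pi : ℂ) * ((φ y : ℝ) : ℂ) * Complex.I)
      (2 * (Real.pi : ℂ) * (φ' : ℂ) * Complex.I) x := (h1.const_mul _).mul_const _
  have h3 := h2.cexp
  convert h3 using 1
  ring

theorem Ibp_norm_ee (t : ℝ) : ‖ee t‖ = 1 := Pool.Agent.H91.PK.LSa_norm_ee t

theorem Ibp_norm_deriv (s t : ℝ) :
    ‖(2 * Real.pi * (s : ℂ) * Complex.I * ee t : ℂ)‖ = 2 * Real.pi * |s| := by
  rw [norm_mul, Ibp_norm_ee, norm_mul, Complex.norm_I, norm_mul, norm_mul, Complex.norm_real,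
    Complex.norm_real, Complex.norm_ofNat, Real.norm_eq_abs, Real.norm_eq_abs,
    abs_of_pos Real.pi_pos]
  ring

/-- the sum against the integral -/
theorem Ibp_sum_int (φ ψ : ℝ → ℝ) (a b : ℕ) (hab : a ≤ b) (σ Lam : ℝ) (hσ : |σ| = 1)
    (h1 : ∀ x ∈ Set.Icc (a : ℝ) b, HasDerivAt φ (σ * ψ x) x)
    (h5 : ∀ x ∈ Set.Icc (a : ℝ) b, 0 < ψ x ∧ ψ x ≤ Lam) :
    ‖∑ n ∈ Ioc a b, ee (φ n) - ∫ x in (a : ℝ)..b, ee (φ x)‖ ≤
      2 * Real.pi * Lam * ((b : ℝ) - a) := by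
  have habR : (a : ℝ) ≤ b := by exact_mod_cast hab
  have hcont : ContinuousOn (fun x => ee (φ x)) (Set.Icc (a : ℝ) b) := fun x hx =>
    (Ibp_ee_hasDerivAt φ _ x (h1 x hx)).continuousAt.continuousWithinAt
  have hsub : ∀ k ∈ Ico a b, Set.uIcc ((k : ℕ) : ℝ) ((k + 1 : ℕ) : ℝ) ⊆ Set.Icc (a : ℝ) b := by
    intro k hk
    rw [mem_Ico] at hk
    rw [Set.uIcc_of_le (by push_cast; linarith)]
    apply Set.Icc_subset_Icc
    · exact_mod_cast hk.1
    · exact_mod_cast hk.2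
  have hint : ∀ k ∈ Ico a b, IntervalIntegrable (fun x => ee (φ x)) volume ((k : ℕ) : ℝ)
      ((k + 1 : ℕ) : ℝ) := fun k hk => (hcont.mono (hsub k hk)).intervalIntegrable
  have hI : ∑ k ∈ Ico a b, ∫ x in ((k : ℕ) : ℝ)..((k + 1 : ℕ) : ℝ), ee (φ x) =
      ∫ x in (a : ℝ)..b, ee (φ x) :=
    intervalIntegral.sum_integral_adjacent_intervals_Ico (a := fun k : ℕ => (k : ℝ)) hab
      (fun k hk => hint k (by rw [mem_Ico]; exact hk))
  have hS : ∑ n ∈ Ioc a b, ee (φ n) = ∑ k ∈ Ico a b, ee (φ ((k + 1 : ℕ) : ℝ)) := by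
    rw [Finset.sum_Ico_add' (fun n : ℕ => ee (φ (n : ℝ))) a b 1]
    apply Finset.sum_congr _ (fun _ _ => rfl)
    ext x
    simp only [mem_Ioc, mem_Ico]
    omega
  rw [hS, ← hI, ← Finset.sum_sub_distrib]
  have hterm : ∀ k ∈ Ico a b, ‖ee (φ ((k + 1 : ℕ) : ℝ)) -
      ∫ x in ((k : ℕ) : ℝ)..((k + 1 : ℕ) : ℝ), ee (φ x)‖ ≤ 2 * Real.pi * Lam := by
    intro k hk
    have e1 : ee (φ ((k + 1 : ℕ) : ℝ)) =
        ∫ x in ((k : ℕ) : ℝ)..((k + 1 : ℕ) : ℝ), ee (φ ((k + 1 : ℕ) : ℝ)) := by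
      rw [intervalIntegral.integral_const]
      push_cast
      rw [show (k : ℝ) + 1 - k = 1 by ring, one_smul]
    have e2 : ee (φ ((k + 1 : ℕ) : ℝ)) - ∫ x in ((k : ℕ) : ℝ)..((k + 1 : ℕ) : ℝ), ee (φ x) =
        ∫ x in ((k : ℕ) : ℝ)..((k + 1 : ℕ) : ℝ), (ee (φ ((k + 1 : ℕ) : ℝ)) - ee (φ x)) := by
      rw [intervalIntegral.integral_sub intervalIntegrable_const (hint k hk), ← e1]
    rw [e2]
    have hLam0 : 0 ≤ Lam := by
      have hb : (b : ℝ) ∈ Set.Icc (a : ℝ) b := ⟨habR, le_refl _⟩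
      have := h5 _ hb
      linarith
    have hb := intervalIntegral.norm_integral_le_of_norm_le_const (a := ((k : ℕ) : ℝ))
      (b := ((k + 1 : ℕ) : ℝ)) (C := 2 * Real.pi * Lam)
      (f := fun x => ee (φ ((k + 1 : ℕ) : ℝ)) - ee (φ x)) ?_
    · have e3 : |((k + 1 : ℕ) : ℝ) - ((k : ℕ) : ℝ)| = 1 := by
        push_cast
        rw [show (k : ℝ) + 1 - k = 1 by ring, abs_one]
      rw [e3, mul_one] at hb
      exact hb
    · intro x hx
      have hxI : x ∈ Set.Icc (a : ℝ) b := hsub k hk (Set.uIoc_subset_uIcc hx)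
      have hk1 : ((k + 1 : ℕ) : ℝ) ∈ Set.Icc (a : ℝ) b := hsub k hk Set.right_mem_uIcc
      have hm := (convex_Icc (a : ℝ) b).norm_image_sub_le_of_norm_hasDerivWithin_le
        (f := fun x => ee (φ x)) (f' := fun x => 2 * Real.pi * ((σ * ψ x : ℝ) : ℂ) *
          Complex.I * ee (φ x)) (C := 2 * Real.pi * Lam)
        (fun y hy => (Ibp_ee_hasDerivAt φ _ y (h1 y hy)).hasDerivWithinAt)
        (fun y hy => by
          rw [Ibp_norm_deriv, abs_mul, hσ, one_mul, abs_of_pos (h5 y hy).1]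
          exact mul_le_mul_of_nonneg_left (h5 y hy).2 (by positivity)) hxI hk1
      refine hm.trans ?_
      have h6 : ‖((k + 1 : ℕ) : ℝ) - x‖ ≤ 1 := by
        rw [Set.uIoc_of_le (by push_cast; linarith)] at hx
        have h7 := hx.1
        have h8 := hx.2
        push_cast at h8 ⊢
        rw [Real.norm_eq_abs, abs_le]
        constructor <;> linarith
      calc 2 * Real.pi * Lam * ‖((k + 1 : ℕ) : ℝ) - x‖ ≤ 2 * Real.pi * Lam * 1 :=
            mul_le_mul_of_nonneg_left h6 (by positivity)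
        _ = 2 * Real.pi * Lam := mul_one _
  calc ‖∑ k ∈ Ico a b, (ee (φ ((k + 1 : ℕ) : ℝ)) -
        ∫ x in ((k : ℕ) : ℝ)..((k + 1 : ℕ) : ℝ), ee (φ x))‖
      ≤ ∑ k ∈ Ico a b, 2 * Real.pi * Lam := norm_sum_le_of_le _ hterm
    _ = 2 * Real.pi * Lam * ((b : ℝ) - a) := by
        rw [Finset.sum_const, Nat.card_Ico, nsmul_eq_mul, Nat.cast_sub hab]
        ring

/-- the integral -/
theorem Ibp_int (φ ψ ψ' : ℝ → ℝ) (a b : ℝ) (hab : a ≤ b) (σ lam : ℝ) (hσ : |σ| = 1)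
    (hlam : 0 < lam) (h1 : ∀ x ∈ Set.Icc a b, HasDerivAt φ (σ * ψ x) x)
    (h2 : ∀ x ∈ Set.Icc a b, HasDerivAt ψ (ψ' x) x)
    (h3 : ∀ x ∈ Set.Icc a b, ψ' x ≤ 0) (h4 : ContinuousOn ψ' (Set.Icc a b))
    (h5 : ∀ x ∈ Set.Icc a b, lam ≤ ψ x) :
    ‖∫ x in a..b, ee (φ x)‖ ≤ 1 / lam := by
  have hσ2 : σ * σ = 1 := by
    have := congrArg (fun t => t * t) hσ
    simpa [abs_mul_abs_self] using this
  have hpos : ∀ x ∈ Set.Icc a b, 0 < ψ x := fun x hx => lt_of_lt_of_le hlam (h5 x hx)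
  have hψc : ContinuousOn ψ (Set.Icc a b) := fun x hx => (h2 x hx).continuousAt.continuousWithinAt
  have hcont : ContinuousOn (fun x => ee (φ x)) (Set.Icc a b) := fun x hx =>
    (Ibp_ee_hasDerivAt φ _ x (h1 x hx)).continuousAt.continuousWithinAt
  have huIcc : Set.uIcc a b = Set.Icc a b := Set.uIcc_of_le hab
  -- derivative of 1/ψ
  have hinv : ∀ x ∈ Set.Icc a b, HasDerivAt (fun y => (ψ y)⁻¹) (-ψ' x / (ψ x) ^ 2) x :=
    fun x hx => (h2 x hx).inv (hpos x hx).ne'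
  have hgc : ContinuousOn (fun x => -ψ' x / (ψ x) ^ 2) (Set.Icc a b) :=
    (h4.neg).div (hψc.pow 2) (fun x hx => by have := hpos x hx; positivity)
  have hFTC1 : ∫ x in a..b, -ψ' x / (ψ x) ^ 2 = (ψ b)⁻¹ - (ψ a)⁻¹ :=
    intervalIntegral.integral_eq_sub_of_hasDerivAt (fun x hx => hinv x (huIcc ▸ hx))
      ((huIcc ▸ hgc : ContinuousOn _ (Set.uIcc a b)).intervalIntegrable)
  -- the main function
  set c : ℂ := (σ : ℂ) / (2 * Real.pi * Complex.I) with hc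
  have hcn : ‖c‖ = 1 / (2 * Real.pi) := by
    rw [hc, norm_div, norm_mul, norm_mul, Complex.norm_real, Complex.norm_real, Complex.norm_I,
      Complex.norm_ofNat, Real.norm_eq_abs, Real.norm_eq_abs, hσ, abs_of_pos Real.pi_pos, mul_one]
  have hc2 : ∀ s : ℝ, c * (2 * Real.pi * ((σ * s : ℝ) : ℂ) * Complex.I) = s := by
    intro s
    have hpi : (Real.pi : ℂ) ≠ 0 := by exact_mod_cast Real.pi_ne_zero
    have hI : Complex.I ≠ 0 := Complex.I_ne_zero
    rw [hc]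
    push_cast
    field_simp
    have : (σ : ℂ) * σ = 1 := by exact_mod_cast hσ2
    linear_combination (s : ℂ) * this
  have hG : ∀ x ∈ Set.Icc a b, HasDerivAt (fun y => c * ee (φ y) * (((ψ y)⁻¹ : ℝ) : ℂ))
      (ee (φ x) + c * ee (φ x) * ((-ψ' x / (ψ x) ^ 2 : ℝ) : ℂ)) x := by
    intro x hx
    have hd := ((Ibp_ee_hasDerivAt φ _ x (h1 x hx)).const_mul c).mul (hinv x hx).ofReal_comp
    have h7 := hc2 (ψ x)
    have h8 : ((ψ x : ℝ) : ℂ) * (((ψ x)⁻¹ : ℝ) : ℂ) = 1 := by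
      rw [← Complex.ofReal_mul, mul_inv_cancel₀ (hpos x hx).ne', Complex.ofReal_one]
    have h9 : c * (2 * Real.pi * ((σ * ψ x : ℝ) : ℂ) * Complex.I * ee (φ x)) *
        (((ψ x)⁻¹ : ℝ) : ℂ) = ee (φ x) := by
      calc c * (2 * Real.pi * ((σ * ψ x : ℝ) : ℂ) * Complex.I * ee (φ x)) *
        (((ψ x)⁻¹ : ℝ) : ℂ) = (c * (2 * Real.pi * ((σ * ψ x : ℝ) : ℂ) * Complex.I)) * 
          (((ψ x)⁻¹ : ℝ) : ℂ) * ee (φ x) := by ring
        _ = ee (φ x) := by rw [h7, h8, one_mul]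
    rw [h9] at hd
    exact hd
  have hint1 : IntervalIntegrable (fun x => ee (φ x)) volume a b :=
    (huIcc ▸ hcont : ContinuousOn _ (Set.uIcc a b)).intervalIntegrable
  have hcont2 : ContinuousOn (fun x => c * ee (φ x) * ((-ψ' x / (ψ x) ^ 2 : ℝ) : ℂ))
      (Set.Icc a b) :=
    (continuousOn_const.mul hcont).mul (Complex.continuous_ofReal.comp_continuousOn hgc)
  have hint2 : IntervalIntegrable (fun x => c * ee (φ x) * ((-ψ' x / (ψ x) ^ 2 : ℝ) : ℂ))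
      volume a b := (huIcc ▸ hcont2 : ContinuousOn _ (Set.uIcc a b)).intervalIntegrable
  have hFTC2 : ∫ x in a..b, (ee (φ x) + c * ee (φ x) * ((-ψ' x / (ψ x) ^ 2 : ℝ) : ℂ)) =
      c * ee (φ b) * (((ψ b)⁻¹ : ℝ) : ℂ) - c * ee (φ a) * (((ψ a)⁻¹ : ℝ) : ℂ) :=
    intervalIntegral.integral_eq_sub_of_hasDerivAt (fun x hx => hG x (huIcc ▸ hx))
      (hint1.add hint2)
  rw [intervalIntegral.integral_add hint1 hint2] at hFTC2
  have hmain : ∫ x in a..b, ee (φ x) = (c * ee (φ b) * (((ψ b)⁻¹ : ℝ) : ℂ) -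
      c * ee (φ a) * (((ψ a)⁻¹ : ℝ) : ℂ)) -
      ∫ x in a..b, c * ee (φ x) * ((-ψ' x / (ψ x) ^ 2 : ℝ) : ℂ) := by
    rw [← hFTC2]; ring
  have ha : a ∈ Set.Icc a b := ⟨le_refl _, hab⟩
  have hb : b ∈ Set.Icc a b := ⟨hab, le_refl _⟩
  have hia : (ψ a)⁻¹ ≤ 1 / lam := by
    rw [← one_div]; exact one_div_le_one_div_of_le hlam (h5 a ha)
  have hib : (ψ b)⁻¹ ≤ 1 / lam := by
    rw [← one_div]; exact one_div_le_one_div_of_le hlam (h5 b hb)
  have hia0 : 0 < (ψ a)⁻¹ := inv_pos.mpr (hpos a ha)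
  have hib0 : 0 < (ψ b)⁻¹ := inv_pos.mpr (hpos b hb)
  have hbd : ∀ x : ℝ, 0 < (ψ x)⁻¹ → ‖c * ee (φ x) * (((ψ x)⁻¹ : ℝ) : ℂ)‖ =
      1 / (2 * Real.pi) * (ψ x)⁻¹ := by
    intro x hx
    rw [norm_mul, norm_mul, hcn, Ibp_norm_ee, Complex.norm_real, Real.norm_eq_abs, abs_of_pos hx,
      mul_one]
  have hI2 : ‖∫ x in a..b, c * ee (φ x) * ((-ψ' x / (ψ x) ^ 2 : ℝ) : ℂ)‖ ≤
      1 / (2 * Real.pi) * ((ψ b)⁻¹ - (ψ a)⁻¹) := by
    rw [← hFTC1, ← intervalIntegral.integral_const_mul]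
    apply intervalIntegral.norm_integral_le_of_norm_le hab
    · refine Filter.Eventually.of_forall fun x hx => ?_
      have hx' : x ∈ Set.Icc a b := Set.Ioc_subset_Icc_self hx
      rw [norm_mul, norm_mul, hcn, Ibp_norm_ee, Complex.norm_real, Real.norm_eq_abs, abs_of_nonneg,
        mul_one]
      have := h3 x hx'
      have h0 : 0 ≤ -ψ' x := by linarith
      positivity
    · exact ((huIcc ▸ hgc : ContinuousOn _ (Set.uIcc a b)).intervalIntegrable).const_mul _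
  rw [hmain]
  have hpi3 : (3 : ℝ) < Real.pi := Real.pi_gt_three
  have hq : 1 / (2 * Real.pi) ≤ 1 / 3 := by
    apply one_div_le_one_div_of_le <;> linarith
  have hq0 : 0 < 1 / (2 * Real.pi) := by positivity
  calc ‖(c * ee (φ b) * (((ψ b)⁻¹ : ℝ) : ℂ) - c * ee (φ a) * (((ψ a)⁻¹ : ℝ) : ℂ)) -
      ∫ x in a..b, c * ee (φ x) * ((-ψ' x / (ψ x) ^ 2 : ℝ) : ℂ)‖
      ≤ (‖c * ee (φ b) * (((ψ b)⁻¹ : ℝ) : ℂ)‖ + ‖c * ee (φ a) * (((ψ a)⁻¹ : ℝ) : ℂ)‖) +
        ‖∫ x in a..b, c * ee (φ x) * ((-ψ' x / (ψ x) ^ 2 : ℝ) : ℂ)‖ :=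
        (norm_sub_le _ _).trans (by gcongr; exact norm_sub_le _ _)
    _ ≤ (1 / (2 * Real.pi) * (ψ b)⁻¹ + 1 / (2 * Real.pi) * (ψ a)⁻¹) +
        1 / (2 * Real.pi) * ((ψ b)⁻¹ - (ψ a)⁻¹) := by
        rw [hbd b hib0, hbd a hia0]
        gcongr
    _ = 1 / (2 * Real.pi) * (2 * (ψ b)⁻¹) := by ring
    _ ≤ 1 / 3 * (2 * (ψ b)⁻¹) := by gcongr
    _ ≤ 1 / lam := by nlinarith

theorem first_deriv (φ ψ ψ' : ℝ → ℝ) (a b : ℕ) (hab : a ≤ b) (σ lam Lam : ℝ) (hσ : |σ| = 1)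
    (hlam : 0 < lam) (h1 : ∀ x ∈ Set.Icc (a : ℝ) b, HasDerivAt φ (σ * ψ x) x)
    (h2 : ∀ x ∈ Set.Icc (a : ℝ) b, HasDerivAt ψ (ψ' x) x)
    (h3 : ∀ x ∈ Set.Icc (a : ℝ) b, ψ' x ≤ 0) (h4 : ContinuousOn ψ' (Set.Icc (a : ℝ) b))
    (h5 : ∀ x ∈ Set.Icc (a : ℝ) b, lam ≤ ψ x ∧ ψ x ≤ Lam) :
    ‖∑ n ∈ Ioc a b, ee (φ n)‖ ≤ 1 / lam + 7 * Lam * ((b : ℝ) - a) := by
  have habR : (a : ℝ) ≤ b := by exact_mod_cast hab
  have hA := Ibp_sum_int φ ψ a b hab σ Lam hσ h1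
    (fun x hx => ⟨lt_of_lt_of_le hlam (h5 x hx).1, (h5 x hx).2⟩)
  have hB := Ibp_int φ ψ ψ' a b habR σ lam hσ hlam h1 h2 h3 h4 (fun x hx => (h5 x hx).1)
  have hLam0 : 0 ≤ Lam := by
    have hb : (b : ℝ) ∈ Set.Icc (a : ℝ) b := ⟨habR, le_refl _⟩
    have := h5 _ hb
    linarith [this.1, this.2]
  have hpi : 2 * Real.pi ≤ 7 := by
    have := Real.pi_lt_d2
    linarith
  calc ‖∑ n ∈ Ioc a b, ee (φ n)‖
      = ‖(∑ n ∈ Ioc a b, ee (φ n) - ∫ x in (a : ℝ)..b, ee (φ x)) +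
          ∫ x in (a : ℝ)..b, ee (φ x)‖ := by rw [sub_add_cancel]
    _ ≤ 2 * Real.pi * Lam * ((b : ℝ) - a) + 1 / lam :=
        (norm_add_le _ _).trans (add_le_add hA hB)
    _ ≤ 7 * Lam * ((b : ℝ) - a) + 1 / lam := by
        gcongr
    _ = 1 / lam + 7 * Lam * ((b : ℝ) - a) := by ring

end Pool.Agent.H76.EHB

end

section

/-!
# EHB AvA: the differenced sums of `t log(x+β)`

`PH hs t β` is the iterated difference of `x ↦ t log(x+β)`; derivative `(-1)^J t LL hs β x`, `J = hs.length` (induction, `LL_nil`, `LL_cons`).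
`av_base` (`J` differences already made, all `h ≥ 1`, on an interval `[a,b] ⊆ [M, 2M]`, `hs.sum ≤ M`, `0 ≤ β ≤ 1`, `t ≠ 0`): `first_deriv` with
`ψ = |t| LL hs β`, `σ = ±1`, `λ = |t| J! ∏h/(4M)^{J+1}` (`x + β + ∑h ≤ 2M + 1 + M ≤ 4M`), `Λ = |t| J! ∏h/M^{J+1}`, `b - a ≤ M`.
-/

set_option autoImplicit false

namespace Pool.Agent.H76.EHB

open Finset
open Pool.Agent.H91.PK (ee)

/-- iterated differences of `x ↦ t log(x + β)` -/
noncomputable def PH : List ℝ → ℝ → ℝ → ℝ → ℝ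
  | [], t, β, x => t * Real.log (x + β)
  | (h :: hs), t, β, x => PH hs t β (x + h) - PH hs t β x

theorem AvA_deriv (hs : List ℝ) (t β : ℝ) (hpos : ∀ g ∈ hs, 0 < g) : ∀ x : ℝ, 0 < x + β →
    HasDerivAt (PH hs t β) ((-1) ^ hs.length * t * LL hs β x) x := by
  induction hs with
  | nil =>
    intro x hx
    have h1 : HasDerivAt (fun y : ℝ => t * Real.log (y + β)) (t * (1 / (x + β))) x := by
      have h2 : HasDerivAt (fun y : ℝ => y + β) 1 x := (hasDerivAt_id x).add_const β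
      exact (h2.log hx.ne').const_mul t
    rw [LL_nil β x hx]
    simpa [PH] using h1
  | cons h hs ih =>
    intro x hx
    have hh : 0 < h := hpos h (by simp)
    have hpos' : ∀ g ∈ hs, 0 < g := fun g hg => hpos g (by simp [hg])
    have h1 := ih hpos' (x + h) (by linarith)
    have h2 := ih hpos' x hx
    have h3 : HasDerivAt (fun y : ℝ => PH hs t β (y + h))
        ((-1) ^ hs.length * t * LL hs β (x + h)) x := by
      have h4 : HasDerivAt (fun y : ℝ => y + h) 1 x := (hasDerivAt_id x).add_const h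
      have h5 := HasDerivAt.comp x h1 h4
      rw [mul_one] at h5
      exact h5
    have h6 := h3.sub h2
    rw [LL_cons h hs β x hx hh hpos', List.length_cons, pow_succ]
    have e : (-1 : ℝ) ^ hs.length * t * LL hs β (x + h) - (-1) ^ hs.length * t * LL hs β x =
        (-1) ^ hs.length * (-1) * t * (LL hs β x - LL hs β (x + h)) := by ring
    rw [← e]
    exact h6

theorem av_base (hs : List ℝ) (t β : ℝ) (M a b : ℕ) (hM : 1 ≤ M) (ha : M ≤ a) (hb : b ≤ 2 * M)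
    (hβ : 0 ≤ β) (hβ1 : β ≤ 1) (ht : t ≠ 0) (hpos : ∀ g ∈ hs, 1 ≤ g) (hsum : hs.sum ≤ M) :
    ‖∑ n ∈ Ioc a b, ee (PH hs t β n)‖
      ≤ (4 * M : ℝ) ^ (hs.length + 1) / (|t| * hs.prod)
        + 7 * (hs.length.factorial : ℝ) * |t| * hs.prod / (M : ℝ) ^ hs.length := by
  have hM' : (1 : ℝ) ≤ M := by exact_mod_cast hM
  have hpos' : ∀ g ∈ hs, 0 < g := fun g hg => lt_of_lt_of_le one_pos (hpos g hg)
  have hprod : 0 < hs.prod := List.prod_pos hpos'
  have hsum0 : 0 ≤ hs.sum := List.sum_nonneg (fun g hg => (hpos' g hg).le)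
  have ht' : 0 < |t| := abs_pos.mpr ht
  have hfac : (1 : ℝ) ≤ (hs.length.factorial : ℝ) := by exact_mod_cast Nat.succ_le_of_lt (Nat.factorial_pos _)
  have hfac0 : (0 : ℝ) < (hs.length.factorial : ℝ) := by linarith
  rcases le_total a b with hab | hab
  swap
  · rw [Finset.Ioc_eq_empty_of_le hab, Finset.sum_empty, norm_zero]
    positivity
  have haR : (M : ℝ) ≤ a := by exact_mod_cast ha
  have hbR : (b : ℝ) ≤ 2 * M := by exact_mod_cast hb
  have hxpos : ∀ x ∈ Set.Icc (a : ℝ) b, (M : ℝ) ≤ x + β ∧ x + β + hs.sum ≤ 4 * M := by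
    intro x hx
    exact ⟨by linarith [hx.1], by linarith [hx.2]⟩
  have key := first_deriv (PH hs t β) (fun x => |t| * LL hs β x) (fun x => |t| * (-LD hs β x)) a b hab
    ((-1) ^ hs.length * SignType.sign t)
    (|t| * ((hs.length.factorial : ℝ) * hs.prod / (4 * M) ^ (hs.length + 1)))
    (|t| * ((hs.length.factorial : ℝ) * hs.prod / (M : ℝ) ^ (hs.length + 1))) ?_ (by positivity)
    ?_ ?_ ?_ ?_ ?_
  · refine key.trans (add_le_add ?_ ?_)
    · rw [one_div, mul_div_assoc', inv_div]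
      refine div_le_div_of_nonneg_left (by positivity) (by positivity) ?_
      refine mul_le_mul_of_nonneg_left ?_ ht'.le
      calc hs.prod = 1 * hs.prod := (one_mul _).symm
        _ ≤ (hs.length.factorial : ℝ) * hs.prod := mul_le_mul_of_nonneg_right hfac hprod.le
    · have hba : (b : ℝ) - a ≤ M := by linarith
      calc 7 * (|t| * ((hs.length.factorial : ℝ) * hs.prod / (M : ℝ) ^ (hs.length + 1))) *
            ((b : ℝ) - a)
          ≤ 7 * (|t| * ((hs.length.factorial : ℝ) * hs.prod / (M : ℝ) ^ (hs.length + 1))) * M :=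
            mul_le_mul_of_nonneg_left hba (by positivity)
        _ = 7 * (hs.length.factorial : ℝ) * |t| * hs.prod / (M : ℝ) ^ hs.length := by
            rw [pow_succ]
            field_simp
  · rw [abs_mul, abs_pow, abs_neg, abs_one, one_pow, one_mul]
    rcases lt_or_gt_of_ne ht with h | h
    · rw [sign_neg h]; simp
    · rw [sign_pos h]; simp
  · intro x hx
    have h1 := AvA_deriv hs t β hpos' x (by linarith [(hxpos x hx).1])
    have e : (-1 : ℝ) ^ hs.length * t * LL hs β x =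
        (-1) ^ hs.length * (SignType.sign t : ℝ) * (|t| * LL hs β x) := by
      have h2 : (SignType.sign t : ℝ) * |t| = t := sign_mul_abs t
      calc (-1 : ℝ) ^ hs.length * t * LL hs β x =
          (-1 : ℝ) ^ hs.length * ((SignType.sign t : ℝ) * |t|) * LL hs β x := by rw [h2]
        _ = _ := by ring
    rw [← e]
    exact h1
  · intro x hx
    exact (LL_hasDerivAt hs β x (by linarith [(hxpos x hx).1]) hpos').const_mul |t|
  · intro x hx
    have := LD_nonneg hs β x hpos'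
    nlinarith
  · refine ContinuousOn.mul continuousOn_const ?_
    refine ((LD_continuousOn hs β hpos').mono ?_).neg
    intro x hx
    have := (hxpos x hx).1
    simp only [Set.mem_Ioi]
    linarith
  · intro x hx
    obtain ⟨h1, h2⟩ := hxpos x hx
    have hx0 : 0 < x + β := by linarith
    constructor
    · refine mul_le_mul_of_nonneg_left ?_ ht'.le
      refine le_trans ?_ (LL_ge hs β x hx0 hpos')
      refine div_le_div_of_nonneg_left (by positivity) (by positivity) ?_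
      exact pow_le_pow_left₀ (by linarith) h2 _
    · refine mul_le_mul_of_nonneg_left ?_ ht'.le
      refine (LL_le hs β x hx0 hpos').trans ?_
      refine div_le_div_of_nonneg_left (by positivity) (by positivity) ?_
      exact pow_le_pow_left₀ (by linarith) h1 _

end Pool.Agent.H76.EHB

end

section

/-!
# EHB Vdc2: iteration

`AvS H J φ a b` is the average over `h_1, …, h_J ∈ [1, H]` of the absolute value of the sum with the `J`-fold difference of the phase.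
Induction on `J` (for all `φ, a, b` with `b - a ≤ Y`): with `S = |∑ ee(φ n)|`,
`(S/Y)^2 ≤ 2/H + 4 (1/H) ∑_h S_h/Y` (`vdc_step` with `z n = ee (φ n)`, `z(n+h) conj z n = ee(φ(n+h) - φ n)`), so
`(S/Y)^{2^{J+1}} ≤ 2^{2^J} ((2/H)^{2^J} + 4^{2^J} (1/H) ∑_h (S_h/Y)^{2^J})` (convexity; Jensen `inner_le_nnorm_mul_nnorm` or
`Finset.inner_mul_le_norm_mul_norm`, e.g. `Real.pow_arith_mean_le_arith_mean_pow`) `≤ 8^{2^J} (1/H + (1/H) ∑_h (S_h/Y)^{2^J})`, and the induction hypothesis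
for each `h` (interval `Ioc a (b-h)`, length `≤ Y`).  Constants: `C_{J+1} ≤ 8^{2^J} (1 + C_J) ≤ 16^{2^{J+1}}` if `C_J = 16^{2^J}`, `C_0 ≥ 1`.
-/

set_option autoImplicit false

namespace Pool.Agent.H76.EHB

open Finset
open Pool.Agent.H91.PK (ee)

/-- average of the differenced sums -/
noncomputable def AvS (H : ℕ) : ℕ → (ℕ → ℝ) → ℕ → ℕ → ℝ
  | 0, φ, a, b => ‖∑ n ∈ Ioc a b, ee (φ n)‖
  | (J + 1), φ, a, b => 1 / (H : ℝ) * ∑ h ∈ Icc 1 H, AvS H J (fun n => φ (n + h) - φ n) a (b - h)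

theorem AvS_nonneg (H J : ℕ) (φ : ℕ → ℝ) (a b : ℕ) : 0 ≤ AvS H J φ a b := by
  induction J generalizing φ b with
  | zero => exact norm_nonneg _
  | succ J ih =>
    unfold AvS
    apply mul_nonneg (by positivity)
    exact Finset.sum_nonneg (fun h _ => ih _ _)

theorem vdc_iter (J : ℕ) (φ : ℕ → ℝ) (a b Y H : ℕ) (hab : b - a ≤ Y) (hH : 1 ≤ H) (hHY : H ≤ Y) :
    (‖∑ n ∈ Ioc a b, ee (φ n)‖ / Y) ^ (2 ^ J) ≤ 16 ^ (2 ^ J) * (1 / (H : ℝ) + AvS H J φ a b / Y) := by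
  have hH0 : (0 : ℝ) < H := by exact_mod_cast hH
  have hY0 : (0 : ℝ) < Y := by exact_mod_cast (lt_of_lt_of_le hH hHY)
  have hH1 : (1 : ℝ) ≤ H := by exact_mod_cast hH
  induction J generalizing φ b with
  | zero =>
    simp only [pow_zero, pow_one, AvS]
    have h1 : 0 ≤ ‖∑ n ∈ Ioc a b, ee (φ n)‖ / (Y : ℝ) := by positivity
    have h2 : 0 ≤ 1 / (H : ℝ) := by positivity
    linarith
  | succ J ih =>
    have hN0 : (2 : ℕ) ^ (J + 1) = 2 * 2 ^ J := by rw [pow_succ]; ring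
    rw [hN0]
    have hN1 : 1 ≤ 2 ^ J := Nat.one_le_two_pow
    generalize hN : 2 ^ J = N at ih hN1 ⊢
    set S : ℝ := ‖∑ n ∈ Ioc a b, ee (φ n)‖ with hS
    set X : ℕ → ℝ := fun h => ‖∑ n ∈ Ioc a (b - h), ee (φ (n + h) - φ n)‖ / Y with hX
    have hX0 : ∀ h, 0 ≤ X h := fun h => by rw [hX]; positivity
    have hstep := vdc_step (fun n => ee (φ n)) (fun n => by rw [Pool.Agent.H91.PK.LSa_norm_ee]) a b Y H hab hH hHY
    have hXe : ∀ h, ‖∑ n ∈ Ioc a (b - h), ee (φ (n + h)) * (starRingEnd ℂ) (ee (φ n))‖ = Y * X h := by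
      intro h
      have e1 : ∀ n, ee (φ (n + h)) * (starRingEnd ℂ) (ee (φ n)) = ee (φ (n + h) - φ n) := by
        intro n
        rw [Pool.Agent.H91.PK.LSa_conj_ee, ← Pool.Agent.H91.PK.LSa_ee_add, sub_eq_add_neg]
      simp only [e1, hX]
      field_simp
    have h1 : (S / Y) ^ 2 ≤ 2 / H + 4 * (1 / (H : ℝ) * ∑ h ∈ Icc 1 H, X h) := by
      have h2 : S ^ 2 ≤ 2 * (Y : ℝ) ^ 2 / H + 4 * (Y : ℝ) / H * ∑ h ∈ Icc 1 H, (Y * X h) := by
        have h3 := hstep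
        simp only [hXe] at h3
        exact h3
      rw [div_pow, div_le_iff₀ (by positivity)]
      refine h2.trans (le_of_eq ?_)
      rw [← Finset.mul_sum]
      field_simp
    have hm0 : 0 ≤ 1 / (H : ℝ) * ∑ h ∈ Icc 1 H, X h :=
      mul_nonneg (by positivity) (Finset.sum_nonneg fun h _ => hX0 h)
    -- Jensen
    have hJen : (1 / (H : ℝ) * ∑ h ∈ Icc 1 H, X h) ^ N ≤ 1 / (H : ℝ) * ∑ h ∈ Icc 1 H, X h ^ N := by
      have h3 := Real.pow_arith_mean_le_arith_mean_pow (Icc 1 H) (fun _ => 1 / (H : ℝ)) X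
        (fun _ _ => by positivity) (by simp [Nat.card_Icc]; field_simp) (fun h _ => hX0 h) N
      rw [← Finset.mul_sum, ← Finset.mul_sum] at h3
      exact h3
    have hIH : ∀ h ∈ Icc 1 H, X h ^ N ≤ 16 ^ N * (1 / (H : ℝ)
        + AvS H J (fun n => φ (n + h) - φ n) a (b - h) / Y) := by
      intro h _
      exact ih (fun n => φ (n + h) - φ n) (b - h) (by omega)
    have hA : 1 / (H : ℝ) * ∑ h ∈ Icc 1 H, X h ^ N
        ≤ 16 ^ N * (1 / (H : ℝ) + AvS H (J + 1) φ a b / Y) := by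
      calc 1 / (H : ℝ) * ∑ h ∈ Icc 1 H, X h ^ N
          ≤ 1 / (H : ℝ) * ∑ h ∈ Icc 1 H, 16 ^ N * (1 / (H : ℝ)
              + AvS H J (fun n => φ (n + h) - φ n) a (b - h) / Y) :=
            mul_le_mul_of_nonneg_left (Finset.sum_le_sum hIH) (by positivity)
        _ = 16 ^ N * (1 / (H : ℝ) + AvS H (J + 1) φ a b / Y) := by
            have e7 : AvS H (J + 1) φ a b
                = 1 / (H : ℝ) * ∑ h ∈ Icc 1 H, AvS H J (fun n => φ (n + h) - φ n) a (b - h) := rfl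
            have e8 : ∑ h ∈ Icc 1 H, AvS H J (fun n => φ (n + h) - φ n) a (b - h) / (Y : ℝ)
                = (∑ h ∈ Icc 1 H, AvS H J (fun n => φ (n + h) - φ n) a (b - h)) / (Y : ℝ) :=
              (Finset.sum_div _ _ _).symm
            have e9 : ∑ _h ∈ Icc 1 H, (1 / (H : ℝ)) = 1 := by
              simp only [Finset.sum_const, Nat.card_Icc, nsmul_eq_mul]
              have : ((H + 1 - 1 : ℕ) : ℝ) = H := by simp
              rw [this]; field_simp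
            rw [← Finset.mul_sum, Finset.sum_add_distrib, e8, e9, e7]
            ring
    set Z : ℝ := 1 / (H : ℝ) + AvS H (J + 1) φ a b / Y with hZ
    have hZ0 : 1 / (H : ℝ) ≤ Z := by
      rw [hZ]
      have := AvS_nonneg H (J + 1) φ a b
      have : 0 ≤ AvS H (J + 1) φ a b / Y := by positivity
      linarith
    have hZp : 0 ≤ Z := le_trans (by positivity) hZ0
    have hinv : (1 / (H : ℝ)) ^ N ≤ 1 / (H : ℝ) := by
      have h5 : 1 / (H : ℝ) ≤ 1 := by rw [div_le_one hH0]; exact hH1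
      calc (1 / (H : ℝ)) ^ N ≤ (1 / (H : ℝ)) ^ 1 := pow_le_pow_of_le_one (by positivity) h5 hN1
        _ = _ := pow_one _
    clear_value Z
    generalize (1 / (H : ℝ) * ∑ h ∈ Icc 1 H, X h) = m at h1 hm0 hJen
    have k1 : (S / Y) ^ (2 * N) ≤ (2 / H + 4 * m) ^ N := by
      rw [pow_mul]
      exact pow_le_pow_left₀ (sq_nonneg _) h1 N
    have k2 : (2 / (H : ℝ) + 4 * m) ^ N ≤ 2 ^ (N - 1) * ((2 / (H : ℝ)) ^ N + (4 * m) ^ N) :=
      add_pow_le (by positivity) (by linarith) N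
    have e1 : (2 / (H : ℝ)) ^ N = 2 ^ N * (1 / (H : ℝ)) ^ N := by
      rw [← mul_pow]; ring_nf
    have e10 : (2 : ℝ) ^ N ≤ 64 ^ N :=
      pow_le_pow_left₀ (by norm_num : (0 : ℝ) ≤ 2) (by norm_num : (2 : ℝ) ≤ 64) N
    have k3 : (2 / (H : ℝ)) ^ N ≤ 64 ^ N * Z := by
      rw [e1]
      exact mul_le_mul e10 (hinv.trans hZ0) (by positivity) (by positivity)
    have e2 : (4 : ℝ) ^ N * (16 ^ N * Z) = 64 ^ N * Z := by
      rw [← mul_assoc, ← mul_pow]; norm_num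
    have k4 : (4 * m) ^ N ≤ 64 ^ N * Z := by
      rw [mul_pow, ← e2]
      exact mul_le_mul_of_nonneg_left (hJen.trans hA) (by positivity)
    have e3 : (2 : ℝ) ^ N = 2 ^ (N - 1) * 2 := by
      rw [← pow_succ]; congr 1; omega
    have k5 : (2 : ℝ) ^ (N - 1) * ((2 / (H : ℝ)) ^ N + (4 * m) ^ N) ≤ 2 ^ N * 64 ^ N * Z := by
      have h6 : (2 : ℝ) ^ (N - 1) * ((2 / (H : ℝ)) ^ N + (4 * m) ^ N)
          ≤ 2 ^ (N - 1) * (64 ^ N * Z + 64 ^ N * Z) :=
        mul_le_mul_of_nonneg_left (add_le_add k3 k4) (by positivity)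
      refine h6.trans (le_of_eq ?_)
      rw [e3]; ring
    have e4 : (16 : ℝ) ^ (2 * N) = 256 ^ N := by
      rw [pow_mul]; norm_num
    have k6 : (2 : ℝ) ^ N * 64 ^ N * Z ≤ 16 ^ (2 * N) * Z := by
      apply mul_le_mul_of_nonneg_right _ hZp
      rw [e4, ← mul_pow]
      exact pow_le_pow_left₀ (by norm_num) (by norm_num) N
    exact k1.trans (k2.trans (k5.trans k6))

end Pool.Agent.H76.EHB

end

section

/-!
# EHB AvB: averages of the differenced sums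

Induction on `J'` (number of further differences), `J' = 0` is `av_base`: with `j = hs.length`; by definition of `AvS` and `PH` (`PH (h :: hs) t β n = PH hs t β (n+h) - PH hs t β n`)
`AvS H (J'+1) (PH hs) a b` is the average over `h ∈ [1,H]` of `AvS H J' (PH (h :: hs)) a (b-h)`, bounded by the induction hypothesis (`(h :: hs).prod = h * hs.prod`,
`(h :: hs).sum + J' H ≤ hs.sum + (J'+1) H ≤ M`).  The average of `1/h` over `h ≤ H` is `≤ (1+log H)/H`, the average of `h` is `≤ H`.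
-/

set_option autoImplicit false

namespace Pool.Agent.H76.EHB

open Finset
open Pool.Agent.H91.PK (ee)

theorem AvB_prod_pos (hs : List ℝ) (hpos : ∀ g ∈ hs, 1 ≤ g) : 0 < hs.prod := by
  induction hs with
  | nil => simp
  | cons h hs ih =>
    rw [List.prod_cons]
    exact mul_pos (lt_of_lt_of_le one_pos (hpos h (by simp)))
      (ih fun g hg => hpos g (List.mem_cons_of_mem _ hg))

theorem AvB_harm (H : ℕ) : ∑ h ∈ Icc 1 H, 1 / (h : ℝ) ≤ 1 + Real.log H := by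
  have h := harmonic_le_one_add_log H
  rw [harmonic_eq_sum_Icc] at h
  push_cast at h
  simpa [one_div] using h

theorem av_main (J' : ℕ) (hs : List ℝ) (t β : ℝ) (M a b H : ℕ) (hM : 1 ≤ M) (ha : M ≤ a) (hb : b ≤ 2 * M)
    (hβ : 0 ≤ β) (hβ1 : β ≤ 1) (ht : t ≠ 0) (hpos : ∀ g ∈ hs, 1 ≤ g) (hH : 1 ≤ H)
    (hsum : hs.sum + J' * H ≤ M) :
    AvS H J' (fun n => PH hs t β n) a b
      ≤ (4 * M : ℝ) ^ (hs.length + J' + 1) / (|t| * hs.prod) * ((1 + Real.log H) / H) ^ J'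
        + 7 * ((hs.length + J').factorial : ℝ) * |t| * hs.prod * (H : ℝ) ^ J' / (M : ℝ) ^ (hs.length + J') := by
  induction J' generalizing hs b with
  | zero =>
    have h0 : hs.sum ≤ M := by simpa using hsum
    have h1 := av_base hs t β M a b hM ha hb hβ hβ1 ht hpos h0
    simp only [AvS, add_zero, pow_zero, mul_one]
    exact h1
  | succ J' ih =>
    have hH0 : (0 : ℝ) < H := by exact_mod_cast hH
    have hM0 : (0 : ℝ) < M := by exact_mod_cast hM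
    have ht0 : 0 < |t| := abs_pos.mpr ht
    have hprod : 0 < hs.prod := AvB_prod_pos hs hpos
    have hlog : 0 ≤ Real.log H := Real.log_nonneg (by exact_mod_cast hH)
    have hL : 0 ≤ ((1 + Real.log H) / H) ^ J' := by positivity
    have key : ∀ h ∈ Icc 1 H,
        AvS H J' (fun n => PH hs t β ((n + h : ℕ) : ℝ) - PH hs t β n) a (b - h)
          ≤ (4 * M : ℝ) ^ (hs.length + (J' + 1) + 1) / (|t| * hs.prod)
              * ((1 + Real.log H) / H) ^ J' * (1 / (h : ℝ))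
            + 7 * ((hs.length + (J' + 1)).factorial : ℝ) * |t| * hs.prod * (H : ℝ) ^ J'
              / (M : ℝ) ^ (hs.length + (J' + 1)) * H := by
      intro h hh
      rw [mem_Icc] at hh
      have hh0 : (0 : ℝ) < h := by exact_mod_cast hh.1
      have hh1 : (1 : ℝ) ≤ h := by exact_mod_cast hh.1
      have hhH : (h : ℝ) ≤ H := by exact_mod_cast hh.2
      have e1 : (fun n : ℕ => PH hs t β ((n + h : ℕ) : ℝ) - PH hs t β n)
          = fun n : ℕ => PH ((h : ℝ) :: hs) t β n := by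
        funext n
        simp only [PH]
        push_cast
        rfl
      rw [e1]
      have h2 := ih ((h : ℝ) :: hs) (b - h) (by omega)
        (by
          intro g hg
          rcases List.mem_cons.mp hg with rfl | hg
          · exact hh1
          · exact hpos g hg)
        (by
          rw [List.sum_cons]
          push_cast at hsum
          nlinarith [hsum, hhH])
      rw [List.length_cons, List.prod_cons] at h2
      have e2 : hs.length + 1 + J' = hs.length + (J' + 1) := by ring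
      rw [e2] at h2
      refine h2.trans (add_le_add (le_of_eq ?_) ?_)
      · field_simp
      · have h3 : 0 ≤ 7 * ((hs.length + (J' + 1)).factorial : ℝ) * |t| * hs.prod * (H : ℝ) ^ J'
              / (M : ℝ) ^ (hs.length + (J' + 1)) := by positivity
        calc 7 * ((hs.length + (J' + 1)).factorial : ℝ) * |t| * ((h : ℝ) * hs.prod) * (H : ℝ) ^ J'
              / (M : ℝ) ^ (hs.length + (J' + 1))
            = 7 * ((hs.length + (J' + 1)).factorial : ℝ) * |t| * hs.prod * (H : ℝ) ^ J'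
              / (M : ℝ) ^ (hs.length + (J' + 1)) * h := by ring
          _ ≤ _ := mul_le_mul_of_nonneg_left hhH h3
    have h4 : AvS H (J' + 1) (fun n => PH hs t β n) a b
        = 1 / (H : ℝ) * ∑ h ∈ Icc 1 H,
          AvS H J' (fun n => PH hs t β ((n + h : ℕ) : ℝ) - PH hs t β n) a (b - h) := rfl
    rw [h4]
    refine (mul_le_mul_of_nonneg_left (sum_le_sum key) (by positivity)).trans ?_
    rw [sum_add_distrib, ← mul_sum, sum_const, Nat.card_Icc, nsmul_eq_mul, Nat.add_sub_cancel]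
    have h5 : ∑ h ∈ Icc 1 H, 1 / (h : ℝ) ≤ 1 + Real.log H := AvB_harm H
    have h6 : 0 ≤ (4 * M : ℝ) ^ (hs.length + (J' + 1) + 1) / (|t| * hs.prod)
              * ((1 + Real.log H) / H) ^ J' := by positivity
    have h7 := mul_le_mul_of_nonneg_left h5 h6
    calc 1 / (H : ℝ) * ((4 * M : ℝ) ^ (hs.length + (J' + 1) + 1) / (|t| * hs.prod)
              * ((1 + Real.log H) / H) ^ J' * ∑ h ∈ Icc 1 H, 1 / (h : ℝ)
            + H * (7 * ((hs.length + (J' + 1)).factorial : ℝ) * |t| * hs.prod * (H : ℝ) ^ J'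
              / (M : ℝ) ^ (hs.length + (J' + 1)) * H))
        ≤ 1 / (H : ℝ) * ((4 * M : ℝ) ^ (hs.length + (J' + 1) + 1) / (|t| * hs.prod)
              * ((1 + Real.log H) / H) ^ J' * (1 + Real.log H)
            + H * (7 * ((hs.length + (J' + 1)).factorial : ℝ) * |t| * hs.prod * (H : ℝ) ^ J'
              / (M : ℝ) ^ (hs.length + (J' + 1)) * H)) :=
          mul_le_mul_of_nonneg_left (add_le_add h7 le_rfl) (by positivity)
      _ = _ := by
          rw [pow_succ ((1 + Real.log H) / H) J', pow_succ (H : ℝ) J']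
          field_simp

end Pool.Agent.H76.EHB

end

section

/-!
# EHB VdcF: the van der Corput bound

`low_sum`: `av_base` with `hs = []`: `|∑_{a<n≤b} ee(t log(n+β))| ≤ 4M/|t| + 7|t|` for `M ≤ a`, `b ≤ 2M`.
`vdc`: small `M` (`M ≤ M0(k0)`) by the trivial bound `≤ M`.  If `|t| ≤ M^{3/4}`: `low_sum` gives `≤ 4 M^{2/3} + 7 M^{3/4}`.
Otherwise choose the integer `J ∈ [1, k0+1]` with `M^{J-3/4} ≤ |t| ≤ M^{J+1/4}` (J = 1 covers `[M^{1/4}, M^{5/4}]`; we use it for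
`|t| ∈ [M^{3/4}, M^{5/4}]`) and `H = floor((M^{J+1/2}/|t|)^{1/J})`: `M^{J+1/2}/|t| ∈ [M^{1/4}, M^{5/4}]`, for `J = 1` in `[M^{1/4}, M^{3/4}]`, so
`M^{1/(4J)}/2 ≤ H ≤ M^{3/4}`, `J H ≤ M`.  `vdc_iter` (Y = M) and `av_main` (`hs = []`) give
`(|S|/M)^{2^J} ≤ 16^{2^J} (1/H + 4^{J+1} M^J (1+log H)^J/(|t| H^J) + 7 J! |t| H^J/M^{J+1})`, where
`M^J/(|t| H^J) ≤ 2^J M^{-1/2}` and `|t| H^J/M^{J+1} ≤ M^{-1/2}`; so the bracket is `≤ C M^{-1/(4J)}` and `|S| ≤ C M^{1 - 1/(4J 2^J)}`.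
-/

set_option autoImplicit false

namespace Pool.Agent.H76.EHB

open Finset
open Pool.Agent.H91.PK (ee)

theorem low_sum (t β : ℝ) (M a b : ℕ) (hM : 1 ≤ M) (ha : M ≤ a) (hb : b ≤ 2 * M)
    (hβ : 0 ≤ β) (hβ1 : β ≤ 1) (ht : t ≠ 0) :
    ‖∑ n ∈ Ioc a b, ee (t * Real.log (n + β))‖ ≤ 4 * M / |t| + 7 * |t| := by
  have h := av_base [] t β M a b hM ha hb hβ hβ1 ht (by simp) (by simp)
  simpa [PH] using h

/-- bracket estimate -/
private theorem VdcF_bracket (n J : ℕ) (hn : 1 ≤ n) (hJ1 : 1 ≤ J) (hJn : J ≤ n) (m T : ℝ)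
    (H : ℕ) (hm : 1 ≤ m) (hT : 0 < T) (hH : 1 ≤ H) (hHm : (H : ℝ) ≤ m)
    (hX1 : m ^ (1 / (4 * (J : ℝ))) ≤ 2 * H)
    (hlo : m ^ ((J : ℝ) + 1 / 2) ≤ T * (2 * H) ^ J)
    (hhi : T * (H : ℝ) ^ J ≤ m ^ ((J : ℝ) + 1 / 2)) :
    1 / (H : ℝ) + ((4 * m) ^ (J + 1) / T * ((1 + Real.log H) / H) ^ J
        + 7 * (J.factorial : ℝ) * T * (H : ℝ) ^ J / m ^ J) / m
      ≤ (2 + 4 ^ (n + 1) * (8 * n) ^ n + 7 * (n.factorial : ℝ)) * m ^ (-(1 / (4 * (J : ℝ)))) := by
  have hm0 : 0 < m := by linarith only [hm]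
  have hH0 : (0 : ℝ) < H := by exact_mod_cast hH
  have hJ0 : (0 : ℝ) < J := by exact_mod_cast hJ1
  have hJr : (1 : ℝ) ≤ J := by exact_mod_cast hJ1
  have hnr : (1 : ℝ) ≤ n := by exact_mod_cast hn
  have hJnr : (J : ℝ) ≤ n := by exact_mod_cast hJn
  have hexp : 1 / (4 * (J : ℝ)) ≤ 1 / 4 := by
    apply one_div_le_one_div_of_le (by norm_num) (by linarith only [hJr])
  set e := 1 / (4 * (J : ℝ)) with he
  have he0 : 0 < e := by rw [he]; positivity
  have heJ : e * J = 1 / 4 := by rw [he]; field_simp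
  -- first term
  have t1 : 1 / (H : ℝ) ≤ 2 * m ^ (-e) := by
    rw [Real.rpow_neg hm0.le, div_le_iff₀ hH0]
    have h1 : 0 < m ^ e := Real.rpow_pos_of_pos hm0 _
    rw [mul_assoc, inv_mul_eq_div, ← mul_div_assoc, le_div_iff₀ h1]
    linarith only [hX1]
  -- log
  have hlog : 1 + Real.log H ≤ 4 * J * m ^ e := by
    have h1 : Real.log H ≤ Real.log m := Real.log_le_log hH0 hHm
    have h2 : Real.log m = 4 * J * Real.log (m ^ e) := by
      rw [Real.log_rpow hm0, he]; field_simp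
    have h3 : Real.log (m ^ e) ≤ m ^ e - 1 :=
      Real.log_le_sub_one_of_pos (Real.rpow_pos_of_pos hm0 _)
    have h4 : 4 * (J : ℝ) * Real.log (m ^ e) ≤ 4 * J * (m ^ e - 1) :=
      mul_le_mul_of_nonneg_left h3 (by positivity)
    nlinarith only [hJr, hexp, he0, h1, h2, h4]
  have hlog0 : 0 ≤ 1 + Real.log H := by
    have := Real.log_nonneg (show (1 : ℝ) ≤ H by exact_mod_cast hH)
    linarith only [hexp, he0, this]
  have hlogJ : (1 + Real.log H) ^ J ≤ (4 * J) ^ J * m ^ (1 / 4 : ℝ) := by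
    calc (1 + Real.log H) ^ J ≤ (4 * J * m ^ e) ^ J := pow_le_pow_left₀ hlog0 hlog J
      _ = (4 * J) ^ J * m ^ (1 / 4 : ℝ) := by
        rw [mul_pow, ← Real.rpow_natCast (m ^ e) J, ← Real.rpow_mul hm0.le, heJ]
  -- powers of m
  have hmJ : m ^ ((J : ℝ) + 1 / 2) = m ^ J * m ^ (1 / 2 : ℝ) := by
    rw [Real.rpow_add hm0, Real.rpow_natCast]
  have hhalf : 0 < m ^ (1 / 2 : ℝ) := Real.rpow_pos_of_pos hm0 _
  have hquart : 0 < m ^ (1 / 4 : ℝ) := Real.rpow_pos_of_pos hm0 _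
  have hmJ0 : 0 < m ^ J := pow_pos hm0 J
  have hHJ0 : (0 : ℝ) < (H : ℝ) ^ J := pow_pos hH0 J
  have hle : m ^ (-(1 / 4) : ℝ) ≤ m ^ (-e) :=
    Real.rpow_le_rpow_of_exponent_le hm (by linarith only [hexp])
  have hle2 : m ^ (-(1 / 2) : ℝ) ≤ m ^ (-e) :=
    Real.rpow_le_rpow_of_exponent_le hm (by linarith only [hexp, he0])
  have hme0 : 0 < m ^ (-e) := Real.rpow_pos_of_pos hm0 _
  -- second term
  have t2 : (4 * m) ^ (J + 1) / T * ((1 + Real.log H) / H) ^ J / m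
      ≤ 4 ^ (n + 1) * (8 * n) ^ n * m ^ (-e) := by
    have h1 : (4 * m) ^ (J + 1) / T * ((1 + Real.log H) / H) ^ J / m
        = 4 ^ (J + 1) * (m ^ J / (T * (H : ℝ) ^ J)) * (1 + Real.log H) ^ J := by
      rw [div_pow, mul_pow, pow_succ m J]
      field_simp
    have h2 : m ^ J / (T * (H : ℝ) ^ J) ≤ 2 ^ J * m ^ (-(1 / 2) : ℝ) := by
      rw [div_le_iff₀ (by positivity), Real.rpow_neg hm0.le]
      rw [hmJ, mul_pow] at hlo
      have h3 : m ^ J ≤ T * (2 ^ J * (H : ℝ) ^ J) / m ^ (1 / 2 : ℝ) := by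
        rw [le_div_iff₀ hhalf]; exact hlo
      calc m ^ J ≤ T * (2 ^ J * (H : ℝ) ^ J) / m ^ (1 / 2 : ℝ) := h3
        _ = 2 ^ J * (m ^ (1 / 2 : ℝ))⁻¹ * (T * (H : ℝ) ^ J) := by
          field_simp
    rw [h1]
    have h5 : m ^ (-(1 / 2) : ℝ) * m ^ (1 / 4 : ℝ) = m ^ (-(1 / 4) : ℝ) := by
      rw [← Real.rpow_add hm0]; norm_num
    calc 4 ^ (J + 1) * (m ^ J / (T * (H : ℝ) ^ J)) * (1 + Real.log H) ^ J
        ≤ 4 ^ (J + 1) * (2 ^ J * m ^ (-(1 / 2) : ℝ)) * ((4 * J) ^ J * m ^ (1 / 4 : ℝ)) := by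
          apply mul_le_mul _ hlogJ (by positivity) (by positivity)
          exact mul_le_mul_of_nonneg_left h2 (by positivity)
      _ = 4 ^ (J + 1) * (2 * (4 * J)) ^ J * (m ^ (-(1 / 2) : ℝ) * m ^ (1 / 4 : ℝ)) := by
          rw [mul_pow 2 (4 * (J : ℝ))]; ring
      _ = 4 ^ (J + 1) * (8 * J) ^ J * m ^ (-(1 / 4) : ℝ) := by
          rw [h5]; congr 3; ring
      _ ≤ 4 ^ (n + 1) * (8 * n) ^ n * m ^ (-e) := by
          have e1 : (4 : ℝ) ^ (J + 1) ≤ 4 ^ (n + 1) := pow_le_pow_right₀ (by norm_num) (by omega)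
          have e2 : (8 * (J : ℝ)) ^ J ≤ (8 * n) ^ n := by
            calc (8 * (J : ℝ)) ^ J ≤ (8 * n) ^ J :=
                  pow_le_pow_left₀ (by positivity) (by linarith only [hJnr]) J
              _ ≤ (8 * n) ^ n := pow_le_pow_right₀ (by linarith only [hnr, hexp, he0]) hJn
          apply mul_le_mul (mul_le_mul e1 e2 (by positivity) (by positivity)) hle
            (by positivity) (by positivity)
  -- third term
  have t3 : 7 * (J.factorial : ℝ) * T * (H : ℝ) ^ J / m ^ J / m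
      ≤ 7 * (n.factorial : ℝ) * m ^ (-e) := by
    have h1 : 7 * (J.factorial : ℝ) * T * (H : ℝ) ^ J / m ^ J / m
        = 7 * (J.factorial : ℝ) * (T * (H : ℝ) ^ J / (m ^ J * m)) := by
      field_simp
    have h2 : T * (H : ℝ) ^ J / (m ^ J * m) ≤ m ^ (-(1 / 2) : ℝ) := by
      rw [div_le_iff₀ (by positivity)]
      have h3 : m ^ (-(1 / 2) : ℝ) * (m ^ J * m) = m ^ ((J : ℝ) + 1 / 2) := by
        have : m ^ J * m = m ^ ((J : ℝ) + 1) := by
          rw [Real.rpow_add hm0, Real.rpow_natCast, Real.rpow_one]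
        rw [this, ← Real.rpow_add hm0]
        congr 1; ring
      rw [h3]; exact hhi
    rw [h1]
    have h4 : (J.factorial : ℝ) ≤ n.factorial := by exact_mod_cast Nat.factorial_le hJn
    apply mul_le_mul (by linarith only [h4]) (h2.trans hle2) (by positivity) (by positivity)
  rw [add_div]
  calc _ ≤ 2 * m ^ (-e) + (4 ^ (n + 1) * (8 * n) ^ n * m ^ (-e) + 7 * (n.factorial : ℝ) * m ^ (-e)) := by
        apply add_le_add t1
        apply add_le_add t2 t3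
    _ = _ := by ring

private theorem VdcF_big (n : ℕ) (hn : 1 ≤ n) (M a b J : ℕ) (β t : ℝ) (hM : (n + 1) ^ 4 ≤ M)
    (ha : M ≤ a) (hb : b ≤ 2 * M) (hβ : 0 ≤ β) (hβ1 : β ≤ 1) (hJ1 : 1 ≤ J) (hJn : J ≤ n)
    (h1 : (M : ℝ) ^ ((J : ℝ) - 3 / 4) ≤ |t|) (h2 : |t| ≤ (M : ℝ) ^ ((J : ℝ) + 1 / 4))
    (h3 : (M : ℝ) ^ (3 / 4 : ℝ) ≤ |t|) :
    ‖∑ n ∈ Ioc a b, ee (t * Real.log (n + β))‖
      ≤ 16 * (2 + 4 ^ (n + 1) * (8 * n) ^ n + 7 * (n.factorial : ℝ))
        * (M : ℝ) ^ (1 - 1 / (4 * (n : ℝ) * 2 ^ n)) := by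
  have hM1 : 1 ≤ M := le_trans (Nat.one_le_pow _ _ (by omega)) hM
  set m : ℝ := (M : ℝ) with hmdef
  have hm : 1 ≤ m := by rw [hmdef]; exact_mod_cast hM1
  have hm0 : 0 < m := by linarith only [hm]
  set T := |t| with hTdef
  have hT : 0 < T := lt_of_lt_of_le (Real.rpow_pos_of_pos hm0 _) h3
  have ht : t ≠ 0 := abs_pos.mp hT
  have hJ0 : (0 : ℝ) < J := by exact_mod_cast hJ1
  have hJr : (1 : ℝ) ≤ J := by exact_mod_cast hJ1
  have hnr : (1 : ℝ) ≤ n := by exact_mod_cast hn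
  have hJnr : (J : ℝ) ≤ n := by exact_mod_cast hJn
  set P := m ^ ((J : ℝ) + 1 / 2) / T with hP
  have hP0 : 0 < P := by rw [hP]; positivity
  set X := P ^ (1 / (J : ℝ)) with hX
  have hXJ : X ^ J = P := by
    rw [hX, ← Real.rpow_natCast, ← Real.rpow_mul hP0.le]
    rw [one_div, inv_mul_cancel₀ hJ0.ne', Real.rpow_one]
  have hPlo : m ^ (1 / 4 : ℝ) ≤ P := by
    rw [hP, le_div_iff₀ hT]
    calc m ^ (1 / 4 : ℝ) * T ≤ m ^ (1 / 4 : ℝ) * m ^ ((J : ℝ) + 1 / 4) :=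
          mul_le_mul_of_nonneg_left h2 (by positivity)
      _ = m ^ ((J : ℝ) + 1 / 2) := by
          rw [← Real.rpow_add hm0]; congr 1; ring
  have hPhi : P ≤ m ^ (3 / 4 * (J : ℝ)) := by
    rw [hP, div_le_iff₀ hT]
    rcases Nat.lt_or_ge 1 J with hJ2 | hJ2
    · have hJ2r : (2 : ℝ) ≤ J := by exact_mod_cast hJ2
      calc m ^ ((J : ℝ) + 1 / 2) ≤ m ^ (3 / 4 * (J : ℝ) + ((J : ℝ) - 3 / 4)) :=
            Real.rpow_le_rpow_of_exponent_le hm (by linarith only [hJ2r])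
        _ = m ^ (3 / 4 * (J : ℝ)) * m ^ ((J : ℝ) - 3 / 4) := Real.rpow_add hm0 _ _
        _ ≤ m ^ (3 / 4 * (J : ℝ)) * T := mul_le_mul_of_nonneg_left h1 (by positivity)
    · have hJe : (J : ℝ) = 1 := by
        have : J = 1 := by omega
        rw [this]; norm_num
      rw [hJe]
      calc m ^ ((1 : ℝ) + 1 / 2) = m ^ (3 / 4 * (1 : ℝ)) * m ^ (3 / 4 : ℝ) := by
            rw [← Real.rpow_add hm0]; norm_num
        _ ≤ m ^ (3 / 4 * (1 : ℝ)) * T := mul_le_mul_of_nonneg_left h3 (by positivity)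
  have hXlo : m ^ (1 / (4 * (J : ℝ))) ≤ X := by
    have : m ^ (1 / (4 * (J : ℝ))) = (m ^ (1 / 4 : ℝ)) ^ (1 / (J : ℝ)) := by
      rw [← Real.rpow_mul hm0.le]; congr 1; field_simp
    rw [this, hX]
    exact Real.rpow_le_rpow (by positivity) hPlo (by positivity)
  have hXhi : X ≤ m ^ (3 / 4 : ℝ) := by
    have : m ^ (3 / 4 : ℝ) = (m ^ (3 / 4 * (J : ℝ))) ^ (1 / (J : ℝ)) := by
      rw [← Real.rpow_mul hm0.le]; congr 1; field_simp
    rw [this, hX]
    exact Real.rpow_le_rpow hP0.le hPhi (by positivity)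
  have hX1 : 1 ≤ X := le_trans (Real.one_le_rpow hm (by positivity)) hXlo
  set H := ⌊X⌋₊ with hHdef
  have hHX : (H : ℝ) ≤ X := Nat.floor_le (by linarith only [hX1])
  have hH1 : 1 ≤ H := by
    rw [hHdef]; exact Nat.le_floor (by simpa using hX1)
  have hHr : (1 : ℝ) ≤ H := by exact_mod_cast hH1
  have hX2 : X ≤ 2 * H := by
    have := Nat.lt_floor_add_one X
    rw [← hHdef] at this
    linarith only [hHr, this]
  have hm34 : m ^ (3 / 4 : ℝ) ≤ m := by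
    calc m ^ (3 / 4 : ℝ) ≤ m ^ (1 : ℝ) := Real.rpow_le_rpow_of_exponent_le hm (by norm_num)
      _ = m := Real.rpow_one m
  have hHm : (H : ℝ) ≤ m := hHX.trans (hXhi.trans hm34)
  have hHM : H ≤ M := by
    have : (H : ℝ) ≤ (M : ℝ) := hHm
    exact_mod_cast this
  have hquart : (n : ℝ) + 1 ≤ m ^ (1 / 4 : ℝ) := by
    have h4 : ((n : ℝ) + 1) ^ 4 ≤ m := by
      rw [hmdef]; exact_mod_cast hM
    calc (n : ℝ) + 1 = (((n : ℝ) + 1) ^ 4) ^ (1 / 4 : ℝ) := by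
          rw [← Real.rpow_natCast, ← Real.rpow_mul (by positivity)]; norm_num
      _ ≤ m ^ (1 / 4 : ℝ) := Real.rpow_le_rpow (by positivity) h4 (by norm_num)
  have hJH : (J : ℝ) * H ≤ M := by
    rw [← hmdef]
    calc (J : ℝ) * H ≤ m ^ (1 / 4 : ℝ) * m ^ (3 / 4 : ℝ) := by
          apply mul_le_mul (by linarith only [hJnr, hquart]) (hHX.trans hXhi) (by positivity) (by positivity)
      _ = m := by rw [← Real.rpow_add hm0]; norm_num
  have hbr := VdcF_bracket n J hn hJ1 hJn m T H hm hT hH1 hHm (hXlo.trans hX2)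
    (by
      have h4 : X ^ J ≤ (2 * (H : ℝ)) ^ J := pow_le_pow_left₀ (by linarith only [hX1]) hX2 J
      rw [hXJ, hP, div_le_iff₀ hT] at h4
      linarith only [h4])
    (by
      have h4 : (H : ℝ) ^ J ≤ X ^ J := pow_le_pow_left₀ (by positivity) hHX J
      rw [hXJ, hP, le_div_iff₀ hT] at h4
      linarith only [h4])
  have hav := av_main J [] t β M a b H hM1 ha hb hβ hβ1 ht (by simp) hH1
    (by simpa using hJH)
  simp only [List.length_nil, zero_add, List.prod_nil, mul_one] at hav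
  have hit := vdc_iter J (fun k => PH [] t β k) a b M H (by omega) hH1 hHM
  set S := ‖∑ k ∈ Ioc a b, ee (t * Real.log ((k : ℝ) + β))‖ with hS
  have hit' : (S / m) ^ (2 ^ J) ≤ 16 ^ (2 ^ J) * (1 / (H : ℝ)
      + AvS H J (fun k => PH [] t β k) a b / m) := hit
  set B : ℝ := 2 + 4 ^ (n + 1) * (8 * n) ^ n + 7 * (n.factorial : ℝ) with hB
  have hB1 : 1 ≤ B := by
    have : 0 ≤ (4 : ℝ) ^ (n + 1) * (8 * n) ^ n := by positivity
    have : 0 ≤ 7 * (n.factorial : ℝ) := by positivity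
    linarith
  have hmain : (S / m) ^ (2 ^ J) ≤ 16 ^ (2 ^ J) * (B * m ^ (-(1 / (4 * (J : ℝ))))) := by
    refine hit'.trans (mul_le_mul_of_nonneg_left ?_ (by positivity))
    refine le_trans ?_ hbr
    gcongr
  set δ := 1 / (4 * (n : ℝ) * 2 ^ n) with hδ
  have hfin : (S / m) ^ (2 ^ J) ≤ (16 * B * m ^ (-δ)) ^ (2 ^ J) := by
    refine hmain.trans ?_
    rw [mul_pow, mul_pow, mul_assoc]
    apply mul_le_mul_of_nonneg_left _ (by positivity)
    apply mul_le_mul (le_self_pow₀ hB1 (by positivity)) _ (by positivity) (by positivity)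
    rw [← Real.rpow_natCast (m ^ (-δ)), ← Real.rpow_mul hm0.le]
    apply Real.rpow_le_rpow_of_exponent_le hm
    have h4 : δ * ((2 ^ J : ℕ) : ℝ) ≤ 1 / (4 * (J : ℝ)) := by
      rw [hδ]
      push_cast
      have h5 : (2 : ℝ) ^ J ≤ 2 ^ n := pow_le_pow_right₀ (by norm_num) hJn
      rw [div_mul_eq_mul_div, one_mul, div_le_div_iff₀ (by positivity) (by positivity), one_mul]
      calc (2 : ℝ) ^ J * (4 * J) ≤ 2 ^ n * (4 * n) := by
            apply mul_le_mul h5 (by linarith only [hJnr]) (by positivity) (by positivity)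
        _ = 4 * (n : ℝ) * 2 ^ n := by ring
    linarith only [h4]
  have hfin2 : S / m ≤ 16 * B * m ^ (-δ) :=
    le_of_pow_le_pow_left₀ (by positivity) (by positivity) hfin
  rw [div_le_iff₀ hm0] at hfin2
  refine hfin2.trans (le_of_eq ?_)
  rw [mul_assoc, sub_eq_neg_add, Real.rpow_add hm0, Real.rpow_one]

private theorem VdcF_trivial (a b M : ℕ) (β t : ℝ) (ha : M ≤ a) (hb : b ≤ 2 * M) :
    ‖∑ n ∈ Ioc a b, ee (t * Real.log (n + β))‖ ≤ M := by
  have h1 : ‖∑ n ∈ Ioc a b, ee (t * Real.log (n + β))‖ ≤ ∑ n ∈ Ioc a b, (1 : ℝ) := by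
    refine (norm_sum_le _ _).trans (Finset.sum_le_sum fun n _ => ?_)
    rw [Pool.Agent.H91.PK.LSa_norm_ee]
  refine h1.trans ?_
  rw [Finset.sum_const, Nat.card_Ioc, nsmul_eq_mul, mul_one]
  exact_mod_cast (by omega : b - a ≤ M)

theorem vdc (k0 : ℕ) : ∃ δ C : ℝ, 0 < δ ∧ δ ≤ 1 ∧ 1 ≤ C ∧ ∀ (M a b : ℕ) (β t : ℝ), 1 ≤ M → M ≤ a → b ≤ 2 * M →
    0 ≤ β → β ≤ 1 → (M : ℝ) ^ (1 / 3 : ℝ) ≤ |t| → |t| ≤ (M : ℝ) ^ k0 →
    ‖∑ n ∈ Ioc a b, ee (t * Real.log (n + β))‖ ≤ C * (M : ℝ) ^ (1 - δ) := by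
  set n := k0 + 1 with hn
  have hn1 : 1 ≤ n := by omega
  have hnr : (1 : ℝ) ≤ n := by exact_mod_cast hn1
  set δ : ℝ := 1 / (4 * (n : ℝ) * 2 ^ n) with hδ
  have hδ0 : 0 < δ := by rw [hδ]; positivity
  have h2n : (1 : ℝ) ≤ 2 ^ n := one_le_pow₀ (by norm_num)
  have hδ4 : δ ≤ 1 / 4 := by
    rw [hδ]
    apply one_div_le_one_div_of_le (by norm_num)
    nlinarith only [hnr, h2n]
  set B : ℝ := 16 * (2 + 4 ^ (n + 1) * (8 * n) ^ n + 7 * (n.factorial : ℝ)) with hB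
  have hB0 : 0 ≤ B := by rw [hB]; positivity
  set M0 : ℕ := (n + 1) ^ 4 with hM0
  refine ⟨δ, B + 11 + M0, hδ0, by linarith only [hδ0, hδ4], ?_, ?_⟩
  · have : (0 : ℝ) ≤ (M0 : ℝ) := Nat.cast_nonneg _
    linarith only [hδ0, hδ4, hB0]
  intro M a b β t hM ha hb hβ hβ1 hlo hhi
  have hm : (1 : ℝ) ≤ M := by exact_mod_cast hM
  have hm0 : (0 : ℝ) < M := by linarith only [hδ0, hδ4, hm]
  have hone : (1 : ℝ) ≤ (M : ℝ) ^ (1 - δ) := Real.one_le_rpow hm (by linarith only [hδ0, hδ4])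
  have hM00 : (0 : ℝ) ≤ (M0 : ℝ) := Nat.cast_nonneg _
  have hgoal : ∀ c : ℝ, c ≤ B + 11 + M0 →
      ‖∑ n ∈ Ioc a b, ee (t * Real.log (n + β))‖ ≤ c * (M : ℝ) ^ (1 - δ) →
      ‖∑ n ∈ Ioc a b, ee (t * Real.log (n + β))‖ ≤ (B + 11 + M0) * (M : ℝ) ^ (1 - δ) := by
    intro c hc h
    exact h.trans (mul_le_mul_of_nonneg_right hc (by linarith only [hδ0, hδ4, hone]))
  have ht0 : 0 < |t| := lt_of_lt_of_le (Real.rpow_pos_of_pos hm0 _) hlo
  have ht : t ≠ 0 := abs_pos.mp ht0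
  rcases Nat.lt_or_ge M M0 with hsmall | hbig
  · -- small M
    apply hgoal M0 (by linarith only [hδ0, hδ4, hB0])
    have h1 := VdcF_trivial a b M β t ha hb
    have h2 : (M : ℝ) ≤ M0 := by exact_mod_cast hsmall.le
    calc _ ≤ (M : ℝ) := h1
      _ ≤ M0 * 1 := by linarith only [h2]
      _ ≤ M0 * (M : ℝ) ^ (1 - δ) := mul_le_mul_of_nonneg_left hone hM00
  · rcases le_or_gt |t| ((M : ℝ) ^ (3 / 4 : ℝ)) with hlow | hlarge
    · apply hgoal 11 (by linarith only [hB0])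
      have h1 := low_sum t β M a b hM ha hb hβ hβ1 ht
      have h2 : 4 * (M : ℝ) / |t| ≤ 4 * (M : ℝ) ^ (2 / 3 : ℝ) := by
        rw [div_le_iff₀ ht0]
        have h3 : (M : ℝ) = (M : ℝ) ^ (2 / 3 : ℝ) * (M : ℝ) ^ (1 / 3 : ℝ) := by
          rw [← Real.rpow_add hm0]; norm_num
        calc 4 * (M : ℝ) = 4 * ((M : ℝ) ^ (2 / 3 : ℝ) * (M : ℝ) ^ (1 / 3 : ℝ)) := by
              rw [← h3]
          _ ≤ 4 * ((M : ℝ) ^ (2 / 3 : ℝ) * |t|) := by gcongr
          _ = _ := by ring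
      have h4 : (M : ℝ) ^ (2 / 3 : ℝ) ≤ (M : ℝ) ^ (1 - δ) :=
        Real.rpow_le_rpow_of_exponent_le hm (by linarith only [hδ0, hδ4])
      have h5 : (M : ℝ) ^ (3 / 4 : ℝ) ≤ (M : ℝ) ^ (1 - δ) :=
        Real.rpow_le_rpow_of_exponent_le hm (by linarith only [hδ4])
      linarith only [hlow, h1, h2, h4, h5]
    · -- choose J
      have hM16 : 16 ≤ M := by
        refine le_trans ?_ hbig
        calc 16 = 2 ^ 4 := by norm_num
          _ ≤ (n + 1) ^ 4 := Nat.pow_le_pow_left (by omega) 4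
      have hm1 : (1 : ℝ) < M := by exact_mod_cast (by omega : 1 < M)
      have hex : ∃ J : ℕ, |t| ≤ (M : ℝ) ^ ((J : ℝ) + 1 / 4) := by
        refine ⟨k0, hhi.trans ?_⟩
        rw [← Real.rpow_natCast]
        exact Real.rpow_le_rpow_of_exponent_le hm (by linarith only [hδ0, hδ4])
      classical
      let J := Nat.find hex
      have hJ2 : |t| ≤ (M : ℝ) ^ ((J : ℝ) + 1 / 4) := Nat.find_spec hex
      have hJk : J ≤ k0 := by
        apply Nat.find_min' hex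
        refine hhi.trans ?_
        rw [← Real.rpow_natCast]
        exact Real.rpow_le_rpow_of_exponent_le hm (by linarith only [hδ0, hδ4])
      have hJ1 : 1 ≤ J := by
        by_contra hc
        have hJ0 : J = 0 := by omega
        rw [hJ0] at hJ2
        have h6 := hlarge.trans_le hJ2
        rw [Real.rpow_lt_rpow_left_iff hm1] at h6
        norm_num at h6
      have hJ3 : (M : ℝ) ^ ((J : ℝ) - 3 / 4) ≤ |t| := by
        have h6 := Nat.find_min hex (m := J - 1) (by omega)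
        push Not at h6
        have h7 : ((J - 1 : ℕ) : ℝ) + 1 / 4 = (J : ℝ) - 3 / 4 := by
          rw [Nat.cast_sub hJ1]; push_cast; ring
        rw [h7] at h6
        exact h6.le
      apply hgoal B (by linarith only [hδ0, hδ4])
      exact VdcF_big n hn1 M a b J β t hbig ha hb hβ hβ1 hJ1 (by omega) hJ3 hJ2 hlarge.le

end Pool.Agent.H76.EHB

end

section

/-!
# MID BaseA: a bad block has many good primes

`w = ⌊H/(P L^(A+5))⌋`, cells `[c w, c w + w)`.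
Proof.  `Bs (Fp f P) H i α = ∑_{p ∈ pb P} In p`, `In p = ∑_{k : i H ≤ k p < (i+1) H} f(k) ee(-k p α)` (`m = k p`), `k ∈ Ico a b`,
`a = ⌈iH/p⌉`, `b = ⌈(i+1)H/p⌉`, `H/p - 1 ≤ b - a ≤ H/p + 1`, so `w0 ≤ b - a ≤ 2H/P`.
Cauchy-Schwarz and `SqB`: `‖In p‖ ≤ (b - a) L^2 ≤ 2 H L^2/P`.  With `ν = H/(2 P L^A)` and `G = {p : ‖In p‖ ≥ ν}`:
`H/L^A ≤ |G| 2 H L^2/P + P ν` (`|pb P| ≤ P`), so `|G| ≥ P/(4 L^(A+2))`.
For `p ∈ G`: `w ≥ H/(2 P L^(A+5))` (as `H/(P L^(A+5)) ≥ 2 w0 ≥ 2`), `w ≥ w0`.  Split `Ico a b` into cells: full cells `c` with `a ≤ c w`, `c w + w ≤ b`, and at most two partial cells, whose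
contribution is `≤ 2 w L^2 ≤ 2 H/(P L^(A+3)) ≤ ν/2` (Cauchy-Schwarz and `SqB` on the whole cell, which is inside `[0, X)`; `L ≥ 100`).
The number of full cells is `≤ (b-a)/w ≤ 4 L^(A+5)`, so one of them has `‖∑_cell‖ ≥ (ν/2)/(4 L^(A+5)) = H/(16 P L^(2A+5)) ≥ w/(16 L^A)`
(`w ≤ H/(P L^(A+5))`).  `a ≤ c w` and `c w < b` give `i H ≤ c w p < (i+1) H`.
-/

set_option autoImplicit false

namespace Pool.Agent.H53.MID

open Finset
open Pool.Agent.H91.PK (ee)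
open Pool.Agent.H35.W (pb)

/-- the length of the cells -/
noncomputable def cw (H P A : ℕ) (L : ℝ) : ℕ := ⌊(H : ℝ) / (P * L ^ (A + 5))⌋₊

private theorem BaseA_norm_ee (t : ℝ) : ‖ee t‖ = 1 := by
  unfold ee
  have h : (2 * Real.pi * t * Complex.I : ℂ) = ((2 * Real.pi * t : ℝ) : ℂ) * Complex.I := by
    push_cast
    ring
  rw [h, Complex.norm_exp_ofReal_mul_I]

/-- the least `k` with `x ≤ k p` -/
private def BaseA_cl (x p : ℕ) : ℕ := (x + p - 1) / p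

private theorem BaseA_cl_le {x p : ℕ} (hp : 0 < p) (k : ℕ) : BaseA_cl x p ≤ k ↔ x ≤ k * p := by
  unfold BaseA_cl
  rw [Nat.div_le_iff_le_mul_add_pred hp]
  rw [mul_comm p k]
  omega

private theorem BaseA_lt_cl {x p : ℕ} (hp : 0 < p) (k : ℕ) : k < BaseA_cl x p ↔ k * p < x := by
  have h := BaseA_cl_le (x := x) hp k
  omega

private theorem BaseA_cl_mul {x p : ℕ} (hp : 0 < p) :
    x ≤ BaseA_cl x p * p ∧ BaseA_cl x p * p ≤ x + p - 1 :=
  ⟨(BaseA_cl_le hp _).1 le_rfl, Nat.div_mul_le_self _ _⟩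

private theorem BaseA_split (f : ℕ → ℝ) (H P i : ℕ) (α : ℝ) :
    Bs (Fp f P) H i α = ∑ p ∈ pb P, ∑ k ∈ Ico (BaseA_cl (i * H) p) (BaseA_cl ((i + 1) * H) p),
      (f k : ℂ) * ee (-(k * (p * α))) := by
  unfold Bs Fp
  have h1 : ∀ m ∈ Ico (i * H) ((i + 1) * H),
      (((∑ p ∈ (pb P).filter (fun p => p ∣ m), f (m / p) : ℝ)) : ℂ) * ee (-(m * α)) =
        ∑ p ∈ pb P, if p ∣ m then (f (m / p) : ℂ) * ee (-(m * α)) else 0 := by
    intro m _
    push_cast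
    rw [Finset.sum_mul, Finset.sum_filter]
  rw [Finset.sum_congr rfl h1, Finset.sum_comm]
  refine Finset.sum_congr rfl fun p hp => ?_
  have hp0 : 0 < p := by
    unfold pb at hp
    exact (Finset.mem_filter.1 hp).2.pos
  rw [← Finset.sum_filter]
  refine Finset.sum_bij' (fun m _ => m / p) (fun k _ => k * p) ?_ ?_ ?_ ?_ ?_
  · intro m hm
    rw [Finset.mem_filter, Finset.mem_Ico] at hm
    obtain ⟨⟨h1, h2⟩, k, rfl⟩ := hm
    rw [Nat.mul_div_cancel_left _ hp0, Finset.mem_Ico, BaseA_cl_le hp0, BaseA_lt_cl hp0, mul_comm k p]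
    exact ⟨h1, h2⟩
  · intro k hk
    rw [Finset.mem_Ico, BaseA_cl_le hp0, BaseA_lt_cl hp0] at hk
    rw [Finset.mem_filter, Finset.mem_Ico]
    exact ⟨hk, Dvd.intro_left k rfl⟩
  · intro m hm
    exact Nat.div_mul_cancel (Finset.mem_filter.1 hm).2
  · intro k _
    exact Nat.mul_div_cancel _ hp0
  · intro m hm
    obtain ⟨k, rfl⟩ := (Finset.mem_filter.1 hm).2
    rw [Nat.mul_div_cancel_left _ hp0]
    congr 2
    push_cast
    ring

/-- Cauchy-Schwarz on a piece of an interval. -/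
private theorem BaseA_CS {f : ℕ → ℝ} {w0 X : ℕ} {L : ℝ} (hf : SqB f w0 X L) {u v w : ℕ}
    (hw : w0 ≤ w) (hv : v ≤ u + w) (hX : u + w ≤ X) (β : ℝ) :
    ‖∑ k ∈ Ico u v, (f k : ℂ) * ee (-(k * β))‖ ≤ w * L ^ 2 := by
  have h1 : ‖∑ k ∈ Ico u v, (f k : ℂ) * ee (-(k * β))‖ ≤ ∑ k ∈ Ico u v, |f k| := by
    refine (norm_sum_le _ _).trans (Finset.sum_le_sum fun k _ => ?_)
    rw [norm_mul, BaseA_norm_ee, mul_one, Complex.norm_real, Real.norm_eq_abs]
  have hL2 : 0 ≤ L ^ 2 := sq_nonneg L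
  have hw0 : (0 : ℝ) ≤ w := Nat.cast_nonneg w
  refine h1.trans ?_
  have h2 : (∑ k ∈ Ico u v, |f k|) ^ 2 ≤ (w * L ^ 2) ^ 2 := by
    have h3 : (∑ k ∈ Ico u v, |f k|) ^ 2 ≤ ((Ico u v).card : ℝ) * ∑ k ∈ Ico u v, |f k| ^ 2 :=
      sq_sum_le_card_mul_sum_sq
    have h4 : ((Ico u v).card : ℝ) ≤ w := by
      rw [Nat.card_Ico]
      have : v - u ≤ w := by omega
      exact_mod_cast this
    have h5 : ∑ k ∈ Ico u v, |f k| ^ 2 ≤ w * L ^ 4 := by
      refine le_trans ?_ (hf u w hw hX)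
      simp only [sq_abs]
      refine Finset.sum_le_sum_of_subset_of_nonneg ?_ fun k _ _ => sq_nonneg _
      intro k hk
      rw [Finset.mem_Ico] at hk ⊢
      omega
    calc (∑ k ∈ Ico u v, |f k|) ^ 2 ≤ ((Ico u v).card : ℝ) * ∑ k ∈ Ico u v, |f k| ^ 2 := h3
      _ ≤ w * (w * L ^ 4) := mul_le_mul h4 h5 (Finset.sum_nonneg fun k _ => sq_nonneg _) hw0
      _ = (w * L ^ 2) ^ 2 := by ring
  exact (pow_le_pow_iff_left₀ (Finset.sum_nonneg fun k _ => abs_nonneg _) (by positivity)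
    two_ne_zero).1 h2

private theorem BaseA_cells (g : ℕ → ℂ) (w c0 n : ℕ) :
    ∑ k ∈ Ico (c0 * w) ((c0 + n) * w), g k =
      ∑ j ∈ range n, ∑ k ∈ Ico ((c0 + j) * w) ((c0 + j) * w + w), g k := by
  induction n with
  | zero => simp
  | succ n ih =>
    rw [Finset.sum_range_succ, ← ih]
    have h1 : (c0 + (n + 1)) * w = (c0 + n) * w + w := by ring
    rw [h1, Finset.sum_Ico_consecutive _ (Nat.mul_le_mul_right w (Nat.le_add_right c0 n))
      (Nat.le_add_right _ _)]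

/-- the numerical facts for one prime -/
private theorem BaseA_num {L : ℝ} {A H P w0 X i p : ℕ} (hL : 100 ≤ L) (hw0 : 1 ≤ w0) (hP : 1 ≤ P)
    (hH : 2 * w0 * P * L ^ (A + 5) ≤ H) (hX : 4 * (i + 1) * H ≤ X) (hp1 : P < p) (hp2 : p ≤ 2 * P) :
    (((BaseA_cl ((i + 1) * H) p : ℝ) - BaseA_cl (i * H) p) * P ≤ 2 * H) ∧
    w0 ≤ cw H P A L ∧ (cw H P A L : ℝ) * P * L ^ (A + 5) ≤ H ∧
    BaseA_cl (i * H) p + 2 * cw H P A L ≤ BaseA_cl ((i + 1) * H) p ∧
    BaseA_cl ((i + 1) * H) p + cw H P A L ≤ X := by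
  have hP0 : (0 : ℝ) < P := by exact_mod_cast hP
  have hL0 : 0 < L := by linarith only [hL]
  have hp0 : 0 < p := by omega
  have hLA : 1 ≤ L ^ A := one_le_pow₀ (by linarith only [hL])
  have hL5 : (10000 : ℝ) ≤ L ^ 5 := by
    calc (10000 : ℝ) ≤ 100 ^ 5 := by norm_num
      _ ≤ L ^ 5 := pow_le_pow_left₀ (by norm_num) hL 5
  have hLA5 : (10000 : ℝ) ≤ L ^ (A + 5) := by
    rw [pow_add]
    nlinarith only [hLA, hL5]
  have hw0' : (1 : ℝ) ≤ w0 := by exact_mod_cast hw0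
  -- `w`
  have hx : (2 * w0 : ℝ) ≤ H / (P * L ^ (A + 5)) := by
    rw [le_div_iff₀ (by positivity)]
    calc (2 * w0 : ℝ) * (P * L ^ (A + 5)) = 2 * w0 * P * L ^ (A + 5) := by ring
      _ ≤ H := hH
  have hw1 : 2 * w0 ≤ cw H P A L := by
    unfold cw
    apply Nat.le_floor
    push_cast
    exact hx
  have hw2 : (cw H P A L : ℝ) * P * L ^ (A + 5) ≤ H := by
    have h1 : (cw H P A L : ℝ) ≤ H / (P * L ^ (A + 5)) := Nat.floor_le (by positivity)
    rw [le_div_iff₀ (by positivity)] at h1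
    linarith only [h1]
  generalize cw H P A L = w at hw1 hw2
  obtain ⟨a1, a2⟩ := BaseA_cl_mul (x := i * H) hp0
  obtain ⟨b1, b2⟩ := BaseA_cl_mul (x := (i + 1) * H) hp0
  have hmono : BaseA_cl (i * H) p ≤ BaseA_cl ((i + 1) * H) p := by
    rw [BaseA_cl_le hp0]
    refine le_trans ?_ b1
    exact Nat.mul_le_mul_right H (Nat.le_succ i)
  have hbX : BaseA_cl ((i + 1) * H) p ≤ (i + 1) * H := by
    rw [BaseA_cl_le hp0]
    exact Nat.le_mul_of_pos_right _ hp0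
  generalize BaseA_cl (i * H) p = a at a1 a2 hmono
  generalize BaseA_cl ((i + 1) * H) p = b at b1 b2 hmono hbX
  have e1 : (i + 1) * H = i * H + H := by ring
  rw [e1] at b1 b2
  have hmono' : (a : ℝ) ≤ b := by exact_mod_cast hmono
  have pR : (P : ℝ) ≤ p := by exact_mod_cast hp1.le
  have pR2 : (p : ℝ) ≤ 2 * P := by exact_mod_cast hp2
  have a1' : (i : ℝ) * H ≤ a * p := by exact_mod_cast a1
  have a2' : (a : ℝ) * p ≤ i * H + p := by
    have : a * p ≤ i * H + p := by omega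
    exact_mod_cast this
  have b1' : (i : ℝ) * H + H ≤ b * p := by exact_mod_cast b1
  have b2' : (b : ℝ) * p ≤ i * H + H + p := by
    have : b * p ≤ i * H + H + p := by omega
    exact_mod_cast this
  have hPH : 20000 * (P : ℝ) ≤ H := by
    have h1 : (P : ℝ) * 10000 ≤ P * L ^ (A + 5) := mul_le_mul_of_nonneg_left hLA5 hP0.le
    have h2 : 2 * (P * L ^ (A + 5)) ≤ 2 * w0 * (P * L ^ (A + 5)) := by
      have : 0 ≤ (P : ℝ) * L ^ (A + 5) := by positivity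
      nlinarith only [hw0', h1]
    linarith only [hH, h1, h2]
  have hwH : 10000 * ((w : ℝ) * P) ≤ H := by
    have h1 : (w : ℝ) * P * 10000 ≤ w * P * L ^ (A + 5) :=
      mul_le_mul_of_nonneg_left hLA5 (by positivity)
    linarith only [hw2, h1]
  refine ⟨?_, by omega, hw2, ?_, ?_⟩
  · have h1 : ((b : ℝ) - a) * P ≤ (b - a) * p := mul_le_mul_of_nonneg_left pR (by linarith only [hmono'])
    have h2 : ((b : ℝ) - a) * p ≤ H + p := by linarith only [a1', b2']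
    linarith only [hP0, pR2, a1', b2', hPH, h1]
  · have h1 : ((b : ℝ) - a) * p ≤ (b - a) * (2 * P) := mul_le_mul_of_nonneg_left pR2 (by linarith only [hmono'])
    have h2 : (H : ℝ) - p ≤ (b - a) * p := by linarith only [a2', b1']
    have h3 : (2 * (w : ℝ)) * (2 * P) ≤ (b - a) * (2 * P) := by linarith only [hP0, pR2, a2', b1', hPH, hwH, h1]
    have h4 : (2 * (w : ℝ)) ≤ b - a := le_of_mul_le_mul_right h3 (by linarith only [hP0])
    have h5 : (a : ℝ) + 2 * w ≤ b := by linarith only [h4]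
    exact_mod_cast h5
  · have h1 : w ≤ H := by
      have h2 : (w : ℝ) ≤ w * P := by
        have : (1 : ℝ) ≤ P := by exact_mod_cast hP
        have h3 : (0 : ℝ) ≤ w := Nat.cast_nonneg w
        nlinarith only [this]
      have h3 : (0 : ℝ) ≤ w * P := by positivity
      have h4 : (w : ℝ) ≤ H := by linarith only [hP0, hPH, hwH, h2]
      exact_mod_cast h4
    have h2 : H ≤ (i + 1) * H := Nat.le_mul_of_pos_left H (Nat.succ_pos i)
    have h3 : 4 * (i + 1) * H = 4 * ((i + 1) * H) := by ring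
    omega

/-- a cell with a large sum -/
private theorem BaseA_cell {L : ℝ} {A H P w0 X i p : ℕ} {f : ℕ → ℝ} (α : ℝ) (hL : 100 ≤ L)
    (hw0 : 1 ≤ w0) (hP : 1 ≤ P)
    (hH : 2 * w0 * P * L ^ (A + 5) ≤ H) (hf : SqB f w0 X L) (hX : 4 * (i + 1) * H ≤ X)
    (hp1 : P < p) (hp2 : p ≤ 2 * P)
    (hbig : (H : ℝ) ≤ 2 * (P * L ^ A) * ‖∑ k ∈ Ico (BaseA_cl (i * H) p) (BaseA_cl ((i + 1) * H) p),
      (f k : ℂ) * ee (-(k * (p * α)))‖) :
    ∃ c : ℕ, i * H ≤ c * cw H P A L * p ∧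
      c * cw H P A L * p < (i + 1) * H ∧ (cw H P A L : ℝ) / (16 * L ^ A) ≤
        ‖∑ k ∈ Ico (c * cw H P A L) (c * cw H P A L + cw H P A L), (f k : ℂ) * ee (-(k * (p * α)))‖ := by
  obtain ⟨n1, n2, n3, n4, n5⟩ := BaseA_num hL hw0 hP hH hX hp1 hp2
  have hp0 : 0 < p := by omega
  have hP0 : (0 : ℝ) < P := by exact_mod_cast hP
  have hL0 : 0 < L := by linarith only [hL]
  by_contra hcon
  have hcell : ∀ c : ℕ, BaseA_cl (i * H) p ≤ c * cw H P A L →
      c * cw H P A L < BaseA_cl ((i + 1) * H) p →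
      ‖∑ k ∈ Ico (c * cw H P A L) (c * cw H P A L + cw H P A L),
        (f k : ℂ) * ee (-(k * (p * α)))‖ ≤ (cw H P A L : ℝ) / (16 * L ^ A) := by
    intro c h1 h2
    by_contra hc
    exact hcon ⟨c, (BaseA_cl_le hp0 _).1 h1, (BaseA_lt_cl hp0 _).1 h2, (not_le.1 hc).le⟩
  generalize cw H P A L = w at n2 n3 n4 n5 hcell
  generalize BaseA_cl (i * H) p = a at n1 n4 hbig hcell
  generalize BaseA_cl ((i + 1) * H) p = b at n1 n4 n5 hbig hcell
  have hw1 : 0 < w := by omega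
  obtain ⟨c1, c2⟩ := BaseA_cl_mul (x := a) hw1
  set c0 := BaseA_cl a w with hc0
  set n := b / w - c0 with hn
  have c3 : b / w * w ≤ b := Nat.div_mul_le_self b w
  have c4 : b < b / w * w + w := by
    have := Nat.lt_div_mul_add hw1 (a := b)
    omega
  have c5 : c0 ≤ b / w := by
    have h1 : c0 * w < b / w * w := by omega
    exact (lt_of_mul_lt_mul_right h1 (Nat.zero_le w)).le
  have c6 : c0 + n = b / w := by omega
  set g : ℕ → ℂ := fun k => (f k : ℂ) * ee (-(k * (p * α))) with hg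
  have s0 : ∑ k ∈ Ico a b, g k = ∑ k ∈ Ico a (c0 * w), g k +
      ∑ k ∈ Ico (c0 * w) ((c0 + n) * w), g k + ∑ k ∈ Ico ((c0 + n) * w) b, g k := by
    rw [c6, Finset.sum_Ico_consecutive _ c1 (Nat.mul_le_mul_right w c5),
      Finset.sum_Ico_consecutive _ (c1.trans (Nat.mul_le_mul_right w c5)) c3]
  have s1 : ‖∑ k ∈ Ico a (c0 * w), g k‖ ≤ w * L ^ 2 :=
    BaseA_CS hf n2 (by omega) (by omega) (p * α)
  have s3 : ‖∑ k ∈ Ico ((c0 + n) * w) b, g k‖ ≤ w * L ^ 2 := by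
    rw [c6]
    exact BaseA_CS hf n2 (by omega) (by omega) (p * α)
  have s2 : ‖∑ k ∈ Ico (c0 * w) ((c0 + n) * w), g k‖ ≤ n * ((w : ℝ) / (16 * L ^ A)) := by
    rw [BaseA_cells]
    refine (norm_sum_le _ _).trans ?_
    calc ∑ j ∈ range n, ‖∑ k ∈ Ico ((c0 + j) * w) ((c0 + j) * w + w), g k‖
        ≤ ∑ _j ∈ range n, ((w : ℝ) / (16 * L ^ A)) := by
          refine Finset.sum_le_sum fun j hj => ?_
          rw [Finset.mem_range] at hj
          refine hcell (c0 + j) ?_ ?_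
          · exact c1.trans (Nat.mul_le_mul_right w (Nat.le_add_right c0 j))
          · have h1 : (c0 + j) * w < (b / w) * w := by
              refine Nat.mul_lt_mul_of_pos_right ?_ hw1
              omega
            omega
      _ = _ := by rw [Finset.sum_const, nsmul_eq_mul, Finset.card_range]
  have s4 : ‖∑ k ∈ Ico a b, g k‖ ≤ 2 * (w * L ^ 2) + n * ((w : ℝ) / (16 * L ^ A)) := by
    rw [s0]
    calc _ ≤ w * L ^ 2 + n * ((w : ℝ) / (16 * L ^ A)) + w * L ^ 2 :=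
          (norm_add_le _ _).trans (add_le_add ((norm_add_le _ _).trans (add_le_add s1 s2)) s3)
      _ = _ := by ring
  have t1 : (n : ℝ) * w ≤ b - a := by
    have h1 : n * w + a ≤ b := by
      have h2 : n * w + c0 * w = b / w * w := by rw [← Nat.add_mul, add_comm n c0, c6]
      omega
    have h2 : (n : ℝ) * w + a ≤ b := by exact_mod_cast h1
    linarith only [h2]
  have t2 : 2 * (P * L ^ A) * (n * ((w : ℝ) / (16 * L ^ A))) ≤ H / 4 := by
    have h1 : 2 * (P * L ^ A) * (n * ((w : ℝ) / (16 * L ^ A))) = (n * w) * P / 8 := by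
      field_simp
      ring
    rw [h1]
    have h2 : (n : ℝ) * w * P ≤ (b - a) * P := mul_le_mul_of_nonneg_right t1 hP0.le
    linarith only [n1, h2]
  have t3 : 2 * (P * L ^ A) * (2 * (w * L ^ 2)) ≤ H / 4 := by
    have h1 : (w : ℝ) * P * L ^ (A + 5) = (w * P * L ^ A * L ^ 2) * L ^ 3 := by ring
    have h2 : (1000000 : ℝ) ≤ L ^ 3 := by
      calc (1000000 : ℝ) = 100 ^ 3 := by norm_num
        _ ≤ L ^ 3 := pow_le_pow_left₀ (by norm_num) hL 3
    have h3 : (w * P * L ^ A * L ^ 2) * 1000000 ≤ (w * P * L ^ A * L ^ 2) * L ^ 3 :=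
      mul_le_mul_of_nonneg_left h2 (by positivity)
    have h4 : 0 ≤ (w : ℝ) * P * L ^ A * L ^ 2 := by positivity
    have h5 : 2 * (P * L ^ A) * (2 * (w * L ^ 2)) = 4 * (w * P * L ^ A * L ^ 2) := by ring
    rw [h5]
    linarith only [n3, h1, h3]
  have t4 : (H : ℝ) ≤ H / 4 + H / 4 := by
    have h1 : 2 * (P * L ^ A) * ‖∑ k ∈ Ico a b, g k‖ ≤
        2 * (P * L ^ A) * (2 * (w * L ^ 2) + n * ((w : ℝ) / (16 * L ^ A))) :=
      mul_le_mul_of_nonneg_left s4 (by positivity)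
    rw [mul_add] at h1
    linarith only [hbig, t2, t3, h1]
  have t5 : (0 : ℝ) < H := by
    have : (0 : ℝ) < 2 * w0 * P * L ^ (A + 5) := by
      have : (1 : ℝ) ≤ w0 := by exact_mod_cast hw0
      positivity
    linarith only [hH, t4, this]
  linarith only [t4, t5]

open Classical in
theorem base_a (L : ℝ) (A H P w0 X i : ℕ) (f : ℕ → ℝ) (α : ℝ) (hL : 100 ≤ L) (hw0 : 1 ≤ w0) (hP : 1 ≤ P)
    (hH : 2 * w0 * P * L ^ (A + 5) ≤ H) (hf : SqB f w0 X L) (hX : 4 * (i + 1) * H ≤ X)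
    (hbig : H / L ^ A ≤ ‖Bs (Fp f P) H i α‖) :
    P / (4 * L ^ (A + 2)) ≤ (((pb P).filter (fun p : ℕ => ∃ c : ℕ, i * H ≤ c * cw H P A L * p ∧
      c * cw H P A L * p < (i + 1) * H ∧ (cw H P A L : ℝ) / (16 * L ^ A) ≤
        ‖∑ k ∈ Ico (c * cw H P A L) (c * cw H P A L + cw H P A L), (f k : ℂ) * ee (-(k * (p * α)))‖)).card : ℝ) := by
  have hP0 : (0 : ℝ) < P := by exact_mod_cast hP
  have hL0 : 0 < L := by linarith only [hL]
  set G := (pb P).filter (fun p : ℕ => ∃ c : ℕ, i * H ≤ c * cw H P A L * p ∧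
      c * cw H P A L * p < (i + 1) * H ∧ (cw H P A L : ℝ) / (16 * L ^ A) ≤
        ‖∑ k ∈ Ico (c * cw H P A L) (c * cw H P A L + cw H P A L), (f k : ℂ) * ee (-(k * (p * α)))‖)
    with hG
  rw [BaseA_split] at hbig
  have hH0 : (0 : ℝ) < H := by
    have h1 : (0 : ℝ) < 2 * w0 * P * L ^ (A + 5) := by
      have : (1 : ℝ) ≤ w0 := by exact_mod_cast hw0
      positivity
    linarith only [hH, h1]
  have hterm : ∀ p ∈ pb P, ‖∑ k ∈ Ico (BaseA_cl (i * H) p) (BaseA_cl ((i + 1) * H) p),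
      (f k : ℂ) * ee (-(k * (p * α)))‖ ≤ (if p ∈ G then 2 * H * L ^ 2 / P else 0) +
        H / (2 * (P * L ^ A)) := by
    intro p hp
    have hp' := hp
    unfold pb at hp'
    rw [Finset.mem_filter, Finset.mem_Ioc] at hp'
    obtain ⟨⟨hp1, hp2⟩, _⟩ := hp'
    have hν : 0 ≤ (H : ℝ) / (2 * (P * L ^ A)) := by positivity
    split_ifs with hpG
    · obtain ⟨n1, n2, n3, n4, n5⟩ := BaseA_num hL hw0 hP hH hX hp1 hp2
      have h1 := BaseA_CS hf (u := BaseA_cl (i * H) p) (v := BaseA_cl ((i + 1) * H) p)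
        (w := BaseA_cl ((i + 1) * H) p - BaseA_cl (i * H) p) (by omega) (by omega) (by omega) (p * α)
      have h2 : ((BaseA_cl ((i + 1) * H) p - BaseA_cl (i * H) p : ℕ) : ℝ) * L ^ 2 ≤
          2 * H * L ^ 2 / P := by
        rw [Nat.cast_sub (by omega), le_div_iff₀ hP0]
        calc ((BaseA_cl ((i + 1) * H) p : ℝ) - BaseA_cl (i * H) p) * L ^ 2 * P =
            (((BaseA_cl ((i + 1) * H) p : ℝ) - BaseA_cl (i * H) p) * P) * L ^ 2 := by ring
          _ ≤ 2 * H * L ^ 2 := mul_le_mul_of_nonneg_right n1 (by positivity)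
      linarith only [hν, h1, h2]
    · rw [zero_add, le_div_iff₀ (by positivity)]
      by_contra hc
      apply hpG
      rw [hG, Finset.mem_filter]
      refine ⟨hp, BaseA_cell α hL hw0 hP hH hf hX hp1 hp2 ?_⟩
      have := (not_le.1 hc).le
      linarith only [hc]
  have hsum : (H : ℝ) / L ^ A ≤ G.card * (2 * H * L ^ 2 / P) + P * (H / (2 * (P * L ^ A))) := by
    refine hbig.trans ((norm_sum_le _ _).trans ((Finset.sum_le_sum hterm).trans ?_))
    rw [Finset.sum_add_distrib]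
    refine add_le_add (le_of_eq ?_) ?_
    · rw [← Finset.sum_filter, Finset.sum_const, nsmul_eq_mul]
      congr 2
      congr 1
      ext p
      rw [Finset.mem_filter]
      exact ⟨fun h => h.2, fun h => ⟨(Finset.mem_filter.1 h).1, h⟩⟩
    · rw [Finset.sum_const, nsmul_eq_mul]
      refine mul_le_mul_of_nonneg_right ?_ (by positivity)
      unfold pb
      have h1 := Finset.card_filter_le (Ioc P (2 * P)) Nat.Prime
      rw [Nat.card_Ioc] at h1
      have h2 : ((Ioc P (2 * P)).filter Nat.Prime).card ≤ P := by omega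
      exact_mod_cast h2
  have e1 : (P : ℝ) * (H / (2 * (P * L ^ A))) = (H / L ^ A) / 2 := by
    field_simp
  rw [e1] at hsum
  have e2 : (H / L ^ A) / 2 ≤ G.card * (2 * H * L ^ 2 / P) := by linarith only [hsum]
  rw [div_le_iff₀ (by positivity)]
  have e3 : (H / L ^ A) / 2 * (2 * P * L ^ A / H) ≤
      G.card * (2 * H * L ^ 2 / P) * (2 * P * L ^ A / H) :=
    mul_le_mul_of_nonneg_right e2 (by positivity)
  have e4 : (H / L ^ A) / 2 * (2 * P * L ^ A / H) = P := by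
    field_simp
  have e5 : G.card * (2 * H * L ^ 2 / P) * (2 * P * L ^ A / H) = G.card * (4 * L ^ (A + 2)) := by
    rw [pow_add]
    field_simp
    ring
  rw [e4, e5] at e3
  exact e3

end Pool.Agent.H53.MID

end
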