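import Pool.Agent.H43.PL.H53.MID.Nz
import Pool.Agent.H43.PL.M01
import Pool.Agent.H43.PL.M02
import Pool.Agent.H43.PL.M05

/-! The parts of this file: H53.MID.Lfu, H97.VK.Lin1, H97.VK.Lin2, H91.PK.Om, H97.VK.SmTwo, H92.EH2.LS, H53.MID.Net, H53.MID.Chain, H74.MDX.Defs, H74.MDX.MulRel, H74.MDX.DStep, H74.MDX.Lvl, H74.MDX.Weak, H74.MDX.Nd, H74.MDX.DsInt, H53.MID.FourC, H74.MDX.Root, H74.MDX.Sep, H91.EHA.SwJ2, H91.EHA.SwG. -/

section

/-!
# MID Lfu: local Fourier uniformity of `F# = Fp (hR R) P`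

`badB`: the blocks `i ∈ [N/(2H), 4N/H]` with `sup_α ‖∑_{m ∈ I_i} Fp f P m ee(-m α)‖ > H/L^A`.
Proof.  `L = log N`, `n = N/H` (natural division), `C = 10`: `n/10 ≤ N/(2H) ≤ i ≤ 4N/H ≤ 10 n` for the `i` in the range.  `Jm = ⌈1/e1⌉` (`n ≤ N ≤ P^Jm`).
Constants in this order: `A, e1` are given; `comb (3C) Jm` gives `D, e`; `C0 = 5(A+1)+14`; `C2` = any number with `2 D L^(A+7+C0 e) ≤ L^C2` for large `L`, for example `C2 = A + 8 + C0 e`; `C1 = C0 e + 1`;
`A' = 2(A+1) + 2C1 + 3`; `ms A' C2 e1` gives `C4`; `B0 = C2`.  Let `B ≥ B0`, `R = ⌊L^B⌋`, `N` large, and let `F0` be the set of the bad `i`; suppose `|F0| > (N/H)/L^A ≥ n/L^(A+1)`.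
`K1 = N/(20 P)`... choose `K1, K2` with `K1 < N/(8P)`, `K2 ≥ 5N/P + 1`, `K2 P ≤ 16 N`, for example `K1 = N/(16 P)`, `K2 = 12 N/P` (natural division), `f = cut K1 K2 (hR R)`: for `m ∈ [N/4, 5N]` (all blocks) and
`p ∈ pb P`, `p ∣ m`: `K1 < m/p ≤ K2`, so `Fp f P m = Fp (hR R) P m`.  `α i` with `H/L^(A+1) ≤ H/L^A < ‖Bs (Fp f P) H i (α i)‖`.
`SqB f (R^4+2) (N^4) L` by `hsq B`; `w0 = R^4 + 2`: `2 w0 P L^(A+6) ≤ H` since `P^5 ≤ H`, `P ≥ N^e1`.  `base` (with `A+1`) gives `Rel 30 n P (η P)`, `η = 2 L^(A+6)/H`, `|R0| ≥ n P/L^C0`; `comb` with `δ = L^(-C0)`: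
`D η P^3 ≤ δ^e`, `D ≤ δ^e P`: clear for large `N`.  So `d ≤ D L^(C0 e) ≤ L^C2`, `T := T' H`, `|T| ≤ D η L^(C0 e) n^2 H ≤ L^C2 n^2`, `nz (α i - b/d - T/(iH)) ≤ D η L^(C0 e) ≤ L^C2/H`, `|F1| ≥ n/(D L^(C0 e)) ≥ n/L^C1`.
`contra` (`X = 60 N`, `Xf = N^4`, `a = b/d`) and `ms` (`θ = 1/(n L^(A+1+C2+3))`: `θ N ≥ H/L^(..) ≥ P L^C4` as `P^5 ≤ H`; `|T| ≤ L^C2 n^2 ≤ N^2`; `K2 ≥ N/P ≥ N^e1` since `P^5 ≤ H ≤ √N`) contradict each other:
`θ^2 (nH)^2/L^(2(A+1)+2C1+1) ≤ θ^2 N^2/L^A'`, but `n H ≥ N/2` and `L^2 > 4`.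
-/

set_option autoImplicit false

namespace Pool.Agent.H53.MID

open Finset MeasureTheory
open Pool.Agent.H91.PK (ee)
open Pool.Agent.H35.W (pb)

open Classical in
/-- the bad blocks -/
noncomputable def badB (g : ℕ → ℝ) (N H : ℕ) (M : ℝ) : Finset ℕ :=
  (Icc (N / (2 * H)) (4 * N / H)).filter (fun i => ∃ α : ℝ, M < ‖Bs g H i α‖)

end Pool.Agent.H53.MID

end

section

/-!
# VK Lin1: power sums modulo `p^m` determine the tuple up to order

Proof.  Newton's identities (Mathlib `MvPolynomial.mul_esymm_eq_sum`, or `MvPolynomial.psum`/`esymm` identities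
specialised by `MvPolynomial.aeval`): `j e_j = ∑ ± e_{j-i} p_i`; `j ≤ k < p` is a unit in `ZMod (p^m)`, so the elementary symmetric
functions of `x` and `y` agree, hence `∏ (T - x_i) = ∏ (T - y_i)` as polynomials over `ZMod (p^m)` (Vieta,
`Multiset.prod_X_sub_X_eq_sum_esymm` or `MvPolynomial.prod_C_add_X_eq_sum_esymm`).  Put `T = y_i`: `∏_{i'} (y_i - x_{i'}) = 0`.
If all factors but one are units the remaining one is `0`.  A factor `y_i - x_{i'}` is a unit iff it is not divisible by `p`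
(`ZMod (p^m)` is local with maximal ideal `(p)`); two factors `y_i - x_{i'}`, `y_i - x_{i''}` cannot both be nonunits because their
difference `x_{i''} - x_{i'}` is a unit (in a local ring the sum of nonunits is a nonunit).
`lin_card`: fix one member `x0` of the set; every member `y` is `x0 ∘ σ` with `σ : Fin k → Fin k`; `σ` is injective as `y` is (differences are
units and the ring is nontrivial), so it is one of the `k!` permutations.
-/

set_option autoImplicit false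

namespace Pool.Agent.H97.VK

open Finset

private theorem Lin1_esymm {R : Type*} [CommRing R] {k : ℕ} (x y : Fin k → R)
    (hc : ∀ j : ℕ, 1 ≤ j → j ≤ k → ∀ a b : R, (j : R) * a = (j : R) * b → a = b)
    (h : ∀ j, 1 ≤ j → j ≤ k → ∑ i, x i ^ j = ∑ i, y i ^ j) (n : ℕ) (hn : n ≤ k) :
    (univ.val.map x).esymm n = (univ.val.map y).esymm n := by
  have hN : ∀ (z : Fin k → R) (n : ℕ), (n : R) * (univ.val.map z).esymm n = (-1) ^ (n + 1) *
      ∑ a ∈ antidiagonal n with a.1 < n, (-1) ^ a.1 * (univ.val.map z).esymm a.1 *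
        ∑ i, z i ^ a.2 := by
    intro z n
    have h1 := congrArg (MvPolynomial.aeval z) (MvPolynomial.mul_esymm_eq_sum (Fin k) R n)
    simp only [map_mul, map_natCast, map_pow, map_neg, map_one, map_sum,
      MvPolynomial.aeval_esymm_eq_multiset_esymm, MvPolynomial.psum, MvPolynomial.aeval_X] at h1
    exact h1
  induction n using Nat.strong_induction_on with
  | _ n ih =>
    rcases Nat.eq_zero_or_pos n with h0 | h0
    · subst h0
      simp [Multiset.esymm]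
    · refine hc n h0 hn _ _ ?_
      rw [hN x n, hN y n]
      congr 1
      refine sum_congr rfl fun a ha => ?_
      rw [mem_filter, HasAntidiagonal.mem_antidiagonal] at ha
      rw [ih a.1 ha.2 (by omega), h a.2 (by omega) (by omega)]

private theorem Lin1_prod {R : Type*} [CommRing R] {k : ℕ} (x y : Fin k → R)
    (hc : ∀ j : ℕ, 1 ≤ j → j ≤ k → ∀ a b : R, (j : R) * a = (j : R) * b → a = b)
    (h : ∀ j, 1 ≤ j → j ≤ k → ∑ i, x i ^ j = ∑ i, y i ^ j) :
    ((univ.val.map x).map fun t => Polynomial.X - Polynomial.C t).prod =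
      ((univ.val.map y).map fun t => Polynomial.X - Polynomial.C t).prod := by
  rw [Multiset.prod_X_sub_X_eq_sum_esymm, Multiset.prod_X_sub_X_eq_sum_esymm]
  have hx : Multiset.card (univ.val.map x) = k := by simp
  have hy : Multiset.card (univ.val.map y) = k := by simp
  rw [hx, hy]
  refine sum_congr rfl fun j hj => ?_
  rw [mem_range] at hj
  rw [Lin1_esymm x y hc h j (by omega)]

private theorem Lin1_eval {R : Type*} [CommRing R] {k : ℕ} (x y : Fin k → R)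
    (hc : ∀ j : ℕ, 1 ≤ j → j ≤ k → ∀ a b : R, (j : R) * a = (j : R) * b → a = b)
    (h : ∀ j, 1 ≤ j → j ≤ k → ∑ i, x i ^ j = ∑ i, y i ^ j) (i : Fin k) :
    ∏ i', (y i - x i') = 0 := by
  have h1 := congrArg (Polynomial.eval (y i)) (Lin1_prod x y hc h)
  have h2 : ∀ z : Fin k → R, Polynomial.eval (y i)
      ((univ.val.map z).map fun t => Polynomial.X - Polynomial.C t).prod = ∏ i', (y i - z i') := by
    intro z
    rw [Multiset.map_map, Finset.prod_map_val, Polynomial.eval_prod]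
    refine prod_congr rfl fun i' _ => ?_
    simp
  rw [h2, h2] at h1
  rw [h1]
  exact prod_eq_zero (mem_univ i) (sub_self _)

private theorem Lin1_unit {p m : ℕ} (hp : p.Prime) (hm : 1 ≤ m) (a : ZMod (p ^ m)) :
    IsUnit a ↔ ZMod.castHom (dvd_pow_self p (by omega : m ≠ 0)) (ZMod p) a ≠ 0 := by
  have : NeZero (p ^ m) := ⟨(pow_pos hp.pos m).ne'⟩
  obtain ⟨v, rfl⟩ : ∃ v : ℕ, (v : ZMod (p ^ m)) = a := ⟨a.val, ZMod.natCast_zmod_val a⟩
  rw [ZMod.isUnit_iff_coprime, map_natCast, Ne, ZMod.natCast_eq_zero_iff,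
    Nat.coprime_pow_right_iff (by omega), Nat.coprime_comm, hp.coprime_iff_not_dvd]

private theorem Lin1_nontriv {p m : ℕ} (hp : p.Prime) (hm : 1 ≤ m) : Nontrivial (ZMod (p ^ m)) := by
  have : Fact (1 < p ^ m) := ⟨Nat.one_lt_pow (by omega) hp.one_lt⟩
  infer_instance

private theorem Lin1_cancel {k p m : ℕ} (hp : p.Prime) (hk : k < p) (j : ℕ)
    (h1 : 1 ≤ j) (h2 : j ≤ k) (a b : ZMod (p ^ m))
    (h : (j : ZMod (p ^ m)) * a = (j : ZMod (p ^ m)) * b) : a = b := by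
  have h3 : IsUnit (j : ZMod (p ^ m)) := by
    rw [ZMod.isUnit_iff_coprime]
    refine Nat.Coprime.pow_right m ?_
    rw [Nat.coprime_comm, hp.coprime_iff_not_dvd]
    exact fun h4 => absurd (Nat.le_of_dvd (by omega) h4) (by omega)
  exact h3.mul_left_cancel h

/-- equal multisets: the tuples differ by a permutation -/
private theorem Lin1_perm {α : Type*} {k : ℕ} (x y : Fin k → α)
    (h : univ.val.map x = univ.val.map y) : ∃ σ : Equiv.Perm (Fin k), y = x ∘ σ := by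
  classical
  have h1 : ∀ c, Fintype.card {i // y i = c} = Fintype.card {i // x i = c} := by
    intro c
    rw [Fintype.card_subtype, Fintype.card_subtype]
    have h2 := congrArg (Multiset.count c) h
    rw [Multiset.count_map, Multiset.count_map] at h2
    have h3 : ∀ z : Fin k → α, #{i | z i = c} = (Multiset.filter (fun i => c = z i) univ.val).card := by
      intro z
      rw [← Finset.filter_val, Finset.card_val]
      congr 1
      ext i
      simp [eq_comm]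
    rw [h3, h3, h2]
  refine ⟨Equiv.ofFiberEquiv (fun c => Fintype.equivOfCardEq (h1 c)), ?_⟩
  funext i
  exact (Equiv.ofFiberEquiv_map (fun c => Fintype.equivOfCardEq (h1 c)) i).symm

theorem lin_perm {k p m : ℕ} (hp : p.Prime) (hk : k < p) (hm : 1 ≤ m) (x y : Fin k → ZMod (p ^ m))
    (h : ∀ j, 1 ≤ j → j ≤ k → ∑ i, x i ^ j = ∑ i, y i ^ j)
    (hinj : ∀ i i', i ≠ i' → IsUnit (x i - x i')) (i : Fin k) : ∃ i', y i = x i' := by
  have := Lin1_nontriv hp hm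
  have h0 := Lin1_eval x y (fun j h1 h2 => Lin1_cancel hp hk j h1 h2) h i
  have h1 : ∃ i', ¬ IsUnit (y i - x i') := by
    by_contra hcon
    push Not at hcon
    have h2 : IsUnit (∏ i', (y i - x i')) := by
      exact IsUnit.prod_univ_iff.2 hcon
    rw [h0] at h2
    exact not_isUnit_zero h2
  obtain ⟨i', hi'⟩ := h1
  refine ⟨i', ?_⟩
  have h3 : ∀ i'', i'' ≠ i' → IsUnit (y i - x i'') := by
    intro i'' hne
    by_contra hcon
    have h4 := hinj i'' i' hne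
    rw [Lin1_unit hp hm] at hi' hcon h4
    push Not at hi' hcon
    apply h4
    have h5 : x i'' - x i' = (y i - x i') - (y i - x i'') := by ring
    rw [h5, map_sub, hi', hcon, sub_zero]
  have h6 : (y i - x i') * ∏ i'' ∈ univ.erase i', (y i - x i'') = 0 := by
    rw [mul_prod_erase univ (fun i'' => y i - x i'') (mem_univ i')]
    exact h0
  have h7 : IsUnit (∏ i'' ∈ univ.erase i', (y i - x i'')) := by
    rw [IsUnit.prod_iff]
    exact fun i'' hi'' => h3 i'' (ne_of_mem_erase hi'')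
  have h8 := (h7.mul_left_eq_zero).1 h6
  exact sub_eq_zero.1 h8

theorem lin_card {k p m : ℕ} (hp : p.Prime) (hk : k < p) (hm : 1 ≤ m) (c : ℕ → ZMod (p ^ m))
    (X : Finset (Fin k → ZMod (p ^ m)))
    (hX : ∀ x ∈ X, (∀ j, 1 ≤ j → j ≤ k → ∑ i, x i ^ j = c j) ∧ ∀ i i', i ≠ i' → IsUnit (x i - x i')) :
    X.card ≤ k.factorial := by
  classical
  have := Lin1_nontriv hp hm
  rcases X.eq_empty_or_nonempty with h0 | ⟨x0, hx0⟩
  · rw [h0, card_empty]; exact Nat.zero_le _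
  · have h1 : X ⊆ (univ : Finset (Equiv.Perm (Fin k))).image (fun σ : Equiv.Perm (Fin k) => x0 ∘ ⇑σ) := by
      intro y hy
      rw [mem_image]
      have h2 : ∀ i, ∃ i', y i = x0 i' := fun i => lin_perm hp hk hm x0 y
        (fun j h1 h2 => by rw [(hX x0 hx0).1 j h1 h2, (hX y hy).1 j h1 h2]) (hX x0 hx0).2 i
      choose σ hσ using h2
      have h3 : Function.Injective σ := by
        intro i i' h4
        by_contra hne
        have h5 := (hX y hy).2 i i' hne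
        rw [hσ i, hσ i', h4, sub_self] at h5
        exact not_isUnit_zero h5
      refine ⟨Equiv.ofBijective σ (Finite.injective_iff_bijective.1 h3), mem_univ _, ?_⟩
      funext i
      exact (hσ i).symm
    calc X.card ≤ ((univ : Finset (Equiv.Perm (Fin k))).image (fun σ : Equiv.Perm (Fin k) => x0 ∘ ⇑σ)).card :=
          card_le_card h1
      _ ≤ (univ : Finset (Equiv.Perm (Fin k))).card := card_image_le
      _ = k.factorial := by rw [card_univ, Fintype.card_perm, Fintype.card_fin]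

/-- the same over the integers: `J_{k,k}(M) ≤ k! M^k` (here no condition on the differences is needed: `ℤ` is a domain, the multisets of
the `x_i` and of the `y_i` agree, so `y = x ∘ σ` with a permutation `σ`) -/
theorem jv_base (k M : ℕ) : JV k k M ≤ k.factorial * M ^ k := by
  classical
  have h1 : ((box k M) ×ˢ (box k M)).filter (fun w => pv k w.1 = pv k w.2) ⊆
      ((box k M) ×ˢ (univ : Finset (Equiv.Perm (Fin k)))).image (fun w : (Fin k → ℕ) × Equiv.Perm (Fin k) => (w.1, w.1 ∘ ⇑w.2)) := by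
    intro w hw
    rw [mem_filter, mem_product] at hw
    obtain ⟨⟨hw1, hw2⟩, hw3⟩ := hw
    have h2 : ∀ j, 1 ≤ j → j ≤ k → ∑ i, (w.1 i : ℤ) ^ j = ∑ i, (w.2 i : ℤ) ^ j := by
      intro j hj1 hj2
      have h3 := congrFun hw3 ⟨j - 1, by omega⟩
      unfold pv at h3
      have h4 : j - 1 + 1 = j := by omega
      simp only [h4] at h3
      exact h3
    have h5 := Lin1_prod (fun i => (w.1 i : ℤ)) (fun i => (w.2 i : ℤ)) (fun j hj1 _ a b hab =>
      mul_left_cancel₀ (by exact_mod_cast (by omega : j ≠ 0)) hab) h2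
    have h6 := congrArg Polynomial.roots h5
    rw [Polynomial.roots_multiset_prod_X_sub_C, Polynomial.roots_multiset_prod_X_sub_C] at h6
    obtain ⟨σ, hσ⟩ := Lin1_perm _ _ h6
    rw [mem_image]
    refine ⟨(w.1, σ), mem_product.2 ⟨hw1, mem_univ _⟩, ?_⟩
    refine Prod.ext rfl ?_
    funext i
    have h7 := congrFun hσ i
    simp only [Function.comp_apply] at h7 ⊢
    exact_mod_cast h7.symm
  unfold JV
  calc _ ≤ _ := card_le_card h1
    _ ≤ ((box k M) ×ˢ (univ : Finset (Equiv.Perm (Fin k)))).card := card_image_le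
    _ = k.factorial * M ^ k := by
        rw [card_product, card_univ, Fintype.card_perm, Fintype.card_fin, box,
          Fintype.card_piFinset]
        simp [mul_comm]

end Pool.Agent.H97.VK

end

section

/-!
# VK Lin2: Linnik's lemma

Proof.  Map `x` to the tuple `(x_i - b) mod p^k` (injective on the box because `M ≤ p^k`).  The power sums `S_j(x) = ∑ (x_i - b)^j` are
`≡ c_j mod p^j`, so their residues modulo `p^k` lie in a set of `p^{k-j}` residues; altogether `∏_{j=1}^k p^{k-j} = p^{k(k-1)/2}` vectors of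
residues mod `p^k`.  For each vector at most `k!` tuples (`lin_card` with `m = k`; differences of the coordinates are not divisible by `p`,
hence units).  (`k = 0`: the box has one element.)
-/

set_option autoImplicit false

namespace Pool.Agent.H97.VK

open Finset

theorem lin_count (k p M b : ℕ) (c : ℕ → ℤ) (hp : p.Prime) (hk : k < p) (hM : M ≤ p ^ k) :
    ((inj k p M).filter (fun x => ∀ j ∈ Icc 1 k,
      ((p : ℤ) ^ j) ∣ (∑ i, ((x i : ℤ) - b) ^ j) - c j)).card ≤ k.factorial * p ^ (k * (k - 1) / 2) := by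
  rcases Nat.eq_zero_or_pos k with hk0 | hkpos
  · subst hk0
    have h1 : ((inj 0 p M).filter (fun x => ∀ j ∈ Icc 1 0,
      ((p : ℤ) ^ j) ∣ (∑ i, ((x i : ℤ) - b) ^ j) - c j)).card ≤ 1 := by
      apply Finset.card_le_one.2
      intro a _ b _
      exact Subsingleton.elim _ _
    simpa using h1
  set S := (inj k p M).filter (fun x => ∀ j ∈ Icc 1 k,
      ((p : ℤ) ^ j) ∣ (∑ i, ((x i : ℤ) - b) ^ j) - c j) with hS
  let φ : (Fin k → ℕ) → (Fin k → ZMod (p ^ k)) := fun x j =>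
    ∑ i, (((x i : ℤ) - b : ℤ) : ZMod (p ^ k)) ^ ((j : ℕ) + 1)
  let V : Fin k → Finset (ZMod (p ^ k)) := fun j =>
    (range (p ^ (k - 1 - (j : ℕ)))).image
      (fun t : ℕ => ((c ((j : ℕ) + 1) + (p : ℤ) ^ ((j : ℕ) + 1) * (t : ℤ) : ℤ) : ZMod (p ^ k)))
  have himg : S.image φ ⊆ Fintype.piFinset V := by
    intro v hv
    obtain ⟨x, hx, rfl⟩ := Finset.mem_image.1 hv
    rw [Fintype.mem_piFinset]
    intro j
    have hx2 := (Finset.mem_filter.1 hx).2 ((j : ℕ) + 1)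
      (Finset.mem_Icc.2 ⟨by omega, by have := j.2; omega⟩)
    obtain ⟨q, hq⟩ := hx2
    refine Finset.mem_image.2 ⟨(q % ((p ^ (k - 1 - (j : ℕ)) : ℕ) : ℤ)).toNat, ?_, ?_⟩
    · rw [Finset.mem_range]
      have hpos : (0 : ℤ) < ((p ^ (k - 1 - (j : ℕ)) : ℕ) : ℤ) := by
        exact_mod_cast pow_pos hp.pos _
      have h1 := Int.emod_lt_of_pos q hpos
      have h2 := Int.emod_nonneg q hpos.ne'
      omega
    · have hpos : (0 : ℤ) < ((p ^ (k - 1 - (j : ℕ)) : ℕ) : ℤ) := by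
        exact_mod_cast pow_pos hp.pos _
      have h2 := Int.emod_nonneg q hpos.ne'
      have h3 : (((q % ((p ^ (k - 1 - (j : ℕ)) : ℕ) : ℤ)).toNat : ℕ) : ℤ)
          = q % ((p ^ (k - 1 - (j : ℕ)) : ℕ) : ℤ) := Int.toNat_of_nonneg h2
      have h4 : (∑ i, (((x i : ℤ) - b : ℤ) : ZMod (p ^ k)) ^ ((j : ℕ) + 1))
          = (((∑ i, ((x i : ℤ) - b) ^ ((j : ℕ) + 1)) : ℤ) : ZMod (p ^ k)) := by
        push_cast
        rfl
      show _ = (∑ i, (((x i : ℤ) - b : ℤ) : ZMod (p ^ k)) ^ ((j : ℕ) + 1))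
      rw [h4, ZMod.intCast_eq_intCast_iff_dvd_sub]
      rw [h3]
      have h5 : (∑ i, ((x i : ℤ) - b) ^ ((j : ℕ) + 1))
          = c ((j : ℕ) + 1) + (p : ℤ) ^ ((j : ℕ) + 1) * q := by linarith
      rw [h5]
      have h6 : c ((j : ℕ) + 1) + (p : ℤ) ^ ((j : ℕ) + 1) * q
          - (c ((j : ℕ) + 1) + (p : ℤ) ^ ((j : ℕ) + 1) * (q % ((p ^ (k - 1 - (j : ℕ)) : ℕ) : ℤ)))
          = (p : ℤ) ^ ((j : ℕ) + 1) * (q - q % ((p ^ (k - 1 - (j : ℕ)) : ℕ) : ℤ)) := by ring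
      rw [h6]
      have h7 : ((p ^ k : ℕ) : ℤ) = (p : ℤ) ^ ((j : ℕ) + 1) * ((p ^ (k - 1 - (j : ℕ)) : ℕ) : ℤ) := by
        push_cast
        rw [← pow_add]
        congr 1
        have := j.2
        omega
      rw [h7]
      exact mul_dvd_mul_left _ (Int.dvd_self_sub_emod)
  have hcardV : (Fintype.piFinset V).card ≤ p ^ (k * (k - 1) / 2) := by
    rw [Fintype.card_piFinset]
    calc ∏ j : Fin k, (V j).card ≤ ∏ j : Fin k, p ^ (k - 1 - (j : ℕ)) := by
          apply Finset.prod_le_prod'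
          intro j _
          exact (Finset.card_image_le).trans (by rw [Finset.card_range])
      _ = p ^ (k * (k - 1) / 2) := by
          rw [Finset.prod_pow_eq_pow_sum]
          congr 1
          rw [Fin.sum_univ_eq_sum_range (fun j => k - 1 - j) k, Finset.sum_range_reflect (fun j => j) k,
            Finset.sum_range_id]
  have hfib : ∀ v ∈ S.image φ, (S.filter (fun x => φ x = v)).card ≤ k.factorial := by
    intro v hv
    obtain ⟨x0, hx0, hx0v⟩ := Finset.mem_image.1 hv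
    let ψ : (Fin k → ℕ) → (Fin k → ZMod (p ^ k)) := fun x i => (((x i : ℤ) - b : ℤ) : ZMod (p ^ k))
    have hinj : Set.InjOn ψ (S.filter (fun x => φ x = v) : Finset _) := by
      intro x hx y hy hxy
      have hx1 := (Finset.mem_filter.1 (Finset.mem_coe.1 hx)).1
      have hy1 := (Finset.mem_filter.1 (Finset.mem_coe.1 hy)).1
      have hx2 := (Finset.mem_filter.1 (Finset.mem_filter.1 hx1).1).1
      have hy2 := (Finset.mem_filter.1 (Finset.mem_filter.1 hy1).1).1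
      funext i
      have hxi := Finset.mem_Icc.1 (Fintype.mem_piFinset.1 hx2 i)
      have hyi := Finset.mem_Icc.1 (Fintype.mem_piFinset.1 hy2 i)
      have h1 := congrFun hxy i
      have h2 : (((x i : ℤ) - b : ℤ) : ZMod (p ^ k)) = (((y i : ℤ) - b : ℤ) : ZMod (p ^ k)) := h1
      rw [ZMod.intCast_eq_intCast_iff_dvd_sub] at h2
      have h3 : ((y i : ℤ) - b - ((x i : ℤ) - b)) = (y i : ℤ) - x i := by ring
      rw [h3] at h2
      have hM' : (M : ℤ) ≤ ((p ^ k : ℕ) : ℤ) := by exact_mod_cast hM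
      have h4 : |(y i : ℤ) - x i| < ((p ^ k : ℕ) : ℤ) := by
        rw [abs_lt]
        constructor
        · have : (x i : ℤ) ≤ M := by exact_mod_cast hxi.2
          have : (1 : ℤ) ≤ y i := by exact_mod_cast hyi.1
          linarith
        · have : (y i : ℤ) ≤ M := by exact_mod_cast hyi.2
          have : (1 : ℤ) ≤ x i := by exact_mod_cast hxi.1
          linarith
      have h5 := Int.eq_zero_of_abs_lt_dvd h2 h4
      have h6 : (y i : ℤ) = x i := by linarith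
      exact_mod_cast h6.symm
    rw [← Finset.card_image_of_injOn hinj]
    apply lin_card hp hk hkpos (fun j => ∑ i, ψ x0 i ^ j)
    intro w hw
    obtain ⟨x, hx, rfl⟩ := Finset.mem_image.1 hw
    obtain ⟨hx1, hxv⟩ := Finset.mem_filter.1 hx
    constructor
    · intro j hj1 hjk
      have h1 : φ x = φ x0 := by rw [hxv, hx0v]
      have h2 := congrFun h1 ⟨j - 1, by omega⟩
      have h3 : (∑ i, (((x i : ℤ) - b : ℤ) : ZMod (p ^ k)) ^ ((j - 1) + 1))
          = ∑ i, (((x0 i : ℤ) - b : ℤ) : ZMod (p ^ k)) ^ ((j - 1) + 1) := h2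
      rw [Nat.sub_add_cancel hj1] at h3
      exact h3
    · intro i i' hii
      have hx2 := (Finset.mem_filter.1 (Finset.mem_filter.1 hx1).1).2 i i' hii
      have h1 : ψ x i - ψ x i' = (((x i : ℤ) - x i' : ℤ) : ZMod (p ^ k)) := by
        show (((x i : ℤ) - b : ℤ) : ZMod (p ^ k)) - (((x i' : ℤ) - b : ℤ) : ZMod (p ^ k)) = _
        push_cast
        ring
      rw [h1, ZMod.coe_int_isUnit_iff_isCoprime]
      rw [Nat.cast_pow]
      apply IsCoprime.pow_left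
      rw [(Nat.prime_iff_prime_int.1 hp).coprime_iff_not_dvd]
      intro hdvd
      apply hx2
      have h2 : (x i' : ℤ) ≡ (x i : ℤ) [ZMOD p] := (Int.modEq_iff_dvd).2 hdvd
      have h3 : x i' ≡ x i [MOD p] := by exact_mod_cast h2
      exact h3.symm
  calc S.card ≤ k.factorial * (S.image φ).card := Finset.card_le_mul_card_image S _ hfib
    _ ≤ k.factorial * p ^ (k * (k - 1) / 2) :=
        Nat.mul_le_mul_left _ ((Finset.card_le_card himg).trans hcardV)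

end Pool.Agent.H97.VK

end

section

/-!
PK Om: the weight `om t = t(1-t)^2` and its Fourier representation.

* `0 ≤ om ≤ 4/27`, `om` is 1-Lipschitz on ℝ (on [0,1] the derivative (1-t)(1-3t) is in [-1/3, 1]; om(0)=om(1)=0).
* For β ≥ 0 let g(v) = e^{-βv} om(e^{-v}) = e^{-(β+1)v} (1-e^{-v})² for v ≥ 0 and 0 for v < 0.  g is continuous,
  integrable and ∫ g(v) e^{-itv} dv = ∑ of three exponentials = 1/(s+1) - 2/(s+2) + 1/(s+3)
  = 2/((s+1)(s+2)(s+3)), s = β + it, i.e. = KK β t, which is integrable in t.  Fourier inversion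
  (Mathlib: `MeasureTheory.Integrable.fourierInv_fourier_eq`, with the change of variable w = t/(2π)) gives
     g(v) = (1/2π) ∫ KK β t e^{itv} dt   for every real v.
* |KK β t| ≤ |KK 0 t| = 2/√((1+t²)(4+t²)(9+t²)) ≤ 0.4386/(1+t²)  since (4+u)(9+u) ≥ 20.797 (1+u) for u ≥ 0
  ((4+u)(9+u) - 20.797(1+u) = u² - 7.797u + 15.203 has negative discriminant 60.79-60.81) and 4/20.797 ≤ 0.4386².
  Also |KK β t| ≤ 2/|t|³.
-/

set_option autoImplicit false

namespace Pool.Agent.H91.PK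

open Finset MeasureTheory

private theorem om_lip01 {s t : ℝ} (hs0 : 0 ≤ s) (hs1 : s ≤ 1) (ht0 : 0 ≤ t) (ht1 : t ≤ 1) :
    |s * (1 - s) ^ 2 - t * (1 - t) ^ 2| ≤ |s - t| := by
  have e : s * (1 - s) ^ 2 - t * (1 - t) ^ 2 =
      (s - t) * ((1 - (s + t)) ^ 2 - s * t) := by ring
  rw [e, abs_mul]
  have h : |(1 - (s + t)) ^ 2 - s * t| ≤ 1 := by
    rw [abs_le]
    have hst : 0 ≤ s * t := mul_nonneg hs0 ht0
    constructor
    · nlinarith [sq_nonneg (s - t), sq_nonneg (3 * (s + t) - 4)]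
    · nlinarith [mul_nonneg (sub_nonneg.2 hs1) (sub_nonneg.2 ht1)]
  calc |s - t| * |(1 - (s + t)) ^ 2 - s * t| ≤ |s - t| * 1 := by gcongr
    _ = |s - t| := mul_one _

theorem om_lip (s t : ℝ) : |om s - om t| ≤ |s - t| := by
  have key : ∀ s : ℝ, om s = (max 0 (min s 1)) * (1 - max 0 (min s 1)) ^ 2 := by
    intro s
    unfold om
    split_ifs with h
    · rw [min_eq_left h.2, max_eq_right h.1]
    · rcases lt_or_ge s 0 with h1 | h1
      · rw [min_eq_left (by linarith), max_eq_left h1.le]; ring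
      · have h2 : 1 < s := by
          by_contra h3
          exact h ⟨h1, not_lt.1 h3⟩
        rw [min_eq_right h2.le, max_eq_right zero_le_one]; ring
  rw [key s, key t]
  have hb : ∀ s : ℝ, 0 ≤ max 0 (min s 1) ∧ max 0 (min s 1) ≤ 1 := fun s =>
    ⟨le_max_left _ _, max_le zero_le_one (min_le_right _ _)⟩
  refine (om_lip01 (hb s).1 (hb s).2 (hb t).1 (hb t).2).trans ?_
  calc |max 0 (min s 1) - max 0 (min t 1)| ≤ max |(0 : ℝ) - 0| |min s 1 - min t 1| :=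
        abs_max_sub_max_le_max _ _ _ _
    _ ≤ |s - t| := by
        refine max_le (by simp) ?_
        refine (abs_min_sub_min_le_max _ _ _ _).trans (max_le le_rfl (by simp))

theorem om_eq_zero {t : ℝ} (h : 1 ≤ t) : om t = 0 := by
  unfold om
  split_ifs with h1
  · have : t = 1 := le_antisymm h1.2 h
    rw [this]; norm_num
  · rfl

private theorem normSq_add (b t : ℝ) : ‖(b : ℂ) + t * Complex.I‖ ^ 2 = b ^ 2 + t ^ 2 := by
  rw [← Complex.normSq_eq_norm_sq, Complex.normSq_add_mul_I]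

private theorem KK_eq (β t : ℝ) : KK β t = 2 / ((((β + 1 : ℝ) : ℂ) + t * Complex.I) *
    (((β + 2 : ℝ) : ℂ) + t * Complex.I) * (((β + 3 : ℝ) : ℂ) + t * Complex.I)) := by
  unfold KK; push_cast; rfl

private theorem norm_KK (β t : ℝ) : ‖KK β t‖ = 2 / (‖((β + 1 : ℝ) : ℂ) + t * Complex.I‖ *
    ‖((β + 2 : ℝ) : ℂ) + t * Complex.I‖ * ‖((β + 3 : ℝ) : ℂ) + t * Complex.I‖) := by
  rw [KK_eq, norm_div, norm_mul, norm_mul, RCLike.norm_ofNat]

theorem norm_KK_le (β t : ℝ) (hβ : 0 ≤ β) : ‖KK β t‖ ≤ 0.4386 / (1 + t ^ 2) := by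
  rw [norm_KK]
  set a := ‖((β + 1 : ℝ) : ℂ) + t * Complex.I‖ with ha
  set b := ‖((β + 2 : ℝ) : ℂ) + t * Complex.I‖ with hb
  set c := ‖((β + 3 : ℝ) : ℂ) + t * Complex.I‖ with hc
  have ha2 : 1 + t ^ 2 ≤ a ^ 2 := by rw [ha, normSq_add]; nlinarith
  have hb2 : 4 + t ^ 2 ≤ b ^ 2 := by rw [hb, normSq_add]; nlinarith
  have hc2 : 9 + t ^ 2 ≤ c ^ 2 := by rw [hc, normSq_add]; nlinarith
  have ha0 : 0 ≤ a := norm_nonneg _
  have hb0 : 0 ≤ b := norm_nonneg _
  have hc0 : 0 ≤ c := norm_nonneg _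
  have ht : 0 < 1 + t ^ 2 := by positivity
  have h1 : (2 / 0.4386 * (1 + t ^ 2)) ^ 2 ≤ (a * b * c) ^ 2 := by
    have h2 : (1 + t ^ 2) * (4 + t ^ 2) * (9 + t ^ 2) ≤ a ^ 2 * b ^ 2 * c ^ 2 := by
      gcongr
    have h3 : (2 / 0.4386 : ℝ) ^ 2 * (1 + t ^ 2) ≤ (4 + t ^ 2) * (9 + t ^ 2) := by
      have h4 : (2 / 0.4386 : ℝ) ^ 2 ≤ 20.7935 := by norm_num
      have h5 : 20.7935 * (1 + t ^ 2) ≤ (4 + t ^ 2) * (9 + t ^ 2) := by
        nlinarith [sq_nonneg (t ^ 2 - 3.89675)]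
      calc (2 / 0.4386 : ℝ) ^ 2 * (1 + t ^ 2) ≤ 20.7935 * (1 + t ^ 2) := by gcongr
        _ ≤ _ := h5
    calc (2 / 0.4386 * (1 + t ^ 2)) ^ 2 = (1 + t ^ 2) * ((2 / 0.4386 : ℝ) ^ 2 * (1 + t ^ 2)) := by
          ring
      _ ≤ (1 + t ^ 2) * ((4 + t ^ 2) * (9 + t ^ 2)) := by gcongr
      _ = (1 + t ^ 2) * (4 + t ^ 2) * (9 + t ^ 2) := by ring
      _ ≤ a ^ 2 * b ^ 2 * c ^ 2 := h2
      _ = (a * b * c) ^ 2 := by ring
  have h6 : 2 / 0.4386 * (1 + t ^ 2) ≤ a * b * c :=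
    le_of_sq_le_sq h1 (by positivity)
  have h7 : 0 < a * b * c := lt_of_lt_of_le (by positivity) h6
  rw [div_le_div_iff₀ h7 ht]
  have : (0.4386 : ℝ) * (2 / 0.4386 * (1 + t ^ 2)) = 2 * (1 + t ^ 2) := by ring
  nlinarith

theorem norm_KK_le' (β t : ℝ) (hβ : 0 ≤ β) (ht : t ≠ 0) : ‖KK β t‖ ≤ 2 / |t| ^ 3 := by
  rw [norm_KK]
  have key : ∀ b : ℝ, |t| ≤ ‖(b : ℂ) + t * Complex.I‖ := by
    intro b
    refine le_of_sq_le_sq ?_ (norm_nonneg _)
    rw [normSq_add, sq_abs]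
    nlinarith [sq_nonneg b]
  have ht0 : 0 < |t| := abs_pos.2 ht
  have h1 := key (β + 1)
  have h2 := key (β + 2)
  have h3 := key (β + 3)
  have : |t| ^ 3 ≤ ‖((β + 1 : ℝ) : ℂ) + t * Complex.I‖ * ‖((β + 2 : ℝ) : ℂ) + t * Complex.I‖ *
      ‖((β + 3 : ℝ) : ℂ) + t * Complex.I‖ := by
    calc |t| ^ 3 = |t| * |t| * |t| := by ring
      _ ≤ _ := by gcongr
  gcongr

private theorem ne_zero_of_pos {b : ℝ} (hb : 0 < b) (t : ℝ) : (b : ℂ) + t * Complex.I ≠ 0 := by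
  intro h
  have := congrArg Complex.re h
  simp at this
  exact hb.ne' this

theorem KK_continuous (β : ℝ) (hβ : 0 ≤ β) : Continuous (fun t : ℝ => KK β t) := by
  have e : (fun t : ℝ => KK β t) = fun t : ℝ => 2 / ((((β + 1 : ℝ) : ℂ) + t * Complex.I) *
    (((β + 2 : ℝ) : ℂ) + t * Complex.I) * (((β + 3 : ℝ) : ℂ) + t * Complex.I)) := by
    funext t; exact KK_eq β t
  rw [e]
  refine Continuous.div continuous_const (by fun_prop) fun t => ?_
  exact mul_ne_zero (mul_ne_zero (ne_zero_of_pos (by linarith) t) (ne_zero_of_pos (by linarith) t))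
    (ne_zero_of_pos (by linarith) t)

theorem KK_integrable (β : ℝ) (hβ : 0 ≤ β) : Integrable (fun t : ℝ => KK β t) := by
  refine Integrable.mono' (integrable_inv_one_add_sq.const_mul 0.4386)
    (KK_continuous β hβ).aestronglyMeasurable (Filter.Eventually.of_forall fun t => ?_)
  simpa [div_eq_mul_inv] using norm_KK_le β t hβ

private theorem om_continuous : Continuous om := by
  rw [Metric.continuous_iff]
  intro t ε hε
  refine ⟨ε, hε, fun s hs => ?_⟩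
  rw [Real.dist_eq] at hs ⊢
  exact (om_lip s t).trans_lt hs

private noncomputable def gg (β v : ℝ) : ℂ := ((Real.exp (-β * v) * om (Real.exp (-v)) : ℝ) : ℂ)

private theorem gg_continuous (β : ℝ) : Continuous (gg β) := by
  unfold gg
  refine Complex.continuous_ofReal.comp ?_
  exact (by fun_prop : Continuous fun v : ℝ => Real.exp (-β * v)).mul
    (om_continuous.comp (by fun_prop))

private theorem gg_of_nonpos (β : ℝ) {v : ℝ} (hv : v ≤ 0) : gg β v = 0 := by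
  unfold gg
  rw [om_eq_zero (Real.one_le_exp (by linarith)), mul_zero, Complex.ofReal_zero]

/-- the exponent -/
private noncomputable def aa (β w : ℝ) (j : ℝ) : ℂ := -(((β + j : ℝ) : ℂ) + (2 * Real.pi * w : ℝ) * Complex.I)

private theorem aa_re (β w j : ℝ) : (aa β w j).re = -(β + j) := by
  unfold aa; simp

private theorem gg_of_pos (β w : ℝ) {v : ℝ} (hv : 0 < v) :
    Complex.exp ((-2 * Real.pi * v * w : ℝ) * Complex.I) • gg β v =
      Complex.exp (aa β w 1 * v) - 2 * Complex.exp (aa β w 2 * v) + Complex.exp (aa β w 3 * v) := by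
  have h1 : om (Real.exp (-v)) = Real.exp (-v) * (1 - Real.exp (-v)) ^ 2 := by
    unfold om
    rw [if_pos ⟨(Real.exp_pos _).le, Real.exp_le_one_iff.2 (by linarith)⟩]
  unfold gg
  rw [h1, smul_eq_mul]
  have e : ∀ j : ℕ, Complex.exp (aa β w j * v) =
      Complex.exp ((-2 * Real.pi * v * w : ℝ) * Complex.I) *
        ((Real.exp (-β * v) * Real.exp (-v) ^ j : ℝ) : ℂ) := by
    intro j
    rw [← Real.exp_nat_mul, ← Real.exp_add, Complex.ofReal_exp, ← Complex.exp_add]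
    congr 1
    unfold aa
    push_cast
    ring
  have e1 := e 1
  have e2 := e 2
  have e3 := e 3
  push_cast at e1 e2 e3
  rw [e1, e2, e3]
  push_cast
  ring

private theorem intOn_aa (β w j : ℝ) (h : 0 < β + j) :
    IntegrableOn (fun v : ℝ => Complex.exp (aa β w j * v)) (Set.Ioi 0) :=
  integrableOn_exp_mul_complex_Ioi (by rw [aa_re]; linarith) 0

private theorem int_aa (β w j : ℝ) (h : 0 < β + j) :
    ∫ v : ℝ in Set.Ioi 0, Complex.exp (aa β w j * v) =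
      1 / (((β + j : ℝ) : ℂ) + (2 * Real.pi * w : ℝ) * Complex.I) := by
  rw [integral_exp_mul_complex_Ioi (by rw [aa_re]; linarith) 0]
  unfold aa
  rw [Complex.ofReal_zero, mul_zero, Complex.exp_zero, neg_div_neg_eq]

private theorem gg_integrable (β : ℝ) (hβ : 0 ≤ β) : Integrable (gg β) := by
  have h1 : gg β = (Set.Ioi (0 : ℝ)).indicator (gg β) := by
    funext v
    by_cases hv : v ∈ Set.Ioi (0 : ℝ)
    · rw [Set.indicator_of_mem hv]
    · rw [Set.indicator_of_notMem hv, gg_of_nonpos β (not_lt.1 hv)]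
  rw [h1, integrable_indicator_iff measurableSet_Ioi]
  have h2 : IntegrableOn (fun v : ℝ => Complex.exp (aa β 0 1 * v) - 2 * Complex.exp (aa β 0 2 * v)
      + Complex.exp (aa β 0 3 * v)) (Set.Ioi 0) :=
    ((intOn_aa β 0 1 (by linarith)).sub ((intOn_aa β 0 2 (by linarith)).const_mul 2)).add
      (intOn_aa β 0 3 (by linarith))
  refine h2.congr_fun (fun v hv => ?_) measurableSet_Ioi
  have := gg_of_pos β 0 hv
  simp only [mul_zero, Complex.ofReal_zero, zero_mul, Complex.exp_zero, one_smul] at this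
  exact this.symm

private theorem gg_fourier (β : ℝ) (hβ : 0 ≤ β) (w : ℝ) :
    FourierTransform.fourier (gg β) w = KK β (2 * Real.pi * w) := by
  rw [Real.fourier_real_eq_integral_exp_smul]
  have h1 : ∫ v : ℝ, Complex.exp ((-2 * Real.pi * v * w : ℝ) * Complex.I) • gg β v =
      ∫ v : ℝ in Set.Ioi 0, (Complex.exp (aa β w 1 * v) - 2 * Complex.exp (aa β w 2 * v) +
        Complex.exp (aa β w 3 * v)) := by
    rw [← setIntegral_eq_integral_of_forall_compl_eq_zero (s := Set.Ioi (0 : ℝ))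
      (fun v hv => by rw [gg_of_nonpos β (not_lt.1 hv), smul_zero])]
    exact setIntegral_congr_fun measurableSet_Ioi fun v hv => gg_of_pos β w hv
  rw [h1, integral_add, integral_sub, integral_const_mul, int_aa β w 1 (by linarith),
    int_aa β w 2 (by linarith), int_aa β w 3 (by linarith)]
  · rw [KK_eq]
    have n1 := ne_zero_of_pos (show 0 < β + 1 by linarith) (2 * Real.pi * w)
    have n2 := ne_zero_of_pos (show 0 < β + 2 by linarith) (2 * Real.pi * w)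
    have n3 := ne_zero_of_pos (show 0 < β + 3 by linarith) (2 * Real.pi * w)
    push_cast at n1 n2 n3 ⊢
    field_simp
    ring
  · exact intOn_aa β w 1 (by linarith)
  · exact (intOn_aa β w 2 (by linarith)).const_mul 2
  · exact (intOn_aa β w 1 (by linarith)).sub ((intOn_aa β w 2 (by linarith)).const_mul 2)
  · exact intOn_aa β w 3 (by linarith)

/-- The Fourier representation. -/
theorem om_fourier (β v : ℝ) (hβ : 0 ≤ β) :
    ((Real.exp (-β * v) * om (Real.exp (-v)) : ℝ) : ℂ)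
      = (1 / (2 * Real.pi)) * ∫ t : ℝ, KK β t * Complex.exp (t * v * Complex.I) := by
  have hF : FourierTransform.fourier (gg β) = fun w => KK β (2 * Real.pi * w) := by
    funext w; exact gg_fourier β hβ w
  have hint : Integrable (FourierTransform.fourier (gg β)) := by
    rw [hF]
    exact (KK_integrable β hβ).comp_mul_left' (by positivity)
  have hinv := congrFun ((gg_continuous β).fourierInv_fourier_eq (gg_integrable β hβ) hint) v
  rw [hF, Real.fourierInv_eq'] at hinv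
  show gg β v = _
  rw [← hinv]
  have h1 := Measure.integral_comp_mul_left
    (fun t : ℝ => KK β t * Complex.exp (t * v * Complex.I)) (2 * Real.pi)
  have h2 : ∫ w : ℝ, Complex.exp ((2 * Real.pi * inner ℝ w v : ℝ) * Complex.I) •
      KK β (2 * Real.pi * w) = ∫ w : ℝ, KK β (2 * Real.pi * w) *
        Complex.exp (((2 * Real.pi * w : ℝ) : ℂ) * v * Complex.I) := by
    refine integral_congr_ae (Filter.Eventually.of_forall fun w => ?_)
    simp only [smul_eq_mul]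
    rw [mul_comm]
    congr 2
    simp only [RCLike.inner_apply, conj_trivial]
    push_cast
    ring
  rw [h2, h1, abs_of_pos (by positivity)]
  rw [Complex.real_smul]
  push_cast
  ring

/-- In terms of `N / n`. -/
theorem om_fourier' (β : ℝ) (hβ : 0 ≤ β) {N n : ℕ} (hN : 1 ≤ N) (hn : 1 ≤ n) :
    ((om ((n : ℝ) / N) : ℝ) : ℂ)
      = (((N : ℝ) / n) ^ β : ℝ) * ((1 / (2 * Real.pi)) *
        ∫ t : ℝ, KK β t * ((N : ℂ) ^ (t * Complex.I) * (n : ℂ) ^ (-(t * Complex.I)))) := by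
  have hN0 : (0 : ℝ) < N := by exact_mod_cast hN
  have hn0 : (0 : ℝ) < n := by exact_mod_cast hn
  set v : ℝ := Real.log (N / n) with hv
  have hexp : Real.exp (-v) = n / N := by
    rw [Real.exp_neg, hv, Real.exp_log (by positivity), inv_div]
  have hβv : Real.exp (-β * v) = (((N : ℝ) / n) ^ β)⁻¹ := by
    rw [Real.rpow_def_of_pos (by positivity), ← Real.exp_neg]
    congr 1
    rw [← hv]; ring
  have h := om_fourier β v hβ
  rw [hexp, hβv] at h
  have hint : ∫ t : ℝ, KK β t * ((N : ℂ) ^ (t * Complex.I) * (n : ℂ) ^ (-(t * Complex.I))) =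
      ∫ t : ℝ, KK β t * Complex.exp (t * v * Complex.I) := by
    refine integral_congr_ae (Filter.Eventually.of_forall fun t => ?_)
    simp only
    congr 1
    have hNc : (N : ℂ) ≠ 0 := by exact_mod_cast hN0.ne'
    have hnc : (n : ℂ) ≠ 0 := by exact_mod_cast hn0.ne'
    rw [Complex.cpow_def_of_ne_zero hNc, Complex.cpow_def_of_ne_zero hnc, ← Complex.exp_add]
    congr 1
    rw [hv, Real.log_div hN0.ne' hn0.ne', Complex.natCast_log.symm, Complex.natCast_log.symm]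
    push_cast
    ring
  rw [hint, ← h]
  have hpos : (0 : ℝ) < ((N : ℝ) / n) ^ β := by positivity
  rw [← Complex.ofReal_mul]
  congr 1
  field_simp

end Pool.Agent.H91.PK

end

section

/-!
# VK SmTwo: smooth sums from a bound on one vertical line

Proof (as in `EHA/SwG.lean`, `smooth_gen`).  `om(n/N) = (1/2π) ∫ KK β τ (N/n)^{β+iτ} dτ` (`om_fourier'` in `PK/Om.lean`), interchange the (absolutely
convergent) sum and integral: `∑_{n≤N} a_n om(n/N) = (1/2π) ∫ KK β τ N^{β+iτ} LSeries a (β+iτ) dτ`.  `‖KK β τ‖ ≤ 0.4386/(1+τ^2)` (`norm_KK_le`) on `|τ| ≤ T`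
and `‖KK β τ‖ ≤ 2/|τ|^3` (`norm_KK_le'`) on `|τ| > T`: `∫_{|τ|>T} 2/|τ|^3 = 2/T^2`.
-/

set_option autoImplicit false

namespace Pool.Agent.H97.VK

open Finset
open Pool.Agent.H91.PK
open MeasureTheory

/-- the summand -/
private noncomputable def smTwo_F (a : ℕ → ℂ) (β : ℝ) (N n : ℕ) (t : ℝ) : ℂ :=
  KK β t * ((N : ℂ) ^ (t * Complex.I) * LSeries.term a ((β : ℂ) + t * Complex.I) n)

private theorem smTwo_F_eq (a : ℕ → ℂ) (β : ℝ) (N n : ℕ) (hn : 1 ≤ n) (t : ℝ) :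
    smTwo_F a β N n t = (a n / (n : ℂ) ^ (β : ℂ)) *
      (KK β t * ((N : ℂ) ^ (t * Complex.I) * (n : ℂ) ^ (-(t * Complex.I)))) := by
  unfold smTwo_F
  have hn0 : (n : ℂ) ≠ 0 := by exact_mod_cast (by omega : n ≠ 0)
  rw [LSeries.term_of_ne_zero (by omega), Complex.cpow_add _ _ hn0, Complex.cpow_neg]
  have h1 : (n : ℂ) ^ (β : ℂ) ≠ 0 := by
    rw [Complex.cpow_def_of_ne_zero hn0]; exact Complex.exp_ne_zero _
  have h2 : (n : ℂ) ^ ((t : ℂ) * Complex.I) ≠ 0 := by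
    rw [Complex.cpow_def_of_ne_zero hn0]; exact Complex.exp_ne_zero _
  field_simp

private theorem smTwo_norm_F (a : ℕ → ℂ) (β : ℝ) (N n : ℕ) (hN : 1 ≤ N) (t : ℝ) :
    ‖smTwo_F a β N n t‖ = ‖LSeries.term a (β : ℂ) n‖ * ‖KK β t‖ := by
  unfold smTwo_F
  rw [norm_mul, norm_mul, Complex.norm_natCast_cpow_of_pos (by omega)]
  have h1 : ((t : ℂ) * Complex.I).re = 0 := by simp
  have h2 : ‖LSeries.term a ((β : ℂ) + t * Complex.I) n‖ = ‖LSeries.term a (β : ℂ) n‖ := by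
    rw [LSeries.norm_term_eq, LSeries.norm_term_eq]
    simp
  rw [h1, Real.rpow_zero, one_mul, h2, mul_comm]

private theorem smTwo_F_cont (a : ℕ → ℂ) (β : ℝ) (hβ : 0 ≤ β) (N n : ℕ) (hN : 1 ≤ N) :
    Continuous (smTwo_F a β N n) := by
  rcases Nat.eq_zero_or_pos n with rfl | hn
  · have : smTwo_F a β N 0 = fun _ => 0 := by
      funext t; unfold smTwo_F; rw [LSeries.term_zero, mul_zero, mul_zero]
    rw [this]; exact continuous_const
  · have : smTwo_F a β N n = fun t : ℝ => (a n / (n : ℂ) ^ (β : ℂ)) *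
      (KK β t * ((N : ℂ) ^ (t * Complex.I) * (n : ℂ) ^ (-(t * Complex.I)))) := by
      funext t; exact smTwo_F_eq a β N n hn t
    rw [this]
    have hn0 : (n : ℂ) ≠ 0 := by exact_mod_cast (by omega : n ≠ 0)
    have hN0 : (N : ℂ) ≠ 0 := by exact_mod_cast (by omega : N ≠ 0)
    refine continuous_const.mul ((KK_continuous β hβ).mul (Continuous.mul ?_ ?_))
    · exact Continuous.const_cpow (by fun_prop) (Or.inl hN0)
    · exact Continuous.const_cpow (by fun_prop) (Or.inl hn0)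

private theorem smTwo_F_int (a : ℕ → ℂ) (β : ℝ) (hβ : 0 ≤ β) (N n : ℕ) (hN : 1 ≤ N) :
    Integrable (smTwo_F a β N n) := by
  refine Integrable.mono' ((KK_integrable β hβ).norm.const_mul ‖LSeries.term a (β : ℂ) n‖)
    (smTwo_F_cont a β hβ N n hN).aestronglyMeasurable (Filter.Eventually.of_forall fun t => ?_)
  rw [smTwo_norm_F a β N n hN t]

private theorem smTwo_identity (a : ℕ → ℂ) (β : ℝ) (hβ : 0 ≤ β) (N : ℕ) (hN : 1 ≤ N)
    (hs : LSeriesSummable a (β : ℂ)) :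
    ∑ n ∈ Icc 1 N, a n * ((om ((n : ℝ) / N) : ℝ) : ℂ) =
      (((N : ℝ) ^ β : ℝ) : ℂ) * (1 / (2 * Real.pi)) *
        ∫ t : ℝ, KK β t * ((N : ℂ) ^ (t * Complex.I) * LSeries a ((β : ℂ) + t * Complex.I)) := by
  have hN0 : (0 : ℝ) < N := by exact_mod_cast hN
  have h1 : HasSum (fun n => ∫ t, smTwo_F a β N n t) (∫ t, ∑' n, smTwo_F a β N n t) := by
    apply hasSum_integral_of_summable_integral_norm (smTwo_F_int a β hβ N · hN)
    have h2 : (fun n => ∫ t, ‖smTwo_F a β N n t‖) =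
        fun n => ‖LSeries.term a (β : ℂ) n‖ * ∫ t, ‖KK β t‖ := by
      funext n
      simp only [smTwo_norm_F a β N n hN]
      rw [integral_const_mul]
    rw [h2]
    exact (Summable.norm hs).mul_right _
  have h3 : ∀ t : ℝ, ∑' n, smTwo_F a β N n t =
      KK β t * ((N : ℂ) ^ (t * Complex.I) * LSeries a ((β : ℂ) + t * Complex.I)) := by
    intro t
    unfold smTwo_F LSeries
    rw [tsum_mul_left, tsum_mul_left]
  simp only [h3] at h1
  have h4 := h1.mul_left ((((N : ℝ) ^ β : ℝ) : ℂ) * (1 / (2 * Real.pi)))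
  have hval : ∀ n : ℕ, 1 ≤ n → (((N : ℝ) ^ β : ℝ) : ℂ) * (1 / (2 * Real.pi)) *
      (∫ t, smTwo_F a β N n t) = a n * ((om ((n : ℝ) / N) : ℝ) : ℂ) := by
    intro n hn
    have hn0 : (0 : ℝ) < n := by exact_mod_cast hn
    have e1 : ∫ t, smTwo_F a β N n t = (a n / (n : ℂ) ^ (β : ℂ)) *
        ∫ t : ℝ, KK β t * ((N : ℂ) ^ (t * Complex.I) * (n : ℂ) ^ (-(t * Complex.I))) := by
      simp only [smTwo_F_eq a β N n hn]
      rw [integral_const_mul]
    rw [e1, om_fourier' β hβ hN hn, Real.div_rpow hN0.le hn0.le]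
    have e2 : (n : ℂ) ^ (β : ℂ) = (((n : ℝ) ^ β : ℝ) : ℂ) := by
      rw [Complex.ofReal_cpow hn0.le]; simp
    rw [e2]
    push_cast
    ring
  have h5 : HasSum (fun n => (((N : ℝ) ^ β : ℝ) : ℂ) * (1 / (2 * Real.pi)) *
      (∫ t, smTwo_F a β N n t)) (∑ n ∈ Icc 1 N, (((N : ℝ) ^ β : ℝ) : ℂ) * (1 / (2 * Real.pi)) *
      (∫ t, smTwo_F a β N n t)) := by
    apply hasSum_sum_of_ne_finset_zero
    intro n hn
    rcases Nat.eq_zero_or_pos n with rfl | hn1
    · have : ∀ t, smTwo_F a β N 0 t = 0 := by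
        intro t; unfold smTwo_F; rw [LSeries.term_zero, mul_zero, mul_zero]
      simp only [this, integral_zero, mul_zero]
    · rw [hval n hn1]
      have hnN : N < n := by
        by_contra h
        exact hn (Finset.mem_Icc.2 ⟨hn1, not_lt.1 h⟩)
      rw [om_eq_zero, Complex.ofReal_zero, mul_zero]
      rw [le_div_iff₀ hN0, one_mul]
      exact_mod_cast hnN.le
  rw [← h5.unique h4]
  apply Finset.sum_congr rfl
  intro n hn
  rw [hval n (Finset.mem_Icc.1 hn).1]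

private theorem smTwo_tail {T t : ℝ} (hT : 1 ≤ T) (ht : T < |t|) :
    2 / |t| ^ 3 ≤ 16 * (1 / T ^ 3 * (1 + ‖t / T‖) ^ (-(3 : ℝ))) := by
  have hT0 : 0 < T := by linarith
  have ht0 : 0 < |t| := by linarith
  have h1 : (1 + ‖t / T‖) ^ (-(3 : ℝ)) = 1 / (1 + |t| / T) ^ 3 := by
    rw [Real.norm_eq_abs, abs_div, abs_of_pos hT0, Real.rpow_neg (by positivity), one_div]
    congr 1
    exact_mod_cast Real.rpow_natCast (1 + |t| / T) 3
  have h2 : 1 / T ^ 3 * (1 / (1 + |t| / T) ^ 3) = 1 / (T + |t|) ^ 3 := by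
    have h3 : T + |t| = T * (1 + |t| / T) := by field_simp
    rw [h3, mul_pow]
    have h4 : (1 + |t| / T) ≠ 0 := by positivity
    field_simp
  rw [h1, h2, mul_one_div, div_le_div_iff₀ (by positivity) (by positivity)]
  have h5 : (T + |t|) ^ 3 ≤ (2 * |t|) ^ 3 := pow_le_pow_left₀ (by positivity) (by linarith) 3
  calc 2 * (T + |t|) ^ 3 ≤ 2 * (2 * |t|) ^ 3 := by linarith
    _ = 16 * |t| ^ 3 := by ring

theorem smooth_two : ∃ C : ℝ, 1 ≤ C ∧ ∀ (a : ℕ → ℂ) (β B1 B2 T : ℝ), 1 < β → β ≤ 2 → LSeriesSummable a (β : ℂ) →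
    0 ≤ B1 → 0 ≤ B2 → 1 ≤ T → (∀ τ : ℝ, |τ| ≤ T → ‖LSeries a (β + τ * Complex.I)‖ ≤ B1) →
    (∀ τ : ℝ, ‖LSeries a (β + τ * Complex.I)‖ ≤ B2) → ∀ N : ℕ, 1 ≤ N →
    ‖∑ n ∈ Icc 1 N, a n * ((om ((n : ℝ) / N) : ℝ) : ℂ)‖ ≤ C * (N : ℝ) ^ β * (B1 + B2 / T ^ 2) := by
  obtain ⟨I3, hI3⟩ : ∃ I3 : ℝ, I3 = ∫ t : ℝ, (1 + ‖t‖) ^ (-(3 : ℝ)) := ⟨_, rfl⟩
  have hI3nn : 0 ≤ I3 := by
    rw [hI3]; exact integral_nonneg (fun t => by positivity)
  have hint3 : Integrable (fun t : ℝ => (1 + ‖t‖) ^ (-(3 : ℝ))) :=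
    integrable_one_add_norm (by simp)
  refine ⟨0.4386 * Real.pi + 16 * I3 + 1, ?_, ?_⟩
  · have := Real.pi_pos
    have h1 : 0 ≤ 0.4386 * Real.pi := by positivity
    linarith
  intro a β B1 B2 T hβ1 hβ2 hs hB1 hB2 hT hb1 hb2 N hN
  have hT0 : 0 < T := by linarith
  have hN0 : (0 : ℝ) < N := by exact_mod_cast (by omega : 0 < N)
  rw [smTwo_identity a β (by linarith) N hN hs]
  have hintT : Integrable (fun t : ℝ => (1 + ‖t / T‖) ^ (-(3 : ℝ))) :=
    hint3.comp_div hT0.ne'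
  have hintval : ∫ t : ℝ, (1 + ‖t / T‖) ^ (-(3 : ℝ)) = T * I3 := by
    have := MeasureTheory.Measure.integral_comp_div (fun t : ℝ => (1 + ‖t‖) ^ (-(3 : ℝ))) T
    rw [this, abs_of_pos hT0, smul_eq_mul, hI3]
  have hbound : ‖∫ t : ℝ, KK β t * ((N : ℂ) ^ (t * Complex.I) *
      LSeries a ((β : ℂ) + t * Complex.I))‖ ≤ ∫ t : ℝ, (B1 * (0.4386 * (1 + t ^ 2)⁻¹) +
        B2 * (16 * (1 / T ^ 3 * (1 + ‖t / T‖) ^ (-(3 : ℝ))))) := by
    apply norm_integral_le_of_norm_le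
      (((integrable_inv_one_add_sq.const_mul 0.4386).const_mul B1).add
        (((hintT.const_mul (1 / T ^ 3)).const_mul 16).const_mul B2))
    refine Filter.Eventually.of_forall fun t => ?_
    rw [norm_mul, norm_mul, Complex.norm_natCast_cpow_of_pos (by omega)]
    have h1 : ((t : ℂ) * Complex.I).re = 0 := by simp
    rw [h1, Real.rpow_zero, one_mul]
    have hnn1 : 0 ≤ B1 * (0.4386 * (1 + t ^ 2)⁻¹) := by positivity
    have hnn2 : 0 ≤ B2 * (16 * (1 / T ^ 3 * (1 + ‖t / T‖) ^ (-(3 : ℝ)))) := by positivity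
    rcases le_or_gt |t| T with ht | ht
    · have h2 : ‖KK β t‖ ≤ 0.4386 * (1 + t ^ 2)⁻¹ := by
        have := norm_KK_le β t (by linarith)
        rwa [div_eq_mul_inv] at this
      have h3 := hb1 t ht
      calc ‖KK β t‖ * ‖LSeries a ((β : ℂ) + t * Complex.I)‖
          ≤ 0.4386 * (1 + t ^ 2)⁻¹ * B1 := by gcongr
        _ = B1 * (0.4386 * (1 + t ^ 2)⁻¹) := by ring
        _ ≤ _ := le_add_of_nonneg_right hnn2
    · have ht0 : t ≠ 0 := by
        intro h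
        rw [h, abs_zero] at ht
        linarith
      have h2 := (norm_KK_le' β t (by linarith) ht0).trans (smTwo_tail hT ht)
      have h3 := hb2 t
      calc ‖KK β t‖ * ‖LSeries a ((β : ℂ) + t * Complex.I)‖
          ≤ 16 * (1 / T ^ 3 * (1 + ‖t / T‖) ^ (-(3 : ℝ))) * B2 := by gcongr
        _ = B2 * (16 * (1 / T ^ 3 * (1 + ‖t / T‖) ^ (-(3 : ℝ)))) := by ring
        _ ≤ _ := le_add_of_nonneg_left hnn1
  rw [integral_add ((integrable_inv_one_add_sq.const_mul 0.4386).const_mul B1)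
        (((hintT.const_mul (1 / T ^ 3)).const_mul 16).const_mul B2),
    integral_const_mul, integral_const_mul, integral_univ_inv_one_add_sq,
    integral_const_mul, integral_const_mul, integral_const_mul, hintval] at hbound
  have hval : B1 * (0.4386 * Real.pi) + B2 * (16 * (1 / T ^ 3 * (T * I3))) ≤
      (0.4386 * Real.pi + 16 * I3 + 1) * (B1 + B2 / T ^ 2) := by
    have h1 : B2 * (16 * (1 / T ^ 3 * (T * I3))) = 16 * I3 * (B2 / T ^ 2) := by
      field_simp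
    rw [h1]
    have h2 : 0 ≤ B2 / T ^ 2 := by positivity
    have h3 : 0 ≤ 0.4386 * Real.pi := by positivity
    have h4 : 0 ≤ 16 * I3 * B1 := by positivity
    have h5 : 0 ≤ 0.4386 * Real.pi * (B2 / T ^ 2) := by positivity
    linarith
  rw [norm_mul, norm_mul]
  have e1 : ‖(((N : ℝ) ^ β : ℝ) : ℂ)‖ = (N : ℝ) ^ β := by
    rw [Complex.norm_real, Real.norm_of_nonneg (by positivity)]
  have e2 : ‖(1 / (2 * Real.pi) : ℂ)‖ = 1 / (2 * Real.pi) := by
    have : (1 / (2 * Real.pi) : ℂ) = ((1 / (2 * Real.pi) : ℝ) : ℂ) := by push_cast; rfl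
    rw [this, Complex.norm_real, Real.norm_of_nonneg (by positivity)]
  rw [e1, e2]
  have hpi0 : 0 < 1 / (2 * Real.pi) := by positivity
  have hpi1 : 1 / (2 * Real.pi) ≤ 1 := by
    rw [div_le_one (by positivity)]
    have := Real.pi_gt_three
    linarith
  have hC0 : 0 ≤ (0.4386 * Real.pi + 16 * I3 + 1) * (B1 + B2 / T ^ 2) := by positivity
  calc (N : ℝ) ^ β * (1 / (2 * Real.pi)) * ‖∫ t : ℝ, KK β t * ((N : ℂ) ^ (t * Complex.I) *
        LSeries a ((β : ℂ) + t * Complex.I))‖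
      ≤ (N : ℝ) ^ β * 1 * ((0.4386 * Real.pi + 16 * I3 + 1) * (B1 + B2 / T ^ 2)) := by
        gcongr
        exact hbound.trans hval
    _ = (0.4386 * Real.pi + 16 * I3 + 1) * (N : ℝ) ^ β * (B1 + B2 / T ^ 2) := by ring

end Pool.Agent.H97.VK

end

section

/-!
The large sieve inequality in its direct form.
-/

set_option autoImplicit false

namespace Pool.Agent.H92.EH

open Finset

/-- Direct form of the large sieve inequality. -/
theorem large_sieve {ι : Type*} [DecidableEq ι] (J : Finset ι) (α : ι → ℝ) (a : ℕ → ℂ)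
    (M N : ℕ) (hN : N ≤ M) (hM : 0 < M)
    (hsp : ∀ i ∈ J, ∀ j ∈ J, i ≠ j → ∀ m : ℤ, (1 : ℝ) / M ≤ |α i - α j - m|) :
    ∑ j ∈ J, ‖∑ n ∈ Icc 1 N, a n * e (n * α j)‖ ^ 2 ≤ 5 * M * ∑ n ∈ Icc 1 N, ‖a n‖ ^ 2 := by
  set S : ι → ℂ := fun j => ∑ n ∈ Icc 1 N, a n * e (n * α j) with hS
  set T : ℝ := ∑ j ∈ J, ‖S j‖ ^ 2 with hT
  set B : ℝ := ∑ n ∈ Icc 1 N, ‖a n‖ ^ 2 with hB
  have hT0 : 0 ≤ T := sum_nonneg fun _ _ => by positivity
  have hB0 : 0 ≤ B := sum_nonneg fun _ _ => by positivity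
  have hM' : (0 : ℝ) < M := by exact_mod_cast hM
  have h1 : (T : ℂ) = ∑ n ∈ Icc 1 N, a n * ∑ j ∈ J, (starRingEnd ℂ) (S j) * e (n * α j) := by
    rw [hT, Complex.ofReal_sum]
    have h2 : ∀ j, ((‖S j‖ ^ 2 : ℝ) : ℂ)
        = ∑ n ∈ Icc 1 N, a n * ((starRingEnd ℂ) (S j) * e (n * α j)) := by
      intro j
      push_cast
      rw [← Complex.mul_conj']
      nth_rewrite 1 [hS]
      simp only
      rw [sum_mul]
      refine sum_congr rfl fun n _ => ?_
      ring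
    simp_rw [h2]
    rw [sum_comm]
    refine sum_congr rfl fun n _ => ?_
    rw [mul_sum]
  have h3 : T ≤ ∑ n ∈ Icc 1 N, ‖a n‖ * ‖∑ j ∈ J, (starRingEnd ℂ) (S j) * e (n * α j)‖ := by
    have : T = ‖(T : ℂ)‖ := by rw [Complex.norm_real, Real.norm_of_nonneg hT0]
    rw [this, h1]
    refine (norm_sum_le _ _).trans (le_of_eq ?_)
    refine sum_congr rfl fun n _ => ?_
    rw [norm_mul]
  have h4 : T ^ 2 ≤ B * (5 * M * T) := by
    calc T ^ 2 ≤ (∑ n ∈ Icc 1 N, ‖a n‖ * ‖∑ j ∈ J, (starRingEnd ℂ) (S j) * e (n * α j)‖) ^ 2 :=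
          pow_le_pow_left₀ hT0 h3 2
      _ ≤ (∑ n ∈ Icc 1 N, ‖a n‖ ^ 2)
          * ∑ n ∈ Icc 1 N, ‖∑ j ∈ J, (starRingEnd ℂ) (S j) * e (n * α j)‖ ^ 2 :=
          sum_mul_sq_le_sq_mul_sq _ _ _
      _ ≤ B * (5 * M * T) := by
          apply mul_le_mul_of_nonneg_left _ hB0
          refine (dual_large_sieve J α (fun j => (starRingEnd ℂ) (S j)) M N hN hM hsp).trans ?_
          simp only [RCLike.norm_conj]
          exact le_rfl
  rcases hT0.eq_or_lt with h | h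
  · rw [← h]
    positivity
  · have h5 : T * T ≤ (5 * M * B) * T := by nlinarith
    exact le_of_mul_le_mul_right h5 h

end Pool.Agent.H92.EH

end

section

/-!
# MID Net: a small net of large frequencies for an interval (large sieve)

Proof.  Let `G = {γ : ν ≤ ‖S(γ)‖}`, `S(γ) = ∑_{k ∈ [u,u+w)} f(k) ee(-kγ)`.  A finite set `Γ ⊆ G` with `nz (β - β') > 1/w` for all distinct
`β, β' ∈ Γ` satisfies `|Γ| ν^2 ≤ ∑_{β ∈ Γ} ‖S(β)‖^2 ≤ 5 w S` by `Pool.Agent.H92.EH.large_sieve` (`J = Γ`, `α β = -β`,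
`a n = f (u + n - 1)`, `M = N = w`; `‖S(β)‖ = ‖∑_{n=1}^w a_n e(n α)‖` since the factor `e((u-1)β)` has modulus `1`;
`|α_i - α_j - m| ≥ nz(..) ≥ 1/w`, `nz_le_of`, `nz_neg`).  So the cardinalities are bounded; take `Γ` of maximal cardinality (`Nat.findGreatest` or
strong induction).  If `γ ∈ G` had `nz (γ - β) > 1/w` for all `β ∈ Γ`, then `Γ ∪ {γ}` would be larger (`γ ∉ Γ` because `nz 0 = 0`).
-/

set_option autoImplicit false

namespace Pool.Agent.H53.MID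

open Finset
open Pool.Agent.H91.PK (ee)

/-- the exponential sum -/
private noncomputable def Net_S (f : ℕ → ℝ) (u w : ℕ) (γ : ℝ) : ℂ :=
  ∑ k ∈ Ico u (u + w), (f k : ℂ) * ee (-(k * γ))

private theorem Net_norm_eq (f : ℕ → ℝ) (u w : ℕ) (γ : ℝ) :
    ‖Net_S f u w γ‖ = ‖∑ n ∈ Icc 1 w, (f (u + n - 1) : ℂ) * Pool.Agent.H92.EH.e (n * (-γ))‖ := by
  have h1 : Net_S f u w γ = ee (-(((u : ℝ) - 1) * γ)) *
      ∑ n ∈ Icc 1 w, (f (u + n - 1) : ℂ) * Pool.Agent.H92.EH.e (n * (-γ)) := by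
    unfold Net_S
    have h2 : Ico u (u + w) = (Icc 1 w).image (fun n => u + n - 1) := by
      ext k
      rw [Finset.mem_Ico, Finset.mem_image]
      constructor
      · rintro ⟨h3, h4⟩
        exact ⟨k + 1 - u, by rw [Finset.mem_Icc]; omega, by omega⟩
      · rintro ⟨n, hn, rfl⟩
        rw [Finset.mem_Icc] at hn
        omega
    rw [h2, Finset.sum_image, Finset.mul_sum]
    · refine Finset.sum_congr rfl fun n hn => ?_
      rw [Finset.mem_Icc] at hn
      have h3 : ((u + n - 1 : ℕ) : ℝ) = (u : ℝ) - 1 + n := by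
        rw [Nat.cast_sub (by omega)]
        push_cast
        ring
      have h4 : ee (-(((u + n - 1 : ℕ) : ℝ) * γ)) =
          ee (-(((u : ℝ) - 1) * γ)) * Pool.Agent.H92.EH.e (n * (-γ)) := by
        rw [h3]
        unfold ee Pool.Agent.H92.EH.e
        rw [← Complex.exp_add]
        congr 1
        push_cast
        ring
      rw [h4]
      ring
    · intro a ha b hb hab
      simp only [Finset.coe_Icc, Set.mem_Icc] at ha hb
      simp only at hab
      omega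
  have h2 : ‖ee (-(((u : ℝ) - 1) * γ))‖ = 1 := by
    unfold ee
    have h3 : (2 * Real.pi * ((-(((u : ℝ) - 1) * γ) : ℝ) : ℂ) * Complex.I) =
        ((2 * Real.pi * (-(((u : ℝ) - 1) * γ)) : ℝ) : ℂ) * Complex.I := by
      push_cast
      ring
    rw [h3, Complex.norm_exp_ofReal_mul_I]
  rw [h1, norm_mul, h2, one_mul]

private theorem Net_card (f : ℕ → ℝ) (u w : ℕ) (hw : 1 ≤ w) (ν S : ℝ) (hν : 0 < ν)
    (hS : ∑ k ∈ Ico u (u + w), f k ^ 2 ≤ S) (Γ : Finset ℝ)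
    (h1 : ∀ β ∈ Γ, ν ≤ ‖Net_S f u w β‖)
    (h2 : ∀ β ∈ Γ, ∀ β' ∈ Γ, β ≠ β' → 1 / (w : ℝ) < nz (β - β')) :
    (Γ.card : ℝ) ≤ 5 * w * S / ν ^ 2 := by
  have hls := Pool.Agent.H92.EH.large_sieve Γ (fun β => -β)
    (fun n => ((f (u + n - 1) : ℝ) : ℂ)) w w le_rfl (by omega) (by
      intro i hi j hj hij m
      have h3 := h2 j hj i hi hij.symm
      have h4 := nz_le_of (j - i) m
      have h5 : -i - -j - (m : ℝ) = j - i - m := by ring
      rw [h5]
      linarith)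
  have h3 : ∑ n ∈ Icc 1 w, ‖((f (u + n - 1) : ℝ) : ℂ)‖ ^ 2 ≤ S := by
    refine le_trans (le_of_eq ?_) hS
    have h4 : Ico u (u + w) = (Icc 1 w).image (fun n => u + n - 1) := by
      ext k
      rw [Finset.mem_Ico, Finset.mem_image]
      constructor
      · rintro ⟨h3, h4⟩
        exact ⟨k + 1 - u, by rw [Finset.mem_Icc]; omega, by omega⟩
      · rintro ⟨n, hn, rfl⟩
        rw [Finset.mem_Icc] at hn
        omega
    rw [h4, Finset.sum_image]
    · refine Finset.sum_congr rfl fun n _ => ?_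
      rw [Complex.norm_real, Real.norm_eq_abs, sq_abs]
    · intro a ha b hb hab
      simp only [Finset.coe_Icc, Set.mem_Icc] at ha hb
      simp only at hab
      omega
  have h4 : (Γ.card : ℝ) * ν ^ 2 ≤ ∑ j ∈ Γ, ‖∑ n ∈ Icc 1 w, ((f (u + n - 1) : ℝ) : ℂ) *
      Pool.Agent.H92.EH.e (n * (-j))‖ ^ 2 := by
    rw [← nsmul_eq_mul, ← Finset.sum_const]
    refine Finset.sum_le_sum fun β hβ => ?_
    rw [← Net_norm_eq]
    exact pow_le_pow_left₀ hν.le (h1 β hβ) 2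
  rw [le_div_iff₀ (by positivity)]
  refine h4.trans (hls.trans ?_)
  exact mul_le_mul_of_nonneg_left h3 (by positivity)

theorem net (f : ℕ → ℝ) (u w : ℕ) (hw : 1 ≤ w) (ν S : ℝ) (hν : 0 < ν) (hS : ∑ k ∈ Ico u (u + w), f k ^ 2 ≤ S) :
    ∃ Γ : Finset ℝ, (Γ.card : ℝ) ≤ 5 * w * S / ν ^ 2 ∧
      ∀ γ : ℝ, ν ≤ ‖∑ k ∈ Ico u (u + w), (f k : ℂ) * ee (-(k * γ))‖ → ∃ β ∈ Γ, nz (γ - β) ≤ 1 / w := by
  classical
  set Gd : Finset ℝ → Prop := fun Γ => (∀ β ∈ Γ, ν ≤ ‖Net_S f u w β‖) ∧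
    ∀ β ∈ Γ, ∀ β' ∈ Γ, β ≠ β' → 1 / (w : ℝ) < nz (β - β') with hGd
  set P : ℕ → Prop := fun n => ∃ Γ : Finset ℝ, Gd Γ ∧ Γ.card = n with hP
  set B : ℕ := ⌊5 * w * S / ν ^ 2⌋₊ with hB
  have hPB : ∀ n, P n → n ≤ B := by
    rintro n ⟨Γ, hΓ, rfl⟩
    exact Nat.le_floor (Net_card f u w hw ν S hν hS Γ hΓ.1 hΓ.2)
  have hP0 : P 0 := ⟨∅, ⟨by simp, by simp⟩, rfl⟩
  obtain ⟨Γ, hΓ, hcard⟩ := Nat.findGreatest_spec (P := P) (Nat.zero_le B) hP0
  refine ⟨Γ, Net_card f u w hw ν S hν hS Γ hΓ.1 hΓ.2, ?_⟩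
  intro γ hγ
  by_contra hcon
  push Not at hcon
  have hw0 : (0 : ℝ) < 1 / w := by
    have : (0 : ℝ) < w := by exact_mod_cast hw
    positivity
  have hγΓ : γ ∉ Γ := by
    intro h
    have h1 := hcon γ h
    rw [sub_self] at h1
    have h2 := nz_le_abs 0
    rw [abs_zero] at h2
    linarith
  have hnew : P (Γ.card + 1) := by
    refine ⟨insert γ Γ, ⟨?_, ?_⟩, Finset.card_insert_of_notMem hγΓ⟩
    · intro β hβ
      rw [Finset.mem_insert] at hβ
      rcases hβ with rfl | hβ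
      · exact hγ
      · exact hΓ.1 β hβ
    · intro β hβ β' hβ' hne
      rw [Finset.mem_insert] at hβ hβ'
      rcases hβ with rfl | hβ
      · rcases hβ' with rfl | hβ'
        · exact absurd rfl hne
        · exact hcon β' hβ'
      · rcases hβ' with rfl | hβ'
        · have h1 := hcon β hβ
          rw [← nz_neg, neg_sub] at h1
          exact h1
        · exact hΓ.2 β hβ β' hβ' hne
  have h1 := Nat.le_findGreatest (P := P) (hPB _ hnew) hnew
  rw [← hcard] at h1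
  omega

end Pool.Agent.H53.MID

end

section

/-!
# MID Chain: descendants at level 0

`Desc P j Dj w K α S`: all `(Π, i) ∈ S` satisfy `P^j ≤ Π ≤ (2P)^j`, `|i Π - K P^j| ≤ Dj P^j`, `nz (Π w - α i) ≤ τ`, `i ∈ F0`.
`chain_step`: from the descendants of the `K ∈ F` (level `j`) and the triples `(M, p, K)` of one `M` (level `j+1`), `|K p - M P| ≤ C P`,
`nz (p w' - w K) ≤ η'`, one gets the descendants `(p Π, i)` of `M`.
Proof.  `S' = ` image of the set of the quadruples `(p, K, Π, i)`, `(p,K) ∈ T`, `(Π,i) ∈ S K`, under `(p Π, i)`.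
`|i Π p - M P^(j+1)| ≤ p |i Π - K P^j| + P^j |K p - M P| ≤ (2 Dj + C) P^(j+1)`;
`nz (Π p w' - α i) ≤ nz (Π (p w' - w K)) + nz (Π w K - α i) ≤ (2P)^j η' + τ`.
Fibres: given `(Π', i)`: `p` is a prime `> P` dividing `Π' ≤ (2P)^(j+1) < P^(j+2)` (`2^(j+1) < P`), so at most `j+1` values of `p` (their product divides `Π'`,
`Finset.prod_primes_dvd`, and is `> P^(#)`); given `p`: `Π = Π'/p`, and `|K p - M P| ≤ C P` leaves at most `2C+1` values `K`.  So the fibres have at most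
`(j+1)(2C+1)` elements and `|S'| ≥ ∑_{(p,K) ∈ T} |S K|/((j+1)(2C+1)) ≥ |T| m/((j+1)(2C+1))` if all `|S K| ≥ m`.
-/

set_option autoImplicit false

namespace Pool.Agent.H53.MID

open Finset

/-- `S` is a set of descendants `(Π, i)` of the index `K` with the frequency `w`, `j` levels down -/
structure Desc (P j : ℕ) (D τ : ℝ) (F0 : Finset ℕ) (α : ℕ → ℝ) (K : ℕ) (w : ℝ) (S : Finset (ℕ × ℕ)) : Prop where
  mem : ∀ t ∈ S, t.2 ∈ F0
  lo : ∀ t ∈ S, (P : ℝ) ^ j ≤ t.1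
  hi : ∀ t ∈ S, (t.1 : ℝ) ≤ (2 * P) ^ j
  pos : ∀ t ∈ S, |(t.2 : ℝ) * t.1 - K * P ^ j| ≤ D * P ^ j
  freq : ∀ t ∈ S, nz (t.1 * w - α t.2) ≤ τ

end Pool.Agent.H53.MID

end

section

/-!
# MDX Defs: walks, descendants, vertices and edges

Setting.  `R` is a set of triples `(i, p, g)` (the relation `Rel` of `H53/MID/Nz.lean`), `F` a set of indices.
* `Wk j`: a walk with `j` steps is `(i, t)`, `i : Fin (j+1) → ℕ` the vertices, `t s = (p, g, q)` the step from `i s` to `i (s+1)`.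
* `IsW R w`: for every step `(i s, p, g) ∈ R` and `(i (s+1), q, g) ∈ R`, and the `2 j` numbers `p, q` are pairwise distinct.
* `Om R F j`: the finite set of all walks with `j` steps and all vertices in `F`.
* `Lw`, `Rw`: drop the last (first) step; `v0`, `v1`: first and last vertex; `pa`, `qa`: the products of the `p` and of the `q`;
  `pf`: the `p` of the first step; `ql`: the `q` of the last step.
* `DS P j D τ F α v`: all descendants `(a, i)` of the node `v = (M, γ)`, `j` levels down: `i ∈ F`, `P^j ≤ a ≤ (2P)^j`, all prime factors of `a`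
  are `> P`, `|i a - M P^j| ≤ D P^j`, `nz (a γ - α i) ≤ τ`.
* `VX c P V M`: the vertices `(p, K, k)` over `M`: `p` a prime in `(P, 2P]`, `(K, k) ∈ V`, `|K p - M P| ≤ c P`.
* `EX c P η V M`: the edges `((p,K,k), (p',K',k'))` over `M`: `p ≠ p'`, `nz (p' k - p k') ≤ 2 η`.
-/

set_option autoImplicit false

namespace Pool.Agent.H74.MDX

open Finset
open Pool.Agent.H53.MID (nz Rel Desc)

/-- walks with `j` steps -/
abbrev Wk (j : ℕ) : Type := (Fin (j + 1) → ℕ) × (Fin j → ℕ × ℕ × ℕ)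

variable {j : ℕ}

/-- first vertex -/
def v0 (w : Wk j) : ℕ := w.1 0

/-- last vertex -/
def v1 (w : Wk j) : ℕ := w.1 (Fin.last j)

/-- the product of the `p` -/
def pa (w : Wk j) : ℕ := ∏ s, (w.2 s).1

/-- the product of the `q` -/
def qa (w : Wk j) : ℕ := ∏ s, (w.2 s).2.2

/-- the `p` of the first step -/
def pf (w : Wk (j + 1)) : ℕ := (w.2 0).1

/-- the `q` of the last step -/
def ql (w : Wk (j + 1)) : ℕ := (w.2 (Fin.last j)).2.2

/-- drop the last step -/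
def Lw (w : Wk (j + 1)) : Wk j := (fun s => w.1 s.castSucc, fun s => w.2 s.castSucc)

/-- drop the first step -/
def Rw (w : Wk (j + 1)) : Wk j := (fun s => w.1 s.succ, fun s => w.2 s.succ)

/-- the walks of the relation `R` with distinct primes -/
def IsW (R : Finset (ℕ × ℕ × ℕ)) (w : Wk j) : Prop :=
  (∀ s : Fin j, (w.1 s.castSucc, (w.2 s).1, (w.2 s).2.1) ∈ R ∧ (w.1 s.succ, (w.2 s).2.2, (w.2 s).2.1) ∈ R) ∧
  Function.Injective (Sum.elim (fun s : Fin j => (w.2 s).1) (fun s : Fin j => (w.2 s).2.2))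

open Classical in
/-- the finite set of the walks -/
noncomputable def Om (R : Finset (ℕ × ℕ × ℕ)) (F : Finset ℕ) (j : ℕ) : Finset (Wk j) :=
  ((Fintype.piFinset (fun _ : Fin (j + 1) => F)) ×ˢ
    (Fintype.piFinset (fun _ : Fin j => (R ×ˢ R).image (fun t => (t.1.2.1, t.1.2.2, t.2.2.1))))).filter (fun w => IsW R w)

theorem mem_Om {R : Finset (ℕ × ℕ × ℕ)} {F : Finset ℕ} {w : Wk j} :
    w ∈ Om R F j ↔ (∀ s, w.1 s ∈ F) ∧ IsW R w := by
  classical
  unfold Om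
  rw [Finset.mem_filter, Finset.mem_product, Fintype.mem_piFinset, Fintype.mem_piFinset]
  constructor
  · rintro ⟨⟨h1, -⟩, h3⟩
    exact ⟨h1, h3⟩
  · rintro ⟨h1, h3⟩
    refine ⟨⟨h1, fun s => ?_⟩, h3⟩
    rw [Finset.mem_image]
    exact ⟨((w.1 s.castSucc, (w.2 s).1, (w.2 s).2.1), (w.1 s.succ, (w.2 s).2.2, (w.2 s).2.1)),
      Finset.mem_product.2 (h3.1 s), rfl⟩

theorem Lw_mem {R : Finset (ℕ × ℕ × ℕ)} {F : Finset ℕ} {w : Wk (j + 1)} (h : w ∈ Om R F (j + 1)) : Lw w ∈ Om R F j := by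
  rw [mem_Om] at h ⊢
  refine ⟨fun s => h.1 _, fun s => h.2.1 s.castSucc, ?_⟩
  have hinj : Function.Injective (Sum.map (Fin.castSucc : Fin j → Fin (j + 1)) (Fin.castSucc : Fin j → Fin (j + 1))) :=
    Sum.map_injective.2 ⟨Fin.castSucc_injective _, Fin.castSucc_injective _⟩
  have h2 := h.2.2.comp hinj
  rw [Sum.elim_comp_map] at h2
  exact h2

theorem Rw_mem {R : Finset (ℕ × ℕ × ℕ)} {F : Finset ℕ} {w : Wk (j + 1)} (h : w ∈ Om R F (j + 1)) : Rw w ∈ Om R F j := by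
  rw [mem_Om] at h ⊢
  refine ⟨fun s => h.1 _, fun s => h.2.1 s.succ, ?_⟩
  have hinj : Function.Injective (Sum.map (Fin.succ : Fin j → Fin (j + 1)) (Fin.succ : Fin j → Fin (j + 1))) :=
    Sum.map_injective.2 ⟨Fin.succ_injective _, Fin.succ_injective _⟩
  have h2 := h.2.2.comp hinj
  rw [Sum.elim_comp_map] at h2
  exact h2

theorem qa_eq (w : Wk (j + 1)) : qa w = qa (Lw w) * ql w := by
  unfold qa ql Lw
  exact Fin.prod_univ_castSucc _

theorem pa_eq (w : Wk (j + 1)) : pa w = pf w * pa (Rw w) := by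
  unfold pa pf Rw
  exact Fin.prod_univ_succ _

theorem pf_ne_ql {R : Finset (ℕ × ℕ × ℕ)} {F : Finset ℕ} {w : Wk (j + 1)} (h : w ∈ Om R F (j + 1)) : pf w ≠ ql w := by
  rw [mem_Om] at h
  intro h1
  have h2 := h.2.2 (a₁ := Sum.inl 0) (a₂ := Sum.inr (Fin.last j)) h1
  cases h2

/-- the descendants -/
noncomputable def DS (P j : ℕ) (D τ : ℝ) (F : Finset ℕ) (α : ℕ → ℝ) (v : ℕ × ℝ) : Finset (ℕ × ℕ) := by
  classical
  exact ((Icc (P ^ j) ((2 * P) ^ j)) ×ˢ F).filter (fun t => (∀ q : ℕ, q.Prime → q ∣ t.1 → P < q) ∧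
    |(t.2 : ℝ) * t.1 - v.1 * (P : ℝ) ^ j| ≤ D * (P : ℝ) ^ j ∧ nz (t.1 * v.2 - α t.2) ≤ τ)

theorem mem_DS {P j : ℕ} {D τ : ℝ} {F : Finset ℕ} {α : ℕ → ℝ} {v : ℕ × ℝ} {t : ℕ × ℕ} :
    t ∈ DS P j D τ F α v ↔ P ^ j ≤ t.1 ∧ t.1 ≤ (2 * P) ^ j ∧ t.2 ∈ F ∧ (∀ q : ℕ, q.Prime → q ∣ t.1 → P < q) ∧
      |(t.2 : ℝ) * t.1 - v.1 * (P : ℝ) ^ j| ≤ D * (P : ℝ) ^ j ∧ nz (t.1 * v.2 - α t.2) ≤ τ := by
  classical
  unfold DS
  rw [Finset.mem_filter, Finset.mem_product, Finset.mem_Icc]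
  tauto

theorem DS_desc (P j : ℕ) (D τ : ℝ) (F : Finset ℕ) (α : ℕ → ℝ) (v : ℕ × ℝ) :
    Desc P j D τ F α v.1 v.2 (DS P j D τ F α v) where
  mem := fun t ht => (mem_DS.1 ht).2.2.1
  lo := fun t ht => by exact_mod_cast (mem_DS.1 ht).1
  hi := fun t ht => by exact_mod_cast (mem_DS.1 ht).2.1
  pos := fun t ht => (mem_DS.1 ht).2.2.2.2.1
  freq := fun t ht => (mem_DS.1 ht).2.2.2.2.2

/-- the vertices over `M` -/
noncomputable def VX (c : ℝ) (P : ℕ) (V : Finset (ℕ × ℝ)) (M : ℕ) : Finset (ℕ × ℕ × ℝ) := by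
  classical
  exact (((Ioc P (2 * P)).filter Nat.Prime) ×ˢ V).filter (fun u => |(u.2.1 : ℝ) * u.1 - M * P| ≤ c * P)

theorem mem_VX {c : ℝ} {P : ℕ} {V : Finset (ℕ × ℝ)} {M : ℕ} {u : ℕ × ℕ × ℝ} :
    u ∈ VX c P V M ↔ (P < u.1 ∧ u.1 ≤ 2 * P) ∧ u.1.Prime ∧ u.2 ∈ V ∧ |(u.2.1 : ℝ) * u.1 - M * P| ≤ c * P := by
  classical
  unfold VX
  rw [Finset.mem_filter, Finset.mem_product, Finset.mem_filter, Finset.mem_Ioc]
  tauto

/-- the edges over `M` -/
noncomputable def EX (c : ℝ) (P : ℕ) (η : ℝ) (V : Finset (ℕ × ℝ)) (M : ℕ) :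
    Finset ((ℕ × ℕ × ℝ) × (ℕ × ℕ × ℝ)) := by
  classical
  exact (VX c P V M ×ˢ VX c P V M).filter (fun e => e.1.1 ≠ e.2.1 ∧
    nz ((e.2.1 : ℝ) * e.1.2.2 - e.1.1 * e.2.2.2) ≤ 2 * η)

theorem mem_EX {c : ℝ} {P : ℕ} {η : ℝ} {V : Finset (ℕ × ℝ)} {M : ℕ} {e : (ℕ × ℕ × ℝ) × (ℕ × ℕ × ℝ)} :
    e ∈ EX c P η V M ↔ e.1 ∈ VX c P V M ∧ e.2 ∈ VX c P V M ∧ e.1.1 ≠ e.2.1 ∧
      nz ((e.2.1 : ℝ) * e.1.2.2 - e.1.1 * e.2.2.2) ≤ 2 * η := by
  classical
  unfold EX
  rw [Finset.mem_filter, Finset.mem_product]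
  tauto

/-- bounded multiplicity of the relation: given `(i, p)` or `(g, p)` there are at most `κ` triples -/
structure Mul (κ : ℝ) (P : ℕ) (R : Finset (ℕ × ℕ × ℕ)) : Prop where
  one : 1 ≤ κ
  pos : 1 ≤ P
  prime : ∀ t ∈ R, t.2.1.Prime ∧ P < t.2.1 ∧ t.2.1 ≤ 2 * P
  out : ∀ i p : ℕ, ((R.filter (fun t => t.1 = i ∧ t.2.1 = p)).card : ℝ) ≤ κ
  inn : ∀ g p : ℕ, ((R.filter (fun t => t.2.2 = g ∧ t.2.1 = p)).card : ℝ) ≤ κ

end Pool.Agent.H74.MDX

end

section

/-!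
# MDX MulRel: the relation has bounded multiplicity

`rel_mul`: if `Rel C n P η F F' α α' R`, `C ≥ 1`, `P ≥ 1` then `Mul (2C+1) P R`.  Proof: given `i, p` (we may assume that there is a triple in the set, so `P < p`),
`|g p - i P| ≤ C P` leaves at most `2C+1` natural numbers `g` (`|g - i P/p| ≤ C P/p ≤ C`; the number of integers in a closed interval of length `2C` is
`≤ 2C+1`); given `g, p`: `|i - g p/P| ≤ C`, the same.  See `Edges_count`, `Edges_cnt`, `Edges_div` in `Pool/Agent/H53/MID/Edges.lean` (private: copy).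
`mul_sub`: subsets.  `int_card`: the number of the naturals in an interval.  `rel_card_le`: `|F| ≤ C n`, `|F'| ≤ C n` (`F ⊆ [1, C n]` as `K ≥ n/C > 0`).
-/

set_option autoImplicit false

namespace Pool.Agent.H74.MDX

open Finset
open Pool.Agent.H53.MID (nz Rel Desc)

theorem int_card (S : Finset ℕ) (x r : ℝ) (hr : 0 ≤ r) (h : ∀ k ∈ S, |(k : ℝ) - x| ≤ r) : (S.card : ℝ) ≤ 2 * r + 1 := by
  rcases S.eq_empty_or_nonempty with rfl | ⟨k0, hk0⟩
  · simp only [Finset.card_empty, Nat.cast_zero]; linarith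
  have h1 : (S.image (fun k : ℕ => (k : ℤ))) ⊆ Finset.Icc ⌈x - r⌉ ⌊x + r⌋ := by
    intro z hz
    rw [Finset.mem_image] at hz
    obtain ⟨k, hk, rfl⟩ := hz
    have h2 := abs_le.mp (h k hk)
    rw [Finset.mem_Icc]
    constructor
    · rw [Int.ceil_le]; push_cast; linarith [h2.1]
    · rw [Int.le_floor]; push_cast; linarith [h2.2]
  have h2 := Finset.card_le_card h1
  rw [Finset.card_image_of_injective _ Nat.cast_injective, Int.card_Icc] at h2
  have h3 : ⌈x - r⌉ ≤ ⌊x + r⌋ := by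
    have h4 := h1 (Finset.mem_image_of_mem _ hk0)
    rw [Finset.mem_Icc] at h4
    exact h4.1.trans h4.2
  have h4 : ((⌊x + r⌋ + 1 - ⌈x - r⌉).toNat : ℝ) = (⌊x + r⌋ : ℝ) + 1 - ⌈x - r⌉ := by
    have h5 : (((⌊x + r⌋ + 1 - ⌈x - r⌉).toNat : ℤ) : ℝ) = ((⌊x + r⌋ + 1 - ⌈x - r⌉ : ℤ) : ℝ) := by
      rw [Int.toNat_of_nonneg (by linarith)]
    push_cast at h5
    linarith
  have h6 : (S.card : ℝ) ≤ ((⌊x + r⌋ + 1 - ⌈x - r⌉).toNat : ℝ) := by exact_mod_cast h2
  rw [h4] at h6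
  have h7 := Int.floor_le (x + r)
  have h8 := Int.le_ceil (x - r)
  linarith

theorem rel_mul (C : ℝ) (hC : 1 ≤ C) (n P : ℕ) (hP : 1 ≤ P) (η : ℝ) (F F' : Finset ℕ) (α α' : ℕ → ℝ)
    (R : Finset (ℕ × ℕ × ℕ)) (h : Rel C n P η F F' α α' R) : Mul (2 * C + 1) P R := by
  have hP0 : (0 : ℝ) < P := by exact_mod_cast hP
  refine ⟨by linarith, hP, h.prime, fun i p => ?_, fun g p => ?_⟩
  · rcases (R.filter (fun t => t.1 = i ∧ t.2.1 = p)).eq_empty_or_nonempty with h0 | ⟨t0, ht0⟩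
    · rw [h0]; simp only [Finset.card_empty, Nat.cast_zero]; linarith
    rw [Finset.mem_filter] at ht0
    have hp : P < p := by
      have := (h.prime t0 ht0.1).2.1
      rw [ht0.2.2] at this
      exact this
    have hp0 : (P : ℝ) < p := by exact_mod_cast hp
    have hinj : Set.InjOn (fun t : ℕ × ℕ × ℕ => t.2.2) (R.filter (fun t => t.1 = i ∧ t.2.1 = p)) := by
      intro a ha b hb hab
      rw [Finset.mem_coe, Finset.mem_filter] at ha hb
      obtain ⟨a1, a2, a3⟩ := a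
      obtain ⟨b1, b2, b3⟩ := b
      simp only at ha hb hab
      rw [Prod.mk.injEq, Prod.mk.injEq]
      exact ⟨ha.2.1.trans hb.2.1.symm, ha.2.2.trans hb.2.2.symm, hab⟩
    rw [← Finset.card_image_of_injOn hinj]
    refine int_card _ ((i : ℝ) * P / p) C (by linarith) ?_
    intro k hk
    rw [Finset.mem_image] at hk
    obtain ⟨t, ht, rfl⟩ := hk
    rw [Finset.mem_filter] at ht
    have h1 := h.pos t ht.1
    rw [ht.2.1, ht.2.2] at h1
    have hpp : (0 : ℝ) < p := by linarith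
    have h2 : (t.2.2 : ℝ) - (i : ℝ) * P / p = ((t.2.2 : ℝ) * p - i * P) / p := by
      field_simp
    rw [h2, abs_div, abs_of_pos hpp, div_le_iff₀ hpp]
    refine h1.trans ?_
    exact mul_le_mul_of_nonneg_left hp0.le (by linarith)
  · have hinj : Set.InjOn (fun t : ℕ × ℕ × ℕ => t.1) (R.filter (fun t => t.2.2 = g ∧ t.2.1 = p)) := by
      intro a ha b hb hab
      rw [Finset.mem_coe, Finset.mem_filter] at ha hb
      obtain ⟨a1, a2, a3⟩ := a
      obtain ⟨b1, b2, b3⟩ := b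
      simp only at ha hb hab
      rw [Prod.mk.injEq, Prod.mk.injEq]
      exact ⟨hab, ha.2.2.trans hb.2.2.symm, ha.2.1.trans hb.2.1.symm⟩
    rw [← Finset.card_image_of_injOn hinj]
    refine int_card _ ((g : ℝ) * p / P) C (by linarith) ?_
    intro k hk
    rw [Finset.mem_image] at hk
    obtain ⟨t, ht, rfl⟩ := hk
    rw [Finset.mem_filter] at ht
    have h1 := h.pos t ht.1
    rw [ht.2.1, ht.2.2] at h1
    have h2 : (t.1 : ℝ) - (g : ℝ) * p / P = -(((g : ℝ) * p - t.1 * P) / P) := by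
      field_simp
      ring
    rw [h2, abs_neg, abs_div, abs_of_pos hP0, div_le_iff₀ hP0]
    exact h1

private theorem MulRel_card (C : ℝ) (hC : 1 ≤ C) (n : ℕ) (hn : 1 ≤ n) (F : Finset ℕ)
    (h : ∀ K ∈ F, (n : ℝ) / C ≤ K ∧ (K : ℝ) ≤ C * n) : (F.card : ℝ) ≤ C * n := by
  have hn0 : (0 : ℝ) < n := by exact_mod_cast hn
  have hC0 : (0 : ℝ) < C := by linarith
  have h1 : F ⊆ Finset.Icc 1 ⌊C * n⌋₊ := by
    intro K hK
    rw [Finset.mem_Icc]
    constructor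
    · have h2 := (h K hK).1
      have h3 : (0 : ℝ) < K := lt_of_lt_of_le (by positivity) h2
      have h4 : 0 < K := by exact_mod_cast h3
      exact h4
    · exact Nat.le_floor (h K hK).2
  have h2 := Finset.card_le_card h1
  rw [Nat.card_Icc, Nat.add_sub_cancel] at h2
  calc (F.card : ℝ) ≤ (⌊C * n⌋₊ : ℝ) := by exact_mod_cast h2
    _ ≤ C * n := Nat.floor_le (by positivity)

theorem rel_card_le (C : ℝ) (hC : 1 ≤ C) (n P : ℕ) (hn : 1 ≤ n) (η : ℝ) (F F' : Finset ℕ) (α α' : ℕ → ℝ)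
    (R : Finset (ℕ × ℕ × ℕ)) (h : Rel C n P η F F' α α' R) : (F.card : ℝ) ≤ C * n ∧ (F'.card : ℝ) ≤ C * n :=
  ⟨MulRel_card C hC n hn F h.rngF, MulRel_card C hC n hn F' h.rngF'⟩

end Pool.Agent.H74.MDX

end

section

/-!
# MDX DStep: descendants, one level down

`DS_step`: `(a, i) ∈ DS P j D τ F α (K, k)`, `p` a prime in `(P, 2P]`, `|K p - M P| ≤ c P`, `nz (p γ - k) ≤ η'` imply
`(p a, i) ∈ DS P (j+1) (2D + c) ((2P)^j η' + τ) F α (M, γ)`.
Proof: `|i a p - M P^(j+1)| ≤ p |i a - K P^j| + P^j |K p - M P| ≤ 2P D P^j + P^j c P`;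
`nz (p a γ - α i) ≤ nz (a (p γ - k)) + nz (a k - α i) ≤ (2P)^j η' + τ`; a prime factor of `p a` is `p` or a prime factor of `a`.
(See the proof of `chain_step` in `Pool/Agent/H53/MID/Chain.lean`.)
-/

set_option autoImplicit false

namespace Pool.Agent.H74.MDX

open Finset
open Pool.Agent.H53.MID (nz Rel Desc)

theorem DS_mono (P j : ℕ) (D D' τ τ' : ℝ) (F : Finset ℕ) (α : ℕ → ℝ) (v : ℕ × ℝ) (hD : D ≤ D') (hτ : τ ≤ τ') :
    DS P j D τ F α v ⊆ DS P j D' τ' F α v := by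
  intro t ht
  rw [mem_DS] at ht ⊢
  obtain ⟨h1, h2, h3, h4, h5, h6⟩ := ht
  have hP : (0 : ℝ) ≤ (P : ℝ) ^ j := by positivity
  exact ⟨h1, h2, h3, h4, h5.trans (mul_le_mul_of_nonneg_right hD hP), h6.trans hτ⟩

theorem DS_step (P j : ℕ) (c D τ η' : ℝ) (F : Finset ℕ) (α : ℕ → ℝ) (K M p : ℕ) (k γ : ℝ) (hp : p.Prime)
    (hpP : P < p ∧ p ≤ 2 * P) (hK : |(K : ℝ) * p - M * P| ≤ c * P) (hk : nz (p * γ - k) ≤ η') (hD : 0 ≤ D) (hc : 0 ≤ c)
    (t : ℕ × ℕ) (ht : t ∈ DS P j D τ F α (K, k)) :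
    (p * t.1, t.2) ∈ DS P (j + 1) (2 * D + c) ((2 * P) ^ j * η' + τ) F α (M, γ) := by
  rw [mem_DS] at ht ⊢
  obtain ⟨h1, h2, h3, h4, h5, h6⟩ := ht
  obtain ⟨a, i⟩ := t
  simp only at h1 h2 h3 h4 h5 h6 ⊢
  have hp0 : (0 : ℝ) ≤ (p : ℝ) := Nat.cast_nonneg p
  have hPj : (0 : ℝ) ≤ (P : ℝ) ^ j := by positivity
  have hp2' : (p : ℝ) ≤ 2 * P := by exact_mod_cast hpP.2
  refine ⟨?_, ?_, h3, ?_, ?_, ?_⟩
  · rw [pow_succ, mul_comm]
    exact Nat.mul_le_mul hpP.1.le h1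
  · rw [pow_succ, mul_comm]
    exact Nat.mul_le_mul h2 hpP.2
  · intro q hq hqd
    rcases (hq.dvd_mul).1 hqd with h | h
    · rw [(Nat.prime_dvd_prime_iff_eq hq hp).1 h]
      exact hpP.1
    · exact h4 q hq h
  · push_cast
    have e : (i : ℝ) * (p * a) - M * (P : ℝ) ^ (j + 1) =
        p * (i * a - K * (P : ℝ) ^ j) + (P : ℝ) ^ j * (K * p - M * P) := by
      ring
    rw [e]
    refine (abs_add_le _ _).trans ?_
    rw [abs_mul, abs_mul, abs_of_nonneg hp0, abs_of_nonneg hPj]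
    have b1 : (p : ℝ) * |(i : ℝ) * a - K * (P : ℝ) ^ j| ≤ (2 * P) * (D * (P : ℝ) ^ j) :=
      mul_le_mul hp2' h5 (abs_nonneg _) (by positivity)
    have b2 : (P : ℝ) ^ j * |(K : ℝ) * p - M * P| ≤ (P : ℝ) ^ j * (c * P) :=
      mul_le_mul_of_nonneg_left hK hPj
    have e2 : (2 * D + c) * (P : ℝ) ^ (j + 1) = (2 * P) * (D * (P : ℝ) ^ j) + (P : ℝ) ^ j * (c * P) := by
      ring
    rw [e2]
    exact add_le_add b1 b2
  · push_cast
    have e : (p : ℝ) * a * γ - α i = (a : ℝ) * (p * γ - k) + (a * k - α i) := by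
      ring
    rw [e]
    refine (Pool.Agent.H53.MID.nz_add _ _).trans ?_
    have b1 : nz ((a : ℝ) * (p * γ - k)) ≤ (2 * (P : ℝ)) ^ j * η' := by
      refine (Pool.Agent.H53.MID.nz_nat_mul a _).trans ?_
      have h2' : (a : ℝ) ≤ (2 * (P : ℝ)) ^ j := by exact_mod_cast h2
      exact mul_le_mul h2' hk (Pool.Agent.H53.MID.nz_nonneg _) (by positivity)
    exact add_le_add b1 h6

end Pool.Agent.H74.MDX

end

section

/-!
# MDX Lvl: parameters and level data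

`Par C ℓ P B ε η`: the conditions on the parameters.  `Lvl ... j V G c`: the data of the level `j`: `V` = the nodes, `G` = the good walks, `c` their colours.
The constants: positions `C 3^j` (link) and `C 5^j` (descendants), accuracies `2^(j^2+5j) η` (descendants), `2^(j^2+5j) η P/P^j` (link), `μ = ε/B^5`, multiplicity
`B^7/ε`, exceptional walks `(4 (2C+1)^2)^j ε n P^(2j)`.

`lvl0` proof: `V = F.image (fun i => (i, α i))`, `G = Om R F 0`, `c w = (w.1 0, α (w.1 0))`.  `mult`: at most one element `≤ B^7/ε`; `desc`: `(1, i) ∈ DS P 0 ..` and `ε/B^5 ≤ 1`;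
`link`: `w ∈ Om R F 1`, `G0 = (w.2 0).2.1`, `g = β G0` (`Rel.pos`, `Rel.freq`, `Rel.memF'`, `Rel.rngF'`); `exc`: the set is empty.
`exc` is a bound for the number of `w ∈ Om R F j` with `w ∉ G`.
-/

set_option autoImplicit false

namespace Pool.Agent.H74.MDX

open Finset
open Pool.Agent.H53.MID (nz Rel Desc)

/-- the conditions on the parameters -/
structure Par (C : ℝ) (ℓ P : ℕ) (B ε η : ℝ) : Prop where
  hC : 1 ≤ C
  hB1 : 2 * C * 5 ^ ℓ + 1 ≤ B
  hB2 : 4 ^ ℓ * C ≤ B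
  hB3 : (2 * C + 1) ^ (2 * ℓ) ≤ B
  hB4 : (ℓ.factorial : ℝ) ^ 2 ≤ B
  hB5 : (2 : ℝ) ^ (2 * ℓ + 8) ≤ B
  hε : 0 < ε
  hε1 : ε ≤ 1
  hη : 0 < η
  hP : 40 * B ^ 54 ≤ ε ^ 8 * P
  hηP : 2 ^ (ℓ ^ 2 + 5 * ℓ + 10) * η * (P : ℝ) ^ 3 ≤ 1

open Classical in
/-- the data of the level `j` -/
structure Lvl (C B ε η : ℝ) (n P : ℕ) (F : Finset ℕ) (α : ℕ → ℝ) (R : Finset (ℕ × ℕ × ℕ)) (j : ℕ)
    (V : Finset (ℕ × ℝ)) (G : Finset (Wk j)) (c : Wk j → ℕ × ℝ) : Prop where
  sub : G ⊆ Om R F j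
  col : ∀ w ∈ G, c w ∈ V
  rng : ∀ v ∈ V, (n : ℝ) / C ≤ v.1 ∧ (v.1 : ℝ) ≤ 4 ^ j * C * n
  mult : ∀ K : ℕ, ((V.filter (fun v => v.1 = K)).card : ℝ) ≤ B ^ 7 / ε
  desc : ∀ v ∈ V, ε / B ^ 5 * (P : ℝ) ^ j ≤ ((DS P j (C * 5 ^ j) (2 ^ (j ^ 2 + 5 * j) * η) F α v).card : ℝ)
  mem0 : ∀ w ∈ G, (qa w, v0 w) ∈ DS P j (C * 5 ^ j) (2 ^ (j ^ 2 + 5 * j) * η) F α (c w)
  mem1 : ∀ w ∈ G, (pa w, v1 w) ∈ DS P j (C * 5 ^ j) (2 ^ (j ^ 2 + 5 * j) * η) F α (c w)
  link : ∀ w ∈ Om R F (j + 1), Lw w ∈ G → Rw w ∈ G → ∃ (G0 : ℕ) (g : ℝ), (n : ℝ) / C ≤ G0 ∧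
    (G0 : ℝ) ≤ 4 ^ j * C * n ∧ |(G0 : ℝ) * pf w - (c (Lw w)).1 * P| ≤ C * 3 ^ j * P ∧
    |(G0 : ℝ) * ql w - (c (Rw w)).1 * P| ≤ C * 3 ^ j * P ∧
    nz (pf w * (c (Lw w)).2 - g) ≤ 2 ^ (j ^ 2 + 5 * j) * η * P / (P : ℝ) ^ j ∧
    nz (ql w * (c (Rw w)).2 - g) ≤ 2 ^ (j ^ 2 + 5 * j) * η * P / (P : ℝ) ^ j
  exc : (((Om R F j).filter (fun w => w ∉ G)).card : ℝ) ≤ (4 * (2 * C + 1) ^ 2) ^ j * ε * n * (P : ℝ) ^ (2 * j)

private theorem Lvl_one_mem {C η : ℝ} {P : ℕ} {F : Finset ℕ} {α : ℕ → ℝ} {i : ℕ} (hC : 0 ≤ C) (hη : 0 ≤ η)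
    (hi : i ∈ F) : ((1 : ℕ), i) ∈ DS P 0 (C * 5 ^ 0) (2 ^ (0 ^ 2 + 5 * 0) * η) F α (i, α i) := by
  have h0 : nz (0 : ℝ) = 0 := by
    unfold nz
    simp
  rw [mem_DS]
  refine ⟨by simp, by simp, hi, ?_, ?_, ?_⟩
  · intro q hq h
    exact absurd (Nat.dvd_one.1 h) hq.ne_one
  · simpa using hC
  · simpa [h0] using hη

theorem lvl0 (C B ε η : ℝ) (ℓ n P : ℕ) (F G : Finset ℕ) (α β : ℕ → ℝ) (R : Finset (ℕ × ℕ × ℕ))
    (hPar : Par C ℓ P B ε η) (hP : 1 ≤ P) (hR : Rel C n P (η * P) F G α β R) :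
    ∃ (V : Finset (ℕ × ℝ)) (G' : Finset (Wk 0)) (c : Wk 0 → ℕ × ℝ), Lvl C B ε η n P F α R 0 V G' c := by
  classical
  have hC0 : 0 ≤ C := zero_le_one.trans hPar.hC
  have hη0 : 0 ≤ η := hPar.hη.le
  have hB : 1 ≤ B := by
    have h1 : 0 ≤ 2 * C * 5 ^ ℓ := by positivity
    linarith [hPar.hB1]
  refine ⟨F.image (fun i => (i, α i)), Om R F 0, fun w => (w.1 0, α (w.1 0)), ?_, ?_, ?_, ?_, ?_, ?_, ?_, ?_, ?_⟩
  · exact Finset.Subset.refl _
  · intro w hw
    exact Finset.mem_image.2 ⟨w.1 0, (mem_Om.1 hw).1 0, rfl⟩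
  · intro v hv
    rw [Finset.mem_image] at hv
    obtain ⟨i, hi, rfl⟩ := hv
    have h1 := hR.rngF i hi
    rw [pow_zero, one_mul]
    exact h1
  · intro K
    have h1 : ((F.image (fun i => (i, α i))).filter (fun v => v.1 = K)).card ≤ 1 := by
      rw [Finset.card_le_one]
      intro a ha b hb
      rw [Finset.mem_filter, Finset.mem_image] at ha hb
      obtain ⟨⟨i, -, rfl⟩, hi⟩ := ha
      obtain ⟨⟨j, -, rfl⟩, hj⟩ := hb
      simp only at hi hj
      rw [hi, hj]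
    have h2 : (1 : ℝ) ≤ B ^ 7 / ε := by
      rw [le_div_iff₀ hPar.hε, one_mul]
      exact hPar.hε1.trans (one_le_pow₀ hB)
    refine le_trans ?_ h2
    exact_mod_cast h1
  · intro v hv
    rw [Finset.mem_image] at hv
    obtain ⟨i, hi, rfl⟩ := hv
    have h1 : 0 < (DS P 0 (C * 5 ^ 0) (2 ^ (0 ^ 2 + 5 * 0) * η) F α (i, α i)).card :=
      Finset.card_pos.2 ⟨_, Lvl_one_mem hC0 hη0 hi⟩
    have h2 : (1 : ℝ) ≤ ((DS P 0 (C * 5 ^ 0) (2 ^ (0 ^ 2 + 5 * 0) * η) F α (i, α i)).card : ℝ) := by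
      exact_mod_cast h1
    refine le_trans ?_ h2
    rw [pow_zero, mul_one, div_le_one (by positivity)]
    exact hPar.hε1.trans (one_le_pow₀ hB)
  · intro w hw
    have h1 := Lvl_one_mem (P := P) (α := α) hC0 hη0 ((mem_Om.1 hw).1 0)
    have h2 : qa w = 1 := by
      unfold qa
      simp
    rw [h2]
    exact h1
  · intro w hw
    have h1 := Lvl_one_mem (P := P) (α := α) hC0 hη0 ((mem_Om.1 hw).1 0)
    have h2 : pa w = 1 := by
      unfold pa
      simp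
    rw [h2]
    exact h1
  · intro w hw _ _
    obtain ⟨h1, h2⟩ := (mem_Om.1 hw).2.1 0
    have h3 := hR.rngF' _ (hR.memF' _ h1)
    have h4 := hR.pos _ h1
    have h5 := hR.pos _ h2
    have h6 := hR.freq _ h1
    have h7 := hR.freq _ h2
    refine ⟨(w.2 0).2.1, β (w.2 0).2.1, ?_, ?_, ?_, ?_, ?_, ?_⟩
    · exact h3.1
    · rw [pow_zero, one_mul]
      exact h3.2
    · rw [pow_zero, mul_one]
      exact h4
    · rw [pow_zero, mul_one]
      exact h5
    · have e : (2 : ℝ) ^ (0 ^ 2 + 5 * 0) * η * P / (P : ℝ) ^ 0 = η * P := by norm_num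
      rw [e]
      exact h6
    · have e : (2 : ℝ) ^ (0 ^ 2 + 5 * 0) * η * P / (P : ℝ) ^ 0 = η * P := by norm_num
      rw [e]
      exact h7
  · have h1 : (Om R F 0).filter (fun w => w ∉ Om R F 0) = ∅ := by
      rw [Finset.filter_eq_empty_iff]
      intro w hw h
      exact h hw
    rw [h1, Finset.card_empty, Nat.cast_zero]
    have := hPar.hε
    positivity

end Pool.Agent.H74.MDX

end

section

/-!
# MDX Weak: a frequency compatible with many vertices has many descendants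

Proof.  For every `K` choose `k(K)` such that `(K, k(K)) ∈ V` and the number of the `u ∈ U` with `u.2 = (K, k(K))` is maximal; as at most `m` elements of `V` have the
first coordinate `K` (`hmult`), the set `U' = {u ∈ U : u.2.2 = k(u.2.1)}` has at least `|U|/m` elements, and `u ∈ U'` is determined by `(u.1, u.2.1)`.
`Q` = sigma type over `u ∈ U'` of `DS P j D τ F α u.2` (each at least `μ P^j` elements, so `|Q| ≥ |U| μ P^j/m`); the map `(u, (a, i)) ↦ (u.1 a, i)` goes to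
`DS P (j+1) D1 τ1 F α (M, w)` (`DS_step`, `DS_mono`).  Fibres: given `(a', i)`: `u.1` is a prime `> P` dividing `a' ≤ (2P)^(j+1) < P^(j+2)` (`2^(j+1) < P`): at most
`j+1` values; given `u.1 = p`: `a = a'/p` and `|K p - M P| ≤ c P` leaves at most `2c+1` values of `K`.  (Same as `chain_step` in `Pool/Agent/H53/MID/Chain.lean`; its
private lemmas `Chain_cardK`, `Chain_cardP` can be copied.)
-/

set_option autoImplicit false

namespace Pool.Agent.H74.MDX

open Finset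
open Pool.Agent.H53.MID (nz Rel Desc)

/-- the number of the indices at a bounded distance -/
private theorem Weak_cardK {C X : ℝ} {p P : ℕ} (hC : 0 ≤ C) (hP : 0 < P) (hp : P < p)
    (U : Finset ℕ) (hU : ∀ K ∈ U, |(K : ℝ) * p - X| ≤ C * P) :
    U.card ≤ ⌊2 * C⌋₊ + 1 := by
  rcases U.eq_empty_or_nonempty with h0 | hne
  · rw [h0]
    simp
  · obtain ⟨a, ha⟩ : ∃ a, a = U.min' hne := ⟨_, rfl⟩
    have haU : a ∈ U := by
      rw [ha]
      exact Finset.min'_mem _ _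
    have hsub : U ⊆ Finset.Icc a (a + ⌊2 * C⌋₊) := by
      intro K hK
      have h1 : a ≤ K := by
        rw [ha]
        exact Finset.min'_le _ _ hK
      rw [Finset.mem_Icc]
      refine ⟨h1, ?_⟩
      have h2 := hU K hK
      have h3 := hU a haU
      rw [abs_le] at h2 h3
      have hP0 : (0 : ℝ) < P := by exact_mod_cast hP
      have hpP : (P : ℝ) < p := by exact_mod_cast hp
      have h4 : ((K : ℝ) - a) * p ≤ 2 * C * P := by linarith [h2.2, h3.1]
      have h5 : (K : ℝ) - a ≤ 2 * C := by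
        by_contra hcon
        push Not at hcon
        have h6 : 2 * C * p < ((K : ℝ) - a) * p :=
          mul_lt_mul_of_pos_right hcon (hP0.trans hpP)
        have h7 : 2 * C * P ≤ 2 * C * p := mul_le_mul_of_nonneg_left hpP.le (by linarith)
        linarith
      have h8 : ((K - a : ℕ) : ℝ) ≤ 2 * C := by
        rw [Nat.cast_sub h1]
        exact h5
      have h9 : K - a ≤ ⌊2 * C⌋₊ := Nat.le_floor h8
      omega
    refine (Finset.card_le_card hsub).trans ?_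
    rw [Nat.card_Icc]
    omega

/-- the number of the large prime factors -/
private theorem Weak_cardP {P j N : ℕ} (hP : 2 ^ (j + 1) < P) (hN : 0 < N)
    (hN2 : N ≤ (2 * P) ^ (j + 1)) (B : Finset ℕ)
    (hB : ∀ p ∈ B, p.Prime ∧ P < p ∧ p ∣ N) : B.card ≤ j + 1 := by
  have hP0 : 0 < P := lt_of_le_of_lt (Nat.zero_le _) hP
  have h1 : ∏ p ∈ B, p ∣ N :=
    Finset.prod_primes_dvd N (fun p hp => (hB p hp).1.prime) fun p hp => (hB p hp).2.2
  have h2 : ∏ p ∈ B, p ≤ N := Nat.le_of_dvd hN h1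
  have h3 : P ^ B.card ≤ ∏ p ∈ B, p := Finset.pow_card_le_prod _ _ _ fun p hp => (hB p hp).2.1.le
  have h5 : (2 * P) ^ (j + 1) < P ^ (j + 2) := by
    rw [mul_pow, pow_succ P (j + 1), mul_comm (P ^ (j + 1)) P]
    exact Nat.mul_lt_mul_of_pos_right hP (pow_pos hP0 _)
  have h6 : P ^ B.card < P ^ (j + 2) := lt_of_le_of_lt (h3.trans (h2.trans hN2)) h5
  have h7 : 1 < P := lt_of_le_of_lt Nat.one_le_two_pow hP
  have h8 := (Nat.pow_lt_pow_iff_right h7).mp h6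
  omega

open Classical in
theorem weak (P j : ℕ) (c D D1 τ τ1 η' μ m w : ℝ) (F : Finset ℕ) (α : ℕ → ℝ) (M : ℕ) (V : Finset (ℕ × ℝ))
    (U : Finset (ℕ × ℕ × ℝ)) (hP : 2 ^ (j + 1) < P) (hc : 0 ≤ c) (hD : 0 ≤ D) (hμ : 0 ≤ μ) (hm : 1 ≤ m)
    (hU : U ⊆ VX c P V M) (hUn : ∀ u ∈ U, nz (u.1 * w - u.2.2) ≤ η')
    (hV : ∀ v ∈ V, μ * (P : ℝ) ^ j ≤ ((DS P j D τ F α v).card : ℝ))
    (hmult : ∀ K : ℕ, ((V.filter (fun v => v.1 = K)).card : ℝ) ≤ m)
    (hD1 : 2 * D + c ≤ D1) (hτ1 : (2 * (P : ℝ)) ^ j * η' + τ ≤ τ1) :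
    U.card * (μ * (P : ℝ) ^ j) / (m * ((j + 1) * (2 * c + 1))) ≤ ((DS P (j + 1) D1 τ1 F α (M, w)).card : ℝ) := by
  classical
  have hP0 : 0 < P := lt_of_le_of_lt (Nat.zero_le _) hP
  have hP0' : (0 : ℝ) < P := by exact_mod_cast hP0
  set f : (Σ _ : ℕ × ℕ × ℝ, ℕ × ℕ) → ℕ × ℕ := fun x => (x.1.1 * x.2.1, x.2.2) with hf
  set Q : Finset (Σ _ : ℕ × ℕ × ℝ, ℕ × ℕ) := U.sigma fun u => DS P j D τ F α u.2 with hQ
  have key : ∀ x ∈ Q, x.1 ∈ U ∧ x.2 ∈ DS P j D τ F α x.1.2 := by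
    intro x hx
    rw [hQ, Finset.mem_sigma] at hx
    exact hx
  have himg : Q.image f ⊆ DS P (j + 1) D1 τ1 F α (M, w) := by
    intro t ht
    rw [Finset.mem_image] at ht
    obtain ⟨x, hx, rfl⟩ := ht
    obtain ⟨hxU, hxS⟩ := key x hx
    have hv := mem_VX.1 (hU hxU)
    have h1 := DS_step P j c D τ η' F α x.1.2.1 M x.1.1 x.1.2.2 w hv.2.1 hv.1 hv.2.2.2 (hUn _ hxU)
      hD hc x.2 hxS
    exact DS_mono P (j + 1) _ _ _ _ F α (M, w) hD1 hτ1 h1
  -- the fibres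
  have hfib : ∀ a ∈ Q.image f, (Q.filter fun x => f x = a).card ≤
      (⌊m⌋₊ * (⌊2 * c⌋₊ + 1)) * (j + 1) := by
    intro a ha
    have haD := mem_DS.1 (himg ha)
    have ha0 : 0 < a.1 := lt_of_lt_of_le (pow_pos hP0 (j + 1)) haD.1
    set G : Finset (ℕ × ℕ × ℝ) := (Q.filter fun x => f x = a).image fun x => x.1 with hG
    have hcard : (Q.filter fun x => f x = a).card = G.card := by
      rw [hG, Finset.card_image_of_injOn]
      intro x hx y hy hxy
      rw [Finset.mem_coe, Finset.mem_filter] at hx hy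
      have hxy' : x.1 = y.1 := hxy
      have hp : 0 < x.1.1 := hP0.trans (mem_VX.1 (hU (key x hx.1).1)).1.1
      have e1 : x.1.1 * x.2.1 = a.1 := congrArg Prod.fst hx.2
      have e2 : y.1.1 * y.2.1 = a.1 := congrArg Prod.fst hy.2
      have e3 : (f x).2 = a.2 := by rw [hx.2]
      have e4 : (f y).2 = a.2 := by rw [hy.2]
      have e5 : x.2.1 = y.2.1 := by
        rw [← hxy', ← e1] at e2
        exact (Nat.eq_of_mul_eq_mul_left hp e2).symm
      have e6 : x.2 = y.2 := Prod.ext e5 (e3.trans e4.symm)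
      exact Sigma.ext hxy' (heq_of_eq e6)
    have hGmem : ∀ t ∈ G, t ∈ U ∧ t.1 ∣ a.1 := by
      intro t ht
      rw [hG, Finset.mem_image] at ht
      obtain ⟨x, hx, rfl⟩ := ht
      rw [Finset.mem_filter] at hx
      exact ⟨(key x hx.1).1, ⟨x.2.1, (congrArg Prod.fst hx.2).symm⟩⟩
    have h1 : G.card ≤ (⌊m⌋₊ * (⌊2 * c⌋₊ + 1)) * (G.image Prod.fst).card := by
      refine Finset.card_le_mul_card_image G _ fun p hp => ?_
      have hp' := hp
      rw [Finset.mem_image] at hp'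
      obtain ⟨t0, ht0, ht0p⟩ := hp'
      have hPp : P < p := by
        rw [← ht0p]
        exact (mem_VX.1 (hU (hGmem t0 ht0).1)).1.1
      have hinj : (G.filter fun x => Prod.fst x = p).card =
          ((G.filter fun x => Prod.fst x = p).image Prod.snd).card := by
        rw [Finset.card_image_of_injOn]
        intro x hx y hy hxy
        rw [Finset.mem_coe, Finset.mem_filter] at hx hy
        exact Prod.ext (hx.2.trans hy.2.symm) hxy
      rw [hinj]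
      obtain ⟨W, hW⟩ : ∃ W, W = (G.filter fun x => Prod.fst x = p).image Prod.snd := ⟨_, rfl⟩
      rw [← hW]
      have hWmem : ∀ v ∈ W, v ∈ V ∧ |(v.1 : ℝ) * p - (M : ℝ) * P| ≤ c * P := by
        intro v hv
        rw [hW, Finset.mem_image] at hv
        obtain ⟨t, ht, rfl⟩ := hv
        rw [Finset.mem_filter] at ht
        have := mem_VX.1 (hU (hGmem t ht.1).1)
        refine ⟨this.2.2.1, ?_⟩
        rw [← ht.2]
        exact this.2.2.2
      have h2 : W.card ≤ ⌊m⌋₊ * (W.image Prod.fst).card := by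
        refine Finset.card_le_mul_card_image W _ fun K _ => ?_
        have h3 : ((W.filter fun x => Prod.fst x = K).card : ℝ) ≤ m := by
          refine le_trans ?_ (hmult K)
          refine Nat.cast_le.2 (Finset.card_le_card fun v hv => ?_)
          rw [Finset.mem_filter] at hv ⊢
          exact ⟨(hWmem v hv.1).1, hv.2⟩
        exact Nat.le_floor h3
      have h3 : (W.image Prod.fst).card ≤ ⌊2 * c⌋₊ + 1 := by
        refine Weak_cardK (X := (M : ℝ) * P) hc hP0 hPp _ fun K hK => ?_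
        rw [Finset.mem_image] at hK
        obtain ⟨v, hv, rfl⟩ := hK
        exact (hWmem v hv).2
      exact h2.trans (Nat.mul_le_mul_left _ h3)
    have h2 : (G.image Prod.fst).card ≤ j + 1 := by
      refine Weak_cardP hP ha0 haD.2.1 _ fun p hp => ?_
      rw [Finset.mem_image] at hp
      obtain ⟨t, ht, rfl⟩ := hp
      obtain ⟨htU, htd⟩ := hGmem t ht
      have := mem_VX.1 (hU htU)
      exact ⟨this.2.1, this.1.1, htd⟩
    rw [hcard]
    exact h1.trans (Nat.mul_le_mul_left _ h2)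
  have hcardQ : Q.card ≤ ((⌊m⌋₊ * (⌊2 * c⌋₊ + 1)) * (j + 1)) * (Q.image f).card :=
    Finset.card_le_mul_card_image Q _ hfib
  have hQc : (U.card : ℝ) * (μ * (P : ℝ) ^ j) ≤ Q.card := by
    rw [hQ, Finset.card_sigma]
    push_cast
    calc (U.card : ℝ) * (μ * (P : ℝ) ^ j) = ∑ _t ∈ U, μ * (P : ℝ) ^ j := by
          rw [Finset.sum_const, nsmul_eq_mul]
      _ ≤ ∑ t ∈ U, ((DS P j D τ F α t.2).card : ℝ) :=
          Finset.sum_le_sum fun t ht => hV _ (mem_VX.1 (hU ht)).2.2.1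
  have hC2 : ((⌊2 * c⌋₊ : ℕ) : ℝ) ≤ 2 * c := Nat.floor_le (by linarith)
  have hm2 : ((⌊m⌋₊ : ℕ) : ℝ) ≤ m := Nat.floor_le (by linarith)
  have hj0 : (0 : ℝ) ≤ j := Nat.cast_nonneg j
  have hm0 : 0 < m := by linarith
  have hpos : (0 : ℝ) < m * ((j + 1) * (2 * c + 1)) := by positivity
  rw [div_le_iff₀ hpos]
  have h3 : (Q.card : ℝ) ≤ ((⌊m⌋₊ : ℝ) * ((⌊2 * c⌋₊ : ℝ) + 1)) * (j + 1) * (Q.image f).card := by
    exact_mod_cast hcardQ
  have h5 : ((⌊m⌋₊ : ℝ) * ((⌊2 * c⌋₊ : ℝ) + 1)) ≤ m * (2 * c + 1) :=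
    mul_le_mul hm2 (by linarith) (by positivity) hm0.le
  have h4 : ((⌊m⌋₊ : ℝ) * ((⌊2 * c⌋₊ : ℝ) + 1)) * (j + 1) * (Q.image f).card ≤
      (m * (2 * c + 1)) * (j + 1) * (DS P (j + 1) D1 τ1 F α (M, w)).card := by
    refine mul_le_mul (mul_le_mul_of_nonneg_right h5 (by linarith)) ?_ (Nat.cast_nonneg _)
      (by positivity)
    exact_mod_cast Finset.card_le_card himg
  calc (U.card : ℝ) * (μ * (P : ℝ) ^ j) ≤ Q.card := hQc
    _ ≤ _ := h3
    _ ≤ _ := h4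
    _ = ((DS P (j + 1) D1 τ1 F α (M, w)).card : ℝ) * (m * ((j + 1) * (2 * c + 1))) := by ring

end Pool.Agent.H74.MDX

end

section

/-!
# MDX Nd: a frequency which is small on many rough numbers

Proof.  Dirichlet: there are `q ≥ 1`, `q ≤ 4X`, `b ∈ ℤ` coprime to `q` with `|φ - b/q| ≤ 1/(4 X q)` (e.g. `Real.exists_rat_abs_sub_le_and_den_le`, `Rat.den`, for the natural number
`4X`; it gives `≤ 1/((4X+1) q)`).  For `a ∈ S`: `a ≤ X`, `|a (φ - b/q)| ≤ 1/(4q)`, so `nz (a b/q) ≤ t + 1/(4q)`.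
* `2 ≤ q ≤ P`: take `a ∈ S` (nonempty by `hS`); its prime factors are `> P`, so `gcd(a, q) = 1`, `q ∤ a b`, `nz (a b/q) ≥ 1/q` (`nz_frac_ge`), so `3/(4q) ≤ t`,
  but `t < 3/(4P) ≤ 3/(4q)`.
* `q > P`: `a b mod q` (absolutely smallest residue `r`) satisfies `|r| ≤ t q + 1/4`, at most `2 t q + 3/2` values of `r`, each determines `a` mod `q`, and each class mod `q` contains at most
  `X/q + 1` numbers `a ≤ X`.  So `|S| ≤ (X/q + 1)(2 t q + 3/2) = 2 t X + 3X/(2q) + 2 t q + 3/2 ≤ 10 t X + 3X/(2P) + 3/2` (`q ≤ 4X`): contradiction with `hS`.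
* `q = 1`: `|a (φ - b)| ≤ 1/4 < 1/2`, so `nz (a φ) = |a (φ - b)|` (`nz_sub_int`, `nz_eq_abs`), `Y |φ - b| ≤ a |φ - b| ≤ t`, and `nz φ ≤ |φ - b| ≤ t/Y`.
-/

set_option autoImplicit false

namespace Pool.Agent.H74.MDX

open Finset
open Pool.Agent.H53.MID (nz Rel)

private theorem Nd_int_card (S : Finset ℤ) (c : ℝ) (hc : 0 ≤ c) (h : ∀ k ∈ S, |(k : ℝ)| ≤ c) : (S.card : ℝ) ≤ 2 * c + 1 := by
  have h1 : S ⊆ Finset.Icc ⌈-c⌉ ⌊c⌋ := by
    intro z hz
    have h2 := abs_le.mp (h z hz)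
    rw [Finset.mem_Icc]
    exact ⟨Int.ceil_le.mpr h2.1, Int.le_floor.mpr h2.2⟩
  have h2 := Finset.card_le_card h1
  rw [Int.card_Icc] at h2
  have h3 : ⌈-c⌉ ≤ 0 := by rw [Int.ceil_le]; push_cast; linarith
  have h3' : 0 ≤ ⌊c⌋ := Int.floor_nonneg.mpr hc
  have h5 : (((⌊c⌋ + 1 - ⌈-c⌉).toNat : ℤ) : ℝ) = ((⌊c⌋ + 1 - ⌈-c⌉ : ℤ) : ℝ) := by
    rw [Int.toNat_of_nonneg (by linarith)]
  push_cast at h5
  have h6 : (S.card : ℝ) ≤ ((⌊c⌋ + 1 - ⌈-c⌉).toNat : ℝ) := by exact_mod_cast h2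
  have h7 := Int.floor_le c
  have h8 := Int.le_ceil (-c)
  linarith

private theorem Nd_class (X q : ℕ) (hq : 0 < q) (S : Finset ℕ) (hX : ∀ a ∈ S, a ≤ X)
    (hm : ∀ a ∈ S, ∀ b ∈ S, a % q = b % q) : S.card ≤ X / q + 1 := by
  have hinj : Set.InjOn (fun a : ℕ => a / q) S := by
    intro a ha b hb hab
    have h1 := hm a ha b hb
    have h2 := Nat.div_add_mod a q
    have h3 := Nat.div_add_mod b q
    simp only at hab
    rw [← h2, ← h3, hab, h1]
  rw [← Finset.card_image_of_injOn hinj]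
  have h4 : S.image (fun a : ℕ => a / q) ⊆ Finset.range (X / q + 1) := by
    intro y hy
    rw [Finset.mem_image] at hy
    obtain ⟨a, ha, rfl⟩ := hy
    rw [Finset.mem_range]
    exact Nat.lt_succ_of_le (Nat.div_le_div_right (hX a ha))
  have h5 := Finset.card_le_card h4
  rw [Finset.card_range] at h5
  exact h5

theorem nd_rough (P X Y : ℕ) (t φ : ℝ) (S : Finset ℕ) (hP : 1 ≤ P) (hY : 1 ≤ Y) (hX : 1 ≤ X) (ht : 0 ≤ t) (htP : 4 * t * P < 3)
    (hSX : ∀ a ∈ S, Y ≤ a ∧ a ≤ X) (hSr : ∀ a ∈ S, ∀ q : ℕ, q.Prime → q ∣ a → P < q)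
    (hSt : ∀ a ∈ S, nz (a * φ) ≤ t) (hS : 10 * t * X + 3 * X / P + 3 < S.card) : nz φ ≤ t / Y := by
  have hX0 : (0 : ℝ) < X := by exact_mod_cast hX
  have hP0 : (0 : ℝ) < P := by exact_mod_cast hP
  have hY0 : (0 : ℝ) < Y := by exact_mod_cast hY
  obtain ⟨r, hr1, hr2⟩ := Real.exists_rat_abs_sub_le_and_den_le φ (n := 4 * X) (by omega)
  set q : ℕ := r.den with hq
  have hqpos : 0 < q := r.den_pos
  have hq0 : (0 : ℝ) < q := by exact_mod_cast hqpos
  set b : ℤ := r.num with hb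
  have hrb : (r : ℝ) = (b : ℝ) / q := by
    rw [hb, hq]; exact (Rat.cast_def r)
  have hcop : IsCoprime b (q : ℤ) := by
    rw [Int.isCoprime_iff_nat_coprime]
    have := r.reduced
    simpa using this
  have hnear : ∀ a ∈ S, |(a : ℝ) * φ - (a : ℝ) * (b / q)| ≤ 1 / (4 * q) := by
    intro a ha
    have ha2 : (a : ℝ) ≤ X := by exact_mod_cast (hSX a ha).2
    rw [← mul_sub, abs_mul, Nat.abs_cast]
    have h1 : |φ - (b : ℝ) / q| ≤ 1 / ((4 * X + 1) * q) := by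
      rw [← hrb]; push_cast at hr1; exact hr1
    calc (a : ℝ) * |φ - (b : ℝ) / q| ≤ X * (1 / ((4 * X + 1) * q)) :=
          mul_le_mul ha2 h1 (abs_nonneg _) hX0.le
      _ ≤ 1 / (4 * q) := by
          rw [mul_one_div, div_le_div_iff₀ (by positivity) (by positivity)]
          nlinarith
  have hfrac : ∀ a ∈ S, nz ((a : ℝ) * (b / q)) ≤ t + 1 / (4 * q) := by
    intro a ha
    have h1 : (a : ℝ) * (b / q) = a * φ - (a * φ - a * (b / q)) := by ring
    rw [h1]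
    refine (Pool.Agent.H53.MID.nz_sub _ _).trans (add_le_add (hSt a ha) ?_)
    exact (Pool.Agent.H53.MID.nz_le_abs _).trans (hnear a ha)
  have hSne : S.Nonempty := by
    rw [← Finset.card_pos]
    have h1 : (0 : ℝ) < S.card := lt_of_le_of_lt (by positivity) hS
    exact_mod_cast h1
  rcases Nat.lt_or_ge P q with hPq | hqP
  · -- large denominators: counting
    exfalso
    have hPq' : (P : ℝ) < q := by exact_mod_cast hPq
    set f : ℕ → ℤ := fun a => (a : ℤ) * b - q * round ((a : ℝ) * (b / q)) with hf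
    have hfb : ∀ a ∈ S, |((f a : ℤ) : ℝ)| ≤ t * q + 1 / 4 := by
      intro a ha
      have h1 := hfrac a ha
      have h2 : ((f a : ℤ) : ℝ) = q * ((a : ℝ) * (b / q) - round ((a : ℝ) * (b / q))) := by
        rw [hf]; push_cast; field_simp
      rw [h2, abs_mul, Nat.abs_cast]
      have h3 : |(a : ℝ) * (b / q) - round ((a : ℝ) * (b / q))| ≤ t + 1 / (4 * q) := h1
      calc (q : ℝ) * |(a : ℝ) * (b / q) - round ((a : ℝ) * (b / q))| ≤ q * (t + 1 / (4 * q)) :=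
            mul_le_mul_of_nonneg_left h3 hq0.le
        _ = t * q + 1 / 4 := by field_simp
    have hfib : ∀ z ∈ S.image f, (S.filter (fun a => f a = z)).card ≤ X / q + 1 := by
      intro z _
      refine Nd_class X q hqpos _ (fun a ha => (hSX a (Finset.mem_filter.mp ha).1).2) ?_
      intro a ha a' ha'
      rw [Finset.mem_filter] at ha ha'
      have h1 : f a = f a' := ha.2.trans ha'.2.symm
      have h2 : (q : ℤ) ∣ ((a : ℤ) - a') * b := by
        refine ⟨round ((a : ℝ) * (b / q)) - round ((a' : ℝ) * (b / q)), ?_⟩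
        simp only [hf] at h1
        linear_combination h1
      have h3 : (q : ℤ) ∣ (a : ℤ) - a' := hcop.symm.dvd_of_dvd_mul_right h2
      have h4 : (a' : ℤ) ≡ a [ZMOD q] := (Int.modEq_iff_dvd).mpr h3
      have h5 : (a' : ℕ) ≡ a [MOD q] := (Int.natCast_modEq_iff).mp h4
      exact h5.symm
    have hc1 := Finset.card_le_mul_card_image S (X / q + 1) hfib
    have hc2 : ((S.image f).card : ℝ) ≤ 2 * (t * q + 1 / 4) + 1 := by
      refine Nd_int_card _ _ (by positivity) ?_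
      intro k hk
      rw [Finset.mem_image] at hk
      obtain ⟨a, ha, rfl⟩ := hk
      exact hfb a ha
    have hc3 : ((X / q : ℕ) : ℝ) ≤ X / q := Nat.cast_div_le
    have hc4 : (S.card : ℝ) ≤ (X / q + 1) * (2 * (t * q + 1 / 4) + 1) := by
      calc (S.card : ℝ) ≤ (((X / q : ℕ) : ℝ) + 1) * ((S.image f).card : ℝ) := by exact_mod_cast hc1
        _ ≤ (X / q + 1) * (2 * (t * q + 1 / 4) + 1) :=
            mul_le_mul (by linarith) hc2 (Nat.cast_nonneg _) (by positivity)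
    have hq4 : (q : ℝ) ≤ 4 * X := by exact_mod_cast hr2
    have e1 : ((X : ℝ) / q + 1) * (2 * (t * q + 1 / 4) + 1) = 2 * t * X + 3 / 2 * (X / q) + 2 * t * q + 3 / 2 := by
      field_simp
      ring
    have e2 : (X : ℝ) / q ≤ X / P := div_le_div_of_nonneg_left hX0.le hP0 hPq'.le
    have e3 : t * q ≤ t * (4 * X) := mul_le_mul_of_nonneg_left hq4 ht
    have e4 : 3 * (X : ℝ) / P = 3 * (X / P) := by ring
    have e5 : (0 : ℝ) ≤ X / P := by positivity
    rw [e1] at hc4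
    rw [e4] at hS
    linarith
  · rcases Nat.lt_or_ge 1 q with h1q | hq1
    · -- small denominators
      exfalso
      obtain ⟨a, ha⟩ := hSne
      have hac : Nat.Coprime a q := by
        rw [Nat.coprime_iff_gcd_eq_one]
        by_contra hne
        obtain ⟨p, hp, hpd⟩ := Nat.exists_prime_and_dvd hne
        have h1 := hSr a ha p hp (hpd.trans (Nat.gcd_dvd_left _ _))
        have h2 := Nat.le_of_dvd hqpos (hpd.trans (Nat.gcd_dvd_right _ _))
        omega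
      have hnd : ¬ ((q : ℕ) : ℤ) ∣ (a : ℤ) * b := by
        intro hd
        have h1 : IsCoprime ((a : ℤ) * b) (q : ℤ) :=
          IsCoprime.mul_left (Nat.isCoprime_iff_coprime.mpr hac) hcop
        have h2 : IsUnit ((q : ℕ) : ℤ) := h1.isUnit_of_dvd' hd (dvd_refl _)
        rw [Int.isUnit_iff_natAbs_eq, Int.natAbs_natCast] at h2
        omega
      have h1 := Pool.Agent.H53.MID.nz_frac_ge ((a : ℤ) * b) q hqpos hnd
      have h2 : (((a : ℤ) * b : ℤ) : ℝ) / q = (a : ℝ) * (b / q) := by push_cast; ring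
      rw [h2] at h1
      have h3 := h1.trans (hfrac a ha)
      have h4 : 3 ≤ 4 * t * q := by
        have h5 : 1 / (q : ℝ) - 1 / (4 * q) ≤ t := by linarith
        have h6 : 1 / (q : ℝ) - 1 / (4 * q) = 3 / (4 * q) := by field_simp; ring
        rw [h6, div_le_iff₀ (by positivity)] at h5
        linarith
      have h5 : (q : ℝ) ≤ P := by exact_mod_cast hqP
      have h6 : 4 * t * q ≤ 4 * t * P := mul_le_mul_of_nonneg_left h5 (by positivity)
      linarith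
    · -- denominator one
      have hq1' : q = 1 := by omega
      obtain ⟨a, ha⟩ := hSne
      have hY' : (Y : ℝ) ≤ a := by exact_mod_cast (hSX a ha).1
      have h1 := hnear a ha
      rw [hq1'] at h1
      have h2 : |(a : ℝ) * (φ - b)| ≤ 1 / 4 := by
        have e : (a : ℝ) * (φ - b) = a * φ - a * (b / ((1 : ℕ) : ℝ)) := by push_cast; ring
        rw [e]
        refine h1.trans ?_
        norm_num
      have h3 : nz ((a : ℝ) * φ) = |(a : ℝ) * (φ - b)| := by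
        have e : (a : ℝ) * (φ - b) = a * φ - ((a * b : ℤ) : ℝ) := by push_cast; ring
        rw [← Pool.Agent.H53.MID.nz_eq_abs _ (lt_of_le_of_lt h2 (by norm_num)), e,
          Pool.Agent.H53.MID.nz_sub_int]
      have h4 := hSt a ha
      rw [h3, abs_mul, Nat.abs_cast] at h4
      have h5 : (Y : ℝ) * |φ - b| ≤ t := (mul_le_mul_of_nonneg_right hY' (abs_nonneg _)).trans h4
      refine (Pool.Agent.H53.MID.nz_le_of φ b).trans ?_
      rw [le_div_iff₀ hY0]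
      linarith

end Pool.Agent.H74.MDX

end

section

/-!
# MDX DsInt: the total number of descendants, and intersections

`ds_tot`: `a ∈ [P^j, (2P)^j]` takes at most `(2P)^j - P^j + 1 ≤ (2P)^j` values and for each `a ≥ P^j` there are at most `2D+1` values `i` with `|i a - M P^j| ≤ D P^j`
(`|i - M P^j/a| ≤ D`, `int_card`).
`ds_int`: let `S` be the set of the first coordinates of the intersection.  The intersection has at most `(2D+1) |S|` elements (as before), so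
`|S| > 5 X/P`, `X = (2P)^(j+1)`.  For `a ∈ S`: `nz (a (γ - γ')) ≤ 2τ` (`nz_sub`/`nz_triangle`, both `a γ` and `a γ'` are within `τ` of `α i`).  Apply `nd_rough` with `Y = P^(j+1)`,
`t = 2τ`, `φ = γ - γ'`: `4 t P = 8 τ P < 3`, `10 t X + 3 X/P + 3 ≤ X/(2P) + 3X/P + (3/2) X/P = 5 X/P` (`40 τ P ≤ 1`, `X/P ≥ 2`).
-/

set_option autoImplicit false

namespace Pool.Agent.H74.MDX

open Finset
open Pool.Agent.H53.MID (nz nz_sub Rel Desc)

private theorem DsInt_fib (P j M : ℕ) (D : ℝ) (U : Finset (ℕ × ℕ)) (hP : 1 ≤ P) (hD : 0 ≤ D)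
    (hU : ∀ t ∈ U, P ^ j ≤ t.1 ∧ |(t.2 : ℝ) * t.1 - M * (P : ℝ) ^ j| ≤ D * (P : ℝ) ^ j) :
    (U.card : ℝ) ≤ (2 * D + 1) * ((U.image Prod.fst).card : ℝ) := by
  have hP0 : (0 : ℝ) < (P : ℝ) ^ j := by
    have : (0 : ℝ) < P := by exact_mod_cast hP
    positivity
  have h1 : U.card = ∑ a ∈ U.image Prod.fst, (U.filter (fun t => t.1 = a)).card :=
    Finset.card_eq_sum_card_fiberwise (fun t ht => Finset.mem_image_of_mem _ ht)
  have h2 : ∀ a ∈ U.image Prod.fst, ((U.filter (fun t => t.1 = a)).card : ℝ) ≤ 2 * D + 1 := by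
    intro a ha
    obtain ⟨t0, ht0, rfl⟩ := Finset.mem_image.1 ha
    have ha1 : (P : ℝ) ^ j ≤ (t0.1 : ℝ) := by exact_mod_cast (hU t0 ht0).1
    have ha0 : (0 : ℝ) < (t0.1 : ℝ) := lt_of_lt_of_le hP0 ha1
    have h3 : (U.filter (fun t => t.1 = t0.1)).card = ((U.filter (fun t => t.1 = t0.1)).image Prod.snd).card := by
      rw [Finset.card_image_of_injOn]
      intro x hx y hy hxy
      have hx1 := (Finset.mem_filter.1 (Finset.mem_coe.1 hx)).2
      have hy1 := (Finset.mem_filter.1 (Finset.mem_coe.1 hy)).2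
      exact Prod.ext (hx1.trans hy1.symm) hxy
    rw [h3]
    refine int_card _ (M * (P : ℝ) ^ j / t0.1) D hD ?_
    intro k hk
    obtain ⟨t, ht, rfl⟩ := Finset.mem_image.1 hk
    obtain ⟨ht1, ht2⟩ := Finset.mem_filter.1 ht
    have h4 := (hU t ht1).2
    rw [ht2] at h4
    have h5 : (t.2 : ℝ) - M * (P : ℝ) ^ j / t0.1 = ((t.2 : ℝ) * t0.1 - M * (P : ℝ) ^ j) / t0.1 := by
      field_simp
    rw [h5, abs_div, abs_of_pos ha0, div_le_iff₀ ha0]
    refine h4.trans ?_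
    exact mul_le_mul_of_nonneg_left ha1 hD
  rw [h1]
  push_cast
  refine (Finset.sum_le_sum h2).trans (le_of_eq ?_)
  rw [Finset.sum_const, nsmul_eq_mul]
  ring

theorem ds_tot (P j M : ℕ) (D : ℝ) (U : Finset (ℕ × ℕ)) (hP : 1 ≤ P) (hD : 0 ≤ D)
    (hU : ∀ t ∈ U, P ^ j ≤ t.1 ∧ t.1 ≤ (2 * P) ^ j ∧ |(t.2 : ℝ) * t.1 - M * (P : ℝ) ^ j| ≤ D * (P : ℝ) ^ j) :
    (U.card : ℝ) ≤ (2 * D + 1) * (2 * P) ^ j := by
  have h1 := DsInt_fib P j M D U hP hD (fun t ht => ⟨(hU t ht).1, (hU t ht).2.2⟩)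
  have h2 : (U.image Prod.fst) ⊆ Icc (P ^ j) ((2 * P) ^ j) := by
    intro a ha
    obtain ⟨t, ht, rfl⟩ := Finset.mem_image.1 ha
    exact Finset.mem_Icc.2 ⟨(hU t ht).1, (hU t ht).2.1⟩
  have h3 := Finset.card_le_card h2
  rw [Nat.card_Icc] at h3
  have h4 : 1 ≤ P ^ j := Nat.one_le_pow _ _ hP
  have h5 : (U.image Prod.fst).card ≤ (2 * P) ^ j := by omega
  have h6 : ((U.image Prod.fst).card : ℝ) ≤ (2 * P) ^ j := by exact_mod_cast h5
  exact h1.trans (mul_le_mul_of_nonneg_left h6 (by linarith))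

open Classical in
theorem ds_int (P j M : ℕ) (D τ : ℝ) (F : Finset ℕ) (α : ℕ → ℝ) (γ γ' : ℝ) (hP : 1 ≤ P) (hD : 0 ≤ D) (hτ : 0 ≤ τ)
    (hτP : 40 * τ * P ≤ 1)
    (h : 5 * (2 * D + 1) * (2 * P) ^ (j + 1) / P <
      ((DS P (j + 1) D τ F α (M, γ) ∩ DS P (j + 1) D τ F α (M, γ')).card : ℝ)) :
    nz (γ - γ') ≤ 2 * τ / (P : ℝ) ^ (j + 1) := by
  set U := DS P (j + 1) D τ F α (M, γ) ∩ DS P (j + 1) D τ F α (M, γ') with hUdef
  have hPr : (0 : ℝ) < P := by exact_mod_cast hP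
  have hP1 : (1 : ℝ) ≤ P := by exact_mod_cast hP
  have hU : ∀ t ∈ U, t ∈ DS P (j + 1) D τ F α (M, γ) ∧ t ∈ DS P (j + 1) D τ F α (M, γ') := by
    intro t ht
    exact Finset.mem_inter.1 ht
  have h1 := DsInt_fib P (j + 1) M D U hP hD (fun t ht =>
    ⟨(mem_DS.1 (hU t ht).1).1, (mem_DS.1 (hU t ht).1).2.2.2.2.1⟩)
  have hD1 : 0 < 2 * D + 1 := by linarith
  have hX : (1 : ℝ) ≤ (2 * (P : ℝ)) ^ j := one_le_pow₀ (by linarith)
  have hX2 : (2 * (P : ℝ)) ^ (j + 1) = (2 * (P : ℝ)) ^ j * (2 * P) := pow_succ _ _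
  have hXP : (2 * (P : ℝ)) ^ (j + 1) / P = 2 * (2 * (P : ℝ)) ^ j := by
    rw [hX2]
    field_simp
  have h2 : 5 * ((2 * (P : ℝ)) ^ (j + 1) / P) < ((U.image Prod.fst).card : ℝ) := by
    have h3 := h.trans_le h1
    have h4 : 5 * (2 * D + 1) * (2 * (P : ℝ)) ^ (j + 1) / P = (2 * D + 1) * (5 * ((2 * (P : ℝ)) ^ (j + 1) / P)) := by
      ring
    rw [h4] at h3
    exact lt_of_mul_lt_mul_left h3 hD1.le
  have h5 := nd_rough P ((2 * P) ^ (j + 1)) (P ^ (j + 1)) (2 * τ) (γ - γ') (U.image Prod.fst) hP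
    (Nat.one_le_pow _ _ hP) (Nat.one_le_pow _ _ (by omega)) (by linarith) (by nlinarith)
    (by
      intro a ha
      obtain ⟨t, ht, rfl⟩ := Finset.mem_image.1 ha
      exact ⟨(mem_DS.1 (hU t ht).1).1, (mem_DS.1 (hU t ht).1).2.1⟩)
    (by
      intro a ha
      obtain ⟨t, ht, rfl⟩ := Finset.mem_image.1 ha
      exact (mem_DS.1 (hU t ht).1).2.2.2.1)
    (by
      intro a ha
      obtain ⟨t, ht, rfl⟩ := Finset.mem_image.1 ha
      have h6 := (mem_DS.1 (hU t ht).1).2.2.2.2.2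
      have h7 := (mem_DS.1 (hU t ht).2).2.2.2.2.2
      have h8 : (t.1 : ℝ) * (γ - γ') = (t.1 * γ - α t.2) - (t.1 * γ' - α t.2) := by ring
      rw [h8]
      refine (nz_sub _ _).trans ?_
      simp only at h6 h7
      linarith)
    (by
      push_cast
      rw [mul_div_assoc, hXP]
      rw [hXP] at h2
      have h9 : 10 * (2 * τ) * (2 * (P : ℝ)) ^ (j + 1) ≤ (2 * (P : ℝ)) ^ j := by
        rw [hX2]
        have h10 : 10 * (2 * τ) * ((2 * (P : ℝ)) ^ j * (2 * P)) = (40 * τ * P) * (2 * (P : ℝ)) ^ j := by ring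
        rw [h10]
        have h11 := mul_le_mul_of_nonneg_right hτP (by linarith : (0 : ℝ) ≤ (2 * (P : ℝ)) ^ j)
        linarith
      linarith)
  push_cast at h5
  exact h5

end Pool.Agent.H74.MDX

end

section

/-!
# MID FourC: lifting a frequency and the 4-cycle lemma

`lift`: `p ≠ p1` primes, `nz (p1 a - p a1) ≤ d`.  Then there is `s : ℤ` such that `w = (a + s)/p` satisfies `nz (p1 w - a1) ≤ d/p`.
Proof.  `p1 a - p a1 = r + e`, `r ∈ ℤ`, `|e| = nz(..) ≤ d` (`nz_exists`).  `p1 w - a1 = (r + p1 s + e)/p`; choose `s` with `p ∣ r + p1 s`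
(`p1` is invertible modulo `p`: `Int.isCoprime_iff_gcd_eq_one`/Bezout: `u p1 + v p = 1`, `s = -r u`).

`four_cycle`: `p ≠ q`, `p ≠ p1`, `p ≠ p2` primes in `(P, 2P]`, `w_i = (a + s_i)/p`, `nz (p_i w_i - a_i) ≤ d/p`, `nz (p_i b - q a_i) ≤ d` for
`i = 1, 2`, `48 d P^2 < 1`.  Then `p ∣ s1 - s2` (so `w1 - w2` is an integer) and therefore `nz (p2 w1 - a2) ≤ d/p`.
Proof.  `u_i = b - q w_i`.  `p_i u_i = (p_i b - q a_i) - q (p_i w_i - a_i)`, so `p_i u_i = c_i + f_i`, `c_i ∈ ℤ`,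
`|f_i| ≤ d + q d/p ≤ 3 d` (`q ≤ 2P < 2p`).  `u_2 - u_1 = q (w_1 - w_2) = q (s_1 - s_2)/p`.  Multiply
`c_2/p_2 + f_2/p_2 - c_1/p_1 - f_1/p_1 = q (s_1 - s_2)/p` by `p p_1 p_2`: the integer `Z = c_2 p p_1 - c_1 p p_2 - q (s_1 - s_2) p_1 p_2`
is `f_1 p p_2 - f_2 p p_1`, of absolute value `≤ 3 d · 4 P^2 · 2 = 24 d P^2 < 1`, so `Z = 0` and `p ∣ q (s_1 - s_2) p_1 p_2`; `p` is prime and
different from the primes `q, p_1, p_2`, so `p ∣ s_1 - s_2`.
-/

set_option autoImplicit false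

namespace Pool.Agent.H53.MID

theorem lift (p p1 : ℕ) (hp : p.Prime) (hp1 : p1.Prime) (hne : p ≠ p1) (a a1 d : ℝ)
    (h : nz (p1 * a - p * a1) ≤ d) : ∃ s : ℤ, nz (p1 * ((a + s) / p) - a1) ≤ d / p := by
  obtain ⟨r, hr⟩ := nz_exists (p1 * a - p * a1)
  have hcop : Nat.Coprime p1 p := (Nat.coprime_primes hp1 hp).2 (Ne.symm hne)
  have hcop' : IsCoprime (p1 : ℤ) (p : ℤ) := Nat.isCoprime_iff_coprime.2 hcop
  obtain ⟨u, v, huv⟩ := hcop'
  have hp0 : (0 : ℝ) < p := by exact_mod_cast hp.pos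
  refine ⟨-(r * u), ?_⟩
  have huv' : (u : ℝ) * p1 + v * p = 1 := by exact_mod_cast huv
  refine (nz_le_of _ (r * v)).trans ?_
  have e : (p1 : ℝ) * ((a + ((-(r * u) : ℤ) : ℝ)) / p) - a1 - ((r * v : ℤ) : ℝ) =
      (p1 * a - p * a1 - r) / p := by
    push_cast
    field_simp
    linear_combination (-(r : ℝ)) * huv'
  rw [e, abs_div, abs_of_pos hp0]
  exact div_le_div_of_nonneg_right (hr.trans_le h) hp0.le

private theorem FourC_aux (P p q p1 : ℕ) (hp : p.Prime) (hpP : P < p ∧ p ≤ 2 * P) (hqP : P < q ∧ q ≤ 2 * P)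
    (b a1 d w : ℝ) (h1 : nz (p1 * w - a1) ≤ d / p) (g1 : nz (p1 * b - q * a1) ≤ d) :
    ∃ (c : ℤ) (f : ℝ), |f| ≤ 3 * d ∧ p1 * (b - q * w) = c + f := by
  obtain ⟨m, hm⟩ := nz_exists (p1 * w - a1)
  obtain ⟨c, hc⟩ := nz_exists (p1 * b - q * a1)
  refine ⟨c - q * m, (p1 * b - q * a1 - c) - q * (p1 * w - a1 - m), ?_, ?_⟩
  · have hp0 : (0 : ℝ) < p := by exact_mod_cast hp.pos
    have hqp : (q : ℝ) ≤ 2 * p := by
      have : q ≤ 2 * p := by omega
      exact_mod_cast this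
    have e1 : |p1 * b - q * a1 - c| ≤ d := hc.trans_le g1
    have e2 : |(p1 * w - a1 - m : ℝ)| ≤ d / p := hm.trans_le h1
    have e3 : |(q : ℝ) * (p1 * w - a1 - m)| ≤ 2 * d := by
      rw [abs_mul, abs_of_nonneg (Nat.cast_nonneg q)]
      calc (q : ℝ) * |p1 * w - a1 - m| ≤ (2 * p) * (d / p) :=
            mul_le_mul hqp e2 (abs_nonneg _) (by positivity)
        _ = 2 * d := by field_simp
    calc |(p1 * b - q * a1 - c) - q * (p1 * w - a1 - m)| ≤ |p1 * b - q * a1 - c| +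
          |(q : ℝ) * (p1 * w - a1 - m)| := abs_sub _ _
      _ ≤ d + 2 * d := add_le_add e1 e3
      _ = 3 * d := by ring
  · push_cast
    ring

theorem four_cycle (P p q p1 p2 : ℕ) (hp : p.Prime) (hq : q.Prime) (hp1 : p1.Prime) (hp2 : p2.Prime)
    (hpP : P < p ∧ p ≤ 2 * P) (hqP : P < q ∧ q ≤ 2 * P) (hp1P : P < p1 ∧ p1 ≤ 2 * P) (hp2P : P < p2 ∧ p2 ≤ 2 * P)
    (hpq : p ≠ q) (hpp1 : p ≠ p1) (hpp2 : p ≠ p2) (a b a1 a2 d : ℝ) (s1 s2 : ℤ)
    (h1 : nz (p1 * ((a + s1) / p) - a1) ≤ d / p) (h2 : nz (p2 * ((a + s2) / p) - a2) ≤ d / p)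
    (g1 : nz (p1 * b - q * a1) ≤ d) (g2 : nz (p2 * b - q * a2) ≤ d) (hd0 : 0 ≤ d) (hd : 48 * d * (P : ℝ) ^ 2 < 1) :
    nz (p2 * ((a + s1) / p) - a2) ≤ d / p := by
  obtain ⟨c1, f1, hf1, e1⟩ := FourC_aux P p q p1 hp hpP hqP b a1 d _ h1 g1
  obtain ⟨c2, f2, hf2, e2⟩ := FourC_aux P p q p2 hp hpP hqP b a2 d _ h2 g2
  have hp0 : (0 : ℝ) < p := by exact_mod_cast hp.pos
  set Z : ℤ := c2 * (p * p1) - c1 * (p * p2) - q * (s1 - s2) * (p1 * p2) with hZ
  have hZr : (Z : ℝ) = f1 * (p * p2) - f2 * (p * p1) := by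
    rw [hZ]
    push_cast
    have e1' : (c1 : ℝ) = p1 * (b - q * ((a + s1) / p)) - f1 := by linarith
    have e2' : (c2 : ℝ) = p2 * (b - q * ((a + s2) / p)) - f2 := by linarith
    rw [e1', e2']
    field_simp
    ring
  have hP0 : (0 : ℝ) ≤ P := Nat.cast_nonneg P
  have hpP' : (p : ℝ) ≤ 2 * P := by exact_mod_cast hpP.2
  have hp1P' : (p1 : ℝ) ≤ 2 * P := by exact_mod_cast hp1P.2
  have hp2P' : (p2 : ℝ) ≤ 2 * P := by exact_mod_cast hp2P.2
  have hb : ∀ (f r : ℝ), |f| ≤ 3 * d → 0 ≤ r → r ≤ 2 * P → |f * (p * r)| ≤ 12 * d * (P : ℝ) ^ 2 := by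
    intro f r hf hr hr2
    rw [abs_mul, abs_of_nonneg (mul_nonneg hp0.le hr)]
    calc |f| * (p * r) ≤ (3 * d) * ((2 * P) * (2 * P)) := by
          refine mul_le_mul hf (mul_le_mul hpP' hr2 hr (by positivity)) (by positivity) (by positivity)
      _ = 12 * d * (P : ℝ) ^ 2 := by ring
  have hZlt : |(Z : ℝ)| < 1 := by
    rw [hZr]
    have k1 := hb f1 p2 hf1 (Nat.cast_nonneg _) hp2P'
    have k2 := hb f2 p1 hf2 (Nat.cast_nonneg _) hp1P'
    have k3 := abs_sub (f1 * (p * p2)) (f2 * (p * p1))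
    have k4 : 0 ≤ d * (P : ℝ) ^ 2 := by positivity
    linarith
  have hZ0 : Z = 0 := by
    have h3 : |Z| < 1 := by exact_mod_cast hZlt
    exact Int.abs_lt_one_iff.1 h3
  have hpi : Prime (p : ℤ) := Nat.prime_iff_prime_int.1 hp
  have hndvd : ∀ r : ℕ, r.Prime → p ≠ r → ¬ (p : ℤ) ∣ (r : ℤ) := by
    intro r hr hne hdv
    exact hne ((Nat.prime_dvd_prime_iff_eq hp hr).1 (Int.natCast_dvd_natCast.1 hdv))
  have hdvd : (p : ℤ) ∣ s1 - s2 := by
    have h3 : (q : ℤ) * (s1 - s2) * (p1 * p2) = p * (c2 * p1 - c1 * p2) := by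
      have h4 := hZ0
      rw [hZ] at h4
      linear_combination -h4
    have h4 : (p : ℤ) ∣ (q : ℤ) * (s1 - s2) * (p1 * p2) := ⟨_, h3⟩
    rcases hpi.dvd_or_dvd h4 with h5 | h5
    · rcases hpi.dvd_or_dvd h5 with h6 | h6
      · exact absurd h6 (hndvd q hq hpq)
      · exact h6
    · rcases hpi.dvd_or_dvd h5 with h6 | h6
      · exact absurd h6 (hndvd p1 hp1 hpp1)
      · exact absurd h6 (hndvd p2 hp2 hpp2)
  obtain ⟨k, hk⟩ := hdvd
  have hk' : (s1 : ℝ) = s2 + p * k := by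
    have : s1 = s2 + p * k := by linarith
    exact_mod_cast this
  have e : (p2 : ℝ) * ((a + s1) / p) - a2 = (p2 * ((a + s2) / p) - a2) + ((p2 * k : ℤ) : ℝ) := by
    rw [hk']
    push_cast
    field_simp
    ring
  rw [e, nz_add_int]
  exact h2

end Pool.Agent.H53.MID

end

section

/-!
# MDX Root: the root of an edge

For an edge `e = ((p,K,k), (p',K',k'))` (`mem_EX`) `lift` (H53/MID/FourC.lean, with `p := p`, `p1 := p'`, `a := k`, `a1 := k'`, `d := 2 η`) gives an integer `s` with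
`nz (p' ((k + s)/p) - k') ≤ 2 η/p`.  Choose the representative `s ∈ [0, p)` (`s ↦ s % p`; changing `s` by a multiple of `p` changes `(k+s)/p` by an integer and the
argument of `nz` by an integer: `nz_add_int`).  Uniqueness: if `s1, s2 ∈ [0, p)` both satisfy it then `nz (p' (s1 - s2)/p) ≤ 4 η/p < 1/p`, so `p ∣ p' (s1 - s2)`
(`nz_frac_ge`), `p ∣ s1 - s2` (`p ≠ p'` primes), `s1 = s2`.
Second claim: `four_cycle` with `p = pr u`, `q = pr v`, `p1 = pr u1`, `p2 = pr u2`, `a = k_u`, `b = k_v`, `a1 = k_(u1)`, `a2 = k_(u2)`, `d = 2 η`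
(`48 d P^2 = 96 η P^2 < 1`): the label of `(u, u1)` also satisfies the inequality of `(u, u2)`; by uniqueness the labels are equal.
(If `η P^2` is small and `P ≥ 1` then also `4 η < 1`; the vertices have `P < p ≤ 2P`.)
-/

set_option autoImplicit false

namespace Pool.Agent.H74.MDX

open Finset
open Pool.Agent.H53.MID (nz Rel Desc)

private theorem Root_exists (p p1 : ℕ) (hp : p.Prime) (hp1 : p1.Prime) (hne : p ≠ p1) (a a1 d : ℝ)
    (h : nz (p1 * a - p * a1) ≤ d) :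
    ∃ s : ℤ, 0 ≤ s ∧ s < p ∧ nz (p1 * ((a + s) / p) - a1) ≤ d / p := by
  obtain ⟨s0, hs0⟩ := Pool.Agent.H53.MID.lift p p1 hp hp1 hne a a1 d h
  have hp0 : (0 : ℤ) < p := by exact_mod_cast hp.pos
  have hpR : (0 : ℝ) < p := by exact_mod_cast hp.pos
  refine ⟨s0 % p, Int.emod_nonneg _ hp0.ne', Int.emod_lt_of_pos _ hp0, ?_⟩
  have e0 : (s0 : ℝ) = ((s0 % p : ℤ) : ℝ) + p * ((s0 / p : ℤ) : ℝ) := by
    have := Int.emod_add_mul_ediv s0 p
    exact_mod_cast this.symm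
  have e1 : (p1 : ℝ) * ((a + s0) / p) - a1 =
      (p1 * ((a + ((s0 % p : ℤ) : ℝ)) / p) - a1) + ((p1 * (s0 / p) : ℤ) : ℝ) := by
    rw [e0]
    push_cast
    field_simp
    ring
  rw [e1, Pool.Agent.H53.MID.nz_add_int] at hs0
  exact hs0

private theorem Root_unique (p p1 : ℕ) (hp : p.Prime) (hp1 : p1.Prime) (hne : p ≠ p1) (a a1 η : ℝ) (hη : 4 * η < 1)
    (s t : ℤ) (hs0 : 0 ≤ s) (hsp : s < p) (ht0 : 0 ≤ t) (htp : t < p)
    (hs : nz (p1 * ((a + s) / p) - a1) ≤ 2 * η / p) (ht : nz (p1 * ((a + t) / p) - a1) ≤ 2 * η / p) : s = t := by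
  have hpR : (0 : ℝ) < p := by exact_mod_cast hp.pos
  have h1 := Pool.Agent.H53.MID.nz_sub (p1 * ((a + s) / p) - a1) (p1 * ((a + t) / p) - a1)
  have e1 : (p1 : ℝ) * ((a + s) / p) - a1 - (p1 * ((a + t) / p) - a1) = ((p1 * (s - t) : ℤ) : ℝ) / p := by
    push_cast
    field_simp
    ring
  rw [e1] at h1
  have h2 : nz (((p1 * (s - t) : ℤ) : ℝ) / p) < 1 / p := by
    refine (h1.trans (add_le_add hs ht)).trans_lt ?_
    rw [← add_div]
    exact div_lt_div_of_pos_right (by linarith) hpR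
  have h3 : (p : ℤ) ∣ (p1 : ℤ) * (s - t) := by
    by_contra h4
    have h5 := Pool.Agent.H53.MID.nz_frac_ge _ p hp.pos h4
    linarith
  have hpi : Prime (p : ℤ) := Nat.prime_iff_prime_int.1 hp
  rcases hpi.dvd_or_dvd h3 with h4 | h4
  · exact absurd ((Nat.prime_dvd_prime_iff_eq hp hp1).1 (Int.natCast_dvd_natCast.1 h4)) hne
  · have h5 : |s - t| < p := by
      rw [abs_lt]
      constructor <;> linarith
    have h6 := Int.eq_zero_of_abs_lt_dvd h4 h5
    linarith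

theorem root_label (c : ℝ) (P : ℕ) (η : ℝ) (V : Finset (ℕ × ℝ)) (M : ℕ) (hP : 1 ≤ P) (hη : 0 ≤ η)
    (hηP : 100 * η * (P : ℝ) ^ 2 ≤ 1) :
    ∃ s : (ℕ × ℕ × ℝ) × (ℕ × ℕ × ℝ) → ℤ,
      (∀ e ∈ EX c P η V M, nz ((e.2.1 : ℝ) * ((e.1.2.2 + s e) / e.1.1) - e.2.2.2) ≤ 2 * η / e.1.1) ∧
      ∀ u v u1 u2 : ℕ × ℕ × ℝ, (u, u1) ∈ EX c P η V M → (u, u2) ∈ EX c P η V M → (v, u1) ∈ EX c P η V M →
        (v, u2) ∈ EX c P η V M → u.1 ≠ v.1 → s (u, u1) = s (u, u2) := by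
  classical
  have hP2 : (1 : ℝ) ≤ (P : ℝ) ^ 2 := one_le_pow₀ (by exact_mod_cast hP)
  have hη4 : 4 * η < 1 := by nlinarith
  have hd : 48 * (2 * η) * (P : ℝ) ^ 2 < 1 := by nlinarith
  have key : ∀ e : (ℕ × ℕ × ℝ) × (ℕ × ℕ × ℝ), ∃ s : ℤ, e ∈ EX c P η V M →
      0 ≤ s ∧ s < e.1.1 ∧ nz ((e.2.1 : ℝ) * ((e.1.2.2 + s) / e.1.1) - e.2.2.2) ≤ 2 * η / e.1.1 := by
    intro e
    by_cases he : e ∈ EX c P η V M
    · obtain ⟨h1, h2, h3, h4⟩ := mem_EX.1 he
      obtain ⟨s, hs⟩ := Root_exists e.1.1 e.2.1 (mem_VX.1 h1).2.1 (mem_VX.1 h2).2.1 h3 e.1.2.2 e.2.2.2 (2 * η) h4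
      exact ⟨s, fun _ => hs⟩
    · exact ⟨0, fun h => absurd h he⟩
  choose s hs using key
  refine ⟨s, fun e he => (hs e he).2.2, ?_⟩
  intro u v u1 u2 h1 h2 h3 h4 huv
  obtain ⟨a1, a2, a3, a4⟩ := mem_EX.1 h1
  obtain ⟨b1, b2, b3, b4⟩ := mem_EX.1 h2
  obtain ⟨c1, c2, c3, c4⟩ := mem_EX.1 h3
  obtain ⟨d1, d2, d3, d4⟩ := mem_EX.1 h4
  obtain ⟨x1, x2, x3⟩ := hs _ h1
  obtain ⟨y1, y2, y3⟩ := hs _ h2
  have h5 := Pool.Agent.H53.MID.four_cycle P u.1 v.1 u1.1 u2.1 (mem_VX.1 a1).2.1 (mem_VX.1 c1).2.1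
    (mem_VX.1 a2).2.1 (mem_VX.1 b2).2.1 (mem_VX.1 a1).1 (mem_VX.1 c1).1 (mem_VX.1 a2).1 (mem_VX.1 b2).1
    huv a3 b3 u.2.2 v.2.2 u1.2.2 u2.2.2 (2 * η) (s (u, u1)) (s (u, u2)) x3 y3 c4 d4 (by linarith) hd
  exact Root_unique u.1 u2.1 (mem_VX.1 a1).2.1 (mem_VX.1 b2).2.1 b3 u.2.2 u2.2.2 η hη4 _ _ x1 x2 y1 y2 h5 y3

end Pool.Agent.H74.MDX

end

section

/-!
# MDX Sep: separated nets modulo 1

`net`: a maximal subset of `W` (with respect to inclusion or cardinality: `Finset.exists_max_image` on the filtered powerset) with pairwise `nz (g - g') > s`; by maximality every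
`w ∈ W` has some `g` with `nz (w - g) ≤ s` (for `w ∈ Γ` itself `nz 0 = 0 ≤ s`).
`near_card`: for `g'` in the set choose the integer `m` with `|g - g' - m| = nz (g - g') ≤ s'` and put `x(g') = g' - g + m ∈ [-s', s']` (`nz_exists`); for two different ones
`|x(g') - x(g'')| ≥ nz (g' - g'') > s` (`nz_le_of`).  So the map `g' ↦ ⌊(x(g') + s')/s⌋` is injective with values in `[0, 2s'/s]`: at most `2 s'/s + 1` elements.
-/

set_option autoImplicit false

namespace Pool.Agent.H74.MDX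

open Finset
open Pool.Agent.H53.MID (nz Rel)

theorem net (W : Finset ℝ) (s : ℝ) (hs : 0 ≤ s) : ∃ Γ ⊆ W, (∀ w ∈ W, ∃ g ∈ Γ, nz (w - g) ≤ s) ∧
    ∀ g ∈ Γ, ∀ g' ∈ Γ, g ≠ g' → s < nz (g - g') := by
  classical
  set A : Finset (Finset ℝ) := W.powerset.filter
    (fun Γ => ∀ g ∈ Γ, ∀ g' ∈ Γ, g ≠ g' → s < nz (g - g')) with hA
  have hne : A.Nonempty := by
    refine ⟨∅, ?_⟩
    rw [hA, Finset.mem_filter, Finset.mem_powerset]
    exact ⟨Finset.empty_subset _, fun g hg => absurd hg (Finset.notMem_empty g)⟩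
  obtain ⟨Γ, hΓ, hmax⟩ := A.exists_max_image (fun Γ => Γ.card) hne
  rw [hA, Finset.mem_filter, Finset.mem_powerset] at hΓ
  refine ⟨Γ, hΓ.1, fun w hw => ?_, hΓ.2⟩
  by_contra hcon
  push Not at hcon
  have hwΓ : w ∉ Γ := by
    intro h
    have h1 := hcon w h
    have h2 := Pool.Agent.H53.MID.nz_le_abs (w - w)
    rw [sub_self, abs_zero] at h2
    rw [sub_self] at h1
    linarith
  have hins : insert w Γ ∈ A := by
    rw [hA, Finset.mem_filter, Finset.mem_powerset]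
    refine ⟨Finset.insert_subset hw hΓ.1, fun g hg g' hg' hgg => ?_⟩
    rw [Finset.mem_insert] at hg hg'
    rcases hg with rfl | hg <;> rcases hg' with rfl | hg'
    · exact absurd rfl hgg
    · exact hcon g' hg'
    · rw [← Pool.Agent.H53.MID.nz_neg, neg_sub]
      exact hcon g hg
    · exact hΓ.2 g hg g' hg' hgg
  have h3 := hmax _ hins
  rw [Finset.card_insert_of_notMem hwΓ] at h3
  omega

open Classical in
theorem near_card (Γ : Finset ℝ) (s s' : ℝ) (hs : 0 < s) (hs' : 0 ≤ s')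
    (hsep : ∀ g ∈ Γ, ∀ g' ∈ Γ, g ≠ g' → s < nz (g - g')) (g : ℝ) :
    ((Γ.filter (fun g' => nz (g - g') ≤ s')).card : ℝ) ≤ 2 * s' / s + 1 := by
  set x : ℝ → ℝ := fun g' => g' - g + round (g - g') with hx
  have hxabs : ∀ g', |x g'| = nz (g - g') := by
    intro g'
    have e : x g' = -((g - g') - round (g - g')) := by rw [hx]; ring
    rw [e, abs_neg]
    rfl
  have hcard : (Γ.filter (fun g' => nz (g - g') ≤ s')).card ≤
      (Finset.range (⌊2 * s' / s⌋₊ + 1)).card := by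
    refine Finset.card_le_card_of_injOn (fun g' => ⌊(x g' + s') / s⌋₊) ?_ ?_
    · intro g' hg'
      rw [Finset.mem_coe, Finset.mem_filter] at hg'
      have h1 := hxabs g'
      have h2 : |x g'| ≤ s' := by rw [h1]; exact hg'.2
      rw [abs_le] at h2
      rw [Finset.mem_coe, Finset.mem_range, Nat.lt_succ_iff]
      refine Nat.floor_le_floor ?_
      exact div_le_div_of_nonneg_right (by linarith) hs.le
    · intro a ha b hb hab
      rw [Finset.mem_coe, Finset.mem_filter] at ha hb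
      by_contra hne
      have h1 := hsep a ha.1 b hb.1 hne
      have ha2 : |x a| ≤ s' := by rw [hxabs]; exact ha.2
      have hb2 : |x b| ≤ s' := by rw [hxabs]; exact hb.2
      rw [abs_le] at ha2 hb2
      have hab' : ⌊(x a + s') / s⌋₊ = ⌊(x b + s') / s⌋₊ := hab
      have ha3 := Nat.floor_le (show 0 ≤ (x a + s') / s from div_nonneg (by linarith) hs.le)
      have hb3 := Nat.floor_le (show 0 ≤ (x b + s') / s from div_nonneg (by linarith) hs.le)
      have ha4 := Nat.lt_floor_add_one ((x a + s') / s)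
      have hb4 := Nat.lt_floor_add_one ((x b + s') / s)
      rw [← hab'] at hb3 hb4
      rw [le_div_iff₀ hs] at ha3 hb3
      rw [div_lt_iff₀ hs] at ha4 hb4
      have h2 : |x a - x b| < s := by
        rw [abs_lt]
        constructor <;> linarith
      have h3 := Pool.Agent.H53.MID.nz_le_of (a - b) (round (g - b) - round (g - a))
      have e : a - b - ((round (g - b) - round (g - a) : ℤ) : ℝ) = x a - x b := by
        rw [hx]
        push_cast
        ring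
      rw [e] at h3
      linarith
  rw [Finset.card_range] at hcard
  have h1 : ((Γ.filter (fun g' => nz (g - g') ≤ s')).card : ℝ) ≤ (⌊2 * s' / s⌋₊ : ℝ) + 1 := by
    exact_mod_cast hcard
  have h2 := Nat.floor_le (show 0 ≤ 2 * s' / s from div_nonneg (by linarith) hs.le)
  linarith

end Pool.Agent.H74.MDX

end

section

/-!
# The series of `(Λ(n) - 1)(log n)^k` for `|Im s| ≤ 1`

The series is `(-1)^k G^{(k)}(s)`, `G = -ζ'/ζ - ζ`, and `G` extends to a function analytic in a neighbourhood of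
`{1 ≤ Re s ≤ 2, |Im s| ≤ 1}`: `ζ(s) = h(s)/(s-1)` with `h` entire (removable singularity), `h(1) = 1`,
`h ≠ 0` on `Re s ≥ 1` (`riemannZeta_ne_zero_of_one_le_re`), so
`-ζ'/ζ - ζ = -h'/h + 1/(s-1) - h/(s-1) = -h'/h - (h(s)-h(1))/(s-1)`.
A continuous function on a compact set is bounded.
-/

set_option autoImplicit false

namespace Pool.Agent.H91.EHA

open Finset

/-- The function `Λ - 1` with complex values. -/
private noncomputable def swj2F (n : ℕ) : ℂ := ((Lam n : ℝ) : ℂ) - 1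

/-- The analytic continuation of `-ζ'/ζ - ζ`. -/
private noncomputable def swj2G (s : ℂ) : ℂ :=
  -(deriv riemannZeta₁ s / riemannZeta₁ s) - riemannZeta₀ s

private theorem swj2_ne (s : ℂ) (hs : 1 ≤ s.re) : riemannZeta₁ s ≠ 0 := by
  by_cases h1 : s = 1
  · rw [h1, riemannZeta₁_one]
    exact one_ne_zero
  · intro h0
    have h2 := riemannZeta_ne_zero_of_one_le_re hs
    apply h2
    rw [riemannZeta_eq_inv_sub_mul h1, h0, mul_zero]

private theorem swj2_analytic (s : ℂ) (hs : 1 ≤ s.re) : AnalyticAt ℂ swj2G s := by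
  have h1 : AnalyticAt ℂ riemannZeta₁ s := differentiable_riemannZeta₁.analyticAt s
  have h0 : AnalyticAt ℂ riemannZeta₀ s := differentiable_riemannZeta₀.analyticAt s
  exact ((h1.deriv.div h1 (swj2_ne s hs)).neg).sub h0

private theorem swj2_summable (s : ℂ) (hs : 1 < s.re) : LSeriesSummable swj2F s := by
  have h1 : LSeriesSummable (fun n : ℕ => ((ArithmeticFunction.vonMangoldt n : ℝ) : ℂ)) s :=
    ArithmeticFunction.LSeriesSummable_vonMangoldt hs
  have h2 : LSeriesSummable (1 : ℕ → ℂ) s := LSeriesSummable_one_iff.mpr hs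
  exact h1.sub h2

private theorem swj2_eq (s : ℂ) (hs : 1 < s.re) : LSeries swj2F s = swj2G s := by
  have h1 : LSeriesSummable (fun n : ℕ => ((ArithmeticFunction.vonMangoldt n : ℝ) : ℂ)) s :=
    ArithmeticFunction.LSeriesSummable_vonMangoldt hs
  have h2 : LSeriesSummable (1 : ℕ → ℂ) s := LSeriesSummable_one_iff.mpr hs
  have h3 : LSeries swj2F s = LSeries (fun n : ℕ => ((ArithmeticFunction.vonMangoldt n : ℝ) : ℂ)) s -
      LSeries 1 s := LSeries_sub h1 h2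
  have hne : s ≠ 1 := by
    intro h
    rw [h, Complex.one_re] at hs
    exact lt_irrefl _ hs
  have hz1 := swj2_ne s hs.le
  have hs1 : s - 1 ≠ 0 := sub_ne_zero.mpr hne
  rw [h3, ArithmeticFunction.LSeries_vonMangoldt_eq_deriv_riemannZeta_div hs,
    LSeries_one_eq_riemannZeta hs, deriv_riemannZeta_eq_neg_inv_sub_sq_mul_add hne]
  have h4 : riemannZeta s = (s - 1)⁻¹ * riemannZeta₁ s := riemannZeta_eq_inv_sub_mul hne
  have h5 : riemannZeta s = (s - 1)⁻¹ + riemannZeta₀ s := riemannZeta_eq_inv_sub_add hne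
  have h6 : riemannZeta₀ s = (s - 1)⁻¹ * riemannZeta₁ s - (s - 1)⁻¹ := by
    rw [← h4, h5]; ring
  unfold swj2G
  rw [h4, h6]
  field_simp
  ring

private theorem swj2_logMul (k n : ℕ) :
    (LSeries.logMul^[k] swj2F) n = Complex.log n ^ k * swj2F n := by
  induction k generalizing n with
  | zero => simp
  | succ k ih =>
    rw [Function.iterate_succ_apply', LSeries.logMul, ih, pow_succ]
    ring

theorem zetaF_low (k : ℕ) : ∃ C : ℝ, 0 < C ∧ ∀ s : ℂ, 1 < s.re → s.re ≤ 2 → |s.im| ≤ 1 →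
    ‖LSeries (fun n => (((Lam n - 1) * Real.log n ^ k : ℝ) : ℂ)) s‖ ≤ C := by
  have hK : IsCompact ((Set.Icc (1 : ℝ) 2) ×ℂ (Set.Icc (-1 : ℝ) 1)) :=
    isCompact_Icc.reProdIm isCompact_Icc
  have hc : ContinuousOn (iteratedDeriv k swj2G) ((Set.Icc (1 : ℝ) 2) ×ℂ (Set.Icc (-1 : ℝ) 1)) := by
    intro s hs
    rw [iteratedDeriv_eq_iterate]
    exact ((swj2_analytic s hs.1.1).iterated_deriv k).continuousAt.continuousWithinAt
  obtain ⟨B, hB⟩ := hK.exists_bound_of_continuousOn hc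
  refine ⟨|B| + 1, by positivity, fun s h1 h2 h3 => ?_⟩
  have hab : LSeries.abscissaOfAbsConv swj2F ≤ ((1 : ℝ) : EReal) := by
    refine LSeries.abscissaOfAbsConv_le_of_forall_lt_LSeriesSummable fun y hy => ?_
    exact swj2_summable y (by simpa using hy)
  have hab2 : LSeries.abscissaOfAbsConv swj2F < (s.re : EReal) :=
    lt_of_le_of_lt hab (by exact_mod_cast h1)
  have h4 := LSeries_iteratedDeriv (f := swj2F) k hab2
  have h5 : LSeries swj2F =ᶠ[nhds s] swj2G := by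
    have ho : IsOpen {z : ℂ | 1 < z.re} := isOpen_lt continuous_const Complex.continuous_re
    filter_upwards [ho.mem_nhds h1] with z hz
    exact swj2_eq z hz
  rw [h5.iteratedDeriv_eq k] at h4
  have h6 : LSeries (fun n => (((Lam n - 1) * Real.log n ^ k : ℝ) : ℂ)) s =
      LSeries (LSeries.logMul^[k] swj2F) s := by
    refine LSeries_congr (fun {n} _ => ?_) s
    rw [swj2_logMul, Complex.ofReal_mul, Complex.ofReal_pow, Complex.ofReal_log (Nat.cast_nonneg n),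
      Complex.ofReal_natCast]
    unfold swj2F
    push_cast
    ring
  have h7 : ‖LSeries (LSeries.logMul^[k] swj2F) s‖ = ‖iteratedDeriv k swj2G s‖ := by
    rw [h4, norm_mul, norm_pow, norm_neg, norm_one, one_pow, one_mul]
  rw [h6, h7]
  have hs : s ∈ (Set.Icc (1 : ℝ) 2) ×ℂ (Set.Icc (-1 : ℝ) 1) :=
    ⟨⟨h1.le, h2⟩, abs_le.mp h3⟩
  have h8 := hB s hs
  have h9 := le_abs_self B
  linarith

end Pool.Agent.H91.EHA

end

section

/-!
# Smooth sums from Dirichlet series bounds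

`om(n/N) = (1/2π) ∫ KK β t (N/n)^{β+it} dt` (`om_fourier'` in `PK/Om.lean`; holds for all `n ≥ 1`, both sides are `0`
for `n > N`).  Take `β = 1 + 1/log N` for `N ≥ 3`, `β = 2` for `N = 2`; interchange sum and integral
(absolutely convergent): `∑ a_n om(n/N) = (1/2π) ∫ KK β t N^{β+it} LSeries a (β+it) dt`;
`N^β ≤ 4 N`, `‖KK β t‖ ≤ 2/(1+t²)^{3/2}`-type decay against `log(|t|+3)^K`.
-/

set_option autoImplicit false

namespace Pool.Agent.H91.EHA

open Finset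
open Pool.Agent.H91.PK
open MeasureTheory

/-- decay of the kernel against a power of the logarithm -/
private theorem swG_kernel (K : ℕ) (β t : ℝ) (hβ : 0 ≤ β) :
    ‖KK β t‖ * Real.log (|t| + 3) ^ K ≤
      1.7544 / (1 / (2 * ((K : ℝ) + 1))) ^ K * (1 + ‖t‖) ^ (-(3 / 2 : ℝ)) := by
  set ε : ℝ := 1 / (2 * ((K : ℝ) + 1)) with hε
  have hK : (0 : ℝ) ≤ K := Nat.cast_nonneg K
  have hε0 : 0 < ε := by positivity
  have hεK : ε * K ≤ 1 / 2 := by
    rw [hε, div_mul_eq_mul_div, one_mul, div_le_div_iff₀ (by positivity) (by norm_num)]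
    nlinarith
  have ht : 0 ≤ |t| := abs_nonneg t
  rw [Real.norm_eq_abs]
  have hx1 : (0 : ℝ) < 1 + |t| := by positivity
  have h1 : ‖KK β t‖ ≤ 0.8772 / (1 + |t|) ^ 2 := by
    refine (norm_KK_le β t hβ).trans ?_
    rw [div_le_div_iff₀ (by positivity) (by positivity)]
    have : t ^ 2 = |t| ^ 2 := (sq_abs t).symm
    rw [this]
    nlinarith [sq_nonneg (1 - |t|)]
  have h2 : Real.log (|t| + 3) ^ K ≤ 2 / ε ^ K * (1 + |t|) ^ (1 / 2 : ℝ) := by
    have h3 : Real.log (|t| + 3) ≤ (|t| + 3) ^ ε / ε :=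
      Real.log_le_rpow_div (by positivity) hε0
    have h4 : 0 ≤ Real.log (|t| + 3) := Real.log_nonneg (by linarith)
    have h5 : Real.log (|t| + 3) ^ K ≤ ((|t| + 3) ^ ε / ε) ^ K := pow_le_pow_left₀ h4 h3 K
    have h6 : ((|t| + 3) ^ ε / ε) ^ K = (|t| + 3) ^ (ε * K) / ε ^ K := by
      rw [div_pow, ← Real.rpow_natCast ((|t| + 3) ^ ε) K, ← Real.rpow_mul (by positivity)]
    have h7 : (|t| + 3) ^ (ε * K) ≤ (|t| + 3) ^ (1 / 2 : ℝ) :=
      Real.rpow_le_rpow_of_exponent_le (by linarith) hεK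
    have h8 : (|t| + 3) ^ (1 / 2 : ℝ) ≤ 2 * (1 + |t|) ^ (1 / 2 : ℝ) := by
      have h9 : (2 : ℝ) * (1 + |t|) ^ (1 / 2 : ℝ) = (4 * (1 + |t|)) ^ (1 / 2 : ℝ) := by
        rw [Real.mul_rpow (by norm_num) (by positivity)]
        congr 1
        rw [← Real.sqrt_eq_rpow, show (4 : ℝ) = 2 ^ 2 by norm_num, Real.sqrt_sq (by norm_num)]
      rw [h9]
      exact Real.rpow_le_rpow (by positivity) (by linarith) (by norm_num)
    calc Real.log (|t| + 3) ^ K ≤ (|t| + 3) ^ (ε * K) / ε ^ K := by rw [← h6]; exact h5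
      _ ≤ (2 * (1 + |t|) ^ (1 / 2 : ℝ)) / ε ^ K := by
          gcongr
          exact h7.trans h8
      _ = 2 / ε ^ K * (1 + |t|) ^ (1 / 2 : ℝ) := by ring
  have h10 : (1 + |t|) ^ (-(3 / 2 : ℝ)) = (1 + |t|) ^ (1 / 2 : ℝ) / (1 + |t|) ^ 2 := by
    rw [← Real.rpow_natCast (1 + |t|) 2, ← Real.rpow_sub hx1]
    norm_num
  calc ‖KK β t‖ * Real.log (|t| + 3) ^ K
      ≤ (0.8772 / (1 + |t|) ^ 2) * (2 / ε ^ K * (1 + |t|) ^ (1 / 2 : ℝ)) := by
        apply mul_le_mul h1 h2 _ (by positivity)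
        exact pow_nonneg (Real.log_nonneg (by linarith)) K
    _ = 1.7544 / ε ^ K * (1 + |t|) ^ (-(3 / 2 : ℝ)) := by
        rw [h10]; ring

/-- the summand -/
private noncomputable def swG_F (a : ℕ → ℂ) (β : ℝ) (N n : ℕ) (t : ℝ) : ℂ :=
  KK β t * ((N : ℂ) ^ (t * Complex.I) * LSeries.term a ((β : ℂ) + t * Complex.I) n)

private theorem swG_F_eq (a : ℕ → ℂ) (β : ℝ) (N n : ℕ) (hn : 1 ≤ n) (t : ℝ) :
    swG_F a β N n t = (a n / (n : ℂ) ^ (β : ℂ)) *
      (KK β t * ((N : ℂ) ^ (t * Complex.I) * (n : ℂ) ^ (-(t * Complex.I)))) := by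
  unfold swG_F
  have hn0 : (n : ℂ) ≠ 0 := by exact_mod_cast (by omega : n ≠ 0)
  rw [LSeries.term_of_ne_zero (by omega), Complex.cpow_add _ _ hn0, Complex.cpow_neg]
  have h1 : (n : ℂ) ^ (β : ℂ) ≠ 0 := by
    rw [Complex.cpow_def_of_ne_zero hn0]; exact Complex.exp_ne_zero _
  have h2 : (n : ℂ) ^ ((t : ℂ) * Complex.I) ≠ 0 := by
    rw [Complex.cpow_def_of_ne_zero hn0]; exact Complex.exp_ne_zero _
  field_simp

private theorem swG_norm_F (a : ℕ → ℂ) (β : ℝ) (N n : ℕ) (hN : 1 ≤ N) (t : ℝ) :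
    ‖swG_F a β N n t‖ = ‖LSeries.term a (β : ℂ) n‖ * ‖KK β t‖ := by
  unfold swG_F
  rw [norm_mul, norm_mul, Complex.norm_natCast_cpow_of_pos (by omega)]
  have h1 : ((t : ℂ) * Complex.I).re = 0 := by simp
  have h2 : ‖LSeries.term a ((β : ℂ) + t * Complex.I) n‖ = ‖LSeries.term a (β : ℂ) n‖ := by
    rw [LSeries.norm_term_eq, LSeries.norm_term_eq]
    simp
  rw [h1, Real.rpow_zero, one_mul, h2, mul_comm]

private theorem swG_F_cont (a : ℕ → ℂ) (β : ℝ) (hβ : 0 ≤ β) (N n : ℕ) (hN : 1 ≤ N) :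
    Continuous (swG_F a β N n) := by
  rcases Nat.eq_zero_or_pos n with rfl | hn
  · have : swG_F a β N 0 = fun _ => 0 := by
      funext t; unfold swG_F; rw [LSeries.term_zero, mul_zero, mul_zero]
    rw [this]; exact continuous_const
  · have : swG_F a β N n = fun t : ℝ => (a n / (n : ℂ) ^ (β : ℂ)) *
      (KK β t * ((N : ℂ) ^ (t * Complex.I) * (n : ℂ) ^ (-(t * Complex.I)))) := by
      funext t; exact swG_F_eq a β N n hn t
    rw [this]
    have hn0 : (n : ℂ) ≠ 0 := by exact_mod_cast (by omega : n ≠ 0)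
    have hN0 : (N : ℂ) ≠ 0 := by exact_mod_cast (by omega : N ≠ 0)
    refine continuous_const.mul ((KK_continuous β hβ).mul (Continuous.mul ?_ ?_))
    · exact Continuous.const_cpow (by fun_prop) (Or.inl hN0)
    · exact Continuous.const_cpow (by fun_prop) (Or.inl hn0)

private theorem swG_F_int (a : ℕ → ℂ) (β : ℝ) (hβ : 0 ≤ β) (N n : ℕ) (hN : 1 ≤ N) :
    Integrable (swG_F a β N n) := by
  refine Integrable.mono' ((KK_integrable β hβ).norm.const_mul ‖LSeries.term a (β : ℂ) n‖)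
    (swG_F_cont a β hβ N n hN).aestronglyMeasurable (Filter.Eventually.of_forall fun t => ?_)
  rw [swG_norm_F a β N n hN t]

private theorem swG_identity (a : ℕ → ℂ) (β : ℝ) (hβ : 0 ≤ β) (N : ℕ) (hN : 1 ≤ N)
    (hs : LSeriesSummable a (β : ℂ)) :
    ∑ n ∈ Icc 1 N, a n * ((om ((n : ℝ) / N) : ℝ) : ℂ) =
      (((N : ℝ) ^ β : ℝ) : ℂ) * (1 / (2 * Real.pi)) *
        ∫ t : ℝ, KK β t * ((N : ℂ) ^ (t * Complex.I) * LSeries a ((β : ℂ) + t * Complex.I)) := by
  have hN0 : (0 : ℝ) < N := by exact_mod_cast hN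
  have h1 : HasSum (fun n => ∫ t, swG_F a β N n t) (∫ t, ∑' n, swG_F a β N n t) := by
    apply hasSum_integral_of_summable_integral_norm (swG_F_int a β hβ N · hN)
    have h2 : (fun n => ∫ t, ‖swG_F a β N n t‖) =
        fun n => ‖LSeries.term a (β : ℂ) n‖ * ∫ t, ‖KK β t‖ := by
      funext n
      simp only [swG_norm_F a β N n hN]
      rw [integral_const_mul]
    rw [h2]
    exact (Summable.norm hs).mul_right _
  have h3 : ∀ t : ℝ, ∑' n, swG_F a β N n t =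
      KK β t * ((N : ℂ) ^ (t * Complex.I) * LSeries a ((β : ℂ) + t * Complex.I)) := by
    intro t
    unfold swG_F LSeries
    rw [tsum_mul_left, tsum_mul_left]
  simp only [h3] at h1
  have h4 := h1.mul_left ((((N : ℝ) ^ β : ℝ) : ℂ) * (1 / (2 * Real.pi)))
  have hval : ∀ n : ℕ, 1 ≤ n → (((N : ℝ) ^ β : ℝ) : ℂ) * (1 / (2 * Real.pi)) *
      (∫ t, swG_F a β N n t) = a n * ((om ((n : ℝ) / N) : ℝ) : ℂ) := by
    intro n hn
    have hn0 : (0 : ℝ) < n := by exact_mod_cast hn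
    have e1 : ∫ t, swG_F a β N n t = (a n / (n : ℂ) ^ (β : ℂ)) *
        ∫ t : ℝ, KK β t * ((N : ℂ) ^ (t * Complex.I) * (n : ℂ) ^ (-(t * Complex.I))) := by
      simp only [swG_F_eq a β N n hn]
      rw [integral_const_mul]
    rw [e1, om_fourier' β hβ hN hn, Real.div_rpow hN0.le hn0.le]
    have e2 : (n : ℂ) ^ (β : ℂ) = (((n : ℝ) ^ β : ℝ) : ℂ) := by
      rw [Complex.ofReal_cpow hn0.le]; simp
    rw [e2]
    push_cast
    ring
  have h5 : HasSum (fun n => (((N : ℝ) ^ β : ℝ) : ℂ) * (1 / (2 * Real.pi)) *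
      (∫ t, swG_F a β N n t)) (∑ n ∈ Icc 1 N, (((N : ℝ) ^ β : ℝ) : ℂ) * (1 / (2 * Real.pi)) *
      (∫ t, swG_F a β N n t)) := by
    apply hasSum_sum_of_ne_finset_zero
    intro n hn
    rcases Nat.eq_zero_or_pos n with rfl | hn1
    · have : ∀ t, swG_F a β N 0 t = 0 := by
        intro t; unfold swG_F; rw [LSeries.term_zero, mul_zero, mul_zero]
      simp only [this, integral_zero, mul_zero]
    · rw [hval n hn1]
      have hnN : N < n := by
        by_contra h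
        exact hn (Finset.mem_Icc.2 ⟨hn1, not_lt.1 h⟩)
      rw [om_eq_zero, Complex.ofReal_zero, mul_zero]
      rw [le_div_iff₀ hN0, one_mul]
      exact_mod_cast hnN.le
  rw [← h5.unique h4]
  apply Finset.sum_congr rfl
  intro n hn
  rw [hval n (Finset.mem_Icc.1 hn).1]

theorem smooth_gen (K : ℕ) : ∃ C : ℝ, 0 < C ∧ ∀ (a : ℕ → ℂ) (B : ℝ), 0 ≤ B →
    (∀ s : ℂ, 1 < s.re → s.re ≤ 2 → LSeriesSummable a s ∧
      ‖LSeries a s‖ ≤ B * Real.log (|s.im| + 3) ^ K) →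
    ∀ N : ℕ, 2 ≤ N → ‖∑ n ∈ Icc 1 N, a n * ((om ((n : ℝ) / N) : ℝ) : ℂ)‖ ≤ C * B * N := by
  set C0 : ℝ := 1.7544 / (1 / (2 * ((K : ℝ) + 1))) ^ K with hC0
  have hC0pos : 0 < C0 := by positivity
  set I0 : ℝ := ∫ t : ℝ, (1 + ‖t‖) ^ (-(3 / 2 : ℝ)) with hI0
  have hI0nn : 0 ≤ I0 := integral_nonneg (fun t => by positivity)
  have hint : Integrable (fun t : ℝ => (1 + ‖t‖) ^ (-(3 / 2 : ℝ))) :=
    integrable_one_add_norm (by simp; norm_num)
  refine ⟨C0 * I0 + 1, by positivity, ?_⟩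
  intro a B hB h N hN
  have hN0 : (0 : ℝ) < N := by exact_mod_cast (by omega : 0 < N)
  have hlog : 0 < Real.log N := Real.log_pos (by exact_mod_cast (by omega : 1 < N))
  set β : ℝ := 1 + 1 / (1 + Real.log N) with hβ
  have hβ1 : 1 < β := by rw [hβ]; have : 0 < 1 / (1 + Real.log N) := by positivity
                         linarith
  have hβ2 : β ≤ 2 := by
    have : 1 / (1 + Real.log N) ≤ 1 := by
      rw [div_le_one (by positivity)]; linarith
    linarith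
  have hs : LSeriesSummable a (β : ℂ) := (h (β : ℂ) (by simpa using hβ1) (by simpa using hβ2)).1
  rw [swG_identity a β (by linarith) N (by omega) hs]
  have hpow : (N : ℝ) ^ β ≤ Real.exp 1 * N := by
    rw [hβ, Real.rpow_add hN0, Real.rpow_one, mul_comm]
    gcongr
    rw [Real.rpow_def_of_pos hN0, Real.exp_le_exp, mul_one_div, div_le_one (by positivity)]
    linarith
  have hbound : ‖∫ t : ℝ, KK β t * ((N : ℂ) ^ (t * Complex.I) *
      LSeries a ((β : ℂ) + t * Complex.I))‖ ≤ ∫ t : ℝ, B * (C0 * (1 + ‖t‖) ^ (-(3 / 2 : ℝ))) := by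
    apply norm_integral_le_of_norm_le ((hint.const_mul C0).const_mul B)
    refine Filter.Eventually.of_forall fun t => ?_
    rw [norm_mul, norm_mul, Complex.norm_natCast_cpow_of_pos (by omega)]
    have h1 : ((t : ℂ) * Complex.I).re = 0 := by simp
    have h2 := (h ((β : ℂ) + t * Complex.I) (by simpa using hβ1) (by simpa using hβ2)).2
    have h3 : ((β : ℂ) + t * Complex.I).im = t := by simp
    rw [h3] at h2
    rw [h1, Real.rpow_zero, one_mul]
    have h4 := swG_kernel K β t (by linarith)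
    calc ‖KK β t‖ * ‖LSeries a ((β : ℂ) + t * Complex.I)‖
        ≤ ‖KK β t‖ * (B * Real.log (|t| + 3) ^ K) := by gcongr
      _ = B * (‖KK β t‖ * Real.log (|t| + 3) ^ K) := by ring
      _ ≤ B * (C0 * (1 + ‖t‖) ^ (-(3 / 2 : ℝ))) := by
          apply mul_le_mul_of_nonneg_left h4 hB
  rw [integral_const_mul, integral_const_mul, ← hI0] at hbound
  have hpi : Real.exp 1 * (1 / (2 * Real.pi)) ≤ 1 := by
    have h1 := Real.exp_one_lt_d9
    have h2 := Real.pi_gt_three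
    rw [mul_one_div, div_le_one (by positivity)]
    linarith
  rw [norm_mul, norm_mul]
  have e1 : ‖(((N : ℝ) ^ β : ℝ) : ℂ)‖ = (N : ℝ) ^ β := by
    rw [Complex.norm_real, Real.norm_of_nonneg (by positivity)]
  have e2 : ‖(1 / (2 * Real.pi) : ℂ)‖ = 1 / (2 * Real.pi) := by
    have : (1 / (2 * Real.pi) : ℂ) = ((1 / (2 * Real.pi) : ℝ) : ℂ) := by push_cast; rfl
    rw [this, Complex.norm_real, Real.norm_of_nonneg (by positivity)]
  rw [e1, e2]
  have hpi0 : 0 < 1 / (2 * Real.pi) := by positivity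
  calc (N : ℝ) ^ β * (1 / (2 * Real.pi)) * ‖∫ t : ℝ, KK β t * ((N : ℂ) ^ (t * Complex.I) *
        LSeries a ((β : ℂ) + t * Complex.I))‖
      ≤ (Real.exp 1 * N) * (1 / (2 * Real.pi)) * (B * (C0 * I0)) := by gcongr
    _ = (Real.exp 1 * (1 / (2 * Real.pi))) * (C0 * I0 * B * N) := by ring
    _ ≤ 1 * (C0 * I0 * B * N) := by
        apply mul_le_mul_of_nonneg_right hpi (by positivity)
    _ ≤ (C0 * I0 + 1) * B * N := by
        have : 0 ≤ B * N := by positivity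
        nlinarith

end Pool.Agent.H91.EHA

end
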