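import Pool.Agent.H43.PL.M06
import Pool.Agent.H43.PL.M07
import Pool.Agent.H43.PL.M08
import Pool.Agent.H43.PL.M09

/-! The parts of this file: H91.PK.MB, H35.W.Rough, H53.MID.Base. -/

section

/-!
PK MB: the Mertens product.

`mertens_lower`: naturals 65536 ≤ w ≤ z: ∑_{w<p≤z} 1/p ≥ log(log z/log w) - 0.25/log w.
 (`Gold.Mt_osc` with the roles of n, m exchanged gives Mt z - Mt w ≥ log z - log w - 0.2295 (Mt n = ∑_{d≤n} Λ(d)/d);
  Abel summation against 1/log as in `Gold.mertens_gen`.  The prime powers with exponent at least two are handled by the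
  bound ψ(m) - θ(m) ≤ 2 ψ(√m) ≤ 2 log 3 √m and another Abel summation: their total is ≤ 4 log 3/(√w log w).)
`prod_65536`: ∏_{p ≤ 65536} (1 - 1/p) ≤ 0.05065   (kernel computation).
`prod_z`: for natural al ≥ 16: ∏_{p ≤ 2^al} (1 - 1/p) ≤ 0.575/(al log 2).
-/

set_option autoImplicit false

namespace Pool.Agent.H91.PK

open Finset Gold
open scoped ArithmeticFunction.vonMangoldt

/-! ### The prime powers -/

theorem MB_psi_sub_theta (m : ℕ) :
    Chebyshev.psi m - Chebyshev.theta m ≤ 2 * Real.log 3 * Real.sqrt m := by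
  have h0 : Chebyshev.psi m - Chebyshev.theta m
      = ∑ p ∈ Nat.primesLE m.sqrt, ((Nat.log p m : ℝ) * Real.log p - Real.log p) := by
    rw [Chebyshev.psi_eq_sum_mul_log_prime, Chebyshev.theta_eq_sum_primesLE_log, ← sum_sub_distrib]
    have hsub : Nat.primesLE m.sqrt ⊆ Nat.primesLE m := by
      intro p hp
      rw [Nat.mem_primesLE] at hp ⊢
      exact ⟨hp.1.trans (Nat.sqrt_le_self m), hp.2⟩
    symm
    apply sum_subset hsub
    intro p hp hnp
    rw [Nat.mem_primesLE] at hp hnp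
    have hlt : m.sqrt < p := by
      by_contra h
      push Not at h
      exact hnp ⟨h, hp.2⟩
    have h1 : m < p * p := Nat.sqrt_lt.1 hlt
    have h2 : Nat.log p m = 1 := by
      rw [Nat.log_eq_iff]
      · refine ⟨by simp; exact hp.1, by rw [sq]; exact h1⟩
      · left; norm_num
    rw [h2]; simp
  rw [h0]
  have h1 : ∀ p ∈ Nat.primesLE m.sqrt, ((Nat.log p m : ℝ) * Real.log p - Real.log p)
      ≤ 2 * ((Nat.log p m.sqrt : ℝ) * Real.log p) := by
    intro p hp
    rw [Nat.mem_primesLE] at hp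
    have hp1 := hp.2.one_lt
    have h2 : m < p ^ (2 * Nat.log p m.sqrt + 2) := by
      have h3 := Nat.lt_pow_succ_log_self hp1 m.sqrt
      have h4 := Nat.sqrt_lt.1 h3
      calc m < _ := h4
        _ = p ^ (2 * Nat.log p m.sqrt + 2) := by rw [← pow_add]; congr 1; omega
    have h5 : Nat.log p m ≤ 2 * Nat.log p m.sqrt + 1 := by
      have := Nat.log_lt_of_lt_pow' (by omega) h2
      omega
    have h6 : (Nat.log p m : ℝ) ≤ 2 * (Nat.log p m.sqrt : ℝ) + 1 := by exact_mod_cast h5
    have h7 : 0 ≤ Real.log p := Real.log_natCast_nonneg p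
    nlinarith only [h6, h7]
  refine (sum_le_sum h1).trans ?_
  rw [← mul_sum]
  have h2 := Chebyshev.psi_eq_sum_mul_log_prime (m.sqrt)
  have h3 := psi_le_log_three m.sqrt
  have h4 : (m.sqrt : ℝ) ≤ Real.sqrt m := Real.nat_sqrt_le_real_sqrt
  have h5 : 0 ≤ Real.log 3 := Real.log_nonneg (by norm_num)
  rw [h2] at h3
  nlinarith only [h3, h4, h5]

theorem MB_nonprime (w m : ℕ) :
    ∑ k ∈ Ioc w m, (if k.Prime then 0 else Λ k) ≤ 2 * Real.log 3 * Real.sqrt m := by
  have h1 : ∑ k ∈ Ioc w m, (if k.Prime then 0 else Λ k) ≤ ∑ k ∈ Ioc 0 m, (if k.Prime then 0 else Λ k) := by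
    apply sum_le_sum_of_subset_of_nonneg
    · intro k hk
      rw [mem_Ioc] at hk ⊢
      exact ⟨by omega, hk.2⟩
    · intro k _ _
      split_ifs
      · exact le_rfl
      · exact ArithmeticFunction.vonMangoldt_nonneg
  refine h1.trans (le_trans (le_of_eq ?_) (MB_psi_sub_theta m))
  rw [Chebyshev.psi, Chebyshev.theta, sum_filter]
  simp only [Nat.floor_natCast]
  rw [← sum_sub_distrib]
  apply sum_congr rfl
  intro k _
  split_ifs with h
  · rw [ArithmeticFunction.vonMangoldt_apply_prime h]; ring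
  · ring

theorem MB_log_pos {w : ℕ} (hw : 2 ≤ w) {k : ℕ} (hk : w ≤ k) : 0 < Real.log k := by
  apply Real.log_pos
  exact_mod_cast (by omega : 1 < k)

theorem MB_powers {w z : ℕ} (hw : 2 ≤ w) (hwz : w ≤ z) :
    ∑ k ∈ Ioc w z, (if k.Prime then 0 else Λ k) * (1 / (k * Real.log k))
      ≤ 4 * Real.log 3 / (Real.sqrt w * Real.log w) := by
  have hw0 : (0 : ℝ) < w := by exact_mod_cast (by omega : 0 < w)
  have hsw : 0 < Real.sqrt w := Real.sqrt_pos.2 hw0
  have hlw := MB_log_pos hw le_rfl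
  have l3 : 0 ≤ Real.log 3 := Real.log_nonneg (by norm_num)
  set C : ℝ := 2 * Real.log 3 with hC
  have hC0 : 0 ≤ C := by positivity
  have h1 : ∑ k ∈ Ioc w z, (if k.Prime then 0 else Λ k) * (1 / (k * Real.log k))
      ≤ ∑ k ∈ Ioc w z, (C * (Real.sqrt k - Real.sqrt (k - 1 : ℕ))) * (1 / (k * Real.log k))
        + (C * Real.sqrt w) * (1 / (((w + 1 : ℕ) : ℝ) * Real.log ((w + 1 : ℕ) : ℝ))) := by
    apply abel_le (f := fun k : ℕ => 1 / ((k : ℝ) * Real.log k)) hwz (by positivity)
    · intro k hk1 _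
      have := MB_log_pos hw hk1.le
      positivity
    · have := MB_log_pos hw (Nat.le_succ w)
      positivity
    · intro k hk1 _
      have h2 := MB_log_pos hw hk1.le
      have h3 : (0 : ℝ) < k := by exact_mod_cast (by omega : 0 < k)
      apply one_div_le_one_div_of_le (by positivity)
      apply mul_le_mul
      · push_cast; linarith only
      · apply Real.log_le_log h3
        push_cast; linarith only
      · exact h2.le
      · positivity
    · intro m hm1 _
      have e1 : ∑ k ∈ Ioc w m, (C * (Real.sqrt k - Real.sqrt (k - 1 : ℕ)))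
          = C * (Real.sqrt m - Real.sqrt w) := by
        rw [← mul_sum]
        congr 1
        induction m, hm1 using Nat.le_induction with
        | base => simp
        | succ m hm ih =>
          rw [sum_Ioc_succ_top (by omega), ih (by omega)]
          simp
      rw [e1]
      have := MB_nonprime w m
      linarith only [this]
  have h2 : ∀ m, w ≤ m → ∑ k ∈ Ioc w m, (C * (Real.sqrt k - Real.sqrt (k - 1 : ℕ))) * (1 / (k * Real.log k))
      ≤ C / Real.log w * (1 / Real.sqrt w - 1 / Real.sqrt m) := by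
    intro m hm
    induction m, hm using Nat.le_induction with
    | base => simp
    | succ m hm ih =>
      rw [sum_Ioc_succ_top (by omega)]
      have hm0 : (0 : ℝ) < m := by exact_mod_cast (by omega : 0 < m)
      have hs0 : 0 < Real.sqrt m := Real.sqrt_pos.2 hm0
      have hs1 : Real.sqrt m ≤ Real.sqrt ((m + 1 : ℕ) : ℝ) := by
        apply Real.sqrt_le_sqrt; push_cast; linarith only
      have hs2 : 0 < Real.sqrt ((m + 1 : ℕ) : ℝ) := by linarith only [hs0, hs1]
      have hl := MB_log_pos hw (show w ≤ m + 1 by omega)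
      have hl2 : Real.log w ≤ Real.log ((m + 1 : ℕ) : ℝ) := by
        apply Real.log_le_log hw0
        exact_mod_cast (by omega : w ≤ m + 1)
      have hss : ((m + 1 : ℕ) : ℝ) = Real.sqrt ((m + 1 : ℕ) : ℝ) * Real.sqrt ((m + 1 : ℕ) : ℝ) :=
        (Real.mul_self_sqrt (by positivity)).symm
      have key : (C * (Real.sqrt ((m + 1 : ℕ) : ℝ) - Real.sqrt (m + 1 - 1 : ℕ)))
            * (1 / (((m + 1 : ℕ) : ℝ) * Real.log ((m + 1 : ℕ) : ℝ)))
          ≤ C / Real.log w * (1 / Real.sqrt m - 1 / Real.sqrt ((m + 1 : ℕ) : ℝ)) := by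
        rw [Nat.add_sub_cancel]
        have a1 : 1 / (((m + 1 : ℕ) : ℝ) * Real.log ((m + 1 : ℕ) : ℝ))
            ≤ 1 / (Real.sqrt m * Real.sqrt ((m + 1 : ℕ) : ℝ) * Real.log w) := by
          apply one_div_le_one_div_of_le (by positivity)
          apply mul_le_mul _ hl2 hlw.le (by positivity)
          exact (mul_le_mul_of_nonneg_right hs1 hs2.le).trans hss.ge
        have a2 : 0 ≤ C * (Real.sqrt ((m + 1 : ℕ) : ℝ) - Real.sqrt m) :=
          mul_nonneg hC0 (by linarith only [hs1])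
        refine (mul_le_mul_of_nonneg_left a1 a2).trans (le_of_eq ?_)
        field_simp
      have e : C / Real.log w * (1 / Real.sqrt w - 1 / Real.sqrt ((m + 1 : ℕ) : ℝ))
          = C / Real.log w * (1 / Real.sqrt w - 1 / Real.sqrt m)
            + C / Real.log w * (1 / Real.sqrt m - 1 / Real.sqrt ((m + 1 : ℕ) : ℝ)) := by ring
      rw [e]
      linarith only [ih, key]
  have h3 := h2 z hwz
  have h4 : C / Real.log w * (1 / Real.sqrt w - 1 / Real.sqrt z) ≤ C / (Real.sqrt w * Real.log w) := by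
    have hz0 : (0 : ℝ) < z := by exact_mod_cast (by omega : 0 < z)
    have : 0 ≤ 1 / Real.sqrt z := by positivity
    calc C / Real.log w * (1 / Real.sqrt w - 1 / Real.sqrt z) ≤ C / Real.log w * (1 / Real.sqrt w) :=
          mul_le_mul_of_nonneg_left (by linarith only [this]) (by positivity)
      _ = C / (Real.sqrt w * Real.log w) := by field_simp
  have h5 : (C * Real.sqrt w) * (1 / (((w + 1 : ℕ) : ℝ) * Real.log ((w + 1 : ℕ) : ℝ)))
      ≤ C / (Real.sqrt w * Real.log w) := by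
    have a1 : 1 / (((w + 1 : ℕ) : ℝ) * Real.log ((w + 1 : ℕ) : ℝ)) ≤ 1 / (w * Real.log w) := by
      apply one_div_le_one_div_of_le (by positivity)
      apply mul_le_mul
      · push_cast; linarith only
      · apply Real.log_le_log hw0
        push_cast; linarith only
      · exact hlw.le
      · positivity
    refine (mul_le_mul_of_nonneg_left a1 (by positivity)).trans (le_of_eq ?_)
    have hss : (w : ℝ) = Real.sqrt w * Real.sqrt w := (Real.mul_self_sqrt (by positivity)).symm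
    rw [mul_one_div, div_eq_div_iff (by positivity) (by positivity)]
    calc C * Real.sqrt w * (Real.sqrt w * Real.log w) = C * (Real.sqrt w * Real.sqrt w * Real.log w) := by ring
      _ = C * (w * Real.log w) := by rw [← hss]
  have e : 4 * Real.log 3 / (Real.sqrt w * Real.log w) = C / (Real.sqrt w * Real.log w) + C / (Real.sqrt w * Real.log w) := by
    rw [hC]; ring
  rw [e]
  linarith only [h1, h3, h4, h5]

/-! ### The lower bound -/

theorem MB_loglog {w z : ℕ} (hw : 2 ≤ w) (hwz : w ≤ z) :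
    Real.log (Real.log z) - Real.log (Real.log w) - 1 / (w * Real.log w)
      ≤ ∑ k ∈ Ioc w z, (Real.log k - Real.log (k - 1 : ℕ)) * (1 / Real.log k) := by
  have hw0 : (0 : ℝ) < w := by exact_mod_cast (by omega : 0 < w)
  have h1 : ∀ m, w ≤ m → Real.log (Real.log m) - Real.log (Real.log w)
        - 1 / w * (1 / Real.log w - 1 / Real.log m)
      ≤ ∑ k ∈ Ioc w m, (Real.log k - Real.log (k - 1 : ℕ)) * (1 / Real.log k) := by
    intro m hm
    induction m, hm using Nat.le_induction with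
    | base => simp
    | succ m hm ih =>
      rw [sum_Ioc_succ_top (by omega), Nat.add_sub_cancel]
      have hm0 : (0 : ℝ) < m := by exact_mod_cast (by omega : 0 < m)
      have a1 := MB_log_pos hw hm
      have a2 := MB_log_pos hw (show w ≤ m + 1 by omega)
      have a3 : Real.log m ≤ Real.log ((m + 1 : ℕ) : ℝ) := by
        apply Real.log_le_log hm0; push_cast; linarith only
      have b1 := Real.log_le_sub_one_of_pos (x := Real.log ((m + 1 : ℕ) : ℝ) / Real.log m) (by positivity)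
      rw [Real.log_div a2.ne' a1.ne'] at b1
      have b2 : Real.log ((m + 1 : ℕ) : ℝ) / Real.log m - 1
          = (Real.log ((m + 1 : ℕ) : ℝ) - Real.log m) * (1 / Real.log ((m + 1 : ℕ) : ℝ))
            + (Real.log ((m + 1 : ℕ) : ℝ) - Real.log m) * (1 / Real.log m - 1 / Real.log ((m + 1 : ℕ) : ℝ)) := by
        field_simp
        ring
      have b3 : Real.log ((m + 1 : ℕ) : ℝ) - Real.log m ≤ 1 / w := by
        have h := Real.log_le_sub_one_of_pos (x := ((m + 1 : ℕ) : ℝ) / m) (by positivity)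
        rw [Real.log_div (by positivity) hm0.ne'] at h
        have e : ((m + 1 : ℕ) : ℝ) / m - 1 = 1 / m := by push_cast; field_simp; ring
        have h2 : 1 / (m : ℝ) ≤ 1 / w := one_div_le_one_div_of_le hw0 (by exact_mod_cast hm)
        linarith only [h, e, h2]
      have b4 : 0 ≤ 1 / Real.log m - 1 / Real.log ((m + 1 : ℕ) : ℝ) := by
        have := one_div_le_one_div_of_le a1 a3
        linarith only [this]
      have b5 := mul_le_mul_of_nonneg_right b3 b4
      have e2 : 1 / (w : ℝ) * (1 / Real.log w - 1 / Real.log ((m + 1 : ℕ) : ℝ))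
          = 1 / (w : ℝ) * (1 / Real.log w - 1 / Real.log m)
            + 1 / (w : ℝ) * (1 / Real.log m - 1 / Real.log ((m + 1 : ℕ) : ℝ)) := by ring
      rw [e2]
      linarith only [ih, b1, b2, b5]
  have h2 := h1 z hwz
  have h3 := MB_log_pos hw hwz
  have h4 := MB_log_pos hw le_rfl
  have h5 : 1 / (w : ℝ) * (1 / Real.log w - 1 / Real.log z) ≤ 1 / (w * Real.log w) := by
    have : 0 ≤ 1 / Real.log z := by positivity
    calc 1 / (w : ℝ) * (1 / Real.log w - 1 / Real.log z) ≤ 1 / (w : ℝ) * (1 / Real.log w) :=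
          mul_le_mul_of_nonneg_left (by linarith only [this]) (by positivity)
      _ = 1 / (w * Real.log w) := by field_simp
  linarith only [h2, h5]

theorem mertens_lower {w z : ℕ} (hw : 65536 ≤ w) (hwz : w ≤ z) :
    Real.log (Real.log z / Real.log w) - 0.25 / Real.log w ≤ ∑ p ∈ Pr w z, (1 : ℝ) / p := by
  have hw2 : 2 ≤ w := by omega
  have hw0 : (65536 : ℝ) ≤ w := by exact_mod_cast hw
  have hwp : (0 : ℝ) < w := by linarith only [hw0]
  have hlw := MB_log_pos hw2 le_rfl
  have hlz := MB_log_pos hw2 hwz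
  -- Abel summation
  have h1 : ∑ k ∈ Ioc w z, (Real.log k - Real.log (k - 1 : ℕ)) * (1 / Real.log k)
      ≤ ∑ k ∈ Ioc w z, (Λ k / k) * (1 / Real.log k) + 0.2295 * (1 / Real.log ((w + 1 : ℕ) : ℝ)) := by
    apply abel_le (f := fun k : ℕ => 1 / Real.log k) hwz (by norm_num)
    · intro k hk1 _
      have := MB_log_pos hw2 hk1.le
      positivity
    · have := MB_log_pos hw2 (Nat.le_succ w)
      positivity
    · intro k hk1 _
      have h2 := MB_log_pos hw2 hk1.le
      apply one_div_le_one_div_of_le h2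
      apply Real.log_le_log
      · exact_mod_cast (by omega : 0 < k)
      · push_cast; linarith only
    · intro m hm1 _
      have e1 : ∑ k ∈ Ioc w m, (Real.log k - Real.log (k - 1 : ℕ)) = Real.log m - Real.log w := by
        induction m, hm1 using Nat.le_induction with
        | base => simp
        | succ m hm ih =>
          rw [sum_Ioc_succ_top (by omega), ih (by omega)]
          simp
      have e3 : Mt m - Mt w = ∑ k ∈ Ioc w m, Λ k / k := by
        unfold Mt
        rw [← sum_Ioc_consecutive _ (Nat.zero_le w) hm1]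
        ring
      have h2 := Mt_osc (n := m) (m := w) (by omega) hw
      rw [e1, ← e3]
      linarith only [h2]
  -- splitting off the primes
  have h2 : ∑ k ∈ Ioc w z, (Λ k / k) * (1 / Real.log k)
      = ∑ p ∈ Pr w z, (1 : ℝ) / p + ∑ k ∈ Ioc w z, (if k.Prime then 0 else Λ k) * (1 / (k * Real.log k)) := by
    unfold Pr
    rw [sum_filter, ← sum_add_distrib]
    apply sum_congr rfl
    intro k hk
    rw [mem_Ioc] at hk
    have hk0 : (0 : ℝ) < k := by exact_mod_cast (by omega : 0 < k)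
    have hl := MB_log_pos hw2 hk.1.le
    split_ifs with hp
    · rw [ArithmeticFunction.vonMangoldt_apply_prime hp]
      field_simp
      ring
    · field_simp
      ring
  have h3 := MB_powers hw2 hwz
  have h4 := MB_loglog hw2 hwz
  have h5 : 0.2295 * (1 / Real.log ((w + 1 : ℕ) : ℝ)) ≤ 0.2295 / Real.log w := by
    rw [mul_one_div]
    apply div_le_div_of_nonneg_left (by norm_num) hlw
    apply Real.log_le_log hwp
    push_cast; linarith only
  have l3 : Real.log 3 ≤ 1.098617 := by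
    have := log_three_bounds.2
    have l2 := Real.log_two_lt_d9
    linarith only [this, l2]
  have hs : (256 : ℝ) ≤ Real.sqrt w := by
    rw [show (256 : ℝ) = Real.sqrt 65536 by
      rw [show (65536 : ℝ) = 256 ^ 2 by norm_num, Real.sqrt_sq (by norm_num)]]
    exact Real.sqrt_le_sqrt hw0
  have h6 : 4 * Real.log 3 / (Real.sqrt w * Real.log w) ≤ 0.0172 / Real.log w := by
    rw [div_le_div_iff₀ (by positivity) hlw]
    have : 4 * Real.log 3 ≤ 0.0172 * Real.sqrt w := by linarith only [l3, hs]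
    nlinarith only [hlw, l3, hs]
  have h7 : 1 / (w * Real.log w) ≤ 0.0001 / Real.log w := by
    rw [div_le_div_iff₀ (by positivity) hlw]
    have : 1 ≤ 0.0001 * (w : ℝ) := by linarith only [hw0]
    nlinarith only [hlw, hw0]
  have h8 : 0.25 / Real.log w = 0.2295 / Real.log w + 0.0172 / Real.log w + 0.0001 / Real.log w
      + 0.0032 / Real.log w := by ring
  have h9 : 0 ≤ 0.0032 / Real.log w := by positivity
  rw [Real.log_div hlz.ne' hlw.ne']
  rw [h2] at h1
  linarith only [h1, h3, h4, h5, h6, h7, h8, h9]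

/-! ### The product up to 65536 -/

end Pool.Agent.H91.PK

end

section

/-!
# W Rough: the density of the integers without prime factor in `(P, P 2^J]`

Proof.  Let `Z = P 2^J`, `f(k) = 1` if `k` has no prime factor in `(P, Z]` (these are the primes of the blocks
`pb (P 2^i)`, `i < J`), else `0`.  If `y < Z` the number is `≤ y ≤ Z`.  Let `y ≥ Z`.
(Hall-Tenenbaum) `∑_{n ≤ y} f(n) log n = ∑_{n ≤ y} f(n) ∑_{d ∣ n} Λ(d) ≤ ∑_{m ≤ y} f(m) ψ(y/m) ≤ C1 y ∑_{m ≤ y} f(m)/m`
(`n = m d`, `f(n) ≤ f(m)`; `ψ(u) ≤ C1 u`, e.g. `Chebyshev.psi_le` or `psi_le_log_three`), and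
`∑_{n ≤ y} f(n) log(y/n) ≤ ∑ f(n) y/n`; so `log y · ∑_{n ≤ y} f(n) ≤ (C1 + 1) y ∑_{m ≤ y} f(m)/m`.
(Euler product) `∑_{m ≤ y} f(m)/m ≤ ∏_{p ≤ y, p ∉ (P, Z]} (1 - 1/p)^{-1}`, and
`∏_{p ≤ y} (1 - 1/p)^{-1} ≤ C2 log y` (Mertens upper bound, `MR_sum_inv` for `∑ 1/p`), and
`∏_{P < p ≤ Z} (1 - 1/p) ≤ exp (- ∑_{P < p ≤ Z} 1/p) ≤ C3 log P / log Z` (`mertens_lower` in `H91/PK/MB.lean` for `P ≥ 65536`;
for smaller `P` use `P' = 65536`: then `log P' / log Z ≤ 16 log P / log Z · ...`, if `Z ≤ 65536` the claim is trivial with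
a large `C`).  So `#{n ≤ y : f(n) = 1} ≤ C y log P / log Z`.
-/

set_option autoImplicit false

namespace Pool.Agent.H35.W

open Finset

private theorem rough_upper : ∃ C : ℝ, 0 < C ∧ ∀ y : ℕ, 2 ≤ y →
    ∑ p ∈ (Icc 1 y).filter Nat.Prime, (1 : ℝ) / p ≤ Real.log (Real.log y) + C :=
  Pool.Agent.H43.MP.mrt_upper

open Pool.Agent.H91.Gold (Pr) in
private theorem rough_Pr_mono (P w Z : ℕ) (h : P ≤ w) :
    ∑ p ∈ Pr w Z, (1 : ℝ) / p ≤ ∑ p ∈ (Ioc P Z).filter Nat.Prime, (1 : ℝ) / p := by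
  apply Finset.sum_le_sum_of_subset_of_nonneg
  · intro p hp
    unfold Pr at hp
    rw [mem_filter, mem_Ioc] at hp ⊢
    exact ⟨⟨lt_of_le_of_lt h hp.1.1, hp.1.2⟩, hp.2⟩
  · intro _ _ _; positivity

open Pool.Agent.H91.Gold (Pr) in
private theorem rough_lower (P Z : ℕ) (hP : 2 ≤ P) (hPZ : P ≤ Z) :
    Real.log (Real.log Z / Real.log P) - 4 ≤ ∑ p ∈ (Ioc P Z).filter Nat.Prime, (1 : ℝ) / p := by
  have hlP : (0 : ℝ) < Real.log P := Real.log_pos (by exact_mod_cast hP)
  have hlZ : (0 : ℝ) < Real.log Z := Real.log_pos (by exact_mod_cast (by omega : 1 < Z))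
  have hZ0 : (0 : ℝ) < Z := by
    have : 0 < Z := by omega
    exact_mod_cast this
  have hl2 : (0 : ℝ) < Real.log 2 := Real.log_pos (by norm_num)
  have hl6 : Real.log 65536 = 16 * Real.log 2 := by
    rw [show (65536 : ℝ) = 2 ^ 16 by norm_num, Real.log_pow]; norm_num
  have hl6' : (11 : ℝ) ≤ Real.log 65536 := by
    rw [hl6]; have := Real.log_two_gt_d9; linarith
  have hl16 : Real.log 16 ≤ 3 := by
    rw [show (16 : ℝ) = 2 ^ 4 by norm_num, Real.log_pow]
    have := Real.log_two_lt_d9; push_cast; linarith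
  rcases Nat.lt_or_ge P 65536 with h | h
  · have hP2 : Real.log 2 ≤ Real.log P := Real.log_le_log (by norm_num) (by exact_mod_cast hP)
    rcases Nat.lt_or_ge Z 65536 with hz | hz
    · have h1 : Real.log Z ≤ Real.log 65536 := Real.log_le_log (by positivity) (by exact_mod_cast hz.le)
      have h2 : Real.log Z / Real.log P ≤ 16 := by
        rw [div_le_iff₀ hlP]; rw [hl6] at h1; nlinarith
      have h3 : Real.log (Real.log Z / Real.log P) ≤ Real.log 16 :=
        Real.log_le_log (by positivity) h2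
      have h4 : (0 : ℝ) ≤ ∑ p ∈ (Ioc P Z).filter Nat.Prime, (1 : ℝ) / p :=
        Finset.sum_nonneg (fun _ _ => by positivity)
      linarith
    · have h1 := Pool.Agent.H91.PK.mertens_lower (le_refl 65536) hz
      have h2 : ∑ p ∈ Pr 65536 Z, (1 : ℝ) / p ≤ ∑ p ∈ (Ioc P Z).filter Nat.Prime, (1 : ℝ) / p :=
        rough_Pr_mono P 65536 Z h.le
      have h3 : (0.25 : ℝ) / Real.log ((65536 : ℕ) : ℝ) ≤ 1 := by
        push_cast
        rw [div_le_one (by linarith)]; linarith
      have h4 : Real.log (Real.log Z / Real.log P) - Real.log 16 ≤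
          Real.log (Real.log Z / Real.log ((65536 : ℕ) : ℝ)) := by
        push_cast
        rw [← Real.log_div (by positivity) (by norm_num)]
        apply Real.log_le_log (by positivity)
        rw [div_div]
        apply div_le_div_of_nonneg_left hlZ.le (by linarith)
        rw [hl6]; nlinarith
      linarith
  · have h1 := Pool.Agent.H91.PK.mertens_lower h hPZ
    have h3 : (0.25 : ℝ) / Real.log P ≤ 1 := by
      have : Real.log 65536 ≤ Real.log P := Real.log_le_log (by norm_num) (by exact_mod_cast h)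
      rw [div_le_one hlP]; linarith
    have h2 : ∑ p ∈ Pr P Z, (1 : ℝ) / p = ∑ p ∈ (Ioc P Z).filter Nat.Prime, (1 : ℝ) / p := rfl
    linarith

/-- the block primes fill `(P, P 2^J]` -/
private theorem rough_block (P J p : ℕ) (hp : p.Prime) (h1 : P < p) (h2 : p ≤ P * 2 ^ J) :
    ∃ i, i < J ∧ p ∈ pb (P * 2 ^ i) := by
  induction J with
  | zero => simp at h2; omega
  | succ J ih =>
    rcases Nat.lt_or_ge (P * 2 ^ J) p with h | h
    · refine ⟨J, Nat.lt_succ_self J, ?_⟩
      unfold pb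
      rw [mem_filter, mem_Ioc]
      refine ⟨⟨h, ?_⟩, hp⟩
      rw [pow_succ] at h2
      linarith [h2, Nat.mul_comm 2 (P * 2 ^ J)]
    · obtain ⟨i, hi, hi'⟩ := ih h
      exact ⟨i, hi.trans (Nat.lt_succ_self J), hi'⟩

private theorem rough_dvd (P J m n : ℕ) (h : Rk P J n) (hmn : m ∣ n) : Rk P J m :=
  fun i hi p hp hpm => h i hi p hp (hpm.trans hmn)

/-- Hall-Tenenbaum -/
private theorem rough_HT (P J y : ℕ) (hy : 2 ≤ y) :
    Real.log y * ((rgh P J y).card : ℝ) ≤
      (Real.log 4 + 5) * y * ∑ m ∈ rgh P J y, (1 : ℝ) / m := by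
  classical
  have hy0 : (0 : ℝ) < y := by positivity
  have mem : ∀ n, n ∈ rgh P J y ↔ (1 ≤ n ∧ n ≤ y) ∧ Rk P J n := by
    intro n; unfold rgh; rw [mem_filter, mem_Icc]
  have h1 : Real.log y * ((rgh P J y).card : ℝ) =
      ∑ n ∈ rgh P J y, Real.log n + ∑ n ∈ rgh P J y, Real.log ((y : ℝ) / n) := by
    rw [← Finset.sum_add_distrib, mul_comm, ← nsmul_eq_mul, ← Finset.sum_const]
    apply Finset.sum_congr rfl
    intro n hn
    have hn1 := ((mem n).1 hn).1.1
    have hn0 : (0 : ℝ) < n := by positivity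
    rw [Real.log_div hy0.ne' hn0.ne']; ring
  have h2 : ∑ n ∈ rgh P J y, Real.log ((y : ℝ) / n) ≤ y * ∑ m ∈ rgh P J y, (1 : ℝ) / m := by
    rw [Finset.mul_sum]
    apply Finset.sum_le_sum
    intro n hn
    have hn1 := ((mem n).1 hn).1.1
    have hn0 : (0 : ℝ) < n := by positivity
    have := Real.log_le_self (show (0 : ℝ) ≤ y / n by positivity)
    rw [mul_one_div]; exact this
  have h3 : ∑ n ∈ rgh P J y, Real.log n ≤
      ∑ m ∈ rgh P J y, ∑ d ∈ Ioc 0 (y / m), ArithmeticFunction.vonMangoldt d := by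
    have e1 : ∀ n ∈ rgh P J y, Real.log n =
        ∑ m ∈ rgh P J y, if m ∣ n then ArithmeticFunction.vonMangoldt (n / m) else 0 := by
      intro n hn
      have hn1 := (mem n).1 hn
      rw [← ArithmeticFunction.vonMangoldt_sum,
        ← Nat.sum_div_divisors n (fun d => ArithmeticFunction.vonMangoldt d), ← Finset.sum_filter]
      apply Finset.sum_congr _ (fun _ _ => rfl)
      ext m
      rw [Nat.mem_divisors, mem_filter, mem]
      constructor
      · rintro ⟨hm, _⟩
        refine ⟨⟨⟨Nat.pos_of_dvd_of_pos hm hn1.1.1, ?_⟩, rough_dvd P J m n hn1.2 hm⟩, hm⟩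
        exact (Nat.le_of_dvd hn1.1.1 hm).trans hn1.1.2
      · rintro ⟨_, hm⟩
        exact ⟨hm, by omega⟩
    rw [Finset.sum_congr rfl e1, Finset.sum_comm]
    apply Finset.sum_le_sum
    intro m hm
    have hm1 := ((mem m).1 hm).1.1
    rw [← Finset.sum_filter]
    have e2 : ∑ n ∈ (rgh P J y).filter (fun n => m ∣ n), ArithmeticFunction.vonMangoldt (n / m) =
        ∑ d ∈ ((rgh P J y).filter (fun n => m ∣ n)).image (fun n => n / m),
          ArithmeticFunction.vonMangoldt d := by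
      rw [Finset.sum_image]
      intro a ha b hb hab
      rw [Finset.coe_filter] at ha hb
      have ha' := Nat.div_mul_cancel ha.2
      have hb' := Nat.div_mul_cancel hb.2
      have hab' : a / m = b / m := hab
      rw [← ha', ← hb', hab']
    rw [e2]
    apply Finset.sum_le_sum_of_subset_of_nonneg
    · intro d hd
      rw [mem_image] at hd
      obtain ⟨n, hn, rfl⟩ := hd
      rw [mem_filter] at hn
      have hn1 := (mem n).1 hn.1
      rw [mem_Ioc]
      exact ⟨Nat.div_pos (Nat.le_of_dvd hn1.1.1 hn.2) hm1, Nat.div_le_div_right hn1.1.2⟩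
    · intro _ _ _
      exact ArithmeticFunction.vonMangoldt_nonneg
  have h4 : ∑ m ∈ rgh P J y, ∑ d ∈ Ioc 0 (y / m), ArithmeticFunction.vonMangoldt d ≤
      (Real.log 4 + 4) * y * ∑ m ∈ rgh P J y, (1 : ℝ) / m := by
    rw [Finset.mul_sum]
    apply Finset.sum_le_sum
    intro m hm
    have hm1 := ((mem m).1 hm).1.1
    have hm0 : (0 : ℝ) < m := by positivity
    have e3 := Chebyshev.psi_le_const_mul_self (show (0 : ℝ) ≤ ((y / m : ℕ) : ℝ) by positivity)
    unfold Chebyshev.psi at e3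
    rw [Nat.floor_natCast] at e3
    refine e3.trans ?_
    have e4 : ((y / m : ℕ) : ℝ) ≤ y / m := Nat.cast_div_le
    have e5 : (0 : ℝ) ≤ Real.log 4 + 4 := by
      have := Real.log_nonneg (show (1 : ℝ) ≤ 4 by norm_num); linarith
    calc (Real.log 4 + 4) * ((y / m : ℕ) : ℝ) ≤ (Real.log 4 + 4) * (y / m) :=
          mul_le_mul_of_nonneg_left e4 e5
      _ = (Real.log 4 + 4) * y * (1 / m) := by ring
  rw [h1]
  calc _ ≤ (Real.log 4 + 4) * y * ∑ m ∈ rgh P J y, (1 : ℝ) / m +
        y * ∑ m ∈ rgh P J y, (1 : ℝ) / m := add_le_add (h3.trans h4) h2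
    _ = _ := by ring

/-- Euler product -/
private theorem rough_Euler (P J y : ℕ) (hy : 2 ≤ y) :
    ∑ m ∈ rgh P J y, (1 : ℝ) / m ≤
      Real.exp (∑ p ∈ ((Icc 1 y).filter Nat.Prime).filter (fun p => ¬ (P < p ∧ p ≤ P * 2 ^ J)),
        (1 : ℝ) / p + 2) := by
  classical
  set T := ((Icc 1 y).filter Nat.Prime).filter (fun p => ¬ (P < p ∧ p ≤ P * 2 ^ J)) with hT
  have memT : ∀ p, p ∈ T ↔ ((1 ≤ p ∧ p ≤ y) ∧ p.Prime) ∧ ¬ (P < p ∧ p ≤ P * 2 ^ J) := by
    intro p; rw [hT, mem_filter, mem_filter, mem_Icc]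
  let f : ℕ →* ℝ :=
    { toFun := fun n => (n : ℝ)⁻¹
      map_one' := by simp
      map_mul' := by intro a b; push_cast; rw [mul_inv] }
  have hf : ∀ n, f n = (n : ℝ)⁻¹ := fun _ => rfl
  have hlt : ∀ {p : ℕ}, Nat.Prime p → ‖f p‖ < 1 := by
    intro p hp
    have : (2 : ℝ) ≤ p := by exact_mod_cast hp.two_le
    rw [hf, norm_inv, Real.norm_of_nonneg (by positivity)]
    exact inv_lt_one_of_one_lt₀ (by linarith)
  obtain ⟨hs, hsum⟩ := EulerProduct.summable_and_hasSum_factoredNumbers_prod_filter_prime_geometric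
    (f := f) hlt T
  have hTp : T.filter Nat.Prime = T := by
    apply Finset.filter_true_of_mem
    intro p hp
    exact ((memT p).1 hp).1.2
  rw [hTp] at hsum
  have h1 : ∑ m ∈ rgh P J y, (1 : ℝ) / m ≤ ∏ p ∈ T, (1 - f p)⁻¹ := by
    have e1 : ∀ m ∈ rgh P J y, m ∈ Nat.factoredNumbers T := by
      intro m hm
      unfold rgh at hm
      rw [mem_filter, mem_Icc] at hm
      rw [Nat.mem_factoredNumbers]
      refine ⟨by omega, ?_⟩
      intro p hp
      have hpp := Nat.prime_of_mem_primeFactorsList hp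
      have hpd := Nat.dvd_of_mem_primeFactorsList hp
      rw [memT]
      refine ⟨⟨⟨hpp.one_lt.le, (Nat.le_of_dvd hm.1.1 hpd).trans hm.1.2⟩, hpp⟩, ?_⟩
      rintro ⟨h1, h2⟩
      obtain ⟨i, hi, hi'⟩ := rough_block P J p hpp h1 h2
      exact hm.2 i hi p hi' hpd
    have e2 : ∑ m ∈ rgh P J y, (1 : ℝ) / m =
        ∑ m ∈ (rgh P J y).attach, f m.1 := by
      rw [Finset.sum_attach (rgh P J y) (fun m => f m)]
      apply Finset.sum_congr rfl
      intro m _
      rw [hf, one_div]
    rw [e2]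
    let g : {m // m ∈ rgh P J y} → Nat.factoredNumbers T := fun m => ⟨m.1, e1 m.1 m.2⟩
    have hg : Function.Injective g := by
      intro a b hab
      have : a.1 = b.1 := congrArg (fun z : Nat.factoredNumbers T => z.1) hab
      exact Subtype.ext this
    have e3 : ∑ m ∈ (rgh P J y).attach, f m.1 =
        ∑ z ∈ (rgh P J y).attach.image g, f (z : ℕ) := by
      rw [Finset.sum_image (fun a _ b _ h => hg h)]
    rw [e3]
    apply sum_le_hasSum _ _ hsum
    intro z _
    rw [hf]; positivity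
  refine h1.trans ?_
  rw [Real.exp_add, Real.exp_sum]
  have h2 : ∏ p ∈ T, (1 - f p)⁻¹ ≤ ∏ p ∈ T, Real.exp (1 / (p : ℝ)) * Real.exp (1 / (p : ℝ) ^ 2) := by
    apply Finset.prod_le_prod
    · intro p hp
      have hpp := ((memT p).1 hp).1.2
      have := hlt hpp
      rw [Real.norm_of_nonneg (by rw [hf]; positivity)] at this
      have : 0 < 1 - f p := by linarith
      positivity
    · intro p hp
      have hpp := ((memT p).1 hp).1.2
      have hp2 : (2 : ℝ) ≤ p := by exact_mod_cast hpp.two_le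
      rw [hf, ← Real.exp_add]
      have hp0 : (0 : ℝ) < p := by linarith
      set t := (p : ℝ)⁻¹ with ht
      have ht1 : t ≤ 1 / 2 := by
        rw [ht, inv_le_comm₀ hp0 (by norm_num)]; linarith
      have ht0 : 0 < t := by positivity
      have e4 : (1 : ℝ) / p + 1 / (p : ℝ) ^ 2 = t + t ^ 2 := by
        rw [ht]; field_simp
      rw [e4]
      have e5 : (1 - t)⁻¹ ≤ 1 + (t + t ^ 2) + (t + t ^ 2) ^ 2 / 2 := by
        rw [inv_le_iff_one_le_mul₀ (by linarith)]
        nlinarith [pow_pos ht0 2, pow_pos ht0 3, pow_pos ht0 4, mul_pos ht0 ht0]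
      exact e5.trans (Real.quadratic_le_exp_of_nonneg (by positivity))
  refine h2.trans ?_
  rw [Finset.prod_mul_distrib]
  apply mul_le_mul_of_nonneg_left _ (Finset.prod_nonneg (fun _ _ => (Real.exp_pos _).le))
  rw [← Real.exp_sum]
  apply Real.exp_le_exp.2
  have h3 : ∑ p ∈ T, 1 / (p : ℝ) ^ 2 ≤ ∑ p ∈ Icc 1 y, 1 / (p : ℝ) ^ 2 := by
    apply Finset.sum_le_sum_of_subset_of_nonneg
    · intro p hp
      rw [mem_Icc]
      exact ((memT p).1 hp).1.1
    · intro _ _ _; positivity
  refine h3.trans ?_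
  have h4 : ∀ n : ℕ, 1 ≤ n → ∑ p ∈ Icc 1 n, 1 / (p : ℝ) ^ 2 ≤ 2 - 1 / (n : ℝ) := by
    intro n hn
    induction n, hn using Nat.le_induction with
    | base => norm_num
    | succ n hn ih =>
      rw [Finset.sum_Icc_succ_top (by omega)]
      have hn0 : (0 : ℝ) < n := by positivity
      have : 1 / ((n + 1 : ℕ) : ℝ) ^ 2 ≤ 1 / n - 1 / ((n + 1 : ℕ) : ℝ) := by
        push_cast
        rw [div_sub_div _ _ hn0.ne' (by positivity), div_le_div_iff₀ (by positivity) (by positivity)]
        nlinarith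
      linarith
  have h5 := h4 y (by omega)
  have : (0 : ℝ) ≤ 1 / y := by positivity
  linarith

theorem rough_count : ∃ C : ℝ, 0 < C ∧ ∀ (P J : ℕ), 2 ≤ P → ∀ y : ℕ,
    ((rgh P J y).card : ℝ) ≤ C * (Real.log P / Real.log ((P : ℝ) * 2 ^ J)) * y + P * 2 ^ J := by
  classical
  obtain ⟨C2, hC2, hup⟩ := rough_upper
  refine ⟨(Real.log 4 + 5) * Real.exp (C2 + 6), ?_, ?_⟩
  · have := Real.log_nonneg (show (1 : ℝ) ≤ 4 by norm_num)
    positivity
  intro P J hP y
  have hPZ : P ≤ P * 2 ^ J := Nat.le_mul_of_pos_right P (by positivity)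
  have hlP : (0 : ℝ) < Real.log P := Real.log_pos (by exact_mod_cast hP)
  have hZr : (P : ℝ) * 2 ^ J = ((P * 2 ^ J : ℕ) : ℝ) := by push_cast; ring
  rw [hZr]
  set Z := P * 2 ^ J with hZ
  have hlZ : Real.log P ≤ Real.log Z :=
    Real.log_le_log (by positivity) (by exact_mod_cast hPZ)
  have hlZ0 : 0 < Real.log Z := lt_of_lt_of_le hlP hlZ
  have hl4 := Real.log_nonneg (show (1 : ℝ) ≤ 4 by norm_num)
  rcases Nat.lt_or_ge y Z with hyZ | hyZ
  · have h1 : ((rgh P J y).card : ℝ) ≤ y := by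
      have : (rgh P J y).card ≤ y := by
        unfold rgh
        refine (Finset.card_filter_le _ _).trans ?_
        simp
      exact_mod_cast this
    have h2 : (y : ℝ) ≤ Z := by exact_mod_cast hyZ.le
    have h3 : 0 ≤ (Real.log 4 + 5) * Real.exp (C2 + 6) * (Real.log P / Real.log Z) * y := by
      positivity
    linarith
  · have hy2 : 2 ≤ y := by omega
    have hly : 0 < Real.log y := Real.log_pos (by exact_mod_cast (by omega : 1 < y))
    have h1 := rough_HT P J y hy2
    have h2 := rough_Euler P J y hy2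
    have h3 := hup y hy2
    have h4 := rough_lower P Z hP hPZ
    have h5 : ∑ p ∈ ((Icc 1 y).filter Nat.Prime).filter (fun p => ¬ (P < p ∧ p ≤ P * 2 ^ J)),
        (1 : ℝ) / p + ∑ p ∈ (Ioc P Z).filter Nat.Prime, (1 : ℝ) / p =
        ∑ p ∈ (Icc 1 y).filter Nat.Prime, (1 : ℝ) / p := by
      rw [← Finset.sum_filter_add_sum_filter_not ((Icc 1 y).filter Nat.Prime)
        (fun p => P < p ∧ p ≤ P * 2 ^ J), add_comm]
      congr 1
      apply Finset.sum_congr _ (fun _ _ => rfl)
      ext p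
      rw [mem_filter, mem_filter, mem_filter, mem_Ioc, mem_Icc]
      constructor
      · rintro ⟨⟨h, h'⟩, hp⟩
        exact ⟨⟨⟨hp.one_lt.le, h'.trans hyZ⟩, hp⟩, h, h'⟩
      · rintro ⟨⟨_, hp⟩, h, h'⟩
        exact ⟨⟨h, h'⟩, hp⟩
    have h6 : ∑ m ∈ rgh P J y, (1 : ℝ) / m ≤
        Real.exp (C2 + 6) * (Real.log y * (Real.log P / Real.log Z)) := by
      refine h2.trans ?_
      have e1 : Real.log y * (Real.log P / Real.log Z) =
          Real.exp (Real.log (Real.log y) - Real.log (Real.log Z / Real.log P)) := by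
        rw [Real.exp_sub, Real.exp_log hly, Real.exp_log (by positivity)]
        field_simp
      rw [e1, ← Real.exp_add]
      apply Real.exp_le_exp.2
      linarith
    have h7 : Real.log y * ((rgh P J y).card : ℝ) ≤
        Real.log y * ((Real.log 4 + 5) * Real.exp (C2 + 6) * (Real.log P / Real.log Z) * y) := by
      refine h1.trans ?_
      have : (Real.log 4 + 5) * (y : ℝ) * ∑ m ∈ rgh P J y, (1 : ℝ) / m ≤
          (Real.log 4 + 5) * (y : ℝ) *
            (Real.exp (C2 + 6) * (Real.log y * (Real.log P / Real.log Z))) :=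
        mul_le_mul_of_nonneg_left h6 (by positivity)
      refine this.trans (le_of_eq ?_)
      ring
    have h8 := le_of_mul_le_mul_left h7 hly
    have h9 : (0 : ℝ) ≤ P * 2 ^ J := by positivity
    linarith

end Pool.Agent.H35.W

end

section

/-!
# MID Base: the base relation

Proof.  `w = cw H P A L`; `w ≥ H/(2 P L^(A+5))`, `w ≥ w0 ≥ 1`.  For every cell `c` with `(c+1) w ≤ X` let `Γ c` be the net of `net` with `u = c w`, `ν = w/(16 L^A)`, `S = w L^4`:
`|Γ c| ≤ 5 · 256 L^(2A+4)`.  For `g : ℕ` let `B g` be the union of the `Γ c` over the `c` with `g ≤ c w P/H < g + 1`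
(at most `H/(w P) + 1 ≤ 2 L^(A+5) + 1` values): `|B g| ≤ 1280 L^(2A+4) · 3 L^(A+5)`.
For `i ∈ F0` and `p` in the set of `base_a`: `c` as there, `g = ⌊c w P/H⌋`: `i P/p ≤ c w P/H < (i+1) P/p`, so `|g - i P/p| ≤ 1`, `|g p - i P| ≤ p ≤ 2P`,
`g ≥ n/(2C) - 1 ≥ n/(3C)`, `g ≤ C n + 1 ≤ 3 C n`; some `β ∈ B g` has `nz (p α_i - β) ≤ 1/w`.
Let `N(g, β)` be the set of the `(i,p)` with the chosen `g(i,p) = g` and `nz (p α_i - β) ≤ 1/w`.  `∑_{g} ∑_{β ∈ B g} |N(g,β)| ≥ |F0| P/(4 L^(A+2))`.  For every `g` with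
`B g ≠ ∅` let `β_g ∈ B g` maximise `|N(g, β)|`; then `∑_g |N(g, β_g)| ≥ |F0| P/(4 L^(A+2))/(3840 L^(3A+9))`.
`R0 = {(i, p, g) : (i,p) ∈ N(g, β_g)}`, `G0` = the `g` that occur; `1/w ≤ 2 P L^(A+5)/H = η P`.  `|F0| ≥ n/L^A`; `15360 ≤ L^3`: `C0 = 5A + 14`.
-/

set_option autoImplicit false

namespace Pool.Agent.H53.MID

open Finset
open Pool.Agent.H91.PK (ee)
open Pool.Agent.H35.W (pb)

/-- pigeonhole: choose for each `g` the most popular value -/
private theorem Base_pigeon {T : Type*} [DecidableEq T] (T0 : Finset T) (g : T → ℕ) (b : T → ℝ) (B : ℕ → Finset ℝ) (K : ℝ)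
    (hK : 0 < K) (hb : ∀ t ∈ T0, b t ∈ B (g t)) (hB : ∀ n, ((B n).card : ℝ) ≤ K) :
    ∃ β : ℕ → ℝ, (T0.card : ℝ) / K ≤ ((T0.filter (fun t => b t = β (g t))).card : ℝ) := by
  classical
  have h1 : ∀ n : ℕ, ∃ y : ℝ, ((T0.filter (fun t => g t = n)).card : ℝ) / K ≤
      (((T0.filter (fun t => g t = n)).filter (fun t => b t = y)).card : ℝ) := by
    intro n
    by_cases hne : (T0.filter (fun t => g t = n)).Nonempty
    · obtain ⟨t, ht⟩ := hne
      rw [Finset.mem_filter] at ht
      have hBne : (B n).Nonempty := ⟨b t, by have := hb t ht.1; rwa [ht.2] at this⟩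
      have hmap : ∀ a ∈ T0.filter (fun t => g t = n), b a ∈ B n := by
        intro a ha
        rw [Finset.mem_filter] at ha
        have := hb a ha.1
        rwa [ha.2] at this
      have hle : (B n).card • (((T0.filter (fun t => g t = n)).card : ℝ) / K) ≤
          ((T0.filter (fun t => g t = n)).card : ℝ) := by
        rw [nsmul_eq_mul]
        calc ((B n).card : ℝ) * (((T0.filter (fun t => g t = n)).card : ℝ) / K)
            ≤ K * (((T0.filter (fun t => g t = n)).card : ℝ) / K) :=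
              mul_le_mul_of_nonneg_right (hB n) (by positivity)
          _ = _ := by field_simp
      obtain ⟨y, _, hy⟩ := Finset.exists_le_card_fiber_of_nsmul_le_card_of_maps_to hmap hBne hle
      exact ⟨y, hy⟩
    · rw [Finset.not_nonempty_iff_eq_empty] at hne
      refine ⟨0, ?_⟩
      rw [hne]
      simp
  choose β hβ using h1
  refine ⟨β, ?_⟩
  have e1 : (T0.card : ℝ) = ∑ n ∈ T0.image g, ((T0.filter (fun t => g t = n)).card : ℝ) := by
    rw [← Nat.cast_sum, ← Finset.card_eq_sum_card_image]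
  have e2 : ((T0.filter (fun t => b t = β (g t))).card : ℝ) =
      ∑ n ∈ T0.image g, (((T0.filter (fun t => g t = n)).filter (fun t => b t = β n)).card : ℝ) := by
    rw [← Nat.cast_sum]
    congr 1
    rw [Finset.card_eq_sum_card_fiberwise (f := g) (t := T0.image g)]
    · refine Finset.sum_congr rfl fun n _ => ?_
      congr 1
      ext t
      simp only [Finset.mem_filter]
      constructor
      · rintro ⟨⟨h1, h2⟩, h3⟩
        exact ⟨⟨h1, h3⟩, by rw [← h3]; exact h2⟩
      · rintro ⟨⟨h1, h2⟩, h3⟩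
        exact ⟨⟨h1, by rw [h2]; exact h3⟩, h2⟩
    · intro t ht
      rw [Finset.mem_coe, Finset.mem_filter] at ht
      exact Finset.mem_coe.2 (Finset.mem_image_of_mem g ht.1)
  rw [e1, e2, Finset.sum_div]
  exact Finset.sum_le_sum fun n _ => hβ n

theorem base (C : ℝ) (hC : 1 ≤ C) (A : ℕ) (L : ℝ) (n H P w0 X : ℕ) (f : ℕ → ℝ) (F0 : Finset ℕ) (α : ℕ → ℝ)
    (hL : 100 ≤ L) (hn : 100 * C ≤ n) (hw0 : 1 ≤ w0) (hP : 1 ≤ P) (hH : 2 * w0 * P * L ^ (A + 5) ≤ H)
    (hf : SqB f w0 X L) (hX : 8 * C * n * H ≤ X) (hF : ∀ i ∈ F0, (n : ℝ) / C ≤ i ∧ (i : ℝ) ≤ C * n)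
    (hcard : n / L ^ A ≤ (F0.card : ℝ)) (hbig : ∀ i ∈ F0, H / L ^ A ≤ ‖Bs (Fp f P) H i (α i)‖) :
    ∃ (G0 : Finset ℕ) (β : ℕ → ℝ) (R0 : Finset (ℕ × ℕ × ℕ)),
      Rel (3 * C) n P (2 * L ^ (A + 5) / H * P) F0 G0 α β R0 ∧ n * P / L ^ (5 * A + 14) ≤ (R0.card : ℝ) := by
  classical
  have hL0 : (0 : ℝ) < L := by linarith only [hL]
  have hP1 : (1 : ℝ) ≤ P := by exact_mod_cast hP
  have hP0 : (0 : ℝ) < P := by linarith
  have hC0 : 0 < C := by linarith
  have hLA : 0 < L ^ (A + 5) := by positivity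
  have hLA1 : 1 ≤ L ^ (A + 5) := one_le_pow₀ (by linarith)
  have hw0' : (1 : ℝ) ≤ w0 := by exact_mod_cast hw0
  have hn0 : (0 : ℝ) < n := by linarith
  have hq : 2 * (w0 : ℝ) ≤ (H : ℝ) / (P * L ^ (A + 5)) := by
    rw [le_div_iff₀ (by positivity)]
    calc 2 * (w0 : ℝ) * (P * L ^ (A + 5)) = 2 * w0 * P * L ^ (A + 5) := by ring
      _ ≤ H := hH
  have hH0 : (0 : ℝ) < H := lt_of_lt_of_le (by positivity) hH
  have hH0' : 0 < H := by exact_mod_cast hH0
  obtain ⟨w, hw⟩ : ∃ w, w = cw H P A L := ⟨_, rfl⟩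
  have hwdef : w = ⌊(H : ℝ) / (P * L ^ (A + 5))⌋₊ := by rw [hw, cw]
  have hwge : (H : ℝ) / (P * L ^ (A + 5)) / 2 ≤ w := by
    have h := Nat.lt_floor_add_one ((H : ℝ) / (P * L ^ (A + 5)))
    rw [← hwdef] at h
    linarith only [hw0', hq, h]
  have hwle : (w : ℝ) ≤ (H : ℝ) / (P * L ^ (A + 5)) := by
    rw [hwdef]
    exact Nat.floor_le (by positivity)
  have hww0 : w0 ≤ w := by
    rw [hwdef]
    apply Nat.le_floor
    linarith only [hw0', hq]
  have hw1 : 1 ≤ w := hw0.trans hww0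
  have hwR : (1 : ℝ) ≤ w := by exact_mod_cast hw1
  have hwH : (w : ℝ) ≤ H := by
    refine hwle.trans (div_le_self hH0.le ?_)
    nlinarith only [hP1, hLA1]
  have hwinv : 1 / (w : ℝ) ≤ 2 * L ^ (A + 5) / H * P := by
    rw [div_le_iff₀ (by linarith only [hw0', hq, hwge])]
    have h1 : 2 * L ^ (A + 5) / H * P * ((H : ℝ) / (P * L ^ (A + 5)) / 2) = 1 := by
      field_simp
    rw [← h1]
    exact mul_le_mul_of_nonneg_left hwge (by positivity)
  -- the nets
  have hnet : ∀ c : ℕ, ∃ Γ : Finset ℝ, (Γ.card : ℝ) ≤ 1280 * L ^ (2 * A + 4) ∧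
      (c * w + w ≤ X → ∀ γ : ℝ, (w : ℝ) / (16 * L ^ A) ≤
        ‖∑ k ∈ Ico (c * w) (c * w + w), (f k : ℂ) * ee (-(k * γ))‖ → ∃ β ∈ Γ, nz (γ - β) ≤ 1 / w) := by
    intro c
    by_cases h : c * w + w ≤ X
    · obtain ⟨Γ, h1, h2⟩ := net f (c * w) w hw1 (w / (16 * L ^ A)) (w * L ^ 4) (by positivity) (hf _ _ hww0 h)
      refine ⟨Γ, h1.trans (le_of_eq ?_), fun _ => h2⟩
      have hw' : (w : ℝ) ≠ 0 := by linarith only [hw0', hq, hwge]
      rw [div_pow, div_div_eq_mul_div, div_eq_iff (by positivity)]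
      ring
    · exact ⟨∅, by simp; positivity, fun h' => absurd h' h⟩
  choose Γ hΓ1 hΓ2 using hnet
  let S : ℕ → Finset ℕ := fun g => (range ((g + 1) * H)).filter
    (fun c => g * H ≤ c * w * P ∧ c * w * P < (g + 1) * H)
  let B : ℕ → Finset ℝ := fun g => (S g).biUnion Γ
  have hM : (0 : ℝ) < w * P := by positivity
  have hScard : ∀ g, ((S g).card : ℝ) ≤ 3 * L ^ (A + 5) := by
    intro g
    have hsub : S g ⊆ Ico ⌈(g : ℝ) * H / (w * P)⌉₊ ⌈((g : ℝ) + 1) * H / (w * P)⌉₊ := by
      intro c hc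
      simp only [S, Finset.mem_filter] at hc
      obtain ⟨_, h1, h2⟩ := hc
      rw [Finset.mem_Ico, Nat.ceil_le, Nat.lt_ceil]
      have h1' : (g : ℝ) * H ≤ c * w * P := by exact_mod_cast h1
      have h2' : (c : ℝ) * w * P < (g + 1) * H := by exact_mod_cast h2
      constructor
      · rw [div_le_iff₀ hM]
        linarith only [h1']
      · rw [lt_div_iff₀ hM]
        linarith only [h2']
    have h3 := Finset.card_le_card hsub
    rw [Nat.card_Ico] at h3
    have h4 : ⌈(g : ℝ) * H / (w * P)⌉₊ ≤ ⌈((g : ℝ) + 1) * H / (w * P)⌉₊ := by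
      apply Nat.ceil_mono
      apply div_le_div_of_nonneg_right _ hM.le
      nlinarith only [hH0]
    have h5 : ((S g).card : ℝ) ≤ (⌈((g : ℝ) + 1) * H / (w * P)⌉₊ : ℝ) - ⌈(g : ℝ) * H / (w * P)⌉₊ := by
      rw [← Nat.cast_sub h4]
      exact_mod_cast h3
    have h6 : (⌈((g : ℝ) + 1) * H / (w * P)⌉₊ : ℝ) < ((g : ℝ) + 1) * H / (w * P) + 1 :=
      Nat.ceil_lt_add_one (by positivity)
    have h7 : (g : ℝ) * H / (w * P) ≤ ⌈(g : ℝ) * H / (w * P)⌉₊ := Nat.le_ceil _
    have h8 : ((g : ℝ) + 1) * H / (w * P) = (g : ℝ) * H / (w * P) + H / (w * P) := by ring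
    have h9 : (H : ℝ) / (w * P) ≤ 2 * L ^ (A + 5) := by
      rw [div_le_iff₀ hM]
      have h10 : 2 * L ^ (A + 5) * (((H : ℝ) / (P * L ^ (A + 5)) / 2) * P) = H := by
        field_simp
      rw [← h10]
      apply mul_le_mul_of_nonneg_left _ (by positivity)
      exact mul_le_mul_of_nonneg_right hwge hP0.le
    linarith only [hLA1, h5, h6, h7, h8, h9]
  have hBcard : ∀ g, ((B g).card : ℝ) ≤ 3840 * L ^ (3 * A + 9) := by
    intro g
    have h1 : ((B g).card : ℝ) ≤ ∑ c ∈ S g, ((Γ c).card : ℝ) := by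
      exact_mod_cast Finset.card_biUnion_le
    refine h1.trans ?_
    calc ∑ c ∈ S g, ((Γ c).card : ℝ) ≤ ∑ _c ∈ S g, 1280 * L ^ (2 * A + 4) := Finset.sum_le_sum fun c _ => hΓ1 c
      _ = (S g).card * (1280 * L ^ (2 * A + 4)) := by rw [Finset.sum_const, nsmul_eq_mul]
      _ ≤ (3 * L ^ (A + 5)) * (1280 * L ^ (2 * A + 4)) := mul_le_mul_of_nonneg_right (hScard g) (by positivity)
      _ = 3840 * L ^ (3 * A + 9) := by ring
  -- the pairs
  let Q : ℕ → ℕ → Prop := fun i p => ∃ c : ℕ, i * H ≤ c * w * p ∧ c * w * p < (i + 1) * H ∧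
    (w : ℝ) / (16 * L ^ A) ≤ ‖∑ k ∈ Ico (c * w) (c * w + w), (f k : ℂ) * ee (-(k * (p * α i)))‖
  let T0 : Finset (ℕ × ℕ) := (F0 ×ˢ pb P).filter (fun t => Q t.1 t.2)
  have hipos : ∀ i ∈ F0, (100 : ℝ) ≤ i := by
    intro i hi
    have h1 := (hF i hi).1
    have h2 : 100 ≤ (n : ℝ) / C := by
      rw [le_div_iff₀ hC0]
      exact hn
    linarith only [h1, h2]
  have hT0card : (F0.card : ℝ) * (P / (4 * L ^ (A + 2))) ≤ T0.card := by
    have h1 : (T0.card : ℝ) = ∑ i ∈ F0, (((pb P).filter (fun p => Q i p)).card : ℝ) := by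
      simp only [T0]
      rw [Finset.card_filter, Finset.sum_product, Nat.cast_sum]
      refine Finset.sum_congr rfl fun i _ => ?_
      rw [Finset.card_filter]
    rw [h1, ← nsmul_eq_mul, ← Finset.sum_const]
    refine Finset.sum_le_sum fun i hi => ?_
    have h2 : 4 * (i + 1) * H ≤ X := by
      have h3 := hipos i hi
      have h4 := (hF i hi).2
      have h5 : (4 : ℝ) * (i + 1) * H ≤ X := by
        refine le_trans ?_ hX
        have h6 : 4 * ((i : ℝ) + 1) ≤ 8 * C * n := by linarith only [h3, h4]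
        exact mul_le_mul_of_nonneg_right h6 hH0.le
      exact_mod_cast h5
    have h3 := base_a L A H P w0 X i f (α i) hL hw0 hP hH hf h2 (hbig i hi)
    rw [← hw] at h3
    convert h3
  have key : ∀ t ∈ T0, ∃ (g : ℕ) (b : ℝ), b ∈ B g ∧ |(g : ℝ) * t.2 - t.1 * P| ≤ 3 * C * P ∧
      nz (t.2 * α t.1 - b) ≤ 1 / w ∧ (n : ℝ) / (3 * C) ≤ g ∧ (g : ℝ) ≤ 3 * C * n := by
    rintro ⟨i, p⟩ ht
    simp only [T0, Finset.mem_filter, Finset.mem_product] at ht
    obtain ⟨⟨hi, hp⟩, c, hc1, hc2, hc3⟩ := ht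
    simp only
    have hp' : P < p ∧ p ≤ 2 * P := by
      unfold pb at hp
      rw [Finset.mem_filter, Finset.mem_Ioc] at hp
      exact hp.1
    have hpP : (P : ℝ) < p := by exact_mod_cast hp'.1
    have hp2 : (p : ℝ) ≤ 2 * P := by exact_mod_cast hp'.2
    have hp0 : (0 : ℝ) < p := by linarith only [hP1, hpP]
    obtain ⟨g, hg⟩ : ∃ g, g = c * w * P / H := ⟨_, rfl⟩
    have hg1 : g * H ≤ c * w * P := by
      rw [hg]
      exact Nat.div_mul_le_self _ _
    have hg2 : c * w * P < (g + 1) * H := by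
      rw [hg, mul_comm _ H]
      exact Nat.lt_mul_div_succ _ hH0'
    have hcS : c ∈ S g := by
      simp only [S, Finset.mem_filter, Finset.mem_range]
      refine ⟨lt_of_le_of_lt ?_ hg2, hg1, hg2⟩
      calc c = c * 1 * 1 := by ring
        _ ≤ c * w * P := Nat.mul_le_mul (Nat.mul_le_mul_left _ hw1) hP
    have hi1 := hipos i hi
    have hi2 := (hF i hi).1
    have hi3 := (hF i hi).2
    have hc1' : (i : ℝ) * H ≤ c * w * p := by exact_mod_cast hc1
    have hc2' : (c : ℝ) * w * p < (i + 1) * H := by exact_mod_cast hc2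
    have hg1' : (g : ℝ) * H ≤ c * w * P := by exact_mod_cast hg1
    have hg2' : (c : ℝ) * w * P < (g + 1) * H := by exact_mod_cast hg2
    have hcX : c * w + w ≤ X := by
      have h1 : (c : ℝ) * w ≤ c * w * p := by
        have : (0 : ℝ) ≤ (c : ℝ) * w := by positivity
        nlinarith only [hP1, this, hpP]
      have h2 : (c : ℝ) * w + w ≤ X := by
        have h3 : ((i : ℝ) + 2) * H ≤ 8 * C * n * H := by
          apply mul_le_mul_of_nonneg_right _ hH0.le
          linarith only [hi1, hi3]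
        linarith only [hX, hwH, hc2', h1, h3]
      exact_mod_cast h2
    obtain ⟨b, hb1, hb2⟩ := hΓ2 c hcX _ hc3
    have k1 : (g : ℝ) * p < (i + 1) * P := by
      have h1 : (g : ℝ) * p * H < (i + 1) * P * H := by
        calc (g : ℝ) * p * H = (g * H) * p := by ring
          _ ≤ (c * w * P) * p := mul_le_mul_of_nonneg_right hg1' hp0.le
          _ = (c * w * p) * P := by ring
          _ < ((i + 1) * H) * P := mul_lt_mul_of_pos_right hc2' hP0
          _ = (i + 1) * P * H := by ring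
      exact lt_of_mul_lt_mul_right h1 hH0.le
    have k2 : (i : ℝ) * P < (g + 1) * p := by
      have h1 : (i : ℝ) * P * H < (g + 1) * p * H := by
        calc (i : ℝ) * P * H = (i * H) * P := by ring
          _ ≤ (c * w * p) * P := mul_le_mul_of_nonneg_right hc1' hP0.le
          _ = (c * w * P) * p := by ring
          _ < ((g + 1) * H) * p := mul_lt_mul_of_pos_right hg2' hp0
          _ = (g + 1) * p * H := by ring
      exact lt_of_mul_lt_mul_right h1 hH0.le
    refine ⟨g, b, Finset.mem_biUnion.2 ⟨c, hcS, hb1⟩, ?_, hb2, ?_, ?_⟩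
    · rw [abs_le]
      have h3C : 3 * (P : ℝ) ≤ 3 * C * P := by nlinarith only [hC]
      constructor
      · linarith only [hP1, hp2, k2, h3C]
      · linarith only [hP1, k1, h3C]
    · have h1 : (i : ℝ) < 2 * (g + 1) := by
        have h2 : (i : ℝ) * P < 2 * (g + 1) * P := by
          have h3 : ((g : ℝ) + 1) * p ≤ (g + 1) * (2 * P) := mul_le_mul_of_nonneg_left hp2 (by positivity)
          linarith only [k2, h3]
        exact lt_of_mul_lt_mul_right h2 hP0.le
      have h2 : (n : ℝ) / (3 * C) + 1 ≤ (n : ℝ) / C / 2 := by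
        have h3 : 100 ≤ (n : ℝ) / C := by
          rw [le_div_iff₀ hC0]
          exact hn
        have h4 : (n : ℝ) / (3 * C) = n / C / 3 := by
          field_simp
        rw [h4]
        linarith only [h3]
      linarith only [hi2, h1, h2]
    · have h1 : (g : ℝ) < i + 1 := by
        have h2 : (g : ℝ) * P < (i + 1) * P := by
          have h3 : (g : ℝ) * P ≤ g * p := mul_le_mul_of_nonneg_left hpP.le (by positivity)
          linarith only [k1, h3]
        exact lt_of_mul_lt_mul_right h2 hP0.le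
      linarith only [hi1, hi3, h1]
  choose! g b hgb using key
  obtain ⟨β, hβ⟩ := Base_pigeon T0 g b B (3840 * L ^ (3 * A + 9)) (by positivity) (fun t ht => (hgb t ht).1) hBcard
  have hmem : ∀ s ∈ (T0.filter (fun t => b t = β (g t))).image (fun t => (t.1, t.2, g t)),
      ∃ t ∈ T0, b t = β (g t) ∧ s = (t.1, t.2, g t) := by
    intro s hs
    rw [Finset.mem_image] at hs
    obtain ⟨t, ht, rfl⟩ := hs
    rw [Finset.mem_filter] at ht
    exact ⟨t, ht.1, ht.2, rfl⟩
  have hT0mem : ∀ t ∈ T0, t.1 ∈ F0 ∧ t.2 ∈ pb P := by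
    intro t ht
    simp only [T0, Finset.mem_filter, Finset.mem_product] at ht
    exact ht.1
  refine ⟨T0.image g, β, (T0.filter (fun t => b t = β (g t))).image (fun t => (t.1, t.2, g t)), ?_, ?_⟩
  · constructor
    · intro s hs
      obtain ⟨t, ht, _, rfl⟩ := hmem s hs
      exact (hT0mem t ht).1
    · intro s hs
      obtain ⟨t, ht, _, rfl⟩ := hmem s hs
      exact Finset.mem_image_of_mem g ht
    · intro s hs
      obtain ⟨t, ht, _, rfl⟩ := hmem s hs
      have h1 := (hT0mem t ht).2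
      unfold pb at h1
      rw [Finset.mem_filter, Finset.mem_Ioc] at h1
      exact ⟨h1.2, h1.1⟩
    · intro s hs
      obtain ⟨t, ht, _, rfl⟩ := hmem s hs
      exact (hgb t ht).2.1
    · intro s hs
      obtain ⟨t, ht, hbt, rfl⟩ := hmem s hs
      have h1 := (hgb t ht).2.2.1
      rw [hbt] at h1
      exact h1.trans hwinv
    · intro K hK
      obtain ⟨h1, h2⟩ := hF K hK
      constructor
      · refine le_trans ?_ h1
        apply div_le_div_of_nonneg_left hn0.le hC0
        linarith only [hC]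
      · nlinarith only [h2]
    · intro K hK
      rw [Finset.mem_image] at hK
      obtain ⟨t, ht, rfl⟩ := hK
      exact (hgb t ht).2.2.2
  · rw [Finset.card_image_of_injective]
    · refine le_trans ?_ hβ
      have h1 : (n : ℝ) / L ^ A * (P / (4 * L ^ (A + 2))) ≤ T0.card :=
        le_trans (mul_le_mul_of_nonneg_right hcard (by positivity)) hT0card
      refine le_trans ?_ (div_le_div_of_nonneg_right h1 (by positivity))
      have h2 : (n : ℝ) / L ^ A * (P / (4 * L ^ (A + 2))) / (3840 * L ^ (3 * A + 9)) =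
          n * P / (15360 * L ^ (5 * A + 11)) := by
        rw [div_mul_div_comm, div_div]
        congr 1
        ring
      rw [h2]
      apply div_le_div_of_nonneg_left (by positivity) (by positivity)
      have h3 : (15360 : ℝ) ≤ L ^ 3 := by
        calc (15360 : ℝ) ≤ 100 ^ 3 := by norm_num
          _ ≤ L ^ 3 := pow_le_pow_left₀ (by norm_num) hL 3
      calc (15360 : ℝ) * L ^ (5 * A + 11) ≤ L ^ 3 * L ^ (5 * A + 11) :=
            mul_le_mul_of_nonneg_right h3 (by positivity)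
        _ = L ^ (5 * A + 14) := by ring
    · rintro ⟨a1, a2⟩ ⟨b1, b2⟩ hab
      simp only [Prod.mk.injEq] at hab
      exact Prod.ext hab.1 hab.2.1

end Pool.Agent.H53.MID

end
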