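import Pool.Agent.H43.PL.H53.MID.Nz
import Pool.Agent.H43.PL.M01
import Pool.Agent.H43.PL.M02

/-! The parts of this file: H97.VK.Fou, H97.VK.Sft, H97.VK.Bil, H97.VK.GGB, H53.MIX.Defs, H53.MIX.VkPrW, H53.TPS.DefsF, H53.MID.Fac, H35.W.MeanV, H53.MID.Mvt. -/

section

/-!
# VK Fou: counting with exponential sums on a finite grid

Proofs.  `fs_orth`: the sum is the product over `j` of the geometric sums `∑_{a < Q} ee(a v_j / Q)` (`Finset.prod_univ_sum`), each is `Q` if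
`Q ∣ v_j`, else `0`.
`fs_count`: expand the right side, `fs_orth` for `v = φ x - ψ y - h`; by `hb` divisibility of `v_j` by `Q` means `v_j = 0`.
`fs_pow`: `FS` of the power set with `∑ pv` is the product (`Finset.prod_univ_sum` / `Fintype.piFinset`), `pv` of `u : Fin s → ℕ` is the sum of the
values of the single coordinates.
`shift_le`: Cauchy's inequality (either with `fs_count`, `Q` large, or directly: with `r(v) = #{x ∈ X : φ x = v}` the left side is `∑ r(v) r(v - h)`).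
`sc_class`: `SC` is `(1/Q^k) ∑_α |FS W φ|^2 |f|^{2s}`, `f = FS A`, `f = ∑_{b < p} f_b`; Hölder (`inner_le_nnorm_mul_nnorm` or
`Real.pow_arith_mean_le_arith_mean_pow`, Mathlib `inner_mul_le_norm_mul_norm`, `Finset.sum_pow_le ...`): `|∑_b f_b|^{2s} ≤ p^{2s-1} ∑_b |f_b|^{2s}`.
(`W` and `A` are finite, so some `Q` satisfies the bounds needed in `fs_count`.)
`jv_mono`, `jv_two`: `JV k (s + r) M ≤ M^{2r} JV k s M` (`|f| ≤ M`, or fix the last `r` coordinates of both tuples and use `shift_le`).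
-/

set_option autoImplicit false

namespace Pool.Agent.H97.VK

open Finset
open Pool.Agent.H91.PK (ee)

private theorem ee_add' (s t : ℝ) : ee (s + t) = ee s * ee t :=
  Pool.Agent.H91.PK.LSa_ee_add s t

private theorem ee_zero' : ee 0 = 1 := by
  simp [ee]

private theorem ee_sum' {ι : Type*} (s : Finset ι) (f : ι → ℝ) :
    ee (∑ i ∈ s, f i) = ∏ i ∈ s, ee (f i) := by
  classical
  induction s using Finset.induction_on with
  | empty => simp [ee_zero']
  | insert a s ha ih => rw [sum_insert ha, prod_insert ha, ee_add', ih]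

private theorem ee_nsmul' (n : ℕ) (t : ℝ) : ee ((n : ℝ) * t) = ee t ^ n := by
  induction n with
  | zero => simp [ee_zero']
  | succ n ih => rw [pow_succ, ← ih, ← ee_add']; congr 1; push_cast; ring

private theorem ee_eq_one_iff' (t : ℝ) : ee t = 1 ↔ ∃ n : ℤ, t = n := by
  unfold ee
  rw [Complex.exp_eq_one_iff]
  constructor
  · rintro ⟨n, hn⟩
    refine ⟨n, ?_⟩
    have h2 : (2 * (Real.pi : ℂ) * Complex.I) ≠ 0 := by
      simp [Real.pi_ne_zero, Complex.I_ne_zero]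
    have h3 : (t : ℂ) * (2 * (Real.pi : ℂ) * Complex.I) = n * (2 * (Real.pi : ℂ) * Complex.I) := by
      rw [← hn]; ring
    have h4 := mul_right_cancel₀ h2 h3
    exact_mod_cast h4
  · rintro ⟨n, rfl⟩
    exact ⟨n, by push_cast; ring⟩

private theorem geom' (Q : ℕ) (hQ : 1 ≤ Q) (v : ℤ) :
    ∑ a ∈ range Q, ee ((a : ℝ) * (v : ℝ) / Q) = if (Q : ℤ) ∣ v then (Q : ℂ) else 0 := by
  have hQ0 : (Q : ℝ) ≠ 0 := by positivity
  have h1 : ∀ a : ℕ, ee ((a : ℝ) * (v : ℝ) / Q) = ee ((v : ℝ) / Q) ^ a := by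
    intro a
    rw [← ee_nsmul']
    congr 1
    ring
  simp_rw [h1]
  by_cases hd : (Q : ℤ) ∣ v
  · rw [if_pos hd]
    obtain ⟨m, rfl⟩ := hd
    have : ee ((((Q : ℤ) * m : ℤ) : ℝ) / Q) = 1 := by
      rw [ee_eq_one_iff']
      refine ⟨m, ?_⟩
      push_cast
      field_simp
    rw [this]
    simp
  · rw [if_neg hd]
    have hne : ee ((v : ℝ) / Q) ≠ 1 := by
      rw [Ne, ee_eq_one_iff']
      rintro ⟨n, hn⟩
      apply hd
      refine ⟨n, ?_⟩
      rw [div_eq_iff hQ0] at hn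
      have : (v : ℝ) = ((Q * n : ℤ) : ℝ) := by rw [hn]; push_cast; ring
      exact_mod_cast this
    have h3 := geom_sum_mul (ee ((v : ℝ) / Q)) Q
    have h4 : ee ((v : ℝ) / Q) ^ Q = 1 := by
      rw [← ee_nsmul', ee_eq_one_iff']
      exact ⟨v, by field_simp⟩
    rw [h4, sub_self] at h3
    rcases mul_eq_zero.1 h3 with h | h
    · exact h
    · exact absurd (sub_eq_zero.1 h) hne

theorem fs_orth (k Q : ℕ) (hQ : 1 ≤ Q) (v : Fin k → ℤ) :
    ∑ α ∈ grid k Q, ee ((∑ j, (α j : ℝ) * (v j : ℝ)) / Q) = if ∀ j, (Q : ℤ) ∣ v j then ((Q : ℂ) ^ k) else 0 := by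
  have h1 : ∀ α : Fin k → ℕ, ee ((∑ j, (α j : ℝ) * (v j : ℝ)) / Q) =
      ∏ j, ee ((α j : ℝ) * (v j : ℝ) / Q) := by
    intro α
    rw [sum_div, ee_sum']
  simp_rw [h1]
  unfold grid
  rw [← Finset.prod_univ_sum (fun _ => range Q) (fun (j : Fin k) (a : ℕ) => ee ((a : ℝ) * (v j : ℝ) / Q))]
  simp_rw [geom' Q hQ]
  by_cases hd : ∀ j, (Q : ℤ) ∣ v j
  · rw [if_pos hd]
    rw [prod_congr rfl (fun j _ => if_pos (hd j))]
    simp
  · rw [if_neg hd]
    push Not at hd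
    obtain ⟨j, hj⟩ := hd
    exact prod_eq_zero (mem_univ j) (if_neg hj)

theorem fs_count {ι κ : Type} {k : ℕ} (X : Finset ι) (Y : Finset κ) (φ : ι → Fin k → ℤ)
    (ψ : κ → Fin k → ℤ) (h : Fin k → ℤ) (Q : ℕ) (hQ : 1 ≤ Q)
    (hb : ∀ x ∈ X, ∀ y ∈ Y, ∀ j, |φ x j - ψ y j - h j| < Q) :
    ((((X ×ˢ Y).filter (fun w => ∀ j, φ w.1 j = ψ w.2 j + h j)).card : ℕ) : ℂ) =
      (1 / (Q : ℂ) ^ k) * ∑ α ∈ grid k Q, FS X φ Q α * (starRingEnd ℂ) (FS Y ψ Q α) *
        ee (-(∑ j, (α j : ℝ) * (h j : ℝ)) / Q) := by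
  have hQ0 : (Q : ℂ) ^ k ≠ 0 := by
    apply pow_ne_zero
    have : (Q : ℂ) ≠ 0 := by exact_mod_cast (by omega : Q ≠ 0)
    exact this
  have key : ∀ α : Fin k → ℕ, FS X φ Q α * (starRingEnd ℂ) (FS Y ψ Q α) *
        ee (-(∑ j, (α j : ℝ) * (h j : ℝ)) / Q) =
      ∑ w ∈ X ×ˢ Y, ee ((∑ j, (α j : ℝ) * (((φ w.1 j - ψ w.2 j - h j : ℤ)) : ℝ)) / Q) := by
    intro α
    unfold FS
    rw [map_sum, sum_mul_sum, ← sum_product', sum_mul]
    apply sum_congr rfl
    intro w _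
    rw [Pool.Agent.H91.PK.LSa_conj_ee, ← ee_add', ← ee_add']
    congr 1
    rw [← neg_div, ← add_div, ← add_div]
    congr 1
    rw [← sum_neg_distrib, ← sum_neg_distrib, ← sum_add_distrib, ← sum_add_distrib]
    apply sum_congr rfl
    intro j _
    push_cast
    ring
  simp_rw [key]
  rw [sum_comm]
  simp_rw [fs_orth k Q hQ]
  rw [card_filter]
  push_cast
  rw [mul_sum]
  apply sum_congr rfl
  intro w hw
  rw [mem_product] at hw
  have hiff : (∀ j, (Q : ℤ) ∣ φ w.1 j - ψ w.2 j - h j) ↔ (∀ j, φ w.1 j = ψ w.2 j + h j) := by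
    constructor
    · intro hd j
      have h1 := Int.eq_zero_of_abs_lt_dvd (hd j) (hb w.1 hw.1 w.2 hw.2 j)
      omega
    · intro he j
      have : φ w.1 j - ψ w.2 j - h j = 0 := by rw [he j]; ring
      rw [this]
      exact dvd_zero _
  by_cases hc : ∀ j, φ w.1 j = ψ w.2 j + h j
  · rw [if_pos hc, if_pos (hiff.2 hc)]
    field_simp
  · rw [if_neg hc, if_neg (fun h => hc (hiff.1 h))]
    simp

theorem fs_pow (k s Q : ℕ) (A : Finset ℕ) (α : Fin k → ℕ) :
    FS (Fintype.piFinset (fun _ : Fin s => A)) (pv k) Q α =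
      (∑ n ∈ A, ee ((∑ j : Fin k, (α j : ℝ) * (n : ℝ) ^ ((j : ℕ) + 1)) / Q)) ^ s := by
  unfold FS
  have h1 : ∀ x : Fin s → ℕ, ee ((∑ j, (α j : ℝ) * ((pv k x j : ℤ) : ℝ)) / Q) =
      ∏ i, ee ((∑ j : Fin k, (α j : ℝ) * (x i : ℝ) ^ ((j : ℕ) + 1)) / Q) := by
    intro x
    rw [← ee_sum']
    congr 1
    rw [← sum_div]
    congr 1
    rw [sum_comm]
    apply sum_congr rfl
    intro j _
    rw [← mul_sum]
    congr 1
    unfold pv
    push_cast
    rfl
  simp_rw [h1]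
  rw [← Finset.prod_univ_sum (fun _ : Fin s => A) (fun (_ : Fin s) (n : ℕ) =>
    ee ((∑ j : Fin k, (α j : ℝ) * (n : ℝ) ^ ((j : ℕ) + 1)) / Q))]
  simp

theorem shift_le {ι : Type} {k : ℕ} (X : Finset ι) (φ : ι → Fin k → ℤ) (h : Fin k → ℤ) :
    ((X ×ˢ X).filter (fun w => ∀ j, φ w.1 j = φ w.2 j + h j)).card ≤
      ((X ×ˢ X).filter (fun w => ∀ j, φ w.1 j = φ w.2 j)).card := by
  classical
  -- r(v) = # {x ∈ X : φ x = v}
  set r : (Fin k → ℤ) → ℕ := fun v => (X.filter (fun x => φ x = v)).card with hr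
  set V : Finset (Fin k → ℤ) := X.image φ ∪ X.image (fun x => φ x + h) with hV
  have hsum : ∀ g : Fin k → ℤ, (∀ x ∈ X, φ x + g ∈ V) →
      ((X ×ˢ X).filter (fun w => ∀ j, φ w.1 j = φ w.2 j + g j)).card =
        ∑ v ∈ V, r v * r (v - g) := by
    intro g hg
    rw [card_eq_sum_card_fiberwise (f := fun w => φ w.2 + g) (t := V)]
    · apply sum_congr rfl
      intro v _
      rw [hr]
      simp only
      rw [← card_product]
      congr 1
      ext w
      simp only [mem_filter, mem_product]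
      constructor
      · rintro ⟨⟨⟨h1, h2⟩, h3⟩, h4⟩
        refine ⟨⟨h1, ?_⟩, h2, ?_⟩
        · rw [← h4]; funext j; exact h3 j
        · rw [← h4]; simp
      · rintro ⟨⟨h1, h2⟩, h3, h4⟩
        refine ⟨⟨⟨h1, h3⟩, ?_⟩, ?_⟩
        · intro j
          rw [h2, h4]; simp
        · rw [h4]; simp
    · intro w hw
      rw [mem_coe, mem_filter, mem_product] at hw
      exact hg _ hw.1.2
  have e1 := hsum h (fun x hx => by
    rw [hV, mem_union]; right; exact mem_image.2 ⟨x, hx, rfl⟩)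
  have e0 := hsum 0 (fun x hx => by
    rw [hV, mem_union, add_zero]; left; exact mem_image.2 ⟨x, hx, rfl⟩)
  have e0' : ((X ×ˢ X).filter (fun w => ∀ j, φ w.1 j = φ w.2 j)).card =
        ∑ v ∈ V, r v * r v := by
    simpa using e0
  rw [e1, e0']
  have hshift : ∑ v ∈ V, r (v - h) ^ 2 ≤ ∑ v ∈ V, r v ^ 2 := by
    -- support of r is image φ
    have hs : ∀ v, r v ≠ 0 → v ∈ X.image φ := by
      intro v hv
      rw [hr] at hv
      simp only at hv
      obtain ⟨x, hx⟩ := card_pos.1 (Nat.pos_of_ne_zero hv)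
      rw [mem_filter] at hx
      exact mem_image.2 ⟨x, hx.1, hx.2⟩
    calc ∑ v ∈ V, r (v - h) ^ 2 = ∑ v ∈ V.filter (fun v => r (v - h) ≠ 0), r (v - h) ^ 2 := by
          rw [sum_filter_of_ne]
          intro v _ hv hv'
          apply hv
          rw [hv']; simp
      _ = ∑ u ∈ (V.filter (fun v => r (v - h) ≠ 0)).image (fun v => v - h), r u ^ 2 := by
          rw [sum_image]
          intro a _ b _ hab
          simpa using hab
      _ ≤ ∑ v ∈ V, r v ^ 2 := by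
          apply sum_le_sum_of_subset
          intro u hu
          rw [mem_image] at hu
          obtain ⟨v, hv, rfl⟩ := hu
          rw [mem_filter] at hv
          rw [hV, mem_union]
          left
          exact hs _ hv.2
  have hcs : 2 * ∑ v ∈ V, r v * r (v - h) ≤ ∑ v ∈ V, r v ^ 2 + ∑ v ∈ V, r (v - h) ^ 2 := by
    rw [mul_sum, ← sum_add_distrib]
    apply sum_le_sum
    intro v _
    nlinarith [sq_nonneg ((r v : ℤ) - r (v - h)), two_mul_le_add_sq (r v) (r (v - h))]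
  have hsq : ∑ v ∈ V, r v * r v = ∑ v ∈ V, r v ^ 2 := by
    apply sum_congr rfl
    intro v _
    ring
  omega

/-- combined counting set -/
private theorem sc_fs {ι : Type} {k : ℕ} (s : ℕ) (W : Finset ι) (φ : ι → Fin k → ℤ) (A : Finset ℕ)
    (Q : ℕ) (hQ : 1 ≤ Q)
    (hb : ∀ x ∈ W ×ˢ (Fintype.piFinset (fun _ : Fin s => A)),
      ∀ y ∈ W ×ˢ (Fintype.piFinset (fun _ : Fin s => A)),
      ∀ j, |(φ x.1 j + pv k x.2 j) - (φ y.1 j + pv k y.2 j)| < (Q : ℤ)) :
    ((SC s W φ A : ℕ) : ℝ) =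
      (1 / (Q : ℝ) ^ k) * ∑ α ∈ grid k Q, ‖FS W φ Q α‖ ^ 2 *
        ‖∑ n ∈ A, ee ((∑ j : Fin k, (α j : ℝ) * (n : ℝ) ^ ((j : ℕ) + 1)) / Q)‖ ^ (2 * s) := by
  have h1 := fs_count (W ×ˢ (Fintype.piFinset (fun _ : Fin s => A)))
    (W ×ˢ (Fintype.piFinset (fun _ : Fin s => A)))
    (fun x j => φ x.1 j + pv k x.2 j) (fun x j => φ x.1 j + pv k x.2 j) 0 Q hQ
    (by
      intro x hx y hy j
      have := hb x hx y hy j
      simpa using this)
  have hcard : (((W ×ˢ (Fintype.piFinset (fun _ : Fin s => A))) ×ˢ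
      (W ×ˢ (Fintype.piFinset (fun _ : Fin s => A)))).filter
        (fun w => ∀ j, φ w.1.1 j + pv k w.1.2 j = φ w.2.1 j + pv k w.2.2 j + (0 : Fin k → ℤ) j)).card
      = SC s W φ A := by
    unfold SC
    apply card_bij (fun z _ => ((z.1.1, z.2.1), (z.1.2, z.2.2)))
    · intro z hz
      simp only [mem_filter, mem_product, Pi.zero_apply, add_zero] at hz ⊢
      tauto
    · intro z _ z' _ he
      simp only [Prod.mk.injEq] at he
      obtain ⟨⟨h1, h2⟩, h3, h4⟩ := he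
      exact Prod.ext (Prod.ext h1 h3) (Prod.ext h2 h4)
    · intro z hz
      refine ⟨((z.1.1, z.2.1), (z.1.2, z.2.2)), ?_, rfl⟩
      simp only [mem_filter, mem_product, Pi.zero_apply, add_zero] at hz ⊢
      tauto
  rw [hcard] at h1
  have hFS : ∀ α : Fin k → ℕ, FS (W ×ˢ (Fintype.piFinset (fun _ : Fin s => A)))
      (fun x j => φ x.1 j + pv k x.2 j) Q α = FS W φ Q α *
        (∑ n ∈ A, ee ((∑ j : Fin k, (α j : ℝ) * (n : ℝ) ^ ((j : ℕ) + 1)) / Q)) ^ s := by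
    intro α
    rw [← fs_pow]
    unfold FS
    rw [sum_mul_sum, ← sum_product']
    apply sum_congr rfl
    intro x _
    rw [← ee_add', ← add_div, ← sum_add_distrib]
    congr 2
    apply sum_congr rfl
    intro j _
    push_cast
    ring
  have h2 : ((SC s W φ A : ℕ) : ℂ) = (((1 / (Q : ℝ) ^ k) * ∑ α ∈ grid k Q, ‖FS W φ Q α‖ ^ 2 *
        ‖∑ n ∈ A, ee ((∑ j : Fin k, (α j : ℝ) * (n : ℝ) ^ ((j : ℕ) + 1)) / Q)‖ ^ (2 * s) : ℝ) : ℂ) := by
    rw [h1]
    push_cast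
    congr 1
    apply sum_congr rfl
    intro α _
    have : ee (-(∑ j, (α j : ℝ) * (((0 : Fin k → ℤ) j : ℤ) : ℝ)) / Q) = 1 := by
      simp [ee_zero']
    rw [this, mul_one, Complex.mul_conj', hFS, norm_mul, norm_pow]
    push_cast
    ring
  exact_mod_cast h2

private theorem hoelder' (p s : ℕ) (hs : 1 ≤ s) (g : ℕ → ℂ) :
    ‖∑ b ∈ range p, g b‖ ^ (2 * s) ≤ (p : ℝ) ^ (2 * s - 1) * ∑ b ∈ range p, ‖g b‖ ^ (2 * s) := by
  obtain ⟨m, hm⟩ : ∃ m, 2 * s = m + 1 := ⟨2 * s - 1, by omega⟩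
  rw [hm, Nat.add_sub_cancel]
  have h1 : ‖∑ b ∈ range p, g b‖ ^ (m + 1) ≤ (∑ b ∈ range p, ‖g b‖) ^ (m + 1) :=
    pow_le_pow_left₀ (norm_nonneg _) (norm_sum_le _ _) _
  refine h1.trans ?_
  rcases Nat.eq_zero_or_pos p with rfl | hp
  · simp
  have h3 := pow_sum_div_card_le_sum_pow (s := range p) (f := fun b => ‖g b‖)
    (hf := fun b _ => norm_nonneg _) m
  rw [card_range, div_le_iff₀ (by positivity)] at h3
  linarith

private theorem bound' {κ : Type} {k : ℕ} (X : Finset κ) (f : κ → Fin k → ℤ) :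
    ∃ B : ℤ, 0 ≤ B ∧ ∀ x ∈ X, ∀ j, |f x j| ≤ B := by
  classical
  induction X using Finset.induction_on with
  | empty => exact ⟨0, le_refl _, by simp⟩
  | insert a X ha ih =>
    obtain ⟨B, hB, h⟩ := ih
    have h0 : 0 ≤ ∑ j, |f a j| := sum_nonneg fun j _ => abs_nonneg _
    refine ⟨B + ∑ j, |f a j|, add_nonneg hB h0, ?_⟩
    intro x hx j
    rcases mem_insert.1 hx with rfl | hx
    · have h1 : |f x j| ≤ ∑ j, |f x j| :=
        single_le_sum (f := fun j => |f x j|) (fun j _ => abs_nonneg _) (mem_univ j)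
      linarith
    · have := h x hx j
      linarith

theorem sc_class {ι : Type} {k : ℕ} (s p : ℕ) (hs : 1 ≤ s) (hp : 1 ≤ p) (W : Finset ι)
    (φ : ι → Fin k → ℤ) (A : Finset ℕ) :
    SC s W φ A ≤ p ^ (2 * s - 1) * ∑ b ∈ range p, SC s W φ (A.filter (fun n => n % p = b)) := by
  classical
  -- choose Q
  set X := W ×ˢ (Fintype.piFinset (fun _ : Fin s => A)) with hX
  obtain ⟨B, hB0, hxB⟩ := bound' X (fun x j => φ x.1 j + pv k x.2 j)
  obtain ⟨Q, hQB⟩ : ∃ Q : ℕ, (Q : ℤ) = 2 * B + 1 :=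
    ⟨(2 * B + 1).toNat, Int.toNat_of_nonneg (by linarith)⟩
  have hQ1 : 1 ≤ Q := by
    have : (1 : ℤ) ≤ Q := by linarith
    exact_mod_cast this
  have hb : ∀ x ∈ X, ∀ y ∈ X,
      ∀ j, |(φ x.1 j + pv k x.2 j) - (φ y.1 j + pv k y.2 j)| < (Q : ℤ) := by
    intro x hx y hy j
    have h1 := hxB x hx j
    have h2 := hxB y hy j
    calc |(φ x.1 j + pv k x.2 j) - (φ y.1 j + pv k y.2 j)| ≤
          |φ x.1 j + pv k x.2 j| + |φ y.1 j + pv k y.2 j| := abs_sub _ _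
      _ < Q := by rw [hQB]; linarith
  have hsub : ∀ b, ∀ x ∈ W ×ˢ (Fintype.piFinset (fun _ : Fin s => A.filter (fun n => n % p = b))),
      x ∈ X := by
    intro b x hx
    rw [mem_product, Fintype.mem_piFinset] at hx
    rw [hX, mem_product, Fintype.mem_piFinset]
    exact ⟨hx.1, fun i => (mem_filter.1 (hx.2 i)).1⟩
  have e1 := sc_fs s W φ A Q hQ1 hb
  have e2 : ∀ b, ((SC s W φ (A.filter (fun n => n % p = b)) : ℕ) : ℝ) =
      (1 / (Q : ℝ) ^ k) * ∑ α ∈ grid k Q, ‖FS W φ Q α‖ ^ 2 *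
        ‖∑ n ∈ A.filter (fun n => n % p = b),
          ee ((∑ j : Fin k, (α j : ℝ) * (n : ℝ) ^ ((j : ℕ) + 1)) / Q)‖ ^ (2 * s) := by
    intro b
    exact sc_fs s W φ _ Q hQ1 (fun x hx y hy j => hb x (hsub b x hx) y (hsub b y hy) j)
  have main : ((SC s W φ A : ℕ) : ℝ) ≤ (p : ℝ) ^ (2 * s - 1) *
      ∑ b ∈ range p, ((SC s W φ (A.filter (fun n => n % p = b)) : ℕ) : ℝ) := by
    rw [e1]
    simp_rw [e2]
    rw [← mul_sum, sum_comm, mul_left_comm]
    apply mul_le_mul_of_nonneg_left _ (by positivity)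
    rw [mul_sum]
    apply sum_le_sum
    intro α _
    rw [← mul_sum, mul_left_comm]
    apply mul_le_mul_of_nonneg_left _ (by positivity)
    have h5 : ∑ n ∈ A, ee ((∑ j : Fin k, (α j : ℝ) * (n : ℝ) ^ ((j : ℕ) + 1)) / Q) =
        ∑ b ∈ range p, ∑ n ∈ A.filter (fun n => n % p = b),
          ee ((∑ j : Fin k, (α j : ℝ) * (n : ℝ) ^ ((j : ℕ) + 1)) / Q) := by
      rw [sum_fiberwise_of_maps_to]
      intro n _
      rw [mem_range]
      exact Nat.mod_lt _ hp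
    rw [h5]
    exact hoelder' p s hs _
  exact_mod_cast main

theorem jv_mono (k s M M' : ℕ) (h : M ≤ M') : JV k s M ≤ JV k s M' := by
  unfold JV
  apply card_le_card
  apply filter_subset_filter
  have : box s M ⊆ box s M' := by
    unfold box
    intro x hx
    rw [Fintype.mem_piFinset] at hx ⊢
    intro i
    have := mem_Icc.1 (hx i)
    exact mem_Icc.2 ⟨this.1, this.2.trans h⟩
  exact product_subset_product this this

theorem jv_add (k s r M : ℕ) : JV k (s + r) M ≤ M ^ (2 * r) * JV k s M := by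
  classical
  have hpv : ∀ (x : Fin (s + r) → ℕ) (j : Fin k), pv k x j =
      pv k (fun i : Fin s => x (Fin.castAdd r i)) j + pv k (fun i : Fin r => x (Fin.natAdd s i)) j := by
    intro x j
    unfold pv
    rw [Fin.sum_univ_add]
  -- map a pair to the pair of the last coordinates
  unfold JV
  have hmaps : ∀ w ∈ ((box (s + r) M) ×ˢ (box (s + r) M)).filter (fun w => pv k w.1 = pv k w.2),
      ((fun i : Fin r => w.1 (Fin.natAdd s i)), (fun i : Fin r => w.2 (Fin.natAdd s i))) ∈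
        (box r M) ×ˢ (box r M) := by
    intro w hw
    rw [mem_filter, mem_product] at hw
    unfold box at hw ⊢
    rw [Fintype.mem_piFinset, Fintype.mem_piFinset] at hw
    rw [mem_product, Fintype.mem_piFinset, Fintype.mem_piFinset]
    exact ⟨fun i => hw.1.1 _, fun i => hw.1.2 _⟩
  rw [card_eq_sum_card_fiberwise (f := fun w : (Fin (s + r) → ℕ) × (Fin (s + r) → ℕ) =>
    ((fun i : Fin r => w.1 (Fin.natAdd s i)), (fun i : Fin r => w.2 (Fin.natAdd s i))))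
    (t := (box r M) ×ˢ (box r M)) (by intro w hw; exact hmaps w hw)]
  have hfib : ∀ y ∈ (box r M) ×ˢ (box r M),
      ((((box (s + r) M) ×ˢ (box (s + r) M)).filter (fun w => pv k w.1 = pv k w.2)).filter
        (fun w => ((fun i : Fin r => w.1 (Fin.natAdd s i)), (fun i : Fin r => w.2 (Fin.natAdd s i))) = y)).card
        ≤ (((box s M) ×ˢ (box s M)).filter (fun w => pv k w.1 = pv k w.2)).card := by
    intro y _
    calc _ ≤ (((box s M) ×ˢ (box s M)).filter (fun w => ∀ j, pv k w.1 j = pv k w.2 j +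
          (pv k y.2 - pv k y.1) j)).card := by
          apply card_le_card_of_injOn (fun w => ((fun i : Fin s => w.1 (Fin.castAdd r i)),
            (fun i : Fin s => w.2 (Fin.castAdd r i))))
          · intro w hw
            rw [mem_coe, mem_filter, mem_filter, mem_product] at hw
            rw [mem_coe, mem_filter, mem_product]
            obtain ⟨⟨⟨h1, h2⟩, h3⟩, h4⟩ := hw
            unfold box at h1 h2 ⊢
            rw [Fintype.mem_piFinset] at h1 h2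
            refine ⟨⟨Fintype.mem_piFinset.2 fun i => h1 _, Fintype.mem_piFinset.2 fun i => h2 _⟩, ?_⟩
            intro j
            have h5 := congrFun h3 j
            rw [hpv, hpv] at h5
            rw [← h4]
            simp only [Pi.sub_apply]
            linarith
          · intro w hw w' hw' he
            rw [mem_coe, mem_filter, mem_filter] at hw hw'
            have h4 := hw.2.trans hw'.2.symm
            simp only [Prod.mk.injEq] at he h4
            apply Prod.ext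
            · funext i
              refine Fin.addCases (fun i => ?_) (fun i => ?_) i
              · exact congrFun he.1 i
              · exact congrFun h4.1 i
            · funext i
              refine Fin.addCases (fun i => ?_) (fun i => ?_) i
              · exact congrFun he.2 i
              · exact congrFun h4.2 i
      _ ≤ (((box s M) ×ˢ (box s M)).filter (fun w => ∀ j, pv k w.1 j = pv k w.2 j)).card :=
          shift_le _ _ _
      _ = _ := by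
          congr 1
          apply filter_congr
          intro w _
          exact funext_iff.symm
  refine (sum_le_card_nsmul _ _ _ hfib).trans ?_
  rw [smul_eq_mul, card_product]
  have hbc : (box r M).card = M ^ r := by
    unfold box
    rw [Fintype.card_piFinset]
    simp
  rw [hbc]
  apply le_of_eq
  ring

end Pool.Agent.H97.VK

end

section

/-!
# VK Sft: from sums of `(n+β)^{it}` to the bilinear sums

Proof.  For `1 ≤ a', b' ≤ X`: `∑_{n ∈ Ioc a b} ee(t log(n+β)) = ∑_{n ∈ Ioc a b} ee(t log(n+β+a'b')) + O(2 a' b')` (shift of an interval: at most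
`2 a' b' ≤ 2 X^2` terms change).  Sum over `a', b'` and divide by `X^2`.
Taylor: `log(n+β+z) = log(n+β) + ∑_{i=1}^k (-1)^{i-1} (z/(n+β))^i / i + R`, `|R| ≤ (z/(n+β))^{k+1}` for `0 ≤ z ≤ n+β`
(`z = a'b' ≤ X^2 ≤ N`; Mathlib: `Real.abs_log_sub_add_sum_range_le` for `x = -z/(n+β)`, which needs `|x| < 1`: use `X^2 < N`).
`|ee u - ee v| ≤ 2 π |u - v|`.  So
`|∑_n ee(t log(n+β))| ≤ (1/X^2) ∑_n |bil k X (α_n)| + 2 X^2 + 2 π |t| (b-a) · 2 (X^2/N)^{k+1}`, `b - a ≤ N`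
(the factor `2` covers the `1/(1-|x|)` of the Mathlib bound when `2 X^2 ≤ N`).
-/

set_option autoImplicit false

namespace Pool.Agent.H97.VK

open Finset
open Pool.Agent.H91.PK (ee)

/-- the Taylor coefficients of `t log (n + β)` -/
noncomputable def tay (k : ℕ) (t β : ℝ) (n : ℕ) (j : Fin k) : ℝ :=
  (-1) ^ (j : ℕ) * t / (((j : ℕ) + 1) * ((n : ℝ) + β) ^ ((j : ℕ) + 1))

private theorem Sft_lip (u v : ℝ) : ‖ee u - ee v‖ ≤ 2 * Real.pi * |u - v| := by
  have h1 : ee u = ee v * ee (u - v) := by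
    rw [← Pool.Agent.H91.PK.LSa_ee_add]
    congr 1
    ring
  have h2 : ee u - ee v = ee v * (ee (u - v) - 1) := by
    rw [h1]
    ring
  rw [h2, norm_mul, Pool.Agent.H91.PK.LSa_norm_ee, one_mul]
  have h3 : ee (u - v) = Complex.exp (Complex.I * ((2 * Real.pi * (u - v) : ℝ) : ℂ)) := by
    unfold ee
    congr 1
    push_cast
    ring
  rw [h3]
  refine Real.norm_exp_I_mul_ofReal_sub_one_le.trans ?_
  rw [Real.norm_eq_abs, abs_mul, abs_of_nonneg (by positivity : (0 : ℝ) ≤ 2 * Real.pi)]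

private theorem Sft_tel (F : ℕ → ℂ) (a b : ℕ) (h : a ≤ b) :
    ∑ n ∈ Ioc a b, (F (n + 1) - F n) = F (b + 1) - F (a + 1) := by
  induction b, h using Nat.le_induction with
  | base => simp
  | succ b hb ih =>
    rw [Finset.sum_Ioc_succ_top (by omega), ih]
    ring

private theorem Sft_shift (f : ℕ → ℂ) (hf : ∀ n, ‖f n‖ ≤ 1) (a b z : ℕ) :
    ‖∑ n ∈ Ioc a b, f n - ∑ n ∈ Ioc a b, f (n + z)‖ ≤ 2 * z := by
  rcases le_total b a with h | h
  · rw [Ioc_eq_empty (by omega), sum_empty, sum_empty, sub_zero, norm_zero]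
    positivity
  induction z with
  | zero => simp
  | succ z ih =>
    have h1 : ∑ n ∈ Ioc a b, f (n + (z + 1)) - ∑ n ∈ Ioc a b, f (n + z) =
        f (b + 1 + z) - f (a + 1 + z) := by
      rw [← sum_sub_distrib, ← Sft_tel (fun n => f (n + z)) a b h]
      refine sum_congr rfl fun n _ => ?_
      rw [show n + (z + 1) = n + 1 + z by ring]
    have h2 : ∑ n ∈ Ioc a b, f n - ∑ n ∈ Ioc a b, f (n + (z + 1)) =
        (∑ n ∈ Ioc a b, f n - ∑ n ∈ Ioc a b, f (n + z)) -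
          (∑ n ∈ Ioc a b, f (n + (z + 1)) - ∑ n ∈ Ioc a b, f (n + z)) := by ring
    rw [h2, h1]
    calc _ ≤ 2 * (z : ℝ) + (1 + 1) := by
          refine (norm_sub_le _ _).trans (add_le_add ih ?_)
          exact (norm_sub_le _ _).trans (add_le_add (hf _) (hf _))
      _ = 2 * ((z + 1 : ℕ) : ℝ) := by push_cast; ring

private theorem Sft_log (k : ℕ) (y z q : ℝ) (hy : 0 < y) (hz : 0 ≤ z) (hq : z / y ≤ q)
    (hq2 : q ≤ 1 / 2) :
    |(∑ i ∈ range k, (-z / y) ^ (i + 1) / ((i : ℝ) + 1)) + (Real.log (y + z) - Real.log y)| ≤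
      2 * q ^ (k + 1) := by
  have hx0 : 0 ≤ z / y := by positivity
  have habs : |(-z / y)| = z / y := by
    rw [neg_div, abs_neg, abs_of_nonneg hx0]
  have h1 := Real.abs_log_sub_add_sum_range_le (x := -z / y) (by rw [habs]; linarith) k
  have h2 : Real.log (1 - -z / y) = Real.log (y + z) - Real.log y := by
    rw [← Real.log_div (by linarith) hy.ne']
    congr 1
    field_simp
    ring
  rw [h2, habs] at h1
  refine h1.trans ?_
  have h3 : (z / y) ^ (k + 1) ≤ q ^ (k + 1) := pow_le_pow_left₀ hx0 hq _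
  have h4 : 0 ≤ q ^ (k + 1) := (pow_nonneg hx0 _).trans h3
  rw [div_le_iff₀ (by linarith)]
  nlinarith

private theorem Sft_pt (k X N n z : ℕ) (t β : ℝ) (hX : 1 ≤ X) (hXN : 2 * X ^ 2 ≤ N)
    (hn : N < n) (hz : z ≤ X ^ 2) (hβ : 0 ≤ β) :
    ‖ee (t * Real.log (((n + z : ℕ) : ℝ) + β)) -
      ee (t * Real.log (n + β)) * ee (∑ j : Fin k, tay k t β n j * (z : ℝ) ^ ((j : ℕ) + 1))‖ ≤
      4 * Real.pi * |t| * ((X : ℝ) ^ 2 / N) ^ (k + 1) := by
  have hX2 : 1 ≤ X ^ 2 := Nat.one_le_pow _ _ hX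
  have hN0 : (0 : ℝ) < (N : ℝ) := by exact_mod_cast (by omega : 0 < N)
  have hnN : (N : ℝ) ≤ (n : ℝ) := by exact_mod_cast hn.le
  have hy : 0 < (n : ℝ) + β := by linarith
  have hzX : (z : ℝ) ≤ (X : ℝ) ^ 2 := by exact_mod_cast hz
  have hz0 : (0 : ℝ) ≤ (z : ℝ) := Nat.cast_nonneg _
  have hXN' : 2 * (X : ℝ) ^ 2 ≤ (N : ℝ) := by exact_mod_cast hXN
  rw [← Pool.Agent.H91.PK.LSa_ee_add]
  refine (Sft_lip _ _).trans ?_
  have h1 := Sft_log k ((n : ℝ) + β) z ((X : ℝ) ^ 2 / N) hy hz0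
    (div_le_div₀ (by positivity) hzX hN0 (by linarith))
    (by rw [div_le_div_iff₀ hN0 (by norm_num)]; linarith)
  have h2 : ∑ j : Fin k, tay k t β n j * (z : ℝ) ^ ((j : ℕ) + 1) =
      -t * ∑ i ∈ range k, (-z / ((n : ℝ) + β)) ^ (i + 1) / ((i : ℝ) + 1) := by
    rw [mul_sum, ← Fin.sum_univ_eq_sum_range
      (fun i => -t * ((-z / ((n : ℝ) + β)) ^ (i + 1) / ((i : ℝ) + 1)))]
    refine sum_congr rfl fun j _ => ?_
    unfold tay
    have h3 : (-(z : ℝ) / ((n : ℝ) + β)) ^ ((j : ℕ) + 1) =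
        (-1) ^ ((j : ℕ) + 1) * (z : ℝ) ^ ((j : ℕ) + 1) / ((n : ℝ) + β) ^ ((j : ℕ) + 1) := by
      rw [div_pow, neg_pow]
    have h5 : ((n : ℝ) + β) ^ ((j : ℕ) + 1) ≠ 0 := (pow_pos hy _).ne'
    have h6 : ((j : ℕ) : ℝ) + 1 ≠ 0 := by positivity
    rw [h3, pow_succ (-1 : ℝ)]
    field_simp
  have h4 : t * Real.log (((n + z : ℕ) : ℝ) + β) - (t * Real.log (n + β) +
      ∑ j : Fin k, tay k t β n j * (z : ℝ) ^ ((j : ℕ) + 1)) =
      t * ((∑ i ∈ range k, (-z / ((n : ℝ) + β)) ^ (i + 1) / ((i : ℝ) + 1)) +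
        (Real.log (((n : ℝ) + β) + z) - Real.log ((n : ℝ) + β))) := by
    rw [h2]
    have h5 : ((n + z : ℕ) : ℝ) + β = ((n : ℝ) + β) + z := by push_cast; ring
    rw [h5]
    ring
  rw [h4, abs_mul]
  have hpi : 0 ≤ 2 * Real.pi := by positivity
  calc 2 * Real.pi * (|t| * |(∑ i ∈ range k, (-z / ((n : ℝ) + β)) ^ (i + 1) / ((i : ℝ) + 1)) +
        (Real.log (((n : ℝ) + β) + z) - Real.log ((n : ℝ) + β))|)
      ≤ 2 * Real.pi * (|t| * (2 * ((X : ℝ) ^ 2 / N) ^ (k + 1))) := by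
        apply mul_le_mul_of_nonneg_left _ hpi
        exact mul_le_mul_of_nonneg_left h1 (abs_nonneg _)
    _ = _ := by ring

theorem sft (k X N a b : ℕ) (t β : ℝ) (hX : 1 ≤ X) (hXN : 2 * X ^ 2 ≤ N) (ha : N ≤ a) (hb : b ≤ 2 * N)
    (hβ : 0 ≤ β) :
    ‖∑ n ∈ Ioc a b, ee (t * Real.log (n + β))‖ ≤
      (1 / (X : ℝ) ^ 2) * ∑ n ∈ Ioc a b, ‖bil k X (tay k t β n)‖ + 2 * (X : ℝ) ^ 2 +
        4 * Real.pi * |t| * N * ((X : ℝ) ^ 2 / N) ^ (k + 1) := by
  set f : ℕ → ℂ := fun n => ee (t * Real.log (n + β)) with hf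
  have hf1 : ∀ n, ‖f n‖ ≤ 1 := fun n => (Pool.Agent.H91.PK.LSa_norm_ee _).le
  set S := ∑ n ∈ Ioc a b, f n with hS
  set D := 4 * Real.pi * |t| * ((X : ℝ) ^ 2 / N) ^ (k + 1) with hD
  have hD0 : 0 ≤ D := by rw [hD]; positivity
  have hX0 : (0 : ℝ) < (X : ℝ) := by exact_mod_cast hX
  have hX2 : (0 : ℝ) < (X : ℝ) ^ 2 := by positivity
  have huv : ∀ u ∈ Icc 1 X, ∀ v ∈ Icc 1 X, u * v ≤ X ^ 2 := by
    intro u hu v hv
    rw [mem_Icc] at hu hv
    calc u * v ≤ X * X := Nat.mul_le_mul hu.2 hv.2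
      _ = X ^ 2 := by ring
  -- the shifted sums
  have h1 : ‖∑ u ∈ Icc 1 X, ∑ v ∈ Icc 1 X, (S - ∑ n ∈ Ioc a b, f (n + u * v))‖ ≤
      (X : ℝ) ^ 2 * (2 * (X : ℝ) ^ 2) := by
    calc _ ≤ ∑ u ∈ Icc 1 X, ∑ v ∈ Icc 1 X, (2 * (X : ℝ) ^ 2) := by
          refine (norm_sum_le _ _).trans (sum_le_sum fun u hu => ?_)
          refine (norm_sum_le _ _).trans (sum_le_sum fun v hv => ?_)
          refine (Sft_shift f hf1 a b (u * v)).trans ?_
          have := huv u hu v hv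
          have h2 : ((u * v : ℕ) : ℝ) ≤ (X : ℝ) ^ 2 := by exact_mod_cast this
          linarith
      _ = _ := by
          rw [sum_const, sum_const, Nat.card_Icc, nsmul_eq_mul, nsmul_eq_mul,
            Nat.add_sub_cancel]
          ring
  have h2 : ∑ u ∈ Icc 1 X, ∑ v ∈ Icc 1 X, ∑ n ∈ Ioc a b, f (n + u * v) =
      ∑ n ∈ Ioc a b, ∑ u ∈ Icc 1 X, ∑ v ∈ Icc 1 X, f (n + u * v) := by
    rw [sum_comm' (s := Ioc a b) (t := fun _ => Icc 1 X) (t' := Icc 1 X)
      (s' := fun _ => Ioc a b) (by intro x y; tauto)]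
    refine sum_congr rfl fun u _ => ?_
    rw [sum_comm]
  have h3 : ∀ n ∈ Ioc a b, ‖∑ u ∈ Icc 1 X, ∑ v ∈ Icc 1 X, f (n + u * v)‖ ≤
      ‖bil k X (tay k t β n)‖ + (X : ℝ) ^ 2 * D := by
    intro n hn
    rw [mem_Ioc] at hn
    have h4 : ∑ u ∈ Icc 1 X, ∑ v ∈ Icc 1 X, f (n + u * v) =
        f n * bil k X (tay k t β n) +
        ∑ u ∈ Icc 1 X, ∑ v ∈ Icc 1 X, (f (n + u * v) -
          f n * ee (∑ j : Fin k, tay k t β n j * ((u : ℝ) * v) ^ ((j : ℕ) + 1))) := by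
      unfold bil
      simp_rw [sum_sub_distrib, mul_sum]
      ring
    rw [h4]
    refine (norm_add_le _ _).trans (add_le_add ?_ ?_)
    · rw [norm_mul]
      calc ‖f n‖ * ‖bil k X (tay k t β n)‖ ≤ 1 * ‖bil k X (tay k t β n)‖ :=
            mul_le_mul_of_nonneg_right (hf1 n) (norm_nonneg _)
        _ = _ := one_mul _
    · calc _ ≤ ∑ u ∈ Icc 1 X, ∑ v ∈ Icc 1 X, D := by
            refine (norm_sum_le _ _).trans (sum_le_sum fun u hu => ?_)
            refine (norm_sum_le _ _).trans (sum_le_sum fun v hv => ?_)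
            have h5 := Sft_pt k X N n (u * v) t β hX hXN (by omega) (huv u hu v hv) hβ
            rw [Nat.cast_mul u v] at h5
            exact h5
        _ = _ := by
            rw [sum_const, sum_const, Nat.card_Icc, nsmul_eq_mul, nsmul_eq_mul,
              Nat.add_sub_cancel]
            ring
  have h4 : (X : ℂ) ^ 2 * S = ∑ u ∈ Icc 1 X, ∑ v ∈ Icc 1 X,
      (S - ∑ n ∈ Ioc a b, f (n + u * v)) +
      ∑ n ∈ Ioc a b, ∑ u ∈ Icc 1 X, ∑ v ∈ Icc 1 X, f (n + u * v) := by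
    rw [← h2]
    simp_rw [sum_sub_distrib]
    rw [sub_add_cancel, sum_const, sum_const, Nat.card_Icc, nsmul_eq_mul, nsmul_eq_mul,
      Nat.add_sub_cancel]
    ring
  have h5 : ‖∑ n ∈ Ioc a b, ∑ u ∈ Icc 1 X, ∑ v ∈ Icc 1 X, f (n + u * v)‖ ≤
      ∑ n ∈ Ioc a b, ‖bil k X (tay k t β n)‖ + N * ((X : ℝ) ^ 2 * D) := by
    refine (norm_sum_le _ _).trans ((sum_le_sum h3).trans ?_)
    rw [sum_add_distrib, sum_const, Nat.card_Ioc, nsmul_eq_mul]
    have h6 : ((b - a : ℕ) : ℝ) ≤ (N : ℝ) := by exact_mod_cast (by omega : b - a ≤ N)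
    have h7 : ((b - a : ℕ) : ℝ) * ((X : ℝ) ^ 2 * D) ≤ (N : ℝ) * ((X : ℝ) ^ 2 * D) :=
      mul_le_mul_of_nonneg_right h6 (by positivity)
    linarith
  have h6 : (X : ℝ) ^ 2 * ‖S‖ ≤ (X : ℝ) ^ 2 * (2 * (X : ℝ) ^ 2) +
      (∑ n ∈ Ioc a b, ‖bil k X (tay k t β n)‖ + N * ((X : ℝ) ^ 2 * D)) := by
    have h7 : ‖(X : ℂ) ^ 2 * S‖ = (X : ℝ) ^ 2 * ‖S‖ := by
      rw [norm_mul, norm_pow, Complex.norm_natCast]
    rw [← h7, h4]
    exact (norm_add_le _ _).trans (add_le_add h1 h5)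
  have h7 : ‖S‖ = (1 / (X : ℝ) ^ 2) * ((X : ℝ) ^ 2 * ‖S‖) := by
    field_simp
  rw [h7]
  calc (1 / (X : ℝ) ^ 2) * ((X : ℝ) ^ 2 * ‖S‖)
      ≤ (1 / (X : ℝ) ^ 2) * ((X : ℝ) ^ 2 * (2 * (X : ℝ) ^ 2) +
        (∑ n ∈ Ioc a b, ‖bil k X (tay k t β n)‖ + N * ((X : ℝ) ^ 2 * D))) :=
        mul_le_mul_of_nonneg_left h6 (by positivity)
    _ = _ := by
        rw [hD]
        field_simp
        ring

end Pool.Agent.H97.VK

end

section

/-!
# VK Bil: the bilinear sum and the mean value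

Write `U = ‖bil k X α‖`, `ψ(v) = ∑_j α_j v_j`.
(1) `U ≤ ∑_a |∑_b ee(∑_j α_j a^j b^j)|`, so `U^{2s} ≤ X^{2s-1} ∑_a |∑_b ..|^{2s}
 = X^{2s-1} ∑_a ∑_{y,y' ∈ [1,X]^s} ee(∑_j α_j a^j (pv(y)_j - pv(y')_j)) ≤ X^{2s-1} ∑_v R(v) |T(v)|`, where
 `R(v) = #{(y,y') : pv(y) - pv(y') = v}`, `T(v) = ∑_{a ≤ X} ee(∑_j α_j v_j a^j)`; `v` runs over `V = {|v_j| ≤ s X^j}` (finite).
(2) Hölder (exponents `s/(s-1), 2s, 2s`; or Cauchy-Schwarz-type steps):
 `(∑ R|T|)^{2s} ≤ (∑ R)^{2s-2} (∑ R^2) (∑_{v ∈ V} |T(v)|^{2s})`.  (E.g. `(∑ R |T|)^s ≤ (∑ R)^{s-1} ∑ R |T|^s` and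
 `(∑ R|T|^s)^2 ≤ ∑ R^2 ∑ |T|^{2s}`.)
(3) `∑ R = X^{2s}`; `∑ R^2 ≤ JV k (2s) X` (equality after renaming: `pv(y) - pv(y') = pv(z) - pv(z')`).
(4) `∑_{v ∈ V} |T(v)|^{2s} = ∑_w R(w) ∑_{v ∈ V} ee(∑_j α_j v_j w_j) ≤ JV k s X ∏_j GG (α_j) (s X^j)`: `R(w) ≤ R(0) = JV k s X` (`shift_le`),
 `w` runs over `V`, and the sum over `v ∈ V` is the product over `j` of `∑_{|v| ≤ s X^j} ee(α_j w_j v)`.
Exponents: `2s(2s-1) + 2s(2s-2) = 8s^2 - 6s`.  Here `j` = `(j : Fin k) + 1`.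
-/

set_option autoImplicit false

namespace Pool.Agent.H97.VK

open Finset
open Pool.Agent.H91.PK (ee)

private theorem Bil_ee_zero : ee 0 = 1 := by
  simp [ee]

private theorem Bil_ee_sum {ι : Type} (S : Finset ι) (f : ι → ℝ) :
    ee (∑ i ∈ S, f i) = ∏ i ∈ S, ee (f i) := by
  classical
  induction S using Finset.induction_on with
  | empty => simp [Bil_ee_zero]
  | insert a S ha ih => rw [Finset.sum_insert ha, Finset.prod_insert ha,
      Pool.Agent.H91.PK.LSa_ee_add, ih]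

/-- the one variable exponential sum with coefficients `c` -/
private noncomputable def BilE {k : ℕ} (X : ℕ) (c : Fin k → ℝ) : ℂ :=
  ∑ n ∈ Icc 1 X, ee (∑ j : Fin k, c j * (n : ℝ) ^ ((j : ℕ) + 1))

private noncomputable def BilD {k s : ℕ} (w : (Fin s → ℕ) × (Fin s → ℕ)) (j : Fin k) : ℤ :=
  pv k w.1 j - pv k w.2 j

private theorem Bil_pow (k s X : ℕ) (c : Fin k → ℝ) :
    (BilE X c) ^ s = ∑ y ∈ box s X, ee (∑ j : Fin k, c j * (pv k y j : ℝ)) := by
  have h1 : (BilE X c) ^ s = ∏ _i : Fin s, BilE X c := by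
    rw [Finset.prod_const, Finset.card_univ, Fintype.card_fin]
  rw [h1]
  unfold BilE
  rw [Finset.prod_univ_sum]
  unfold box
  refine Finset.sum_congr rfl fun y _ => ?_
  rw [← Bil_ee_sum]
  congr 1
  rw [Finset.sum_comm]
  refine Finset.sum_congr rfl fun j _ => ?_
  rw [← Finset.mul_sum]
  congr 1
  unfold pv
  push_cast
  rfl

private theorem Bil_norm_pow (k s X : ℕ) (c : Fin k → ℝ) :
    ((‖BilE X c‖ ^ (2 * s) : ℝ) : ℂ) =
      ∑ w ∈ box s X ×ˢ box s X, ee (∑ j : Fin k, c j * (BilD w j : ℝ)) := by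
  have h1 : ((‖BilE X c‖ ^ (2 * s) : ℝ) : ℂ) = (BilE X c) ^ s * (starRingEnd ℂ) ((BilE X c) ^ s) := by
    rw [map_pow, ← mul_pow, Complex.mul_conj, Complex.normSq_eq_norm_sq, pow_mul]
    push_cast
    rfl
  rw [h1, Bil_pow, map_sum, Finset.sum_mul_sum, Finset.sum_product]
  refine Finset.sum_congr rfl fun y _ => Finset.sum_congr rfl fun y' _ => ?_
  rw [Pool.Agent.H91.PK.LSa_conj_ee, ← Pool.Agent.H91.PK.LSa_ee_add]
  congr 1
  rw [← sub_eq_add_neg, ← Finset.sum_sub_distrib]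
  refine Finset.sum_congr rfl fun j _ => ?_
  unfold BilD
  push_cast
  ring

private noncomputable def BilV (k s X : ℕ) : Finset (Fin k → ℤ) :=
  Fintype.piFinset (fun j : Fin k => Icc (-((s * X ^ ((j : ℕ) + 1) : ℕ) : ℤ)) ((s * X ^ ((j : ℕ) + 1) : ℕ) : ℤ))

private theorem Bil_pv_le {k s X : ℕ} {y : Fin s → ℕ} (hy : y ∈ box s X) (j : Fin k) :
    0 ≤ pv k y j ∧ pv k y j ≤ ((s * X ^ ((j : ℕ) + 1) : ℕ) : ℤ) := by
  unfold box at hy
  rw [Fintype.mem_piFinset] at hy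
  unfold pv
  refine ⟨Finset.sum_nonneg fun i _ => by positivity, ?_⟩
  calc ∑ i, (y i : ℤ) ^ ((j : ℕ) + 1) ≤ ∑ _i : Fin s, (X : ℤ) ^ ((j : ℕ) + 1) := by
        refine Finset.sum_le_sum fun i _ => ?_
        have := (Finset.mem_Icc.mp (hy i)).2
        exact pow_le_pow_left₀ (by positivity) (by exact_mod_cast this) _
    _ = ((s * X ^ ((j : ℕ) + 1) : ℕ) : ℤ) := by
        rw [Finset.sum_const, Finset.card_univ, Fintype.card_fin]
        push_cast
        simp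

private theorem Bil_mem {k s X : ℕ} {w : (Fin s → ℕ) × (Fin s → ℕ)} (hw : w ∈ box s X ×ˢ box s X) :
    (BilD w : Fin k → ℤ) ∈ BilV k s X := by
  rw [Finset.mem_product] at hw
  unfold BilV
  rw [Fintype.mem_piFinset]
  intro j
  rw [Finset.mem_Icc]
  have h1 := Bil_pv_le hw.1 j
  have h2 := Bil_pv_le hw.2 j
  unfold BilD
  constructor <;> linarith [h1.1, h1.2, h2.1, h2.2]

private noncomputable def BilR (k s X : ℕ) (v : Fin k → ℤ) : ℕ :=
  ((box s X ×ˢ box s X).filter (fun w => BilD w = v)).card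

private theorem Bil_fiber (k s X : ℕ) (f : (Fin k → ℤ) → ℝ) :
    ∑ w ∈ box s X ×ˢ box s X, f (BilD w) = ∑ v ∈ BilV k s X, (BilR k s X v : ℝ) * f v := by
  rw [← Finset.sum_fiberwise_of_maps_to' (fun w hw => Bil_mem (k := k) hw) f]
  refine Finset.sum_congr rfl fun v _ => ?_
  rw [Finset.sum_const, nsmul_eq_mul]
  rfl

private theorem Bil_R_le (k s X : ℕ) (v : Fin k → ℤ) : BilR k s X v ≤ JV k s X := by
  have h := shift_le (box s X) (pv k) v
  unfold BilR JV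
  calc ((box s X ×ˢ box s X).filter (fun w => BilD w = v)).card
      = ((box s X ×ˢ box s X).filter (fun w => ∀ j, pv k w.1 j = pv k w.2 j + v j)).card := by
        congr 1
        refine Finset.filter_congr fun w _ => ?_
        rw [funext_iff]
        refine forall_congr' fun j => ?_
        unfold BilD
        constructor <;> intro h <;> linarith
    _ ≤ ((box s X ×ˢ box s X).filter (fun w => ∀ j, pv k w.1 j = pv k w.2 j)).card := h
    _ = ((box s X ×ˢ box s X).filter (fun w => pv k w.1 = pv k w.2)).card := by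
        congr 1
        refine Finset.filter_congr fun w _ => ?_
        rw [funext_iff]

private theorem Bil_pv_append (k s : ℕ) (a b : Fin s → ℕ) (j : Fin k) :
    pv k (Fin.append a b) j = pv k a j + pv k b j := by
  unfold pv
  rw [Fin.sum_univ_add]
  simp only [Fin.append_left, Fin.append_right]

private theorem Bil_append_mem {s X : ℕ} {a b : Fin s → ℕ} (ha : a ∈ box s X) (hb : b ∈ box s X) :
    Fin.append a b ∈ box (s + s) X := by
  unfold box at *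
  rw [Fintype.mem_piFinset] at *
  intro i
  refine Fin.addCases (fun i => ?_) (fun i => ?_) i
  · rw [Fin.append_left]; exact ha i
  · rw [Fin.append_right]; exact hb i

private theorem Bil_append_inj {s : ℕ} {a b a' b' : Fin s → ℕ}
    (h : Fin.append a b = Fin.append a' b') : a = a' ∧ b = b' := by
  constructor
  · funext i
    have := congrFun h (Fin.castAdd s i)
    rwa [Fin.append_left, Fin.append_left] at this
  · funext i
    have := congrFun h (Fin.natAdd s i)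
    rwa [Fin.append_right, Fin.append_right] at this

private theorem Bil_sumR_sq (k s X : ℕ) :
    ∑ v ∈ BilV k s X, (BilR k s X v : ℝ) ^ 2 ≤ (JV k (2 * s) X : ℝ) := by
  have h1 : ∑ v ∈ BilV k s X, (BilR k s X v : ℝ) ^ 2 =
      ∑ w ∈ box s X ×ˢ box s X, (BilR k s X (BilD w) : ℝ) := by
    refine Eq.trans ?_ (Bil_fiber k s X (fun v => (BilR k s X v : ℝ))).symm
    exact Finset.sum_congr rfl fun v _ => pow_two _
  have h2' : ∑ w ∈ box s X ×ˢ box s X, BilR k s X (BilD w) =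
      (((box s X ×ˢ box s X) ×ˢ (box s X ×ˢ box s X)).filter
        (fun z => (BilD z.2 : Fin k → ℤ) = BilD z.1)).card := by
    rw [Finset.card_filter]
    refine Eq.symm ((Finset.sum_product (box s X ×ˢ box s X) (box s X ×ˢ box s X) _).trans ?_)
    refine Finset.sum_congr rfl fun w _ => ?_
    unfold BilR
    rw [Finset.card_filter]
  have h2 : ∑ w ∈ box s X ×ˢ box s X, (BilR k s X (BilD w) : ℝ) =
      ((((box s X ×ˢ box s X) ×ˢ (box s X ×ˢ box s X)).filter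
        (fun z => (BilD z.2 : Fin k → ℤ) = BilD z.1)).card : ℝ) := by
    rw [← h2', Nat.cast_sum]
  rw [h1, h2]
  have h3 : JV k (2 * s) X = JV k (s + s) X := by rw [two_mul]
  rw [h3]
  unfold JV
  rw [Nat.cast_le]
  refine Finset.card_le_card_of_injOn
    (fun z => (Fin.append z.1.1 z.2.2, Fin.append z.1.2 z.2.1)) ?_ ?_
  · intro z hz
    rw [Finset.mem_coe, Finset.mem_filter, Finset.mem_product, Finset.mem_product,
      Finset.mem_product] at hz
    obtain ⟨⟨⟨h11, h12⟩, ⟨h21, h22⟩⟩, he⟩ := hz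
    rw [Finset.mem_coe, Finset.mem_filter, Finset.mem_product]
    refine ⟨⟨Bil_append_mem h11 h22, Bil_append_mem h12 h21⟩, ?_⟩
    funext j
    simp only
    rw [Bil_pv_append, Bil_pv_append]
    have := congrFun he j
    unfold BilD at this
    linarith
  · intro z _ z' _ h
    simp only [Prod.mk.injEq] at h
    have h1 := Bil_append_inj h.1
    have h2 := Bil_append_inj h.2
    ext1
    · ext1
      · exact h1.1
      · exact h2.1
    · ext1
      · exact h2.2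
      · exact h1.2

private theorem Bil_prod_norm (k s X : ℕ) (α : Fin k → ℝ) (u : Fin k → ℤ) :
    ‖∑ v ∈ BilV k s X, ee (∑ j : Fin k, α j * (v j : ℝ) * (u j : ℝ))‖ =
      ∏ j : Fin k, ‖∑ v ∈ Icc (-((s * X ^ ((j : ℕ) + 1) : ℕ) : ℤ)) ((s * X ^ ((j : ℕ) + 1) : ℕ) : ℤ),
        ee (α j * (u j : ℝ) * (v : ℝ))‖ := by
  rw [← norm_prod, Finset.prod_univ_sum]
  unfold BilV
  congr 1
  refine Finset.sum_congr rfl fun v _ => ?_
  rw [Bil_ee_sum]
  refine Finset.prod_congr rfl fun j _ => ?_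
  congr 1
  ring

private theorem Bil_sumT (k s X : ℕ) (α : Fin k → ℝ) :
    ∑ v ∈ BilV k s X, ‖BilE X (fun j => α j * (v j : ℝ))‖ ^ (2 * s) ≤
      (JV k s X : ℝ) * ∏ j : Fin k, GG (α j) (s * X ^ ((j : ℕ) + 1)) := by
  have h1 : ((∑ v ∈ BilV k s X, ‖BilE X (fun j => α j * (v j : ℝ))‖ ^ (2 * s) : ℝ) : ℂ) =
      ∑ w ∈ box s X ×ˢ box s X, ∑ v ∈ BilV k s X,
        ee (∑ j : Fin k, α j * (v j : ℝ) * (BilD w j : ℝ)) := by
    rw [Complex.ofReal_sum, Finset.sum_comm]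
    refine Finset.sum_congr rfl fun v _ => ?_
    exact Bil_norm_pow k s X (fun j => α j * (v j : ℝ))
  have h0 : 0 ≤ ∑ v ∈ BilV k s X, ‖BilE X (fun j => α j * (v j : ℝ))‖ ^ (2 * s) :=
    Finset.sum_nonneg fun v _ => by positivity
  have h2 : ∑ v ∈ BilV k s X, ‖BilE X (fun j => α j * (v j : ℝ))‖ ^ (2 * s) =
      ‖((∑ v ∈ BilV k s X, ‖BilE X (fun j => α j * (v j : ℝ))‖ ^ (2 * s) : ℝ) : ℂ)‖ := by
    rw [Complex.norm_real, Real.norm_of_nonneg h0]
  rw [h2, h1]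
  calc ‖∑ w ∈ box s X ×ˢ box s X, ∑ v ∈ BilV k s X,
        ee (∑ j : Fin k, α j * (v j : ℝ) * (BilD w j : ℝ))‖
      ≤ ∑ w ∈ box s X ×ˢ box s X, ‖∑ v ∈ BilV k s X,
        ee (∑ j : Fin k, α j * (v j : ℝ) * (BilD w j : ℝ))‖ := norm_sum_le _ _
    _ = ∑ u ∈ BilV k s X, (BilR k s X u : ℝ) * ‖∑ v ∈ BilV k s X,
        ee (∑ j : Fin k, α j * (v j : ℝ) * (u j : ℝ))‖ :=
        Bil_fiber k s X (fun u => ‖∑ v ∈ BilV k s X,
          ee (∑ j : Fin k, α j * (v j : ℝ) * (u j : ℝ))‖)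
    _ ≤ ∑ u ∈ BilV k s X, (JV k s X : ℝ) * ‖∑ v ∈ BilV k s X,
        ee (∑ j : Fin k, α j * (v j : ℝ) * (u j : ℝ))‖ := by
        refine Finset.sum_le_sum fun u _ => ?_
        refine mul_le_mul_of_nonneg_right ?_ (norm_nonneg _)
        exact_mod_cast Bil_R_le k s X u
    _ = (JV k s X : ℝ) * ∏ j : Fin k, GG (α j) (s * X ^ ((j : ℕ) + 1)) := by
        rw [← Finset.mul_sum]
        congr 1
        unfold GG
        rw [Finset.prod_univ_sum]
        refine Finset.sum_congr rfl fun u _ => ?_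
        exact Bil_prod_norm k s X α u

private theorem Bil_box_card (s X : ℕ) : (box s X ×ˢ box s X).card = X ^ (2 * s) := by
  rw [Finset.card_product]
  unfold box
  rw [Fintype.card_piFinset]
  simp only [Nat.card_Icc, Finset.prod_const, Finset.card_univ, Fintype.card_fin,
    Nat.add_sub_cancel]
  rw [two_mul, pow_add]

/-- the sum of the norms of `T(v)` over the pairs -/
private noncomputable def BilA (k s X : ℕ) (α : Fin k → ℝ) : ℝ :=
  ∑ w ∈ box s X ×ˢ box s X, ‖BilE X (fun j : Fin k => α j * (BilD w j : ℝ))‖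

private theorem Bil_step1 (k s X : ℕ) (hs : 1 ≤ s) (α : Fin k → ℝ) :
    ‖bil k X α‖ ^ (2 * s) ≤ (X : ℝ) ^ (2 * s - 1) * BilA k s X α := by
  have hE : ∀ a : ℕ, (∑ b ∈ Icc 1 X, ee (∑ j : Fin k, α j * ((a : ℝ) * b) ^ ((j : ℕ) + 1))) =
      BilE X (fun j : Fin k => α j * (a : ℝ) ^ ((j : ℕ) + 1)) := by
    intro a
    unfold BilE
    refine Finset.sum_congr rfl fun b _ => ?_
    congr 1
    refine Finset.sum_congr rfl fun j _ => ?_
    rw [mul_pow]
    ring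
  have h1 : ‖bil k X α‖ ≤ ∑ a ∈ Icc 1 X, ‖BilE X (fun j : Fin k => α j * (a : ℝ) ^ ((j : ℕ) + 1))‖ := by
    unfold bil
    refine (norm_sum_le _ _).trans (le_of_eq ?_)
    refine Finset.sum_congr rfl fun a _ => ?_
    rw [hE a]
  have h2 : (∑ a ∈ Icc 1 X, ‖BilE X (fun j : Fin k => α j * (a : ℝ) ^ ((j : ℕ) + 1))‖) ^ (2 * s) ≤
      (X : ℝ) ^ (2 * s - 1) *
        ∑ a ∈ Icc 1 X, ‖BilE X (fun j : Fin k => α j * (a : ℝ) ^ ((j : ℕ) + 1))‖ ^ (2 * s) := by
    obtain ⟨n, hn⟩ : ∃ n, 2 * s = n + 1 := ⟨2 * s - 1, by omega⟩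
    rw [hn, Nat.add_sub_cancel]
    have := pow_sum_le_card_mul_sum_pow (s := Icc 1 X)
      (f := fun a : ℕ => ‖BilE X (fun j : Fin k => α j * (a : ℝ) ^ ((j : ℕ) + 1))‖)
      (fun a _ => norm_nonneg _) n
    rw [Nat.card_Icc, Nat.add_sub_cancel] at this
    exact this
  have h3 : ∑ a ∈ Icc 1 X, ‖BilE X (fun j : Fin k => α j * (a : ℝ) ^ ((j : ℕ) + 1))‖ ^ (2 * s) ≤
      BilA k s X α := by
    have e : ((∑ a ∈ Icc 1 X, ‖BilE X (fun j : Fin k => α j * (a : ℝ) ^ ((j : ℕ) + 1))‖ ^ (2 * s) : ℝ) : ℂ)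
        = ∑ w ∈ box s X ×ˢ box s X, BilE X (fun j : Fin k => α j * (BilD w j : ℝ)) := by
      rw [Complex.ofReal_sum]
      unfold BilE
      rw [Finset.sum_comm]
      refine Finset.sum_congr rfl fun a _ => ?_
      have := Bil_norm_pow k s X (fun j : Fin k => α j * (a : ℝ) ^ ((j : ℕ) + 1))
      unfold BilE at this
      rw [this]
      refine Finset.sum_congr rfl fun w _ => ?_
      congr 1
      refine Finset.sum_congr rfl fun j _ => ?_
      ring
    have h0 : 0 ≤ ∑ a ∈ Icc 1 X, ‖BilE X (fun j : Fin k => α j * (a : ℝ) ^ ((j : ℕ) + 1))‖ ^ (2 * s) :=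
      Finset.sum_nonneg fun v _ => by positivity
    have e2 : ∑ a ∈ Icc 1 X, ‖BilE X (fun j : Fin k => α j * (a : ℝ) ^ ((j : ℕ) + 1))‖ ^ (2 * s) =
        ‖((∑ a ∈ Icc 1 X, ‖BilE X (fun j : Fin k => α j * (a : ℝ) ^ ((j : ℕ) + 1))‖ ^ (2 * s) : ℝ) : ℂ)‖ := by
      rw [Complex.norm_real, Real.norm_of_nonneg h0]
    rw [e2, e]
    exact norm_sum_le _ _
  calc ‖bil k X α‖ ^ (2 * s)
      ≤ (∑ a ∈ Icc 1 X, ‖BilE X (fun j : Fin k => α j * (a : ℝ) ^ ((j : ℕ) + 1))‖) ^ (2 * s) :=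
        pow_le_pow_left₀ (norm_nonneg _) h1 _
    _ ≤ _ := h2
    _ ≤ _ := mul_le_mul_of_nonneg_left h3 (by positivity)

private theorem Bil_step2 (k s X : ℕ) (hs : 1 ≤ s) (α : Fin k → ℝ) :
    BilA k s X α ^ (2 * s) ≤ (X : ℝ) ^ (2 * s * (2 * s - 2)) * ((JV k (2 * s) X : ℝ) *
      ((JV k s X : ℝ) * ∏ j : Fin k, GG (α j) (s * X ^ ((j : ℕ) + 1)))) := by
  have hA0 : 0 ≤ BilA k s X α := Finset.sum_nonneg fun w _ => norm_nonneg _
  set B : ℝ := ∑ w ∈ box s X ×ˢ box s X, ‖BilE X (fun j : Fin k => α j * (BilD w j : ℝ))‖ ^ s with hB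
  have hB0 : 0 ≤ B := Finset.sum_nonneg fun w _ => by positivity
  have h1 : BilA k s X α ^ s ≤ (X : ℝ) ^ (2 * s * (s - 1)) * B := by
    obtain ⟨n, hn⟩ : ∃ n, s = n + 1 := ⟨s - 1, by omega⟩
    have := pow_sum_le_card_mul_sum_pow (s := box s X ×ˢ box s X)
      (f := fun w => ‖BilE X (fun j : Fin k => α j * (BilD w j : ℝ))‖)
      (fun a _ => norm_nonneg _) (s - 1)
    rw [Bil_box_card, Nat.sub_add_cancel hs] at this
    unfold BilA
    rw [hB]
    push_cast at this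
    rw [← pow_mul] at this
    exact this
  have h2 : B = ∑ v ∈ BilV k s X, (BilR k s X v : ℝ) * ‖BilE X (fun j => α j * (v j : ℝ))‖ ^ s := by
    rw [hB]
    exact Bil_fiber k s X (fun v => ‖BilE X (fun j => α j * (v j : ℝ))‖ ^ s)
  have h3 : B ^ 2 ≤ (JV k (2 * s) X : ℝ) *
      ((JV k s X : ℝ) * ∏ j : Fin k, GG (α j) (s * X ^ ((j : ℕ) + 1))) := by
    rw [h2]
    refine (Finset.sum_mul_sq_le_sq_mul_sq _ _ _).trans ?_
    have e : ∑ v ∈ BilV k s X, (‖BilE X (fun j => α j * (v j : ℝ))‖ ^ s) ^ 2 =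
        ∑ v ∈ BilV k s X, ‖BilE X (fun j => α j * (v j : ℝ))‖ ^ (2 * s) := by
      refine Finset.sum_congr rfl fun v _ => ?_
      rw [← pow_mul, mul_comm s 2]
    rw [e]
    refine mul_le_mul (Bil_sumR_sq k s X) (Bil_sumT k s X α) ?_ (by positivity)
    exact Finset.sum_nonneg fun v _ => by positivity
  calc BilA k s X α ^ (2 * s) = (BilA k s X α ^ s) ^ 2 := by rw [← pow_mul, mul_comm s 2]
    _ ≤ ((X : ℝ) ^ (2 * s * (s - 1)) * B) ^ 2 := pow_le_pow_left₀ (by positivity) h1 2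
    _ = (X : ℝ) ^ (2 * s * (2 * s - 2)) * B ^ 2 := by
        rw [mul_pow, ← pow_mul]
        congr 2
        have : 2 * s - 2 = 2 * (s - 1) := by omega
        rw [this]
        ring
    _ ≤ _ := mul_le_mul_of_nonneg_left h3 (by positivity)

theorem bil_bound (k s X : ℕ) (hs : 1 ≤ s) (hX : 1 ≤ X) (α : Fin k → ℝ) :
    ‖bil k X α‖ ^ (4 * s ^ 2) ≤ (X : ℝ) ^ (8 * s ^ 2 - 6 * s) * (JV k (2 * s) X : ℝ) * (JV k s X : ℝ) *
      ∏ j : Fin k, GG (α j) (s * X ^ ((j : ℕ) + 1)) := by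
  have hA0 : 0 ≤ BilA k s X α := Finset.sum_nonneg fun w _ => norm_nonneg _
  have e1 : ‖bil k X α‖ ^ (4 * s ^ 2) = (‖bil k X α‖ ^ (2 * s)) ^ (2 * s) := by
    rw [← pow_mul]
    congr 1
    ring
  have e2 : (2 * s - 1) * (2 * s) + 2 * s * (2 * s - 2) = 8 * s ^ 2 - 6 * s := by
    obtain ⟨n, rfl⟩ : ∃ n, s = n + 1 := ⟨s - 1, by omega⟩
    have a1 : 2 * (n + 1) - 1 = 2 * n + 1 := by omega
    have a2 : 2 * (n + 1) - 2 = 2 * n := by omega
    rw [a1, a2]
    refine (Nat.sub_eq_of_eq_add ?_).symm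
    ring
  rw [e1]
  calc (‖bil k X α‖ ^ (2 * s)) ^ (2 * s)
      ≤ ((X : ℝ) ^ (2 * s - 1) * BilA k s X α) ^ (2 * s) :=
        pow_le_pow_left₀ (by positivity) (Bil_step1 k s X hs α) _
    _ = (X : ℝ) ^ ((2 * s - 1) * (2 * s)) * BilA k s X α ^ (2 * s) := by
        rw [mul_pow, ← pow_mul]
    _ ≤ (X : ℝ) ^ ((2 * s - 1) * (2 * s)) * ((X : ℝ) ^ (2 * s * (2 * s - 2)) * ((JV k (2 * s) X : ℝ) *
      ((JV k s X : ℝ) * ∏ j : Fin k, GG (α j) (s * X ^ ((j : ℕ) + 1))))) :=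
        mul_le_mul_of_nonneg_left (Bil_step2 k s X hs α) (by positivity)
    _ = _ := by
        rw [← e2, pow_add]
        ring

end Pool.Agent.H97.VK

end

section

/-!
# VK GGB: bounds for `GG`

`gg_triv`: at most `(2W+1)^2` terms of size `≤ 1`.
`gg_bound`: the inner sum is `≤ min (2W+1, 1/(2‖α w‖))` (geometric series; `|1 - ee θ| ≥ 4‖θ‖`).  The map
`w ↦ (n, m, s)`, `n = round (α w)`, `m = ⌊|α w - n| / |α|⌋`, `s = (n ≤ α w)` is injective, so the sum is at most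
`(2 |α| W + 2) * 2 * (2 W + 1 + ∑_{1 ≤ m ≤ 1/(2|α|)} 1/(2 m |α|))`.
-/

set_option autoImplicit false

namespace Pool.Agent.H97.VK

open Finset
open Pool.Agent.H91.PK (ee LSa_ee_add LSa_norm_ee)

private theorem GGB_card (W : ℕ) : ((Icc (-(W : ℤ)) W).card : ℝ) = 2 * (W : ℝ) + 1 := by
  rw [Int.card_Icc]
  have h : ((W : ℤ) + 1 - -(W : ℤ)).toNat = 2 * W + 1 := by omega
  rw [h]
  push_cast
  ring

private theorem GGB_inner_triv (θ : ℝ) (W : ℕ) :
    ‖∑ v ∈ Icc (-(W : ℤ)) W, ee (θ * v)‖ ≤ 2 * (W : ℝ) + 1 := by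
  refine (norm_sum_le _ _).trans ?_
  have h : ∑ v ∈ Icc (-(W : ℤ)) W, ‖ee (θ * v)‖ = ((Icc (-(W : ℤ)) W).card : ℝ) := by
    simp only [LSa_norm_ee, Finset.sum_const, nsmul_eq_mul, mul_one]
  rw [h, GGB_card]

theorem gg_triv (α : ℝ) (W : ℕ) : GG α W ≤ (2 * (W : ℝ) + 1) ^ 2 := by
  unfold GG
  refine (Finset.sum_le_sum (fun (w : ℤ) _ => GGB_inner_triv (α * (w : ℝ)) W)).trans ?_
  rw [Finset.sum_const, nsmul_eq_mul, GGB_card, sq]

theorem gg_nonneg (α : ℝ) (W : ℕ) : 0 ≤ GG α W :=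
  Finset.sum_nonneg fun _ _ => norm_nonneg _

private theorem GGB_ee_int (θ : ℝ) (n : ℤ) : ee (θ - n) = ee θ := by
  unfold ee
  rw [Complex.exp_eq_exp_iff_exists_int]
  refine ⟨-n, ?_⟩
  push_cast
  ring

private theorem GGB_lower (x : ℝ) (h : |x| ≤ 1 / 2) : 4 * |x| ≤ ‖ee x - 1‖ := by
  have h1 : ee x = Complex.exp (Complex.I * ((2 * Real.pi * x : ℝ) : ℂ)) := by
    unfold ee
    congr 1
    push_cast
    ring
  rw [h1, Complex.norm_exp_I_mul_ofReal_sub_one, norm_mul, Real.norm_eq_abs, Real.norm_eq_abs]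
  have h2 : 2 * Real.pi * x / 2 = Real.pi * x := by ring
  rw [h2]
  have h3 : |Real.pi * x| ≤ Real.pi / 2 := by
    rw [abs_mul, abs_of_pos Real.pi_pos]
    nlinarith [Real.pi_pos]
  have h4 := Real.mul_abs_le_abs_sin h3
  rw [abs_mul, abs_of_pos Real.pi_pos] at h4
  have h5 : 2 / Real.pi * (Real.pi * |x|) = 2 * |x| := by
    field_simp
  rw [h5] at h4
  have h6 : |(2 : ℝ)| = 2 := abs_of_pos (by norm_num)
  rw [h6]
  linarith

private theorem GGB_shift (θ : ℝ) (W : ℕ) :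
    ∑ v ∈ Icc (-(W : ℤ)) W, ee (θ * v) = ee (-(θ * W)) * ∑ i ∈ range (2 * W + 1), ee θ ^ i := by
  have hp : ∀ i : ℕ, ee (θ * i) = ee θ ^ i := by
    intro i
    induction i with
    | zero =>
      simp [ee]
    | succ i ih =>
      rw [pow_succ, ← ih, ← LSa_ee_add]
      congr 1
      push_cast
      ring
  rw [Finset.mul_sum]
  symm
  refine Finset.sum_nbij' (fun i : ℕ => (i : ℤ) - W) (fun v : ℤ => (v + W).toNat) ?_ ?_ ?_ ?_ ?_
  · intro i hi
    rw [Finset.mem_range] at hi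
    rw [Finset.mem_Icc]
    omega
  · intro v hv
    rw [Finset.mem_Icc] at hv
    rw [Finset.mem_range]
    omega
  · intro i hi
    simp
  · intro v hv
    rw [Finset.mem_Icc] at hv
    omega
  · intro i hi
    rw [← hp, ← LSa_ee_add]
    congr 1
    push_cast
    ring

private theorem GGB_inner (θ : ℝ) (n : ℤ) (W : ℕ) (h : |θ - n| ≤ 1 / 2) :
    ‖∑ v ∈ Icc (-(W : ℤ)) W, ee (θ * v)‖ * (4 * |θ - n|) ≤ 2 := by
  have h1 : 4 * |θ - n| ≤ ‖ee θ - 1‖ := by
    have := GGB_lower (θ - n) h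
    rwa [GGB_ee_int] at this
  refine (mul_le_mul_of_nonneg_left h1 (norm_nonneg _)).trans ?_
  rw [← norm_mul, GGB_shift, mul_assoc, geom_sum_mul, norm_mul, LSa_norm_ee, one_mul]
  refine (norm_sub_le _ _).trans ?_
  rw [norm_pow, LSa_norm_ee, one_pow, norm_one]
  norm_num

/-- The bound of the term with `⌊|α w - round (α w)| / |α|⌋ = m`. -/
private noncomputable def GGB_b (a : ℝ) (W m : ℕ) : ℝ :=
  if m = 0 then 2 * (W : ℝ) + 1 else 1 / (2 * m * a)

private theorem GGB_term (α : ℝ) (hα : α ≠ 0) (W : ℕ) (w : ℤ) :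
    ‖∑ v ∈ Icc (-(W : ℤ)) W, ee (α * w * v)‖ ≤
      GGB_b |α| W ⌊|α * w - round (α * w)| / |α|⌋₊ := by
  have ha : 0 < |α| := abs_pos.2 hα
  set m := ⌊|α * w - round (α * w)| / |α|⌋₊ with hm
  unfold GGB_b
  split_ifs with h0
  · exact GGB_inner_triv _ W
  · have hm1 : 1 ≤ m := Nat.one_le_iff_ne_zero.2 h0
    have hm2 : (m : ℝ) ≤ |α * w - round (α * w)| / |α| :=
      Nat.floor_le (div_nonneg (abs_nonneg _) ha.le)
    have hm3 : (m : ℝ) * |α| ≤ |α * w - round (α * w)| := by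
      rwa [le_div_iff₀ ha] at hm2
    have hmp : (0 : ℝ) < m := by exact_mod_cast hm1
    have h1 := GGB_inner (α * w) (round (α * w)) W (abs_sub_round _)
    have h2 : ‖∑ v ∈ Icc (-(W : ℤ)) W, ee (α * w * v)‖ * (4 * (m * |α|)) ≤ 2 :=
      (mul_le_mul_of_nonneg_left (by linarith) (norm_nonneg _)).trans h1
    have h3 : (0 : ℝ) < 2 * m * |α| := by positivity
    rw [le_div_iff₀ h3]
    linarith

private theorem GGB_inj (α : ℝ) (hα : α ≠ 0) (w w' : ℤ)
    (hn : round (α * w) = round (α * w'))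
    (hm : ⌊|α * w - round (α * w)| / |α|⌋₊ = ⌊|α * w' - round (α * w')| / |α|⌋₊)
    (hs : ((round (α * w) : ℤ) : ℝ) ≤ α * w ↔ ((round (α * w') : ℤ) : ℝ) ≤ α * w') : w = w' := by
  have ha : 0 < |α| := abs_pos.2 hα
  set n := round (α * w) with hn'
  rw [← hn] at hm hs
  set x := α * w - n with hx
  set y := α * w' - n with hy
  set m := ⌊|x| / |α|⌋₊ with hmx
  have h1 : (m : ℝ) ≤ |x| / |α| := Nat.floor_le (div_nonneg (abs_nonneg _) ha.le)
  have h2 : |x| / |α| < m + 1 := Nat.lt_floor_add_one _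
  have h3 : (m : ℝ) ≤ |y| / |α| := by
    rw [hm]
    exact Nat.floor_le (div_nonneg (abs_nonneg _) ha.le)
  have h4 : |y| / |α| < m + 1 := by
    rw [hm]
    exact Nat.lt_floor_add_one _
  rw [le_div_iff₀ ha] at h1 h3
  rw [div_lt_iff₀ ha] at h2 h4
  have h5 : |x - y| < |α| := by
    by_cases hc : (n : ℝ) ≤ α * w
    · have hc' := hs.1 hc
      have e1 : |x| = x := abs_of_nonneg (by linarith)
      have e2 : |y| = y := abs_of_nonneg (by linarith)
      rw [e1] at h1 h2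
      rw [e2] at h3 h4
      rw [abs_lt]
      constructor <;> linarith
    · have hc' : ¬ (n : ℝ) ≤ α * w' := fun h => hc (hs.2 h)
      push Not at hc hc'
      have e1 : |x| = -x := abs_of_nonpos (by linarith)
      have e2 : |y| = -y := abs_of_nonpos (by linarith)
      rw [e1] at h1 h2
      rw [e2] at h3 h4
      rw [abs_lt]
      constructor <;> linarith
  have h6 : x - y = α * ((w - w' : ℤ) : ℝ) := by
    rw [hx, hy]
    push_cast
    ring
  rw [h6, abs_mul] at h5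
  have h7 : |((w - w' : ℤ) : ℝ)| < 1 := by
    by_contra hc
    push Not at hc
    have := mul_le_mul_of_nonneg_left hc ha.le
    linarith
  have h8 : |w - w'| < 1 := by
    have : ((|w - w'| : ℤ) : ℝ) < 1 := by
      rw [Int.cast_abs]
      exact h7
    exact_mod_cast this
  rw [Int.abs_lt_one_iff] at h8
  omega

private theorem GGB_main (α : ℝ) (hα : α ≠ 0) (W : ℕ) :
    GG α W ≤ (2 * |α| * W + 2) * (2 * ∑ m ∈ range (⌊1 / (2 * |α|)⌋₊ + 1), GGB_b |α| W m) := by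
  classical
  have ha : 0 < |α| := abs_pos.2 hα
  set J := ⌊1 / (2 * |α|)⌋₊ with hJ
  set B := ⌊|α| * W + 1 / 2⌋₊ with hB
  have hb0 : ∀ m, 0 ≤ GGB_b |α| W m := by
    intro m
    unfold GGB_b
    split_ifs
    · positivity
    · positivity
  let key : ℤ → ℤ × ℕ × Bool := fun w =>
    (round (α * w), ⌊|α * w - round (α * w)| / |α|⌋₊,
      decide (((round (α * w) : ℤ) : ℝ) ≤ α * w))
  have hinj : Set.InjOn key (Icc (-(W : ℤ)) W : Finset ℤ) := by
    intro w _ w' _ h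
    simp only [key, Prod.mk.injEq, decide_eq_decide] at h
    exact GGB_inj α hα w w' h.1 h.2.1 h.2.2
  have hmaps : ∀ w ∈ Icc (-(W : ℤ)) W, key w ∈ (Icc (-(B : ℤ)) B) ×ˢ (range (J + 1) ×ˢ
      (Finset.univ : Finset Bool)) := by
    intro w hw
    rw [Finset.mem_Icc] at hw
    have hw' : |(w : ℝ)| ≤ W := by
      rw [abs_le]
      constructor
      · have := hw.1
        exact_mod_cast this
      · have := hw.2
        exact_mod_cast this
    have hr := abs_sub_round (α * w)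
    rw [Finset.mem_product, Finset.mem_product]
    refine ⟨?_, ?_, Finset.mem_univ _⟩
    · have h1 : |((round (α * w) : ℤ) : ℝ)| ≤ |α| * W + 1 / 2 := by
        have h2 : ((round (α * w) : ℤ) : ℝ) = α * w - (α * w - round (α * w)) := by ring
        rw [h2]
        refine (abs_sub _ _).trans ?_
        rw [abs_mul]
        have := mul_le_mul_of_nonneg_left hw' ha.le
        linarith
      have h3 : (round (α * w)).natAbs ≤ B := by
        rw [hB]
        refine Nat.le_floor ?_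
        rw [Nat.cast_natAbs]
        push_cast
        exact h1
      rw [Finset.mem_Icc]
      show -(B : ℤ) ≤ round (α * w) ∧ round (α * w) ≤ B
      omega
    · rw [Finset.mem_range]
      show ⌊|α * w - round (α * w)| / |α|⌋₊ < J + 1
      refine Nat.lt_succ_of_le (Nat.floor_le_floor ?_)
      rw [div_le_div_iff₀ ha (by positivity)]
      nlinarith
  have hstep : GG α W ≤ ∑ z ∈ (Icc (-(B : ℤ)) B) ×ˢ (range (J + 1) ×ˢ
      (Finset.univ : Finset Bool)), GGB_b |α| W z.2.1 := by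
    unfold GG
    calc ∑ w ∈ Icc (-(W : ℤ)) W, ‖∑ v ∈ Icc (-(W : ℤ)) W, ee (α * w * v)‖
        ≤ ∑ w ∈ Icc (-(W : ℤ)) W, GGB_b |α| W (key w).2.1 :=
          Finset.sum_le_sum fun w _ => GGB_term α hα W w
      _ = ∑ z ∈ (Icc (-(W : ℤ)) W).image key, GGB_b |α| W z.2.1 :=
          (Finset.sum_image (f := fun z : ℤ × ℕ × Bool => GGB_b |α| W z.2.1) hinj).symm
      _ ≤ _ := by
          refine Finset.sum_le_sum_of_subset_of_nonneg ?_ (fun z _ _ => hb0 _)
          intro z hz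
          obtain ⟨w, hw, rfl⟩ := Finset.mem_image.1 hz
          exact hmaps w hw
  refine hstep.trans ?_
  rw [Finset.sum_product]
  simp only [Finset.sum_product, Finset.sum_const, nsmul_eq_mul, Finset.card_univ,
    Fintype.card_bool, GGB_card, ← Finset.mul_sum]
  have hBle : (B : ℝ) ≤ |α| * W + 1 / 2 := Nat.floor_le (by positivity)
  have hsum : 0 ≤ ∑ m ∈ range (J + 1), GGB_b |α| W m := Finset.sum_nonneg fun m _ => hb0 m
  push_cast
  refine mul_le_mul_of_nonneg_right ?_ (by positivity)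
  linarith

theorem gg_bound : ∃ C : ℝ, 1 ≤ C ∧ ∀ (α Δ : ℝ) (W : ℕ), 1 ≤ W → 0 < Δ → Δ ≤ 1 / 2 → |α| ≤ Δ →
    1 ≤ Δ * W → 1 ≤ Δ * (W : ℝ) ^ 2 * |α| → GG α W ≤ C * Δ * (W : ℝ) ^ 2 * (1 + Real.log W) := by
  refine ⟨28, by norm_num, ?_⟩
  intro α Δ W hW hΔ hΔ2 haΔ h1 h2
  have hα : α ≠ 0 := by
    rintro rfl
    rw [abs_zero, mul_zero] at h2
    linarith
  have ha : 0 < |α| := abs_pos.2 hα
  have hW1 : (1 : ℝ) ≤ W := by exact_mod_cast hW
  have hL : 0 ≤ Real.log W := Real.log_nonneg hW1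
  refine (GGB_main α hα W).trans ?_
  set a := |α| with haa
  set J := ⌊1 / (2 * a)⌋₊ with hJ
  set L := Real.log W with hLL
  have hinv : 1 / a ≤ Δ * (W : ℝ) ^ 2 := by
    rw [div_le_iff₀ ha]
    exact h2
  have hJle : (J : ℝ) ≤ 1 / (2 * a) := Nat.floor_le (by positivity)
  have hJW : (J : ℝ) ≤ (W : ℝ) ^ 2 := by
    have e1 : 1 / (2 * a) = 1 / a / 2 := by ring
    have e2 : 0 < 1 / a := by positivity
    have e3 : Δ * (W : ℝ) ^ 2 ≤ 1 / 2 * (W : ℝ) ^ 2 :=
      mul_le_mul_of_nonneg_right hΔ2 (by positivity)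
    have e4 : 0 ≤ (W : ℝ) ^ 2 := by positivity
    rw [e1] at hJle
    linarith
  have hlogJ : Real.log J ≤ 2 * L := by
    rcases Nat.eq_zero_or_pos J with h0 | h0
    · rw [h0, Nat.cast_zero, Real.log_zero]
      linarith
    · have e1 : (0 : ℝ) < J := by exact_mod_cast h0
      have e2 := Real.log_le_log e1 hJW
      rw [Real.log_pow] at e2
      exact_mod_cast e2
  have hsum : ∑ m ∈ range (J + 1), GGB_b a W m ≤
      (2 * (W : ℝ) + 1) + 1 / a * (1 / 2 * (1 + 2 * L)) := by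
    rw [Finset.sum_range_succ']
    have e0 : GGB_b a W 0 = 2 * (W : ℝ) + 1 := by
      unfold GGB_b
      rw [if_pos rfl]
    have e1 : ∑ m ∈ range J, GGB_b a W (m + 1) = 1 / a * (1 / 2 * (harmonic J : ℝ)) := by
      rw [harmonic]
      push_cast
      rw [Finset.mul_sum, Finset.mul_sum]
      refine Finset.sum_congr rfl fun m _ => ?_
      unfold GGB_b
      rw [if_neg (Nat.succ_ne_zero m)]
      push_cast
      field_simp
    rw [e0, e1]
    have e2 : (harmonic J : ℝ) ≤ 1 + Real.log J := harmonic_le_one_add_log J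
    have e3 : (0 : ℝ) ≤ 1 / a := by positivity
    have e4 : 1 / 2 * (harmonic J : ℝ) ≤ 1 / 2 * (1 + 2 * L) := by linarith
    have e5 := mul_le_mul_of_nonneg_left e4 e3
    linarith
  have hfac : (0 : ℝ) ≤ 2 * a * W + 2 := by positivity
  refine (mul_le_mul_of_nonneg_left (mul_le_mul_of_nonneg_left hsum (by norm_num)) hfac).trans ?_
  have hexp : (2 * a * W + 2) * (2 * ((2 * (W : ℝ) + 1) + 1 / a * (1 / 2 * (1 + 2 * L)))) =
      4 * a * W * (2 * W + 1) + 2 * W * (1 + 2 * L) + 4 * (2 * W + 1) +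
        2 * (1 / a) * (1 + 2 * L) := by
    field_simp
    ring
  rw [hexp]
  set D := Δ * (W : ℝ) ^ 2 with hD
  have hWD : (W : ℝ) ≤ D := by
    have e1 := mul_le_mul_of_nonneg_right h1 (by positivity : (0 : ℝ) ≤ W)
    rw [hD]
    calc (W : ℝ) = 1 * W := (one_mul _).symm
      _ ≤ Δ * W * W := e1
      _ = Δ * (W : ℝ) ^ 2 := by ring
  have t1 : 4 * a * W * (2 * W + 1) ≤ 12 * D := by
    have e1 : 4 * a * W * (2 * W + 1) ≤ 4 * a * W * (3 * W) :=
      mul_le_mul_of_nonneg_left (by linarith) (by positivity)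
    have e2 : 4 * a * W * (3 * W) = 12 * (a * (W : ℝ) ^ 2) := by ring
    have e3 : a * (W : ℝ) ^ 2 ≤ D := mul_le_mul_of_nonneg_right haΔ (by positivity)
    linarith
  have hL2 : (0 : ℝ) ≤ 1 + 2 * L := by linarith
  have t2 : 2 * W * (1 + 2 * L) ≤ 2 * D * (1 + 2 * L) :=
    mul_le_mul_of_nonneg_right (by linarith) hL2
  have t3 : 4 * (2 * (W : ℝ) + 1) ≤ 12 * D := by linarith
  have t4 : 2 * (1 / a) * (1 + 2 * L) ≤ 2 * D * (1 + 2 * L) :=
    mul_le_mul_of_nonneg_right (by linarith) hL2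
  have hD0 : 0 ≤ D := by linarith
  have t5 : 28 * Δ * (W : ℝ) ^ 2 * (1 + L) = 28 * D + 28 * (D * L) := by
    rw [hD]
    ring
  have t6 : 2 * D * (1 + 2 * L) = 2 * D + 4 * (D * L) := by ring
  have t7 : 0 ≤ D * L := mul_nonneg hD0 hL
  rw [t5]
  rw [t6] at t2 t4
  linarith

end Pool.Agent.H97.VK

end

section

/-!
# MIX Defs: hypotheses of the strengthened theorem (windows `exp((log N)^θ)`)

* `VKw t1`: Vinogradov-Korobov for sums over residue classes, `z ≥ exp((log x)^t1)`;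
* `VKe t0`: exponential sums over integers, `K ≥ exp((log x)^t0)`;
* `CombX t t2`: the combinatorial theorem with the boost (project MIDX of helper74): `P ≥ exp((log N)^t)`, `Q = exp((log N)^t2)`.
-/

set_option autoImplicit false

namespace Pool.Agent.H53.MIX

open Finset
open Pool.Agent.H91.PK (ee)
open Pool.Agent.H91.EHA (Lam)
open Pool.Agent.H53.MID

/-- Vinogradov-Korobov for `Λ` in residue classes -/
def VKw (t1 : ℝ) : Prop := ∀ (K B : ℕ), ∃ K' x0 : ℕ, ∀ x : ℕ, x0 ≤ x →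
  ∀ (d u z : ℕ) (t : ℝ), 1 ≤ d → (d : ℝ) ≤ Real.log x ^ B → Real.exp (Real.log x ^ t1) ≤ z → z ≤ x ^ 2 →
    Real.log x ^ K' ≤ |t| → |t| ≤ (x : ℝ) ^ (2 : ℕ) →
    ‖∑ n ∈ (Icc 1 z).filter (fun n => n % d = u % d), ((Lam n : ℝ) : ℂ) * ee (t * Real.log n)‖
      ≤ z / Real.log x ^ K

/-- exponential sums `∑ (n+β)^{2πit}` over intervals in `[0, K]`, `K ≥ exp((log x)^t0)` -/
def VKe (t0 : ℝ) : Prop := ∀ A : ℕ, ∃ x0 : ℕ, ∀ x : ℕ, x0 ≤ x → ∀ (K a b : ℕ) (β t : ℝ),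
  Real.exp (Real.log x ^ t0) ≤ K → K ≤ x → b ≤ K → 0 ≤ β → β ≤ 1 → 1 ≤ |t| → |t| ≤ (x : ℝ) ^ (3 : ℕ) →
    ‖∑ n ∈ Ioc a b, ee (t * Real.log (n + β))‖ ≤ K * (100 / |t| + 1 / Real.log x ^ A)

/-- the combinatorial theorem with the boost -/
def CombX (t t2 : ℝ) : Prop := ∀ (C : ℝ), 1 ≤ C → ∀ C0 : ℕ, ∃ C1 N0 : ℕ, ∀ N : ℕ, N0 ≤ N →
  ∀ (n P : ℕ) (η : ℝ) (F0 G0 : Finset ℕ) (α β : ℕ → ℝ) (R0 : Finset (ℕ × ℕ × ℕ)),
    Real.exp (Real.log N ^ t) ≤ P → P ≤ N → n ≤ N → (N : ℝ) ^ (1 / 4 : ℝ) ≤ n → 0 < η →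
    η * Real.exp (Real.log N ^ t2) ^ 60 * (P : ℝ) ^ 3 ≤ 1 → Rel C n P (η * P) F0 G0 α β R0 →
    n * P / Real.log N ^ C0 ≤ (R0.card : ℝ) →
    ∃ (d b : ℕ) (T : ℝ) (F1 : Finset ℕ), 1 ≤ d ∧ (d : ℝ) ≤ Real.log N ^ C1 ∧
      |T| ≤ Real.exp (Real.log N ^ t2) ^ 20 * η * (n : ℝ) ^ 2 ∧ F1 ⊆ F0 ∧ n / Real.log N ^ C1 ≤ (F1.card : ℝ) ∧
      ∀ i ∈ F1, nz (α i - b / d - T / i) ≤ Real.exp (Real.log N ^ t2) ^ 13 * η

end Pool.Agent.H53.MIX

end

section

/-!
# MIX VkPrW: prime sums in classes for `P ≥ exp((log N)^t2)`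

Copy and adapt `Pool.Agent.H53.MID.vk_pr` (file `H53/MID/VkPr.lean`, complete): `VKw t1` at `x = N^2`: `exp((2L)^t1) ≤ exp(L^t2) ≤ P` for large `N` (`t1 < t2`), `|t| ≤ N^3 ≤ x^2`; prime powers: `≤ √(2P) log(2P)/log 2 ≤ P/(2 L^K)` since
`P ≥ exp(L^t2)`.
-/

set_option autoImplicit false

namespace Pool.Agent.H53.MIX

open Finset
open Pool.Agent.H91.PK (ee)
open Pool.Agent.H91.EHA (Lam)
open Pool.Agent.H35.W (pb)
open Pool.Agent.H53.MID

private theorem VkPrW_norm_ee (t : ℝ) : ‖ee t‖ = 1 := by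
  unfold ee
  have : (2 * Real.pi * t * Complex.I : ℂ) = ((2 * Real.pi * t : ℝ) : ℂ) * Complex.I := by
    push_cast
    ring
  rw [this, Complex.norm_exp_ofReal_mul_I]

/-- Abel summation with a decreasing weight -/
private theorem VkPrW_abel (a : ℕ → ℂ) (w : ℕ → ℝ) (P Q : ℕ) (hPQ : P + 1 ≤ Q) {M : ℝ}
    (hw : ∀ n, P + 1 ≤ n → n < Q → w (n + 1) ≤ w n) (hw0 : 0 ≤ w Q)
    (hS : ∀ z, P ≤ z → z ≤ Q → ‖∑ n ∈ Icc 1 z, a n‖ ≤ M) :
    ‖∑ n ∈ Ioc P Q, (w n : ℂ) * a n‖ ≤ 2 * M * w (P + 1) := by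
  have hT : ∀ z, P ≤ z → z ≤ Q → ‖∑ n ∈ Ioc P z, a n‖ ≤ 2 * M := by
    intro z hz hz'
    have h1 : ∑ n ∈ Icc 1 z, a n = ∑ n ∈ Icc 1 P, a n + ∑ n ∈ Ioc P z, a n := by
      have e1 : ∀ k : ℕ, Icc 1 k = Ioc 0 k := fun k => by
        ext x
        simp only [mem_Icc, mem_Ioc]
        omega
      rw [e1, e1, Finset.sum_Ioc_consecutive _ (Nat.zero_le _) hz]
    have h2 : ∑ n ∈ Ioc P z, a n = ∑ n ∈ Icc 1 z, a n - ∑ n ∈ Icc 1 P, a n := by
      rw [h1]
      ring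
    rw [h2]
    have h3 := hS z hz hz'
    have h4 := hS P le_rfl (by omega)
    exact (norm_sub_le _ _).trans (by linarith)
  have hM : 0 ≤ 2 * M := (norm_nonneg _).trans (hT P le_rfl (by omega))
  have key : ∀ q, P + 1 ≤ q → q ≤ Q →
      ‖∑ n ∈ Ioc P q, (w n : ℂ) * a n - (w q : ℂ) * ∑ n ∈ Ioc P q, a n‖ ≤
        2 * M * (w (P + 1) - w q) := by
    intro q hq
    induction q, hq using Nat.le_induction with
    | base =>
      intro _
      rw [Nat.Ioc_succ_singleton, Finset.sum_singleton, Finset.sum_singleton, sub_self, norm_zero,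
        sub_self, mul_zero]
    | succ q hq ih =>
      intro hqQ
      have h1 := ih (by omega)
      have e1 : Ioc P (q + 1) = insert (q + 1) (Ioc P q) := by
        ext x
        simp only [mem_Ioc, mem_insert]
        omega
      have e2 : q + 1 ∉ Ioc P q := by simp
      have h2 : ∑ n ∈ Ioc P (q + 1), (w n : ℂ) * a n - (w (q + 1) : ℂ) * ∑ n ∈ Ioc P (q + 1), a n =
          (∑ n ∈ Ioc P q, (w n : ℂ) * a n - (w q : ℂ) * ∑ n ∈ Ioc P q, a n) +
          ((w q - w (q + 1) : ℝ) : ℂ) * ∑ n ∈ Ioc P q, a n := by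
        rw [e1, Finset.sum_insert e2, Finset.sum_insert e2]
        push_cast
        ring
      rw [h2]
      have h3 : 0 ≤ w q - w (q + 1) := sub_nonneg.mpr (hw q hq (by omega))
      have h4 : ‖((w q - w (q + 1) : ℝ) : ℂ) * ∑ n ∈ Ioc P q, a n‖ ≤
          (w q - w (q + 1)) * (2 * M) := by
        rw [norm_mul, Complex.norm_real, Real.norm_eq_abs, abs_of_nonneg h3]
        exact mul_le_mul_of_nonneg_left (hT q (by omega) (by omega)) h3
      exact (norm_add_le _ _).trans (by linarith)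
  have h1 := key Q hPQ le_rfl
  have h2 := hT Q (by omega) le_rfl
  have h3 : ‖(w Q : ℂ) * ∑ n ∈ Ioc P Q, a n‖ ≤ w Q * (2 * M) := by
    rw [norm_mul, Complex.norm_real, Real.norm_eq_abs, abs_of_nonneg hw0]
    exact mul_le_mul_of_nonneg_left h2 hw0
  have h4 : ‖∑ n ∈ Ioc P Q, (w n : ℂ) * a n‖ ≤
      ‖∑ n ∈ Ioc P Q, (w n : ℂ) * a n - (w Q : ℂ) * ∑ n ∈ Ioc P Q, a n‖ +
      ‖(w Q : ℂ) * ∑ n ∈ Ioc P Q, a n‖ := by
    have h5 := norm_add_le (∑ n ∈ Ioc P Q, (w n : ℂ) * a n - (w Q : ℂ) * ∑ n ∈ Ioc P Q, a n)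
      ((w Q : ℂ) * ∑ n ∈ Ioc P Q, a n)
    rwa [sub_add_cancel] at h5
  linarith

/-- from von Mangoldt sums to prime sums -/
private theorem VkPrW_primes (P d l : ℕ) (hP : 3 ≤ P) (t M : ℝ)
    (hS : ∀ z, P ≤ z → z ≤ 2 * P → ‖∑ n ∈ (Icc 1 z).filter (fun n => n % d = l % d),
      ((Lam n : ℝ) : ℂ) * ee (-(t * Real.log n))‖ ≤ M) :
    ‖∑ p ∈ (pb P).filter (fun p => p % d = l % d), ee (-(t * Real.log p))‖ ≤
      2 * M + 2 * Real.sqrt (2 * P) * Real.log (2 * P) := by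
  classical
  set a : ℕ → ℂ := fun n => if n % d = l % d then ((Lam n : ℝ) : ℂ) * ee (-(t * Real.log n)) else 0
    with ha
  set w : ℕ → ℝ := fun n => 1 / Real.log n with hw
  have hlog1 : ∀ n : ℕ, P + 1 ≤ n → 1 ≤ Real.log n := by
    intro n hn
    have h1 : Real.exp 1 ≤ (n : ℝ) := by
      have h2 : (3 : ℝ) ≤ n := by exact_mod_cast (by omega : 3 ≤ n)
      linarith [Real.exp_one_lt_d9]
    have h3 := Real.log_le_log (Real.exp_pos 1) h1
    rwa [Real.log_exp] at h3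
  have hM : 0 ≤ M := (norm_nonneg _).trans (hS P le_rfl (by omega))
  have hA := VkPrW_abel a w P (2 * P) (by omega) (M := M)
    (fun n hn _ => by
      simp only [hw]
      apply one_div_le_one_div_of_le
      · linarith [hlog1 n hn]
      · apply Real.log_le_log
        · exact_mod_cast (by omega : 0 < n)
        · exact_mod_cast Nat.le_succ n)
    (by
      simp only [hw]
      have := hlog1 (2 * P) (by omega)
      positivity)
    (fun z hz hz' => by
      have h1 := hS z hz hz'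
      rw [Finset.sum_filter] at h1
      exact h1)
  have hwP : w (P + 1) ≤ 1 := by
    simp only [hw]
    rw [div_le_one (by linarith [hlog1 (P + 1) le_rfl])]
    exact hlog1 (P + 1) le_rfl
  have hA2 : ‖∑ n ∈ Ioc P (2 * P), (w n : ℂ) * a n‖ ≤ 2 * M := by
    refine hA.trans ?_
    have := mul_le_mul_of_nonneg_left hwP (show 0 ≤ 2 * M by linarith)
    linarith
  -- split into primes and non-primes
  have hsplit : ∑ n ∈ Ioc P (2 * P), (w n : ℂ) * a n =
      ∑ p ∈ (pb P).filter (fun p => p % d = l % d), ee (-(t * Real.log p)) +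
      ∑ n ∈ (Ioc P (2 * P)).filter (fun n => ¬ n.Prime), (w n : ℂ) * a n := by
    rw [← Finset.sum_filter_add_sum_filter_not (Ioc P (2 * P)) Nat.Prime]
    congr 1
    rw [Finset.sum_filter (s := pb P)]
    apply Finset.sum_congr rfl
    intro p hp
    rw [Finset.mem_filter, mem_Ioc] at hp
    simp only [ha, hw]
    by_cases h1 : p % d = l % d
    · rw [if_pos h1, if_pos h1]
      have h2 : Lam p = Real.log p := by
        unfold Lam
        exact ArithmeticFunction.vonMangoldt_apply_prime hp.2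
      have h3 := hlog1 p (by omega)
      have h4 : Real.log p ≠ 0 := by linarith
      rw [h2, ← mul_assoc, ← Complex.ofReal_mul, one_div, inv_mul_cancel₀ h4, Complex.ofReal_one,
        one_mul]
    · rw [if_neg h1, if_neg h1, mul_zero]
  have hnp : ‖∑ n ∈ (Ioc P (2 * P)).filter (fun n => ¬ n.Prime), (w n : ℂ) * a n‖ ≤
      2 * Real.sqrt (2 * P) * Real.log (2 * P) := by
    have h0 : ∀ n : ℕ, 0 ≤ Lam n := fun n => by
      unfold Lam
      exact ArithmeticFunction.vonMangoldt_nonneg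
    have h1 : ‖∑ n ∈ (Ioc P (2 * P)).filter (fun n => ¬ n.Prime), (w n : ℂ) * a n‖ ≤
        ∑ n ∈ (Ioc P (2 * P)).filter (fun n => ¬ n.Prime), Lam n := by
      apply norm_sum_le_of_le
      intro n hn
      rw [Finset.mem_filter, mem_Ioc] at hn
      have h2 := hlog1 n (by omega)
      simp only [ha, hw]
      by_cases h3 : n % d = l % d
      · rw [if_pos h3, norm_mul, norm_mul, VkPrW_norm_ee, mul_one, Complex.norm_real,
          Complex.norm_real, Real.norm_eq_abs, Real.norm_eq_abs, abs_of_nonneg (h0 n),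
          abs_of_nonneg (by positivity)]
        have h4 : 1 / Real.log n ≤ 1 := by
          rw [div_le_one (by linarith)]
          exact h2
        have := mul_le_mul_of_nonneg_right h4 (h0 n)
        linarith
      · rw [if_neg h3, mul_zero, norm_zero]
        exact h0 n
    have h2 : ∑ n ∈ (Ioc P (2 * P)).filter (fun n => ¬ n.Prime), Lam n ≤
        Chebyshev.psi ((2 * P : ℕ) : ℝ) - Chebyshev.theta ((2 * P : ℕ) : ℝ) := by
      rw [Chebyshev.psi_sub_theta_eq_sum_not_prime, Nat.floor_natCast]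
      apply Finset.sum_le_sum_of_subset_of_nonneg
      · apply Finset.filter_subset_filter
        intro x hx
        rw [mem_Ioc] at hx ⊢
        omega
      · intro n _ _
        exact h0 n
    have h3 := Chebyshev.psi_sub_theta_le (x := ((2 * P : ℕ) : ℝ)) (by exact_mod_cast (by omega : 1 ≤ 2 * P))
    push_cast at h2 h3
    linarith
  have hfin : ∑ p ∈ (pb P).filter (fun p => p % d = l % d), ee (-(t * Real.log p)) =
      ∑ n ∈ Ioc P (2 * P), (w n : ℂ) * a n -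
      ∑ n ∈ (Ioc P (2 * P)).filter (fun n => ¬ n.Prime), (w n : ℂ) * a n := by
    rw [hsplit]
    ring
  rw [hfin]
  exact (norm_sub_le _ _).trans (by linarith)

theorem vk_pr_w (t1 t2 : ℝ) (h0 : 0 < t1) (h12 : t1 < t2) (hVK : VKw t1) (K C' : ℕ) : ∃ K' N0 : ℕ, ∀ N : ℕ, N0 ≤ N →
    ∀ (P d l : ℕ) (t : ℝ), Real.exp (Real.log N ^ t2) ≤ P → P ≤ N → 1 ≤ d → (d : ℝ) ≤ Real.log N ^ C' →
    Real.log N ^ K' ≤ |t| → |t| ≤ (N : ℝ) ^ 3 →
    ‖∑ p ∈ (pb P).filter (fun p => p % d = l % d), ee (-(t * Real.log p))‖ ≤ P / Real.log N ^ K := by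
  have ht2 : 0 < t2 := h0.trans h12
  obtain ⟨K1, x0, hV⟩ := hVK (K + 1) C'
  have hlog : Filter.Tendsto (fun N : ℕ => Real.log N) Filter.atTop Filter.atTop :=
    Real.tendsto_log_atTop.comp tendsto_natCast_atTop_atTop
  have hlogp : Filter.Tendsto (fun N : ℕ => Real.log N ^ t2) Filter.atTop Filter.atTop :=
    (tendsto_rpow_atTop ht2).comp hlog
  have hsmall : ∀ᶠ N : ℕ in Filter.atTop, 12 * Real.log N ^ (K + 1) ≤
      Real.exp (Real.log N ^ t2 / 2) := by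
    have h1 := isLittleO_rpow_exp_pos_mul_atTop (((K + 1 : ℕ) : ℝ) / t2) (b := 1 / 2) (by norm_num)
    have h2 := (h1.comp_tendsto hlogp).def (c := 1 / 12) (by norm_num)
    filter_upwards [h2, hlog.eventually_ge_atTop 1] with N hN hN1
    simp only [Function.comp_apply] at hN
    have hL0 : 0 ≤ Real.log N := by linarith
    rw [← Real.rpow_mul hL0, mul_div_cancel₀ _ ht2.ne', Real.rpow_natCast, Real.norm_eq_abs,
      Real.norm_eq_abs, abs_of_nonneg (by positivity), abs_of_nonneg (by positivity)] at hN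
    have e : Real.log N ^ t2 / 2 = 1 / 2 * Real.log N ^ t2 := by ring
    rw [e]
    linarith
  have hbig : ∀ᶠ N : ℕ in Filter.atTop, (3 : ℝ) ≤ Real.exp (Real.log N ^ t2) :=
    (Real.tendsto_exp_atTop.comp hlogp).eventually_ge_atTop 3
  have htt : ∀ᶠ N : ℕ in Filter.atTop, (2 : ℝ) ^ t1 ≤ Real.log N ^ (t2 - t1) :=
    ((tendsto_rpow_atTop (sub_pos.2 h12)).comp hlog).eventually_ge_atTop _
  obtain ⟨N0, hN0⟩ := Filter.eventually_atTop.mp (hsmall.and (hbig.and (htt.and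
    ((hlog.eventually_ge_atTop 4).and ((hlog.eventually_ge_atTop (2 ^ K1)).and
    (Filter.eventually_ge_atTop (max x0 2)))))))
  refine ⟨K1 + 1, N0, ?_⟩
  intro N hN P d l t hP1 hP2 hd1 hd2 ht1 ht2'
  obtain ⟨h12', h3, htt', hL4, hLK, hNx⟩ := hN0 N hN
  have hN2 : 2 ≤ N := le_trans (le_max_right _ _) hNx
  have hNx0 : x0 ≤ N := le_trans (le_max_left _ _) hNx
  set L : ℝ := Real.log N with hL
  have hNr : (2 : ℝ) ≤ N := by exact_mod_cast hN2
  have hN0' : (0 : ℝ) < N := by linarith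
  have hPr3 : (3 : ℝ) ≤ P := h3.trans hP1
  have hP3 : 3 ≤ P := by exact_mod_cast hPr3
  have hPr0 : (0 : ℝ) < P := by linarith
  have hx : x0 ≤ N ^ 2 := hNx0.trans (Nat.le_self_pow (by norm_num) N)
  have hlogx : Real.log ((N ^ 2 : ℕ) : ℝ) = 2 * L := by
    rw [Nat.cast_pow, Real.log_pow]
    push_cast
    rfl
  have hxe : Real.exp ((2 * L) ^ t1) ≤ P := by
    refine le_trans (Real.exp_le_exp.2 ?_) hP1
    rw [Real.mul_rpow (by norm_num) (by linarith)]
    calc (2 : ℝ) ^ t1 * L ^ t1 ≤ L ^ (t2 - t1) * L ^ t1 :=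
          mul_le_mul_of_nonneg_right htt' (by positivity)
      _ = L ^ t2 := by
          rw [← Real.rpow_add (by linarith)]
          congr 1
          ring
  have hV2 := hV (N ^ 2) hx
  rw [hlogx] at hV2
  have hpow1 : L ^ C' ≤ (2 * L) ^ C' := pow_le_pow_left₀ (by linarith) (by linarith) C'
  have hpow2 : (2 * L) ^ K1 ≤ |t| := by
    calc (2 * L) ^ K1 = 2 ^ K1 * L ^ K1 := by rw [mul_pow]
      _ ≤ L * L ^ K1 := mul_le_mul_of_nonneg_right hLK (by positivity)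
      _ = L ^ (K1 + 1) := by ring
      _ ≤ |t| := ht1
  have hpow3 : |t| ≤ (((N ^ 2 : ℕ) : ℝ)) ^ (2 : ℕ) := by
    refine ht2'.trans ?_
    rw [Nat.cast_pow, ← pow_mul]
    exact pow_le_pow_right₀ (by linarith) (by norm_num)
  have hS : ∀ z, P ≤ z → z ≤ 2 * P → ‖∑ n ∈ (Icc 1 z).filter (fun n => n % d = l % d),
      ((Lam n : ℝ) : ℂ) * ee (-(t * Real.log n))‖ ≤ 2 * P / (2 * L) ^ (K + 1) := by
    intro z hz hz'
    have hzr : (P : ℝ) ≤ z := by exact_mod_cast hz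
    have hzr' : (z : ℝ) ≤ 2 * P := by exact_mod_cast hz'
    have hzx : z ≤ (N ^ 2) ^ 2 := by
      have h1 : z ≤ N ^ 2 := by nlinarith
      exact h1.trans (Nat.le_self_pow (by norm_num) _)
    have h1 := hV2 d l z (-t) hd1 (hd2.trans hpow1) (hxe.trans hzr) hzx (by rwa [abs_neg])
      (by rwa [abs_neg])
    simp only [neg_mul] at h1
    refine h1.trans ?_
    exact div_le_div_of_nonneg_right hzr' (by positivity)
  have hmain := VkPrW_primes P d l hP3 t _ hS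
  refine hmain.trans ?_
  have hL0 : 0 < L := by linarith
  have hLK0 : 0 < L ^ K := by positivity
  have e1' : 2 * (2 * P / (2 * L) ^ (K + 1)) ≤ P / L ^ K / 2 := by
    have h1 : (2 * L) ^ (K + 1) = 2 ^ K * (2 * L) * L ^ K := by
      rw [mul_pow]
      ring
    have h2 : 8 * L ^ K ≤ (2 * L) ^ (K + 1) := by
      rw [h1]
      have h3 : (1 : ℝ) ≤ 2 ^ K := one_le_pow₀ (by norm_num)
      have h4 : 8 ≤ 2 ^ K * (2 * L) := by nlinarith
      exact mul_le_mul_of_nonneg_right h4 hLK0.le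
    have h5 : 2 * (2 * P / (2 * L) ^ (K + 1)) ≤ 4 * P / (8 * L ^ K) := by
      rw [← mul_div_assoc]
      have h6 : 2 * (2 * (P : ℝ)) = 4 * P := by ring
      rw [h6]
      exact div_le_div_of_nonneg_left (by positivity) (by positivity) h2
    refine h5.trans (le_of_eq ?_)
    field_simp
    ring
  have e2' : 2 * Real.sqrt (2 * P) * Real.log (2 * P) ≤ P / L ^ K / 2 := by
    have hlog2P : Real.log (2 * P) ≤ 2 * L := by
      have h1 : (2 : ℝ) * P ≤ (N : ℝ) ^ 2 := by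
        have : (P : ℝ) ≤ N := by exact_mod_cast hP2
        nlinarith
      have h2 := Real.log_le_log (by positivity) h1
      rw [Real.log_pow] at h2
      push_cast at h2
      exact h2
    have hsq : Real.sqrt (2 * P) ≤ 3 / 2 * Real.sqrt P := by
      rw [Real.sqrt_le_left (by positivity), mul_pow, Real.sq_sqrt hPr0.le]
      linarith
    have hsP : Real.exp (L ^ t2 / 2) ≤ Real.sqrt P := by
      apply Real.le_sqrt_of_sq_le
      rw [← Real.exp_nat_mul]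
      have : ((2 : ℕ) : ℝ) * (L ^ t2 / 2) = L ^ t2 := by push_cast; ring
      rw [this]
      exact hP1
    have hsP0 : 0 ≤ Real.sqrt P := Real.sqrt_nonneg _
    have hlog0 : 0 ≤ Real.log (2 * P) := Real.log_nonneg (by linarith)
    have h1 : 2 * Real.sqrt (2 * P) * Real.log (2 * P) ≤ 2 * (3 / 2 * Real.sqrt P) * (2 * L) := by
      apply mul_le_mul (by linarith) hlog2P hlog0 (by positivity)
    have h2 : 12 * L ^ (K + 1) ≤ Real.sqrt P := h12'.trans hsP
    rw [div_div, le_div_iff₀ (by positivity)]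
    calc 2 * Real.sqrt (2 * P) * Real.log (2 * P) * (L ^ K * 2)
        ≤ 2 * (3 / 2 * Real.sqrt P) * (2 * L) * (L ^ K * 2) :=
          mul_le_mul_of_nonneg_right h1 (by positivity)
      _ = (12 * L ^ (K + 1)) * Real.sqrt P := by ring
      _ ≤ Real.sqrt P * Real.sqrt P := mul_le_mul_of_nonneg_right h2 hsP0
      _ = P := Real.mul_self_sqrt hPr0.le
  linarith

end Pool.Agent.H53.MIX

end

section

/-!
# TPS DefsF: twisted Siegel-Walfisz condition for a general coefficient function `f` on `(N/(16P), 12N/P]`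
-/

set_option autoImplicit false

namespace Pool.Agent.H53.TPS

open Finset
open Pool.Agent.H91.PK (ee)

/-- all twisted sums of `f` over `(N/(16P), 12N/P]` with small denominators and small `t` are small -/
def SWf (f : ℕ → ℝ) (N P C' m k : ℕ) : Prop := ∀ (c b : ℕ) (t : ℝ), 1 ≤ c → (c : ℝ) ≤ Real.log N ^ C' → |t| ≤ Real.log N ^ m →
  ‖∑ n ∈ Ioc (N / (16 * P)) (12 * N / P), (f n : ℂ) * ee (-((n : ℝ) * ((b : ℝ) / c))) * ee (-(t * Real.log n))‖
    ≤ (N / P : ℝ) / Real.log N ^ k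

end Pool.Agent.H53.TPS

end

section

/-!
# MID Fac: factorisation of the twisted Dirichlet polynomial into residue classes

`Pl P d l s = ∑_{p ∈ pb P, p ≡ l (d)} ee(-s log p)`, `Kl f K1 K2 a s = ∑_{K1 < k ≤ K2} f k ee(-k a) ee(-s log k)`.
`fac`: for `2 P K2 ≤ X`, `1 ≤ d`: `Cs (cc (cut K1 K2 f) P (b/d) T) X t = ∑_{l < d} Pl P d l (T+t) Kl f K1 K2 (l b/d) (T+t)`.
Proof.  `m = p k`: `Cs = ∑_{m ≤ X} ∑_{p ∈ pb P, p ∣ m} cut f (m/p) ee(-m b/d) ee(-(T+t) log m) = ∑_{p ∈ pb P} ∑_{k ∈ Ioc K1 K2} f k ee(-p k b/d) ee(-(T+t) log p) ee(-(T+t) log k)`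
(`k ↦ p k` is a bijection onto the multiples of `p` in `[1, X]` with `K1 < m/p ≤ K2`, since `p K2 ≤ 2 P K2 ≤ X`), and `ee(-p k b/d) = ee(-l k b/d)` for `p ≡ l (d)`.
`fac_sq`: Cauchy-Schwarz.
-/

set_option autoImplicit false

namespace Pool.Agent.H53.MID

open Finset
open Pool.Agent.H91.PK (ee)
open Pool.Agent.H35.W (pb)

noncomputable def Pl (P d l : ℕ) (s : ℝ) : ℂ := ∑ p ∈ (pb P).filter (fun p => p % d = l % d), ee (-(s * Real.log p))

noncomputable def Kl (f : ℕ → ℝ) (K1 K2 : ℕ) (a s : ℝ) : ℂ :=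
  ∑ k ∈ Ioc K1 K2, (f k : ℂ) * ee (-(k * a)) * ee (-(s * Real.log k))

private theorem Fac_ee_add (a b : ℝ) : ee (a + b) = ee a * ee b := by
  unfold ee
  rw [← Complex.exp_add]
  congr 1
  push_cast
  ring

private theorem Fac_ee_int (n : ℤ) : ee (n : ℝ) = 1 := by
  unfold ee
  have h : 2 * (Real.pi : ℂ) * ((n : ℝ) : ℂ) * Complex.I = n * (2 * Real.pi * Complex.I) := by
    push_cast
    ring
  rw [h]
  exact Complex.exp_int_mul_two_pi_mul_I n

private theorem Fac_class {p l d k b : ℕ} (hd : 1 ≤ d) (h : p % d = l % d) :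
    ee (-(((p * k : ℕ) : ℝ) * ((b : ℝ) / d))) = ee (-((k : ℝ) * ((l : ℝ) * b / d))) := by
  have hd0 : (d : ℝ) ≠ 0 := by
    have : d ≠ 0 := by omega
    exact_mod_cast this
  have hdvd : (d : ℤ) ∣ (l : ℤ) - p := (Nat.modEq_iff_dvd).mp h
  obtain ⟨q, hq⟩ := hdvd
  have hq' : (l : ℝ) - p = d * q := by exact_mod_cast hq
  have h1 : -(((p * k : ℕ) : ℝ) * ((b : ℝ) / d)) =
      -((k : ℝ) * ((l : ℝ) * b / d)) + ((k * q * b : ℤ) : ℝ) := by
    have hp : (p : ℝ) = l - d * q := by linarith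
    push_cast
    rw [hp]
    field_simp
    ring
  rw [h1, Fac_ee_add, Fac_ee_int, mul_one]

private theorem Fac_p (f : ℕ → ℝ) (E : ℕ → ℂ) {p K1 K2 X P : ℕ} (hp : 1 ≤ p) (hp2 : p ≤ 2 * P)
    (hX : 2 * P * K2 ≤ X) :
    ∑ m ∈ (Icc 1 X).filter (fun m => p ∣ m), ((cut K1 K2 f (m / p) : ℝ) : ℂ) * E m =
      ∑ k ∈ Ioc K1 K2, ((f k : ℝ) : ℂ) * E (p * k) := by
  classical
  have hinj : Set.InjOn (fun k => p * k) (Ioc K1 K2 : Set ℕ) := by
    intro a _ b _ hab
    exact Nat.eq_of_mul_eq_mul_left (by omega) hab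
  have h1 : ∑ k ∈ Ioc K1 K2, ((f k : ℝ) : ℂ) * E (p * k) =
      ∑ m ∈ (Ioc K1 K2).image (fun k => p * k), ((cut K1 K2 f (m / p) : ℝ) : ℂ) * E m := by
    rw [Finset.sum_image hinj]
    refine Finset.sum_congr rfl fun k hk => ?_
    have h2 : p * k / p = k := Nat.mul_div_cancel_left k (by omega)
    simp only [h2, cut, if_pos hk]
  rw [h1]
  symm
  apply Finset.sum_subset
  · intro m hm
    rw [Finset.mem_image] at hm
    obtain ⟨k, hk, rfl⟩ := hm
    rw [Finset.mem_Ioc] at hk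
    rw [Finset.mem_filter, Finset.mem_Icc]
    refine ⟨⟨?_, ?_⟩, Dvd.intro _ rfl⟩
    · have : 1 ≤ k := by omega
      exact Nat.one_le_iff_ne_zero.mpr (Nat.mul_ne_zero (by omega) (by omega))
    · exact (Nat.mul_le_mul hp2 hk.2).trans hX
  · intro m hm hm'
    rw [Finset.mem_filter] at hm
    obtain ⟨k, rfl⟩ := hm.2
    have h2 : p * k / p = k := Nat.mul_div_cancel_left k (by omega)
    have hk : k ∉ Ioc K1 K2 := fun hk => hm' (Finset.mem_image.mpr ⟨k, hk, rfl⟩)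
    simp only [h2, cut, if_neg hk, Complex.ofReal_zero, zero_mul]

private theorem Fac_log {p k : ℕ} (s : ℝ) (hp : 1 ≤ p) (hk : 1 ≤ k) :
    ee (-(s * Real.log ((p * k : ℕ) : ℝ))) =
      ee (-(s * Real.log p)) * ee (-(s * Real.log k)) := by
  have hp0 : (p : ℝ) ≠ 0 := by
    have : p ≠ 0 := by omega
    exact_mod_cast this
  have hk0 : (k : ℝ) ≠ 0 := by
    have : k ≠ 0 := by omega
    exact_mod_cast this
  rw [← Fac_ee_add]
  congr 1
  push_cast
  rw [Real.log_mul hp0 hk0]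
  ring

theorem fac (f : ℕ → ℝ) (P K1 K2 X d b : ℕ) (T t : ℝ) (hd : 1 ≤ d) (hX : 2 * P * K2 ≤ X) :
    Cs (cc (cut K1 K2 f) P ((b : ℝ) / d) T) X t =
      ∑ l ∈ range d, Pl P d l (T + t) * Kl f K1 K2 ((l : ℝ) * b / d) (T + t) := by
  classical
  have hpb : ∀ p ∈ pb P, 1 ≤ p ∧ p ≤ 2 * P := by
    intro p hp
    unfold pb at hp
    rw [Finset.mem_filter, Finset.mem_Ioc] at hp
    omega
  -- the sum over `m`
  have h1 : Cs (cc (cut K1 K2 f) P ((b : ℝ) / d) T) X t =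
      ∑ m ∈ Icc 1 X, ∑ p ∈ (pb P).filter (fun p => p ∣ m), ((cut K1 K2 f (m / p) : ℝ) : ℂ) *
        (ee (-((m : ℝ) * ((b : ℝ) / d))) * ee (-((T + t) * Real.log m))) := by
    unfold Cs
    refine Finset.sum_congr rfl fun m _ => ?_
    unfold cc Fp
    have h2 : ee (-((T + t) * Real.log m)) = ee (-(T * Real.log m)) * ee (-(t * Real.log m)) := by
      rw [← Fac_ee_add]
      congr 1
      ring
    rw [← Finset.sum_mul, h2]
    push_cast
    ring
  -- swap
  have h3 : Cs (cc (cut K1 K2 f) P ((b : ℝ) / d) T) X t =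
      ∑ p ∈ pb P, ∑ k ∈ Ioc K1 K2, ((f k : ℝ) : ℂ) *
        (ee (-(((p * k : ℕ) : ℝ) * ((b : ℝ) / d))) * ee (-((T + t) * Real.log ((p * k : ℕ) : ℝ)))) := by
    rw [h1]
    have h4 : ∀ m ∈ Icc 1 X, ∑ p ∈ (pb P).filter (fun p => p ∣ m),
        ((cut K1 K2 f (m / p) : ℝ) : ℂ) *
          (ee (-((m : ℝ) * ((b : ℝ) / d))) * ee (-((T + t) * Real.log m))) =
        ∑ p ∈ pb P, if p ∣ m then ((cut K1 K2 f (m / p) : ℝ) : ℂ) *
          (ee (-((m : ℝ) * ((b : ℝ) / d))) * ee (-((T + t) * Real.log m))) else 0 := by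
      intro m _
      rw [Finset.sum_filter]
    rw [Finset.sum_congr rfl h4, Finset.sum_comm]
    refine Finset.sum_congr rfl fun p hp => ?_
    rw [← Finset.sum_filter]
    exact Fac_p f (fun m => ee (-((m : ℝ) * ((b : ℝ) / d))) * ee (-((T + t) * Real.log m)))
      (hpb p hp).1 (hpb p hp).2 hX
  rw [h3]
  -- the classes
  have h5 : ∀ l ∈ range d, Pl P d l (T + t) * Kl f K1 K2 ((l : ℝ) * b / d) (T + t) =
      ∑ p ∈ (pb P).filter (fun p => p % d = l), ∑ k ∈ Ioc K1 K2, ((f k : ℝ) : ℂ) *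
        (ee (-(((p * k : ℕ) : ℝ) * ((b : ℝ) / d))) *
          ee (-((T + t) * Real.log ((p * k : ℕ) : ℝ)))) := by
    intro l hl
    have hl' : l % d = l := Nat.mod_eq_of_lt (Finset.mem_range.mp hl)
    unfold Pl Kl
    rw [hl', Finset.sum_mul]
    refine Finset.sum_congr rfl fun p hp => ?_
    rw [Finset.mem_filter] at hp
    rw [Finset.mul_sum]
    refine Finset.sum_congr rfl fun k hk => ?_
    rw [Finset.mem_Ioc] at hk
    rw [Fac_class hd (hp.2.trans hl'.symm), Fac_log (T + t) (hpb p hp.1).1 (by omega)]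
    ring
  rw [Finset.sum_congr rfl h5]
  rw [Finset.sum_fiberwise_of_maps_to (s := pb P) (t := range d) (g := fun p => p % d)
    (fun p _ => Finset.mem_range.mpr (Nat.mod_lt _ (by omega)))
    (fun p => ∑ k ∈ Ioc K1 K2, ((f k : ℝ) : ℂ) *
        (ee (-(((p * k : ℕ) : ℝ) * ((b : ℝ) / d))) *
          ee (-((T + t) * Real.log ((p * k : ℕ) : ℝ)))))]

theorem fac_sq (f : ℕ → ℝ) (P K1 K2 X d b : ℕ) (T t : ℝ) (hd : 1 ≤ d) (hX : 2 * P * K2 ≤ X) :
    ‖Cs (cc (cut K1 K2 f) P ((b : ℝ) / d) T) X t‖ ^ 2 ≤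
      d * ∑ l ∈ range d, ‖Pl P d l (T + t)‖ ^ 2 * ‖Kl f K1 K2 ((l : ℝ) * b / d) (T + t)‖ ^ 2 := by
  rw [fac f P K1 K2 X d b T t hd hX]
  have h1 : ‖∑ l ∈ range d, Pl P d l (T + t) * Kl f K1 K2 ((l : ℝ) * b / d) (T + t)‖ ≤
      ∑ l ∈ range d, ‖Pl P d l (T + t)‖ * ‖Kl f K1 K2 ((l : ℝ) * b / d) (T + t)‖ := by
    refine (norm_sum_le _ _).trans (le_of_eq ?_)
    refine Finset.sum_congr rfl fun l _ => norm_mul _ _
  have h2 := sq_sum_le_card_mul_sum_sq (s := range d)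
    (f := fun l => ‖Pl P d l (T + t)‖ * ‖Kl f K1 K2 ((l : ℝ) * b / d) (T + t)‖)
  rw [Finset.card_range] at h2
  refine (pow_le_pow_left₀ (norm_nonneg _) h1 2).trans (h2.trans (le_of_eq ?_))
  congr 1
  refine Finset.sum_congr rfl fun l _ => mul_pow _ _ _

end Pool.Agent.H53.MID

end

section

/-!
# W MeanV: mean value theorem for Dirichlet polynomials (elementary)

Proof.  Expand: `∫_{-T}^T ‖∑‖^2 = ∑_{m,m'} a_m conj(a_m') (m m')^{-1/2} ∫_{-T}^T (m/m')^{it} dt`; the diagonal gives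
`2T ∑ |a_m|^2/m`; for `m ≠ m'` the integral is `≤ 2/|log(m/m')| ≤ 2 X/|m - m'|` in absolute value
(`|log(m/m')| ≥ |m-m'|/max(m,m')`), `|a_m a_m'| (m m')^{-1/2} ≤ (|a_m|^2/m + |a_m'|^2/m')/2`, and
`∑_{m' ≠ m, m' ≤ X} 1/|m-m'| ≤ 2 (1 + log X)`.
-/

set_option autoImplicit false

namespace Pool.Agent.H35.W

open Finset MeasureTheory

/-- the integral of a character -/
private theorem mv_int (T c : ℝ) (hc : c ≠ 0) :
    ‖∫ t in (-T)..T, Complex.exp ((c * Complex.I) * (t : ℂ))‖ ≤ 2 / |c| := by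
  have hc' : (c * Complex.I : ℂ) ≠ 0 := by
    simp [hc]
  rw [integral_exp_mul_complex hc', norm_div]
  have h1 : ‖(c * Complex.I : ℂ)‖ = |c| := by simp
  rw [h1]
  refine div_le_div_of_nonneg_right ?_ (abs_nonneg _)
  have e : ∀ s : ℝ, ‖Complex.exp ((c * Complex.I) * (s : ℂ))‖ = 1 := by
    intro s
    have : (c * Complex.I) * (s : ℂ) = ((c * s : ℝ) : ℂ) * Complex.I := by push_cast; ring
    rw [this, Complex.norm_exp_ofReal_mul_I]
  refine (norm_sub_le _ _).trans ?_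
  rw [e, e]
  norm_num

/-- expansion of the mean square -/
private theorem mv_expand (b : ℕ → ℂ) (l : ℕ → ℝ) (S : Finset ℕ) (T : ℝ) :
    ∫ t in (-T)..T, ‖∑ m ∈ S, b m * Complex.exp ((l m * Complex.I) * (t : ℂ))‖ ^ 2
      ≤ ∑ m ∈ S, ∑ n ∈ S, ‖b m‖ * ‖b n‖ *
        ‖∫ t in (-T)..T, Complex.exp ((((l m - l n : ℝ) : ℂ) * Complex.I) * (t : ℂ))‖ := by
  have hpt : ∀ t : ℝ, ((‖∑ m ∈ S, b m * Complex.exp ((l m * Complex.I) * (t : ℂ))‖ ^ 2 : ℝ) : ℂ)
      = ∑ m ∈ S, ∑ n ∈ S, b m * (starRingEnd ℂ) (b n) *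
        Complex.exp ((((l m - l n : ℝ) : ℂ) * Complex.I) * (t : ℂ)) := by
    intro t
    rw [← Complex.normSq_eq_norm_sq, ← Complex.mul_conj, map_sum, Finset.sum_mul_sum]
    refine Finset.sum_congr rfl fun m _ => Finset.sum_congr rfl fun n _ => ?_
    rw [map_mul, ← Complex.exp_conj]
    have : (starRingEnd ℂ) ((l n * Complex.I) * (t : ℂ)) = -((l n * Complex.I) * (t : ℂ)) := by
      simp
    rw [this]
    have e : Complex.exp ((((l m - l n : ℝ) : ℂ) * Complex.I) * (t : ℂ)) =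
        Complex.exp ((l m * Complex.I) * (t : ℂ)) * Complex.exp (-((l n * Complex.I) * (t : ℂ))) := by
      rw [← Complex.exp_add]
      congr 1
      push_cast
      ring
    rw [e]
    ring
  have hcont : ∀ c : ℝ, Continuous fun t : ℝ => Complex.exp ((c * Complex.I) * (t : ℂ)) := by
    intro c
    fun_prop
  have hint : ((∫ t in (-T)..T, ‖∑ m ∈ S, b m * Complex.exp ((l m * Complex.I) * (t : ℂ))‖ ^ 2 : ℝ) : ℂ)
      = ∑ m ∈ S, ∑ n ∈ S, b m * (starRingEnd ℂ) (b n) *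
        ∫ t in (-T)..T, Complex.exp ((((l m - l n : ℝ) : ℂ) * Complex.I) * (t : ℂ)) := by
    rw [← intervalIntegral.integral_ofReal]
    have : (fun t : ℝ => ((‖∑ m ∈ S, b m * Complex.exp ((l m * Complex.I) * (t : ℂ))‖ ^ 2 : ℝ) : ℂ))
        = fun t : ℝ => ∑ m ∈ S, ∑ n ∈ S, b m * (starRingEnd ℂ) (b n) *
        Complex.exp ((((l m - l n : ℝ) : ℂ) * Complex.I) * (t : ℂ)) := funext hpt
    rw [intervalIntegral.integral_congr (g := fun t : ℝ => ∑ m ∈ S, ∑ n ∈ S,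
      b m * (starRingEnd ℂ) (b n) *
        Complex.exp ((((l m - l n : ℝ) : ℂ) * Complex.I) * (t : ℂ))) (fun t _ => hpt t)]
    rw [intervalIntegral.integral_finsetSum]
    · refine Finset.sum_congr rfl fun m _ => ?_
      rw [intervalIntegral.integral_finsetSum]
      · refine Finset.sum_congr rfl fun n _ => ?_
        rw [intervalIntegral.integral_const_mul]
      · intro n _
        exact ((hcont _).const_mul _).intervalIntegrable _ _
    · intro m _
      refine Continuous.intervalIntegrable ?_ _ _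
      refine continuous_finsetSum _ fun n _ => ?_
      exact continuous_const.mul (hcont _)
  have hn : ∫ t in (-T)..T, ‖∑ m ∈ S, b m * Complex.exp ((l m * Complex.I) * (t : ℂ))‖ ^ 2 ≤
      ‖((∫ t in (-T)..T, ‖∑ m ∈ S, b m * Complex.exp ((l m * Complex.I) * (t : ℂ))‖ ^ 2 : ℝ) : ℂ)‖ := by
    rw [Complex.norm_real]
    exact le_abs_self _
  refine hn.trans ?_
  rw [hint]
  refine (norm_sum_le _ _).trans (Finset.sum_le_sum fun m _ => ?_)
  refine (norm_sum_le _ _).trans (Finset.sum_le_sum fun n _ => ?_)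
  rw [norm_mul, norm_mul, Complex.norm_conj]

/-- harmonic bound -/
private theorem mv_harm (X : ℕ) : ∑ i ∈ range X, (1 : ℝ) / ((i : ℝ) + 1) ≤ 1 + Real.log X := by
  have h := harmonic_le_one_add_log X
  have e : ((harmonic X : ℚ) : ℝ) = ∑ i ∈ range X, (1 : ℝ) / ((i : ℝ) + 1) := by
    unfold harmonic
    push_cast
    exact Finset.sum_congr rfl fun i _ => by rw [one_div]
  linarith

private theorem mv_row (X m : ℕ) (hm : m ∈ Icc 1 X) :
    ∑ n ∈ (Icc 1 X).filter (fun n => n ≠ m), (1 : ℝ) / |(m : ℝ) - n| ≤ 2 * (1 + Real.log X) := by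
  have hm' := Finset.mem_Icc.1 hm
  have hsplit : (Icc 1 X).filter (fun n => n ≠ m) =
      (Icc 1 X).filter (fun n => n < m) ∪ (Icc 1 X).filter (fun n => m < n) := by
    ext n
    simp only [Finset.mem_filter, Finset.mem_union, Finset.mem_Icc]
    omega
  have hdisj : Disjoint ((Icc 1 X).filter (fun n => n < m)) ((Icc 1 X).filter (fun n => m < n)) := by
    rw [Finset.disjoint_left]
    intro n h1 h2
    have := (Finset.mem_filter.1 h1).2
    have := (Finset.mem_filter.1 h2).2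
    omega
  rw [hsplit, Finset.sum_union hdisj]
  have h1 : ∑ n ∈ (Icc 1 X).filter (fun n => n < m), (1 : ℝ) / |(m : ℝ) - n| ≤ 1 + Real.log X := by
    refine le_trans ?_ (mv_harm X)
    have hinj : Set.InjOn (fun n => m - n - 1) ((Icc 1 X).filter (fun n => n < m) : Finset ℕ) := by
      intro a ha b hb hab
      have ha' := (Finset.mem_filter.1 (Finset.mem_coe.1 ha)).2
      have hb' := (Finset.mem_filter.1 (Finset.mem_coe.1 hb)).2
      simp only at hab
      omega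
    have hsub : ((Icc 1 X).filter (fun n => n < m)).image (fun n => m - n - 1) ⊆ range X := by
      intro k hk
      obtain ⟨n, hn, rfl⟩ := Finset.mem_image.1 hk
      have hn' := Finset.mem_filter.1 hn
      have := Finset.mem_Icc.1 hn'.1
      rw [Finset.mem_range]
      omega
    calc ∑ n ∈ (Icc 1 X).filter (fun n => n < m), (1 : ℝ) / |(m : ℝ) - n|
        = ∑ n ∈ (Icc 1 X).filter (fun n => n < m), (1 : ℝ) / (((m - n - 1 : ℕ) : ℝ) + 1) := by
          refine Finset.sum_congr rfl fun n hn => ?_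
          have hn' := (Finset.mem_filter.1 hn).2
          have e : ((m - n - 1 : ℕ) : ℝ) + 1 = (m : ℝ) - n := by
            have : m - n - 1 + 1 + n = m := by omega
            have h3 : (((m - n - 1 + 1 + n : ℕ)) : ℝ) = (m : ℝ) := by rw [this]
            push_cast at h3
            linarith
          rw [e, abs_of_pos]
          have : (n : ℝ) < m := by exact_mod_cast hn'
          linarith
      _ = ∑ k ∈ ((Icc 1 X).filter (fun n => n < m)).image (fun n => m - n - 1),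
            (1 : ℝ) / ((k : ℝ) + 1) := by
          rw [Finset.sum_image hinj]
      _ ≤ ∑ i ∈ range X, (1 : ℝ) / ((i : ℝ) + 1) :=
          Finset.sum_le_sum_of_subset_of_nonneg hsub fun i _ _ => by positivity
  have h2 : ∑ n ∈ (Icc 1 X).filter (fun n => m < n), (1 : ℝ) / |(m : ℝ) - n| ≤ 1 + Real.log X := by
    refine le_trans ?_ (mv_harm X)
    have hinj : Set.InjOn (fun n => n - m - 1) ((Icc 1 X).filter (fun n => m < n) : Finset ℕ) := by
      intro a ha b hb hab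
      have ha' := (Finset.mem_filter.1 (Finset.mem_coe.1 ha)).2
      have hb' := (Finset.mem_filter.1 (Finset.mem_coe.1 hb)).2
      simp only at hab
      omega
    have hsub : ((Icc 1 X).filter (fun n => m < n)).image (fun n => n - m - 1) ⊆ range X := by
      intro k hk
      obtain ⟨n, hn, rfl⟩ := Finset.mem_image.1 hk
      have hn' := Finset.mem_filter.1 hn
      have := Finset.mem_Icc.1 hn'.1
      rw [Finset.mem_range]
      omega
    calc ∑ n ∈ (Icc 1 X).filter (fun n => m < n), (1 : ℝ) / |(m : ℝ) - n|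
        = ∑ n ∈ (Icc 1 X).filter (fun n => m < n), (1 : ℝ) / (((n - m - 1 : ℕ) : ℝ) + 1) := by
          refine Finset.sum_congr rfl fun n hn => ?_
          have hn' := (Finset.mem_filter.1 hn).2
          have e : ((n - m - 1 : ℕ) : ℝ) + 1 = (n : ℝ) - m := by
            have : n - m - 1 + 1 + m = n := by omega
            have h3 : (((n - m - 1 + 1 + m : ℕ)) : ℝ) = (n : ℝ) := by rw [this]
            push_cast at h3
            linarith
          rw [e, abs_sub_comm, abs_of_pos]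
          have : (m : ℝ) < n := by exact_mod_cast hn'
          linarith
      _ = ∑ k ∈ ((Icc 1 X).filter (fun n => m < n)).image (fun n => n - m - 1),
            (1 : ℝ) / ((k : ℝ) + 1) := by
          rw [Finset.sum_image hinj]
      _ ≤ ∑ i ∈ range X, (1 : ℝ) / ((i : ℝ) + 1) :=
          Finset.sum_le_sum_of_subset_of_nonneg hsub fun i _ _ => by positivity
  linarith

private theorem mv_log {m n X : ℕ} (hm : m ∈ Icc 1 X) (hn : n ∈ Icc 1 X) (hne : n ≠ m) :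
    |(m : ℝ) - n| / X ≤ |Real.log m - Real.log n| := by
  have key : ∀ a b : ℕ, a ∈ Icc 1 X → b ∈ Icc 1 X → b < a →
      ((a : ℝ) - b) / X ≤ Real.log a - Real.log b := by
    intro a b ha hb hlt
    have ha' := Finset.mem_Icc.1 ha
    have hb' := Finset.mem_Icc.1 hb
    have ha0 : (0 : ℝ) < a := by exact_mod_cast (show 0 < a by omega)
    have hb0 : (0 : ℝ) < b := by exact_mod_cast (show 0 < b by omega)
    have hX : (0 : ℝ) < X := by exact_mod_cast (show 0 < X by omega)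
    have haX : (a : ℝ) ≤ X := by exact_mod_cast ha'.2
    have hlt' : (b : ℝ) < a := by exact_mod_cast hlt
    have h := Real.log_le_sub_one_of_pos (div_pos hb0 ha0)
    rw [Real.log_div hb0.ne' ha0.ne'] at h
    have e : (b : ℝ) / a - 1 = -(((a : ℝ) - b) / a) := by field_simp; ring
    rw [e] at h
    have h2 : ((a : ℝ) - b) / X ≤ ((a : ℝ) - b) / a :=
      div_le_div_of_nonneg_left (by linarith) ha0 haX
    linarith
  rcases lt_or_gt_of_ne hne with h | h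
  · have h1 := key m n hm hn h
    have h2 : (n : ℝ) < m := by exact_mod_cast h
    rw [abs_of_pos (by linarith : (0 : ℝ) < (m : ℝ) - n)]
    exact h1.trans (le_abs_self _)
  · have h1 := key n m hn hm h
    have h2 : (m : ℝ) < n := by exact_mod_cast h
    rw [abs_sub_comm, abs_of_pos (by linarith : (0 : ℝ) < (n : ℝ) - m), abs_sub_comm]
    exact h1.trans (le_abs_self _)

/-- the kernel -/
private noncomputable def mvK (X : ℕ) (T : ℝ) (m n : ℕ) : ℝ :=
  if n = m then 2 * T else 2 * X * (1 / |(m : ℝ) - n|)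

private theorem mvK_symm (X : ℕ) (T : ℝ) (m n : ℕ) : mvK X T m n = mvK X T n m := by
  unfold mvK
  by_cases h : n = m
  · rw [if_pos h, if_pos h.symm]
  · rw [if_neg h, if_neg (Ne.symm h), abs_sub_comm]

private theorem mvK_nonneg (X : ℕ) {T : ℝ} (hT : 0 ≤ T) (m n : ℕ) : 0 ≤ mvK X T m n := by
  unfold mvK
  split_ifs <;> positivity

private theorem mvK_row (X m : ℕ) (T : ℝ) (hm : m ∈ Icc 1 X) :
    ∑ n ∈ Icc 1 X, mvK X T m n ≤ 2 * T + 4 * X * (1 + Real.log X) := by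
  rw [← Finset.sum_filter_add_sum_filter_not (Icc 1 X) (fun n => n = m)]
  have h1 : ∑ n ∈ (Icc 1 X).filter (fun n => n = m), mvK X T m n = 2 * T := by
    rw [Finset.filter_eq' (Icc 1 X) m, if_pos hm, Finset.sum_singleton]
    unfold mvK
    rw [if_pos rfl]
  have h2 : ∑ n ∈ (Icc 1 X).filter (fun n => ¬ n = m), mvK X T m n
      = 2 * X * ∑ n ∈ (Icc 1 X).filter (fun n => n ≠ m), (1 : ℝ) / |(m : ℝ) - n| := by
    rw [Finset.mul_sum]
    refine Finset.sum_congr rfl fun n hn => ?_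
    unfold mvK
    rw [if_neg (Finset.mem_filter.1 hn).2]
  rw [h1, h2]
  have h3 := mul_le_mul_of_nonneg_left (mv_row X m hm) (by positivity : (0 : ℝ) ≤ 2 * X)
  linarith

private theorem mv_kernel {X m n : ℕ} {T : ℝ} (hT : 0 ≤ T) (hm : m ∈ Icc 1 X) (hn : n ∈ Icc 1 X) :
    ‖∫ t in (-T)..T, Complex.exp ((((Real.log m - Real.log n : ℝ) : ℂ) * Complex.I) * (t : ℂ))‖
      ≤ mvK X T m n := by
  unfold mvK
  by_cases h : n = m
  · rw [if_pos h, h]
    have e : ∀ t : ℝ, Complex.exp ((((Real.log m - Real.log m : ℝ) : ℂ) * Complex.I) * (t : ℂ)) = 1 := by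
      intro t
      rw [sub_self]
      simp
    simp only [e]
    rw [intervalIntegral.integral_const]
    simp only [Complex.real_smul, mul_one]
    rw [Complex.norm_real, Real.norm_eq_abs, abs_of_nonneg (by linarith)]
    linarith
  · rw [if_neg h]
    have hX : (0 : ℝ) < X := by
      have := Finset.mem_Icc.1 hm
      exact_mod_cast (show 0 < X by omega)
    have hne : (m : ℝ) - n ≠ 0 := by
      intro h0
      apply h
      have : (n : ℝ) = m := by linarith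
      exact_mod_cast this
    have hpos : 0 < |(m : ℝ) - n| := abs_pos.2 hne
    have hl := mv_log hm hn h
    have hlpos : 0 < |Real.log m - Real.log n| := lt_of_lt_of_le (div_pos hpos hX) hl
    refine (mv_int T _ (abs_pos.1 hlpos)).trans ?_
    calc 2 / |Real.log m - Real.log n| ≤ 2 / (|(m : ℝ) - n| / X) :=
          div_le_div_of_nonneg_left (by norm_num) (div_pos hpos hX) hl
      _ = 2 * X * (1 / |(m : ℝ) - n|) := by field_simp

theorem mean_v (a : ℕ → ℂ) (X : ℕ) (T : ℝ) (hX : 1 ≤ X) (hT : 0 ≤ T) :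
    ∫ t in (-T)..T, ‖∑ m ∈ Icc 1 X, a m * (m : ℂ) ^ (-(1 / 2 : ℂ) + t * Complex.I)‖ ^ 2
      ≤ (2 * T + 4 * X * (1 + Real.log X)) * ∑ m ∈ Icc 1 X, ‖a m‖ ^ 2 / m := by
  set b : ℕ → ℂ := fun m => a m * (m : ℂ) ^ (-(1 / 2 : ℂ)) with hb
  have hbn : ∀ m ∈ Icc 1 X, ‖b m‖ ^ 2 = ‖a m‖ ^ 2 / m := by
    intro m hm
    have hm' := Finset.mem_Icc.1 hm
    have hm0 : (0 : ℝ) < m := by exact_mod_cast (show 0 < m by omega)
    rw [hb]
    simp only
    rw [norm_mul, mul_pow, Complex.norm_natCast_cpow_of_pos (by omega)]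
    have e : (-(1 / 2 : ℂ)).re = -(1 / 2 : ℝ) := by simp
    rw [e, ← Real.rpow_natCast, ← Real.rpow_natCast, ← Real.rpow_mul hm0.le]
    norm_num
    rw [Real.rpow_neg_one]
    ring
  have hpt : ∀ t : ℝ, ∑ m ∈ Icc 1 X, a m * (m : ℂ) ^ (-(1 / 2 : ℂ) + t * Complex.I)
      = ∑ m ∈ Icc 1 X, b m * Complex.exp ((((Real.log m : ℝ) : ℂ) * Complex.I) * (t : ℂ)) := by
    intro t
    refine Finset.sum_congr rfl fun m hm => ?_
    have hm' := Finset.mem_Icc.1 hm
    have hm0 : (m : ℂ) ≠ 0 := by exact_mod_cast (show m ≠ 0 by omega)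
    rw [hb]
    simp only
    rw [Complex.cpow_add _ _ hm0, mul_assoc]
    congr 2
    rw [Complex.cpow_def_of_ne_zero hm0, ← Complex.natCast_log]
    congr 1
    ring
  simp_rw [hpt]
  refine (mv_expand b (fun m => Real.log m) (Icc 1 X) T).trans ?_
  calc ∑ m ∈ Icc 1 X, ∑ n ∈ Icc 1 X, ‖b m‖ * ‖b n‖ *
        ‖∫ t in (-T)..T, Complex.exp ((((Real.log m - Real.log n : ℝ) : ℂ) * Complex.I) * (t : ℂ))‖
      ≤ ∑ m ∈ Icc 1 X, ∑ n ∈ Icc 1 X, (‖b m‖ ^ 2 / 2 * mvK X T m n + ‖b n‖ ^ 2 / 2 * mvK X T m n) := by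
        refine Finset.sum_le_sum fun m hm => Finset.sum_le_sum fun n hn => ?_
        have h1 := mv_kernel hT hm hn
        have h2 : ‖b m‖ * ‖b n‖ ≤ ‖b m‖ ^ 2 / 2 + ‖b n‖ ^ 2 / 2 := by
          nlinarith [sq_nonneg (‖b m‖ - ‖b n‖)]
        have h3 := mvK_nonneg X hT m n
        calc ‖b m‖ * ‖b n‖ * ‖∫ t in (-T)..T,
              Complex.exp ((((Real.log m - Real.log n : ℝ) : ℂ) * Complex.I) * (t : ℂ))‖
            ≤ ‖b m‖ * ‖b n‖ * mvK X T m n := mul_le_mul_of_nonneg_left h1 (by positivity)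
          _ ≤ (‖b m‖ ^ 2 / 2 + ‖b n‖ ^ 2 / 2) * mvK X T m n := mul_le_mul_of_nonneg_right h2 h3
          _ = _ := by ring
    _ = ∑ m ∈ Icc 1 X, ‖b m‖ ^ 2 * ∑ n ∈ Icc 1 X, mvK X T m n := by
        simp_rw [Finset.sum_add_distrib]
        have e1 : ∑ m ∈ Icc 1 X, ∑ n ∈ Icc 1 X, ‖b n‖ ^ 2 / 2 * mvK X T m n
            = ∑ m ∈ Icc 1 X, ∑ n ∈ Icc 1 X, ‖b m‖ ^ 2 / 2 * mvK X T m n := by
          rw [Finset.sum_comm]
          refine Finset.sum_congr rfl fun m _ => Finset.sum_congr rfl fun n _ => ?_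
          rw [mvK_symm]
        rw [e1, ← Finset.sum_add_distrib]
        refine Finset.sum_congr rfl fun m _ => ?_
        rw [← Finset.sum_add_distrib, Finset.mul_sum]
        refine Finset.sum_congr rfl fun n _ => ?_
        ring
    _ ≤ ∑ m ∈ Icc 1 X, ‖b m‖ ^ 2 * (2 * T + 4 * X * (1 + Real.log X)) := by
        refine Finset.sum_le_sum fun m hm => ?_
        exact mul_le_mul_of_nonneg_left (mvK_row X m T hm) (by positivity)
    _ = (2 * T + 4 * X * (1 + Real.log X)) * ∑ m ∈ Icc 1 X, ‖a m‖ ^ 2 / m := by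
        rw [Finset.mul_sum]
        refine Finset.sum_congr rfl fun m hm => ?_
        rw [hbn m hm]
        ring

end Pool.Agent.H35.W

end

section

/-!
# MID Mvt: mean value theorem in our normalisation

Proof.  `Pool.Agent.H35.W.mean_v` with `a m = c m ee(-τ log m) √m`, `T = 2 π V`: `√m m^(-1/2 + i s) = exp(i s log m)` and `ee(-(t log m)) = exp(i s log m)` with `s = -2π t`;
substitution `s = -2 π t` in the integral (`dt = ds/(2π)`): `≤ (1/(2π)) (4 π V + 4 X (1 + log X)) ∑ |c m|^2`.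
-/

set_option autoImplicit false

namespace Pool.Agent.H53.MID

open Finset MeasureTheory
open Pool.Agent.H91.PK (ee)

private theorem Mvt_term (c : ℕ → ℂ) (τ t : ℝ) (m : ℕ) (hm : 1 ≤ m) :
    c m * ee (-((τ + t) * Real.log m)) =
      (c m * ee (-(τ * Real.log m)) * (Real.sqrt m : ℂ)) *
        (m : ℂ) ^ (-(1 / 2 : ℂ) + ((-(2 * Real.pi) * t : ℝ) : ℂ) * Complex.I) := by
  have hm0 : (0 : ℝ) < m := by exact_mod_cast hm
  have hmc : (m : ℂ) ≠ 0 := by exact_mod_cast hm0.ne'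
  have e1 : (m : ℂ) ^ (-(1 / 2 : ℂ) + ((-(2 * Real.pi) * t : ℝ) : ℂ) * Complex.I)
      = (m : ℂ) ^ (-(1 / 2 : ℂ)) * (m : ℂ) ^ (((-(2 * Real.pi) * t : ℝ) : ℂ) * Complex.I) :=
    Complex.cpow_add _ _ hmc
  have e2 : (m : ℂ) ^ (((-(2 * Real.pi) * t : ℝ) : ℂ) * Complex.I) = ee (-(t * Real.log m)) := by
    unfold ee
    rw [Complex.cpow_def_of_ne_zero hmc, Complex.natCast_log.symm]
    congr 1
    push_cast
    ring
  have e3 : (Real.sqrt m : ℂ) * (m : ℂ) ^ (-(1 / 2 : ℂ)) = 1 := by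
    have h1 : ((Real.sqrt m : ℝ) : ℂ) = (m : ℂ) ^ (1 / 2 : ℂ) := by
      rw [Real.sqrt_eq_rpow, Complex.ofReal_cpow hm0.le]
      push_cast
      rfl
    rw [h1, ← Complex.cpow_add _ _ hmc]
    norm_num
  have e4 : ee (-((τ + t) * Real.log m)) = ee (-(τ * Real.log m)) * ee (-(t * Real.log m)) := by
    rw [← Pool.Agent.H91.PK.LSa_ee_add]
    congr 1
    ring
  rw [e1, e2, e4]
  calc c m * (ee (-(τ * Real.log m)) * ee (-(t * Real.log m)))
      = c m * ee (-(τ * Real.log m)) * 1 * ee (-(t * Real.log m)) := by ring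
    _ = c m * ee (-(τ * Real.log m)) * ((Real.sqrt m : ℂ) * (m : ℂ) ^ (-(1 / 2 : ℂ))) *
          ee (-(t * Real.log m)) := by rw [e3]
    _ = _ := by ring

theorem mvt (c : ℕ → ℂ) (X : ℕ) (V τ : ℝ) (hX : 1 ≤ X) (hV : 0 ≤ V) :
    ∫ t in Set.Icc (-V) V, ‖∑ m ∈ Icc 1 X, c m * ee (-((τ + t) * Real.log m))‖ ^ 2
      ≤ (2 * V + 2 * X * (1 + Real.log X)) * ∑ m ∈ Icc 1 X, ‖c m‖ ^ 2 := by
  obtain ⟨a, ha⟩ : ∃ a : ℕ → ℂ, a = fun m => c m * ee (-(τ * Real.log m)) * (Real.sqrt m : ℂ) :=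
    ⟨_, rfl⟩
  have hpi : 0 < Real.pi := Real.pi_pos
  have hT : 0 ≤ 2 * Real.pi * V := by positivity
  have h1 := Pool.Agent.H35.W.mean_v a X (2 * Real.pi * V) hX hT
  have h2 : ∑ m ∈ Icc 1 X, ‖a m‖ ^ 2 / m = ∑ m ∈ Icc 1 X, ‖c m‖ ^ 2 := by
    refine sum_congr rfl fun m hm => ?_
    have hm0 : (0 : ℝ) < m := by
      have := (mem_Icc.1 hm).1
      exact_mod_cast this
    rw [ha]
    simp only
    rw [norm_mul, norm_mul, Pool.Agent.H91.PK.LSa_norm_ee, mul_one, Complex.norm_real,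
      Real.norm_of_nonneg (Real.sqrt_nonneg _), mul_pow, Real.sq_sqrt hm0.le]
    field_simp
  rw [h2] at h1
  obtain ⟨G, hG⟩ : ∃ G : ℝ → ℝ, G = fun s : ℝ =>
      ‖∑ m ∈ Icc 1 X, a m * (m : ℂ) ^ (-(1 / 2 : ℂ) + (s : ℂ) * Complex.I)‖ ^ 2 := ⟨_, rfl⟩
  have h3 : ∀ t : ℝ, ‖∑ m ∈ Icc 1 X, c m * ee (-((τ + t) * Real.log m))‖ ^ 2 =
      G (-(2 * Real.pi) * t) := by
    intro t
    rw [hG]
    simp only
    congr 2
    refine sum_congr rfl fun m hm => ?_
    rw [Mvt_term c τ t m (mem_Icc.1 hm).1, ha]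
  have h4 : ∫ t in Set.Icc (-V) V, ‖∑ m ∈ Icc 1 X, c m * ee (-((τ + t) * Real.log m))‖ ^ 2 =
      (2 * Real.pi)⁻¹ * ∫ s in (-(2 * Real.pi * V))..(2 * Real.pi * V), G s := by
    rw [MeasureTheory.integral_Icc_eq_integral_Ioc,
      ← intervalIntegral.integral_of_le (by linarith : -V ≤ V)]
    simp_rw [h3]
    rw [intervalIntegral.integral_comp_mul_left G (by
      have : 0 < 2 * Real.pi := by positivity
      exact (neg_neg_of_pos this).ne), intervalIntegral.integral_symm, smul_eq_mul]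
    have e1 : -(2 * Real.pi) * V = -(2 * Real.pi * V) := by ring
    have e2 : -(2 * Real.pi) * -V = 2 * Real.pi * V := by ring
    rw [e1, e2, inv_neg]
    ring
  have h5 : ∫ s in (-(2 * Real.pi * V))..(2 * Real.pi * V), G s ≤
      (2 * (2 * Real.pi * V) + 4 * X * (1 + Real.log X)) * ∑ m ∈ Icc 1 X, ‖c m‖ ^ 2 := by
    rw [hG]
    exact h1
  have hX1 : (1 : ℝ) ≤ X := by exact_mod_cast hX
  have hlog : 0 ≤ Real.log X := Real.log_nonneg hX1
  have hS : 0 ≤ ∑ m ∈ Icc 1 X, ‖c m‖ ^ 2 := sum_nonneg fun m _ => by positivity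
  rw [h4]
  have hp1 : 1 ≤ Real.pi := by
    have := Real.pi_gt_three
    linarith
  calc (2 * Real.pi)⁻¹ * ∫ s in (-(2 * Real.pi * V))..(2 * Real.pi * V), G s
      ≤ (2 * Real.pi)⁻¹ * ((2 * (2 * Real.pi * V) + 4 * X * (1 + Real.log X)) *
          ∑ m ∈ Icc 1 X, ‖c m‖ ^ 2) := mul_le_mul_of_nonneg_left h5 (by positivity)
    _ = (2 * V + 2 * X * (1 + Real.log X) / Real.pi) * ∑ m ∈ Icc 1 X, ‖c m‖ ^ 2 := by
        field_simp
        ring
    _ ≤ (2 * V + 2 * X * (1 + Real.log X)) * ∑ m ∈ Icc 1 X, ‖c m‖ ^ 2 := by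
        refine mul_le_mul_of_nonneg_right ?_ hS
        have : 2 * X * (1 + Real.log X) / Real.pi ≤ 2 * X * (1 + Real.log X) :=
          div_le_self (by positivity) hp1
        linarith

end Pool.Agent.H53.MID

end
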