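import Pool.Agent.H43.PL.H35.W.Defs
import Pool.Agent.H43.PL.M01

/-! The parts of this file: H76.VKT.SDef, H76.VKT.PropB, H43.MP.Mrt, H76.GB.PbCard, H91.PK.DiA, H91.PK.CA, H91.EHA.SwH, H74.MDX.Sets, H74.MDX.Rich. -/

section

/-!
# PROJECT VKT (H97/VK of helper97 with the parameter `T0.t` in place of `9/10`), Part I.b: sieved Dirichlet characters

Notation: `L = log x`, `L9 x = L^{9/10}`, `LL x = log L`, `y = Yx x = ⌊exp(L^{9/10})⌋`.  A character `χ` mod `d` is replaced by the character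
`ch x χ` modulo `qm x d = d · y#` induced by it: `ch x χ n = χ(n)` if `n` has no prime factor `≤ y`, otherwise `0`.
The tools `Lk`, `Fk` (`∑ χ(n) (log n)^k n^{-s}`, `∑ Λ(n) χ(n) (log n)^k n^{-s}`) of EHA are applied to `ch x χ`.
-/

set_option autoImplicit false

namespace Pool.Agent.H76.VKT

open Finset

/-- the parameter `t ∈ (2/3, 1)`; it replaces `9/10` in `Pool.Agent.H97.VK` -/
class T0 where
  /-- the exponent -/
  t : ℝ
  lo : 2 / 3 < t
  hi : t < 1

variable [T0]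

/-- `(log x)^t` -/
noncomputable def L9 (x : ℕ) : ℝ := Real.log x ^ T0.t

/-- `log log x` -/
noncomputable def LL (x : ℕ) : ℝ := Real.log (Real.log x)

/-- the sieving level -/
noncomputable def Yx (x : ℕ) : ℕ := ⌊Real.exp (L9 x)⌋₊

/-- the modulus `d · y#` -/
noncomputable def qm (x d : ℕ) : ℕ := d * primorial (Yx x)

/-- the character modulo `qm x d` induced by `χ` -/
noncomputable def ch (x : ℕ) {d : ℕ} (χ : DirichletCharacter ℂ d) : DirichletCharacter ℂ (qm x d) :=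
  DirichletCharacter.changeLevel (Dvd.intro _ rfl) χ

theorem qm_pos (x d : ℕ) (hd : 1 ≤ d) : 1 ≤ qm x d :=
  Nat.mul_pos hd (primorial_pos _)

theorem ch_sq (x : ℕ) {d : ℕ} (χ : DirichletCharacter ℂ d) : ch x χ ^ 2 = ch x (χ ^ 2) := by
  unfold ch
  rw [map_pow]
  rfl

theorem ch_apply (x : ℕ) {d : ℕ} (hd : 1 ≤ d) (χ : DirichletCharacter ℂ d) (n : ℕ) :
    ch x χ (n : ZMod (qm x d)) =
      if n.Coprime (primorial (Yx x)) then χ (n : ZMod d) else 0 := by
  have hq0 : qm x d ≠ 0 := by have := qm_pos x d hd; omega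
  by_cases h1 : n.Coprime (qm x d)
  · have h2 : n.Coprime (primorial (Yx x)) := by
      unfold qm at h1
      exact (Nat.coprime_mul_iff_right.1 h1).2
    rw [if_pos h2]
    unfold ch
    have h3 : IsCoprime (n : ℤ) (qm x d : ℤ) := Nat.isCoprime_iff_coprime.2 h1
    have h4 := DirichletCharacter.changeLevel_eq_cast_of_dvd' χ
      (Dvd.intro (primorial (Yx x)) rfl : d ∣ qm x d) h3
    rw [Int.cast_natCast, Int.cast_natCast] at h4
    exact h4
  · have h2 : ¬ IsUnit (n : ZMod (qm x d)) := by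
      rw [ZMod.isUnit_iff_coprime]; exact h1
    rw [MulChar.map_nonunit _ h2]
    split_ifs with h3
    · have h4 : ¬ n.Coprime d := by
        intro h5
        apply h1
        unfold qm
        exact Nat.coprime_mul_iff_right.2 ⟨h5, h3⟩
      have h5 : ¬ IsUnit (n : ZMod d) := by
        rw [ZMod.isUnit_iff_coprime]; exact h4
      rw [MulChar.map_nonunit _ h5]
    · rfl

theorem ch_norm_le (x : ℕ) {d : ℕ} (χ : DirichletCharacter ℂ d) (n : ZMod (qm x d)) : ‖ch x χ n‖ ≤ 1 :=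
  DirichletCharacter.norm_le_one _ _

omit [T0] in
theorem cop_gt (y n : ℕ) (hy : 2 ≤ y) (hn : n.Coprime (primorial y)) : n = 1 ∨ y < n := by
  by_contra hcon
  push Not at hcon
  obtain ⟨h1, h2⟩ := hcon
  have h3 : n.minFac.Prime := Nat.minFac_prime h1
  rcases Nat.eq_zero_or_pos n with h0 | h0
  · subst h0
    have h4 : 2 ∣ primorial y := Nat.prime_two.dvd_primorial_iff.2 hy
    rw [Nat.coprime_zero_left] at hn
    rw [hn] at h4
    omega
  · have h4 : n.minFac ≤ y := (Nat.minFac_le h0).trans h2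
    have h5 : n.minFac ∣ primorial y := h3.dvd_primorial_iff.2 h4
    exact Nat.not_coprime_of_dvd_of_dvd h3.one_lt (Nat.minFac_dvd n) h5 hn

theorem yx_ev : ∃ x0 : ℕ, ∀ x : ℕ, x0 ≤ x → 3 ≤ Yx x ∧ Real.log (Yx x) ≤ L9 x ∧ L9 x / 2 ≤ Real.log (Yx x) ∧
    1 ≤ LL x ∧ 1 ≤ L9 x ∧ 1 ≤ Real.log x ∧ (Yx x : ℝ) + 1 ≤ x := by
  have hlo := T0.lo
  have hhi := T0.hi
  have hev : ∀ᶠ L : ℝ in Filter.atTop, 1024 ≤ L ∧ 512 ≤ L ^ T0.t ∧ 2 ≤ L ^ (1 - T0.t) := by
    filter_upwards [Filter.eventually_ge_atTop (1024 : ℝ),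
      (tendsto_rpow_atTop (show 0 < T0.t by linarith)).eventually_ge_atTop 512,
      (tendsto_rpow_atTop (show 0 < 1 - T0.t by linarith)).eventually_ge_atTop 2] with L h1 h2 h3
    exact ⟨h1, h2, h3⟩
  obtain ⟨x1, hx1'⟩ := Filter.eventually_atTop.1
    ((Real.tendsto_log_atTop.comp tendsto_natCast_atTop_atTop).eventually hev)
  refine ⟨max x1 1, fun x hx => ?_⟩
  obtain ⟨hL1, h512', hpow2⟩ := hx1' x ((le_max_left _ _).trans hx)
  simp only [Function.comp_apply] at hL1 h512' hpow2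
  have hx0 : (0:ℝ) < x := by
    have : 1 ≤ x := (le_max_right _ _).trans hx
    exact_mod_cast this
  obtain ⟨L, hL⟩ : ∃ L, L = Real.log x := ⟨_, rfl⟩
  rw [← hL] at hL1 h512' hpow2
  have hL0 : 0 < L := by linarith
  obtain ⟨M, hM⟩ : ∃ M, M = L9 x := ⟨_, rfl⟩
  have hM1 : M = L ^ T0.t := by rw [hM, hL]; rfl
  have h512 : (512:ℝ) ≤ M := by rw [hM1]; exact h512'
  have hML : M ≤ L / 2 := by
    have h2 : M * L ^ (1 - T0.t) = L := by
      rw [hM1, ← Real.rpow_add hL0]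
      rw [show T0.t + (1 - T0.t) = 1 by ring, Real.rpow_one]
    have h3 : 0 ≤ M := by linarith
    nlinarith
  have hexpM : 512 ≤ Real.exp (M / 2) := by
    have := Real.add_one_le_exp (M / 2)
    have h4 : Real.exp (M / 4) ^ 2 = Real.exp (M / 2) := by
      rw [← Real.exp_nat_mul]; congr 1; push_cast; ring
    have h5 := Real.add_one_le_exp (M / 4)
    nlinarith
  have hsq : Real.exp M = Real.exp (M / 2) * Real.exp (M / 2) := by
    rw [← Real.exp_add]; congr 1; ring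
  have hY1 : (Yx x : ℝ) ≤ Real.exp M := by
    unfold Yx; rw [← hM]; exact Nat.floor_le (Real.exp_pos _).le
  have hY2 : Real.exp (M / 2) + 3 ≤ (Yx x : ℝ) := by
    have h1 : Real.exp M < (Yx x : ℝ) + 1 := by
      unfold Yx; rw [← hM]; exact Nat.lt_floor_add_one _
    nlinarith
  have hY0 : (0:ℝ) < Yx x := by linarith
  refine ⟨?_, ?_, ?_, ?_, ?_, ?_, ?_⟩
  · have h1 : (3:ℝ) ≤ (Yx x : ℝ) := by linarith
    exact_mod_cast h1
  · rw [← hM, Real.log_le_iff_le_exp hY0]; exact hY1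
  · rw [← hM, Real.le_log_iff_exp_le hY0]; linarith
  · unfold LL
    rw [← hL, Real.le_log_iff_exp_le hL0]
    have := Real.exp_one_lt_d9
    linarith
  · rw [← hM]; linarith
  · rw [← hL]; linarith
  · have h1 : Real.exp L = x := by rw [hL, Real.exp_log hx0]
    have h2 : Real.exp M ≤ Real.exp (L / 2) := Real.exp_le_exp.2 hML
    have h3 : Real.exp L = Real.exp (L / 2) * Real.exp (L / 2) := by
      rw [← Real.exp_add]; congr 1; ring
    have h4 : 512 ≤ Real.exp (L / 2) := by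
      have := Real.add_one_le_exp (L / 2)
      linarith
    rw [← h1]
    nlinarith

end Pool.Agent.H76.VKT

end

section

set_option autoImplicit false

namespace Pool.Agent.H76.VKT

open Finset
open Pool.Agent.H91.EHA
open Pool.Agent.H91.PK (ee)

/-- the statement of `vk_exp` -/
def vk_exp_P [T0] : Prop := ∀ (A : ℕ),
    ∃ x0 : ℕ, ∀ x : ℕ, x0 ≤ x → ∀ (K a b : ℕ) (β t : ℝ),
    Real.exp (Real.log x ^ T0.t) ≤ K → K ≤ x → b ≤ K → 0 ≤ β → β ≤ 1 →
    1 ≤ |t| → |t| ≤ (x : ℝ) ^ (3 : ℕ) →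
    ‖∑ n ∈ Ioc a b, ee (t * Real.log (n + β))‖ ≤ K * (100 / |t| + 1 / Real.log x ^ A)

/-- the statement of `psum` -/
def psum_P [T0] : Prop := ∀ (A B : ℕ),
    ∃ K' x0 : ℕ, ∀ x : ℕ, x0 ≤ x → ∀ (d : ℕ) (χ : DirichletCharacter ℂ d) (t : ℝ) (v : ℕ),
    1 ≤ d → (d : ℝ) ≤ Real.log x ^ B → Real.log x ^ K' ≤ |t| → |t| ≤ (x : ℝ) ^ (3 : ℕ) → Yx x + 1 ≤ v →
    ‖∑ n ∈ Icc 1 v, χ (n : ZMod d) * ee (t * Real.log n)‖ ≤ v / Real.log x ^ A

/-- the statement of `rtw` -/
def rtw_P [T0] : Prop := ∀ (A B : ℕ),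
    ∃ K' D x0 : ℕ, ∀ x : ℕ, x0 ≤ x → ∀ (d : ℕ) (χ : DirichletCharacter ℂ d) (t : ℝ) (u : ℕ),
    1 ≤ d → (d : ℝ) ≤ Real.log x ^ B → Real.log x ^ K' ≤ |t| → |t| ≤ (x : ℝ) ^ (3 : ℕ) → D * (LL x * L9 x) ≤ Real.log u →
    ‖∑ n ∈ Icc 1 u, ch x χ (n : ZMod (qm x d)) * ee (t * Real.log n)‖ ≤ u / Real.log x ^ A

/-- the statement of `lk_up` -/
def lk_up_P [T0] : Prop := ∀ (k B : ℕ),
    ∃ C : ℝ, 1 ≤ C ∧ ∃ K' x0 : ℕ, ∀ x : ℕ, x0 ≤ x → ∀ (d : ℕ) (χ : DirichletCharacter ℂ d) (s : ℂ),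
    1 ≤ d → (d : ℝ) ≤ Real.log x ^ B → 1 + 1 / (4 * Real.log x) ≤ s.re → s.re ≤ 2 →
    Real.log x ^ K' ≤ |s.im| → |s.im| ≤ 6 * (x : ℝ) ^ (3 : ℕ) →
    ‖Lk (qm x d) (ch x χ) k s‖ ≤ C * L9 x ^ k * LL x ^ (k + 1)

/-- the statement of `zy_up` -/
def zy_up_P [T0] : Prop :=
    ∃ C : ℝ, 1 ≤ C ∧ ∃ x0 : ℕ, ∀ x : ℕ, x0 ≤ x → ∀ (d : ℕ) (s : ℂ), 1 ≤ d → 1 < s.re → s.re ≤ 2 →
    ‖Lk (qm x d) 1 0 s‖ ≤ C * (1 + 1 / ((s.re - 1) * L9 x))

/-- the statement of `lk_low` -/
def lk_low_P [T0] : Prop := ∀ (B : ℕ),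
    ∃ c : ℝ, 0 < c ∧ c ≤ 1 ∧ ∃ K' x0 : ℕ, ∀ x : ℕ, x0 ≤ x → ∀ (d : ℕ) (χ : DirichletCharacter ℂ d) (s : ℂ),
    1 ≤ d → (d : ℝ) ≤ Real.log x ^ B → 1 + 1 / (4 * Real.log x) ≤ s.re → s.re ≤ 2 →
    Real.log x ^ K' ≤ |s.im| → |s.im| ≤ 3 * (x : ℝ) ^ (3 : ℕ) →
    c / LL x ^ 7 ≤ ‖Lk (qm x d) (ch x χ) 0 s‖

/-- the statement of `fk_up` -/
def fk_up_P [T0] : Prop := ∀ (k B : ℕ),
    ∃ C : ℝ, 1 ≤ C ∧ ∃ K' x0 : ℕ, ∀ x : ℕ, x0 ≤ x → ∀ (d : ℕ) (χ : DirichletCharacter ℂ d) (s : ℂ),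
    1 ≤ d → (d : ℝ) ≤ Real.log x ^ B → 1 + 1 / (4 * Real.log x) ≤ s.re → s.re ≤ 2 →
    Real.log x ^ K' ≤ |s.im| → |s.im| ≤ 3 * (x : ℝ) ^ (3 : ℕ) →
    ‖Fk (qm x d) (ch x χ) k s‖ ≤ C * L9 x ^ (k + 1) * LL x ^ (20 * (k + 1))

/-- the statement of `sm_sharp_w` -/
def sm_sharp_w_P [T0] : Prop := ∀ (t1 : ℝ) (ht1' : T0.t < t1) (k κ B : ℕ) (hκ : 1 ≤ κ),
    ∃ C : ℝ, 1 ≤ C ∧ ∃ K' x0 : ℕ, ∀ x : ℕ, x0 ≤ x →
    ∀ (d : ℕ) (χ : DirichletCharacter ℂ d) (t : ℝ) (v z : ℕ), 1 ≤ d → (d : ℝ) ≤ Real.log x ^ B →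
    Real.exp (Real.log x ^ t1) ≤ z → z ≤ x ^ 2 → v ≤ z → Real.log x ^ K' ≤ |t| → |t| ≤ (x : ℝ) ^ (2 : ℕ) →
    ‖∑ n ∈ Icc 1 v, ((Lam n * Real.log n ^ k : ℝ) : ℂ) * ch x χ (n : ZMod (qm x d)) * ee (t * Real.log n)‖ ≤
      C * z * (L9 x ^ (k + 1) * LL x ^ (20 * (k + 1)) * Real.log x ^ (3 * κ) +
        Real.log (2 * z) ^ (k + 1) / Real.log x ^ κ)

end Pool.Agent.H76.VKT

end

section

/-!
# Mrt: the upper bound of Mertens for the sum of the reciprocals of the primes, elementary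
-/

set_option autoImplicit false

namespace Pool.Agent.H43.MP

open Finset

private theorem mrt_log {n : ℕ} (hn : 1 ≤ n) :
    ∑ p ∈ (Icc 1 n).filter Nat.Prime, Real.log p / p ≤ Real.log n + Real.log 4 := by
  have hn0 : (0 : ℝ) < n := by exact_mod_cast hn
  have h1 : ∑ k ∈ Ioc 0 n, Real.log k = ∑ d ∈ Ioc 0 n, ArithmeticFunction.vonMangoldt d * ((n / d : ℕ) : ℝ) := by
    rw [← ArithmeticFunction.sum_Ioc_mul_zeta_eq_sum, ArithmeticFunction.vonMangoldt_mul_zeta]
    rfl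
  have h2 : ∑ k ∈ Ioc 0 n, Real.log (k : ℝ) ≤ n * Real.log n := by
    calc ∑ k ∈ Ioc 0 n, Real.log (k : ℝ) ≤ ∑ _k ∈ Ioc 0 n, Real.log n := by
          refine sum_le_sum fun k hk => ?_
          rw [mem_Ioc] at hk
          exact Real.log_le_log (by exact_mod_cast hk.1) (by exact_mod_cast hk.2)
      _ = n * Real.log n := by
          rw [sum_const, Nat.card_Ioc, nsmul_eq_mul]
          simp
  have h3 : ∑ p ∈ (Icc 1 n).filter Nat.Prime, Real.log p ≤ Real.log 4 * n := by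
    have h := Chebyshev.theta_le_log4_mul_x (x := (n : ℝ)) (by positivity)
    unfold Chebyshev.theta at h
    rw [Nat.floor_natCast] at h
    refine le_trans (le_of_eq ?_) h
    refine sum_congr ?_ fun _ _ => rfl
    ext p
    simp only [mem_filter, mem_Icc, mem_Ioc]
    constructor
    · rintro ⟨⟨a, b⟩, c⟩
      exact ⟨⟨by omega, b⟩, c⟩
    · rintro ⟨⟨a, b⟩, c⟩
      exact ⟨⟨by omega, b⟩, c⟩
  have h4 : n * ∑ p ∈ (Icc 1 n).filter Nat.Prime, Real.log p / p ≤
      ∑ d ∈ Ioc 0 n, ArithmeticFunction.vonMangoldt d * ((n / d : ℕ) : ℝ) +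
        ∑ p ∈ (Icc 1 n).filter Nat.Prime, Real.log p := by
    have h5 : ∑ p ∈ (Icc 1 n).filter Nat.Prime, ArithmeticFunction.vonMangoldt p * ((n / p : ℕ) : ℝ) ≤
        ∑ d ∈ Ioc 0 n, ArithmeticFunction.vonMangoldt d * ((n / d : ℕ) : ℝ) := by
      refine sum_le_sum_of_subset_of_nonneg ?_ fun d _ _ =>
        mul_nonneg ArithmeticFunction.vonMangoldt_nonneg (Nat.cast_nonneg _)
      intro p hp
      simp only [mem_filter, mem_Icc] at hp
      rw [mem_Ioc]
      omega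
    refine le_trans ?_ (add_le_add_left h5 _)
    rw [mul_sum, ← sum_add_distrib]
    refine sum_le_sum fun p hp => ?_
    rw [mem_filter, mem_Icc] at hp
    have hp0 : (0 : ℝ) < p := by exact_mod_cast hp.1.1
    rw [ArithmeticFunction.vonMangoldt_apply_prime hp.2]
    have hlp : 0 ≤ Real.log p := Real.log_nonneg (by exact_mod_cast hp.1.1)
    have h6 : (n : ℝ) / p ≤ ((n / p : ℕ) : ℝ) + 1 := by
      rw [div_le_iff₀ hp0]
      have h7 : n < (n / p + 1) * p := by
        have := Nat.lt_div_mul_add (a := n) (b := p) hp.1.1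
        rw [add_mul, one_mul]
        exact this
      exact_mod_cast h7.le
    calc (n : ℝ) * (Real.log p / p) = Real.log p * (n / p) := by ring
      _ ≤ Real.log p * (((n / p : ℕ) : ℝ) + 1) := mul_le_mul_of_nonneg_left h6 hlp
      _ = Real.log p * ((n / p : ℕ) : ℝ) + Real.log p := by ring
  rw [← h1] at h4
  have h8 : n * ∑ p ∈ (Icc 1 n).filter Nat.Prime, Real.log p / p ≤ n * (Real.log n + Real.log 4) := by
    linarith
  exact le_of_mul_le_mul_left h8 hn0

private theorem mrt_step (y : ℕ) (hy : 2 ≤ y) :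
    ∑ p ∈ (Icc 1 y).filter Nat.Prime, (1 : ℝ) / p -
      (∑ p ∈ (Icc 1 y).filter Nat.Prime, Real.log p / p - Real.log y - Real.log 4) / Real.log y ≤
      Real.log (Real.log y) + (2 + Real.log 4 / Real.log 2 - Real.log (Real.log 2)) := by
  have hl2 : 0 < Real.log 2 := Real.log_pos (by norm_num)
  induction y, hy using Nat.le_induction with
  | base =>
    have e : (Icc 1 2).filter Nat.Prime = {2} := by decide
    rw [e, sum_singleton, sum_singleton]
    push_cast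
    have h1 : (1 : ℝ) / 2 - (Real.log 2 / 2 - Real.log 2 - Real.log 4) / Real.log 2 =
        1 + Real.log 4 / Real.log 2 := by
      field_simp
      ring
    rw [h1]
    linarith
  | succ y hy ih =>
    have hL : 0 < Real.log y := Real.log_pos (by exact_mod_cast (by omega : 1 < y))
    have hLL : Real.log y ≤ Real.log ((y + 1 : ℕ) : ℝ) :=
      Real.log_le_log (by exact_mod_cast (by omega : 0 < y)) (by exact_mod_cast (by omega))
    have hA := mrt_log (n := y) (by omega)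
    obtain ⟨L, hLd⟩ : ∃ L, L = Real.log y := ⟨_, rfl⟩
    obtain ⟨M, hMd⟩ : ∃ M, M = Real.log ((y + 1 : ℕ) : ℝ) := ⟨_, rfl⟩
    obtain ⟨A, hAd⟩ : ∃ A, A = ∑ p ∈ (Icc 1 y).filter Nat.Prime, Real.log p / p := ⟨_, rfl⟩
    obtain ⟨S, hSd⟩ : ∃ S, S = ∑ p ∈ (Icc 1 y).filter Nat.Prime, (1 : ℝ) / p := ⟨_, rfl⟩
    rw [← hLd, ← hAd, ← hSd] at ih
    rw [← hLd] at hL
    rw [← hLd, ← hMd] at hLL
    rw [← hLd, ← hAd] at hA
    have hM : 0 < M := lt_of_lt_of_le hL hLL
    have hlog : 1 - L / M ≤ Real.log M - Real.log L := by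
      have h := Real.one_sub_inv_le_log_of_pos (div_pos hM hL)
      rw [Real.log_div hM.ne' hL.ne', inv_div] at h
      exact h
    have key : (A - Real.log 4) * (1 / L - 1 / M) ≤ 1 - L / M := by
      have h1 : 0 ≤ 1 / L - 1 / M := sub_nonneg.2 (one_div_le_one_div_of_le hL hLL)
      calc (A - Real.log 4) * (1 / L - 1 / M) ≤ L * (1 / L - 1 / M) :=
            mul_le_mul_of_nonneg_right (by linarith) h1
        _ = 1 - L / M := by field_simp
    have hfin : ∀ S' A' : ℝ, (S' - (A' - M - Real.log 4) / M) =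
        (S - (A - L - Real.log 4) / L) + (A - Real.log 4) * (1 / L - 1 / M) →
        S' - (A' - M - Real.log 4) / M ≤
          Real.log M + (2 + Real.log 4 / Real.log 2 - Real.log (Real.log 2)) := by
      intro S' A' h
      rw [h]
      linarith
    rw [← hMd]
    apply hfin
    have hins : Icc 1 y.succ = insert y.succ (Icc 1 y) := by
      ext k
      rw [mem_insert, mem_Icc, mem_Icc]
      omega
    rw [← Nat.succ_eq_add_one, hins, Finset.filter_insert]
    have hni : y.succ ∉ (Icc 1 y).filter Nat.Prime := by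
      rw [mem_filter, mem_Icc]
      omega
    by_cases hp : y.succ.Prime
    · rw [if_pos hp, sum_insert hni, sum_insert hni, ← hAd, ← hSd]
      rw [Nat.succ_eq_add_one, ← hMd]
      have hy0 : ((y + 1 : ℕ) : ℝ) ≠ 0 := by positivity
      field_simp
      ring
    · rw [if_neg hp, ← hAd, ← hSd]
      field_simp
      ring

theorem mrt_upper : ∃ C : ℝ, 0 < C ∧ ∀ y : ℕ, 2 ≤ y →
    ∑ p ∈ (Icc 1 y).filter Nat.Prime, (1 : ℝ) / p ≤ Real.log (Real.log y) + C := by
  have hl2 : 0 < Real.log 2 := Real.log_pos (by norm_num)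
  have hl4 : 0 < Real.log 4 := Real.log_pos (by norm_num)
  have hll : Real.log (Real.log 2) ≤ 0 := by
    refine Real.log_nonpos hl2.le ?_
    have := Real.log_two_lt_d9
    linarith
  refine ⟨2 + Real.log 4 / Real.log 2 - Real.log (Real.log 2), ?_, fun y hy => ?_⟩
  · have : 0 < Real.log 4 / Real.log 2 := div_pos hl4 hl2
    linarith
  · have h1 := mrt_step y hy
    have hL : 0 < Real.log y := Real.log_pos (by exact_mod_cast (by omega : 1 < y))
    have h2 := mrt_log (n := y) (by omega)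
    have h3 : (∑ p ∈ (Icc 1 y).filter Nat.Prime, Real.log p / p - Real.log y - Real.log 4) / Real.log y ≤ 0 :=
      div_nonpos_of_nonpos_of_nonneg (by linarith) hL.le
    linarith

end Pool.Agent.H43.MP

end

section

/-!
# GB PbCard: a lower bound for the number of primes in `(P, 2P]` (elementary, central binomial coefficient)
-/

set_option autoImplicit false

namespace Pool.Agent.H76.GB

open Finset
open Pool.Agent.H35.W

private theorem pbcard_binom (n : ℕ) (hn : 2 < n) :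
    n.centralBinom ≤ (2 * n) ^ (Nat.sqrt (2 * n) + (pb n).card) * 4 ^ (2 * n / 3) := by
  have h0 : 0 < 2 * n := by omega
  have h1 : n.centralBinom =
      ∏ p ∈ (range (2 * n + 1)).filter Nat.Prime, p ^ n.centralBinom.factorization p := by
    conv_lhs => rw [← Nat.prod_pow_factorization_centralBinom n]
    symm
    refine Finset.prod_filter_of_ne fun p _ h => ?_
    contrapose h
    rw [Nat.factorization_eq_zero_of_not_prime n.centralBinom h, pow_zero]
  have h2 : ∀ p ∈ (range (2 * n + 1)).filter Nat.Prime, p ^ n.centralBinom.factorization p ≤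
      (if p ≤ Nat.sqrt (2 * n) ∨ n < p then 2 * n else 1) * (if p ≤ 2 * n / 3 then p else 1) := by
    intro p hp
    rw [mem_filter, mem_range] at hp
    have hp1 : 1 ≤ p := hp.2.one_lt.le
    have hb : 1 ≤ (if p ≤ 2 * n / 3 then p else 1) := by split_ifs <;> omega
    have hf : p ^ n.centralBinom.factorization p ≤ 2 * n := Nat.pow_factorization_choose_le h0
    by_cases ha : p ≤ Nat.sqrt (2 * n) ∨ n < p
    · rw [if_pos ha]
      nlinarith
    · rw [if_neg ha, one_mul]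
      push Not at ha
      have h3 : n.centralBinom.factorization p ≤ 1 :=
        Nat.factorization_choose_le_one (Nat.sqrt_lt'.mp ha.1)
      by_cases hc : p ≤ 2 * n / 3
      · rw [if_pos hc]
        exact (Nat.pow_le_pow_right hp1 h3).trans (pow_one p).le
      · rw [if_neg hc]
        have h4 : n.centralBinom.factorization p = 0 :=
          Nat.factorization_centralBinom_of_two_mul_self_lt_three_mul hn ha.2 (by omega)
        rw [h4, pow_zero]
  rw [h1]
  refine (Finset.prod_le_prod' h2).trans ?_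
  rw [Finset.prod_mul_distrib]
  refine Nat.mul_le_mul ?_ ?_
  · rw [← Finset.prod_filter, Finset.prod_const]
    refine Nat.pow_le_pow_right h0 ?_
    have h5 : ((range (2 * n + 1)).filter Nat.Prime).filter (fun p => p ≤ Nat.sqrt (2 * n) ∨ n < p) ⊆
        Icc 1 (Nat.sqrt (2 * n)) ∪ pb n := by
      intro p hp
      simp only [mem_filter, mem_range] at hp
      unfold pb
      simp only [mem_union, mem_Icc, mem_filter, mem_Ioc]
      have := hp.1.2.one_lt
      rcases hp.2 with h | h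
      · left
        omega
      · right
        exact ⟨by omega, hp.1.2⟩
    refine (card_le_card h5).trans ((card_union_le _ _).trans ?_)
    rw [Nat.card_Icc]
    omega
  · rw [← Finset.prod_filter]
    refine le_trans ?_ (primorial_le_four_pow (2 * n / 3))
    unfold primorial
    refine Finset.prod_le_prod_of_subset_of_one_le' ?_ ?_
    · intro p hp
      simp only [mem_filter, mem_range] at hp ⊢
      exact ⟨by omega, hp.1.2⟩
    · intro p hp _
      exact (mem_filter.1 hp).2.one_lt.le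

theorem pb_card : ∃ P0 : ℕ, ∀ P : ℕ, P0 ≤ P → (P : ℝ) / (8 * Real.log P) ≤ ((pb P).card : ℝ) := by
  have h1 := (isLittleO_log_rpow_atTop (r := 1 / 4) (by norm_num)).bound (c := 1)
    (by norm_num)
  obtain ⟨x1, hx1⟩ := Filter.eventually_atTop.1 (tendsto_natCast_atTop_atTop (R := ℝ) |>.eventually h1)
  refine ⟨max x1 (10 ^ 12), fun P hP => ?_⟩
  have hPx : x1 ≤ P := (le_max_left _ _).trans hP
  have hP1 : 10 ^ 12 ≤ P := (le_max_right _ _).trans hP
  have hPR : (10 : ℝ) ^ 12 ≤ P := by exact_mod_cast hP1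
  have hP0 : (0 : ℝ) < P := by linarith [pow_pos (show (0:ℝ) < 10 by norm_num) 12]
  obtain ⟨k, hk⟩ : ∃ k, k = (pb P).card := ⟨_, rfl⟩
  have hlogP : Real.log P ≤ (P : ℝ) ^ (1 / 4 : ℝ) := by
    have h := hx1 P hPx
    rw [Real.norm_eq_abs, Real.norm_eq_abs, one_mul] at h
    exact (le_abs_self _).trans (h.trans (le_of_eq (abs_of_nonneg (by positivity))))
  have hL1 : 1 ≤ Real.log P := by
    rw [Real.le_log_iff_exp_le hP0]
    linarith [Real.exp_one_lt_d9, show (2.7182818286 : ℝ) < 10 ^ 12 by norm_num]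
  have b1 : (4 : ℝ) ^ P < P * ((2 * P : ℕ) : ℝ) ^ (Nat.sqrt (2 * P) + k) * 4 ^ (2 * P / 3) := by
    have h2 := Nat.four_pow_lt_mul_centralBinom P (by omega)
    have h3 := pbcard_binom P (by omega)
    rw [← hk] at h3
    have h4 : 4 ^ P < P * ((2 * P) ^ (Nat.sqrt (2 * P) + k) * 4 ^ (2 * P / 3)) :=
      h2.trans_le (Nat.mul_le_mul_left _ h3)
    rw [← mul_assoc] at h4
    exact_mod_cast h4
  have b2 := Real.log_lt_log (by positivity) b1
  rw [Real.log_mul (by positivity) (by positivity), Real.log_mul (by positivity) (by positivity),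
    Real.log_pow, Real.log_pow, Real.log_pow] at b2
  have l4 : Real.log 4 = 2 * Real.log 2 := by
    rw [show (4 : ℝ) = 2 ^ 2 by norm_num, Real.log_pow]
    norm_num
  have l2a := Real.log_two_gt_d9
  have l2b := Real.log_two_lt_d9
  have b3 : ((2 * P / 3 : ℕ) : ℝ) ≤ 2 * P / 3 := by
    have := @Nat.cast_div_le ℝ _ _ _ (2 * P) 3
    push_cast at this
    exact this
  have b4 : Real.log ((2 * P : ℕ) : ℝ) ≤ 2 * Real.log P := by
    push_cast
    rw [Real.log_mul (by norm_num) hP0.ne']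
    linarith
  have b5 : ((Nat.sqrt (2 * P) : ℕ) : ℝ) ≤ 2 * (P : ℝ) ^ (1 / 2 : ℝ) := by
    have h5 : Nat.sqrt (2 * P) * Nat.sqrt (2 * P) ≤ 2 * P := Nat.sqrt_le _
    have h6 : ((Nat.sqrt (2 * P) : ℕ) : ℝ) * ((Nat.sqrt (2 * P) : ℕ) : ℝ) ≤ 2 * P := by exact_mod_cast h5
    have h7 : (P : ℝ) ^ (1 / 2 : ℝ) * (P : ℝ) ^ (1 / 2 : ℝ) = P := by
      rw [← Real.rpow_add hP0]
      norm_num
    have h8 : 0 ≤ (P : ℝ) ^ (1 / 2 : ℝ) := by positivity
    by_contra hc
    push Not at hc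
    nlinarith [mul_pos_of_neg_of_neg (sub_neg.2 hc) (sub_neg.2 hc)]
  have hq : (P : ℝ) ^ (1 / 4 : ℝ) * (P : ℝ) ^ (1 / 4 : ℝ) = (P : ℝ) ^ (1 / 2 : ℝ) := by
    rw [← Real.rpow_add hP0]
    norm_num
  have hq2 : (P : ℝ) ^ (1 / 2 : ℝ) * (P : ℝ) ^ (1 / 4 : ℝ) * (P : ℝ) ^ (1 / 4 : ℝ) = P := by
    rw [mul_assoc, hq, ← Real.rpow_add hP0]
    norm_num
  have hq3 : (1000 : ℝ) ≤ (P : ℝ) ^ (1 / 4 : ℝ) := by
    have h9 := Real.rpow_le_rpow (by positivity) hPR (show (0 : ℝ) ≤ 1 / 4 by norm_num)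
    refine le_trans (le_of_eq ?_) h9
    rw [← Real.rpow_natCast, ← Real.rpow_mul (by norm_num)]
    norm_num
  set r : ℝ := (P : ℝ) ^ (1 / 2 : ℝ) with hr
  set t : ℝ := (P : ℝ) ^ (1 / 4 : ℝ) with ht
  have hr0 : 0 ≤ r := by positivity
  -- the main inequality
  have b6 : ((Nat.sqrt (2 * P) : ℕ) : ℝ) * Real.log ((2 * P : ℕ) : ℝ) ≤ 4 * (r * t) := by
    have hs0 : (0 : ℝ) ≤ ((Nat.sqrt (2 * P) : ℕ) : ℝ) := Nat.cast_nonneg _
    calc ((Nat.sqrt (2 * P) : ℕ) : ℝ) * Real.log ((2 * P : ℕ) : ℝ) ≤ (2 * r) * (2 * t) :=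
          mul_le_mul b5 (b4.trans (by linarith)) (Real.log_nonneg (by exact_mod_cast (by omega : 1 ≤ 2 * P)))
            (by positivity)
      _ = 4 * (r * t) := by ring
  have b7 : r * t * 1000 ≤ P := by
    rw [← hq2]
    exact mul_le_mul_of_nonneg_left hq3 (by positivity)
  have b8 : Real.log P ≤ r * t := by
    have : (1 : ℝ) ≤ r := by
      rw [← hq]
      nlinarith
    nlinarith
  have b9 : (k : ℝ) * Real.log ((2 * P : ℕ) : ℝ) ≤ k * (2 * Real.log P) :=
    mul_le_mul_of_nonneg_left b4 (Nat.cast_nonneg _)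
  push_cast at b2 b6 b9
  rw [l4] at b2
  have b10 : (2 * P / 3 : ℝ) * (2 * Real.log 2) = (P : ℝ) * (4 / 3 * Real.log 2) := by ring
  have b11 : ((2 * P / 3 : ℕ) : ℝ) * (2 * Real.log 2) ≤ (P : ℝ) * (4 / 3 * Real.log 2) := by
    rw [← b10]
    exact mul_le_mul_of_nonneg_right b3 (by linarith)
  rw [← hk, div_le_iff₀ (by positivity)]
  nlinarith

end Pool.Agent.H76.GB

end

section

/-!
PK DiA: Λ in one residue class through primitive characters.

Let L = log N, N ≥ 3, 1 ≤ d ≤ N, (N,d) = 1,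
  A(d) = ∑_{n ≤ N, d | N - n} Λ(n) W(n),   MW = ∑_{n ≤ N} Λ(n) W(n).
Then |A(d) - MW/φ(d)| ≤ L² + (1/φ(d)) ∑_{χ mod d, χ ≠ 1} |TT N k χ*|, χ* = the primitive character inducing χ.

Proof.  d | N-n with (N,d)=1 forces (n,d)=1 and n ≡ N; by `DirichletCharacter.sum_char_inv_mul_char_eq`
  A(d) = (1/φ(d)) ∑_χ χ(N)⁻¹ TT N k χ  (|χ(N)⁻¹| ≤ 1).  For χ = 1: TT N k 1 = MW - ∑_{(n,d)>1} Λ(n)W(n).
For every χ: TT N k χ = TT N k χ* - ∑_{(n,d)>1} Λ(n) χ*(n) W(n) (χ(n) = χ*(n) for (n,d)=1: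
`DirichletCharacter.primitiveCharacter_apply_of_isCoprime`, and χ(n) = 0 otherwise).
Error: ∑_{n ≤ N, (n,d)>1} Λ(n) W(n) ≤ (4/27) ∑_{q | d} ∑_{j : q^j ≤ N} log q ≤ (4/27) ω(d) L ≤ (4/27)(1.45) L²  ≤ 0.22 L²
 (0 ≤ W ≤ 4/27 as log n/log N ≤ 1; 2^ω(d) ≤ d ≤ N).  Two such errors.
-/

set_option autoImplicit false

namespace Pool.Agent.H91.PK

open Finset

theorem DiA_omega_le {d : ℕ} (hd : 1 ≤ d) : (d.primeFactors.card : ℝ) * Real.log 2 ≤ Real.log d := by
  have h1 : 2 ^ d.primeFactors.card ≤ d := by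
    calc 2 ^ d.primeFactors.card ≤ ∏ p ∈ d.primeFactors, p :=
          Finset.pow_card_le_prod _ _ _ (fun p hp => (Nat.prime_of_mem_primeFactors hp).two_le)
      _ ≤ d := Nat.le_of_dvd hd (Nat.prod_primeFactors_dvd d)
  have h2 : ((2 : ℝ) ^ d.primeFactors.card) ≤ d := by exact_mod_cast h1
  have h3 := Real.log_le_log (by positivity) h2
  rwa [Real.log_pow] at h3

theorem DiA_psi_noncoprime {N d : ℕ} (hN : 1 ≤ N) (hd : 1 ≤ d) :
    ∑ n ∈ (Icc 1 N).filter (fun n => ¬ Nat.Coprime n d), ArithmeticFunction.vonMangoldt n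
      ≤ (d.primeFactors.card : ℝ) * Real.log N := by
  classical
  have key : ∀ n ∈ (Icc 1 N).filter (fun n => ¬ Nat.Coprime n d),
      ArithmeticFunction.vonMangoldt n ≤ ∑ q ∈ d.primeFactors,
        (if n ∈ (Icc 1 (Nat.log q N)).image (fun j => q ^ j) then
          ArithmeticFunction.vonMangoldt n else 0) := by
    intro n hn
    rw [mem_filter, mem_Icc] at hn
    have hnn : ∀ q ∈ d.primeFactors,
        0 ≤ (if n ∈ (Icc 1 (Nat.log q N)).image (fun j => q ^ j) then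
          ArithmeticFunction.vonMangoldt n else 0) := by
      intro q _
      split_ifs
      · exact ArithmeticFunction.vonMangoldt_nonneg
      · exact le_rfl
    by_cases hp : IsPrimePow n
    · obtain ⟨p, j, hp1, hj, rfl⟩ := hp
      have hpp : p.Prime := Nat.prime_iff.mpr hp1
      have hpd : p ∣ d := by
        by_contra hcon
        exact hn.2 (Nat.Coprime.pow_left _ ((Nat.Prime.coprime_iff_not_dvd hpp).mpr hcon))
      have hmem : p ∈ d.primeFactors := Nat.mem_primeFactors.mpr ⟨hpp, hpd, by omega⟩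
      refine le_trans ?_ (single_le_sum hnn hmem)
      rw [if_pos]
      refine mem_image.mpr ⟨j, ?_, rfl⟩
      rw [mem_Icc]
      exact ⟨hj, (Nat.le_log_iff_pow_le hpp.one_lt (by omega)).mpr hn.1.2⟩
    · rw [ArithmeticFunction.vonMangoldt_eq_zero_iff.mpr hp]
      simp
  calc ∑ n ∈ (Icc 1 N).filter (fun n => ¬ Nat.Coprime n d), ArithmeticFunction.vonMangoldt n
      ≤ ∑ n ∈ (Icc 1 N).filter (fun n => ¬ Nat.Coprime n d), ∑ q ∈ d.primeFactors,
        (if n ∈ (Icc 1 (Nat.log q N)).image (fun j => q ^ j) then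
          ArithmeticFunction.vonMangoldt n else 0) := sum_le_sum key
    _ = ∑ q ∈ d.primeFactors, ∑ n ∈ (Icc 1 N).filter (fun n => ¬ Nat.Coprime n d),
        (if n ∈ (Icc 1 (Nat.log q N)).image (fun j => q ^ j) then
          ArithmeticFunction.vonMangoldt n else 0) := sum_comm
    _ ≤ ∑ q ∈ d.primeFactors, Real.log N := by
        refine sum_le_sum fun q hq => ?_
        have hqp := Nat.prime_of_mem_primeFactors hq
        rw [← sum_filter]
        calc ∑ n ∈ ((Icc 1 N).filter (fun n => ¬ Nat.Coprime n d)).filter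
              (fun n => n ∈ (Icc 1 (Nat.log q N)).image (fun j => q ^ j)),
              ArithmeticFunction.vonMangoldt n
            ≤ ∑ n ∈ (Icc 1 (Nat.log q N)).image (fun j => q ^ j),
              ArithmeticFunction.vonMangoldt n := by
              refine sum_le_sum_of_subset_of_nonneg ?_
                (fun _ _ _ => ArithmeticFunction.vonMangoldt_nonneg)
              intro n hn
              exact (mem_filter.mp hn).2
          _ = ∑ j ∈ Icc 1 (Nat.log q N), ArithmeticFunction.vonMangoldt (q ^ j) := by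
              refine sum_image ?_
              intro a _ b _ hab
              exact Nat.pow_right_injective hqp.two_le hab
          _ = ∑ j ∈ Icc 1 (Nat.log q N), Real.log q := by
              refine sum_congr rfl fun j hj => ?_
              rw [mem_Icc] at hj
              rw [ArithmeticFunction.vonMangoldt_apply_pow (by omega),
                ArithmeticFunction.vonMangoldt_apply_prime hqp]
          _ = (Nat.log q N : ℝ) * Real.log q := by
              rw [sum_const, Nat.card_Icc, nsmul_eq_mul]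
              norm_num
          _ ≤ Real.log N := by
              rw [← Real.log_pow]
              refine Real.log_le_log ?_ ?_
              · have : (0 : ℝ) < q := by exact_mod_cast hqp.pos
                positivity
              · exact_mod_cast Nat.pow_log_le_self q (by omega)
    _ = (d.primeFactors.card : ℝ) * Real.log N := by
        rw [sum_const, nsmul_eq_mul]

theorem DiA_norm_char_le {m : ℕ} (χ : DirichletCharacter ℂ m) (a : ZMod m) : ‖χ a‖ ≤ 1 :=
  χ.norm_le_one a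

/-- values of the primitive character -/
theorem DiA_prim_eq {d n : ℕ} (χ : DirichletCharacter ℂ d) (h : Nat.Coprime n d) :
    χ.primitiveCharacter (n : ZMod χ.conductor) = χ (n : ZMod d) := by
  have h1 : IsCoprime (n : ℤ) (d : ℤ) := Nat.isCoprime_iff_coprime.mpr h
  have h2 := DirichletCharacter.primitiveCharacter_apply_of_isCoprime χ h1
  simpa using h2

theorem DiA_char_zero {d n : ℕ} (χ : DirichletCharacter ℂ d) (h : ¬ Nat.Coprime n d) :
    χ (n : ZMod d) = 0 := by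
  refine χ.map_nonunit ?_
  intro hu
  exact h ((ZMod.isUnit_iff_coprime n d).mp hu)

end Pool.Agent.H91.PK

end

section

/-!
PK CA: Taylor coefficients of L-functions to the right of 1 and their trivial bounds.

aL f j s = ∑_n f(n) (log n)^j/j! n^{-s},  fL f j s = ∑_n f(n) Λ(n) (log n)^j/j! n^{-s}.

`aL_bound`: let |f| ≤ 1, all partial sums over [1,B] bounded by r (r ≥ 1 real), 1 < σ ≤ 2, y = r(|t|+2),
  A = log y + 5.  Then |aL f j (σ+it)| ≤ A^(j+1).
Proof. n ≤ y: ∑_{n≤y} (log n)^j/n ≤ (log y)^j (log y + 1).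
 n > y: partial sums of f over (⌊y⌋, u] are ≤ 2r; Abel summation against h(u) = (log u)^j u^{-s}:
   |∑_{n>y}| ≤ 2r (sup_{u≥y} |h| + ∫_y^∞ |h'|) (or directly with h(n)-h(n+1) = -∫_n^{n+1} h'), |h'(u)| ≤
   (j (log u)^{j-1} + |s| (log u)^j)/u².   I_j := ∫_y^∞ (log u)^j u^{-2} du = (1/y) ∑_{i≤j} (j!/i!) (log y)^i
   ≤ (j!/y)(1+log y)^j, and sup_{u≥y} (log u)^j/u ≤ I_j.  Total ≤ 2r (j!/y)(1+log y)^j (2+|s|) ≤ 4 j! (1+log y)^j as
   |s| ≤ 2+|t|.
 Sum: j! |aL| ≤ (log y)^j(log y+1) + 4 j!(1+log y)^j ≤ j! (1+log y)^j (log y + 5).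
 (An alternative to integrals: the sequence h(n) for n > y and induction; free choice.)
`aL_bound_principal`: if instead |∑_{n≤B} f(n) - κ B| ≤ r with 0 ≤ κ ≤ 1, then |aL f 0 s| ≤ log y + 8 + 1/|s-1|.
 (tail: ∑_{n>Y} n^{-s} = Y^{1-s}/(s-1) + O((|s|+1)/Y) with Y = ⌊y⌋ or ⌈y⌉, plus the part with f - κ bounded as before.)
`char_principal`: for the principal character mod r: |∑_{n≤B} 1_{(n,r)=1} - (φ(r)/r) B| ≤ r.
-/

set_option autoImplicit false

namespace Pool.Agent.H91.PK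

open Finset

/-! ### auxiliary functions -/

/-- zeta at 1+x -/
theorem zeta_bound {x : ℝ} (hx : 0 < x) : ∑' n : ℕ, 1 / ((n : ℝ) + 1) ^ (1 + x) ≤ 1 + 1 / x := by
  have key : ∀ a : ℝ, 1 ≤ a → 1 / (a + 1) ^ (1 + x) ≤ 1 / x * (a ^ (-x) - (a + 1) ^ (-x)) := by
    intro a ha
    have ha0 : 0 < a := by linarith
    have h1 : 1 + x / (a + 1) ≤ ((a + 1) / a) ^ x := by
      rw [Real.rpow_def_of_pos (by positivity)]
      have h2 := Real.add_one_le_exp (Real.log ((a + 1) / a) * x)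
      have h3 := Real.one_sub_inv_le_log_of_pos (show 0 < (a + 1) / a by positivity)
      have h4 : 1 - ((a + 1) / a)⁻¹ = 1 / (a + 1) := by
        field_simp; ring
      rw [h4] at h3
      have h5 : x / (a + 1) ≤ Real.log ((a + 1) / a) * x := by
        calc x / (a + 1) = 1 / (a + 1) * x := by ring
          _ ≤ _ := mul_le_mul_of_nonneg_right h3 hx.le
      linarith
    have h2 : ((a + 1) / a) ^ x = (a + 1) ^ x * a ^ (-x) := by
      rw [Real.div_rpow (by positivity) ha0.le, Real.rpow_neg ha0.le]; rfl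
    have h3 : (a + 1) ^ (-x) * ((a + 1) ^ x * a ^ (-x)) = a ^ (-x) := by
      rw [← mul_assoc, ← Real.rpow_add (by positivity)]; simp
    have h4 : 0 < (a + 1) ^ (-x) := Real.rpow_pos_of_pos (by positivity) _
    have h5 := mul_le_mul_of_nonneg_left h1 h4.le
    rw [h2, h3] at h5
    have h6 : 1 / (a + 1) ^ (1 + x) = (a + 1) ^ (-x) / (a + 1) := by
      rw [Real.rpow_add (by positivity), Real.rpow_one, Real.rpow_neg (by positivity)]
      field_simp
    rw [h6]
    have h7 : (a + 1) ^ (-x) / (a + 1) = 1 / x * ((a + 1) ^ (-x) * (1 + x / (a + 1)) - (a + 1) ^ (-x)) := by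
      field_simp
      ring
    rw [h7]
    apply mul_le_mul_of_nonneg_left _ (by positivity)
    linarith
  have part : ∀ M : ℕ, ∑ n ∈ range (M + 1), 1 / ((n : ℝ) + 1) ^ (1 + x)
      ≤ 1 + 1 / x * (1 - ((M : ℝ) + 1) ^ (-x)) := by
    intro M
    induction M with
    | zero => simp
    | succ M ih =>
      rw [Finset.sum_range_succ]
      have h := key ((M : ℝ) + 1) (by linarith [Nat.cast_nonneg (α := ℝ) M])
      push_cast
      have : 1 + 1 / x * (1 - ((M : ℝ) + 1 + 1) ^ (-x)) = 1 + 1 / x * (1 - ((M : ℝ) + 1) ^ (-x))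
        + 1 / x * (((M : ℝ) + 1) ^ (-x) - ((M : ℝ) + 1 + 1) ^ (-x)) := by ring
      rw [this]
      exact add_le_add ih h
  apply Real.tsum_le_of_sum_range_le
  · intro n; positivity
  · intro n
    cases n with
    | zero => simp; positivity
    | succ M =>
      refine (part M).trans ?_
      have h1 : 0 < ((M : ℝ) + 1) ^ (-x) := by positivity
      have h2 : 1 / x * (1 - ((M : ℝ) + 1) ^ (-x)) ≤ 1 / x * 1 :=
        mul_le_mul_of_nonneg_left (by linarith) (by positivity)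
      linarith

end Pool.Agent.H91.PK

end

section

/-!
# From smooth sums to sharp cut-offs

`om(t) = t(1-t)²` on `[0,1]`.  Choose `ρ : ℝ → ℝ`, `ρ = 3` on `(0,1]`, `ρ(u) = P(u)` on `(1,1+δ]`, `0` beyond, where
`P` is a combination of (for instance) three step functions on thirds of `(1,1+δ]` (or a polynomial) with
`∫ P u^{-2} = 3`, `∫ P u^{-3} = 3/2`, `∫ P u^{-4} = 1`, `|P| ≤ C₀ δ^{-3}`.  Then
`w(t) := ∫_0^∞ om(t/u) ρ(u) du/u` satisfies `w(t) = 1` for `0 < t ≤ 1`, `w(t) = 0` for `t ≥ 1+δ`,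
`|w| ≤ C₀` (for `t ≤ 1`: `3∫_t^1 (1-v)² dv = (1-t)³`, and the moments give `3t - 3t² + t³`).
Linear system: with `u = 1 + δ z` the three conditions are a `3×3` system whose determinant is `≍ δ³` (Vandermonde).
(If you prefer: any other explicit `w`.)
Then `∑_{n ≤ y} a_n = ∑_n a_n w(n/y) - ∑_{y < n ≤ (1+δ)y} a_n w(n/y)`, and
`∑ a_n w(n/y) = ∫ ρ(u) S(uy) du/u`, `S(v) = ∑_{n ≤ v} a_n om(n/v)` for real `v`, `S(v) = 0` for `v < 1`,
`‖S(v) - S(⌊v⌋)‖ ≤ (1/⌊v⌋) ∑_{n ≤ v} ‖a_n‖ ≤ 2 H (1 + P/v)` by `om_lip`.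
-/

set_option autoImplicit false

namespace Pool.Agent.H91.EHA

open Finset
open Pool.Agent.H91.PK

/-- The average over `K` consecutive values. -/
noncomputable def swhA (K : ℕ) (f : ℕ → ℝ) (N : ℕ) : ℝ := (∑ i ∈ range K, f (N + i)) / K

theorem swhA_diff (K : ℕ) (f : ℕ → ℝ) (N : ℕ) :
    swhA K f (N + 1) - swhA K f N = (f (N + K) - f N) / K := by
  unfold swhA
  rw [← sub_div]
  congr 1
  have h1 := Finset.sum_range_succ (fun i => f (N + i)) K
  have h2 := Finset.sum_range_succ' (fun i => f (N + i)) K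
  rw [h1] at h2
  have h3 : ∑ i ∈ range K, f (N + 1 + i) = ∑ i ∈ range K, f (N + (i + 1)) := by
    refine Finset.sum_congr rfl fun i _ => ?_
    congr 1
    ring
  rw [h3]
  simp only [add_zero] at h2
  linarith

theorem swhA_nonneg (K : ℕ) (f : ℕ → ℝ) (hf : ∀ N, 0 ≤ f N) (N : ℕ) : 0 ≤ swhA K f N := by
  unfold swhA
  exact div_nonneg (Finset.sum_nonneg fun i _ => hf _) (Nat.cast_nonneg _)

theorem swhA_le_one (K : ℕ) (hK : 0 < K) (f : ℕ → ℝ) (hf : ∀ N, f N ≤ 1) (N : ℕ) :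
    swhA K f N ≤ 1 := by
  unfold swhA
  rw [div_le_one (Nat.cast_pos.2 hK)]
  calc ∑ i ∈ range K, f (N + i) ≤ ∑ _i ∈ range K, (1 : ℝ) := Finset.sum_le_sum fun i _ => hf _
    _ = K := by simp

theorem swhA_eq_one (K : ℕ) (hK : 0 < K) (f : ℕ → ℝ) (T : ℕ) (hf : ∀ N, N ≤ T → f N = 1) (N : ℕ)
    (hN : N + K ≤ T) : swhA K f N = 1 := by
  unfold swhA
  rw [Finset.sum_congr rfl (fun i hi => hf (N + i) (by
    have := Finset.mem_range.1 hi
    omega))]
  simp only [Finset.sum_const, Finset.card_range, nsmul_eq_mul, mul_one]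
  exact div_self (Nat.cast_pos.2 hK).ne'

theorem swhA_eq_zero (K : ℕ) (f : ℕ → ℝ) (T : ℕ) (hf : ∀ N, T < N → f N = 0) (N : ℕ)
    (hN : T < N) : swhA K f N = 0 := by
  unfold swhA
  rw [Finset.sum_eq_zero (fun i _ => hf (N + i) (by omega)), zero_div]

/-- The sharp cut-off. -/
noncomputable def swhC (M N : ℕ) : ℝ := if N ≤ M then 1 else 0

theorem swhC_nonneg (M N : ℕ) : 0 ≤ swhC M N := by
  unfold swhC
  split_ifs <;> norm_num

theorem swhC_le_one (M N : ℕ) : swhC M N ≤ 1 := by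
  unfold swhC
  split_ifs <;> norm_num

/-- The smoothed cut-off. -/
noncomputable def swhP (K M : ℕ) : ℕ → ℝ := swhA K (swhA K (swhA K (swhC M)))

theorem swhP_nonneg (K M N : ℕ) : 0 ≤ swhP K M N :=
  swhA_nonneg K _ (swhA_nonneg K _ (swhA_nonneg K _ (swhC_nonneg M))) N

theorem swhP_le_one (K M : ℕ) (hK : 0 < K) (N : ℕ) : swhP K M N ≤ 1 :=
  swhA_le_one K hK _ (swhA_le_one K hK _ (swhA_le_one K hK _ (swhC_le_one M))) N

theorem swhP_eq_one (K M : ℕ) (hK : 0 < K) (N : ℕ) (hN : N + 3 * K ≤ M) : swhP K M N = 1 := by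
  have h0 : ∀ N, N ≤ M → swhC M N = 1 := fun N h => if_pos h
  have h1 : ∀ N, N ≤ M - K → swhA K (swhC M) N = 1 := fun N h =>
    swhA_eq_one K hK _ M h0 N (by omega)
  have h2 : ∀ N, N ≤ M - 2 * K → swhA K (swhA K (swhC M)) N = 1 := fun N h =>
    swhA_eq_one K hK _ (M - K) h1 N (by omega)
  exact swhA_eq_one K hK _ (M - 2 * K) h2 N (by omega)

theorem swhP_eq_zero (K M N : ℕ) (hN : M < N) : swhP K M N = 0 := by
  have h0 : ∀ N, M < N → swhC M N = 0 := fun N h => if_neg (by omega)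
  have h1 : ∀ N, M < N → swhA K (swhC M) N = 0 := fun N h => swhA_eq_zero K _ M h0 N h
  have h2 : ∀ N, M < N → swhA K (swhA K (swhC M)) N = 0 := fun N h => swhA_eq_zero K _ M h1 N h
  exact swhA_eq_zero K _ M h2 N hN

theorem swhP_d1 (K M : ℕ) (hK : 0 < K) (N : ℕ) : |swhP K M (N + 1) - swhP K M N| ≤ 1 / K := by
  have hK' : (0 : ℝ) < K := Nat.cast_pos.2 hK
  unfold swhP
  rw [swhA_diff, abs_div, abs_of_pos hK']
  refine div_le_div_of_nonneg_right ?_ hK'.le
  have a1 := swhA_nonneg K _ (swhA_nonneg K _ (swhC_nonneg M)) (N + K)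
  have a2 := swhA_nonneg K _ (swhA_nonneg K _ (swhC_nonneg M)) N
  have a3 := swhA_le_one K hK _ (swhA_le_one K hK _ (swhC_le_one M)) (N + K)
  have a4 := swhA_le_one K hK _ (swhA_le_one K hK _ (swhC_le_one M)) N
  rw [abs_le]
  constructor <;> linarith

theorem swhP_d2_eq (K M : ℕ) (hK : 0 < K) (N : ℕ) :
    swhP K M (N + 2) - 2 * swhP K M (N + 1) + swhP K M N =
      (swhA K (swhC M) (N + 2 * K) - 2 * swhA K (swhC M) (N + K) + swhA K (swhC M) N) / K ^ 2 := by
  have hK' : (0 : ℝ) < K := Nat.cast_pos.2 hK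
  have h1 : swhP K M (N + 2) - swhP K M (N + 1) =
      (swhA K (swhA K (swhC M)) (N + 1 + K) - swhA K (swhA K (swhC M)) (N + 1)) / K :=
    swhA_diff K _ (N + 1)
  have h2 : swhP K M (N + 1) - swhP K M N =
      (swhA K (swhA K (swhC M)) (N + K) - swhA K (swhA K (swhC M)) N) / K :=
    swhA_diff K _ N
  have h3 := swhA_diff K (swhA K (swhC M)) (N + K)
  have h4 := swhA_diff K (swhA K (swhC M)) N
  rw [show N + 1 + K = N + K + 1 by ring] at h1
  rw [show N + K + K = N + 2 * K by ring] at h3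
  have h5 : swhP K M (N + 2) - 2 * swhP K M (N + 1) + swhP K M N =
      ((swhA K (swhA K (swhC M)) (N + K + 1) - swhA K (swhA K (swhC M)) (N + K)) -
        (swhA K (swhA K (swhC M)) (N + 1) - swhA K (swhA K (swhC M)) N)) / K := by
    have : swhP K M (N + 2) - 2 * swhP K M (N + 1) + swhP K M N =
      (swhP K M (N + 2) - swhP K M (N + 1)) - (swhP K M (N + 1) - swhP K M N) := by ring
    rw [this, h1, h2]
    ring
  rw [h5, h3, h4]
  field_simp
  ring

theorem swhP_d2 (K M : ℕ) (hK : 0 < K) (N : ℕ) :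
    |swhP K M (N + 2) - 2 * swhP K M (N + 1) + swhP K M N| ≤ 2 / K ^ 2 := by
  have hK' : (0 : ℝ) < K := Nat.cast_pos.2 hK
  rw [swhP_d2_eq K M hK N, abs_div, abs_of_pos (by positivity : (0 : ℝ) < (K : ℝ) ^ 2)]
  refine div_le_div_of_nonneg_right ?_ (by positivity)
  have a1 := swhA_nonneg K _ (swhC_nonneg M) (N + 2 * K)
  have a2 := swhA_nonneg K _ (swhC_nonneg M) (N + K)
  have a3 := swhA_nonneg K _ (swhC_nonneg M) N
  have a4 := swhA_le_one K hK _ (swhC_le_one M) (N + 2 * K)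
  have a5 := swhA_le_one K hK _ (swhC_le_one M) (N + K)
  have a6 := swhA_le_one K hK _ (swhC_le_one M) N
  rw [abs_le]
  constructor <;> linarith only [a1, a3, a5, a2, a4, a6]

theorem swhP_d3 (K M : ℕ) (hK : 0 < K) (N : ℕ) :
    |swhP K M (N + 3) - 3 * swhP K M (N + 2) + 3 * swhP K M (N + 1) - swhP K M N|
      ≤ 4 / K ^ 3 := by
  have hK' : (0 : ℝ) < K := Nat.cast_pos.2 hK
  have h1 := swhP_d2_eq K M hK (N + 1)
  have h2 := swhP_d2_eq K M hK N
  have h3 := swhA_diff K (swhC M) (N + 2 * K)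
  have h4 := swhA_diff K (swhC M) (N + K)
  have h5 := swhA_diff K (swhC M) N
  rw [show N + 1 + 2 * K = N + 2 * K + 1 by ring, show N + 1 + K = N + K + 1 by ring] at h1
  have e : swhP K M (N + 3) - 3 * swhP K M (N + 2) + 3 * swhP K M (N + 1) - swhP K M N =
      (swhC M (N + 2 * K + K) - swhC M (N + 2 * K) - 2 * (swhC M (N + K + K) - swhC M (N + K)) +
        (swhC M (N + K) - swhC M N)) / K ^ 3 := by
    have e1 : swhP K M (N + 3) - 3 * swhP K M (N + 2) + 3 * swhP K M (N + 1) - swhP K M N =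
      (swhP K M (N + 1 + 2) - 2 * swhP K M (N + 1 + 1) + swhP K M (N + 1)) -
      (swhP K M (N + 2) - 2 * swhP K M (N + 1) + swhP K M N) := by
      rw [show N + 1 + 2 = N + 3 by ring, show N + 1 + 1 = N + 2 by ring]
      ring
    rw [e1, h1, h2]
    have e2 : (swhA K (swhC M) (N + 2 * K + 1) - 2 * swhA K (swhC M) (N + K + 1) +
        swhA K (swhC M) (N + 1)) / (K : ℝ) ^ 2 -
        (swhA K (swhC M) (N + 2 * K) - 2 * swhA K (swhC M) (N + K) +
          swhA K (swhC M) N) / (K : ℝ) ^ 2 =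
        ((swhA K (swhC M) (N + 2 * K + 1) - swhA K (swhC M) (N + 2 * K)) -
          2 * (swhA K (swhC M) (N + K + 1) - swhA K (swhC M) (N + K)) +
          (swhA K (swhC M) (N + 1) - swhA K (swhC M) N)) / (K : ℝ) ^ 2 := by ring
    rw [e2, h3, h4, h5]
    field_simp
  rw [e, abs_div, abs_of_pos (by positivity : (0 : ℝ) < (K : ℝ) ^ 3)]
  refine div_le_div_of_nonneg_right ?_ (by positivity)
  have b1 : N + 2 * K + K = N + 3 * K := by ring
  have b2 : N + K + K = N + 2 * K := by ring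
  rw [b1, b2]
  have a1 := swhC_nonneg M (N + 3 * K)
  have a2 := swhC_nonneg M (N + 2 * K)
  have a3 := swhC_nonneg M (N + K)
  have a4 := swhC_nonneg M N
  have a5 := swhC_le_one M (N + 3 * K)
  have a6 := swhC_le_one M (N + 2 * K)
  have a7 := swhC_le_one M (N + K)
  have a8 := swhC_le_one M N
  rw [abs_le]
  constructor <;> linarith only [a1, a3, a6, a8, a2, a4, a5, a7]

/-- The weight. -/
noncomputable def swhW (K M : ℕ) (N : ℕ) : ℝ := swhP K M N * (1 / (2 * (N : ℝ)))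

/-- Its third difference. -/
noncomputable def swhD (K M : ℕ) (N : ℕ) : ℝ :=
  swhW K M (N + 3) - 3 * swhW K M (N + 2) + 3 * swhW K M (N + 1) - swhW K M N

theorem swh_psi3 (x : ℝ) (hx : 1 ≤ x) :
    |1 / (2 * (x + 3)) - 3 * (1 / (2 * (x + 2))) + 3 * (1 / (2 * (x + 1))) - 1 / (2 * x)|
      ≤ 3 / x ^ 4 := by
  have e : 1 / (2 * (x + 3)) - 3 * (1 / (2 * (x + 2))) + 3 * (1 / (2 * (x + 1))) - 1 / (2 * x)
      = -(3 / (x * (x + 1) * (x + 2) * (x + 3))) := by
    field_simp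
    ring
  rw [e, abs_neg, abs_of_pos (by positivity)]
  refine div_le_div_of_nonneg_left (by norm_num) (by positivity) ?_
  have h : x ^ 4 = x * x * x * x := by ring
  rw [h]
  gcongr <;> linarith only

theorem swh_psi2 (x : ℝ) (hx : 1 ≤ x) :
    |1 / (2 * (x + 2)) - 2 * (1 / (2 * (x + 1))) + 1 / (2 * x)| ≤ 1 / x ^ 3 := by
  have e : 1 / (2 * (x + 2)) - 2 * (1 / (2 * (x + 1))) + 1 / (2 * x)
      = 1 / (x * (x + 1) * (x + 2)) := by
    field_simp
    ring
  rw [e, abs_of_pos (by positivity)]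
  refine div_le_div_of_nonneg_left (by norm_num) (by positivity) ?_
  have h : x ^ 3 = x * x * x := by ring
  rw [h]
  gcongr <;> linarith only

theorem swh_psi1 (x : ℝ) (hx : 1 ≤ x) :
    |1 / (2 * (x + 1)) - 1 / (2 * x)| ≤ 1 / (2 * x ^ 2) := by
  have e : 1 / (2 * (x + 1)) - 1 / (2 * x) = -(1 / (2 * (x * (x + 1)))) := by
    field_simp
    ring
  rw [e, abs_neg, abs_of_pos (by positivity)]
  refine div_le_div_of_nonneg_left (by norm_num) (by positivity) ?_
  have h : x ^ 2 = x * x := by ring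
  rw [h]
  gcongr
  linarith

theorem swhD_bound (K y : ℕ) (hK : 0 < K) (hKy : K ≤ y) (N : ℕ) (hN : 1 ≤ N) :
    (N : ℝ) ^ 3 * |swhD K (y + 2 + 3 * K) N| ≤
      3 / N + (if y ≤ N then 8 * (N : ℝ) ^ 2 / K ^ 3 else 0) := by
  have hx : (1 : ℝ) ≤ N := by exact_mod_cast hN
  have hx0 : (0 : ℝ) < N := by linarith
  have hK' : (0 : ℝ) < K := Nat.cast_pos.2 hK
  set M := y + 2 + 3 * K with hM
  have c1 : ((N + 1 : ℕ) : ℝ) = (N : ℝ) + 1 := by push_cast; ring
  have c2 : ((N + 2 : ℕ) : ℝ) = (N : ℝ) + 2 := by push_cast; ring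
  have c3 : ((N + 3 : ℕ) : ℝ) = (N : ℝ) + 3 := by push_cast; ring
  have p3 := swh_psi3 N hx
  have p2 := swh_psi2 N hx
  have p1 := swh_psi1 N hx
  by_cases hy : y ≤ N
  · rw [if_pos hy]
    have hKN : (K : ℝ) ≤ N := by exact_mod_cast hKy.trans hy
    have q0 := swhP_nonneg K M (N + 3)
    have q0' := swhP_le_one K M hK (N + 3)
    have q1 := swhP_d1 K M hK (N + 2)
    have q2 := swhP_d2 K M hK (N + 1)
    have q3 := swhP_d3 K M hK N
    rw [show N + 2 + 1 = N + 3 by ring] at q1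
    rw [show N + 1 + 2 = N + 3 by ring, show N + 1 + 1 = N + 2 by ring] at q2
    have e : swhD K M N =
        swhP K M (N + 3) * (1 / (2 * ((N : ℝ) + 3)) - 3 * (1 / (2 * ((N : ℝ) + 2))) +
          3 * (1 / (2 * ((N : ℝ) + 1))) - 1 / (2 * (N : ℝ))) +
        3 * (swhP K M (N + 3) - swhP K M (N + 2)) *
          (1 / (2 * ((N : ℝ) + 2)) - 2 * (1 / (2 * ((N : ℝ) + 1))) + 1 / (2 * (N : ℝ))) +
        3 * (swhP K M (N + 3) - 2 * swhP K M (N + 2) + swhP K M (N + 1)) *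
          (1 / (2 * ((N : ℝ) + 1)) - 1 / (2 * (N : ℝ))) +
        (swhP K M (N + 3) - 3 * swhP K M (N + 2) + 3 * swhP K M (N + 1) - swhP K M N) *
          (1 / (2 * (N : ℝ))) := by
      unfold swhD swhW
      rw [c1, c2, c3]
      ring
    have hb : |swhD K M N| ≤ 1 * (3 / (N : ℝ) ^ 4) + 3 * (1 / (K : ℝ)) * (1 / (N : ℝ) ^ 3) +
        3 * (2 / (K : ℝ) ^ 2) * (1 / (2 * (N : ℝ) ^ 2)) +
        (4 / (K : ℝ) ^ 3) * (1 / (2 * (N : ℝ))) := by
      rw [e]
      refine (abs_add_le _ _).trans (add_le_add ((abs_add_le _ _).trans (add_le_add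
        ((abs_add_le _ _).trans (add_le_add ?_ ?_)) ?_)) ?_)
      · rw [abs_mul, abs_of_nonneg q0]
        exact mul_le_mul q0' p3 (abs_nonneg _) (by norm_num)
      · rw [abs_mul, abs_mul, abs_of_pos (by norm_num : (0 : ℝ) < 3)]
        exact mul_le_mul (mul_le_mul_of_nonneg_left q1 (by norm_num)) p2 (abs_nonneg _)
          (by positivity)
      · rw [abs_mul, abs_mul, abs_of_pos (by norm_num : (0 : ℝ) < 3)]
        exact mul_le_mul (mul_le_mul_of_nonneg_left q2 (by norm_num)) p1 (abs_nonneg _)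
          (by positivity)
      · rw [abs_mul, abs_of_pos (by positivity : (0 : ℝ) < 1 / (2 * (N : ℝ)))]
        exact mul_le_mul_of_nonneg_right q3 (by positivity)
    have h1 : (N : ℝ) ^ 3 * |swhD K M N| ≤
        3 / N + 3 * (1 / K) + 3 * (N / K ^ 2) + 2 * (N ^ 2 / K ^ 3) := by
      calc (N : ℝ) ^ 3 * |swhD K M N| ≤ (N : ℝ) ^ 3 * (1 * (3 / (N : ℝ) ^ 4) +
          3 * (1 / (K : ℝ)) * (1 / (N : ℝ) ^ 3) + 3 * (2 / (K : ℝ) ^ 2) * (1 / (2 * (N : ℝ) ^ 2)) +
          (4 / (K : ℝ) ^ 3) * (1 / (2 * (N : ℝ)))) :=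
            mul_le_mul_of_nonneg_left hb (by positivity)
        _ = _ := by
            field_simp
            ring
    have h2 : (1 : ℝ) / K ≤ N ^ 2 / K ^ 3 := by
      rw [div_le_div_iff₀ hK' (by positivity)]
      have : (K : ℝ) ^ 2 ≤ N ^ 2 := pow_le_pow_left₀ hK'.le hKN 2
      nlinarith only [this]
    have h3 : (N : ℝ) / K ^ 2 ≤ N ^ 2 / K ^ 3 := by
      rw [div_le_div_iff₀ (by positivity) (by positivity)]
      have e1 : (N : ℝ) * K ^ 3 = (N * K ^ 2) * K := by ring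
      have e2 : (N : ℝ) ^ 2 * K ^ 2 = (N * K ^ 2) * N := by ring
      rw [e1, e2]
      exact mul_le_mul_of_nonneg_left hKN (by positivity)
    have h4 : 8 * (N : ℝ) ^ 2 / K ^ 3 = 8 * (N ^ 2 / K ^ 3) := by ring
    rw [h4]
    linarith only [h1, h2, h3]
  · rw [if_neg hy, add_zero]
    have o0 : swhP K M N = 1 := swhP_eq_one K M hK N (by omega)
    have o1 : swhP K M (N + 1) = 1 := swhP_eq_one K M hK (N + 1) (by omega)
    have o2 : swhP K M (N + 2) = 1 := swhP_eq_one K M hK (N + 2) (by omega)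
    have o3 : swhP K M (N + 3) = 1 := swhP_eq_one K M hK (N + 3) (by omega)
    have e : swhD K M N = 1 / (2 * ((N : ℝ) + 3)) - 3 * (1 / (2 * ((N : ℝ) + 2))) +
          3 * (1 / (2 * ((N : ℝ) + 1))) - 1 / (2 * (N : ℝ)) := by
      unfold swhD swhW
      rw [c1, c2, c3, o0, o1, o2, o3]
      ring
    rw [e]
    calc (N : ℝ) ^ 3 * _ ≤ (N : ℝ) ^ 3 * (3 / (N : ℝ) ^ 4) :=
          mul_le_mul_of_nonneg_left p3 (by positivity)
      _ = 3 / N := by field_simp

theorem swh_tel (w : ℕ → ℝ) (n L : ℕ) :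
    ∑ m ∈ range L, (m : ℝ) ^ 2 * (w (n + m + 3) - 3 * w (n + m + 2) + 3 * w (n + m + 1) -
      w (n + m)) = -w (n + 1) - w (n + 2) + ((L : ℝ) - 1) ^ 2 * w (n + L + 2) +
      (((L : ℝ) - 2) ^ 2 - 3 * ((L : ℝ) - 1) ^ 2) * w (n + L + 1) + (L : ℝ) ^ 2 * w (n + L) := by
  induction L with
  | zero =>
    simp
    ring
  | succ L ih =>
    rw [Finset.sum_range_succ, ih]
    have e1 : n + (L + 1) + 2 = n + L + 3 := by ring
    have e2 : n + (L + 1) + 1 = n + L + 2 := by ring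
    have e3 : n + (L + 1) = n + L + 1 := by ring
    rw [e1, e2, e3]
    push_cast
    ring

theorem swh_inner (K M n : ℕ) (hn : n ≤ M) :
    ∑ N ∈ Icc n M, ((N : ℝ) - n) ^ 2 * (-swhD K M N) = swhW K M (n + 1) + swhW K M (n + 2) := by
  have h0 : ∀ N, M < N → swhW K M N = 0 := by
    intro N hN
    unfold swhW
    rw [swhP_eq_zero K M N hN, zero_mul]
  have h1 := swh_tel (swhW K M) n (M + 1 - n)
  rw [show n + (M + 1 - n) = M + 1 by omega, h0 (M + 1) (by omega), h0 (M + 1 + 1) (by omega),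
    h0 (M + 1 + 2) (by omega)] at h1
  have h2 : Icc n M = Ico n (M + 1) := by
    ext x
    simp only [mem_Icc, mem_Ico]
    omega
  rw [h2, Finset.sum_Ico_eq_sum_range]
  have h3 : ∑ k ∈ range (M + 1 - n), (((n + k : ℕ) : ℝ) - n) ^ 2 * (-swhD K M (n + k)) =
      -∑ m ∈ range (M + 1 - n), (m : ℝ) ^ 2 * (swhW K M (n + m + 3) - 3 * swhW K M (n + m + 2) +
        3 * swhW K M (n + m + 1) - swhW K M (n + m)) := by
    rw [← Finset.sum_neg_distrib]
    refine Finset.sum_congr rfl fun m _ => ?_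
    unfold swhD
    push_cast
    ring
  rw [h3, h1]
  ring

theorem swh_ident (K M : ℕ) (a : ℕ → ℂ) :
    ∑ n ∈ Icc 1 M, (((n : ℝ) * (swhW K M (n + 1) + swhW K M (n + 2)) : ℝ) : ℂ) * a n =
      ∑ N ∈ Icc 1 M, ((-swhD K M N : ℝ) : ℂ) *
        ∑ n ∈ Icc 1 N, (((n : ℝ) * ((N : ℝ) - n) ^ 2 : ℝ) : ℂ) * a n := by
  have h1 : ∑ N ∈ Icc 1 M, ((-swhD K M N : ℝ) : ℂ) *
        ∑ n ∈ Icc 1 N, (((n : ℝ) * ((N : ℝ) - n) ^ 2 : ℝ) : ℂ) * a n =
      ∑ N ∈ Icc 1 M, ∑ n ∈ Icc 1 N,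
        ((((N : ℝ) - n) ^ 2 * (-swhD K M N) : ℝ) : ℂ) * (((n : ℝ) : ℂ) * a n) := by
    refine Finset.sum_congr rfl fun N _ => ?_
    rw [Finset.mul_sum]
    refine Finset.sum_congr rfl fun n _ => ?_
    push_cast
    ring
  rw [h1, Finset.sum_comm' (t' := Icc 1 M) (s' := fun n => Icc n M) (by
    intro x y
    simp only [mem_Icc]
    omega)]
  refine Finset.sum_congr rfl fun n hn => ?_
  rw [← Finset.sum_mul, ← Complex.ofReal_sum, swh_inner K M n (mem_Icc.1 hn).2]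
  push_cast
  ring

theorem swh_S (a : ℕ → ℂ) (N : ℕ) (hN : 1 ≤ N) :
    ∑ n ∈ Icc 1 N, (((n : ℝ) * ((N : ℝ) - n) ^ 2 : ℝ) : ℂ) * a n =
      (((N : ℝ) ^ 3 : ℝ) : ℂ) * ∑ n ∈ Icc 1 N, a n * ((om ((n : ℝ) / N) : ℝ) : ℂ) := by
  have hN0 : (0 : ℝ) < N := Nat.cast_pos.2 hN
  rw [Finset.mul_sum]
  refine Finset.sum_congr rfl fun n hn => ?_
  obtain ⟨h1, h2⟩ := mem_Icc.1 hn
  have h3 : om ((n : ℝ) / N) = (n : ℝ) / N * (1 - (n : ℝ) / N) ^ 2 := by
    unfold om
    rw [if_pos]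
    refine ⟨by positivity, ?_⟩
    rw [div_le_one hN0]
    exact_mod_cast h2
  have h4 : (N : ℝ) ^ 3 * om ((n : ℝ) / N) = (n : ℝ) * ((N : ℝ) - n) ^ 2 := by
    rw [h3]
    field_simp
  rw [← h4]
  push_cast
  ring

theorem swh_abel (b : ℕ → ℝ) (Y : ℕ) :
    ∑ n ∈ Icc 1 Y, b n / n = (∑ n ∈ Icc 1 Y, b n) / (Y + 1) +
      ∑ k ∈ Icc 1 Y, (∑ n ∈ Icc 1 k, b n) / ((k : ℝ) * (k + 1)) := by
  induction Y with
  | zero => simp
  | succ Y ih =>
    rw [Finset.sum_Icc_succ_top (by omega), Finset.sum_Icc_succ_top (by omega) (f := fun k =>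
      (∑ n ∈ Icc 1 k, b n) / ((k : ℝ) * (k + 1))), ih, Finset.sum_Icc_succ_top (by omega) (f := b)]
    push_cast
    have h1 : (0 : ℝ) < (Y : ℝ) + 1 := by positivity
    field_simp
    ring

theorem swh_harm (M : ℕ) : ∑ N ∈ Icc 1 M, (1 : ℝ) / N ≤ 1 + Real.log M := by
  have h := harmonic_le_one_add_log M
  rw [harmonic_eq_sum_Icc] at h
  push_cast at h
  simpa using h

theorem swh_tele (Y : ℕ) : ∑ k ∈ Icc 1 Y, (1 : ℝ) / ((k : ℝ) * (k + 1)) = 1 - 1 / (Y + 1) := by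
  induction Y with
  | zero => simp
  | succ Y ih =>
    rw [Finset.sum_Icc_succ_top (by omega), ih]
    push_cast
    field_simp
    ring

theorem swh_logsum (b : ℕ → ℝ) (H P : ℝ) (hH : 0 ≤ H) (hP : 1 ≤ P) (Y : ℕ)
    (hb : ∀ k, k ≤ Y → ∑ n ∈ Icc 1 k, b n ≤ H * (k + P)) :
    ∑ n ∈ Icc 1 Y, b n / n ≤ H * (4 * P + Real.log Y) := by
  rw [swh_abel]
  have hY : (0 : ℝ) ≤ Y := Nat.cast_nonneg _
  have h1 : (∑ n ∈ Icc 1 Y, b n) / ((Y : ℝ) + 1) ≤ H * (1 + P) := by
    rw [div_le_iff₀ (by positivity)]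
    refine (hb Y le_rfl).trans ?_
    rw [mul_assoc]
    refine mul_le_mul_of_nonneg_left ?_ hH
    nlinarith only [hP]
  have h2 : ∑ k ∈ Icc 1 Y, (∑ n ∈ Icc 1 k, b n) / ((k : ℝ) * (k + 1)) ≤
      H * (1 + Real.log Y + P) := by
    calc ∑ k ∈ Icc 1 Y, (∑ n ∈ Icc 1 k, b n) / ((k : ℝ) * (k + 1))
        ≤ ∑ k ∈ Icc 1 Y, (H * (1 / (k : ℝ)) + H * P * (1 / ((k : ℝ) * (k + 1)))) := by
          refine Finset.sum_le_sum fun k hk => ?_
          obtain ⟨hk1, hk2⟩ := mem_Icc.1 hk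
          have hk0 : (1 : ℝ) ≤ k := by exact_mod_cast hk1
          have hk0' : (0 : ℝ) < k := by linarith only [hk0]
          have e : H * (1 / (k : ℝ)) + H * P * (1 / ((k : ℝ) * (k + 1))) =
              H * ((k : ℝ) + 1 + P) / ((k : ℝ) * (k + 1)) := by
            field_simp
          rw [e]
          refine div_le_div_of_nonneg_right ?_ (by positivity)
          refine (hb k hk2).trans (mul_le_mul_of_nonneg_left (by linarith only) hH)
      _ = H * (∑ k ∈ Icc 1 Y, 1 / (k : ℝ)) + H * P * ∑ k ∈ Icc 1 Y, 1 / ((k : ℝ) * (k + 1)) := by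
          rw [Finset.sum_add_distrib, Finset.mul_sum, Finset.mul_sum]
      _ ≤ H * (1 + Real.log Y) + H * P * 1 := by
          refine add_le_add (mul_le_mul_of_nonneg_left (swh_harm Y) hH)
            (mul_le_mul_of_nonneg_left ?_ (by positivity))
          rw [swh_tele]
          have : (0 : ℝ) ≤ 1 / ((Y : ℝ) + 1) := by positivity
          linarith
      _ = _ := by ring
  have h3 : H * (1 + P) + H * (1 + Real.log Y + P) ≤ H * (4 * P + Real.log Y) := by
    nlinarith only [hH, hP]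
  linarith only [h1, h2, h3]

theorem swh_c_bounds (K M : ℕ) (hK : 0 < K) (n : ℕ) :
    0 ≤ (n : ℝ) * (swhW K M (n + 1) + swhW K M (n + 2)) ∧
      (n : ℝ) * (swhW K M (n + 1) + swhW K M (n + 2)) ≤ 1 := by
  have hn : (0 : ℝ) ≤ n := Nat.cast_nonneg _
  have a1 := swhP_nonneg K M (n + 1)
  have a2 := swhP_nonneg K M (n + 2)
  have a3 := swhP_le_one K M hK (n + 1)
  have a4 := swhP_le_one K M hK (n + 2)
  have c1 : ((n + 1 : ℕ) : ℝ) = (n : ℝ) + 1 := by push_cast; ring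
  have c2 : ((n + 2 : ℕ) : ℝ) = (n : ℝ) + 2 := by push_cast; ring
  have w1 : swhW K M (n + 1) ≤ 1 / (2 * ((n : ℝ) + 1)) := by
    unfold swhW
    rw [c1]
    calc _ ≤ 1 * (1 / (2 * ((n : ℝ) + 1))) := mul_le_mul_of_nonneg_right a3 (by positivity)
      _ = _ := one_mul _
  have w2 : swhW K M (n + 2) ≤ 1 / (2 * ((n : ℝ) + 2)) := by
    unfold swhW
    rw [c2]
    calc _ ≤ 1 * (1 / (2 * ((n : ℝ) + 2))) := mul_le_mul_of_nonneg_right a4 (by positivity)
      _ = _ := one_mul _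
  have w1' : 0 ≤ swhW K M (n + 1) := by
    unfold swhW
    positivity
  have w2' : 0 ≤ swhW K M (n + 2) := by
    unfold swhW
    positivity
  refine ⟨by positivity, ?_⟩
  calc (n : ℝ) * (swhW K M (n + 1) + swhW K M (n + 2))
      ≤ (n : ℝ) * (1 / (2 * ((n : ℝ) + 1)) + 1 / (2 * ((n : ℝ) + 2))) :=
        mul_le_mul_of_nonneg_left (add_le_add w1 w2) hn
    _ ≤ 1 := by
        have e : (n : ℝ) * (1 / (2 * ((n : ℝ) + 1)) + 1 / (2 * ((n : ℝ) + 2))) =
          (n : ℝ) * (2 * n + 3) / (2 * ((n : ℝ) + 1) * ((n : ℝ) + 2)) := by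
            field_simp
            ring
        rw [e, div_le_one (by positivity)]
        nlinarith only

theorem swh_c_low (K y : ℕ) (hK : 0 < K) (n : ℕ) (hn : 1 ≤ n) (hny : n ≤ y) :
    1 - (n : ℝ) * (swhW K (y + 2 + 3 * K) (n + 1) + swhW K (y + 2 + 3 * K) (n + 2)) ≤
      2 / (n : ℝ) := by
  have hn0 : (1 : ℝ) ≤ n := by exact_mod_cast hn
  have c1 : ((n + 1 : ℕ) : ℝ) = (n : ℝ) + 1 := by push_cast; ring
  have c2 : ((n + 2 : ℕ) : ℝ) = (n : ℝ) + 2 := by push_cast; ring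
  unfold swhW
  rw [swhP_eq_one K _ hK (n + 1) (by omega), swhP_eq_one K _ hK (n + 2) (by omega), c1, c2]
  have e : 1 - (n : ℝ) * (1 * (1 / (2 * ((n : ℝ) + 1))) + 1 * (1 / (2 * ((n : ℝ) + 2)))) =
      (3 * (n : ℝ) + 4) / (2 * ((n : ℝ) + 1) * ((n : ℝ) + 2)) := by
    field_simp
    ring
  rw [e, div_le_div_iff₀ (by positivity) (by positivity)]
  nlinarith only [hn0]

theorem smooth_to_sharp : ∃ C : ℝ, 0 < C ∧ ∀ (a : ℕ → ℂ) (B H P : ℝ) (y : ℕ) (δ : ℝ),
    0 ≤ B → 0 ≤ H → 1 ≤ P → 2 ≤ y → 0 < δ → δ ≤ 1 / 2 →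
    (∀ N : ℕ, 1 ≤ N → N ≤ 2 * y → ‖∑ n ∈ Icc 1 N, a n * ((om ((n : ℝ) / N) : ℝ) : ℂ)‖ ≤ B) →
    (∀ u v : ℕ, u ≤ v → v ≤ 2 * y → ∑ n ∈ Ioc u v, ‖a n‖ ≤ H * ((v : ℝ) - u + P)) →
    ‖∑ n ∈ Icc 1 y, a n‖
      ≤ C * (B * (1 / δ ^ 3 + Real.log y) + H * (δ * y + Real.log y + P / δ ^ 3)) := by
  refine ⟨30000, by norm_num, fun a B H P y δ hB hH hP hy hδ hδ2 hS hA => ?_⟩
  have hy0 : (2 : ℝ) ≤ y := by exact_mod_cast hy
  have hlog0 : 0 ≤ Real.log y := Real.log_nonneg (by linarith only [hδ, hδ2, hy0])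
  have hlog2 : Real.log 2 ≤ Real.log y := Real.log_le_log (by norm_num) hy0
  have hδ3 : 0 < δ ^ 3 := by positivity
  have hd1 : 1 / δ ≤ 1 / δ ^ 3 := by
    refine one_div_le_one_div_of_le hδ3 ?_
    nlinarith only [hδ, hδ2, sq_nonneg δ, mul_pos hδ hδ]
  have hd2 : 1 / δ ^ 2 ≤ 1 / δ ^ 3 := by
    refine one_div_le_one_div_of_le hδ3 ?_
    nlinarith only [hδ, hδ2, sq_nonneg δ, mul_pos hδ hδ]
  have hd0 : 1 ≤ 1 / δ ^ 3 := by
    rw [le_div_iff₀ hδ3]
    nlinarith only [hδ, hδ2, sq_nonneg δ, mul_pos hδ hδ]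
  have hP3 : P ≤ P / δ ^ 3 := by
    rw [div_eq_mul_one_div]
    nlinarith only [hd0, hP]
  have hIcc : ∀ N : ℕ, Icc 1 N = Ioc 0 N := by
    intro N
    ext x
    simp only [mem_Icc, mem_Ioc]
    omega
  have hA0 : ∀ k : ℕ, k ≤ 2 * y → ∑ n ∈ Icc 1 k, ‖a n‖ ≤ H * ((k : ℝ) + P) := by
    intro k hk
    rw [hIcc]
    have := hA 0 k (Nat.zero_le _) hk
    simpa using this
  rcases lt_or_ge (δ * y) 6 with hsmall | hbig
  · -- trivial bound
    have h1 : ‖∑ n ∈ Icc 1 y, a n‖ ≤ H * ((y : ℝ) + P) :=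
      (norm_sum_le _ _).trans (hA0 y (by omega))
    have h2 : (y : ℝ) ≤ 6 * (1 / δ) := by
      rw [mul_one_div, le_div_iff₀ hδ]
      linarith
    have h3 : (y : ℝ) + P ≤ 7 * (P / δ ^ 3) := by
      have e1 : 6 * (1 / δ) ≤ 6 * (P / δ ^ 3) := by
        have : 1 / δ ^ 3 ≤ P / δ ^ 3 := div_le_div_of_nonneg_right hP hδ3.le
        linarith only [hd1, this]
      linarith only [hP3, h2, e1]
    have h4 : H * ((y : ℝ) + P) ≤ 7 * (H * (P / δ ^ 3)) := by
      calc H * ((y : ℝ) + P) ≤ H * (7 * (P / δ ^ 3)) := mul_le_mul_of_nonneg_left h3 hH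
        _ = _ := by ring
    have h5 : 0 ≤ B * (1 / δ ^ 3 + Real.log y) := by positivity
    have h6 : 0 ≤ H * (δ * y + Real.log y) := by positivity
    have h7 : 0 ≤ H * (P / δ ^ 3) := by positivity
    have h8 : H * (δ * y + Real.log y + P / δ ^ 3) = H * (δ * y + Real.log y) + H * (P / δ ^ 3) := by
      ring
    rw [h8]
    linarith only [h1, h4, h5, h6, h7]
  · set K := ⌊δ * y / 6⌋₊ with hKdef
    have hKr : (K : ℝ) ≤ δ * y / 6 := Nat.floor_le (by positivity)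
    have hKr2 : δ * y / 6 < K + 1 := Nat.lt_floor_add_one _
    have hK : 0 < K := by
      rw [hKdef, Nat.floor_pos]
      linarith only [hbig]
    have hK1 : (1 : ℝ) ≤ K := by exact_mod_cast hK
    have hK' : (0 : ℝ) < K := by linarith only [hδ, hδ2, hK1]
    have hK12 : δ * y / 12 ≤ K := by linarith only [hKr2, hK1]
    have hy12 : (12 : ℝ) ≤ y := by nlinarith only [hbig, hδ2]
    have hKy' : (K : ℝ) ≤ y / 12 := by nlinarith
    have hKy : K ≤ y := by
      have : (K : ℝ) ≤ y := by linarith only [hδ, hδ2, hy12, hKy']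
      exact_mod_cast this
    set M := y + 2 + 3 * K with hM
    have hMr : (M : ℝ) = y + 2 + 3 * K := by rw [hM]; push_cast; ring
    have hM2r : (M : ℝ) ≤ 2 * y := by rw [hMr]; linarith only [hδ, hδ2, hy12, hKy']
    have hM2 : M ≤ 2 * y := by exact_mod_cast hM2r
    have hM0 : (0 : ℝ) < M := by rw [hMr]; positivity
    set c : ℕ → ℝ := fun n => (n : ℝ) * (swhW K M (n + 1) + swhW K M (n + 2)) with hc
    -- the smooth part
    have hI : ‖∑ n ∈ Icc 1 M, ((c n : ℝ) : ℂ) * a n‖ ≤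
        B * (3 * (1 + Real.log M) + 27648 * (1 / δ ^ 2)) := by
      rw [hc]
      simp only []
      rw [swh_ident K M a]
      calc ‖∑ N ∈ Icc 1 M, ((-swhD K M N : ℝ) : ℂ) *
            ∑ n ∈ Icc 1 N, (((n : ℝ) * ((N : ℝ) - n) ^ 2 : ℝ) : ℂ) * a n‖
          ≤ ∑ N ∈ Icc 1 M, B * (3 / (N : ℝ) + (if y ≤ N then 8 * (N : ℝ) ^ 2 / K ^ 3 else 0)) := by
            refine (norm_sum_le _ _).trans (Finset.sum_le_sum fun N hN => ?_)
            obtain ⟨hN1, hN2⟩ := mem_Icc.1 hN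
            rw [swh_S a N hN1, norm_mul, norm_mul, Complex.norm_real, Complex.norm_real,
              Real.norm_eq_abs, Real.norm_eq_abs, abs_neg,
              abs_of_nonneg (by positivity : (0 : ℝ) ≤ (N : ℝ) ^ 3)]
            have h1 := hS N hN1 (hN2.trans hM2)
            have h2 := swhD_bound K y hK hKy N hN1
            calc |swhD K M N| * ((N : ℝ) ^ 3 *
                  ‖∑ n ∈ Icc 1 N, a n * ((om ((n : ℝ) / N) : ℝ) : ℂ)‖)
                ≤ |swhD K M N| * ((N : ℝ) ^ 3 * B) := by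
                  refine mul_le_mul_of_nonneg_left ?_ (abs_nonneg _)
                  exact mul_le_mul_of_nonneg_left h1 (by positivity)
              _ = B * ((N : ℝ) ^ 3 * |swhD K M N|) := by ring
              _ ≤ _ := mul_le_mul_of_nonneg_left h2 hB
        _ = B * (3 * (∑ N ∈ Icc 1 M, 1 / (N : ℝ)) +
            ∑ N ∈ Icc 1 M, (if y ≤ N then 8 * (N : ℝ) ^ 2 / K ^ 3 else 0)) := by
            rw [← Finset.mul_sum, Finset.sum_add_distrib]
            congr 2
            rw [Finset.mul_sum]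
            exact Finset.sum_congr rfl fun N _ => by ring
        _ ≤ B * (3 * (1 + Real.log M) + 27648 * (1 / δ ^ 2)) := by
            refine mul_le_mul_of_nonneg_left (add_le_add
              (mul_le_mul_of_nonneg_left (swh_harm M) (by norm_num)) ?_) hB
            rw [← Finset.sum_filter]
            have hcard : ((Icc 1 M).filter (fun N => y ≤ N)).card ≤ 3 * K + 3 := by
              calc ((Icc 1 M).filter (fun N => y ≤ N)).card ≤ (Icc y M).card := by
                    refine Finset.card_le_card fun x hx => ?_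
                    rw [Finset.mem_filter, mem_Icc] at hx
                    exact mem_Icc.2 ⟨hx.2, hx.1.2⟩
                _ = 3 * K + 3 := by
                    rw [Nat.card_Icc]
                    omega
            have hb : ∀ N ∈ (Icc 1 M).filter (fun N => y ≤ N),
                8 * (N : ℝ) ^ 2 / K ^ 3 ≤ 8 * (M : ℝ) ^ 2 / K ^ 3 := by
              intro N hN
              rw [Finset.mem_filter, mem_Icc] at hN
              have : (N : ℝ) ≤ M := by exact_mod_cast hN.1.2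
              gcongr
            have h3 := Finset.sum_le_card_nsmul _ _ _ hb
            rw [nsmul_eq_mul] at h3
            refine h3.trans ?_
            have h4 : ((((Icc 1 M).filter (fun N => y ≤ N)).card : ℕ) : ℝ) ≤ 6 * K := by
              have : ((((Icc 1 M).filter (fun N => y ≤ N)).card : ℕ) : ℝ) ≤ 3 * K + 3 := by
                exact_mod_cast hcard
              linarith only [hK1, this]
            calc _ ≤ (6 * K) * (8 * (M : ℝ) ^ 2 / K ^ 3) :=
                  mul_le_mul_of_nonneg_right h4 (by positivity)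
              _ = 48 * ((M : ℝ) / K) ^ 2 := by
                  field_simp
                  ring
              _ ≤ 48 * (24 / δ) ^ 2 := by
                  have h5 : (M : ℝ) / K ≤ 24 / δ := by
                    rw [div_le_div_iff₀ hK' hδ]
                    nlinarith only [hδ, hδ2, hK1, hMr, hKy', hKr2]
                  have h6 : 0 ≤ (M : ℝ) / K := by positivity
                  have h7 := pow_le_pow_left₀ h6 h5 2
                  linarith only [h7]
              _ = 27648 * (1 / δ ^ 2) := by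
                  field_simp
                  ring
    -- decomposition
    have hdec : ∑ n ∈ Icc 1 y, a n = ∑ n ∈ Icc 1 M, ((c n : ℝ) : ℂ) * a n +
        ∑ n ∈ Icc 1 y, ((1 - c n : ℝ) : ℂ) * a n - ∑ n ∈ Ioc y M, ((c n : ℝ) : ℂ) * a n := by
      have h1 : ∑ n ∈ Icc 1 M, ((c n : ℝ) : ℂ) * a n = ∑ n ∈ Icc 1 y, ((c n : ℝ) : ℂ) * a n +
          ∑ n ∈ Ioc y M, ((c n : ℝ) : ℂ) * a n := by
        rw [hIcc, hIcc]
        exact (Finset.sum_Ioc_consecutive _ (Nat.zero_le y) (by omega)).symm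
      have h2 : ∑ n ∈ Icc 1 y, a n = ∑ n ∈ Icc 1 y, ((c n : ℝ) : ℂ) * a n +
          ∑ n ∈ Icc 1 y, ((1 - c n : ℝ) : ℂ) * a n := by
        rw [← Finset.sum_add_distrib]
        refine Finset.sum_congr rfl fun n _ => ?_
        push_cast
        ring
      rw [h1, h2]
      ring
    have hII : ‖∑ n ∈ Icc 1 y, ((1 - c n : ℝ) : ℂ) * a n‖ ≤ 2 * (H * (4 * P + Real.log y)) := by
      calc ‖∑ n ∈ Icc 1 y, ((1 - c n : ℝ) : ℂ) * a n‖
          ≤ ∑ n ∈ Icc 1 y, 2 * (‖a n‖ / n) := by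
            refine (norm_sum_le _ _).trans (Finset.sum_le_sum fun n hn => ?_)
            obtain ⟨h1, h2⟩ := mem_Icc.1 hn
            rw [norm_mul, Complex.norm_real, Real.norm_eq_abs]
            have h3 := swh_c_low K y hK n h1 h2
            have h4 := (swh_c_bounds K M hK n).2
            have h5 : 0 ≤ 1 - c n := by
              rw [hc]
              simp only []
              linarith only [h4]
            rw [abs_of_nonneg h5]
            calc (1 - c n) * ‖a n‖ ≤ (2 / (n : ℝ)) * ‖a n‖ :=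
                  mul_le_mul_of_nonneg_right h3 (norm_nonneg _)
              _ = 2 * (‖a n‖ / n) := by ring
        _ = 2 * ∑ n ∈ Icc 1 y, ‖a n‖ / n := by rw [Finset.mul_sum]
        _ ≤ 2 * (H * (4 * P + Real.log y)) :=
            mul_le_mul_of_nonneg_left (swh_logsum (fun n => ‖a n‖) H P hH hP y
              (fun k hk => hA0 k (by omega))) (by norm_num)
    have hIII : ‖∑ n ∈ Ioc y M, ((c n : ℝ) : ℂ) * a n‖ ≤ H * (δ * y + 3 * P) := by
      calc ‖∑ n ∈ Ioc y M, ((c n : ℝ) : ℂ) * a n‖ ≤ ∑ n ∈ Ioc y M, ‖a n‖ := by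
            refine (norm_sum_le _ _).trans (Finset.sum_le_sum fun n _ => ?_)
            rw [norm_mul, Complex.norm_real, Real.norm_eq_abs]
            obtain ⟨h3, h4⟩ := swh_c_bounds K M hK n
            rw [hc]
            simp only []
            rw [abs_of_nonneg h3]
            calc _ ≤ 1 * ‖a n‖ := mul_le_mul_of_nonneg_right h4 (norm_nonneg _)
              _ = _ := one_mul _
        _ ≤ H * ((M : ℝ) - y + P) := hA y M (by omega) hM2
        _ ≤ H * (δ * y + 3 * P) := by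
            refine mul_le_mul_of_nonneg_left ?_ hH
            rw [hMr]
            linarith only [hP, hδ, hδ2, hbig, hKr]
    have hlogM : Real.log M ≤ 2 * Real.log y := by
      calc Real.log M ≤ Real.log (2 * y) := Real.log_le_log hM0 hM2r
        _ = Real.log 2 + Real.log y := Real.log_mul (by norm_num) (by positivity)
        _ ≤ 2 * Real.log y := by linarith only [hlog2]
    have htot : ‖∑ n ∈ Icc 1 y, a n‖ ≤ B * (3 * (1 + Real.log M) + 27648 * (1 / δ ^ 2)) +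
        2 * (H * (4 * P + Real.log y)) + H * (δ * y + 3 * P) := by
      rw [hdec]
      refine (norm_sub_le _ _).trans (add_le_add ((norm_add_le _ _).trans (add_le_add hI hII)) hIII)
    have f1 : B * (3 * (1 + Real.log M) + 27648 * (1 / δ ^ 2)) ≤
        30000 * (B * (1 / δ ^ 3 + Real.log y)) := by
      have : 3 * (1 + Real.log M) + 27648 * (1 / δ ^ 2) ≤ 30000 * (1 / δ ^ 3 + Real.log y) := by
        linarith only [hδ, hδ2, hlog0, hd2, hd0, hlogM]
      calc _ ≤ B * (30000 * (1 / δ ^ 3 + Real.log y)) := mul_le_mul_of_nonneg_left this hB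
        _ = _ := by ring
    have f2 : 2 * (H * (4 * P + Real.log y)) + H * (δ * y + 3 * P) ≤
        30000 * (H * (δ * y + Real.log y + P / δ ^ 3)) := by
      have h1 : 0 ≤ δ * y := by positivity
      have h2 : 2 * (4 * P + Real.log y) + (δ * y + 3 * P) ≤
          30000 * (δ * y + Real.log y + P / δ ^ 3) := by
        have h3 : 0 ≤ P / δ ^ 3 := by positivity
        linarith only [hP, hδ, hδ2, hlog0, hP3, hbig]
      calc 2 * (H * (4 * P + Real.log y)) + H * (δ * y + 3 * P)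
          = H * (2 * (4 * P + Real.log y) + (δ * y + 3 * P)) := by ring
        _ ≤ H * (30000 * (δ * y + Real.log y + P / δ ^ 3)) := mul_le_mul_of_nonneg_left h2 hH
        _ = _ := by ring
    linarith only [htot, f1, f2]

end Pool.Agent.H91.EHA

end

section

/-!
# MDX Sets: many sets with small intersections

Proof.  `Y = ∑_{g ∈ Γ} |A g| = ∑_{x ∈ U} f(x)`, `f(x) = #{g ∈ Γ : x ∈ A g}`.  Cauchy-Schwarz: `Y^2 ≤ Tot ∑_x f(x)^2 = Tot ∑_{g, g'} |A g ∩ A g'|`.  Near pairs: `|A g ∩ A g'| ≤ |A g|`, at most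
`Kn` values `g'` for every `g`: `≤ Kn Y`.  Far pairs: `≤ |Γ|^2 ι`, and `|Γ| m0 ≤ Y`, so `|Γ|^2 ι Tot ≤ Y^2 ι Tot/m0^2 ≤ Y^2/2`.  So `Y^2/2 ≤ Tot Kn Y`.
-/

set_option autoImplicit false

namespace Pool.Agent.H74.MDX

open Finset

open Classical in
theorem sets_sum {T W : Type*} (Γ : Finset T) (U : Finset W) (A : T → Finset W) (near : T → T → Prop)
    (Tot Kn ι m0 : ℝ) (hA : ∀ g ∈ Γ, A g ⊆ U) (hU : (U.card : ℝ) ≤ Tot) (hm0 : 0 < m0) (hι : 0 ≤ ι) (hKn : 0 ≤ Kn)
    (hlow : ∀ g ∈ Γ, m0 ≤ ((A g).card : ℝ))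
    (hnear : ∀ g ∈ Γ, ((Γ.filter (fun g' => near g g')).card : ℝ) ≤ Kn)
    (hfar : ∀ g ∈ Γ, ∀ g' ∈ Γ, ¬ near g g' → ((A g ∩ A g').card : ℝ) ≤ ι)
    (hbig : 2 * Tot * ι ≤ m0 ^ 2) : ∑ g ∈ Γ, ((A g).card : ℝ) ≤ 2 * Kn * Tot := by
  have hTot : 0 ≤ Tot := le_trans (Nat.cast_nonneg _) hU
  set Y : ℝ := ∑ g ∈ Γ, ((A g).card : ℝ) with hY
  have hY0 : 0 ≤ Y := Finset.sum_nonneg fun g _ => Nat.cast_nonneg _
  have hcard : ∀ g ∈ Γ, ((A g).card : ℝ) = ∑ x ∈ U, (if x ∈ A g then (1 : ℝ) else 0) := by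
    intro g hg
    rw [Finset.sum_ite_mem, Finset.inter_eq_right.mpr (hA g hg)]
    simp
  have hYf : Y = ∑ x ∈ U, ∑ g ∈ Γ, (if x ∈ A g then (1 : ℝ) else 0) := by
    rw [hY, Finset.sum_congr rfl hcard, Finset.sum_comm]
  have hCS : Y ^ 2 ≤ Tot * ∑ x ∈ U, (∑ g ∈ Γ, (if x ∈ A g then (1 : ℝ) else 0)) ^ 2 := by
    rw [hYf]
    refine (sq_sum_le_card_mul_sum_sq).trans ?_
    exact mul_le_mul_of_nonneg_right hU (Finset.sum_nonneg fun x _ => sq_nonneg _)
  have hsq : ∑ x ∈ U, (∑ g ∈ Γ, (if x ∈ A g then (1 : ℝ) else 0)) ^ 2 =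
      ∑ g ∈ Γ, ∑ g' ∈ Γ, ((A g ∩ A g').card : ℝ) := by
    have e1 : ∀ x ∈ U, (∑ g ∈ Γ, (if x ∈ A g then (1 : ℝ) else 0)) ^ 2 =
        ∑ g ∈ Γ, ∑ g' ∈ Γ, (if x ∈ A g ∩ A g' then (1 : ℝ) else 0) := by
      intro x _
      rw [sq, Finset.sum_mul_sum]
      refine Finset.sum_congr rfl fun g _ => Finset.sum_congr rfl fun g' _ => ?_
      by_cases h1 : x ∈ A g <;> by_cases h2 : x ∈ A g' <;> simp [h1, h2]
    rw [Finset.sum_congr rfl e1, Finset.sum_comm]
    refine Finset.sum_congr rfl fun g hg => ?_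
    rw [Finset.sum_comm]
    refine Finset.sum_congr rfl fun g' _ => ?_
    rw [Finset.sum_ite_mem, Finset.inter_eq_right.mpr (Finset.inter_subset_left.trans (hA g hg))]
    simp
  have hsplit : ∀ g ∈ Γ, ∑ g' ∈ Γ, ((A g ∩ A g').card : ℝ) ≤ Kn * (A g).card + Γ.card * ι := by
    intro g hg
    rw [← Finset.sum_filter_add_sum_filter_not Γ (fun g' => near g g')]
    refine add_le_add ?_ ?_
    · calc ∑ g' ∈ Γ.filter (fun g' => near g g'), ((A g ∩ A g').card : ℝ)
          ≤ ∑ g' ∈ Γ.filter (fun g' => near g g'), ((A g).card : ℝ) := by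
            refine Finset.sum_le_sum fun g' _ => ?_
            exact_mod_cast Finset.card_le_card Finset.inter_subset_left
        _ = ((Γ.filter (fun g' => near g g')).card : ℝ) * (A g).card := by
            rw [Finset.sum_const, nsmul_eq_mul]
        _ ≤ Kn * (A g).card := mul_le_mul_of_nonneg_right (hnear g hg) (Nat.cast_nonneg _)
    · calc ∑ g' ∈ Γ.filter (fun g' => ¬ near g g'), ((A g ∩ A g').card : ℝ)
          ≤ ∑ g' ∈ Γ.filter (fun g' => ¬ near g g'), ι := by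
            refine Finset.sum_le_sum fun g' hg' => ?_
            rw [Finset.mem_filter] at hg'
            exact hfar g hg g' hg'.1 hg'.2
        _ = ((Γ.filter (fun g' => ¬ near g g')).card : ℝ) * ι := by
            rw [Finset.sum_const, nsmul_eq_mul]
        _ ≤ Γ.card * ι := by
            refine mul_le_mul_of_nonneg_right ?_ hι
            exact_mod_cast Finset.card_le_card (Finset.filter_subset _ _)
  have hmain : Y ^ 2 ≤ Tot * (Kn * Y + (Γ.card : ℝ) * ((Γ.card : ℝ) * ι)) := by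
    refine hCS.trans (mul_le_mul_of_nonneg_left ?_ hTot)
    rw [hsq]
    refine (Finset.sum_le_sum hsplit).trans (le_of_eq ?_)
    rw [Finset.sum_add_distrib, ← Finset.mul_sum, Finset.sum_const, nsmul_eq_mul]
  have hcY : (Γ.card : ℝ) * m0 ≤ Y := by
    rw [hY, ← nsmul_eq_mul, ← Finset.sum_const]
    exact Finset.sum_le_sum hlow
  have hfarb : Tot * ((Γ.card : ℝ) * ((Γ.card : ℝ) * ι)) ≤ Y ^ 2 / 2 := by
    have h1 : (Γ.card : ℝ) ^ 2 * m0 ^ 2 ≤ Y ^ 2 := by
      rw [← mul_pow]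
      exact pow_le_pow_left₀ (by positivity) hcY 2
    have h2 : (Γ.card : ℝ) ^ 2 * (2 * Tot * ι) ≤ (Γ.card : ℝ) ^ 2 * m0 ^ 2 :=
      mul_le_mul_of_nonneg_left hbig (by positivity)
    nlinarith
  rcases hY0.eq_or_lt with h0 | hpos
  · rw [← h0]; positivity
  · have h3 : Y ^ 2 / 2 ≤ Tot * (Kn * Y) := by nlinarith
    have h4 : Y * Y ≤ (2 * Kn * Tot) * Y := by nlinarith
    exact le_of_mul_le_mul_right h4 hpos

end Pool.Agent.H74.MDX

end

section

/-!
# MDX Rich: few edges have a poor root (abstract)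

`X` = the edges `e` such that fewer than `κ P` edges `f` have the same first vertex and the same root.
Proof.  Let `N(u) = {u1 : (u, u1) ∈ X}`.  Cauchy-Schwarz: `|X|^2 = (∑_{u ∈ VV} |N(u)|)^2 ≤ |VV| ∑_u |N(u)|^2`, and `∑_u |N(u)|^2` is the number of the
triples `(u, u1, u2)` with `(u,u1), (u,u2) ∈ X`.  The triples with `root (u,u1) = root (u,u2)`: for given `(u, u1) ∈ X` fewer than `κ P` (definition of `X`, `X ⊆ E`),
total `≤ κ P |X|`.  The triples with `root (u,u1) ≠ root (u,u2)`: for given `(u1, u2) ∈ VV × VV` all such `u` have the same value `pr u` (hypothesis `h4`), so there are at most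
`b` of them: total `≤ b |VV|^2`.  So `|X|^2 ≤ |VV| (b |VV|^2 + κ P |X|) ≤ b P (b (b P)^2 + κ P |X|) = b^4 P^3 + κ b P^2 |X|`.  If `|X| > 2 κ b P^2` then
`κ b P^2 |X| < |X|^2/2`, so `|X|^2/2 < b^4 P^3`, `2 κ^2 b^2 P^4 < b^4 P^3`, `2 κ^2 P < b^2`: contradiction with `hbig`.
-/

set_option autoImplicit false

namespace Pool.Agent.H74.MDX

open Finset

open Classical in
theorem rich {V : Type*} (VV : Finset V) (pr : V → ℕ) (E : Finset (V × V)) (root : V × V → ℤ) (b κ P : ℝ)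
    (hb : 0 < b) (hκ : 0 < κ) (hP : 0 < P) (hfib : ∀ p : ℕ, ((VV.filter (fun v => pr v = p)).card : ℝ) ≤ b)
    (hV : (VV.card : ℝ) ≤ b * P) (hE : E ⊆ VV ×ˢ VV)
    (h4 : ∀ u v u1 u2 : V, (u, u1) ∈ E → (u, u2) ∈ E → (v, u1) ∈ E → (v, u2) ∈ E → pr u ≠ pr v →
      root (u, u1) = root (u, u2))
    (hbig : b ^ 2 < 2 * κ ^ 2 * P) :
    ((E.filter (fun e => ((E.filter (fun f => f.1 = e.1 ∧ root f = root e)).card : ℝ) < κ * P)).card : ℝ) ≤
      2 * κ * b * P ^ 2 := by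
  set X : Finset (V × V) :=
    E.filter (fun e => ((E.filter (fun f => f.1 = e.1 ∧ root f = root e)).card : ℝ) < κ * P) with hX
  have hXE : X ⊆ E := filter_subset _ _
  -- the triples
  set T : Finset ((V × V) × (V × V)) := (X ×ˢ X).filter (fun t => t.2.1 = t.1.1) with hT
  have h1 : (X.card : ℝ) = ∑ u ∈ VV, ((X.filter (fun e => e.1 = u)).card : ℝ) := by
    rw [← Nat.cast_sum]
    congr 1
    exact card_eq_sum_card_fiberwise (fun e he => (mem_product.1 (hE (hXE he))).1)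
  have h2 : (X.card : ℝ) ^ 2 ≤ VV.card * ∑ u ∈ VV, ((X.filter (fun e => e.1 = u)).card : ℝ) ^ 2 := by
    rw [h1]
    exact sq_sum_le_card_mul_sum_sq
  have hT0 : T.card = ∑ e ∈ X, (X.filter (fun f => f.1 = e.1)).card := by
    rw [hT, Finset.card_filter, Finset.sum_product]
    refine Finset.sum_congr rfl (fun e _ => ?_)
    rw [Finset.card_filter]
  have h3 : ∑ u ∈ VV, ((X.filter (fun e => e.1 = u)).card : ℝ) ^ 2 = T.card := by
    rw [hT0, Nat.cast_sum, ← Finset.sum_fiberwise_of_maps_to (s := X) (t := VV) (g := fun e => e.1)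
      (fun e he => (mem_product.1 (hE (hXE he))).1)]
    refine Finset.sum_congr rfl (fun u _ => ?_)
    have h31 : ∀ e ∈ X.filter (fun e => e.1 = u), ((X.filter (fun f => f.1 = e.1)).card : ℝ) =
        ((X.filter (fun e => e.1 = u)).card : ℝ) := by
      intro e he
      rw [(mem_filter.1 he).2]
    rw [Finset.sum_congr rfl h31, Finset.sum_const, nsmul_eq_mul, sq]
  -- the two kinds of triples
  have h4' : T.card = (T.filter (fun t => root t.2 = root t.1)).card +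
      (T.filter (fun t => ¬ root t.2 = root t.1)).card := (card_filter_add_card_filter_not _).symm
  have h5 : ((T.filter (fun t => root t.2 = root t.1)).card : ℝ) ≤ κ * P * X.card := by
    have h51 : (T.filter (fun t => root t.2 = root t.1)).card =
        ∑ e ∈ X, (X.filter (fun f => f.1 = e.1 ∧ root f = root e)).card := by
      rw [hT, Finset.filter_filter, Finset.card_filter, Finset.sum_product]
      refine Finset.sum_congr rfl (fun e _ => ?_)
      rw [Finset.card_filter]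
    rw [h51, Nat.cast_sum]
    have h52 : ∀ e ∈ X, ((X.filter (fun f => f.1 = e.1 ∧ root f = root e)).card : ℝ) ≤ κ * P := by
      intro e he
      refine le_trans ?_ (mem_filter.1 he).2.le
      exact_mod_cast card_le_card (filter_subset_filter _ hXE)
    refine (Finset.sum_le_sum h52).trans ?_
    rw [Finset.sum_const, nsmul_eq_mul]
    exact le_of_eq (by ring)
  have h6 : ((T.filter (fun t => ¬ root t.2 = root t.1)).card : ℝ) ≤ b * VV.card ^ 2 := by
    set T2 := T.filter (fun t => ¬ root t.2 = root t.1) with hT2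
    have h61 : (T2.card : ℝ) = ∑ w ∈ VV ×ˢ VV, ((T2.filter (fun t => (t.1.2, t.2.2) = w)).card : ℝ) := by
      rw [← Nat.cast_sum]
      congr 1
      refine card_eq_sum_card_fiberwise (fun t ht => ?_)
      have h62 := (mem_filter.1 (mem_filter.1 ht).1).1
      have h63 := mem_product.1 (hE (hXE (mem_product.1 h62).1))
      have h64 := mem_product.1 (hE (hXE (mem_product.1 h62).2))
      exact mem_coe.2 (mem_product.2 ⟨h63.2, h64.2⟩)
    have h65 : ∀ w ∈ VV ×ˢ VV, ((T2.filter (fun t => (t.1.2, t.2.2) = w)).card : ℝ) ≤ b := by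
      intro w _
      rcases (T2.filter (fun t => (t.1.2, t.2.2) = w)).eq_empty_or_nonempty with h0 | ⟨t0, ht0⟩
      · rw [h0, card_empty, Nat.cast_zero]
        exact hb.le
      · refine le_trans ?_ (hfib (pr t0.1.1))
        have h66 : (T2.filter (fun t => (t.1.2, t.2.2) = w)).card ≤
            (VV.filter (fun v => pr v = pr t0.1.1)).card := by
          refine card_le_card_of_injOn (fun t => t.1.1) (fun t ht => ?_) (fun t ht t' ht' htt => ?_)
          · obtain ⟨ht1, ht2⟩ := mem_filter.1 (mem_coe.1 ht)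
            obtain ⟨ht3, ht4⟩ := mem_filter.1 ht1
            obtain ⟨ht5, ht6⟩ := mem_filter.1 ht3
            obtain ⟨hs1, hs2⟩ := mem_filter.1 ht0
            obtain ⟨hs3, hs4⟩ := mem_filter.1 hs1
            obtain ⟨hs5, hs6⟩ := mem_filter.1 hs3
            obtain ⟨⟨a1, a2⟩, ⟨a3, a4⟩⟩ := t
            obtain ⟨⟨c1, c2⟩, ⟨c3, c4⟩⟩ := t0
            simp only at ht2 ht4 ht6 hs2 hs4 hs6 ⊢
            obtain ⟨w1, w2⟩ := w
            simp only [Prod.mk.injEq] at ht2 hs2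
            obtain ⟨rfl, rfl⟩ := ht2
            obtain ⟨rfl, rfl⟩ := hs2
            subst ht6
            subst hs6
            have k1 := hXE (mem_product.1 ht5).1
            have k2 := hXE (mem_product.1 ht5).2
            have k3 := hXE (mem_product.1 hs5).1
            have k4 := hXE (mem_product.1 hs5).2
            refine mem_coe.2 (mem_filter.2 ⟨(mem_product.1 (hE k1)).1, ?_⟩)
            by_contra hne
            exact ht4 (h4 _ _ _ _ k1 k2 k3 k4 hne).symm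
          · obtain ⟨ht1, ht2⟩ := mem_filter.1 (mem_coe.1 ht)
            obtain ⟨ht3, ht4⟩ := mem_filter.1 ht1
            obtain ⟨ht5, ht6⟩ := mem_filter.1 ht3
            obtain ⟨hs1, hs2⟩ := mem_filter.1 (mem_coe.1 ht')
            obtain ⟨hs3, hs4⟩ := mem_filter.1 hs1
            obtain ⟨hs5, hs6⟩ := mem_filter.1 hs3
            obtain ⟨⟨a1, a2⟩, ⟨a3, a4⟩⟩ := t
            obtain ⟨⟨c1, c2⟩, ⟨c3, c4⟩⟩ := t'
            obtain ⟨w1, w2⟩ := w
            simp only [Prod.mk.injEq] at ht2 hs2 ht6 hs6 htt ⊢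
            obtain ⟨rfl, rfl⟩ := ht2
            obtain ⟨rfl, rfl⟩ := hs2
            subst ht6
            subst hs6
            subst htt
            exact ⟨⟨rfl, rfl⟩, ⟨rfl, rfl⟩⟩
        exact_mod_cast h66
    rw [h61]
    refine (Finset.sum_le_sum h65).trans ?_
    rw [Finset.sum_const, nsmul_eq_mul, card_product]
    push_cast
    exact le_of_eq (by ring)
  have h7 : (T.card : ℝ) ≤ κ * P * X.card + b * VV.card ^ 2 := by
    rw [h4']
    push_cast
    linarith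
  rw [h3] at h2
  set x : ℝ := (X.card : ℝ) with hx
  set n : ℝ := (VV.card : ℝ) with hn
  have hx0 : 0 ≤ x := Nat.cast_nonneg _
  have hn0 : 0 ≤ n := Nat.cast_nonneg _
  have h8 : x ^ 2 ≤ (b * P) * (κ * P * x + b * (b * P) ^ 2) := by
    refine h2.trans ?_
    have h81 : n ^ 2 ≤ (b * P) ^ 2 := pow_le_pow_left₀ hn0 hV 2
    have h82 : (T.card : ℝ) ≤ κ * P * x + b * (b * P) ^ 2 :=
      h7.trans (by
        have := mul_le_mul_of_nonneg_left h81 hb.le
        linarith)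
    exact mul_le_mul hV h82 (Nat.cast_nonneg _) (by positivity)
  by_contra hcon
  push Not at hcon
  have h9 : κ * b * P ^ 2 * x ≤ x ^ 2 / 2 := by
    have := mul_le_mul_of_nonneg_right hcon.le hx0
    nlinarith
  have h10 : x ^ 2 ≤ 2 * (b ^ 4 * P ^ 3) := by
    have : (b * P) * (κ * P * x + b * (b * P) ^ 2) = κ * b * P ^ 2 * x + b ^ 4 * P ^ 3 := by ring
    rw [this] at h8
    linarith
  have h11 : (2 * κ * b * P ^ 2) ^ 2 < x ^ 2 := pow_lt_pow_left₀ hcon (by positivity) (by norm_num)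
  have h12 : (b ^ 2 * P ^ 3) * (2 * κ ^ 2 * P) < (b ^ 2 * P ^ 3) * b ^ 2 := by nlinarith
  have h13 : 2 * κ ^ 2 * P < b ^ 2 := lt_of_mul_lt_mul_left h12 (by positivity)
  linarith

end Pool.Agent.H74.MDX

end
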