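import Pool.Agent.H43.PL.H53.MID.Nz
import Pool.Agent.H43.PL.M02
import Pool.Agent.H43.PL.M05

/-! The parts of this file: H43.LM.Defs, H41.PrimesModFour, H35.V1.NT, H87.WL.Defs, H87.WL.Gl, H92.EH.Farey, H92.EH.Ramanujan, H43.LM.Dec, H97.VK.TailA, H74.MDX.Num, H74.MDX.Clean, H74.MDX.CombA, H53.MDB.Defs, H53.MDB.Split, H53.MDB.Young, H53.MDB.Fej, H53.MDB.Osc, H10.GoldLoc.Comb, H87D.Defs, H87D.SmoothShort, H92.EH.Totient, H76.MU.Defs. -/

section

/-!
# LM Defs (project LM: local Fourier uniformity of the Möbius function with a rate)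

* `mu n` = the Möbius function with real values;
* `Fr a b n`: `n` has no prime factor in `(a, b]`;
* `gP P1 P k = -μ(k)` if `k` has no prime factor in `(P1, P]`, `0` otherwise;
* `hI a b l = 1` if all prime factors of `l` lie in `(a, b]` (and `l ≥ 1`), `0` otherwise;
* `Win x H`: the window `|n - x| < H/2`;
* `Mw F x H α = ∑_{n ∈ Win x H} F(n) ee(n α)`.
Notation in the comments: `L = log N` or `log X`; `Fp f P m = ∑_{p ∈ pb P, p ∣ m} f(m/p)` (`H53/MID/Defs.lean`), `pb P` = the primes in `(P, 2P]`.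
-/

set_option autoImplicit false

namespace Pool.Agent.H43.LM

open Finset
open Pool.Agent.H91.PK (ee)

/-- the Möbius function as a real number -/
noncomputable def mu (n : ℕ) : ℝ := ((ArithmeticFunction.moebius n : ℤ) : ℝ)

/-- `n` has no prime factor in `(a, b]` -/
def Fr (a b n : ℕ) : Prop := ∀ p : ℕ, p.Prime → a < p → p ≤ b → ¬ p ∣ n

open Classical in
/-- `-μ(k)` if `k` has no prime factor in `(P1, P]`, and `0` otherwise -/
noncomputable def gP (P1 P k : ℕ) : ℝ := if Fr P1 P k then - mu k else 0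

open Classical in
/-- the indicator function of the integers all of whose prime factors are in `(a, b]` -/
noncomputable def hI (a b l : ℕ) : ℝ := if l ≠ 0 ∧ (∀ p : ℕ, p.Prime → p ∣ l → a < p ∧ p ≤ b) then 1 else 0

/-- the integers of the window of length `H` around `x` -/
noncomputable def Win (x H : ℝ) : Finset ℕ :=
  (Finset.range (⌈x + H⌉₊ + 1)).filter (fun n : ℕ => |(n : ℝ) - x| < H / 2)

/-- the exponential sum of `F` over the window -/
noncomputable def Mw (F : ℕ → ℝ) (x H α : ℝ) : ℂ := ∑ n ∈ Win x H, (F n : ℂ) * ee (n * α)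

theorem mu_abs_le (n : ℕ) : |mu n| ≤ 1 := by
  have := ArithmeticFunction.abs_moebius_le_one (n := n)
  unfold mu
  exact_mod_cast this

theorem gP_abs_le (P1 P k : ℕ) : |gP P1 P k| ≤ 1 := by
  unfold gP
  split_ifs
  · rw [abs_neg]
    exact mu_abs_le k
  · simp

end Pool.Agent.H43.LM

end

section

/-!
# Quantitative supply of primes congruent to one modulo four

Elementary Mertens-type estimate for the character modulo four, and the consequence that for
every `δ > 0` there are at least `N ^ (1 - δ)` primes `p ≤ N` with `p % 4 = 1`, for all large `N`.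
-/

namespace Pool.Agent.H41

open Finset Real

/-- the constant in Chebyshev's bound -/
noncomputable def c0 : ℝ := Real.log 4 + 4

lemma c0_pos : 0 < c0 := by
  have : 0 < Real.log 4 := Real.log_pos (by norm_num)
  unfold c0; linarith

lemma psi_bound (N : ℕ) : ∑ d ∈ Ioc 0 N, ArithmeticFunction.vonMangoldt d ≤ c0 * N := by
  have := Chebyshev.psi_le_const_mul_self (x := (N : ℝ)) (by positivity)
  unfold Chebyshev.psi at this
  rwa [Nat.floor_natCast] at this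

lemma log_factorial_eq (N : ℕ) :
    ∑ m ∈ Ioc 0 N, Real.log m =
      ∑ d ∈ Ioc 0 N, ArithmeticFunction.vonMangoldt d * ((N / d : ℕ) : ℝ) := by
  have := ArithmeticFunction.sum_Ioc_mul_zeta_eq_sum ArithmeticFunction.vonMangoldt N
  rw [ArithmeticFunction.vonMangoldt_mul_zeta] at this
  simpa [ArithmeticFunction.log_apply] using this

lemma sum_log_eq (N : ℕ) : ∑ m ∈ Ioc 0 N, Real.log m = Real.log (N.factorial) := by
  induction N with
  | zero => simp
  | succ N ih =>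
    rw [Finset.sum_Ioc_succ_top (by omega), ih, Nat.factorial_succ]
    push_cast
    rw [Real.log_mul (by positivity) (by positivity)]
    ring

lemma B_upper (N : ℕ) (hN : 0 < N) :
    ∑ d ∈ Ioc 0 N, ArithmeticFunction.vonMangoldt d / d ≤ Real.log N + c0 := by
  have hN' : (0 : ℝ) < N := by exact_mod_cast hN
  have h1 : ∑ m ∈ Ioc 0 N, Real.log m ≤ N * Real.log N := by
    calc ∑ m ∈ Ioc 0 N, Real.log m ≤ ∑ m ∈ Ioc 0 N, Real.log N := by
          refine Finset.sum_le_sum fun m hm => ?_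
          rw [Finset.mem_Ioc] at hm
          exact Real.log_le_log (by exact_mod_cast hm.1) (by exact_mod_cast hm.2)
      _ = N * Real.log N := by simp
  rw [log_factorial_eq] at h1
  have h2 : ∑ d ∈ Ioc 0 N, ArithmeticFunction.vonMangoldt d * ((N : ℝ) / d - 1) ≤
      ∑ d ∈ Ioc 0 N, ArithmeticFunction.vonMangoldt d * ((N / d : ℕ) : ℝ) := by
    refine Finset.sum_le_sum fun d hd => ?_
    rw [Finset.mem_Ioc] at hd
    have hd' : (0 : ℝ) < d := by exact_mod_cast hd.1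
    refine mul_le_mul_of_nonneg_left ?_ ArithmeticFunction.vonMangoldt_nonneg
    have : N < d * (N / d + 1) := Nat.lt_mul_div_succ N hd.1
    have h3 : (N : ℝ) < d * ((N / d : ℕ) + 1) := by exact_mod_cast this
    have h4 : (N : ℝ) / d < (N / d : ℕ) + 1 := by
      rw [div_lt_iff₀ hd']; linarith
    linarith
  have h3 : ∑ d ∈ Ioc 0 N, ArithmeticFunction.vonMangoldt d * ((N : ℝ) / d - 1) =
      N * ∑ d ∈ Ioc 0 N, ArithmeticFunction.vonMangoldt d / d -
        ∑ d ∈ Ioc 0 N, ArithmeticFunction.vonMangoldt d := by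
    rw [Finset.mul_sum, ← Finset.sum_sub_distrib]
    exact Finset.sum_congr rfl fun d _ => by ring
  have h4 := psi_bound N
  have h5 : N * ∑ d ∈ Ioc 0 N, ArithmeticFunction.vonMangoldt d / d ≤
      N * (Real.log N + c0) := by
    rw [h3] at h2
    nlinarith
  exact le_of_mul_le_mul_left h5 hN'

lemma B_lower (N : ℕ) (hN : 0 < N) :
    Real.log N - 1 ≤ ∑ d ∈ Ioc 0 N, ArithmeticFunction.vonMangoldt d / d := by
  have hN' : (0 : ℝ) < N := by exact_mod_cast hN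
  have h1 : (N : ℝ) * Real.log N - N ≤ Real.log (N.factorial) := by
    have := Real.pow_div_factorial_le_exp (N : ℝ) hN'.le N
    have hf : (0 : ℝ) < N.factorial := by positivity
    have h2 := Real.log_le_log (by positivity) this
    rw [Real.log_exp, Real.log_div (by positivity) (by positivity), Real.log_pow] at h2
    linarith
  rw [← sum_log_eq, log_factorial_eq] at h1
  have h2 : ∑ d ∈ Ioc 0 N, ArithmeticFunction.vonMangoldt d * ((N / d : ℕ) : ℝ) ≤
      ∑ d ∈ Ioc 0 N, ArithmeticFunction.vonMangoldt d * ((N : ℝ) / d) := by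
    refine Finset.sum_le_sum fun d hd => ?_
    exact mul_le_mul_of_nonneg_left Nat.cast_div_le ArithmeticFunction.vonMangoldt_nonneg
  have h3 : ∑ d ∈ Ioc 0 N, ArithmeticFunction.vonMangoldt d * ((N : ℝ) / d) =
      N * ∑ d ∈ Ioc 0 N, ArithmeticFunction.vonMangoldt d / d := by
    rw [Finset.mul_sum]
    exact Finset.sum_congr rfl fun d _ => by ring
  have h5 : N * (Real.log N - 1) ≤
      N * ∑ d ∈ Ioc 0 N, ArithmeticFunction.vonMangoldt d / d := by
    rw [h3] at h2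
    nlinarith
  exact le_of_mul_le_mul_left h5 hN'

end Pool.Agent.H41

end

section

/-!
Mertens type estimates used for the order of vanishing at one.
-/

namespace Pool.Agent.H35.V1

open Finset Real
open Pool.Agent.H41 (c0 c0_pos B_lower B_upper)
open scoped ArithmeticFunction.vonMangoldt

noncomputable section

/-- Primes in `(w, z]`. -/
def PPr (w z : ℕ) : Finset ℕ := (Ioc w z).filter Nat.Prime

theorem mem_PPr {w z p : ℕ} : p ∈ PPr w z ↔ (w < p ∧ p ≤ z) ∧ p.Prime := by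
  simp [PPr]

theorem sum_recip_le {w z : ℕ} (hw : 2 ≤ w) (hwz : w ≤ z) {c : ℝ} (hc : 0 ≤ c)
    (h : ∀ m, w ≤ m → m ≤ z → ∑ d ∈ Ioc w m, ArithmeticFunction.vonMangoldt d / d
      ≤ Real.log m - Real.log w + c) :
    ∑ p ∈ PPr w z, (1 : ℝ) / p ≤ Real.log (Real.log z / Real.log w) + c / Real.log w := by
  have hlw : 0 < Real.log w := Real.log_pos (by exact_mod_cast (by omega : 1 < w))
  have hlog : ∀ k : ℕ, w ≤ k → 0 < Real.log k := by
    intro k hk
    apply Real.log_pos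
    exact_mod_cast (by omega : 1 < k)
  have h1 : ∑ p ∈ PPr w z, (1 : ℝ) / p
      = ∑ k ∈ Ioc w z, (if k.Prime then Real.log k / k else 0) * (1 / Real.log k) := by
    unfold PPr
    rw [sum_filter]
    apply sum_congr rfl
    intro k hk
    rw [mem_Ioc] at hk
    split_ifs with hp
    · have := (hlog k hk.1.le).ne'
      field_simp
    · simp
  have h2 : ∑ k ∈ Ioc w z, (if k.Prime then Real.log k / k else 0) * (1 / Real.log k)
      ≤ ∑ k ∈ Ioc w z, (Real.log k - Real.log (k - 1 : ℕ)) * (1 / Real.log k)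
        + c * (1 / Real.log ((w + 1 : ℕ) : ℝ)) := by
    apply Pool.Agent.H91.Gold.abel_le hwz hc
    · intro k hk1 _
      have := hlog k hk1.le
      positivity
    · have := hlog (w + 1) (by omega)
      positivity
    · intro k hk1 _
      have := hlog k hk1.le
      apply one_div_le_one_div_of_le this
      apply Real.log_le_log
      · exact_mod_cast (by omega : 0 < k)
      · push_cast; linarith
    · intro m hm1 hm2
      have e1 : ∑ k ∈ Ioc w m, (Real.log k - Real.log (k - 1 : ℕ)) = Real.log m - Real.log w := by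
        clear hm2
        induction m, hm1 using Nat.le_induction with
        | base => simp
        | succ m hm ih =>
          rw [sum_Ioc_succ_top (by omega), ih]
          simp
      have e2 : ∑ k ∈ Ioc w m, (if k.Prime then Real.log k / k else 0)
          ≤ ∑ k ∈ Ioc w m, Λ k / k := by
        apply sum_le_sum
        intro k _
        split_ifs with hp
        · rw [ArithmeticFunction.vonMangoldt_apply_prime hp]
        · have := ArithmeticFunction.vonMangoldt_nonneg (n := k)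
          positivity
      rw [e1]
      exact e2.trans (h m hm1 hm2)
  have h3 : ∀ m, w ≤ m → ∑ k ∈ Ioc w m, (Real.log k - Real.log (k - 1 : ℕ)) * (1 / Real.log k)
      ≤ Real.log (Real.log m) - Real.log (Real.log w) := by
    intro m hm
    induction m, hm using Nat.le_induction with
    | base => simp
    | succ m hm ih =>
      rw [sum_Ioc_succ_top (by omega)]
      have a1 := hlog m hm
      have a2 := hlog (m + 1) (by omega)
      have a3 : (Real.log ((m + 1 : ℕ) : ℝ) - Real.log (m + 1 - 1 : ℕ)) * (1 / Real.log ((m + 1 : ℕ) : ℝ))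
          ≤ Real.log (Real.log ((m + 1 : ℕ) : ℝ)) - Real.log (Real.log m) := by
        have b1 := Real.log_le_sub_one_of_pos (x := Real.log m / Real.log ((m + 1 : ℕ) : ℝ)) (by positivity)
        rw [Real.log_div a1.ne' a2.ne'] at b1
        rw [Nat.add_sub_cancel]
        have b2 : (Real.log ((m + 1 : ℕ) : ℝ) - Real.log m) * (1 / Real.log ((m + 1 : ℕ) : ℝ))
            = 1 - Real.log m / Real.log ((m + 1 : ℕ) : ℝ) := by
          field_simp
        rw [b2]
        linarith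
      linarith
  have h4 := h3 z hwz
  have h5 : c * (1 / Real.log ((w + 1 : ℕ) : ℝ)) ≤ c / Real.log w := by
    rw [mul_one_div]
    apply div_le_div_of_nonneg_left hc hlw
    apply Real.log_le_log
    · exact_mod_cast (by omega : 0 < w)
    · push_cast; linarith
  rw [h1, Real.log_div (hlog z hwz).ne' hlw.ne']
  linarith

theorem sum_tele {w z : ℕ} (hw : 2 ≤ w) (hwz : w ≤ z) :
    ∑ k ∈ Ioc w z, 1 / ((k : ℝ) * ((k : ℝ) - 1)) ≤ 1 / w - 1 / z := by
  induction z, hwz using Nat.le_induction with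
  | base => simp
  | succ m hm ih =>
    rw [sum_Ioc_succ_top (by omega)]
    have hm0 : (0 : ℝ) < m := by exact_mod_cast (by omega : 0 < m)
    have h1 : 1 / (((m + 1 : ℕ) : ℝ) * (((m + 1 : ℕ) : ℝ) - 1)) = 1 / m - 1 / ((m + 1 : ℕ) : ℝ) := by
      push_cast
      rw [add_sub_cancel_right]
      field_simp
      ring
    rw [h1]
    linarith

theorem exists_mertens_prod : ∃ C : ℝ, 0 < C ∧ ∀ w z : ℕ, 3 ≤ w → w ≤ z →
    ∏ p ∈ PPr w z, (1 + 1 / ((p : ℝ) - 1)) ≤ C * (Real.log z / Real.log w) := by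
  have hc0 := c0_pos
  refine ⟨Real.exp (c0 + 2), Real.exp_pos _, fun w z hw hwz => ?_⟩
  have hw' : (3 : ℝ) ≤ w := by exact_mod_cast hw
  have hlw : 1 ≤ Real.log w := by
    rw [Real.le_log_iff_exp_le (by linarith)]
    have := Real.exp_one_lt_d9
    linarith
  have hlz : 0 < Real.log z := by
    apply Real.log_pos
    exact_mod_cast (by omega : 1 < z)
  have hgen := sum_recip_le (w := w) (z := z) (by omega) hwz (c := c0 + 1) (by linarith) (by
    intro m hm1 _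
    have h1 := B_upper m (by omega)
    have h2 := B_lower w (by omega)
    have h3 : ∑ d ∈ Ioc 0 m, ArithmeticFunction.vonMangoldt d / d
        = ∑ d ∈ Ioc 0 w, ArithmeticFunction.vonMangoldt d / d
          + ∑ d ∈ Ioc w m, ArithmeticFunction.vonMangoldt d / d :=
      (sum_Ioc_consecutive _ (Nat.zero_le w) hm1).symm
    linarith)
  have h1 : ∏ p ∈ PPr w z, (1 + 1 / ((p : ℝ) - 1))
      ≤ Real.exp (∑ p ∈ PPr w z, 1 / ((p : ℝ) - 1)) := by
    rw [Real.exp_sum]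
    apply prod_le_prod
    · intro p hp
      rw [mem_PPr] at hp
      have : (1 : ℝ) < p := by exact_mod_cast hp.2.one_lt
      have : 0 < 1 / ((p : ℝ) - 1) := by
        apply div_pos one_pos
        linarith
      linarith
    · intro p _
      rw [add_comm]
      exact Real.add_one_le_exp _
  have h2 : ∑ p ∈ PPr w z, 1 / ((p : ℝ) - 1)
      = ∑ p ∈ PPr w z, 1 / (p : ℝ) + ∑ p ∈ PPr w z, 1 / ((p : ℝ) * ((p : ℝ) - 1)) := by
    rw [← sum_add_distrib]
    apply sum_congr rfl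
    intro p hp
    rw [mem_PPr] at hp
    have h3 : (1 : ℝ) < p := by exact_mod_cast hp.2.one_lt
    have h4 : (p : ℝ) - 1 ≠ 0 := by linarith
    have h5 : (p : ℝ) ≠ 0 := by linarith
    field_simp
    ring
  have h3 : ∑ p ∈ PPr w z, 1 / ((p : ℝ) * ((p : ℝ) - 1)) ≤ 1 := by
    have h4 : ∑ p ∈ PPr w z, 1 / ((p : ℝ) * ((p : ℝ) - 1))
        ≤ ∑ k ∈ Ioc w z, 1 / ((k : ℝ) * ((k : ℝ) - 1)) := by
      apply sum_le_sum_of_subset_of_nonneg (filter_subset _ _)
      intro k hk _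
      rw [mem_Ioc] at hk
      have : (1 : ℝ) < k := by exact_mod_cast (by omega : 1 < k)
      apply div_nonneg zero_le_one
      nlinarith
    have h5 := sum_tele (by omega : 2 ≤ w) hwz
    have h6 : 1 / (w : ℝ) ≤ 1 := by
      rw [div_le_one (by linarith)]
      linarith
    have h7 : 0 ≤ 1 / (z : ℝ) := by positivity
    linarith
  have h4 : (c0 + 1) / Real.log w ≤ c0 + 1 := div_le_self (by linarith) hlw
  have h5 : ∑ p ∈ PPr w z, 1 / ((p : ℝ) - 1) ≤ Real.log (Real.log z / Real.log w) + (c0 + 2) := by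
    rw [h2]
    linarith
  refine h1.trans ((Real.exp_le_exp.2 h5).trans (le_of_eq ?_))
  rw [Real.exp_add, Real.exp_log (by positivity)]
  ring

end

end Pool.Agent.H35.V1

end

section

/-!
# Project WL (MP_a78e8f_nt): definitions

Elliott-Halberstam for almost all residues in intervals of length `(log x)^C`, all levels `θ < 1`,
with exceptional sets of density `(log x)^{-c}`.  `Lam`, `lamR`, `hR`, `ramS`, `psiA`, `err` are those of
`Pool.Agent.H91.EHA.Defs`.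
-/

set_option autoImplicit false

namespace Pool.Agent.H87.WL

open Finset

/-- the Möbius function with real values -/
noncomputable def mo (n : ℕ) : ℝ := (ArithmeticFunction.moebius n : ℝ)

/-! ### Selberg's function -/

/-- `G = ∑_{h ≤ D, (h,q) = 1} μ(h)²/φ(h)` -/
noncomputable def Gs (D q : ℕ) : ℝ :=
  ∑ h ∈ (Icc 1 D).filter (fun h => Nat.Coprime h q), mo h ^ 2 / (h.totient : ℝ)

/-! ### The statements delivered by other projects -/

end Pool.Agent.H87.WL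

end

section

/-!
# WL Gl: the lower bound for `G`

`(q/φ(q)) ∑_{h ≤ D, (h,q)=1} μ(h)²/φ(h) ≥ ∑_{h ≤ D} μ(h)²/φ(h) ≥ ∑_{n ≤ D} 1/n ≥ log (D+1)`.
First inequality: `q/φ(q) = ∑_{e | q} μ(e)²/φ(e)`; the products `e h` are different (`e = (eh, q)`) and run
through all squarefree numbers `≤ D` (among others). Second: `1/φ(h) = (1/h) ∏_{p | h} (1-1/p)^{-1}` is the
sum of `1/n` over all `n` with squarefree kernel `h`. (Compare, if useful, landed proofs for the large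
sieve: grep for `totient` and `log` in Pool/Agent/H91/PK, Pool/Agent/H92/EH, Pool/Agent/H35/V1.)
-/

set_option autoImplicit false

namespace Pool.Agent.H87.WL

open Finset

/-! ### The sum over the numbers with a given radical -/

/-- the product of the primes dividing `n` but not `M` -/
def gl_rad (M n : ℕ) : ℕ := ∏ p ∈ n.primeFactors.filter (fun p => ¬ p ∣ M), p

theorem gl_rad_dvd (M n : ℕ) : gl_rad M n ∣ n :=
  (prod_dvd_prod_of_subset _ _ _ (filter_subset _ _)).trans (Nat.prod_primeFactors_dvd n)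

theorem gl_sq (T : Finset ℕ) (hT : ∀ p ∈ T, p.Prime) : Squarefree (∏ p ∈ T, p) := by
  classical
  induction T using Finset.induction_on with
  | empty => simp
  | insert a T ha ih =>
    have ha' : a.Prime := hT a (mem_insert_self a T)
    have hT' : ∀ p ∈ T, p.Prime := fun p hp => hT p (mem_insert_of_mem hp)
    have hcop : Nat.Coprime a (∏ p ∈ T, p) := by
      refine Nat.Coprime.prod_right ?_
      intro p hp
      rw [Nat.coprime_primes ha' (hT' p hp)]
      rintro rfl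
      exact ha hp
    rw [prod_insert ha, Nat.squarefree_mul hcop]
    exact ⟨ha'.squarefree, ih hT'⟩

theorem gl_rad_sq (M n : ℕ) : Squarefree (gl_rad M n) :=
  gl_sq _ fun _ hp => Nat.prime_of_mem_primeFactors (mem_filter.1 hp).1

theorem gl_rad_coprime (M n : ℕ) : Nat.Coprime (gl_rad M n) M := by
  refine Nat.Coprime.prod_left ?_
  intro p hp
  rw [mem_filter] at hp
  exact (Nat.Prime.coprime_iff_not_dvd (Nat.prime_of_mem_primeFactors hp.1)).2 hp.2

/-- the completely multiplicative function `1/n` -/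
noncomputable def gl_inv : ℕ →* ℝ where
  toFun n := (n : ℝ)⁻¹
  map_one' := by simp
  map_mul' m n := by
    rw [Nat.cast_mul, mul_inv]

theorem gl_inv_apply (n : ℕ) : gl_inv n = (n : ℝ)⁻¹ := rfl

theorem gl_tot (K : ℕ) (hK : K ≠ 0) :
    ∏ p ∈ K.primeFactors with p.Prime, (1 - gl_inv p)⁻¹ = (K : ℝ) / K.totient := by
  have h1 : (K.primeFactors.filter fun p => p.Prime) = K.primeFactors :=
    filter_true_of_mem fun p hp => Nat.prime_of_mem_primeFactors hp
  rw [h1]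
  have h2 : (K.totient : ℝ) = K * ∏ p ∈ K.primeFactors, (1 - (p : ℝ)⁻¹) := by
    have h := congrArg (fun q : ℚ => (q : ℝ)) (Nat.totient_eq_mul_prod_factors K)
    push_cast at h
    exact h
  have hφ : (K.totient : ℝ) ≠ 0 := by
    have := Nat.totient_pos.2 (Nat.pos_of_ne_zero hK)
    positivity
  have hK' : (K : ℝ) ≠ 0 := by exact_mod_cast hK
  rw [eq_div_iff hφ, h2, prod_inv_distrib]
  have h3 : ∏ p ∈ K.primeFactors, (1 - (p : ℝ)⁻¹) ≠ 0 := by
    intro h
    rw [h2, h, mul_zero] at hφ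
    exact hφ rfl
  simp only [gl_inv_apply]
  generalize ∏ p ∈ K.primeFactors, (1 - (p : ℝ)⁻¹) = Q at h3
  field_simp

theorem gl_sum (K : ℕ) (hK : K ≠ 0) (T : Finset ℕ)
    (hT : ∀ m ∈ T, m ∈ Nat.factoredNumbers K.primeFactors) :
    ∑ m ∈ T, (m : ℝ)⁻¹ ≤ (K : ℝ) / K.totient := by
  classical
  obtain ⟨h1, h2⟩ := EulerProduct.summable_and_hasSum_factoredNumbers_prod_filter_prime_geometric
    (f := gl_inv) (fun {p} hp => by
      rw [gl_inv_apply, norm_inv, Real.norm_natCast]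
      exact inv_lt_one_of_one_lt₀ (by exact_mod_cast hp.one_lt)) K.primeFactors
  rw [gl_tot K hK] at h2
  rw [← h2.tsum_eq]
  have h3 : ∑ m ∈ T, (m : ℝ)⁻¹ = ∑ m ∈ T.attach.image (fun m => (⟨m.1, hT m.1 m.2⟩ :
      Nat.factoredNumbers K.primeFactors)), gl_inv m := by
    rw [sum_image]
    · rw [← sum_attach]
      rfl
    · intro x _ y _ h
      exact Subtype.ext (congrArg (fun z : Nat.factoredNumbers K.primeFactors => (z : ℕ)) h)
  rw [h3]
  refine h2.summable.sum_le_tsum _ fun i _ => ?_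
  rw [gl_inv_apply]
  positivity

theorem gl_fiber (M : ℕ) (hM : 1 ≤ M) (N r : ℕ) (hr : r ≠ 0) (hrM : Nat.Coprime r M) :
    ∑ n ∈ (Icc 1 N).filter (fun n => gl_rad M n = r), (n : ℝ)⁻¹ ≤
      (1 / (r.totient : ℝ)) * ((M : ℝ) / M.totient) := by
  classical
  have hM0 : M ≠ 0 := by omega
  have hK : r * M ≠ 0 := mul_ne_zero hr hM0
  have h1 : ∀ n ∈ (Icc 1 N).filter (fun n => gl_rad M n = r), r ∣ n := by
    intro n hn
    rw [mem_filter] at hn
    rw [← hn.2]
    exact gl_rad_dvd M n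
  have h2 := gl_sum (r * M) hK (((Icc 1 N).filter (fun n => gl_rad M n = r)).image (fun n => n / r))
    (by
      intro m hm
      rw [mem_image] at hm
      obtain ⟨n, hn, rfl⟩ := hm
      have hrn := h1 n hn
      rw [mem_filter, mem_Icc] at hn
      have hn0 : n ≠ 0 := by omega
      rw [Nat.mem_factoredNumbers]
      refine ⟨?_, ?_⟩
      · exact (Nat.div_pos (Nat.le_of_dvd (by omega) hrn) (Nat.pos_of_ne_zero hr)).ne'
      · intro p hp
        have hpp := Nat.prime_of_mem_primeFactorsList hp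
        have hpn : p ∣ n := (Nat.dvd_of_mem_primeFactorsList hp).trans (Nat.div_dvd_of_dvd hrn)
        rw [Nat.mem_primeFactors]
        refine ⟨hpp, ?_, hK⟩
        by_cases hpM : p ∣ M
        · exact hpM.mul_left r
        · refine Dvd.dvd.mul_right ?_ M
          rw [← hn.2]
          refine dvd_prod_of_mem _ ?_
          rw [mem_filter, Nat.mem_primeFactors]
          exact ⟨⟨hpp, hpn, hn0⟩, hpM⟩)
  rw [sum_image] at h2
  · have h3 : ∑ n ∈ (Icc 1 N).filter (fun n => gl_rad M n = r), (n : ℝ)⁻¹ =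
        (r : ℝ)⁻¹ * ∑ n ∈ (Icc 1 N).filter (fun n => gl_rad M n = r), ((n / r : ℕ) : ℝ)⁻¹ := by
      rw [mul_sum]
      refine sum_congr rfl fun n hn => ?_
      rw [← mul_inv]
      congr 1
      rw [← Nat.cast_mul, Nat.mul_div_cancel' (h1 n hn)]
    rw [h3]
    refine (mul_le_mul_of_nonneg_left h2 (by positivity)).trans (le_of_eq ?_)
    rw [Nat.totient_mul hrM, Nat.cast_mul, Nat.cast_mul]
    have hr' : (r : ℝ) ≠ 0 := by exact_mod_cast hr
    field_simp
  · intro x hx y hy hxy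
    have e1 := Nat.mul_div_cancel' (h1 x hx)
    have e2 := Nat.mul_div_cancel' (h1 y hy)
    have hxy' : x / r = y / r := hxy
    rw [← e1, ← e2, hxy']

/-- the set of moduli -/
def gl_S (M N : ℕ) : Finset ℕ := (Icc 1 N).filter (fun r => Squarefree r ∧ Nat.Coprime r M)

theorem gl_mem_S {M N r : ℕ} :
    r ∈ gl_S M N ↔ (1 ≤ r ∧ r ≤ N) ∧ Squarefree r ∧ Nat.Coprime r M := by
  unfold gl_S
  rw [mem_filter, mem_Icc]

/-- the main sum -/
noncomputable def gl_G (M N : ℕ) : ℝ := ∑ r ∈ gl_S M N, 1 / (r.totient : ℝ)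

theorem gl_G_ge (M : ℕ) (hM : 1 ≤ M) (N : ℕ) :
    ∑ n ∈ Icc 1 N, (n : ℝ)⁻¹ ≤ gl_G M N * ((M : ℝ) / M.totient) := by
  classical
  have hmaps : ∀ n ∈ Icc 1 N, gl_rad M n ∈ gl_S M N := by
    intro n hn
    rw [mem_Icc] at hn
    rw [gl_mem_S]
    have h0 : 0 < n := by omega
    exact ⟨⟨Nat.pos_of_dvd_of_pos (gl_rad_dvd M n) h0, (Nat.le_of_dvd h0 (gl_rad_dvd M n)).trans hn.2⟩,
      gl_rad_sq M n, gl_rad_coprime M n⟩
  rw [← sum_fiberwise_of_maps_to hmaps]
  unfold gl_G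
  rw [sum_mul]
  refine sum_le_sum fun r hr => ?_
  rw [gl_mem_S] at hr
  exact gl_fiber M hM N r (by omega) hr.2.2

theorem gs_ge (D q : ℕ) (hq : 1 ≤ q) :
    (q.totient : ℝ) / q * Real.log (D + 1) ≤ Gs D q := by
  have hq0 : (0 : ℝ) < q := by exact_mod_cast hq
  have hφ : (0 : ℝ) < q.totient := by exact_mod_cast Nat.totient_pos.2 hq
  have h1 : Gs D q = gl_G q D := by
    unfold Gs gl_G gl_S
    rw [← filter_filter, sum_filter (s := Icc 1 D), sum_filter (s := (Icc 1 D).filter Squarefree),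
      sum_filter (s := Icc 1 D)]
    refine sum_congr rfl fun h _ => ?_
    by_cases hs : Squarefree h
    · have h2 : mo h ^ 2 = 1 := by
        unfold mo
        exact_mod_cast ArithmeticFunction.moebius_sq_eq_one_of_squarefree hs
      rw [if_pos hs, h2]
    · have h2 : mo h = 0 := by
        unfold mo
        rw [ArithmeticFunction.moebius_eq_zero_of_not_squarefree hs, Int.cast_zero]
      rw [if_neg hs, h2]
      simp
  have h2 := gl_G_ge q hq D
  have h3 : Real.log (D + 1) ≤ ∑ n ∈ Icc 1 D, (n : ℝ)⁻¹ := by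
    have h4 := log_add_one_le_harmonic D
    rw [harmonic_eq_sum_Icc] at h4
    push_cast at h4
    exact h4
  rw [h1]
  have h5 : Real.log (D + 1) ≤ gl_G q D * ((q : ℝ) / q.totient) := h3.trans h2
  calc (q.totient : ℝ) / q * Real.log (D + 1)
      ≤ (q.totient : ℝ) / q * (gl_G q D * ((q : ℝ) / q.totient)) :=
        mul_le_mul_of_nonneg_left h5 (by positivity)
    _ = gl_G q D := by field_simp

end Pool.Agent.H87.WL

end

section

/-!
Farey fractions are well spaced, and the resulting mean value estimate for exponential sums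
over primes.
-/

set_option autoImplicit false

namespace Pool.Agent.H92.EH

open Finset

/-- Reduced residues modulo `r`, as natural numbers less than `r`. -/
def red (r : ℕ) : Finset ℕ := (range r).filter (fun b => Nat.Coprime b r)

theorem mem_red {r b : ℕ} : b ∈ red r ↔ b < r ∧ Nat.Coprime b r := by
  simp [red]

end Pool.Agent.H92.EH

end

section

/-!
Complete exponential sums and Ramanujan sums.
-/

set_option autoImplicit false

namespace Pool.Agent.H92.EH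

open Finset

/-- Complete sums of additive characters. -/
theorem sum_complete (n : ℕ) (hn : 0 < n) (m : ℤ) :
    ∑ b ∈ range n, e (m * ((b : ℝ) / n)) = if (n : ℤ) ∣ m then (n : ℂ) else 0 := by
  have hn0 : (n : ℝ) ≠ 0 := by exact_mod_cast hn.ne'
  have h1 : ∀ b : ℕ, e (m * ((b : ℝ) / n)) = e ((m : ℝ) / n) ^ b := by
    intro b
    rw [← e_nat_mul]
    congr 1
    ring
  simp_rw [h1]
  split_ifs with h
  · obtain ⟨k, rfl⟩ := h
    have : ((n : ℤ) * k : ℤ) / (n : ℝ) = (k : ℝ) := by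
      push_cast
      field_simp
    rw [this, e_int]
    simp
  · have hne : e ((m : ℝ) / n) ≠ 1 := by
      intro he
      apply h
      unfold e at he
      rw [Complex.exp_eq_one_iff] at he
      obtain ⟨k, hk⟩ := he
      refine ⟨k, ?_⟩
      have hpi : (Real.pi : ℂ) ≠ 0 := by exact_mod_cast Real.pi_ne_zero
      have hI := Complex.I_ne_zero
      have hn0' : (n : ℂ) ≠ 0 := by exact_mod_cast hn.ne'
      push_cast at hk
      have h2 : (2 * Real.pi * Complex.I : ℂ) * (m / n) = (2 * Real.pi * Complex.I) * k := by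
        linear_combination hk
      have h3 : ((m : ℂ) / n) = k := by
        apply mul_left_cancel₀ _ h2
        simp [hpi, hI]
      rw [div_eq_iff hn0'] at h3
      have h4 : (m : ℂ) = ((n : ℤ) * k : ℤ) := by
        rw [h3]
        push_cast
        ring
      exact_mod_cast h4
    have h5 : (∑ b ∈ range n, e ((m : ℝ) / n) ^ b) * (e ((m : ℝ) / n) - 1) = 0 := by
      rw [geom_sum_mul, ← e_nat_mul]
      have : (n : ℝ) * ((m : ℝ) / n) = m := by field_simp
      rw [this, e_int, sub_self]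
    rcases mul_eq_zero.mp h5 with h6 | h6
    · exact h6
    · exact absurd (sub_eq_zero.mp h6) hne

/-- The Ramanujan sum `c_r(m)`. -/
noncomputable def ram (r : ℕ) (m : ℤ) : ℂ := ∑ b ∈ red r, e (m * ((b : ℝ) / r))

theorem sum_ram_divisors (n : ℕ) (hn : 0 < n) (m : ℤ) :
    ∑ d ∈ n.divisors, ram d m = if (n : ℤ) ∣ m then (n : ℂ) else 0 := by
  rw [← sum_complete n hn m]
  -- partition `range n` according to the gcd with `n`
  have h1 : ∑ b ∈ range n, e (m * ((b : ℝ) / n))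
      = ∑ d ∈ n.divisors, ∑ b ∈ (range n).filter (fun b => n / Nat.gcd b n = d),
          e (m * ((b : ℝ) / n)) := by
    rw [sum_fiberwise_of_maps_to]
    intro b _
    rw [Nat.mem_divisors]
    exact ⟨Nat.div_dvd_of_dvd (Nat.gcd_dvd_right b n), hn.ne'⟩
  rw [h1]
  refine sum_congr rfl fun d hd => ?_
  rw [Nat.mem_divisors] at hd
  obtain ⟨k, hk⟩ := hd.1
  have hdpos : 0 < d := Nat.pos_of_ne_zero (by rintro rfl; omega)
  have hkpos : 0 < k := Nat.pos_of_ne_zero (by rintro rfl; omega)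
  unfold ram
  refine sum_bij (fun b _ => b * k) ?_ ?_ ?_ ?_
  · intro b hb
    rw [mem_red] at hb
    rw [mem_filter, mem_range]
    have hg : Nat.gcd (b * k) n = k := by
      rw [hk, Nat.gcd_mul_right]
      have : Nat.gcd b d = 1 := hb.2
      rw [this, one_mul]
    refine ⟨?_, ?_⟩
    · rw [hk]
      exact Nat.mul_lt_mul_of_pos_right hb.1 hkpos
    · rw [hg, hk]
      exact Nat.mul_div_cancel _ hkpos
  · intro b _ b' _ h
    exact Nat.eq_of_mul_eq_mul_right hkpos h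
  · intro c hc
    rw [mem_filter, mem_range] at hc
    obtain ⟨hc1, hc2⟩ := hc
    have hgpos : 0 < Nat.gcd c n := Nat.gcd_pos_of_pos_right _ hn
    have hgk : Nat.gcd c n = k := by
      have h2 : Nat.gcd c n ∣ n := Nat.gcd_dvd_right c n
      have h3 : n / Nat.gcd c n * Nat.gcd c n = n := Nat.div_mul_cancel h2
      rw [hc2] at h3
      exact Nat.eq_of_mul_eq_mul_left hdpos (h3.trans hk)
    have hkc : k ∣ c := by rw [← hgk]; exact Nat.gcd_dvd_left c n
    obtain ⟨b, hb⟩ := hkc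
    refine ⟨b, ?_, by rw [hb]; ring⟩
    rw [mem_red]
    constructor
    · have : k * b < k * d := by rw [← hb, mul_comm k d, ← hk]; exact hc1
      exact lt_of_mul_lt_mul_left this (Nat.zero_le _)
    · have h2 : Nat.gcd (k * b) (k * d) = k := by
        rw [← hb, mul_comm k d, ← hk]
        exact hgk
      rw [Nat.gcd_mul_left] at h2
      have h3 : k * Nat.gcd b d = k * 1 := by rw [h2, mul_one]
      exact Nat.eq_of_mul_eq_mul_left hkpos h3
  · intro b _
    congr 2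
    have hd0 : (d : ℝ) ≠ 0 := by exact_mod_cast hdpos.ne'
    have hk0 : (k : ℝ) ≠ 0 := by exact_mod_cast hkpos.ne'
    rw [hk]
    push_cast
    field_simp

/-- Formula for the Ramanujan sum. -/
theorem ram_eq (r : ℕ) (hr : 0 < r) (m : ℤ) :
    ram r m = ∑ x ∈ r.divisorsAntidiagonal,
      ((ArithmeticFunction.moebius x.1 : ℤ) : ℂ) * (if ((x.2 : ℕ) : ℤ) ∣ m then (x.2 : ℂ) else 0) := by
  have h := (ArithmeticFunction.sum_eq_iff_sum_mul_moebius_eq
    (f := fun n => ram n m) (g := fun n : ℕ => if (n : ℤ) ∣ m then (n : ℂ) else 0)).mp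
    (fun n hn => sum_ram_divisors n hn m) r hr
  exact h.symm

/-- The Ramanujan sum at an integer prime to the modulus. -/
theorem ram_of_coprime (r : ℕ) (hr : 0 < r) (m : ℤ) (hm : IsCoprime m (r : ℤ)) :
    ram r m = ((ArithmeticFunction.moebius r : ℤ) : ℂ) := by
  rw [ram_eq r hr m]
  rw [sum_eq_single (r, 1)]
  · simp
  · rintro ⟨a, b⟩ hab hne
    rw [Nat.mem_divisorsAntidiagonal] at hab
    simp only at hab ⊢
    rw [if_neg, mul_zero]
    intro hb
    have h1 : (b : ℤ) ∣ (r : ℤ) := by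
      rw [← hab.1]
      push_cast
      exact Dvd.intro_left _ rfl
    have h2 : IsUnit (b : ℤ) := hm.isUnit_of_dvd' hb h1
    have h3 : b = 1 := by
      rw [Int.isUnit_iff] at h2
      omega
    apply hne
    rw [h3, mul_one] at hab
    rw [h3, hab.1]
  · intro h
    exfalso
    apply h
    rw [Nat.mem_divisorsAntidiagonal]
    exact ⟨by ring, hr.ne'⟩

end Pool.Agent.H92.EH

end

section

/-!
# LM Dec: decomposition of the Möbius function along its prime factors in `(P1, P1 2^J]`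

Proof.  `P_j = P1 2^j`, `r_j` = the number of the primes of `(P_j, 2 P_j]` dividing `n`.  If all `r_j = 0`: `n` has no prime factor in `(P1, P1 2^J]`, the sum is `0` and `|mu n| ≤ 1`.  Otherwise let `j*` be the least `j` with `r_j ≥ 1`, `q` a prime of `(P_{j*}, 2P_{j*}]` with `q ∣ n`.
`j < j*`: `Fp .. = 0` (empty sum).  `j > j*`, `p ∈ pb P_j`, `p ∣ n`: `q ≤ 2 P_{j*} ≤ P_j < p`, so `q ∣ n/p`, `P1 < q ≤ P_j`: `gP P1 P_j (n/p) = 0`.  `j = j*`: `n`, hence `n/p`, has no prime factor in `(P1, P_{j*}]` (it would be in an earlier block), so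
`gP P1 P_{j*} (n/p) = -mu(n/p)`.  If `p^2 ∣ n` for no prime `p ∈ (P1, P1 2^J]`: `-mu(n/p) = mu n` (`mu` multiplicative, `mu p = -1`), the sum is `r mu n`, `|mu n - r mu n| ≤ r - 1 ≤ r(r-1)`.  Otherwise `mu n = 0`, the sum is at most `r ≤ 1 + r(r-1)` in absolute value and the last term is `≥ 1`.
-/

set_option autoImplicit false

namespace Pool.Agent.H43.LM

open Finset
open Pool.Agent.H35.W (pb)
open Pool.Agent.H53.MID (Fp)

/-- the number of the primes of `(P, 2P]` dividing `n` -/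
noncomputable def rP (P n : ℕ) : ℝ := (((pb P).filter (fun p => p ∣ n)).card : ℝ)

open Classical in
/-- the error of the decomposition at `n` -/
noncomputable def er (P1 J n : ℕ) : ℝ :=
  (if Fr P1 (P1 * 2 ^ J) n then 1 else 0) + ∑ j ∈ range J, rP (P1 * 2 ^ j) n * (rP (P1 * 2 ^ j) n - 1)
    + ((((Ioc P1 (P1 * 2 ^ J)).filter Nat.Prime).filter (fun p => p ^ 2 ∣ n)).card : ℝ)

private theorem Dec_r_nonneg (P n : ℕ) : 0 ≤ rP P n * (rP P n - 1) := by
  unfold rP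
  rcases Nat.eq_zero_or_pos ((pb P).filter (fun p => p ∣ n)).card with h | h
  · rw [h]
    simp
  · have h1 : (1 : ℝ) ≤ (((pb P).filter (fun p => p ∣ n)).card : ℝ) := by exact_mod_cast h
    exact mul_nonneg (by linarith) (by linarith)

private theorem Dec_mem {P p : ℕ} : p ∈ pb P ↔ (P < p ∧ p ≤ 2 * P) ∧ p.Prime := by
  unfold pb
  rw [mem_filter, mem_Ioc]

private theorem Dec_block {P1 J q : ℕ} (h1 : P1 < q) (h2 : q ≤ P1 * 2 ^ J) :
    ∃ j < J, P1 * 2 ^ j < q ∧ q ≤ 2 * (P1 * 2 ^ j) := by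
  classical
  have hex : ∃ j, q ≤ P1 * 2 ^ j := ⟨J, h2⟩
  have hspec := Nat.find_spec hex
  have hle : Nat.find hex ≤ J := Nat.find_min' hex h2
  have h0 : Nat.find hex ≠ 0 := by
    intro h0
    rw [h0, pow_zero, mul_one] at hspec
    omega
  obtain ⟨j, hj⟩ := Nat.exists_eq_succ_of_ne_zero h0
  have hmin := Nat.find_min hex (m := j) (by omega)
  rw [hj, Nat.succ_eq_add_one, pow_succ] at hspec
  refine ⟨j, by omega, by omega, ?_⟩
  calc q ≤ P1 * (2 ^ j * 2) := hspec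
    _ = 2 * (P1 * 2 ^ j) := by ring

private theorem Dec_le {P1 i j : ℕ} (h : i < j) : 2 * (P1 * 2 ^ i) ≤ P1 * 2 ^ j := by
  have h1 : 2 ^ (i + 1) ≤ 2 ^ j := Nat.pow_le_pow_right (by norm_num) h
  calc 2 * (P1 * 2 ^ i) = P1 * 2 ^ (i + 1) := by ring
    _ ≤ P1 * 2 ^ j := Nat.mul_le_mul_left P1 h1

private theorem Dec_ge (P1 j : ℕ) : P1 ≤ P1 * 2 ^ j := Nat.le_mul_of_pos_right P1 (by positivity)

theorem dec (P1 J n : ℕ) (hP1 : 1 ≤ P1) (hn : n ≠ 0) :
    |mu n - ∑ j ∈ range J, Fp (gP P1 (P1 * 2 ^ j)) (P1 * 2 ^ j) n| ≤ er P1 J n := by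
  classical
  have hr0 : ∀ j ∈ range J, 0 ≤ rP (P1 * 2 ^ j) n * (rP (P1 * 2 ^ j) n - 1) :=
    fun j _ => Dec_r_nonneg _ n
  have hs0 : 0 ≤ ∑ j ∈ range J, rP (P1 * 2 ^ j) n * (rP (P1 * 2 ^ j) n - 1) := sum_nonneg hr0
  have hc0 : (0 : ℝ) ≤ ((((Ioc P1 (P1 * 2 ^ J)).filter Nat.Prime).filter
    (fun p => p ^ 2 ∣ n)).card : ℝ) := Nat.cast_nonneg _
  by_cases hFr : Fr P1 (P1 * 2 ^ J) n
  · have hsum : ∑ j ∈ range J, Fp (gP P1 (P1 * 2 ^ j)) (P1 * 2 ^ j) n = 0 := by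
      refine sum_eq_zero fun j hj => ?_
      unfold Fp
      refine sum_eq_zero fun p hp => ?_
      obtain ⟨hp1, hp2⟩ := mem_filter.1 hp
      obtain ⟨⟨hp3, hp4⟩, hp5⟩ := Dec_mem.1 hp1
      have h1 := Dec_ge P1 j
      have h2 := Dec_le (P1 := P1) (mem_range.1 hj)
      exact absurd hp2 (hFr p hp5 (by omega) (by omega))
    rw [hsum, sub_zero]
    unfold er
    rw [if_pos hFr]
    have := mu_abs_le n
    linarith
  · have hex : ∃ j, j < J ∧ ∃ q ∈ pb (P1 * 2 ^ j), q ∣ n := by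
      unfold Fr at hFr
      push Not at hFr
      obtain ⟨q, hq, h1, h2, h3⟩ := hFr
      obtain ⟨j, hj, h4, h5⟩ := Dec_block h1 h2
      exact ⟨j, hj, q, Dec_mem.2 ⟨⟨h4, h5⟩, hq⟩, h3⟩
    obtain ⟨jm, hjm, hmin⟩ : ∃ jm, (jm < J ∧ ∃ q ∈ pb (P1 * 2 ^ jm), q ∣ n) ∧
        ∀ j < jm, ¬ (j < J ∧ ∃ q ∈ pb (P1 * 2 ^ j), q ∣ n) :=
      ⟨Nat.find hex, Nat.find_spec hex, fun j hj => Nat.find_min hex hj⟩
    obtain ⟨hjmJ, q, hq, hqn⟩ := hjm
    obtain ⟨⟨hq1, hq2⟩, hqp⟩ := Dec_mem.1 hq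
    have hjmr : jm ∈ range J := mem_range.2 hjmJ
    -- the other blocks
    have hother : ∀ j ∈ range J, j ≠ jm → Fp (gP P1 (P1 * 2 ^ j)) (P1 * 2 ^ j) n = 0 := by
      intro j hj hne
      unfold Fp
      refine sum_eq_zero fun p hp => ?_
      obtain ⟨hp1, hp2⟩ := mem_filter.1 hp
      rcases Nat.lt_or_ge j jm with hlt | hge
      · exact absurd ⟨mem_range.1 hj, p, hp1, hp2⟩ (hmin j hlt)
      · have hgt : jm < j := lt_of_le_of_ne hge (Ne.symm hne)
        obtain ⟨⟨hp3, hp4⟩, hp5⟩ := Dec_mem.1 hp1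
        have h1 := Dec_le (P1 := P1) hgt
        have h2 := Dec_ge P1 jm
        unfold gP
        rw [if_neg]
        intro hFr'
        refine hFr' q hqp (by omega) (by omega) ?_
        have hqp' : Nat.Coprime q p := (Nat.coprime_primes hqp hp5).2 (by omega)
        refine hqp'.dvd_of_dvd_mul_left ?_
        rw [Nat.mul_div_cancel' hp2]
        exact hqn
    have hsum : ∑ j ∈ range J, Fp (gP P1 (P1 * 2 ^ j)) (P1 * 2 ^ j) n =
        ∑ p ∈ (pb (P1 * 2 ^ jm)).filter (fun p => p ∣ n), - mu (n / p) := by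
      rw [sum_eq_single_of_mem jm hjmr hother]
      unfold Fp
      refine sum_congr rfl fun p hp => ?_
      obtain ⟨hp1, hp2⟩ := mem_filter.1 hp
      unfold gP
      rw [if_pos]
      intro q' hq' h1 h2 h3
      obtain ⟨j, hj, h4, h5⟩ := Dec_block h1 h2
      exact hmin j hj ⟨by omega, q', Dec_mem.2 ⟨⟨h4, h5⟩, hq'⟩,
        h3.trans (Nat.div_dvd_of_dvd hp2)⟩
    rw [hsum]
    obtain ⟨S, hS⟩ : ∃ S, S = (pb (P1 * 2 ^ jm)).filter (fun p => p ∣ n) := ⟨_, rfl⟩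
    have hrS : rP (P1 * 2 ^ jm) n = (S.card : ℝ) := by
      unfold rP
      rw [hS]
    have hqS : q ∈ S := by
      rw [hS]
      exact mem_filter.2 ⟨hq, hqn⟩
    have hr1 : (1 : ℝ) ≤ (S.card : ℝ) := by
      exact_mod_cast card_pos.2 ⟨q, hqS⟩
    have hsingle : (S.card : ℝ) * ((S.card : ℝ) - 1) ≤
        ∑ j ∈ range J, rP (P1 * 2 ^ j) n * (rP (P1 * 2 ^ j) n - 1) := by
      have := single_le_sum hr0 hjmr
      rw [hrS] at this
      exact this
    rw [← hS]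
    have her : er P1 J n = ∑ j ∈ range J, rP (P1 * 2 ^ j) n * (rP (P1 * 2 ^ j) n - 1)
        + ((((Ioc P1 (P1 * 2 ^ J)).filter Nat.Prime).filter (fun p => p ^ 2 ∣ n)).card : ℝ) := by
      unfold er
      rw [if_neg hFr, zero_add]
    rw [her]
    by_cases hsq : ∃ p : ℕ, p.Prime ∧ P1 < p ∧ p ≤ P1 * 2 ^ J ∧ p ^ 2 ∣ n
    · obtain ⟨p, hp, hp1, hp2, hp3⟩ := hsq
      have hmu : mu n = 0 := by
        unfold mu
        rw [ArithmeticFunction.moebius_eq_zero_of_not_squarefree]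
        · simp
        · intro hsf
          have := hsf p (by rw [← sq]; exact hp3)
          exact hp.one_lt.ne' (Nat.isUnit_iff.1 this)
      have hcard : (1 : ℝ) ≤ ((((Ioc P1 (P1 * 2 ^ J)).filter Nat.Prime).filter
          (fun p => p ^ 2 ∣ n)).card : ℝ) := by
        exact_mod_cast card_pos.2 ⟨p, mem_filter.2 ⟨mem_filter.2 ⟨mem_Ioc.2 ⟨hp1, hp2⟩, hp⟩, hp3⟩⟩
      have habs : |∑ p ∈ S, - mu (n / p)| ≤ S.card := by
        refine (abs_sum_le_sum_abs _ _).trans ?_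
        refine (sum_le_card_nsmul S _ 1 fun p _ => ?_).trans (by simp)
        rw [abs_neg]
        exact mu_abs_le _
      rw [hmu, zero_sub, abs_neg]
      nlinarith [sq_nonneg ((S.card : ℝ) - 1)]
    · have hterm : ∀ p ∈ S, - mu (n / p) = mu n := by
        intro p hp
        rw [hS] at hp
        obtain ⟨hp1, hp2⟩ := mem_filter.1 hp
        obtain ⟨⟨hp3, hp4⟩, hp5⟩ := Dec_mem.1 hp1
        have h1 := Dec_ge P1 jm
        have h2 := Dec_le (P1 := P1) hjmJ
        have hnd : ¬ p ∣ n / p := by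
          intro hd
          refine hsq ⟨p, hp5, by omega, by omega, ?_⟩
          have := mul_dvd_mul_left p hd
          rw [Nat.mul_div_cancel' hp2] at this
          rw [sq]
          exact this
        have hcop : Nat.Coprime p (n / p) := (Nat.Prime.coprime_iff_not_dvd hp5).2 hnd
        have hmul := ArithmeticFunction.isMultiplicative_moebius.map_mul_of_coprime hcop
        rw [Nat.mul_div_cancel' hp2, ArithmeticFunction.moebius_apply_prime hp5] at hmul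
        unfold mu
        rw [hmul]
        push_cast
        ring
      rw [sum_congr rfl hterm, sum_const, nsmul_eq_mul]
      have h1 : mu n - (S.card : ℝ) * mu n = -(((S.card : ℝ) - 1) * mu n) := by ring
      rw [h1, abs_neg, abs_mul, abs_of_nonneg (by linarith : (0 : ℝ) ≤ (S.card : ℝ) - 1)]
      have h2 := mu_abs_le n
      have h3 : ((S.card : ℝ) - 1) * |mu n| ≤ ((S.card : ℝ) - 1) * 1 :=
        mul_le_mul_of_nonneg_left h2 (by linarith)
      have h4 : ((S.card : ℝ) - 1) * 1 ≤ (S.card : ℝ) * ((S.card : ℝ) - 1) := by nlinarith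
      linarith

/-- trivial bound for the parts -/
theorem Fp_le (P1 P n : ℕ) (hP : 1 ≤ P) (hn : n ≠ 0) : |Fp (gP P1 P) P n| ≤ 2 * Real.log n := by
  have h1 : |Fp (gP P1 P) P n| ≤ (((pb P).filter (fun p => p ∣ n)).card : ℝ) := by
    unfold Fp
    refine (abs_sum_le_sum_abs _ _).trans ?_
    refine (sum_le_card_nsmul _ _ 1 fun p _ => gP_abs_le P1 P _).trans (by simp)
  have h2 : (pb P).filter (fun p => p ∣ n) ⊆ n.primeFactors := by
    intro p hp
    obtain ⟨hp1, hp2⟩ := mem_filter.1 hp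
    exact Nat.mem_primeFactors.2 ⟨(Dec_mem.1 hp1).2, hp2, hn⟩
  have h3 : 2 ^ n.primeFactors.card ≤ n := by
    calc 2 ^ n.primeFactors.card = ∏ _p ∈ n.primeFactors, 2 := by rw [prod_const]
      _ ≤ ∏ p ∈ n.primeFactors, p := by
          refine prod_le_prod' fun p hp => ?_
          exact (Nat.prime_of_mem_primeFactors hp).two_le
      _ ≤ n := Nat.le_of_dvd (Nat.pos_of_ne_zero hn) (Nat.prod_primeFactors_dvd n)
  have h4 : (2 : ℝ) ^ n.primeFactors.card ≤ n := by exact_mod_cast h3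
  have h5 : (n.primeFactors.card : ℝ) * Real.log 2 ≤ Real.log n := by
    have := Real.log_le_log (by positivity) h4
    rwa [Real.log_pow] at this
  have h6 : (((pb P).filter (fun p => p ∣ n)).card : ℝ) ≤ n.primeFactors.card := by
    exact_mod_cast card_le_card h2
  have h7 : (1 / 2 : ℝ) ≤ Real.log 2 := by
    have := Real.log_two_gt_d9
    linarith
  have h8 : (n.primeFactors.card : ℝ) * (1 / 2) ≤ (n.primeFactors.card : ℝ) * Real.log 2 :=
    mul_le_mul_of_nonneg_left h7 (Nat.cast_nonneg _)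
  linarith

end Pool.Agent.H43.LM

end

section

/-!
# VK TailA: tails of Dirichlet series by Abel summation

Proof.  `g(u) = (log u)^k u^{-σ}`, `S(u) = ∑_{n ≤ u} f n`.
`∑_{N<n≤M} f(n) g(n) = S(M) g(M) - S(N) g(N+1) + ∑_{N<n<M} S(n) (g(n) - g(n+1))` (for `M > N`), and `|g(n) - g(n+1)| ≤ sup |g'|` on `[n,n+1]`,
`|g'(u)| ≤ (k (log u)^{k-1} + σ (log u)^k) u^{-σ-1} ≤ (k+2) (1 + log(n+1))^k n^{-σ-1}`.  So everything is at most
`3 (k+2) δ (sup_n n g(n) + ∑_n (1 + log(n+1))^k n^{-σ})`.  With `a = (σ-1)/2 ≤ 1/2`: `w^k ≤ k! a^{-k} e^{a w}` for `w = 1 + log(n+1)`, so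
`(1+log(n+1))^k ≤ 4 k! (2/(σ-1))^k n^{(σ-1)/2}` and `∑_n n^{-1-(σ-1)/2} ≤ 1 + 2/(σ-1) ≤ 3/(σ-1)`.
-/

set_option autoImplicit false

namespace Pool.Agent.H97.VK

open Finset

/-- the weight -/
private noncomputable def tailA_g (k : ℕ) (σ : ℝ) (n : ℕ) : ℝ := Real.log n ^ k * (n : ℝ) ^ (-σ)

private lemma tailA_diff (k : ℕ) (σ : ℝ) (h1 : 1 < σ) (h2 : σ ≤ 2) (n : ℕ) (hn : 1 ≤ n) :
    |tailA_g k σ n - tailA_g k σ (n + 1)| ≤
      (k + 2) * ((1 + Real.log (n + 1)) ^ k * (n : ℝ) ^ (-σ - 1)) := by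
  have hn0 : (0 : ℝ) < n := by exact_mod_cast (show 0 < n by omega)
  have hn1 : (1 : ℝ) ≤ n := by exact_mod_cast hn
  have hder : ∀ u ∈ Set.Icc (n : ℝ) (n + 1), HasDerivWithinAt
      (fun u : ℝ => Real.log u ^ k * u ^ (-σ))
      ((k : ℝ) * Real.log u ^ (k - 1) * u⁻¹ * u ^ (-σ) + Real.log u ^ k * (-σ * u ^ (-σ - 1)))
      (Set.Icc (n : ℝ) (n + 1)) u := by
    intro u hu
    have hu0 : u ≠ 0 := by
      have := hu.1
      linarith
    exact (((Real.hasDerivAt_log hu0).pow k).mul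
      (Real.hasDerivAt_rpow_const (Or.inl hu0))).hasDerivWithinAt
  have hbd : ∀ u ∈ Set.Icc (n : ℝ) (n + 1),
      ‖(k : ℝ) * Real.log u ^ (k - 1) * u⁻¹ * u ^ (-σ) +
        Real.log u ^ k * (-σ * u ^ (-σ - 1))‖ ≤
      (k + 2) * ((1 + Real.log (n + 1)) ^ k * (n : ℝ) ^ (-σ - 1)) := by
    intro u hu
    have hu0 : 0 < u := lt_of_lt_of_le hn0 hu.1
    have hu1 : 1 ≤ u := hn1.trans hu.1
    have hlu : 0 ≤ Real.log u := Real.log_nonneg hu1
    have hlw : Real.log u ≤ 1 + Real.log (n + 1) := by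
      have := Real.log_le_log hu0 hu.2
      linarith
    have hw1 : 1 ≤ 1 + Real.log ((n : ℝ) + 1) := by
      have : 0 ≤ Real.log ((n : ℝ) + 1) := Real.log_nonneg (by linarith)
      linarith
    have hinv : u⁻¹ * u ^ (-σ) = u ^ (-σ - 1) := by
      rw [← Real.rpow_neg_one u, ← Real.rpow_add hu0]
      congr 1
      ring
    have hun : u ^ (-σ - 1) ≤ (n : ℝ) ^ (-σ - 1) :=
      Real.rpow_le_rpow_of_nonpos hn0 hu.1 (by linarith)
    have hun0 : 0 ≤ u ^ (-σ - 1) := by positivity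
    have hp1 : Real.log u ^ (k - 1) ≤ (1 + Real.log ((n : ℝ) + 1)) ^ k :=
      (pow_le_pow_left₀ hlu hlw _).trans (pow_le_pow_right₀ hw1 (Nat.sub_le k 1))
    have hp2 : Real.log u ^ k ≤ (1 + Real.log ((n : ℝ) + 1)) ^ k := pow_le_pow_left₀ hlu hlw _
    have hlp1 : 0 ≤ Real.log u ^ (k - 1) := pow_nonneg hlu _
    have hlp2 : 0 ≤ Real.log u ^ k := pow_nonneg hlu _
    have hk : (0 : ℝ) ≤ k := Nat.cast_nonneg k
    have hm1 : Real.log u ^ (k - 1) * u ^ (-σ - 1) ≤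
        (1 + Real.log ((n : ℝ) + 1)) ^ k * (n : ℝ) ^ (-σ - 1) :=
      mul_le_mul hp1 hun hun0 (by positivity)
    have hm2 : Real.log u ^ k * u ^ (-σ - 1) ≤
        (1 + Real.log ((n : ℝ) + 1)) ^ k * (n : ℝ) ^ (-σ - 1) :=
      mul_le_mul hp2 hun hun0 (by positivity)
    have e1 : (k : ℝ) * Real.log u ^ (k - 1) * u⁻¹ * u ^ (-σ) +
        Real.log u ^ k * (-σ * u ^ (-σ - 1)) =
        k * (Real.log u ^ (k - 1) * u ^ (-σ - 1)) - σ * (Real.log u ^ k * u ^ (-σ - 1)) := by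
      rw [← hinv]
      ring
    rw [e1, Real.norm_eq_abs, abs_le]
    have hA := mul_le_mul_of_nonneg_left hm1 hk
    have hB : σ * (Real.log u ^ k * u ^ (-σ - 1)) ≤
        2 * ((1 + Real.log ((n : ℝ) + 1)) ^ k * (n : ℝ) ^ (-σ - 1)) :=
      mul_le_mul h2 hm2 (by positivity) (by norm_num)
    have hA0 : 0 ≤ (k : ℝ) * (Real.log u ^ (k - 1) * u ^ (-σ - 1)) := by positivity
    have hB0 : 0 ≤ σ * (Real.log u ^ k * u ^ (-σ - 1)) := by positivity
    have hX : 0 ≤ (1 + Real.log ((n : ℝ) + 1)) ^ k * (n : ℝ) ^ (-σ - 1) := by positivity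
    have hkX : 0 ≤ (k : ℝ) * ((1 + Real.log ((n : ℝ) + 1)) ^ k * (n : ℝ) ^ (-σ - 1)) := by
      positivity
    constructor
    · linarith
    · linarith
  have h := Convex.norm_image_sub_le_of_norm_hasDerivWithin_le hder hbd (convex_Icc _ _)
    (Set.right_mem_Icc.2 (by linarith)) (Set.left_mem_Icc.2 (by linarith))
  have e2 : ‖(n : ℝ) - ((n : ℝ) + 1)‖ = 1 := by
    rw [show (n : ℝ) - ((n : ℝ) + 1) = -1 by ring]
    simp
  rw [e2, mul_one, Real.norm_eq_abs] at h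
  unfold tailA_g
  push_cast
  exact h

private lemma tailA_sum (a : ℝ) (ha : 0 < a) (ha1 : a ≤ 1) (M : ℕ) :
    ∑ n ∈ Icc 1 M, (n : ℝ) ^ (-1 - a) ≤ 1 + 1 / a := by
  have key : ∀ n : ℕ, 1 ≤ n →
      a * ((n + 1 : ℕ) : ℝ) ^ (-1 - a) ≤ (n : ℝ) ^ (-a) - ((n + 1 : ℕ) : ℝ) ^ (-a) := by
    intro n hn
    have hn0 : (0 : ℝ) < n := by exact_mod_cast (show 0 < n by omega)
    have hm0 : (0 : ℝ) < (n : ℝ) + 1 := by linarith
    push_cast
    set m : ℝ := (n : ℝ) + 1 with hm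
    have h1 : (n / m) ^ a ≤ 1 - a / m := by
      have h := rpow_one_add_le_one_add_mul_self (s := -(1 / m)) (by
        rw [neg_le_neg_iff, div_le_one hm0]
        linarith) ha.le ha1
      have e1 : 1 + -(1 / m) = n / m := by
        field_simp
        rw [hm]
        ring
      rw [e1] at h
      refine h.trans (le_of_eq ?_)
      ring
    have hnm : 0 < (n : ℝ) / m := by positivity
    have hx0 : 0 < ((n : ℝ) / m) ^ a := Real.rpow_pos_of_pos hnm a
    have ham : 0 ≤ a / m := by positivity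
    have h2 : 1 + a / m ≤ (n / m) ^ (-a) := by
      rw [Real.rpow_neg hnm.le, ← one_div, le_div_iff₀ hx0]
      nlinarith
    have h3 : (n : ℝ) ^ (-a) = (n / m) ^ (-a) * m ^ (-a) := by
      rw [← Real.mul_rpow hnm.le hm0.le]
      congr 1
      field_simp
    have h4 : m ^ (-1 - a) = m ^ (-a) / m := by
      rw [show (-1 - a) = -a - 1 by ring, Real.rpow_sub hm0, Real.rpow_one]
    have h5 : 0 ≤ m ^ (-a) := by positivity
    rw [h3, h4]
    have h6 := mul_le_mul_of_nonneg_right h2 h5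
    have e3 : a * (m ^ (-a) / m) = a / m * m ^ (-a) := by ring
    rw [e3]
    linarith
  have hind : ∀ M : ℕ, 1 ≤ M → a * ∑ n ∈ Icc 1 M, (n : ℝ) ^ (-1 - a) ≤
      a + 1 - (M : ℝ) ^ (-a) := by
    intro M hM
    induction M, hM using Nat.le_induction with
    | base => simp
    | succ M hM ih =>
      rw [sum_Icc_succ_top (by omega)]
      have := key M hM
      rw [mul_add]
      linarith
  rcases Nat.eq_zero_or_pos M with rfl | hM
  · simp
    positivity
  · have h := hind M hM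
    have h0 : 0 ≤ (M : ℝ) ^ (-a) := by positivity
    have e : 1 + 1 / a = (a + 1) / a := by field_simp
    rw [e, le_div_iff₀ ha, mul_comm]
    linarith

private lemma tailA_pow (k : ℕ) (a w : ℝ) (ha : 0 < a) (hw : 0 ≤ w) :
    w ^ k ≤ (k.factorial : ℝ) * (1 / a) ^ k * Real.exp (a * w) := by
  have h := Real.pow_div_factorial_le_exp (a * w) (by positivity) k
  have hf : (0 : ℝ) < k.factorial := by exact_mod_cast Nat.factorial_pos k
  rw [div_le_iff₀ hf, mul_pow] at h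
  have e : w ^ k = (1 / a) ^ k * (a ^ k * w ^ k) := by
    rw [← mul_assoc, ← mul_pow, one_div, inv_mul_cancel₀ ha.ne', one_pow, one_mul]
  rw [e]
  calc (1 / a) ^ k * (a ^ k * w ^ k) ≤ (1 / a) ^ k * (Real.exp (a * w) * k.factorial) :=
        mul_le_mul_of_nonneg_left h (by positivity)
    _ = _ := by ring

private lemma tailA_abel (f : ℕ → ℂ) (g : ℕ → ℝ) (N M : ℕ) (hM : N ≤ M) :
    ∑ n ∈ Ioc N M, f n * (g n : ℂ) = (∑ n ∈ Ioc N M, f n) * (g M : ℂ) +
      ∑ n ∈ Ico N M, (∑ j ∈ Ioc N n, f j) * ((g n - g (n + 1) : ℝ) : ℂ) := by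
  induction M, hM using Nat.le_induction with
  | base => simp
  | succ M hM ih =>
    rw [sum_Ioc_succ_top (by omega), sum_Ico_succ_top (by omega), sum_Ioc_succ_top (by omega), ih]
    push_cast
    ring

theorem tail_abel (k : ℕ) : ∃ C : ℝ, 1 ≤ C ∧ ∀ (f : ℕ → ℂ) (δ σ : ℝ) (N : ℕ), 0 ≤ δ → 1 < σ → σ ≤ 2 → 1 ≤ N →
    (∀ u : ℕ, N ≤ u → ‖∑ n ∈ Icc 1 u, f n‖ ≤ δ * u) → ∀ M : ℕ, N ≤ M →
    ‖∑ n ∈ Ioc N M, f n * ((Real.log n ^ k * (n : ℝ) ^ (-σ) : ℝ) : ℂ)‖ ≤ C * δ * (1 / (σ - 1)) ^ (k + 1) := by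
  have hf1 : (1 : ℝ) ≤ k.factorial := by exact_mod_cast Nat.factorial_pos k
  have hk0 : (0 : ℝ) ≤ k := Nat.cast_nonneg k
  have h2k : (1 : ℝ) ≤ 2 ^ k := one_le_pow₀ (by norm_num)
  refine ⟨(k.factorial : ℝ) * 2 ^ k * (2 + 24 * (k + 2)), ?_, ?_⟩
  · have h1 : (1 : ℝ) ≤ k.factorial * 2 ^ k := one_le_mul_of_one_le_of_one_le hf1 h2k
    nlinarith
  intro f δ σ N hδ h1 h2 hN hS M hM
  set a : ℝ := (σ - 1) / 2 with ha
  have ha0 : 0 < a := by rw [ha]; linarith
  have ha1 : a ≤ 1 / 2 := by rw [ha]; linarith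
  set X : ℝ := 1 / (σ - 1) with hX
  have hX1 : 1 ≤ X := by
    rw [hX, le_div_iff₀ (by linarith)]
    linarith
  have hinva : 1 / a = 2 * X := by
    rw [ha, hX]
    field_simp
  have hinvak : (1 / a) ^ k = 2 ^ k * X ^ k := by rw [hinva, mul_pow]
  have hfg : ∀ n : ℕ, ((Real.log n ^ k * (n : ℝ) ^ (-σ) : ℝ) : ℂ) = (tailA_g k σ n : ℂ) :=
    fun n => rfl
  simp only [hfg]
  rw [tailA_abel f (tailA_g k σ) N M hM]
  have hT : ∀ n : ℕ, N ≤ n → ‖∑ j ∈ Ioc N n, f j‖ ≤ 2 * δ * n := by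
    intro n hn
    have e : ∑ j ∈ Ioc N n, f j = ∑ j ∈ Icc 1 n, f j - ∑ j ∈ Icc 1 N, f j := by
      have h3 : Icc 1 n = Icc 1 N ∪ Ioc N n := by
        ext j
        simp only [mem_Icc, mem_union, mem_Ioc]
        omega
      have h4 : Disjoint (Icc 1 N) (Ioc N n) := by
        rw [disjoint_left]
        intro j hj hj'
        rw [mem_Icc] at hj
        rw [mem_Ioc] at hj'
        omega
      rw [h3, sum_union h4]
      ring
    rw [e]
    have h5 := norm_sub_le (∑ j ∈ Icc 1 n, f j) (∑ j ∈ Icc 1 N, f j)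
    have h6 := hS n hn
    have h7 := hS N le_rfl
    have h8 : δ * N ≤ δ * n := mul_le_mul_of_nonneg_left (by exact_mod_cast hn) hδ
    linarith
  have hgM : (M : ℝ) * |tailA_g k σ M| ≤ k.factorial * (2 ^ k * X ^ k) := by
    have hM1 : 1 ≤ M := hN.trans hM
    have hM0 : (0 : ℝ) < M := by exact_mod_cast (show 0 < M by omega)
    have hM1' : (1 : ℝ) ≤ M := by exact_mod_cast hM1
    have hlM : 0 ≤ Real.log M := Real.log_nonneg hM1'
    have h3 := tailA_pow k a (Real.log M) ha0 hlM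
    have e1 : Real.exp (a * Real.log M) = (M : ℝ) ^ a := by
      rw [Real.rpow_def_of_pos hM0, mul_comm]
    rw [e1, hinvak] at h3
    unfold tailA_g
    rw [abs_of_nonneg (by positivity)]
    have h4 : (M : ℝ) ^ a * (M : ℝ) ^ (-σ) * M ≤ 1 := by
      have : (M : ℝ) ^ a * (M : ℝ) ^ (-σ) * M = (M : ℝ) ^ (-a) := by
        rw [← Real.rpow_add hM0]
        nth_rewrite 2 [← Real.rpow_one (M : ℝ)]
        rw [← Real.rpow_add hM0]
        congr 1
        rw [ha]
        ring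
      rw [this]
      exact Real.rpow_le_one_of_one_le_of_nonpos hM1' (by linarith)
    have h5 : 0 ≤ (M : ℝ) ^ (-σ) * M := by positivity
    calc (M : ℝ) * (Real.log M ^ k * (M : ℝ) ^ (-σ)) = Real.log M ^ k * ((M : ℝ) ^ (-σ) * M) := by
          ring
      _ ≤ (k.factorial * (2 ^ k * X ^ k) * (M : ℝ) ^ a) * ((M : ℝ) ^ (-σ) * M) :=
          mul_le_mul_of_nonneg_right h3 h5
      _ = (k.factorial * (2 ^ k * X ^ k)) * ((M : ℝ) ^ a * (M : ℝ) ^ (-σ) * M) := by ring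
      _ ≤ (k.factorial * (2 ^ k * X ^ k)) * 1 := mul_le_mul_of_nonneg_left h4 (by positivity)
      _ = _ := mul_one _
  have hterm : ∀ n ∈ Ico N M, ‖(∑ j ∈ Ioc N n, f j) * ((tailA_g k σ n - tailA_g k σ (n + 1) : ℝ) : ℂ)‖ ≤
      8 * δ * (k + 2) * (k.factorial * (2 ^ k * X ^ k)) * (n : ℝ) ^ (-1 - a) := by
    intro n hn
    rw [mem_Ico] at hn
    have hn1 : 1 ≤ n := hN.trans hn.1
    have hn0 : (0 : ℝ) < n := by exact_mod_cast (show 0 < n by omega)
    have hn1' : (1 : ℝ) ≤ n := by exact_mod_cast hn1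
    have hd := tailA_diff k σ h1 h2 n hn1
    have hw : 0 ≤ 1 + Real.log ((n : ℝ) + 1) := by
      have : 0 ≤ Real.log ((n : ℝ) + 1) := Real.log_nonneg (by linarith)
      linarith
    have h3 := tailA_pow k a (1 + Real.log ((n : ℝ) + 1)) ha0 hw
    rw [hinvak] at h3
    have h4 : Real.exp (a * (1 + Real.log ((n : ℝ) + 1))) ≤ 4 * (n : ℝ) ^ a := by
      have e1 : a * (1 + Real.log ((n : ℝ) + 1)) = a + a * Real.log ((n : ℝ) + 1) := by ring
      have e2 : Real.exp (a * Real.log ((n : ℝ) + 1)) = ((n : ℝ) + 1) ^ a := by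
        rw [Real.rpow_def_of_pos (by linarith), mul_comm]
      rw [e1, Real.exp_add, e2]
      have h5 : Real.exp a ≤ 2 := by
        have h6 : Real.exp a ≤ Real.exp (1 / 2) := Real.exp_le_exp.2 ha1
        have h7 : Real.exp (1 / 2) ^ 2 = Real.exp 1 := by
          rw [← Real.exp_nat_mul]
          norm_num
        have h8 := Real.exp_one_lt_d9
        have h9 : 0 < Real.exp (1 / 2) := Real.exp_pos _
        nlinarith
      have h6 : ((n : ℝ) + 1) ^ a ≤ 2 * (n : ℝ) ^ a := by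
        calc ((n : ℝ) + 1) ^ a ≤ (2 * (n : ℝ)) ^ a :=
              Real.rpow_le_rpow (by linarith) (by linarith) ha0.le
          _ = 2 ^ a * (n : ℝ) ^ a := Real.mul_rpow (by norm_num) hn0.le
          _ ≤ 2 * (n : ℝ) ^ a := by
              refine mul_le_mul_of_nonneg_right ?_ (by positivity)
              calc (2 : ℝ) ^ a ≤ (2 : ℝ) ^ (1 : ℝ) :=
                    Real.rpow_le_rpow_of_exponent_le (by norm_num) (by linarith)
                _ = 2 := Real.rpow_one 2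
      calc Real.exp a * ((n : ℝ) + 1) ^ a ≤ 2 * (2 * (n : ℝ) ^ a) :=
            mul_le_mul h5 h6 (by positivity) (by norm_num)
        _ = 4 * (n : ℝ) ^ a := by ring
    have h5 : (1 + Real.log ((n : ℝ) + 1)) ^ k ≤
        k.factorial * (2 ^ k * X ^ k) * (4 * (n : ℝ) ^ a) :=
      h3.trans (mul_le_mul_of_nonneg_left h4 (by positivity))
    have h6 : (n : ℝ) ^ a * (n : ℝ) ^ (-σ - 1) * n = (n : ℝ) ^ (-1 - a) := by
      rw [← Real.rpow_add hn0]
      nth_rewrite 2 [← Real.rpow_one (n : ℝ)]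
      rw [← Real.rpow_add hn0]
      congr 1
      rw [ha]
      ring
    rw [norm_mul, Complex.norm_real, Real.norm_eq_abs]
    have hp : 0 ≤ (n : ℝ) ^ (-σ - 1) := by positivity
    calc ‖∑ j ∈ Ioc N n, f j‖ * |tailA_g k σ n - tailA_g k σ (n + 1)|
        ≤ (2 * δ * n) * ((k + 2) * ((1 + Real.log (n + 1)) ^ k * (n : ℝ) ^ (-σ - 1))) :=
          mul_le_mul (hT n hn.1) hd (abs_nonneg _) (by positivity)
      _ ≤ (2 * δ * n) * ((k + 2) * ((k.factorial * (2 ^ k * X ^ k) * (4 * (n : ℝ) ^ a)) *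
            (n : ℝ) ^ (-σ - 1))) := by
          refine mul_le_mul_of_nonneg_left ?_ (by positivity)
          refine mul_le_mul_of_nonneg_left ?_ (by positivity)
          exact mul_le_mul_of_nonneg_right h5 hp
      _ = 8 * δ * (k + 2) * (k.factorial * (2 ^ k * X ^ k)) *
            ((n : ℝ) ^ a * (n : ℝ) ^ (-σ - 1) * n) := by ring
      _ = _ := by rw [h6]
  have hsum : ‖∑ n ∈ Ico N M, (∑ j ∈ Ioc N n, f j) *
      ((tailA_g k σ n - tailA_g k σ (n + 1) : ℝ) : ℂ)‖ ≤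
      8 * δ * (k + 2) * (k.factorial * (2 ^ k * X ^ k)) * (3 * X) := by
    refine (norm_sum_le _ _).trans ((sum_le_sum hterm).trans ?_)
    rw [← mul_sum]
    refine mul_le_mul_of_nonneg_left ?_ (by positivity)
    have h3 : ∑ n ∈ Ico N M, (n : ℝ) ^ (-1 - a) ≤ ∑ n ∈ Icc 1 M, (n : ℝ) ^ (-1 - a) := by
      refine sum_le_sum_of_subset_of_nonneg ?_ fun _ _ _ => by positivity
      intro n hn
      rw [mem_Ico] at hn
      rw [mem_Icc]
      omega
    refine h3.trans ((tailA_sum a ha0 (by linarith) M).trans ?_)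
    rw [hinva]
    linarith
  have hfirst : ‖(∑ n ∈ Ioc N M, f n) * (tailA_g k σ M : ℂ)‖ ≤
      2 * δ * (k.factorial * (2 ^ k * X ^ k)) := by
    rw [norm_mul, Complex.norm_real, Real.norm_eq_abs]
    calc ‖∑ n ∈ Ioc N M, f n‖ * |tailA_g k σ M| ≤ (2 * δ * M) * |tailA_g k σ M| :=
          mul_le_mul_of_nonneg_right (hT M hM) (abs_nonneg _)
      _ = 2 * δ * (M * |tailA_g k σ M|) := by ring
      _ ≤ _ := mul_le_mul_of_nonneg_left hgM (by positivity)
  refine (norm_add_le _ _).trans ((add_le_add hfirst hsum).trans ?_)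
  have hD : 0 ≤ δ * (k.factorial * (2 ^ k * X ^ k)) := by positivity
  have e1 : (k.factorial : ℝ) * 2 ^ k * (2 + 24 * (k + 2)) * δ * X ^ (k + 1) =
      δ * (k.factorial * (2 ^ k * X ^ k)) * (2 * X + 24 * (k + 2) * X) := by
    rw [pow_succ]
    ring
  have e2 : 2 * δ * (k.factorial * (2 ^ k * X ^ k)) +
      8 * δ * (k + 2) * (k.factorial * (2 ^ k * X ^ k)) * (3 * X) =
      δ * (k.factorial * (2 ^ k * X ^ k)) * (2 + 24 * (k + 2) * X) := by
    ring
  rw [e1, e2]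
  refine mul_le_mul_of_nonneg_left ?_ hD
  linarith

end Pool.Agent.H97.VK

end

section

/-!
# MDX Num: the numerical constant

Proof.  With `E = 2C+1` (or a natural number `≥ 100 C`): `Bc C ℓ ≤ 6 · max of the summands`, each is at most `(10 E ℓ)^(10 ℓ)` times powers of 2 (`ℓ! ≤ ℓ^ℓ`), so
`Bc C ℓ ≤ (E1 ℓ)^(E1 ℓ)`; `1/εc C δ ℓ = 4(2C+1)/δ · (8C/δ)^(2ℓ) · (4(2C+1)^2)^ℓ ≤ (E1/δ)^(E1 ℓ)` for a natural number `E1 = E1(C)`; `Dc C ℓ ≤ E1^(E1 ℓ) 2^(ℓ^2)`.
So the left side is at most `(E2 ℓ/δ)^(E2 ℓ) 2^(12 ℓ^2)` for some natural `E2 ≥ 12` depending on `C`; take `D = E2` (monotone in both exponent and base since `E2 ℓ/δ ≥ 1`).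
-/

set_option autoImplicit false

namespace Pool.Agent.H74.MDX

noncomputable def Bc (C : ℝ) (ℓ : ℕ) : ℝ :=
  2 * C * 5 ^ ℓ + 1 + 4 ^ ℓ * C + (2 * C + 1) ^ (2 * ℓ) + (ℓ.factorial : ℝ) ^ 2 + 2 ^ (2 * ℓ + 8)

noncomputable def εc (C δ : ℝ) (ℓ : ℕ) : ℝ := δ / (4 * (2 * C + 1)) * (δ / (8 * C)) ^ (2 * ℓ) / (4 * (2 * C + 1) ^ 2) ^ ℓ

noncomputable def Dc (C : ℝ) (ℓ : ℕ) : ℝ := C * 5 ^ ℓ + 4 ^ ℓ * C + 2 ^ (ℓ ^ 2 + 5 * ℓ)

/-- the total constant -/
noncomputable def Zc (C δ : ℝ) (ℓ : ℕ) : ℝ := 1000 * Bc C ℓ ^ 54 * Dc C ℓ ^ 12 / εc C δ ℓ ^ 8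

private theorem Num_Bc {C : ℝ} (hC : 1 ≤ C) {E ℓ : ℕ} (hE : 100 * C ≤ E) (hℓ : 1 ≤ ℓ) :
    Bc C ℓ ≤ ((E : ℝ) * ℓ) ^ (3 * ℓ) := by
  have hℓ' : (1 : ℝ) ≤ ℓ := by exact_mod_cast hℓ
  have hE1 : (100 : ℝ) ≤ E := by linarith
  set Y : ℝ := (E : ℝ) * ℓ with hY
  have hEY : (E : ℝ) ≤ Y := by rw [hY]; nlinarith
  have hℓY : (ℓ : ℝ) ≤ Y := by rw [hY]; nlinarith
  have hY1 : 100 ≤ Y := hE1.trans hEY
  have hCY : 100 * C ≤ Y := hE.trans hEY
  have hY0 : 0 ≤ Y := by linarith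
  have hYY : Y ^ ℓ ≤ Y ^ (2 * ℓ) := pow_le_pow_right₀ (by linarith) (by omega)
  have h1 : 2 * C * 5 ^ ℓ ≤ Y ^ (2 * ℓ) := by
    calc 2 * C * 5 ^ ℓ ≤ (2 * C) ^ ℓ * 5 ^ ℓ := by
          gcongr
          exact le_self_pow₀ (by linarith) (by omega)
      _ = (2 * C * 5) ^ ℓ := by rw [← mul_pow]
      _ ≤ Y ^ ℓ := pow_le_pow_left₀ (by positivity) (by linarith) _
      _ ≤ Y ^ (2 * ℓ) := hYY
  have h2 : (1 : ℝ) ≤ Y ^ (2 * ℓ) := one_le_pow₀ (by linarith)
  have h3 : 4 ^ ℓ * C ≤ Y ^ (2 * ℓ) := by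
    calc 4 ^ ℓ * C ≤ 4 ^ ℓ * C ^ ℓ := by
          gcongr
          exact le_self_pow₀ hC (by omega)
      _ = (4 * C) ^ ℓ := by rw [mul_pow]
      _ ≤ Y ^ ℓ := pow_le_pow_left₀ (by positivity) (by linarith) _
      _ ≤ Y ^ (2 * ℓ) := hYY
  have h4 : (2 * C + 1) ^ (2 * ℓ) ≤ Y ^ (2 * ℓ) := pow_le_pow_left₀ (by positivity) (by linarith) _
  have h5 : (ℓ.factorial : ℝ) ^ 2 ≤ Y ^ (2 * ℓ) := by
    have h6 : (ℓ.factorial : ℝ) ≤ (ℓ : ℝ) ^ ℓ := by exact_mod_cast Nat.factorial_le_pow ℓ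
    calc (ℓ.factorial : ℝ) ^ 2 ≤ ((ℓ : ℝ) ^ ℓ) ^ 2 := by gcongr
      _ = (ℓ : ℝ) ^ (2 * ℓ) := by rw [← pow_mul, mul_comm]
      _ ≤ Y ^ (2 * ℓ) := by gcongr
  have h6 : (2 : ℝ) ^ (2 * ℓ + 8) ≤ Y ^ (2 * ℓ) := by
    calc (2 : ℝ) ^ (2 * ℓ + 8) ≤ 2 ^ (10 * ℓ) := pow_le_pow_right₀ (by norm_num) (by omega)
      _ = ((2 : ℝ) ^ 5) ^ (2 * ℓ) := by rw [← pow_mul]; congr 1; ring
      _ ≤ Y ^ (2 * ℓ) := pow_le_pow_left₀ (by positivity) (by norm_num; linarith) _
  have h7 : 6 ≤ Y ^ ℓ := by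
    have : Y ≤ Y ^ ℓ := le_self_pow₀ (by linarith) (by omega)
    linarith
  have h8 : Y ^ (3 * ℓ) = Y ^ ℓ * Y ^ (2 * ℓ) := by rw [← pow_add]; congr 1; ring
  rw [h8]
  have h9 : 0 ≤ Y ^ (2 * ℓ) := by positivity
  calc Bc C ℓ ≤ 6 * Y ^ (2 * ℓ) := by
        unfold Bc
        linarith
    _ ≤ Y ^ ℓ * Y ^ (2 * ℓ) := by gcongr

private theorem Num_Dc {C : ℝ} (hC : 1 ≤ C) {E ℓ : ℕ} (hE : 100 * C ≤ E) (hℓ : 1 ≤ ℓ) :
    Dc C ℓ ≤ ((E : ℝ) * ℓ) ^ (2 * ℓ) * 2 ^ (ℓ ^ 2) := by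
  have hℓ' : (1 : ℝ) ≤ ℓ := by exact_mod_cast hℓ
  have hE1 : (100 : ℝ) ≤ E := by linarith
  set Y : ℝ := (E : ℝ) * ℓ with hY
  have hEY : (E : ℝ) ≤ Y := by rw [hY]; nlinarith
  have hY1 : 100 ≤ Y := hE1.trans hEY
  have hCY : 100 * C ≤ Y := hE.trans hEY
  have hY0 : 0 ≤ Y := by linarith
  have ht : (1 : ℝ) ≤ 2 ^ (ℓ ^ 2) := one_le_pow₀ (by norm_num)
  have h1 : C * 5 ^ ℓ ≤ Y ^ ℓ := by
    calc C * 5 ^ ℓ ≤ C ^ ℓ * 5 ^ ℓ := by
          gcongr
          exact le_self_pow₀ hC (by omega)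
      _ = (C * 5) ^ ℓ := by rw [mul_pow]
      _ ≤ Y ^ ℓ := pow_le_pow_left₀ (by positivity) (by linarith) _
  have h2 : 4 ^ ℓ * C ≤ Y ^ ℓ := by
    calc 4 ^ ℓ * C ≤ 4 ^ ℓ * C ^ ℓ := by
          gcongr
          exact le_self_pow₀ hC (by omega)
      _ = (4 * C) ^ ℓ := by rw [mul_pow]
      _ ≤ Y ^ ℓ := pow_le_pow_left₀ (by positivity) (by linarith) _
  have h3 : (2 : ℝ) ^ (ℓ ^ 2 + 5 * ℓ) ≤ 2 ^ (ℓ ^ 2) * Y ^ ℓ := by
    rw [pow_add, pow_mul]
    gcongr
    norm_num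
    linarith
  have h4 : 3 ≤ Y ^ ℓ := by
    have : Y ≤ Y ^ ℓ := le_self_pow₀ (by linarith) (by omega)
    linarith
  have h5 : 0 ≤ Y ^ ℓ := by positivity
  have h6 : Y ^ (2 * ℓ) = Y ^ ℓ * Y ^ ℓ := by rw [← pow_add]; congr 1; ring
  have h7 : Y ^ ℓ ≤ 2 ^ (ℓ ^ 2) * Y ^ ℓ := le_mul_of_one_le_left h5 ht
  calc Dc C ℓ ≤ 3 * (2 ^ (ℓ ^ 2) * Y ^ ℓ) := by
        unfold Dc
        linarith
    _ ≤ Y ^ ℓ * (2 ^ (ℓ ^ 2) * Y ^ ℓ) := by gcongr
    _ = Y ^ (2 * ℓ) * 2 ^ (ℓ ^ 2) := by rw [h6]; ring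

private theorem Num_eps {C δ : ℝ} (hC : 1 ≤ C) (hδ : 0 < δ) (hδ1 : δ ≤ 1) {E ℓ : ℕ} (hE : 100 * C ≤ E)
    (hℓ : 1 ≤ ℓ) : 1 / εc C δ ℓ ≤ ((E : ℝ) * ℓ / δ) ^ (5 * ℓ) := by
  have hℓ' : (1 : ℝ) ≤ ℓ := by exact_mod_cast hℓ
  have hE1 : (100 : ℝ) ≤ E := by linarith
  set X : ℝ := (E : ℝ) * ℓ / δ with hX
  have hEX : (E : ℝ) / δ ≤ X := by
    rw [hX]
    gcongr
    nlinarith
  have hEE : (E : ℝ) ≤ E / δ := by
    rw [le_div_iff₀ hδ]
    nlinarith
  have hX1 : 100 ≤ X := hE1.trans (hEE.trans hEX)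
  have hX0 : 0 ≤ X := by linarith
  have hCX : 100 * C / δ ≤ X := by
    refine le_trans ?_ hEX
    gcongr
  have h0 : 1 / εc C δ ℓ = 4 * (2 * C + 1) / δ * (8 * C / δ) ^ (2 * ℓ) * (4 * (2 * C + 1) ^ 2) ^ ℓ := by
    unfold εc
    rw [div_pow δ (8 * C), div_pow (8 * C) δ]
    field_simp
  have h1 : 4 * (2 * C + 1) / δ ≤ X ^ ℓ := by
    calc 4 * (2 * C + 1) / δ ≤ 100 * C / δ := div_le_div_of_nonneg_right (by linarith) hδ.le
      _ ≤ X := hCX
      _ ≤ X ^ ℓ := le_self_pow₀ (by linarith) (by omega)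
  have h2 : (8 * C / δ) ^ (2 * ℓ) ≤ X ^ (2 * ℓ) := by
    refine pow_le_pow_left₀ (by positivity) ?_ _
    refine le_trans ?_ hCX
    gcongr
    norm_num
  have h3 : (4 * (2 * C + 1) ^ 2) ^ ℓ ≤ X ^ (2 * ℓ) := by
    have h4 : (4 * (2 * C + 1) ^ 2) ^ ℓ = (2 * (2 * C + 1)) ^ (2 * ℓ) := by
      rw [pow_mul]
      congr 1
      ring
    rw [h4]
    refine pow_le_pow_left₀ (by positivity) ?_ _
    have : 100 * C ≤ X := hE.trans (hEE.trans hEX)
    linarith
  have h5 : X ^ (5 * ℓ) = X ^ ℓ * X ^ (2 * ℓ) * X ^ (2 * ℓ) := by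
    rw [← pow_add, ← pow_add]
    congr 1
    ring
  rw [h0, h5]
  gcongr

theorem comb_num (C : ℝ) (hC : 1 ≤ C) : ∃ D : ℕ, 1 ≤ D ∧ ∀ (ℓ : ℕ) (δ : ℝ), 1 ≤ ℓ → 0 < δ → δ ≤ 1 →
    Zc C δ ℓ ≤ (D * ℓ / δ) ^ (D * ℓ) * 2 ^ (D * ℓ ^ 2) := by
  obtain ⟨E, hE⟩ := exists_nat_ge (100 * C)
  refine ⟨E + 228, by omega, ?_⟩
  intro ℓ δ hℓ hδ hδ1
  have hℓ' : (1 : ℝ) ≤ ℓ := by exact_mod_cast hℓ
  have hE1 : (100 : ℝ) ≤ E := by linarith
  have hB := Num_Bc hC hE hℓ
  have hD := Num_Dc hC hE hℓ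
  have he := Num_eps hC hδ hδ1 hE hℓ
  set X : ℝ := (E : ℝ) * ℓ / δ with hX
  have hYX : (E : ℝ) * ℓ ≤ X := by
    rw [hX, le_div_iff₀ hδ]
    have : 0 ≤ (E : ℝ) * ℓ := by positivity
    nlinarith
  have hY1 : 100 ≤ (E : ℝ) * ℓ := by nlinarith
  have hX1 : 100 ≤ X := hY1.trans hYX
  have hX0 : 0 ≤ X := by linarith
  have hBX : Bc C ℓ ≤ X ^ (3 * ℓ) := hB.trans (by gcongr)
  have hDX : Dc C ℓ ≤ X ^ (2 * ℓ) * 2 ^ (ℓ ^ 2) := hD.trans (by gcongr)
  have hB0 : 0 ≤ Bc C ℓ := by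
    unfold Bc
    positivity
  have hD0 : 0 ≤ Dc C ℓ := by
    unfold Dc
    positivity
  have hε0 : 0 < εc C δ ℓ := by
    unfold εc
    positivity
  have h1000 : (1000 : ℝ) ≤ X ^ (2 * ℓ) := by
    calc (1000 : ℝ) ≤ 100 ^ 2 := by norm_num
      _ ≤ X ^ 2 := by gcongr
      _ ≤ X ^ (2 * ℓ) := pow_le_pow_right₀ (by linarith) (by omega)
  have hZ : Zc C δ ℓ ≤ X ^ (228 * ℓ) * 2 ^ (12 * ℓ ^ 2) := by
    have h1 : Zc C δ ℓ = 1000 * Bc C ℓ ^ 54 * Dc C ℓ ^ 12 * (1 / εc C δ ℓ) ^ 8 := by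
      unfold Zc
      rw [one_div, inv_pow]
      rfl
    have h2 : (0 : ℝ) ≤ 1 / εc C δ ℓ := by positivity
    rw [h1]
    calc 1000 * Bc C ℓ ^ 54 * Dc C ℓ ^ 12 * (1 / εc C δ ℓ) ^ 8 ≤
        X ^ (2 * ℓ) * (X ^ (3 * ℓ)) ^ 54 * (X ^ (2 * ℓ) * 2 ^ (ℓ ^ 2)) ^ 12 * (X ^ (5 * ℓ)) ^ 8 := by
          gcongr
      _ = X ^ (228 * ℓ) * 2 ^ (12 * ℓ ^ 2) := by
          rw [mul_pow, ← pow_mul, ← pow_mul, ← pow_mul, ← pow_mul]
          rw [show 12 * ℓ ^ 2 = ℓ ^ 2 * 12 by ring]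
          rw [show 228 * ℓ = 2 * ℓ + 3 * ℓ * 54 + 2 * ℓ * 12 + 5 * ℓ * 8 by ring, pow_add, pow_add, pow_add]
          ring
  refine hZ.trans ?_
  have hXD : X ≤ ((E + 228 : ℕ) : ℝ) * ℓ / δ := by
    rw [hX]
    gcongr
    linarith
  have h1 : X ^ (228 * ℓ) ≤ (((E + 228 : ℕ) : ℝ) * ℓ / δ) ^ ((E + 228) * ℓ) := by
    calc X ^ (228 * ℓ) ≤ (((E + 228 : ℕ) : ℝ) * ℓ / δ) ^ (228 * ℓ) := by gcongr
      _ ≤ (((E + 228 : ℕ) : ℝ) * ℓ / δ) ^ ((E + 228) * ℓ) := by
          refine pow_le_pow_right₀ (by linarith) ?_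
          exact Nat.mul_le_mul_right ℓ (by omega)
  have h2 : (2 : ℝ) ^ (12 * ℓ ^ 2) ≤ 2 ^ ((E + 228) * ℓ ^ 2) := by
    refine pow_le_pow_right₀ (by norm_num) ?_
    exact Nat.mul_le_mul_right _ (by omega)
  gcongr

end Pool.Agent.H74.MDX

end

section

/-!
# MDX Clean: a subset of the triples with large minimal degrees

Proof.  Among all `S ⊆ R` (`R.powerset` is finite, nonempty) choose one which maximises
`f(S) = |S| - m |S.image fst| - k |S.image (·.2.2)|` (real numbers; `Finset.exists_max_image`).  `f(R) ≥ |R| - m |F| - k |G|` because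
`R.image fst ⊆ F`, `R.image (·.2.2) ⊆ G`; `|S| ≥ f(S) ≥ f(R)` as `m, k ≥ 0`.  If for some `t ∈ S` fewer than `m` triples `u ∈ S` had `u.1 = t.1`, then
`S' = S.filter (u.1 ≠ t.1)` has `f(S') ≥ |S| - deg - m (|S.image fst| - 1) - k |S.image (·.2.2)| > f(S)`: contradiction.  The same for `.2.2`.
-/

set_option autoImplicit false

namespace Pool.Agent.H74.MDX

open Finset

private theorem Clean_step (S : Finset (ℕ × ℕ × ℕ)) (φ ψ : ℕ × ℕ × ℕ → ℕ) (m k : ℝ) (hm : 0 ≤ m) (hk : 0 ≤ k)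
    (hmax : ∀ T ⊆ S, (T.card : ℝ) - m * (T.image φ).card - k * (T.image ψ).card ≤
      (S.card : ℝ) - m * (S.image φ).card - k * (S.image ψ).card) :
    ∀ t ∈ S, m ≤ ((S.filter (fun u => φ u = φ t)).card : ℝ) := by
  intro t ht
  by_contra hlt
  push Not at hlt
  have h1 := hmax (S.filter (fun u => ¬ φ u = φ t)) (Finset.filter_subset _ _)
  have h2 : (S.filter (fun u => φ u = φ t)).card + (S.filter (fun u => ¬ φ u = φ t)).card = S.card :=
    Finset.card_filter_add_card_filter_not _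
  have h3 : ((S.filter (fun u => ¬ φ u = φ t)).image φ).card + 1 ≤ (S.image φ).card := by
    have h4 : (S.filter (fun u => ¬ φ u = φ t)).image φ ⊆ (S.image φ).erase (φ t) := by
      intro x hx
      rw [Finset.mem_image] at hx
      obtain ⟨u, hu, rfl⟩ := hx
      rw [Finset.mem_filter] at hu
      exact Finset.mem_erase.2 ⟨hu.2, Finset.mem_image_of_mem φ hu.1⟩
    have h5 := Finset.card_le_card h4
    have h6 := Finset.card_erase_add_one (Finset.mem_image_of_mem φ ht)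
    omega
  have h4 : ((S.filter (fun u => ¬ φ u = φ t)).image ψ).card ≤ (S.image ψ).card :=
    Finset.card_le_card (Finset.image_subset_image (Finset.filter_subset _ _))
  have h2' : ((S.filter (fun u => φ u = φ t)).card : ℝ) + ((S.filter (fun u => ¬ φ u = φ t)).card : ℝ) = (S.card : ℝ) := by
    exact_mod_cast h2
  have h3' : (((S.filter (fun u => ¬ φ u = φ t)).image φ).card : ℝ) + 1 ≤ ((S.image φ).card : ℝ) := by
    exact_mod_cast h3
  have h4' : (((S.filter (fun u => ¬ φ u = φ t)).image ψ).card : ℝ) ≤ ((S.image ψ).card : ℝ) := by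
    exact_mod_cast h4
  have h7 := mul_le_mul_of_nonneg_left h3' hm
  have h8 := mul_le_mul_of_nonneg_left h4' hk
  rw [mul_add, mul_one] at h7
  linarith

theorem clean (R : Finset (ℕ × ℕ × ℕ)) (F G : Finset ℕ) (hF : ∀ t ∈ R, t.1 ∈ F) (hG : ∀ t ∈ R, t.2.2 ∈ G)
    (m k : ℝ) (hm : 0 ≤ m) (hk : 0 ≤ k) :
    ∃ S ⊆ R, (R.card : ℝ) - m * F.card - k * G.card ≤ S.card ∧
      (∀ t ∈ S, m ≤ ((S.filter (fun u => u.1 = t.1)).card : ℝ)) ∧
      (∀ t ∈ S, k ≤ ((S.filter (fun u => u.2.2 = t.2.2)).card : ℝ)) := by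
  obtain ⟨S, hS, hmax⟩ := Finset.exists_max_image R.powerset
    (fun S : Finset (ℕ × ℕ × ℕ) => (S.card : ℝ) - m * (S.image (fun u => u.1)).card -
      k * (S.image (fun u => u.2.2)).card) ⟨R, Finset.mem_powerset_self R⟩
  rw [Finset.mem_powerset] at hS
  refine ⟨S, hS, ?_, ?_, ?_⟩
  · have h1 := hmax R (Finset.mem_powerset_self R)
    have h2 : (R.image (fun u => u.1)).card ≤ F.card := Finset.card_le_card (Finset.image_subset_iff.2 hF)
    have h3 : (R.image (fun u => u.2.2)).card ≤ G.card := Finset.card_le_card (Finset.image_subset_iff.2 hG)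
    have h2' : ((R.image (fun u => u.1)).card : ℝ) ≤ (F.card : ℝ) := by exact_mod_cast h2
    have h3' : ((R.image (fun u => u.2.2)).card : ℝ) ≤ (G.card : ℝ) := by exact_mod_cast h3
    have h4 := mul_le_mul_of_nonneg_left h2' hm
    have h5 := mul_le_mul_of_nonneg_left h3' hk
    have h6 : 0 ≤ m * ((S.image (fun u => u.1)).card : ℝ) := mul_nonneg hm (Nat.cast_nonneg _)
    have h7 : 0 ≤ k * ((S.image (fun u => u.2.2)).card : ℝ) := mul_nonneg hk (Nat.cast_nonneg _)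
    linarith
  · exact Clean_step S (fun u => u.1) (fun u => u.2.2) m k hm hk fun T hT =>
      hmax T (Finset.mem_powerset.2 (hT.trans hS))
  · refine Clean_step S (fun u => u.2.2) (fun u => u.1) k m hk hm fun T hT => ?_
    have h1 := hmax T (Finset.mem_powerset.2 (hT.trans hS))
    linarith

end Pool.Agent.H74.MDX

end

section

/-!
# MDX CombA: asymptotics and the number of levels

`comb_asym`: take logarithms.  `L = log N`, `ℓ ≤ L^(1-t) + 2 ≤ 3 L^(1-t)`; `log(left) = Dℓ (log D + log ℓ + C0 log L) + Dℓ^2 log 2`;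
`log ℓ ≤ log 3 + log L`; so `log(left) ≤ 3 D L^(1-t) (C' + (C0+1) log L) + 9 D L^(2(1-t)) = o(L^t2)` because `1 - t < t2` and `2 (1-t) < t2` (both from `2 (1-t) < t2`, `t < 1`).
(`isLittleO_log_rpow_atTop`, `tendsto_rpow_atTop`, ...)
`comb_lvl`: `ℓ - 1` = the least natural number `k` with `n ≤ P^k`.  Such `k ≤ L^(1-t) + 1`, because for `k ≥ L^(1-t)`: `P^k ≥ exp(k L^t) ≥ exp(L) = N ≥ n`
(`Nat.find` and `Nat.ceil`).  If `k = 0` then `n = 1`: `n P = P = P^1 ≤ n P^2`; if `k ≥ 1` then `P^(k-1) < n ≤ P^k`: `n P ≤ P^(k+1) ≤ n P^2` (see `Comb_exists_level` in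
`Pool/Agent/H53/MID/Comb.lean`).
-/

set_option autoImplicit false

namespace Pool.Agent.H74.MDX

theorem comb_asym (t t2 : ℝ) (ht1 : t < 1) (ht2 : 2 * (1 - t) < t2) (D C0 : ℕ) : ∃ N0 : ℕ, ∀ N : ℕ, N0 ≤ N →
    ∀ ℓ : ℕ, 1 ≤ ℓ → (ℓ : ℝ) ≤ Real.log N ^ (1 - t) + 2 →
      ((D : ℝ) * ℓ * Real.log N ^ C0) ^ (D * ℓ) * 2 ^ (D * ℓ ^ 2) ≤ Real.exp (Real.log N ^ t2) := by
  have ht : 0 < 1 - t := by linarith
  have ht3 : 0 < t2 - 2 * (1 - t) := by linarith
  set A : ℝ := D + 2 + (1 - t) + C0 with hA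
  set K : ℝ := 3 * D * A + 9 * D with hK
  have e1 : ∀ᶠ L : ℝ in Filter.atTop, 1 ≤ L := Filter.eventually_ge_atTop 1
  have e2 : ∀ᶠ L : ℝ in Filter.atTop, Real.log L ≤ L ^ (1 - t) := by
    have h1 := (isLittleO_log_rpow_atTop ht).bound (show (0 : ℝ) < 1 by norm_num)
    filter_upwards [h1, e1] with L hL hL1
    rw [one_mul, Real.norm_eq_abs, Real.norm_eq_abs, abs_of_nonneg (Real.log_nonneg hL1),
      abs_of_nonneg (Real.rpow_nonneg (by linarith) _)] at hL
    exact hL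
  have e3 : ∀ᶠ L : ℝ in Filter.atTop, K ≤ L ^ (t2 - 2 * (1 - t)) :=
    (tendsto_rpow_atTop ht3).eventually_ge_atTop K
  have hlog : Filter.Tendsto (fun N : ℕ => Real.log N) Filter.atTop Filter.atTop :=
    Real.tendsto_log_atTop.comp tendsto_natCast_atTop_atTop
  obtain ⟨N0, hN0⟩ := Filter.eventually_atTop.1 (hlog.eventually (e1.and (e2.and e3)))
  refine ⟨N0, fun N hN ℓ hℓ1 hℓ2 => ?_⟩
  obtain ⟨h1, h2, h3⟩ := hN0 N hN
  set L : ℝ := Real.log N with hL
  have hL0 : 0 < L := by linarith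
  set x : ℝ := L ^ (1 - t) with hx
  have hx1 : 1 ≤ x := Real.one_le_rpow h1 ht.le
  have hx0 : 0 < x := by linarith
  rcases Nat.eq_zero_or_pos D with hD | hD
  · subst hD
    simp only [Nat.zero_mul, pow_zero, mul_one]
    exact Real.one_le_exp (Real.rpow_nonneg hL0.le _)
  have hD1 : (1 : ℝ) ≤ D := by exact_mod_cast hD
  have hl1 : (1 : ℝ) ≤ ℓ := by exact_mod_cast hℓ1
  have hl3 : (ℓ : ℝ) ≤ 3 * x := by linarith
  have hlogL : 0 ≤ Real.log L := Real.log_nonneg h1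
  -- the logarithm of the base
  set b : ℝ := (D : ℝ) * ℓ * L ^ C0 with hb
  have hb0 : 0 < b := by positivity
  have hlogb : Real.log b ≤ A * x := by
    have h4 : Real.log b = Real.log D + Real.log ℓ + C0 * Real.log L := by
      rw [hb, Real.log_mul (by positivity) (by positivity), Real.log_mul (by positivity) (by positivity),
        Real.log_pow]
    have h5 : Real.log D ≤ D := (Real.log_le_sub_one_of_pos (by linarith)).trans (by linarith)
    have h6 : Real.log ℓ ≤ 2 + (1 - t) * Real.log L := by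
      have h7 : Real.log ℓ ≤ Real.log (3 * x) := Real.log_le_log (by linarith) hl3
      have h8 : Real.log (3 * x) = Real.log 3 + (1 - t) * Real.log L := by
        rw [Real.log_mul (by norm_num) hx0.ne', hx, Real.log_rpow hL0]
      have h9 : Real.log 3 ≤ 2 := (Real.log_le_sub_one_of_pos (by norm_num)).trans (by norm_num)
      linarith
    have h10 : (1 - t) * Real.log L ≤ (1 - t) * x := mul_le_mul_of_nonneg_left h2 ht.le
    have h11 : (C0 : ℝ) * Real.log L ≤ C0 * x := mul_le_mul_of_nonneg_left h2 (Nat.cast_nonneg _)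
    have h12 : (D : ℝ) + 2 ≤ (D + 2) * x := le_mul_of_one_le_right (by linarith) hx1
    rw [h4, hA]
    have h13 : ((D : ℝ) + 2 + (1 - t) + C0) * x = (D + 2) * x + (1 - t) * x + C0 * x := by ring
    rw [h13]
    linarith
  have hA0 : 0 ≤ A := by positivity
  have hpow : b ^ (D * ℓ) = Real.exp (((D * ℓ : ℕ) : ℝ) * Real.log b) := by
    rw [Real.exp_nat_mul, Real.exp_log hb0]
  have hpow2 : (2 : ℝ) ^ (D * ℓ ^ 2) = Real.exp (((D * ℓ ^ 2 : ℕ) : ℝ) * Real.log 2) := by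
    rw [Real.exp_nat_mul, Real.exp_log (by norm_num)]
  rw [hpow, hpow2, ← Real.exp_add]
  refine Real.exp_le_exp.2 ?_
  have h20 : L ^ t2 = L ^ (t2 - 2 * (1 - t)) * x ^ 2 := by
    have h21 : x ^ 2 = L ^ (2 * (1 - t)) := by
      rw [hx, ← Real.rpow_natCast, ← Real.rpow_mul hL0.le]
      congr 1
      push_cast
      ring
    rw [h21, ← Real.rpow_add hL0]
    congr 1
    ring
  have h22 : K * x ^ 2 ≤ L ^ t2 := by
    rw [h20]
    exact mul_le_mul_of_nonneg_right h3 (by positivity)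
  refine le_trans ?_ h22
  have h23 : ((D * ℓ : ℕ) : ℝ) * Real.log b ≤ (D * (3 * x)) * (A * x) := by
    push_cast
    have h24 : (D : ℝ) * ℓ ≤ D * (3 * x) := mul_le_mul_of_nonneg_left hl3 (by linarith)
    calc (D : ℝ) * ℓ * Real.log b ≤ (D : ℝ) * ℓ * (A * x) := mul_le_mul_of_nonneg_left hlogb (by positivity)
      _ ≤ _ := mul_le_mul_of_nonneg_right h24 (by positivity)
  have h25 : ((D * ℓ ^ 2 : ℕ) : ℝ) * Real.log 2 ≤ (D * (3 * x) ^ 2) * 1 := by
    push_cast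
    have h26 : (ℓ : ℝ) ^ 2 ≤ (3 * x) ^ 2 := pow_le_pow_left₀ (by linarith) hl3 2
    have h27 : Real.log 2 ≤ 1 := (Real.log_le_sub_one_of_pos (by norm_num)).trans (by norm_num)
    refine mul_le_mul (mul_le_mul_of_nonneg_left h26 (by linarith)) h27 (Real.log_nonneg (by norm_num))
      (by positivity)
  have h28 : (D * (3 * x)) * (A * x) + (D * (3 * x) ^ 2) * 1 = K * x ^ 2 := by
    rw [hK]
    ring
  linarith

theorem comb_lvl (t : ℝ) (ht0 : 0 < t) (ht1 : t < 1) : ∃ N0 : ℕ, ∀ N : ℕ, N0 ≤ N → ∀ n P : ℕ,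
    Real.exp (Real.log N ^ t) ≤ P → 1 ≤ n → n ≤ N → ∃ ℓ : ℕ, 1 ≤ ℓ ∧ (ℓ : ℝ) ≤ Real.log N ^ (1 - t) + 2 ∧
      (n : ℝ) * P ≤ (P : ℝ) ^ ℓ ∧ (P : ℝ) ^ ℓ ≤ n * (P : ℝ) ^ 2 := by
  refine ⟨2, fun N hN n P hP hn1 hnN => ?_⟩
  have hN2 : (2 : ℝ) ≤ N := by exact_mod_cast hN
  set L : ℝ := Real.log N with hL
  have hL0 : 0 < L := Real.log_pos (by linarith)
  have hP1 : (1 : ℝ) ≤ P := le_trans (Real.one_le_exp (Real.rpow_nonneg hL0.le _)) hP
  have hn1' : (1 : ℝ) ≤ n := by exact_mod_cast hn1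
  have hk0 : (n : ℝ) ≤ (P : ℝ) ^ ⌈L ^ (1 - t)⌉₊ := by
    have h1 : (Real.exp (L ^ t)) ^ ⌈L ^ (1 - t)⌉₊ ≤ (P : ℝ) ^ ⌈L ^ (1 - t)⌉₊ :=
      pow_le_pow_left₀ (Real.exp_pos _).le hP _
    rw [← Real.exp_nat_mul] at h1
    have h2 : L ≤ (⌈L ^ (1 - t)⌉₊ : ℝ) * L ^ t := by
      have h3 : L ^ (1 - t) * L ^ t = L := by
        rw [← Real.rpow_add hL0, sub_add_cancel, Real.rpow_one]
      calc L = L ^ (1 - t) * L ^ t := h3.symm
        _ ≤ _ := mul_le_mul_of_nonneg_right (Nat.le_ceil _) (Real.rpow_nonneg hL0.le _)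
    have h4 : Real.exp L = N := by
      rw [hL]
      exact Real.exp_log (by linarith)
    have h5 : (N : ℝ) ≤ Real.exp ((⌈L ^ (1 - t)⌉₊ : ℝ) * L ^ t) := by
      rw [← h4]
      exact Real.exp_le_exp.2 h2
    have h6 : (n : ℝ) ≤ N := by exact_mod_cast hnN
    linarith
  classical
  have hex : ∃ k : ℕ, (n : ℝ) ≤ (P : ℝ) ^ k := ⟨_, hk0⟩
  set k := Nat.find hex with hk
  have hk1 : (n : ℝ) ≤ (P : ℝ) ^ k := Nat.find_spec hex
  have hk2 : k ≤ ⌈L ^ (1 - t)⌉₊ := Nat.find_min' hex hk0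
  refine ⟨k + 1, by omega, ?_, ?_, ?_⟩
  · have h7 : (⌈L ^ (1 - t)⌉₊ : ℝ) < L ^ (1 - t) + 1 := Nat.ceil_lt_add_one (Real.rpow_nonneg hL0.le _)
    have h8 : (k : ℝ) ≤ (⌈L ^ (1 - t)⌉₊ : ℝ) := by exact_mod_cast hk2
    push_cast
    linarith
  · rw [pow_succ]
    exact mul_le_mul_of_nonneg_right hk1 (by linarith)
  · rcases Nat.eq_zero_or_pos k with h9 | h9
    · rw [h9, zero_add, pow_one]
      have h10 : (P : ℝ) ≤ (P : ℝ) ^ 2 := by nlinarith
      have h11 : (P : ℝ) ^ 2 ≤ n * (P : ℝ) ^ 2 := le_mul_of_one_le_left (by positivity) hn1'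
      linarith
    · have h10 : ¬ (n : ℝ) ≤ (P : ℝ) ^ (k - 1) := Nat.find_min hex (by omega)
      have h11 : k + 1 = (k - 1) + 2 := by omega
      rw [h11, pow_add]
      exact mul_le_mul_of_nonneg_right (not_le.1 h10).le (by positivity)

end Pool.Agent.H74.MDX

end

section

/-!
# MDB Defs: the boost (part II of project MDX/MIX)

`L = log N`, `Q = exp(L^t2)`.
* `CombWk t t2`: the weak combinatorial theorem (project MDX of helper74): a rational approximation with denominator `d ≤ Q` on a set `F1` of `≥ n/Q` indices.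
* `QS C P U`: the quadruples `((i, p), (i', p'))` with `i, i' ∈ U`, `p, p'` primes in `(P, 2P]`, `|i p' - i' p| ≤ 4 C P`.
* `Cov C n Q η α r U s d b T`: the set `U` is divided into `r ≤ C Q` classes (`s i < r` is the number of the class of `i`); `j`-th class: data `d j ≤ Q`, `b j` prime to `d j`, `|T j| ≤ Q η n^2`, and
  `nz (α i - b/d - T/i) ≤ Q η` for all `i` of the class.
* `NB C P U δ bb`: the quadruples of `QS` with `p bb(i) ≡ p' bb(i') mod δ`.
* `sres P δ r t = ∑_{P < m ≤ 2P, m ≡ r mod δ} m^(-2πit)`.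
* `GG P δ U bb t = ∑_{β mod δ} |∑_{i ∈ U} ∑_{P < m ≤ 2P, (m,δ)=1, m bb(i) ≡ β} (i/m)^(2πit)|^2`.
-/

set_option autoImplicit false

namespace Pool.Agent.H53.MDB

open Finset
open Pool.Agent.H91.PK (ee)
open Pool.Agent.H53.MID (nz Rel)

/-- the weak combinatorial theorem -/
def CombWk (t t2 : ℝ) : Prop := ∀ (C : ℝ), 1 ≤ C → ∀ C0 : ℕ, ∃ N0 : ℕ, ∀ N : ℕ, N0 ≤ N →
  ∀ (n P : ℕ) (η : ℝ) (F0 G0 : Finset ℕ) (α β : ℕ → ℝ) (R0 : Finset (ℕ × ℕ × ℕ)),
    Real.exp (Real.log N ^ t) ≤ P → P ≤ N → 1 ≤ n → n ≤ N → 0 < η → η * Real.exp (Real.log N ^ t2) * (P : ℝ) ^ 3 ≤ 1 →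
    Rel C n P (η * P) F0 G0 α β R0 → n * P / Real.log N ^ C0 ≤ (R0.card : ℝ) →
    ∃ (d b : ℕ) (T : ℝ) (F1 : Finset ℕ), 1 ≤ d ∧ (d : ℝ) ≤ Real.exp (Real.log N ^ t2) ∧ Nat.Coprime b d ∧
      |T| ≤ Real.exp (Real.log N ^ t2) * η * (n : ℝ) ^ 2 ∧ F1 ⊆ F0 ∧ (n : ℝ) ≤ Real.exp (Real.log N ^ t2) * F1.card ∧
      ∀ i ∈ F1, nz (α i - b / d - T / i) ≤ Real.exp (Real.log N ^ t2) * η

/-- quadruples -/
noncomputable def QS (C : ℝ) (P : ℕ) (U : Finset ℕ) : Finset ((ℕ × ℕ) × (ℕ × ℕ)) := by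
  classical
  exact ((U ×ˢ (Ioc P (2 * P)).filter Nat.Prime) ×ˢ (U ×ˢ (Ioc P (2 * P)).filter Nat.Prime)).filter
    (fun q => |(q.1.1 : ℝ) * q.2.2 - q.2.1 * q.1.2| ≤ 4 * C * P)

theorem mem_QS {C : ℝ} {P : ℕ} {U : Finset ℕ} {q : (ℕ × ℕ) × (ℕ × ℕ)} :
    q ∈ QS C P U ↔ q.1.1 ∈ U ∧ P < q.1.2 ∧ q.1.2 ≤ 2 * P ∧ q.1.2.Prime ∧ q.2.1 ∈ U ∧ P < q.2.2 ∧ q.2.2 ≤ 2 * P ∧ q.2.2.Prime ∧
      |(q.1.1 : ℝ) * q.2.2 - q.2.1 * q.1.2| ≤ 4 * C * P := by
  classical
  unfold QS
  rw [Finset.mem_filter, Finset.mem_product, Finset.mem_product, Finset.mem_product, Finset.mem_filter, Finset.mem_filter,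
    Finset.mem_Ioc, Finset.mem_Ioc]
  tauto

/-- the cover of `U` by classes with a common rational approximation -/
structure Cov (C : ℝ) (n : ℕ) (Q η : ℝ) (α : ℕ → ℝ) (r : ℕ) (U : Finset ℕ) (s d b : ℕ → ℕ) (T : ℕ → ℝ) : Prop where
  cnt : (r : ℝ) ≤ C * Q
  rng : ∀ i ∈ U, (n : ℝ) / C ≤ i ∧ (i : ℝ) ≤ C * n
  lab : ∀ i ∈ U, s i < r
  dat : ∀ j < r, 1 ≤ d j ∧ (d j : ℝ) ≤ Q ∧ Nat.Coprime (b j) (d j) ∧ |T j| ≤ Q * η * (n : ℝ) ^ 2
  frq : ∀ i ∈ U, nz (α i - b (s i) / d (s i) - T (s i) / i) ≤ Q * η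

/-- quadruples with the congruence -/
noncomputable def NB (C : ℝ) (P : ℕ) (U : Finset ℕ) (δ : ℕ) (bb : ℕ → ℕ) : Finset ((ℕ × ℕ) × (ℕ × ℕ)) := by
  classical
  exact (QS C P U).filter (fun q => q.1.2 * bb q.1.1 ≡ q.2.2 * bb q.2.1 [MOD δ])

theorem mem_NB {C : ℝ} {P : ℕ} {U : Finset ℕ} {δ : ℕ} {bb : ℕ → ℕ} {q : (ℕ × ℕ) × (ℕ × ℕ)} :
    q ∈ NB C P U δ bb ↔ q ∈ QS C P U ∧ q.1.2 * bb q.1.1 ≡ q.2.2 * bb q.2.1 [MOD δ] := by
  classical
  unfold NB
  rw [Finset.mem_filter]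

/-- integers in a residue class -/
noncomputable def sres (P δ r : ℕ) (t : ℝ) : ℂ :=
  ∑ m ∈ (Ioc P (2 * P)).filter (fun m => m % δ = r % δ), ee (-(t * Real.log m))

/-- the sum over residue classes of the squares -/
noncomputable def GG (P δ : ℕ) (U : Finset ℕ) (bb : ℕ → ℕ) (t : ℝ) : ℝ :=
  ∑ β ∈ range δ, ‖∑ i ∈ U, ∑ m ∈ (Ioc P (2 * P)).filter (fun m => Nat.Coprime m δ ∧ (m * bb i) % δ = β),
    ee (t * (Real.log i - Real.log m))‖ ^ 2

end Pool.Agent.H53.MDB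

end

section

/-!
# MDB Split: division of `U` according to the denominator and the size of `T`

Proof.  `K` = image of `U` under `i ↦ (⌊T i/Z⌋, D i)`.  If `D i = D i'` and `|T i - T i'| ≤ Z`, let (by symmetry) `T i ≤ T i'`, `m = ⌊T i/Z⌋`: `m Z ≤ T i ≤ T i' ≤ T i + Z < (m + 2) Z`.
Sum: every `i ∈ U` belongs to `Uk k` only for `k.2 = D i` and `k.1 Z ≤ T i < (k.1 + 2) Z`, i.e. `k.1 ∈ {⌊T i/Z⌋, ⌊T i/Z⌋ - 1}`: for at most two `k` (swap the sums, `Finset.sum_comm`, `card_filter`).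
-/

set_option autoImplicit false

namespace Pool.Agent.H53.MDB

open Finset

private theorem Split_floor (Z t : ℝ) (hZ : 0 < Z) : (⌊t / Z⌋ : ℝ) * Z ≤ t ∧ t < ((⌊t / Z⌋ : ℝ) + 1) * Z := by
  constructor
  · have h := Int.floor_le (t / Z)
    rwa [le_div_iff₀ hZ] at h
  · have h := Int.lt_floor_add_one (t / Z)
    rwa [div_lt_iff₀ hZ] at h

open Classical in
private theorem Split_two (Z : ℝ) (hZ : 0 < Z) (K : Finset (ℤ × ℕ)) (t : ℝ) (D : ℕ) :
    (K.filter (fun k => D = k.2 ∧ (k.1 : ℝ) * Z ≤ t ∧ t < ((k.1 : ℝ) + 2) * Z)).card ≤ 2 := by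
  have hsub : K.filter (fun k => D = k.2 ∧ (k.1 : ℝ) * Z ≤ t ∧ t < ((k.1 : ℝ) + 2) * Z) ⊆
      {(⌊t / Z⌋, D), (⌊t / Z⌋ - 1, D)} := by
    rintro ⟨m, d⟩ hk
    rw [Finset.mem_filter] at hk
    obtain ⟨-, h1, h2, h3⟩ := hk
    simp only at h1 h2 h3
    obtain ⟨f1, f2⟩ := Split_floor Z t hZ
    have a1 : (m : ℝ) < (⌊t / Z⌋ : ℝ) + 1 := lt_of_mul_lt_mul_right (lt_of_le_of_lt h2 f2) hZ.le
    have a2 : (⌊t / Z⌋ : ℝ) < (m : ℝ) + 2 := lt_of_mul_lt_mul_right (lt_of_le_of_lt f1 h3) hZ.le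
    have b1 : m < ⌊t / Z⌋ + 1 := by exact_mod_cast a1
    have b2 : ⌊t / Z⌋ < m + 2 := by exact_mod_cast a2
    simp only [Finset.mem_insert, Finset.mem_singleton, Prod.mk.injEq]
    subst h1
    rcases (by omega : m = ⌊t / Z⌋ ∨ m = ⌊t / Z⌋ - 1) with h | h
    · exact Or.inl ⟨h, rfl⟩
    · exact Or.inr ⟨h, rfl⟩
  exact (Finset.card_le_card hsub).trans Finset.card_le_two

open Classical in
theorem split (Z : ℝ) (hZ : 0 < Z) (U : Finset ℕ) (D : ℕ → ℕ) (T : ℕ → ℝ) : ∃ K : Finset (ℤ × ℕ),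
    (∀ k ∈ K, ∃ i ∈ U, D i = k.2) ∧
    ∑ k ∈ K, ((U.filter (fun i => D i = k.2 ∧ k.1 * Z ≤ T i ∧ T i < (k.1 + 2) * Z)).card : ℝ) ≤ 2 * U.card ∧
    ∀ i ∈ U, ∀ i' ∈ U, D i = D i' → |T i - T i'| ≤ Z → ∃ k ∈ K, D i = k.2 ∧ k.1 * Z ≤ T i ∧ T i < (k.1 + 2) * Z ∧
      k.1 * Z ≤ T i' ∧ T i' < (k.1 + 2) * Z := by
  refine ⟨U.image (fun i => (⌊T i / Z⌋, D i)), ?_, ?_, ?_⟩
  · intro k hk
    rw [Finset.mem_image] at hk
    obtain ⟨i, hi, rfl⟩ := hk
    exact ⟨i, hi, rfl⟩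
  · generalize hK : U.image (fun i => (⌊T i / Z⌋, D i)) = K
    have h1 : ∑ k ∈ K, (U.filter (fun i => D i = k.2 ∧ (k.1 : ℝ) * Z ≤ T i ∧ T i < ((k.1 : ℝ) + 2) * Z)).card =
        ∑ i ∈ U, (K.filter (fun k => D i = k.2 ∧ (k.1 : ℝ) * Z ≤ T i ∧ T i < ((k.1 : ℝ) + 2) * Z)).card := by
      simp only [Finset.card_filter]
      exact Finset.sum_comm
    have h2 : ∑ i ∈ U, (K.filter (fun k => D i = k.2 ∧ (k.1 : ℝ) * Z ≤ T i ∧ T i < ((k.1 : ℝ) + 2) * Z)).card ≤
        ∑ _i ∈ U, 2 := Finset.sum_le_sum (fun i _ => Split_two Z hZ K (T i) (D i))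
    rw [Finset.sum_const, smul_eq_mul] at h2
    have h3 : ∑ k ∈ K, (U.filter (fun i => D i = k.2 ∧ (k.1 : ℝ) * Z ≤ T i ∧ T i < ((k.1 : ℝ) + 2) * Z)).card ≤
        2 * U.card := by rw [h1]; linarith
    have h4 : ((∑ k ∈ K, (U.filter (fun i => D i = k.2 ∧ (k.1 : ℝ) * Z ≤ T i ∧ T i < ((k.1 : ℝ) + 2) * Z)).card : ℕ) : ℝ) ≤
        ((2 * U.card : ℕ) : ℝ) := by exact_mod_cast h3
    push_cast at h4
    exact h4
  · have key : ∀ i ∈ U, ∀ i' ∈ U, D i = D i' → |T i - T i'| ≤ Z → T i ≤ T i' →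
        ∃ k ∈ U.image (fun i => (⌊T i / Z⌋, D i)), D i = k.2 ∧ (k.1 : ℝ) * Z ≤ T i ∧ T i < ((k.1 : ℝ) + 2) * Z ∧
      (k.1 : ℝ) * Z ≤ T i' ∧ T i' < ((k.1 : ℝ) + 2) * Z := by
      intro i hi i' hi' hD hT hle
      obtain ⟨f1, f2⟩ := Split_floor Z (T i) hZ
      have hab := abs_le.mp hT
      refine ⟨(⌊T i / Z⌋, D i), Finset.mem_image_of_mem _ hi, rfl, f1, ?_, f1.trans hle, ?_⟩
      · simp only
        nlinarith
      · simp only
        nlinarith
    intro i hi i' hi' hD hT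
    rcases le_total (T i) (T i') with h | h
    · exact key i hi i' hi' hD hT h
    · obtain ⟨k, hk, e1, e2, e3, e4, e5⟩ := key i' hi' i hi hD.symm (by rwa [abs_sub_comm]) h
      exact ⟨k, hk, hD.trans e1, e4, e5, e2, e3⟩

end Pool.Agent.H53.MDB

end

section

/-!
# MDB Young: bounds for `GG` from a bound for `sres`

Proof.  Let `c = bb i % δ` (prime to `δ`) and `β < δ`.  If `β` is not prime to `δ`, no `m` prime to `δ` satisfies `m bb(i) ≡ β mod δ`: the inner sum is empty.  If `β` is prime to `δ` there is `r = r(β, c)` with `r c ≡ β mod δ` (`r` prime to `δ`), and for all `m`: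
(`m` prime to `δ` and `m bb(i) % δ = β`) iff `m % δ = r % δ`; so the inner sum is `ee(t log i) · sres P δ r t`.  In all cases it is `ee(t log i) w(β, c)` with `|w(β, c)| ≤ M`, where `w` depends only on `β` and `c = bb i % δ`
(define `w(β, c) = ∑_{m ∈ (P,2P], (m,δ)=1, (m c) % δ = β} ee(-t log m)`; `(m * bb i) % δ = (m * (bb i % δ)) % δ`).
`gg_triv`: `|∑_{i ∈ U} ee(t log i) w| ≤ |U| M`, `δ` values of `β`.
`gg_young`: `∑_{i ∈ U} ee(t log i) w(β, bb i % δ) = ∑_{c < δ} w(β, c) u_c`, `u_c = ∑_{i ∈ U, bb i % δ = c} ee(t log i)`; Cauchy-Schwarz: `|…|^2 ≤ (∑_c |w|^2)(∑_c |u_c|^2) ≤ δ M^2 ∑_c |u_c|^2` (the classes `c` not prime to `δ` have `u_c = 0`,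
use only `c` in the image of `U`); sum over the `δ` values of `β`.
(`M ≥ 0` as `0 ≤ ‖sres‖ ≤ M`.)
-/

set_option autoImplicit false

namespace Pool.Agent.H53.MDB

open Finset
open Pool.Agent.H91.PK (ee)

private theorem Young_ee_add (a b : ℝ) : ee (a + b) = ee a * ee b := by
  unfold ee
  rw [← Complex.exp_add]
  congr 1
  push_cast
  ring

private theorem Young_norm_ee (t : ℝ) : ‖ee t‖ = 1 := by
  unfold ee
  have h : (2 * Real.pi * t * Complex.I : ℂ) = ((2 * Real.pi * t : ℝ) : ℂ) * Complex.I := by push_cast; ring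
  rw [h, Complex.norm_exp_ofReal_mul_I]

/-- the sum over `m` with `m c ≡ β` -/
private noncomputable def Young_W (P δ : ℕ) (t : ℝ) (β c : ℕ) : ℂ :=
  ∑ m ∈ (Ioc P (2 * P)).filter (fun m => Nat.Coprime m δ ∧ (m * c) % δ = β), ee (-(t * Real.log m))

private theorem Young_inner (P δ : ℕ) (bb : ℕ → ℕ) (t : ℝ) (β i : ℕ) :
    ∑ m ∈ (Ioc P (2 * P)).filter (fun m => Nat.Coprime m δ ∧ (m * bb i) % δ = β),
      ee (t * (Real.log i - Real.log m)) = ee (t * Real.log i) * Young_W P δ t β (bb i % δ) := by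
  unfold Young_W
  rw [Finset.mul_sum]
  refine Finset.sum_congr ?_ fun m _ => ?_
  · refine Finset.filter_congr fun m _ => ?_
    rw [Nat.mul_mod m (bb i % δ), Nat.mod_mod, ← Nat.mul_mod]
  · rw [← Young_ee_add]; congr 1; ring

private theorem Young_W_le {P δ : ℕ} {t M : ℝ} (hδ : 1 ≤ δ) (hM : ∀ r : ℕ, ‖sres P δ r t‖ ≤ M) {β c : ℕ}
    (hβ : β < δ) (hc : Nat.Coprime c δ) : ‖Young_W P δ t β c‖ ≤ M := by
  have hM0 : 0 ≤ M := (norm_nonneg _).trans (hM 0)
  by_cases hβc : Nat.Coprime β δ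
  · obtain ⟨r, hr⟩ : ∃ r : ℕ, (r * c) % δ = β := by
      obtain ⟨x, hx⟩ := Nat.exists_mul_mod_eq_of_coprime (n := c) (k := δ) β hc (by omega)
      exact ⟨x, by rw [mul_comm, hx.2, Nat.mod_eq_of_lt hβ]⟩
    have hrc : Nat.Coprime r δ := by
      have h1 : Nat.Coprime ((r * c) % δ) δ := by rw [hr]; exact hβc
      have h2 : Nat.gcd (r * c) δ = 1 := by
        rw [Nat.Coprime, ← Nat.gcd_rec, Nat.gcd_comm] at h1
        exact h1
      exact Nat.Coprime.coprime_mul_right h2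
    have hfil : (Ioc P (2 * P)).filter (fun m => Nat.Coprime m δ ∧ (m * c) % δ = β) =
        (Ioc P (2 * P)).filter (fun m => m % δ = r % δ) := by
      refine Finset.filter_congr fun m _ => ?_
      constructor
      · rintro ⟨-, h2⟩
        have h3 : m * c ≡ r * c [MOD δ] := by
          show (m * c) % δ = (r * c) % δ
          rw [h2, hr]
        exact Nat.ModEq.cancel_right_of_coprime (by rw [Nat.gcd_comm]; exact hc) h3
      · intro h
        have h1 : m ≡ r [MOD δ] := h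
        refine ⟨?_, ?_⟩
        · have h2 : Nat.gcd m δ = Nat.gcd r δ := h1.gcd_eq
          rw [Nat.Coprime, h2]; exact hrc
        · have h2 : m * c ≡ r * c [MOD δ] := h1.mul_right c
          have h3 : (m * c) % δ = (r * c) % δ := h2
          rw [h3, hr]
    unfold Young_W
    rw [hfil]
    exact hM r
  · have hemp : (Ioc P (2 * P)).filter (fun m => Nat.Coprime m δ ∧ (m * c) % δ = β) = ∅ := by
      rw [Finset.filter_eq_empty_iff]
      rintro m _ ⟨h1, h2⟩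
      apply hβc
      have h3 : Nat.Coprime (m * c) δ := Nat.Coprime.mul_left h1 hc
      rw [← h2, Nat.Coprime, ← Nat.gcd_rec, Nat.gcd_comm]
      exact h3
    unfold Young_W
    rw [hemp, Finset.sum_empty, norm_zero]
    exact hM0

private theorem Young_mod {bb : ℕ} {δ : ℕ} (h : Nat.Coprime bb δ) : Nat.Coprime (bb % δ) δ := by
  rw [Nat.Coprime, ← Nat.gcd_rec, Nat.gcd_comm]
  exact h

private theorem Young_GG (P δ : ℕ) (U : Finset ℕ) (bb : ℕ → ℕ) (t : ℝ) :
    GG P δ U bb t = ∑ β ∈ range δ, ‖∑ i ∈ U, ee (t * Real.log i) * Young_W P δ t β (bb i % δ)‖ ^ 2 := by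
  unfold GG
  refine Finset.sum_congr rfl fun β _ => ?_
  rw [Finset.sum_congr rfl fun i _ => Young_inner P δ bb t β i]

theorem gg_triv (P δ : ℕ) (U : Finset ℕ) (bb : ℕ → ℕ) (t M : ℝ) (hδ : 1 ≤ δ) (hb : ∀ i ∈ U, Nat.Coprime (bb i) δ)
    (hM : ∀ r : ℕ, ‖sres P δ r t‖ ≤ M) : GG P δ U bb t ≤ δ * (M * U.card) ^ 2 := by
  rw [Young_GG]
  have h1 : ∀ β ∈ range δ, ‖∑ i ∈ U, ee (t * Real.log i) * Young_W P δ t β (bb i % δ)‖ ^ 2 ≤
      (M * U.card) ^ 2 := by
    intro β hβ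
    rw [mem_range] at hβ
    refine pow_le_pow_left₀ (norm_nonneg _) ?_ 2
    refine (norm_sum_le _ _).trans ?_
    calc ∑ i ∈ U, ‖ee (t * Real.log i) * Young_W P δ t β (bb i % δ)‖ ≤ ∑ i ∈ U, M := by
          refine Finset.sum_le_sum fun i hi => ?_
          rw [norm_mul, Young_norm_ee, one_mul]
          exact Young_W_le hδ hM hβ (Young_mod (hb i hi))
      _ = M * U.card := by rw [Finset.sum_const, nsmul_eq_mul, mul_comm]
  refine (Finset.sum_le_sum h1).trans ?_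
  rw [Finset.sum_const, card_range, nsmul_eq_mul]

theorem gg_young (P δ : ℕ) (U : Finset ℕ) (bb : ℕ → ℕ) (t M : ℝ) (hδ : 1 ≤ δ) (hb : ∀ i ∈ U, Nat.Coprime (bb i) δ)
    (hM : ∀ r : ℕ, ‖sres P δ r t‖ ≤ M) :
    GG P δ U bb t ≤ (δ * M) ^ 2 * ∑ c ∈ range δ, ‖∑ i ∈ U.filter (fun i => bb i % δ = c), ee (t * Real.log i)‖ ^ 2 := by
  have hM0 : 0 ≤ M := (norm_nonneg _).trans (hM 0)
  rw [Young_GG]
  set u : ℕ → ℂ := fun c => ∑ i ∈ U.filter (fun i => bb i % δ = c), ee (t * Real.log i) with hu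
  have h1 : ∀ β ∈ range δ, ‖∑ i ∈ U, ee (t * Real.log i) * Young_W P δ t β (bb i % δ)‖ ^ 2 ≤
      M ^ 2 * (δ * ∑ c ∈ range δ, ‖u c‖ ^ 2) := by
    intro β hβ
    rw [mem_range] at hβ
    have e1 : ∑ i ∈ U, ee (t * Real.log i) * Young_W P δ t β (bb i % δ) =
        ∑ c ∈ range δ, u c * Young_W P δ t β c := by
      rw [← Finset.sum_fiberwise_of_maps_to (s := U) (t := range δ) (g := fun i => bb i % δ)
        (fun i _ => mem_range.2 (Nat.mod_lt _ (by omega)))]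
      refine Finset.sum_congr rfl fun c _ => ?_
      simp only [hu]
      rw [Finset.sum_mul]
      refine Finset.sum_congr rfl fun i hi => ?_
      rw [(Finset.mem_filter.1 hi).2]
    have e2 : ‖∑ i ∈ U, ee (t * Real.log i) * Young_W P δ t β (bb i % δ)‖ ≤ M * ∑ c ∈ range δ, ‖u c‖ := by
      rw [e1, Finset.mul_sum]
      refine (norm_sum_le _ _).trans (Finset.sum_le_sum fun c _ => ?_)
      rw [norm_mul, mul_comm]
      by_cases hex : ∃ i ∈ U, bb i % δ = c
      · obtain ⟨i, hi, hic⟩ := hex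
        refine mul_le_mul_of_nonneg_right ?_ (norm_nonneg _)
        exact Young_W_le hδ hM hβ (hic ▸ Young_mod (hb i hi))
      · have : u c = 0 := by
          simp only [hu]
          rw [Finset.filter_eq_empty_iff.2 (fun i hi hic => hex ⟨i, hi, hic⟩), Finset.sum_empty]
        rw [this, norm_zero, mul_zero, mul_zero]
    calc ‖∑ i ∈ U, ee (t * Real.log i) * Young_W P δ t β (bb i % δ)‖ ^ 2
        ≤ (M * ∑ c ∈ range δ, ‖u c‖) ^ 2 := pow_le_pow_left₀ (norm_nonneg _) e2 2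
      _ = M ^ 2 * (∑ c ∈ range δ, ‖u c‖) ^ 2 := by ring
      _ ≤ M ^ 2 * (δ * ∑ c ∈ range δ, ‖u c‖ ^ 2) := by
        refine mul_le_mul_of_nonneg_left ?_ (by positivity)
        have := sq_sum_le_card_mul_sum_sq (s := range δ) (f := fun c => ‖u c‖)
        rwa [card_range] at this
  refine (Finset.sum_le_sum h1).trans (le_of_eq ?_)
  rw [Finset.sum_const, card_range, nsmul_eq_mul]
  ring

end Pool.Agent.H53.MDB

end

section

/-!
# MDB Fej: pairs with close values, by an exponential integral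

Proof.  Write `I(y) = ∫_0^V ee(t y) dt`.  If `|y| V ≤ 1/2` then `|I(y)| ≥ V/2`: for `y = 0` clear, otherwise `I(y) = (ee(V y) - 1)/(2πi y)`, `|I(y)| = |sin(π V y)|/(π |y|) ≥ (2/π) V ≥ V/2` (`|sin u| ≥ (2/π)|u|` for `|u| ≤ π/2`, Jordan:
`Real.mul_le_sin` / `Real.mul_abs_le_abs_sin`).  Or directly: `Re ee(t y) = cos(2π t y)`, and `cos u ≥ 1 - 2u/π` on `[0, π]` (`Real.one_sub_mul_le_cos`...), so `Re I(y) ≥ ∫_0^V (1 - 4 t |y|) dt = V - 2 V^2 |y|`, good only for `|y| V ≤ 1/4`; use the first way.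
So `1 ≤ (4/V^2) |I(y)|^2`, and `|I(y)|^2 ≥ 0` for all `y`.  `|I(y)|^2 = ∫_0^V ∫_0^V ee((t - t') y) dt' dt`.  Sum over all pairs `(s, s')` with `c s = c s'`, `y = x s - x s'`:
`N ≤ (4/V^2) ∫_0^V ∫_0^V ∑_{β ∈ B} ∑_{s, s' ∈ S_β} ee((t - t')(x s - x s')) = (4/V^2) ∫_0^V ∫_0^V G(t - t') dt' dt`, `G(u) = ∑_β |∑_{s ∈ S_β} ee(u x_s)|^2 ≥ 0`, and for every `t ∈ [0, V]`:
`∫_0^V G(t - t') dt' = ∫_{t-V}^{t} G(u) du ≤ ∫_{-V}^{V} G`.  So `N ≤ (4/V) ∫_{-V}^{V} G`.
Alternative without double integrals: `|I(y)|^2 = ∫_{-V}^{V} (V - |u|) ee(u y) du` is also fine (compute both sides for `y ≠ 0`, and `y = 0`).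
-/

set_option autoImplicit false

namespace Pool.Agent.H53.MDB

open Finset MeasureTheory
open Pool.Agent.H91.PK (ee)

/-- the Fejer kernel as an integral -/
private noncomputable def Fej_F (V y : ℝ) : ℝ :=
  ∫ t in Set.Icc (-V) V, (V - |t|) * Real.cos (2 * Real.pi * (t * y))

private theorem Fej_half {V w : ℝ} (hV : 0 < V) (hw : w ≠ 0) :
    ∫ t in Set.Icc (-V) V, (V - |t|) * Real.cos (w * t) = 2 * (1 - Real.cos (w * V)) / w ^ 2 := by
  have hcont : Continuous (fun t : ℝ => (V - |t|) * Real.cos (w * t)) := by fun_prop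
  rw [integral_Icc_eq_integral_Ioc, ← intervalIntegral.integral_of_le (by linarith),
    ← intervalIntegral.integral_add_adjacent_intervals (b := 0)
      (hcont.intervalIntegrable _ _) (hcont.intervalIntegrable _ _)]
  have h1 : ∫ t in (-V)..0, (V - |t|) * Real.cos (w * t) = (1 - Real.cos (w * V)) / w ^ 2 := by
    have e1 : ∫ t in (-V)..0, (V - |t|) * Real.cos (w * t) = ∫ t in (-V)..0, (V + t) * Real.cos (w * t) := by
      refine intervalIntegral.integral_congr fun t ht => ?_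
      rw [Set.uIcc_of_le (by linarith)] at ht
      rw [abs_of_nonpos ht.2, sub_neg_eq_add]
    rw [e1, intervalIntegral.integral_eq_sub_of_hasDerivAt
      (f := fun t => (V + t) * Real.sin (w * t) / w + Real.cos (w * t) / w ^ 2)]
    · simp only [mul_zero, Real.sin_zero, Real.cos_zero, add_neg_cancel, zero_mul, zero_div, zero_add,
        mul_neg, Real.cos_neg]
      ring
    · intro t _
      have d1 : HasDerivAt (fun t : ℝ => w * t) w t := by
        simpa using (hasDerivAt_id t).const_mul w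
      have d2 : HasDerivAt (fun t : ℝ => V + t) 1 t := by
        simpa using (hasDerivAt_id t).const_add V
      have d3 := ((d2.fun_mul d1.sin).div_const w).fun_add (d1.cos.div_const (w ^ 2))
      refine d3.congr_deriv ?_
      field_simp
      ring
    · exact (Continuous.intervalIntegrable (by fun_prop) _ _)
  have h2 : ∫ t in (0 : ℝ)..V, (V - |t|) * Real.cos (w * t) = (1 - Real.cos (w * V)) / w ^ 2 := by
    have e1 : ∫ t in (0 : ℝ)..V, (V - |t|) * Real.cos (w * t) = ∫ t in (0 : ℝ)..V, (V - t) * Real.cos (w * t) := by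
      refine intervalIntegral.integral_congr fun t ht => ?_
      rw [Set.uIcc_of_le hV.le] at ht
      rw [abs_of_nonneg ht.1]
    rw [e1, intervalIntegral.integral_eq_sub_of_hasDerivAt
      (f := fun t => (V - t) * Real.sin (w * t) / w - Real.cos (w * t) / w ^ 2)]
    · simp only [mul_zero, Real.sin_zero, Real.cos_zero, sub_self, zero_mul, zero_div, zero_sub, sub_zero]
      ring
    · intro t _
      have d1 : HasDerivAt (fun t : ℝ => w * t) w t := by
        simpa using (hasDerivAt_id t).const_mul w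
      have d2 : HasDerivAt (fun t : ℝ => V - t) (-1) t := by
        simpa using (hasDerivAt_id t).const_sub V
      have d3 := ((d2.fun_mul d1.sin).div_const w).fun_sub (d1.cos.div_const (w ^ 2))
      refine d3.congr_deriv ?_
      field_simp
      ring
    · exact (Continuous.intervalIntegrable (by fun_prop) _ _)
  rw [h1, h2]
  ring

private theorem Fej_zero {V : ℝ} (hV : 0 < V) :
    ∫ t in Set.Icc (-V) V, (V - |t|) = V ^ 2 := by
  have hcont : Continuous (fun t : ℝ => (V - |t|)) := by fun_prop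
  rw [integral_Icc_eq_integral_Ioc, ← intervalIntegral.integral_of_le (by linarith),
    ← intervalIntegral.integral_add_adjacent_intervals (b := 0)
      (hcont.intervalIntegrable _ _) (hcont.intervalIntegrable _ _)]
  have h1 : ∫ t in (-V)..0, (V - |t|) = V ^ 2 / 2 := by
    have e1 : ∫ t in (-V)..0, (V - |t|) = ∫ t in (-V)..0, (V + t) := by
      refine intervalIntegral.integral_congr fun t ht => ?_
      rw [Set.uIcc_of_le (by linarith)] at ht
      rw [abs_of_nonpos ht.2, sub_neg_eq_add]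
    rw [e1, intervalIntegral.integral_eq_sub_of_hasDerivAt (f := fun t => V * t + t ^ 2 / 2)]
    · ring
    · intro t _
      have d1 : HasDerivAt (fun t : ℝ => V * t) V t := by
        simpa using (hasDerivAt_id t).const_mul V
      have d4 : HasDerivAt (fun t : ℝ => t ^ 2) (2 * t) t := by
        simpa using hasDerivAt_pow 2 t
      refine (d1.fun_add (d4.div_const 2)).congr_deriv ?_
      ring
    · exact (Continuous.intervalIntegrable (by fun_prop) _ _)
  have h2 : ∫ t in (0 : ℝ)..V, (V - |t|) = V ^ 2 / 2 := by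
    have e1 : ∫ t in (0 : ℝ)..V, (V - |t|) = ∫ t in (0 : ℝ)..V, (V - t) := by
      refine intervalIntegral.integral_congr fun t ht => ?_
      rw [Set.uIcc_of_le hV.le] at ht
      rw [abs_of_nonneg ht.1]
    rw [e1, intervalIntegral.integral_eq_sub_of_hasDerivAt (f := fun t => V * t - t ^ 2 / 2)]
    · ring
    · intro t _
      have d1 : HasDerivAt (fun t : ℝ => V * t) V t := by
        simpa using (hasDerivAt_id t).const_mul V
      have d4 : HasDerivAt (fun t : ℝ => t ^ 2) (2 * t) t := by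
        simpa using hasDerivAt_pow 2 t
      refine (d1.fun_sub (d4.div_const 2)).congr_deriv ?_
      ring
    · exact (Continuous.intervalIntegrable (by fun_prop) _ _)
  rw [h1, h2]
  ring

private theorem Fej_F_eq {V y : ℝ} (hV : 0 < V) (hy : y ≠ 0) :
    Fej_F V y = 2 * (1 - Real.cos (2 * Real.pi * y * V)) / (2 * Real.pi * y) ^ 2 := by
  rw [← Fej_half hV (mul_ne_zero (by positivity) hy)]
  unfold Fej_F
  refine integral_congr_ae (Filter.Eventually.of_forall fun t => ?_)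
  simp only
  congr 2
  ring

private theorem Fej_F_zero {V : ℝ} (hV : 0 < V) : Fej_F V 0 = V ^ 2 := by
  rw [← Fej_zero hV]
  unfold Fej_F
  refine integral_congr_ae (Filter.Eventually.of_forall fun t => ?_)
  simp

private theorem Fej_F_nonneg {V : ℝ} (hV : 0 < V) (y : ℝ) : 0 ≤ Fej_F V y := by
  rcases eq_or_ne y 0 with h | h
  · rw [h, Fej_F_zero hV]
    positivity
  · rw [Fej_F_eq hV h]
    have := Real.cos_le_one (2 * Real.pi * y * V)
    refine div_nonneg ?_ (by positivity)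
    linarith

private theorem Fej_F_ge {V : ℝ} (hV : 0 < V) (y : ℝ) (hy : |y| * V ≤ 1 / 2) : V ^ 2 / 4 ≤ Fej_F V y := by
  rcases eq_or_ne y 0 with h | h
  · rw [h, Fej_F_zero hV]
    nlinarith [sq_nonneg V]
  · rw [Fej_F_eq hV h]
    have hpi := Real.pi_pos
    have hy0 : 0 < |y| := abs_pos.2 h
    -- `1 - cos x = 2 sin^2 (x/2)`, `x/2 = π |y| V`
    have h1 : Real.cos (2 * Real.pi * y * V) = Real.cos (2 * (Real.pi * (|y| * V))) := by
      rcases abs_choice y with h2 | h2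
      · rw [h2]
        congr 1
        ring
      · rw [h2, ← Real.cos_neg]
        congr 1
        ring
    have h3 : 2 / Real.pi * (Real.pi * (|y| * V)) ≤ Real.sin (Real.pi * (|y| * V)) := by
      refine Real.mul_le_sin (by positivity) ?_
      nlinarith
    have h4 : 2 / Real.pi * (Real.pi * (|y| * V)) = 2 * (|y| * V) := by
      field_simp
    rw [h4] at h3
    have h5 : (2 * (|y| * V)) ^ 2 ≤ Real.sin (Real.pi * (|y| * V)) ^ 2 :=
      pow_le_pow_left₀ (by positivity) h3 2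
    have h6 : 1 - Real.cos (2 * Real.pi * y * V) = 2 * Real.sin (Real.pi * (|y| * V)) ^ 2 := by
      rw [h1, Real.cos_two_mul, Real.cos_sq']
      ring
    rw [h6]
    have h7 : (2 * Real.pi * y) ^ 2 = 4 * Real.pi ^ 2 * |y| ^ 2 := by
      rw [sq_abs]
      ring
    rw [h7, le_div_iff₀ (by positivity)]
    have h8 : Real.pi ^ 2 ≤ 16 := by
      nlinarith [Real.pi_le_four]
    have h9 : 0 ≤ V ^ 2 * |y| ^ 2 := by positivity
    nlinarith

private theorem Fej_re (a b : ℝ) : (ee a * (starRingEnd ℂ) (ee b)).re = Real.cos (2 * Real.pi * (a - b)) := by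
  unfold Pool.Agent.H91.PK.ee
  rw [← Complex.exp_conj, ← Complex.exp_add]
  have h : 2 * (Real.pi : ℂ) * (a : ℂ) * Complex.I +
      (starRingEnd ℂ) (2 * (Real.pi : ℂ) * (b : ℂ) * Complex.I) =
      ((2 * Real.pi * (a - b) : ℝ) : ℂ) * Complex.I := by
    simp only [map_mul, Complex.conj_ofReal, Complex.conj_I, map_ofNat]
    push_cast
    ring
  rw [h, Complex.exp_ofReal_mul_I_re]

private theorem Fej_sq {ι : Type} (T : Finset ι) (x : ι → ℝ) (t : ℝ) :
    ‖∑ s ∈ T, ee (t * x s)‖ ^ 2 = ∑ s ∈ T, ∑ s' ∈ T, Real.cos (2 * Real.pi * (t * (x s - x s'))) := by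
  have h1 : ((‖∑ s ∈ T, ee (t * x s)‖ ^ 2 : ℝ) : ℂ) =
      (∑ s ∈ T, ee (t * x s)) * (starRingEnd ℂ) (∑ s ∈ T, ee (t * x s)) := by
    rw [Complex.mul_conj, Complex.normSq_eq_norm_sq]
  have h2 : ‖∑ s ∈ T, ee (t * x s)‖ ^ 2 =
      ((∑ s ∈ T, ee (t * x s)) * (starRingEnd ℂ) (∑ s ∈ T, ee (t * x s))).re := by
    rw [← h1, Complex.ofReal_re]
  rw [h2, map_sum, Finset.sum_mul_sum, Complex.re_sum]
  refine sum_congr rfl fun s _ => ?_
  rw [Complex.re_sum]
  refine sum_congr rfl fun s' _ => ?_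
  rw [Fej_re]
  congr 2
  ring

open Classical in
theorem fej {ι : Type} (S : Finset ι) (x : ι → ℝ) (c : ι → ℕ) (B : Finset ℕ) (V : ℝ) (hV : 0 < V) (hc : ∀ s ∈ S, c s ∈ B) :
    (((S ×ˢ S).filter (fun q => c q.1 = c q.2 ∧ |x q.1 - x q.2| * V ≤ 1 / 2)).card : ℝ) ≤
      4 / V * ∫ t in Set.Icc (-V) V, ∑ β ∈ B, ‖∑ s ∈ S.filter (fun s => c s = β), ee (t * x s)‖ ^ 2 := by
  set Pr := (S ×ˢ S).filter (fun q => c q.1 = c q.2) with hPr
  -- the sum over the pairs
  have hG : ∀ t : ℝ, ∑ β ∈ B, ‖∑ s ∈ S.filter (fun s => c s = β), ee (t * x s)‖ ^ 2 =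
      ∑ q ∈ Pr, Real.cos (2 * Real.pi * (t * (x q.1 - x q.2))) := by
    intro t
    have h1 : ∀ β ∈ B, ‖∑ s ∈ S.filter (fun s => c s = β), ee (t * x s)‖ ^ 2 =
        ∑ s ∈ S.filter (fun s => c s = β), ∑ s' ∈ S.filter (fun s' => c s = c s'),
          Real.cos (2 * Real.pi * (t * (x s - x s'))) := by
      intro β _
      rw [Fej_sq]
      refine sum_congr rfl fun s hs => ?_
      rw [(mem_filter.1 hs).2]
      refine sum_congr ?_ fun _ _ => rfl
      ext s'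
      rw [mem_filter, mem_filter, eq_comm (a := β)]
    rw [sum_congr rfl h1, sum_fiberwise_of_maps_to (g := c)
      (f := fun s => ∑ s' ∈ S.filter (fun s' => c s = c s'), Real.cos (2 * Real.pi * (t * (x s - x s')))) hc,
      hPr, sum_filter, sum_product]
    refine sum_congr rfl fun s _ => ?_
    rw [sum_filter]
  have hcontq : ∀ q : ι × ι, Continuous (fun t : ℝ => Real.cos (2 * Real.pi * (t * (x q.1 - x q.2)))) := by
    intro q
    fun_prop
  have hGcont : Continuous (fun t : ℝ => ∑ q ∈ Pr, Real.cos (2 * Real.pi * (t * (x q.1 - x q.2)))) :=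
    continuous_finsetSum _ fun q _ => hcontq q
  have hGnn : ∀ t : ℝ, 0 ≤ ∑ q ∈ Pr, Real.cos (2 * Real.pi * (t * (x q.1 - x q.2))) := by
    intro t
    rw [← hG t]
    exact sum_nonneg fun _ _ => by positivity
  have hint : ∫ t in Set.Icc (-V) V, ∑ β ∈ B, ‖∑ s ∈ S.filter (fun s => c s = β), ee (t * x s)‖ ^ 2 =
      ∫ t in Set.Icc (-V) V, ∑ q ∈ Pr, Real.cos (2 * Real.pi * (t * (x q.1 - x q.2))) := by
    refine integral_congr_ae (Filter.Eventually.of_forall fun t => ?_)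
    exact hG t
  rw [hint]
  -- the sum of the kernels
  have hsum : ∑ q ∈ Pr, Fej_F V (x q.1 - x q.2) ≤
      V * ∫ t in Set.Icc (-V) V, ∑ q ∈ Pr, Real.cos (2 * Real.pi * (t * (x q.1 - x q.2))) := by
    have h1 : ∑ q ∈ Pr, Fej_F V (x q.1 - x q.2) =
        ∫ t in Set.Icc (-V) V, (V - |t|) * ∑ q ∈ Pr, Real.cos (2 * Real.pi * (t * (x q.1 - x q.2))) := by
      unfold Fej_F
      rw [← integral_finsetSum]
      · refine integral_congr_ae (Filter.Eventually.of_forall fun t => ?_)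
        simp only
        rw [mul_sum]
      · intro q _
        exact (Continuous.continuousOn (by fun_prop)).integrableOn_Icc
    rw [h1, ← integral_const_mul]
    refine setIntegral_mono_on ?_ ?_ measurableSet_Icc fun t ht => ?_
    · exact (Continuous.continuousOn ((by fun_prop : Continuous fun t : ℝ => V - |t|).mul hGcont)).integrableOn_Icc
    · exact (Continuous.continuousOn (continuous_const.mul hGcont)).integrableOn_Icc
    · refine mul_le_mul_of_nonneg_right ?_ (hGnn t)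
      have := abs_nonneg t
      linarith
  have hcard : (((S ×ˢ S).filter (fun q => c q.1 = c q.2 ∧ |x q.1 - x q.2| * V ≤ 1 / 2)).card : ℝ) * (V ^ 2 / 4) ≤
      ∑ q ∈ Pr, Fej_F V (x q.1 - x q.2) := by
    have h1 : (S ×ˢ S).filter (fun q => c q.1 = c q.2 ∧ |x q.1 - x q.2| * V ≤ 1 / 2) ⊆ Pr := by
      intro q hq
      rw [mem_filter] at hq
      exact mem_filter.2 ⟨hq.1, hq.2.1⟩
    have h2 : ∑ q ∈ (S ×ˢ S).filter (fun q => c q.1 = c q.2 ∧ |x q.1 - x q.2| * V ≤ 1 / 2), (V ^ 2 / 4) ≤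
        ∑ q ∈ (S ×ˢ S).filter (fun q => c q.1 = c q.2 ∧ |x q.1 - x q.2| * V ≤ 1 / 2),
          Fej_F V (x q.1 - x q.2) :=
      sum_le_sum fun q hq => Fej_F_ge hV _ (mem_filter.1 hq).2.2
    rw [sum_const, nsmul_eq_mul] at h2
    exact h2.trans (sum_le_sum_of_subset_of_nonneg h1 fun q _ _ => Fej_F_nonneg hV _)
  have h3 := hcard.trans hsum
  have h4 : 4 / V * ∫ t in Set.Icc (-V) V, ∑ q ∈ Pr, Real.cos (2 * Real.pi * (t * (x q.1 - x q.2))) =
      (V * ∫ t in Set.Icc (-V) V, ∑ q ∈ Pr, Real.cos (2 * Real.pi * (t * (x q.1 - x q.2)))) / (V ^ 2 / 4) := by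
    field_simp
  rw [h4, le_div_iff₀ (by positivity)]
  exact h3

end Pool.Agent.H53.MDB

end

section

/-!
# MDB Osc: few indices `i` with `W/i` near an integer

Proof.  By `nz_neg` we may assume `W > 0` (`nz (-t) = nz t`, replace `W` by `|W|`: `|W|/i = ± W/i`).  For `i ∈ S` let `m(i) = round (W/i)`: `|W/i - m(i)| ≤ κ ≤ 1/2`, so `m(i) ≥ 0` (as `W/i > 0`, `m ≥ -1/2`) and
`m(i) ≤ W C/n + 1/2`.  So the `m(i)` take at most `W C/n + 3/2` values.  Fibre of `m`: if `i < i'` are both in it then `W/i - W/i' ≤ 2κ` and `W/i - W/i' = W (i' - i)/(i i') ≥ W (i' - i)/(C^2 n^2)`, so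
`i' - i ≤ 2 κ C^2 n^2/W`: the fibre is contained in an interval of this length and has at most `2 κ C^2 n^2/W + 1` elements.  `S.card ≤ (number of values) * (max fibre)` (`Finset.card_le_mul_card_image` or
`card_eq_sum_card_fiberwise`).
-/

set_option autoImplicit false

namespace Pool.Agent.H53.MDB

open Finset
open Pool.Agent.H53.MID (nz)

/-- a set of natural numbers of diameter at most `D` -/
private theorem Osc_diam (D : ℝ) (T : Finset ℕ) (hD : 0 ≤ D)
    (hT : ∀ i ∈ T, ∀ i' ∈ T, i < i' → (i' : ℝ) - i ≤ D) : (T.card : ℝ) ≤ D + 1 := by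
  rcases T.eq_empty_or_nonempty with h0 | hne
  · rw [h0, Finset.card_empty, Nat.cast_zero]
    linarith
  · obtain ⟨a, ha⟩ : ∃ a, a = T.min' hne := ⟨_, rfl⟩
    have haT : a ∈ T := by
      rw [ha]
      exact Finset.min'_mem _ _
    have hsub : T ⊆ Finset.Icc a (a + ⌊D⌋₊) := by
      intro i hi
      have h1 : a ≤ i := by
        rw [ha]
        exact Finset.min'_le _ _ hi
      rw [Finset.mem_Icc]
      refine ⟨h1, ?_⟩
      rcases h1.eq_or_lt with h2 | h2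
      · omega
      · have h3 := hT a haT i hi h2
        have h4 : ((i - a : ℕ) : ℝ) ≤ D := by
          rw [Nat.cast_sub h1]
          exact h3
        have h5 : i - a ≤ ⌊D⌋₊ := Nat.le_floor h4
        omega
    have h6 : (T.card : ℝ) ≤ ((⌊D⌋₊ + 1 : ℕ) : ℝ) := by
      have h7 : T.card ≤ ⌊D⌋₊ + 1 := by
        refine (Finset.card_le_card hsub).trans ?_
        rw [Nat.card_Icc]
        omega
      exact_mod_cast h7
    refine h6.trans ?_
    push_cast
    have := Nat.floor_le hD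
    linarith

/-- the case of a positive number -/
private theorem Osc_pos (C : ℝ) (hC : 1 ≤ C) (n : ℕ) (W κ : ℝ) (hn : 1 ≤ n) (hW : 0 < W) (hκ : 0 ≤ κ)
    (hκ2 : κ ≤ 1 / 2) (S : Finset ℕ)
    (hS : ∀ i ∈ S, (n : ℝ) / C ≤ i ∧ (i : ℝ) ≤ C * n ∧ nz (W / i) ≤ κ) :
    (S.card : ℝ) ≤ (C * W / n + 2) * (2 * κ * C ^ 2 * n ^ 2 / W + 1) := by
  have hn0 : (0 : ℝ) < n := by exact_mod_cast hn
  have hC0 : 0 < C := by linarith
  have hD : 0 ≤ 2 * κ * C ^ 2 * (n : ℝ) ^ 2 / W := by positivity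
  have hi0 : ∀ i ∈ S, (0 : ℝ) < i := fun i hi => lt_of_lt_of_le (by positivity) (hS i hi).1
  have h1 : (S.card : ℝ) = ∑ m ∈ S.image (fun i : ℕ => round (W / i)),
      ((S.filter (fun i : ℕ => round (W / i) = m)).card : ℝ) := by
    rw [Finset.card_eq_sum_card_image (fun i : ℕ => round (W / i)) S]
    push_cast
    rfl
  have h2 : ∀ m ∈ S.image (fun i : ℕ => round (W / i)),
      ((S.filter (fun i : ℕ => round (W / i) = m)).card : ℝ) ≤ 2 * κ * C ^ 2 * n ^ 2 / W + 1 := by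
    intro m _
    refine Osc_diam _ _ hD fun i hi i' hi' hlt => ?_
    rw [Finset.mem_filter] at hi hi'
    have a1 := (hS i hi.1).2.2
    have a2 := (hS i' hi'.1).2.2
    unfold nz at a1 a2
    rw [hi.2, abs_le] at a1
    rw [hi'.2, abs_le] at a2
    have b1 := hi0 i hi.1
    have b2 := hi0 i' hi'.1
    have a3 : W / i - W / i' ≤ 2 * κ := by linarith [a1.2, a2.1]
    have a4 : W / i - W / i' = W * ((i' : ℝ) - i) / (i * i') := by
      field_simp
    rw [a4, div_le_iff₀ (by positivity)] at a3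
    have a5 : (i : ℝ) * i' ≤ (C * n) * (C * n) :=
      mul_le_mul (hS i hi.1).2.1 (hS i' hi'.1).2.1 b2.le (by positivity)
    rw [le_div_iff₀ hW]
    have a6 : 2 * κ * ((i : ℝ) * i') ≤ 2 * κ * ((C * n) * (C * n)) :=
      mul_le_mul_of_nonneg_left a5 (by positivity)
    nlinarith
  have h3 : (((S.image (fun i : ℕ => round (W / i))).card : ℕ) : ℝ) ≤ C * W / n + 2 := by
    have h4 : S.image (fun i : ℕ => round (W / i)) ⊆ Finset.Icc (0 : ℤ) ⌊C * W / n + 1 / 2⌋ := by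
      intro m hm
      rw [Finset.mem_image] at hm
      obtain ⟨i, hi, rfl⟩ := hm
      obtain ⟨a1, a2, a3⟩ := hS i hi
      have b1 := hi0 i hi
      unfold nz at a3
      rw [abs_le] at a3
      have c1 : 0 < W / (i : ℝ) := by positivity
      have c2 : W / (i : ℝ) ≤ C * W / n := by
        rw [div_le_iff₀ hC0] at a1
        rw [div_le_div_iff₀ b1 hn0]
        nlinarith
      rw [Finset.mem_Icc]
      constructor
      · have c3 : (-1 : ℝ) < (round (W / (i : ℝ)) : ℝ) := by linarith [a3.2]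
        have c4 : (-1 : ℤ) < round (W / (i : ℝ)) := by exact_mod_cast c3
        omega
      · rw [Int.le_floor]
        linarith [a3.1]
    have h5 := Finset.card_le_card h4
    rw [Int.card_Icc] at h5
    have h6 : (0 : ℤ) ≤ ⌊C * W / n + 1 / 2⌋ := by
      rw [Int.le_floor]
      push_cast
      positivity
    have h7 : ((⌊C * W / n + 1 / 2⌋ + 1 - 0).toNat : ℤ) = ⌊C * W / n + 1 / 2⌋ + 1 := by
      rw [Int.toNat_of_nonneg (by omega)]
      ring
    have h8 : (((S.image (fun i : ℕ => round (W / i))).card : ℤ) : ℝ) ≤ ((⌊C * W / n + 1 / 2⌋ + 1 : ℤ) : ℝ) := by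
      have h9 : (((S.image (fun i : ℕ => round (W / i))).card : ℕ) : ℤ) ≤ ⌊C * W / n + 1 / 2⌋ + 1 := by
        rw [← h7]
        exact_mod_cast h5
      exact_mod_cast h9
    push_cast at h8
    have h10 := Int.floor_le (C * W / n + 1 / 2)
    linarith
  rw [h1]
  refine (Finset.sum_le_sum h2).trans ?_
  rw [Finset.sum_const, nsmul_eq_mul]
  exact mul_le_mul_of_nonneg_right h3 (by linarith)

theorem osc (C : ℝ) (hC : 1 ≤ C) (n : ℕ) (W κ : ℝ) (hn : 1 ≤ n) (hW : W ≠ 0) (hκ : 0 ≤ κ) (hκ2 : κ ≤ 1 / 2) (S : Finset ℕ)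
    (hS : ∀ i ∈ S, (n : ℝ) / C ≤ i ∧ (i : ℝ) ≤ C * n ∧ nz (W / i) ≤ κ) :
    (S.card : ℝ) ≤ (C * |W| / n + 2) * (2 * κ * C ^ 2 * n ^ 2 / |W| + 1) := by
  refine Osc_pos C hC n |W| κ hn (abs_pos.2 hW) hκ hκ2 S fun i hi => ?_
  obtain ⟨a1, a2, a3⟩ := hS i hi
  refine ⟨a1, a2, ?_⟩
  rcases abs_choice W with h | h
  · rw [h]
    exact a3
  · rw [h, neg_div, Pool.Agent.H53.MID.nz_neg]
    exact a3

end Pool.Agent.H53.MDB

end

section

/-!
The combinatorial part: residues for the small, medium and large primes.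
-/

namespace Pool.Agent.H10.GoldLoc

open Finset

/-- The primes in `(a, b]`. -/
def PP (a b : ℕ) : Finset ℕ := (Ioc a b).filter Nat.Prime

lemma mem_PP {a b q : ℕ} : q ∈ PP a b ↔ a < q ∧ q ≤ b ∧ q.Prime := by
  unfold PP
  rw [mem_filter, mem_Ioc, and_assoc]

end Pool.Agent.H10.GoldLoc

end

section

/-!
Random sets in the Erdős discrepancy problem: common definitions.
-/

namespace Pool.Agent.H87D

open MeasureTheory ProbabilityTheory Filter Finset

/-- `n` is positive and all its prime factors are at most `y`. -/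
def Sm (y n : ℕ) : Prop := n ≠ 0 ∧ ∀ p : ℕ, p.Prime → p ∣ n → p ≤ y

end Pool.Agent.H87D

end

section

/-!
Upper bound for the number of `exp (mu L(n))`-smooth numbers `n` in short intervals.

PROOF PLAN.  First `z <= x` and `kap >= 0` (WLOG): put `Y = exp (mu L(2x))`.  An element `n ∈ (x, x+z]` with all prime
factors `<= Y` has a divisor `d ∈ (√x/Y, √x]` (maximal product of its primes that is `<= √x`), so the
count is at most `∑_{d ∈ (√x/Y, √x], d Y-smooth} (z/d + 1) <= 2 z ∑_{d > √x/Y, Y-smooth} 1/d`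
(`√x <= z` for large `x`, `exp_Lf_le_rpow`) `<= 2 z (√x/Y)^(-α) ∏_{p <= Y} (1 - p^(α-1))⁻¹` (Rankin;
Euler product over smooth numbers, or only finitely many `d`), with `α = log log x/(4 log Y)`, so
`Y^α = (log x)^(1/4)`.  The product is at most `exp (C Y^α ∑_{p <= Y} 1/p) <= exp (C' (log x)^(1/4)
log log x)` (`∑_{p <= Y} 1/p <= C log log Y`: dyadic blocks and Chebyshev) and
`(√x/Y)^α >= x^(α/4) = exp (log x log log x/(16 log Y)) >= exp (c'' L(x))`, since
`log Y = mu L(2x) <= 2 mu L(x)`.  For `z > x` add up dyadic blocks `(2^i x, 2^(i+1) x]` (`L` is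
monotone), decreasing `c`.
-/

namespace Pool.Agent.H87D

open Finset

open Pool.Agent.H10.GoldLoc (PP mem_PP)

/-- The Euler product bound. -/
theorem SmoothShort_euler (y : ℕ) (al : ℝ) (hal0 : 0 ≤ al) (hal : al ≤ 1 / 2) (D : Finset ℕ)
    (hD : ∀ d ∈ D, Sm y d) :
    ∑ d ∈ D, (d : ℝ) ^ (al - 1) ≤
      Real.exp (4 * ((y : ℝ) ^ al * ∑ p ∈ PP 0 y, (1 : ℝ) / p)) := by
  classical
  let f : ℕ →* ℝ :=
    { toFun := fun n => (n : ℝ) ^ (al - 1)
      map_one' := by simp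
      map_mul' := by
        intro a b
        push_cast
        exact Real.mul_rpow (Nat.cast_nonneg a) (Nat.cast_nonneg b) }
  have hfv : ∀ n : ℕ, f n = (n : ℝ) ^ (al - 1) := fun n => rfl
  have hf0 : ∀ n : ℕ, 0 ≤ f n := fun n => Real.rpow_nonneg (Nat.cast_nonneg n) _
  have hf34 : ∀ {p : ℕ}, p.Prime → f p ≤ 3 / 4 := by
    intro p hp
    rw [hfv]
    have h2p : (2 : ℝ) ≤ p := by exact_mod_cast hp.two_le
    have h1 : (p : ℝ) ^ (al - 1) ≤ (2 : ℝ) ^ (al - 1) :=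
      Real.rpow_le_rpow_of_nonpos (by norm_num) h2p (by linarith)
    have h2 : (2 : ℝ) ^ (al - 1) ≤ (2 : ℝ) ^ (-(1 / 2) : ℝ) :=
      Real.rpow_le_rpow_of_exponent_le (by norm_num) (by linarith)
    have h3 : (2 : ℝ) ^ (-(1 / 2) : ℝ) ≤ 3 / 4 := by
      rw [Real.rpow_neg (by norm_num), ← Real.sqrt_eq_rpow]
      have h4 : (4 : ℝ) / 3 ≤ Real.sqrt 2 := by
        apply Real.le_sqrt_of_sq_le
        norm_num
      rw [inv_le_comm₀ (by positivity) (by norm_num)]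
      linarith
    linarith
  have hf1 : ∀ {p : ℕ}, p.Prime → ‖f p‖ < 1 := by
    intro p hp
    rw [Real.norm_of_nonneg (hf0 p)]
    linarith [hf34 hp]
  obtain ⟨-, hsum⟩ :=
    EulerProduct.summable_and_hasSum_smoothNumbers_prod_primesBelow_geometric (f := f) hf1 (y + 1)
  have hPP : (y + 1).primesBelow = PP 0 y := by
    ext q
    rw [Nat.mem_primesBelow, mem_PP]
    constructor
    · rintro ⟨h1, h2⟩
      exact ⟨h2.pos, by omega, h2⟩
    · rintro ⟨h1, h2, h3⟩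
      exact ⟨by omega, h3⟩
  have hmem : ∀ d ∈ D, d ∈ (y + 1).smoothNumbers := by
    intro d hd
    rw [Nat.mem_smoothNumbers]
    refine ⟨(hD d hd).1, fun p hp => ?_⟩
    have h1 := Nat.prime_of_mem_primeFactorsList hp
    have h2 := Nat.dvd_of_mem_primeFactorsList hp
    have := (hD d hd).2 p h1 h2
    omega
  have h3 := sum_le_hasSum
    (D.attach.image (fun m => (⟨m.1, hmem m.1 m.2⟩ : (y + 1).smoothNumbers)))
    (fun m _ => hf0 m.1) hsum
  rw [Finset.sum_image (by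
    intro a _ b _ hab
    simp only [Subtype.mk.injEq] at hab
    exact Subtype.ext hab)] at h3
  have h4 : ∑ d ∈ D, (d : ℝ) ^ (al - 1) ≤ ∏ p ∈ (y + 1).primesBelow, (1 - f p)⁻¹ := by
    refine le_trans (le_of_eq ?_) h3
    rw [← Finset.sum_attach]
    rfl
  refine h4.trans ?_
  rw [hPP]
  have h5 : ∏ p ∈ PP 0 y, (1 - f p)⁻¹ ≤ ∏ p ∈ PP 0 y, Real.exp (4 * ((y : ℝ) ^ al * (1 / p))) := by
    refine Finset.prod_le_prod (fun p hp => ?_) (fun p hp => ?_)
    · have := hf34 (mem_PP.1 hp).2.2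
      exact inv_nonneg.2 (by linarith)
    · obtain ⟨hp1, hp2, hp3⟩ := mem_PP.1 hp
      have h34 := hf34 hp3
      have h0 := hf0 p
      have hp0 : (0 : ℝ) < p := by exact_mod_cast hp1
      have h6 : (1 - f p)⁻¹ ≤ 1 + 4 * f p := by
        rw [inv_le_comm₀ (by linarith) (by linarith), inv_le_iff_one_le_mul₀ (by linarith)]
        nlinarith
      have h7 : 1 + 4 * f p ≤ Real.exp (4 * f p) := by
        have := Real.add_one_le_exp (4 * f p)
        linarith
      have h8 : f p ≤ (y : ℝ) ^ al * (1 / p) := by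
        rw [hfv, Real.rpow_sub_one hp0.ne', mul_one_div]
        refine div_le_div_of_nonneg_right ?_ hp0.le
        exact Real.rpow_le_rpow hp0.le (by exact_mod_cast hp2) hal0
      have h9 : Real.exp (4 * f p) ≤ Real.exp (4 * ((y : ℝ) ^ al * (1 / p))) :=
        Real.exp_le_exp.2 (by linarith)
      linarith
  refine h5.trans (le_of_eq ?_)
  rw [← Real.exp_sum]
  congr 1
  rw [← Finset.mul_sum, ← Finset.mul_sum]

end Pool.Agent.H87D

end

section

/-!
A lower bound for Euler's function in terms of the number of prime factors, and a bound for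
that number.
-/

set_option autoImplicit false

namespace Pool.Agent.H92.EH

open Finset

theorem prod_one_sub_inv_ge (S : Finset ℕ) (hS : ∀ p ∈ S, 2 ≤ p) :
    (1 : ℝ) / (S.card + 1) ≤ ∏ p ∈ S, (1 - (p : ℝ)⁻¹) := by
  induction S using Finset.induction_on_max with
  | empty => simp
  | insert a s hmax ih =>
    have ha : a ∉ s := fun h => lt_irrefl _ (hmax a h)
    rw [prod_insert ha, card_insert_of_notMem ha]
    have h1 := ih (fun p hp => hS p (mem_insert_of_mem hp))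
    -- `a ≥ card s + 2`
    have h2 : s.card + 2 ≤ a := by
      have hsub : s ⊆ Ico 2 a := by
        intro p hp
        rw [mem_Ico]
        exact ⟨hS p (mem_insert_of_mem hp), hmax p hp⟩
      have h3 := card_le_card hsub
      rw [Nat.card_Ico] at h3
      have h4 := hS a (mem_insert_self _ _)
      omega
    have h2' : ((s.card : ℝ) + 2) ≤ a := by exact_mod_cast h2
    have hc : (0 : ℝ) ≤ s.card := by positivity
    have h5 : (1 : ℝ) - ((s.card : ℝ) + 2)⁻¹ ≤ 1 - (a : ℝ)⁻¹ := by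
      have : (a : ℝ)⁻¹ ≤ ((s.card : ℝ) + 2)⁻¹ := inv_anti₀ (by positivity) h2'
      linarith
    have h6 : (1 : ℝ) - ((s.card : ℝ) + 2)⁻¹ = ((s.card : ℝ) + 1) / (s.card + 2) := by
      field_simp
      ring
    have h7 : (0 : ℝ) ≤ ((s.card : ℝ) + 1) / (s.card + 2) := by positivity
    push_cast
    calc (1 : ℝ) / ((s.card : ℝ) + 1 + 1)
        = (((s.card : ℝ) + 1) / (s.card + 2)) * (1 / (s.card + 1)) := by
          field_simp
          ring
      _ ≤ (1 - (a : ℝ)⁻¹) * ∏ p ∈ s, (1 - (p : ℝ)⁻¹) := by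
          rw [← h6] at h7
          apply mul_le_mul (by rw [← h6]; exact h5) h1 (by positivity) (h7.trans h5)

theorem le_totient_mul (q : ℕ) :
    (q : ℝ) ≤ Nat.totient q * (q.primeFactors.card + 1) := by
  have h1 : (Nat.totient q : ℝ) = q * ∏ p ∈ q.primeFactors, (1 - (p : ℝ)⁻¹) := by
    have := Nat.totient_eq_mul_prod_factors q
    have h2 : ((Nat.totient q : ℚ) : ℝ) = ((q * ∏ p ∈ q.primeFactors, (1 - (p : ℚ)⁻¹) : ℚ) : ℝ) := by
      rw [this]
    push_cast at h2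
    exact h2
  have h3 := prod_one_sub_inv_ge q.primeFactors (fun p hp => (Nat.prime_of_mem_primeFactors hp).two_le)
  rw [h1]
  have hc : (0 : ℝ) < (q.primeFactors.card : ℝ) + 1 := by positivity
  rw [div_le_iff₀ hc] at h3
  have hq : (0 : ℝ) ≤ q := by positivity
  nlinarith

theorem card_primeFactors_le (q : ℕ) : q.primeFactors.card ≤ Nat.log 2 q := by
  rcases Nat.eq_zero_or_pos q with rfl | hq
  · simp
  · apply Nat.le_log_of_pow_le (by norm_num)
    calc 2 ^ q.primeFactors.card ≤ ∏ p ∈ q.primeFactors, p := by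
          rw [← prod_const]
          exact prod_le_prod' fun p hp => (Nat.prime_of_mem_primeFactors hp).two_le
      _ ≤ q := Nat.le_of_dvd hq (Nat.prod_primeFactors_dvd q)

end Pool.Agent.H92.EH

end

section

/-!
# PROJECT MU (MP_0575cc_nt): common definitions

THEOREM. There is `C` with `V(X;H) ≤ C H^2 (log log X/log H)^2` for all `X ≥ 16`, `3 ≤ H ≤ X`, where `V(X;H)` is the mean square of
`∑_{|n-x| < H/2} μ(n)` over `x ∈ [X, 2X]`.

`L = log x`, `ee(t) = exp(2 π i t)` (`Pool.Agent.H91.PK.ee`; `LSa_ee_add`, `LSa_norm_ee`, `LSa_conj_ee` in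
`H91/PK/LSa.lean`), `FF f N θ = ∑_{n ≤ N} f(n) ee(n θ)`, `pb P` = primes in `(P, 2P]`, `Rk P J k`: `k` has no prime factor in
`(P, P 2^J]`, `cor`, `ge` as in `H35/W/Defs.lean`.

* `lio n = (-1)^Ω(n)` (Liouville; `0` at `n = 0`);
* `Om P J n` = number of prime factors of `n` in `(P, P 2^J]` counted with multiplicity;
* `gl j P J n = lio n / (j + Om P J n)`;
* `SL j P J y t = ∑_{n ≤ y} gl j P J n · n^{2 π i t}`, `nrm B f = (∫_B |f|^2)^{1/2}`;
* `CorM` : the hypothesis of the part on exponential sums;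
* `VK1` : cancellation in `∑ Λ(n) n^{2 π i t}` (helper97).
-/

set_option autoImplicit false

namespace Pool.Agent.H76.MU

open Finset MeasureTheory

/-- logarithms are large -/
theorem log_ge (C : ℝ) : ∃ x0 : ℕ, ∀ x : ℕ, x0 ≤ x → C ≤ Real.log x := by
  have h := (Real.tendsto_log_atTop.comp (tendsto_natCast_atTop_atTop (R := ℝ))).eventually
    (Filter.eventually_ge_atTop C)
  exact Filter.eventually_atTop.1 h

end Pool.Agent.H76.MU

end
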