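import Pool.Agent.H43.PL.M03
import Pool.Agent.H43.PL.M06
import Pool.Agent.H43.PL.M08
import Pool.Agent.H43.PL.M11
import Pool.Agent.H43.PL.M12

/-! The parts of this file: H74.MDX.Ext, H74.MDX.Fib0, H74.MDX.FibA, H74.MDX.FibB, H74.MDX.CntS, H74.MDX.StepE, H53.MDB.SRes, H53.MDB.BoostL, H91.EHA.SwJ1, H91.EHA.SwJ3, H91.EHA.SwI. -/

section

/-!
# MDX Ext: the number of the one-step extensions of a set of walks

Proof of `ext_L`.  Map the filtered set to `S` by `Lw`; the fibre of `v` embeds (by the last step) into the set of the data `(p, g, q, i')` with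
`(v1 v, p, g) ∈ R`, `(i', q, g) ∈ R`: `p` takes at most `P` values (`P < p ≤ 2P`), then `g` at most `κ` (`hM.out`), `q` at most `P`, `i'` at most `κ`
(`hM.inn`).  `ext_R`: map by `Rw`; the fibre embeds into the data `(i, p, g, q)` with `(i, p, g) ∈ R`, `(v0 v, q, g) ∈ R`: `q` at most `P` values, `g` at most `κ`
(`hM.out`), `p` at most `P`, `i` at most `κ` (`hM.inn`).
-/

set_option autoImplicit false

namespace Pool.Agent.H74.MDX

open Finset

open Classical in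
/-- a set of triples whose `p`-fibres have at most `κ` elements -/
private theorem Ext_fib (R T : Finset (ℕ × ℕ × ℕ)) (κ : ℝ) (P : ℕ) (hM : Mul κ P R) (hT : T ⊆ R)
    (h : ∀ p : ℕ, ((T.filter (fun t => t.2.1 = p)).card : ℝ) ≤ κ) : (T.card : ℝ) ≤ κ * P := by
  have hmap : ∀ t ∈ T, t.2.1 ∈ Ioc P (2 * P) := by
    intro t ht
    have h1 := hM.prime t (hT ht)
    exact Finset.mem_Ioc.2 ⟨h1.2.1, h1.2.2⟩
  have hcard := Finset.card_eq_sum_card_fiberwise (f := fun t : ℕ × ℕ × ℕ => t.2.1) (s := T) (t := Ioc P (2 * P)) hmap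
  rw [hcard]
  push_cast
  calc ∑ p ∈ Ioc P (2 * P), ((T.filter (fun t => t.2.1 = p)).card : ℝ) ≤ ∑ p ∈ Ioc P (2 * P), κ :=
        Finset.sum_le_sum (fun p _ => h p)
    _ = κ * P := by
        rw [Finset.sum_const, Nat.card_Ioc, nsmul_eq_mul]
        have : 2 * P - P = P := by omega
        rw [this]
        ring

open Classical in
private theorem Ext_out (R : Finset (ℕ × ℕ × ℕ)) (κ : ℝ) (P : ℕ) (hM : Mul κ P R) (x : ℕ) :
    ((R.filter (fun t => t.1 = x)).card : ℝ) ≤ κ * P := by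
  refine Ext_fib R _ κ P hM (Finset.filter_subset _ _) (fun p => ?_)
  rw [Finset.filter_filter]
  have h1 := hM.out x p
  refine le_trans ?_ h1
  exact le_of_eq (by congr 2)

open Classical in
private theorem Ext_inn (R : Finset (ℕ × ℕ × ℕ)) (κ : ℝ) (P : ℕ) (hM : Mul κ P R) (g : ℕ) :
    ((R.filter (fun t => t.2.2 = g)).card : ℝ) ≤ κ * P := by
  refine Ext_fib R _ κ P hM (Finset.filter_subset _ _) (fun p => ?_)
  rw [Finset.filter_filter]
  have h1 := hM.inn g p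
  refine le_trans ?_ h1
  exact le_of_eq (by congr 2)

open Classical in
/-- the pairs of triples with the same `g` -/
private noncomputable def Ext_D (R : Finset (ℕ × ℕ × ℕ)) (x : ℕ) : Finset ((ℕ × ℕ × ℕ) × (ℕ × ℕ × ℕ)) :=
  (R ×ˢ R).filter (fun t => t.1.1 = x ∧ t.2.2.2 = t.1.2.2)

open Classical in
private theorem Ext_D_card (R : Finset (ℕ × ℕ × ℕ)) (κ : ℝ) (P : ℕ) (hM : Mul κ P R) (x : ℕ) :
    ((Ext_D R x).card : ℝ) ≤ (κ * P) ^ 2 := by
  have hκ : 0 ≤ κ * P := mul_nonneg (by linarith [hM.one]) (by positivity)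
  have hmap : ∀ t ∈ Ext_D R x, t.1 ∈ R.filter (fun t => t.1 = x) := by
    intro t ht
    unfold Ext_D at ht
    rw [Finset.mem_filter, Finset.mem_product] at ht
    exact Finset.mem_filter.2 ⟨ht.1.1, ht.2.1⟩
  have hcard := Finset.card_eq_sum_card_fiberwise (f := fun t : (ℕ × ℕ × ℕ) × (ℕ × ℕ × ℕ) => t.1) (s := Ext_D R x)
    (t := R.filter (fun t => t.1 = x)) hmap
  rw [hcard]
  push_cast
  have hfib : ∀ u ∈ R.filter (fun t => t.1 = x), (((Ext_D R x).filter (fun t => t.1 = u)).card : ℝ) ≤ κ * P := by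
    intro u _
    refine le_trans ?_ (Ext_inn R κ P hM u.2.2)
    have h1 : ((Ext_D R x).filter (fun t => t.1 = u)).card ≤ (R.filter (fun t => t.2.2 = u.2.2)).card := by
      refine Finset.card_le_card_of_injOn (fun t => t.2) ?_ ?_
      · intro t ht
        have ht' := Finset.mem_filter.1 (Finset.mem_coe.1 ht)
        have ht2 := ht'.1
        unfold Ext_D at ht2
        rw [Finset.mem_filter, Finset.mem_product] at ht2
        refine Finset.mem_coe.2 (Finset.mem_filter.2 ⟨ht2.1.2, ?_⟩)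
        rw [ht2.2.2, ht'.2]
      · intro t ht t' ht' h
        have h1 := (Finset.mem_filter.1 (Finset.mem_coe.1 ht)).2
        have h2 := (Finset.mem_filter.1 (Finset.mem_coe.1 ht')).2
        exact Prod.ext (h1.trans h2.symm) h
    exact_mod_cast h1
  calc ∑ u ∈ R.filter (fun t => t.1 = x), (((Ext_D R x).filter (fun t => t.1 = u)).card : ℝ)
      ≤ ∑ u ∈ R.filter (fun t => t.1 = x), κ * P := Finset.sum_le_sum hfib
    _ = (R.filter (fun t => t.1 = x)).card * (κ * P) := by rw [Finset.sum_const, nsmul_eq_mul]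
    _ ≤ (κ * P) * (κ * P) := mul_le_mul_of_nonneg_right (Ext_out R κ P hM x) hκ
    _ = (κ * P) ^ 2 := by ring

open Classical in
/-- the pairs of triples with the same `g`, second form -/
private noncomputable def Ext_E (R : Finset (ℕ × ℕ × ℕ)) (x : ℕ) : Finset ((ℕ × ℕ × ℕ) × (ℕ × ℕ × ℕ)) :=
  (R ×ˢ R).filter (fun t => t.2.1 = x ∧ t.1.2.2 = t.2.2.2)

open Classical in
private theorem Ext_E_card (R : Finset (ℕ × ℕ × ℕ)) (κ : ℝ) (P : ℕ) (hM : Mul κ P R) (x : ℕ) :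
    ((Ext_E R x).card : ℝ) ≤ (κ * P) ^ 2 := by
  refine le_trans ?_ (Ext_D_card R κ P hM x)
  have h1 : (Ext_E R x).card ≤ (Ext_D R x).card := by
    refine Finset.card_le_card_of_injOn Prod.swap ?_ ?_
    · intro t ht
      have ht' := Finset.mem_coe.1 ht
      unfold Ext_E at ht'
      rw [Finset.mem_filter, Finset.mem_product] at ht'
      refine Finset.mem_coe.2 ?_
      unfold Ext_D
      rw [Finset.mem_filter, Finset.mem_product]
      exact ⟨⟨ht'.1.2, ht'.1.1⟩, ht'.2⟩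
    · intro t _ t' _ h
      exact Prod.swap_injective h
  exact_mod_cast h1

open Classical in
theorem ext_L (R : Finset (ℕ × ℕ × ℕ)) (F : Finset ℕ) (κ : ℝ) (P j : ℕ) (hM : Mul κ P R) (S : Finset (Wk j)) :
    (((Om R F (j + 1)).filter (fun w => Lw w ∈ S)).card : ℝ) ≤ (κ * P) ^ 2 * S.card := by
  have hmap : ∀ w ∈ (Om R F (j + 1)).filter (fun w => Lw w ∈ S), Lw w ∈ S := fun w hw => (Finset.mem_filter.1 hw).2
  have hcard := Finset.card_eq_sum_card_fiberwise (f := fun w : Wk (j + 1) => Lw w)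
    (s := (Om R F (j + 1)).filter (fun w => Lw w ∈ S)) (t := S) hmap
  rw [hcard]
  push_cast
  have hfib : ∀ v ∈ S, ((((Om R F (j + 1)).filter (fun w => Lw w ∈ S)).filter (fun w => Lw w = v)).card : ℝ) ≤ (κ * P) ^ 2 := by
    intro v _
    refine le_trans ?_ (Ext_D_card R κ P hM (v1 v))
    have h1 : (((Om R F (j + 1)).filter (fun w => Lw w ∈ S)).filter (fun w => Lw w = v)).card ≤ (Ext_D R (v1 v)).card := by
      refine Finset.card_le_card_of_injOn (fun w : Wk (j + 1) => ((w.1 (Fin.last j).castSucc, (w.2 (Fin.last j)).1, (w.2 (Fin.last j)).2.1),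
        (w.1 (Fin.last j).succ, (w.2 (Fin.last j)).2.2, (w.2 (Fin.last j)).2.1))) ?_ ?_
      · intro w hw
        have hw1 := Finset.mem_filter.1 (Finset.mem_coe.1 hw)
        have hw2 := (Finset.mem_filter.1 hw1.1).1
        rw [mem_Om] at hw2
        refine Finset.mem_coe.2 ?_
        unfold Ext_D
        rw [Finset.mem_filter, Finset.mem_product]
        refine ⟨hw2.2.1 (Fin.last j), ?_, rfl⟩
        rw [← hw1.2]
        rfl
      · intro w hw w' hw' h
        have hw1 := (Finset.mem_filter.1 (Finset.mem_coe.1 hw)).2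
        have hw1' := (Finset.mem_filter.1 (Finset.mem_coe.1 hw')).2
        have hL : Lw w = Lw w' := hw1.trans hw1'.symm
        have hL1 : ∀ s : Fin (j + 1), w.1 s.castSucc = w'.1 s.castSucc := fun s => congrFun (congrArg Prod.fst hL) s
        have hL2 : ∀ s : Fin j, w.2 s.castSucc = w'.2 s.castSucc := fun s => congrFun (congrArg Prod.snd hL) s
        simp only [Prod.mk.injEq] at h
        obtain ⟨⟨_, ha, hb⟩, hc, hd, _⟩ := h
        refine Prod.ext ?_ ?_
        · funext s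
          refine Fin.lastCases ?_ (fun s => hL1 s) s
          exact hc
        · funext s
          refine Fin.lastCases ?_ (fun s => hL2 s) s
          exact Prod.ext ha (Prod.ext hb hd)
    exact_mod_cast h1
  calc ∑ v ∈ S, ((((Om R F (j + 1)).filter (fun w => Lw w ∈ S)).filter (fun w => Lw w = v)).card : ℝ)
      ≤ ∑ v ∈ S, (κ * P) ^ 2 := Finset.sum_le_sum hfib
    _ = (κ * P) ^ 2 * S.card := by rw [Finset.sum_const, nsmul_eq_mul, mul_comm]

open Classical in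
theorem ext_R (R : Finset (ℕ × ℕ × ℕ)) (F : Finset ℕ) (κ : ℝ) (P j : ℕ) (hM : Mul κ P R) (S : Finset (Wk j)) :
    (((Om R F (j + 1)).filter (fun w => Rw w ∈ S)).card : ℝ) ≤ (κ * P) ^ 2 * S.card := by
  have hmap : ∀ w ∈ (Om R F (j + 1)).filter (fun w => Rw w ∈ S), Rw w ∈ S := fun w hw => (Finset.mem_filter.1 hw).2
  have hcard := Finset.card_eq_sum_card_fiberwise (f := fun w : Wk (j + 1) => Rw w)
    (s := (Om R F (j + 1)).filter (fun w => Rw w ∈ S)) (t := S) hmap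
  rw [hcard]
  push_cast
  have hfib : ∀ v ∈ S, ((((Om R F (j + 1)).filter (fun w => Rw w ∈ S)).filter (fun w => Rw w = v)).card : ℝ) ≤ (κ * P) ^ 2 := by
    intro v _
    refine le_trans ?_ (Ext_E_card R κ P hM (v0 v))
    have h1 : (((Om R F (j + 1)).filter (fun w => Rw w ∈ S)).filter (fun w => Rw w = v)).card ≤ (Ext_E R (v0 v)).card := by
      refine Finset.card_le_card_of_injOn (fun w : Wk (j + 1) => ((w.1 (Fin.castSucc 0), (w.2 0).1, (w.2 0).2.1),
        (w.1 (Fin.succ 0), (w.2 0).2.2, (w.2 0).2.1))) ?_ ?_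
      · intro w hw
        have hw1 := Finset.mem_filter.1 (Finset.mem_coe.1 hw)
        have hw2 := (Finset.mem_filter.1 hw1.1).1
        rw [mem_Om] at hw2
        refine Finset.mem_coe.2 ?_
        unfold Ext_E
        rw [Finset.mem_filter, Finset.mem_product]
        refine ⟨hw2.2.1 0, ?_, rfl⟩
        rw [← hw1.2]
        rfl
      · intro w hw w' hw' h
        have hw1 := (Finset.mem_filter.1 (Finset.mem_coe.1 hw)).2
        have hw1' := (Finset.mem_filter.1 (Finset.mem_coe.1 hw')).2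
        have hL : Rw w = Rw w' := hw1.trans hw1'.symm
        have hL1 : ∀ s : Fin (j + 1), w.1 s.succ = w'.1 s.succ := fun s => congrFun (congrArg Prod.fst hL) s
        have hL2 : ∀ s : Fin j, w.2 s.succ = w'.2 s.succ := fun s => congrFun (congrArg Prod.snd hL) s
        simp only [Prod.mk.injEq] at h
        obtain ⟨⟨hc, ha, hb⟩, _, hd, _⟩ := h
        refine Prod.ext ?_ ?_
        · funext s
          refine Fin.cases ?_ (fun s => hL1 s) s
          exact hc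
        · funext s
          refine Fin.cases ?_ (fun s => hL2 s) s
          exact Prod.ext ha (Prod.ext hb hd)
    exact_mod_cast h1
  calc ∑ v ∈ S, ((((Om R F (j + 1)).filter (fun w => Rw w ∈ S)).filter (fun w => Rw w = v)).card : ℝ)
      ≤ ∑ v ∈ S, (κ * P) ^ 2 := Finset.sum_le_sum hfib
    _ = (κ * P) ^ 2 * S.card := by rw [Finset.sum_const, nsmul_eq_mul, mul_comm]

end Pool.Agent.H74.MDX

end

section

/-!
# MDX Fib0: walks with given first vertex and given primes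

Proof.  Induction on `j`.  `j = 0`: at most one walk.  `j → j+1`: map the set to the corresponding set for `j` (with `p ∘ castSucc`, `q ∘ castSucc`) by `Lw`; in the
fibre of `v` the last step `(p, g, q)` and the last vertex `i'` satisfy `(v1 v, p, g) ∈ R`, `(i', q, g) ∈ R` with given `p`, `q`: at most `κ` values of `g`
(`hM.out`) and then at most `κ` values of `i'` (`hM.inn`).  So the fibre has at most `κ^2` elements.
-/

set_option autoImplicit false

namespace Pool.Agent.H74.MDX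

open Finset

open Classical in
theorem walk_fib (R : Finset (ℕ × ℕ × ℕ)) (F : Finset ℕ) (κ : ℝ) (P j : ℕ) (hM : Mul κ P R) (i : ℕ) (p q : Fin j → ℕ) :
    (((Om R F j).filter (fun w => v0 w = i ∧ (∀ s, (w.2 s).1 = p s) ∧ ∀ s, (w.2 s).2.2 = q s)).card : ℝ) ≤ κ ^ (2 * j) := by
  induction j with
  | zero =>
    have h1 : ((Om R F 0).filter (fun w => v0 w = i ∧ (∀ s, (w.2 s).1 = p s) ∧ ∀ s, (w.2 s).2.2 = q s)).card ≤ 1 := by
      rw [Finset.card_le_one]
      intro w hw w' hw'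
      rw [Finset.mem_filter] at hw hw'
      apply Prod.ext
      · funext s
        have hs : s = 0 := Fin.fin_one_eq_zero s
        rw [hs]
        exact hw.2.1.trans hw'.2.1.symm
      · funext s
        exact Fin.elim0 s
    have h2 : (((Om R F 0).filter (fun w => v0 w = i ∧ (∀ s, (w.2 s).1 = p s) ∧ ∀ s, (w.2 s).2.2 = q s)).card : ℝ) ≤ 1 := by
      exact_mod_cast h1
    simpa using h2
  | succ j ih =>
    have hκ := hM.one
    have hih := ih (fun s => p s.castSucc) (fun s => q s.castSucc)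
    obtain ⟨S, hS⟩ : ∃ S : Finset (Wk (j + 1)), S = (Om R F (j + 1)).filter
      (fun w => v0 w = i ∧ (∀ s, (w.2 s).1 = p s) ∧ ∀ s, (w.2 s).2.2 = q s) := ⟨_, rfl⟩
    obtain ⟨T, hT⟩ : ∃ T : Finset (Wk j), T = (Om R F j).filter
      (fun w => v0 w = i ∧ (∀ s, (w.2 s).1 = p s.castSucc) ∧ ∀ s, (w.2 s).2.2 = q s.castSucc) := ⟨_, rfl⟩
    rw [← hS]
    rw [← hT] at hih
    have hmaps : ∀ w ∈ S, Lw w ∈ T := by
      intro w hw
      rw [hS, Finset.mem_filter] at hw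
      rw [hT, Finset.mem_filter]
      exact ⟨Lw_mem hw.1, hw.2.1, fun s => hw.2.2.1 s.castSucc, fun s => hw.2.2.2 s.castSucc⟩
    have hfib : ∀ v ∈ T, ((S.filter (fun w => Lw w = v)).card : ℝ) ≤ κ ^ 2 := by
      intro v _
      obtain ⟨A, hA⟩ : ∃ A : Finset (ℕ × ℕ × ℕ), A = R.filter (fun t => t.1 = v1 v ∧ t.2.1 = p (Fin.last j)) := ⟨_, rfl⟩
      obtain ⟨B, hB⟩ : ∃ B : (ℕ × ℕ × ℕ) → Finset (ℕ × ℕ × ℕ),
        B = fun u => R.filter (fun t => t.2.2 = u.2.2 ∧ t.2.1 = q (Fin.last j)) := ⟨_, rfl⟩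
      have h1 : (S.filter (fun w => Lw w = v)).card ≤ (A.sigma B).card := by
        apply Finset.card_le_card_of_injOn (fun w : Wk (j + 1) =>
          (⟨(w.1 (Fin.last j).castSucc, (w.2 (Fin.last j)).1, (w.2 (Fin.last j)).2.1),
            (w.1 (Fin.last j).succ, (w.2 (Fin.last j)).2.2, (w.2 (Fin.last j)).2.1)⟩ : Σ _ : ℕ × ℕ × ℕ, ℕ × ℕ × ℕ))
        · intro w hw
          rw [Finset.mem_coe, Finset.mem_filter, hS, Finset.mem_filter, mem_Om] at hw
          obtain ⟨⟨⟨_, hw1⟩, hw2, hw3, hw4⟩, hw5⟩ := hw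
          rw [Finset.mem_coe, Finset.mem_sigma, hA, hB, Finset.mem_filter, Finset.mem_filter]
          refine ⟨⟨(hw1.1 (Fin.last j)).1, ?_, hw3 _⟩, (hw1.1 (Fin.last j)).2, rfl, hw4 _⟩
          rw [← hw5]
          rfl
        · intro w hw w' hw' hww
          rw [Finset.mem_coe, Finset.mem_filter] at hw hw'
          have hL : Lw w = Lw w' := hw.2.trans hw'.2.symm
          have e1 : ∀ s : Fin (j + 1), w.1 s.castSucc = w'.1 s.castSucc := fun s => congrFun (congrArg Prod.fst hL) s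
          have e2 : ∀ s : Fin j, w.2 s.castSucc = w'.2 s.castSucc := fun s => congrFun (congrArg Prod.snd hL) s
          have e3 := congrArg Sigma.fst hww
          have e4 : (w.1 (Fin.last j).succ, (w.2 (Fin.last j)).2.2, (w.2 (Fin.last j)).2.1) =
            (w'.1 (Fin.last j).succ, (w'.2 (Fin.last j)).2.2, (w'.2 (Fin.last j)).2.1) := congrArg (fun z => z.2) hww
          simp only [Prod.mk.injEq] at e3 e4
          apply Prod.ext
          · funext s
            refine Fin.lastCases ?_ (fun s => e1 s) s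
            exact e4.1
          · funext s
            refine Fin.lastCases ?_ (fun s => e2 s) s
            exact Prod.ext e3.2.1 (Prod.ext e4.2.2 e4.2.1)
      have h2 : ((A.sigma B).card : ℝ) ≤ κ ^ 2 := by
        rw [Finset.card_sigma]
        push_cast
        have h3 : ∀ u ∈ A, ((B u).card : ℝ) ≤ κ := by
          intro u _
          rw [hB]
          exact hM.inn u.2.2 (q (Fin.last j))
        refine (Finset.sum_le_sum h3).trans ?_
        rw [Finset.sum_const, nsmul_eq_mul, pow_two]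
        apply mul_le_mul_of_nonneg_right _ (by linarith)
        rw [hA]
        exact hM.out (v1 v) (p (Fin.last j))
      have h3 : ((S.filter (fun w => Lw w = v)).card : ℝ) ≤ ((A.sigma B).card : ℝ) := by exact_mod_cast h1
      exact h3.trans h2
    have hcard : (S.card : ℝ) = ∑ v ∈ T, ((S.filter (fun w => Lw w = v)).card : ℝ) := by
      rw [Finset.card_eq_sum_card_fiberwise hmaps]
      push_cast
      rfl
    rw [hcard]
    refine (Finset.sum_le_sum hfib).trans ?_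
    rw [Finset.sum_const, nsmul_eq_mul]
    have h4 : κ ^ (2 * (j + 1)) = κ ^ (2 * j) * κ ^ 2 := by
      rw [← pow_add]
      congr 1
    rw [h4]
    exact mul_le_mul_of_nonneg_right hih (by positivity)

end Pool.Agent.H74.MDX

end

section

/-!
# MDX FibA: walks with `(qa w, v0 w) ∈ A`, `pa w ∈ B`

`ord_card`: the number of the sequences `p : Fin j → ℕ` of pairwise different primes with product `a` is at most `j!` (as members of any finset `T` of such
sequences).  Proof: if there is one, `p0`, then the set of the values is the same for all (the set of the prime factors of `a`: for a squarefree product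
`Nat.primeFactors` of the product, or unique factorisation), so `p ↦` the permutation `σ` with `p = p0 ∘ σ` is injective; `#Perm (Fin j) = j!`.  Alternatively induction on `j`:
`p (last)` is one of the at most `j` prime factors of `a`, the rest has product `a / p (last)`.
`fib_a`: map `w ↦ (v0 w, p-sequence, q-sequence)`; the fibres have at most `κ^(2j)` elements (`walk_fib`); the image is contained in the union over
`(a, i) ∈ A` and `b ∈ B` of the triples `(i, p, q)` with `q` a sequence of different primes with product `a` and `p` one with product `b` (`IsW` gives injectivity, `hM.prime` gives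
that they are primes): at most `(j!)^2` for each pair.
-/

set_option autoImplicit false

namespace Pool.Agent.H74.MDX

open Finset

theorem ord_card (j a : ℕ) (T : Finset (Fin j → ℕ)) (hT : ∀ p ∈ T, (∀ s, (p s).Prime) ∧ Function.Injective p ∧ ∏ s, p s = a) :
    T.card ≤ j.factorial := by
  classical
  rcases T.eq_empty_or_nonempty with h0 | ⟨p0, hp0⟩
  · rw [h0, Finset.card_empty]
    exact Nat.zero_le _
  · obtain ⟨h1, h2, h3⟩ := hT p0 hp0
    have hsub : T ⊆ (Finset.univ : Finset (Fin j ↪ Fin j)).image (fun σ => fun s => p0 (σ s)) := by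
      intro p hp
      obtain ⟨g1, g2, g3⟩ := hT p hp
      have hex : ∀ s, ∃ s', p s = p0 s' := by
        intro s
        have hd : p s ∣ ∏ s', p0 s' := by
          rw [h3, ← g3]
          exact Finset.dvd_prod_of_mem p (Finset.mem_univ s)
        obtain ⟨s', -, hs'⟩ := ((g1 s).prime.dvd_finsetProd_iff _).1 hd
        exact ⟨s', (Nat.prime_dvd_prime_iff_eq (g1 s) (h1 s')).1 hs'⟩
      choose σ hσ using hex
      have hinj : Function.Injective σ := by
        intro x y hxy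
        apply g2
        rw [hσ x, hσ y, hxy]
      rw [Finset.mem_image]
      exact ⟨⟨σ, hinj⟩, Finset.mem_univ _, funext fun s => (hσ s).symm⟩
    refine (Finset.card_le_card hsub).trans (Finset.card_image_le.trans ?_)
    rw [Finset.card_univ, Fintype.card_embedding_eq, Fintype.card_fin, Nat.descFactorial_self]

/-- the sequences of different primes with product `a` -/
private noncomputable def FibA_T (j a : ℕ) : Finset (Fin j → ℕ) := by
  classical
  exact (Fintype.piFinset fun _ : Fin j => a.primeFactors).filter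
    (fun p => (∀ s, (p s).Prime) ∧ Function.Injective p ∧ ∏ s, p s = a)

private theorem FibA_card (j a : ℕ) : (FibA_T j a).card ≤ j.factorial := by
  classical
  refine ord_card j a _ fun p hp => ?_
  unfold FibA_T at hp
  exact (Finset.mem_filter.1 hp).2

private theorem FibA_mem {j a : ℕ} {p : Fin j → ℕ} (h1 : ∀ s, (p s).Prime)
    (h2 : Function.Injective p) (h3 : ∏ s, p s = a) : p ∈ FibA_T j a := by
  classical
  unfold FibA_T
  rw [Finset.mem_filter, Fintype.mem_piFinset]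
  refine ⟨fun s => ?_, h1, h2, h3⟩
  rw [Nat.mem_primeFactors]
  refine ⟨h1 s, ?_, ?_⟩
  · rw [← h3]
    exact Finset.dvd_prod_of_mem p (Finset.mem_univ s)
  · rw [← h3]
    exact Finset.prod_ne_zero_iff.2 fun s _ => (h1 s).ne_zero

open Classical in
theorem fib_a (R : Finset (ℕ × ℕ × ℕ)) (F : Finset ℕ) (κ : ℝ) (P j : ℕ) (hM : Mul κ P R) (A : Finset (ℕ × ℕ)) (B : Finset ℕ) :
    (((Om R F j).filter (fun w => (qa w, v0 w) ∈ A ∧ pa w ∈ B)).card : ℝ) ≤
      κ ^ (2 * j) * (j.factorial : ℝ) ^ 2 * A.card * B.card := by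
  obtain ⟨S, hS⟩ : ∃ S, S = (Om R F j).filter (fun w => (qa w, v0 w) ∈ A ∧ pa w ∈ B) := ⟨_, rfl⟩
  rw [← hS]
  obtain ⟨φ, hφ⟩ : ∃ φ : Wk j → ℕ × (Fin j → ℕ) × (Fin j → ℕ),
    φ = fun w => (v0 w, (fun s => (w.2 s).1), fun s => (w.2 s).2.2) := ⟨_, rfl⟩
  have hκ : (0 : ℝ) ≤ κ ^ (2 * j) := pow_nonneg (by have := hM.one; linarith) _
  -- fibres
  have h1 : (S.card : ℝ) ≤ κ ^ (2 * j) * (S.image φ).card := by
    rw [Finset.card_eq_sum_card_image φ S]
    push_cast
    calc ∑ b ∈ S.image φ, ((S.filter (fun a => φ a = b)).card : ℝ)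
        ≤ ∑ _b ∈ S.image φ, κ ^ (2 * j) := by
          refine Finset.sum_le_sum fun b _ => ?_
          obtain ⟨i, p, q⟩ := b
          refine le_trans ?_ (walk_fib R F κ P j hM i p q)
          have hsub : S.filter (fun a => φ a = (i, p, q)) ⊆
              (Om R F j).filter (fun w => v0 w = i ∧ (∀ s, (w.2 s).1 = p s) ∧
                ∀ s, (w.2 s).2.2 = q s) := by
            intro w hw
            rw [Finset.mem_filter] at hw
            obtain ⟨g1, g2⟩ := hw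
            rw [hS, Finset.mem_filter] at g1
            rw [Finset.mem_filter]
            rw [hφ] at g2
            simp only [Prod.mk.injEq] at g2
            exact ⟨g1.1, g2.1, fun s => congrFun g2.2.1 s, fun s => congrFun g2.2.2 s⟩
          exact_mod_cast Finset.card_le_card hsub
      _ = κ ^ (2 * j) * (S.image φ).card := by
          rw [Finset.sum_const, nsmul_eq_mul, mul_comm]
  -- the image
  have h2 : (S.image φ).card ≤ (A ×ˢ B).card * (j.factorial * j.factorial) := by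
    have hsub : S.image φ ⊆ (A ×ˢ B).biUnion
        (fun t => ({t.1.2} : Finset ℕ) ×ˢ (FibA_T j t.2 ×ˢ FibA_T j t.1.1)) := by
      intro x hx
      rw [Finset.mem_image] at hx
      obtain ⟨w, hw, rfl⟩ := hx
      rw [hS, Finset.mem_filter, mem_Om] at hw
      obtain ⟨⟨g1, g2, g3⟩, g4, g5⟩ := hw
      rw [Finset.mem_biUnion]
      refine ⟨((qa w, v0 w), pa w), Finset.mem_product.2 ⟨g4, g5⟩, ?_⟩
      rw [hφ]
      simp only [Finset.mem_product, Finset.mem_singleton, true_and]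
      constructor
      · refine FibA_mem (fun s => (hM.prime _ (g2 s).1).1) (fun x y hxy => ?_) rfl
        have := g3 (a₁ := Sum.inl x) (a₂ := Sum.inl y) hxy
        exact Sum.inl_injective this
      · refine FibA_mem (fun s => (hM.prime _ (g2 s).2).1) (fun x y hxy => ?_) rfl
        have := g3 (a₁ := Sum.inr x) (a₂ := Sum.inr y) hxy
        exact Sum.inr_injective this
    refine (Finset.card_le_card hsub).trans (Finset.card_biUnion_le_card_mul _ _ _ fun t _ => ?_)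
    rw [Finset.card_product, Finset.card_product, Finset.card_singleton, one_mul]
    exact Nat.mul_le_mul (FibA_card _ _) (FibA_card _ _)
  have h3 : ((S.image φ).card : ℝ) ≤ (A.card : ℝ) * B.card * (j.factorial * j.factorial) := by
    rw [Finset.card_product] at h2
    exact_mod_cast h2
  refine h1.trans ((mul_le_mul_of_nonneg_left h3 hκ).trans (le_of_eq ?_))
  ring

end Pool.Agent.H74.MDX

end

section

/-!
# MDX FibB: walks with given first prime, last prime and position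

Proof.  Map `w ↦ (v0 w, p-sequence, q-sequence)`, fibres have at most `κ^(2(j+1))` elements (`walk_fib`).  In the image: the `q`-sequence is determined by
its first `j` members (each in `(P, 2P]`, at most `P^j` possibilities; the last one is `q`), the `p`-sequence by its last `j` members (`P^j` possibilities),
and given the `q`-sequence the first vertex satisfies `|v0 · a - X| ≤ c P^j` with `a = ∏_(s < j) q_s ≥ P^j`, so `|v0 - X/a| ≤ c`: at most `2c+1` values
(`int_card` in MulRel).  Total `κ^(2j+2) (2c+1) P^(2j)`.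
-/

set_option autoImplicit false

namespace Pool.Agent.H74.MDX

open Finset

private theorem FibB_rng {R : Finset (ℕ × ℕ × ℕ)} {F : Finset ℕ} {κ : ℝ} {P j : ℕ} (hM : Mul κ P R) {w : Wk j}
    (hw : w ∈ Om R F j) (s : Fin j) :
    (P < (w.2 s).1 ∧ (w.2 s).1 ≤ 2 * P) ∧ (P < (w.2 s).2.2 ∧ (w.2 s).2.2 ≤ 2 * P) := by
  have h := (mem_Om.1 hw).2.1 s
  exact ⟨(hM.prime _ h.1).2, (hM.prime _ h.2).2⟩

open Classical in
private theorem FibB_fiber (R : Finset (ℕ × ℕ × ℕ)) (F : Finset ℕ) (κ : ℝ) (P j : ℕ) (hM : Mul κ P R) (c X : ℝ) (hc : 0 ≤ c)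
    (p q : ℕ) (b : (Fin j → ℕ) × (Fin j → ℕ)) :
    ((((Om R F (j + 1)).filter (fun w => pf w = p ∧ ql w = q ∧
      |(v0 w : ℝ) * qa (Lw w) - X| ≤ c * (P : ℝ) ^ j)).filter
        (fun w => ((fun s : Fin j => (w.2 s.succ).1), (fun s : Fin j => (w.2 s.castSucc).2.2)) = b)).card : ℝ) ≤
      κ ^ (2 * j + 2) * (2 * c + 1) := by
  set U := (((Om R F (j + 1)).filter (fun w => pf w = p ∧ ql w = q ∧
      |(v0 w : ℝ) * qa (Lw w) - X| ≤ c * (P : ℝ) ^ j)).filter
        (fun w => ((fun s : Fin j => (w.2 s.succ).1), (fun s : Fin j => (w.2 s.castSucc).2.2)) = b)) with hU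
  have hκ : 0 ≤ κ := le_trans zero_le_one hM.one
  have hUm : ∀ w ∈ U, w ∈ Om R F (j + 1) ∧ pf w = p ∧ ql w = q ∧
      |(v0 w : ℝ) * qa (Lw w) - X| ≤ c * (P : ℝ) ^ j ∧ (∀ s : Fin j, (w.2 s.succ).1 = b.1 s) ∧
      (∀ s : Fin j, (w.2 s.castSucc).2.2 = b.2 s) := by
    intro w hw
    rw [hU, Finset.mem_filter, Finset.mem_filter] at hw
    obtain ⟨⟨h1, h2, h3, h4⟩, h5⟩ := hw
    refine ⟨h1, h2, h3, h4, fun s => ?_, fun s => ?_⟩
    · exact congrFun (congrArg Prod.fst h5) s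
    · exact congrFun (congrArg Prod.snd h5) s
  have himg : (((U.image v0).card : ℕ) : ℝ) ≤ 2 * c + 1 := by
    refine int_card _ (X / ((∏ s, b.2 s : ℕ) : ℝ)) c hc ?_
    intro k hk
    rw [Finset.mem_image] at hk
    obtain ⟨w, hw, rfl⟩ := hk
    obtain ⟨h1, -, -, h4, -, h6⟩ := hUm w hw
    have hqa : qa (Lw w) = ∏ s, b.2 s := by
      unfold qa Lw
      exact Finset.prod_congr rfl (fun s _ => h6 s)
    have hlow : P ^ j ≤ ∏ s, b.2 s := by
      have : ∏ _s : Fin j, P ≤ ∏ s, b.2 s := by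
        refine Finset.prod_le_prod' (fun s _ => ?_)
        rw [← h6 s]
        exact (FibB_rng hM h1 s.castSucc).2.1.le
      rwa [Finset.prod_const, Finset.card_univ, Fintype.card_fin] at this
    have hP0 : 0 < P ^ j := Nat.pow_pos hM.pos
    have ha0 : (0 : ℝ) < ((∏ s, b.2 s : ℕ) : ℝ) := by exact_mod_cast lt_of_lt_of_le hP0 hlow
    have hlow' : (P : ℝ) ^ j ≤ ((∏ s, b.2 s : ℕ) : ℝ) := by exact_mod_cast hlow
    rw [hqa] at h4
    have h7 : (v0 w : ℝ) - X / ((∏ s, b.2 s : ℕ) : ℝ) = ((v0 w : ℝ) * ((∏ s, b.2 s : ℕ) : ℝ) - X) / ((∏ s, b.2 s : ℕ) : ℝ) := by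
      field_simp
    rw [h7, abs_div, abs_of_pos ha0, div_le_iff₀ ha0]
    exact h4.trans (mul_le_mul_of_nonneg_left hlow' hc)
  have hsum : U.card = ∑ i ∈ U.image v0, (U.filter (fun w => v0 w = i)).card :=
    Finset.card_eq_sum_card_image v0 U
  rw [hsum]
  push_cast
  calc ∑ i ∈ U.image v0, ((U.filter (fun w => v0 w = i)).card : ℝ)
      ≤ ∑ i ∈ U.image v0, κ ^ (2 * (j + 1)) := by
        refine Finset.sum_le_sum (fun i _ => ?_)
        refine le_trans ?_ (walk_fib R F κ P (j + 1) hM i (Fin.cons p b.1) (Fin.snoc b.2 q))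
        refine Nat.cast_le.2 (Finset.card_le_card ?_)
        intro w hw
        rw [Finset.mem_filter] at hw
        obtain ⟨h1, h2, h3, -, h5, h6⟩ := hUm w hw.1
        rw [Finset.mem_filter]
        refine ⟨h1, hw.2, fun s => ?_, fun s => ?_⟩
        · refine Fin.cases ?_ (fun t => ?_) s
          · exact h2
          · exact h5 t
        · refine Fin.lastCases ?_ (fun t => ?_) s
          · rw [Fin.snoc_last]
            exact h3
          · rw [Fin.snoc_castSucc]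
            exact h6 t
    _ = ((U.image v0).card : ℝ) * κ ^ (2 * (j + 1)) := by
        rw [Finset.sum_const, nsmul_eq_mul]
    _ ≤ (2 * c + 1) * κ ^ (2 * (j + 1)) := mul_le_mul_of_nonneg_right himg (pow_nonneg hκ _)
    _ = κ ^ (2 * j + 2) * (2 * c + 1) := by
        rw [mul_comm, show 2 * (j + 1) = 2 * j + 2 by ring]

open Classical in
theorem fib_b (R : Finset (ℕ × ℕ × ℕ)) (F : Finset ℕ) (κ : ℝ) (P j : ℕ) (hM : Mul κ P R) (c X : ℝ) (hc : 0 ≤ c) (p q : ℕ) :
    (((Om R F (j + 1)).filter (fun w => pf w = p ∧ ql w = q ∧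
      |(v0 w : ℝ) * qa (Lw w) - X| ≤ c * (P : ℝ) ^ j)).card : ℝ) ≤ κ ^ (2 * j + 2) * (2 * c + 1) * (P : ℝ) ^ (2 * j) := by
  set T := (Om R F (j + 1)).filter (fun w => pf w = p ∧ ql w = q ∧
      |(v0 w : ℝ) * qa (Lw w) - X| ≤ c * (P : ℝ) ^ j) with hT
  let f : Wk (j + 1) → (Fin j → ℕ) × (Fin j → ℕ) :=
    fun w => ((fun s : Fin j => (w.2 s.succ).1), (fun s : Fin j => (w.2 s.castSucc).2.2))
  let PP : Finset (Fin j → ℕ) := Fintype.piFinset (fun _ => Ioc P (2 * P))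
  have hmap : ∀ w ∈ T, f w ∈ PP ×ˢ PP := by
    intro w hw
    rw [hT, Finset.mem_filter] at hw
    rw [Finset.mem_product]
    refine ⟨Fintype.mem_piFinset.2 (fun s => ?_), Fintype.mem_piFinset.2 (fun s => ?_)⟩
    · exact Finset.mem_Ioc.2 (FibB_rng hM hw.1 s.succ).1
    · exact Finset.mem_Ioc.2 (FibB_rng hM hw.1 s.castSucc).2
  have hcard : PP.card = P ^ j := by
    show (Fintype.piFinset (fun _ : Fin j => Ioc P (2 * P))).card = P ^ j
    rw [Fintype.card_piFinset, Finset.prod_const, Finset.card_univ, Fintype.card_fin, Nat.card_Ioc]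
    congr 1
    omega
  have hsum : T.card = ∑ b ∈ PP ×ˢ PP, (T.filter (fun w => f w = b)).card :=
    Finset.card_eq_sum_card_fiberwise hmap
  rw [hsum]
  push_cast
  calc ∑ b ∈ PP ×ˢ PP, ((T.filter (fun w => f w = b)).card : ℝ)
      ≤ ∑ b ∈ PP ×ˢ PP, κ ^ (2 * j + 2) * (2 * c + 1) :=
        Finset.sum_le_sum (fun b _ => FibB_fiber R F κ P j hM c X hc p q b)
    _ = κ ^ (2 * j + 2) * (2 * c + 1) * (P : ℝ) ^ (2 * j) := by
        rw [Finset.sum_const, nsmul_eq_mul, Finset.card_product, hcard]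
        push_cast
        ring

end Pool.Agent.H74.MDX

end

section

/-!
# MDX CntS: two counts of exceptional walks

`cntN`: `S ⊆ ⋃_{x ∈ Ms} ⋃_{f ∈ N x} {w : pf w = f.2.1, ql w = f.1.1, |v0 w qa (Lw w) - f.1.2.1 P^j| ≤ D P^j}` and each of these sets is bounded by `fib_b`.
`cntA`: `S ⊆ ⋃_{M ∈ Ms} ⋃_{γ ∈ Γ M, |DS (M, γ)| ≤ y} {w : (qa w, v0 w) ∈ DS (M, γ), pa w ∈ (DS (M, γ)).image fst}`; by `fib_a` each set has at most
`κ^(2j) (j!)^2 |DS|^2 ≤ κ^(2j) (j!)^2 y |DS|` elements; sum over `γ ∈ Γ M` with `hT`.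
-/

set_option autoImplicit false

namespace Pool.Agent.H74.MDX

open Finset

open Classical in
private theorem CntS_un {A B W : Type*} (Ms : Finset A) (N : A → Finset B) (T : A → B → Finset W) (S : Finset W) (f : A → B → ℝ)
    (Y : ℝ) (hS : ∀ w ∈ S, ∃ x ∈ Ms, ∃ b ∈ N x, w ∈ T x b) (hT : ∀ x b, ((T x b).card : ℝ) ≤ f x b)
    (hY : ∀ x ∈ Ms, ∑ b ∈ N x, f x b ≤ Y) : (S.card : ℝ) ≤ Ms.card * Y := by
  have h1 : S ⊆ Ms.biUnion (fun x => (N x).biUnion (fun b => T x b)) := by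
    intro w hw
    obtain ⟨x, hx, b, hb, h⟩ := hS w hw
    exact Finset.mem_biUnion.2 ⟨x, hx, Finset.mem_biUnion.2 ⟨b, hb, h⟩⟩
  have h2 : S.card ≤ ∑ x ∈ Ms, ∑ b ∈ N x, (T x b).card :=
    (Finset.card_le_card h1).trans (Finset.card_biUnion_le.trans
      (Finset.sum_le_sum fun x _ => Finset.card_biUnion_le))
  have h3 : (S.card : ℝ) ≤ ∑ x ∈ Ms, ∑ b ∈ N x, ((T x b).card : ℝ) := by exact_mod_cast h2
  refine h3.trans ?_
  calc ∑ x ∈ Ms, ∑ b ∈ N x, ((T x b).card : ℝ) ≤ ∑ x ∈ Ms, Y :=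
        Finset.sum_le_sum fun x hx => (Finset.sum_le_sum fun b _ => hT x b).trans (hY x hx)
    _ = Ms.card * Y := by rw [Finset.sum_const, nsmul_eq_mul]

theorem cntN (R : Finset (ℕ × ℕ × ℕ)) (F : Finset ℕ) (κ : ℝ) (P j : ℕ) (hM : Mul κ P R) (D B1 : ℝ) (hD : 0 ≤ D)
    (hB1 : 0 ≤ B1) (S : Finset (Wk (j + 1))) (hS : S ⊆ Om R F (j + 1)) (Ms : Finset ℕ) (M : Wk (j + 1) → ℕ)
    (hMs : ∀ w ∈ S, M w ∈ Ms) (N : ℕ → Finset ((ℕ × ℕ × ℝ) × (ℕ × ℕ × ℝ))) (hN : ∀ x ∈ Ms, ((N x).card : ℝ) ≤ B1)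
    (e : Wk (j + 1) → (ℕ × ℕ × ℝ) × (ℕ × ℕ × ℝ)) (he : ∀ w ∈ S, e w ∈ N (M w))
    (he1 : ∀ w ∈ S, (e w).1.1 = ql w ∧ (e w).2.1 = pf w)
    (hpos : ∀ w ∈ S, |(v0 w : ℝ) * qa (Lw w) - (e w).1.2.1 * (P : ℝ) ^ j| ≤ D * (P : ℝ) ^ j) :
    (S.card : ℝ) ≤ Ms.card * (B1 * (κ ^ (2 * j + 2) * (2 * D + 1) * (P : ℝ) ^ (2 * j))) := by
  classical
  have hκ : (0 : ℝ) ≤ κ := zero_le_one.trans hM.one
  have hZ : 0 ≤ κ ^ (2 * j + 2) * (2 * D + 1) * (P : ℝ) ^ (2 * j) := by positivity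
  refine CntS_un Ms N (fun _ f => (Om R F (j + 1)).filter (fun w => pf w = f.2.1 ∧ ql w = f.1.1 ∧
      |(v0 w : ℝ) * qa (Lw w) - (f.1.2.1 : ℝ) * (P : ℝ) ^ j| ≤ D * (P : ℝ) ^ j)) S
    (fun _ _ => κ ^ (2 * j + 2) * (2 * D + 1) * (P : ℝ) ^ (2 * j)) _ ?_ ?_ ?_
  · intro w hw
    refine ⟨M w, hMs w hw, e w, he w hw, Finset.mem_filter.2 ⟨hS hw, (he1 w hw).2.symm, (he1 w hw).1.symm, hpos w hw⟩⟩
  · intro x f
    exact fib_b R F κ P j hM D ((f.1.2.1 : ℝ) * (P : ℝ) ^ j) hD f.2.1 f.1.1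
  · intro x hx
    rw [Finset.sum_const, nsmul_eq_mul]
    exact mul_le_mul_of_nonneg_right (hN x hx) hZ

theorem cntA (R : Finset (ℕ × ℕ × ℕ)) (F : Finset ℕ) (α : ℕ → ℝ) (κ : ℝ) (P j : ℕ) (hM : Mul κ P R) (D τ y T : ℝ)
    (hy0 : 0 ≤ y) (S : Finset (Wk j)) (hS : S ⊆ Om R F j) (Ms : Finset ℕ) (Γ : ℕ → Finset ℝ) (c : Wk j → ℕ × ℝ)
    (hc : ∀ w ∈ S, (c w).1 ∈ Ms ∧ (c w).2 ∈ Γ (c w).1)
    (h0 : ∀ w ∈ S, (qa w, v0 w) ∈ DS P j D τ F α (c w)) (h1 : ∀ w ∈ S, (pa w, v1 w) ∈ DS P j D τ F α (c w))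
    (hy : ∀ w ∈ S, ((DS P j D τ F α (c w)).card : ℝ) ≤ y)
    (hT : ∀ M ∈ Ms, ∑ γ ∈ Γ M, ((DS P j D τ F α (M, γ)).card : ℝ) ≤ T) :
    (S.card : ℝ) ≤ κ ^ (2 * j) * (j.factorial : ℝ) ^ 2 * Ms.card * y * T := by
  classical
  have hκ : (0 : ℝ) ≤ κ := zero_le_one.trans hM.one
  set Z : ℝ := κ ^ (2 * j) * (j.factorial : ℝ) ^ 2 with hZ
  have hZ0 : 0 ≤ Z := by positivity
  have key := CntS_un Ms (fun x => (Γ x).filter (fun γ => ((DS P j D τ F α (x, γ)).card : ℝ) ≤ y))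
    (fun x γ => (Om R F j).filter (fun w => (qa w, v0 w) ∈ DS P j D τ F α (x, γ) ∧
      pa w ∈ (DS P j D τ F α (x, γ)).image Prod.fst)) S
    (fun x γ => Z * ((DS P j D τ F α (x, γ)).card : ℝ) * ((DS P j D τ F α (x, γ)).card : ℝ)) (Z * y * T) ?_ ?_ ?_
  · refine key.trans (le_of_eq ?_)
    ring
  · intro w hw
    refine ⟨(c w).1, (hc w hw).1, (c w).2, Finset.mem_filter.2 ⟨(hc w hw).2, hy w hw⟩,
      Finset.mem_filter.2 ⟨hS hw, h0 w hw, Finset.mem_image.2 ⟨_, h1 w hw, rfl⟩⟩⟩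
  · intro x γ
    refine (fib_a R F κ P j hM (DS P j D τ F α (x, γ)) ((DS P j D τ F α (x, γ)).image Prod.fst)).trans ?_
    refine mul_le_mul_of_nonneg_left ?_ (by positivity)
    exact_mod_cast Finset.card_image_le
  · intro x hx
    have a1 : ∑ γ ∈ (Γ x).filter (fun γ => ((DS P j D τ F α (x, γ)).card : ℝ) ≤ y),
        Z * ((DS P j D τ F α (x, γ)).card : ℝ) * ((DS P j D τ F α (x, γ)).card : ℝ) ≤
        ∑ γ ∈ (Γ x).filter (fun γ => ((DS P j D τ F α (x, γ)).card : ℝ) ≤ y),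
        Z * y * ((DS P j D τ F α (x, γ)).card : ℝ) := by
      refine Finset.sum_le_sum fun γ hγ => ?_
      refine mul_le_mul_of_nonneg_right ?_ (Nat.cast_nonneg _)
      exact mul_le_mul_of_nonneg_left (Finset.mem_filter.1 hγ).2 hZ0
    refine a1.trans ?_
    rw [← Finset.mul_sum]
    refine mul_le_mul_of_nonneg_left ?_ (by positivity)
    refine le_trans ?_ (hT x hx)
    exact Finset.sum_le_sum_of_subset_of_nonneg (Finset.filter_subset _ _) (fun _ _ _ => Nat.cast_nonneg _)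

end Pool.Agent.H74.MDX

end

section

/-!
# MDX StepE: the edge of a walk, and its position

`geo`: `M = ⌊G0 p q/P^2⌋`: `|G0 p q - M P^2| ≤ P^2`, and `(K1 q - M P) P = -(G0 p - K1 P) q + (G0 p q - M P^2)`, so `|K1 q - M P| ≤ 2 c P + P`; the same for `K2 p`;
`p q ≥ P^2` and `p q ≤ 4 P^2` give `G0 ≤ M ≤ 4 G0`.
`step_edge`: for `w` with `Lw w, Rw w ∈ G` choose `(G0, g)` from `link` and put `M w = G0 pf w ql w/P^2`.  `EX` membership (`mem_EX`, `mem_VX`): `ql w`, `pf w` are primes in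
`(P, 2P]` (`Mul.prime`, `mem_Om`), `pf w ≠ ql w` (`pf_ne_ql`), `c (Lw w), c (Rw w) ∈ V`, and
`nz (pf w k1 - ql w k2) ≤ nz (pf w k1 - g) + nz (g - ql w k2) ≤ 2 η_j`.
`step_mem`: `(qa w, v0 w)`: `qa w = qa (Lw w) ql w`, apply `DS_step` to `(qa (Lw w), v0 (Lw w)) ∈ DS (c (Lw w))` with `p = ql w`; `(pa w, v1 w)`: `pa w = pf w pa (Rw w)`,
`DS_step` with `(pa (Rw w), v1 (Rw w)) ∈ DS (c (Rw w))`; then `DS_mono`: `2 C 5^j + 2 C 3^j + 1 ≤ C 5^(j+1)`, `(2P)^j 2^(j+5) X η/P^j + X η = (2^(2j+5) + 1) X η ≤ 2^(2j+6) X η`,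
`(j+1)^2 + 5(j+1) = j^2 + 5j + 2j + 6`.
-/

set_option autoImplicit false

namespace Pool.Agent.H74.MDX

open Finset
open Pool.Agent.H53.MID (nz Rel Desc)

private theorem StepE_div {P X M : ℝ} (hP : 0 < P) (h : |X * P| ≤ M * P * P) : |X| ≤ M * P := by
  rw [abs_mul, abs_of_pos hP] at h
  exact le_of_mul_le_mul_right h hP

theorem geo (P G0 K1 K2 p q : ℕ) (c : ℝ) (hP : 1 ≤ P) (hc : 0 ≤ c) (hp : P < p ∧ p ≤ 2 * P) (hq : P < q ∧ q ≤ 2 * P)
    (h1 : |(G0 : ℝ) * p - K1 * P| ≤ c * P) (h2 : |(G0 : ℝ) * q - K2 * P| ≤ c * P) :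
    |(K1 : ℝ) * q - (G0 * p * q / P ^ 2 : ℕ) * P| ≤ (2 * c + 1) * P ∧
      |(K2 : ℝ) * p - (G0 * p * q / P ^ 2 : ℕ) * P| ≤ (2 * c + 1) * P ∧ G0 ≤ G0 * p * q / P ^ 2 ∧
      G0 * p * q / P ^ 2 ≤ 4 * G0 := by
  have hP2 : 0 < P ^ 2 := by positivity
  have hPR : (1 : ℝ) ≤ (P : ℝ) := by exact_mod_cast hP
  have hP0 : (0 : ℝ) < (P : ℝ) := by linarith
  have hp2 : (p : ℝ) ≤ 2 * P := by exact_mod_cast hp.2
  have hq2 : (q : ℝ) ≤ 2 * P := by exact_mod_cast hq.2
  have hp0 : (0 : ℝ) ≤ (p : ℝ) := Nat.cast_nonneg p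
  have hq0 : (0 : ℝ) ≤ (q : ℝ) := Nat.cast_nonneg q
  have hdm : P ^ 2 * (G0 * p * q / P ^ 2) + (G0 * p * q) % P ^ 2 = G0 * p * q := Nat.div_add_mod _ _
  have hmod : (G0 * p * q) % P ^ 2 < P ^ 2 := Nat.mod_lt _ hP2
  set M : ℕ := G0 * p * q / P ^ 2 with hM
  set r : ℕ := (G0 * p * q) % P ^ 2 with hr
  have hdm' : (P : ℝ) ^ 2 * (M : ℝ) + (r : ℝ) = (G0 : ℝ) * p * q := by exact_mod_cast hdm
  have hr1 : (r : ℝ) ≤ (P : ℝ) ^ 2 := by exact_mod_cast hmod.le
  have hr0 : (0 : ℝ) ≤ (r : ℝ) := Nat.cast_nonneg r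
  refine ⟨?_, ?_, ?_, ?_⟩
  · have h3 : ((K1 : ℝ) * q - M * P) * P = -(((G0 : ℝ) * p - K1 * P) * q) + r := by
      have h4 : (r : ℝ) = (G0 : ℝ) * p * q - (P : ℝ) ^ 2 * M := by linarith
      rw [h4]
      ring
    have h5 : |((K1 : ℝ) * q - M * P) * P| ≤ (2 * c + 1) * P * P := by
      rw [h3]
      have h6 : |((G0 : ℝ) * p - K1 * P) * q| ≤ c * P * (2 * P) := by
        rw [abs_mul, abs_of_nonneg hq0]
        exact mul_le_mul h1 hq2 hq0 (by positivity)
      have h7 : |(r : ℝ)| ≤ (P : ℝ) ^ 2 := by rw [abs_of_nonneg hr0]; exact hr1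
      have h8 := abs_add_le (-(((G0 : ℝ) * p - K1 * P) * q)) (r : ℝ)
      rw [abs_neg] at h8
      nlinarith
    exact StepE_div hP0 h5
  · have h3 : ((K2 : ℝ) * p - M * P) * P = -(((G0 : ℝ) * q - K2 * P) * p) + r := by
      have h4 : (r : ℝ) = (G0 : ℝ) * p * q - (P : ℝ) ^ 2 * M := by linarith
      rw [h4]
      ring
    have h5 : |((K2 : ℝ) * p - M * P) * P| ≤ (2 * c + 1) * P * P := by
      rw [h3]
      have h6 : |((G0 : ℝ) * q - K2 * P) * p| ≤ c * P * (2 * P) := by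
        rw [abs_mul, abs_of_nonneg hp0]
        exact mul_le_mul h2 hp2 hp0 (by positivity)
      have h7 : |(r : ℝ)| ≤ (P : ℝ) ^ 2 := by rw [abs_of_nonneg hr0]; exact hr1
      have h8 := abs_add_le (-(((G0 : ℝ) * q - K2 * P) * p)) (r : ℝ)
      rw [abs_neg] at h8
      nlinarith
    exact StepE_div hP0 h5
  · rw [hM, Nat.le_div_iff_mul_le hP2]
    have h3 : P * P ≤ p * q := Nat.mul_le_mul hp.1.le hq.1.le
    calc G0 * P ^ 2 = G0 * (P * P) := by ring
      _ ≤ G0 * (p * q) := Nat.mul_le_mul_left _ h3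
      _ = G0 * p * q := by ring
  · rw [hM]
    apply Nat.div_le_of_le_mul
    have h3 : p * q ≤ (2 * P) * (2 * P) := Nat.mul_le_mul hp.2 hq.2
    calc G0 * p * q = G0 * (p * q) := by ring
      _ ≤ G0 * ((2 * P) * (2 * P)) := Nat.mul_le_mul_left _ h3
      _ = P ^ 2 * (4 * G0) := by ring

private theorem StepE_pf {κ : ℝ} {j P : ℕ} {F : Finset ℕ} {R : Finset (ℕ × ℕ × ℕ)} (hM : Mul κ P R) {w : Wk (j + 1)}
    (hw : w ∈ Om R F (j + 1)) : (pf w).Prime ∧ P < pf w ∧ pf w ≤ 2 * P :=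
  hM.prime _ ((mem_Om.1 hw).2.1 0).1

private theorem StepE_ql {κ : ℝ} {j P : ℕ} {F : Finset ℕ} {R : Finset (ℕ × ℕ × ℕ)} (hM : Mul κ P R) {w : Wk (j + 1)}
    (hw : w ∈ Om R F (j + 1)) : (ql w).Prime ∧ P < ql w ∧ ql w ≤ 2 * P :=
  hM.prime _ ((mem_Om.1 hw).2.1 (Fin.last j)).2

theorem step_edge (C B ε η : ℝ) (n P j : ℕ) (F : Finset ℕ) (α : ℕ → ℝ) (R : Finset (ℕ × ℕ × ℕ)) (hC : 1 ≤ C)
    (hM : Mul (2 * C + 1) P R) (V : Finset (ℕ × ℝ)) (G : Finset (Wk j)) (c : Wk j → ℕ × ℝ)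
    (hL : Lvl C B ε η n P F α R j V G c) :
    ∃ M : Wk (j + 1) → ℕ, ∀ w ∈ Om R F (j + 1), Lw w ∈ G → Rw w ∈ G → (n : ℝ) / C ≤ M w ∧
      (M w : ℝ) ≤ 4 ^ (j + 1) * C * n ∧ (((ql w, c (Lw w)), (pf w, c (Rw w))) : (ℕ × ℕ × ℝ) × (ℕ × ℕ × ℝ)) ∈
        EX (2 * (C * 3 ^ j) + 1) P (2 ^ (j ^ 2 + 5 * j) * η * P / (P : ℝ) ^ j) V (M w) := by
  have key : ∀ w : Wk (j + 1), ∃ m : ℕ, w ∈ Om R F (j + 1) → Lw w ∈ G → Rw w ∈ G → (n : ℝ) / C ≤ m ∧
      (m : ℝ) ≤ 4 ^ (j + 1) * C * n ∧ (((ql w, c (Lw w)), (pf w, c (Rw w))) : (ℕ × ℕ × ℝ) × (ℕ × ℕ × ℝ)) ∈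
        EX (2 * (C * 3 ^ j) + 1) P (2 ^ (j ^ 2 + 5 * j) * η * P / (P : ℝ) ^ j) V m := by
    intro w
    by_cases hw : w ∈ Om R F (j + 1) ∧ Lw w ∈ G ∧ Rw w ∈ G
    · obtain ⟨hw1, hw2, hw3⟩ := hw
      obtain ⟨G0, g, hg1, hg2, hg3, hg4, hg5, hg6⟩ := hL.link w hw1 hw2 hw3
      obtain ⟨hpp, hp1, hp2⟩ := StepE_pf hM hw1
      obtain ⟨hqp, hq1, hq2⟩ := StepE_ql hM hw1
      obtain ⟨k1, k2, k3, k4⟩ := geo P G0 (c (Lw w)).1 (c (Rw w)).1 (pf w) (ql w) (C * 3 ^ j) hM.pos (by positivity)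
        ⟨hp1, hp2⟩ ⟨hq1, hq2⟩ hg3 hg4
      refine ⟨G0 * pf w * ql w / P ^ 2, fun _ _ _ => ⟨?_, ?_, ?_⟩⟩
      · have h1 : (G0 : ℝ) ≤ ((G0 * pf w * ql w / P ^ 2 : ℕ) : ℝ) := by exact_mod_cast k3
        linarith
      · have h1 : ((G0 * pf w * ql w / P ^ 2 : ℕ) : ℝ) ≤ 4 * (G0 : ℝ) := by exact_mod_cast k4
        have h2 : (4 : ℝ) ^ (j + 1) = 4 ^ j * 4 := pow_succ _ _
        rw [h2]
        linarith
      · rw [mem_EX]
        refine ⟨?_, ?_, ?_, ?_⟩
        · rw [mem_VX]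
          exact ⟨⟨hq1, hq2⟩, hqp, hL.col _ hw2, k1⟩
        · rw [mem_VX]
          exact ⟨⟨hp1, hp2⟩, hpp, hL.col _ hw3, k2⟩
        · exact fun h => pf_ne_ql hw1 h.symm
        · change nz ((pf w : ℝ) * (c (Lw w)).2 - ql w * (c (Rw w)).2) ≤ _
          have h1 : (pf w : ℝ) * (c (Lw w)).2 - ql w * (c (Rw w)).2 =
              ((pf w : ℝ) * (c (Lw w)).2 - g) + -(ql w * (c (Rw w)).2 - g) := by ring
          rw [h1]
          have h2 := Pool.Agent.H53.MID.nz_add ((pf w : ℝ) * (c (Lw w)).2 - g) (-(ql w * (c (Rw w)).2 - g))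
          rw [Pool.Agent.H53.MID.nz_neg] at h2
          linarith
    · refine ⟨0, fun h1 h2 h3 => absurd ⟨h1, h2, h3⟩ hw⟩
  choose M hM' using key
  exact ⟨M, hM'⟩

private theorem StepE_D (C : ℝ) (j : ℕ) (hC : 1 ≤ C) :
    2 * (C * 5 ^ j) + (2 * (C * 3 ^ j) + 1) ≤ C * 5 ^ (j + 1) := by
  have h1 : (3 : ℝ) ^ j ≤ 5 ^ j := pow_le_pow_left₀ (by norm_num) (by norm_num) j
  have h2 : (1 : ℝ) ≤ 5 ^ j := one_le_pow₀ (by norm_num)
  have h3 : C * 3 ^ j ≤ C * 5 ^ j := mul_le_mul_of_nonneg_left h1 (by linarith)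
  have h4 : 1 ≤ C * 5 ^ j := by nlinarith
  rw [pow_succ]
  linarith

private theorem StepE_tau (η : ℝ) (P j : ℕ) (hη : 0 < η) (hP : 1 ≤ P) :
    (2 * (P : ℝ)) ^ j * (2 ^ (j + 5) * (2 ^ (j ^ 2 + 5 * j) * η) / (P : ℝ) ^ j) + 2 ^ (j ^ 2 + 5 * j) * η ≤
      2 ^ ((j + 1) ^ 2 + 5 * (j + 1)) * η := by
  have hP0 : (0 : ℝ) < (P : ℝ) := by exact_mod_cast hP
  have hPj : (P : ℝ) ^ j ≠ 0 := by positivity
  have h1 : (2 * (P : ℝ)) ^ j * (2 ^ (j + 5) * (2 ^ (j ^ 2 + 5 * j) * η) / (P : ℝ) ^ j) =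
      2 ^ (2 * j + 5) * (2 ^ (j ^ 2 + 5 * j) * η) := by
    rw [mul_pow, show 2 * j + 5 = j + (j + 5) by ring, pow_add 2 j (j + 5)]
    field_simp
  rw [h1]
  have h2 : (2 : ℝ) ^ ((j + 1) ^ 2 + 5 * (j + 1)) = 2 ^ (2 * j + 5) * 2 * 2 ^ (j ^ 2 + 5 * j) := by
    rw [← pow_succ, ← pow_add]
    congr 1
    ring
  rw [h2]
  have h3 : 0 < (2 : ℝ) ^ (j ^ 2 + 5 * j) * η := by positivity
  have h4 : (1 : ℝ) ≤ 2 ^ (2 * j + 5) := one_le_pow₀ (by norm_num)
  nlinarith

theorem step_mem (C B ε η : ℝ) (n P j : ℕ) (F : Finset ℕ) (α : ℕ → ℝ) (R : Finset (ℕ × ℕ × ℕ)) (hC : 1 ≤ C) (hη : 0 < η)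
    (hM : Mul (2 * C + 1) P R) (V : Finset (ℕ × ℝ)) (G : Finset (Wk j)) (c : Wk j → ℕ × ℝ)
    (hL : Lvl C B ε η n P F α R j V G c) (w : Wk (j + 1)) (h1 : Lw w ∈ G) (h2 : Rw w ∈ G) (M : ℕ)
    (hE : (((ql w, c (Lw w)), (pf w, c (Rw w))) : (ℕ × ℕ × ℝ) × (ℕ × ℕ × ℝ)) ∈
        EX (2 * (C * 3 ^ j) + 1) P (2 ^ (j ^ 2 + 5 * j) * η * P / (P : ℝ) ^ j) V M) (γ : ℝ)
    (h3 : nz (ql w * γ - (c (Lw w)).2) ≤ 2 ^ (j + 5) * (2 ^ (j ^ 2 + 5 * j) * η) / (P : ℝ) ^ j)
    (h4 : nz (pf w * γ - (c (Rw w)).2) ≤ 2 ^ (j + 5) * (2 ^ (j ^ 2 + 5 * j) * η) / (P : ℝ) ^ j) :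
    (qa w, v0 w) ∈ DS P (j + 1) (C * 5 ^ (j + 1)) (2 ^ ((j + 1) ^ 2 + 5 * (j + 1)) * η) F α (M, γ) ∧
      (pa w, v1 w) ∈ DS P (j + 1) (C * 5 ^ (j + 1)) (2 ^ ((j + 1) ^ 2 + 5 * (j + 1)) * η) F α (M, γ) := by
  rw [mem_EX] at hE
  obtain ⟨hE1, hE2, -, -⟩ := hE
  rw [mem_VX] at hE1 hE2
  obtain ⟨hq, hqp, -, hqK⟩ := hE1
  obtain ⟨hp, hpp, -, hpK⟩ := hE2
  have hC0 : 0 ≤ C := by linarith
  have hD := StepE_D C j hC
  have hτ := StepE_tau η P j hη hM.pos
  constructor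
  · have h5 := DS_step P j (2 * (C * 3 ^ j) + 1) (C * 5 ^ j) (2 ^ (j ^ 2 + 5 * j) * η)
      (2 ^ (j + 5) * (2 ^ (j ^ 2 + 5 * j) * η) / (P : ℝ) ^ j) F α (c (Lw w)).1 M (ql w) (c (Lw w)).2 γ hqp hq hqK h3
      (by positivity) (by positivity) (qa (Lw w), v0 (Lw w)) (hL.mem0 _ h1)
    have h6 := DS_mono P (j + 1) _ _ _ _ F α (M, γ) hD hτ h5
    have h7 : qa w = ql w * qa (Lw w) := by rw [qa_eq, mul_comm]
    rw [h7]
    exact h6
  · have h5 := DS_step P j (2 * (C * 3 ^ j) + 1) (C * 5 ^ j) (2 ^ (j ^ 2 + 5 * j) * η)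
      (2 ^ (j + 5) * (2 ^ (j ^ 2 + 5 * j) * η) / (P : ℝ) ^ j) F α (c (Rw w)).1 M (pf w) (c (Rw w)).2 γ hpp hp hpK h4
      (by positivity) (by positivity) (pa (Rw w), v1 (Rw w)) (hL.mem1 _ h2)
    have h6 := DS_mono P (j + 1) _ _ _ _ F α (M, γ) hD hτ h5
    rw [pa_eq]
    exact h6

end Pool.Agent.H74.MDX

end

section

/-!
# MDB SRes: integers in residue classes

`sres_triv`: the number of `m ∈ (P, 2P]` in a residue class mod `δ` is `≤ P/δ + 1`.
`sres_vk`: `r0 = r % δ`, `m = r0 + δ q`: `P < m ≤ 2P` iff `q ∈ Ioc a b`, `a = (P - r0)/δ`, `b = (2P - r0)/δ` (natural numbers, `r0 < δ ≤ P`).  `log m = log δ + log (q + r0/δ)`, so (norms) `|sres| = |∑_{q ∈ Ioc a b} ee(-t log(q + r0/δ))|`.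
`VKe t0` at `x = 2N`, `K = 2P/δ` (natural division; `b ≤ K ≤ 2N`, `K ≥ P/δ ≥ exp(L^t - L^t2) ≥ exp((log 2N)^t0)` for large `N` as `t0 < t`, `t2 < t`; `|t| ≤ N ≤ x^3`; `β = r0/δ`), with the exponent `A + 1`:
`≤ K (100/|t| + 1/(log x)^(A+1)) ≤ (2P/δ)(100/L^(A+1) + 1/L^(A+1)) ≤ (P/δ)/L^A` for `L ≥ 202`; `T1 = A + 1`.
-/

set_option autoImplicit false

namespace Pool.Agent.H53.MDB

open Finset
open Pool.Agent.H91.PK (ee)
open Pool.Agent.H53.MIX (VKe)

private theorem SRes_ee_add (a b : ℝ) : ee (a + b) = ee a * ee b := by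
  unfold ee
  rw [← Complex.exp_add]
  congr 1
  push_cast
  ring

private theorem SRes_norm_ee (t : ℝ) : ‖ee t‖ = 1 := by
  unfold ee
  have h : (2 * Real.pi * t * Complex.I : ℂ) = ((2 * Real.pi * t : ℝ) : ℂ) * Complex.I := by push_cast; ring
  rw [h, Complex.norm_exp_ofReal_mul_I]

theorem sres_triv (P δ r : ℕ) (t : ℝ) (hδ : 1 ≤ δ) : ‖sres P δ r t‖ ≤ P / δ + 1 := by
  have hδR : (0 : ℝ) < δ := by exact_mod_cast hδ
  have h1 : ‖sres P δ r t‖ ≤ (((Ioc P (2 * P)).filter (fun m => m % δ = r % δ)).card : ℝ) := by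
    unfold sres
    refine (norm_sum_le _ _).trans ?_
    simp only [SRes_norm_ee]
    rw [Finset.sum_const, nsmul_eq_mul, mul_one]
  refine h1.trans ?_
  have h2 := Nat.Ioc_filter_modEq_card P (2 * P) (r := δ) (by omega) r
  have h3 : ((Ioc P (2 * P)).filter (fun m => m % δ = r % δ)) = ((Ioc P (2 * P)).filter (fun m => m ≡ r [MOD δ])) := rfl
  have h4 : ((((Ioc P (2 * P)).filter (fun m => m % δ = r % δ)).card : ℤ) : ℝ) ≤ P / δ + 1 := by
    rw [h3, h2]
    push_cast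
    refine max_le ?_ (by positivity)
    have e1 : ((⌊(((2 * P : ℕ) : ℚ) - r) / δ⌋ : ℤ) : ℝ) ≤ ((2 * P : ℝ) - r) / δ := by
      have := Int.floor_le ((((2 * P : ℕ) : ℚ) - r) / δ)
      have h : (((⌊(((2 * P : ℕ) : ℚ) - r) / δ⌋ : ℤ) : ℚ) : ℝ) ≤ (((((2 * P : ℕ) : ℚ) - r) / δ : ℚ) : ℝ) := by
        exact_mod_cast this
      push_cast at h ⊢
      exact h
    have e2 : ((P : ℝ) - r) / δ < ((⌊((P : ℚ) - r) / δ⌋ : ℤ) : ℝ) + 1 := by
      have := Int.lt_floor_add_one (((P : ℚ) - r) / δ)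
      have h : (((((P : ℚ) - r) / δ : ℚ)) : ℝ) < ((((⌊((P : ℚ) - r) / δ⌋ : ℤ) : ℚ) + 1 : ℚ) : ℝ) := by
        exact_mod_cast this
      push_cast at h
      exact h
    have e3 : ((2 * P : ℝ) - r) / δ = ((P : ℝ) - r) / δ + P / δ := by ring
    push_cast at e1
    linarith
  exact_mod_cast h4

private theorem SRes_ev {t0 t t2 : ℝ} (h0t : t0 < t) (h2t : t2 < t) :
    ∃ L0 : ℝ, 202 ≤ L0 ∧ ∀ L : ℝ, L0 ≤ L → (2 * L) ^ t0 + L ^ t2 ≤ L ^ t := by
  have e1 : Filter.Tendsto (fun L : ℝ => 2 ^ t0 * L ^ (-(t - t0))) Filter.atTop (nhds (2 ^ t0 * 0)) :=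
    (tendsto_rpow_neg_atTop (by linarith)).const_mul _
  have e2 : Filter.Tendsto (fun L : ℝ => L ^ (-(t - t2))) Filter.atTop (nhds 0) :=
    tendsto_rpow_neg_atTop (by linarith)
  rw [mul_zero] at e1
  have f1 := e1.eventually (Iio_mem_nhds (show (0 : ℝ) < 1 / 2 by norm_num))
  have f2 := e2.eventually (Iio_mem_nhds (show (0 : ℝ) < 1 / 2 by norm_num))
  obtain ⟨L1, hL1⟩ := Filter.eventually_atTop.1 (f1.and f2)
  refine ⟨max 202 L1, le_max_left _ _, fun L hL => ?_⟩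
  have hL2 : 202 ≤ L := (le_max_left _ _).trans hL
  have hLpos : 0 < L := by linarith
  obtain ⟨g1, g2⟩ := hL1 L ((le_max_right _ _).trans hL)
  replace g1 : 2 ^ t0 * L ^ (-(t - t0)) < 1 / 2 := g1
  replace g2 : L ^ (-(t - t2)) < 1 / 2 := g2
  have k1 : (2 * L) ^ t0 = (2 ^ t0 * L ^ (-(t - t0))) * L ^ t := by
    rw [Real.mul_rpow (by norm_num) hLpos.le, mul_assoc, ← Real.rpow_add hLpos]
    congr 2; ring
  have k2 : L ^ t2 = L ^ (-(t - t2)) * L ^ t := by
    rw [← Real.rpow_add hLpos]; congr 1; ring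
  have k3 : 0 < L ^ t := Real.rpow_pos_of_pos hLpos _
  rw [k1, k2]
  nlinarith

theorem sres_vk (t0 t t2 : ℝ) (h0 : 0 < t0) (h0t : t0 < t) (h2 : 0 < t2) (h2t : t2 < t) (hV : VKe t0) (A : ℕ) :
    ∃ T1 N0 : ℕ, ∀ N : ℕ, N0 ≤ N → ∀ (P δ r : ℕ) (u : ℝ), Real.exp (Real.log N ^ t) ≤ P → P ≤ N → 1 ≤ δ →
    (δ : ℝ) ≤ Real.exp (Real.log N ^ t2) → Real.log N ^ T1 ≤ |u| → |u| ≤ N →
    ‖sres P δ r u‖ ≤ P / δ / Real.log N ^ A := by
  obtain ⟨L0, hL0, hL⟩ := SRes_ev (t0 := t0) h0t h2t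
  obtain ⟨x0, hx0⟩ := hV (A + 1)
  obtain ⟨N1, hN1⟩ := exists_nat_ge (Real.exp L0)
  refine ⟨A + 1, max (max x0 N1) 2, fun N hN P δ r u hP hPN hδ hδ2 hu hu2 => ?_⟩
  have hNx : x0 ≤ N := le_trans (le_trans (le_max_left _ _) (le_max_left _ _)) hN
  have hNN : N1 ≤ N := le_trans (le_trans (le_max_right _ _) (le_max_left _ _)) hN
  have hN2 : 2 ≤ N := le_trans (le_max_right _ _) hN
  have hNR : (0 : ℝ) < N := by exact_mod_cast (by omega : 0 < N)
  set L := Real.log N with hLdef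
  have hLL0 : L0 ≤ L := by
    rw [hLdef, Real.le_log_iff_exp_le hNR]
    exact hN1.trans (by exact_mod_cast hNN)
  have hL202 : 202 ≤ L := hL0.trans hLL0
  have hLpos : 0 < L := by linarith
  have hkey := hL L hLL0
  have hδR : (0 : ℝ) < δ := by exact_mod_cast hδ
  have hδP : δ ≤ P := by
    have h1 : L ^ t2 ≤ L ^ t := Real.rpow_le_rpow_of_exponent_le (by linarith) h2t.le
    have : (δ : ℝ) ≤ P := hδ2.trans ((Real.exp_le_exp.2 h1).trans hP)
    exact_mod_cast this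
  set r0 := r % δ with hr0
  have hr0δ : r0 < δ := Nat.mod_lt _ (by omega)
  set a := (P - r0) / δ with ha
  set b := (2 * P - r0) / δ with hb
  set K := 2 * P / δ with hK
  -- reindexing
  have hre : sres P δ r u = ∑ q ∈ Ioc a b, ee (-(u * Real.log ((r0 + δ * q : ℕ) : ℝ))) := by
    unfold sres
    symm
    refine Finset.sum_nbij' (fun q => r0 + δ * q) (fun m => m / δ) ?_ ?_ ?_ ?_ ?_
    · intro q hq
      rw [mem_Ioc] at hq
      rw [mem_filter, mem_Ioc]
      have h1 : P - r0 < q * δ := (Nat.div_lt_iff_lt_mul (by omega)).1 hq.1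
      have h2 : q * δ ≤ 2 * P - r0 := (Nat.le_div_iff_mul_le (by omega)).1 hq.2
      refine ⟨⟨?_, ?_⟩, ?_⟩
      · rw [mul_comm δ q]; omega
      · rw [mul_comm δ q]; omega
      · rw [Nat.add_mul_mod_self_left, hr0, Nat.mod_mod]
    · intro m hm
      rw [mem_filter, mem_Ioc] at hm
      rw [mem_Ioc]
      have h1 : r0 + δ * (m / δ) = m := by
        rw [hr0, ← hm.2]; exact Nat.mod_add_div m δ
      constructor
      · rw [ha, Nat.div_lt_iff_lt_mul (by omega)]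
        rw [mul_comm δ] at h1; omega
      · rw [hb, Nat.le_div_iff_mul_le (by omega)]
        rw [mul_comm δ] at h1; omega
    · intro q hq
      show (r0 + δ * q) / δ = q
      rw [Nat.add_mul_div_left _ _ (by omega), Nat.div_eq_of_lt hr0δ, zero_add]
    · intro m hm
      rw [mem_filter, mem_Ioc] at hm
      show r0 + δ * (m / δ) = m
      rw [hr0, ← hm.2]; exact Nat.mod_add_div m δ
    · intro q hq
      rfl
  have hfac : ∀ q ∈ Ioc a b, ee (-(u * Real.log ((r0 + δ * q : ℕ) : ℝ))) =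
      ee (-(u * Real.log δ)) * ee ((-u) * Real.log ((q : ℝ) + (r0 : ℝ) / δ)) := by
    intro q hq
    rw [mem_Ioc] at hq
    have hq0 : (0 : ℝ) < q := by exact_mod_cast lt_of_le_of_lt (Nat.zero_le a) hq.1
    rw [← SRes_ee_add]
    congr 1
    have h1 : ((r0 + δ * q : ℕ) : ℝ) = δ * ((q : ℝ) + (r0 : ℝ) / δ) := by
      push_cast; field_simp; ring
    have h2 : (0 : ℝ) < (q : ℝ) + (r0 : ℝ) / δ := by positivity
    rw [h1, Real.log_mul hδR.ne' h2.ne']
    ring
  have hnorm : ‖sres P δ r u‖ = ‖∑ q ∈ Ioc a b, ee ((-u) * Real.log ((q : ℝ) + (r0 : ℝ) / δ))‖ := by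
    rw [hre, Finset.sum_congr rfl hfac, ← Finset.mul_sum, norm_mul, SRes_norm_ee, one_mul]
  rw [hnorm]
  have hlog2 : Real.log ((2 * N : ℕ) : ℝ) ≤ 2 * L := by
    push_cast
    rw [Real.log_mul (by norm_num) hNR.ne']
    have : Real.log 2 ≤ Real.log N := Real.log_le_log (by norm_num) (by exact_mod_cast hN2)
    linarith
  have hlog2' : L ≤ Real.log ((2 * N : ℕ) : ℝ) := by
    rw [hLdef]
    refine Real.log_le_log hNR ?_
    push_cast; linarith
  -- size of K
  have hPδ : Real.exp (L ^ t - L ^ t2) ≤ (P : ℝ) / δ := by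
    rw [Real.exp_sub]
    exact div_le_div₀ (Nat.cast_nonneg _) hP hδR hδ2
  have hPδ1 : (1 : ℝ) ≤ (P : ℝ) / δ := by
    rw [le_div_iff₀ hδR, one_mul]; exact_mod_cast hδP
  have hKle : (K : ℝ) ≤ 2 * ((P : ℝ) / δ) := by
    have := Nat.cast_div_le (m := 2 * P) (n := δ) (α := ℝ)
    rw [← hK] at this
    refine this.trans (le_of_eq ?_)
    push_cast; ring
  have hKge : (P : ℝ) / δ ≤ K := by
    have h1 : (2 * P : ℕ) < (K + 1) * δ := by
      rw [hK]
      have := Nat.lt_div_mul_add (a := 2 * P) (b := δ) (by omega)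
      calc 2 * P < 2 * P / δ * δ + δ := this
        _ = (2 * P / δ + 1) * δ := by ring
    have h2 : (2 * P : ℝ) < (K + 1) * δ := by exact_mod_cast h1
    have h3 : 2 * ((P : ℝ) / δ) < K + 1 := by
      rw [← mul_div_assoc, div_lt_iff₀ hδR]; exact h2
    linarith
  have hK1 : Real.exp (Real.log ((2 * N : ℕ) : ℝ) ^ t0) ≤ K := by
    refine le_trans ?_ (hPδ.trans hKge)
    rw [Real.exp_le_exp]
    have h1 : Real.log ((2 * N : ℕ) : ℝ) ^ t0 ≤ (2 * L) ^ t0 :=
      Real.rpow_le_rpow (by linarith) hlog2 h0.le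
    linarith
  have hK2 : K ≤ 2 * N := by
    rw [hK]
    exact (Nat.div_le_self _ _).trans (by omega)
  have hbK : b ≤ K := by
    rw [hb, hK]
    exact Nat.div_le_div_right (by omega)
  have hβ1 : (r0 : ℝ) / δ ≤ 1 := by
    rw [div_le_one hδR]; exact_mod_cast hr0δ.le
  have hLT : 1 ≤ L ^ (A + 1) := one_le_pow₀ (by linarith)
  have hu1 : 1 ≤ |(-u)| := by rw [abs_neg]; exact hLT.trans hu
  have hu3 : |(-u)| ≤ ((2 * N : ℕ) : ℝ) ^ (3 : ℕ) := by
    rw [abs_neg]
    refine hu2.trans ?_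
    have h1 : (1 : ℝ) ≤ N := by exact_mod_cast (by omega : 1 ≤ N)
    push_cast
    nlinarith [mul_pos hNR hNR, mul_nonneg (sq_nonneg ((N : ℝ) - 1)) hNR.le]
  have hmain := hx0 (2 * N) (by omega) K a b ((r0 : ℝ) / δ) (-u) hK1 hK2 hbK (by positivity) hβ1 hu1 hu3
  refine hmain.trans ?_
  rw [abs_neg]
  have hu0 : 0 < |u| := lt_of_lt_of_le (by positivity) hu
  have g1 : 100 / |u| ≤ 100 / L ^ (A + 1) := div_le_div_of_nonneg_left (by norm_num) (by positivity) hu
  have g2 : 1 / Real.log ((2 * N : ℕ) : ℝ) ^ (A + 1) ≤ 1 / L ^ (A + 1) :=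
    one_div_le_one_div_of_le (by positivity) (pow_le_pow_left₀ hLpos.le hlog2' _)
  have g3 : 100 / |u| + 1 / Real.log ((2 * N : ℕ) : ℝ) ^ (A + 1) ≤ 101 / L ^ (A + 1) := by
    have : (101 : ℝ) / L ^ (A + 1) = 100 / L ^ (A + 1) + 1 / L ^ (A + 1) := by ring
    linarith
  calc (K : ℝ) * (100 / |u| + 1 / Real.log ((2 * N : ℕ) : ℝ) ^ (A + 1))
      ≤ (2 * ((P : ℝ) / δ)) * (101 / L ^ (A + 1)) := by
        refine mul_le_mul hKle g3 ?_ (by positivity)
        have : 0 ≤ Real.log ((2 * N : ℕ) : ℝ) := by linarith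
        positivity
    _ = ((P : ℝ) / δ) / L ^ A * (202 / L) := by
        rw [pow_succ]; field_simp; ring
    _ ≤ ((P : ℝ) / δ) / L ^ A * 1 := by
        refine mul_le_mul_of_nonneg_left ?_ (by positivity)
        rw [div_le_one hLpos]; exact hL202
    _ = (P : ℝ) / δ / L ^ A := mul_one _

end Pool.Agent.H53.MDB

end

section

/-!
# MDB BoostL: few quadruples with the congruence (the boost lemma)

Proof.  `L = log N`, `A = A1 + 2`, `T1'` from `sres_vk A`, `T1 = T1' + 1` in the statement.  Let `V = n/(16 C^2)`, `S = U × {m ∈ (P,2P] : (m, δ) = 1}`, `x (i, m) = log i - log m`, `c (i, m) = (m bb(i)) % δ`, `B = range δ`.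
For `q = ((i,p),(i',p')) ∈ NB`: `p, p' > P ≥ δ` primes (`δ ≤ exp(L^t2) ≤ exp(L^t) ≤ P`), so prime to `δ`; the congruence is `c (i,p) = c (i',p')`; `i, i' ≥ n/C > 0`; `|i p'/(i' p) - 1| = |i p' - i' p|/(i' p) ≤ 4 C P/((n/C) P) = 4 C^2/n ≤ 1/2`,
and `|log y| ≤ 2 |y - 1|` for `|y - 1| ≤ 1/2`, so `|x (i,p) - x (i',p')| = |log (i p'/(i' p))| ≤ 8 C^2/n` and `|x - x'| V ≤ 1/2`.  So by `fej`: `|NB| ≤ (4/V) ∫_{-V}^{V} GG P δ U bb t dt` (the sum over `s ∈ S` with `c s = β` is the double sum of `GG`).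
Split the integral at `|t| = L^T1'` (`≤ V` for large `N`, as `n ≥ N^(1/4)`; or use the bound `GG(t) ≤ (first bound) 1_{|t| ≤ L^T1'} + (second bound)` for all `|t| ≤ V`).
`|t| ≤ L^T1'`: `sres_triv` (`P/δ + 1 ≤ 2P/δ`), `gg_triv`: `GG ≤ δ (2P/δ · |U|)^2 = 4 P^2 |U|^2/δ`; contribution `(4/V) 2 L^T1' 4 P^2 |U|^2/δ = 512 C^2 L^T1' P^2 |U|^2/(n δ) ≤ L^(T1'+1) P^2 |U|^2/(n δ)`.
`L^T1' ≤ |t| ≤ V ≤ N`: `sres_vk`: `M = P/δ/L^A`, `gg_young`: `GG ≤ (P/L^A)^2 ∑_c |u_c(t)|^2`, `u_c(t) = ∑_{i ∈ U, bb i % δ = c} ee(t log i)`; `Pool.Agent.H53.MID.mvt` (`X = ⌊C n⌋`, `τ = 0`, coefficients `1_{U_c}`; replace `t` by `-t`: symmetric interval,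
or use that `ee(t log i)` is the conjugate of `ee(-(t log i))`): `∫_{-V}^{V} |u_c|^2 ≤ (2V + 2X(1 + log X)) |U_c| ≤ 10 C n L |U_c|` (`log X ≤ log C + L`).
Contribution `≤ (64 C^2/n)(P^2/L^(2A)) 10 C n L |U| = 640 C^3 P^2 |U| L^(1-2A) ≤ P^2 |U|/L^A1` for large `N`.
-/

set_option autoImplicit false

namespace Pool.Agent.H53.MDB

open Finset MeasureTheory
open Pool.Agent.H91.PK (ee)
open Pool.Agent.H53.MIX (VKe)

private theorem BoostL_conj (x : ℝ) : starRingEnd ℂ (ee x) = ee (-x) := by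
  unfold ee
  rw [← Complex.exp_conj]
  congr 1
  have h2 : (starRingEnd ℂ) 2 = 2 := map_ofNat _ 2
  simp [h2]

private theorem BoostL_ee_cont (a : ℝ) : Continuous fun t : ℝ => ee (t * a) := by
  unfold ee
  fun_prop

/-- the logarithm near `1` -/
private theorem BoostL_log {y r : ℝ} (h : |y - 1| ≤ r) (hr : r ≤ 1 / 2) : |Real.log y| ≤ 2 * r := by
  have h1 := abs_le.1 h
  have hy : 0 < y := by linarith only [hr, h1]
  have h2 := Real.log_le_sub_one_of_pos hy
  have h3 := Real.one_sub_inv_le_log_of_pos hy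
  have h4 : -(2 * r) ≤ 1 - y⁻¹ := by
    have h5 : 1 - y⁻¹ = (y - 1) / y := by field_simp
    rw [h5, le_div_iff₀ hy]
    nlinarith only [h1, hr]
  rw [abs_le]
  constructor <;> linarith only [h3, h4, h1, h2]

/-- the quadruples are pairs of close values -/
private theorem BoostL_close {C n P i i' p p' : ℝ} (hC : 1 ≤ C) (hn : 8 * C ^ 2 ≤ n) (hP : 0 < P)
    (hi : n / C ≤ i) (hi' : n / C ≤ i') (hp : P < p) (hp' : P < p') (h : |i * p' - i' * p| ≤ 4 * C * P) :
    |(Real.log i - Real.log p) - (Real.log i' - Real.log p')| * (n / (16 * C ^ 2)) ≤ 1 / 2 := by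
  have hC0 : 0 < C := by linarith
  have hn0 : 0 < n := by nlinarith only [hC, hn]
  have hnC : 0 < n / C := by positivity
  have hi0 : 0 < i := by linarith
  have hi'0 : 0 < i' := by linarith
  have hp0 : 0 < p := by linarith
  have hp'0 : 0 < p' := by linarith
  have e1 : (Real.log i - Real.log p) - (Real.log i' - Real.log p') = Real.log (i * p' / (i' * p)) := by
    rw [Real.log_div (by positivity) (by positivity), Real.log_mul hi0.ne' hp'0.ne',
      Real.log_mul hi'0.ne' hp0.ne']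
    ring
  rw [e1]
  have h1 : |i * p' / (i' * p) - 1| ≤ 4 * C ^ 2 / n := by
    have e2 : i * p' / (i' * p) - 1 = (i * p' - i' * p) / (i' * p) := by
      field_simp
    rw [e2, abs_div, abs_of_pos (show 0 < i' * p by positivity), div_le_div_iff₀ (by positivity) hn0]
    have h2 : n / C * P ≤ i' * p := mul_le_mul hi' hp.le hP.le hi'0.le
    have h3 : n * P ≤ C * (i' * p) := by
      have : n / C * P = n * P / C := by ring
      rw [this, div_le_iff₀ hC0] at h2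
      linarith only [h2]
    calc |i * p' - i' * p| * n ≤ 4 * C * P * n := mul_le_mul_of_nonneg_right h hn0.le
      _ = 4 * C * (n * P) := by ring
      _ ≤ 4 * C * (C * (i' * p)) := mul_le_mul_of_nonneg_left h3 (by positivity)
      _ = 4 * C ^ 2 * (i' * p) := by ring
  have h2 : 4 * C ^ 2 / n ≤ 1 / 2 := by
    rw [div_le_iff₀ hn0]
    linarith only [hn]
  have h3 := BoostL_log h1 h2
  calc |Real.log (i * p' / (i' * p))| * (n / (16 * C ^ 2))
      ≤ 2 * (4 * C ^ 2 / n) * (n / (16 * C ^ 2)) := mul_le_mul_of_nonneg_right h3 (by positivity)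
    _ = 1 / 2 := by field_simp; norm_num

/-- `NB` is contained in a set of pairs of close values -/
private theorem BoostL_sub {C : ℝ} (hC : 1 ≤ C) {n P δ : ℕ} (hn : 8 * C ^ 2 ≤ n) (hP : 0 < P) (hδ : 1 ≤ δ)
    (hδP : δ ≤ P) {U : Finset ℕ} {bb : ℕ → ℕ} (hU : ∀ i ∈ U, (n : ℝ) / C ≤ i) {q : (ℕ × ℕ) × (ℕ × ℕ)}
    (hq : q ∈ NB C P U δ bb) :
    (q.1 ∈ U ×ˢ (Ioc P (2 * P)).filter (fun m => Nat.Coprime m δ) ∧
      q.2 ∈ U ×ˢ (Ioc P (2 * P)).filter (fun m => Nat.Coprime m δ)) ∧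
    (q.1.2 * bb q.1.1) % δ = (q.2.2 * bb q.2.1) % δ ∧
    |(Real.log q.1.1 - Real.log q.1.2) - (Real.log q.2.1 - Real.log q.2.2)| * (n / (16 * C ^ 2)) ≤ 1 / 2 := by
  rw [mem_NB, mem_QS] at hq
  obtain ⟨⟨h1, h2, h3, h4, h5, h6, h7, h8, h9⟩, h10⟩ := hq
  have hcop : ∀ p : ℕ, P < p → p.Prime → Nat.Coprime p δ := by
    intro p hp hpp
    rw [Nat.Prime.coprime_iff_not_dvd hpp]
    intro hd
    have := Nat.le_of_dvd (by omega) hd
    omega
  refine ⟨⟨?_, ?_⟩, h10, ?_⟩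
  · rw [Finset.mem_product, Finset.mem_filter, Finset.mem_Ioc]
    exact ⟨h1, ⟨h2, h3⟩, hcop _ h2 h4⟩
  · rw [Finset.mem_product, Finset.mem_filter, Finset.mem_Ioc]
    exact ⟨h5, ⟨h6, h7⟩, hcop _ h6 h8⟩
  · exact BoostL_close hC hn (by exact_mod_cast hP) (hU _ h1) (hU _ h5) (by exact_mod_cast h2)
      (by exact_mod_cast h6) h9

open Classical in
/-- the sum in `fej` is `GG` -/
private theorem BoostL_GG (P δ : ℕ) (U : Finset ℕ) (bb : ℕ → ℕ) (t : ℝ) :
    ∑ β ∈ range δ, ‖∑ s ∈ (U ×ˢ (Ioc P (2 * P)).filter (fun m => Nat.Coprime m δ)).filter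
      (fun s : ℕ × ℕ => (s.2 * bb s.1) % δ = β), ee (t * (Real.log s.1 - Real.log s.2))‖ ^ 2 =
    GG P δ U bb t := by
  unfold GG
  refine Finset.sum_congr rfl fun β _ => ?_
  congr 2
  rw [Finset.sum_filter, Finset.sum_product]
  refine Finset.sum_congr rfl fun i _ => ?_
  rw [Finset.sum_filter, Finset.sum_filter]
  refine Finset.sum_congr rfl fun m _ => ?_
  by_cases h1 : Nat.Coprime m δ
  · by_cases h2 : (m * bb i) % δ = β
    · rw [if_pos h1, if_pos h2, if_pos ⟨h1, h2⟩]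
    · rw [if_pos h1, if_neg h2, if_neg fun h => h2 h.2]
  · rw [if_neg h1, if_neg fun h => h1 h.1]

private theorem BoostL_GG_cont (P δ : ℕ) (U : Finset ℕ) (bb : ℕ → ℕ) :
    Continuous fun t : ℝ => GG P δ U bb t := by
  unfold GG
  refine continuous_finsetSum _ fun β _ => ?_
  refine Continuous.pow ?_ 2
  refine Continuous.norm ?_
  refine continuous_finsetSum _ fun i _ => ?_
  exact continuous_finsetSum _ fun m _ => BoostL_ee_cont _

/-- the mean value of `u_c` -/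
private theorem BoostL_mv (C : ℝ) (hC : 1 ≤ C) (n : ℕ) (hn : 1 ≤ n) (W : Finset ℕ)
    (hW : ∀ i ∈ W, (n : ℝ) / C ≤ i ∧ (i : ℝ) ≤ C * n) (V : ℝ) (hV : 0 ≤ V) :
    ∫ t in Set.Icc (-V) V, ‖∑ i ∈ W, ee (t * Real.log i)‖ ^ 2 ≤
      (2 * V + 2 * (C * n) * (1 + Real.log (C * n))) * W.card := by
  have hn0 : (1 : ℝ) ≤ n := by exact_mod_cast hn
  have hC0 : 0 < C := by linarith
  have hCn : 1 ≤ C * n := by nlinarith only [hn0, hC]
  set X := ⌊C * n⌋₊ with hX
  have hX1 : 1 ≤ X := Nat.le_floor (by simpa using hCn)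
  have hXle : (X : ℝ) ≤ C * n := Nat.floor_le (by linarith)
  have hX1' : (1 : ℝ) ≤ X := by exact_mod_cast hX1
  have hsub : W ⊆ Icc 1 X := by
    intro i hi
    obtain ⟨h1, h2⟩ := hW i hi
    rw [Finset.mem_Icc]
    refine ⟨?_, Nat.le_floor h2⟩
    have h3 : (0 : ℝ) < n / C := by positivity
    have h4 : (0 : ℝ) < i := by linarith only [h1, h3]
    exact_mod_cast h4
  have h1 := Pool.Agent.H53.MID.mvt (fun m => if m ∈ W then 1 else 0) X V 0 hX1 hV
  have h2 : ∀ t : ℝ, ‖∑ i ∈ W, ee (t * Real.log i)‖ ^ 2 =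
      ‖∑ m ∈ Icc 1 X, (if m ∈ W then (1 : ℂ) else 0) * ee (-((0 + t) * Real.log m))‖ ^ 2 := by
    intro t
    have e1 : ∑ m ∈ Icc 1 X, (if m ∈ W then (1 : ℂ) else 0) * ee (-((0 + t) * Real.log m)) =
        ∑ i ∈ W, ee (-(t * Real.log i)) := by
      rw [← Finset.sum_subset hsub (fun m _ hm => by rw [if_neg hm, zero_mul])]
      exact Finset.sum_congr rfl fun m hm => by rw [if_pos hm, one_mul, zero_add]
    rw [e1, ← RCLike.norm_conj (∑ i ∈ W, ee (t * Real.log i)), map_sum]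
    simp only [BoostL_conj]
  have h3 : ∑ m ∈ Icc 1 X, ‖(if m ∈ W then (1 : ℂ) else 0)‖ ^ 2 = W.card := by
    rw [← Finset.sum_subset hsub (fun m _ hm => by rw [if_neg hm, norm_zero]; ring)]
    rw [Finset.sum_congr rfl fun m hm => by rw [if_pos hm, norm_one, one_pow]]
    simp
  simp only [h2]
  refine h1.trans ?_
  rw [h3]
  refine mul_le_mul_of_nonneg_right ?_ (Nat.cast_nonneg _)
  have h4 : Real.log X ≤ Real.log (C * n) := Real.log_le_log (by linarith) hXle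
  have h5 : 0 ≤ Real.log X := Real.log_nonneg hX1'
  have h6 : (X : ℝ) * (1 + Real.log X) ≤ C * n * (1 + Real.log (C * n)) :=
    mul_le_mul hXle (by linarith) (by linarith) (by linarith)
  linarith only [h6]

/-- the integral of the sum of the squares of the `u_c` -/
private theorem BoostL_Y (C : ℝ) (hC : 1 ≤ C) (n : ℕ) (hn : 1 ≤ n) (δ : ℕ) (hδ : 1 ≤ δ) (U : Finset ℕ)
    (bb : ℕ → ℕ) (hU : ∀ i ∈ U, (n : ℝ) / C ≤ i ∧ (i : ℝ) ≤ C * n) (V : ℝ) (hV : 0 ≤ V) :
    ∫ t in Set.Icc (-V) V, ∑ c ∈ range δ, ‖∑ i ∈ U.filter (fun i => bb i % δ = c), ee (t * Real.log i)‖ ^ 2 ≤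
      (2 * V + 2 * (C * n) * (1 + Real.log (C * n))) * U.card := by
  rw [integral_finsetSum]
  · calc ∑ c ∈ range δ, ∫ t in Set.Icc (-V) V,
          ‖∑ i ∈ U.filter (fun i => bb i % δ = c), ee (t * Real.log i)‖ ^ 2
        ≤ ∑ c ∈ range δ, (2 * V + 2 * (C * n) * (1 + Real.log (C * n))) *
            ((U.filter (fun i => bb i % δ = c)).card : ℝ) := by
          refine Finset.sum_le_sum fun c _ => ?_
          exact BoostL_mv C hC n hn _ (fun i hi => hU i (Finset.mem_of_mem_filter i hi)) V hV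
      _ = (2 * V + 2 * (C * n) * (1 + Real.log (C * n))) * U.card := by
          rw [← Finset.mul_sum]
          congr 1
          have h1 := Finset.card_eq_sum_card_fiberwise (s := U) (t := range δ) (f := fun i => bb i % δ)
            (fun i _ => Finset.mem_coe.2 (Finset.mem_range.2 (Nat.mod_lt _ (by omega))))
          rw [h1]
          push_cast
          rfl
  · intro c _
    refine Continuous.integrableOn_Icc ?_
    refine Continuous.pow (Continuous.norm ?_) 2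
    exact continuous_finsetSum _ fun i _ => BoostL_ee_cont _

/-- the integral of `GG` -/
private theorem BoostL_int (C : ℝ) (hC : 1 ≤ C) (n P δ : ℕ) (hn : 1 ≤ n) (hδ : 1 ≤ δ) (hδP : δ ≤ P)
    (U : Finset ℕ) (bb : ℕ → ℕ) (hU : ∀ i ∈ U, (n : ℝ) / C ≤ i ∧ (i : ℝ) ≤ C * n ∧ Nat.Coprime (bb i) δ)
    (V T M : ℝ) (hV : 0 ≤ V) (hT : 0 ≤ T)
    (hM : ∀ t : ℝ, T ≤ |t| → |t| ≤ V → ∀ r : ℕ, ‖sres P δ r t‖ ≤ M) :
    ∫ t in Set.Icc (-V) V, GG P δ U bb t ≤ 4 * P ^ 2 * U.card ^ 2 / δ * (2 * T) +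
      (δ * M) ^ 2 * ((2 * V + 2 * (C * n) * (1 + Real.log (C * n))) * U.card) := by
  have hδ0 : (0 : ℝ) < δ := by exact_mod_cast hδ
  have hP0 : (δ : ℝ) ≤ P := by exact_mod_cast hδP
  have hcop : ∀ i ∈ U, Nat.Coprime (bb i) δ := fun i hi => (hU i hi).2.2
  set Y : ℝ → ℝ := fun t => ∑ c ∈ range δ,
    ‖∑ i ∈ U.filter (fun i => bb i % δ = c), ee (t * Real.log i)‖ ^ 2 with hY
  have hY0 : ∀ t, 0 ≤ Y t := fun t => Finset.sum_nonneg fun c _ => sq_nonneg _
  have hYc : Continuous Y := by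
    refine continuous_finsetSum _ fun c _ => ?_
    refine Continuous.pow (Continuous.norm ?_) 2
    exact continuous_finsetSum _ fun i _ => BoostL_ee_cont _
  set G1 : ℝ := 4 * P ^ 2 * U.card ^ 2 / δ with hG1
  have hG10 : 0 ≤ G1 := by positivity
  set ind : ℝ → ℝ := (Set.Icc (-T) T).indicator (fun _ => (1 : ℝ)) with hind
  have hind0 : ∀ t, 0 ≤ ind t := fun t => Set.indicator_nonneg (fun _ _ => zero_le_one) t
  have hindI : Integrable ind := by
    rw [hind, integrable_indicator_iff measurableSet_Icc]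
    exact integrableOn_const (by rw [Real.volume_Icc]; exact ENNReal.ofReal_ne_top) (by simp)
  have hpt : ∀ t ∈ Set.Icc (-V) V, GG P δ U bb t ≤ G1 * ind t + (δ * M) ^ 2 * Y t := by
    intro t ht
    have htV : |t| ≤ V := abs_le.2 ⟨ht.1, ht.2⟩
    by_cases hc : |t| ≤ T
    · have h1 : ind t = 1 := Set.indicator_of_mem (show t ∈ Set.Icc (-T) T from abs_le.1 hc) _
      have h2 : ∀ r : ℕ, ‖sres P δ r t‖ ≤ 2 * P / δ := by
        intro r
        refine (sres_triv P δ r t hδ).trans ?_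
        rw [le_div_iff₀ hδ0, add_mul, div_mul_cancel₀ _ hδ0.ne']
        linarith
      have h3 := gg_triv P δ U bb t (2 * P / δ) hδ hcop h2
      have h4 : (δ : ℝ) * (2 * P / δ * U.card) ^ 2 = G1 := by
        rw [hG1]
        field_simp
        ring
      rw [h4] at h3
      rw [h1, mul_one]
      have h5 : 0 ≤ (δ * M) ^ 2 * Y t := mul_nonneg (sq_nonneg _) (hY0 t)
      linarith only [h3, h5]
    · push Not at hc
      have h3 := gg_young P δ U bb t M hδ hcop (hM t hc.le htV)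
      have h5 : 0 ≤ G1 * ind t := mul_nonneg hG10 (hind0 t)
      exact h3.trans (le_add_of_nonneg_left h5)
  have hI1 : IntegrableOn (fun t => G1 * ind t) (Set.Icc (-V) V) := (hindI.const_mul G1).integrableOn
  have hI2 : IntegrableOn (fun t => (δ * M) ^ 2 * Y t) (Set.Icc (-V) V) :=
    (continuous_const.mul hYc).integrableOn_Icc
  calc ∫ t in Set.Icc (-V) V, GG P δ U bb t
      ≤ ∫ t in Set.Icc (-V) V, (G1 * ind t + (δ * M) ^ 2 * Y t) :=
        setIntegral_mono_on (BoostL_GG_cont P δ U bb).integrableOn_Icc (hI1.add hI2)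
          measurableSet_Icc hpt
    _ = G1 * (∫ t in Set.Icc (-V) V, ind t) + (δ * M) ^ 2 * ∫ t in Set.Icc (-V) V, Y t := by
        rw [integral_add hI1 hI2, integral_const_mul, integral_const_mul]
    _ ≤ _ := by
        refine add_le_add (mul_le_mul_of_nonneg_left ?_ hG10)
          (mul_le_mul_of_nonneg_left ?_ (sq_nonneg _))
        · refine (setIntegral_le_integral hindI (Filter.Eventually.of_forall hind0)).trans ?_
          rw [hind, integral_indicator measurableSet_Icc, integral_const]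
          simp only [MeasurableSet.univ, measureReal_restrict_apply, Set.univ_inter, smul_eq_mul, mul_one]
          rw [Real.volume_real_Icc_of_le (by linarith)]
          linarith
        · exact BoostL_Y C hC n hn δ hδ U bb (fun i hi => ⟨(hU i hi).1, (hU i hi).2.1⟩) V hV

theorem boostl (t0 t t2 : ℝ) (h0 : 0 < t0) (h0t : t0 < t) (h2 : 0 < t2) (h2t : t2 < t) (ht : t < 1) (hV : VKe t0) (C : ℝ)
    (hC : 1 ≤ C) (A1 : ℕ) : ∃ T1 N0 : ℕ, ∀ N : ℕ, N0 ≤ N → ∀ (n P δ : ℕ) (U : Finset ℕ) (bb : ℕ → ℕ),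
    Real.exp (Real.log N ^ t) ≤ P → P ≤ N → (N : ℝ) ^ (1 / 4 : ℝ) ≤ n → n ≤ N → 1 ≤ δ → (δ : ℝ) ≤ Real.exp (Real.log N ^ t2) →
    (∀ i ∈ U, (n : ℝ) / C ≤ i ∧ (i : ℝ) ≤ C * n ∧ Nat.Coprime (bb i) δ) →
    ((NB C P U δ bb).card : ℝ) ≤ P ^ 2 * (Real.log N ^ T1 * U.card ^ 2 / (n * δ) + U.card / Real.log N ^ A1) := by
  classical
  obtain ⟨T1, N1, hvk⟩ := sres_vk t0 t t2 h0 h0t h2 h2t hV (A1 + 2)
  have hC0 : 0 < C := by linarith
  -- the choice of `N0`
  have hlogN : Filter.Tendsto (fun N : ℕ => Real.log N) Filter.atTop Filter.atTop :=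
    Real.tendsto_log_atTop.comp tendsto_natCast_atTop_atTop
  have hpowN : Filter.Tendsto (fun N : ℕ => (N : ℝ) ^ (1 / 4 : ℝ)) Filter.atTop Filter.atTop :=
    (tendsto_rpow_atTop (by norm_num)).comp tendsto_natCast_atTop_atTop
  obtain ⟨N2, hN2⟩ := Filter.eventually_atTop.1
    ((hlogN.eventually_ge_atTop (512 * C ^ 3 + (1 + Real.log C))).and
      (hpowN.eventually_ge_atTop (8 * C ^ 2)))
  refine ⟨T1 + 1, max N1 N2, fun N hN n P δ U bb hP hPN hnN hn hδ hδQ hU => ?_⟩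
  obtain ⟨hL, hNp⟩ := hN2 N ((le_max_right _ _).trans hN)
  have hvkN := hvk N ((le_max_left _ _).trans hN)
  set L := Real.log N with hLdef
  have hlogC : 0 ≤ Real.log C := Real.log_nonneg hC
  have hC2 : 1 ≤ C ^ 2 := one_le_pow₀ hC
  have hC3 : 1 ≤ C ^ 3 := one_le_pow₀ hC
  have hC23 : C ^ 2 ≤ C ^ 3 := pow_le_pow_right₀ hC (by norm_num)
  have hL1 : 1 ≤ L := by nlinarith only [h0, h0t, ht, hL, hlogC, hC3]
  have hL512 : 512 * C ^ 3 ≤ L := by linarith
  have hLC : 1 + Real.log C ≤ L := by nlinarith only [h0, h0t, ht, hL, hC3]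
  have hn8 : 8 * C ^ 2 ≤ (n : ℝ) := hNp.trans hnN
  have hn0 : (0 : ℝ) < n := by nlinarith only [h0, h0t, ht, hnN, hNp, hC2]
  have hn1 : 1 ≤ n := by exact_mod_cast (by exact_mod_cast hn0 : 0 < n)
  have hδ0 : (0 : ℝ) < δ := by exact_mod_cast hδ
  have hδP' : (δ : ℝ) ≤ P := hδQ.trans ((Real.exp_le_exp.2
    (Real.rpow_le_rpow_of_exponent_le hL1 h2t.le)).trans hP)
  have hδP : δ ≤ P := by exact_mod_cast hδP'
  have hP0 : 0 < P := by omega
  have hP0' : (0 : ℝ) < P := by exact_mod_cast hP0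
  have hnN' : (n : ℝ) ≤ N := by exact_mod_cast hn
  set V : ℝ := n / (16 * C ^ 2) with hVdef
  have hV0 : 0 < V := by positivity
  have hVn : V ≤ n := by
    rw [hVdef, div_le_iff₀ (by positivity)]
    nlinarith only [h0, h0t, ht, hC2, hnN, hNp]
  -- the pairs
  have hfej := fej (U ×ˢ (Ioc P (2 * P)).filter (fun m => Nat.Coprime m δ))
    (fun s : ℕ × ℕ => Real.log s.1 - Real.log s.2) (fun s => (s.2 * bb s.1) % δ) (range δ) V hV0
    (fun s _ => Finset.mem_range.2 (Nat.mod_lt _ (by omega)))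
  simp only [BoostL_GG] at hfej
  have hcard : ((NB C P U δ bb).card : ℝ) ≤ 4 / V * ∫ t in Set.Icc (-V) V, GG P δ U bb t := by
    refine le_trans ?_ hfej
    have hle : (NB C P U δ bb).card ≤ (((U ×ˢ (Ioc P (2 * P)).filter (fun m => Nat.Coprime m δ)) ×ˢ
        (U ×ˢ (Ioc P (2 * P)).filter (fun m => Nat.Coprime m δ))).filter
        (fun q => (q.1.2 * bb q.1.1) % δ = (q.2.2 * bb q.2.1) % δ ∧
          |(Real.log q.1.1 - Real.log q.1.2) - (Real.log q.2.1 - Real.log q.2.2)| * V ≤ 1 / 2)).card := by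
      refine Finset.card_le_card fun q hq => ?_
      have h1 := BoostL_sub hC hn8 hP0 hδ hδP (fun i hi => (hU i hi).1) hq
      rw [Finset.mem_filter, Finset.mem_product]
      exact h1
    exact_mod_cast hle
  have hint := BoostL_int C hC n P δ hn1 hδ hδP U bb hU V (L ^ T1) (P / δ / L ^ (A1 + 2)) hV0.le
    (by positivity) (fun u hu huV r => hvkN P δ r u hP hPN hδ hδQ hu (huV.trans (hVn.trans hnN')))
  have h4V : 4 / V = 64 * C ^ 2 / n := by
    rw [hVdef]
    field_simp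
    norm_num
  have hmain : ((NB C P U δ bb).card : ℝ) ≤ 64 * C ^ 2 / n * (4 * P ^ 2 * U.card ^ 2 / δ * (2 * L ^ T1) +
      (δ * (P / δ / L ^ (A1 + 2))) ^ 2 *
        ((2 * V + 2 * (C * n) * (1 + Real.log (C * n))) * U.card)) := by
    refine hcard.trans ?_
    rw [h4V]
    exact mul_le_mul_of_nonneg_left hint (by positivity)
  refine hmain.trans ?_
  have hU0 : (0 : ℝ) ≤ U.card := Nat.cast_nonneg _
  have hL0 : 0 < L := by linarith only [h0, h0t, ht, hL, hlogC, hC3]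
  refine (le_of_eq (mul_add _ _ _)).trans ?_
  refine le_trans (add_le_add ?_ ?_) (le_of_eq (mul_add ((P : ℝ) ^ 2) _ _).symm)
  · have e1 : 64 * C ^ 2 / n * (4 * P ^ 2 * U.card ^ 2 / δ * (2 * L ^ T1)) =
        P ^ 2 * (512 * C ^ 2 * L ^ T1 * U.card ^ 2 / (n * δ)) := by
      field_simp
      ring
    rw [e1, pow_succ]
    refine mul_le_mul_of_nonneg_left ?_ (by positivity)
    refine div_le_div_of_nonneg_right ?_ (by positivity)
    refine mul_le_mul_of_nonneg_right ?_ (by positivity)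
    have h5 : 512 * C ^ 2 ≤ L := by nlinarith only [h0, h0t, ht, hL, hlogC, hC23]
    calc 512 * C ^ 2 * L ^ T1 ≤ L * L ^ T1 := mul_le_mul_of_nonneg_right h5 (by positivity)
      _ = L ^ T1 * L := by ring
  · have hlogn : Real.log n ≤ L := Real.log_le_log hn0 hnN'
    have hlogCn : Real.log (C * n) ≤ Real.log C + L := by
      rw [Real.log_mul hC0.ne' hn0.ne']
      linarith only [hlogn]
    have h5 : 2 * V + 2 * (C * n) * (1 + Real.log (C * n)) ≤ 6 * C * n * L := by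
      have h6 : 1 + Real.log (C * n) ≤ 2 * L := by linarith only [h0, h0t, ht, hL, hC3, hlogCn]
      have h7 : 2 * (C * n) * (1 + Real.log (C * n)) ≤ 2 * (C * n) * (2 * L) :=
        mul_le_mul_of_nonneg_left h6 (by positivity)
      have h8 : 2 * V ≤ 2 * C * n * L := by
        have h9 : (n : ℝ) ≤ C * n * L := by
          calc (n : ℝ) = 1 * n * 1 := by ring
            _ ≤ C * n * L := by
              refine mul_le_mul (mul_le_mul_of_nonneg_right hC hn0.le) hL1 zero_le_one (by positivity)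
        linarith only [hVn, h9]
      linarith only [h7, h8]
    have e2 : (δ : ℝ) * (P / δ / L ^ (A1 + 2)) = P / L ^ (A1 + 2) := by
      field_simp
    rw [e2]
    calc 64 * C ^ 2 / n * ((P / L ^ (A1 + 2)) ^ 2 *
          ((2 * V + 2 * (C * n) * (1 + Real.log (C * n))) * U.card))
        ≤ 64 * C ^ 2 / n * ((P / L ^ (A1 + 2)) ^ 2 * ((6 * C * n * L) * U.card)) := by
          refine mul_le_mul_of_nonneg_left (mul_le_mul_of_nonneg_left
            (mul_le_mul_of_nonneg_right h5 hU0) (by positivity)) (by positivity)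
      _ = P ^ 2 * (384 * C ^ 3 * U.card / L ^ (2 * A1 + 3)) := by
          have e3 : L ^ (2 * A1 + 3) * L = (L ^ (A1 + 2)) ^ 2 := by
            rw [← pow_succ, ← pow_mul]
            congr 1
            ring
          rw [div_pow, ← e3]
          field_simp
          ring
      _ ≤ P ^ 2 * (U.card / L ^ A1) := by
          refine mul_le_mul_of_nonneg_left ?_ (by positivity)
          rw [div_le_div_iff₀ (by positivity) (by positivity)]
          have h10 : 384 * C ^ 3 * L ^ A1 ≤ L ^ (2 * A1 + 3) := by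
            calc 384 * C ^ 3 * L ^ A1 ≤ L * L ^ A1 :=
                  mul_le_mul_of_nonneg_right (by linarith only [h0, h0t, ht, hL, hlogC, hC3]) (by positivity)
              _ = L ^ (A1 + 1) := by ring
              _ ≤ L ^ (2 * A1 + 3) := pow_le_pow_right₀ hL1 (by omega)
          calc 384 * C ^ 3 * U.card * L ^ A1 = U.card * (384 * C ^ 3 * L ^ A1) := by ring
            _ ≤ U.card * L ^ (2 * A1 + 3) := mul_le_mul_of_nonneg_left h10 hU0

end Pool.Agent.H53.MDB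

end

section

/-!
# The series of `(Λ(n) - 1)(log n)^k` for `|Im s| ≥ 1`

`Fk 1 1 k` by the recursion of SwF (`Lk_succ_eq` with `q = 1`), `zeta_lower`, `zeta_k_le`;
the series is `Fk 1 1 k - Lk 1 1 k`.
-/

set_option autoImplicit false

namespace Pool.Agent.H91.EHA

open Finset

/-- `log (t + 3) ≥ 1` for `t ≥ 0`. -/
theorem swJ1_log_ge (t : ℝ) (ht : 0 ≤ t) : 1 ≤ Real.log (t + 3) := by
  rw [Real.le_log_iff_exp_le (by linarith)]
  have := Real.exp_one_lt_d9
  linarith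

theorem swJ1_Lk (k : ℕ) : ∃ C : ℝ, 0 < C ∧ ∀ s : ℂ, 1 < s.re → s.re ≤ 2 → 1 ≤ |s.im| →
    ‖Lk 1 1 k s‖ ≤ C * Real.log (|s.im| + 3) ^ (k + 1) := by
  obtain ⟨C, hC, h⟩ := zeta_k_le k
  refine ⟨C, hC, fun s h1 h2 h3 => (h s h1 h2 h3).trans ?_⟩
  apply mul_le_mul_of_nonneg_left _ hC.le
  apply pow_le_pow_left₀
  · apply Real.log_nonneg
    linarith [abs_nonneg s.im]
  · apply Real.log_le_log
    · linarith [abs_nonneg s.im]
    · linarith

theorem swJ1_Fk (k : ℕ) : ∃ C : ℝ, 0 < C ∧ ∀ s : ℂ, 1 < s.re → s.re ≤ 2 → 1 ≤ |s.im| →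
    ‖Fk 1 1 k s‖ ≤ C * Real.log (|s.im| + 3) ^ (20 * (k + 1)) := by
  induction k using Nat.strong_induction_on with
  | _ k ih =>
    obtain ⟨c, hc, hlow⟩ := zeta_lower
    choose A hA hLk using swJ1_Lk
    have ih' : ∀ j : ℕ, ∃ C : ℝ, 0 < C ∧ (j < k → ∀ s : ℂ, 1 < s.re → s.re ≤ 2 → 1 ≤ |s.im| →
        ‖Fk 1 1 j s‖ ≤ C * Real.log (|s.im| + 3) ^ (20 * (j + 1))) := by
      intro j
      by_cases hj : j < k
      · obtain ⟨C, hC, h⟩ := ih j hj
        exact ⟨C, hC, fun _ => h⟩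
      · exact ⟨1, one_pos, fun h => absurd h hj⟩
    choose B hB hFk using ih'
    set S : ℝ := A (k + 1) + ∑ i ∈ range k, (k.choose (i + 1) : ℝ) * (A (i + 1) * B (k - (i + 1)))
      with hS
    have hSpos : 0 < S := by
      have : 0 ≤ ∑ i ∈ range k, (k.choose (i + 1) : ℝ) * (A (i + 1) * B (k - (i + 1))) :=
        Finset.sum_nonneg (fun i _ => mul_nonneg (Nat.cast_nonneg _)
          (mul_nonneg (hA _).le (hB _).le))
      linarith [hA (k + 1)]
    refine ⟨S / c, div_pos hSpos hc, fun s h1 h2 h3 => ?_⟩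
    set ℓ := Real.log (|s.im| + 3) with hℓ
    have hℓ1 : 1 ≤ ℓ := swJ1_log_ge _ (abs_nonneg _)
    have hℓ0 : 0 < ℓ := by linarith
    have hlow' : c / ℓ ^ 9 ≤ ‖Lk 1 1 0 s‖ := by
      refine le_trans ?_ (hlow s h1 h2 h3)
      apply div_le_div_of_nonneg_left hc.le
      · apply pow_pos
        apply Real.log_pos
        linarith
      · apply pow_le_pow_left₀
        · apply Real.log_nonneg
          linarith
        · apply Real.log_le_log
          · linarith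
          · linarith
    have hLpos : 0 < ‖Lk 1 1 0 s‖ := lt_of_lt_of_le (by positivity) hlow'
    have hrec := Lk_succ_eq 1 1 k s h1
    rw [Finset.sum_range_succ'] at hrec
    simp only [Nat.choose_zero_right, Nat.cast_one, one_mul, Nat.sub_zero] at hrec
    have hnorm : ‖Lk 1 1 0 s‖ * ‖Fk 1 1 k s‖ ≤ S * ℓ ^ (20 * (k + 1) - 9) := by
      rw [← norm_mul]
      have e : Lk 1 1 0 s * Fk 1 1 k s = Lk 1 1 (k + 1) s
          - ∑ i ∈ range k, (k.choose (i + 1) : ℂ) * (Lk 1 1 (i + 1) s * Fk 1 1 (k - (i + 1)) s) := by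
        rw [hrec]; ring
      rw [e]
      refine (norm_sub_le _ _).trans ?_
      rw [hS, add_mul]
      apply add_le_add
      · refine (hLk (k + 1) s h1 h2 h3).trans ?_
        apply mul_le_mul_of_nonneg_left _ (hA _).le
        exact pow_le_pow_right₀ hℓ1 (by omega)
      · refine (norm_sum_le _ _).trans ?_
        rw [Finset.sum_mul]
        apply Finset.sum_le_sum
        intro i hi
        have hik : i < k := Finset.mem_range.mp hi
        rw [norm_mul, norm_mul, Complex.norm_natCast, mul_assoc]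
        apply mul_le_mul_of_nonneg_left _ (Nat.cast_nonneg _)
        have g1 := hLk (i + 1) s h1 h2 h3
        have g2 := hFk (k - (i + 1)) (by omega) s h1 h2 h3
        calc ‖Lk 1 1 (i + 1) s‖ * ‖Fk 1 1 (k - (i + 1)) s‖
            ≤ (A (i + 1) * ℓ ^ (i + 1 + 1)) *
              (B (k - (i + 1)) * ℓ ^ (20 * (k - (i + 1) + 1))) :=
              mul_le_mul g1 g2 (norm_nonneg _) (by have := hA (i + 1); positivity)
          _ = (A (i + 1) * B (k - (i + 1))) * ℓ ^ ((i + 1 + 1) + 20 * (k - (i + 1) + 1)) := by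
              rw [pow_add]; ring
          _ ≤ (A (i + 1) * B (k - (i + 1))) * ℓ ^ (20 * (k + 1) - 9) := by
              apply mul_le_mul_of_nonneg_left _ (mul_nonneg (hA _).le (hB _).le)
              exact pow_le_pow_right₀ hℓ1 (by omega)
    have h4 : c / ℓ ^ 9 * ‖Fk 1 1 k s‖ ≤ S * ℓ ^ (20 * (k + 1) - 9) :=
      (mul_le_mul_of_nonneg_right hlow' (norm_nonneg _)).trans hnorm
    have h5 : ‖Fk 1 1 k s‖ ≤ (S * ℓ ^ (20 * (k + 1) - 9)) / (c / ℓ ^ 9) := by
      rw [le_div_iff₀ (by positivity)]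
      linarith [mul_comm (c / ℓ ^ 9) ‖Fk 1 1 k s‖]
    refine h5.trans (le_of_eq ?_)
    have h6 : 20 * (k + 1) = (20 * (k + 1) - 9) + 9 := by omega
    conv_rhs => rw [h6, pow_add]
    field_simp

theorem zetaF_high (k : ℕ) : ∃ C : ℝ, 0 < C ∧ ∀ s : ℂ, 1 < s.re → s.re ≤ 2 → 1 ≤ |s.im| →
    ‖LSeries (fun n => (((Lam n - 1) * Real.log n ^ k : ℝ) : ℂ)) s‖
      ≤ C * Real.log (|s.im| + 3) ^ (20 * (k + 1)) := by
  obtain ⟨C1, hC1, h1⟩ := swJ1_Fk k
  obtain ⟨C2, hC2, h2⟩ := swJ1_Lk k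
  refine ⟨C1 + C2, add_pos hC1 hC2, fun s hs1 hs2 hs3 => ?_⟩
  have hχ : ∀ n : ℕ, (1 : DirichletCharacter ℂ 1) (n : ZMod 1) = 1 := by
    intro n
    have : (n : ZMod 1) = 1 := Subsingleton.elim _ _
    rw [this, map_one]
  have e : (fun n : ℕ => (((Lam n - 1) * Real.log n ^ k : ℝ) : ℂ)) =
      (fun n : ℕ => ((Lam n * Real.log n ^ k : ℝ) : ℂ) * (1 : DirichletCharacter ℂ 1) (n : ZMod 1))
      - (fun n : ℕ => ((Real.log n : ℝ) : ℂ) ^ k * (1 : DirichletCharacter ℂ 1) (n : ZMod 1)) := by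
    funext n
    simp only [Pi.sub_apply, hχ, mul_one]
    push_cast
    ring
  have e2 : LSeries (fun n => (((Lam n - 1) * Real.log n ^ k : ℝ) : ℂ)) s
      = Fk 1 1 k s - Lk 1 1 k s := by
    rw [e]
    exact LSeries_sub (Fk_summable 1 1 k s hs1) (Lk_summable 1 1 k s hs1)
  rw [e2]
  refine (norm_sub_le _ _).trans ?_
  rw [add_mul]
  apply add_le_add (h1 s hs1 hs2 hs3)
  refine (h2 s hs1 hs2 hs3).trans ?_
  apply mul_le_mul_of_nonneg_left _ hC2.le
  exact pow_le_pow_right₀ (swJ1_log_ge _ (abs_nonneg _)) (by omega)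

end Pool.Agent.H91.EHA

end

section

/-!
# The prime number theorem with log-power saving

Same argument as in SwI with `a_n = (Λ(n) - 1)(log n)^k`.
-/

set_option autoImplicit false

namespace Pool.Agent.H91.EHA

open Finset
open Pool.Agent.H91.PK

/-- Abel's inequality. -/
theorem swj3_abel (a g : ℕ → ℝ) (M : ℝ) (n : ℕ) (hg : Antitone g) (hg0 : ∀ i, 0 ≤ g i)
    (hM : ∀ j, j ≤ n → |∑ i ∈ range j, a i| ≤ M) :
    |∑ i ∈ range n, g i * a i| ≤ M * g 0 := by
  have hM0 : 0 ≤ M := by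
    have := hM 0 (Nat.zero_le _)
    simpa using this
  rcases Nat.eq_zero_or_pos n with rfl | hn
  · simp only [Finset.range_zero, Finset.sum_empty, abs_zero]
    exact mul_nonneg hM0 (hg0 0)
  have h1 := Finset.sum_range_by_parts (M := ℝ) g a n
  simp only [smul_eq_mul] at h1
  rw [h1]
  have h2 : |g (n - 1) * ∑ i ∈ range n, a i| ≤ M * g (n - 1) := by
    rw [abs_mul, abs_of_nonneg (hg0 _), mul_comm]
    exact mul_le_mul_of_nonneg_right (hM n le_rfl) (hg0 _)
  have h3 : |∑ i ∈ range (n - 1), (g (i + 1) - g i) * ∑ j ∈ range (i + 1), a j|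
      ≤ ∑ i ∈ range (n - 1), M * (g i - g (i + 1)) := by
    refine (Finset.abs_sum_le_sum_abs _ _).trans (Finset.sum_le_sum fun i hi => ?_)
    have hi' := Finset.mem_range.mp hi
    have h4 : 0 ≤ g i - g (i + 1) := sub_nonneg.mpr (hg (Nat.le_succ i))
    rw [abs_mul, abs_sub_comm, abs_of_nonneg h4, mul_comm]
    exact mul_le_mul_of_nonneg_right (hM (i + 1) (by omega)) h4
  have h5 : ∑ i ∈ range (n - 1), M * (g i - g (i + 1)) = M * (g 0 - g (n - 1)) := by
    rw [← Finset.mul_sum, Finset.sum_range_sub']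
  calc |g (n - 1) * ∑ i ∈ range n, a i
        - ∑ i ∈ range (n - 1), (g (i + 1) - g i) * ∑ j ∈ range (i + 1), a j|
      ≤ |g (n - 1) * ∑ i ∈ range n, a i|
        + |∑ i ∈ range (n - 1), (g (i + 1) - g i) * ∑ j ∈ range (i + 1), a j| := abs_sub _ _
    _ ≤ M * g (n - 1) + M * (g 0 - g (n - 1)) := add_le_add h2 (h3.trans h5.le)
    _ = M * g 0 := by ring

theorem swj3_Lam_nonneg (n : ℕ) : 0 ≤ Lam n := ArithmeticFunction.vonMangoldt_nonneg

theorem swj3_Lam_le (n : ℕ) : Lam n ≤ Real.log n := ArithmeticFunction.vonMangoldt_le_log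

theorem swj3_log_nonneg (n : ℕ) : 0 ≤ Real.log (n : ℝ) := Real.log_natCast_nonneg n

theorem swj3_a_le (k n : ℕ) :
    |(Lam n - 1) * Real.log n ^ k| ≤ (Real.log n + 1) ^ (k + 1) := by
  have h0 := swj3_log_nonneg n
  have h1 := swj3_Lam_nonneg n
  have h2 := swj3_Lam_le n
  have h3 : |Lam n - 1| ≤ Real.log n + 1 := by
    rw [abs_le]; constructor <;> linarith only [h0, h1, h2]
  rw [abs_mul, abs_of_nonneg (pow_nonneg h0 k), pow_succ, mul_comm]
  refine mul_le_mul ?_ h3 (abs_nonneg _) (by positivity)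
  exact pow_le_pow_left₀ h0 (by linarith only) k

/-- summability of the Dirichlet series -/
theorem swj3_summable (k : ℕ) (s : ℂ) (hs : 1 < s.re) :
    LSeriesSummable (fun n => (((Lam n - 1) * Real.log n ^ k : ℝ) : ℂ)) s := by
  set ε : ℝ := (s.re - 1) / 2 with hε
  have hε0 : 0 < ε := by rw [hε]; linarith only [hs]
  set η : ℝ := ε / (k + 1) with hη
  have hη0 : 0 < η := by positivity
  refine LSeriesSummable_of_le_const_mul_rpow (x := 1 + ε) (by rw [hε]; linarith only [hs])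
    ⟨(1 / η + 1) ^ (k + 1), fun n hn => ?_⟩
  have hn1 : (1 : ℝ) ≤ n := by exact_mod_cast Nat.one_le_iff_ne_zero.mpr hn
  rw [Complex.norm_real, Real.norm_eq_abs]
  refine (swj3_a_le k n).trans ?_
  have h1 : Real.log n + 1 ≤ (1 / η + 1) * (n : ℝ) ^ η := by
    have h2 := Real.log_le_rpow_div (by positivity : (0 : ℝ) ≤ n) hη0
    have h3 : (1 : ℝ) ≤ (n : ℝ) ^ η := Real.one_le_rpow hn1 hη0.le
    have h4 : (n : ℝ) ^ η / η = 1 / η * (n : ℝ) ^ η := by ring
    rw [h4] at h2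
    linarith only [h2, h3]
  have h5 : (n : ℝ) ^ (1 + ε - 1) = ((n : ℝ) ^ η) ^ (k + 1) := by
    rw [← Real.rpow_natCast, ← Real.rpow_mul (by positivity)]
    congr 1
    rw [hη]
    push_cast
    field_simp
    ring
  rw [h5, ← mul_pow]
  refine pow_le_pow_left₀ ?_ h1 _
  have := swj3_log_nonneg n
  linarith only [this]

/-- the smooth sums -/
theorem swj3_smooth (k : ℕ) : ∃ C : ℝ, 0 < C ∧ ∀ N : ℕ, 1 ≤ N →
    ‖∑ n ∈ Icc 1 N, (((Lam n - 1) * Real.log n ^ k : ℝ) : ℂ) * ((om ((n : ℝ) / N) : ℝ) : ℂ)‖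
      ≤ C * N := by
  obtain ⟨C₁, hC₁, h₁⟩ := zetaF_high k
  obtain ⟨C₂, hC₂, h₂⟩ := zetaF_low k
  obtain ⟨C₃, hC₃, h₃⟩ := smooth_gen (20 * (k + 1))
  have hB0 : 0 < max C₁ C₂ := lt_max_of_lt_left hC₁
  refine ⟨C₃ * max C₁ C₂, by positivity, fun N hN => ?_⟩
  rcases Nat.lt_or_ge 1 N with h2 | h2
  · refine h₃ _ (max C₁ C₂) hB0.le (fun s hs1 hs2 => ⟨swj3_summable k s hs1, ?_⟩) N h2
    have hl1 : 1 ≤ Real.log (|s.im| + 3) := by
      rw [Real.le_log_iff_exp_le (by positivity)]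
      have := Real.exp_one_lt_d9
      have := abs_nonneg s.im
      linarith
    have hl2 : 1 ≤ Real.log (|s.im| + 3) ^ (20 * (k + 1)) := one_le_pow₀ hl1
    rcases le_total 1 |s.im| with h | h
    · refine (h₁ s hs1 hs2 h).trans ?_
      exact mul_le_mul_of_nonneg_right (le_max_left _ _) (by positivity)
    · refine (h₂ s hs1 hs2 h).trans ?_
      calc C₂ ≤ max C₁ C₂ := le_max_right _ _
        _ = max C₁ C₂ * 1 := (mul_one _).symm
        _ ≤ _ := mul_le_mul_of_nonneg_left hl2 hB0.le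
  · have : N = 1 := by omega
    subst this
    have ho : om 1 = 0 := om_eq_zero le_rfl
    simp only [Finset.Icc_self, Finset.sum_singleton, Nat.cast_one, div_one, ho,
      Complex.ofReal_zero, mul_zero, norm_zero, mul_one]
    positivity

/-- sharp sums with weights -/
theorem swj3_sharp (k : ℕ) : ∃ C : ℝ, 0 < C ∧ ∀ (m y : ℕ), 1 ≤ m → 3 ≤ y → ∀ z : ℕ, z ≤ y →
    |∑ n ∈ Icc 1 z, (Lam n - 1) * Real.log n ^ k| ≤
      C * (y * Real.log y ^ (3 * m) + Real.log y ^ (k + 1) * (y / Real.log y ^ m) +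
        Real.log y ^ (k + 1) * Real.log y ^ (3 * m)) := by
  obtain ⟨C₁, hC₁, h₁⟩ := swj3_smooth k
  obtain ⟨C₂, hC₂, h₂⟩ := smooth_to_sharp
  refine ⟨1 + C₂ * (18 * C₁ + 9 * 3 ^ (k + 1)), by positivity, fun m y hm hy z hz => ?_⟩
  have hy' : (3 : ℝ) ≤ y := by exact_mod_cast hy
  set L : ℝ := Real.log y with hL
  have hL1 : 1 ≤ L := by
    rw [hL, Real.le_log_iff_exp_le (by linarith only [hy'])]
    have := Real.exp_one_lt_d9
    linarith only [hy', this]
  have hL0 : 0 < L := by linarith only [hL1]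
  have hRHS1 : 1 ≤ L ^ (3 * m) := one_le_pow₀ hL1
  have hLm : 1 ≤ L ^ m := one_le_pow₀ hL1
  have hLm' : L ≤ L ^ (3 * m) := by
    calc L = L ^ 1 := (pow_one L).symm
      _ ≤ L ^ (3 * m) := pow_le_pow_right₀ hL1 (by omega)
  have hR0 : 0 ≤ y * L ^ (3 * m) + L ^ (k + 1) * (y / L ^ m) + L ^ (k + 1) * L ^ (3 * m) := by
    positivity
  rcases Nat.lt_or_ge z 2 with hz2 | hz2
  · -- z = 0 or z = 1
    have h5 : |∑ n ∈ Icc 1 z, (Lam n - 1) * Real.log n ^ k| ≤ 1 := by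
      interval_cases z
      · simp
      · simp only [Finset.Icc_self, Finset.sum_singleton, Nat.cast_one, Real.log_one]
        have hl : Lam 1 = 0 := by simp [Lam]
        rw [hl]
        rcases Nat.eq_zero_or_pos k with rfl | hk
        · simp
        · rw [zero_pow (by omega)]; simp
    refine h5.trans ?_
    have h6 : 1 ≤ y * L ^ (3 * m) + L ^ (k + 1) * (y / L ^ m) + L ^ (k + 1) * L ^ (3 * m) := by
      have h7 : 1 ≤ (y : ℝ) * L ^ (3 * m) := by nlinarith only [hy', hRHS1]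
      have h8 : 0 ≤ L ^ (k + 1) * (y / L ^ m) := by positivity
      have h9 : 0 ≤ L ^ (k + 1) * L ^ (3 * m) := by positivity
      linarith only [h7, h8, h9]
    have h7 : 1 ≤ 1 + C₂ * (18 * C₁ + 9 * 3 ^ (k + 1)) := by
      have : 0 ≤ C₂ * (18 * C₁ + 9 * 3 ^ (k + 1)) := by positivity
      linarith only [this]
    nlinarith only [h6, hR0, h7]
  · have hzy : (z : ℝ) ≤ y := by exact_mod_cast hz
    have hz0 : (2 : ℝ) ≤ z := by exact_mod_cast hz2
    set δ : ℝ := 1 / (2 * L ^ m) with hδ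
    have hδ0 : 0 < δ := by positivity
    have hδ1 : δ ≤ 1 / 2 := by
      rw [hδ, div_le_div_iff₀ (by positivity) (by norm_num)]
      linarith only [hLm]
    have h3L : Real.log (2 * z) + 1 ≤ 3 * L := by
      have e1 : Real.log (2 * z) = Real.log 2 + Real.log z :=
        Real.log_mul (by norm_num) (by linarith only [hz0, hδ0, hδ1])
      have e2 : Real.log z ≤ L := Real.log_le_log (by linarith only [hz0, hδ0, hδ1]) hzy
      have e3 : Real.log 2 ≤ 1 := by
        have := Real.log_two_lt_d9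
        linarith only [hδ0, hδ1, this]
      linarith only [hL1, e1, e2, e3]
    have hlz0 : 0 ≤ Real.log (2 * z) := Real.log_nonneg (by linarith only [hz0, hδ0, hδ1])
    have hlz : Real.log z ≤ L := Real.log_le_log (by linarith only [hz0, hδ0, hδ1]) hzy
    have key := h₂ (fun n => (((Lam n - 1) * Real.log n ^ k : ℝ) : ℂ)) (C₁ * (2 * z))
      ((3 * L) ^ (k + 1)) 1 z δ (by positivity) (by positivity) le_rfl hz2 hδ0 hδ1 ?_ ?_
    · have e1 : ‖∑ n ∈ Icc 1 z, (((Lam n - 1) * Real.log n ^ k : ℝ) : ℂ)‖ =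
          |∑ n ∈ Icc 1 z, (Lam n - 1) * Real.log n ^ k| := by
        rw [← Complex.ofReal_sum, Complex.norm_real, Real.norm_eq_abs]
      rw [e1] at key
      refine key.trans ?_
      have e3 : 1 / δ ^ 3 = 8 * L ^ (3 * m) := by
        rw [hδ]
        field_simp
        ring
      have e4 : δ * z ≤ y / L ^ m := by
        rw [hδ, div_mul_eq_mul_div, one_mul]
        refine div_le_div₀ (by positivity) hzy (by positivity) ?_
        linarith only [hLm, hδ0, hδ1]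
      rw [e3]
      have p1 : C₁ * (2 * z) * (8 * L ^ (3 * m) + Real.log z) ≤ 18 * C₁ * (y * L ^ (3 * m)) := by
        have q1 : 8 * L ^ (3 * m) + Real.log z ≤ 9 * L ^ (3 * m) := by linarith only [hLm', hlz]
        calc C₁ * (2 * z) * (8 * L ^ (3 * m) + Real.log z)
            ≤ C₁ * (2 * y) * (9 * L ^ (3 * m)) := by
              refine mul_le_mul ?_ q1 ?_ (by positivity)
              · exact mul_le_mul_of_nonneg_left (by linarith only [hzy]) hC₁.le
              · have : 0 ≤ Real.log z := Real.log_nonneg (by linarith only [hz0, hδ0, hδ1])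
                positivity
          _ = 18 * C₁ * (y * L ^ (3 * m)) := by ring
      have p2 : (3 * L) ^ (k + 1) * (δ * z + Real.log z + 1 * (8 * L ^ (3 * m)))
          ≤ 9 * 3 ^ (k + 1) * (L ^ (k + 1) * (y / L ^ m) + L ^ (k + 1) * L ^ (3 * m)) := by
        have q0 : 0 ≤ (y : ℝ) / L ^ m := by positivity
        have q1 : δ * z + Real.log z + 1 * (8 * L ^ (3 * m)) ≤
            9 * (y / L ^ m) + 9 * L ^ (3 * m) := by linarith only [hLm', hlz, e4, q0]
        calc (3 * L) ^ (k + 1) * (δ * z + Real.log z + 1 * (8 * L ^ (3 * m)))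
            ≤ (3 * L) ^ (k + 1) * (9 * (y / L ^ m) + 9 * L ^ (3 * m)) :=
              mul_le_mul_of_nonneg_left q1 (by positivity)
          _ = _ := by rw [mul_pow]; ring
      have e5 : (1 : ℝ) / δ ^ 3 = 1 * (8 * L ^ (3 * m)) := by rw [e3]; ring
      have t1 : 0 ≤ (y : ℝ) * L ^ (3 * m) := by positivity
      have t2 : 0 ≤ L ^ (k + 1) * (y / L ^ m) := by positivity
      have t3 : 0 ≤ L ^ (k + 1) * L ^ (3 * m) := by positivity
      have t4 : 0 ≤ 9 * (3 : ℝ) ^ (k + 1) := by positivity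
      have p3 : C₁ * (2 * z) * (8 * L ^ (3 * m) + Real.log z) +
          (3 * L) ^ (k + 1) * (δ * z + Real.log z + 8 * L ^ (3 * m)) ≤
          (18 * C₁ + 9 * 3 ^ (k + 1)) *
            (y * L ^ (3 * m) + L ^ (k + 1) * (y / L ^ m) + L ^ (k + 1) * L ^ (3 * m)) := by
        rw [one_mul] at p2
        nlinarith only [p1, p2, hC₁, t2, t3, t4, t1, mul_nonneg hC₁.le t2, mul_nonneg hC₁.le t3, mul_nonneg t4 t1]
      calc C₂ * (C₁ * (2 * z) * (8 * L ^ (3 * m) + Real.log z) +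
          (3 * L) ^ (k + 1) * (δ * z + Real.log z + 8 * L ^ (3 * m)))
          ≤ C₂ * ((18 * C₁ + 9 * 3 ^ (k + 1)) *
            (y * L ^ (3 * m) + L ^ (k + 1) * (y / L ^ m) + L ^ (k + 1) * L ^ (3 * m))) :=
            mul_le_mul_of_nonneg_left p3 hC₂.le
        _ ≤ (1 + C₂ * (18 * C₁ + 9 * 3 ^ (k + 1))) *
            (y * L ^ (3 * m) + L ^ (k + 1) * (y / L ^ m) + L ^ (k + 1) * L ^ (3 * m)) := by
            linarith only [hR0]
    · intro N hN1 hN2
      refine (h₁ N hN1).trans ?_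
      refine mul_le_mul_of_nonneg_left ?_ hC₁.le
      exact_mod_cast hN2
    · intro u v huv hv
      have hterm : ∀ n ∈ Ioc u v, ‖(((Lam n - 1) * Real.log n ^ k : ℝ) : ℂ)‖ ≤ (3 * L) ^ (k + 1) := by
        intro n hn
        have hn' := Finset.mem_Ioc.mp hn
        rw [Complex.norm_real, Real.norm_eq_abs]
        refine (swj3_a_le k n).trans (pow_le_pow_left₀ ?_ ?_ _)
        · have := swj3_log_nonneg n
          linarith only [hδ0, hδ1, this]
        · have hn1 : (0 : ℝ) < n := by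
            have : 0 < n := by omega
            exact_mod_cast this
          have hn2 : (n : ℝ) ≤ 2 * z := by
            have : n ≤ 2 * z := by omega
            exact_mod_cast this
          have := Real.log_le_log hn1 hn2
          linarith only [h3L, this]
      refine (Finset.sum_le_sum hterm).trans ?_
      rw [Finset.sum_const, nsmul_eq_mul, Nat.card_Ioc, mul_comm, Nat.cast_sub huv]
      refine mul_le_mul_of_nonneg_left ?_ (by positivity)
      linarith only [hδ0, hδ1]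

theorem swj3_pow_le (n : ℕ) (x : ℝ) (hx : 0 ≤ x) : x ^ n ≤ (n.factorial : ℝ) * Real.exp x := by
  have h := Real.pow_div_factorial_le_exp x hx n
  rw [div_le_iff₀ (by exact_mod_cast n.factorial_pos)] at h
  linarith only [h]

theorem pnt (c : ℕ) : ∃ C : ℝ, 0 < C ∧ ∀ y : ℕ, 2 ≤ y →
    |(∑ n ∈ Icc 1 y, Lam n) - y| ≤ C * y / Real.log y ^ c := by
  set m : ℕ := c + 1 with hm
  set k : ℕ := 3 * m + c with hk
  obtain ⟨C₀, hC₀, h₀⟩ := swj3_sharp k
  set F₁ : ℝ := ((1 + 3 * m + c).factorial : ℝ) with hF₁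
  set F₂ : ℝ := ((c + 1).factorial : ℝ) with hF₂
  have hF₁0 : 0 < F₁ := by rw [hF₁]; exact_mod_cast Nat.factorial_pos _
  have hF₂0 : 0 < F₂ := by rw [hF₂]; exact_mod_cast Nat.factorial_pos _
  refine ⟨2 + 2 * (2 * C₀) * 2 ^ k * (2 + F₁) + 2 * (2 ^ (c + 1) * F₂), by positivity,
    fun y hy => ?_⟩
  have hyR : (2 : ℝ) ≤ y := by exact_mod_cast hy
  have hrew : (∑ n ∈ Icc 1 y, Lam n) - y = ∑ n ∈ Icc 1 y, (Lam n - 1) := by
    rw [Finset.sum_sub_distrib]
    simp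
  rw [hrew]
  rcases Nat.lt_or_ge y 3 with hy3 | hy3
  · have hy2 : y = 2 := by omega
    subst hy2
    have e1 : Icc 1 2 = {1, 2} := by decide
    have hl1 : Lam 1 = 0 := by simp [Lam]
    have hl2 := swj3_Lam_le 2
    have hl2' := swj3_Lam_nonneg 2
    have hlog := Real.log_two_lt_d9
    have hlog0 : 0 < Real.log 2 := Real.log_pos (by norm_num)
    rw [e1, Finset.sum_pair (by norm_num), hl1]
    push_cast at hl2
    have h3 : |0 - 1 + (Lam 2 - 1)| ≤ 2 := by
      rw [abs_le]; constructor <;> linarith only [hl2', hl2, hlog, hlog0]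
    refine h3.trans ?_
    push_cast
    have hp : Real.log 2 ^ c ≤ 1 := pow_le_one₀ hlog0.le (by linarith only [hlog, hlog0])
    have hp0 : 0 < Real.log 2 ^ c := by positivity
    rw [le_div_iff₀ hp0]
    have hbig : 0 ≤ 2 * (2 * C₀) * 2 ^ k * (2 + F₁) + 2 * (2 ^ (c + 1) * F₂) := by positivity
    nlinarith only [hlog, hlog0, hp, hbig]
  · have hy3' : (3 : ℝ) ≤ y := by exact_mod_cast hy3
    obtain ⟨L, hL⟩ : ∃ L : ℝ, L = Real.log y := ⟨_, rfl⟩
    have hL1 : 1 ≤ L := by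
      rw [hL, Real.le_log_iff_exp_le (by linarith only [hy3'])]
      have := Real.exp_one_lt_d9
      linarith only [hy3', this]
    have hL0 : 0 < L := by linarith only [hL1]
    have hexp : Real.exp L = y := by rw [hL, Real.exp_log (by linarith only [hy3'])]
    rw [← hL]
    set w : ℕ := Nat.sqrt y with hw
    have hwy : w ≤ y := Nat.sqrt_le_self y
    have hw1 : 1 ≤ w := by
      rw [hw, Nat.one_le_iff_ne_zero]
      intro h
      rw [Nat.sqrt_eq_zero] at h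
      omega
    have hww : w * w ≤ y := Nat.sqrt_le y
    have hww' : y < (w + 1) * (w + 1) := Nat.lt_succ_sqrt y
    -- log (w+1) ≥ L/2
    have hlw : L / 2 ≤ Real.log ((w : ℝ) + 1) := by
      have h1 : (y : ℝ) ≤ ((w : ℝ) + 1) * ((w : ℝ) + 1) := by exact_mod_cast hww'.le
      have h2 := Real.log_le_log (by linarith only [hy3']) h1
      rw [Real.log_mul (by positivity) (by positivity), ← hL] at h2
      linarith only [h2]
    -- w ≤ exp (L/2)
    have hwe : (w : ℝ) ≤ Real.exp (L / 2) := by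
      have h1 : (w : ℝ) * w ≤ y := by exact_mod_cast hww
      have h2 : Real.exp (L / 2) * Real.exp (L / 2) = y := by
        rw [← Real.exp_add, ← hexp]; congr 1; ring
      rw [← h2] at h1
      exact le_of_not_gt fun h9 => absurd h1 (not_le.mpr (mul_self_lt_mul_self (Real.exp_pos _).le h9))
    -- split
    have hsplit : ∑ n ∈ Icc 1 y, (Lam n - 1) =
        ∑ n ∈ Icc 1 w, (Lam n - 1) + ∑ i ∈ range (y - w), (Lam (w + 1 + i) - 1) := by
      have e1 : Icc 1 y = Icc 1 w ∪ Ico (w + 1) (y + 1) := by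
        ext n
        simp only [Finset.mem_Icc, Finset.mem_union, Finset.mem_Ico]
        omega
      rw [e1, Finset.sum_union, Finset.sum_Ico_eq_sum_range]
      · have : y + 1 - (w + 1) = y - w := by omega
        rw [this]
      · rw [Finset.disjoint_left]
        intro n hn hn'
        rw [Finset.mem_Icc] at hn
        rw [Finset.mem_Ico] at hn'
        omega
    -- first part
    have hpart1 : |∑ n ∈ Icc 1 w, (Lam n - 1)| ≤ 2 * (2 ^ (c + 1) * F₂) * y / L ^ c := by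
      have h1 : |∑ n ∈ Icc 1 w, (Lam n - 1)| ≤ w * (2 * L) := by
        refine (Finset.abs_sum_le_sum_abs _ _).trans ?_
        have h2 : ∀ n ∈ Icc 1 w, |Lam n - 1| ≤ 2 * L := by
          intro n hn
          have hn' := Finset.mem_Icc.mp hn
          have h3 := swj3_Lam_nonneg n
          have h4 := swj3_Lam_le n
          have h5 : Real.log n ≤ L := by
            rw [hL]
            refine Real.log_le_log (by exact_mod_cast hn'.1) ?_
            exact_mod_cast hn'.2.trans hwy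
          rw [abs_le]; constructor <;> linarith only [hL1, h3, h4, h5]
        refine (Finset.sum_le_sum h2).trans ?_
        rw [Finset.sum_const, nsmul_eq_mul, Nat.card_Icc]
        simp
      refine h1.trans ?_
      rw [le_div_iff₀ (by positivity)]
      have h2 := swj3_pow_le (c + 1) (L / 2) (by positivity)
      have h3 : L ^ (c + 1) = 2 ^ (c + 1) * (L / 2) ^ (c + 1) := by
        rw [← mul_pow]; congr 1; ring
      have h4 : Real.exp (L / 2) * Real.exp (L / 2) = y := by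
        rw [← Real.exp_add, ← hexp]; congr 1; ring
      calc (w : ℝ) * (2 * L) * L ^ c = 2 * (w * L ^ (c + 1)) := by ring
        _ ≤ 2 * (Real.exp (L / 2) * (2 ^ (c + 1) * (F₂ * Real.exp (L / 2)))) := by
            refine mul_le_mul_of_nonneg_left ?_ (by norm_num)
            refine mul_le_mul hwe ?_ (by positivity) (Real.exp_pos _).le
            rw [h3]
            exact mul_le_mul_of_nonneg_left h2 (by positivity)
        _ = 2 * (2 ^ (c + 1) * F₂) * (Real.exp (L / 2) * Real.exp (L / 2)) := by ring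
        _ = 2 * (2 ^ (c + 1) * F₂) * y := by rw [h4]
    -- second part
    obtain ⟨M, hM⟩ : ∃ M : ℝ, M = C₀ * (y * L ^ (3 * m) + L ^ (k + 1) * (y / L ^ m) +
        L ^ (k + 1) * L ^ (3 * m)) := ⟨_, rfl⟩
    have hA : ∀ z : ℕ, z ≤ y → |∑ n ∈ Icc 1 z, (Lam n - 1) * Real.log n ^ k| ≤ M := by
      intro z hz
      have := h₀ m y (by omega) hy3 z hz
      rw [← hL] at this
      rw [hM]
      exact this
    have hgpos : ∀ i : ℕ, 0 < Real.log ((w + 1 + i : ℕ) : ℝ) := by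
      intro i
      refine Real.log_pos ?_
      have : 1 < w + 1 + i := by omega
      exact_mod_cast this
    have habel := swj3_abel (fun i => (Lam (w + 1 + i) - 1) * Real.log ((w + 1 + i : ℕ) : ℝ) ^ k)
      (fun i => 1 / Real.log ((w + 1 + i : ℕ) : ℝ) ^ k) (2 * M) (y - w) ?_ ?_ ?_
    rotate_left
    · intro i j hij
      have h1 := hgpos i
      have h2 : Real.log ((w + 1 + i : ℕ) : ℝ) ≤ Real.log ((w + 1 + j : ℕ) : ℝ) := by
        refine Real.log_le_log (by positivity) ?_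
        exact_mod_cast Nat.add_le_add_left hij _
      refine one_div_le_one_div_of_le (by positivity) ?_
      exact pow_le_pow_left₀ h1.le h2 k
    · intro i
      have h1 := hgpos i
      positivity
    · intro j hj
      have e1 : ∑ i ∈ range j, (Lam (w + 1 + i) - 1) * Real.log ((w + 1 + i : ℕ) : ℝ) ^ k =
          ∑ n ∈ Icc 1 (w + j), (Lam n - 1) * Real.log n ^ k -
            ∑ n ∈ Icc 1 w, (Lam n - 1) * Real.log n ^ k := by
        have e2 : Icc 1 (w + j) = Icc 1 w ∪ Ico (w + 1) (w + j + 1) := by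
          ext n
          simp only [Finset.mem_Icc, Finset.mem_union, Finset.mem_Ico]
          omega
        rw [e2, Finset.sum_union, Finset.sum_Ico_eq_sum_range]
        · have : w + j + 1 - (w + 1) = j := by omega
          rw [this]
          ring
        · rw [Finset.disjoint_left]
          intro n hn hn'
          rw [Finset.mem_Icc] at hn
          rw [Finset.mem_Ico] at hn'
          omega
      rw [e1]
      have h1 := hA (w + j) (by omega)
      have h2 := hA w hwy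
      refine (abs_sub _ _).trans ?_
      linarith only [h1, h2]
    have hsum2 : ∑ i ∈ range (y - w), (1 / Real.log ((w + 1 + i : ℕ) : ℝ) ^ k) *
        ((Lam (w + 1 + i) - 1) * Real.log ((w + 1 + i : ℕ) : ℝ) ^ k) =
        ∑ i ∈ range (y - w), (Lam (w + 1 + i) - 1) := by
      refine Finset.sum_congr rfl (fun i _ => ?_)
      have h1 : Real.log ((w + 1 + i : ℕ) : ℝ) ^ k ≠ 0 := (pow_pos (hgpos i) k).ne'
      field_simp
    rw [hsum2] at habel
    have hM0 : 0 ≤ M := by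
      have := hA 0 (Nat.zero_le _)
      exact (abs_nonneg _).trans this
    have hg0 : 1 / Real.log ((w + 1 + 0 : ℕ) : ℝ) ^ k ≤ 2 ^ k / L ^ k := by
      have h1 : (L / 2) ^ k ≤ Real.log ((w + 1 + 0 : ℕ) : ℝ) ^ k := by
        refine pow_le_pow_left₀ (by positivity) ?_ k
        push_cast
        rw [add_zero]
        exact hlw
      calc 1 / Real.log ((w + 1 + 0 : ℕ) : ℝ) ^ k ≤ 1 / (L / 2) ^ k :=
            one_div_le_one_div_of_le (by positivity) h1
        _ = 2 ^ k / L ^ k := by rw [div_pow]; field_simp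
    have hMle : M * (2 ^ k / L ^ k) ≤ C₀ * 2 ^ k * (2 + F₁) * y / L ^ c := by
      have hk1 : L ^ k = L ^ (3 * m) * L ^ c := by rw [hk, pow_add]
      have hk2 : L ^ (k + 1) = L ^ k * L := pow_succ _ _
      have hm1 : L ^ m = L ^ c * L := by rw [hm, pow_succ]
      have hfac := swj3_pow_le (1 + 3 * m + c) L hL0.le
      rw [hexp, ← hF₁] at hfac
      have hfac2 : L ^ (1 + 3 * m + c) = L * L ^ (3 * m) * L ^ c := by
        rw [pow_add, pow_add, pow_one]
      rw [hfac2] at hfac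
      rw [hM, le_div_iff₀ (by positivity)]
      have hLc : 0 < L ^ c := by positivity
      have hL3 : 0 < L ^ (3 * m) := by positivity
      have hident : C₀ * (y * L ^ (3 * m) + L ^ (k + 1) * (y / L ^ m) +
          L ^ (k + 1) * L ^ (3 * m)) * (2 ^ k / L ^ k) * L ^ c =
          C₀ * 2 ^ k * (y + y + L * L ^ (3 * m) * L ^ c) := by
        rw [hk2, hm1, hk1]
        field_simp
      rw [hident]
      have : (y : ℝ) + y + L * L ^ (3 * m) * L ^ c ≤ (2 + F₁) * y := by linarith only [hfac]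
      calc C₀ * 2 ^ k * (y + y + L * L ^ (3 * m) * L ^ c) ≤ C₀ * 2 ^ k * ((2 + F₁) * y) :=
            mul_le_mul_of_nonneg_left this (by positivity)
        _ = _ := by ring
    have hpart2 : |∑ i ∈ range (y - w), (Lam (w + 1 + i) - 1)| ≤
        2 * (2 * C₀) * 2 ^ k * (2 + F₁) * y / L ^ c := by
      refine habel.trans ?_
      calc 2 * M * (1 / Real.log ((w + 1 + 0 : ℕ) : ℝ) ^ k) ≤ 2 * M * (2 ^ k / L ^ k) :=
            mul_le_mul_of_nonneg_left hg0 (by positivity)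
        _ = 2 * (M * (2 ^ k / L ^ k)) := by ring
        _ ≤ 2 * (C₀ * 2 ^ k * (2 + F₁) * y / L ^ c) :=
            mul_le_mul_of_nonneg_left hMle (by norm_num)
        _ ≤ 2 * (C₀ * 2 ^ k * (2 + F₁) * y / L ^ c) + 2 * (C₀ * 2 ^ k * (2 + F₁) * y / L ^ c) := by
            have : 0 ≤ 2 * (C₀ * 2 ^ k * (2 + F₁) * y / L ^ c) := by positivity
            linarith only [this]
        _ = _ := by ring
    rw [hsplit]
    refine (abs_add_le _ _).trans ?_
    have h20 : 0 ≤ 2 * (y : ℝ) / L ^ c := by positivity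
    calc |∑ n ∈ Icc 1 w, (Lam n - 1)| + |∑ i ∈ range (y - w), (Lam (w + 1 + i) - 1)|
        ≤ 2 * (2 ^ (c + 1) * F₂) * y / L ^ c + 2 * (2 * C₀) * 2 ^ k * (2 + F₁) * y / L ^ c :=
          add_le_add hpart1 hpart2
      _ ≤ 2 * (y : ℝ) / L ^ c + (2 * (2 ^ (c + 1) * F₂) * y / L ^ c +
            2 * (2 * C₀) * 2 ^ k * (2 + F₁) * y / L ^ c) := by linarith only [h20]
      _ = _ := by ring

end Pool.Agent.H91.EHA

end

section

/-!
# The Siegel-Walfisz theorem for primitive characters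

`a_n = Λ(n)χ(n)(log n)^k`, `LSeries a = Fk q χ k`.  By `Fk_le k ε'` and `smooth_gen`, for `2 ≤ N ≤ 2z`:
`‖∑ a_n om(n/N)‖ ≤ C q^{ε'} z` (`N = 1`: `a_1 = 0`).  `smooth_to_sharp` with `y = z`,
`H = log(2z)^{k+1}`, `P = 1`, `δ = 1/(2 (log y)^{c+1})`-like: for `√y ≤ z ≤ y`
`‖∑_{n≤z} a_n‖ ≤ C z (q^{ε'} δ^{-3} log z + (log 2z)^{k+1} δ) + ...`.
Abel summation divides by `(log n)^k` (for `n ≤ √y` use the trivial bound `√y log y`); take
`ε' = 1/(B+1)`, `k = 4c + 10`, so `q^{ε'} ≤ log y`.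
For small `y` (bounded) enlarge the constant (`‖sum‖ ≤ y log y`).
-/

set_option autoImplicit false

namespace Pool.Agent.H91.EHA

open Finset
open Pool.Agent.H91.PK

private theorem swI_abel (a : ℕ → ℂ) (f : ℕ → ℝ) (M : ℝ) (z0 y : ℕ) (hz : z0 + 1 ≤ y)
    (hf : ∀ n, z0 + 1 ≤ n → f (n + 1) ≤ f n) (hf0 : ∀ n, z0 + 1 ≤ n → 0 ≤ f n)
    (hA : ∀ z, z ≤ y → ‖∑ n ∈ Icc 1 z, a n‖ ≤ M) :
    ‖∑ n ∈ Ioc z0 y, (f n : ℂ) * a n‖ ≤ 2 * M * f (z0 + 1) := by
  have hM : 0 ≤ M := le_trans (norm_nonneg _) (hA 0 (by omega))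
  have claim : ∀ m, z0 + 1 ≤ m → m ≤ y →
      ‖∑ n ∈ Ioc z0 m, (f n : ℂ) * a n - (f m : ℂ) * ∑ n ∈ Icc 1 m, a n‖ ≤
        M * (2 * f (z0 + 1) - f m) := by
    intro m hm
    induction m, hm using Nat.le_induction with
    | base =>
      intro hy
      rw [Finset.sum_Icc_succ_top (by omega : 1 ≤ z0 + 1), mul_add,
        show Ioc z0 (z0 + 1) = {z0 + 1} by ext x; simp only [mem_Ioc, mem_singleton]; omega,
        Finset.sum_singleton]
      have e : (f (z0 + 1) : ℂ) * a (z0 + 1) - ((f (z0 + 1) : ℂ) * ∑ n ∈ Icc 1 z0, a n +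
          (f (z0 + 1) : ℂ) * a (z0 + 1)) = -((f (z0 + 1) : ℂ) * ∑ n ∈ Icc 1 z0, a n) := by ring
      rw [e, norm_neg, norm_mul, Complex.norm_real, Real.norm_eq_abs,
        abs_of_nonneg (hf0 _ le_rfl)]
      have := mul_le_mul_of_nonneg_left (hA z0 (by omega)) (hf0 _ (le_refl (z0 + 1)))
      linarith only [this]
    | succ m hm ih =>
      intro hy
      have ih' := ih (by omega)
      rw [Finset.sum_Ioc_succ_top (by omega : z0 ≤ m), Finset.sum_Icc_succ_top (by omega : 1 ≤ m + 1)]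
      have e : ∑ n ∈ Ioc z0 m, (f n : ℂ) * a n + (f (m + 1) : ℂ) * a (m + 1) -
          (f (m + 1) : ℂ) * (∑ n ∈ Icc 1 m, a n + a (m + 1)) =
          (∑ n ∈ Ioc z0 m, (f n : ℂ) * a n - (f m : ℂ) * ∑ n ∈ Icc 1 m, a n) +
            ((f m - f (m + 1) : ℝ) : ℂ) * ∑ n ∈ Icc 1 m, a n := by
        push_cast; ring
      rw [e]
      refine le_trans (norm_add_le _ _) ?_
      rw [norm_mul, Complex.norm_real, Real.norm_eq_abs, abs_of_nonneg (sub_nonneg.2 (hf m hm))]
      have := mul_le_mul_of_nonneg_left (hA m (by omega)) (sub_nonneg.2 (hf m hm))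
      nlinarith only [ih', this]
  have h1 := claim y hz le_rfl
  have h2 : ‖(f y : ℂ) * ∑ n ∈ Icc 1 y, a n‖ ≤ f y * M := by
    rw [norm_mul, Complex.norm_real, Real.norm_eq_abs, abs_of_nonneg (hf0 y hz)]
    exact mul_le_mul_of_nonneg_left (hA y le_rfl) (hf0 y hz)
  have e : ∑ n ∈ Ioc z0 y, (f n : ℂ) * a n =
      (∑ n ∈ Ioc z0 y, (f n : ℂ) * a n - (f y : ℂ) * ∑ n ∈ Icc 1 y, a n) +
        (f y : ℂ) * ∑ n ∈ Icc 1 y, a n := by ring
  rw [e]
  refine le_trans (norm_add_le _ _) ?_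
  linarith only [h1, h2]

private theorem swI_Lam_le {n : ℕ} : Lam n ≤ Real.log n := ArithmeticFunction.vonMangoldt_le_log

private theorem swI_Lam_nonneg {n : ℕ} : 0 ≤ Lam n := ArithmeticFunction.vonMangoldt_nonneg

private theorem swI_pow_le (m : ℕ) {L : ℝ} (hL : 0 ≤ L) : L ^ m ≤ m.factorial * Real.exp L := by
  have h := Real.pow_div_factorial_le_exp L hL m
  have h0 : (0 : ℝ) < m.factorial := by exact_mod_cast m.factorial_pos
  rw [div_le_iff₀ h0] at h
  linarith only [h]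

/-- The partial sums of `Λ(n) χ(n) (log n)^k`. -/
private theorem swI_partial (k : ℕ) (ε : ℝ) (hε : 0 < ε) : ∃ C : ℝ, 0 < C ∧ ∀ q : ℕ, 2 ≤ q →
    ∀ χ : DirichletCharacter ℂ q, χ.IsPrimitive → ∀ (y : ℕ) (δ : ℝ), 2 ≤ y → 0 < δ → δ ≤ 1 / 2 →
      ∀ z ≤ y, ‖∑ n ∈ Icc 1 z, ((Lam n * Real.log n ^ k : ℝ) : ℂ) * χ (n : ZMod q)‖ ≤
        C * ((q : ℝ) ^ ε * y * (1 / δ ^ 3 + Real.log y) +
          Real.log (2 * y) ^ (k + 1) * (δ * y + Real.log y + 1 / δ ^ 3)) := by
  obtain ⟨C1, hC1, h1⟩ := Fk_le k ε hε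
  obtain ⟨C2, hC2, h2⟩ := smooth_gen (20 * (k + 1))
  obtain ⟨C3, hC3, h3⟩ := smooth_to_sharp
  refine ⟨C3 * (2 * C2 * C1 + 1), by positivity, ?_⟩
  intro q hq χ hχ y δ hy hδ hδ2 z hz
  have hq0 : (0 : ℝ) < q := by exact_mod_cast (by omega : 0 < q)
  have hqe : 0 < (q : ℝ) ^ ε := Real.rpow_pos_of_pos hq0 ε
  have hy0 : (0 : ℝ) < y := by exact_mod_cast (by omega : 0 < y)
  have hly : 0 ≤ Real.log y := Real.log_natCast_nonneg y
  have hl2y : 0 ≤ Real.log (2 * y) := Real.log_nonneg (by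
    have : (2 : ℝ) ≤ y := by exact_mod_cast hy
    linarith only [hδ, hδ2, this])
  have hRHS : 0 ≤ C3 * (2 * C2 * C1 + 1) * ((q : ℝ) ^ ε * y * (1 / δ ^ 3 + Real.log y) +
          Real.log (2 * y) ^ (k + 1) * (δ * y + Real.log y + 1 / δ ^ 3)) := by positivity
  set a : ℕ → ℂ := fun n => ((Lam n * Real.log n ^ k : ℝ) : ℂ) * χ (n : ZMod q) with ha
  have ha1 : a 1 = 0 := by
    simp [ha, Lam]
  rcases Nat.lt_or_ge z 2 with hz2 | hz2
  · have hzero : ∑ n ∈ Icc 1 z, a n = 0 := by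
      apply Finset.sum_eq_zero
      intro n hn
      have := Finset.mem_Icc.1 hn
      have hn1 : n = 1 := by omega
      rw [hn1, ha1]
    rw [hzero, norm_zero]
    exact hRHS
  have hnorm : ∀ n, n ≤ 2 * y → ‖a n‖ ≤ Real.log (2 * y) ^ (k + 1) := by
    intro n hn
    rw [ha]
    simp only
    rw [norm_mul, Complex.norm_real, Real.norm_eq_abs]
    have hl0 : 0 ≤ Real.log n := Real.log_natCast_nonneg n
    have hln : Real.log n ≤ Real.log (2 * y) := by
      rcases Nat.eq_zero_or_pos n with h0 | h0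
      · subst h0; simpa using hl2y
      · apply Real.log_le_log (by exact_mod_cast h0)
        have : (n : ℝ) ≤ ((2 * y : ℕ) : ℝ) := by exact_mod_cast hn
        push_cast at this
        exact this
    rw [abs_of_nonneg (mul_nonneg swI_Lam_nonneg (pow_nonneg hl0 k))]
    calc Lam n * Real.log n ^ k * ‖χ (n : ZMod q)‖ ≤ Lam n * Real.log n ^ k * 1 :=
          mul_le_mul_of_nonneg_left (DirichletCharacter.norm_le_one χ _)
            (mul_nonneg swI_Lam_nonneg (pow_nonneg hl0 k))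
      _ ≤ Real.log n * Real.log n ^ k := by
          rw [mul_one]
          exact mul_le_mul_of_nonneg_right swI_Lam_le (pow_nonneg hl0 k)
      _ = Real.log n ^ (k + 1) := by ring
      _ ≤ Real.log (2 * y) ^ (k + 1) := pow_le_pow_left₀ hl0 hln _
  have key := h3 a (2 * C2 * C1 * ((q : ℝ) ^ ε) * y) (Real.log (2 * y) ^ (k + 1)) 1 z δ
    (by positivity) (by positivity) le_rfl hz2 hδ hδ2 ?_ ?_
  · refine le_trans key ?_
    have hlz : Real.log z ≤ Real.log y := by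
      apply Real.log_le_log (by exact_mod_cast (by omega : 0 < z))
      exact_mod_cast hz
    have hzy : (z : ℝ) ≤ y := by exact_mod_cast hz
    have hd3 : 0 < 1 / δ ^ 3 := by positivity
    have e1 : 2 * C2 * C1 * (q : ℝ) ^ ε * y * (1 / δ ^ 3 + Real.log z) ≤
        (2 * C2 * C1 + 1) * ((q : ℝ) ^ ε * y * (1 / δ ^ 3 + Real.log y)) := by
      have e2 : (q : ℝ) ^ ε * y * (1 / δ ^ 3 + Real.log z) ≤
          (q : ℝ) ^ ε * y * (1 / δ ^ 3 + Real.log y) := by gcongr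
      have e3 : 0 ≤ (q : ℝ) ^ ε * y * (1 / δ ^ 3 + Real.log y) := by positivity
      have e4 : 0 ≤ 2 * C2 * C1 := by positivity
      nlinarith only [e3, e2, e4, mul_le_mul_of_nonneg_left e2 e4]
    have e5 : Real.log (2 * y) ^ (k + 1) * (δ * z + Real.log z + 1 / δ ^ 3) ≤
        (2 * C2 * C1 + 1) *
          (Real.log (2 * y) ^ (k + 1) * (δ * y + Real.log y + 1 / δ ^ 3)) := by
      have e6 : Real.log (2 * y) ^ (k + 1) * (δ * z + Real.log z + 1 / δ ^ 3) ≤
          Real.log (2 * y) ^ (k + 1) * (δ * y + Real.log y + 1 / δ ^ 3) := by gcongr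
      have e7 : 0 ≤ Real.log (2 * y) ^ (k + 1) * (δ * y + Real.log y + 1 / δ ^ 3) := by positivity
      have e4 : 0 ≤ 2 * C2 * C1 := by positivity
      nlinarith only [e6, e4, e7, mul_nonneg e4 e7]
    have e8 := add_le_add e1 e5
    calc C3 * (2 * C2 * C1 * (q : ℝ) ^ ε * y * (1 / δ ^ 3 + Real.log z) +
          Real.log (2 * y) ^ (k + 1) * (δ * z + Real.log z + 1 / δ ^ 3))
        ≤ C3 * ((2 * C2 * C1 + 1) * ((q : ℝ) ^ ε * y * (1 / δ ^ 3 + Real.log y)) +
          (2 * C2 * C1 + 1) *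
          (Real.log (2 * y) ^ (k + 1) * (δ * y + Real.log y + 1 / δ ^ 3))) :=
          mul_le_mul_of_nonneg_left e8 hC3.le
      _ = _ := by ring
  · intro N hN1 hN2
    rcases Nat.lt_or_ge N 2 with hN | hN
    · have hN' : N = 1 := by omega
      subst hN'
      rw [Finset.Icc_self, Finset.sum_singleton, ha1, zero_mul, norm_zero]
      positivity
    · have h4 := h2 a (C1 * (q : ℝ) ^ ε) (by positivity) (fun s hs hs2 =>
        ⟨Fk_summable q χ k s hs, h1 q hq χ hχ s hs hs2⟩) N hN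
      refine le_trans h4 ?_
      have hN3 : (N : ℝ) ≤ 2 * y := by
        have : (N : ℝ) ≤ ((2 * y : ℕ) : ℝ) := by exact_mod_cast (by omega : N ≤ 2 * y)
        push_cast at this
        exact this
      calc C2 * (C1 * (q : ℝ) ^ ε) * N ≤ C2 * (C1 * (q : ℝ) ^ ε) * (2 * y) := by gcongr
        _ = 2 * C2 * C1 * (q : ℝ) ^ ε * y := by ring
  · intro u v huv hv
    calc ∑ n ∈ Ioc u v, ‖a n‖ ≤ ∑ n ∈ Ioc u v, Real.log (2 * y) ^ (k + 1) := by
          apply Finset.sum_le_sum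
          intro n hn
          exact hnorm n (by have := Finset.mem_Ioc.1 hn; omega)
      _ = ((v : ℝ) - u) * Real.log (2 * y) ^ (k + 1) := by
          rw [Finset.sum_const, Nat.card_Ioc, nsmul_eq_mul, Nat.cast_sub huv]
      _ ≤ Real.log (2 * y) ^ (k + 1) * ((v : ℝ) - u + 1) := by
          have : 0 ≤ Real.log (2 * y) ^ (k + 1) := by positivity
          nlinarith only [this]

theorem siegel_walfisz (B c : ℕ) : ∃ C : ℝ, 0 < C ∧ ∀ q : ℕ, 2 ≤ q →
    ∀ χ : DirichletCharacter ℂ q, χ.IsPrimitive → ∀ y : ℕ, 2 ≤ y → (q : ℝ) ≤ Real.log y ^ B →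
      ‖∑ n ∈ Icc 1 y, ((Lam n : ℝ) : ℂ) * χ (n : ZMod q)‖ ≤ C * y / Real.log y ^ c := by
  obtain ⟨C, hC, hpart⟩ := swI_partial (4 * c + 4) (1 / ((B : ℝ) + 1)) (by positivity)
  set k : ℕ := 4 * c + 4 with hk
  refine ⟨2 ^ (c + 1) * (c + 1).factorial + 2 ^ (k + 1) * (C * (9 + 2 ^ k +
    9 * 2 ^ (k + 1) * k.factorial)), by positivity, ?_⟩
  intro q hq χ hχ y hy hqy
  have hq2 : (2 : ℝ) ≤ q := by exact_mod_cast hq
  have hy2 : (2 : ℝ) ≤ y := by exact_mod_cast hy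
  have hy0 : (0 : ℝ) < y := by linarith only [hy2]
  set L : ℝ := Real.log y with hL
  have hL0 : 0 ≤ L := Real.log_natCast_nonneg y
  have hL1 : 1 < L := by
    by_contra h
    have := pow_le_one₀ (n := B) hL0 (not_lt.1 h)
    linarith only [hq2, hqy, this]
  have hLpos : 0 < L := by linarith only [hL1]
  -- the power of q
  have hqe : (q : ℝ) ^ (1 / ((B : ℝ) + 1)) ≤ L := by
    calc (q : ℝ) ^ (1 / ((B : ℝ) + 1)) ≤ (L ^ B) ^ (1 / ((B : ℝ) + 1)) :=
          Real.rpow_le_rpow (by linarith only [hq2]) hqy (by positivity)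
      _ = L ^ ((B : ℝ) * (1 / ((B : ℝ) + 1))) := by
          rw [← Real.rpow_natCast L B, ← Real.rpow_mul hL0]
      _ ≤ L ^ (1 : ℝ) := by
          apply Real.rpow_le_rpow_of_exponent_le hL1.le
          rw [mul_one_div, div_le_one (by positivity)]
          linarith only
      _ = L := Real.rpow_one L
  set δ : ℝ := 1 / (2 * L ^ (c + 1)) with hδ
  have hLc : 1 ≤ L ^ (c + 1) := one_le_pow₀ hL1.le
  have hδ0 : 0 < δ := by positivity
  have hδ2 : δ ≤ 1 / 2 := by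
    rw [hδ]
    apply one_div_le_one_div_of_le (by norm_num)
    linarith only [hLc]
  have hδ3 : 1 / δ ^ 3 = 8 * L ^ (3 * c + 3) := by
    rw [hδ, one_div, one_div, inv_pow, inv_inv, mul_pow, ← pow_mul]
    rw [show (c + 1) * 3 = 3 * c + 3 by ring]
    norm_num
  have hl2y : Real.log (2 * y) ≤ 2 * L := by
    rw [Real.log_mul (by norm_num) (by positivity)]
    have : Real.log 2 ≤ L := Real.log_le_log (by norm_num) hy2
    linarith only [this]
  have hl2y0 : 0 ≤ Real.log (2 * y) := Real.log_nonneg (by linarith only [hy2, hδ0, hδ2])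
  -- the bound for the partial sums
  set M : ℝ := C * (L * y * (9 * L ^ (3 * c + 3)) +
    (2 * L) ^ (k + 1) * (δ * y + 9 * L ^ (3 * c + 3))) with hM
  have hL33 : L ≤ L ^ (3 * c + 3) := by
    calc L = L ^ 1 := (pow_one L).symm
      _ ≤ L ^ (3 * c + 3) := pow_le_pow_right₀ hL1.le (by omega)
  have hA : ∀ z ≤ y, ‖∑ n ∈ Icc 1 z, ((Lam n * Real.log n ^ k : ℝ) : ℂ) * χ (n : ZMod q)‖ ≤ M := by
    intro z hz
    refine le_trans (hpart q hq χ hχ y δ hy hδ0 hδ2 z hz) ?_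
    rw [hM, hδ3]
    apply mul_le_mul_of_nonneg_left _ hC.le
    apply add_le_add
    · have e1 : 8 * L ^ (3 * c + 3) + L ≤ 9 * L ^ (3 * c + 3) := by linarith only [hL33]
      have e2 : (q : ℝ) ^ (1 / ((B : ℝ) + 1)) * y ≤ L * y :=
        mul_le_mul_of_nonneg_right hqe hy0.le
      exact mul_le_mul e2 e1 (by positivity) (by positivity)
    · have e1 : δ * y + L + 8 * L ^ (3 * c + 3) ≤ δ * y + 9 * L ^ (3 * c + 3) := by linarith only [hL33]
      exact mul_le_mul (pow_le_pow_left₀ hl2y0 hl2y _) e1 (by positivity) (by positivity)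
  -- Abel summation
  set z0 : ℕ := Nat.sqrt y with hz0
  have hz1 : 1 ≤ z0 := Nat.sqrt_pos.2 (by omega)
  have hzy : z0 + 1 ≤ y := by
    have : z0 < y := Nat.sqrt_lt_self (by omega)
    omega
  have hlogpos : ∀ n : ℕ, z0 + 1 ≤ n → 0 < Real.log n := by
    intro n hn
    exact Real.log_pos (by exact_mod_cast (by omega : 1 < n))
  have hab := swI_abel (fun n => ((Lam n * Real.log n ^ k : ℝ) : ℂ) * χ (n : ZMod q))
    (fun n => 1 / Real.log n ^ k) M z0 y hzy
    (by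
      intro n hn
      apply one_div_le_one_div_of_le (pow_pos (hlogpos n hn) k)
      apply pow_le_pow_left₀ (hlogpos n hn).le
      apply Real.log_le_log (by exact_mod_cast (by omega : 0 < n))
      push_cast
      linarith only [hδ0, hδ2])
    (by
      intro n hn
      have := hlogpos n hn
      positivity)
    hA
  have hsplit : ∑ n ∈ Icc 1 y, ((Lam n : ℝ) : ℂ) * χ (n : ZMod q) =
      ∑ n ∈ Icc 1 z0, ((Lam n : ℝ) : ℂ) * χ (n : ZMod q) +
      ∑ n ∈ Ioc z0 y, ((1 / Real.log n ^ k : ℝ) : ℂ) *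
        (((Lam n * Real.log n ^ k : ℝ) : ℂ) * χ (n : ZMod q)) := by
    have e1 : Icc 1 y = Icc 1 z0 ∪ Ioc z0 y := by
      ext n; simp only [mem_Icc, mem_union, mem_Ioc]; omega
    have e2 : Disjoint (Icc 1 z0) (Ioc z0 y) := by
      rw [Finset.disjoint_left]
      intro n h1 h2
      have := Finset.mem_Icc.1 h1
      have := Finset.mem_Ioc.1 h2
      omega
    rw [e1, Finset.sum_union e2]
    congr 1
    apply Finset.sum_congr rfl
    intro n hn
    have hn' := hlogpos n (by have := Finset.mem_Ioc.1 hn; omega)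
    rw [← mul_assoc, ← Complex.ofReal_mul]
    congr 2
    field_simp
  have hz0r : (z0 : ℝ) ≤ Real.sqrt y := Real.nat_sqrt_le_real_sqrt
  have hz0r' : Real.sqrt y ≤ (z0 : ℝ) + 1 := Real.real_sqrt_le_nat_sqrt_succ
  have hfirst : ‖∑ n ∈ Icc 1 z0, ((Lam n : ℝ) : ℂ) * χ (n : ZMod q)‖ ≤ Real.sqrt y * L := by
    calc ‖∑ n ∈ Icc 1 z0, ((Lam n : ℝ) : ℂ) * χ (n : ZMod q)‖
        ≤ ∑ n ∈ Icc 1 z0, ‖((Lam n : ℝ) : ℂ) * χ (n : ZMod q)‖ := norm_sum_le _ _
      _ ≤ ∑ n ∈ Icc 1 z0, L := by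
          apply Finset.sum_le_sum
          intro n hn
          have hn' := Finset.mem_Icc.1 hn
          rw [norm_mul, Complex.norm_real, Real.norm_eq_abs, abs_of_nonneg swI_Lam_nonneg]
          calc Lam n * ‖χ (n : ZMod q)‖ ≤ Lam n * 1 :=
                mul_le_mul_of_nonneg_left (DirichletCharacter.norm_le_one χ _) swI_Lam_nonneg
            _ ≤ Real.log n := by rw [mul_one]; exact swI_Lam_le
            _ ≤ L := by
                apply Real.log_le_log (by exact_mod_cast (by omega : 0 < n))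
                exact_mod_cast (by omega : n ≤ y)
      _ = z0 * L := by rw [Finset.sum_const, Nat.card_Icc, nsmul_eq_mul]; simp
      _ ≤ Real.sqrt y * L := mul_le_mul_of_nonneg_right hz0r hL0
  have hlog0 : L / 2 ≤ Real.log ((z0 + 1 : ℕ) : ℝ) := by
    have e1 : Real.log (Real.sqrt y) = L / 2 := Real.log_sqrt hy0.le
    rw [← e1]
    apply Real.log_le_log (Real.sqrt_pos.2 hy0)
    push_cast
    exact hz0r'
  have hM0 : 0 ≤ M := by positivity
  have hsecond : ‖∑ n ∈ Ioc z0 y, ((1 / Real.log n ^ k : ℝ) : ℂ) *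
        (((Lam n * Real.log n ^ k : ℝ) : ℂ) * χ (n : ZMod q))‖ ≤ 2 ^ (k + 1) * M / L ^ k := by
    refine le_trans hab ?_
    have e1 : 1 / Real.log ((z0 + 1 : ℕ) : ℝ) ^ k ≤ 1 / (L / 2) ^ k := by
      apply one_div_le_one_div_of_le (by positivity)
      exact pow_le_pow_left₀ (by positivity) hlog0 k
    calc 2 * M * (1 / Real.log ((z0 + 1 : ℕ) : ℝ) ^ k) ≤ 2 * M * (1 / (L / 2) ^ k) :=
          mul_le_mul_of_nonneg_left e1 (by positivity)
      _ = 2 ^ (k + 1) * M / L ^ k := by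
          rw [div_pow, pow_succ]
          field_simp
          try ring
  -- final estimates
  have hexp : Real.exp L = y := Real.exp_log hy0
  have hexp2 : Real.exp (L / 2) = Real.sqrt y := by
    rw [show L / 2 = Real.log (Real.sqrt y) from (Real.log_sqrt hy0.le).symm,
      Real.exp_log (Real.sqrt_pos.2 hy0)]
  have hsq : Real.sqrt y * Real.sqrt y = y := Real.mul_self_sqrt hy0.le
  have hsq0 : 0 < Real.sqrt y := Real.sqrt_pos.2 hy0
  have f1 : Real.sqrt y * L * L ^ c ≤ 2 ^ (c + 1) * (c + 1).factorial * y := by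
    have e1 := swI_pow_le (c + 1) (L := L / 2) (by positivity)
    rw [hexp2, div_pow, div_le_iff₀ (by positivity)] at e1
    calc Real.sqrt y * L * L ^ c = Real.sqrt y * L ^ (c + 1) := by ring
      _ ≤ Real.sqrt y * ((c + 1).factorial * Real.sqrt y * 2 ^ (c + 1)) :=
          mul_le_mul_of_nonneg_left e1 hsq0.le
      _ = 2 ^ (c + 1) * (c + 1).factorial * (Real.sqrt y * Real.sqrt y) := by ring
      _ = 2 ^ (c + 1) * (c + 1).factorial * y := by rw [hsq]
  have f2 : M * L ^ c ≤ L ^ k * (C * (9 + 2 ^ k + 9 * 2 ^ (k + 1) * k.factorial)) * y := by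
    have e1 := swI_pow_le k hL0
    rw [hexp] at e1
    have g1 : L * y * (9 * L ^ (3 * c + 3)) * L ^ c = L ^ k * 9 * y := by
      rw [hk]; ring
    have g2 : (2 * L) ^ (k + 1) * (δ * y) * L ^ c = L ^ k * 2 ^ k * y := by
      rw [hδ, mul_pow]
      have : L ^ (c + 1) ≠ 0 := by positivity
      field_simp
      ring
    have g3 : (2 * L) ^ (k + 1) * (9 * L ^ (3 * c + 3)) * L ^ c ≤
        L ^ k * (9 * 2 ^ (k + 1) * k.factorial) * y := by
      calc (2 * L) ^ (k + 1) * (9 * L ^ (3 * c + 3)) * L ^ c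
          = L ^ k * (9 * 2 ^ (k + 1)) * L ^ (4 * c + 4) := by
            rw [mul_pow]; ring
        _ ≤ L ^ k * (9 * 2 ^ (k + 1)) * (k.factorial * y) :=
            mul_le_mul_of_nonneg_left e1 (by positivity)
        _ = L ^ k * (9 * 2 ^ (k + 1) * k.factorial) * y := by ring
    have g4 : M * L ^ c = C * (L * y * (9 * L ^ (3 * c + 3)) * L ^ c +
        (2 * L) ^ (k + 1) * (δ * y) * L ^ c +
        (2 * L) ^ (k + 1) * (9 * L ^ (3 * c + 3)) * L ^ c) := by
      rw [hM]; ring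
    rw [g4, g1, g2]
    calc C * (L ^ k * 9 * y + L ^ k * 2 ^ k * y +
          (2 * L) ^ (k + 1) * (9 * L ^ (3 * c + 3)) * L ^ c)
        ≤ C * (L ^ k * 9 * y + L ^ k * 2 ^ k * y +
          L ^ k * (9 * 2 ^ (k + 1) * k.factorial) * y) := by
          apply mul_le_mul_of_nonneg_left _ hC.le
          linarith only [g3]
      _ = L ^ k * (C * (9 + 2 ^ k + 9 * 2 ^ (k + 1) * k.factorial)) * y := by ring
  rw [hsplit]
  refine le_trans (norm_add_le _ _) ?_
  refine le_trans (add_le_add hfirst hsecond) ?_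
  rw [le_div_iff₀ (by positivity), add_mul, add_mul]
  apply add_le_add f1
  rw [div_mul_eq_mul_div, div_le_iff₀ (by positivity)]
  calc 2 ^ (k + 1) * M * L ^ c = 2 ^ (k + 1) * (M * L ^ c) := by ring
    _ ≤ 2 ^ (k + 1) * (L ^ k * (C * (9 + 2 ^ k + 9 * 2 ^ (k + 1) * k.factorial)) * y) :=
        mul_le_mul_of_nonneg_left f2 (by positivity)
    _ = 2 ^ (k + 1) * (C * (9 + 2 ^ k + 9 * 2 ^ (k + 1) * k.factorial)) * y * L ^ k := by ring

end Pool.Agent.H91.EHA

end
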