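import Pool.Agent.H43.PL.M06
import Pool.Agent.H43.PL.M08
import Pool.Agent.H43.PL.M11
import Pool.Agent.H43.PL.M12

/-! The parts of this file: H43.LM.WinA, H76.VKT.Low, H74.MDX.Cnt, H53.MDB.Cover, H53.MDB.Pairs, H10.GoldLoc.Mertens, H43.LM.Rk. -/

section

/-!
# LM WinA: from blocks to windows

Proof.  Blocks `[i h, (i+1) h)`, `badB F N h (κ h)` = the `i ∈ [N/(2h), 4N/h]` with `‖∑_{block} F(m) ee(-m α)‖ > κ h` for some `α` (`H53/MID/Lfu.lean`, `Bs` in `H53/MID/Defs.lean`).  Let `x ∈ [X, 2X]`; `W = Win x H` = the integers of `(x - H/2, x + H/2)`, `x - H/2 ≥ X/2 ≥ N/2`, `x + H/2 ≤ 5X/2 < 4N`.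
`W` is the disjoint union of the full blocks `[ih, (i+1)h) ⊆ W` (then `i ∈ [N/(2h), 4N/h]`, at most `H/h + 1` of them ... precisely `h · #full ≤ H + 1`) and of at most `2 h` further integers (those in the first and the last partial block).
Good full blocks: at most `κ h · #full ≤ κ (H + 1) ≤ 2κH`; further integers: `≤ 2 h M0 ≤ κ H`; bad full blocks: `≤ M0 h · b(x)`, `b(x)` = the number of `i ∈ badB F N h (κ h)` with block `⊆ W`.  (`Mw` uses `ee(n α)`, `Bs` uses `ee(-m α)`: use `-α`.)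
So `‖Mw F x H α‖ > 4 κ H` implies `M0 h b(x) > κ H`.  For a fixed `i` the `x` with block `i ⊆ Win x H` satisfy `i h - H/2 < x < i h + H/2` (the element `i h`), measure `≤ H`; so `∫ b(x) dx ≤ H · #badB` and by Chebyshev the measure of
`{M0 h b(x) > κ H}` is `≤ H · β (N/h) · M0 h/(κ H) = β M0 N/κ`.
-/

set_option autoImplicit false

namespace Pool.Agent.H43.LM

open Finset MeasureTheory
open Pool.Agent.H53.MID (badB)

/-- the window is an interval of integers -/
private theorem WinA_win {x H : ℝ} (ha : 0 ≤ x - H / 2) (hH : 0 ≤ H) :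
    Win x H = Ico (⌊x - H / 2⌋₊ + 1) ⌈x + H / 2⌉₊ := by
  ext n
  simp only [Win, Finset.mem_filter, Finset.mem_range, Finset.mem_Ico]
  constructor
  · rintro ⟨-, h2⟩
    rw [abs_lt] at h2
    constructor
    · have : ⌊x - H / 2⌋₊ < n := (Nat.floor_lt ha).2 (by linarith only [h2])
      omega
    · exact Nat.lt_ceil.2 (by linarith only [h2])
  · rintro ⟨h1, h2⟩
    have h3 : x - H / 2 < n := (Nat.floor_lt ha).1 (by omega)
    have h4 : (n : ℝ) < x + H / 2 := Nat.lt_ceil.1 h2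
    refine ⟨?_, ?_⟩
    · have h5 : (n : ℝ) ≤ ⌈x + H⌉₊ := le_trans (by linarith only [h3, h4, hH]) (Nat.le_ceil _)
      have h6 : n ≤ ⌈x + H⌉₊ := by exact_mod_cast h5
      omega
    · rw [abs_lt]
      constructor <;> linarith only [h3, h4]

/-- the sum over consecutive blocks -/
private theorem WinA_blocks (f : ℕ → ℂ) (h : ℕ) {i0 i1 : ℕ} (hi : i0 ≤ i1) :
    ∑ n ∈ Ico (i0 * h) (i1 * h), f n = ∑ i ∈ Ico i0 i1, ∑ n ∈ Ico (i * h) ((i + 1) * h), f n := by
  induction i1, hi using Nat.le_induction with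
  | base => simp
  | succ k hk ih =>
    rw [Finset.sum_Ico_succ_top hk, ← ih]
    rw [Finset.sum_Ico_consecutive _ (Nat.mul_le_mul_right h hk) (Nat.mul_le_mul_right h (Nat.le_succ k))]

private theorem WinA_bs (F : ℕ → ℝ) (h i : ℕ) (α : ℝ) :
    ∑ n ∈ Ico (i * h) ((i + 1) * h), (F n : ℂ) * Pool.Agent.H91.PK.ee (n * α) = Pool.Agent.H53.MID.Bs F h i (-α) := by
  unfold Pool.Agent.H53.MID.Bs
  refine Finset.sum_congr rfl fun n _ => ?_
  congr 2
  ring

private theorem WinA_norm (F : ℕ → ℝ) (M0 : ℝ) (α : ℝ) (s : Finset ℕ) (hF : ∀ n ∈ s, |F n| ≤ M0) :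
    ‖∑ n ∈ s, (F n : ℂ) * Pool.Agent.H91.PK.ee (n * α)‖ ≤ s.card * M0 := by
  have h1 : ‖∑ n ∈ s, (F n : ℂ) * Pool.Agent.H91.PK.ee (n * α)‖ ≤ ∑ n ∈ s, M0 := by
    refine (norm_sum_le _ _).trans (Finset.sum_le_sum fun n hn => ?_)
    rw [norm_mul, Pool.Agent.H91.PK.LSa_norm_ee, mul_one, Complex.norm_real]
    exact hF n hn
  rwa [Finset.sum_const, nsmul_eq_mul] at h1

open Classical in
/-- the pointwise bound -/
private theorem WinA_pt (F : ℕ → ℝ) (N h : ℕ) (X H κ M0 : ℝ) (hN : 2 ≤ N) (hNX : (N : ℝ) ≤ X) (hXN : X < N + 1) (hh : 1 ≤ h)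
    (hH1 : 1 ≤ H) (hHX : H ≤ X) (hκ : 0 < κ) (hκ1 : κ ≤ 1) (hM0 : 1 ≤ M0) (hF : ∀ n ≤ 4 * N, |F n| ≤ M0)
    (hhH : 2 * h * M0 ≤ κ * H) {x : ℝ} (hx : x ∈ Set.Icc X (2 * X)) (α : ℝ) :
    ‖Mw F x H α‖ ≤ 3 * κ * H + M0 * h * (((badB F N h (κ * h)).filter (fun i => |((i * h : ℕ) : ℝ) - x| < H / 2)).card : ℝ) := by
  obtain ⟨hx1, hx2⟩ := hx
  have hh' : (1 : ℝ) ≤ h := by exact_mod_cast hh
  have hN' : (2 : ℝ) ≤ N := by exact_mod_cast hN
  have ha : 0 ≤ x - H / 2 := by linarith only [hNX, hHX, hx1, hN']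
  have hHh : 2 * (h : ℝ) ≤ H := by
    have h1 : 2 * (h : ℝ) ≤ 2 * h * M0 := by nlinarith only [hM0]
    have h2 : κ * H ≤ H := by nlinarith only [hκ1, hH1]
    linarith only [hhH, h1, h2]
  set A : ℕ := ⌊x - H / 2⌋₊ + 1 with hA
  set B : ℕ := ⌈x + H / 2⌉₊ with hB
  have hA1 : x - H / 2 < A := by
    rw [hA]
    push_cast
    exact Nat.lt_floor_add_one _
  have hA2 : (A : ℝ) ≤ x - H / 2 + 1 := by
    rw [hA]
    push_cast
    have := Nat.floor_le ha
    linarith only [this]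
  have hB1 : x + H / 2 ≤ B := Nat.le_ceil _
  have hB2 : (B : ℝ) < x + H / 2 + 1 := Nat.ceil_lt_add_one (by linarith only [hNX, hH1, hx1, hN'])
  -- the blocks
  set i0 : ℕ := (A + h - 1) / h with hi0
  set i1 : ℕ := B / h with hi1
  have h0 : 0 < h := hh
  have hi0A : A ≤ i0 * h := by
    have h1 : A + h - 1 < (i0 + 1) * h := by
      rw [hi0, mul_comm]
      exact Nat.lt_mul_div_succ _ h0
    have h2 : (i0 + 1) * h = i0 * h + h := by ring
    omega
  have hi0A' : i0 * h ≤ A + h - 1 := Nat.div_mul_le_self _ _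
  have hi1B : i1 * h ≤ B := Nat.div_mul_le_self _ _
  have hi1B' : B < i1 * h + h := by
    have h1 : B < (i1 + 1) * h := by
      rw [hi1, mul_comm]
      exact Nat.lt_mul_div_succ _ h0
    have h2 : (i1 + 1) * h = i1 * h + h := by ring
    omega
  have hAB : (A : ℝ) + 2 * h ≤ B + 1 := by linarith only [hHh, hA2, hB1]
  have hAB' : A + 2 * h ≤ B + 1 := by exact_mod_cast hAB
  have hi01 : i0 ≤ i1 := by
    have h1 : i0 * h < i1 * h + h := by omega
    have h2 : i0 * h < (i1 + 1) * h := by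
      have h3 : (i1 + 1) * h = i1 * h + h := by ring
      omega
    have := Nat.lt_of_mul_lt_mul_right h2
    omega
  have hi01h : i0 * h ≤ i1 * h := Nat.mul_le_mul_right h hi01
  -- bound for F
  have hB4 : ∀ n ∈ Ico A B, |F n| ≤ M0 := by
    intro n hn
    rw [Finset.mem_Ico] at hn
    apply hF
    have h1 : (n : ℝ) < x + H / 2 := Nat.lt_ceil.1 hn.2
    have h2 : (n : ℝ) ≤ ((4 * N : ℕ) : ℝ) := by
      push_cast
      linarith only [hXN, hHX, hx2, hN', h1]
    exact_mod_cast h2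
  have hrange : ∀ i ∈ Ico i0 i1, i ∈ Icc (N / (2 * h)) (4 * N / h) ∧ |((i * h : ℕ) : ℝ) - x| < H / 2 := by
    intro i hi
    rw [Finset.mem_Ico] at hi
    have h1 : i0 * h ≤ i * h := Nat.mul_le_mul_right h hi.1
    have h2 : (i + 1) * h ≤ i1 * h := Nat.mul_le_mul_right h hi.2
    have h3 : (i + 1) * h = i * h + h := by ring
    have h4 : A ≤ i * h := hi0A.trans h1
    have h5 : i * h + 1 ≤ B := by omega
    have h4' : (A : ℝ) ≤ ((i * h : ℕ) : ℝ) := by exact_mod_cast h4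
    have h5' : ((i * h : ℕ) : ℝ) < x + H / 2 := Nat.lt_ceil.1 (by omega)
    refine ⟨?_, ?_⟩
    · rw [Finset.mem_Icc]
      constructor
      · have h6 : (N : ℝ) ≤ ((i * (2 * h) : ℕ) : ℝ) := by
          have h7 : ((i * (2 * h) : ℕ) : ℝ) = 2 * ((i * h : ℕ) : ℝ) := by push_cast; ring
          rw [h7]
          linarith only [hNX, hHX, hx1, hA1, h4']
        have h7 : N ≤ i * (2 * h) := by exact_mod_cast h6
        calc N / (2 * h) ≤ i * (2 * h) / (2 * h) := Nat.div_le_div_right h7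
          _ = i := Nat.mul_div_cancel _ (by omega)
      · rw [Nat.le_div_iff_mul_le h0]
        have h6 : ((i * h : ℕ) : ℝ) ≤ ((4 * N : ℕ) : ℝ) := by
          have : ((4 * N : ℕ) : ℝ) = 4 * N := by push_cast; ring
          rw [this]
          linarith only [hXN, hHX, hx2, hN', hA2, h5']
        exact_mod_cast h6
    · rw [abs_lt]
      constructor <;> linarith only [hA1, h4', h5']
  -- the sum
  have hsum : Mw F x H α = (∑ n ∈ Ico A (i0 * h), (F n : ℂ) * Pool.Agent.H91.PK.ee (n * α)) +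
      (∑ i ∈ Ico i0 i1, Pool.Agent.H53.MID.Bs F h i (-α)) + ∑ n ∈ Ico (i1 * h) B, (F n : ℂ) * Pool.Agent.H91.PK.ee (n * α) := by
    unfold Mw
    rw [WinA_win ha (by linarith only [hH1]), ← hA, ← hB]
    rw [← Finset.sum_Ico_consecutive (fun n => (F n : ℂ) * Pool.Agent.H91.PK.ee (n * α)) (hi0A.trans hi01h) hi1B,
      ← Finset.sum_Ico_consecutive (fun n => (F n : ℂ) * Pool.Agent.H91.PK.ee (n * α)) hi0A hi01h,
      WinA_blocks (fun n => (F n : ℂ) * Pool.Agent.H91.PK.ee (n * α)) h hi01]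
    congr 2
    exact Finset.sum_congr rfl fun i _ => WinA_bs F h i α
  have hn1 : ‖∑ n ∈ Ico A (i0 * h), (F n : ℂ) * Pool.Agent.H91.PK.ee (n * α)‖ ≤ h * M0 := by
    refine (WinA_norm F M0 α _ fun n hn => hB4 n ?_).trans ?_
    · rw [Finset.mem_Ico] at hn ⊢
      exact ⟨hn.1, lt_of_lt_of_le hn.2 (hi01h.trans hi1B)⟩
    · rw [Nat.card_Ico]
      have : i0 * h - A ≤ h := by omega
      have h' : ((i0 * h - A : ℕ) : ℝ) ≤ h := by exact_mod_cast this
      exact mul_le_mul_of_nonneg_right h' (by linarith only [hM0])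
  have hn2 : ‖∑ n ∈ Ico (i1 * h) B, (F n : ℂ) * Pool.Agent.H91.PK.ee (n * α)‖ ≤ h * M0 := by
    refine (WinA_norm F M0 α _ fun n hn => hB4 n ?_).trans ?_
    · rw [Finset.mem_Ico] at hn ⊢
      exact ⟨le_trans (hi0A.trans hi01h) hn.1, hn.2⟩
    · rw [Nat.card_Ico]
      have : B - i1 * h ≤ h := by omega
      have h' : ((B - i1 * h : ℕ) : ℝ) ≤ h := by exact_mod_cast this
      exact mul_le_mul_of_nonneg_right h' (by linarith only [hM0])
  set S := (badB F N h (κ * h)).filter (fun i => |((i * h : ℕ) : ℝ) - x| < H / 2) with hS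
  have hblk : ∀ i ∈ Ico i0 i1, ‖Pool.Agent.H53.MID.Bs F h i (-α)‖ ≤ κ * h + if i ∈ S then M0 * h else 0 := by
    intro i hi
    obtain ⟨h1, h2⟩ := hrange i hi
    by_cases hb : ‖Pool.Agent.H53.MID.Bs F h i (-α)‖ ≤ κ * h
    · have h3 : (0 : ℝ) ≤ if i ∈ S then M0 * h else 0 := by
        split_ifs
        · positivity
        · exact le_rfl
      linarith only [hb, h3]
    · push Not at hb
      have hiS : i ∈ S := by
        rw [hS, Finset.mem_filter]
        refine ⟨?_, h2⟩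
        unfold badB
        rw [Finset.mem_filter]
        exact ⟨h1, -α, hb⟩
      rw [if_pos hiS, ← WinA_bs]
      have h4 : ‖∑ n ∈ Ico (i * h) ((i + 1) * h), (F n : ℂ) * Pool.Agent.H91.PK.ee (n * α)‖ ≤ (Ico (i * h) ((i + 1) * h)).card * M0 := by
        refine WinA_norm F M0 α _ fun n hn => hB4 n ?_
        rw [Finset.mem_Ico] at hi hn ⊢
        exact ⟨hi0A.trans ((Nat.mul_le_mul_right h hi.1).trans hn.1),
          lt_of_lt_of_le hn.2 ((Nat.mul_le_mul_right h hi.2).trans hi1B)⟩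
      rw [Nat.card_Ico] at h4
      have h5 : (i + 1) * h - i * h = h := by
        have : (i + 1) * h = i * h + h := by ring
        omega
      rw [h5] at h4
      have h6 : 0 ≤ κ * h := by positivity
      linarith only [h4, h6, mul_comm (h : ℝ) M0]
  have hmid : ‖∑ i ∈ Ico i0 i1, Pool.Agent.H53.MID.Bs F h i (-α)‖ ≤ 2 * κ * H + M0 * h * S.card := by
    refine (norm_sum_le _ _).trans ((Finset.sum_le_sum hblk).trans ?_)
    rw [Finset.sum_add_distrib, Finset.sum_const, Nat.card_Ico, nsmul_eq_mul]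
    have h1 : ((i1 - i0 : ℕ) : ℝ) * (κ * h) ≤ 2 * κ * H := by
      have h2 : ((i1 - i0) * h : ℕ) ≤ B - A := by
        rw [Nat.sub_mul]
        omega
      have h3 : (((i1 - i0) * h : ℕ) : ℝ) ≤ 2 * H := by
        have h4 : (((i1 - i0) * h : ℕ) : ℝ) ≤ ((B - A : ℕ) : ℝ) := by exact_mod_cast h2
        have h5 : A ≤ B := hi0A.trans (hi01h.trans hi1B)
        rw [Nat.cast_sub h5] at h4
        linarith only [hh', hHh, hA1, hB2, h4]
      push_cast at h3
      nlinarith only [hκ, h3]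
    have h2 : ∑ i ∈ Ico i0 i1, (if i ∈ S then M0 * (h : ℝ) else 0) ≤ M0 * h * S.card := by
      rw [← Finset.sum_filter, Finset.sum_const, nsmul_eq_mul]
      have h3 : ((Ico i0 i1).filter (fun i => i ∈ S)).card ≤ S.card := by
        apply Finset.card_le_card
        intro i hi
        exact (Finset.mem_filter.1 hi).2
      have h4 : ((((Ico i0 i1).filter (fun i => i ∈ S)).card : ℕ) : ℝ) ≤ S.card := by exact_mod_cast h3
      have h5 : 0 ≤ M0 * (h : ℝ) := by positivity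
      nlinarith only [h4, h5]
    linarith only [h1, h2]
  rw [hsum]
  have htri := norm_add₃_le (a := ∑ n ∈ Ico A (i0 * h), (F n : ℂ) * Pool.Agent.H91.PK.ee (n * α))
    (b := ∑ i ∈ Ico i0 i1, Pool.Agent.H53.MID.Bs F h i (-α)) (c := ∑ n ∈ Ico (i1 * h) B, (F n : ℂ) * Pool.Agent.H91.PK.ee (n * α))
  linarith only [hhH, hn1, hn2, hmid, htri]

theorem win_a (F : ℕ → ℝ) (N h : ℕ) (X H κ M0 β : ℝ) (hN : 2 ≤ N) (hNX : (N : ℝ) ≤ X) (hXN : X < N + 1) (hh : 1 ≤ h)
    (hH1 : 1 ≤ H) (hHX : H ≤ X) (hκ : 0 < κ) (hκ1 : κ ≤ 1) (hM0 : 1 ≤ M0) (hβ : 0 ≤ β) (hF : ∀ n ≤ 4 * N, |F n| ≤ M0)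
    (hhH : 2 * h * M0 ≤ κ * H) (hbad : ((badB F N h (κ * h)).card : ℝ) ≤ β * (N / h)) :
    volume {x : ℝ | x ∈ Set.Icc X (2 * X) ∧ ∃ α : ℝ, 4 * κ * H < ‖Mw F x H α‖} ≤ ENNReal.ofReal (β * M0 / κ * X) := by
  classical
  have hκH : 0 < κ * H := by positivity
  have hN' : (2 : ℝ) ≤ N := by exact_mod_cast hN
  have hh' : (1 : ℝ) ≤ h := by exact_mod_cast hh
  set T := badB F N h (κ * h) with hT
  let f : ℝ → ENNReal := fun x => ∑ i ∈ T, (Set.Ioo (((i * h : ℕ) : ℝ) - H / 2) (((i * h : ℕ) : ℝ) + H / 2)).indicator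
    (fun _ => ENNReal.ofReal (M0 * h)) x
  have hfm : Measurable f := by
    apply Finset.measurable_fun_sum
    intro i _
    exact measurable_const.indicator measurableSet_Ioo
  have hfint : ∫⁻ x, f x ≤ ENNReal.ofReal (β * M0 * X * H) := by
    have h1 : ∫⁻ x, f x = ∑ i ∈ T, ENNReal.ofReal (M0 * h) * ENNReal.ofReal H := by
      rw [lintegral_finsetSum _ fun i _ => measurable_const.indicator measurableSet_Ioo]
      refine Finset.sum_congr rfl fun i _ => ?_
      rw [lintegral_indicator measurableSet_Ioo, setLIntegral_const, Real.volume_Ioo]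
      congr 2
      ring
    rw [h1, Finset.sum_const, nsmul_eq_mul, ← ENNReal.ofReal_mul (by positivity), ← ENNReal.ofReal_natCast,
      ← ENNReal.ofReal_mul (by positivity)]
    apply ENNReal.ofReal_le_ofReal
    have h2 : (T.card : ℝ) * h ≤ β * N := by
      have h3 : (T.card : ℝ) * h ≤ β * (N / h) * h := mul_le_mul_of_nonneg_right hbad (by positivity)
      have h4 : β * ((N : ℝ) / h) * h = β * N := by field_simp
      linarith only [h3, h4]
    calc (T.card : ℝ) * (M0 * h * H) = (T.card * h) * (M0 * H) := by ring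
      _ ≤ (β * N) * (M0 * H) := mul_le_mul_of_nonneg_right h2 (by positivity)
      _ ≤ (β * X) * (M0 * H) := by
        apply mul_le_mul_of_nonneg_right _ (by positivity)
        exact mul_le_mul_of_nonneg_left hNX hβ
      _ = β * M0 * X * H := by ring
  have hsub : {x : ℝ | x ∈ Set.Icc X (2 * X) ∧ ∃ α : ℝ, 4 * κ * H < ‖Mw F x H α‖} ⊆ {x | ENNReal.ofReal (κ * H) ≤ f x} := by
    rintro x ⟨hx, α, hα⟩
    have h1 := WinA_pt F N h X H κ M0 hN hNX hXN hh hH1 hHX hκ hκ1 hM0 hF hhH hx α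
    rw [← hT] at h1
    set S := T.filter (fun i => |((i * h : ℕ) : ℝ) - x| < H / 2) with hS
    have h2 : κ * H ≤ M0 * h * S.card := by nlinarith only [hα, h1]
    show ENNReal.ofReal (κ * H) ≤ f x
    have h3 : f x = ENNReal.ofReal (M0 * h * S.card) := by
      show ∑ i ∈ T, _ = _
      have h4 : ∀ i ∈ T, (Set.Ioo (((i * h : ℕ) : ℝ) - H / 2) (((i * h : ℕ) : ℝ) + H / 2)).indicator
          (fun _ => ENNReal.ofReal (M0 * h)) x = if |((i * h : ℕ) : ℝ) - x| < H / 2 then ENNReal.ofReal (M0 * h) else 0 := by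
        intro i _
        rw [Set.indicator_apply]
        congr 1
        rw [Set.mem_Ioo, abs_lt, eq_iff_iff]
        constructor
        · rintro ⟨h5, h6⟩
          constructor <;> linarith only [h6, h5]
        · rintro ⟨h5, h6⟩
          constructor <;> linarith only [h6, h5]
      rw [Finset.sum_congr rfl h4, ← Finset.sum_filter, ← hS, Finset.sum_const, nsmul_eq_mul,
        ENNReal.ofReal_mul (by positivity : 0 ≤ M0 * (h : ℝ)), ENNReal.ofReal_natCast, mul_comm]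
    rw [h3]
    exact ENNReal.ofReal_le_ofReal h2
  have hcheb : ENNReal.ofReal (κ * H) * volume {x | ENNReal.ofReal (κ * H) ≤ f x} ≤ ∫⁻ x, f x :=
    mul_meas_ge_le_lintegral hfm _
  have hpos : ENNReal.ofReal (κ * H) ≠ 0 := by
    rw [Ne, ENNReal.ofReal_eq_zero, not_le]
    exact hκH
  calc volume {x : ℝ | x ∈ Set.Icc X (2 * X) ∧ ∃ α : ℝ, 4 * κ * H < ‖Mw F x H α‖}
      ≤ volume {x | ENNReal.ofReal (κ * H) ≤ f x} := measure_mono hsub
    _ ≤ (∫⁻ x, f x) / ENNReal.ofReal (κ * H) := by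
      rw [ENNReal.le_div_iff_mul_le (Or.inl hpos) (Or.inl ENNReal.ofReal_ne_top), mul_comm]
      exact hcheb
    _ ≤ ENNReal.ofReal (β * M0 * X * H) / ENNReal.ofReal (κ * H) := ENNReal.div_le_div_right hfint _
    _ = ENNReal.ofReal (β * M0 / κ * X) := by
      rw [← ENNReal.ofReal_div_of_pos hκH]
      congr 1
      field_simp

end Pool.Agent.H43.LM

end

section

/-!
# VKT (H97/VK of helper97 with the parameter `T0.t` in place of `9/10`, `t1` in place of `19/20`) Low: lower bound for the sieved `L`-functions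

Proof (compare `EHA/SwC.lean`).  `q = qm x d`, `ψ = ch x χ`, `ψ^2 = ch x (χ^2)` (`ch_sq`), `s = σ + iτ`.
3-4-1: `DirichletCharacter.norm_LSeries_product_ge_one` (`Mathlib/NumberTheory/LSeries/Nonvanishing.lean`; `Lk q ψ 0` is the `LSeries` of `ψ`):
`‖Lk q 1 0 σ‖^3 ‖Lk q ψ 0 (σ+iτ)‖^4 ‖Lk q ψ^2 0 (σ+2iτ)‖ ≥ 1`.
`zy_up`: `‖Lk q 1 0 σ‖ ≤ 2C/(η L9)` for `η = σ - 1 ≤ 1/L9`, `≤ 2C` for `η ≥ 1/L9`; `lk_up 0`: `‖Lk q ψ^2 0 (σ + 2iτ)‖ ≤ C LL` (`|2τ| ≤ 6 x^3`).
(a) `η ≥ 1/L9`: `‖L‖ ≥ c LL^{-1/4} ≥ c/LL^7`.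
(b) `1/L9 ≥ η ≥ η0 := c'/(L9 LL^9)`: `‖L‖ ≥ c1 (η L9)^{3/4} LL^{-1/4} ≥ c1 c'^{3/4} LL^{-7}`.
(c) `1/(4L) ≤ η ≤ η0`: `‖L(σ+iτ) - L(1+η0+iτ)‖ ≤ η0 C2 L9 LL^2 = C2 c' LL^{-7}` (`lk_up 1`, `Lk_hasDeriv`, mean value inequality on the segment), and
`C2 c' ≤ (c1/2) c'^{3/4}` for `c'` small.  (`η0 ≥ 1/(4L)` or not does not matter.)
-/

set_option autoImplicit false

namespace Pool.Agent.H76.VKT

open Finset
open Pool.Agent.H91.EHA

/-- abstract 3-4-1 argument on `[u0, 1]` -/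
private theorem Low_core (F : ℝ → ℝ) (u0 A D K : ℝ) (hu0 : 0 < u0) (hA : 1 ≤ A) (hD : 1 ≤ D) (hK : 1 ≤ K)
    (h1 : ∀ u, u0 ≤ u → u ≤ 1 → u ^ 3 ≤ A ^ 3 * K * F u ^ 4)
    (h2 : ∀ u u', u0 ≤ u → u ≤ u' → u' ≤ 1 → F u' ≤ F u + D * (u' - u))
    (h0 : ∀ u, u0 ≤ u → u ≤ 1 → 0 ≤ F u) (u : ℝ) (hu : u0 ≤ u) (hu1 : u ≤ 1) :
    1 / (32 * D ^ 3 * A ^ 3 * K) ≤ F u := by
  by_contra hcon
  push Not at hcon
  have hA3 : (1:ℝ) ≤ A ^ 3 := one_le_pow₀ hA
  have hD3 : (1:ℝ) ≤ D ^ 3 := one_le_pow₀ hD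
  have hD4 : (1:ℝ) ≤ D ^ 4 := one_le_pow₀ hD
  have hAK : (1:ℝ) ≤ A ^ 3 * K := by nlinarith only [hK, hA3]
  set P : ℝ := A ^ 3 * K with hP
  have hP0 : 0 < P := by linarith only [hAK]
  have hDp : 0 < D := by linarith only [hD]
  set η : ℝ := 1 / (32 * D ^ 4 * P) with hη
  have hη0 : 0 < η := by positivity
  have hη1 : η ≤ 1 / 32 := by
    rw [hη]
    apply one_div_le_one_div_of_le (by norm_num)
    nlinarith only [hD4, hAK, hD, mul_le_mul hD4 hAK (by norm_num) (by positivity)]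
  have hm : 1 / (32 * D ^ 3 * A ^ 3 * K) = D * η := by
    rw [hη, hP]; field_simp
  rw [hm] at hcon
  have hPη : 32 * D ^ 4 * P * η = 1 := by
    rw [hη]; field_simp
  have hF0 := h0 u hu hu1
  rcases le_or_gt η u with hc | hc
  · have h := h1 u hu hu1
    have h4 : F u ^ 4 ≤ (D * η) ^ 4 := pow_le_pow_left₀ hF0 hcon.le 4
    have h3 : η ^ 3 ≤ u ^ 3 := pow_le_pow_left₀ hη0.le hc 3
    have h5 : η ^ 3 ≤ P * (D * η) ^ 4 := by
      calc η ^ 3 ≤ u ^ 3 := h3
        _ ≤ P * F u ^ 4 := h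
        _ ≤ P * (D * η) ^ 4 := mul_le_mul_of_nonneg_left h4 hP0.le
    have h6 : P * (D * η) ^ 4 = η ^ 3 * (D ^ 4 * P * η) := by ring
    have h7 : D ^ 4 * P * η = 1 / 32 := by linarith only [hPη]
    rw [h6, h7] at h5
    have : 0 < η ^ 3 := by positivity
    linarith only [h5, this]
  · have h := h1 η (by linarith only [hu, hc]) (by linarith only [hu0, hu, hη1, hc])
    have hl := h2 u η hu hc.le (by linarith only [hu0, hu, hη1, hc])
    have hl2 : F η ≤ 2 * (D * η) := by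
      have : D * (η - u) ≤ D * η := mul_le_mul_of_nonneg_left (by linarith only [hu0, hu]) hDp.le
      linarith only [hcon, hl, this]
    have h4 : F η ^ 4 ≤ (2 * (D * η)) ^ 4 :=
      pow_le_pow_left₀ (h0 _ (by linarith only [hu, hc]) (by linarith only [hu0, hu, hη1, hc])) hl2 4
    have h5 : η ^ 3 ≤ P * (2 * (D * η)) ^ 4 := by
      calc η ^ 3 ≤ P * F η ^ 4 := h
        _ ≤ _ := mul_le_mul_of_nonneg_left h4 hP0.le
    have h6 : P * (2 * (D * η)) ^ 4 = η ^ 3 * (16 * (D ^ 4 * P * η)) := by ring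
    have h7 : D ^ 4 * P * η = 1 / 32 := by linarith only [hPη]
    rw [h6, h7] at h5
    have : 0 < η ^ 3 := by positivity
    linarith only [h5, this]

private theorem Low_Lk0 (q : ℕ) (χ : DirichletCharacter ℂ q) (s : ℂ) :
    Lk q χ 0 s = LSeries (fun n : ℕ => χ (n : ZMod q)) s := by
  unfold Lk; simp

private theorem Low_341 (q : ℕ) (χ : DirichletCharacter ℂ q) (σ t Z : ℝ) (h1 : 1 < σ)
    (hZ : ‖Lk q 1 0 ((σ : ℂ))‖ ≤ Z) :
    1 ≤ Z ^ 3 * ‖Lk q (χ ^ 2) 0 ⟨σ, 2 * t⟩‖ * ‖Lk q χ 0 ⟨σ, t⟩‖ ^ 4 := by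
  have hx : 0 < σ - 1 := by linarith
  have h := DirichletCharacter.norm_LSeries_product_ge_one χ hx t
  have e1 : (1 + ((σ - 1 : ℝ) : ℂ)) = (σ : ℂ) := by push_cast; ring
  have e2 : (σ : ℂ) + Complex.I * t = ⟨σ, t⟩ := by
    apply Complex.ext <;> simp
  have e3 : (σ : ℂ) + 2 * Complex.I * t = ⟨σ, 2 * t⟩ := by
    apply Complex.ext <;> simp
  rw [e1, e2, e3] at h
  rw [norm_mul, norm_mul, norm_pow, norm_pow] at h
  rw [Low_Lk0 q χ, Low_Lk0 q (χ ^ 2)]
  rw [Low_Lk0 q 1] at hZ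
  have hb3 := pow_le_pow_left₀ (norm_nonneg _) hZ 3
  set a := ‖LSeries (fun n : ℕ => (1 : DirichletCharacter ℂ q) (n : ZMod q)) (σ : ℂ)‖
  set b := ‖LSeries (fun n : ℕ => χ (n : ZMod q)) ⟨σ, t⟩‖
  set c := ‖LSeries (fun n : ℕ => (χ ^ 2) (n : ZMod q)) ⟨σ, 2 * t⟩‖
  have hc : 0 ≤ c := norm_nonneg _
  have hb0 : 0 ≤ b ^ 4 := by positivity
  calc (1:ℝ) ≤ a ^ 3 * b ^ 4 * c := h
    _ ≤ Z ^ 3 * b ^ 4 * c := by gcongr
    _ = _ := by ring

private theorem Low_lip (q : ℕ) (χ : DirichletCharacter ℂ q) (S : Set ℂ) (hS : Convex ℝ S)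
    (h1 : ∀ w ∈ S, 1 < w.re) (D : ℝ) (hD : ∀ w ∈ S, ‖Lk q χ 1 w‖ ≤ D) (a b : ℂ) (ha : a ∈ S)
    (hb : b ∈ S) : ‖Lk q χ 0 b - Lk q χ 0 a‖ ≤ D * ‖b - a‖ := by
  refine Convex.norm_image_sub_le_of_norm_hasDerivWithin_le (f' := fun w => -(Lk q χ (0 + 1) w))
    (fun w hw => (Lk_hasDeriv q χ 0 w (h1 w hw)).hasDerivWithinAt) (fun w hw => ?_) hS ha hb
  rw [norm_neg]
  exact hD w hw

/-- the Lipschitz bound on a horizontal segment -/
private theorem Low_seg (q : ℕ) (χ : DirichletCharacter ℂ q) (t D σ0 : ℝ) (hσ0 : 1 < σ0)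
    (hD : ∀ σ : ℝ, σ0 ≤ σ → σ ≤ 2 → ‖Lk q χ 1 ⟨σ, t⟩‖ ≤ D) (σ σ' : ℝ) (h1 : σ0 ≤ σ) (hle : σ ≤ σ')
    (h2 : σ' ≤ 2) : ‖Lk q χ 0 ⟨σ', t⟩‖ ≤ ‖Lk q χ 0 ⟨σ, t⟩‖ + D * (σ' - σ) := by
  set S : Set ℂ := {w | σ0 ≤ w.re ∧ w.re ≤ 2 ∧ w.im = t} with hSdef
  have hS : Convex ℝ S := by
    have e : S = {w | σ0 ≤ w.re} ∩ ({w | w.re ≤ 2} ∩ {w | w.im = t}) := by
      ext w; simp [hSdef]
    rw [e]
    refine Convex.inter (convex_halfSpace_re_ge σ0) (Convex.inter (convex_halfSpace_re_le 2) ?_)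
    have e2 : {w : ℂ | w.im = t} = {w | w.im ≤ t} ∩ {w | t ≤ w.im} := by
      ext w; simp [le_antisymm_iff]
    rw [e2]
    exact Convex.inter (convex_halfSpace_im_le t) (convex_halfSpace_im_ge t)
  have hb : ∀ w ∈ S, ‖Lk q χ 1 w‖ ≤ D := by
    rintro ⟨a, b⟩ ⟨h1, h2, h3⟩
    simp only at h1 h2 h3
    subst h3
    exact hD a h1 h2
  have := Low_lip q χ S hS (fun w hw => lt_of_lt_of_le hσ0 hw.1) D hb ⟨σ, t⟩ ⟨σ', t⟩ ⟨h1, by simp; linarith only [hle, h2], rfl⟩
    ⟨by simp; linarith, h2, rfl⟩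
  have e : ‖(⟨σ', t⟩ : ℂ) - ⟨σ, t⟩‖ = σ' - σ := by
    have : (⟨σ', t⟩ : ℂ) - ⟨σ, t⟩ = ((σ' - σ : ℝ) : ℂ) := by
      apply Complex.ext <;> simp
    rw [this, Complex.norm_real]
    exact abs_of_nonneg (by linarith)
  rw [e] at this
  have h4 := norm_sub_norm_le (Lk q χ 0 ⟨σ', t⟩) (Lk q χ 0 ⟨σ, t⟩)
  linarith

/-- the scaled horizontal argument -/
private theorem Low_hor (q : ℕ) (χ : DirichletCharacter ℂ q) (t lam C D K η0 : ℝ) (hlam : 1 ≤ lam)
    (hη0 : 0 < η0) (hC : 1 ≤ C) (hD1 : 1 ≤ D) (hK1 : 1 ≤ K)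
    (hZ : ∀ σ : ℝ, 1 < σ → σ ≤ 2 → ‖Lk q 1 0 ((σ : ℂ))‖ ≤ C * (1 + 1 / ((σ - 1) * lam)))
    (hD : ∀ σ : ℝ, 1 + η0 ≤ σ → σ ≤ 2 → ‖Lk q χ 1 ⟨σ, t⟩‖ ≤ lam * D)
    (hK : ∀ σ : ℝ, 1 + η0 ≤ σ → σ ≤ 2 → ‖Lk q (χ ^ 2) 0 ⟨σ, 2 * t⟩‖ ≤ K)
    (σ : ℝ) (h1 : 1 + η0 ≤ σ) (h2 : σ ≤ 2) :
    1 / (32 * D ^ 3 * (2 * C) ^ 3 * K) ≤ ‖Lk q χ 0 ⟨σ, t⟩‖ := by
  have hlam0 : 0 < lam := by linarith
  rcases le_or_gt ((σ - 1) * lam) 1 with hc | hc
  · -- small
    have hu : ∀ u : ℝ, η0 * lam ≤ u → u ≤ 1 → 1 + η0 ≤ 1 + u / lam ∧ 1 + u / lam ≤ 2 := by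
      intro u hu1 hu2
      have a1 : η0 ≤ u / lam := by rwa [le_div_iff₀ hlam0]
      have a2 : u / lam ≤ 1 := by
        rw [div_le_one hlam0]; linarith
      exact ⟨by linarith only [a1], by linarith⟩
    have key := Low_core (fun u => ‖Lk q χ 0 ⟨1 + u / lam, t⟩‖) (η0 * lam) (2 * C) D K (by positivity)
      (by linarith) hD1 hK1 ?_ ?_ (fun _ _ _ => norm_nonneg _) ((σ - 1) * lam) ?_ hc
    · have e : 1 + (σ - 1) * lam / lam = σ := by
        field_simp
        ring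
      simpa only [e] using key
    · intro u hu1 hu2
      obtain ⟨b1, b2⟩ := hu u hu1 hu2
      have hu0 : 0 < u := lt_of_lt_of_le (by positivity) hu1
      have hσ1 : 1 < 1 + u / lam := by
        have : 0 < u / lam := by positivity
        linarith only [hη0, b1]
      have hz := hZ (1 + u / lam) hσ1 b2
      have hz2 : ‖Lk q 1 0 (((1 + u / lam : ℝ) : ℂ))‖ ≤ 2 * C / u := by
        refine hz.trans ?_
        have e : (1 + u / lam - 1) * lam = u := by
          field_simp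
          ring
        rw [e]
        have h3 : (1:ℝ) ≤ 1 / u := by rw [le_div_iff₀ hu0]; linarith only [hu2]
        have h4 : C * (1 + 1 / u) ≤ C * (1 / u + 1 / u) :=
          mul_le_mul_of_nonneg_left (by linarith only [h3]) (by linarith only [hC])
        refine h4.trans (le_of_eq ?_)
        ring
      have h := Low_341 q χ (1 + u / lam) t (2 * C / u) hσ1 hz2
      have hk := hK (1 + u / lam) b1 b2
      have hF : 0 ≤ ‖Lk q χ 0 ⟨1 + u / lam, t⟩‖ ^ 4 := by positivity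
      have hu3 : 0 < u ^ 3 := by positivity
      have hC0 : 0 < 2 * C := by linarith only [hC]
      calc u ^ 3 = u ^ 3 * 1 := by ring
        _ ≤ u ^ 3 * ((2 * C / u) ^ 3 * ‖Lk q (χ ^ 2) 0 ⟨1 + u / lam, 2 * t⟩‖ *
              ‖Lk q χ 0 ⟨1 + u / lam, t⟩‖ ^ 4) := mul_le_mul_of_nonneg_left h hu3.le
        _ ≤ u ^ 3 * ((2 * C / u) ^ 3 * K * ‖Lk q χ 0 ⟨1 + u / lam, t⟩‖ ^ 4) := by
              gcongr
        _ = (2 * C) ^ 3 * K * ‖Lk q χ 0 ⟨1 + u / lam, t⟩‖ ^ 4 := by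
              field_simp
    · intro u u' hu1 hle hu2
      obtain ⟨b1, _⟩ := hu u hu1 (hle.trans hu2)
      obtain ⟨_, b2⟩ := hu u' (hu1.trans hle) hu2
      have h := Low_seg q χ t (lam * D) (1 + η0) (by linarith only [hη0]) hD (1 + u / lam) (1 + u' / lam) b1
        (by gcongr) b2
      refine h.trans (le_of_eq ?_)
      field_simp
      ring
    · have : η0 ≤ σ - 1 := by linarith
      exact mul_le_mul_of_nonneg_right this hlam0.le
  · -- large
    have hσ1 : 1 < σ := by linarith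
    have hz := hZ σ hσ1 h2
    have hz2 : ‖Lk q 1 0 ((σ : ℂ))‖ ≤ 2 * C := by
      refine hz.trans ?_
      have h3 : 1 / ((σ - 1) * lam) ≤ 1 := by
        rw [div_le_one (by linarith only [hc])]; exact hc.le
      have h4 : C * (1 + 1 / ((σ - 1) * lam)) ≤ C * (1 + 1) :=
        mul_le_mul_of_nonneg_left (by linarith) (by linarith only [hC])
      linarith only [h4]
    have h := Low_341 q χ σ t (2 * C) hσ1 hz2
    have hk := hK σ h1 h2
    set F := ‖Lk q χ 0 ⟨σ, t⟩‖ with hF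
    have hF0 : 0 ≤ F := norm_nonneg _
    have h5 : 1 ≤ (2 * C) ^ 3 * K * F ^ 4 := by
      refine h.trans ?_
      gcongr
    set P : ℝ := (2 * C) ^ 3 * K with hP
    have hP1 : 1 ≤ P := by
      have : (1:ℝ) ≤ (2 * C) ^ 3 := one_le_pow₀ (by linarith only [hC])
      nlinarith only [hK1, this]
    have hP0 : 0 < P := by linarith only [hP1]
    have h6 : 1 / (32 * D ^ 3 * (2 * C) ^ 3 * K) ≤ 1 / P := by
      apply one_div_le_one_div_of_le hP0
      have hD3 : (1:ℝ) ≤ D ^ 3 := one_le_pow₀ hD1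
      have : 32 * D ^ 3 * (2 * C) ^ 3 * K = 32 * D ^ 3 * P := by rw [hP]; ring
      rw [this]
      nlinarith only [hP1, hD3]
    refine h6.trans ?_
    by_contra hcon
    push Not at hcon
    have h7 : F ^ 4 ≤ (1 / P) ^ 4 := pow_le_pow_left₀ hF0 hcon.le 4
    have hP3 : 1 ≤ P ^ 3 := one_le_pow₀ hP1
    -- F < 1/P ≤ 1
    have hF1 : F < 1 := lt_of_lt_of_le hcon (by rw [div_le_one hP0]; exact hP1)
    have h8 : F ^ 4 ≤ F := by
      have : F ^ 3 ≤ 1 := pow_le_one₀ hF0 hF1.le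
      calc F ^ 4 = F ^ 3 * F := by ring
        _ ≤ 1 * F := mul_le_mul_of_nonneg_right this hF0
        _ = F := one_mul F
    have h9 : P * F < 1 := by
      have := mul_lt_mul_of_pos_left hcon hP0
      rwa [mul_one_div_cancel hP0.ne'] at this
    have h10 : P * F ^ 4 ≤ P * F := mul_le_mul_of_nonneg_left h8 hP0.le
    linarith only [h5, h9, h10]

theorem lk_low_h [T0] (h_lk_up : lk_up_P) (h_zy_up : zy_up_P)  (B : ℕ) : ∃ c : ℝ, 0 < c ∧ c ≤ 1 ∧ ∃ K' x0 : ℕ, ∀ x : ℕ, x0 ≤ x → ∀ (d : ℕ) (χ : DirichletCharacter ℂ d) (s : ℂ),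
    1 ≤ d → (d : ℝ) ≤ Real.log x ^ B → 1 + 1 / (4 * Real.log x) ≤ s.re → s.re ≤ 2 →
    Real.log x ^ K' ≤ |s.im| → |s.im| ≤ 3 * (x : ℝ) ^ (3 : ℕ) →
    c / LL x ^ 7 ≤ ‖Lk (qm x d) (ch x χ) 0 s‖ := by
  obtain ⟨C0, hC0, K0, x0, h0⟩ := h_lk_up 0 B
  obtain ⟨C1, hC1, K1, x1, h1⟩ := h_lk_up 1 B
  obtain ⟨Cz, hCz, xz, hz⟩ := h_zy_up
  obtain ⟨xe, he⟩ := yx_ev
  have hpos : 0 < 32 * C1 ^ 3 * (2 * Cz) ^ 3 * C0 := by positivity
  refine ⟨1 / (32 * C1 ^ 3 * (2 * Cz) ^ 3 * C0), by positivity, ?_, max K0 K1,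
    max (max x0 x1) (max xz xe), ?_⟩
  · rw [div_le_one hpos]
    have a1 : (1:ℝ) ≤ C1 ^ 3 := one_le_pow₀ hC1
    have a2 : (1:ℝ) ≤ (2 * Cz) ^ 3 := one_le_pow₀ (by linarith)
    have a3 : (1:ℝ) ≤ C1 ^ 3 * (2 * Cz) ^ 3 := by nlinarith only [a1, a2]
    have a4 : (1:ℝ) ≤ C1 ^ 3 * (2 * Cz) ^ 3 * C0 := by nlinarith only [hC0, a3]
    nlinarith only [a4]
  · intro x hx d χ s hd hdB hs1 hs2 ht1 ht2
    have hx0 : x0 ≤ x := le_trans (le_trans (le_max_left _ _) (le_max_left _ _)) hx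
    have hx1 : x1 ≤ x := le_trans (le_trans (le_max_right _ _) (le_max_left _ _)) hx
    have hxz : xz ≤ x := le_trans (le_trans (le_max_left _ _) (le_max_right _ _)) hx
    have hxe : xe ≤ x := le_trans (le_trans (le_max_right _ _) (le_max_right _ _)) hx
    obtain ⟨_, _, _, hLL, hL9, hL, _⟩ := he x hxe
    obtain ⟨σ, t⟩ := s
    simp only at hs1 hs2 ht1 ht2
    have hη0 : 0 < 1 / (4 * Real.log x) := by positivity
    have hLL0 : 0 < LL x := by linarith only [hLL]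
    have hp0 : Real.log x ^ K0 ≤ Real.log x ^ (max K0 K1) := pow_le_pow_right₀ hL (le_max_left _ _)
    have hp1 : Real.log x ^ K1 ≤ Real.log x ^ (max K0 K1) := pow_le_pow_right₀ hL (le_max_right _ _)
    have hx3 : (0:ℝ) ≤ (x:ℝ) ^ (3:ℕ) := by positivity
    have habs : |2 * t| = 2 * |t| := by rw [abs_mul]; norm_num
    have hD1 : 1 ≤ C1 * LL x ^ 2 := by
      have : (1:ℝ) ≤ LL x ^ 2 := one_le_pow₀ hLL
      nlinarith only [this, hC1]
    have hK1' : 1 ≤ C0 * LL x := by nlinarith only [hC0, hLL]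
    have key := Low_hor (qm x d) (ch x χ) t (L9 x) Cz (C1 * LL x ^ 2) (C0 * LL x)
      (1 / (4 * Real.log x)) hL9 hη0 hCz hD1 hK1'
      (fun σ' a1 a2 => by
        have := hz x hxz d (σ' : ℂ) hd (by simpa using a1) (by simpa using a2)
        simpa using this)
      (fun σ' a1 a2 => by
        have := h1 x hx1 d χ ⟨σ', t⟩ hd hdB a1 a2 (hp1.trans ht1) (by show |t| ≤ _; linarith only [ht2, hx3])
        refine this.trans (le_of_eq ?_)
        ring)
      (fun σ' a1 a2 => by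
        rw [ch_sq]
        have := h0 x hx0 d (χ ^ 2) ⟨σ', 2 * t⟩ hd hdB a1 a2
          (by show _ ≤ |2 * t|; rw [habs]; have := hp0.trans ht1; linarith only [ht1, hp0, abs_nonneg t])
          (by show |2 * t| ≤ _; rw [habs]; linarith only [ht2])
        refine this.trans (le_of_eq ?_)
        ring)
      σ hs1 hs2
    refine le_trans (le_of_eq ?_) key
    field_simp

end Pool.Agent.H76.VKT

end

section

/-!
# MDX Cnt: lower bound for the number of walks

Proof.  Induction on `j`.  `j = 0`: `Om R F 0` is in bijection with `F` (`w ↦ w.1 0`; `IsW` is trivial).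
`j → j+1` (the bound `m - 2(j+1)κ ≥ 0` is assumed for `j+1`, so also for `j`): every `w ∈ Om R F j` with last vertex `i = v1 w ∈ F` is extended:
`(p, g)` with `(i, p, g) ∈ R` and `p` different from the `2j` primes of `w`: at least `m - 2jκ` (`h1`; for each `p` at most `κ` triples, `hM.out`);
then `(i', q)` with `(i', q, g) ∈ R`, `q` different from the `2j+1` primes (`w` and `p`): at least `m - (2j+1)κ` (`h2`, `hM.inn`).  `i' ∈ F` by `hF`.
The walks `(Fin.snoc w.1 i', Fin.snoc w.2 (p, g, q))` are pairwise different.  So `|Om (j+1)| ≥ |Om j| (m - 2(j+1)κ)^2`.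
A convenient form: map `Om R F (j+1)` to `Om R F j` by `Lw`; every fibre has at least `(m - 2(j+1)κ)^2` elements (`Finset.card_eq_sum_card_fiberwise`);
the fibre of `w` contains the image of the sigma type over `(i, p, g)` of the triples `(i', q, g)`.
-/

set_option autoImplicit false

namespace Pool.Agent.H74.MDX

open Finset

private theorem Cnt_rem (S : Finset (ℕ × ℕ × ℕ)) (Q : Finset ℕ) (κ : ℝ)
    (h : ∀ p : ℕ, ((S.filter (fun u => u.2.1 = p)).card : ℝ) ≤ κ) :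
    (S.card : ℝ) - Q.card * κ ≤ ((S.filter (fun u => u.2.1 ∉ Q)).card : ℝ) := by
  classical
  have e1 : (S.filter (fun u => u.2.1 ∈ Q)).card + (S.filter (fun u => ¬ u.2.1 ∈ Q)).card = S.card :=
    Finset.card_filter_add_card_filter_not _
  have e2 : (S.filter (fun u => u.2.1 ∈ Q)).card =
      ∑ p ∈ Q, ((S.filter (fun u => u.2.1 ∈ Q)).filter (fun u => u.2.1 = p)).card := by
    refine Finset.card_eq_sum_card_fiberwise (f := fun u : ℕ × ℕ × ℕ => u.2.1) (t := Q) ?_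
    intro u hu
    exact (Finset.mem_filter.1 (Finset.mem_coe.1 hu)).2
  have e3 : ((S.filter (fun u => u.2.1 ∈ Q)).card : ℝ) ≤ Q.card * κ := by
    rw [e2]
    push_cast
    calc ∑ p ∈ Q, (((S.filter (fun u => u.2.1 ∈ Q)).filter (fun u => u.2.1 = p)).card : ℝ)
        ≤ ∑ _p ∈ Q, κ := by
          refine Finset.sum_le_sum (fun p _ => ?_)
          refine le_trans ?_ (h p)
          exact_mod_cast Finset.card_le_card (Finset.filter_subset_filter _ (Finset.filter_subset _ _))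
      _ = Q.card * κ := by rw [Finset.sum_const, nsmul_eq_mul]
  have e4 : ((S.filter (fun u => u.2.1 ∈ Q)).card : ℝ) + ((S.filter (fun u => ¬ u.2.1 ∈ Q)).card : ℝ) = S.card := by
    exact_mod_cast e1
  linarith

/-- the primes of a walk -/
private def Cnt_pr {j : ℕ} (w : Wk j) : Finset ℕ :=
  (univ.image (fun s : Fin j => (w.2 s).1)) ∪ (univ.image (fun s : Fin j => (w.2 s).2.2))

private theorem Cnt_pr_card {j : ℕ} (w : Wk j) : (Cnt_pr w).card ≤ 2 * j := by
  unfold Cnt_pr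
  refine (Finset.card_union_le _ _).trans ?_
  have a1 : (univ.image (fun s : Fin j => (w.2 s).1)).card ≤ j :=
    Finset.card_image_le.trans (by rw [Finset.card_univ, Fintype.card_fin])
  have a2 : (univ.image (fun s : Fin j => (w.2 s).2.2)).card ≤ j :=
    Finset.card_image_le.trans (by rw [Finset.card_univ, Fintype.card_fin])
  omega

private theorem Cnt_pr1 {j : ℕ} (w : Wk j) (s : Fin j) : (w.2 s).1 ∈ Cnt_pr w :=
  Finset.mem_union_left _ (Finset.mem_image_of_mem (fun s : Fin j => (w.2 s).1) (Finset.mem_univ s))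

private theorem Cnt_pr2 {j : ℕ} (w : Wk j) (s : Fin j) : (w.2 s).2.2 ∈ Cnt_pr w :=
  Finset.mem_union_right _ (Finset.mem_image_of_mem (fun s : Fin j => (w.2 s).2.2) (Finset.mem_univ s))

/-- the extended walk -/
private def Cnt_ext {j : ℕ} (w : Wk j) (a : ℕ) (b : ℕ × ℕ × ℕ) : Wk (j + 1) :=
  (Fin.snoc (α := fun _ => ℕ) w.1 a, Fin.snoc (α := fun _ => ℕ × ℕ × ℕ) w.2 b)

private theorem Cnt_ext_L {j : ℕ} (w : Wk j) (a : ℕ) (b : ℕ × ℕ × ℕ) : Lw (Cnt_ext w a b) = w := by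
  unfold Lw Cnt_ext
  refine Prod.ext ?_ ?_
  · funext s
    exact Fin.snoc_castSucc (α := fun _ => ℕ) a w.1 s
  · funext s
    exact Fin.snoc_castSucc (α := fun _ => ℕ × ℕ × ℕ) b w.2 s

private theorem Cnt_ext_1c {j : ℕ} (w : Wk j) (a : ℕ) (b : ℕ × ℕ × ℕ) (s : Fin (j + 1)) :
    (Cnt_ext w a b).1 s.castSucc = w.1 s := Fin.snoc_castSucc (α := fun _ => ℕ) a w.1 s

private theorem Cnt_ext_1l {j : ℕ} (w : Wk j) (a : ℕ) (b : ℕ × ℕ × ℕ) :
    (Cnt_ext w a b).1 (Fin.last (j + 1)) = a := Fin.snoc_last (α := fun _ => ℕ) a w.1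

private theorem Cnt_ext_2c {j : ℕ} (w : Wk j) (a : ℕ) (b : ℕ × ℕ × ℕ) (s : Fin j) :
    (Cnt_ext w a b).2 s.castSucc = w.2 s := Fin.snoc_castSucc (α := fun _ => ℕ × ℕ × ℕ) b w.2 s

private theorem Cnt_ext_2l {j : ℕ} (w : Wk j) (a : ℕ) (b : ℕ × ℕ × ℕ) :
    (Cnt_ext w a b).2 (Fin.last j) = b := Fin.snoc_last (α := fun _ => ℕ × ℕ × ℕ) b w.2

private theorem Cnt_ext_mem {j : ℕ} (R : Finset (ℕ × ℕ × ℕ)) (F : Finset ℕ) (w : Wk j) (hw : w ∈ Om R F j)
    (i' p g q : ℕ) (hi : i' ∈ F) (h1 : (v1 w, p, g) ∈ R) (h2 : (i', q, g) ∈ R)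
    (hp : p ∉ Cnt_pr w) (hq : q ∉ insert p (Cnt_pr w)) : Cnt_ext w i' (p, g, q) ∈ Om R F (j + 1) := by
  rw [mem_Om] at hw ⊢
  rw [Finset.mem_insert, not_or] at hq
  obtain ⟨hqp, hq⟩ := hq
  refine ⟨?_, ?_, ?_⟩
  · intro s
    refine Fin.lastCases ?_ (fun s => ?_) s
    · rw [Cnt_ext_1l]
      exact hi
    · rw [Cnt_ext_1c]
      exact hw.1 s
  · intro s
    refine Fin.lastCases ?_ (fun s => ?_) s
    · rw [Cnt_ext_1c, Cnt_ext_2l, Fin.succ_last, Cnt_ext_1l]
      exact ⟨h1, h2⟩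
    · rw [Cnt_ext_1c, Cnt_ext_2c, Fin.succ_castSucc, Cnt_ext_1c]
      exact hw.2.1 s
  · have hinj := hw.2.2
    have k1 : ∀ s t : Fin j, (w.2 s).1 = (w.2 t).1 → s = t := fun s t h =>
      Sum.inl_injective (hinj (a₁ := Sum.inl s) (a₂ := Sum.inl t) h)
    have k2 : ∀ s t : Fin j, (w.2 s).2.2 = (w.2 t).2.2 → s = t := fun s t h =>
      Sum.inr_injective (hinj (a₁ := Sum.inr s) (a₂ := Sum.inr t) h)
    have k3 : ∀ s t : Fin j, (w.2 s).1 ≠ (w.2 t).2.2 := fun s t h => by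
      have := hinj (a₁ := Sum.inl s) (a₂ := Sum.inr t) h
      cases this
    have m1 : Function.Injective (fun s : Fin (j + 1) => ((Cnt_ext w i' (p, g, q)).2 s).1) := by
      intro s t
      refine Fin.lastCases ?_ (fun s => ?_) s
      · refine Fin.lastCases (fun _ => rfl) (fun t => ?_) t
        intro h
        simp only [Cnt_ext_2l, Cnt_ext_2c] at h
        exact absurd (h ▸ Cnt_pr1 w t) hp
      · refine Fin.lastCases ?_ (fun t => ?_) t
        · intro h
          simp only [Cnt_ext_2l, Cnt_ext_2c] at h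
          exact absurd (h ▸ Cnt_pr1 w s) hp
        · intro h
          simp only [Cnt_ext_2c] at h
          rw [k1 s t h]
    have m2 : Function.Injective (fun s : Fin (j + 1) => ((Cnt_ext w i' (p, g, q)).2 s).2.2) := by
      intro s t
      refine Fin.lastCases ?_ (fun s => ?_) s
      · refine Fin.lastCases (fun _ => rfl) (fun t => ?_) t
        intro h
        simp only [Cnt_ext_2l, Cnt_ext_2c] at h
        exact absurd (h ▸ Cnt_pr2 w t) hq
      · refine Fin.lastCases ?_ (fun t => ?_) t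
        · intro h
          simp only [Cnt_ext_2l, Cnt_ext_2c] at h
          exact absurd (h ▸ Cnt_pr2 w s) hq
        · intro h
          simp only [Cnt_ext_2c] at h
          rw [k2 s t h]
    refine m1.sumElim m2 ?_
    intro s t
    refine Fin.lastCases ?_ (fun s => ?_) s
    · refine Fin.lastCases ?_ (fun t => ?_) t
      · intro h
        simp only [Cnt_ext_2l] at h
        exact hqp h.symm
      · intro h
        simp only [Cnt_ext_2l, Cnt_ext_2c] at h
        exact absurd (h ▸ Cnt_pr2 w t) hp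
    · refine Fin.lastCases ?_ (fun t => ?_) t
      · intro h
        simp only [Cnt_ext_2l, Cnt_ext_2c] at h
        exact absurd (h ▸ Cnt_pr1 w s) hq
      · intro h
        simp only [Cnt_ext_2c] at h
        exact k3 s t h

private theorem Cnt_fib {j : ℕ} (R : Finset (ℕ × ℕ × ℕ)) (F : Finset ℕ) (κ m : ℝ) (P : ℕ) (hM : Mul κ P R)
    (hF : ∀ t ∈ R, t.1 ∈ F) (hm : 2 * ((j + 1 : ℕ) : ℝ) * κ ≤ m)
    (h1 : ∀ i ∈ F, m ≤ ((R.filter (fun u => u.1 = i)).card : ℝ))
    (h2 : ∀ t ∈ R, m ≤ ((R.filter (fun u => u.2.2 = t.2.2)).card : ℝ)) (w : Wk j) (hw : w ∈ Om R F j) :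
    (m - 2 * ((j + 1 : ℕ) : ℝ) * κ) ^ 2 ≤ (((Om R F (j + 1)).filter (fun v => Lw v = w)).card : ℝ) := by
  classical
  have hκ : (0 : ℝ) ≤ κ := zero_le_one.trans hM.one
  set X : ℝ := m - 2 * ((j + 1 : ℕ) : ℝ) * κ with hX
  have hX0 : 0 ≤ X := by rw [hX]; linarith
  set S1 : Finset (ℕ × ℕ × ℕ) := (R.filter (fun u => u.1 = v1 w)).filter (fun u => u.2.1 ∉ Cnt_pr w) with hS1
  set S2 : ℕ × ℕ × ℕ → Finset (ℕ × ℕ × ℕ) := fun u =>
    (R.filter (fun t => t.2.2 = u.2.2)).filter (fun t => t.2.1 ∉ insert u.2.1 (Cnt_pr w)) with hS2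
  have hv : v1 w ∈ F := (mem_Om.1 hw).1 _
  have c1 : X ≤ (S1.card : ℝ) := by
    have a1 := Cnt_rem (R.filter (fun u => u.1 = v1 w)) (Cnt_pr w) κ (by
      intro p
      rw [Finset.filter_filter]
      exact hM.out _ _)
    have a2 := h1 _ hv
    have a3 : ((Cnt_pr w).card : ℝ) * κ ≤ 2 * j * κ := by
      refine mul_le_mul_of_nonneg_right ?_ hκ
      exact_mod_cast Cnt_pr_card w
    rw [hX]
    push_cast
    nlinarith
  have c2 : ∀ u ∈ S1, X ≤ ((S2 u).card : ℝ) := by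
    intro u hu
    have huR : u ∈ R := (Finset.mem_filter.1 (Finset.mem_filter.1 hu).1).1
    have a1 := Cnt_rem (R.filter (fun t => t.2.2 = u.2.2)) (insert u.2.1 (Cnt_pr w)) κ (by
      intro p
      rw [Finset.filter_filter]
      exact hM.inn _ _)
    have a2 := h2 _ huR
    have a3 : ((insert u.2.1 (Cnt_pr w)).card : ℝ) * κ ≤ (2 * j + 1) * κ := by
      refine mul_le_mul_of_nonneg_right ?_ hκ
      have b1 := Finset.card_insert_le u.2.1 (Cnt_pr w)
      have b2 := Cnt_pr_card w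
      have b3 : (insert u.2.1 (Cnt_pr w)).card ≤ 2 * j + 1 := by omega
      exact_mod_cast b3
    rw [hX]
    push_cast
    nlinarith
  have c3 : X ^ 2 ≤ ((S1.sigma S2).card : ℝ) := by
    rw [Finset.card_sigma]
    push_cast
    calc X ^ 2 = X * X := by ring
      _ ≤ (S1.card : ℝ) * X := mul_le_mul_of_nonneg_right c1 hX0
      _ = ∑ _u ∈ S1, X := by rw [Finset.sum_const, nsmul_eq_mul]
      _ ≤ ∑ u ∈ S1, ((S2 u).card : ℝ) := Finset.sum_le_sum c2
  refine c3.trans ?_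
  have c4 : (S1.sigma S2).card ≤ ((Om R F (j + 1)).filter (fun v => Lw v = w)).card := by
    refine Finset.card_le_card_of_injOn
      (fun x : (_ : ℕ × ℕ × ℕ) × (ℕ × ℕ × ℕ) => Cnt_ext w x.2.1 (x.1.2.1, x.1.2.2, x.2.2.1)) ?_ ?_
    · rintro ⟨u, t⟩ hx
      obtain ⟨hu, ht⟩ := Finset.mem_sigma.1 (Finset.mem_coe.1 hx)
      obtain ⟨hu1, hu2⟩ := Finset.mem_filter.1 hu
      obtain ⟨hu1, hu3⟩ := Finset.mem_filter.1 hu1
      obtain ⟨ht1, ht2⟩ := Finset.mem_filter.1 ht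
      obtain ⟨ht1, ht3⟩ := Finset.mem_filter.1 ht1
      refine Finset.mem_coe.2 (Finset.mem_filter.2 ⟨?_, Cnt_ext_L _ _ _⟩)
      refine Cnt_ext_mem R F w hw _ _ _ _ (hF _ ht1) ?_ ?_ hu2 ht2
      · rw [← hu3]
        exact hu1
      · dsimp only at ht3
        rw [← ht3]
        exact ht1
    · rintro ⟨u, t⟩ hx ⟨u', t'⟩ hx' h
      obtain ⟨hu, ht⟩ := Finset.mem_sigma.1 (Finset.mem_coe.1 hx)
      obtain ⟨hu', ht'⟩ := Finset.mem_sigma.1 (Finset.mem_coe.1 hx')
      have hu3 := (Finset.mem_filter.1 (Finset.mem_filter.1 hu).1).2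
      have hu3' := (Finset.mem_filter.1 (Finset.mem_filter.1 hu').1).2
      have ht3 := (Finset.mem_filter.1 (Finset.mem_filter.1 ht).1).2
      have ht3' := (Finset.mem_filter.1 (Finset.mem_filter.1 ht').1).2
      have e1 := congrArg (fun v : Wk (j + 1) => v.1 (Fin.last (j + 1))) h
      have e2 := congrArg (fun v : Wk (j + 1) => v.2 (Fin.last j)) h
      simp only [Cnt_ext_1l] at e1
      simp only [Cnt_ext_2l, Prod.mk.injEq] at e2
      dsimp only at hu3 hu3' ht3 ht3' e1 e2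
      obtain ⟨u1, u2, u3⟩ := u
      obtain ⟨u1', u2', u3'⟩ := u'
      obtain ⟨t1, t2, t3⟩ := t
      obtain ⟨t1', t2', t3'⟩ := t'
      dsimp only at hu3 hu3' ht3 ht3' e1 e2
      obtain ⟨f1, f2, f3⟩ := e2
      subst f1 f2 f3 e1
      subst hu3 hu3'
      subst ht3
      subst ht3'
      rfl
  exact_mod_cast c4

theorem om_card (R : Finset (ℕ × ℕ × ℕ)) (F : Finset ℕ) (κ m : ℝ) (P j : ℕ) (hM : Mul κ P R)
    (hF : ∀ t ∈ R, t.1 ∈ F) (hm : 2 * j * κ ≤ m)
    (h1 : ∀ i ∈ F, m ≤ ((R.filter (fun u => u.1 = i)).card : ℝ))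
    (h2 : ∀ t ∈ R, m ≤ ((R.filter (fun u => u.2.2 = t.2.2)).card : ℝ)) :
    (F.card : ℝ) * (m - 2 * j * κ) ^ (2 * j) ≤ (Om R F j).card := by
  classical
  have hκ : (0 : ℝ) ≤ κ := zero_le_one.trans hM.one
  induction j with
  | zero =>
    rw [Nat.mul_zero, pow_zero, mul_one]
    have c : F.card ≤ (Om R F 0).card := by
      refine Finset.card_le_card_of_injOn (fun i : ℕ => ((fun _ => i, fun s => s.elim0) : Wk 0)) ?_ ?_
      · intro i hi
        refine Finset.mem_coe.2 (mem_Om.2 ⟨fun _ => Finset.mem_coe.1 hi, fun s => s.elim0, ?_⟩)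
        rintro (s | s)
        · exact s.elim0
        · exact s.elim0
      · intro i _ i' _ h
        exact congrArg (fun v : Wk 0 => v.1 0) h
    exact_mod_cast c
  | succ j ih =>
    have hm' : 2 * (j : ℝ) * κ ≤ m := by
      push_cast at hm
      nlinarith
    have ih' := ih hm'
    set X : ℝ := m - 2 * ((j + 1 : ℕ) : ℝ) * κ with hX
    have hX0 : 0 ≤ X := by rw [hX]; linarith
    have hXY : X ≤ m - 2 * (j : ℝ) * κ := by
      rw [hX]
      push_cast
      nlinarith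
    have c1 : (F.card : ℝ) * X ^ (2 * j) ≤ (Om R F j).card :=
      (mul_le_mul_of_nonneg_left (pow_le_pow_left₀ hX0 hXY _) (Nat.cast_nonneg _)).trans ih'
    have c2 : (Om R F (j + 1)).card = ∑ w ∈ Om R F j, ((Om R F (j + 1)).filter (fun v => Lw v = w)).card := by
      refine Finset.card_eq_sum_card_fiberwise (f := (Lw : Wk (j + 1) → Wk j)) (t := Om R F j) ?_
      intro v hv
      exact Finset.mem_coe.2 (Lw_mem (Finset.mem_coe.1 hv))
    have c3 : ((Om R F j).card : ℝ) * X ^ 2 ≤ (Om R F (j + 1)).card := by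
      rw [c2]
      push_cast
      calc ((Om R F j).card : ℝ) * X ^ 2 = ∑ _w ∈ Om R F j, X ^ 2 := by
            rw [Finset.sum_const, nsmul_eq_mul]
        _ ≤ _ := Finset.sum_le_sum (fun w hw => Cnt_fib R F κ m P hM hF hm h1 h2 w hw)
    calc (F.card : ℝ) * X ^ (2 * (j + 1)) = ((F.card : ℝ) * X ^ (2 * j)) * X ^ 2 := by ring
      _ ≤ ((Om R F j).card : ℝ) * X ^ 2 := mul_le_mul_of_nonneg_right c1 (by positivity)
      _ ≤ _ := c3

end Pool.Agent.H74.MDX

end

section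

/-!
# MDB Cover: greedy cover by classes with a rational approximation

Proof.  `N0`: such that `hW C (C0 + 1)` applies, and `L = log N ≥ 2`.  Call `(r, U, s, d, b, T)` admissible if `U ⊆ F0`, all `i ∈ U` satisfy `s i < r`, the data of `j < r` are as in `Cov.dat`, `frq` holds, and
`r n ≤ Q |U|` (every class has at least `n/Q` elements).  The empty system is admissible (`r = 0`, `U = ∅`).  For an admissible system `|U| ≤ |F0| ≤ C n` (`F0 ⊆ [n/C, C n]`, natural numbers `≥ 1`), so `r ≤ C Q`.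
Take an admissible system with `r` maximal (`r ≤ C Q`: `Nat.findGreatest`, or strong induction on `|F0 \ U|`).  If `|R0.filter (t.1 ∈ U)| < |R0|/2` then `R0' := R0.filter (t.1 ∉ U)` has `|R0'| > |R0|/2 ≥ n P/(2 L^C0) ≥ n P/L^(C0+1)`
and `Rel C n P (η P) (F0 \ U) G0 α β R0'`, so `hW C (C0+1)` gives `d, b, T, F1 ⊆ F0 \ U` with `n ≤ Q |F1|`: put `U' = U ∪ F1` (disjoint), `r' = r + 1`, `s' = r` on `F1` (`s` elsewhere), `d' r = d`, ... (`Function.update` or `if`):
admissible with `r + 1`, a contradiction.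
-/

set_option autoImplicit false

namespace Pool.Agent.H53.MDB

open Finset
open Pool.Agent.H53.MID (nz Rel)

private theorem Cover_log {N : ℕ} (h : 8 ≤ N) : 2 ≤ Real.log N := by
  have h1 : (8 : ℝ) ≤ N := by exact_mod_cast h
  rw [Real.le_log_iff_exp_le (by linarith)]
  have h2 := Real.exp_one_lt_d9
  have h3 : Real.exp 2 = Real.exp 1 * Real.exp 1 := by
    rw [← Real.exp_add]
    norm_num
  have h4 := Real.exp_pos 1
  rw [h3]
  nlinarith

/-- admissible systems -/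
private def Cover_Adm (n : ℕ) (Q η : ℝ) (F0 : Finset ℕ) (α : ℕ → ℝ) (r : ℕ) (U : Finset ℕ) (s d b : ℕ → ℕ) (T : ℕ → ℝ) : Prop :=
  U ⊆ F0 ∧ (r : ℝ) * n ≤ Q * U.card ∧ (∀ i ∈ U, s i < r) ∧
    (∀ j < r, 1 ≤ d j ∧ (d j : ℝ) ≤ Q ∧ Nat.Coprime (b j) (d j) ∧ |T j| ≤ Q * η * (n : ℝ) ^ 2) ∧
    (∀ i ∈ U, nz (α i - b (s i) / d (s i) - T (s i) / i) ≤ Q * η)

private theorem Cover_card {C : ℝ} (hC : 1 ≤ C) {n : ℕ} (hn : 1 ≤ n) {U : Finset ℕ}
    (h : ∀ K ∈ U, (n : ℝ) / C ≤ K ∧ (K : ℝ) ≤ C * n) : (U.card : ℝ) ≤ C * n := by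
  have hn' : (0 : ℝ) < n := by exact_mod_cast hn
  have h1 : U ⊆ Icc 1 ⌊C * n⌋₊ := by
    intro K hK
    obtain ⟨h2, h3⟩ := h K hK
    rw [mem_Icc]
    refine ⟨?_, Nat.le_floor h3⟩
    by_contra h0
    have h4 : K = 0 := by omega
    rw [h4, Nat.cast_zero] at h2
    have h5 : (0 : ℝ) < n / C := div_pos hn' (by linarith)
    linarith
  have h2 := card_le_card h1
  rw [Nat.card_Icc, Nat.add_sub_cancel] at h2
  have h3 : (U.card : ℝ) ≤ (⌊C * n⌋₊ : ℝ) := by exact_mod_cast h2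
  exact h3.trans (Nat.floor_le (by positivity))

private theorem Cover_le {C : ℝ} (hC : 1 ≤ C) {n : ℕ} (hn : 1 ≤ n) {Q η : ℝ} (hQ : 0 < Q) {F0 : Finset ℕ} {α : ℕ → ℝ}
    (hF : ∀ K ∈ F0, (n : ℝ) / C ≤ K ∧ (K : ℝ) ≤ C * n) {r : ℕ} {U : Finset ℕ} {s d b : ℕ → ℕ} {T : ℕ → ℝ}
    (h : Cover_Adm n Q η F0 α r U s d b T) : (r : ℝ) ≤ C * Q := by
  have hn' : (0 : ℝ) < n := by exact_mod_cast hn
  have h1 := Cover_card hC hn (U := U) (fun K hK => hF K (h.1 hK))
  have h2 := h.2.1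
  have h3 : (r : ℝ) * n ≤ (C * Q) * n := by
    refine h2.trans ?_
    have h4 := mul_le_mul_of_nonneg_left h1 hQ.le
    linarith
  exact le_of_mul_le_mul_right h3 hn'

open Classical in
theorem cover (t t2 : ℝ) (hW : CombWk t t2) (C : ℝ) (hC : 1 ≤ C) (C0 : ℕ) : ∃ N0 : ℕ, ∀ N : ℕ, N0 ≤ N →
    ∀ (n P : ℕ) (η : ℝ) (F0 G0 : Finset ℕ) (α β : ℕ → ℝ) (R0 : Finset (ℕ × ℕ × ℕ)),
    Real.exp (Real.log N ^ t) ≤ P → P ≤ N → 1 ≤ n → n ≤ N → 0 < η → η * Real.exp (Real.log N ^ t2) * (P : ℝ) ^ 3 ≤ 1 →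
    Rel C n P (η * P) F0 G0 α β R0 → n * P / Real.log N ^ C0 ≤ (R0.card : ℝ) →
    ∃ (r : ℕ) (U : Finset ℕ) (s d b : ℕ → ℕ) (T : ℕ → ℝ), U ⊆ F0 ∧
      Cov C n (Real.exp (Real.log N ^ t2)) η α r U s d b T ∧
      (R0.card : ℝ) / 2 ≤ (R0.filter (fun x => x.1 ∈ U)).card := by
  obtain ⟨N1, hN1⟩ := hW C hC (C0 + 1)
  refine ⟨max N1 8, fun N hN n P η F0 G0 α β R0 hP hPN hn hnN hη hηP hRel hR0 => ?_⟩
  have hN1' : N1 ≤ N := (le_max_left _ _).trans hN
  have hL : 2 ≤ Real.log N := Cover_log ((le_max_right _ _).trans hN)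
  have hQ : 0 < Real.exp (Real.log N ^ t2) := Real.exp_pos _
  by_contra hcon
  have hall : ∀ r : ℕ, ∃ (U : Finset ℕ) (s d b : ℕ → ℕ) (T : ℕ → ℝ),
      Cover_Adm n (Real.exp (Real.log N ^ t2)) η F0 α r U s d b T := by
    intro r
    induction r with
    | zero =>
      refine ⟨∅, fun _ => 0, fun _ => 0, fun _ => 0, fun _ => 0, empty_subset _, ?_, ?_, ?_, ?_⟩
      · simp
      · intro i hi
        exact absurd hi (notMem_empty i)
      · intro j hj
        exact absurd hj (Nat.not_lt_zero j)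
      · intro i hi
        exact absurd hi (notMem_empty i)
    | succ r ih =>
      obtain ⟨U, s, d, b, T, hA⟩ := ih
      have hrQ := Cover_le hC hn hQ hRel.rngF hA
      obtain ⟨hU, hcard, hs, hdat, hfrq⟩ := hA
      have hhalf : ((R0.filter (fun x => x.1 ∈ U)).card : ℝ) < (R0.card : ℝ) / 2 := by
        by_contra hge
        exact hcon ⟨r, U, s, d, b, T, hU, ⟨hrQ, fun i hi => hRel.rngF i (hU hi), hs, hdat, hfrq⟩, not_lt.1 hge⟩
      have hsplit : (R0.filter (fun x => x.1 ∈ U)).card + (R0.filter (fun x => ¬ x.1 ∈ U)).card = R0.card :=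
        card_filter_add_card_filter_not (s := R0) (fun x => x.1 ∈ U)
      have hsplit' : ((R0.filter (fun x => x.1 ∈ U)).card : ℝ) + ((R0.filter (fun x => ¬ x.1 ∈ U)).card : ℝ) = R0.card := by
        exact_mod_cast hsplit
      have hRel' : Rel C n P (η * P) (F0 \ U) G0 α β (R0.filter (fun x => ¬ x.1 ∈ U)) := by
        refine ⟨?_, ?_, ?_, ?_, ?_, ?_, hRel.rngF'⟩
        · intro x hx
          rw [mem_filter] at hx
          exact mem_sdiff.2 ⟨hRel.memF x hx.1, hx.2⟩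
        · intro x hx
          exact hRel.memF' x (mem_filter.1 hx).1
        · intro x hx
          exact hRel.prime x (mem_filter.1 hx).1
        · intro x hx
          exact hRel.pos x (mem_filter.1 hx).1
        · intro x hx
          exact hRel.freq x (mem_filter.1 hx).1
        · intro K hK
          exact hRel.rngF K (mem_sdiff.1 hK).1
      have hbig : (n : ℝ) * P / Real.log N ^ (C0 + 1) ≤ ((R0.filter (fun x => ¬ x.1 ∈ U)).card : ℝ) := by
        have h1 : (n : ℝ) * P / Real.log N ^ (C0 + 1) ≤ (n * P / Real.log N ^ C0) / 2 := by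
          rw [pow_succ, ← div_div]
          apply div_le_div_of_nonneg_left _ (by norm_num) hL
          positivity
        linarith
      obtain ⟨d0, b0, T0, F1, hd1, hdQ, hbd, hT0, hF1, hnF1, hF1α⟩ :=
        hN1 N hN1' n P η (F0 \ U) G0 α β (R0.filter (fun x => ¬ x.1 ∈ U)) hP hPN hn hnN hη hηP hRel' hbig
      have hdisj : Disjoint U F1 := by
        rw [disjoint_left]
        intro i hi hi1
        exact (mem_sdiff.1 (hF1 hi1)).2 hi
      refine ⟨U ∪ F1, fun i => if i ∈ U then s i else r, Function.update d r d0, Function.update b r b0,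
        Function.update T r T0, ?_, ?_, ?_, ?_, ?_⟩
      · exact union_subset hU (hF1.trans sdiff_subset)
      · rw [card_union_of_disjoint hdisj]
        push_cast
        linarith
      · intro i hi
        by_cases h : i ∈ U
        · simp only [h, if_true]
          exact (hs i h).trans (Nat.lt_succ_self r)
        · simp only [h, if_false]
          exact Nat.lt_succ_self r
      · intro j hj
        rcases Nat.lt_succ_iff_lt_or_eq.1 hj with h | h
        · rw [Function.update_of_ne h.ne, Function.update_of_ne h.ne, Function.update_of_ne h.ne]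
          exact hdat j h
        · rw [h, Function.update_self, Function.update_self, Function.update_self]
          exact ⟨hd1, hdQ, hbd, hT0⟩
      · intro i hi
        by_cases h : i ∈ U
        · simp only [h, if_true]
          have h1 := (hs i h).ne
          rw [Function.update_of_ne h1, Function.update_of_ne h1, Function.update_of_ne h1]
          exact hfrq i h
        · simp only [h, if_false]
          rw [Function.update_self, Function.update_self, Function.update_self]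
          exact hF1α i ((mem_union.1 hi).resolve_left h)
  obtain ⟨r, hr⟩ := exists_nat_gt (C * Real.exp (Real.log N ^ t2))
  obtain ⟨U, s, d, b, T, hA⟩ := hall r
  have := Cover_le hC hn hQ hRel.rngF hA
  linarith

end Pool.Agent.H53.MDB

end

section

/-!
# MDB Pairs: many quadruples (Cauchy-Schwarz over `g`)

Proof.  The `g` of the triples of `R1` are in `[n/C, C n]`, so there are at most `C n` of them (natural numbers `≥ 1` as `n/C > 0`).  Cauchy-Schwarz (`Finset.inner_mul_le_norm_mul_norm` or `sq_sum_le_card_mul_sum_sq` over the `g`):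
the number of pairs `(t, t') ∈ R1 × R1` with the same `g` is `≥ |R1|^2/(C n)`.  The map `(t, t') ↦ ((i,p),(i',p'))` has fibres with at most `2 C + 1` elements: given `i, p` there are at most `2C+1` numbers `g` with `|g p - i P| ≤ C P`
(`|g - i P/p| ≤ C P/p < C`, an interval of length `< 2 C`).
The image is contained in the set on the right: `i, i' ∈ U`, `p, p'` primes in `(P, 2P]`; `P |i p' - i' p| = |(i P - g p) p' + (g p' - i' P) p| ≤ C P 2P + C P 2P`, so `|i p' - i' p| ≤ 4 C P`;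
`nz (p α_i - p' α_i') ≤ nz (p α_i - β_g) + nz (β_g - p' α_i') ≤ 2 η P` (`nz_triangle`, `nz_neg`).
-/

set_option autoImplicit false

namespace Pool.Agent.H53.MDB

open Finset
open Pool.Agent.H53.MID (nz Rel)

/-- the number of the indices at a bounded distance -/
private theorem Pairs_cardK {C X : ℝ} {p P : ℕ} (hC : 1 ≤ C) (hP : 0 < P) (hp : P < p)
    (U : Finset ℕ) (hU : ∀ K ∈ U, |(K : ℝ) * p - X| ≤ C * P) :
    (U.card : ℝ) ≤ 2 * C + 1 := by
  rcases U.eq_empty_or_nonempty with h0 | hne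
  · rw [h0, Finset.card_empty, Nat.cast_zero]
    linarith
  · obtain ⟨a, ha⟩ : ∃ a, a = U.min' hne := ⟨_, rfl⟩
    have haU : a ∈ U := by
      rw [ha]
      exact Finset.min'_mem _ _
    have hsub : U ⊆ Finset.Icc a (a + ⌊2 * C⌋₊) := by
      intro K hK
      have h1 : a ≤ K := by
        rw [ha]
        exact Finset.min'_le _ _ hK
      rw [Finset.mem_Icc]
      refine ⟨h1, ?_⟩
      have h2 := hU K hK
      have h3 := hU a haU
      rw [abs_le] at h2 h3
      have hP0 : (0 : ℝ) < P := by exact_mod_cast hP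
      have hpP : (P : ℝ) < p := by exact_mod_cast hp
      have h4 : ((K : ℝ) - a) * p ≤ 2 * C * P := by linarith [h2.2, h3.1]
      have h5 : (K : ℝ) - a ≤ 2 * C := by
        by_contra hcon
        push Not at hcon
        have h6 : 2 * C * p < ((K : ℝ) - a) * p :=
          mul_lt_mul_of_pos_right hcon (hP0.trans hpP)
        have h7 : 2 * C * P < 2 * C * p := mul_lt_mul_of_pos_left hpP (by linarith)
        linarith
      have h8 : ((K - a : ℕ) : ℝ) ≤ 2 * C := by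
        rw [Nat.cast_sub h1]
        exact h5
      have h9 : K - a ≤ ⌊2 * C⌋₊ := Nat.le_floor h8
      omega
    have h10 : U.card ≤ ⌊2 * C⌋₊ + 1 := by
      refine (Finset.card_le_card hsub).trans ?_
      rw [Nat.card_Icc]
      omega
    have h11 : (U.card : ℝ) ≤ ((⌊2 * C⌋₊ + 1 : ℕ) : ℝ) := by exact_mod_cast h10
    refine h11.trans ?_
    push_cast
    have := Nat.floor_le (show (0 : ℝ) ≤ 2 * C by linarith)
    linarith

open Classical in
theorem pairs (C : ℝ) (hC : 1 ≤ C) (n P : ℕ) (η : ℝ) (U G0 : Finset ℕ) (α β : ℕ → ℝ) (R1 : Finset (ℕ × ℕ × ℕ))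
    (hR : Rel C n P (η * P) U G0 α β R1) (hn : 1 ≤ n) (hP : 1 ≤ P) :
    (R1.card : ℝ) ^ 2 ≤ C * n * (2 * C + 1) *
      ((QS C P U).filter (fun q => nz (q.1.2 * α q.1.1 - q.2.2 * α q.2.1) ≤ 2 * η * P)).card := by
  have hn0 : (0 : ℝ) < n := by exact_mod_cast hn
  have hP0 : (0 : ℝ) < P := by exact_mod_cast hP
  have hC0 : 0 < C := by linarith
  obtain ⟨G, hG⟩ : ∃ G : Finset ℕ, G = R1.image (fun t => t.2.2) := ⟨_, rfl⟩
  obtain ⟨r, hr⟩ : ∃ r : ℕ → Finset (ℕ × ℕ × ℕ), r = fun g => R1.filter (fun t => t.2.2 = g) := ⟨_, rfl⟩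
  have h1 : (R1.card : ℝ) = ∑ g ∈ G, ((r g).card : ℝ) := by
    rw [hG, hr, Finset.card_eq_sum_card_image (fun t : ℕ × ℕ × ℕ => t.2.2) R1]
    push_cast
    rfl
  have hGc : (G.card : ℝ) ≤ C * n := by
    have h2 : G ⊆ Finset.Icc 1 ⌊C * n⌋₊ := by
      intro g hg
      rw [hG, Finset.mem_image] at hg
      obtain ⟨t, ht, rfl⟩ := hg
      obtain ⟨a1, a2⟩ := hR.rngF' _ (hR.memF' t ht)
      rw [Finset.mem_Icc]
      constructor
      · have a3 : (0 : ℝ) < t.2.2 := lt_of_lt_of_le (by positivity) a1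
        exact_mod_cast a3
      · exact Nat.le_floor a2
    have h3 := Finset.card_le_card h2
    rw [Nat.card_Icc, Nat.add_sub_cancel] at h3
    have h4 : (G.card : ℝ) ≤ (⌊C * n⌋₊ : ℝ) := by exact_mod_cast h3
    exact h4.trans (Nat.floor_le (by positivity))
  have h5 : (R1.card : ℝ) ^ 2 ≤ G.card * ∑ g ∈ G, ((r g).card : ℝ) ^ 2 := by
    rw [h1]
    exact sq_sum_le_card_mul_sum_sq
  obtain ⟨Y, hY⟩ : ∃ Y : Finset ((ℕ × ℕ × ℕ) × (ℕ × ℕ × ℕ)), Y = (R1 ×ˢ R1).filter (fun y => y.1.2.2 = y.2.2.2) :=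
    ⟨_, rfl⟩
  have h6 : ∑ g ∈ G, ((r g).card : ℝ) ^ 2 = (Y.card : ℝ) := by
    have h7 : Y.card = ∑ g ∈ G, (Y.filter (fun y => y.1.2.2 = g)).card := by
      refine Finset.card_eq_sum_card_fiberwise fun y hy => ?_
      rw [Finset.mem_coe, hY, Finset.mem_filter, Finset.mem_product] at hy
      rw [Finset.mem_coe, hG, Finset.mem_image]
      exact ⟨y.1, hy.1.1, rfl⟩
    rw [h7]
    push_cast
    refine Finset.sum_congr rfl fun g _ => ?_
    have h8 : Y.filter (fun y => y.1.2.2 = g) = (r g) ×ˢ (r g) := by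
      ext y
      rw [hY, hr, Finset.mem_filter, Finset.mem_filter, Finset.mem_product, Finset.mem_product, Finset.mem_filter,
        Finset.mem_filter]
      constructor
      · rintro ⟨⟨⟨b1, b2⟩, b3⟩, b4⟩
        exact ⟨⟨b1, b4⟩, b2, b3.symm.trans b4⟩
      · rintro ⟨⟨b1, b2⟩, b3, b4⟩
        exact ⟨⟨⟨b1, b3⟩, b2.trans b4.symm⟩, b2⟩
    rw [h8, Finset.card_product]
    push_cast
    ring
  obtain ⟨f, hf⟩ : ∃ f : (ℕ × ℕ × ℕ) × (ℕ × ℕ × ℕ) → (ℕ × ℕ) × (ℕ × ℕ),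
      f = fun y => ((y.1.1, y.1.2.1), (y.2.1, y.2.2.1)) := ⟨_, rfl⟩
  have h9 : (Y.card : ℝ) ≤ (2 * C + 1) * ((Y.image f).card : ℝ) := by
    rw [Finset.card_eq_sum_card_image f Y]
    push_cast
    have h10 : ∀ q ∈ Y.image f, ((Y.filter (fun y => f y = q)).card : ℝ) ≤ 2 * C + 1 := by
      intro q hq
      rw [Finset.mem_image] at hq
      obtain ⟨y0, hy0, hq0⟩ := hq
      rw [hY, Finset.mem_filter, Finset.mem_product] at hy0
      have hp := hR.prime _ hy0.1.1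
      have c1 : ((Y.filter (fun y => f y = q)).card : ℝ) =
          (((Y.filter (fun y => f y = q)).image (fun y => y.1.2.2)).card : ℝ) := by
        rw [Finset.card_image_of_injOn]
        intro y hy y' hy' hyy
        rw [Finset.mem_coe, Finset.mem_filter, hY, Finset.mem_filter] at hy hy'
        have d1 := hy.2
        have d2 := hy'.2
        have d3 : f y = f y' := d1.trans d2.symm
        rw [hf] at d3
        simp only [Prod.mk.injEq] at d3
        obtain ⟨⟨e1, e2⟩, e3, e4⟩ := d3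
        have e5 := hy.1.2
        have e6 := hy'.1.2
        obtain ⟨⟨i, p, g⟩, i', p', g'⟩ := y
        obtain ⟨⟨j, q, h⟩, j', q', h'⟩ := y'
        simp only at e1 e2 e3 e4 e5 e6 hyy
        subst e1 e2 e3 e4 e5 e6 hyy
        rfl
      rw [c1]
      refine Pairs_cardK (X := (y0.1.1 : ℝ) * P) (p := y0.1.2.1) hC hP hp.2.1 _ fun g hg => ?_
      rw [Finset.mem_image] at hg
      obtain ⟨y, hy, rfl⟩ := hg
      rw [Finset.mem_filter, hY, Finset.mem_filter, Finset.mem_product] at hy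
      have d3 : f y = f y0 := hy.2.trans hq0.symm
      rw [hf] at d3
      simp only [Prod.mk.injEq] at d3
      have d4 := hR.pos _ hy.1.1.1
      rw [d3.1.1, d3.1.2] at d4
      exact d4
    refine (Finset.sum_le_sum h10).trans ?_
    rw [Finset.sum_const, nsmul_eq_mul, mul_comm]
  have h11 : Y.image f ⊆ (QS C P U).filter (fun q => nz (q.1.2 * α q.1.1 - q.2.2 * α q.2.1) ≤ 2 * η * P) := by
    intro q hq
    rw [Finset.mem_image] at hq
    obtain ⟨y, hy, rfl⟩ := hq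
    rw [hY, Finset.mem_filter, Finset.mem_product] at hy
    obtain ⟨⟨i, p, g⟩, i', p', g'⟩ := y
    obtain ⟨⟨b1, b2⟩, b3⟩ := hy
    simp only at b1 b2 b3
    subst b3
    rw [Finset.mem_filter, mem_QS, hf]
    have p1 := hR.prime _ b1
    have p2 := hR.prime _ b2
    have q1 := hR.pos _ b1
    have q2 := hR.pos _ b2
    have r1 := hR.freq _ b1
    have r2 := hR.freq _ b2
    have s1 := hR.memF _ b1
    have s2 := hR.memF _ b2
    simp only at p1 p2 q1 q2 r1 r2 s1 s2 ⊢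
    refine ⟨⟨s1, p1.2.1, p1.2.2, p1.1, s2, p2.2.1, p2.2.2, p2.1, ?_⟩, ?_⟩
    · have hp1 : (p : ℝ) ≤ 2 * P := by exact_mod_cast p1.2.2
      have hp2 : (p' : ℝ) ≤ 2 * P := by exact_mod_cast p2.2.2
      have e : (P : ℝ) * ((i : ℝ) * p' - i' * p) = -((g * p - i * P) * p') + (g * p' - i' * P) * p := by ring
      have u1 : |(P : ℝ) * ((i : ℝ) * p' - i' * p)| ≤ C * P * (2 * P) + C * P * (2 * P) := by
        rw [e]
        refine (abs_add_le _ _).trans (add_le_add ?_ ?_)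
        · rw [abs_neg, abs_mul, abs_of_nonneg (show (0 : ℝ) ≤ (p' : ℝ) from Nat.cast_nonneg p')]
          exact mul_le_mul q1 hp2 (Nat.cast_nonneg p') (by positivity)
        · rw [abs_mul, abs_of_nonneg (show (0 : ℝ) ≤ (p : ℝ) from Nat.cast_nonneg p)]
          exact mul_le_mul q2 hp1 (Nat.cast_nonneg p) (by positivity)
      rw [abs_mul, abs_of_pos hP0] at u1
      have u2 : (P : ℝ) * |(i : ℝ) * p' - i' * p| ≤ P * (4 * C * P) := by
        refine u1.trans (le_of_eq ?_)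
        ring
      exact le_of_mul_le_mul_left u2 hP0
    · refine (Pool.Agent.H53.MID.nz_triangle _ (β g) _).trans ?_
      have e : β g - (p' : ℝ) * α i' = -((p' : ℝ) * α i' - β g) := by ring
      rw [e, Pool.Agent.H53.MID.nz_neg]
      linarith
  have h12 : ((Y.image f).card : ℝ) ≤
      (((QS C P U).filter (fun q => nz (q.1.2 * α q.1.1 - q.2.2 * α q.2.1) ≤ 2 * η * P)).card : ℝ) := by
    exact_mod_cast Finset.card_le_card h11
  rw [h6] at h5
  calc (R1.card : ℝ) ^ 2 ≤ G.card * (Y.card : ℝ) := h5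
    _ ≤ (C * n) * ((2 * C + 1) * ((Y.image f).card : ℝ)) :=
        mul_le_mul hGc h9 (Nat.cast_nonneg _) (by positivity)
    _ ≤ (C * n) * ((2 * C + 1) * (((QS C P U).filter (fun q =>
        nz (q.1.2 * α q.1.1 - q.2.2 * α q.2.1) ≤ 2 * η * P)).card : ℝ)) := by
        refine mul_le_mul_of_nonneg_left (mul_le_mul_of_nonneg_left h12 (by linarith)) (by positivity)
    _ = _ := by ring

end Pool.Agent.H53.MDB

end

section

/-!
Sums and products over primes.
-/

namespace Pool.Agent.H10.GoldLoc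

open Finset Real
open Pool.Agent.H91.Gold (Mt Mt_le Mt_ge abel_le)
open scoped ArithmeticFunction.vonMangoldt

/-- Passing from a Mertens type bound for `∑ log p / p` to one for `∑ 1 / p`. -/
theorem mertens_gen' {w z : ℕ} (hw : 2 ≤ w) (hwz : w ≤ z) {c : ℝ} (hc : 0 ≤ c)
    (h : ∀ m, w ≤ m → m ≤ z → Mt m - Mt w ≤ Real.log m - Real.log w + c) :
    ∑ p ∈ PP w z, (1 : ℝ) / p ≤ Real.log (Real.log z / Real.log w) + c / Real.log w := by
  have hlw : 0 < Real.log w := Real.log_pos (by exact_mod_cast (by omega : 1 < w))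
  have hlog : ∀ k : ℕ, w ≤ k → 0 < Real.log k := by
    intro k hk
    apply Real.log_pos
    exact_mod_cast (by omega : 1 < k)
  have h1 : ∑ p ∈ PP w z, (1 : ℝ) / p
      = ∑ k ∈ Ioc w z, (if k.Prime then Real.log k / k else 0) * (1 / Real.log k) := by
    unfold PP
    rw [sum_filter]
    apply sum_congr rfl
    intro k hk
    rw [mem_Ioc] at hk
    split_ifs with hp
    · have := (hlog k hk.1.le).ne'
      field_simp
    · simp
  have h2 : ∑ k ∈ Ioc w z, (if k.Prime then Real.log k / k else 0) * (1 / Real.log k)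
      ≤ ∑ k ∈ Ioc w z, (Real.log k - Real.log (k - 1 : ℕ)) * (1 / Real.log k)
        + c * (1 / Real.log ((w + 1 : ℕ) : ℝ)) := by
    apply abel_le hwz hc
    · intro k hk1 _
      have := hlog k hk1.le
      positivity
    · have := hlog (w + 1) (by omega)
      positivity
    · intro k hk1 _
      have := hlog k hk1.le
      apply one_div_le_one_div_of_le this
      apply Real.log_le_log
      · exact_mod_cast (by omega : 0 < k)
      · push_cast; linarith
    · intro m hm1 hm2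
      have e1 : ∑ k ∈ Ioc w m, (Real.log k - Real.log (k - 1 : ℕ)) = Real.log m - Real.log w := by
        clear hm2
        induction m, hm1 using Nat.le_induction with
        | base => simp
        | succ m hm ih =>
          rw [sum_Ioc_succ_top (by omega), ih]
          simp
      have e2 : ∑ k ∈ Ioc w m, (if k.Prime then Real.log k / k else 0) ≤ Mt m - Mt w := by
        have e3 : Mt m - Mt w = ∑ k ∈ Ioc w m, Λ k / k := by
          unfold Mt
          rw [← sum_Ioc_consecutive _ (Nat.zero_le w) hm1]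
          ring
        rw [e3]
        apply sum_le_sum
        intro k _
        split_ifs with hp
        · rw [ArithmeticFunction.vonMangoldt_apply_prime hp]
        · have := ArithmeticFunction.vonMangoldt_nonneg (n := k)
          positivity
      rw [e1]
      exact e2.trans (h m hm1 hm2)
  have h3 : ∀ m, w ≤ m → ∑ k ∈ Ioc w m, (Real.log k - Real.log (k - 1 : ℕ)) * (1 / Real.log k)
      ≤ Real.log (Real.log m) - Real.log (Real.log w) := by
    intro m hm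
    induction m, hm using Nat.le_induction with
    | base => simp
    | succ m hm ih =>
      rw [sum_Ioc_succ_top (by omega)]
      have a1 := hlog m hm
      have a2 := hlog (m + 1) (by omega)
      have a3 : (Real.log ((m + 1 : ℕ) : ℝ) - Real.log (m + 1 - 1 : ℕ)) * (1 / Real.log ((m + 1 : ℕ) : ℝ))
          ≤ Real.log (Real.log ((m + 1 : ℕ) : ℝ)) - Real.log (Real.log m) := by
        have b1 := Real.log_le_sub_one_of_pos (x := Real.log m / Real.log ((m + 1 : ℕ) : ℝ)) (by positivity)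
        rw [Real.log_div a1.ne' a2.ne'] at b1
        rw [Nat.add_sub_cancel]
        have b2 : (Real.log ((m + 1 : ℕ) : ℝ) - Real.log m) * (1 / Real.log ((m + 1 : ℕ) : ℝ))
            = 1 - Real.log m / Real.log ((m + 1 : ℕ) : ℝ) := by
          field_simp
        rw [b2]
        linarith
      linarith
  have h4 := h3 z hwz
  have h5 : c * (1 / Real.log ((w + 1 : ℕ) : ℝ)) ≤ c / Real.log w := by
    rw [mul_one_div]
    apply div_le_div_of_nonneg_left hc hlw
    apply Real.log_le_log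
    · exact_mod_cast (by omega : 0 < w)
    · push_cast; linarith
  rw [h1, Real.log_div (hlog z hwz).ne' hlw.ne']
  linarith

lemma PP_union {a b c : ℕ} (hab : a ≤ b) (hbc : b ≤ c) : PP a c = PP a b ∪ PP b c := by
  ext q
  rw [mem_union, mem_PP, mem_PP, mem_PP]
  constructor
  · rintro ⟨h1, h2, h3⟩
    by_cases h : q ≤ b
    · exact Or.inl ⟨h1, h, h3⟩
    · exact Or.inr ⟨by omega, h2, h3⟩
  · rintro (⟨h1, h2, h3⟩ | ⟨h1, h2, h3⟩)
    · exact ⟨h1, by omega, h3⟩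
    · exact ⟨by omega, h2, h3⟩

lemma PP_disjoint {a b c : ℕ} : Disjoint (PP a b) (PP b c) := by
  rw [disjoint_left]
  intro q hq hq'
  rw [mem_PP] at hq hq'
  omega

/-- `∑_{p ≤ z} 1/p ≤ log log z + C`. -/
theorem exists_mertens : ∃ C : ℝ, 0 ≤ C ∧ ∀ z : ℕ, 1024 ≤ z →
    ∑ p ∈ PP 0 z, (1 : ℝ) / p ≤ Real.log (Real.log z) + C := by
  have hl1 : 1 < Real.log (1024 : ℕ) := by
    rw [show ((1024 : ℕ) : ℝ) = (2 : ℝ) ^ (10 : ℕ) by norm_num, Real.log_pow]
    have := Real.log_two_gt_d9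
    push_cast
    linarith
  refine ⟨∑ p ∈ PP 0 1024, (1 : ℝ) / p + 1.0818, by positivity, ?_⟩
  intro z hz
  rw [PP_union (Nat.zero_le 1024) hz, sum_union PP_disjoint]
  have h := mertens_gen' (w := 1024) (z := z) (by norm_num) hz (c := 1.0818) (by norm_num) (by
    intro m hm1 _
    have a1 := Mt_le m (by omega)
    have a2 := Mt_ge 1024 (by omega)
    simp only [Nat.cast_ofNat] at a1 a2 ⊢
    linarith)
  have hlz : 0 < Real.log z := Real.log_pos (by exact_mod_cast (by omega : 1 < z))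
  have h2 : Real.log (Real.log z / Real.log (1024 : ℕ)) ≤ Real.log (Real.log z) := by
    apply Real.log_le_log (by positivity)
    rw [div_le_iff₀ (by linarith)]
    nlinarith
  have h3 : (1.0818 : ℝ) / Real.log (1024 : ℕ) ≤ 1.0818 := by
    apply div_le_self (by norm_num) hl1.le
  linarith

end Pool.Agent.H10.GoldLoc

end

section

/-!
# LM Rk: smooth numbers (Rankin's trick)

Proof.  `σ = 1/log Q ≤ 1/4` (`Q ≥ 100`).  `l > D`: `1/l ≤ D^{-σ} l^{-(1-σ)}`.  The sum of `l^{-(1-σ)}` over all `l ≤ K` with all prime factors `≤ Q` is at most `∏_{p ≤ Q} (1 - p^{-(1-σ)})^{-1}` (finite form: induction over the primes, or Mathlib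
`EulerProduct`/`Nat.smoothNumbers`: `summable_and_hasSum_smoothNumbers_prod_primesBelow_tsum` ...; see also `Pool/Agent/H87D/SmoothShort.lean`, where the same is done).  `(1 - v)^{-1} ≤ exp(C v)` for `0 ≤ v ≤ 2^{-3/4}`, `p^{σ} ≤ e` for `p ≤ Q`, `∑_{p ≤ Q} 1/p ≤ log log Q + C`
(a weaker bound `≤ C log log Q + C`, any power of `log Q`, is enough: e.g. `∑_{p ≤ Q} 1/p ≤ C + C log log Q`; Mertens is in the repository: `RgI_mertens`, `H35`, `Pool.Agent.H91..`).
-/

set_option autoImplicit false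

namespace Pool.Agent.H43.LM

open Finset

open Pool.Agent.H10.GoldLoc (PP mem_PP exists_mertens)

/-- `log 100 ≥ 4`. -/
private theorem Rk_log {Q : ℕ} (hQ : 100 ≤ Q) : 4 ≤ Real.log Q := by
  have h1 : (100 : ℝ) ≤ Q := by exact_mod_cast hQ
  have h2 : Real.exp 4 ≤ 100 := by
    have h3 : Real.exp 4 = Real.exp 1 ^ 4 := by
      rw [← Real.exp_nat_mul]
      norm_num
    rw [h3]
    have h4 := Real.exp_one_lt_d9
    have h5 : Real.exp 1 ^ 4 ≤ (2.7182818286 : ℝ) ^ 4 :=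
      pow_le_pow_left₀ (Real.exp_pos 1).le h4.le 4
    refine h5.trans ?_
    norm_num
  rw [Real.le_log_iff_exp_le (by linarith)]
  linarith

/-- Mertens with a constant for all `Q ≥ 100`. -/
private theorem Rk_mertens : ∃ C : ℝ, 0 ≤ C ∧ ∀ Q : ℕ, 100 ≤ Q →
    ∑ p ∈ PP 0 Q, (1 : ℝ) / p ≤ Real.log (Real.log Q) + C := by
  obtain ⟨C, hC, hM⟩ := exists_mertens
  obtain ⟨M, hMd⟩ : ∃ M : ℝ, M = Real.log (Real.log ((1024 : ℕ) : ℝ)) := ⟨_, rfl⟩
  have h1 : 0 ≤ M := by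
    rw [hMd]
    exact Real.log_nonneg (by have := Rk_log (Q := 1024) (by norm_num); linarith)
  refine ⟨C + M, by linarith, fun Q hQ => ?_⟩
  have h2 : 0 ≤ Real.log (Real.log Q) :=
    Real.log_nonneg (by have := Rk_log hQ; linarith)
  rcases le_total 1024 Q with h | h
  · have := hM Q h
    linarith
  · have h3 : ∑ p ∈ PP 0 Q, (1 : ℝ) / p ≤ ∑ p ∈ PP 0 1024, (1 : ℝ) / p := by
      refine Finset.sum_le_sum_of_subset_of_nonneg (fun p hp => ?_) (fun p _ _ => by positivity)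
      rw [mem_PP] at hp ⊢
      exact ⟨hp.1, hp.2.1.trans h, hp.2.2⟩
    have h4 := hM 1024 le_rfl
    rw [← hMd] at h4
    linarith

open Classical in
theorem rankin : ∃ (C : ℝ) (k : ℕ), 0 < C ∧ ∀ Q D K : ℕ, 100 ≤ Q → 1 ≤ D →
    ∑ l ∈ (Ioc D K).filter (fun l : ℕ => ∀ p : ℕ, p.Prime → p ∣ l → p ≤ Q), (1 : ℝ) / l
      ≤ C * Real.log Q ^ k * Real.exp (-(Real.log D / Real.log Q)) := by
  obtain ⟨C, hC, hM⟩ := Rk_mertens
  refine ⟨Real.exp (11 * C), 11, Real.exp_pos _, fun Q D K hQ hD => ?_⟩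
  have hL := Rk_log hQ
  have hL0 : 0 < Real.log Q := by linarith
  have hQ0 : (0 : ℝ) < Q := by exact_mod_cast (by omega : 0 < Q)
  have hD0 : (0 : ℝ) < D := by exact_mod_cast (by omega : 0 < D)
  set al : ℝ := 1 / Real.log Q with hal
  have hal0 : 0 < al := by positivity
  have hal1 : al ≤ 1 / 2 := by
    rw [hal]
    apply one_div_le_one_div_of_le <;> linarith
  have hQal : (Q : ℝ) ^ al = Real.exp 1 := by
    rw [Real.rpow_def_of_pos hQ0, hal, mul_one_div, div_self hL0.ne']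
  have h1 := Pool.Agent.H87D.SmoothShort_euler Q al hal0.le hal1
    ((Ioc D K).filter (fun l : ℕ => ∀ p : ℕ, p.Prime → p ∣ l → p ≤ Q)) (fun d hd => by
      obtain ⟨h2, h3⟩ := Finset.mem_filter.1 hd
      rw [Finset.mem_Ioc] at h2
      exact ⟨by omega, h3⟩)
  have h2 : ∀ l ∈ (Ioc D K).filter (fun l : ℕ => ∀ p : ℕ, p.Prime → p ∣ l → p ≤ Q),
      (1 : ℝ) / l ≤ Real.exp (-(Real.log D / Real.log Q)) * (l : ℝ) ^ (al - 1) := by
    intro l hl
    obtain ⟨h3, -⟩ := Finset.mem_filter.1 hl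
    rw [Finset.mem_Ioc] at h3
    have hl0 : (0 : ℝ) < l := by exact_mod_cast (by omega : 0 < l)
    have hDl : (D : ℝ) ≤ l := by exact_mod_cast h3.1.le
    have h4 : Real.log D ≤ Real.log l := Real.log_le_log hD0 hDl
    rw [Real.rpow_sub_one hl0.ne', ← mul_div_assoc]
    refine div_le_div_of_nonneg_right ?_ hl0.le
    rw [Real.rpow_def_of_pos hl0, ← Real.exp_add, ← Real.exp_zero]
    apply Real.exp_le_exp.2
    have h5 : Real.log D / Real.log Q = Real.log D * al := by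
      rw [hal, mul_one_div]
    rw [h5]
    have := mul_le_mul_of_nonneg_right h4 hal0.le
    linarith
  refine (Finset.sum_le_sum h2).trans ?_
  rw [← Finset.mul_sum]
  have h3 : ∑ l ∈ (Ioc D K).filter (fun l : ℕ => ∀ p : ℕ, p.Prime → p ∣ l → p ≤ Q),
      (l : ℝ) ^ (al - 1) ≤ Real.exp (11 * C) * Real.log Q ^ 11 := by
    refine h1.trans ?_
    rw [hQal]
    have h4 := hM Q hQ
    have h5 : 4 * Real.exp 1 ≤ 11 := by
      have := Real.exp_one_lt_d9
      linarith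
    have h6 : 0 ≤ Real.log (Real.log Q) := Real.log_nonneg (by linarith)
    have h7 : 4 * (Real.exp 1 * ∑ p ∈ PP 0 Q, (1 : ℝ) / p) ≤
        11 * (Real.log (Real.log Q) + C) := by
      have h8 : 4 * Real.exp 1 * ∑ p ∈ PP 0 Q, (1 : ℝ) / p ≤
          4 * Real.exp 1 * (Real.log (Real.log Q) + C) :=
        mul_le_mul_of_nonneg_left h4 (by positivity)
      have h9 : 4 * Real.exp 1 * (Real.log (Real.log Q) + C) ≤
          11 * (Real.log (Real.log Q) + C) := mul_le_mul_of_nonneg_right h5 (by linarith)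
      linarith
    refine (Real.exp_le_exp.2 h7).trans (le_of_eq ?_)
    rw [show 11 * (Real.log (Real.log Q) + C) = 11 * C + ((11 : ℕ) : ℝ) * Real.log (Real.log Q) by
      push_cast; ring, Real.exp_add, Real.exp_nat_mul, Real.exp_log hL0]
  calc Real.exp (-(Real.log D / Real.log Q)) *
      ∑ l ∈ (Ioc D K).filter (fun l : ℕ => ∀ p : ℕ, p.Prime → p ∣ l → p ≤ Q),
        (l : ℝ) ^ (al - 1) ≤
      Real.exp (-(Real.log D / Real.log Q)) * (Real.exp (11 * C) * Real.log Q ^ 11) :=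
        mul_le_mul_of_nonneg_left h3 (Real.exp_pos _).le
    _ = Real.exp (11 * C) * Real.log Q ^ 11 * Real.exp (-(Real.log D / Real.log Q)) := by ring

end Pool.Agent.H43.LM

end
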