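import Pool.Agent.H43.PL.M13
import Pool.Agent.H43.PL.M14

/-! The parts of this file: H91.EHA.SwK1, H43.LM.SwA, H43.LM.SwB, H43.LM.SwG. -/

section

/-!
# Primes in progressions to small moduli

Orthogonality of characters mod `c` (Mathlib `DirichletCharacter.sum_char_inv_mul_char_eq`; compare
`PK/DiA.lean`): `psiA y c a = (1/φ(c)) ∑_χ χ⁻¹(a) ∑_{n≤y} Λ(n)χ(n)`.  Principal character: `pnt` minus
`∑_{n ≤ y, (n,c)>1} Λ(n) ≤ (log x)²`-type (`DiA_psi_noncoprime`).  Other characters: replace by the primitive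
character (error again `∑_{(n,c)>1} Λ(n)`), `siegel_walfisz` for `y ≥ √x` (then `log y ≥ (log x)/2`), trivial bound
`y log y` for `y < √x`.
-/

set_option autoImplicit false

namespace Pool.Agent.H91.EHA

open Finset
open Pool.Agent.H91.PK

theorem swk1_Lam_nonneg (n : ℕ) : 0 ≤ Lam n := ArithmeticFunction.vonMangoldt_nonneg

/-- The twisted sum over prime powers. -/
noncomputable def swk1S (y : ℕ) {c : ℕ} (χ : DirichletCharacter ℂ c) : ℂ :=
  ∑ n ∈ Icc 1 y, ((Lam n : ℝ) : ℂ) * χ (n : ZMod c)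

/-- The mass of the `n` not coprime to `c`. -/
noncomputable def swk1E (y c : ℕ) : ℝ :=
  ∑ n ∈ (Icc 1 y).filter (fun n => ¬ Nat.Coprime n c), Lam n

theorem swk1E_nonneg (y c : ℕ) : 0 ≤ swk1E y c := sum_nonneg fun _ _ => swk1_Lam_nonneg _

theorem swk1E_le {y c : ℕ} (hy : 1 ≤ y) (hc : 1 ≤ c) : swk1E y c ≤ 2 * Real.log c * Real.log y := by
  have h1 : swk1E y c ≤ (c.primeFactors.card : ℝ) * Real.log y := DiA_psi_noncoprime hy hc
  have h2 := DiA_omega_le hc
  have h4 : (0.6931471803 : ℝ) < Real.log 2 := Real.log_two_gt_d9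
  have h5 : (0 : ℝ) ≤ c.primeFactors.card := Nat.cast_nonneg _
  have h6 : (c.primeFactors.card : ℝ) * 0.6931471803 ≤ Real.log c := by nlinarith only [h2, h4]
  have h7 : (c.primeFactors.card : ℝ) ≤ 2 * Real.log c := by nlinarith only [h6]
  have hL : 0 ≤ Real.log y := Real.log_natCast_nonneg y
  exact h1.trans (mul_le_mul_of_nonneg_right h7 hL)

/-- orthogonality -/
theorem swk1_orth {y c a : ℕ} (hc : 1 ≤ c) (ha : Nat.Coprime a c) :
    (c.totient : ℂ) * ((psiA y c a : ℝ) : ℂ)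
      = ∑ χ : DirichletCharacter ℂ c, χ ((a : ZMod c)⁻¹) * swk1S y χ := by
  have : NeZero c := ⟨by omega⟩
  have hu : IsUnit (a : ZMod c) := (ZMod.isUnit_iff_coprime a c).mpr ha
  unfold swk1S psiA
  simp only [mul_sum]
  rw [sum_comm]
  rw [Complex.ofReal_sum, mul_sum, sum_filter]
  refine sum_congr rfl fun n hn => ?_
  rw [mem_Icc] at hn
  have h1 : ∀ χ : DirichletCharacter ℂ c,
      χ ((a : ZMod c)⁻¹) * (((Lam n : ℝ) : ℂ) * χ (n : ZMod c))
      = (χ ((a : ZMod c)⁻¹) * χ (n : ZMod c)) * ((Lam n : ℝ) : ℂ) := by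
    intro χ; ring
  simp only [h1]
  rw [← sum_mul, DirichletCharacter.sum_char_inv_mul_char_eq ℂ hu]
  have hiff : ((a : ZMod c) = (n : ZMod c)) ↔ n ≡ a [MOD c] := by
    rw [eq_comm]
    exact ZMod.natCast_eq_natCast_iff n a c
  by_cases h : n ≡ a [MOD c]
  · rw [if_pos h, if_pos (hiff.mpr h)]
  · rw [if_neg h, if_neg (fun h' => h (hiff.mp h'))]
    simp

theorem swk1_S_sub {y c : ℕ} (χ : DirichletCharacter ℂ c) :
    ‖swk1S y χ‖ ≤ ‖swk1S y χ.primitiveCharacter‖ + swk1E y c := by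
  have h1 : swk1S y χ.primitiveCharacter - swk1S y χ
      = ∑ n ∈ (Icc 1 y).filter (fun n => ¬ Nat.Coprime n c),
        ((Lam n : ℝ) : ℂ) * χ.primitiveCharacter (n : ZMod χ.conductor) := by
    unfold swk1S
    rw [← sum_sub_distrib, sum_filter]
    refine sum_congr rfl fun n _ => ?_
    by_cases h : Nat.Coprime n c
    · rw [if_neg (not_not.mpr h)]
      simp only [DiA_prim_eq χ h, sub_self]
    · rw [if_pos h]
      simp only [DiA_char_zero χ h, mul_zero, sub_zero]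
  have h2 : ‖swk1S y χ.primitiveCharacter - swk1S y χ‖ ≤ swk1E y c := by
    rw [h1]
    refine (norm_sum_le _ _).trans ?_
    refine sum_le_sum fun n _ => ?_
    rw [norm_mul, Complex.norm_real, Real.norm_of_nonneg (swk1_Lam_nonneg n)]
    calc Lam n * ‖χ.primitiveCharacter (n : ZMod χ.conductor)‖ ≤ Lam n * 1 :=
          mul_le_mul_of_nonneg_left (DiA_norm_char_le _ _) (swk1_Lam_nonneg n)
      _ = Lam n := mul_one _
  calc ‖swk1S y χ‖ = ‖swk1S y χ.primitiveCharacter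
        - (swk1S y χ.primitiveCharacter - swk1S y χ)‖ := by congr 1; ring
    _ ≤ _ := (norm_sub_le _ _).trans (by linarith only [h2])

theorem swk1_S_one {y c : ℕ} :
    swk1S y (1 : DirichletCharacter ℂ c)
      = (((∑ n ∈ Icc 1 y, Lam n) - swk1E y c : ℝ) : ℂ) := by
  unfold swk1S swk1E
  rw [sum_filter, ← sum_sub_distrib, Complex.ofReal_sum]
  refine sum_congr rfl fun n _ => ?_
  by_cases h : Nat.Coprime n c
  · rw [if_neg (not_not.mpr h)]
    have : (1 : DirichletCharacter ℂ c) (n : ZMod c) = 1 :=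
      MulChar.one_apply ((ZMod.isUnit_iff_coprime n c).mpr h)
    simp only [this]
    push_cast
    ring
  · rw [if_pos h]
    simp only [DiA_char_zero _ h]
    simp

/-- The main inequality. -/
theorem swk1_main {y c a : ℕ} (hc : 1 ≤ c) (ha : Nat.Coprime a c) {D : ℝ} (hD : 0 ≤ D)
    (h : ∀ χ : DirichletCharacter ℂ c, χ ≠ 1 → ‖swk1S y χ.primitiveCharacter‖ ≤ D) :
    |psiA y c a - (∑ n ∈ Icc 1 y, Lam n) / c.totient| ≤ swk1E y c + D := by
  classical
  have : NeZero c := ⟨by omega⟩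
  have hφ : 0 < c.totient := Nat.totient_pos.mpr hc
  have hφR : (0 : ℝ) < c.totient := by exact_mod_cast hφ
  have hφC : (c.totient : ℂ) ≠ 0 := by exact_mod_cast hφ.ne'
  set E := swk1E y c with hE
  set P := ∑ n ∈ Icc 1 y, Lam n with hP
  have hE0 : 0 ≤ E := swk1E_nonneg _ _
  have hNch : Nch c = univ.erase (1 : DirichletCharacter ℂ c) := by
    ext χ; rw [mem_Nch]; simp
  have horth := swk1_orth (y := y) hc ha
  have hone : (1 : DirichletCharacter ℂ c) ((a : ZMod c)⁻¹) = 1 := by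
    refine MulChar.one_apply ?_
    have hu : IsUnit (a : ZMod c) := (ZMod.isUnit_iff_coprime a c).mpr ha
    obtain ⟨u, hu⟩ := hu
    rw [← hu, ZMod.inv_coe_unit]
    exact Units.isUnit _
  rw [← Finset.add_sum_erase univ _ (mem_univ (1 : DirichletCharacter ℂ c)), ← hNch, hone,
    one_mul, swk1_S_one, ← hP, ← hE] at horth
  have h1 : ((c.totient * psiA y c a - P : ℝ) : ℂ)
      = - ((E : ℝ) : ℂ) + ∑ χ ∈ Nch c, χ ((a : ZMod c)⁻¹) * swk1S y χ := by
    push_cast
    rw [horth]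
    push_cast
    ring
  have hcard : (Nch c).card + 1 = c.totient := by
    rw [hNch, card_erase_of_mem (mem_univ _), card_univ, ← Nat.card_eq_fintype_card,
      DirichletCharacter.card_eq_totient_of_hasEnoughRootsOfUnity ℂ c]
    omega
  have hcardR : ((Nch c).card : ℝ) + 1 = c.totient := by exact_mod_cast hcard
  have h2 : |(c.totient : ℝ) * psiA y c a - P| ≤ (c.totient : ℝ) * (E + D) := by
    have h3 : |(c.totient : ℝ) * psiA y c a - P|
        = ‖((c.totient * psiA y c a - P : ℝ) : ℂ)‖ := by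
      rw [Complex.norm_real, Real.norm_eq_abs]
    rw [h3, h1]
    refine (norm_add_le _ _).trans ?_
    rw [norm_neg, Complex.norm_real, Real.norm_of_nonneg hE0]
    have h4 : ‖∑ χ ∈ Nch c, χ ((a : ZMod c)⁻¹) * swk1S y χ‖
        ≤ ∑ χ ∈ Nch c, (D + E) := by
      refine (norm_sum_le _ _).trans (sum_le_sum fun χ hχ => ?_)
      rw [norm_mul]
      calc ‖χ ((a : ZMod c)⁻¹)‖ * ‖swk1S y χ‖
          ≤ 1 * ‖swk1S y χ‖ :=
            mul_le_mul_of_nonneg_right (DiA_norm_char_le _ _) (norm_nonneg _)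
        _ ≤ _ := by
            rw [one_mul]
            exact (swk1_S_sub χ).trans (add_le_add (h χ (mem_Nch.mp hχ)) le_rfl)
    rw [sum_const, nsmul_eq_mul] at h4
    rw [← hcardR]
    nlinarith only [hD, h4]
  have h6 : psiA y c a - P / c.totient
      = (1 / (c.totient : ℝ)) * ((c.totient : ℝ) * psiA y c a - P) := by
    field_simp
  rw [h6, abs_mul, abs_of_pos (by positivity : (0 : ℝ) < 1 / (c.totient : ℝ))]
  calc (1 / (c.totient : ℝ)) * |(c.totient : ℝ) * psiA y c a - P|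
      ≤ (1 / (c.totient : ℝ)) * ((c.totient : ℝ) * (E + D)) :=
        mul_le_mul_of_nonneg_left h2 (by positivity)
    _ = E + D := by field_simp

/-- The growth conditions on `x`. -/
theorem swk1_ev (B k : ℕ) (M : ℝ) : ∃ x0 : ℕ, ∀ x : ℕ, x0 ≤ x →
    2 ≤ x ∧ 1 ≤ Real.log x ∧ 2 * 2 ^ B ≤ Real.log x ∧ M ≤ Real.log x ∧
      2 * Real.log x ^ (k + 1) ≤ Real.sqrt x ∧ 4 * (B + 1) * Real.log x ^ (k + 2) ≤ x := by
  have hlog : Filter.Tendsto (fun x : ℕ => Real.log (x : ℝ)) Filter.atTop Filter.atTop :=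
    Real.tendsto_log_atTop.comp tendsto_natCast_atTop_atTop
  have h1 : ∀ᶠ x : ℕ in Filter.atTop, 2 ≤ x := Filter.eventually_ge_atTop 2
  have h2 : ∀ᶠ x : ℕ in Filter.atTop, 1 ≤ Real.log x := hlog.eventually_ge_atTop 1
  have h3 : ∀ᶠ x : ℕ in Filter.atTop, 2 * 2 ^ B ≤ Real.log x := hlog.eventually_ge_atTop _
  have h4 : ∀ᶠ x : ℕ in Filter.atTop, M ≤ Real.log x := hlog.eventually_ge_atTop _
  have hid : ∀ n : ℕ, ∀ e : ℝ, 0 < e → ∀ᶠ t : ℝ in Filter.atTop, Real.log t ^ n ≤ e * t := by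
    intro n e he
    have := (Real.isLittleO_pow_log_id_atTop (n := n)).bound he
    filter_upwards [this, Filter.eventually_ge_atTop (1 : ℝ)] with t ht ht1
    have h0 : 0 ≤ Real.log t := Real.log_nonneg ht1
    rw [Real.norm_of_nonneg (by positivity)] at ht
    simpa [Real.norm_of_nonneg (by linarith only [ht1] : (0 : ℝ) ≤ t)] using ht
  have h5 : ∀ᶠ x : ℕ in Filter.atTop, 2 * Real.log x ^ (k + 1) ≤ Real.sqrt x := by
    have hs : Filter.Tendsto (fun x : ℕ => Real.sqrt (x : ℝ)) Filter.atTop Filter.atTop :=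
      Real.tendsto_sqrt_atTop.comp tendsto_natCast_atTop_atTop
    have := hs.eventually (hid (k + 1) (1 / (2 * 2 ^ (k + 1))) (by positivity))
    filter_upwards [this, h1] with x hx hx1
    have hls : Real.log (Real.sqrt x) = Real.log x / 2 := Real.log_sqrt (Nat.cast_nonneg x)
    rw [hls, div_pow] at hx
    have hp : (0 : ℝ) < 2 ^ (k + 1) := by positivity
    rw [div_le_iff₀ hp] at hx
    have e1 : 1 / (2 * 2 ^ (k + 1)) * Real.sqrt x * (2 : ℝ) ^ (k + 1) = Real.sqrt x / 2 := by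
      field_simp
    rw [e1] at hx
    linarith only [hx]
  have h6 : ∀ᶠ x : ℕ in Filter.atTop, 4 * (B + 1) * Real.log x ^ (k + 2) ≤ x := by
    have hB : (0 : ℝ) < 4 * (B + 1) := by positivity
    have := (tendsto_natCast_atTop_atTop (R := ℝ)).eventually
      (hid (k + 2) (1 / (4 * (B + 1))) (by positivity))
    filter_upwards [this] with x hx
    have := mul_le_mul_of_nonneg_left hx hB.le
    have e1 : 4 * ((B : ℝ) + 1) * (1 / (4 * (B + 1)) * (x : ℝ)) = x := by
      field_simp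
    rw [e1] at this
    exact this
  obtain ⟨x0, hx0⟩ := Filter.eventually_atTop.mp
    (h1.and (h2.and (h3.and (h4.and (h5.and h6)))))
  exact ⟨x0, fun x hx => hx0 x hx⟩

theorem swk1_psi_le (y : ℕ) : ∑ n ∈ Icc 1 y, Lam n ≤ y * Real.log y := by
  calc ∑ n ∈ Icc 1 y, Lam n ≤ ∑ n ∈ Icc 1 y, Real.log y := by
        refine sum_le_sum fun n hn => ?_
        rw [mem_Icc] at hn
        refine (ArithmeticFunction.vonMangoldt_le_log).trans ?_
        exact Real.log_le_log (by exact_mod_cast hn.1) (by exact_mod_cast hn.2)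
    _ = y * Real.log y := by simp

theorem psi_ap (B k : ℕ) : ∃ x0 : ℕ, ∀ x : ℕ, x0 ≤ x → ∀ y : ℕ, y ≤ x → ∀ c : ℕ, 1 ≤ c →
    (c : ℝ) ≤ Real.log x ^ B → ∀ a : ℕ, Nat.Coprime a c →
      |psiA y c a - y / (c.totient : ℝ)| ≤ x / Real.log x ^ k := by
  obtain ⟨C1, hC1, hsw⟩ := siegel_walfisz (B + 1) (k + 1)
  obtain ⟨C2, hC2, hpnt⟩ := pnt (k + 1)
  obtain ⟨x0, hx0⟩ := swk1_ev B k (2 * ((C1 + C2) * 2 ^ (k + 1)))
  refine ⟨x0, fun x hx y hyx c hc hcB a ha => ?_⟩
  obtain ⟨g1, g2, g3, g4, g5, g6⟩ := hx0 x hx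
  have hxR : (2 : ℝ) ≤ x := by exact_mod_cast g1
  have hyxR : (y : ℝ) ≤ x := by exact_mod_cast hyx
  have hφ : 0 < c.totient := Nat.totient_pos.mpr hc
  have hφR : (0 : ℝ) < c.totient := by exact_mod_cast hφ
  have hφ1 : (1 : ℝ) ≤ c.totient := by exact_mod_cast hφ
  have hy0 : (0 : ℝ) ≤ y := Nat.cast_nonneg y
  have hdiv : (y : ℝ) / c.totient ≤ y := div_le_self hy0 hφ1
  have hdiv0 : (0 : ℝ) ≤ (y : ℝ) / c.totient := by positivity
  have hLk : 0 < Real.log x ^ k := by positivity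
  by_cases hbig : (y : ℝ) ≤ Real.sqrt x
  · -- trivial bound
    have hpsi0 : 0 ≤ psiA y c a := sum_nonneg fun _ _ => swk1_Lam_nonneg _
    have hpsi1 : psiA y c a ≤ y * Real.log y := by
      refine le_trans ?_ (swk1_psi_le y)
      exact sum_le_sum_of_subset_of_nonneg (filter_subset _ _) fun _ _ _ => swk1_Lam_nonneg _
    have hlogy : Real.log y ≤ Real.log x := by
      rcases Nat.eq_zero_or_pos y with h | h
      · subst h; simpa using Real.log_natCast_nonneg x
      · exact Real.log_le_log (by exact_mod_cast h) hyxR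
    have hs0 : 0 ≤ Real.sqrt x := Real.sqrt_nonneg _
    have hb1 : psiA y c a ≤ Real.sqrt x * Real.log x := by
      refine hpsi1.trans ?_
      exact mul_le_mul hbig hlogy (Real.log_natCast_nonneg y) hs0
    have hb2 : (y : ℝ) / c.totient ≤ Real.sqrt x * Real.log x := by
      refine (hdiv.trans hbig).trans ?_
      nlinarith only [g2, hbig]
    have hb3 : Real.sqrt x * Real.log x ≤ x / Real.log x ^ k := by
      rw [le_div_iff₀ hLk]
      have e1 : Real.sqrt x * Real.log x * Real.log x ^ k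
          = Real.sqrt x * Real.log x ^ (k + 1) := by ring
      rw [e1]
      have e2 : Real.sqrt x * Real.sqrt x = x := Real.mul_self_sqrt (by positivity)
      have e3 : 0 ≤ Real.log x ^ (k + 1) := by positivity
      nlinarith only [hxR, e2, g5, hbig]
    rw [abs_le]
    constructor <;> linarith only [hpsi0, hb2, hb3, hdiv0, hb1]
  · rw [not_le] at hbig
    have hs1 : (1 : ℝ) ≤ Real.sqrt x := by
      rw [Real.one_le_sqrt]; linarith only [hxR]
    have hy1R : (1 : ℝ) < y := by linarith only [hbig, hs1]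
    have hy2 : 2 ≤ y := by
      have : 1 < y := by exact_mod_cast hy1R
      omega
    have hlogy : Real.log x / 2 ≤ Real.log y := by
      rw [← Real.log_sqrt (by positivity)]
      exact Real.log_le_log (by positivity) hbig.le
    have hlogyx : Real.log y ≤ Real.log x := Real.log_le_log (by linarith only [hbig, hs1]) hyxR
    have hly0 : 0 < Real.log y := by linarith only [g2, hlogy]
    have h2B : (2 : ℝ) ^ B ≤ Real.log y := by linarith only [g3, hlogy]
    have hcy : (c : ℝ) ≤ Real.log y ^ (B + 1) := by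
      calc (c : ℝ) ≤ Real.log x ^ B := hcB
        _ ≤ (2 * Real.log y) ^ B := by
            refine pow_le_pow_left₀ (by linarith only [g2]) (by linarith only [hlogy]) _
        _ = 2 ^ B * Real.log y ^ B := by rw [mul_pow]
        _ ≤ Real.log y * Real.log y ^ B := by
            refine mul_le_mul_of_nonneg_right h2B (by positivity)
        _ = Real.log y ^ (B + 1) := by ring
    set D : ℝ := C1 * y / Real.log y ^ (k + 1) with hD
    have hD0 : 0 ≤ D := by positivity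
    have hchar : ∀ χ : DirichletCharacter ℂ c, χ ≠ 1 → ‖swk1S y χ.primitiveCharacter‖ ≤ D := by
      intro χ hχ
      have : NeZero c := ⟨by omega⟩
      have hcond_dvd : χ.conductor ∣ c := χ.conductor_dvd_level
      have hcond0 : χ.conductor ≠ 0 := by
        intro h0
        rw [h0] at hcond_dvd
        have := Nat.eq_zero_of_zero_dvd hcond_dvd
        omega
      have hcond1 : χ.conductor ≠ 1 := by
        intro h1
        exact hχ ((DirichletCharacter.eq_one_iff_conductor_eq_one (χ := χ)).mpr h1)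
      have hcond2 : 2 ≤ χ.conductor := by omega
      have hle : (χ.conductor : ℝ) ≤ Real.log y ^ (B + 1) := by
        refine le_trans ?_ hcy
        exact_mod_cast Nat.le_of_dvd hc hcond_dvd
      exact hsw χ.conductor hcond2 χ.primitiveCharacter
        χ.primitiveCharacter_isPrimitive y hy2 hle
    have hmain := swk1_main (y := y) hc ha hD0 hchar
    have hp := hpnt y hy2
    have hE : swk1E y c ≤ 2 * Real.log c * Real.log y := swk1E_le (by omega) hc
    have hlogc : Real.log c ≤ B * Real.log x := by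
      have h1 : Real.log c ≤ Real.log (Real.log x ^ B) :=
        Real.log_le_log (by exact_mod_cast hc) hcB
      rw [Real.log_pow] at h1
      have h2 : Real.log (Real.log x) ≤ Real.log x := by
        have := Real.log_le_sub_one_of_pos (by linarith only [g2] : (0 : ℝ) < Real.log x)
        linarith only [this]
      exact h1.trans (mul_le_mul_of_nonneg_left h2 (Nat.cast_nonneg B))
    have hlogc0 : 0 ≤ Real.log c := Real.log_natCast_nonneg c
    have hE2 : swk1E y c ≤ 2 * B * Real.log x ^ 2 := by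
      calc swk1E y c ≤ 2 * Real.log c * Real.log y := hE
        _ ≤ 2 * Real.log c * Real.log x := mul_le_mul_of_nonneg_left hlogyx (by positivity)
        _ ≤ 2 * (B * Real.log x) * Real.log x := by
            refine mul_le_mul_of_nonneg_right ?_ (by linarith only [g2])
            linarith only [hlogc]
        _ = 2 * B * Real.log x ^ 2 := by ring
    have hE3 : swk1E y c ≤ (x / Real.log x ^ k) / 2 := by
      refine hE2.trans ?_
      rw [div_div, le_div_iff₀ (by positivity)]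
      have e1 : 2 * B * Real.log x ^ 2 * (Real.log x ^ k * 2)
          = 4 * B * Real.log x ^ (k + 2) := by ring
      rw [e1]
      refine le_trans ?_ g6
      have : 0 ≤ Real.log x ^ (k + 2) := by positivity
      nlinarith only [this]
    have hsub : |psiA y c a - y / (c.totient : ℝ)| ≤
        |psiA y c a - (∑ n ∈ Icc 1 y, Lam n) / c.totient|
          + |(∑ n ∈ Icc 1 y, Lam n) / c.totient - y / (c.totient : ℝ)| := abs_sub_le _ _ _
    have hp2 : |(∑ n ∈ Icc 1 y, Lam n) / c.totient - y / (c.totient : ℝ)|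
        ≤ C2 * y / Real.log y ^ (k + 1) := by
      rw [← sub_div, abs_div, abs_of_pos hφR]
      exact (div_le_self (abs_nonneg _) hφ1).trans hp
    have hfin : (C1 + C2) * y / Real.log y ^ (k + 1) ≤ (x / Real.log x ^ k) / 2 := by
      have hpow : (Real.log x / 2) ^ (k + 1) ≤ Real.log y ^ (k + 1) :=
        pow_le_pow_left₀ (by linarith only [g2]) hlogy _
      have hpow0 : 0 < (Real.log x / 2) ^ (k + 1) := by
        have : 0 < Real.log x / 2 := by linarith only [g2]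
        positivity
      calc (C1 + C2) * y / Real.log y ^ (k + 1)
          ≤ (C1 + C2) * x / (Real.log x / 2) ^ (k + 1) := by
            refine div_le_div₀ (by positivity) ?_ hpow0 hpow
            exact mul_le_mul_of_nonneg_left hyxR (by positivity)
        _ ≤ (x / Real.log x ^ k) / 2 := by
            rw [div_pow, div_div_eq_mul_div, div_div, div_le_div_iff₀ (by positivity) (by positivity)]
            have e1 : (C1 + C2) * ↑x * 2 ^ (k + 1) * (Real.log ↑x ^ k * 2)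
                = (2 * ((C1 + C2) * 2 ^ (k + 1))) * (x * Real.log x ^ k) := by ring
            rw [e1]
            have e2 : (x : ℝ) * Real.log x ^ (k + 1) = Real.log x * (x * Real.log x ^ k) := by ring
            rw [e2]
            exact mul_le_mul_of_nonneg_right g4 (by positivity)
    have hadd : D + C2 * y / Real.log y ^ (k + 1) = (C1 + C2) * y / Real.log y ^ (k + 1) := by
      rw [hD]; ring
    linarith only [hmain, hE3, hsub, hp2, hfin, hadd]

end Pool.Agent.H91.EHA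

end

section

/-!
# LM SwA: the Möbius function in residue classes prime to the modulus

Proof (copy and adapt `Pool.Agent.H76.MU.pn_l`, file `H76/MU/PnL.lean`, complete: there `lio`, `c = 1`).  Fix `A, B`, `c ≤ L^B`, `L = log x`.  For `(r, c) = 1` let `M_r(y) = ∑_{n ≤ y, n ≡ r (c)} mu n`; `|M_r(y)| ≤ y/c + 1`.
Identities: `mu n · log n = - ∑_{d ∣ n} Λ(d) mu(n/d)` (Mathlib: `ArithmeticFunction.log`, `vonMangoldt`, e.g. from `∑_{d | n} Λ(d) = log n` and `μ * ζ = 1`: `μ log = -(Λ * μ)`), and for `(r,c) = 1`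
`∑_{d ≤ y, (d,c)=1} M_{r/d}(y/d) = ∑_{n ≤ y, n ≡ r} ∑_{m ∣ n} mu m = [1 ≤ y and 1 ≡ r]` (in the sum over `n = d m ≡ r` automatically `(d,c) = (m,c) = 1`).
`x` large, `w = ⌈exp(√L)⌉₊`, CLAIM(i), `i ≤ I = 2(A+B) + 6`: for all `r` prime to `c` and `x^{1/2} w^{2i} ≤ y ≤ x`: `|M_r(y)| ≤ δ_i y`, `δ_0 = 1`, `δ_{i+1} = ρ δ_i + L^{-A-2}`, `ρ = C0 L^B L^{-1/2}`?? -- NO loss of `c` is allowed: normalise `|M_r(y)| ≤ δ_i y/c + 1`
in the sum over `d ≤ w`: `∑_{d ≤ w} (Λ(d) + c/φ(c)) (δ_i y/(d c) + 1)`, `c/φ(c) ≤ C log L`: so `ρ = C0 L^{-1/2} log L ≤ L^{-1/4}` and `δ_{i+1} = L^{-1/4} δ_i + L^{-A-2}` with `I = 4 (A + 2)`; everything is multiplied by `c` where needed (`w c ≤ y^{1/4}`, `c ≤ L^B`).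
Step:  `∑_{n ≤ y, n ≡ r} mu n log n = - ∑_{d ≤ y, (d,c)=1} Λ(d) M_{r/d}(y/d) = -(c/φ(c)) [..] - ∑_{d ≤ y, (d,c)=1} (Λ(d) - c/φ(c)) M_{r/d}(y/d)`.
`d > w`: interchange, `∑_{m ≤ y/w, (m,c)=1} mu m · (R(y/m) - R(w))`, `R(v) = ∑_{d ≤ v, d ≡ r/m (c)} (Λ(d) - c/φ(c))`, `|R(v)| ≤ v/(log v)^{K} + ..` by the prime number theorem in progressions for `c ≤ (log w)^{2B}` (module `H91/EHA/SwK1.lean`: `psiA`; see the final theorem there) and
`#{d ≤ v, d ≡ a (c)} = v/c + O(1)`.  `M_r(y) log y = ∑ mu n log n + ∑ mu n log(y/n)`, the last sum is `∫_1^y M_r(u)/u du`.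
(It is enough to prove some version `|M_r(y)| ≤ x/L^A`; the constant powers of `c` and `log` are free: if a power of `c` is lost in a step, use instead the normalisation by `c` above.)
-/

set_option autoImplicit false

namespace Pool.Agent.H43.LM

open Finset
open Pool.Agent.H91.EHA (Lam psiA)
open Pool.Agent.H76.MU (log_ge)

/-- reordering of pairs -/
private theorem SwA_pairs (y : ℕ) (f : ℕ → ℕ → ℝ) :
    ∑ n ∈ Icc 1 y, ∑ d ∈ n.divisors, f d (n / d)
      = ∑ d ∈ Icc 1 y, ∑ m ∈ Icc 1 (y / d), f d m := by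
  rw [Finset.sum_sigma', Finset.sum_sigma']
  refine Finset.sum_bij' (fun a _ => ⟨a.2, a.1 / a.2⟩) (fun b _ => ⟨b.1 * b.2, b.1⟩) ?_ ?_ ?_ ?_ ?_
  · rintro ⟨n, d⟩ h
    simp only [Finset.mem_sigma, Finset.mem_Icc, Nat.mem_divisors] at h ⊢
    obtain ⟨⟨h1, h2⟩, h3, h4⟩ := h
    have hd : 0 < d := Nat.pos_of_dvd_of_pos h3 (by omega)
    refine ⟨⟨hd, (Nat.le_of_dvd (by omega) h3).trans h2⟩, Nat.div_pos (Nat.le_of_dvd (by omega) h3) hd,
      Nat.div_le_div_right h2⟩
  · rintro ⟨d, m⟩ h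
    simp only [Finset.mem_sigma, Finset.mem_Icc, Nat.mem_divisors] at h ⊢
    obtain ⟨⟨h1, h2⟩, h3, h4⟩ := h
    have h5 : d * m ≤ y := by
      calc d * m ≤ d * (y / d) := Nat.mul_le_mul_left _ h4
        _ ≤ y := Nat.mul_div_le y d
    refine ⟨⟨Nat.mul_pos (by omega) (by omega), h5⟩, Dvd.intro _ rfl, ?_⟩
    exact (Nat.mul_pos (by omega) (by omega)).ne'
  · rintro ⟨n, d⟩ h
    simp only [Finset.mem_sigma, Finset.mem_Icc, Nat.mem_divisors] at h
    obtain ⟨⟨h1, h2⟩, h3, h4⟩ := h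
    simp only [Sigma.mk.injEq, heq_eq_eq, and_true]
    exact Nat.mul_div_cancel' h3
  · rintro ⟨d, m⟩ h
    simp only [Finset.mem_sigma, Finset.mem_Icc] at h
    obtain ⟨⟨h1, h2⟩, h3, h4⟩ := h
    simp only [Sigma.mk.injEq, heq_eq_eq, true_and]
    exact Nat.mul_div_cancel_left m (by omega)
  · rintro ⟨n, d⟩ h
    rfl

/-- `μ log = - Λ * μ` -/
private theorem SwA_mu_log (n : ℕ) : mu n * Real.log n = - ∑ d ∈ n.divisors, Lam d * mu (n / d) := by
  have h2 : ArithmeticFunction.pmul ((ArithmeticFunction.moebius : ArithmeticFunction ℤ) : ArithmeticFunction ℝ)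
      ArithmeticFunction.log * ((ArithmeticFunction.zeta : ArithmeticFunction ℕ) : ArithmeticFunction ℝ) = - ArithmeticFunction.vonMangoldt := by
    ext n
    rw [ArithmeticFunction.coe_mul_zeta_apply]
    have h := ArithmeticFunction.sum_moebius_mul_log_eq (n := n)
    simpa [ArithmeticFunction.pmul_apply, ArithmeticFunction.intCoe_apply, ArithmeticFunction.log_apply] using h
  have h1 : ArithmeticFunction.pmul ((ArithmeticFunction.moebius : ArithmeticFunction ℤ) : ArithmeticFunction ℝ)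
      ArithmeticFunction.log = - (ArithmeticFunction.vonMangoldt *
        ((ArithmeticFunction.moebius : ArithmeticFunction ℤ) : ArithmeticFunction ℝ)) := by
    calc ArithmeticFunction.pmul ((ArithmeticFunction.moebius : ArithmeticFunction ℤ) : ArithmeticFunction ℝ)
          ArithmeticFunction.log
        = ArithmeticFunction.pmul ((ArithmeticFunction.moebius : ArithmeticFunction ℤ) : ArithmeticFunction ℝ)
          ArithmeticFunction.log * (((ArithmeticFunction.zeta : ArithmeticFunction ℕ) : ArithmeticFunction ℝ) *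
            ((ArithmeticFunction.moebius : ArithmeticFunction ℤ) : ArithmeticFunction ℝ)) := by
          rw [ArithmeticFunction.coe_zeta_mul_coe_moebius, mul_one]
      _ = - (ArithmeticFunction.vonMangoldt *
        ((ArithmeticFunction.moebius : ArithmeticFunction ℤ) : ArithmeticFunction ℝ)) := by
          rw [← mul_assoc, h2, neg_mul]
  have h3 := DFunLike.congr_fun h1 n
  have h4 : (ArithmeticFunction.vonMangoldt * ((ArithmeticFunction.moebius : ArithmeticFunction ℤ) : ArithmeticFunction ℝ)) n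
      = ∑ d ∈ n.divisors, Lam d * mu (n / d) := by
    rw [ArithmeticFunction.mul_apply, Nat.sum_divisorsAntidiagonal
      (fun i j => ArithmeticFunction.vonMangoldt i * ((ArithmeticFunction.moebius : ArithmeticFunction ℤ) : ArithmeticFunction ℝ) j)]
    refine Finset.sum_congr rfl fun d _ => ?_
    rfl
  have h5 : (ArithmeticFunction.pmul ((ArithmeticFunction.moebius : ArithmeticFunction ℤ) : ArithmeticFunction ℝ)
      ArithmeticFunction.log) n = mu n * Real.log n := rfl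
  have h6 : (- (ArithmeticFunction.vonMangoldt * ((ArithmeticFunction.moebius : ArithmeticFunction ℤ) : ArithmeticFunction ℝ))) n
      = - ((ArithmeticFunction.vonMangoldt * ((ArithmeticFunction.moebius : ArithmeticFunction ℤ) : ArithmeticFunction ℝ)) n) := rfl
  rw [← h5, h3, h6, h4]

private theorem SwA_mu_sum (n : ℕ) : ∑ d ∈ n.divisors, mu (n / d) = if n = 1 then 1 else 0 := by
  rw [Nat.sum_div_divisors n (fun m => mu m)]
  have h := DFunLike.congr_fun (ArithmeticFunction.coe_moebius_mul_coe_zeta (R := ℝ)) n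
  rw [ArithmeticFunction.coe_mul_zeta_apply, ArithmeticFunction.one_apply] at h
  exact h

/-- the sum of `mu m` over the `m ≤ y` with `d m = a` in `ℤ / c` -/
private noncomputable def SwAP (c : ℕ) (a : ZMod c) (d y : ℕ) : ℝ :=
  ∑ m ∈ Icc 1 y, if (d : ZMod c) * (m : ZMod c) = a then mu m else 0

private theorem SwA_P_one (c : ℕ) (a : ZMod c) (y : ℕ) :
    SwAP c a 1 y = ∑ n ∈ Icc 1 y, if (n : ZMod c) = a then mu n else 0 := by
  unfold SwAP
  simp only [Nat.cast_one, one_mul]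

private theorem SwA_P_abs (c : ℕ) (a : ZMod c) (d y : ℕ) : |SwAP c a d y| ≤ y := by
  unfold SwAP
  refine (Finset.abs_sum_le_sum_abs _ _).trans ?_
  refine (Finset.sum_le_sum (g := fun _ => (1 : ℝ)) fun n _ => ?_).trans ?_
  · split_ifs
    · exact mu_abs_le n
    · simp
  · simp

/-- the sum for `d` is the sum for another class, or zero -/
private theorem SwA_transfer {c : ℕ} {a : ZMod c} (ha : IsUnit a) (d y : ℕ) :
    SwAP c a d y = 0 ∨ ∃ b : ZMod c, IsUnit b ∧ SwAP c a d y = SwAP c b 1 y := by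
  by_cases hd : IsUnit (d : ZMod c)
  · right
    refine ⟨(d : ZMod c)⁻¹ * a, ?_, ?_⟩
    · refine IsUnit.mul ?_ ha
      obtain ⟨u, hu⟩ := hd
      rw [← hu, ZMod.inv_coe_unit]
      exact u⁻¹.isUnit
    · have h1 := ZMod.mul_inv_of_unit _ hd
      unfold SwAP
      refine Finset.sum_congr rfl fun m _ => ?_
      have h2 : ((d : ZMod c) * (m : ZMod c) = a) ↔ (((1 : ℕ) : ZMod c) * (m : ZMod c) = (d : ZMod c)⁻¹ * a) := by
        rw [Nat.cast_one, one_mul]
        constructor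
        · intro h
          rw [← h, ← mul_assoc, mul_comm (d : ZMod c)⁻¹, h1, one_mul]
        · intro h
          rw [h, ← mul_assoc, h1, one_mul]
      simp only [h2]
  · left
    unfold SwAP
    refine Finset.sum_eq_zero fun m _ => ?_
    rw [if_neg]
    intro h
    apply hd
    rw [← h] at ha
    exact isUnit_of_mul_isUnit_left ha

/-- the convolution identity in the class `a` -/
private theorem SwA_conv (c : ℕ) (a : ZMod c) (y : ℕ) (f : ℕ → ℝ) :
    ∑ n ∈ Icc 1 y, (if (n : ZMod c) = a then ∑ d ∈ n.divisors, f d * mu (n / d) else 0)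
      = ∑ d ∈ Icc 1 y, f d * SwAP c a d (y / d) := by
  have h1 : ∑ d ∈ Icc 1 y, f d * SwAP c a d (y / d)
      = ∑ d ∈ Icc 1 y, ∑ m ∈ Icc 1 (y / d), (if (d : ZMod c) * (m : ZMod c) = a then f d * mu m else 0) := by
    refine Finset.sum_congr rfl fun d _ => ?_
    unfold SwAP
    rw [Finset.mul_sum]
    refine Finset.sum_congr rfl fun m _ => ?_
    split_ifs <;> simp
  rw [h1, ← SwA_pairs y (fun d m => if (d : ZMod c) * (m : ZMod c) = a then f d * mu m else 0)]
  refine Finset.sum_congr rfl fun n _ => ?_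
  split_ifs with h
  · refine Finset.sum_congr rfl fun d hd => ?_
    have h2 : d * (n / d) = n := Nat.mul_div_cancel' (Nat.dvd_of_mem_divisors hd)
    have h3 : (d : ZMod c) * ((n / d : ℕ) : ZMod c) = a := by
      rw [← Nat.cast_mul, h2, h]
    simp only [h3, if_true]
  · symm
    refine Finset.sum_eq_zero fun d hd => ?_
    have h2 : d * (n / d) = n := Nat.mul_div_cancel' (Nat.dvd_of_mem_divisors hd)
    have h3 : ¬ (d : ZMod c) * ((n / d : ℕ) : ZMod c) = a := by
      rw [← Nat.cast_mul, h2]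
      exact h
    simp only [h3, if_false]

private theorem SwA_log (c : ℕ) (a : ZMod c) (y : ℕ) :
    ∑ n ∈ Icc 1 y, (if (n : ZMod c) = a then mu n else 0) * Real.log n
      = - ∑ d ∈ Icc 1 y, Lam d * SwAP c a d (y / d) := by
  rw [← SwA_conv, ← Finset.sum_neg_distrib]
  refine Finset.sum_congr rfl fun n _ => ?_
  split_ifs
  · exact SwA_mu_log n
  · simp

private theorem SwA_sumA (c : ℕ) (a : ZMod c) (y : ℕ) : |∑ d ∈ Icc 1 y, SwAP c a d (y / d)| ≤ 1 := by
  have h1 := SwA_conv c a y (fun _ => 1)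
  simp only [one_mul] at h1
  rw [← h1]
  have h2 : ∑ n ∈ Icc 1 y, (if (n : ZMod c) = a then ∑ d ∈ n.divisors, mu (n / d) else 0)
      = ∑ n ∈ Icc 1 y, if n = 1 then (if (n : ZMod c) = a then 1 else 0) else 0 := by
    refine Finset.sum_congr rfl fun n _ => ?_
    rw [SwA_mu_sum]
    split_ifs <;> rfl
  rw [h2, Finset.sum_ite_eq']
  split_ifs <;> simp

/-- interchange in the range `d > w` -/
private theorem SwA_inter (c : ℕ) (a : ZMod c) (y w : ℕ) (f : ℕ → ℝ) :
    ∑ d ∈ (Icc 1 y).filter (fun d => w < d), f d * SwAP c a d (y / d)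
      = ∑ m ∈ Icc 1 y, mu m * ∑ d ∈ Ioc w (y / m), (if (d : ZMod c) * (m : ZMod c) = a then f d else 0) := by
  set F : ℕ → ℕ → ℝ := fun d m => if (d : ZMod c) * (m : ZMod c) = a then (if w < d then f d else 0) * mu m else 0 with hF
  have h1 : ∑ d ∈ (Icc 1 y).filter (fun d => w < d), f d * SwAP c a d (y / d)
      = ∑ d ∈ Icc 1 y, ∑ m ∈ Icc 1 (y / d), F d m := by
    rw [Finset.sum_filter]
    refine Finset.sum_congr rfl fun d _ => ?_
    unfold SwAP
    split_ifs with h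
    · rw [Finset.mul_sum]
      refine Finset.sum_congr rfl fun m _ => ?_
      simp only [hF, if_pos h]
      split_ifs <;> simp
    · symm
      refine Finset.sum_eq_zero fun m _ => ?_
      simp only [hF, if_neg h]
      split_ifs <;> simp
  have h2 : ∑ m ∈ Icc 1 y, mu m * ∑ d ∈ Ioc w (y / m), (if (d : ZMod c) * (m : ZMod c) = a then f d else 0)
      = ∑ m ∈ Icc 1 y, ∑ d ∈ Icc 1 (y / m), F d m := by
    refine Finset.sum_congr rfl fun m _ => ?_
    have h3 : ∑ d ∈ Ioc w (y / m), (if (d : ZMod c) * (m : ZMod c) = a then f d else 0)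
        = ∑ d ∈ Icc 1 (y / m), if w < d then (if (d : ZMod c) * (m : ZMod c) = a then f d else 0) else 0 := by
      have e0 : Ioc w (y / m) = (Icc 1 (y / m)).filter (fun d => w < d) := by
        ext d
        simp only [Finset.mem_Ioc, Finset.mem_filter, Finset.mem_Icc]
        omega
      rw [e0, Finset.sum_filter]
    rw [h3, Finset.mul_sum]
    refine Finset.sum_congr rfl fun d _ => ?_
    simp only [hF]
    split_ifs <;> ring
  rw [h1, h2, ← SwA_pairs y (fun d m => F d m), ← SwA_pairs y (fun m d => F d m)]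
  refine Finset.sum_congr rfl fun n hn => ?_
  have h4 := Nat.sum_divisorsAntidiagonal (n := n) (fun d m => F d m)
  have h5 := Nat.sum_divisorsAntidiagonal' (n := n) (fun d m => F d m)
  rw [← h4, h5]

/-! ### analysis -/

private noncomputable def SwAq (y : ℕ) : ℝ := Real.sqrt (Real.sqrt (1 + Real.log y))

private theorem SwA_log_nonneg (y : ℕ) : 0 ≤ Real.log (y : ℝ) := Real.log_natCast_nonneg y

private theorem SwA_q4 (y : ℕ) : SwAq y ^ 4 = 1 + Real.log y := by
  have h := SwA_log_nonneg y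
  unfold SwAq
  have h1 : Real.sqrt (Real.sqrt (1 + Real.log y)) ^ 4
      = (Real.sqrt (Real.sqrt (1 + Real.log y)) ^ 2) ^ 2 := by ring
  rw [h1, Real.sq_sqrt (Real.sqrt_nonneg _), Real.sq_sqrt (by linarith)]

private theorem SwA_q_one (y : ℕ) : 1 ≤ SwAq y := by
  have h := SwA_log_nonneg y
  unfold SwAq
  rw [Real.one_le_sqrt, Real.one_le_sqrt]
  linarith

private theorem SwA_q_pos (y : ℕ) : 0 < SwAq y := lt_of_lt_of_le one_pos (SwA_q_one y)

private theorem SwA_logpow (j : ℕ) (s : ℝ) (hs : 0 < s) : ∃ C : ℝ, 0 < C ∧ ∀ t : ℝ, 1 ≤ t →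
    (1 + Real.log t) ^ j ≤ C * t ^ s := by
  rcases Nat.eq_zero_or_pos j with rfl | hj
  · refine ⟨1, one_pos, fun t ht => ?_⟩
    simpa using Real.one_le_rpow ht hs.le
  have hj' : (0 : ℝ) < j := by exact_mod_cast hj
  set e : ℝ := s / j with he
  have he0 : 0 < e := by rw [he]; positivity
  refine ⟨(1 + 1 / e) ^ j, by positivity, fun t ht => ?_⟩
  have h1 : 1 + Real.log t ≤ (1 + 1 / e) * t ^ e := by
    have h2 := Real.log_le_rpow_div (by linarith only [ht] : (0 : ℝ) ≤ t) he0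
    have h3 := Real.one_le_rpow ht he0.le
    have h4 : (1 + 1 / e) * t ^ e = t ^ e + t ^ e / e := by ring
    linarith only [h2, h3, h4]
  have h5 : 0 ≤ 1 + Real.log t := by
    have := Real.log_nonneg ht
    linarith only [this]
  calc (1 + Real.log t) ^ j ≤ ((1 + 1 / e) * t ^ e) ^ j := pow_le_pow_left₀ h5 h1 j
    _ = (1 + 1 / e) ^ j * t ^ s := by
        rw [mul_pow, ← Real.rpow_natCast (t ^ e) j, ← Real.rpow_mul (by linarith only [ht])]
        congr 2
        rw [he]; field_simp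

private theorem SwA_key (j : ℕ) (s : ℝ) (hs : 0 < s) : ∃ C : ℝ, 0 < C ∧ ∀ (u y : ℕ) (t : ℝ),
    1 ≤ u → 1 ≤ y → 1 ≤ t → (y : ℝ) ≤ u * t → SwAq y ^ j ≤ C * SwAq u ^ j * t ^ s := by
  obtain ⟨C, hC, h⟩ := SwA_logpow j s hs
  refine ⟨C, hC, fun u y t hu hy ht hyt => ?_⟩
  have hu' : (0 : ℝ) < u := by exact_mod_cast hu
  have hy' : (0 : ℝ) < y := by exact_mod_cast hy
  have hlt := Real.log_nonneg ht
  have hlu := SwA_log_nonneg u
  have h1 : Real.log y ≤ Real.log u + Real.log t := by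
    rw [← Real.log_mul hu'.ne' (by positivity)]
    exact Real.log_le_log hy' hyt
  have h2 : SwAq y ^ 4 ≤ (SwAq u * (1 + Real.log t)) ^ 4 := by
    rw [mul_pow, SwA_q4, SwA_q4]
    have h3 : (1 + Real.log t) ≤ (1 + Real.log t) ^ 4 :=
      le_self_pow₀ (by linarith only [hlt]) (by norm_num)
    calc 1 + Real.log y ≤ (1 + Real.log u) * (1 + Real.log t) := by nlinarith only [h1, hlt, hlu]
      _ ≤ (1 + Real.log u) * (1 + Real.log t) ^ 4 :=
          mul_le_mul_of_nonneg_left h3 (by linarith only [hlu])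
  have h4 : SwAq y ≤ SwAq u * (1 + Real.log t) :=
    le_of_pow_le_pow_left₀ (by norm_num) (by have := SwA_q_pos u; positivity) h2
  calc SwAq y ^ j ≤ (SwAq u * (1 + Real.log t)) ^ j := pow_le_pow_left₀ (SwA_q_pos y).le h4 j
    _ = SwAq u ^ j * (1 + Real.log t) ^ j := by rw [mul_pow]
    _ ≤ SwAq u ^ j * (C * t ^ s) :=
        mul_le_mul_of_nonneg_left (h t ht) (pow_nonneg (SwA_q_pos u).le _)
    _ = C * SwAq u ^ j * t ^ s := by ring

private theorem SwA_abel (f : ℕ → ℝ) (y : ℕ) (hy : 1 ≤ y) :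
    ∑ n ∈ Icc 1 y, f n * (Real.log y - Real.log n)
      = ∑ u ∈ Ico 1 y, (∑ n ∈ Icc 1 u, f n) * (Real.log ((u : ℝ) + 1) - Real.log u) := by
  induction y, hy using Nat.le_induction with
  | base => simp
  | succ y hy ih =>
    rw [Finset.sum_Ico_succ_top hy, ← ih, Finset.sum_Icc_succ_top (by omega)]
    push_cast
    rw [sub_self, mul_zero, add_zero]
    rw [Finset.sum_mul, ← Finset.sum_add_distrib]
    refine Finset.sum_congr rfl fun n _ => ?_
    ring

private theorem SwA_inv_sqrt (y : ℕ) : ∑ u ∈ Icc 1 y, (1 : ℝ) / Real.sqrt u ≤ 2 * Real.sqrt y := by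
  induction y with
  | zero => simp
  | succ y ih =>
    rw [Finset.sum_Icc_succ_top (by omega)]
    have h0 : (0 : ℝ) ≤ y := Nat.cast_nonneg y
    have h1 : 0 < Real.sqrt ((y : ℝ) + 1) := Real.sqrt_pos.2 (by linarith only)
    have h2 : Real.sqrt (y : ℝ) ≤ Real.sqrt ((y : ℝ) + 1) := Real.sqrt_le_sqrt (by linarith only)
    have h3 := Real.sqrt_nonneg (y : ℝ)
    have h4 : Real.sqrt ((y : ℝ) + 1) ^ 2 = y + 1 := Real.sq_sqrt (by linarith)
    have h5 : Real.sqrt (y : ℝ) ^ 2 = y := Real.sq_sqrt h0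
    push_cast
    have h6 : 1 / Real.sqrt ((y : ℝ) + 1) ≤ 2 * (Real.sqrt ((y : ℝ) + 1) - Real.sqrt y) := by
      rw [div_le_iff₀ h1]
      nlinarith only [h4, h5, h2]
    linarith only [ih, h6]

private theorem SwA_log_succ (u : ℕ) (hu : 1 ≤ u) :
    |Real.log ((u : ℝ) + 1) - Real.log u| ≤ 1 / u := by
  have hu' : (0 : ℝ) < u := by exact_mod_cast hu
  rw [abs_of_nonneg (sub_nonneg.2 (Real.log_le_log hu' (by linarith only))),
    ← Real.log_div (by positivity) hu'.ne']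
  have h1 := Real.log_le_sub_one_of_pos (show (0 : ℝ) < ((u : ℝ) + 1) / u by positivity)
  refine h1.trans (le_of_eq ?_)
  field_simp
  ring

/-- second term -/
private theorem SwA_T1 (j : ℕ) : ∃ K : ℝ, 0 < K ∧ ∀ (f : ℕ → ℝ) (C : ℝ), 0 < C →
    (∀ y : ℕ, 1 ≤ y → |∑ n ∈ Icc 1 y, f n| ≤ C * y / SwAq y ^ (2 * j)) →
    ∀ y : ℕ, 1 ≤ y → |∑ n ∈ Icc 1 y, f n * (Real.log y - Real.log n)| ≤ K * C * y / SwAq y ^ (2 * j) := by
  obtain ⟨K, hK, hkey⟩ := SwA_key (2 * j) (1 / 2) (by norm_num)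
  refine ⟨2 * K, by positivity, fun f C hC h y hy => ?_⟩
  have hy' : (0 : ℝ) < y := by exact_mod_cast hy
  have hq := pow_pos (SwA_q_pos y) (2 * j)
  rw [SwA_abel f y hy]
  refine (Finset.abs_sum_le_sum_abs _ _).trans ?_
  have h1 : ∀ u ∈ Ico 1 y, |(∑ n ∈ Icc 1 u, f n) * (Real.log ((u : ℝ) + 1) - Real.log u)|
      ≤ (C * K * Real.sqrt y / SwAq y ^ (2 * j)) * (1 / Real.sqrt u) := by
    intro u hu
    obtain ⟨hu1, hu2⟩ := Finset.mem_Ico.1 hu
    have hu' : (0 : ℝ) < u := by exact_mod_cast hu1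
    have hqu := pow_pos (SwA_q_pos u) (2 * j)
    have hsu : 0 < Real.sqrt u := Real.sqrt_pos.2 hu'
    rw [abs_mul]
    have h2 := SwA_log_succ u hu1
    have h3 := h u hu1
    have huy : (u : ℝ) ≤ y := by exact_mod_cast hu2.le
    have h4 := hkey u y (y / u) hu1 hy (by rw [le_div_iff₀ hu']; linarith only [huy])
      (by rw [mul_div_cancel₀ _ hu'.ne'])
    rw [← Real.sqrt_eq_rpow, Real.sqrt_div hy'.le] at h4
    have h5 : 1 / SwAq u ^ (2 * j) ≤ K * (Real.sqrt y / Real.sqrt u) / SwAq y ^ (2 * j) := by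
      rw [div_le_div_iff₀ hqu hq]
      calc 1 * SwAq y ^ (2 * j) ≤ K * SwAq u ^ (2 * j) * (Real.sqrt y / Real.sqrt u) := by
            rw [one_mul]; exact h4
        _ = K * (Real.sqrt y / Real.sqrt u) * SwAq u ^ (2 * j) := by ring
    calc |∑ n ∈ Icc 1 u, f n| * |Real.log ((u : ℝ) + 1) - Real.log u|
        ≤ (C * u / SwAq u ^ (2 * j)) * (1 / u) :=
          mul_le_mul h3 h2 (abs_nonneg _) (by positivity)
      _ = C * (1 / SwAq u ^ (2 * j)) := by field_simp
      _ ≤ C * (K * (Real.sqrt y / Real.sqrt u) / SwAq y ^ (2 * j)) :=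
          mul_le_mul_of_nonneg_left h5 hC.le
      _ = (C * K * Real.sqrt y / SwAq y ^ (2 * j)) * (1 / Real.sqrt u) := by ring
  refine (Finset.sum_le_sum h1).trans ?_
  rw [← Finset.mul_sum]
  have h6 : ∑ u ∈ Ico 1 y, (1 : ℝ) / Real.sqrt u ≤ 2 * Real.sqrt y := by
    refine le_trans (Finset.sum_le_sum_of_subset_of_nonneg ?_ fun _ _ _ => by positivity)
      (SwA_inv_sqrt y)
    intro u hu
    simp only [Finset.mem_Ico, Finset.mem_Icc] at hu ⊢
    omega
  have h7 : 0 ≤ C * K * Real.sqrt y / SwAq y ^ (2 * j) := by positivity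
  refine (mul_le_mul_of_nonneg_left h6 h7).trans (le_of_eq ?_)
  have h8 : Real.sqrt y * Real.sqrt y = y := Real.mul_self_sqrt hy'.le
  calc C * K * Real.sqrt y / SwAq y ^ (2 * j) * (2 * Real.sqrt y)
      = 2 * C * K * (Real.sqrt y * Real.sqrt y) / SwAq y ^ (2 * j) := by ring
    _ = 2 * K * C * y / SwAq y ^ (2 * j) := by rw [h8]; ring

private theorem SwA_harm (w : ℕ) : ∑ d ∈ Icc 1 w, (1 : ℝ) / d ≤ 1 + Real.log w := by
  have h := harmonic_le_one_add_log w
  rw [harmonic_eq_sum_Icc] at h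
  push_cast at h
  simpa using h

private theorem SwA_logw {y w : ℕ} (hw1 : 1 ≤ w) (hw : (w : ℝ) ≤ 2 * Real.exp (SwAq y)) : Real.log w ≤ 1 + SwAq y := by
  have hw' : (0 : ℝ) < w := by exact_mod_cast hw1
  have hl2 : Real.log 2 ≤ 1 := by
    have := Real.log_two_lt_d9; linarith only [this]
  have h1 := Real.log_le_log hw' hw
  rw [Real.log_mul (by norm_num) (Real.exp_pos _).ne', Real.log_exp] at h1
  linarith only [hl2, h1]

/-- the range `d ≤ w` -/
private theorem SwA_T2 (j : ℕ) (C E : ℝ) (hC : 0 < C) (hE : 0 < E) (G : ℕ → ℕ → ℝ) (e : ℕ → ℝ)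
    (h : ∀ d y : ℕ, 1 ≤ y → |G d y| ≤ C * y / SwAq y ^ (2 * j)) (y w : ℕ) (hy : 1 ≤ y) (hw1 : 1 ≤ w)
    (hq2 : 2 ≤ SwAq y) (hw : (w : ℝ) ≤ 2 * Real.exp (SwAq y)) (he : ∀ d, 1 ≤ d → d ≤ w → |e d| ≤ E * SwAq y) :
    |∑ d ∈ (Icc 1 y).filter (fun d => ¬ w < d), e d * G d (y / d)|
      ≤ (2 * E * C * 2 ^ (2 * j)) * y * SwAq y ^ 2 / SwAq y ^ (2 * j) := by
  have hy' : (0 : ℝ) < y := by exact_mod_cast hy
  have hw' : (0 : ℝ) < w := by exact_mod_cast hw1
  have hq := pow_pos (SwA_q_pos y) (2 * j)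
  have hq0 := SwA_q_pos y
  have hl2 : Real.log 2 ≤ 1 := by
    have := Real.log_two_lt_d9; linarith only [this]
  have hlw : Real.log w ≤ 1 + SwAq y := SwA_logw hw1 hw
  have hlw0 := SwA_log_nonneg w
  have hlw2 : 1 + Real.log w ≤ 2 * SwAq y := by linarith only [hq2, hlw]
  refine (Finset.abs_sum_le_sum_abs _ _).trans ?_
  have h1 : ∀ d ∈ (Icc 1 y).filter (fun d => ¬ w < d), |e d * G d (y / d)|
      ≤ (E * SwAq y * C * 2 ^ (2 * j) * y / SwAq y ^ (2 * j)) * (1 / d) := by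
    intro d hd
    obtain ⟨hd0, hd3⟩ := Finset.mem_filter.1 hd
    obtain ⟨hd1, hd2⟩ := Finset.mem_Icc.1 hd0
    have hdw : d ≤ w := by omega
    have hd' : (0 : ℝ) < d := by exact_mod_cast hd1
    have hdw' : (d : ℝ) ≤ w := by exact_mod_cast hdw
    have hu1 : 1 ≤ y / d := Nat.div_pos hd2 hd1
    have hqu := pow_pos (SwA_q_pos (y / d)) (2 * j)
    have hld : Real.log d ≤ Real.log w := Real.log_le_log hd' hdw'
    have h2 : |e d| ≤ E * SwAq y := he d hd1 hdw
    have h3 := h d (y / d) hu1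
    have h4 : (y : ℝ) ≤ ((y / d : ℕ) : ℝ) * (2 * d) := by
      have h5 : y < d * (y / d) + d := by
        have := Nat.div_add_mod y d
        have := Nat.mod_lt y hd1
        omega
      have h6 : d ≤ d * (y / d) := Nat.le_mul_of_pos_right d hu1
      have h7 : y ≤ (y / d) * (2 * d) := by
        calc y ≤ d * (y / d) + d * (y / d) := by omega
          _ = (y / d) * (2 * d) := by ring
      exact_mod_cast h7
    have hu' : (0 : ℝ) < ((y / d : ℕ) : ℝ) := by exact_mod_cast hu1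
    have h5 : Real.log y ≤ Real.log ((y / d : ℕ) : ℝ) + (Real.log 2 + Real.log d) := by
      rw [← Real.log_mul (by norm_num) hd'.ne', ← Real.log_mul hu'.ne' (by positivity)]
      exact Real.log_le_log hy' h4
    have h6 : (SwAq y / 2) ^ 4 ≤ SwAq (y / d) ^ 4 := by
      have e1 := SwA_q4 y
      have e2 := SwA_q4 (y / d)
      rw [div_pow, e2]
      have e3 : SwAq y ^ 4 ≥ 8 * SwAq y := by
        have : SwAq y ^ 3 ≥ 2 ^ 3 := pow_le_pow_left₀ (by norm_num) hq2 3
        nlinarith only [this, hq2]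
      have e4 : 1 + Real.log ((y / d : ℕ) : ℝ) ≥ SwAq y ^ 4 - (2 + SwAq y) := by
        rw [e1]; linarith only [hl2, hlw, hld, h5]
      linarith only [hq2, hl2, hlw, hld, h5, e1, e3]
    have h7 : SwAq y / 2 ≤ SwAq (y / d) :=
      le_of_pow_le_pow_left₀ (by norm_num) (SwA_q_pos _).le h6
    have h8 : 1 / SwAq (y / d) ^ (2 * j) ≤ 2 ^ (2 * j) / SwAq y ^ (2 * j) := by
      rw [div_le_div_iff₀ hqu hq]
      have h9 : SwAq y ≤ 2 * SwAq (y / d) := by linarith only [h7]
      calc 1 * SwAq y ^ (2 * j) ≤ (2 * SwAq (y / d)) ^ (2 * j) := by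
            rw [one_mul]; exact pow_le_pow_left₀ hq0.le h9 _
        _ = 2 ^ (2 * j) * SwAq (y / d) ^ (2 * j) := by rw [mul_pow]
    have h11 : ((y / d : ℕ) : ℝ) ≤ y / d := Nat.cast_div_le
    rw [abs_mul]
    calc |e d| * |G d (y / d)|
        ≤ (E * SwAq y) * (C * ((y / d : ℕ) : ℝ) / SwAq (y / d) ^ (2 * j)) :=
          mul_le_mul h2 h3 (abs_nonneg _) (by positivity)
      _ = (E * SwAq y) * (C * ((y / d : ℕ) : ℝ) * (1 / SwAq (y / d) ^ (2 * j))) := by ring
      _ ≤ (E * SwAq y) * (C * (y / d) * (2 ^ (2 * j) / SwAq y ^ (2 * j))) := by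
          apply mul_le_mul_of_nonneg_left _ (by positivity)
          apply mul_le_mul _ h8 (by positivity) (by positivity)
          exact mul_le_mul_of_nonneg_left h11 hC.le
      _ = (E * SwAq y * C * 2 ^ (2 * j) * y / SwAq y ^ (2 * j)) * (1 / d) := by ring
  refine (Finset.sum_le_sum h1).trans ?_
  rw [← Finset.mul_sum]
  have h6 : ∑ d ∈ (Icc 1 y).filter (fun d => ¬ w < d), (1 : ℝ) / d ≤ 2 * SwAq y := by
    refine le_trans (le_trans (Finset.sum_le_sum_of_subset_of_nonneg ?_ fun _ _ _ => by positivity)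
      (SwA_harm w)) hlw2
    intro u hu
    simp only [Finset.mem_filter, Finset.mem_Icc] at hu ⊢
    omega
  have h7 : 0 ≤ E * SwAq y * C * 2 ^ (2 * j) * y / SwAq y ^ (2 * j) := by positivity
  refine (mul_le_mul_of_nonneg_left h6 h7).trans (le_of_eq ?_)
  ring

/-! ### primes in residue classes -/

/-- `c / φ(c)` -/
private noncomputable def SwAk (c : ℕ) : ℝ := (c : ℝ) / c.totient

private theorem SwA_k_nonneg (c : ℕ) : 0 ≤ SwAk c := by unfold SwAk; positivity

private theorem SwA_k_le (c : ℕ) (hc : 1 ≤ c) : SwAk c ≤ c := by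
  have h : (1 : ℝ) ≤ c.totient := by exact_mod_cast Nat.totient_pos.2 hc
  exact div_le_self (Nat.cast_nonneg c) h

private theorem SwA_k_log (c : ℕ) (hc : 1 ≤ c) : SwAk c ≤ 1 + 2 * Real.log c := by
  have h1 := Pool.Agent.H92.EH.le_totient_mul c
  have h2 := Pool.Agent.H92.EH.card_primeFactors_le c
  have hφ : (0 : ℝ) < c.totient := by exact_mod_cast Nat.totient_pos.2 hc
  have h3 : (2 : ℝ) ^ (Nat.log 2 c) ≤ c := by
    exact_mod_cast Nat.pow_log_le_self 2 (by omega)
  have h4 : (Nat.log 2 c : ℝ) * Real.log 2 ≤ Real.log c := by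
    rw [← Real.log_pow]
    exact Real.log_le_log (by positivity) h3
  have h5 : (0.6931471803 : ℝ) < Real.log 2 := Real.log_two_gt_d9
  have h6 : (0 : ℝ) ≤ Nat.log 2 c := Nat.cast_nonneg _
  have h7 : (Nat.log 2 c : ℝ) ≤ 2 * Real.log c := by nlinarith only [h4, h5]
  have h8 : ((c.primeFactors.card : ℕ) : ℝ) ≤ Nat.log 2 c := by exact_mod_cast h2
  unfold SwAk
  rw [div_le_iff₀ hφ]
  nlinarith only [h1, h7, h8]

private theorem SwA_R (k : ℕ) : ∃ C : ℝ, 0 < C ∧ ∀ c : ℕ, 1 ≤ c → ∀ b : ℕ, Nat.Coprime b c → ∀ v : ℕ, 2 ≤ v →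
    |psiA v c b - v / (c.totient : ℝ)| ≤ C * c * v / Real.log v ^ k := by
  obtain ⟨x0, hx0⟩ := Pool.Agent.H91.EHA.psi_ap (k + 1) k
  refine ⟨3 + (1 + Real.log x0) ^ (k + 1), ?_, fun c hc b hb v hv => ?_⟩
  · have := Real.log_natCast_nonneg x0
    positivity
  have hv2 : (2 : ℝ) ≤ v := by exact_mod_cast hv
  have hv0 : (0 : ℝ) < v := by linarith only [hv2]
  have hL2 : (1 / 2 : ℝ) ≤ Real.log v := by
    have h5 : (0.6931471803 : ℝ) < Real.log 2 := Real.log_two_gt_d9
    have h6 := Real.log_le_log (by norm_num : (0 : ℝ) < 2) hv2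
    linarith only [h5, h6]
  have hL0 : 0 < Real.log v := by linarith only [hL2]
  have hLk : 0 < Real.log v ^ k := pow_pos hL0 k
  have hc1 : (1 : ℝ) ≤ c := by exact_mod_cast hc
  have hx00 : 0 ≤ Real.log (x0 : ℝ) := Real.log_natCast_nonneg x0
  have hφ : (1 : ℝ) ≤ c.totient := by exact_mod_cast Nat.totient_pos.2 hc
  have hD : 0 ≤ (1 + Real.log (x0 : ℝ)) ^ (k + 1) := by positivity
  -- the trivial bound
  have htriv : |psiA v c b - v / (c.totient : ℝ)| ≤ v * (1 + Real.log v) := by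
    have hpsi0 : 0 ≤ psiA v c b := sum_nonneg fun _ _ => Pool.Agent.H91.EHA.swk1_Lam_nonneg _
    have hpsi1 : psiA v c b ≤ v * Real.log v := by
      refine le_trans ?_ (Pool.Agent.H91.EHA.swk1_psi_le v)
      exact sum_le_sum_of_subset_of_nonneg (filter_subset _ _) fun _ _ _ => Pool.Agent.H91.EHA.swk1_Lam_nonneg _
    have h1 : (v : ℝ) / c.totient ≤ v := div_le_self hv0.le hφ
    have h2 : 0 ≤ (v : ℝ) / c.totient := by positivity
    have h3 : 0 ≤ (v : ℝ) * Real.log v := by positivity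
    rw [abs_le]
    constructor <;> nlinarith only [hpsi0, hpsi1, h1, hv2, h2]
  rcases lt_or_ge v x0 with hvx | hvx
  · refine htriv.trans ?_
    rw [le_div_iff₀ hLk]
    have h1 : Real.log v ≤ Real.log x0 := Real.log_le_log hv0 (by exact_mod_cast hvx.le)
    have h2 : (1 + Real.log v) * Real.log v ^ k ≤ (1 + Real.log x0) ^ (k + 1) := by
      calc (1 + Real.log v) * Real.log v ^ k ≤ (1 + Real.log v) * (1 + Real.log v) ^ k := by
            apply mul_le_mul_of_nonneg_left _ (by linarith only [hL0])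
            exact pow_le_pow_left₀ hL0.le (by linarith only) k
        _ = (1 + Real.log v) ^ (k + 1) := by ring
        _ ≤ (1 + Real.log x0) ^ (k + 1) := pow_le_pow_left₀ (by linarith only [hL0]) (by linarith only [h1]) _
    calc (v : ℝ) * (1 + Real.log v) * Real.log v ^ k = v * ((1 + Real.log v) * Real.log v ^ k) := by ring
      _ ≤ v * (1 + Real.log x0) ^ (k + 1) := mul_le_mul_of_nonneg_left h2 hv0.le
      _ ≤ (3 + (1 + Real.log x0) ^ (k + 1)) * c * v := by
          have h3 : (1 + Real.log (x0 : ℝ)) ^ (k + 1) ≤ (3 + (1 + Real.log x0) ^ (k + 1)) * c := by nlinarith only [hc1, hD]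
          calc (v : ℝ) * (1 + Real.log x0) ^ (k + 1) ≤ v * ((3 + (1 + Real.log x0) ^ (k + 1)) * c) :=
                mul_le_mul_of_nonneg_left h3 hv0.le
            _ = _ := by ring
  · rcases le_or_gt (c : ℝ) (Real.log v ^ (k + 1)) with hcl | hcl
    · have h1 := hx0 v hvx v le_rfl c hc hcl b hb
      refine h1.trans ?_
      apply div_le_div_of_nonneg_right _ hLk.le
      have h3 : (1 : ℝ) ≤ (3 + (1 + Real.log x0) ^ (k + 1)) * c := by nlinarith only [hc1, hD]
      calc (v : ℝ) = 1 * v := by ring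
        _ ≤ (3 + (1 + Real.log x0) ^ (k + 1)) * c * v := mul_le_mul_of_nonneg_right h3 hv0.le
    · refine htriv.trans ?_
      rw [le_div_iff₀ hLk]
      have h1 : (1 + Real.log v) * Real.log v ^ k ≤ 3 * c := by
        calc (1 + Real.log v) * Real.log v ^ k ≤ (3 * Real.log v) * Real.log v ^ k :=
              mul_le_mul_of_nonneg_right (by linarith only [hL2]) hLk.le
          _ = 3 * Real.log v ^ (k + 1) := by ring
          _ ≤ 3 * c := by linarith only [hcl]
      calc (v : ℝ) * (1 + Real.log v) * Real.log v ^ k = v * ((1 + Real.log v) * Real.log v ^ k) := by ring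
        _ ≤ v * (3 * c) := mul_le_mul_of_nonneg_left h1 hv0.le
        _ = 3 * (c * v) := by ring
        _ ≤ (3 + (1 + Real.log x0) ^ (k + 1)) * (c * v) :=
            mul_le_mul_of_nonneg_right (by linarith only [hD]) (by positivity)
        _ = (3 + (1 + Real.log x0) ^ (k + 1)) * c * v := by ring

private theorem SwA_count (c : ℕ) (hc : 1 ≤ c) (b v : ℕ) :
    |(((Icc 1 v).filter (fun n => n ≡ b [MOD c])).card : ℝ) - v / c| ≤ 1 := by
  have h0 : Icc 1 v = Ioc 0 v := by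
    ext n; simp only [Finset.mem_Icc, Finset.mem_Ioc]; omega
  have hc0 : (0 : ℚ) < c := by exact_mod_cast hc
  have h1 := Nat.Ioc_filter_modEq_card 0 v (r := c) hc b
  rw [← h0] at h1
  set t : ℤ := ⌊((v : ℚ) - b) / c⌋ - ⌊(((0 : ℕ) : ℚ) - b) / c⌋ with ht
  have h2 : (((Icc 1 v).filter (fun n => n ≡ b [MOD c])).card : ℤ) = max t 0 := h1
  have h3 : |(t : ℚ) - v / c| ≤ 1 := by
    have a1 := Int.floor_le (((v : ℚ) - b) / c)
    have a2 := Int.lt_floor_add_one (((v : ℚ) - b) / c)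
    have a3 := Int.floor_le ((((0 : ℕ) : ℚ) - b) / c)
    have a4 := Int.lt_floor_add_one ((((0 : ℕ) : ℚ) - b) / c)
    have a5 : ((v : ℚ) - b) / c - (((0 : ℕ) : ℚ) - b) / c = v / c := by
      field_simp
      push_cast
      ring
    rw [ht]
    push_cast
    push_cast at a3 a4 a5
    rw [abs_le]
    constructor <;> linarith only [a2, a3, a5, a1, a4]
  have h4 : |((max t 0 : ℤ) : ℚ) - v / c| ≤ 1 := by
    have hvc : (0 : ℚ) ≤ v / c := by positivity
    rw [abs_le] at h3 ⊢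
    rcases le_total t 0 with h | h
    · rw [max_eq_right h]
      have h5 : (t : ℚ) ≤ 0 := by exact_mod_cast h
      constructor
      · push_cast; linarith only [h3, h5]
      · push_cast; linarith only [hvc]
    · rw [max_eq_left h]
      exact h3
  rw [← h2] at h4
  have h5 : |(((((Icc 1 v).filter (fun n => n ≡ b [MOD c])).card : ℤ) : ℚ) - v / c : ℚ)| ≤ 1 := h4
  have h6 : ((|(((((Icc 1 v).filter (fun n => n ≡ b [MOD c])).card : ℤ) : ℚ) - v / c : ℚ)| : ℚ) : ℝ) ≤ ((1 : ℚ) : ℝ) := by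
    exact_mod_cast h5
  push_cast at h6
  exact h6

/-- the range `d > w` -/
private theorem SwA_T3 (j : ℕ) : ∃ D : ℝ, 0 < D ∧ ∀ c : ℕ, 1 ≤ c → ∀ a : ZMod c, IsUnit a → ∀ y w : ℕ, 1 ≤ y → 2 ≤ SwAq y →
    Real.exp (SwAq y) ≤ w →
    |∑ m ∈ Icc 1 y, mu m * ∑ d ∈ Ioc w (y / m), (if (d : ZMod c) * (m : ZMod c) = a then Lam d - SwAk c else 0)|
      ≤ D * c * y / SwAq y ^ (2 * j) := by
  obtain ⟨C, hC, hpnt⟩ := SwA_R (2 * j + 4)
  refine ⟨2 * (C + ((2 * j + 4).factorial : ℝ)), by positivity, fun c hc a ha y w hy hq2 hw => ?_⟩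
  have : NeZero c := ⟨by omega⟩
  set C' : ℝ := C + ((2 * j + 4).factorial : ℝ) with hC'
  have hC'0 : 0 < C' := by positivity
  have hc1 : (1 : ℝ) ≤ c := by exact_mod_cast hc
  have hy' : (0 : ℝ) < y := by exact_mod_cast hy
  have hq0 := SwA_q_pos y
  have hqc := pow_pos hq0 (2 * j + 4)
  have hw' : (0 : ℝ) < w := lt_of_lt_of_le (Real.exp_pos _) hw
  have hlw : SwAq y ≤ Real.log w := by
    have := Real.log_le_log (Real.exp_pos _) hw
    rwa [Real.log_exp] at this
  have hw2 : 2 ≤ w := by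
    have h1 : (2 : ℝ) ≤ w := by
      have := Real.add_one_le_exp (SwAq y)
      linarith only [hq2, hw, this]
    exact_mod_cast h1
  have hR : ∀ b : ℕ, Nat.Coprime b c → ∀ v : ℕ, w ≤ v →
      |∑ n ∈ (Icc 1 v).filter (fun n => n ≡ b [MOD c]), (Lam n - SwAk c)| ≤ C' * c * v / SwAq y ^ (2 * j + 4) := by
    intro b hb v hv
    have hv' : (w : ℝ) ≤ v := by exact_mod_cast hv
    have hv0 : (0 : ℝ) < v := lt_of_lt_of_le hw' hv'
    have h1 := hpnt c hc b hb v (by omega)
    have h2 : SwAq y ≤ Real.log v := hlw.trans (Real.log_le_log hw' hv')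
    have h3 : C * c * v / Real.log v ^ (2 * j + 4) ≤ C * c * v / SwAq y ^ (2 * j + 4) :=
      div_le_div_of_nonneg_left (by positivity) hqc (pow_le_pow_left₀ hq0.le h2 _)
    have h4 := SwA_count c hc b v
    have hk0 := SwA_k_nonneg c
    have hk1 := SwA_k_le c hc
    have h5 : ∑ n ∈ (Icc 1 v).filter (fun n => n ≡ b [MOD c]), (Lam n - SwAk c)
        = (psiA v c b - v / (c.totient : ℝ))
          - SwAk c * ((((Icc 1 v).filter (fun n => n ≡ b [MOD c])).card : ℝ) - v / c) := by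
      have hc0 : (c : ℝ) ≠ 0 := by positivity
      have h6 : SwAk c * ((v : ℝ) / c) = v / (c.totient : ℝ) := by
        unfold SwAk
        field_simp
      rw [Finset.sum_sub_distrib, Finset.sum_const, nsmul_eq_mul, mul_sub, h6]
      unfold psiA
      ring
    rw [h5]
    have h7 : |SwAk c * ((((Icc 1 v).filter (fun n => n ≡ b [MOD c])).card : ℝ) - v / c)| ≤ c := by
      rw [abs_mul, abs_of_nonneg hk0]
      calc SwAk c * |(((Icc 1 v).filter (fun n => n ≡ b [MOD c])).card : ℝ) - v / c| ≤ c * 1 :=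
            mul_le_mul hk1 h4 (abs_nonneg _) (by positivity)
        _ = c := mul_one _
    have h8 : (c : ℝ) ≤ ((2 * j + 4).factorial : ℝ) * c * v / SwAq y ^ (2 * j + 4) := by
      rw [le_div_iff₀ hqc]
      have h9 := Real.pow_div_factorial_le_exp (SwAq y) hq0.le (2 * j + 4)
      have hfac : (0 : ℝ) < ((2 * j + 4).factorial : ℝ) := by positivity
      rw [div_le_iff₀ hfac] at h9
      have h10 : Real.exp (SwAq y) ≤ v := hw.trans hv'
      have h11 : SwAq y ^ (2 * j + 4) ≤ v * ((2 * j + 4).factorial : ℝ) :=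
        h9.trans (mul_le_mul_of_nonneg_right h10 hfac.le)
      calc (c : ℝ) * SwAq y ^ (2 * j + 4) ≤ c * (v * ((2 * j + 4).factorial : ℝ)) :=
            mul_le_mul_of_nonneg_left h11 (by positivity)
        _ = ((2 * j + 4).factorial : ℝ) * c * v := by ring
    refine (abs_sub _ _).trans ?_
    calc |psiA v c b - v / (c.totient : ℝ)|
          + |SwAk c * ((((Icc 1 v).filter (fun n => n ≡ b [MOD c])).card : ℝ) - v / c)|
        ≤ C * c * v / SwAq y ^ (2 * j + 4) + ((2 * j + 4).factorial : ℝ) * c * v / SwAq y ^ (2 * j + 4) := by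
          linarith only [h1, h3, h7, h8]
      _ = C' * c * v / SwAq y ^ (2 * j + 4) := by rw [hC']; ring
  have hin : ∀ m ∈ Icc 1 y, |mu m * ∑ d ∈ Ioc w (y / m), (if (d : ZMod c) * (m : ZMod c) = a then Lam d - SwAk c else 0)|
      ≤ (2 * C' * c * y / SwAq y ^ (2 * j + 4)) * (1 / m) := by
    intro m hm
    obtain ⟨hm1, hm2⟩ := Finset.mem_Icc.1 hm
    have hm' : (0 : ℝ) < m := by exact_mod_cast hm1
    have h11 : ((y / m : ℕ) : ℝ) ≤ y / m := Nat.cast_div_le
    have hmain : |∑ d ∈ Ioc w (y / m), (if (d : ZMod c) * (m : ZMod c) = a then Lam d - SwAk c else 0)|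
        ≤ (2 * C' * c * y / SwAq y ^ (2 * j + 4)) * (1 / m) := by
      rcases Nat.lt_or_ge (y / m) w with hlt | hge
      · rw [Finset.Ioc_eq_empty (by omega), Finset.sum_empty, abs_zero]
        positivity
      by_cases hmu : IsUnit (m : ZMod c)
      · set v := y / m with hv
        set b : ZMod c := (m : ZMod c)⁻¹ * a with hb
        have hbu : IsUnit b := by
          refine IsUnit.mul ?_ ha
          obtain ⟨u, hu⟩ := hmu
          rw [← hu, ZMod.inv_coe_unit]
          exact u⁻¹.isUnit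
        have hbv : ((b.val : ℕ) : ZMod c) = b := ZMod.natCast_zmod_val b
        have hbc : Nat.Coprime b.val c := by
          rw [← ZMod.isUnit_iff_coprime, hbv]
          exact hbu
        have hiff : ∀ d : ℕ, ((d : ZMod c) * (m : ZMod c) = a) ↔ d ≡ b.val [MOD c] := by
          intro d
          have h1 := ZMod.mul_inv_of_unit _ hmu
          rw [← ZMod.natCast_eq_natCast_iff, hbv]
          constructor
          · intro h
            rw [hb, ← h, mul_comm (d : ZMod c), ← mul_assoc, mul_comm (m : ZMod c)⁻¹, h1, one_mul]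
          · intro h
            rw [h, hb, mul_comm, ← mul_assoc, h1, one_mul]
        have e1 : ∑ d ∈ Ioc w v, (if (d : ZMod c) * (m : ZMod c) = a then Lam d - SwAk c else 0)
            = (∑ n ∈ (Icc 1 v).filter (fun n => n ≡ b.val [MOD c]), (Lam n - SwAk c))
              - ∑ n ∈ (Icc 1 w).filter (fun n => n ≡ b.val [MOD c]), (Lam n - SwAk c) := by
          simp only [hiff]
          rw [Finset.sum_filter, Finset.sum_filter]
          have e2 : Icc 1 v = Icc 1 w ∪ Ioc w v := by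
            ext n; simp only [Finset.mem_union, Finset.mem_Icc, Finset.mem_Ioc]; omega
          have e3 : Disjoint (Icc 1 w) (Ioc w v) := by
            rw [Finset.disjoint_left]
            intro n; simp only [Finset.mem_Icc, Finset.mem_Ioc]; omega
          rw [e2, Finset.sum_union e3]
          ring
        rw [e1]
        have h1 := hR b.val hbc v hge
        have h2 := hR b.val hbc w le_rfl
        have hwv : (w : ℝ) ≤ v := by exact_mod_cast hge
        have h3 : C' * c * w / SwAq y ^ (2 * j + 4) ≤ C' * c * v / SwAq y ^ (2 * j + 4) :=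
          div_le_div_of_nonneg_right (mul_le_mul_of_nonneg_left hwv (by positivity)) hqc.le
        have h4 : C' * c * v / SwAq y ^ (2 * j + 4) ≤ C' * c * (y / m) / SwAq y ^ (2 * j + 4) :=
          div_le_div_of_nonneg_right (mul_le_mul_of_nonneg_left h11 (by positivity)) hqc.le
        refine (abs_sub _ _).trans ?_
        calc |∑ n ∈ (Icc 1 v).filter (fun n => n ≡ b.val [MOD c]), (Lam n - SwAk c)|
              + |∑ n ∈ (Icc 1 w).filter (fun n => n ≡ b.val [MOD c]), (Lam n - SwAk c)|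
            ≤ C' * c * (y / m) / SwAq y ^ (2 * j + 4) + C' * c * (y / m) / SwAq y ^ (2 * j + 4) := by
              linarith only [h1, h2, h3, h4]
          _ = (2 * C' * c * y / SwAq y ^ (2 * j + 4)) * (1 / m) := by ring
      · have h1 : ∑ d ∈ Ioc w (y / m), (if (d : ZMod c) * (m : ZMod c) = a then Lam d - SwAk c else 0) = 0 := by
          refine Finset.sum_eq_zero fun d _ => ?_
          rw [if_neg]
          intro h
          apply hmu
          rw [← h] at ha
          exact isUnit_of_mul_isUnit_right ha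
        rw [h1, abs_zero]
        positivity
    rw [abs_mul]
    calc |mu m| * |∑ d ∈ Ioc w (y / m), (if (d : ZMod c) * (m : ZMod c) = a then Lam d - SwAk c else 0)|
        ≤ 1 * |∑ d ∈ Ioc w (y / m), (if (d : ZMod c) * (m : ZMod c) = a then Lam d - SwAk c else 0)| :=
          mul_le_mul_of_nonneg_right (mu_abs_le m) (abs_nonneg _)
      _ ≤ _ := by rw [one_mul]; exact hmain
  refine (Finset.abs_sum_le_sum_abs _ _).trans ((Finset.sum_le_sum hin).trans ?_)
  rw [← Finset.mul_sum]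
  have h7 : 0 ≤ 2 * C' * c * y / SwAq y ^ (2 * j + 4) := by positivity
  refine (mul_le_mul_of_nonneg_left (SwA_harm y) h7).trans (le_of_eq ?_)
  rw [← SwA_q4 y, pow_add]
  have hq := pow_pos hq0 (2 * j)
  field_simp

private theorem SwA_step (j : ℕ)
    (h : ∃ C : ℝ, 0 < C ∧ ∀ c : ℕ, 1 ≤ c → ∀ a : ZMod c, IsUnit a → ∀ y : ℕ, 1 ≤ y →
      |SwAP c a 1 y| ≤ C * c * y / SwAq y ^ (2 * j)) :
    ∃ C : ℝ, 0 < C ∧ ∀ c : ℕ, 1 ≤ c → ∀ a : ZMod c, IsUnit a → ∀ y : ℕ, 1 ≤ y →
      |SwAP c a 1 y| ≤ C * c * y / SwAq y ^ (2 * (j + 1)) := by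
  obtain ⟨C, hC, hA⟩ := h
  obtain ⟨K1, hK1, hT1⟩ := SwA_T1 j
  obtain ⟨D3, hD3, hT3⟩ := SwA_T3 j
  obtain ⟨K, hK, hkey⟩ := SwA_key (2 * j) (1 / 2) (by norm_num)
  set E : ℝ := 4 * j + 7 with hE
  have hE0 : 0 < E := by positivity
  set D : ℝ := K1 * C + 2 * E * C * 2 ^ (2 * j) + D3 + E * K with hD
  have hD0 : 0 < D := by positivity
  refine ⟨2 * D + 2 ^ (2 * (j + 1)) + 1, by positivity, fun c hc a ha y hy => ?_⟩
  have hc1 : (1 : ℝ) ≤ c := by exact_mod_cast hc
  have hy' : (0 : ℝ) < y := by exact_mod_cast hy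
  have hy1 : (1 : ℝ) ≤ y := by exact_mod_cast hy
  have hq0 := SwA_q_pos y
  have hq1' := SwA_q_one y
  have hqj := pow_pos hq0 (2 * j)
  have hqj1 := pow_pos hq0 (2 * (j + 1))
  have h22 : (0 : ℝ) < 2 ^ (2 * (j + 1)) := by positivity
  have hcy : (0 : ℝ) < c * y := by positivity
  rcases le_or_gt (SwAq y) 2 with hq2 | hq2
  · refine (SwA_P_abs c a 1 y).trans ?_
    rw [le_div_iff₀ hqj1]
    have h1 : SwAq y ^ (2 * (j + 1)) ≤ 2 ^ (2 * (j + 1)) := pow_le_pow_left₀ hq0.le hq2 _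
    calc (y : ℝ) * SwAq y ^ (2 * (j + 1)) ≤ y * 2 ^ (2 * (j + 1)) :=
          mul_le_mul_of_nonneg_left h1 hy'.le
      _ = 2 ^ (2 * (j + 1)) * (1 * y) := by ring
      _ ≤ 2 ^ (2 * (j + 1)) * (c * y) :=
          mul_le_mul_of_nonneg_left (mul_le_mul_of_nonneg_right hc1 hy'.le) h22.le
      _ ≤ (2 * D + 2 ^ (2 * (j + 1)) + 1) * (c * y) :=
          mul_le_mul_of_nonneg_right (by linarith only [hD0]) hcy.le
      _ = (2 * D + 2 ^ (2 * (j + 1)) + 1) * c * y := by ring
  rcases le_or_gt (SwAq y ^ (2 * (j + 1))) c with hcq | hcq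
  · refine (SwA_P_abs c a 1 y).trans ?_
    rw [le_div_iff₀ hqj1]
    calc (y : ℝ) * SwAq y ^ (2 * (j + 1)) ≤ y * c := mul_le_mul_of_nonneg_left hcq hy'.le
      _ = 1 * (c * y) := by ring
      _ ≤ (2 * D + 2 ^ (2 * (j + 1)) + 1) * (c * y) :=
          mul_le_mul_of_nonneg_right (by linarith only [hD0, h22]) hcy.le
      _ = (2 * D + 2 ^ (2 * (j + 1)) + 1) * c * y := by ring
  -- `κ` is small
  have hlogq : Real.log (SwAq y) ≤ SwAq y := by
    have := Real.log_le_sub_one_of_pos hq0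
    linarith
  have hk : SwAk c ≤ (4 * j + 5) * SwAq y := by
    have h1 := SwA_k_log c hc
    have h2 : Real.log c ≤ (2 * (j + 1) : ℕ) * Real.log (SwAq y) := by
      rw [← Real.log_pow]
      exact Real.log_le_log (by positivity) hcq.le
    push_cast at h2
    have hj0 : (0 : ℝ) ≤ j := Nat.cast_nonneg j
    have h3 : (2 * ((j : ℝ) + 1)) * Real.log (SwAq y) ≤ (2 * ((j : ℝ) + 1)) * SwAq y :=
      mul_le_mul_of_nonneg_left hlogq (by positivity)
    nlinarith only [hq2, h1, h2, h3]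
  have hk0 := SwA_k_nonneg c
  have hCc : 0 < C * c := by positivity
  -- the induction hypothesis for all `d`
  have hG : ∀ d u : ℕ, 1 ≤ u → |SwAP c a d u| ≤ (C * c) * u / SwAq u ^ (2 * j) := by
    intro d u hu
    have hqu := pow_pos (SwA_q_pos u) (2 * j)
    rcases SwA_transfer ha d u with h0 | ⟨b, hb, hb2⟩
    · rw [h0, abs_zero]
      positivity
    · rw [hb2]
      exact hA c hc b hb u hu
  set w : ℕ := ⌈Real.exp (SwAq y)⌉₊ with hw
  have hw1 : Real.exp (SwAq y) ≤ w := Nat.le_ceil _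
  have hw2 : (w : ℝ) ≤ 2 * Real.exp (SwAq y) := by
    have h1 := Nat.ceil_lt_add_one (Real.exp_pos (SwAq y)).le
    have h2 := Real.one_le_exp hq0.le
    linarith only [h1, h2]
  have hw3 : 1 ≤ w := by
    have : (0 : ℝ) < w := lt_of_lt_of_le (Real.exp_pos _) hw1
    exact_mod_cast this
  set f : ℕ → ℝ := fun n => if (n : ZMod c) = a then mu n else 0 with hf
  have t1 := hT1 f (C * c) hCc (fun u hu => by
    have := hG 1 u hu
    rw [SwA_P_one] at this
    exact this) y hy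
  have he : ∀ d, 1 ≤ d → d ≤ w → |Lam d - SwAk c| ≤ E * SwAq y := by
    intro d hd1 hd2
    have hL0 : 0 ≤ Lam d := ArithmeticFunction.vonMangoldt_nonneg
    have hL1 : Lam d ≤ Real.log d := ArithmeticFunction.vonMangoldt_le_log
    have hd' : (0 : ℝ) < d := by exact_mod_cast hd1
    have hld : Real.log d ≤ Real.log w := Real.log_le_log hd' (by exact_mod_cast hd2)
    have hlw := SwA_logw hw3 hw2
    rw [abs_le]
    constructor
    · rw [hE]; nlinarith only [hq2, hk, hL0]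
    · rw [hE]; nlinarith only [hq2, hk, hk0, hL1, hld, hlw, mul_nonneg (Nat.cast_nonneg j : (0 : ℝ) ≤ j) hq0.le]
  have t2 := SwA_T2 j (C * c) E hCc hE0 (SwAP c a) (fun d => Lam d - SwAk c) hG y w hy hw3 hq2.le hw2 he
  have t3 := hT3 c hc a ha y w hy hq2.le hw1
  rw [← SwA_inter c a y w (fun d => Lam d - SwAk c)] at t3
  have t5 := SwA_sumA c a y
  -- the constant
  have t6 : 1 ≤ K * y / SwAq y ^ (2 * j) := by
    have h1 := hkey 1 y y le_rfl hy hy1 (by simp)
    have h2 : SwAq 1 = 1 := by simp [SwAq]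
    rw [h2, one_pow, mul_one] at h1
    rw [le_div_iff₀ hqj, one_mul]
    refine h1.trans (mul_le_mul_of_nonneg_left ?_ hK.le)
    calc (y : ℝ) ^ (1 / 2 : ℝ) ≤ (y : ℝ) ^ (1 : ℝ) :=
          Real.rpow_le_rpow_of_exponent_le hy1 (by norm_num)
      _ = y := Real.rpow_one _
  -- splitting
  have e1 : ∑ n ∈ Icc 1 y, f n * Real.log n
      = - (∑ d ∈ (Icc 1 y).filter (fun d => w < d), (Lam d - SwAk c) * SwAP c a d (y / d)
          + ∑ d ∈ (Icc 1 y).filter (fun d => ¬ w < d), (Lam d - SwAk c) * SwAP c a d (y / d))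
        - SwAk c * ∑ d ∈ Icc 1 y, SwAP c a d (y / d) := by
    rw [SwA_log, Finset.sum_filter_add_sum_filter_not, Finset.mul_sum, ← Finset.sum_neg_distrib, ← Finset.sum_neg_distrib,
      ← Finset.sum_sub_distrib]
    refine Finset.sum_congr rfl fun d _ => ?_
    ring
  have e2 : SwAP c a 1 y * Real.log y = ∑ n ∈ Icc 1 y, f n * (Real.log y - Real.log n)
      + ∑ n ∈ Icc 1 y, f n * Real.log n := by
    rw [SwA_P_one, Finset.sum_mul, ← Finset.sum_add_distrib]
    refine Finset.sum_congr rfl fun n _ => ?_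
    simp only [hf]
    ring
  set Q : ℝ := c * (y * SwAq y ^ 2 / SwAq y ^ (2 * j)) with hQ
  have hqsq : 1 ≤ SwAq y ^ 2 := one_le_pow₀ (SwA_q_one y)
  have hQ1 : ∀ D : ℝ, 0 < D → D * c * y / SwAq y ^ (2 * j) ≤ D * Q := by
    intro D hD
    have h1 : D * Q = D * c * (y * SwAq y ^ 2) / SwAq y ^ (2 * j) := by rw [hQ]; ring
    rw [h1]
    apply div_le_div_of_nonneg_right _ hqj.le
    have h2 : (y : ℝ) ≤ y * SwAq y ^ 2 := le_mul_of_one_le_right hy'.le hqsq
    exact mul_le_mul_of_nonneg_left h2 (by positivity)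
  have t1' : |∑ n ∈ Icc 1 y, f n * (Real.log y - Real.log n)| ≤ (K1 * C) * Q := by
    refine t1.trans ?_
    have := hQ1 (K1 * C) (by positivity)
    calc K1 * (C * c) * y / SwAq y ^ (2 * j) = K1 * C * c * y / SwAq y ^ (2 * j) := by ring
      _ ≤ _ := this
  have t2' : |∑ d ∈ (Icc 1 y).filter (fun d => ¬ w < d), (Lam d - SwAk c) * SwAP c a d (y / d)|
      ≤ (2 * E * C * 2 ^ (2 * j)) * Q := by
    refine t2.trans (le_of_eq ?_)
    rw [hQ]; ring
  have t5' : |SwAk c * ∑ d ∈ Icc 1 y, SwAP c a d (y / d)| ≤ (E * K) * Q := by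
    rw [abs_mul, abs_of_nonneg hk0]
    have hkE : SwAk c ≤ E * SwAq y ^ 2 := by
      refine hk.trans ?_
      rw [hE]
      have h1 : SwAq y ≤ SwAq y ^ 2 := by nlinarith only [hq0, hq1']
      have hj0 : (0 : ℝ) ≤ j := Nat.cast_nonneg j
      nlinarith only [hq2, h1]
    have hone : (1 : ℝ) ≤ c * (K * y / SwAq y ^ (2 * j)) := by nlinarith only [hc1, t6]
    calc SwAk c * |∑ d ∈ Icc 1 y, SwAP c a d (y / d)| ≤ (E * SwAq y ^ 2) * 1 :=
          mul_le_mul hkE t5 (abs_nonneg _) (by positivity)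
      _ ≤ (E * SwAq y ^ 2) * (c * (K * y / SwAq y ^ (2 * j))) :=
          mul_le_mul_of_nonneg_left hone (by positivity)
      _ = (E * K) * Q := by rw [hQ]; ring
  have hfin : |SwAP c a 1 y * Real.log y| ≤ D * Q := by
    rw [e2, e1]
    have a1 := abs_le.1 t1'
    have a2 := abs_le.1 t2'
    have a3 := abs_le.1 (t3.trans (hQ1 D3 hD3))
    have a5 := abs_le.1 t5'
    have hDQ : D * Q = (K1 * C) * Q + (2 * E * C * 2 ^ (2 * j)) * Q + D3 * Q + (E * K) * Q := by
      rw [hD]; ring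
    rw [abs_le, hDQ]
    constructor
    · linarith only [a1, a2, a3, a5, a1.1, a2.2, a3.2, a5.2]
    · linarith only [a1, a2, a3, a5, a1.2, a2.1, a3.1, a5.1]
  have hlog : SwAq y ^ 4 / 2 ≤ Real.log y := by
    have h1 := SwA_q4 y
    have h2 : (2 : ℝ) ^ 4 ≤ SwAq y ^ 4 := pow_le_pow_left₀ (by norm_num) hq2.le 4
    linarith only [h1, h2]
  have hl0 : 0 ≤ Real.log y := SwA_log_nonneg y
  rw [abs_mul, abs_of_nonneg hl0] at hfin
  have hfin2 : |SwAP c a 1 y| * (SwAq y ^ 4 / 2) ≤ D * Q :=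
    (mul_le_mul_of_nonneg_left hlog (abs_nonneg _)).trans hfin
  have h3 : |SwAP c a 1 y| ≤ 2 * D * c * y / SwAq y ^ (2 * (j + 1)) := by
    rw [le_div_iff₀ hqj1]
    have h4 : |SwAP c a 1 y| * (SwAq y ^ 4 / 2) * SwAq y ^ (2 * j)
        ≤ D * (c * (y * SwAq y ^ 2)) := by
      have h5 := mul_le_mul_of_nonneg_right hfin2 hqj.le
      refine h5.trans (le_of_eq ?_)
      rw [hQ]
      field_simp
    have h6 : SwAq y ^ 4 = SwAq y ^ 2 * SwAq y ^ 2 := by ring
    have h7 : SwAq y ^ (2 * (j + 1)) = SwAq y ^ (2 * j) * SwAq y ^ 2 := by ring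
    rw [h7]
    rw [h6] at h4
    have hq2p : 0 < SwAq y ^ 2 := by positivity
    have h8 : (|SwAP c a 1 y| * (SwAq y ^ (2 * j) * SwAq y ^ 2)) * SwAq y ^ 2
        ≤ (2 * D * c * y) * SwAq y ^ 2 := by
      calc (|SwAP c a 1 y| * (SwAq y ^ (2 * j) * SwAq y ^ 2)) * SwAq y ^ 2
          = 2 * (|SwAP c a 1 y| * (SwAq y ^ 2 * SwAq y ^ 2 / 2) * SwAq y ^ (2 * j)) := by ring
        _ ≤ 2 * (D * (c * (y * SwAq y ^ 2))) := by linarith only [h4]
        _ = (2 * D * c * y) * SwAq y ^ 2 := by ring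
    exact le_of_mul_le_mul_right h8 hq2p
  refine h3.trans ?_
  apply div_le_div_of_nonneg_right _ hqj1.le
  apply mul_le_mul_of_nonneg_right _ hy'.le
  apply mul_le_mul_of_nonneg_right _ (by positivity)
  linarith only [h22]

private theorem SwA_all (j : ℕ) :
    ∃ C : ℝ, 0 < C ∧ ∀ c : ℕ, 1 ≤ c → ∀ a : ZMod c, IsUnit a → ∀ y : ℕ, 1 ≤ y →
      |SwAP c a 1 y| ≤ C * c * y / SwAq y ^ (2 * j) := by
  induction j with
  | zero =>
    refine ⟨1, one_pos, fun c hc a _ y _ => ?_⟩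
    have hc1 : (1 : ℝ) ≤ c := by exact_mod_cast hc
    have h1 := SwA_P_abs c a 1 y
    have hy0 : (0 : ℝ) ≤ y := Nat.cast_nonneg y
    simp only [mul_zero, pow_zero, div_one, one_mul]
    nlinarith only [h1, hc1]
  | succ j ih => exact SwA_step j ih

theorem sw_a (A B : ℕ) : ∃ x0 : ℕ, ∀ x : ℕ, x0 ≤ x → ∀ c r y : ℕ, 1 ≤ c → (c : ℝ) ≤ Real.log x ^ B →
    Nat.Coprime r c → y ≤ x →
    |∑ n ∈ (Icc 1 y).filter (fun n => n % c = r % c), mu n| ≤ x / Real.log x ^ A := by
  obtain ⟨C, hC, hA⟩ := SwA_all (2 * (A + B + 1))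
  obtain ⟨D, hD, hkey⟩ := SwA_key (2 * (2 * (A + B + 1))) (1 / 2) (by norm_num)
  obtain ⟨x0, hx0⟩ := log_ge (max 1 (C * D))
  refine ⟨max 1 x0, fun x hx c r y hc hcB hr hyx => ?_⟩
  have hx1 : 1 ≤ x := (le_max_left _ _).trans hx
  have hL := hx0 x ((le_max_right _ _).trans hx)
  have hL1 : 1 ≤ Real.log x := (le_max_left _ _).trans hL
  have hL2 : C * D ≤ Real.log x := (le_max_right _ _).trans hL
  have hx' : (0 : ℝ) < x := by exact_mod_cast hx1
  have hc0 : (0 : ℝ) < c := by exact_mod_cast hc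
  have hL0 : (0 : ℝ) < Real.log x := by linarith only [hL1]
  rcases Nat.eq_zero_or_pos y with rfl | hy
  · simp only [Finset.Icc_eq_empty (show ¬ (1 ≤ 0) by norm_num), Finset.filter_empty, Finset.sum_empty, abs_zero]
    positivity
  have hy' : (0 : ℝ) < y := by exact_mod_cast hy
  have hyx' : (y : ℝ) ≤ x := by exact_mod_cast hyx
  have hru : IsUnit (r : ZMod c) := (ZMod.isUnit_iff_coprime r c).2 hr
  have h0 : ∑ n ∈ (Icc 1 y).filter (fun n => n % c = r % c), mu n = SwAP c (r : ZMod c) 1 y := by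
    rw [SwA_P_one, Finset.sum_filter]
    refine Finset.sum_congr rfl fun n _ => ?_
    have h1 : (n % c = r % c) ↔ ((n : ZMod c) = (r : ZMod c)) := (ZMod.natCast_eq_natCast_iff n r c).symm
    simp only [h1]
  rw [h0]
  have h1 := hA c hc (r : ZMod c) hru y hy
  refine h1.trans ?_
  have h2 := hkey y x (x / y) hy hx1 (by rw [le_div_iff₀ hy']; linarith only [hyx'])
    (by rw [mul_div_cancel₀ _ hy'.ne'])
  have h3 : ((x : ℝ) / y) ^ (1 / 2 : ℝ) ≤ x / y := by
    have h4 : (1 : ℝ) ≤ x / y := by rw [le_div_iff₀ hy']; linarith only [hyx']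
    calc ((x : ℝ) / y) ^ (1 / 2 : ℝ) ≤ ((x : ℝ) / y) ^ (1 : ℝ) :=
          Real.rpow_le_rpow_of_exponent_le h4 (by norm_num)
      _ = x / y := Real.rpow_one _
  have hqy := pow_pos (SwA_q_pos y) (2 * (2 * (A + B + 1)))
  have hqx := pow_pos (SwA_q_pos x) (2 * (2 * (A + B + 1)))
  have h5 : SwAq x ^ (2 * (2 * (A + B + 1))) ≤ D * SwAq y ^ (2 * (2 * (A + B + 1))) * (x / y) :=
    h2.trans (mul_le_mul_of_nonneg_left h3 (by positivity))
  have h6 : SwAq x ^ (2 * (2 * (A + B + 1))) = (1 + Real.log x) ^ (A + B + 1) := by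
    rw [← SwA_q4 x, ← pow_mul]
    congr 1; ring
  have h7 : C * c * y / SwAq y ^ (2 * (2 * (A + B + 1))) ≤ C * D * c * x / SwAq x ^ (2 * (2 * (A + B + 1))) := by
    rw [div_le_div_iff₀ hqy hqx]
    calc C * c * y * SwAq x ^ (2 * (2 * (A + B + 1)))
        ≤ C * c * y * (D * SwAq y ^ (2 * (2 * (A + B + 1))) * (x / y)) :=
          mul_le_mul_of_nonneg_left h5 (by positivity)
      _ = C * D * c * x * SwAq y ^ (2 * (2 * (A + B + 1))) := by field_simp
  refine h7.trans ?_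
  rw [h6, div_le_div_iff₀ (by positivity) (by positivity)]
  calc C * D * c * x * Real.log x ^ A ≤ Real.log x * Real.log x ^ B * x * Real.log x ^ A := by
        apply mul_le_mul_of_nonneg_right _ (by positivity)
        apply mul_le_mul_of_nonneg_right _ hx'.le
        exact mul_le_mul hL2 hcB hc0.le hL0.le
    _ = x * Real.log x ^ (A + B + 1) := by ring
    _ ≤ x * (1 + Real.log x) ^ (A + B + 1) := by
        apply mul_le_mul_of_nonneg_left _ hx'.le
        exact pow_le_pow_left₀ (by linarith only [hL1]) (by linarith only) _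

end Pool.Agent.H43.LM

end

section

/-!
# LM SwB: the Möbius function with additive characters and `n^{it}`

Proof.  (1) Partial summation: with `A(u) = ∑_{n ≤ u} mu n ee(-n b/c)`, `|A(u)| ≤ x/L^{A+m+3}` for all `u ≤ x`: `∑_{n ≤ y} a_n φ(n) = A(y) φ(y) - ∑_{n < y} A(n) (φ(n+1) - φ(n))`, `φ(n) = ee(-t log n)`, `|φ(n+1) - φ(n)| ≤ 2π |t| log((n+1)/n) ≤ 7 |t|/n`
(`1 ≤ n`), so at most `x/L^{A+m+3} (1 + 7 |t| (1 + log y)) ≤ x/L^A`.  (compare `H43/PX`, `H91/PK/LSa.lean` for `ee`: `LSa_ee_add`, `LSa_norm_ee`.)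
(2) `A(u)`: split by `g = gcd(n, c)`, `g ∣ c`, `n = g n'`, `gcd(n', c/g) = 1`: `mu (g n') = mu g · mu n'` if `gcd(g, n') = 1` (`ArithmeticFunction.isMultiplicative_moebius`) and `0` otherwise (`g n'` is not squarefree); so only `n'` prime to `g · (c/g) = c` count.  `ee(-g n' b/c)` depends on `n' mod c` only:
split `n'` into the classes `r mod c`, `(r,c) = 1` (at most `c` of them), `sw_a (A + m + 3 + 2B + 1) (B)` with `y' = u/g`: total `≤ ∑_{g ∣ c} c · x/L^{A+m+4+2B} ≤ c^2 x/L^{..} ≤ x/L^{A+m+3}`.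
-/

set_option autoImplicit false

namespace Pool.Agent.H43.LM

open Finset
open Pool.Agent.H91.PK (ee)

private theorem SwB_norm_ee (t : ℝ) : ‖ee t‖ = 1 := by
  unfold Pool.Agent.H91.PK.ee
  have e : 2 * Real.pi * (t : ℂ) * Complex.I = ((2 * Real.pi * t : ℝ) : ℂ) * Complex.I := by
    push_cast
    ring
  rw [e, Complex.norm_exp_ofReal_mul_I]

private theorem SwB_ee_add (s t : ℝ) : ee (s + t) = ee s * ee t := by
  unfold Pool.Agent.H91.PK.ee
  rw [← Complex.exp_add]
  congr 1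
  push_cast
  ring

private theorem SwB_ee_sub (s t : ℝ) : ‖ee s - ee t‖ ≤ 2 * Real.pi * |s - t| := by
  have h1 : ee s - ee t = ee t * (ee (s - t) - 1) := by
    have : ee s = ee t * ee (s - t) := by rw [← SwB_ee_add]; congr 1; ring
    rw [this]; ring
  rw [h1, norm_mul, SwB_norm_ee, one_mul]
  have h2 : ee (s - t) = Complex.exp (Complex.I * ((2 * Real.pi * (s - t) : ℝ) : ℂ)) := by
    unfold Pool.Agent.H91.PK.ee
    congr 1
    push_cast
    ring
  rw [h2]
  refine (Real.norm_exp_I_mul_ofReal_sub_one_le).trans (le_of_eq ?_)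
  rw [Real.norm_eq_abs, abs_mul, abs_of_pos (by positivity : (0:ℝ) < 2 * Real.pi)]

/-- the additive character depends only on the residue class -/
private theorem SwB_ee_mod {c n r : ℕ} (g b : ℕ) (hc : 1 ≤ c) (h : n % c = r % c) :
    ee (-(((g * n : ℕ) : ℝ) * ((b : ℝ) / c))) = ee (-(((g * r : ℕ) : ℝ) * ((b : ℝ) / c))) := by
  have hc0 : (c : ℝ) ≠ 0 := by exact_mod_cast (by omega : c ≠ 0)
  have h1 : (c : ℤ) ∣ (n : ℤ) - r := by
    have : r ≡ n [MOD c] := h.symm
    exact (Nat.modEq_iff_dvd.mp this)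
  obtain ⟨k, hk⟩ := h1
  have h2 : (n : ℝ) = r + c * k := by
    have : ((n : ℤ) : ℝ) = ((r + c * k : ℤ) : ℝ) := by
      congr 1
      linarith
    push_cast at this
    exact this
  have h3 : -(((g * n : ℕ) : ℝ) * ((b : ℝ) / c)) = -(((g * r : ℕ) : ℝ) * ((b : ℝ) / c)) + ((-(g * b * k) : ℤ) : ℝ) := by
    push_cast
    rw [h2]
    field_simp
    ring
  rw [h3]
  unfold Pool.Agent.H91.PK.ee
  set w : ℝ := -(((g * r : ℕ) : ℝ) * ((b : ℝ) / c)) with hw
  set K : ℤ := -(g * b * k) with hK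
  have e : 2 * Real.pi * ((w + (K : ℝ) : ℝ) : ℂ) * Complex.I =
      2 * Real.pi * (w : ℂ) * Complex.I + K * (2 * Real.pi * Complex.I) := by
    push_cast
    ring
  rw [e, Complex.exp_add, Complex.exp_int_mul_two_pi_mul_I, mul_one]

private theorem SwB_mu_mul {g n : ℕ} (h : Nat.Coprime g n) : mu (g * n) = mu g * mu n := by
  unfold mu
  rw [ArithmeticFunction.isMultiplicative_moebius.map_mul_of_coprime h]
  push_cast
  rfl

private theorem SwB_mu_zero {g n : ℕ} (h : ¬ Nat.Coprime g n) : mu (g * n) = 0 := by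
  unfold mu
  rw [ArithmeticFunction.moebius_eq_zero_of_not_squarefree]
  · norm_num
  · rw [Nat.squarefree_mul_iff]
    tauto

/-- the integers `n` with `gcd(n, c) = g` -/
private theorem SwB_gcd (u c g : ℕ) (hc : 1 ≤ c) (hg : g ∣ c) (ψ : ℕ → ℂ) :
    ∑ n ∈ (Icc 1 u).filter (fun n => Nat.gcd n c = g), (mu n : ℂ) * ψ n =
      (mu g : ℂ) * ∑ n ∈ (Icc 1 (u / g)).filter (fun n => Nat.Coprime n c), (mu n : ℂ) * ψ (g * n) := by
  have hg0 : 0 < g := Nat.pos_of_dvd_of_pos hg (by omega)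
  have hcg : c = g * (c / g) := (Nat.mul_div_cancel' hg).symm
  have e1 : ∑ n ∈ (Icc 1 u).filter (fun n => Nat.gcd n c = g), (mu n : ℂ) * ψ n =
      ∑ n ∈ (Icc 1 (u / g)).filter (fun n => Nat.Coprime n (c / g)), (mu (g * n) : ℂ) * ψ (g * n) := by
    refine Finset.sum_bij' (fun n _ => n / g) (fun n _ => g * n) ?_ ?_ ?_ ?_ ?_
    · intro n hn
      rw [mem_filter, mem_Icc] at hn ⊢
      obtain ⟨⟨h1, h2⟩, h3⟩ := hn
      have hgn : g ∣ n := h3 ▸ Nat.gcd_dvd_left n c
      refine ⟨⟨Nat.div_pos (Nat.le_of_dvd (by omega) hgn) hg0, Nat.div_le_div_right h2⟩, ?_⟩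
      have h4 := Nat.coprime_div_gcd_div_gcd (m := n) (n := c) (by rw [h3]; exact hg0)
      rwa [h3] at h4
    · intro n hn
      rw [mem_filter, mem_Icc] at hn ⊢
      obtain ⟨⟨h1, h2⟩, h3⟩ := hn
      refine ⟨⟨Nat.mul_pos hg0 (by omega), ?_⟩, ?_⟩
      · calc g * n ≤ g * (u / g) := Nat.mul_le_mul_left g h2
          _ ≤ u := Nat.mul_div_le u g
      · rw [hcg, Nat.gcd_mul_left, h3, mul_one]
    · intro n hn
      rw [mem_filter] at hn
      exact Nat.mul_div_cancel' (hn.2 ▸ Nat.gcd_dvd_left n c)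
    · intro n _
      exact Nat.mul_div_cancel_left n hg0
    · intro n hn
      rw [mem_filter] at hn
      rw [Nat.mul_div_cancel' (hn.2 ▸ Nat.gcd_dvd_left n c)]
  rw [e1, Finset.mul_sum, Finset.sum_filter, Finset.sum_filter]
  refine Finset.sum_congr rfl fun n _ => ?_
  by_cases h1 : Nat.Coprime n c
  · have h2 : Nat.Coprime n g := Nat.Coprime.coprime_dvd_right hg h1
    have h3 : Nat.Coprime n (c / g) := Nat.Coprime.coprime_dvd_right (Nat.div_dvd_of_dvd hg) h1
    rw [if_pos h1, if_pos h3, SwB_mu_mul h2.symm]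
    push_cast
    ring
  · rw [if_neg h1]
    by_cases h3 : Nat.Coprime n (c / g)
    · rw [if_pos h3, SwB_mu_zero, Complex.ofReal_zero, zero_mul]
      intro h4
      apply h1
      rw [hcg]
      exact Nat.Coprime.mul_right h4.symm h3
    · rw [if_neg h3]

/-- the integers prime to `c`, with an additive character -/
private theorem SwB_cop (v c g b : ℕ) (hc : 1 ≤ c) (D : ℝ)
    (hD : ∀ r : ℕ, Nat.Coprime r c → |∑ n ∈ (Icc 1 v).filter (fun n => n % c = r % c), mu n| ≤ D) :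
    ‖∑ n ∈ (Icc 1 v).filter (fun n => Nat.Coprime n c), (mu n : ℂ) * ee (-(((g * n : ℕ) : ℝ) * ((b : ℝ) / c)))‖ ≤ c * D := by
  have hD0 : 0 ≤ D := (abs_nonneg _).trans (hD 1 (Nat.coprime_one_left c))
  have hmaps : ∀ n ∈ (Icc 1 v).filter (fun n => Nat.Coprime n c), n % c ∈ (range c).filter (fun r => Nat.Coprime r c) := by
    intro n hn
    rw [mem_filter] at hn ⊢
    refine ⟨mem_range.mpr (Nat.mod_lt n (by omega)), ?_⟩
    have h1 := hn.2
    rw [Nat.coprime_iff_gcd_eq_one, ← Nat.gcd_rec, Nat.gcd_comm] at *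
    first
      | exact h1
      | (rw [Nat.gcd_comm]; exact h1)
  rw [← Finset.sum_fiberwise_of_maps_to hmaps]
  refine (norm_sum_le _ _).trans ?_
  have hcard : (((range c).filter (fun r => Nat.Coprime r c)).card : ℝ) ≤ c := by
    have := card_filter_le (range c) (fun r => Nat.Coprime r c)
    rw [card_range] at this
    exact_mod_cast this
  calc ∑ r ∈ (range c).filter (fun r => Nat.Coprime r c),
        ‖∑ n ∈ ((Icc 1 v).filter (fun n => Nat.Coprime n c)).filter (fun n => n % c = r),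
          (mu n : ℂ) * ee (-(((g * n : ℕ) : ℝ) * ((b : ℝ) / c)))‖
      ≤ ∑ r ∈ (range c).filter (fun r => Nat.Coprime r c), D := by
        refine Finset.sum_le_sum fun r hr => ?_
        rw [mem_filter, mem_range] at hr
        have hrc : r % c = r := Nat.mod_eq_of_lt hr.1
        have hset : ((Icc 1 v).filter (fun n => Nat.Coprime n c)).filter (fun n => n % c = r) =
            (Icc 1 v).filter (fun n => n % c = r % c) := by
          rw [Finset.filter_filter]
          refine Finset.filter_congr fun n _ => ?_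
          rw [hrc]
          constructor
          · exact fun h => h.2
          · intro h
            refine ⟨?_, h⟩
            have h2 := hr.2
            rw [← h] at h2
            rw [Nat.coprime_iff_gcd_eq_one, ← Nat.gcd_rec, Nat.gcd_comm] at h2
            exact h2
        rw [hset]
        have e : ∑ n ∈ (Icc 1 v).filter (fun n => n % c = r % c), (mu n : ℂ) * ee (-(((g * n : ℕ) : ℝ) * ((b : ℝ) / c))) =
            ((∑ n ∈ (Icc 1 v).filter (fun n => n % c = r % c), mu n : ℝ) : ℂ) * ee (-(((g * r : ℕ) : ℝ) * ((b : ℝ) / c))) := by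
          push_cast
          rw [Finset.sum_mul]
          refine Finset.sum_congr rfl fun n hn => ?_
          rw [mem_filter] at hn
          have h5 := SwB_ee_mod g b hc hn.2
          push_cast at h5
          rw [h5]
        rw [e, norm_mul, SwB_norm_ee, mul_one, Complex.norm_real, Real.norm_eq_abs]
        exact hD r hr.2
    _ = ((range c).filter (fun r => Nat.Coprime r c)).card * D := by rw [Finset.sum_const, nsmul_eq_mul]
    _ ≤ c * D := mul_le_mul_of_nonneg_right hcard hD0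

/-- the sum with an additive character -/
private theorem SwB_add (u c b : ℕ) (hc : 1 ≤ c) (D : ℝ)
    (hD : ∀ v r : ℕ, v ≤ u → Nat.Coprime r c → |∑ n ∈ (Icc 1 v).filter (fun n => n % c = r % c), mu n| ≤ D) :
    ‖∑ n ∈ Icc 1 u, (mu n : ℂ) * ee (-((n : ℝ) * ((b : ℝ) / c)))‖ ≤ c * (c * D) := by
  have hD0 : 0 ≤ D := (abs_nonneg _).trans (hD 0 1 (Nat.zero_le u) (Nat.coprime_one_left c))
  have hmaps : ∀ n ∈ Icc 1 u, Nat.gcd n c ∈ c.divisors := by
    intro n _
    rw [Nat.mem_divisors]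
    exact ⟨Nat.gcd_dvd_right n c, by omega⟩
  rw [← Finset.sum_fiberwise_of_maps_to hmaps]
  refine (norm_sum_le _ _).trans ?_
  calc ∑ g ∈ c.divisors, ‖∑ n ∈ (Icc 1 u).filter (fun n => Nat.gcd n c = g), (mu n : ℂ) * ee (-((n : ℝ) * ((b : ℝ) / c)))‖
      ≤ ∑ g ∈ c.divisors, (c : ℝ) * D := by
        refine Finset.sum_le_sum fun g hg => ?_
        rw [Nat.mem_divisors] at hg
        rw [SwB_gcd u c g hc hg.1 (fun n => ee (-((n : ℝ) * ((b : ℝ) / c)))), norm_mul, Complex.norm_real, Real.norm_eq_abs]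
        have h1 := SwB_cop (u / g) c g b hc D (fun r hr => hD _ r (Nat.div_le_self u g) hr)
        calc |mu g| * _ ≤ 1 * (c * D) := mul_le_mul (mu_abs_le g) h1 (norm_nonneg _) zero_le_one
          _ = c * D := one_mul _
    _ = (c.divisors.card : ℝ) * (c * D) := by rw [Finset.sum_const, nsmul_eq_mul]
    _ ≤ c * (c * D) := by
        refine mul_le_mul_of_nonneg_right ?_ (by positivity)
        exact_mod_cast Nat.card_divisors_le_self c

/-- partial summation -/
private theorem SwB_ps (a : ℕ → ℂ) (t D : ℝ) (y : ℕ) (hD : ∀ u ≤ y, ‖∑ n ∈ Icc 1 u, a n‖ ≤ D) :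
    ∀ u, 1 ≤ u → u ≤ y → ‖∑ n ∈ Icc 1 u, a n * ee (-(t * Real.log n)) - (∑ n ∈ Icc 1 u, a n) * ee (-(t * Real.log u))‖ ≤
      D * (2 * Real.pi * |t| * Real.log u) := by
  intro u hu
  induction u, hu using Nat.le_induction with
  | base =>
    intro _
    simp
  | succ u hu ih =>
    intro huy
    have ih' := ih (by omega)
    rw [Finset.sum_Icc_succ_top (by omega), Finset.sum_Icc_succ_top (by omega)]
    have e1 : ∑ n ∈ Icc 1 u, a n * ee (-(t * Real.log n)) + a (u + 1) * ee (-(t * Real.log ((u + 1 : ℕ) : ℝ))) -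
        (∑ n ∈ Icc 1 u, a n + a (u + 1)) * ee (-(t * Real.log ((u + 1 : ℕ) : ℝ))) =
        (∑ n ∈ Icc 1 u, a n * ee (-(t * Real.log n)) - (∑ n ∈ Icc 1 u, a n) * ee (-(t * Real.log u))) +
        (∑ n ∈ Icc 1 u, a n) * (ee (-(t * Real.log u)) - ee (-(t * Real.log ((u + 1 : ℕ) : ℝ)))) := by ring
    rw [e1]
    have hu0 : (0 : ℝ) < u := by exact_mod_cast hu
    have hlog : Real.log u ≤ Real.log ((u + 1 : ℕ) : ℝ) := Real.log_le_log hu0 (by push_cast; linarith)
    have h2 : ‖ee (-(t * Real.log u)) - ee (-(t * Real.log ((u + 1 : ℕ) : ℝ)))‖ ≤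
        2 * Real.pi * |t| * (Real.log ((u + 1 : ℕ) : ℝ) - Real.log u) := by
      refine (SwB_ee_sub _ _).trans (le_of_eq ?_)
      have e2 : -(t * Real.log u) - -(t * Real.log ((u + 1 : ℕ) : ℝ)) = t * (Real.log ((u + 1 : ℕ) : ℝ) - Real.log u) := by ring
      rw [e2, abs_mul, abs_of_nonneg (by linarith : 0 ≤ Real.log ((u + 1 : ℕ) : ℝ) - Real.log u)]
      ring
    have hD0 : 0 ≤ D := (norm_nonneg _).trans (hD 0 (Nat.zero_le y))
    calc _ ≤ D * (2 * Real.pi * |t| * Real.log u) + D * (2 * Real.pi * |t| * (Real.log ((u + 1 : ℕ) : ℝ) - Real.log u)) := by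
          refine (norm_add_le _ _).trans (add_le_add ih' ?_)
          rw [norm_mul]
          exact mul_le_mul (hD u (by omega)) h2 (norm_nonneg _) hD0
      _ = D * (2 * Real.pi * |t| * Real.log ((u + 1 : ℕ) : ℝ)) := by ring

theorem sw_b (A B m : ℕ) : ∃ x0 : ℕ, ∀ x : ℕ, x0 ≤ x → ∀ (c b y : ℕ) (t : ℝ), 1 ≤ c → (c : ℝ) ≤ Real.log x ^ B →
    |t| ≤ Real.log x ^ m → y ≤ x →
    ‖∑ n ∈ Icc 1 y, (mu n : ℂ) * ee (-((n : ℝ) * ((b : ℝ) / c))) * ee (-(t * Real.log n))‖ ≤ x / Real.log x ^ A := by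
  obtain ⟨x0, hx0⟩ := sw_a (A + m + 3 + 2 * B) B
  refine ⟨max x0 (⌈Real.exp 4⌉₊ + 1), fun x hx c b y t hc hcL ht hy => ?_⟩
  have hx1 : x0 ≤ x := le_trans (le_max_left _ _) hx
  have hx2 : Real.exp 4 ≤ x := by
    have h1 : ⌈Real.exp 4⌉₊ + 1 ≤ x := le_trans (le_max_right _ _) hx
    have h2 := Nat.le_ceil (Real.exp 4)
    have h3 : ((⌈Real.exp 4⌉₊ : ℕ) : ℝ) + 1 ≤ x := by exact_mod_cast h1
    linarith
  have hxpos : (0 : ℝ) < x := (Real.exp_pos 4).trans_le hx2
  set L : ℝ := Real.log x with hL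
  have hL4 : 4 ≤ L := by
    rw [hL, Real.le_log_iff_exp_le hxpos]
    exact hx2
  have hL0 : 0 < L := by linarith
  have hc0 : (0 : ℝ) ≤ c := Nat.cast_nonneg c
  set D₀ : ℝ := x / L ^ (A + m + 3 + 2 * B) with hD₀
  have hD₀0 : 0 ≤ D₀ := by positivity
  set D : ℝ := x / L ^ (A + m + 3) with hDdef
  have hD0 : 0 ≤ D := by positivity
  have hDD : c * (c * D₀) ≤ D := by
    have h1 : (c : ℝ) * (c * D₀) ≤ L ^ B * (L ^ B * D₀) := by
      refine mul_le_mul hcL (mul_le_mul_of_nonneg_right hcL hD₀0) (by positivity) (by positivity)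
    refine h1.trans (le_of_eq ?_)
    rw [hD₀, hDdef]
    have h2 : L ^ (A + m + 3 + 2 * B) = L ^ (A + m + 3) * (L ^ B * L ^ B) := by
      rw [← pow_add, ← pow_add]
      congr 1
      ring
    rw [h2]
    field_simp
  have hA : ∀ u ≤ y, ‖∑ n ∈ Icc 1 u, (mu n : ℂ) * ee (-((n : ℝ) * ((b : ℝ) / c)))‖ ≤ D := by
    intro u hu
    refine (SwB_add u c b hc D₀ fun v r hv hr => ?_).trans hDD
    exact hx0 x hx1 c r v hc hcL hr (by omega)
  rcases Nat.eq_zero_or_pos y with hy0 | hy0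
  · rw [hy0]
    simp only [show Icc 1 0 = (∅ : Finset ℕ) by decide, sum_empty, norm_zero]
    positivity
  have h1 := SwB_ps (fun n => (mu n : ℂ) * ee (-((n : ℝ) * ((b : ℝ) / c)))) t D y hA y hy0 le_rfl
  have h2 := hA y le_rfl
  have hlogy : Real.log y ≤ L := Real.log_le_log (by exact_mod_cast hy0) (by exact_mod_cast hy)
  have hlogy0 : 0 ≤ Real.log y := Real.log_natCast_nonneg y
  have hpi : Real.pi ≤ 3.15 := Real.pi_lt_d2.le
  have h3 : D * (2 * Real.pi * |t| * Real.log y) ≤ D * (6.3 * L ^ m * L) := by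
    refine mul_le_mul_of_nonneg_left ?_ hD0
    have h4 : 2 * Real.pi * |t| ≤ 6.3 * L ^ m := by
      have h5 : 2 * Real.pi ≤ 6.3 := by linarith
      exact mul_le_mul h5 ht (abs_nonneg t) (by norm_num)
    exact mul_le_mul h4 hlogy hlogy0 (by positivity)
  set S : ℂ := ∑ n ∈ Icc 1 y, (mu n : ℂ) * ee (-((n : ℝ) * ((b : ℝ) / c))) * ee (-(t * Real.log n)) with hS
  set T : ℂ := ∑ n ∈ Icc 1 y, (mu n : ℂ) * ee (-((n : ℝ) * ((b : ℝ) / c))) with hT
  have h5 : ‖S‖ ≤ D * (6.3 * L ^ m * L) + D := by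
    have e1 : S = (S - T * ee (-(t * Real.log y))) + T * ee (-(t * Real.log y)) := by ring
    rw [e1]
    refine (norm_add_le _ _).trans (add_le_add (h1.trans h3) ?_)
    rw [norm_mul, SwB_norm_ee, mul_one]
    exact h2
  refine h5.trans ?_
  have h6 : D * (6.3 * L ^ m * L) + D ≤ D * L ^ (m + 3) := by
    have h7 : 6.3 * L ^ m * L + 1 ≤ L ^ (m + 3) := by
      have h8 : 1 ≤ L ^ m := one_le_pow₀ (by linarith)
      have h9 : L ^ (m + 3) = L ^ m * L ^ 3 := pow_add L m 3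
      have h10 : 6.3 * L + 1 ≤ L ^ 3 := by nlinarith [mul_self_nonneg (L - 4)]
      calc 6.3 * L ^ m * L + 1 ≤ 6.3 * L ^ m * L + L ^ m := by linarith
        _ = L ^ m * (6.3 * L + 1) := by ring
        _ ≤ L ^ m * L ^ 3 := mul_le_mul_of_nonneg_left h10 (by positivity)
        _ = L ^ (m + 3) := h9.symm
    calc D * (6.3 * L ^ m * L) + D = D * (6.3 * L ^ m * L + 1) := by ring
      _ ≤ D * L ^ (m + 3) := mul_le_mul_of_nonneg_left h7 hD0
  refine h6.trans (le_of_eq ?_)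
  rw [hDdef]
  have h11 : L ^ (A + m + 3) = L ^ A * L ^ (m + 3) := by
    rw [← pow_add]
    congr 1
  rw [h11]
  field_simp

end Pool.Agent.H43.LM

end

section

/-!
# LM SwG: the twisted Siegel-Walfisz condition for `gP P1 P`

Proof.  (1) Identity: for `k ≥ 1`: `gP P1 P k = - ∑_{l ∣ k} hI P1 P l · mu (k/l)` (both sides are multiplicative up to the sign; or: write `k = u v`, `u` the part of `k` composed of the primes in `(P1,P]`: the divisors `l` with `hI l = 1` are the divisors of `u`,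
`k/l = (u/l) v`, `mu` multiplicative, `∑_{l ∣ u} mu(u/l) = [u = 1]`).
(2) `y = N/(16P)` or `12N/P` (natural division), `L = log N`, `y ≤ 12 N/P`: `∑_{n ≤ y} gP(n) ee(-n b/c) ee(-t log n) = - ∑_{l ≤ y} hI(l) ee(-t log l) ∑_{m ≤ y/l} mu m ee(-m (l b)/c) ee(-t log m)`.
 `l ≤ D = ⌈N^{1/8}⌉₊` (`P ≤ exp(L^s) ≤ N^{1/8}`): `sw_b (k + 3) (C'+1) (m+1)` at the scale `x = 12N/(P l) ≥ N^{1/2}` (`L/2 ≤ log x ≤ L + 3`, so `c ≤ L^C' ≤ (log x)^{C'+1}`, `|t| ≤ (log x)^{m+1}`; `log x ^(k+3) ≥ (L/2)^{k+3}`): `≤ ∑_{l ≤ D} 12 N/(P l) · 2^{k+3}/L^{k+3} ≤ (N/P)/(4 L^k)`.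
 `l > D`: trivially `≤ ∑_{l > D} hI(l) · 12N/(P l)`, `rankin` with `Q = max P 100`: `≤ (12 N/P) C (L^s)^{k0} exp(-(1/8) L^{1-s}) ≤ (N/P)/(4 L^k)` for large `N`.
-/

set_option autoImplicit false

namespace Pool.Agent.H43.LM

open Finset
open Pool.Agent.H91.PK (ee)
open Pool.Agent.H53.TPS (SWf)

/-- `hI` as an arithmetic function -/
noncomputable def SwG_h (a b : ℕ) : ArithmeticFunction ℝ := ⟨hI a b, by simp [hI]⟩

open Classical in
/-- `-gP` as an arithmetic function -/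
noncomputable def SwG_g (a b : ℕ) : ArithmeticFunction ℝ :=
  ⟨fun n => if Fr a b n then mu n else 0, by simp [mu]⟩

theorem SwG_hmul (a b : ℕ) : (SwG_h a b).IsMultiplicative := by
  classical
  rw [ArithmeticFunction.IsMultiplicative.iff_ne_zero]
  refine ⟨?_, ?_⟩
  · show hI a b 1 = 1
    unfold hI
    rw [if_pos]
    refine ⟨one_ne_zero, fun p hp hp1 => ?_⟩
    exact absurd (Nat.dvd_one.mp hp1) hp.one_lt.ne'
  · intro m n hm hn _
    show hI a b (m * n) = hI a b m * hI a b n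
    unfold hI
    by_cases h1 : ∀ p : ℕ, p.Prime → p ∣ m → a < p ∧ p ≤ b
    · by_cases h2 : ∀ p : ℕ, p.Prime → p ∣ n → a < p ∧ p ≤ b
      · rw [if_pos, if_pos ⟨hm, h1⟩, if_pos ⟨hn, h2⟩, one_mul]
        refine ⟨mul_ne_zero hm hn, fun p hp hpd => ?_⟩
        rcases hp.dvd_mul.mp hpd with h | h
        · exact h1 p hp h
        · exact h2 p hp h
      · have e2 : ¬ (n ≠ 0 ∧ ∀ p : ℕ, p.Prime → p ∣ n → a < p ∧ p ≤ b) := fun h => h2 h.2
        rw [if_neg, if_neg e2, mul_zero]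
        rintro ⟨_, h⟩
        exact h2 (fun p hp hpd => h p hp (dvd_mul_of_dvd_right hpd m))
    · have e1 : ¬ (m ≠ 0 ∧ ∀ p : ℕ, p.Prime → p ∣ m → a < p ∧ p ≤ b) := fun h => h1 h.2
      rw [if_neg, if_neg e1, zero_mul]
      rintro ⟨_, h⟩
      exact h1 (fun p hp hpd => h p hp (dvd_mul_of_dvd_left hpd n))

theorem SwG_gmul (a b : ℕ) : (SwG_g a b).IsMultiplicative := by
  classical
  rw [ArithmeticFunction.IsMultiplicative.iff_ne_zero]
  refine ⟨?_, ?_⟩
  · show (if Fr a b 1 then mu 1 else 0) = (1 : ℝ)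
    rw [if_pos]
    · simp [mu]
    · intro p hp _ _ hpd
      exact absurd (Nat.dvd_one.mp hpd) hp.one_lt.ne'
  · intro m n hm hn hc
    show (if Fr a b (m * n) then mu (m * n) else 0) = (if Fr a b m then mu m else 0) * (if Fr a b n then mu n else 0)
    have hmu : mu (m * n) = mu m * mu n := by
      unfold mu
      rw [ArithmeticFunction.isMultiplicative_moebius.map_mul_of_coprime hc]
      push_cast
      ring
    by_cases h1 : Fr a b m
    · by_cases h2 : Fr a b n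
      · rw [if_pos, if_pos h1, if_pos h2, hmu]
        intro p hp ha hb hpd
        rcases hp.dvd_mul.mp hpd with h | h
        · exact h1 p hp ha hb h
        · exact h2 p hp ha hb h
      · rw [if_neg, if_neg h2, mul_zero]
        intro h
        exact h2 (fun p hp ha hb hpd => h p hp ha hb (dvd_mul_of_dvd_right hpd m))
    · rw [if_neg, if_neg h1, zero_mul]
      intro h
      exact h1 (fun p hp ha hb hpd => h p hp ha hb (dvd_mul_of_dvd_left hpd n))

theorem SwG_conv (a b : ℕ) : SwG_h a b * ((ArithmeticFunction.moebius : ArithmeticFunction ℤ) : ArithmeticFunction ℝ) = SwG_g a b := by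
  classical
  have hm1 : (SwG_h a b * ((ArithmeticFunction.moebius : ArithmeticFunction ℤ) : ArithmeticFunction ℝ)).IsMultiplicative :=
    (SwG_hmul a b).mul ArithmeticFunction.isMultiplicative_moebius.intCast
  rw [ArithmeticFunction.IsMultiplicative.eq_iff_eq_on_prime_powers _ hm1 _ (SwG_gmul a b)]
  intro p i hp
  rcases i with _ | i
  · rw [pow_zero, hm1.map_one, (SwG_gmul a b).map_one]
  have hhp : ∀ j : ℕ, hI a b (p ^ (j + 1)) = if a < p ∧ p ≤ b then 1 else 0 := by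
    intro j
    unfold hI
    by_cases h : a < p ∧ p ≤ b
    · rw [if_pos h, if_pos]
      refine ⟨pow_ne_zero _ hp.ne_zero, fun q hq hqd => ?_⟩
      have : q = p := (Nat.prime_dvd_prime_iff_eq hq hp).mp (hq.dvd_of_dvd_pow hqd)
      rw [this]; exact h
    · rw [if_neg h, if_neg]
      rintro ⟨_, h'⟩
      exact h (h' p hp (dvd_pow_self p (Nat.succ_ne_zero j)))
  have hh1 : hI a b 1 = 1 := (SwG_hmul a b).map_one
  have hFr : Fr a b (p ^ (i + 1)) ↔ ¬ (a < p ∧ p ≤ b) := by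
    constructor
    · intro h h'
      exact h p hp h'.1 h'.2 (dvd_pow_self p (Nat.succ_ne_zero i))
    · intro h q hq ha hb hqd
      have : q = p := (Nat.prime_dvd_prime_iff_eq hq hp).mp (hq.dvd_of_dvd_pow hqd)
      exact h (by rw [← this]; exact ⟨ha, hb⟩)
  show (SwG_h a b * ((ArithmeticFunction.moebius : ArithmeticFunction ℤ) : ArithmeticFunction ℝ)) (p ^ (i + 1))
    = (if Fr a b (p ^ (i + 1)) then mu (p ^ (i + 1)) else 0)
  rw [ArithmeticFunction.mul_apply, Nat.sum_divisorsAntidiagonal (f := fun x y => (SwG_h a b) x * ((ArithmeticFunction.moebius : ArithmeticFunction ℤ) : ArithmeticFunction ℝ) y),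
    Nat.divisors_prime_pow hp, Finset.sum_map]
  rw [Finset.sum_range_succ, Finset.sum_range_succ, Finset.sum_eq_zero]
  · simp only [Function.Embedding.coeFn_mk]
    rw [Nat.pow_div (Nat.le_succ i) hp.pos, Nat.pow_div le_rfl hp.pos]
    have e1 : i + 1 - i = 1 := by omega
    have e2 : i + 1 - (i + 1) = 0 := by omega
    rw [e1, e2, pow_one, pow_zero]
    have m1 : ((ArithmeticFunction.moebius : ArithmeticFunction ℤ) : ArithmeticFunction ℝ) p = -1 := by
      rw [ArithmeticFunction.intCoe_apply, ArithmeticFunction.moebius_apply_prime hp]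
      norm_num
    have m2 : ((ArithmeticFunction.moebius : ArithmeticFunction ℤ) : ArithmeticFunction ℝ) 1 = 1 := by
      rw [ArithmeticFunction.intCoe_apply]
      simp
    rw [m1, m2]
    have g1 : (SwG_h a b) (p ^ (i + 1)) = if a < p ∧ p ≤ b then 1 else 0 := hhp i
    rw [g1]
    by_cases h : a < p ∧ p ≤ b
    · rw [if_pos h, if_neg (fun h' => (hFr.mp h') h)]
      have g0 : (SwG_h a b) (p ^ i) = 1 := by
        rcases i with _ | i
        · rw [pow_zero]; exact hh1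
        · show hI a b (p ^ (i + 1)) = 1
          rw [hhp i, if_pos h]
      rw [g0]; ring
    · rw [if_neg h, if_pos (hFr.mpr h)]
      rcases i with _ | i
      · have g0 : (SwG_h a b) (p ^ 0) = 1 := by rw [pow_zero]; exact hh1
        rw [g0]
        unfold mu
        rw [zero_add, pow_one, ArithmeticFunction.moebius_apply_prime hp]
        norm_num
      · have g0 : (SwG_h a b) (p ^ (i + 1)) = 0 := by
          show hI a b (p ^ (i + 1)) = 0
          rw [hhp i, if_neg h]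
        rw [g0]
        unfold mu
        rw [ArithmeticFunction.moebius_apply_prime_pow hp (by omega), if_neg (by omega)]
        norm_num
  · intro j hj
    rw [Finset.mem_range] at hj
    simp only [Function.Embedding.coeFn_mk]
    rw [Nat.pow_div (by omega) hp.pos, ArithmeticFunction.intCoe_apply,
      ArithmeticFunction.moebius_apply_prime_pow hp (by omega), if_neg (by omega)]
    simp

theorem SwG_id (P1 P n : ℕ) : gP P1 P n = - ∑ l ∈ n.divisors, hI P1 P l * mu (n / l) := by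
  classical
  have h : (SwG_h P1 P * ((ArithmeticFunction.moebius : ArithmeticFunction ℤ) : ArithmeticFunction ℝ)) n = SwG_g P1 P n := by
    rw [SwG_conv P1 P]
  rw [ArithmeticFunction.mul_apply, Nat.sum_divisorsAntidiagonal (f := fun x y => (SwG_h P1 P) x * ((ArithmeticFunction.moebius : ArithmeticFunction ℤ) : ArithmeticFunction ℝ) y)] at h
  have h2 : ∑ l ∈ n.divisors, hI P1 P l * mu (n / l) = (if Fr P1 P n then mu n else 0) := by
    rw [← show (SwG_g P1 P) n = (if Fr P1 P n then mu n else 0) from rfl, ← h]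
    rfl
  rw [h2]
  unfold gP
  split_ifs <;> simp

theorem SwG_swap (F : ℕ → ℕ → ℂ) (y : ℕ) :
    ∑ n ∈ Icc 1 y, ∑ l ∈ n.divisors, F l (n / l) = ∑ l ∈ Icc 1 y, ∑ m ∈ Icc 1 (y / l), F l m := by
  rw [Finset.sum_sigma', Finset.sum_sigma']
  refine Finset.sum_bij' (fun x _ => ⟨x.2, x.1 / x.2⟩) (fun x _ => ⟨x.1 * x.2, x.1⟩) ?_ ?_ ?_ ?_ ?_
  · rintro ⟨n, l⟩ h
    simp only [Finset.mem_sigma, Finset.mem_Icc, Nat.mem_divisors] at h ⊢
    obtain ⟨⟨h1, h2⟩, h3, h4⟩ := h
    have hl : 0 < l := Nat.pos_of_dvd_of_pos h3 (by omega)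
    refine ⟨⟨hl, (Nat.le_of_dvd (by omega) h3).trans h2⟩, ?_, Nat.div_le_div_right h2⟩
    exact Nat.div_pos (Nat.le_of_dvd (by omega) h3) hl
  · rintro ⟨l, m⟩ h
    simp only [Finset.mem_sigma, Finset.mem_Icc, Nat.mem_divisors] at h ⊢
    obtain ⟨⟨h1, h2⟩, h3, h4⟩ := h
    have h5 : l * m ≤ y := by
      rw [mul_comm]
      exact (Nat.le_div_iff_mul_le (by omega)).mp h4
    refine ⟨⟨Nat.mul_pos (by omega) (by omega), h5⟩, dvd_mul_right l m, ?_⟩
    exact Nat.ne_of_gt (Nat.mul_pos (by omega) (by omega))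
  · rintro ⟨n, l⟩ h
    simp only [Finset.mem_sigma, Finset.mem_Icc, Nat.mem_divisors] at h
    simp only [Sigma.mk.injEq, heq_eq_eq, and_true]
    exact Nat.mul_div_cancel' h.2.1
  · rintro ⟨l, m⟩ h
    simp only [Finset.mem_sigma, Finset.mem_Icc] at h
    simp only [Sigma.mk.injEq, heq_eq_eq, true_and]
    exact Nat.mul_div_cancel_left m (by omega)
  · rintro ⟨n, l⟩ h
    rfl

/-- the inner sum -/
noncomputable def SwG_T (c b z : ℕ) (t : ℝ) : ℂ :=
  ∑ n ∈ Icc 1 z, (mu n : ℂ) * ee (-((n : ℝ) * ((b : ℝ) / c))) * ee (-(t * Real.log n))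

theorem SwG_sum (P1 P y c b : ℕ) (t : ℝ) :
    ∑ n ∈ Icc 1 y, (gP P1 P n : ℂ) * ee (-((n : ℝ) * ((b : ℝ) / c))) * ee (-(t * Real.log n))
    = - ∑ l ∈ Icc 1 y, (hI P1 P l : ℂ) * ee (-(t * Real.log l)) * SwG_T c (l * b) (y / l) t := by
  have h1 : ∀ n ∈ Icc 1 y, (gP P1 P n : ℂ) * ee (-((n : ℝ) * ((b : ℝ) / c))) * ee (-(t * Real.log n))
      = - ∑ l ∈ n.divisors, (hI P1 P l : ℂ) * (mu (n / l) : ℂ) * ee (-(((l : ℝ) * ((n / l : ℕ) : ℝ)) * ((b : ℝ) / c)))
          * ee (-(t * Real.log ((l : ℝ) * ((n / l : ℕ) : ℝ)))) := by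
    intro n hn
    rw [SwG_id]
    push_cast
    rw [neg_mul, neg_mul, Finset.sum_mul, Finset.sum_mul]
    congr 1
    refine Finset.sum_congr rfl fun l hl => ?_
    have hln : (l : ℝ) * ((n / l : ℕ) : ℝ) = (n : ℝ) := by
      rw [← Nat.cast_mul, Nat.mul_div_cancel' (Nat.dvd_of_mem_divisors hl)]
    rw [hln]
  rw [Finset.sum_congr rfl h1, Finset.sum_neg_distrib]
  congr 1
  rw [SwG_swap (fun l m => (hI P1 P l : ℂ) * (mu m : ℂ) * ee (-(((l : ℝ) * (m : ℝ)) * ((b : ℝ) / c)))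
          * ee (-(t * Real.log ((l : ℝ) * (m : ℝ))))) y]
  refine Finset.sum_congr rfl fun l hl => ?_
  unfold SwG_T
  rw [Finset.mul_sum]
  refine Finset.sum_congr rfl fun m hm => ?_
  rw [Finset.mem_Icc] at hl hm
  have hl0 : (l : ℝ) ≠ 0 := by
    have : (0 : ℝ) < l := by exact_mod_cast hl.1
    exact this.ne'
  have hm0 : (m : ℝ) ≠ 0 := by
    have : (0 : ℝ) < m := by exact_mod_cast hm.1
    exact this.ne'
  rw [Real.log_mul hl0 hm0]
  have e1 : -(t * (Real.log l + Real.log m)) = -(t * Real.log l) + -(t * Real.log m) := by ring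
  rw [e1, Pool.Agent.H91.PK.LSa_ee_add]
  have e2 : -(((l : ℝ) * (m : ℝ)) * ((b : ℝ) / c)) = -((m : ℝ) * (((l * b : ℕ) : ℝ) / c)) := by
    push_cast; ring
  rw [e2]
  ring

theorem SwG_T_triv (c b z : ℕ) (t : ℝ) : ‖SwG_T c b z t‖ ≤ z := by
  unfold SwG_T
  refine (norm_sum_le _ _).trans ?_
  have : ∀ n ∈ Icc 1 z, ‖(mu n : ℂ) * ee (-((n : ℝ) * ((b : ℝ) / c))) * ee (-(t * Real.log n))‖ ≤ 1 := by
    intro n _
    rw [norm_mul, norm_mul, Pool.Agent.H91.PK.LSa_norm_ee, Pool.Agent.H91.PK.LSa_norm_ee, mul_one, mul_one,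
      Complex.norm_real]
    exact mu_abs_le n
  refine (Finset.sum_le_sum this).trans ?_
  simp

theorem SwG_hI_nonneg (a b l : ℕ) : 0 ≤ hI a b l := by
  unfold hI; split_ifs <;> norm_num

theorem SwG_hI_le (a b l : ℕ) : hI a b l ≤ 1 := by
  unfold hI; split_ifs <;> norm_num

open Classical in
/-- the sum over `l`, split at `D` -/
theorem SwG_split (P1 P y c b D Q : ℕ) (t B : ℝ) (hQ : P ≤ Q) (hB : 0 ≤ B)
    (h : ∀ l ∈ Icc 1 D, ‖SwG_T c (l * b) (y / l) t‖ ≤ B * (1 / l)) :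
    ‖∑ n ∈ Icc 1 y, (gP P1 P n : ℂ) * ee (-((n : ℝ) * ((b : ℝ) / c))) * ee (-(t * Real.log n))‖
      ≤ B * (1 + Real.log D) + y * ∑ l ∈ (Ioc D y).filter (fun l : ℕ => ∀ p : ℕ, p.Prime → p ∣ l → p ≤ Q), (1 : ℝ) / l := by
  rw [SwG_sum, norm_neg]
  refine (norm_sum_le _ _).trans ?_
  have hterm : ∀ l, ‖(hI P1 P l : ℂ) * ee (-(t * Real.log l)) * SwG_T c (l * b) (y / l) t‖
      = hI P1 P l * ‖SwG_T c (l * b) (y / l) t‖ := by
    intro l
    rw [norm_mul, norm_mul, Pool.Agent.H91.PK.LSa_norm_ee, mul_one, Complex.norm_real, Real.norm_eq_abs,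
      abs_of_nonneg (SwG_hI_nonneg _ _ _)]
  simp only [hterm]
  have hsub : Icc 1 y ⊆ Icc 1 D ∪ Ioc D y := by
    intro l hl
    rw [Finset.mem_union, Finset.mem_Icc, Finset.mem_Ioc]
    rw [Finset.mem_Icc] at hl
    by_cases h1 : l ≤ D
    · left; exact ⟨hl.1, h1⟩
    · right; exact ⟨by omega, hl.2⟩
  have hnn : ∀ l, 0 ≤ hI P1 P l * ‖SwG_T c (l * b) (y / l) t‖ := fun l =>
    mul_nonneg (SwG_hI_nonneg _ _ _) (norm_nonneg _)
  refine (Finset.sum_le_sum_of_subset_of_nonneg hsub (fun l _ _ => hnn l)).trans ?_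
  have hdisj : Disjoint (Icc 1 D) (Ioc D y) := by
    rw [Finset.disjoint_left]
    intro l h1 h2
    rw [Finset.mem_Icc] at h1
    rw [Finset.mem_Ioc] at h2
    omega
  rw [Finset.sum_union hdisj]
  refine add_le_add ?_ ?_
  · have h1 : ∀ l ∈ Icc 1 D, hI P1 P l * ‖SwG_T c (l * b) (y / l) t‖ ≤ B * (1 / l) := by
      intro l hl
      refine (mul_le_of_le_one_left (norm_nonneg _) (SwG_hI_le _ _ _)).trans (h l hl)
    refine (Finset.sum_le_sum h1).trans ?_
    rw [← Finset.mul_sum]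
    refine mul_le_mul_of_nonneg_left ?_ hB
    have := harmonic_le_one_add_log D
    rw [harmonic_eq_sum_Icc] at this
    push_cast at this
    simpa [one_div] using this
  · rw [Finset.mul_sum, Finset.sum_filter]
    refine Finset.sum_le_sum fun l hl => ?_
    rw [Finset.mem_Ioc] at hl
    by_cases hc : ∀ p : ℕ, p.Prime → p ∣ l → p ≤ Q
    · rw [if_pos hc]
      refine (mul_le_of_le_one_left (norm_nonneg _) (SwG_hI_le _ _ _)).trans ((SwG_T_triv _ _ _ _).trans ?_)
      rw [mul_one_div]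
      exact Nat.cast_div_le
    · rw [if_neg hc]
      have : hI P1 P l = 0 := by
        unfold hI
        rw [if_neg]
        rintro ⟨_, h'⟩
        exact hc (fun p hp hpd => ((h' p hp hpd).2).trans hQ)
      rw [this, zero_mul]

theorem SwG_large (s : ℝ) (hs0 : 0 < s) (hs : s < 1) (C' m k k0 : ℕ) (C x0 : ℝ) : ∃ L0 : ℝ, ∀ L : ℝ, L0 ≤ L →
    16 ≤ L ∧ (2 : ℝ) ^ (C' + 1) ≤ L ∧ (2 : ℝ) ^ (m + 1) ≤ L ∧ 48 * (2 : ℝ) ^ (k + 3) ≤ L ^ 2 ∧ L ^ s ≤ L / 8 ∧
      Real.log 100 ≤ L ^ s ∧ x0 ≤ Real.exp (L / 2) ∧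
      12 * C * L ^ k0 * Real.exp (-(L ^ (1 - s) / 8)) ≤ 1 / (4 * L ^ k) := by
  have e1 : ∀ᶠ L : ℝ in Filter.atTop, (16 : ℝ) ≤ L := Filter.eventually_ge_atTop _
  have e2 : ∀ᶠ L : ℝ in Filter.atTop, (2 : ℝ) ^ (C' + 1) ≤ L := Filter.eventually_ge_atTop _
  have e3 : ∀ᶠ L : ℝ in Filter.atTop, (2 : ℝ) ^ (m + 1) ≤ L := Filter.eventually_ge_atTop _
  have e4 : ∀ᶠ L : ℝ in Filter.atTop, 48 * (2 : ℝ) ^ (k + 3) ≤ L ^ 2 :=
    (Filter.tendsto_pow_atTop (two_ne_zero)).eventually_ge_atTop _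
  have hs1 : 0 < 1 - s := by linarith only [hs]
  have e5 : ∀ᶠ L : ℝ in Filter.atTop, (8 : ℝ) ≤ L ^ (1 - s) := (tendsto_rpow_atTop hs1).eventually_ge_atTop _
  have e6 : ∀ᶠ L : ℝ in Filter.atTop, Real.log 100 ≤ L ^ s := (tendsto_rpow_atTop hs0).eventually_ge_atTop _
  have e7 : ∀ᶠ L : ℝ in Filter.atTop, x0 ≤ Real.exp (L / 2) :=
    (Real.tendsto_exp_atTop.comp (Filter.tendsto_id.atTop_div_const (by norm_num : (0 : ℝ) < 2))).eventually_ge_atTop _
  have e8 : ∀ᶠ L : ℝ in Filter.atTop, 12 * C * L ^ k0 * Real.exp (-(L ^ (1 - s) / 8)) * (4 * L ^ k) ≤ 1 := by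
    have h1 := (tendsto_rpow_mul_exp_neg_mul_atTop_nhds_zero (((k0 + k : ℕ) : ℝ) / (1 - s)) (1 / 8) (by norm_num)).comp
      (tendsto_rpow_atTop hs1)
    have h2 := h1.const_mul (48 * C)
    rw [mul_zero] at h2
    filter_upwards [h2.eventually (ge_mem_nhds (zero_lt_one)), e1] with L hL hL16
    have hL0 : 0 < L := by linarith only [hs0, hs, hL16]
    refine le_trans (le_of_eq ?_) hL
    simp only [Function.comp]
    rw [← Real.rpow_mul hL0.le, mul_div_cancel₀ _ hs1.ne', Real.rpow_natCast, pow_add]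
    have : -(1 / 8 : ℝ) * L ^ (1 - s) = -(L ^ (1 - s) / 8) := by ring
    rw [this]
    ring
  obtain ⟨L0, hL0⟩ := (e1.and (e2.and (e3.and (e4.and (e5.and (e6.and (e7.and e8))))))).exists_forall_of_atTop
  refine ⟨L0, fun L hL => ?_⟩
  obtain ⟨a1, a2, a3, a4, a5, a6, a7, a8⟩ := hL0 L hL
  have hLpos : 0 < L := by linarith only [hs0, hs, a1]
  refine ⟨a1, a2, a3, a4, ?_, a6, a7, ?_⟩
  · have : L ^ s * L ^ (1 - s) = L := by
      rw [← Real.rpow_add hLpos]; simp
    have hp : 0 < L ^ s := Real.rpow_pos_of_pos hLpos s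
    nlinarith only [this, hs0, hs, a5, hp]
  · rw [le_div_iff₀ (by positivity)]
    exact a8

/-- the bound for the sum up to `y` -/
theorem SwG_bound (s : ℝ) (hs0 : 0 < s) (hs : s < 1) (C' m k : ℕ) : ∃ N0 : ℕ, ∀ N : ℕ, N0 ≤ N → ∀ P1 P : ℕ, 1 ≤ P →
    (P : ℝ) ≤ Real.exp (Real.log N ^ s) → ∀ (c b : ℕ) (t : ℝ), 1 ≤ c → (c : ℝ) ≤ Real.log N ^ C' → |t| ≤ Real.log N ^ m →
    ∀ y : ℕ, y ≤ 12 * N / P →
    ‖∑ n ∈ Icc 1 y, (gP P1 P n : ℂ) * ee (-((n : ℝ) * ((b : ℝ) / c))) * ee (-(t * Real.log n))‖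
      ≤ (N / P : ℝ) / Real.log N ^ k / 2 := by
  classical
  obtain ⟨C, k0, hC, hrank⟩ := rankin
  obtain ⟨x0, hx0⟩ := sw_b (k + 3) (C' + 1) (m + 1)
  obtain ⟨L0, hL0⟩ := SwG_large s hs0 hs C' m k k0 C x0
  have hN0 : ∀ᶠ N : ℕ in Filter.atTop, L0 ≤ Real.log N :=
    (Real.tendsto_log_atTop.comp tendsto_natCast_atTop_atTop).eventually_ge_atTop _
  obtain ⟨N0, hN0⟩ := (hN0.and (Filter.eventually_ge_atTop 1)).exists_forall_of_atTop
  refine ⟨N0, fun N hN P1 P hP1 hP c b t hc1 hc ht y hy => ?_⟩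
  obtain ⟨hL, hN1⟩ := hN0 N hN
  obtain ⟨a1, a2, a3, a4, a5, a6, a7, a8⟩ := hL0 _ hL
  set L := Real.log N with hLdef
  have hLpos : 0 < L := by linarith only [hs0, hs, a1]
  have hNexp : (N : ℝ) = Real.exp L := by
    rw [hLdef, Real.exp_log]
    exact_mod_cast hN1
  have hPpos : (0 : ℝ) < P := by exact_mod_cast hP1
  have hP8 : (P : ℝ) ≤ Real.exp (L / 8) := hP.trans (Real.exp_le_exp.mpr a5)
  set D := ⌈Real.exp (L / 8)⌉₊ with hD
  have hE1 : 1 ≤ Real.exp (L / 8) := Real.one_le_exp (by linarith only [hs0, hs, a1])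
  have hD1 : 1 ≤ D := by
    rw [hD]; exact Nat.one_le_iff_ne_zero.mpr (by
      intro h
      rw [Nat.ceil_eq_zero] at h
      linarith only [hs0, hs, hE1, h])
  have hDlow : Real.exp (L / 8) ≤ D := Nat.le_ceil _
  have hDup : (D : ℝ) ≤ 2 * Real.exp (L / 8) := by
    have := (Nat.ceil_lt_add_one (by linarith only [hs0, hs, hE1] : 0 ≤ Real.exp (L / 8))).le
    rw [← hD] at this
    linarith only [hE1, this]
  have hDpos : (0 : ℝ) < D := by exact_mod_cast hD1
  -- the inner sums for l ≤ D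
  set B := 12 * (N / P : ℝ) / (L / 2) ^ (k + 3) with hB
  have hNP : 0 ≤ (N / P : ℝ) := by positivity
  have hB0 : 0 ≤ B := by positivity
  have hT : ∀ l ∈ Icc 1 D, ‖SwG_T c (l * b) (y / l) t‖ ≤ B * (1 / l) := by
    intro l hl
    rw [Finset.mem_Icc] at hl
    have hl0 : (0 : ℝ) < l := by exact_mod_cast hl.1
    have hlD : (l : ℝ) ≤ D := by exact_mod_cast hl.2
    have hxlow : Real.exp (L / 2) ≤ ((12 * N / P / l : ℕ) : ℝ) := by
      rw [Nat.div_div_eq_div_mul]
      have h1 : ((12 * N : ℕ) : ℝ) / ((P * l : ℕ) : ℝ) < ((12 * N / (P * l) : ℕ) : ℝ) + 1 := by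
        rw [div_lt_iff₀ (by push_cast; positivity)]
        have := Nat.lt_div_mul_add (a := 12 * N) (b := P * l) (Nat.mul_pos hP1 hl.1)
        have h2 : ((12 * N : ℕ) : ℝ) < (((12 * N / (P * l)) * (P * l) + P * l : ℕ) : ℝ) := by exact_mod_cast this
        push_cast at h2 ⊢
        linarith only [h2]
      have h2 : 6 * Real.exp (3 * L / 4) ≤ ((12 * N : ℕ) : ℝ) / ((P * l : ℕ) : ℝ) := by
        rw [le_div_iff₀ (by push_cast; positivity)]
        push_cast
        rw [hNexp]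
        have h3 : (P : ℝ) * l ≤ Real.exp (L / 8) * (2 * Real.exp (L / 8)) :=
          mul_le_mul hP8 (hlD.trans hDup) hl0.le (by positivity)
        have h4 : Real.exp L = Real.exp (3 * L / 4) * (Real.exp (L / 8) * Real.exp (L / 8)) := by
          rw [← Real.exp_add, ← Real.exp_add]
          congr 1
          ring
        have h5 : 0 < Real.exp (3 * L / 4) := Real.exp_pos _
        rw [h4]
        nlinarith only [hs0, hs, h3, h5]
      have h3 : Real.exp (L / 2) ≤ Real.exp (3 * L / 4) := Real.exp_le_exp.mpr (by linarith only [hs0, hs, a1])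
      have h4 : 1 ≤ Real.exp (L / 2) := Real.one_le_exp (by linarith only [hs0, hs, a1])
      linarith only [hs0, hs, h1, h2, h3, h4]
    have hxup : ((12 * N / P / l : ℕ) : ℝ) ≤ 12 * (N / P : ℝ) / l := by
      refine Nat.cast_div_le.trans ?_
      refine div_le_div_of_nonneg_right ?_ hl0.le
      refine Nat.cast_div_le.trans (le_of_eq ?_)
      push_cast
      ring
    set x := 12 * N / P / l with hx
    have hxpos : (0 : ℝ) < x := (Real.exp_pos _).trans_le hxlow
    have hlog : L / 2 ≤ Real.log x := (Real.le_log_iff_exp_le hxpos).mpr hxlow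
    have hx0x : x0 ≤ x := by
      have := a7.trans hxlow
      exact_mod_cast this
    have key : ∀ (a : ℝ) (j : ℕ), a ≤ L ^ j → (2 : ℝ) ^ (j + 1) ≤ L → a ≤ Real.log x ^ (j + 1) := by
      intro a j ha hj
      refine ha.trans ?_
      have h1 : (L / 2) ^ (j + 1) ≤ Real.log x ^ (j + 1) := pow_le_pow_left₀ (by linarith only [hs0, hs, a1]) hlog _
      refine le_trans ?_ h1
      rw [div_pow, le_div_iff₀ (by positivity), pow_succ L j]
      exact mul_le_mul_of_nonneg_left hj (by positivity)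
    have h := hx0 x hx0x c (l * b) (y / l) t hc1 (key _ _ hc a2) (key _ _ ht a3) (Nat.div_le_div_right hy)
    refine h.trans ?_
    have h1 : (x : ℝ) / Real.log x ^ (k + 3) ≤ (12 * (N / P : ℝ) / l) / (L / 2) ^ (k + 3) :=
      div_le_div₀ (by positivity) hxup (by positivity) (pow_le_pow_left₀ (by linarith only [hs0, hs, a1]) hlog _)
    refine h1.trans (le_of_eq ?_)
    rw [hB]
    ring
  set Q := max P 100 with hQ
  refine (SwG_split P1 P y c b D Q t B (le_max_left _ _) hB0 hT).trans ?_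
  have hlogD : Real.log D ≤ 1 + L / 8 := by
    have h1 : (D : ℝ) ≤ Real.exp (1 + L / 8) := by
      rw [Real.exp_add]
      have : (2 : ℝ) ≤ Real.exp 1 := by
        have := Real.add_one_le_exp (1 : ℝ)
        linarith only [this]
      refine hDup.trans (mul_le_mul_of_nonneg_right this (by positivity))
    rw [← Real.log_exp (1 + L / 8)]
    exact Real.log_le_log hDpos h1
  have hpart1 : B * (1 + Real.log D) ≤ (N / P : ℝ) / L ^ k / 4 := by
    have h1 : B * (1 + Real.log D) ≤ B * L := mul_le_mul_of_nonneg_left (by linarith only [hs0, hs, a1, hlogD]) hB0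
    refine h1.trans ?_
    have h2 : B * L = (12 * (2 : ℝ) ^ (k + 3) / L ^ 2) * ((N / P : ℝ) / L ^ k) := by
      rw [hB, div_pow]
      field_simp
      ring
    rw [h2]
    have h3 : 12 * (2 : ℝ) ^ (k + 3) / L ^ 2 ≤ 1 / 4 := by
      rw [div_le_iff₀ (by positivity)]
      linarith only [a4]
    have h4 : 0 ≤ (N / P : ℝ) / L ^ k := by positivity
    calc _ ≤ 1 / 4 * ((N / P : ℝ) / L ^ k) := mul_le_mul_of_nonneg_right h3 h4
      _ = _ := by ring
  have hQ100 : 100 ≤ Q := le_max_right _ _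
  have hlogQ : Real.log Q ≤ L ^ s := by
    rw [hQ]
    push_cast
    rcases le_total (P : ℝ) 100 with h | h
    · rw [max_eq_right h]; exact a6
    · rw [max_eq_left h, ← Real.log_exp (L ^ s)]
      exact Real.log_le_log hPpos hP
  have hlogQ1 : 0 < Real.log Q := Real.log_pos (by
    have : (100 : ℝ) ≤ Q := by exact_mod_cast hQ100
    linarith only [hs0, hs, this])
  have hLs : 0 < L ^ s := Real.rpow_pos_of_pos hLpos s
  have hLsL : L ^ s ≤ L := by linarith only [hs0, hs, a1, a5]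
  have hpart2 : (y : ℝ) * ∑ l ∈ (Ioc D y).filter (fun l : ℕ => ∀ p : ℕ, p.Prime → p ∣ l → p ≤ Q), (1 : ℝ) / l
      ≤ (N / P : ℝ) / L ^ k / 4 := by
    have hy' : (y : ℝ) ≤ 12 * (N / P : ℝ) := by
      have h1 : (y : ℝ) ≤ ((12 * N / P : ℕ) : ℝ) := by exact_mod_cast hy
      refine h1.trans (Nat.cast_div_le.trans (le_of_eq ?_))
      push_cast
      ring
    have h1 := hrank Q D y hQ100 hD1
    have hlogD2 : L / 8 ≤ Real.log D := (Real.le_log_iff_exp_le hDpos).mpr hDlow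
    have h2 : Real.exp (-(Real.log D / Real.log Q)) ≤ Real.exp (-(L ^ (1 - s) / 8)) := by
      rw [Real.exp_le_exp, neg_le_neg_iff, le_div_iff₀ hlogQ1]
      have h3 : L ^ s * L ^ (1 - s) = L := by
        rw [← Real.rpow_add hLpos]; simp
      have h4 : 0 < L ^ (1 - s) := Real.rpow_pos_of_pos hLpos _
      nlinarith only [hlogD2, h3, hs0, hs, hlogQ, h4]
    have h3 : Real.log Q ^ k0 ≤ L ^ k0 := pow_le_pow_left₀ hlogQ1.le (hlogQ.trans hLsL) _
    have h4 : C * Real.log Q ^ k0 * Real.exp (-(Real.log D / Real.log Q)) ≤ C * L ^ k0 * Real.exp (-(L ^ (1 - s) / 8)) := by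
      refine mul_le_mul (mul_le_mul_of_nonneg_left h3 hC.le) h2 (Real.exp_pos _).le (by positivity)
    have h5 : 0 ≤ C * L ^ k0 * Real.exp (-(L ^ (1 - s) / 8)) := by positivity
    calc (y : ℝ) * _ ≤ (12 * (N / P : ℝ)) * (C * L ^ k0 * Real.exp (-(L ^ (1 - s) / 8))) := by
          refine mul_le_mul hy' (h1.trans h4) ?_ (by positivity)
          exact Finset.sum_nonneg (fun l _ => by positivity)
      _ = (N / P : ℝ) * (12 * C * L ^ k0 * Real.exp (-(L ^ (1 - s) / 8))) := by ring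
      _ ≤ (N / P : ℝ) * (1 / (4 * L ^ k)) := mul_le_mul_of_nonneg_left a8 hNP
      _ = _ := by ring
  linarith only [hpart1, hpart2]

theorem sw_g (s : ℝ) (hs0 : 0 < s) (hs : s < 1) (C' m k : ℕ) : ∃ N0 : ℕ, ∀ N : ℕ, N0 ≤ N → ∀ P1 P : ℕ, 1 ≤ P →
    (P : ℝ) ≤ Real.exp (Real.log N ^ s) → SWf (gP P1 P) N P C' m k := by
  obtain ⟨N0, h⟩ := SwG_bound s hs0 hs C' m k
  refine ⟨N0, fun N hN P1 P hP1 hP c b t hc1 hc ht => ?_⟩
  have hle : N / (16 * P) ≤ 12 * N / P :=
    (Nat.div_le_div (by omega : N ≤ 12 * N) (by omega : P ≤ 16 * P) (by omega))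
  have h1 := h N hN P1 P hP1 hP c b t hc1 hc ht (12 * N / P) le_rfl
  have h2 := h N hN P1 P hP1 hP c b t hc1 hc ht (N / (16 * P)) hle
  clear h
  generalize N / (16 * P) = u at *
  generalize 12 * N / P = v at *
  have hU : Icc 1 v = Icc 1 u ∪ Ioc u v := by
    ext n
    simp only [Finset.mem_union, Finset.mem_Icc, Finset.mem_Ioc]
    omega
  have hdisj : Disjoint (Icc 1 u) (Ioc u v) := by
    rw [Finset.disjoint_left]
    intro l h1 h2
    rw [Finset.mem_Icc] at h1
    rw [Finset.mem_Ioc] at h2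
    omega
  rw [hU, Finset.sum_union hdisj] at h1
  set S1 := ∑ n ∈ Icc 1 u, (gP P1 P n : ℂ) * ee (-((n : ℝ) * ((b : ℝ) / c))) * ee (-(t * Real.log n))
  set S2 := ∑ n ∈ Ioc u v, (gP P1 P n : ℂ) * ee (-((n : ℝ) * ((b : ℝ) / c))) * ee (-(t * Real.log n))
  have h3 : ‖S2‖ ≤ ‖S1 + S2‖ + ‖S1‖ := by
    have : S2 = (S1 + S2) - S1 := by ring
    calc ‖S2‖ = ‖(S1 + S2) - S1‖ := by rw [← this]
      _ ≤ _ := norm_sub_le _ _
  linarith only [h2, h1, h3]

end Pool.Agent.H43.LM

end
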