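import Pool.Agent.H43.PL.M06
import Pool.Agent.H43.PL.M08
import Pool.Agent.H43.PL.M11

/-! The parts of this file: H74.MDX.Nodes, H74.MDX.NodesP, H53.MDB.PairF, H53.MDB.Far. -/

section

/-!
# MDX Nodes: the nodes over one scale `M`

Proof.  `E = EX c P η V M`, `VV = VX c P V M`, `pr = Prod.fst`.  Every prime `p` has at most `(2c+1) m ≤ b` vertices (`|K p - M P| ≤ c P`, `P < p`: at most `2c+1` values `K`
(`int_card`), then at most `m` values `k`), so `|VV| ≤ b P` (`Ioc P (2P)` has `P` elements).  `root_label` gives `s`; `rich` with `root = s` gives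
`N` = the edges with fewer than `κ P` edges with the same first vertex and the same label, `|N| ≤ 2 κ b P^2`.
For `e ∈ E` put `ω e = (e.1.2.2 + s e)/e.1.1`: `e.1.1 ω e - e.1.2.2 = s e` is an integer (so `nz = 0`) and `nz (e.2.1 ω e - e.2.2.2) ≤ 2η/e.1.1 ≤ 2 η/P`.
`Γ` = the net (`net`) of the finite set of the `ω e`, `e ∈ E \ N`, with separation `s0`.  For `e ∈ E \ N` there is `γ ∈ Γ` with `nz (ω e - γ) ≤ s0`, so
`nz (e.1.1 γ - e.1.2.2) ≤ e.1.1 s0 ≤ 2 P s0 ≤ y` (`nz_nat_mul`, `nz_neg`) and `nz (e.2.1 γ - e.2.2.2) ≤ 2 P s0 + 2η/P ≤ y`.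
Each `γ ∈ Γ` is `ω e` for some `e ∈ E \ N`: the set `U` of the second vertices of the (at least `κ P`) edges `f ∈ E` with `f.1 = e.1`, `s f = s e` satisfies
`nz (u.1 γ - u.2.2) ≤ 2η/P`; `weak` (with `η' = 2η/P`) gives `|DS P (j+1) D1 τ1 F α (M, γ)| ≥ κ P μ P^j/(m (j+1)(2c+1)) =: m0`.
`sets_sum` with `A γ = DS P (j+1) D1 τ1 F α (M, γ)`, `U` = their union, `Tot = (2 D1+1)(2P)^(j+1)` (`ds_tot`), `near γ γ' := nz (γ - γ') ≤ 2 τ1/P^(j+1)`,
`Kn` (`near_card`, `4 τ1/(P^(j+1) s0) + 1 ≤ Kn`), `ι = 5 (2 D1+1)(2P)^(j+1)/P` (`ds_int`), `hbig`.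
-/

set_option autoImplicit false

namespace Pool.Agent.H74.MDX

open Finset
open Pool.Agent.H53.MID (nz Rel Desc)

private theorem Nodes_fib (P M : ℕ) (c m b : ℝ) (V : Finset (ℕ × ℝ)) (hP : 1 ≤ P) (hc : 1 ≤ c) (hm : 1 ≤ m)
    (hmult : ∀ K : ℕ, ((V.filter (fun v => v.1 = K)).card : ℝ) ≤ m)
    (hb : (2 * c + 1) * m ≤ b) (p : ℕ) : (((VX c P V M).filter (fun v => v.1 = p)).card : ℝ) ≤ b := by
  classical
  have hP0 : (0 : ℝ) < P := by exact_mod_cast hP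
  have hb0 : 0 ≤ b := by
    refine le_trans ?_ hb
    positivity
  by_cases hp : P < p
  · have hp0 : (0 : ℝ) < p := hP0.trans (by exact_mod_cast hp)
    have hPp : (P : ℝ) ≤ p := by exact_mod_cast hp.le
    set S := (VX c P V M).filter (fun v => v.1 = p) with hS
    have h1 : (S.card : ℝ) = ∑ K ∈ S.image (fun v => v.2.1), ((S.filter (fun v => v.2.1 = K)).card : ℝ) := by
      exact_mod_cast Finset.card_eq_sum_card_image (fun v : ℕ × ℕ × ℝ => v.2.1) S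
    have h2 : ∀ K ∈ S.image (fun v => v.2.1), ((S.filter (fun v => v.2.1 = K)).card : ℝ) ≤ m := by
      intro K _
      refine le_trans ?_ (hmult K)
      have h3 : (S.filter (fun v => v.2.1 = K)).card = ((S.filter (fun v => v.2.1 = K)).image Prod.snd).card := by
        rw [Finset.card_image_of_injOn]
        intro x hx y hy hxy
        rw [Finset.mem_coe, Finset.mem_filter, hS, Finset.mem_filter] at hx hy
        exact Prod.ext (hx.1.2.trans hy.1.2.symm) hxy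
      rw [h3]
      have h4 : (S.filter (fun v => v.2.1 = K)).image Prod.snd ⊆ V.filter (fun v => v.1 = K) := by
        intro x hx
        rw [Finset.mem_image] at hx
        obtain ⟨v, hv, rfl⟩ := hx
        rw [Finset.mem_filter, hS, Finset.mem_filter] at hv
        rw [Finset.mem_filter]
        exact ⟨(mem_VX.1 hv.1.1).2.2.1, hv.2⟩
      exact_mod_cast Finset.card_le_card h4
    have h5 : ((S.image (fun v => v.2.1)).card : ℝ) ≤ 2 * c + 1 := by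
      refine int_card _ (M * P / p) c (by linarith) ?_
      intro K hK
      rw [Finset.mem_image] at hK
      obtain ⟨v, hv, rfl⟩ := hK
      rw [hS, Finset.mem_filter] at hv
      have h6 := (mem_VX.1 hv.1).2.2.2
      rw [hv.2] at h6
      have e : ((v.2.1 : ℕ) : ℝ) - M * P / p = ((v.2.1 : ℝ) * p - M * P) / p := by
        field_simp
      rw [e, abs_div, abs_of_pos hp0, div_le_iff₀ hp0]
      exact h6.trans (mul_le_mul_of_nonneg_left hPp (by linarith))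
    rw [h1]
    refine (Finset.sum_le_sum h2).trans ?_
    rw [Finset.sum_const, nsmul_eq_mul]
    exact (mul_le_mul_of_nonneg_right h5 (by linarith)).trans hb
  · have h1 : (VX c P V M).filter (fun v => v.1 = p) = ∅ := by
      rw [Finset.filter_eq_empty_iff]
      intro v hv h2
      have := (mem_VX.1 hv).1.1
      omega
    rw [h1]
    simpa using hb0

private theorem Nodes_VX (P M : ℕ) (c b : ℝ) (V : Finset (ℕ × ℝ))
    (h : ∀ p : ℕ, (((VX c P V M).filter (fun v => v.1 = p)).card : ℝ) ≤ b) : ((VX c P V M).card : ℝ) ≤ b * P := by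
  classical
  have h1 : ((VX c P V M).card : ℝ) = ∑ p ∈ Ioc P (2 * P), (((VX c P V M).filter (fun v => v.1 = p)).card : ℝ) := by
    exact_mod_cast Finset.card_eq_sum_card_fiberwise (f := fun v : ℕ × ℕ × ℝ => v.1) (s := VX c P V M) (t := Ioc P (2 * P))
      (fun v hv => by
        have := (mem_VX.1 (Finset.mem_coe.1 hv)).1
        exact Finset.mem_coe.2 (Finset.mem_Ioc.2 this))
  rw [h1]
  refine (Finset.sum_le_sum (fun p _ => h p)).trans ?_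
  rw [Finset.sum_const, nsmul_eq_mul, Nat.card_Ioc]
  have : ((2 * P - P : ℕ) : ℝ) = P := by
    have : 2 * P - P = P := by omega
    rw [this]
  rw [this, mul_comm]

open Classical in
theorem nodes (P j M : ℕ) (c D D1 τ τ1 η s0 y μ κ m b Kn : ℝ) (F : Finset ℕ) (α : ℕ → ℝ) (V : Finset (ℕ × ℝ))
    (hP : 2 ^ (j + 1) < P) (hc : 1 ≤ c) (hD : 0 ≤ D) (hτ : 0 ≤ τ) (hη : 0 < η) (hηP : 100 * η * (P : ℝ) ^ 2 ≤ 1)
    (hs0 : 0 < s0) (hμ : 0 < μ) (hκ : 0 < κ) (hm : 1 ≤ m)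
    (hV : ∀ v ∈ V, μ * (P : ℝ) ^ j ≤ ((DS P j D τ F α v).card : ℝ))
    (hmult : ∀ K : ℕ, ((V.filter (fun v => v.1 = K)).card : ℝ) ≤ m)
    (hb : (2 * c + 1) * m ≤ b) (hb2 : b ^ 2 < 2 * κ ^ 2 * P)
    (hD1 : 2 * D + c ≤ D1) (hτ1 : (2 * (P : ℝ)) ^ j * (2 * η / P) + τ ≤ τ1) (hτP : 40 * τ1 * P ≤ 1)
    (hy : 2 * η / P + 2 * P * s0 ≤ y) (hKn : 4 * τ1 / ((P : ℝ) ^ (j + 1) * s0) + 1 ≤ Kn)
    (hbig : 2 * ((2 * D1 + 1) * (2 * P) ^ (j + 1)) * (5 * (2 * D1 + 1) * (2 * P) ^ (j + 1) / P) ≤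
      (κ * P * (μ * (P : ℝ) ^ j) / (m * ((j + 1) * (2 * c + 1)))) ^ 2) :
    ∃ (Γ : Finset ℝ) (N : Finset ((ℕ × ℕ × ℝ) × (ℕ × ℕ × ℝ))), (N.card : ℝ) ≤ 2 * κ * b * (P : ℝ) ^ 2 ∧
      ∑ γ ∈ Γ, ((DS P (j + 1) D1 τ1 F α (M, γ)).card : ℝ) ≤ 2 * Kn * ((2 * D1 + 1) * (2 * P) ^ (j + 1)) ∧
      ∀ e ∈ EX c P η V M, e ∉ N → ∃ γ ∈ Γ, nz ((e.1.1 : ℝ) * γ - e.1.2.2) ≤ y ∧ nz ((e.2.1 : ℝ) * γ - e.2.2.2) ≤ y := by
  have hP1 : 1 ≤ P := by
    have := Nat.one_le_two_pow (n := j + 1)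
    omega
  have hP0 : (0 : ℝ) < P := by exact_mod_cast hP1
  have hc0 : 0 < c := by linarith
  have hD10 : 0 ≤ D1 := by linarith
  have hτ10 : 0 ≤ τ1 := by
    refine le_trans ?_ hτ1
    positivity
  have hb0 : 0 < b := by
    refine lt_of_lt_of_le ?_ hb
    have : 0 < m := by linarith
    positivity
  have hm0 : 0 < m := by linarith
  obtain ⟨s, hs1, hs2⟩ := root_label c P η V M hP1 hη.le hηP
  set E := EX c P η V M with hE
  set VV := VX c P V M with hVV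
  have hfib := Nodes_fib P M c m b V hP1 hc hm hmult hb
  have hVcard := Nodes_VX P M c b V hfib
  have hEs : E ⊆ VV ×ˢ VV := by
    intro e he
    rw [hE, mem_EX] at he
    exact Finset.mem_product.2 ⟨he.1, he.2.1⟩
  have hN0 := rich VV (fun v => v.1) E s b κ P hb0 hκ hP0 (fun p => by simpa using hfib p) hVcard hEs hs2 hb2
  set N := E.filter (fun e => ((E.filter (fun f => f.1 = e.1 ∧ s f = s e)).card : ℝ) < κ * P) with hNdef
  have hN : (N.card : ℝ) ≤ 2 * κ * b * (P : ℝ) ^ 2 := by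
    rw [hNdef]
    exact (le_of_eq (by congr; funext e; congr)).trans hN0
  set ω : (ℕ × ℕ × ℝ) × (ℕ × ℕ × ℝ) → ℝ := fun e => (e.1.2.2 + s e) / e.1.1 with hω
  obtain ⟨Γ, hΓW, hΓnet, hΓsep⟩ := net ((E \ N).image ω) s0 hs0.le
  have hpos : ∀ e ∈ E, (P : ℝ) < e.1.1 ∧ (e.1.1 : ℝ) ≤ 2 * P ∧ (e.2.1 : ℝ) ≤ 2 * P := by
    intro e he
    rw [hE, mem_EX, mem_VX, mem_VX] at he
    obtain ⟨h1, h2, -, -⟩ := he
    exact ⟨by exact_mod_cast h1.1.1, by exact_mod_cast h1.1.2, by exact_mod_cast h2.1.2⟩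
  have hs1' : ∀ e ∈ E, nz ((e.2.1 : ℝ) * ω e - e.2.2.2) ≤ 2 * η / P := by
    intro e he
    refine (hs1 e he).trans ?_
    exact div_le_div_of_nonneg_left (by positivity) hP0 (hpos e he).1.le
  refine ⟨Γ, N, hN, ?_, ?_⟩
  · -- the sets
    have hlow : ∀ γ ∈ Γ, κ * P * (μ * (P : ℝ) ^ j) / (m * ((j + 1) * (2 * c + 1))) ≤
        ((DS P (j + 1) D1 τ1 F α (M, γ)).card : ℝ) := by
      intro γ hγ
      have h1 := hΓW hγ
      rw [Finset.mem_image] at h1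
      obtain ⟨e, he, rfl⟩ := h1
      rw [Finset.mem_sdiff] at he
      obtain ⟨heE, heN⟩ := he
      have h2 : κ * P ≤ ((E.filter (fun f => f.1 = e.1 ∧ s f = s e)).card : ℝ) := by
        by_contra h3
        push Not at h3
        exact heN (by rw [hNdef, Finset.mem_filter]; exact ⟨heE, h3⟩)
      set U := (E.filter (fun f => f.1 = e.1 ∧ s f = s e)).image Prod.snd with hU
      have hUc : U.card = (E.filter (fun f => f.1 = e.1 ∧ s f = s e)).card := by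
        rw [hU, Finset.card_image_of_injOn]
        intro x hx y hy hxy
        rw [Finset.mem_coe, Finset.mem_filter] at hx hy
        exact Prod.ext (hx.2.1.trans hy.2.1.symm) hxy
      have hUmem : ∀ u ∈ U, ∃ f ∈ E, f.1 = e.1 ∧ s f = s e ∧ f.2 = u := by
        intro u hu
        rw [hU, Finset.mem_image] at hu
        obtain ⟨f, hf, hfu⟩ := hu
        rw [Finset.mem_filter] at hf
        exact ⟨f, hf.1, hf.2.1, hf.2.2, hfu⟩
      have hUV : U ⊆ VX c P V M := by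
        intro u hu
        obtain ⟨f, hf, -, -, rfl⟩ := hUmem u hu
        rw [hE, mem_EX] at hf
        exact hf.2.1
      have hUn : ∀ u ∈ U, nz (u.1 * ω e - u.2.2) ≤ 2 * η / P := by
        intro u hu
        obtain ⟨f, hf, h3, h4, rfl⟩ := hUmem u hu
        have h5 := hs1' f hf
        have h6 : ω f = ω e := by
          rw [hω]
          simp only [h3, h4]
        rw [h6] at h5
        exact h5
      have h3 := weak P j c D D1 τ τ1 (2 * η / P) μ m (ω e) F α M V U hP hc0.le hD hμ.le hm hUV hUn hV hmult hD1 hτ1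
      refine le_trans ?_ h3
      refine div_le_div_of_nonneg_right ?_ (by positivity)
      refine mul_le_mul_of_nonneg_right ?_ (by positivity)
      rw [hUc]
      exact h2
    have hUt : ((Γ.biUnion (fun γ => DS P (j + 1) D1 τ1 F α (M, γ))).card : ℝ) ≤ (2 * D1 + 1) * (2 * P) ^ (j + 1) := by
      refine ds_tot P (j + 1) M D1 _ hP1 hD10 ?_
      intro t ht
      rw [Finset.mem_biUnion] at ht
      obtain ⟨γ, -, ht⟩ := ht
      rw [mem_DS] at ht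
      exact ⟨ht.1, ht.2.1, ht.2.2.2.2.1⟩
    have hm00 : 0 < κ * P * (μ * (P : ℝ) ^ j) / (m * ((j + 1) * (2 * c + 1))) := by positivity
    refine sets_sum Γ (Γ.biUnion (fun γ => DS P (j + 1) D1 τ1 F α (M, γ))) (fun γ => DS P (j + 1) D1 τ1 F α (M, γ))
      (fun γ γ' => nz (γ - γ') ≤ 2 * τ1 / (P : ℝ) ^ (j + 1)) ((2 * D1 + 1) * (2 * P) ^ (j + 1)) Kn
      (5 * (2 * D1 + 1) * (2 * P) ^ (j + 1) / P) (κ * P * (μ * (P : ℝ) ^ j) / (m * ((j + 1) * (2 * c + 1))))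
      (fun γ hγ => Finset.subset_biUnion_of_mem (fun γ => DS P (j + 1) D1 τ1 F α (M, γ)) hγ) hUt hm00 (by positivity)
      ?_ hlow ?_ ?_ hbig
    · refine le_trans ?_ hKn
      positivity
    · intro γ _
      refine (near_card Γ s0 (2 * τ1 / (P : ℝ) ^ (j + 1)) hs0 (by positivity) hΓsep γ).trans ?_
      refine le_trans (le_of_eq ?_) hKn
      field_simp
      ring
    · intro γ _ γ' _ hfar
      by_contra h3
      push Not at h3
      exact hfar (ds_int P j M D1 τ1 F α γ γ' hP1 hD10 hτ10 hτP (lt_of_lt_of_eq h3 (by congr; exact Subsingleton.elim _ _)))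
  · intro e he heN
    obtain ⟨γ, hγ, hnz⟩ := hΓnet (ω e) (Finset.mem_image_of_mem _ (Finset.mem_sdiff.2 ⟨he, heN⟩))
    obtain ⟨h1, h2, h3⟩ := hpos e he
    have he0 : (0 : ℝ) < e.1.1 := hP0.trans h1
    have hηP0 : 0 ≤ 2 * η / P := by positivity
    refine ⟨γ, hγ, ?_, ?_⟩
    · have e1 : (e.1.1 : ℝ) * γ - e.1.2.2 = -((e.1.1 : ℝ) * (ω e - γ)) + (s e : ℝ) := by
        rw [hω]
        field_simp
        ring
      rw [e1, Pool.Agent.H53.MID.nz_add_int, Pool.Agent.H53.MID.nz_neg]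
      refine (Pool.Agent.H53.MID.nz_nat_mul _ _).trans ?_
      have h4 : (e.1.1 : ℝ) * nz (ω e - γ) ≤ 2 * P * s0 :=
        mul_le_mul h2 hnz (Pool.Agent.H53.MID.nz_nonneg _) (by positivity)
      linarith
    · have e1 : (e.2.1 : ℝ) * γ - e.2.2.2 = ((e.2.1 : ℝ) * ω e - e.2.2.2) - (e.2.1 : ℝ) * (ω e - γ) := by
        ring
      rw [e1]
      refine (Pool.Agent.H53.MID.nz_sub _ _).trans ?_
      have h4 : nz ((e.2.1 : ℝ) * (ω e - γ)) ≤ 2 * P * s0 := by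
        refine (Pool.Agent.H53.MID.nz_nat_mul _ _).trans ?_
        exact mul_le_mul h3 hnz (Pool.Agent.H53.MID.nz_nonneg _) (by positivity)
      linarith [hs1' e he]

end Pool.Agent.H74.MDX

end

section

/-!
# MDX NodesP: the nodes over one scale, explicit constants

Apply `nodes` with `X = 2^(j^2+5j)`, `c = 2 (C 3^j) + 1`, `D = C 5^j`, `D1 = C 5^(j+1)`, `τ = X η`, `τ1 = 2^((j+1)^2+5(j+1)) η = 2^(2j+6) X η`,
`η := X η P/P^j`, `s0 = 2^(j+3) X η/P^(j+1)`, `y = 2^(j+5) X η/P^j`, `μ = ε/B^5`, `κ = ε^2/(2 B^11)`, `m = B^7/ε`, `b = B^8/ε`, `Kn = 2^(j+6)`.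
Checks (`j < ℓ`, `B ≥ 1`, `ε ≤ 1`): `2^(j+1) < P` (`B ≥ 2^(2ℓ+8)`, `P ≥ 40 B^54/ε^8`); `100 X η P/P^j P^2 ≤ 100 X η P^3 ≤ 1` (`X ≤ 2^(ℓ^2+5ℓ)`);
`(2c+1) m = (4 C 3^j + 3) m ≤ B m` (`4 C 3^j + 3 ≤ 2 C 5^ℓ + 1`); `b^2 < 2 κ^2 P`: `2 B^38/ε^6 < P`; `2D + c = 2 C 5^j + 2 C 3^j + 1 ≤ 5 C 5^j`;
`(2P)^j 2 (X η P/P^j)/P + X η = (2^(j+1) + 1) X η ≤ 2^(2j+6) X η`; `40 τ1 P ≤ 1`; `2η/P + 2 P s0 = (2 + 2^(j+4)) X η/P^j ≤ y`;
`4 τ1/(P^(j+1) s0) = 2^(j+5)`; `hbig`: left side `= 10 (2 D1+1)^2 2^(2j+2) P^(2j+2)/P ≤ 10 B^3 P^(2j+2)/P` (`2 D1 + 1 ≤ B`, `2^(2j+2) ≤ B`), right side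
`≥ (ε^4/(2 B^25))^2 P^(2j+2)` (`κ μ/m = ε^4/(2 B^23)`, `(j+1)(2c+1) ≤ B^2`), and `40 B^53/ε^8 ≤ P`.
-/

set_option autoImplicit false

namespace Pool.Agent.H74.MDX

open Finset
open Pool.Agent.H53.MID (nz Rel Desc)

/-- the last inequality -/
private theorem NodesP_big (B ε P L t Y : ℝ) (hB : 1 ≤ B) (hε : 0 < ε) (hP0 : 0 < P)
    (hP : 40 * B ^ 54 ≤ ε ^ 8 * P) (Z : ℝ) (hZ : 0 < Z) (hL0 : 0 ≤ L) (hL : L ≤ B) (ht0 : 0 ≤ t) (ht : t ^ 2 ≤ B)
    (hY0 : 0 < Y) (hY : Y ≤ B ^ 2) :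
    2 * (L * (t * (P * Z))) * (5 * L * (t * (P * Z)) / P) ≤
      (ε ^ 2 / (2 * B ^ 11) * P * (ε / B ^ 5 * Z) / (B ^ 7 / ε * Y)) ^ 2 := by
  have hB0 : 0 < B := by linarith
  have e1 : 2 * (L * (t * (P * Z))) * (5 * L * (t * (P * Z)) / P) = 10 * L ^ 2 * t ^ 2 * P * Z ^ 2 := by
    field_simp
    ring
  rw [e1]
  have h1 : 10 * L ^ 2 * t ^ 2 * P * Z ^ 2 ≤ 10 * B ^ 3 * P * Z ^ 2 := by
    have h2 : L ^ 2 * t ^ 2 ≤ B ^ 2 * B :=
      mul_le_mul (pow_le_pow_left₀ hL0 hL 2) ht (by positivity) (by positivity)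
    have h3 : 0 ≤ P * Z ^ 2 := by positivity
    nlinarith only [h2, h3, mul_le_mul_of_nonneg_right h2 h3]
  refine h1.trans ?_
  have h4 : ε ^ 4 * P * Z / (2 * B ^ 25) ≤ ε ^ 2 / (2 * B ^ 11) * P * (ε / B ^ 5 * Z) / (B ^ 7 / ε * Y) := by
    have e2 : ε ^ 2 / (2 * B ^ 11) * P * (ε / B ^ 5 * Z) / (B ^ 7 / ε * Y) = ε ^ 4 * P * Z / (2 * B ^ 23 * Y) := by
      field_simp
    rw [e2]
    refine div_le_div_of_nonneg_left (by positivity) (by positivity) ?_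
    have h5 : 2 * B ^ 23 * Y ≤ 2 * B ^ 23 * B ^ 2 := mul_le_mul_of_nonneg_left hY (by positivity)
    calc 2 * B ^ 23 * Y ≤ 2 * B ^ 23 * B ^ 2 := h5
      _ = 2 * B ^ 25 := by ring
  have h6 : 10 * B ^ 3 * P * Z ^ 2 ≤ (ε ^ 4 * P * Z / (2 * B ^ 25)) ^ 2 := by
    rw [div_pow, le_div_iff₀ (by positivity)]
    have h7 : 40 * B ^ 53 ≤ ε ^ 8 * P := by
      refine le_trans ?_ hP
      have : B ^ 53 ≤ B ^ 54 := pow_le_pow_right₀ hB (by norm_num)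
      linarith only [this]
    have h8 : 0 ≤ P * Z ^ 2 := by positivity
    calc 10 * B ^ 3 * P * Z ^ 2 * (2 * B ^ 25) ^ 2 = (40 * B ^ 53) * (P * Z ^ 2) := by ring
      _ ≤ (ε ^ 8 * P) * (P * Z ^ 2) := mul_le_mul_of_nonneg_right h7 h8
      _ = (ε ^ 4 * P * Z) ^ 2 := by ring
  exact h6.trans (pow_le_pow_left₀ (by positivity) h4 2)

open Classical in
theorem nodesP (C B ε η : ℝ) (ℓ P j M : ℕ) (F : Finset ℕ) (α : ℕ → ℝ) (V : Finset (ℕ × ℝ)) (hPar : Par C ℓ P B ε η)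
    (hj : j < ℓ)
    (hV : ∀ v ∈ V, ε / B ^ 5 * (P : ℝ) ^ j ≤ ((DS P j (C * 5 ^ j) (2 ^ (j ^ 2 + 5 * j) * η) F α v).card : ℝ))
    (hmult : ∀ K : ℕ, ((V.filter (fun v => v.1 = K)).card : ℝ) ≤ B ^ 7 / ε) :
    ∃ (Γ : Finset ℝ) (N : Finset ((ℕ × ℕ × ℝ) × (ℕ × ℕ × ℝ))), (N.card : ℝ) ≤ ε / B ^ 3 * (P : ℝ) ^ 2 ∧
      ∑ γ ∈ Γ, ((DS P (j + 1) (C * 5 ^ (j + 1)) (2 ^ ((j + 1) ^ 2 + 5 * (j + 1)) * η) F α (M, γ)).card : ℝ) ≤
        2 ^ (2 * j + 8) * (2 * (C * 5 ^ (j + 1)) + 1) * (P : ℝ) ^ (j + 1) ∧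
      ∀ e ∈ EX (2 * (C * 3 ^ j) + 1) P (2 ^ (j ^ 2 + 5 * j) * η * P / (P : ℝ) ^ j) V M, e ∉ N →
        ∃ γ ∈ Γ, nz ((e.1.1 : ℝ) * γ - e.1.2.2) ≤ 2 ^ (j + 5) * (2 ^ (j ^ 2 + 5 * j) * η) / (P : ℝ) ^ j ∧
          nz ((e.2.1 : ℝ) * γ - e.2.2.2) ≤ 2 ^ (j + 5) * (2 ^ (j ^ 2 + 5 * j) * η) / (P : ℝ) ^ j := by
  obtain ⟨hC, hB1, hB2, hB3, hB4, hB5, hε, hε1, hη, hPB, hηP⟩ := hPar
  have hB : 1 ≤ B := le_trans (one_le_pow₀ (by norm_num)) hB5
  have hB0 : 0 < B := by linarith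
  have hC0 : 0 < C := by linarith
  have hPR : B ^ 54 < P := by
    have h1 : ε ^ 8 * (P : ℝ) ≤ P := by
      have h2 : ε ^ 8 ≤ 1 := pow_le_one₀ hε.le hε1
      nlinarith only [h2, Nat.cast_nonneg (α := ℝ) P]
    have h3 : 0 < B ^ 54 := by positivity
    linarith
  have hBP : B < P := lt_of_le_of_lt (le_self_pow₀ hB (by norm_num)) hPR
  have hP1 : (1 : ℝ) ≤ P := by linarith
  have hP0 : (0 : ℝ) < P := by linarith
  have hPj : (0 : ℝ) < (P : ℝ) ^ j := by positivity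
  have hPj1 : (1 : ℝ) ≤ (P : ℝ) ^ j := one_le_pow₀ hP1
  have hjl : j + 1 ≤ ℓ := hj
  -- powers of 2
  obtain ⟨X, hX⟩ : ∃ X : ℝ, X = 2 ^ (j ^ 2 + 5 * j) := ⟨_, rfl⟩
  have hX0 : 0 < X := by
    rw [hX]
    positivity
  have hX1 : (2 : ℝ) ^ ((j + 1) ^ 2 + 5 * (j + 1)) = 2 ^ (2 * j + 6) * X := by
    rw [hX, ← pow_add]
    congr 1
    ring
  have hXl : 2 ^ (2 * j + 6) * X ≤ 2 ^ (ℓ ^ 2 + 5 * ℓ) := by
    rw [← hX1]
    refine pow_le_pow_right₀ (by norm_num) ?_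
    have h1 : (j + 1) ^ 2 ≤ ℓ ^ 2 := Nat.pow_le_pow_left hjl 2
    omega
  have hXP : 1024 * (2 ^ (2 * j + 6) * X) * η * (P : ℝ) ^ 3 ≤ 1 := by
    refine le_trans ?_ hηP
    have h1 : (1024 : ℝ) * (2 ^ (2 * j + 6) * X) ≤ 2 ^ (ℓ ^ 2 + 5 * ℓ + 10) := by
      rw [pow_add _ (ℓ ^ 2 + 5 * ℓ) 10]
      nlinarith only [hXl]
    have h2 : 0 ≤ η * (P : ℝ) ^ 3 := by positivity
    nlinarith only [h1, h2, mul_le_mul_of_nonneg_right h1 h2]
  have hjpow : (1 : ℝ) ≤ 2 ^ (2 * j + 6) := one_le_pow₀ (by norm_num)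
  have hj5 : (1 : ℝ) ≤ 5 ^ j := one_le_pow₀ (by norm_num)
  have hj3 : (3 : ℝ) ^ j ≤ 5 ^ j := pow_le_pow_left₀ (by norm_num) (by norm_num) j
  have hj30 : (0 : ℝ) < 3 ^ j := by positivity
  have hC5 : 1 ≤ C * 5 ^ j := by nlinarith only [hC, hj5]
  have hC3 : C * 3 ^ j ≤ C * 5 ^ j := mul_le_mul_of_nonneg_left hj3 hC0.le
  have hC30 : 0 < C * 3 ^ j := by positivity
  have h5l : C * 5 ^ (j + 1) ≤ C * 5 ^ ℓ :=
    mul_le_mul_of_nonneg_left (pow_le_pow_right₀ (by norm_num) hjl) hC0.le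
  have h5s : C * 5 ^ (j + 1) = 5 * (C * 5 ^ j) := by
    rw [pow_succ]
    ring
  have hL : 2 * (C * 5 ^ (j + 1)) + 1 ≤ B := by
    refine le_trans ?_ hB1
    nlinarith only [h5l]
  have h2c : 2 * (2 * (C * 3 ^ j) + 1) + 1 ≤ B := by
    refine le_trans ?_ hL
    rw [h5s]
    nlinarith only [hC5, hC3]
  have hjB : ((j : ℝ) + 1) ≤ B := by
    refine le_trans ?_ hB5
    have h1 : ((j + 1 : ℕ) : ℝ) ≤ ((2 ^ (2 * ℓ + 8) : ℕ) : ℝ) := by
      have h2 : j + 1 ≤ 2 ^ (2 * ℓ + 8) := by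
        have h3 : j + 1 < 2 ^ (j + 1) := Nat.lt_two_pow_self
        have h4 : 2 ^ (j + 1) ≤ 2 ^ (2 * ℓ + 8) := Nat.pow_le_pow_right (by norm_num) (by omega)
        omega
      exact_mod_cast h2
    push_cast at h1
    exact h1
  have hτ1 : (2 * (P : ℝ)) ^ j = 2 ^ j * (P : ℝ) ^ j := mul_pow _ _ _
  have hmain := nodes P j M (2 * (C * 3 ^ j) + 1) (C * 5 ^ j) (C * 5 ^ (j + 1)) (X * η) (2 ^ (2 * j + 6) * X * η)
    (X * η * P / (P : ℝ) ^ j) (2 ^ (j + 3) * X * η / (P : ℝ) ^ (j + 1)) (2 ^ (j + 5) * (X * η) / (P : ℝ) ^ j)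
    (ε / B ^ 5) (ε ^ 2 / (2 * B ^ 11)) (B ^ 7 / ε) (B ^ 8 / ε) (2 ^ (j + 6)) F α V
    (by
      have h1 : ((2 ^ (j + 1) : ℕ) : ℝ) < P := by
        push_cast
        refine lt_of_le_of_lt ?_ hBP
        refine le_trans ?_ hB5
        exact pow_le_pow_right₀ (by norm_num) (by omega)
      exact_mod_cast h1)
    (by linarith) (by linarith) (by positivity) (by positivity)
    (by
      have h1 : 100 * (X * η * P / (P : ℝ) ^ j) * (P : ℝ) ^ 2 ≤ 100 * (X * η * P) * (P : ℝ) ^ 2 := by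
        have h2 : X * η * P / (P : ℝ) ^ j ≤ X * η * P := div_le_self (by positivity) hPj1
        have h3 : 0 ≤ (P : ℝ) ^ 2 := by positivity
        nlinarith only [h2, h3, mul_le_mul_of_nonneg_right h2 h3]
      refine h1.trans (le_trans ?_ hXP)
      have h4 : 0 ≤ X * η * (P : ℝ) ^ 3 := by positivity
      nlinarith only [h4, hjpow, mul_le_mul_of_nonneg_right hjpow h4])
    (by positivity) (by positivity) (by positivity)
    (by
      rw [le_div_iff₀ hε, one_mul]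
      exact hε1.trans (one_le_pow₀ hB))
    (by
      rw [hX]
      exact hV) hmult
    (by
      have h1 : (2 * (2 * (C * 3 ^ j) + 1) + 1) * (B ^ 7 / ε) ≤ B * (B ^ 7 / ε) :=
        mul_le_mul_of_nonneg_right h2c (by positivity)
      refine h1.trans (le_of_eq ?_)
      field_simp)
    (by
      have h1 : (B ^ 8 / ε) ^ 2 = (B ^ 16 * (2 * B ^ 22)) / (ε ^ 2 * (2 * B ^ 22)) := by
        field_simp
      have h2 : 2 * (ε ^ 2 / (2 * B ^ 11)) ^ 2 * (P : ℝ) = (ε ^ 6 * P) / (ε ^ 2 * (2 * B ^ 22)) := by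
        field_simp
      rw [h1, h2]
      refine div_lt_div_of_pos_right ?_ (by positivity)
      have h3 : ε ^ 8 * (P : ℝ) ≤ ε ^ 6 * P :=
        mul_le_mul_of_nonneg_right (pow_le_pow_of_le_one hε.le hε1 (by norm_num)) hP0.le
      have h4 : B ^ 38 ≤ B ^ 54 := pow_le_pow_right₀ hB (by norm_num)
      have h5 : B ^ 16 * (2 * B ^ 22) = 2 * B ^ 38 := by ring
      rw [h5]
      have h6 : 0 < B ^ 38 := by positivity
      linarith only [hPB, h3, h4, h6])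
    (by
      rw [h5s]
      linarith)
    (by
      have e1 : (2 * (P : ℝ)) ^ j * (2 * (X * η * P / (P : ℝ) ^ j) / P) + X * η = (2 ^ (j + 1) + 1) * (X * η) := by
        rw [hτ1, pow_succ]
        field_simp
      rw [e1, mul_assoc (2 ^ (2 * j + 6)) X η]
      refine mul_le_mul_of_nonneg_right ?_ (by positivity)
      have h1 : (2 : ℝ) ^ (2 * j + 6) = 2 ^ (j + 5) * 2 ^ (j + 1) := by
        rw [← pow_add]
        congr 1
        omega
      rw [h1]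
      have h2 : (2 : ℝ) ≤ 2 ^ (j + 5) := by
        calc (2 : ℝ) = 2 ^ 1 := by norm_num
          _ ≤ 2 ^ (j + 5) := pow_le_pow_right₀ (by norm_num) (by omega)
      have h3 : (1 : ℝ) ≤ 2 ^ (j + 1) := one_le_pow₀ (by norm_num)
      nlinarith only [h2, h3])
    (by
      have h1 : (P : ℝ) ≤ (P : ℝ) ^ 3 := le_self_pow₀ hP1 (by norm_num)
      have h2 : 0 ≤ 2 ^ (2 * j + 6) * X * η := by positivity
      have h3 : 40 * (2 ^ (2 * j + 6) * X * η) * P ≤ 40 * (2 ^ (2 * j + 6) * X * η) * (P : ℝ) ^ 3 :=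
        mul_le_mul_of_nonneg_left h1 (by positivity)
      refine h3.trans (le_trans ?_ hXP)
      have h4 : 0 ≤ (2 ^ (2 * j + 6) * X * η) * (P : ℝ) ^ 3 := by positivity
      nlinarith only [h4])
    (by
      have e1 : 2 * (X * η * P / (P : ℝ) ^ j) / P + 2 * P * (2 ^ (j + 3) * X * η / (P : ℝ) ^ (j + 1)) =
          (2 + 2 ^ (j + 4)) * (X * η) / (P : ℝ) ^ j := by
        rw [pow_succ (P : ℝ) j, pow_succ (2 : ℝ) (j + 3)]
        field_simp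
      rw [e1]
      refine div_le_div_of_nonneg_right ?_ hPj.le
      refine mul_le_mul_of_nonneg_right ?_ (by positivity)
      rw [pow_succ (2 : ℝ) (j + 4)]
      have h2 : (2 : ℝ) ≤ 2 ^ (j + 4) := by
        calc (2 : ℝ) = 2 ^ 1 := by norm_num
          _ ≤ 2 ^ (j + 4) := pow_le_pow_right₀ (by norm_num) (by omega)
      linarith only [h2])
    (by
      have e1 : 4 * (2 ^ (2 * j + 6) * X * η) / ((P : ℝ) ^ (j + 1) * (2 ^ (j + 3) * X * η / (P : ℝ) ^ (j + 1))) =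
          2 ^ (j + 5) := by
        have h1 : (P : ℝ) ^ (j + 1) * (2 ^ (j + 3) * X * η / (P : ℝ) ^ (j + 1)) = 2 ^ (j + 3) * X * η := by
          field_simp
        rw [h1, div_eq_iff (by positivity)]
        have h2 : (4 : ℝ) * 2 ^ (2 * j + 6) = 2 ^ (j + 5) * 2 ^ (j + 3) := by
          rw [← pow_add]
          have : j + 5 + (j + 3) = 2 * j + 6 + 2 := by omega
          rw [this, pow_add]
          norm_num
          ring
        calc 4 * (2 ^ (2 * j + 6) * X * η) = (4 * 2 ^ (2 * j + 6)) * (X * η) := by ring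
          _ = (2 ^ (j + 5) * 2 ^ (j + 3)) * (X * η) := by rw [h2]
          _ = 2 ^ (j + 5) * (2 ^ (j + 3) * X * η) := by ring
      rw [e1, pow_succ (2 : ℝ) (j + 5)]
      have h3 : (1 : ℝ) ≤ 2 ^ (j + 5) := one_le_pow₀ (by norm_num)
      linarith only [h3])
    (by
      have h1 := NodesP_big B ε P (2 * (C * 5 ^ (j + 1)) + 1) (2 ^ (j + 1))
        (((j : ℝ) + 1) * (2 * (2 * (C * 3 ^ j) + 1) + 1)) hB hε hP0 hPB ((P : ℝ) ^ j) hPj
        (by positivity) hL (by positivity)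
        (by
          refine le_trans ?_ hB5
          rw [← pow_mul]
          exact pow_le_pow_right₀ (by norm_num) (by omega))
        (by positivity)
        (by
          rw [pow_two]
          exact mul_le_mul hjB h2c (by positivity) hB0.le)
      have e1 : (2 * (P : ℝ)) ^ (j + 1) = 2 ^ (j + 1) * (P * (P : ℝ) ^ j) := by
        rw [mul_pow, pow_succ (P : ℝ) j, mul_comm ((P : ℝ) ^ j) (P : ℝ)]
      rw [e1]
      exact h1)
  obtain ⟨Γ, N, hN, hsum, hE⟩ := hmain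
  refine ⟨Γ, N, ?_, ?_, ?_⟩
  · refine hN.trans (le_of_eq ?_)
    field_simp
  · rw [hX1]
    refine hsum.trans (le_of_eq ?_)
    rw [mul_pow]
    have h1 : (2 : ℝ) ^ (2 * j + 8) = 2 * 2 ^ (j + 6) * 2 ^ (j + 1) := by
      have : 2 * j + 8 = 1 + (j + 6) + (j + 1) := by omega
      rw [this, pow_add, pow_add, pow_one]
    rw [h1]
    ring
  · rw [← hX]
    exact hE

end Pool.Agent.H74.MDX

end

section

/-!
# MDB PairF: the frequency inequality of a quadruple, and the near quadruples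

Let `q = ((i,p),(i',p')) ∈ QS C P U`, `j = s i`, `j' = s i'`, `nz (p α_i - p' α_i') ≤ 2 η P`.
`pair_f`: `p (b/d + T/i) - p' (b'/d' + T'/i') = [p α_i - p' α_i'] - p [α_i - b/d - T/i] + p' [α_i' - b'/d' - T'/i']`, `nz ≤ 2 η P + 2 P Q η + 2 P Q η ≤ 6 Q η P` (`nz_nat_mul`, `p, p' ≤ 2 P`, `1 ≤ Q`);
`p' T'/i' - p T'/i = T' (p' i - p i')/(i i')`, in absolute value `≤ Q η n^2 · 4 C P · C^2/n^2 = 4 C^3 Q η P` (`i, i' ≥ n/C`).  Together `≤ 10 C^3 Q η P`.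
`near`: if moreover `|T - T'| ≤ Z = Q^12 η n` then `|p (T - T')/i| ≤ 2 P Q^12 η n C/n = 2 C Q^12 η P`, so `nz (p b/d - p' b'/d') ≤ 10 C^3 Q η P + 2 C Q^12 η P ≤ 12 C^3 Q^12 η P < 1/Q^2 ≤ 1/(d d')`
(from `η Q^60 P^3 ≤ 1`, `200 C^10 ≤ Q`, `1 ≤ P`).  `p b/d - p' b'/d' = (p b d' - p' b' d)/(d d')`, so `d d' ∣ p b d' - p' b' d` by `nz_frac_ge`.  Hence `d ∣ p b d'`; `p` is a prime `> P ≥ Q ≥ d` so prime to `d`, and `b` is prime to `d`: `d ∣ d'`.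
In the same way `d' ∣ d`, so `d = d'`, and (cancel `d`) `p b ≡ p' b' mod d`.
-/

set_option autoImplicit false

namespace Pool.Agent.H53.MDB

open Finset
open Pool.Agent.H53.MID (nz)

theorem pair_f (C : ℝ) (hC : 1 ≤ C) (n P : ℕ) (Q η : ℝ) (α : ℕ → ℝ) (r : ℕ) (U : Finset ℕ) (s d b : ℕ → ℕ) (T : ℕ → ℝ)
    (hc : Cov C n Q η α r U s d b T) (hn : 1 ≤ n) (hP : 1 ≤ P) (hQ : 1 ≤ Q) (hη : 0 ≤ η) (q : (ℕ × ℕ) × (ℕ × ℕ)) (hq : q ∈ QS C P U)
    (hf : nz (q.1.2 * α q.1.1 - q.2.2 * α q.2.1) ≤ 2 * η * P) :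
    nz (q.1.2 * (b (s q.1.1) / d (s q.1.1)) - q.2.2 * (b (s q.2.1) / d (s q.2.1)) + q.1.2 * (T (s q.1.1) - T (s q.2.1)) / q.1.1)
      ≤ 10 * C ^ 3 * Q * η * P := by
  obtain ⟨hi, hp1, hp2, hpp, hi', hp1', hp2', hpp', hclose⟩ := mem_QS.1 hq
  have hC0 : (0 : ℝ) < C := by linarith only [hC]
  have hn0 : (0 : ℝ) < n := by exact_mod_cast hn
  have hP0 : (0 : ℝ) < P := by exact_mod_cast hP
  have hr1 := (hc.rng _ hi).1
  have hr2 := (hc.rng _ hi').1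
  have hnC : (0 : ℝ) < n / C := div_pos hn0 hC0
  have hi0 : (0 : ℝ) < q.1.1 := lt_of_lt_of_le hnC hr1
  have hi0' : (0 : ℝ) < q.2.1 := lt_of_lt_of_le hnC hr2
  have hf1 := hc.frq _ hi
  have hf2 := hc.frq _ hi'
  have hT' : |T (s q.2.1)| ≤ Q * η * (n : ℝ) ^ 2 := (hc.dat _ (hc.lab _ hi')).2.2.2
  have hp2R : (q.1.2 : ℝ) ≤ 2 * P := by exact_mod_cast hp2
  have hp2R' : (q.2.2 : ℝ) ≤ 2 * P := by exact_mod_cast hp2'
  have hkey : (q.1.2 : ℝ) * (b (s q.1.1) / d (s q.1.1)) - q.2.2 * (b (s q.2.1) / d (s q.2.1)) +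
      q.1.2 * (T (s q.1.1) - T (s q.2.1)) / q.1.1 =
      ((q.1.2 * α q.1.1 - q.2.2 * α q.2.1) -
        q.1.2 * (α q.1.1 - b (s q.1.1) / d (s q.1.1) - T (s q.1.1) / q.1.1)) +
      (q.2.2 * (α q.2.1 - b (s q.2.1) / d (s q.2.1) - T (s q.2.1) / q.2.1) +
        T (s q.2.1) * (q.1.1 * q.2.2 - q.2.1 * q.1.2) / (q.1.1 * q.2.1)) := by
    field_simp
    ring
  rw [hkey]
  have e1 : nz (q.1.2 * (α q.1.1 - b (s q.1.1) / d (s q.1.1) - T (s q.1.1) / q.1.1)) ≤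
      2 * P * (Q * η) := by
    refine (Pool.Agent.H53.MID.nz_nat_mul _ _).trans ?_
    exact mul_le_mul hp2R hf1 (Pool.Agent.H53.MID.nz_nonneg _) (by positivity)
  have e2 : nz (q.2.2 * (α q.2.1 - b (s q.2.1) / d (s q.2.1) - T (s q.2.1) / q.2.1)) ≤
      2 * P * (Q * η) := by
    refine (Pool.Agent.H53.MID.nz_nat_mul _ _).trans ?_
    exact mul_le_mul hp2R' hf2 (Pool.Agent.H53.MID.nz_nonneg _) (by positivity)
  have e3 : nz (T (s q.2.1) * (q.1.1 * q.2.2 - q.2.1 * q.1.2) / (q.1.1 * q.2.1)) ≤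
      4 * C ^ 3 * Q * η * P := by
    refine (Pool.Agent.H53.MID.nz_le_abs _).trans ?_
    rw [abs_div, abs_mul, abs_of_pos (mul_pos hi0 hi0'), div_le_iff₀ (mul_pos hi0 hi0')]
    have h1 : |T (s q.2.1)| * |(q.1.1 : ℝ) * q.2.2 - q.2.1 * q.1.2| ≤
        (Q * η * (n : ℝ) ^ 2) * (4 * C * P) :=
      mul_le_mul hT' hclose (abs_nonneg _) (by positivity)
    have h2 : (n / C) * (n / C) ≤ (q.1.1 : ℝ) * q.2.1 := mul_le_mul hr1 hr2 hnC.le hi0.le
    have h3 : (Q * η * (n : ℝ) ^ 2) * (4 * C * P) = 4 * C ^ 3 * Q * η * P * ((n / C) * (n / C)) := by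
      field_simp
    rw [h3] at h1
    exact h1.trans (mul_le_mul_of_nonneg_left h2 (by positivity))
  have e4 := Pool.Agent.H53.MID.nz_add ((q.1.2 * α q.1.1 - q.2.2 * α q.2.1) -
        q.1.2 * (α q.1.1 - b (s q.1.1) / d (s q.1.1) - T (s q.1.1) / q.1.1))
      (q.2.2 * (α q.2.1 - b (s q.2.1) / d (s q.2.1) - T (s q.2.1) / q.2.1) +
        T (s q.2.1) * (q.1.1 * q.2.2 - q.2.1 * q.1.2) / (q.1.1 * q.2.1))
  have e5 := Pool.Agent.H53.MID.nz_sub (q.1.2 * α q.1.1 - q.2.2 * α q.2.1)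
    (q.1.2 * (α q.1.1 - b (s q.1.1) / d (s q.1.1) - T (s q.1.1) / q.1.1))
  have e6 := Pool.Agent.H53.MID.nz_add (q.2.2 * (α q.2.1 - b (s q.2.1) / d (s q.2.1) - T (s q.2.1) / q.2.1))
    (T (s q.2.1) * (q.1.1 * q.2.2 - q.2.1 * q.1.2) / (q.1.1 * q.2.1))
  have hC3 : 1 ≤ C ^ 3 := one_le_pow₀ hC
  have hX : 0 ≤ Q * η * P := by positivity
  have f1 : 2 * η * P ≤ 2 * C ^ 3 * (Q * η * P) := by
    have g1 : η * P ≤ Q * (η * P) := le_mul_of_one_le_left (by positivity) hQ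
    have g2 : Q * η * P ≤ C ^ 3 * (Q * η * P) := le_mul_of_one_le_left hX hC3
    nlinarith only [g1, g2]
  have f2 : Q * η * P ≤ C ^ 3 * (Q * η * P) := le_mul_of_one_le_left hX hC3
  nlinarith only [hf, e1, e2, e3, e4, e5, e6, f1, f2]

theorem near (C : ℝ) (hC : 1 ≤ C) (n P : ℕ) (Q η : ℝ) (α : ℕ → ℝ) (r : ℕ) (U : Finset ℕ) (s d b : ℕ → ℕ) (T : ℕ → ℝ)
    (hc : Cov C n Q η α r U s d b T) (hn : 1 ≤ n) (hP : 1 ≤ P) (hQ : 200 * C ^ 10 ≤ Q) (hQP : Q ≤ P) (hη : 0 ≤ η)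
    (hηQ : η * Q ^ 60 * (P : ℝ) ^ 3 ≤ 1) (q : (ℕ × ℕ) × (ℕ × ℕ)) (hq : q ∈ QS C P U)
    (hf : nz (q.1.2 * α q.1.1 - q.2.2 * α q.2.1) ≤ 2 * η * P) (hT : |T (s q.1.1) - T (s q.2.1)| ≤ Q ^ 12 * η * n) :
    d (s q.1.1) = d (s q.2.1) ∧ q.1.2 * b (s q.1.1) ≡ q.2.2 * b (s q.2.1) [MOD d (s q.1.1)] := by
  obtain ⟨hi, hp1, hp2, hpp, hi', hp1', hp2', hpp', hclose⟩ := mem_QS.1 hq
  have hC0 : (0 : ℝ) < C := by linarith only [hC]
  have hn0 : (0 : ℝ) < n := by exact_mod_cast hn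
  have hP0 : (0 : ℝ) < P := by exact_mod_cast hP
  have hP1 : (1 : ℝ) ≤ P := by exact_mod_cast hP
  have hC10 : 1 ≤ C ^ 10 := one_le_pow₀ hC
  have hQ1 : 1 ≤ Q := by nlinarith only [hQ, hC10]
  have hQ0 : 0 < Q := by linarith only [hQ, hC10]
  have hr1 := (hc.rng _ hi).1
  have hnC : (0 : ℝ) < n / C := div_pos hn0 hC0
  have hi0 : (0 : ℝ) < q.1.1 := lt_of_lt_of_le hnC hr1
  have hp2R : (q.1.2 : ℝ) ≤ 2 * P := by exact_mod_cast hp2
  obtain ⟨hd1, hdQ, hbd, -⟩ := hc.dat _ (hc.lab _ hi)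
  obtain ⟨hd1', hdQ', hbd', -⟩ := hc.dat _ (hc.lab _ hi')
  have h1 := pair_f C hC n P Q η α r U s d b T hc hn hP hQ1 hη q hq hf
  -- the error of the frequencies
  have h2 : |(q.1.2 : ℝ) * (T (s q.1.1) - T (s q.2.1)) / q.1.1| ≤ 2 * C * Q ^ 12 * η * P := by
    rw [abs_div, abs_mul, abs_of_pos hi0, div_le_iff₀ hi0, Nat.abs_cast]
    have g1 : (q.1.2 : ℝ) * |T (s q.1.1) - T (s q.2.1)| ≤ (2 * P) * (Q ^ 12 * η * n) :=
      mul_le_mul hp2R hT (abs_nonneg _) (by positivity)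
    have g2 : (2 * P) * (Q ^ 12 * η * n) = 2 * C * Q ^ 12 * η * P * (n / C) := by
      field_simp
    rw [g2] at g1
    exact g1.trans (mul_le_mul_of_nonneg_left hr1 (by positivity))
  have h3 : nz ((q.1.2 : ℝ) * (b (s q.1.1) / d (s q.1.1)) - q.2.2 * (b (s q.2.1) / d (s q.2.1))) ≤
      12 * C ^ 3 * Q ^ 12 * η * P := by
    have g1 : (q.1.2 : ℝ) * (b (s q.1.1) / d (s q.1.1)) - q.2.2 * (b (s q.2.1) / d (s q.2.1)) =
        (q.1.2 * (b (s q.1.1) / d (s q.1.1)) - q.2.2 * (b (s q.2.1) / d (s q.2.1)) +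
          q.1.2 * (T (s q.1.1) - T (s q.2.1)) / q.1.1) -
        q.1.2 * (T (s q.1.1) - T (s q.2.1)) / q.1.1 := by ring
    rw [g1]
    refine (Pool.Agent.H53.MID.nz_sub _ _).trans ?_
    have g2 := (Pool.Agent.H53.MID.nz_le_abs ((q.1.2 : ℝ) * (T (s q.1.1) - T (s q.2.1)) / q.1.1)).trans h2
    have g3 : Q ≤ Q ^ 12 := le_self_pow₀ hQ1 (by norm_num)
    have g4 : C ≤ C ^ 3 := le_self_pow₀ hC (by norm_num)
    have hX : 0 ≤ η * P := by positivity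
    have g5 : 10 * C ^ 3 * Q * η * P ≤ 10 * C ^ 3 * Q ^ 12 * η * P := by
      have : C ^ 3 * Q * (η * P) ≤ C ^ 3 * Q ^ 12 * (η * P) :=
        mul_le_mul_of_nonneg_right (mul_le_mul_of_nonneg_left g3 (by positivity)) hX
      nlinarith only [this]
    have g6 : 2 * C * Q ^ 12 * η * P ≤ 2 * C ^ 3 * Q ^ 12 * η * P := by
      have : C * Q ^ 12 * (η * P) ≤ C ^ 3 * Q ^ 12 * (η * P) :=
        mul_le_mul_of_nonneg_right (mul_le_mul_of_nonneg_right g4 (by positivity)) hX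
      nlinarith only [this]
    linarith only [h1, g2, g5, g6]
  have h4 : 12 * C ^ 3 * Q ^ 12 * η * P < 1 / ((d (s q.1.1) * d (s q.2.1) : ℕ) : ℝ) := by
    have hd0 : (0 : ℝ) < d (s q.1.1) := by exact_mod_cast hd1
    have hd0' : (0 : ℝ) < d (s q.2.1) := by exact_mod_cast hd1'
    rw [Nat.cast_mul, lt_div_iff₀ (mul_pos hd0 hd0')]
    have g1 : (d (s q.1.1) : ℝ) * d (s q.2.1) ≤ Q * Q := mul_le_mul hdQ hdQ' hd0'.le hQ0.le
    have g2 : 12 * C ^ 3 ≤ Q := by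
      have : C ^ 3 ≤ C ^ 10 := pow_le_pow_right₀ hC (by norm_num)
      nlinarith only [hQ, hC10, this]
    have g3 : 12 * C ^ 3 * Q ^ 12 * η * P * (d (s q.1.1) * d (s q.2.1)) ≤
        Q * Q ^ 12 * η * P * (Q * Q) := by
      refine mul_le_mul ?_ g1 (by positivity) (by positivity)
      have : 12 * C ^ 3 * (Q ^ 12 * η * P) ≤ Q * (Q ^ 12 * η * P) :=
        mul_le_mul_of_nonneg_right g2 (by positivity)
      nlinarith only [this]
    refine lt_of_le_of_lt g3 ?_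
    rcases hη.eq_or_lt with h0 | h0
    · rw [← h0]; simp
    have hQ2 : 1 < Q := by nlinarith only [hQ, hC10]
    have g4 : Q * Q ^ 12 * η * P * (Q * Q) < η * Q ^ 60 * (P : ℝ) ^ 3 := by
      have k1 : Q ^ 15 < Q ^ 60 := pow_lt_pow_right₀ hQ2 (by norm_num)
      have k2 : (P : ℝ) ≤ (P : ℝ) ^ 3 := le_self_pow₀ hP1 (by norm_num)
      have k3 : Q ^ 15 * P < Q ^ 60 * (P : ℝ) ^ 3 := by
        calc Q ^ 15 * P < Q ^ 60 * P := mul_lt_mul_of_pos_right k1 hP0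
          _ ≤ Q ^ 60 * (P : ℝ) ^ 3 := mul_le_mul_of_nonneg_left k2 (by positivity)
      have k4 := mul_lt_mul_of_pos_left k3 h0
      calc Q * Q ^ 12 * η * P * (Q * Q) = η * (Q ^ 15 * P) := by ring
        _ < η * (Q ^ 60 * (P : ℝ) ^ 3) := k4
        _ = η * Q ^ 60 * (P : ℝ) ^ 3 := by ring
    exact lt_of_lt_of_le g4 hηQ
  have h5 : (((q.1.2 * b (s q.1.1) * d (s q.2.1) : ℕ) : ℤ) -
      ((q.2.2 * b (s q.2.1) * d (s q.1.1) : ℕ) : ℤ) : ℤ) = _ := rfl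
  have hdd : 0 < d (s q.1.1) * d (s q.2.1) := Nat.mul_pos hd1 hd1'
  have h6 : ((d (s q.1.1) * d (s q.2.1) : ℕ) : ℤ) ∣
      ((q.1.2 * b (s q.1.1) * d (s q.2.1) : ℕ) : ℤ) -
      ((q.2.2 * b (s q.2.1) * d (s q.1.1) : ℕ) : ℤ) := by
    by_contra hcon
    have g1 := Pool.Agent.H53.MID.nz_frac_ge _ _ hdd hcon
    have g2 : ((((q.1.2 * b (s q.1.1) * d (s q.2.1) : ℕ) : ℤ) -
      ((q.2.2 * b (s q.2.1) * d (s q.1.1) : ℕ) : ℤ) : ℤ) : ℝ) /
        ((d (s q.1.1) * d (s q.2.1) : ℕ) : ℝ) =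
        (q.1.2 : ℝ) * (b (s q.1.1) / d (s q.1.1)) - q.2.2 * (b (s q.2.1) / d (s q.2.1)) := by
      have hd0 : (d (s q.1.1) : ℝ) ≠ 0 := by
        have : (0 : ℝ) < d (s q.1.1) := by exact_mod_cast hd1
        exact this.ne'
      have hd0' : (d (s q.2.1) : ℝ) ≠ 0 := by
        have : (0 : ℝ) < d (s q.2.1) := by exact_mod_cast hd1'
        exact this.ne'
      push_cast
      field_simp
    rw [g2] at g1
    linarith only [h3, h4, g1]
  have hPd : ∀ e : ℕ, (e : ℝ) ≤ Q → e ≤ P := by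
    intro e he
    have : (e : ℝ) ≤ P := he.trans hQP
    exact_mod_cast this
  have hcop : ∀ (e p : ℕ), 1 ≤ e → (e : ℝ) ≤ Q → p.Prime → P < p → Nat.Coprime e p := by
    intro e p he1 he hp hPp
    rw [Nat.coprime_comm, Nat.Prime.coprime_iff_not_dvd hp]
    intro hdvd
    have := Nat.le_of_dvd (by omega) hdvd
    have := hPd e he
    omega
  have h7 : d (s q.1.1) ∣ d (s q.2.1) := by
    have g1 : ((d (s q.1.1) : ℕ) : ℤ) ∣ ((q.1.2 * b (s q.1.1) * d (s q.2.1) : ℕ) : ℤ) := by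
      have g2 : ((d (s q.1.1) : ℕ) : ℤ) ∣ ((q.1.2 * b (s q.1.1) * d (s q.2.1) : ℕ) : ℤ) -
          ((q.2.2 * b (s q.2.1) * d (s q.1.1) : ℕ) : ℤ) := by
        refine dvd_trans ?_ h6
        exact_mod_cast dvd_mul_right _ _
      have g3 : ((d (s q.1.1) : ℕ) : ℤ) ∣ ((q.2.2 * b (s q.2.1) * d (s q.1.1) : ℕ) : ℤ) := by
        exact_mod_cast dvd_mul_left _ _
      have g4 := dvd_add g2 g3
      simpa using g4
    have g5 : d (s q.1.1) ∣ q.1.2 * b (s q.1.1) * d (s q.2.1) := by exact_mod_cast g1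
    refine Nat.Coprime.dvd_of_dvd_mul_left ?_ g5
    exact Nat.Coprime.mul_right (hcop _ _ hd1 hdQ hpp hp1) hbd.symm
  have h8 : d (s q.2.1) ∣ d (s q.1.1) := by
    have g1 : ((d (s q.2.1) : ℕ) : ℤ) ∣ ((q.2.2 * b (s q.2.1) * d (s q.1.1) : ℕ) : ℤ) := by
      have g2 : ((d (s q.2.1) : ℕ) : ℤ) ∣ ((q.1.2 * b (s q.1.1) * d (s q.2.1) : ℕ) : ℤ) -
          ((q.2.2 * b (s q.2.1) * d (s q.1.1) : ℕ) : ℤ) := by
        refine dvd_trans ?_ h6
        exact_mod_cast dvd_mul_left _ _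
      have g3 : ((d (s q.2.1) : ℕ) : ℤ) ∣ ((q.1.2 * b (s q.1.1) * d (s q.2.1) : ℕ) : ℤ) := by
        exact_mod_cast dvd_mul_left _ _
      have g4 := dvd_sub g3 g2
      simpa using g4
    have g5 : d (s q.2.1) ∣ q.2.2 * b (s q.2.1) * d (s q.1.1) := by exact_mod_cast g1
    refine Nat.Coprime.dvd_of_dvd_mul_left ?_ g5
    exact Nat.Coprime.mul_right (hcop _ _ hd1' hdQ' hpp' hp1') hbd'.symm
  have h9 : d (s q.1.1) = d (s q.2.1) := Nat.dvd_antisymm h7 h8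
  refine ⟨h9, ?_⟩
  rw [← h9] at h6
  have h10 : ((d (s q.1.1) : ℕ) : ℤ) * (d (s q.1.1) : ℕ) ∣
      ((d (s q.1.1) : ℕ) : ℤ) * (((q.1.2 * b (s q.1.1) : ℕ) : ℤ) - ((q.2.2 * b (s q.2.1) : ℕ) : ℤ)) := by
    have g1 : ((d (s q.1.1) : ℕ) : ℤ) *
        (((q.1.2 * b (s q.1.1) : ℕ) : ℤ) - ((q.2.2 * b (s q.2.1) : ℕ) : ℤ)) =
        ((q.1.2 * b (s q.1.1) * d (s q.1.1) : ℕ) : ℤ) -
        ((q.2.2 * b (s q.2.1) * d (s q.1.1) : ℕ) : ℤ) := by
      push_cast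
      ring
    rw [g1]
    have g2 : ((d (s q.1.1) : ℕ) : ℤ) * (d (s q.1.1) : ℕ) =
        ((d (s q.1.1) * d (s q.1.1) : ℕ) : ℤ) := by push_cast; ring
    rw [g2]
    exact h6
  have hd0Z : ((d (s q.1.1) : ℕ) : ℤ) ≠ 0 := by
    have : d (s q.1.1) ≠ 0 := by omega
    exact_mod_cast this
  have h11 := (mul_dvd_mul_iff_left hd0Z).1 h10
  exact (Nat.modEq_iff_dvd.2 h11).symm

end Pool.Agent.H53.MDB

end

section

/-!
# MDB Far: few quadruples with `|T - T'| > Z = Q^12 η n`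

Proof.  Let `q = ((i,p),(i',p'))` be such a quadruple, `j = s i`, `j' = s i'` (`< r`), `V = d_j d_j' (T_j - T_j')`: `Z < |V| ≤ 2 Q^3 η n^2` (`1 ≤ d_j d_j' ≤ Q^2`, `|T_j - T_j'| ≤ 2 Q η n^2`).
Multiply `pair_f` by the natural number `d_j d_j' ≤ Q^2` (`nz_nat_mul`); `d_j d_j' (p b_j/d_j - p' b_j'/d_j')` is an integer: `nz (V p/i) ≤ κ := 10 C^3 Q^3 η P`.
For fixed `j, j', p` the set `S` of the `i ∈ U` with `nz (V p/i) ≤ κ` has by `osc` (`W = V p`, `|W| ≤ 4 Q^3 η n^2 P`, `|W| ≥ Z P`) at most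
`(C |W|/n + 2)(2 κ C^2 n^2/|W| + 1) = 2 κ C^3 n + C |W|/n + 4 κ C^2 n^2/|W| + 2 ≤ n/Q^6` elements: the four terms are `≤ n/(4 Q^6)` each:
`20 C^6 Q^3 η P n` and `4 C Q^3 η P n`: from `η Q^60 P^3 ≤ 1`, `200 C^10 ≤ Q`, `1 ≤ P`; `4 κ C^2 n^2/|W| ≤ 40 C^5 Q^3 η P n^2/(Q^12 η n P) = 40 C^5 n/Q^9`, `160 C^5 ≤ Q^3`; `2 ≤ n/(4 Q^6)`: `8 Q^6 ≤ n`.
For given `i, p` there are at most `P (8 C + 1)` pairs `(i', p')`: `p' ∈ (P, 2P]` and `|i' - i p'/p| ≤ 4 C P/p < 4 C` (an interval of length `8 C` contains at most `8 C + 1` integers).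
So the number of quadruples is at most `∑_{j, j' < r} ∑_{p ∈ (P,2P]} (n/Q^6) · P (8C+1) ≤ (C Q)^2 P (n/Q^6) P (8 C + 1) ≤ n P^2/Q^3` (`9 C^3 ≤ Q`).
Formalization hint: the set of quadruples is contained in the union over `(j, j') ∈ range r × range r` with `|T_j - T_j'| > Z` and `p ∈ Ioc P (2P)` of the sets `{q : q.1.2 = p, q.1.1 ∈ S_{j,j',p}, q.2 ∈ E(q.1)}` (`Finset.card_biUnion_le`).
-/

set_option autoImplicit false

namespace Pool.Agent.H53.MDB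

open Finset
open Pool.Agent.H53.MID (nz)

private theorem Far_fib {α β : Type*} [DecidableEq β] (A : Finset α) (g : α → β) (B : Finset β) (M : ℝ)
    (h : ∀ a ∈ A, g a ∈ B) (hM : ∀ b ∈ B, ((A.filter (fun a => g a = b)).card : ℝ) ≤ M) :
    (A.card : ℝ) ≤ B.card * M := by
  rw [Finset.card_eq_sum_card_fiberwise h]
  push_cast
  refine (Finset.sum_le_sum hM).trans ?_
  rw [Finset.sum_const, nsmul_eq_mul]

private theorem Far_card (S : Finset ℕ) (a L : ℝ) (hL : 0 ≤ L) (h : ∀ x ∈ S, |(x : ℝ) - a| ≤ L) :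
    (S.card : ℝ) ≤ 2 * L + 1 := by
  rcases S.eq_empty_or_nonempty with h0 | h0
  · rw [h0, Finset.card_empty]
    push_cast
    linarith
  · have h1 : S ⊆ Finset.Icc (S.min' h0) (S.max' h0) := fun x hx =>
      Finset.mem_Icc.2 ⟨S.min'_le x hx, S.le_max' x hx⟩
    have h2 := Finset.card_le_card h1
    rw [Nat.card_Icc] at h2
    have h3 := abs_le.1 (h _ (S.min'_mem h0))
    have h4 := abs_le.1 (h _ (S.max'_mem h0))
    have h5 : S.min' h0 ≤ S.max' h0 := S.min'_le _ (S.max'_mem h0)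
    have h6 : (S.card : ℝ) ≤ (S.max' h0 : ℝ) + 1 - S.min' h0 := by
      have h7 : S.card + S.min' h0 ≤ S.max' h0 + 1 := by omega
      have h8 : ((S.card + S.min' h0 : ℕ) : ℝ) ≤ ((S.max' h0 + 1 : ℕ) : ℝ) := by exact_mod_cast h7
      push_cast at h8
      linarith
    linarith [h3.1, h4.2]

private theorem Far_Q {C Q : ℝ} (hC : 1 ≤ C) (hQ : 200 * C ^ 10 ≤ Q) : 200 ≤ Q ∧ 200 * C ^ 6 ≤ Q ∧
    200 * C ^ 5 ≤ Q ∧ 200 * C ^ 3 ≤ Q ∧ 200 * C ≤ Q := by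
  have h1 : (1 : ℝ) ≤ C ^ 10 := one_le_pow₀ hC
  have h2 : C ^ 6 ≤ C ^ 10 := pow_le_pow_right₀ hC (by norm_num)
  have h3 : C ^ 5 ≤ C ^ 10 := pow_le_pow_right₀ hC (by norm_num)
  have h4 : C ^ 3 ≤ C ^ 10 := pow_le_pow_right₀ hC (by norm_num)
  have h5 : C ^ 1 ≤ C ^ 10 := pow_le_pow_right₀ hC (by norm_num)
  rw [pow_one] at h5
  refine ⟨?_, ?_, ?_, ?_, ?_⟩ <;> linarith

private theorem Far_num {C Q n P η w : ℝ} (hC : 1 ≤ C) (hQ : 200 * C ^ 10 ≤ Q) (hP : 1 ≤ P) (hQn : 8 * Q ^ 6 ≤ n)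
    (hη : 0 < η) (hηQ : η * Q ^ 60 * P ^ 3 ≤ 1) (hw1 : Q ^ 12 * η * n * P ≤ w) (hw2 : w ≤ 4 * Q ^ 3 * η * n ^ 2 * P) :
    10 * C ^ 3 * Q ^ 3 * η * P ≤ 1 / 2 ∧
    (C * w / n + 2) * (2 * (10 * C ^ 3 * Q ^ 3 * η * P) * C ^ 2 * n ^ 2 / w + 1) ≤ n / Q ^ 6 := by
  obtain ⟨hQ0, hQ6, hQ5, hQ3, hQC⟩ := Far_Q hC hQ
  have hQp : 0 < Q := by linarith
  have hQ1 : 1 ≤ Q := by linarith
  have hCp : 0 < C := by linarith
  have hPp : 0 < P := by linarith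
  have hn : 0 < n := lt_of_lt_of_le (by positivity) hQn
  have hwp : 0 < w := lt_of_lt_of_le (by positivity) hw1
  obtain ⟨e, he⟩ : ∃ e : ℝ, e = η * P := ⟨_, rfl⟩
  have hep : 0 < e := by
    rw [he]
    positivity
  have he60 : Q ^ 60 * e ≤ 1 := by
    have h1 : P ≤ P ^ 3 := by
      have := pow_le_pow_right₀ hP (show 1 ≤ 3 by norm_num)
      rwa [pow_one] at this
    have h2 : η * Q ^ 60 * P ≤ η * Q ^ 60 * P ^ 3 := mul_le_mul_of_nonneg_left h1 (by positivity)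
    rw [he]
    linarith
  have hpow : ∀ k : ℕ, k ≤ 60 → Q ^ k * e ≤ 1 := fun k hk =>
    (mul_le_mul_of_nonneg_right (pow_le_pow_right₀ hQ1 hk) hep.le).trans he60
  have k1 : 80 * C ^ 6 * Q ^ 9 * e ≤ 1 := by
    have h1 : 80 * C ^ 6 ≤ Q := by
      have : 0 ≤ C ^ 6 := by positivity
      linarith
    have h2 : 80 * C ^ 6 * (Q ^ 9 * e) ≤ Q * (Q ^ 9 * e) := mul_le_mul_of_nonneg_right h1 (by positivity)
    have h3 := hpow 10 (by norm_num)
    calc 80 * C ^ 6 * Q ^ 9 * e = 80 * C ^ 6 * (Q ^ 9 * e) := by ring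
      _ ≤ Q * (Q ^ 9 * e) := h2
      _ = Q ^ 10 * e := by ring
      _ ≤ 1 := h3
  have k2 : 16 * C * Q ^ 9 * e ≤ 1 := by
    have h1 : 16 * C ≤ Q := by linarith
    have h2 : 16 * C * (Q ^ 9 * e) ≤ Q * (Q ^ 9 * e) := mul_le_mul_of_nonneg_right h1 (by positivity)
    have h3 := hpow 10 (by norm_num)
    calc 16 * C * Q ^ 9 * e = 16 * C * (Q ^ 9 * e) := by ring
      _ ≤ Q * (Q ^ 9 * e) := h2
      _ = Q ^ 10 * e := by ring
      _ ≤ 1 := h3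
  have k3 : 160 * C ^ 5 ≤ Q ^ 3 := by
    have h1 : Q ≤ Q ^ 3 := by
      have := pow_le_pow_right₀ hQ1 (show 1 ≤ 3 by norm_num)
      rwa [pow_one] at this
    have : 0 ≤ C ^ 5 := by positivity
    linarith
  have k0 : 20 * C ^ 3 * Q ^ 3 * e ≤ 1 := by
    have h1 : 20 * C ^ 3 ≤ Q := by
      have : 0 ≤ C ^ 3 := by positivity
      linarith
    have h2 : 20 * C ^ 3 * (Q ^ 3 * e) ≤ Q * (Q ^ 3 * e) := mul_le_mul_of_nonneg_right h1 (by positivity)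
    have h3 := hpow 4 (by norm_num)
    calc 20 * C ^ 3 * Q ^ 3 * e = 20 * C ^ 3 * (Q ^ 3 * e) := by ring
      _ ≤ Q * (Q ^ 3 * e) := h2
      _ = Q ^ 4 * e := by ring
      _ ≤ 1 := h3
  have hκ : 10 * C ^ 3 * Q ^ 3 * η * P = 10 * C ^ 3 * Q ^ 3 * e := by
    rw [he]
    ring
  rw [hκ]
  refine ⟨by linarith, ?_⟩
  have hw1' : Q ^ 12 * n * e ≤ w := by
    rw [he]
    calc Q ^ 12 * n * (η * P) = Q ^ 12 * η * n * P := by ring
      _ ≤ w := hw1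
  have hw2' : w ≤ 4 * Q ^ 3 * n ^ 2 * e := by
    rw [he]
    calc w ≤ 4 * Q ^ 3 * η * n ^ 2 * P := hw2
      _ = _ := by ring
  have t1 : C * w / n * (2 * (10 * C ^ 3 * Q ^ 3 * e) * C ^ 2 * n ^ 2 / w) = 20 * C ^ 6 * Q ^ 3 * e * n := by
    field_simp
    ring
  have t1' : 20 * C ^ 6 * Q ^ 3 * e * n ≤ n / Q ^ 6 / 4 := by
    have h1 : 20 * C ^ 6 * Q ^ 3 * e * n = (80 * C ^ 6 * Q ^ 9 * e) * (n / Q ^ 6 / 4) := by
      field_simp
      ring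
    rw [h1]
    exact mul_le_of_le_one_left (by positivity) k1
  have t2 : C * w / n ≤ n / Q ^ 6 / 4 := by
    rw [div_le_iff₀ hn]
    have h1 : C * (4 * Q ^ 3 * n ^ 2 * e) = (16 * C * Q ^ 9 * e) * (n / Q ^ 6 / 4 * n) := by
      field_simp
      ring
    calc C * w ≤ C * (4 * Q ^ 3 * n ^ 2 * e) := mul_le_mul_of_nonneg_left hw2' hCp.le
      _ = (16 * C * Q ^ 9 * e) * (n / Q ^ 6 / 4 * n) := h1
      _ ≤ n / Q ^ 6 / 4 * n := mul_le_of_le_one_left (by positivity) k2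
  have t3 : 2 * (2 * (10 * C ^ 3 * Q ^ 3 * e) * C ^ 2 * n ^ 2 / w) ≤ n / Q ^ 6 / 4 := by
    have h0 : 2 * (2 * (10 * C ^ 3 * Q ^ 3 * e) * C ^ 2 * n ^ 2 / w) = (40 * C ^ 5 * Q ^ 3 * e * n ^ 2) / w := by
      ring
    rw [h0, div_le_iff₀ hwp]
    have h1 : n / Q ^ 6 / 4 * (Q ^ 12 * n * e) = Q ^ 3 * (Q ^ 3 * e * n ^ 2 / 4) := by
      field_simp
    calc 40 * C ^ 5 * Q ^ 3 * e * n ^ 2 = 160 * C ^ 5 * (Q ^ 3 * e * n ^ 2 / 4) := by ring
      _ ≤ Q ^ 3 * (Q ^ 3 * e * n ^ 2 / 4) := mul_le_mul_of_nonneg_right k3 (by positivity)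
      _ = n / Q ^ 6 / 4 * (Q ^ 12 * n * e) := h1.symm
      _ ≤ n / Q ^ 6 / 4 * w := mul_le_mul_of_nonneg_left hw1' (by positivity)
  have t4 : 2 ≤ n / Q ^ 6 / 4 := by
    rw [le_div_iff₀ (by norm_num : (0 : ℝ) < 4), le_div_iff₀ (by positivity)]
    linarith
  calc (C * w / n + 2) * (2 * (10 * C ^ 3 * Q ^ 3 * e) * C ^ 2 * n ^ 2 / w + 1)
      = C * w / n * (2 * (10 * C ^ 3 * Q ^ 3 * e) * C ^ 2 * n ^ 2 / w) + C * w / n +
        2 * (2 * (10 * C ^ 3 * Q ^ 3 * e) * C ^ 2 * n ^ 2 / w) + 2 := by ring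
    _ ≤ n / Q ^ 6 := by
      rw [t1]
      linarith

open Classical in
theorem far (C : ℝ) (hC : 1 ≤ C) (n P : ℕ) (Q η : ℝ) (α : ℕ → ℝ) (r : ℕ) (U : Finset ℕ) (s d b : ℕ → ℕ) (T : ℕ → ℝ)
    (hc : Cov C n Q η α r U s d b T) (hP : 1 ≤ P) (hQ : 200 * C ^ 10 ≤ Q) (hQn : 8 * Q ^ 6 ≤ n) (hη : 0 < η)
    (hηQ : η * Q ^ 60 * (P : ℝ) ^ 3 ≤ 1) :
    (((QS C P U).filter (fun q => nz (q.1.2 * α q.1.1 - q.2.2 * α q.2.1) ≤ 2 * η * P ∧
      Q ^ 12 * η * n < |T (s q.1.1) - T (s q.2.1)|)).card : ℝ) ≤ n * P ^ 2 / Q ^ 3 := by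
  obtain ⟨hQ0, hQ6, hQ5, hQ3, hQC⟩ := Far_Q hC hQ
  have hQp : 0 < Q := by linarith
  have hQ1 : 1 ≤ Q := by linarith
  have hCp : 0 < C := by linarith
  have hP' : (1 : ℝ) ≤ P := by exact_mod_cast hP
  have hPp : (0 : ℝ) < P := by linarith
  have hnp : (0 : ℝ) < n := lt_of_lt_of_le (by positivity) hQn
  have hn : 1 ≤ n := by
    have : 0 < n := by exact_mod_cast hnp
    omega
  obtain ⟨A, hA⟩ : ∃ A, A = (QS C P U).filter (fun q => nz (q.1.2 * α q.1.1 - q.2.2 * α q.2.1) ≤ 2 * η * P ∧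
      Q ^ 12 * η * n < |T (s q.1.1) - T (s q.2.1)|) := ⟨_, rfl⟩
  rw [← hA]
  have hAm : ∀ q ∈ A, q ∈ QS C P U ∧ nz (q.1.2 * α q.1.1 - q.2.2 * α q.2.1) ≤ 2 * η * P ∧
      Q ^ 12 * η * n < |T (s q.1.1) - T (s q.2.1)| := by
    intro q hq
    rw [hA, Finset.mem_filter] at hq
    exact hq
  have hlev : ∀ x ∈ range r ×ˢ range r ×ˢ Ioc P (2 * P),
      ((A.filter (fun q => (s q.1.1, s q.2.1, q.1.2) = x)).card : ℝ) ≤ (n / Q ^ 6) * (P * (8 * C + 1)) := by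
    rintro ⟨j, j', p⟩ hx
    rw [mem_product, mem_product, mem_range, mem_range, mem_Ioc] at hx
    obtain ⟨hj, hj', hp1, hp2⟩ := hx
    have hp1' : (P : ℝ) < p := by exact_mod_cast hp1
    have hp2' : (p : ℝ) ≤ 2 * P := by exact_mod_cast hp2
    have hpp : (0 : ℝ) < p := by linarith
    obtain ⟨A1, hA1⟩ : ∃ A1, A1 = A.filter (fun q => (s q.1.1, s q.2.1, q.1.2) = (j, j', p)) := ⟨_, rfl⟩
    rw [← hA1]
    have hA1m : ∀ q ∈ A1, q ∈ A ∧ s q.1.1 = j ∧ s q.2.1 = j' ∧ q.1.2 = p := by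
      intro q hq
      rw [hA1, Finset.mem_filter, Prod.mk.injEq, Prod.mk.injEq] at hq
      exact hq
    have hfib3 : ∀ i ∈ A1.image (fun q => q.1.1), ((A1.filter (fun q => q.1.1 = i)).card : ℝ) ≤ P * (8 * C + 1) := by
      intro i _
      obtain ⟨A2, hA2⟩ : ∃ A2, A2 = A1.filter (fun q => q.1.1 = i) := ⟨_, rfl⟩
      rw [← hA2]
      have hA2m : ∀ q ∈ A2, q ∈ A1 ∧ q.1.1 = i := by
        intro q hq
        rw [hA2, Finset.mem_filter] at hq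
        exact hq
      have h4 : ∀ p' ∈ Ioc P (2 * P), ((A2.filter (fun q => q.2.2 = p')).card : ℝ) ≤ 8 * C + 1 := by
        intro p' _
        obtain ⟨A3, hA3⟩ : ∃ A3, A3 = A2.filter (fun q => q.2.2 = p') := ⟨_, rfl⟩
        rw [← hA3]
        have hA3m : ∀ q ∈ A3, q ∈ A2 ∧ q.2.2 = p' := by
          intro q hq
          rw [hA3, Finset.mem_filter] at hq
          exact hq
        have hinj : Set.InjOn (fun q : (ℕ × ℕ) × (ℕ × ℕ) => q.2.1) (A3 : Set ((ℕ × ℕ) × (ℕ × ℕ))) := by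
          intro q hq q' hq' h
          have hq := Finset.mem_coe.1 hq
          have hq' := Finset.mem_coe.1 hq'
          have a1 := hA3m q hq
          have a2 := hA3m q' hq'
          have b1 := hA2m q a1.1
          have b2 := hA2m q' a2.1
          have c1 := hA1m q b1.1
          have c2 := hA1m q' b2.1
          exact Prod.ext (Prod.ext (b1.2.trans b2.2.symm) (c1.2.2.2.trans c2.2.2.2.symm))
            (Prod.ext h (a1.2.trans a2.2.symm))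
        rw [← Finset.card_image_of_injOn hinj]
        have h5 := Far_card (A3.image (fun q => q.2.1)) ((i : ℝ) * p' / p) (4 * C) (by positivity) (by
          intro x hx
          obtain ⟨q, hq, hqx⟩ := Finset.mem_image.1 hx
          have a1 := hA3m q hq
          have b1 := hA2m q a1.1
          have c1 := hA1m q b1.1
          have d1 := (mem_QS.1 (hAm q c1.1).1).2.2.2.2.2.2.2.2
          rw [a1.2, b1.2, c1.2.2.2] at d1
          have hqx' : q.2.1 = x := hqx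
          rw [hqx'] at d1
          have e1 : (x : ℝ) - (i : ℝ) * p' / p = -(((i : ℝ) * p' - x * p) / p) := by
            field_simp
            ring
          rw [e1, abs_neg, abs_div, abs_of_pos hpp, div_le_iff₀ hpp]
          refine d1.trans ?_
          exact mul_le_mul_of_nonneg_left hp1'.le (by positivity))
        linarith
      have h5 := Far_fib A2 (fun q => q.2.2) (Ioc P (2 * P)) (8 * C + 1) (by
        intro q hq
        have b1 := hA2m q hq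
        have c1 := hA1m q b1.1
        have d1 := mem_QS.1 (hAm q c1.1).1
        exact mem_Ioc.2 ⟨d1.2.2.2.2.2.1, d1.2.2.2.2.2.2.1⟩) h4
      rw [Nat.card_Ioc] at h5
      have e1 : 2 * P - P = P := by omega
      rw [e1] at h5
      exact h5
    have hM := Far_fib A1 (fun q => q.1.1) (A1.image (fun q => q.1.1)) (P * (8 * C + 1))
      (fun q hq => Finset.mem_image_of_mem _ hq) hfib3
    refine hM.trans (mul_le_mul_of_nonneg_right ?_ (by positivity))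
    rcases A1.eq_empty_or_nonempty with h0 | ⟨q0, hq0⟩
    · rw [h0, Finset.image_empty, Finset.card_empty]
      push_cast
      positivity
    · have hq1 := hA1m q0 hq0
      have hZ := (hAm q0 hq1.1).2.2
      rw [hq1.2.1, hq1.2.2.1] at hZ
      obtain ⟨hd1, hd2, _, hd4⟩ := hc.dat j hj
      obtain ⟨hd1', hd2', _, hd4'⟩ := hc.dat j' hj'
      have hdj : (1 : ℝ) ≤ d j := by exact_mod_cast hd1
      have hdj' : (1 : ℝ) ≤ d j' := by exact_mod_cast hd1'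
      obtain ⟨W, hW⟩ : ∃ W : ℝ, W = ((d j * d j' : ℕ) : ℝ) * (T j - T j') * p := ⟨_, rfl⟩
      have hWabs : |W| = ((d j : ℝ) * d j') * |T j - T j'| * p := by
        rw [hW, abs_mul, abs_mul, abs_of_pos hpp]
        push_cast
        rw [abs_of_nonneg (show (0 : ℝ) ≤ (d j : ℝ) * d j' by positivity)]
      have hDD : (d j : ℝ) * d j' ≤ Q * Q := mul_le_mul hd2 hd2' (by positivity) hQp.le
      have hDD1 : (1 : ℝ) ≤ (d j : ℝ) * d j' := one_le_mul_of_one_le_of_one_le hdj hdj'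
      have hTT : |T j - T j'| ≤ 2 * (Q * η * (n : ℝ) ^ 2) := by
        refine (abs_sub _ _).trans ?_
        linarith
      have hw1 : Q ^ 12 * η * n * P ≤ |W| := by
        rw [hWabs]
        have h5 : Q ^ 12 * η * n ≤ ((d j : ℝ) * d j') * |T j - T j'| := by
          have h6 : 1 * |T j - T j'| ≤ ((d j : ℝ) * d j') * |T j - T j'| :=
            mul_le_mul_of_nonneg_right hDD1 (abs_nonneg _)
          linarith
        exact mul_le_mul h5 hp1'.le hPp.le (by positivity)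
      have hw2 : |W| ≤ 4 * Q ^ 3 * η * (n : ℝ) ^ 2 * P := by
        rw [hWabs]
        calc ((d j : ℝ) * d j') * |T j - T j'| * p
            ≤ (Q * Q) * (2 * (Q * η * (n : ℝ) ^ 2)) * (2 * P) := by
              apply mul_le_mul _ hp2' hpp.le (by positivity)
              exact mul_le_mul hDD hTT (abs_nonneg _) (by positivity)
          _ = 4 * Q ^ 3 * η * (n : ℝ) ^ 2 * P := by ring
      obtain ⟨hκ2, hnum⟩ := Far_num (n := (n : ℝ)) (P := (P : ℝ)) hC hQ hP' hQn hη hηQ hw1 hw2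
      have hW0 : W ≠ 0 := by
        intro h5
        rw [h5, abs_zero] at hw1
        have : 0 < Q ^ 12 * η * n * P := by positivity
        linarith
      have hosc := osc C hC n W (10 * C ^ 3 * Q ^ 3 * η * P) hn hW0 (by positivity) hκ2
        (A1.image (fun q => q.1.1)) (by
          intro i hi
          obtain ⟨q, hq, hqi⟩ := Finset.mem_image.1 hi
          have hqi' : q.1.1 = i := hqi
          have c1 := hA1m q hq
          have a1 := hAm q c1.1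
          have u1 := (mem_QS.1 a1.1).1
          rw [hqi'] at u1
          have hr := hc.rng i u1
          have hi0 : (0 : ℝ) < i := lt_of_lt_of_le (by positivity) hr.1
          refine ⟨hr.1, hr.2, ?_⟩
          have hp := pair_f C hC n P Q η α r U s d b T hc hn hP hQ1 hη.le q a1.1 a1.2.1
          rw [c1.2.1, c1.2.2.1, c1.2.2.2, hqi'] at hp
          have hk := Pool.Agent.H53.MID.nz_nat_mul (d j * d j') ((p : ℝ) * (b j / d j) - q.2.2 * (b j' / d j') + p * (T j - T j') / i)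
          have e1 : ((d j * d j' : ℕ) : ℝ) * ((p : ℝ) * (b j / d j) - q.2.2 * (b j' / d j') + p * (T j - T j') / i) =
              W / i + (((d j' * p * b j : ℤ) - (d j * q.2.2 * b j' : ℤ) : ℤ) : ℝ) := by
            rw [hW]
            push_cast
            field_simp
            ring
          rw [e1, Pool.Agent.H53.MID.nz_add_int] at hk
          refine hk.trans ?_
          push_cast
          calc (d j : ℝ) * d j' * nz ((p : ℝ) * (b j / d j) - q.2.2 * (b j' / d j') + p * (T j - T j') / i)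
              ≤ (Q * Q) * (10 * C ^ 3 * Q * η * P) := mul_le_mul hDD hp (Pool.Agent.H53.MID.nz_nonneg _) (by positivity)
            _ = 10 * C ^ 3 * Q ^ 3 * η * P := by ring)
      exact hosc.trans hnum
  have hfin := Far_fib A (fun q => (s q.1.1, s q.2.1, q.1.2)) (range r ×ˢ range r ×ˢ Ioc P (2 * P))
    ((n / Q ^ 6) * (P * (8 * C + 1))) (by
      intro q hq
      have a1 := mem_QS.1 (hAm q hq).1
      rw [mem_product, mem_product, mem_range, mem_range, mem_Ioc]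
      exact ⟨hc.lab _ a1.1, hc.lab _ a1.2.2.2.2.1, a1.2.1, a1.2.2.1⟩) hlev
  refine hfin.trans ?_
  rw [card_product, card_product, card_range, Nat.card_Ioc]
  have e1 : 2 * P - P = P := by omega
  rw [e1]
  push_cast
  have hr := hc.cnt
  have hr2 : (r : ℝ) * r ≤ (C * Q) * (C * Q) := mul_le_mul hr hr (Nat.cast_nonneg _) (by positivity)
  have hC3 : C ^ 2 * (8 * C + 1) ≤ Q := by
    have h5 : C ^ 2 * 1 ≤ C ^ 2 * C := mul_le_mul_of_nonneg_left hC (by positivity)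
    have h6 : 0 ≤ C ^ 3 := by positivity
    have h7 : C ^ 2 * C = C ^ 3 := by ring
    have h8 : C ^ 2 * (8 * C + 1) = 8 * C ^ 3 + C ^ 2 * 1 := by ring
    rw [h8]
    rw [h7] at h5
    linarith
  calc (r : ℝ) * (r * P) * (n / Q ^ 6 * (P * (8 * C + 1)))
      = (r * r) * (P * (n / Q ^ 6 * (P * (8 * C + 1)))) := by ring
    _ ≤ ((C * Q) * (C * Q)) * (P * (n / Q ^ 6 * (P * (8 * C + 1)))) :=
        mul_le_mul_of_nonneg_right hr2 (by positivity)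
    _ = (C ^ 2 * (8 * C + 1)) * (n * P ^ 2 / Q ^ 4) := by
        field_simp
    _ ≤ Q * (n * P ^ 2 / Q ^ 4) := mul_le_mul_of_nonneg_right hC3 (by positivity)
    _ = n * P ^ 2 / Q ^ 3 := by
        field_simp

end Pool.Agent.H53.MDB

end
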