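import Pool.Agent.H43.PL.H74.MDX.TopX
import Pool.Agent.H43.PL.M13
import Pool.Agent.H43.PL.M14
import Pool.Agent.H43.PL.M16

/-! The parts of this file: H76.VKT.FkUp, H74.MDX.Step, H74.MDX.Combx, H74.MDX.CombW, H53.MDB.BoostF, H53.MDB.Final. -/

section

/-!
# VKT (H97/VK of helper97 with the parameter `T0.t` in place of `9/10`, `t1` in place of `19/20`) FkUp: bounds for the series of `Λ(n) ψ(n) (log n)^k`

Proof.  `Lk_succ_eq` (`EHA/SwF.lean`): `Lk (k+1) = ∑_{i ≤ k} C(k,i) Lk i · Fk (k-i)`; solve for `Fk k` and use strong induction on `k`, `lk_low`, `lk_up`: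
`‖Fk k‖ ≤ (LL^7/c) (C L9^{k+1} LL^{k+2} + ∑_{1≤i≤k} C(k,i) C L9^i LL^{i+1} · C' L9^{k-i+1} LL^{20(k-i+1)}) ≤ C'' L9^{k+1} LL^{20(k+1)}`
(`7 + k + 2 ≤ 20(k+1)`, `7 + i + 1 + 20(k-i+1) ≤ 20(k+1)` for `i ≥ 1`).
-/

set_option autoImplicit false

namespace Pool.Agent.H76.VKT

open Finset
open Pool.Agent.H91.EHA

theorem fk_up_h [T0] (h_lk_low : lk_low_P) (h_lk_up : lk_up_P)  (k B : ℕ) : ∃ C : ℝ, 1 ≤ C ∧ ∃ K' x0 : ℕ, ∀ x : ℕ, x0 ≤ x → ∀ (d : ℕ) (χ : DirichletCharacter ℂ d) (s : ℂ),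
    1 ≤ d → (d : ℝ) ≤ Real.log x ^ B → 1 + 1 / (4 * Real.log x) ≤ s.re → s.re ≤ 2 →
    Real.log x ^ K' ≤ |s.im| → |s.im| ≤ 3 * (x : ℝ) ^ (3 : ℕ) →
    ‖Fk (qm x d) (ch x χ) k s‖ ≤ C * L9 x ^ (k + 1) * LL x ^ (20 * (k + 1)) := by
  induction k using Nat.strong_induction_on with
  | _ k ih =>
  have hlk : ∀ i : ℕ, ∃ C : ℝ, 1 ≤ C ∧ ∃ K' x0 : ℕ, ∀ x : ℕ, x0 ≤ x →
      ∀ (d : ℕ) (χ : DirichletCharacter ℂ d) (s : ℂ),
      1 ≤ d → (d : ℝ) ≤ Real.log x ^ B → 1 + 1 / (4 * Real.log x) ≤ s.re → s.re ≤ 2 →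
      Real.log x ^ K' ≤ |s.im| → |s.im| ≤ 6 * (x : ℝ) ^ (3 : ℕ) →
      ‖Lk (qm x d) (ch x χ) i s‖ ≤ C * L9 x ^ i * LL x ^ (i + 1) := fun i => h_lk_up i B
  have hfk : ∀ j : ℕ, ∃ C : ℝ, 1 ≤ C ∧ ∃ K' x0 : ℕ, j < k → ∀ x : ℕ, x0 ≤ x →
      ∀ (d : ℕ) (χ : DirichletCharacter ℂ d) (s : ℂ),
      1 ≤ d → (d : ℝ) ≤ Real.log x ^ B → 1 + 1 / (4 * Real.log x) ≤ s.re → s.re ≤ 2 →
      Real.log x ^ K' ≤ |s.im| → |s.im| ≤ 3 * (x : ℝ) ^ (3 : ℕ) →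
      ‖Fk (qm x d) (ch x χ) j s‖ ≤ C * L9 x ^ (j + 1) * LL x ^ (20 * (j + 1)) := by
    intro j
    rcases lt_or_ge j k with h | h
    · obtain ⟨C, hC, K', x0, hx⟩ := ih j h
      exact ⟨C, hC, K', x0, fun _ => hx⟩
    · exact ⟨1, le_rfl, 0, 0, fun h' => absurd h' (by omega)⟩
  choose CL hCL KL xL hL using hlk
  choose CF hCF KF xF hF using hfk
  obtain ⟨c, hc, hc1, K0, xc, hlow⟩ := h_lk_low B
  obtain ⟨xe, hxe⟩ := yx_ev
  obtain ⟨S, hS⟩ : ∃ S : ℝ, S = CL (k + 1) +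
      ∑ i ∈ range k, (k.choose (i + 1) : ℝ) * (CL (i + 1) * CF (k - (i + 1))) := ⟨_, rfl⟩
  have hS1 : 1 ≤ S := by
    rw [hS]
    have h1 : 0 ≤ ∑ i ∈ range k, (k.choose (i + 1) : ℝ) * (CL (i + 1) * CF (k - (i + 1))) :=
      sum_nonneg fun i _ => mul_nonneg (by positivity)
        (mul_nonneg (by linarith [hCL (i + 1)]) (by linarith [hCF (k - (i + 1))]))
    linarith [hCL (k + 1)]
  refine ⟨S / c, ?_, K0 + ∑ i ∈ range (k + 2), KL i + ∑ i ∈ range (k + 2), KF i,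
    xc + xe + ∑ i ∈ range (k + 2), xL i + ∑ i ∈ range (k + 2), xF i, ?_⟩
  · rw [le_div_iff₀ hc]; linarith
  intro x hx d χ s hd hdB hs1 hs2 him1 him2
  have hxL : ∀ i, i < k + 2 → xL i ≤ x := by
    intro i hi
    have h1 : xL i ≤ ∑ i ∈ range (k + 2), xL i :=
      single_le_sum (f := xL) (fun _ _ => Nat.zero_le _) (mem_range.2 hi)
    omega
  have hxF : ∀ i, i < k + 2 → xF i ≤ x := by
    intro i hi
    have h1 : xF i ≤ ∑ i ∈ range (k + 2), xF i :=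
      single_le_sum (f := xF) (fun _ _ => Nat.zero_le _) (mem_range.2 hi)
    omega
  obtain ⟨-, -, -, hLL1, hL91, hlog1, -⟩ := hxe x (by omega)
  have himp : ∀ K : ℕ, K ≤ K0 + ∑ i ∈ range (k + 2), KL i + ∑ i ∈ range (k + 2), KF i →
      Real.log x ^ K ≤ |s.im| := fun K hK =>
    (pow_le_pow_right₀ hlog1 hK).trans him1
  have hKL : ∀ i, i < k + 2 → Real.log x ^ KL i ≤ |s.im| := by
    intro i hi
    refine himp _ ?_
    have h1 : KL i ≤ ∑ i ∈ range (k + 2), KL i :=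
      single_le_sum (f := KL) (fun _ _ => Nat.zero_le _) (mem_range.2 hi)
    omega
  have hKF : ∀ i, i < k + 2 → Real.log x ^ KF i ≤ |s.im| := by
    intro i hi
    refine himp _ ?_
    have h1 : KF i ≤ ∑ i ∈ range (k + 2), KF i :=
      single_le_sum (f := KF) (fun _ _ => Nat.zero_le _) (mem_range.2 hi)
    omega
  have hx3 : (0:ℝ) ≤ (x : ℝ) ^ (3 : ℕ) := by positivity
  have him6 : |s.im| ≤ 6 * (x : ℝ) ^ (3 : ℕ) := by linarith
  have hs : 1 < s.re := by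
    have h1 : 0 < 1 / (4 * Real.log x) := by positivity
    linarith
  have hLi : ∀ i, i < k + 2 →
      ‖Lk (qm x d) (ch x χ) i s‖ ≤ CL i * L9 x ^ i * LL x ^ (i + 1) := fun i hi =>
    hL i x (hxL i hi) d χ s hd hdB hs1 hs2 (hKL i hi) him6
  have hFi : ∀ j, j < k →
      ‖Fk (qm x d) (ch x χ) j s‖ ≤ CF j * L9 x ^ (j + 1) * LL x ^ (20 * (j + 1)) := fun j hj =>
    hF j hj x (hxF j (by omega)) d χ s hd hdB hs1 hs2 (hKF j (by omega)) him2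
  have hlow' := hlow x (by omega) d χ s hd hdB hs1 hs2 (himp K0 (by omega)) him2
  obtain ⟨a, ha⟩ : ∃ a, a = L9 x := ⟨_, rfl⟩
  obtain ⟨l, hl⟩ : ∃ l, l = LL x := ⟨_, rfl⟩
  rw [← ha] at hL91
  rw [← hl] at hLL1
  simp only [← ha, ← hl] at hLi hFi hlow' ⊢
  have ha0 : 0 < a := by linarith
  have hl0 : 0 < l := by linarith
  have heq := Lk_succ_eq (qm x d) (ch x χ) k s hs
  rw [Finset.sum_range_succ'] at heq
  simp only [Nat.choose_zero_right, Nat.cast_one, one_mul, Nat.sub_zero] at heq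
  have h1 : Lk (qm x d) (ch x χ) 0 s * Fk (qm x d) (ch x χ) k s =
      Lk (qm x d) (ch x χ) (k + 1) s -
      ∑ i ∈ range k, (k.choose (i + 1) : ℂ) * (Lk (qm x d) (ch x χ) (i + 1) s *
        Fk (qm x d) (ch x χ) (k - (i + 1)) s) := by
    rw [heq]
    ring
  have h2 : ‖Lk (qm x d) (ch x χ) (k + 1) s‖ ≤ CL (k + 1) * (a ^ (k + 1) * l ^ (20 * k + 13)) := by
    refine (hLi (k + 1) (by omega)).trans ?_
    rw [mul_assoc]
    refine mul_le_mul_of_nonneg_left ?_ (by linarith [hCL (k + 1)])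
    exact mul_le_mul_of_nonneg_left (pow_le_pow_right₀ hLL1 (by omega)) (by positivity)
  have h3 : ∀ i ∈ range k, ‖(k.choose (i + 1) : ℂ) * (Lk (qm x d) (ch x χ) (i + 1) s *
        Fk (qm x d) (ch x χ) (k - (i + 1)) s)‖ ≤
      (k.choose (i + 1) : ℝ) * (CL (i + 1) * CF (k - (i + 1))) *
        (a ^ (k + 1) * l ^ (20 * k + 13)) := by
    intro i hi
    rw [mem_range] at hi
    rw [norm_mul, norm_mul, Complex.norm_natCast, mul_assoc]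
    refine mul_le_mul_of_nonneg_left ?_ (by positivity)
    have hA := hLi (i + 1) (by omega)
    have hB := hFi (k - (i + 1)) (by omega)
    have hc1' := hCL (i + 1)
    have hc2' := hCF (k - (i + 1))
    calc ‖Lk (qm x d) (ch x χ) (i + 1) s‖ * ‖Fk (qm x d) (ch x χ) (k - (i + 1)) s‖
        ≤ (CL (i + 1) * a ^ (i + 1) * l ^ (i + 1 + 1)) *
          (CF (k - (i + 1)) * a ^ (k - (i + 1) + 1) * l ^ (20 * (k - (i + 1) + 1))) :=
          mul_le_mul hA hB (norm_nonneg _) (by positivity)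
      _ = CL (i + 1) * CF (k - (i + 1)) * (a ^ ((i + 1) + (k - (i + 1) + 1)) *
          l ^ ((i + 1 + 1) + 20 * (k - (i + 1) + 1))) := by
          rw [pow_add a (i + 1), pow_add l (i + 1 + 1)]; ring
      _ ≤ CL (i + 1) * CF (k - (i + 1)) * (a ^ (k + 1) * l ^ (20 * k + 13)) := by
          refine mul_le_mul_of_nonneg_left ?_ (mul_nonneg (by linarith) (by linarith))
          rw [show (i + 1) + (k - (i + 1) + 1) = k + 1 by omega]
          exact mul_le_mul_of_nonneg_left (pow_le_pow_right₀ hLL1 (by omega)) (by positivity)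
  have h4 : ‖Lk (qm x d) (ch x χ) 0 s‖ * ‖Fk (qm x d) (ch x χ) k s‖ ≤
      S * (a ^ (k + 1) * l ^ (20 * k + 13)) := by
    rw [← norm_mul, h1]
    refine (norm_sub_le _ _).trans ?_
    rw [hS, add_mul, sum_mul]
    exact add_le_add h2 ((norm_sum_le _ _).trans (sum_le_sum h3))
  have h5 : c / l ^ 7 * ‖Fk (qm x d) (ch x χ) k s‖ ≤ S * (a ^ (k + 1) * l ^ (20 * k + 13)) :=
    (mul_le_mul_of_nonneg_right hlow' (norm_nonneg _)).trans h4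
  have h6 : ‖Fk (qm x d) (ch x χ) k s‖ ≤ (S * (a ^ (k + 1) * l ^ (20 * k + 13))) / (c / l ^ 7) := by
    rw [le_div_iff₀ (by positivity), mul_comm]
    exact h5
  refine h6.trans (le_of_eq ?_)
  rw [show 20 * (k + 1) = (20 * k + 13) + 7 by ring, pow_add l (20 * k + 13) 7]
  field_simp

end Pool.Agent.H76.VKT

end

section

/-!
# MDX Step: one level up

Proof.  `step_edge` gives `M w`; `nodesP` (for every `M`) gives `Γ M`, `N M` (`choose`).  `Ms = Icc 1 ⌊4^(j+1) C n⌋₊` (at most `4^(j+1) C n` elements; `M w ∈ Ms` since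
`M w ≥ n/C > 0`).  Let `e w = ((ql w, c (Lw w)), (pf w, c (Rw w)))`.  For `w ∈ Om R F (j+1)` with `Lw w, Rw w ∈ G`, `e w ∉ N (M w)` choose `γ w ∈ Γ (M w)` and put
`c' w = (M w, γ w)`.  `V' = {(M, γ) : M ∈ Ms, M ≥ n/C, γ ∈ Γ M, ε/B^5 P^(j+1) ≤ |DS P (j+1) .. (M, γ)|}`,
`G' = {w ∈ Om R F (j+1) : Lw w ∈ G, Rw w ∈ G, e w ∉ N (M w), c' w ∈ V'}`.
* `mult`: `|V'_M| ε/B^5 P^(j+1) ≤ ∑_γ |DS| ≤ 2^(2j+8) (2 C 5^(j+1) + 1) P^(j+1) ≤ B^2 P^(j+1)`.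
* `mem0`, `mem1`: `step_mem`.
* `link` for `w ∈ Om R F (j+2)` with `Lw w, Rw w ∈ G'`: `(G0, g) = c (Rw (Lw w)) = c (Lw (Rw w))` (`LR_comm`), an element of `V`: `rng`; `EX` membership of `e (Lw w)` (its second
  vertex, `mem_VX`) and of `e (Rw w)` (first vertex) give `|G0 pf w - M (Lw w) P| ≤ (2 C 3^j + 1) P ≤ C 3^(j+1) P`, `|G0 ql w - M (Rw w) P| ≤ ..`; the frequencies:
  `2^(j+5) X η/P^j ≤ 2^(2j+6) X η P/P^(j+1)`.
* `exc`: a walk `w ∈ Om R F (j+1)`, `w ∉ G'`, satisfies `Lw w ∉ G`, or `Rw w ∉ G`, or `e w ∈ N (M w)`, or `|DS (c' w)| < ε/B^5 P^(j+1)`.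
  First two: `ext_L`, `ext_R` with `S = (Om R F j).filter (∉ G)` (`Lw_mem`, `Rw_mem`): `≤ 2 (2C+1)^2 P^2 (4(2C+1)^2)^j ε n P^(2j)`.
  Third: `cntN` with `D = C 5^j`, `B1 = ε/B^3 P^2`: `≤ 4^(j+1) C n · ε/B^3 P^2 · (2C+1)^(2j+2) (2 C 5^j + 1) P^(2j) ≤ ε n P^(2j+2)`.
  Fourth: `cntA` (level `j+1`) with `y = ε/B^5 P^(j+1)`, `T = 2^(2j+8) (2 C 5^(j+1) + 1) P^(j+1)`: `≤ (2C+1)^(2j+2) ((j+1)!)^2 4^(j+1) C n y T ≤ B · B · B · B · B · ε/B^5 n P^(2j+2)`.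
  Sum: `2 (2C+1)^2 (4(2C+1)^2)^j ε + 2 ε ≤ (4(2C+1)^2)^(j+1) ε`.
-/

set_option autoImplicit false

namespace Pool.Agent.H74.MDX

open Finset
open Pool.Agent.H53.MID (nz Rel Desc)

/-- the numerical facts used in the step -/
private theorem Step_num (C B ε η : ℝ) (ℓ P j : ℕ) (hPar : Par C ℓ P B ε η) (hj : j < ℓ) :
    1 ≤ B ∧ 1 ≤ P ∧ 4 ^ (j + 1) * C ≤ B ∧ (2 * C + 1) ^ (2 * j + 2) ≤ B ∧ 2 * (C * 5 ^ j) + 1 ≤ B ∧
      2 * (C * 5 ^ (j + 1)) + 1 ≤ B ∧ (2 : ℝ) ^ (2 * j + 8) ≤ B ∧ (((j + 1).factorial : ℝ)) ^ 2 ≤ B := by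
  have hC := hPar.hC
  have h5 : (1 : ℝ) ≤ 5 ^ ℓ := one_le_pow₀ (by norm_num)
  have hB1 : 1 ≤ B := by
    have := hPar.hB1
    nlinarith only [hC, h5, this]
  have hP1 : 1 ≤ P := by
    by_contra h
    have hP0 : P = 0 := by omega
    have h1 := hPar.hP
    rw [hP0, Nat.cast_zero, mul_zero] at h1
    have h2 : (1 : ℝ) ≤ B ^ 54 := one_le_pow₀ hB1
    linarith only [h1, h2]
  refine ⟨hB1, hP1, ?_, ?_, ?_, ?_, ?_, ?_⟩
  · refine le_trans ?_ hPar.hB2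
    exact mul_le_mul_of_nonneg_right (pow_le_pow_right₀ (by norm_num) hj) (by linarith only [hC])
  · refine le_trans ?_ hPar.hB3
    exact pow_le_pow_right₀ (by linarith only [hC]) (by omega)
  · refine le_trans ?_ hPar.hB1
    have h : (5 : ℝ) ^ j ≤ 5 ^ ℓ := pow_le_pow_right₀ (by norm_num) hj.le
    nlinarith only [h, hC]
  · refine le_trans ?_ hPar.hB1
    have h : (5 : ℝ) ^ (j + 1) ≤ 5 ^ ℓ := pow_le_pow_right₀ (by norm_num) hj
    nlinarith only [h, hC]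
  · refine le_trans ?_ hPar.hB5
    exact pow_le_pow_right₀ (by norm_num) (by omega)
  · refine le_trans ?_ hPar.hB4
    have h : (j + 1).factorial ≤ ℓ.factorial := Nat.factorial_le hj
    exact pow_le_pow_left₀ (Nat.cast_nonneg _) (by exact_mod_cast h) 2

open Classical in
private theorem Step_mult (T W m0 : ℝ) (hm0 : 0 < m0) (K : ℕ) (V : Finset (ℕ × ℝ)) (Γ : Finset ℝ) (f : ℕ × ℝ → ℝ)
    (hf0 : ∀ v, 0 ≤ f v) (hV : ∀ v ∈ V, v.1 = K → v.2 ∈ Γ) (hVf : ∀ v ∈ V, m0 ≤ f v)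
    (hT : ∑ γ ∈ Γ, f (K, γ) ≤ T) (hW : T ≤ W * m0) : ((V.filter (fun v => v.1 = K)).card : ℝ) ≤ W := by
  have h1 : ((V.filter (fun v => v.1 = K)).card : ℝ) * m0 ≤ ∑ v ∈ V.filter (fun v => v.1 = K), f v := by
    rw [← nsmul_eq_mul]
    refine Finset.card_nsmul_le_sum _ _ _ (fun v hv => ?_)
    exact hVf v (Finset.mem_filter.1 hv).1
  have h2 : ∑ v ∈ V.filter (fun v => v.1 = K), f v ≤ ∑ γ ∈ Γ, f (K, γ) := by
    have h3 : ∑ v ∈ V.filter (fun v => v.1 = K), f v =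
        ∑ γ ∈ (V.filter (fun v => v.1 = K)).image (fun v => v.2), f (K, γ) := by
      rw [Finset.sum_image]
      · refine Finset.sum_congr rfl (fun v hv => ?_)
        have := (Finset.mem_filter.1 hv).2
        rw [← this]
      · intro v hv v' hv' h
        have e1 := (Finset.mem_filter.1 (Finset.mem_coe.1 hv)).2
        have e2 := (Finset.mem_filter.1 (Finset.mem_coe.1 hv')).2
        exact Prod.ext (e1.trans e2.symm) h
    rw [h3]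
    refine Finset.sum_le_sum_of_subset_of_nonneg ?_ (fun _ _ _ => hf0 _)
    intro γ hγ
    obtain ⟨v, hv, rfl⟩ := Finset.mem_image.1 hγ
    exact hV v (Finset.mem_filter.1 hv).1 (Finset.mem_filter.1 hv).2
  have h4 : ((V.filter (fun v => v.1 = K)).card : ℝ) * m0 ≤ W * m0 := (h1.trans h2).trans (hT.trans hW)
  exact le_of_mul_le_mul_right h4 hm0

theorem lvl_step (C B ε η : ℝ) (ℓ n P j : ℕ) (F : Finset ℕ) (α : ℕ → ℝ) (R : Finset (ℕ × ℕ × ℕ))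
    (hPar : Par C ℓ P B ε η) (hj : j < ℓ) (hn : 1 ≤ n) (hM : Mul (2 * C + 1) P R) (V : Finset (ℕ × ℝ))
    (G : Finset (Wk j)) (c : Wk j → ℕ × ℝ) (hL : Lvl C B ε η n P F α R j V G c) :
    ∃ (V' : Finset (ℕ × ℝ)) (G' : Finset (Wk (j + 1))) (c' : Wk (j + 1) → ℕ × ℝ),
      Lvl C B ε η n P F α R (j + 1) V' G' c' := by
  classical
  obtain ⟨hB1, hP1, hBa, hBb, hBc, hBd, hBe, hBf⟩ := Step_num C B ε η ℓ P j hPar hj
  have hC := hPar.hC
  have hε := hPar.hε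
  have hη := hPar.hη
  have hB0 : 0 < B := by linarith only [hB1]
  have hC0 : 0 < C := by linarith only [hC]
  have hP0 : (0 : ℝ) < P := by exact_mod_cast hP1
  have hn0 : (0 : ℝ) < n := by exact_mod_cast hn
  obtain ⟨M, hMw⟩ := step_edge C B ε η n P j F α R hC hM V G c hL
  choose Γ N hN hΓ hEN using fun M : ℕ => nodesP C B ε η ℓ P j M F α V hPar hj hL.desc hL.mult
  set Ms : Finset ℕ := Finset.Icc 1 ⌊4 ^ (j + 1) * C * (n : ℝ)⌋₊ with hMs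
  have hMsc : (Ms.card : ℝ) ≤ B * n := by
    rw [hMs, Nat.card_Icc, Nat.add_sub_cancel]
    refine (Nat.floor_le (by positivity)).trans ?_
    exact mul_le_mul_of_nonneg_right hBa hn0.le
  set e : Wk (j + 1) → (ℕ × ℕ × ℝ) × (ℕ × ℕ × ℝ) := fun w => ((ql w, c (Lw w)), (pf w, c (Rw w))) with he
  have hMmem : ∀ w ∈ Om R F (j + 1), Lw w ∈ G → Rw w ∈ G → M w ∈ Ms := by
    intro w hw h1 h2
    obtain ⟨a1, a2, -⟩ := hMw w hw h1 h2
    rw [hMs, Finset.mem_Icc]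
    refine ⟨?_, Nat.le_floor a2⟩
    have : (0 : ℝ) < M w := lt_of_lt_of_le (by positivity) a1
    exact_mod_cast this
  -- the frequencies
  have hγ : ∀ w : Wk (j + 1), ∃ γ : ℝ, w ∈ Om R F (j + 1) → Lw w ∈ G → Rw w ∈ G → e w ∉ N (M w) →
      γ ∈ Γ (M w) ∧ nz (((e w).1.1 : ℝ) * γ - (e w).1.2.2) ≤ 2 ^ (j + 5) * (2 ^ (j ^ 2 + 5 * j) * η) / (P : ℝ) ^ j ∧
          nz (((e w).2.1 : ℝ) * γ - (e w).2.2.2) ≤ 2 ^ (j + 5) * (2 ^ (j ^ 2 + 5 * j) * η) / (P : ℝ) ^ j := by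
    intro w
    by_cases h : w ∈ Om R F (j + 1) ∧ Lw w ∈ G ∧ Rw w ∈ G ∧ e w ∉ N (M w)
    · obtain ⟨h0, h1, h2, h3⟩ := h
      obtain ⟨γ, g1, g2, g3⟩ := hEN (M w) (e w) (hMw w h0 h1 h2).2.2 h3
      exact ⟨γ, fun _ _ _ _ => ⟨g1, g2, g3⟩⟩
    · exact ⟨0, fun a b c d => absurd ⟨a, b, c, d⟩ h⟩
  choose γ hγ using hγ
  set DD : ℕ × ℝ → Finset (ℕ × ℕ) := fun v =>
    DS P (j + 1) (C * 5 ^ (j + 1)) (2 ^ ((j + 1) ^ 2 + 5 * (j + 1)) * η) F α v with hDD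
  set V' : Finset (ℕ × ℝ) := (Ms ×ˢ (Ms.biUnion Γ)).filter (fun v => (n : ℝ) / C ≤ v.1 ∧ v.2 ∈ Γ v.1 ∧
    ε / B ^ 5 * (P : ℝ) ^ (j + 1) ≤ ((DD v).card : ℝ)) with hV'
  set c' : Wk (j + 1) → ℕ × ℝ := fun w => (M w, γ w) with hc'
  set G' : Finset (Wk (j + 1)) := (Om R F (j + 1)).filter (fun w => Lw w ∈ G ∧ Rw w ∈ G ∧ e w ∉ N (M w) ∧
    c' w ∈ V') with hG'
  have hm0 : 0 < ε / B ^ 5 * (P : ℝ) ^ (j + 1) := by positivity
  have hV'mem : ∀ v, v ∈ V' ↔ v.1 ∈ Ms ∧ (n : ℝ) / C ≤ v.1 ∧ v.2 ∈ Γ v.1 ∧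
      ε / B ^ 5 * (P : ℝ) ^ (j + 1) ≤ ((DD v).card : ℝ) := by
    intro v
    rw [hV', Finset.mem_filter, Finset.mem_product]
    constructor
    · rintro ⟨⟨h1, -⟩, h2⟩
      exact ⟨h1, h2⟩
    · rintro ⟨h1, h2⟩
      exact ⟨⟨h1, Finset.mem_biUnion.2 ⟨v.1, h1, h2.2.1⟩⟩, h2⟩
  have hG'mem : ∀ w, w ∈ G' ↔ w ∈ Om R F (j + 1) ∧ Lw w ∈ G ∧ Rw w ∈ G ∧ e w ∉ N (M w) ∧ c' w ∈ V' := by
    intro w
    rw [hG', Finset.mem_filter]
  have hT : ∀ K : ℕ, ∑ γ ∈ Γ K, ((DD (K, γ)).card : ℝ) ≤ B ^ 2 * (P : ℝ) ^ (j + 1) := by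
    intro K
    refine (hΓ K).trans ?_
    refine mul_le_mul_of_nonneg_right ?_ (by positivity)
    rw [sq]
    exact mul_le_mul hBe hBd (by positivity) hB0.le
  refine ⟨V', G', c', ?_, ?_, ?_, ?_, ?_, ?_, ?_, ?_, ?_⟩
  · -- sub
    rw [hG']
    exact Finset.filter_subset _ _
  · -- col
    intro w hw
    exact ((hG'mem w).1 hw).2.2.2.2
  · -- rng
    intro v hv
    obtain ⟨h1, h2, -, -⟩ := (hV'mem v).1 hv
    refine ⟨h2, ?_⟩
    rw [hMs, Finset.mem_Icc] at h1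
    exact (Nat.le_floor_iff (by positivity)).1 h1.2
  · -- mult
    intro K
    refine Step_mult (B ^ 2 * (P : ℝ) ^ (j + 1)) (B ^ 7 / ε) (ε / B ^ 5 * (P : ℝ) ^ (j + 1)) hm0 K V' (Γ K)
      (fun v => ((DD v).card : ℝ)) (fun _ => Nat.cast_nonneg _) ?_ ?_ (hT K) ?_
    · intro v hv hK
      rw [← hK]
      exact ((hV'mem v).1 hv).2.2.1
    · intro v hv
      exact ((hV'mem v).1 hv).2.2.2
    · refine le_of_eq ?_
      field_simp
  · -- desc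
    intro v hv
    exact ((hV'mem v).1 hv).2.2.2
  · -- mem0
    intro w hw
    obtain ⟨h0, h1, h2, h3, h4⟩ := (hG'mem w).1 hw
    obtain ⟨g1, g2, g3⟩ := hγ w h0 h1 h2 h3
    exact (step_mem C B ε η n P j F α R hC hη hM V G c hL w h1 h2 (M w) (hMw w h0 h1 h2).2.2 (γ w) g2 g3).1
  · -- mem1
    intro w hw
    obtain ⟨h0, h1, h2, h3, h4⟩ := (hG'mem w).1 hw
    obtain ⟨g1, g2, g3⟩ := hγ w h0 h1 h2 h3
    exact (step_mem C B ε η n P j F α R hC hη hM V G c hL w h1 h2 (M w) (hMw w h0 h1 h2).2.2 (γ w) g2 g3).2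
  · -- link
    intro w hw hl hr
    obtain ⟨l0, l1, l2, l3, l4⟩ := (hG'mem (Lw w)).1 hl
    obtain ⟨r0, r1, r2, r3, r4⟩ := (hG'mem (Rw w)).1 hr
    obtain ⟨lg1, lg2, lg3⟩ := hγ (Lw w) l0 l1 l2 l3
    obtain ⟨rg1, rg2, rg3⟩ := hγ (Rw w) r0 r1 r2 r3
    have lE := (hMw (Lw w) l0 l1 l2).2.2
    have rE := (hMw (Rw w) r0 r1 r2).2.2
    rw [mem_EX, mem_VX, mem_VX] at lE rE
    have l5 := lE.2.1.2.2.2
    have r5 := rE.1.2.2.2
    have hcV := hL.col _ l2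
    obtain ⟨q1, q2⟩ := hL.rng _ hcV
    have hpos : (2 * (C * 3 ^ j) + 1) * (P : ℝ) ≤ C * 3 ^ (j + 1) * P := by
      refine mul_le_mul_of_nonneg_right ?_ hP0.le
      have h3 : (1 : ℝ) ≤ 3 ^ j := one_le_pow₀ (by norm_num)
      have h4 : 1 ≤ C * 3 ^ j := by nlinarith only [hC, h3]
      rw [pow_succ]
      linarith only [h4]
    have hfr : 2 ^ (j + 5) * (2 ^ (j ^ 2 + 5 * j) * η) / (P : ℝ) ^ j ≤
        2 ^ ((j + 1) ^ 2 + 5 * (j + 1)) * η * P / (P : ℝ) ^ (j + 1) := by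
      have e1 : 2 ^ ((j + 1) ^ 2 + 5 * (j + 1)) * η * P / (P : ℝ) ^ (j + 1) =
          2 ^ ((j + 1) ^ 2 + 5 * (j + 1)) * η / (P : ℝ) ^ j := by
        rw [pow_succ (P : ℝ) j]
        field_simp
      rw [e1]
      refine div_le_div_of_nonneg_right ?_ (by positivity)
      rw [← mul_assoc, ← pow_add]
      refine mul_le_mul_of_nonneg_right ?_ hη.le
      refine pow_le_pow_right₀ (by norm_num) ?_
      nlinarith only
    refine ⟨(c (Rw (Lw w))).1, (c (Rw (Lw w))).2, q1, ?_, ?_, ?_, ?_, ?_⟩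
    · refine q2.trans ?_
      refine mul_le_mul_of_nonneg_right (mul_le_mul_of_nonneg_right ?_ hC0.le) hn0.le
      exact pow_le_pow_right₀ (by norm_num) (Nat.le_succ j)
    · exact l5.trans hpos
    · exact r5.trans hpos
    · exact lg3.trans hfr
    · exact rg2.trans hfr
  · -- exc
    set S0 : Finset (Wk j) := (Om R F j).filter (fun w => w ∉ G) with hS0
    set S3 : Finset (Wk (j + 1)) := (Om R F (j + 1)).filter (fun w => Lw w ∈ G ∧ Rw w ∈ G ∧ e w ∈ N (M w)) with hS3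
    set S4 : Finset (Wk (j + 1)) := (Om R F (j + 1)).filter (fun w => Lw w ∈ G ∧ Rw w ∈ G ∧ e w ∉ N (M w) ∧
      c' w ∉ V') with hS4
    have hsub : (Om R F (j + 1)).filter (fun w => w ∉ G') ⊆
        ((((Om R F (j + 1)).filter (fun w => Lw w ∈ S0)) ∪ ((Om R F (j + 1)).filter (fun w => Rw w ∈ S0))) ∪ S3) ∪ S4 := by
      intro w hw
      obtain ⟨h0, h1⟩ := Finset.mem_filter.1 hw
      rw [hG'mem] at h1
      by_cases a1 : Lw w ∈ G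
      · by_cases a2 : Rw w ∈ G
        · by_cases a3 : e w ∈ N (M w)
          · exact Finset.mem_union_left _ (Finset.mem_union_right _ (Finset.mem_filter.2 ⟨h0, a1, a2, a3⟩))
          · refine Finset.mem_union_right _ (Finset.mem_filter.2 ⟨h0, a1, a2, a3, ?_⟩)
            intro a4
            exact h1 ⟨h0, a1, a2, a3, a4⟩
        · exact Finset.mem_union_left _ (Finset.mem_union_left _ (Finset.mem_union_right _
            (Finset.mem_filter.2 ⟨h0, Finset.mem_filter.2 ⟨Rw_mem h0, a2⟩⟩)))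
      · exact Finset.mem_union_left _ (Finset.mem_union_left _ (Finset.mem_union_left _
            (Finset.mem_filter.2 ⟨h0, Finset.mem_filter.2 ⟨Lw_mem h0, a1⟩⟩)))
    have hcard : (((Om R F (j + 1)).filter (fun w => w ∉ G')).card : ℝ) ≤
        (((Om R F (j + 1)).filter (fun w => Lw w ∈ S0)).card : ℝ) +
          (((Om R F (j + 1)).filter (fun w => Rw w ∈ S0)).card : ℝ) + (S3.card : ℝ) + (S4.card : ℝ) := by
      have b1 := Finset.card_le_card hsub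
      have b2 := Finset.card_union_le ((((Om R F (j + 1)).filter (fun w => Lw w ∈ S0)) ∪
        ((Om R F (j + 1)).filter (fun w => Rw w ∈ S0))) ∪ S3) S4
      have b3 := Finset.card_union_le (((Om R F (j + 1)).filter (fun w => Lw w ∈ S0)) ∪
        ((Om R F (j + 1)).filter (fun w => Rw w ∈ S0))) S3
      have b4 := Finset.card_union_le ((Om R F (j + 1)).filter (fun w => Lw w ∈ S0))
        ((Om R F (j + 1)).filter (fun w => Rw w ∈ S0))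
      have b5 := b1.trans (b2.trans (Nat.add_le_add_right (b3.trans (Nat.add_le_add_right b4 _)) _))
      exact_mod_cast b5
    have hL0 := ext_L R F (2 * C + 1) P j hM S0
    have hR0 := ext_R R F (2 * C + 1) P j hM S0
    have hexc := hL.exc
    -- third set
    have hc3 : (S3.card : ℝ) ≤ ε * n * (P : ℝ) ^ (2 * (j + 1)) := by
      have h := cntN R F (2 * C + 1) P j hM (C * 5 ^ j) (ε / B ^ 3 * (P : ℝ) ^ 2) (by positivity) (by positivity) S3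
        (Finset.filter_subset _ _) Ms M (fun w hw => by
          obtain ⟨h0, h1, h2, h3⟩ := Finset.mem_filter.1 hw
          exact hMmem w h0 h1 h2) N (fun x _ => hN x) e (fun w hw => (Finset.mem_filter.1 hw).2.2.2)
        (fun w _ => ⟨rfl, rfl⟩) (fun w hw => by
          obtain ⟨h0, h1, h2, h3⟩ := Finset.mem_filter.1 hw
          exact (mem_DS.1 (hL.mem0 (Lw w) h1)).2.2.2.2.1)
      refine h.trans ?_
      have k1 : (2 * C + 1) ^ (2 * j + 2) * (2 * (C * 5 ^ j) + 1) ≤ B * B :=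
        mul_le_mul hBb hBc (by positivity) hB0.le
      calc (Ms.card : ℝ) * (ε / B ^ 3 * (P : ℝ) ^ 2 * ((2 * C + 1) ^ (2 * j + 2) * (2 * (C * 5 ^ j) + 1) * (P : ℝ) ^ (2 * j)))
          ≤ (B * n) * (ε / B ^ 3 * (P : ℝ) ^ 2 * ((B * B) * (P : ℝ) ^ (2 * j))) := by
            refine mul_le_mul hMsc ?_ (by positivity) (by positivity)
            refine mul_le_mul_of_nonneg_left ?_ (by positivity)
            exact mul_le_mul_of_nonneg_right k1 (by positivity)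
        _ = ε * n * (P : ℝ) ^ (2 * (j + 1)) := by
            rw [show 2 * (j + 1) = 2 * j + 2 by ring, pow_add]
            field_simp
    -- fourth set
    have hc4 : (S4.card : ℝ) ≤ ε * n * (P : ℝ) ^ (2 * (j + 1)) := by
      have h := cntA R F α (2 * C + 1) P (j + 1) hM (C * 5 ^ (j + 1)) (2 ^ ((j + 1) ^ 2 + 5 * (j + 1)) * η)
        (ε / B ^ 5 * (P : ℝ) ^ (j + 1)) (B ^ 2 * (P : ℝ) ^ (j + 1)) (by positivity) S4
        (Finset.filter_subset _ _) Ms Γ c' (fun w hw => by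
          obtain ⟨h0, h1, h2, h3, h4⟩ := Finset.mem_filter.1 hw
          exact ⟨hMmem w h0 h1 h2, (hγ w h0 h1 h2 h3).1⟩) (fun w hw => by
          obtain ⟨h0, h1, h2, h3, h4⟩ := Finset.mem_filter.1 hw
          obtain ⟨g1, g2, g3⟩ := hγ w h0 h1 h2 h3
          exact (step_mem C B ε η n P j F α R hC hη hM V G c hL w h1 h2 (M w) (hMw w h0 h1 h2).2.2 (γ w) g2 g3).1)
        (fun w hw => by
          obtain ⟨h0, h1, h2, h3, h4⟩ := Finset.mem_filter.1 hw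
          obtain ⟨g1, g2, g3⟩ := hγ w h0 h1 h2 h3
          exact (step_mem C B ε η n P j F α R hC hη hM V G c hL w h1 h2 (M w) (hMw w h0 h1 h2).2.2 (γ w) g2 g3).2)
        (fun w hw => by
          obtain ⟨h0, h1, h2, h3, h4⟩ := Finset.mem_filter.1 hw
          obtain ⟨g1, g2, g3⟩ := hγ w h0 h1 h2 h3
          by_contra hlt
          refine h4 ((hV'mem _).2 ⟨hMmem w h0 h1 h2, (hMw w h0 h1 h2).1, g1, ?_⟩)
          exact (not_le.1 hlt).le) (fun K _ => hT K)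
      refine h.trans ?_
      have k1 : (2 * C + 1) ^ (2 * (j + 1)) * (((j + 1).factorial : ℝ)) ^ 2 ≤ B * B := by
        rw [show 2 * (j + 1) = 2 * j + 2 by ring]
        exact mul_le_mul hBb hBf (by positivity) hB0.le
      calc (2 * C + 1) ^ (2 * (j + 1)) * (((j + 1).factorial : ℝ)) ^ 2 * (Ms.card : ℝ) *
            (ε / B ^ 5 * (P : ℝ) ^ (j + 1)) * (B ^ 2 * (P : ℝ) ^ (j + 1))
          ≤ (B * B) * (B * n) * (ε / B ^ 5 * (P : ℝ) ^ (j + 1)) * (B ^ 2 * (P : ℝ) ^ (j + 1)) := by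
            refine mul_le_mul_of_nonneg_right (mul_le_mul_of_nonneg_right ?_ (by positivity)) (by positivity)
            exact mul_le_mul k1 hMsc (by positivity) (by positivity)
        _ = ε * n * (P : ℝ) ^ (2 * (j + 1)) := by
            rw [show 2 * (j + 1) = (j + 1) + (j + 1) by ring, pow_add (P : ℝ) (j + 1) (j + 1)]
            field_simp
    refine hcard.trans ?_
    have hκ : (3 : ℝ) ≤ 2 * C + 1 := by linarith only [hC]
    set κ : ℝ := 2 * C + 1 with hκd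
    have hK1 : (1 : ℝ) ≤ (4 * κ ^ 2) ^ j := one_le_pow₀ (by nlinarith only [hC])
    have hs : (κ * P) ^ 2 * (S0.card : ℝ) ≤ (κ * P) ^ 2 * ((4 * κ ^ 2) ^ j * ε * n * (P : ℝ) ^ (2 * j)) :=
      mul_le_mul_of_nonneg_left hexc (by positivity)
    have hQ : (0 : ℝ) ≤ ε * n * (P : ℝ) ^ (2 * (j + 1)) := by positivity
    have hfin : 2 * (κ ^ 2 * (4 * κ ^ 2) ^ j) + 2 ≤ (4 * κ ^ 2) ^ (j + 1) := by
      have h9 : 1 ≤ κ ^ 2 * (4 * κ ^ 2) ^ j :=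
        one_le_mul_of_one_le_of_one_le (one_le_pow₀ (by linarith only [hC])) hK1
      calc 2 * (κ ^ 2 * (4 * κ ^ 2) ^ j) + 2 ≤ 4 * (κ ^ 2 * (4 * κ ^ 2) ^ j) := by linarith only [h9]
        _ = (4 * κ ^ 2) ^ (j + 1) := by rw [pow_succ]; ring
    have hfin2 := mul_le_mul_of_nonneg_right hfin hQ
    have e1 : (κ * P) ^ 2 * ((4 * κ ^ 2) ^ j * ε * n * (P : ℝ) ^ (2 * j)) =
        (κ ^ 2 * (4 * κ ^ 2) ^ j) * (ε * n * (P : ℝ) ^ (2 * (j + 1))) := by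
      rw [show 2 * (j + 1) = 2 * j + 2 by ring, pow_add]
      ring
    rw [e1] at hs
    have e2 : (4 * κ ^ 2) ^ (j + 1) * ε * n * (P : ℝ) ^ (2 * (j + 1)) =
        (4 * κ ^ 2) ^ (j + 1) * (ε * n * (P : ℝ) ^ (2 * (j + 1))) := by ring
    rw [e2]
    linarith only [hc3, hc4, hL0, hR0, hs, hfin2]

end Pool.Agent.H74.MDX

end

section

/-!
# MDX Combx: the combinatorial theorem with growing number of levels

Proof.  Put `κ0 = 2C+1`, `B = Bc C ℓ`, `ε = εc C δ ℓ`, `Dt = Dc C ℓ`, so `Zc C δ ℓ = 1000 B^54 Dt^12/ε^8 ≤ Q ≤ P`.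
(1) `clean` with `m = k = δP/(4C)` and `rel_card_le`: `S ⊆ R0` with `|S| ≥ δ n P/2` and all degrees `≥ δP/(4C)`.  `F = S.image fst`; `Rel C n P (η P) F G0 α β S`;
`|S| ≤ κ0 P |F|` (`rel_mul`: given `i, p` at most `κ0` triples), so `|F| ≥ δ n/(2κ0)`.
(2) `om_card` at `ℓ` with `m = δP/(4C)`, `2ℓκ0 ≤ δP/(8C)`: `|Om S F ℓ| ≥ δ n/(2κ0) (δP/(8C))^(2ℓ) = 2 (4κ0^2)^ℓ ε n P^(2ℓ)`.
(3) `Par C ℓ P B ε η`; `lvl0` and `lvl_step` (induction on `j ≤ ℓ`) give `Lvl .. ℓ V G c`; by `exc` and (2) `G` is not empty, so `V` has an element `v = c w`.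
(4) `topx` with `D = Dt`, `ρ = ε/B^5`, `J = ℓ`, `K = v.1`, `w = v.2`, `S = DS P ℓ (C 5^ℓ) (2^(ℓ^2+5ℓ) η) F α v` (`DS_desc`, monotone; `F0 := F`), `|S| ≥ ρ P^ℓ`.
All conclusions follow from `48 Dt^6 B^10/ε^2 ≤ Zc ≤ Q`, and the conditions `48 Dt^6 ≤ ρ P`, `48 Dt^6 η P^2 ≤ ρ` from `Q ≤ P`, `Q η P^3 ≤ 1`.
-/

set_option autoImplicit false

namespace Pool.Agent.H74.MDX

open Finset
open Pool.Agent.H53.MID (nz Rel Desc)

/-- elementary facts about the constants -/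
private theorem Combx_const (C δ : ℝ) (ℓ : ℕ) (hC : 1 ≤ C) (_hℓ : 1 ≤ ℓ) (hδ : 0 < δ) (hδ1 : δ ≤ 1) :
    (1 ≤ Bc C ℓ ∧ 2 * C * 5 ^ ℓ + 1 ≤ Bc C ℓ ∧ 4 ^ ℓ * C ≤ Bc C ℓ ∧ (2 * C + 1) ^ (2 * ℓ) ≤ Bc C ℓ ∧
      (ℓ.factorial : ℝ) ^ 2 ≤ Bc C ℓ ∧ (2 : ℝ) ^ (2 * ℓ + 8) ≤ Bc C ℓ) ∧
    (1 ≤ Dc C ℓ ∧ C * 5 ^ ℓ ≤ Dc C ℓ ∧ 4 ^ ℓ * C ≤ Dc C ℓ ∧ (2 : ℝ) ^ (ℓ ^ 2 + 5 * ℓ) ≤ Dc C ℓ) ∧
    (0 < εc C δ ℓ ∧ εc C δ ℓ ≤ 1 ∧ εc C δ ℓ ≤ δ) := by
  have hC0 : 0 < C := by linarith only [hC]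
  have h5 : (1 : ℝ) ≤ 5 ^ ℓ := one_le_pow₀ (by norm_num)
  have h4 : (1 : ℝ) ≤ 4 ^ ℓ := one_le_pow₀ (by norm_num)
  have hk : (1 : ℝ) ≤ (2 * C + 1) ^ (2 * ℓ) := one_le_pow₀ (by linarith only [hC])
  have hf : (0 : ℝ) ≤ (ℓ.factorial : ℝ) ^ 2 := by positivity
  have h2 : (1 : ℝ) ≤ 2 ^ (2 * ℓ + 8) := one_le_pow₀ (by norm_num)
  have h2' : (1 : ℝ) ≤ 2 ^ (ℓ ^ 2 + 5 * ℓ) := one_le_pow₀ (by norm_num)
  have hC5 : 0 ≤ C * 5 ^ ℓ := by positivity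
  have hC4 : 0 ≤ 4 ^ ℓ * C := by positivity
  refine ⟨?_, ?_, ?_⟩
  · unfold Bc
    refine ⟨?_, ?_, ?_, ?_, ?_, ?_⟩ <;> linarith only [hk, hf, h2, hC5, hC4]
  · unfold Dc
    refine ⟨?_, ?_, ?_, ?_⟩ <;> linarith only [h2', hC5, hC4]
  · have e1 : (0 : ℝ) < (4 * (2 * C + 1) ^ 2) ^ ℓ := by positivity
    have e2 : 1 ≤ (4 * (2 * C + 1) ^ 2) ^ ℓ := one_le_pow₀ (by nlinarith only [hC])
    have e3 : δ / (8 * C) ≤ 1 := by
      rw [div_le_one (by positivity)]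
      linarith only [hC, hδ1]
    have e4 : (δ / (8 * C)) ^ (2 * ℓ) ≤ 1 := pow_le_one₀ (by positivity) e3
    have e5 : δ / (4 * (2 * C + 1)) ≤ δ := by
      apply div_le_self hδ.le
      linarith only [hC]
    have e6 : εc C δ ℓ ≤ δ := by
      unfold εc
      rw [div_le_iff₀ e1]
      calc δ / (4 * (2 * C + 1)) * (δ / (8 * C)) ^ (2 * ℓ) ≤ δ * 1 :=
            mul_le_mul e5 e4 (by positivity) hδ.le
        _ ≤ δ * (4 * (2 * C + 1) ^ 2) ^ ℓ := mul_le_mul_of_nonneg_left e2 hδ.le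
    refine ⟨?_, e6.trans hδ1, e6⟩
    unfold εc
    positivity

/-- a lower bound for `Z` -/
private theorem Combx_Z (B D ε : ℝ) (hB : 1 ≤ B) (hD : 1 ≤ D) (hε : 0 < ε) (hε1 : ε ≤ 1) (a b c : ℕ) (ha : a ≤ 54)
    (hb : b ≤ 12) (hc : c ≤ 8) : 1000 * (B ^ a * D ^ b / ε ^ c) ≤ 1000 * B ^ 54 * D ^ 12 / ε ^ 8 := by
  have e1 : B ^ a ≤ B ^ 54 := pow_le_pow_right₀ hB ha
  have e2 : D ^ b ≤ D ^ 12 := pow_le_pow_right₀ hD hb
  have e3 : ε ^ 8 ≤ ε ^ c := pow_le_pow_of_le_one hε.le hε1 hc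
  have e4 : B ^ a * D ^ b / ε ^ c ≤ B ^ 54 * D ^ 12 / ε ^ 8 := by
    apply div_le_div₀ (by positivity) (mul_le_mul e1 e2 (by positivity) (by positivity)) (by positivity) e3
  calc 1000 * (B ^ a * D ^ b / ε ^ c) ≤ 1000 * (B ^ 54 * D ^ 12 / ε ^ 8) :=
        mul_le_mul_of_nonneg_left e4 (by norm_num)
    _ = 1000 * B ^ 54 * D ^ 12 / ε ^ 8 := by ring

private theorem Combx_P (C δ : ℝ) (ℓ : ℕ) (hC : 1 ≤ C) (hℓ : 1 ≤ ℓ) (hδ : 0 < δ) (hδ1 : δ ≤ 1) :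
    1000 ≤ Zc C δ ℓ := by
  obtain ⟨⟨hB, -⟩, ⟨hD, -⟩, hε, hε1, -⟩ := Combx_const C δ ℓ hC hℓ hδ hδ1
  have := Combx_Z _ _ _ hB hD hε hε1 0 0 0 (by norm_num) (by norm_num) (by norm_num)
  unfold Zc
  simpa using this

/-- the descendants are monotone in the set of the indices -/
private theorem Combx_mono (P j : ℕ) (D τ : ℝ) {F F' : Finset ℕ} (h : F ⊆ F') (α : ℕ → ℝ) (v : ℕ × ℝ) :
    DS P j D τ F α v ⊆ DS P j D τ F' α v := by
  intro t ht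
  rw [mem_DS] at ht ⊢
  exact ⟨ht.1, ht.2.1, h ht.2.2.1, ht.2.2.2⟩

/-- a relation with few first coordinates is small -/
private theorem Combx_first (κ : ℝ) (P : ℕ) (S : Finset (ℕ × ℕ × ℕ)) (h : Mul κ P S) :
    (S.card : ℝ) ≤ κ * P * ((S.image Prod.fst).card : ℝ) := by
  classical
  set T : Finset (ℕ × ℕ) := (S.image Prod.fst) ×ˢ (Ioc P (2 * P)) with hT
  have hmap : ∀ t ∈ S, (t.1, t.2.1) ∈ T := by
    intro t ht
    rw [hT, Finset.mem_product]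
    refine ⟨Finset.mem_image_of_mem _ ht, ?_⟩
    rw [Finset.mem_Ioc]
    exact (h.prime t ht).2
  have h1 := Finset.card_eq_sum_card_fiberwise (f := fun t : ℕ × ℕ × ℕ => (t.1, t.2.1)) (s := S) (t := T) hmap
  have h2 : (S.card : ℝ) = ∑ b ∈ T, ((S.filter fun t => (t.1, t.2.1) = b).card : ℝ) := by
    exact_mod_cast h1
  rw [h2]
  calc ∑ b ∈ T, ((S.filter fun t => (t.1, t.2.1) = b).card : ℝ) ≤ ∑ b ∈ T, κ := by
        refine Finset.sum_le_sum fun b _ => ?_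
        have h3 := h.out b.1 b.2
        have h4 : (S.filter fun t => (t.1, t.2.1) = b) = S.filter fun t => t.1 = b.1 ∧ t.2.1 = b.2 := by
          refine Finset.filter_congr fun t _ => ?_
          rw [Prod.ext_iff]
        rw [h4]
        exact h3
    _ = κ * P * ((S.image Prod.fst).card : ℝ) := by
        rw [Finset.sum_const, nsmul_eq_mul, hT, Finset.card_product, Nat.card_Ioc]
        have h5 : 2 * P - P = P := by omega
        rw [h5]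
        push_cast
        ring

theorem combx_node (C : ℝ) (hC : 1 ≤ C) (n P ℓ : ℕ) (δ η Q : ℝ) (hn : 1 ≤ n) (hℓ : 1 ≤ ℓ) (hδ : 0 < δ) (hδ1 : δ ≤ 1)
    (hη : 0 < η) (hQ : Zc C δ ℓ ≤ Q) (hQP : Q ≤ P) (hQη : Q * η * (P : ℝ) ^ 3 ≤ 1) (F0 G0 : Finset ℕ) (α β : ℕ → ℝ)
    (R0 : Finset (ℕ × ℕ × ℕ)) (hR : Rel C n P (η * P) F0 G0 α β R0) (hR0 : δ * n * P ≤ R0.card) :
    ∃ v : ℕ × ℝ, (n : ℝ) / C ≤ v.1 ∧ (v.1 : ℝ) ≤ 4 ^ ℓ * C * n ∧ εc C δ ℓ / Bc C ℓ ^ 5 * (P : ℝ) ^ ℓ ≤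
      ((DS P ℓ (C * 5 ^ ℓ) (2 ^ (ℓ ^ 2 + 5 * ℓ) * η) F0 α v).card : ℝ) := by
  classical
  obtain ⟨⟨hB, hB1, hB2, hB3, hB4, hB5⟩, ⟨hD, -, -, hD3⟩, hε, hε1, hεδ⟩ := Combx_const C δ ℓ hC hℓ hδ hδ1
  have hZ1000 := Combx_P C δ ℓ hC hℓ hδ hδ1
  have hPr : (1000 : ℝ) ≤ P := (hZ1000.trans hQ).trans hQP
  have hP0 : (0 : ℝ) < P := by linarith only [hQ, hQP, hZ1000]
  have hP1 : 1 ≤ P := by
    have : (0 : ℝ) < (P : ℝ) := hP0
    exact_mod_cast this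
  have hC0 : 0 < C := by linarith only [hC]
  have hn0 : (0 : ℝ) < n := by exact_mod_cast hn
  have hQ0 : 0 < Q := by linarith only [hQ, hZ1000]
  obtain ⟨B, hBdef⟩ : ∃ B, B = Bc C ℓ := ⟨_, rfl⟩
  obtain ⟨ε, hεdef⟩ : ∃ ε, ε = εc C δ ℓ := ⟨_, rfl⟩
  obtain ⟨Dt, hDdef⟩ : ∃ Dt, Dt = Dc C ℓ := ⟨_, rfl⟩
  have hZdef : Zc C δ ℓ = 1000 * B ^ 54 * Dt ^ 12 / ε ^ 8 := by
    rw [hBdef, hεdef, hDdef]
    rfl
  rw [← hBdef] at hB hB1 hB2 hB3 hB4 hB5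
  rw [← hεdef] at hε hε1 hεδ
  rw [← hDdef] at hD hD3
  rw [← hBdef, ← hεdef]
  have hB0 : 0 < B := by linarith only [hB]
  have hZP : 1000 * B ^ 54 * Dt ^ 12 / ε ^ 8 ≤ P := by
    rw [← hZdef]
    exact hQ.trans hQP
  have hZQ : 1000 * B ^ 54 * Dt ^ 12 / ε ^ 8 ≤ Q := by
    rw [← hZdef]
    exact hQ
  -- the cleaning
  set m : ℝ := δ * P / (4 * C) with hm
  have hm0 : 0 ≤ m := by positivity
  obtain ⟨hF0c, hG0c⟩ := rel_card_le C hC n P hn (η * P) F0 G0 α β R0 hR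
  obtain ⟨S, hSR, hScard, hS1, hS2⟩ := clean R0 F0 G0 hR.memF hR.memF' m m hm0 hm0
  have hSlow : δ * n * P / 2 ≤ S.card := by
    have h1 : m * F0.card ≤ m * (C * n) := mul_le_mul_of_nonneg_left hF0c hm0
    have h2 : m * G0.card ≤ m * (C * n) := mul_le_mul_of_nonneg_left hG0c hm0
    have h3 : m * (C * n) = δ * n * P / 4 := by
      rw [hm]
      field_simp
    linarith only [hR0, hScard, h1, h2, h3]
  set F : Finset ℕ := S.image Prod.fst with hF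
  have hFF0 : F ⊆ F0 := by
    intro i hi
    rw [hF, Finset.mem_image] at hi
    obtain ⟨t, ht, rfl⟩ := hi
    exact hR.memF t (hSR ht)
  have hRelS : Rel C n P (η * P) F G0 α β S :=
    { memF := fun t ht => by rw [hF]; exact Finset.mem_image_of_mem _ ht
      memF' := fun t ht => hR.memF' t (hSR ht)
      prime := fun t ht => hR.prime t (hSR ht)
      pos := fun t ht => hR.pos t (hSR ht)
      freq := fun t ht => hR.freq t (hSR ht)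
      rngF := fun K hK => hR.rngF K (hFF0 hK)
      rngF' := hR.rngF' }
  have hMul : Mul (2 * C + 1) P S := rel_mul C hC n P hP1 (η * P) F G0 α β S hRelS
  have hFlow : δ * n / (2 * (2 * C + 1)) ≤ F.card := by
    have h1 := Combx_first (2 * C + 1) P S hMul
    rw [← hF] at h1
    rw [div_le_iff₀ (by positivity)]
    have h2 : δ * n * P ≤ (F.card : ℝ) * (2 * (2 * C + 1)) * P := by linarith only [hSlow, h1]
    exact le_of_mul_le_mul_right h2 hP0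
  -- the number of walks
  have hmκ : 2 * ℓ * (2 * C + 1) ≤ δ * P / (8 * C) := by
    rw [le_div_iff₀ (by positivity)]
    have hℓ2 : (ℓ : ℝ) ≤ B := by
      have h1 : ℓ < 2 ^ ℓ := Nat.lt_two_pow_self
      have h2 : (ℓ : ℝ) ≤ 2 ^ ℓ := by exact_mod_cast h1.le
      have h3 : (2 : ℝ) ^ ℓ ≤ 2 ^ (2 * ℓ + 8) := pow_le_pow_right₀ (by norm_num) (by omega)
      linarith only [hB5, h2, h3]
    have hCB : 2 * C + 1 ≤ B := by
      have h5 : (1 : ℝ) ≤ 5 ^ ℓ := one_le_pow₀ (by norm_num)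
      have : 2 * C * 1 ≤ 2 * C * 5 ^ ℓ := mul_le_mul_of_nonneg_left h5 (by positivity)
      linarith only [hB1, this]
    have hz := Combx_Z B Dt ε hB hD hε hε1 3 0 1 (by norm_num) (by norm_num) (by norm_num)
    rw [pow_zero, mul_one, pow_one] at hz
    have hz2 : 1000 * (B ^ 3 / ε) ≤ P := hz.trans hZP
    have hz3 : 1000 * (B ^ 3 / ε) * ε = 1000 * B ^ 3 := by field_simp
    have hz4 : 1000 * B ^ 3 ≤ P * ε := by
      have := mul_le_mul_of_nonneg_right hz2 hε.le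
      rwa [hz3] at this
    have hz5 : (P : ℝ) * ε ≤ P * δ := mul_le_mul_of_nonneg_left hεδ hP0.le
    have hc1 : (ℓ : ℝ) * (2 * C + 1) ≤ B * B := mul_le_mul hℓ2 hCB (by positivity) hB0.le
    have hc2 : (ℓ : ℝ) * (2 * C + 1) * C ≤ B * B * B :=
      mul_le_mul hc1 (by linarith only [hC, hCB]) hC0.le (by positivity)
    have hB3' : B * B * B = B ^ 3 := by ring
    rw [hB3'] at hc2
    have hB30 : 0 < B ^ 3 := by positivity
    calc 2 * (ℓ : ℝ) * (2 * C + 1) * (8 * C) = 16 * ((ℓ : ℝ) * (2 * C + 1) * C) := by ring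
      _ ≤ 16 * B ^ 3 := by linarith only [hc2]
      _ ≤ δ * P := by linarith only [hz4, hz5, hB30]
  have hmm : δ * P / (8 * C) ≤ m - 2 * ℓ * (2 * C + 1) := by
    have : m = δ * P / (8 * C) + δ * P / (8 * C) := by
      rw [hm]
      field_simp
      ring
    rw [this]
    linarith only [hmκ]
  have hOm := om_card S F (2 * C + 1) m P ℓ hMul hRelS.memF (by
      have h0 : 0 ≤ δ * P / (8 * C) := by positivity
      linarith only [hm0, hmκ, hmm]) (by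
      intro i hi
      rw [hF, Finset.mem_image] at hi
      obtain ⟨t, ht, rfl⟩ := hi
      exact hS1 t ht) hS2
  have hpow : (δ * P / (8 * C)) ^ (2 * ℓ) ≤ (m - 2 * ℓ * (2 * C + 1)) ^ (2 * ℓ) :=
    pow_le_pow_left₀ (by positivity) hmm _
  have hOm2 : 2 * ((4 * (2 * C + 1) ^ 2) ^ ℓ * ε * n * (P : ℝ) ^ (2 * ℓ)) ≤ (Om S F ℓ).card := by
    refine le_trans (le_of_eq ?_) ((mul_le_mul hFlow hpow (by positivity) (by positivity)).trans hOm)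
    rw [hεdef]
    unfold εc
    have hne : (4 * (2 * C + 1) ^ 2) ^ ℓ ≠ 0 := by positivity
    have e : δ * P / (8 * C) = (δ / (8 * C)) * P := by ring
    rw [e, mul_pow (δ / (8 * C)) (P : ℝ) (2 * ℓ)]
    generalize (δ / (8 * C)) ^ (2 * ℓ) = X
    generalize (4 * (2 * C + 1) ^ 2) ^ ℓ = Y at hne
    field_simp
    ring
  -- the levels
  have hPar : Par C ℓ P B ε η :=
    { hC := hC
      hB1 := hB1
      hB2 := hB2
      hB3 := hB3
      hB4 := hB4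
      hB5 := hB5
      hε := hε
      hε1 := hε1
      hη := hη
      hP := by
        have h1 : 1000 * B ^ 54 * Dt ^ 12 ≤ P * ε ^ 8 := by
          rwa [div_le_iff₀ (by positivity)] at hZP
        have h2 : (1 : ℝ) ≤ Dt ^ 12 := one_le_pow₀ hD
        have h3 : 1000 * B ^ 54 * 1 ≤ 1000 * B ^ 54 * Dt ^ 12 :=
          mul_le_mul_of_nonneg_left h2 (by positivity)
        have h4 : 0 < B ^ 54 := by positivity
        linarith only [h1, h3, h4]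
      hηP := by
        have h1 : (2 : ℝ) ^ (ℓ ^ 2 + 5 * ℓ + 10) ≤ Q := by
          have hz := Combx_Z B Dt ε hB hD hε hε1 1 1 0 (by norm_num) (by norm_num) (by norm_num)
          rw [pow_one, pow_one, pow_zero, div_one] at hz
          have h2 : (2 : ℝ) ≤ B := by
            have : (2 : ℝ) ^ 1 ≤ 2 ^ (2 * ℓ + 8) := pow_le_pow_right₀ (by norm_num) (by omega)
            linarith only [hB5, this]
          rw [pow_add]
          calc (2 : ℝ) ^ (ℓ ^ 2 + 5 * ℓ) * 2 ^ 10 ≤ Dt * 2 ^ 10 :=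
                mul_le_mul_of_nonneg_right hD3 (by positivity)
            _ ≤ 1000 * (B * Dt) := by nlinarith only [h2, hB, hD]
            _ ≤ Q := hz.trans hZQ
        have h2 : 0 ≤ η * (P : ℝ) ^ 3 := by positivity
        calc (2 : ℝ) ^ (ℓ ^ 2 + 5 * ℓ + 10) * η * (P : ℝ) ^ 3 = 2 ^ (ℓ ^ 2 + 5 * ℓ + 10) * (η * (P : ℝ) ^ 3) := by
              ring
          _ ≤ Q * (η * (P : ℝ) ^ 3) := mul_le_mul_of_nonneg_right h1 h2
          _ = Q * η * (P : ℝ) ^ 3 := by ring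
          _ ≤ 1 := hQη }
  have hlev : ∀ j : ℕ, j ≤ ℓ → ∃ (V : Finset (ℕ × ℝ)) (G : Finset (Wk j)) (c : Wk j → ℕ × ℝ),
      Lvl C B ε η n P F α S j V G c := by
    intro j
    induction j with
    | zero =>
      intro _
      exact lvl0 C B ε η ℓ n P F G0 α β S hPar hP1 hRelS
    | succ j ih =>
      intro hj
      obtain ⟨V, G, c, hL⟩ := ih (by omega)
      exact lvl_step C B ε η ℓ n P j F α S hPar (by omega) hn hMul V G c hL
  obtain ⟨V, G, c, hL⟩ := hlev ℓ le_rfl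
  have hpos : 0 < (4 * (2 * C + 1) ^ 2) ^ ℓ * ε * n * (P : ℝ) ^ (2 * ℓ) := by positivity
  have hex : ∃ w ∈ Om S F ℓ, w ∈ G := by
    by_contra hcon
    push Not at hcon
    have h1 : (Om S F ℓ).filter (fun w => w ∉ G) = Om S F ℓ := Finset.filter_true_of_mem hcon
    have h2 := hL.exc
    rw [h1] at h2
    linarith only [hOm2, hpos, h2]
  obtain ⟨w, -, hwG⟩ := hex
  have hv := hL.col w hwG
  obtain ⟨hr1, hr2⟩ := hL.rng _ hv
  refine ⟨c w, hr1, hr2, (hL.desc _ hv).trans ?_⟩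
  exact_mod_cast Finset.card_le_card (Combx_mono P ℓ _ _ hFF0 α (c w))

theorem combx (C : ℝ) (hC : 1 ≤ C) (n P ℓ : ℕ) (δ η Q : ℝ) (hn : 1 ≤ n) (hℓ : 1 ≤ ℓ) (hnP : (n : ℝ) * P ≤ (P : ℝ) ^ ℓ)
    (hnP2 : (P : ℝ) ^ ℓ ≤ n * (P : ℝ) ^ 2) (hδ : 0 < δ) (hδ1 : δ ≤ 1)
    (hη : 0 < η) (hQ : Zc C δ ℓ ≤ Q) (hQP : Q ≤ P) (hQη : Q * η * (P : ℝ) ^ 3 ≤ 1) (F0 G0 : Finset ℕ) (α β : ℕ → ℝ)
    (R0 : Finset (ℕ × ℕ × ℕ)) (hR : Rel C n P (η * P) F0 G0 α β R0) (hR0 : δ * n * P ≤ R0.card) :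
    ∃ (d b : ℕ) (T : ℝ) (F1 : Finset ℕ), 1 ≤ d ∧ (d : ℝ) ≤ Q ∧ |T| ≤ Q * η * (n : ℝ) ^ 2 ∧ F1 ⊆ F0 ∧
      (n : ℝ) ≤ Q * F1.card ∧ ∀ i ∈ F1, nz (α i - b / d - T / i) ≤ Q * η := by
  obtain ⟨v, hv1, hv2, hv3⟩ := combx_node C hC n P ℓ δ η Q hn hℓ hδ hδ1 hη hQ hQP hQη F0 G0 α β R0 hR hR0
  obtain ⟨⟨hB, -⟩, ⟨hD, hD1, hD2, hD3⟩, hε, hε1, -⟩ := Combx_const C δ ℓ hC hℓ hδ hδ1
  have hZ1000 := Combx_P C δ ℓ hC hℓ hδ hδ1
  have hPr : (1000 : ℝ) ≤ P := (hZ1000.trans hQ).trans hQP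
  have hP0 : (0 : ℝ) < P := by linarith only [hQ, hQP, hZ1000]
  have hP1 : 1 ≤ P := by
    have : (0 : ℝ) < (P : ℝ) := hP0
    exact_mod_cast this
  have hC0 : 0 < C := by linarith only [hC]
  have hn0 : (0 : ℝ) < n := by exact_mod_cast hn
  have hQ0 : 0 < Q := by linarith only [hQ, hZ1000]
  obtain ⟨B, hBdef⟩ : ∃ B, B = Bc C ℓ := ⟨_, rfl⟩
  obtain ⟨ε, hεdef⟩ : ∃ ε, ε = εc C δ ℓ := ⟨_, rfl⟩
  obtain ⟨Dt, hDdef⟩ : ∃ Dt, Dt = Dc C ℓ := ⟨_, rfl⟩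
  have hZdef : Zc C δ ℓ = 1000 * B ^ 54 * Dt ^ 12 / ε ^ 8 := by
    rw [hBdef, hεdef, hDdef]
    rfl
  rw [← hBdef] at hB hv3
  rw [← hεdef] at hε hε1 hv3
  rw [← hDdef] at hD hD1 hD2 hD3
  have hB0 : 0 < B := by linarith only [hB]
  have hD0 : 0 < Dt := by linarith only [hD]
  have hZP : 1000 * B ^ 54 * Dt ^ 12 / ε ^ 8 ≤ P := by
    rw [← hZdef]
    exact hQ.trans hQP
  have hZQ : 1000 * B ^ 54 * Dt ^ 12 / ε ^ 8 ≤ Q := by
    rw [← hZdef]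
    exact hQ
  have hCD : C ≤ Dt := by
    have h5 : (1 : ℝ) ≤ 5 ^ ℓ := one_le_pow₀ (by norm_num)
    have : C * 1 ≤ C * 5 ^ ℓ := mul_le_mul_of_nonneg_left h5 hC0.le
    linarith only [hD1, this]
  have hnD : (n : ℝ) / Dt ≤ n / C := div_le_div_of_nonneg_left hn0.le hC0 hCD
  -- the constants
  set ρ : ℝ := ε / B ^ 5 with hρ
  have hρ0 : 0 < ρ := by positivity
  have hρ1 : ρ ≤ 1 := by
    rw [hρ, div_le_one (by positivity)]
    exact hε1.trans (one_le_pow₀ hB)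
  have hρi : 1 / ρ = B ^ 5 / ε := by rw [hρ, one_div, inv_div]
  -- `48 D^6 / ρ ≤ Q`, `48 D^6 / ρ^2 ≤ Q`
  have hX : 48 * Dt ^ 6 / ρ ≤ 1000 * B ^ 54 * Dt ^ 12 / ε ^ 8 := by
    have hz := Combx_Z B Dt ε hB hD hε hε1 5 6 1 (by norm_num) (by norm_num) (by norm_num)
    refine le_trans ?_ hz
    rw [pow_one]
    have h1 : 48 * Dt ^ 6 / ρ = 48 * (B ^ 5 * Dt ^ 6 / ε) := by
      rw [hρ]
      field_simp
    rw [h1]
    have h2 : 0 ≤ B ^ 5 * Dt ^ 6 / ε := by positivity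
    linarith only [h2]
  have hX2 : 48 * Dt ^ 6 / ρ ^ 2 ≤ 1000 * B ^ 54 * Dt ^ 12 / ε ^ 8 := by
    have hz := Combx_Z B Dt ε hB hD hε hε1 10 6 2 (by norm_num) (by norm_num) (by norm_num)
    refine le_trans ?_ hz
    have h1 : 48 * Dt ^ 6 / ρ ^ 2 = 48 * (B ^ 10 * Dt ^ 6 / ε ^ 2) := by
      rw [hρ]
      field_simp
    rw [h1]
    have h2 : 0 ≤ B ^ 10 * Dt ^ 6 / ε ^ 2 := by positivity
    linarith only [h2]
  have hXQ : 48 * Dt ^ 6 / ρ ≤ Q := hX.trans hZQ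
  have hXQ' : 48 * Dt ^ 6 ≤ Q * ρ := by rwa [div_le_iff₀ hρ0] at hXQ
  have hXP' : 48 * Dt ^ 6 ≤ P * ρ := by
    have := hX.trans hZP
    rwa [div_le_iff₀ hρ0] at this
  have hX2Q : 48 * Dt ^ 6 ≤ Q * ρ ^ 2 := by
    have := hX2.trans hZQ
    rwa [div_le_iff₀ (by positivity)] at this
  have hDesc : Desc P ℓ Dt (Dt * η) F0 α v.1 v.2 (DS P ℓ (C * 5 ^ ℓ) (2 ^ (ℓ ^ 2 + 5 * ℓ) * η) F0 α v) := by
    have h := DS_desc P ℓ (C * 5 ^ ℓ) (2 ^ (ℓ ^ 2 + 5 * ℓ) * η) F0 α v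
    exact
      { mem := h.mem
        lo := h.lo
        hi := h.hi
        pos := fun t ht => (h.pos t ht).trans (mul_le_mul_of_nonneg_right hD1 (by positivity))
        freq := fun t ht => (h.freq t ht).trans (mul_le_mul_of_nonneg_right hD3 hη.le) }
  obtain ⟨d, b, T, F1, hd1, hd2, hT, hF1, hF1c, hnz⟩ := topx Dt hD n P ℓ v.1 ρ η v.2 F0 α
    (DS P ℓ (C * 5 ^ ℓ) (2 ^ (ℓ ^ 2 + 5 * ℓ) * η) F0 α v) hn hP1 hρ0 hρ1 hη.le hnP hnP2
    (fun i hi => ⟨hnD.trans (hR.rngF i hi).1, (hR.rngF i hi).2.trans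
      (mul_le_mul_of_nonneg_right hCD hn0.le)⟩)
    (hnD.trans hv1) (hv2.trans (mul_le_mul_of_nonneg_right hD2 hn0.le))
    (by linarith only [hXP'])
    (by
      have h1 : 48 * Dt ^ 6 * η * (P : ℝ) ^ 2 ≤ Q * ρ * (η * (P : ℝ) ^ 2) := by
        have := mul_le_mul_of_nonneg_right hXQ' (show 0 ≤ η * (P : ℝ) ^ 2 by positivity)
        linarith only [this]
      have h2 : Q * (η * (P : ℝ) ^ 2) ≤ 1 := by
        have h3 : (P : ℝ) ^ 2 ≤ (P : ℝ) ^ 3 := pow_le_pow_right₀ (by linarith only [hQ, hQP, hZ1000]) (by norm_num)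
        have h4 : Q * (η * (P : ℝ) ^ 2) ≤ Q * (η * (P : ℝ) ^ 3) :=
          mul_le_mul_of_nonneg_left (mul_le_mul_of_nonneg_left h3 hη.le) hQ0.le
        linarith only [hQη, h4]
      have h3 : Q * ρ * (η * (P : ℝ) ^ 2) ≤ ρ := by
        have := mul_le_mul_of_nonneg_left h2 hρ0.le
        linarith only [this]
      exact h1.trans h3)
    hDesc hv3
  refine ⟨d, b, T, F1, hd1, ?_, ?_, hF1, ?_, fun i hi => ?_⟩
  · have h1 : (d : ℝ) * ρ ≤ Q * ρ := hd2.trans hXQ'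
    exact le_of_mul_le_mul_right h1 hρ0
  · have h1 : |T| * ρ ≤ (Q * η * (n : ℝ) ^ 2) * ρ := by
      refine hT.trans ?_
      have := mul_le_mul_of_nonneg_right hXQ' (show 0 ≤ η * (n : ℝ) ^ 2 by positivity)
      linarith only [this]
    exact le_of_mul_le_mul_right h1 hρ0
  · have h1 : (n : ℝ) * ρ ^ 2 ≤ (Q * F1.card) * ρ ^ 2 := by
      have := mul_le_mul_of_nonneg_right hX2Q (show (0 : ℝ) ≤ F1.card by positivity)
      linarith only [hF1c, this]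
    exact le_of_mul_le_mul_right h1 (by positivity)
  · have h1 : nz (α i - b / d - T / i) * ρ ≤ (Q * η) * ρ := by
      refine (hnz i hi).trans ?_
      have := mul_le_mul_of_nonneg_right hXQ' hη.le
      linarith only [this]
    exact le_of_mul_le_mul_right h1 hρ0

end Pool.Agent.H74.MDX

end

section

/-!
# MDX CombW: the weak combinatorial theorem (part I of MIDX)

Proof.  `comb_num C` gives `D`; `N0` from `comb_asym` (with `D`, `C0`), `comb_lvl`, and such that `log N ≥ 1`.  For `N ≥ N0` take `ℓ` from `comb_lvl`, `δ = 1/(log N)^C0`,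
`Q = exp((log N)^t2)`: `Zc C δ ℓ ≤ (D ℓ/δ)^(D ℓ) 2^(D ℓ^2) ≤ Q` and `Q ≤ exp((log N)^t) ≤ P`.  `combx` gives `d, b, T, F1`.  Reduce the fraction: `g = gcd(b, d)`,
`d' = d/g`, `b' = b/g`: `b'/d' = b/d` (real numbers), `1 ≤ d' ≤ d`, coprime (`Nat.coprime_div_gcd_div_gcd`).
-/

set_option autoImplicit false

namespace Pool.Agent.H74.MDX

open Finset
open Pool.Agent.H53.MID (nz Rel Desc)

/-- the weak combinatorial theorem -/
def CombWeak (t t2 : ℝ) : Prop := ∀ (C : ℝ), 1 ≤ C → ∀ C0 : ℕ, ∃ N0 : ℕ, ∀ N : ℕ, N0 ≤ N →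
  ∀ (n P : ℕ) (η : ℝ) (F0 G0 : Finset ℕ) (α β : ℕ → ℝ) (R0 : Finset (ℕ × ℕ × ℕ)),
    Real.exp (Real.log N ^ t) ≤ P → P ≤ N → 1 ≤ n → n ≤ N → 0 < η →
    Real.exp (Real.log N ^ t2) * η * (P : ℝ) ^ 3 ≤ 1 → Rel C n P (η * P) F0 G0 α β R0 →
    n * P / Real.log N ^ C0 ≤ (R0.card : ℝ) →
    ∃ (d b : ℕ) (T : ℝ) (F1 : Finset ℕ), 1 ≤ d ∧ (d : ℝ) ≤ Real.exp (Real.log N ^ t2) ∧ Nat.Coprime b d ∧
      |T| ≤ Real.exp (Real.log N ^ t2) * η * (n : ℝ) ^ 2 ∧ F1 ⊆ F0 ∧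
      (n : ℝ) ≤ Real.exp (Real.log N ^ t2) * F1.card ∧
      ∀ i ∈ F1, nz (α i - b / d - T / i) ≤ Real.exp (Real.log N ^ t2) * η

/-- reduction of a fraction -/
private theorem CombW_red (d b : ℕ) (hd : 1 ≤ d) : ∃ d' b' : ℕ, 1 ≤ d' ∧ d' ≤ d ∧ Nat.Coprime b' d' ∧
    (b' : ℝ) / d' = b / d := by
  have hg : 0 < Nat.gcd b d := Nat.gcd_pos_of_pos_right b (by omega)
  have h1 : Nat.gcd b d ∣ b := Nat.gcd_dvd_left b d
  have h2 : Nat.gcd b d ∣ d := Nat.gcd_dvd_right b d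
  refine ⟨d / Nat.gcd b d, b / Nat.gcd b d, Nat.div_pos (Nat.le_of_dvd (by omega) h2) hg,
    Nat.div_le_self _ _, Nat.coprime_div_gcd_div_gcd hg, ?_⟩
  have hg' : (Nat.gcd b d : ℝ) ≠ 0 := by exact_mod_cast hg.ne'
  rw [Nat.cast_div h1 hg', Nat.cast_div h2 hg']
  exact div_div_div_cancel_right₀ hg' _ _

theorem comb_weak (t t2 : ℝ) (ht1 : t < 1) (ht2 : 2 * (1 - t) < t2) (ht3 : t2 < t) : CombWeak t t2 := by
  intro C hC C0
  obtain ⟨D, hD1, hD⟩ := comb_num C hC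
  obtain ⟨N1, hN1⟩ := comb_asym t t2 ht1 ht2 D C0
  obtain ⟨N2, hN2⟩ := comb_lvl t (by linarith) ht1
  refine ⟨max N1 (max N2 3), fun N hN n P η F0 G0 α β R0 hP hPN hn hnN hη hQη hR hR0 => ?_⟩
  rw [max_le_iff, max_le_iff] at hN
  obtain ⟨hNa, hNb, hNc⟩ := hN
  have hL1 : 1 ≤ Real.log N := by
    rw [Real.le_log_iff_exp_le (by positivity)]
    have h1 : (3 : ℝ) ≤ N := by exact_mod_cast hNc
    have h2 := Real.exp_one_lt_three
    linarith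
  obtain ⟨ℓ, hℓ1, hℓ2, hℓ3, hℓ4⟩ := hN2 N hNb n P hP hn hnN
  obtain ⟨L, hL⟩ : ∃ L : ℝ, L = Real.log N ^ C0 := ⟨_, rfl⟩
  have hLpos : 1 ≤ L := by rw [hL]; exact one_le_pow₀ hL1
  have hδ : 0 < 1 / L := by positivity
  have hδ1 : 1 / L ≤ 1 := by
    rw [div_le_one (by linarith)]
    exact hLpos
  have hZ : Zc C (1 / L) ℓ ≤ Real.exp (Real.log N ^ t2) := by
    refine (hD ℓ (1 / L) hℓ1 hδ hδ1).trans ?_
    have h1 := hN1 N hNa ℓ hℓ1 hℓ2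
    rw [← hL] at h1
    have e1 : (D : ℝ) * ℓ / (1 / L) = D * ℓ * L := by
      rw [div_div_eq_mul_div, div_one]
    rw [e1]
    exact h1
  have hQP : Real.exp (Real.log N ^ t2) ≤ P := by
    refine le_trans ?_ hP
    exact Real.exp_le_exp.2 (Real.rpow_le_rpow_of_exponent_le hL1 ht3.le)
  have hR0' : 1 / L * n * P ≤ R0.card := by
    rw [← hL] at hR0
    refine le_trans (le_of_eq ?_) hR0
    ring
  obtain ⟨d, b, T, F1, g1, g2, g3, g4, g5, g6⟩ := combx C hC n P ℓ (1 / L) η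
    (Real.exp (Real.log N ^ t2)) hn hℓ1 hℓ3 hℓ4 hδ hδ1 hη hZ hQP hQη F0 G0 α β R0 hR hR0'
  obtain ⟨d', b', k1, k2, k3, k4⟩ := CombW_red d b g1
  refine ⟨d', b', T, F1, k1, ?_, k3, g3, g4, g5, ?_⟩
  · refine le_trans ?_ g2
    exact_mod_cast k2
  · intro i hi
    rw [k4]
    exact g6 i hi

end Pool.Agent.H74.MDX

end

section

/-!
# MDB BoostF: the combinatorial theorem with the boost

Proof.  Given `C, C0`.  `L = log N`, `Q = exp(L^t2)`; for large `N`: `200 C^10 ≤ Q ≤ P` (`t2 < t`), `8 Q^6 ≤ N^(1/4) ≤ n` (`t2 < 1`), `L ≥ 100 C^3`, `24 C^2 L^(2 C0) · 2 ≤ Q^3`.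
(1) `cover`: `r, U, s, d, b, T`, `Cov C n Q η α r U s d b T`; `R1 = R0.filter (t.1 ∈ U)`, `|R1| ≥ n P/(2 L^C0)`, `Rel C n P (η P) U G0 α β R1` (`rngF` from `U ⊆ F0`).
(2) `pairs`: the set `A` of the `q ∈ QS C P U` with `nz (p α_i - p' α_i') ≤ 2 η P` has `≥ |R1|^2/(C n (2C+1)) ≥ n P^2/(12 C^2 L^(2 C0))` elements (`2C+1 ≤ 3C`).
(3) `far`: the `q ∈ A` with `|T (s i) - T (s i')| > Z := Q^12 η n` are `≤ n P^2/Q^3 ≤ n P^2/(24 C^2 L^(2C0))`.  So the near ones (`≤ Z`) are `≥ n P^2/(24 C^2 L^(2C0))`.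
(4) `near`: for a near `q`: `d (s i) = d (s i')`, `p b (s i) ≡ p' b (s i') mod d (s i)`.  `split Z U (fun i => d (s i)) (fun i => T (s i))`: `K`; with `U_k = U.filter (...)`: every near `q` is in `NB C P U_k k.2 bb` for some `k ∈ K`, `bb i = b (s i)`.  So
`∑_{k ∈ K} |NB_k| ≥ n P^2/(24 C^2 L^(2 C0))`, `∑_k |U_k| ≤ 2 |U| ≤ 2 C n`.
(5) `boostl` with `A1 = 2 C0 + 1` (for `k ∈ K`: `δ = k.2 = d (s i)` for some `i ∈ U`, so `1 ≤ δ ≤ Q`; for `i ∈ U_k`: `b (s i)` is prime to `d (s i) = δ`): `∑_k |U_k|/L^(2C0+1) ≤ 2 C n/L^(2C0+1) ≤ n/(48 C^2 L^(2C0))`, so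
`∑_k L^T1 |U_k|^2/(n δ_k) ≥ n/(48 C^2 L^(2 C0))`, and as `∑_k |U_k| ≤ 2 C n` some `k` has `L^T1 |U_k|/(n δ_k) ≥ 1/(96 C^3 L^(2 C0))`, i.e. `|U_k| ≥ δ_k n/L^(C1')`, `C1' = 2 C0 + T1 + 1`.
(6) `δ := δ_k ≤ |U_k| L^C1'/n ≤ C L^C1' ≤ L^(C1'+1)`.  Pigeonhole: some `c < δ` is `bb i % δ` for `≥ |U_k|/δ ≥ n/L^C1'` elements `i ∈ U_k`: they form `F1`.  Answer: `d = δ`, `b = c`, `T = k.1 Z`, `C1 = C1' + 1`.
`F1` is nonempty; for `i ∈ F1`: `|T (s i) - T| ≤ 2 Z`, so `|T| ≤ Q η n^2 + 2 Q^12 η n ≤ Q^20 η n^2`; `α_i - c/δ - T/i = (α_i - b(s i)/δ - T(s i)/i) + (b (s i) - c)/δ + (T (s i) - T)/i`, the middle term is an integer,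
`nz ≤ Q η + 2 Q^12 η n C/n ≤ Q^13 η`.
-/

set_option autoImplicit false

namespace Pool.Agent.H53.MDB

open Finset
open Pool.Agent.H53.MID (nz Rel)
open Pool.Agent.H53.MIX (VKe CombX)

open Filter Asymptotics in
/-- large `N` -/
private theorem BoostF_large (t t2 : ℝ) (h2 : 0 < t2) (h2t : t2 < t) (ht : t < 1) (C : ℝ) (hC : 1 ≤ C) (C0 : ℕ) :
    ∃ N1 : ℕ, ∀ N : ℕ, N1 ≤ N → 192 * C ^ 3 ≤ Real.log N ∧ 200 * C ^ 10 ≤ Real.exp (Real.log N ^ t2) ∧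
      24 * C ^ 2 * Real.log N ^ (2 * C0) ≤ Real.exp (Real.log N ^ t2) ^ 3 ∧
      8 * Real.exp (Real.log N ^ t2) ^ 6 ≤ (N : ℝ) ^ (1 / 4 : ℝ) ∧
      Real.exp (Real.log N ^ t2) ≤ Real.exp (Real.log N ^ t) ∧ 1 ≤ N := by
  have hlog : Tendsto (fun N : ℕ => Real.log (N : ℝ)) atTop atTop :=
    Real.tendsto_log_atTop.comp tendsto_natCast_atTop_atTop
  have hpow : Tendsto (fun N : ℕ => Real.log (N : ℝ) ^ t2) atTop atTop := (tendsto_rpow_atTop h2).comp hlog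
  have hexp : Tendsto (fun N : ℕ => Real.exp (Real.log (N : ℝ) ^ t2)) atTop atTop := Real.tendsto_exp_atTop.comp hpow
  have hC2 : (0 : ℝ) < 1 / (24 * C ^ 2) := by positivity
  have h1 := hlog.eventually_ge_atTop (192 * C ^ 3)
  have h3 := hexp.eventually_ge_atTop (200 * C ^ 10)
  have h6 := hpow.eventually ((isLittleO_rpow_exp_atTop ((2 * C0 : ℕ) / t2 : ℝ)).bound hC2)
  have h7 : Tendsto (fun N : ℕ => Real.log (N : ℝ) ^ (1 - t2)) atTop atTop :=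
    (tendsto_rpow_atTop (by linarith)).comp hlog
  have h8 := h7.eventually_ge_atTop 48
  obtain ⟨N1, hN1⟩ := eventually_atTop.1 (h1.and (h3.and (h6.and (h8.and (eventually_ge_atTop 1)))))
  refine ⟨N1, fun N hN => ?_⟩
  obtain ⟨a1, a3, a6, a8, a9⟩ := hN1 N hN
  obtain ⟨L, hL⟩ : ∃ L, L = Real.log (N : ℝ) := ⟨_, rfl⟩
  rw [← hL] at a1 a3 a6 a8 ⊢
  have hC3 : (1 : ℝ) ≤ C ^ 3 := one_le_pow₀ hC
  have hL1 : (192 : ℝ) ≤ L := by linarith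
  have hL0 : (0 : ℝ) < L := by linarith
  have hQ1 : (1 : ℝ) ≤ Real.exp (L ^ t2) := Real.one_le_exp (Real.rpow_nonneg hL0.le _)
  refine ⟨a1, a3, ?_, ?_, ?_, a9⟩
  · have e1 : (L ^ t2) ^ ((2 * C0 : ℕ) / t2 : ℝ) = L ^ (2 * C0) := by
      rw [← Real.rpow_mul hL0.le, mul_div_cancel₀ _ h2.ne', Real.rpow_natCast]
    rw [e1, Real.norm_of_nonneg (pow_nonneg hL0.le _), Real.norm_of_nonneg (Real.exp_pos _).le] at a6
    have e2 : 24 * C ^ 2 * L ^ (2 * C0) ≤ Real.exp (L ^ t2) := by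
      have e3 : (0 : ℝ) < 24 * C ^ 2 := by positivity
      calc 24 * C ^ 2 * L ^ (2 * C0) ≤ 24 * C ^ 2 * (1 / (24 * C ^ 2) * Real.exp (L ^ t2)) :=
            mul_le_mul_of_nonneg_left a6 e3.le
        _ = Real.exp (L ^ t2) := by field_simp
    exact e2.trans (le_self_pow₀ hQ1 (by norm_num))
  · have e1 : (N : ℝ) ^ (1 / 4 : ℝ) = Real.exp (L / 8) * Real.exp (L / 8) := by
      have hN0 : (0 : ℝ) < N := by exact_mod_cast a9
      rw [Real.rpow_def_of_pos hN0, ← hL, ← Real.exp_add]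
      congr 1
      ring
    have e2 : (8 : ℝ) ≤ Real.exp (L / 8) := by
      have := Real.add_one_le_exp (L / 8)
      linarith
    have e3 : L ^ t2 * 48 ≤ L := by
      have e4 : L ^ t2 * L ^ (1 - t2) = L := by
        rw [← Real.rpow_add hL0]
        have : t2 + (1 - t2) = 1 := by ring
        rw [this, Real.rpow_one]
      calc L ^ t2 * 48 ≤ L ^ t2 * L ^ (1 - t2) := mul_le_mul_of_nonneg_left a8 (Real.rpow_nonneg hL0.le _)
        _ = L := e4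
    have e5 : Real.exp (L ^ t2) ^ 6 ≤ Real.exp (L / 8) := by
      rw [← Real.exp_nat_mul]
      apply Real.exp_le_exp.2
      push_cast
      linarith
    rw [e1]
    exact mul_le_mul e2 e5 (by positivity) (by positivity)
  · apply Real.exp_le_exp.2
    exact Real.rpow_le_rpow_of_exponent_le (by linarith) h2t.le

/-- selection of a class -/
private theorem BoostF_sel {ι : Type} (K : Finset ι) (u δ : ι → ℝ) (C n L : ℝ) (C0 T1 : ℕ) (hC : 1 ≤ C) (hn : 0 < n)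
    (hL : 192 * C ^ 3 ≤ L) (hu : ∀ k ∈ K, 0 ≤ u k) (hδ : ∀ k ∈ K, 0 < δ k) (hs : ∑ k ∈ K, u k ≤ 2 * (C * n))
    (h : n / (24 * C ^ 2 * L ^ (2 * C0)) ≤ ∑ k ∈ K, (L ^ T1 * u k ^ 2 / (n * δ k) + u k / L ^ (2 * C0 + 1))) :
    ∃ k ∈ K, n * δ k ≤ u k * L ^ (2 * C0 + T1 + 1) := by
  by_contra hcon
  push Not at hcon
  have hC3 : (1 : ℝ) ≤ C ^ 3 := one_le_pow₀ hC
  have hL0 : (0 : ℝ) < L := by linarith
  have h1 : ∀ k ∈ K, L ^ T1 * u k ^ 2 / (n * δ k) + u k / L ^ (2 * C0 + 1) ≤ 2 * u k / L ^ (2 * C0 + 1) := by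
    intro k hk
    have h2 : 0 < n * δ k := mul_pos hn (hδ k hk)
    have h3 : L ^ T1 * u k ^ 2 / (n * δ k) ≤ u k / L ^ (2 * C0 + 1) := by
      rw [div_le_div_iff₀ h2 (pow_pos hL0 _)]
      have h4 := mul_le_mul_of_nonneg_left (hcon k hk).le (hu k hk)
      calc L ^ T1 * u k ^ 2 * L ^ (2 * C0 + 1) = u k * (u k * L ^ (2 * C0 + T1 + 1)) := by ring
        _ ≤ u k * (n * δ k) := h4
    have h5 : 2 * u k / L ^ (2 * C0 + 1) = u k / L ^ (2 * C0 + 1) + u k / L ^ (2 * C0 + 1) := by ring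
    rw [h5]
    exact add_le_add_left h3 _
  have h6 := h.trans (sum_le_sum h1)
  have h7 : ∑ k ∈ K, 2 * u k / L ^ (2 * C0 + 1) = 2 * (∑ k ∈ K, u k) / L ^ (2 * C0 + 1) := by
    rw [mul_sum, sum_div]
  rw [h7] at h6
  have h8 : 2 * (∑ k ∈ K, u k) / L ^ (2 * C0 + 1) ≤ 4 * (C * n) / L ^ (2 * C0 + 1) := by
    apply div_le_div_of_nonneg_right _ (pow_nonneg hL0.le _)
    linarith
  have h9 := h6.trans h8
  have hLp : (0 : ℝ) < L ^ (2 * C0) := pow_pos hL0 _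
  rw [div_le_div_iff₀ (by positivity) (by positivity), pow_succ L (2 * C0)] at h9
  have h10 : n * L ≤ n * (96 * C ^ 3) := by
    have h11 : (n * L) * L ^ (2 * C0) ≤ (n * (96 * C ^ 3)) * L ^ (2 * C0) := by
      calc (n * L) * L ^ (2 * C0) = n * (L ^ (2 * C0) * L) := by ring
        _ ≤ 4 * (C * n) * (24 * C ^ 2 * L ^ (2 * C0)) := h9
        _ = (n * (96 * C ^ 3)) * L ^ (2 * C0) := by ring
    exact le_of_mul_le_mul_right h11 hLp
  have h12 := le_of_mul_le_mul_left h10 hn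
  linarith

open Classical in
/-- many near quadruples -/
private theorem BoostF_near (C : ℝ) (hC : 1 ≤ C) (n P : ℕ) (Q η L : ℝ) (C0 : ℕ) (α β : ℕ → ℝ) (r : ℕ) (U G0 : Finset ℕ)
    (R1 : Finset (ℕ × ℕ × ℕ)) (s d b : ℕ → ℕ) (T : ℕ → ℝ) (hc : Cov C n Q η α r U s d b T)
    (hR : Rel C n P (η * P) U G0 α β R1) (hn : 1 ≤ n) (hP : 1 ≤ P) (hQ : 200 * C ^ 10 ≤ Q) (hQn : 8 * Q ^ 6 ≤ n)
    (hη : 0 < η) (hηQ : η * Q ^ 60 * (P : ℝ) ^ 3 ≤ 1) (hL : 1 ≤ L) (hQL : 24 * C ^ 2 * L ^ (2 * C0) ≤ Q ^ 3)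
    (hcard : n * P / L ^ C0 / 2 ≤ (R1.card : ℝ)) :
    (n : ℝ) * P ^ 2 / (24 * C ^ 2 * L ^ (2 * C0)) ≤ (((QS C P U).filter (fun q =>
      nz (q.1.2 * α q.1.1 - q.2.2 * α q.2.1) ≤ 2 * η * P ∧ |T (s q.1.1) - T (s q.2.1)| ≤ Q ^ 12 * η * n)).card : ℝ) := by
  have hn0 : (0 : ℝ) < n := by exact_mod_cast hn
  have hP0 : (0 : ℝ) < P := by exact_mod_cast hP
  have hL0 : (0 : ℝ) < L := by linarith
  have hLc : (0 : ℝ) < L ^ C0 := pow_pos hL0 _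
  have hp := pairs C hC n P η U G0 α β R1 hR hn hP
  have hf := far C hC n P Q η α r U s d b T hc hP hQ hQn hη hηQ
  set A := (QS C P U).filter (fun q => nz (q.1.2 * α q.1.1 - q.2.2 * α q.2.1) ≤ 2 * η * P) with hA
  have hsplit : (A.card : ℝ) = (((QS C P U).filter (fun q =>
      nz (q.1.2 * α q.1.1 - q.2.2 * α q.2.1) ≤ 2 * η * P ∧ |T (s q.1.1) - T (s q.2.1)| ≤ Q ^ 12 * η * n)).card : ℝ) +
      (((QS C P U).filter (fun q => nz (q.1.2 * α q.1.1 - q.2.2 * α q.2.1) ≤ 2 * η * P ∧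
      Q ^ 12 * η * n < |T (s q.1.1) - T (s q.2.1)|)).card : ℝ) := by
    have h1 := Finset.card_filter_add_card_filter_not (s := A)
      (fun q : (ℕ × ℕ) × (ℕ × ℕ) => |T (s q.1.1) - T (s q.2.1)| ≤ Q ^ 12 * η * n)
    rw [hA, Finset.filter_filter, Finset.filter_filter] at h1
    simp only [not_le] at h1
    rw [hA, ← h1]
    push_cast
    rfl
  have hA1 : (n : ℝ) * P ^ 2 / (12 * C ^ 2 * L ^ (2 * C0)) ≤ A.card := by
    have h1 : ((n : ℝ) * P / L ^ C0 / 2) ^ 2 ≤ (R1.card : ℝ) ^ 2 :=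
      pow_le_pow_left₀ (by positivity) hcard 2
    have h2 : C * n * (2 * C + 1) * (A.card : ℝ) ≤ C * n * (3 * C) * A.card := by
      apply mul_le_mul_of_nonneg_right _ (Nat.cast_nonneg _)
      apply mul_le_mul_of_nonneg_left _ (by positivity)
      linarith
    have h3 := (h1.trans hp).trans h2
    have h4 : ((n : ℝ) * P / L ^ C0 / 2) ^ 2 = (3 * C ^ 2 * n) * (n * P ^ 2 / (12 * C ^ 2 * L ^ (2 * C0))) := by
      have h5 : L ^ (2 * C0) = (L ^ C0) ^ 2 := by rw [← pow_mul, mul_comm]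
      rw [h5]
      have hC0 : C ≠ 0 := by positivity
      field_simp
      ring
    have h6 : C * n * (3 * C) * (A.card : ℝ) = (3 * C ^ 2 * n) * A.card := by ring
    rw [h4, h6] at h3
    exact le_of_mul_le_mul_left h3 (by positivity)
  have hF : (n : ℝ) * P ^ 2 / Q ^ 3 ≤ n * P ^ 2 / (24 * C ^ 2 * L ^ (2 * C0)) := by
    apply div_le_div_of_nonneg_left (by positivity) (by positivity) hQL
  have hhalf : (n : ℝ) * P ^ 2 / (12 * C ^ 2 * L ^ (2 * C0)) =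
      n * P ^ 2 / (24 * C ^ 2 * L ^ (2 * C0)) + n * P ^ 2 / (24 * C ^ 2 * L ^ (2 * C0)) := by
    have hC0 : C ≠ 0 := by positivity
    field_simp
    norm_num
  have hf2 := hf.trans hF
  rw [hsplit, hhalf] at hA1
  linarith

theorem comb_x (t0 t t2 : ℝ) (h0 : 0 < t0) (h0t : t0 < t) (h2 : 0 < t2) (h2t : t2 < t) (ht : t < 1) (hV : VKe t0)
    (hW : CombWk t t2) : CombX t t2 := by
  intro C hC C0
  obtain ⟨Na, hNa⟩ := cover t t2 hW C hC C0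
  obtain ⟨T1, Nb, hNb⟩ := boostl t0 t t2 h0 h0t h2 h2t ht hV C hC (2 * C0 + 1)
  obtain ⟨Nc, hNc⟩ := BoostF_large t t2 h2 h2t ht C hC C0
  refine ⟨2 * C0 + T1 + 2, max Na (max Nb Nc), fun N hN n P η F0 G0 α β R0 hP hPN hnN hn hη hηQ hR hcard => ?_⟩
  classical
  obtain ⟨l1, l2, l3, l4, l5, l6⟩ := hNc N ((le_max_right _ _).trans ((le_max_right _ _).trans hN))
  have hNb' := hNb N ((le_max_left _ _).trans ((le_max_right _ _).trans hN))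
  have hNa' := hNa N ((le_max_left _ _).trans hN)
  clear hNa hNb hNc
  obtain ⟨L, hL⟩ : ∃ L, L = Real.log (N : ℝ) := ⟨_, rfl⟩
  obtain ⟨Q, hQd⟩ : ∃ Q, Q = Real.exp (L ^ t2) := ⟨_, rfl⟩
  rw [← hL] at l1 l2 l3 l4 l5 hP hηQ hcard hNa' hNb' ⊢
  rw [← hQd] at l2 l3 l4 l5 hηQ hNa' hNb' ⊢
  have hC3 : (1 : ℝ) ≤ C ^ 3 := one_le_pow₀ hC
  have hCC3 : C ≤ C ^ 3 := le_self_pow₀ hC (by norm_num)
  have hC10 : (1 : ℝ) ≤ C ^ 10 := one_le_pow₀ hC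
  have hCC10 : C ≤ C ^ 10 := le_self_pow₀ hC (by norm_num)
  have hL1 : (1 : ℝ) ≤ L := by linarith
  have hL0 : (0 : ℝ) < L := by linarith
  have hQ1 : (1 : ℝ) ≤ Q := by linarith
  have hQ0 : (0 : ℝ) < Q := by linarith
  have hC0' : (0 : ℝ) < C := by linarith
  have hNn1 : (1 : ℝ) ≤ (N : ℝ) ^ (1 / 4 : ℝ) := by
    have : (1 : ℝ) ≤ Q ^ 6 := one_le_pow₀ hQ1
    linarith
  have hn1 : 1 ≤ n := by
    have : (1 : ℝ) ≤ n := hNn1.trans hn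
    exact_mod_cast this
  have hn0 : (0 : ℝ) < n := by exact_mod_cast hn1
  have hQP : Q ≤ P := l5.trans hP
  have hP1 : 1 ≤ P := by
    have : (1 : ℝ) ≤ P := hQ1.trans hQP
    exact_mod_cast this
  have hP0 : (0 : ℝ) < P := by exact_mod_cast hP1
  have hQn : 8 * Q ^ 6 ≤ n := l4.trans hn
  have hηQ1 : η * Q * (P : ℝ) ^ 3 ≤ 1 := by
    refine le_trans ?_ hηQ
    apply mul_le_mul_of_nonneg_right _ (by positivity)
    exact mul_le_mul_of_nonneg_left (le_self_pow₀ hQ1 (by norm_num)) hη.le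
  -- (1)
  obtain ⟨r, U, s, d, b, T, hUF, hcov, hR1c⟩ := hNa' n P η F0 G0 α β R0 hP hPN hn1 hnN hη hηQ1 hR hcard
  have hRel1 : Rel C n P (η * P) U G0 α β (R0.filter (fun x => x.1 ∈ U)) :=
    { memF := fun x hx => (Finset.mem_filter.1 hx).2
      memF' := fun x hx => hR.memF' x (Finset.mem_filter.1 hx).1
      prime := fun x hx => hR.prime x (Finset.mem_filter.1 hx).1
      pos := fun x hx => hR.pos x (Finset.mem_filter.1 hx).1
      freq := fun x hx => hR.freq x (Finset.mem_filter.1 hx).1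
      rngF := fun K hK => hR.rngF K (hUF hK)
      rngF' := hR.rngF' }
  have hcard1 : (n : ℝ) * P / L ^ C0 / 2 ≤ ((R0.filter (fun x => x.1 ∈ U)).card : ℝ) := by
    refine le_trans ?_ hR1c
    linarith
  -- (2), (3)
  have hnear := BoostF_near C hC n P Q η L C0 α β r U G0 _ s d b T hcov hRel1 hn1 hP1 l2 hQn hη hηQ hL1 l3 hcard1
  -- (4)
  have hZ : 0 < Q ^ 12 * η * n := by positivity
  obtain ⟨Z, hZd⟩ : ∃ Z, Z = Q ^ 12 * η * n := ⟨_, rfl⟩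
  rw [← hZd] at hnear hZ
  obtain ⟨K, hK1, hK2, hK3⟩ := split Z hZ U (fun i => d (s i)) (fun i => T (s i))
  let Uk : ℤ × ℕ → Finset ℕ := fun k =>
    U.filter (fun i => d (s i) = k.2 ∧ k.1 * Z ≤ T (s i) ∧ T (s i) < (k.1 + 2) * Z)
  have hUk : ∀ k i, i ∈ Uk k ↔ i ∈ U ∧ d (s i) = k.2 ∧ k.1 * Z ≤ T (s i) ∧ T (s i) < (k.1 + 2) * Z := by
    intro k i
    exact Finset.mem_filter
  have hsub : (QS C P U).filter (fun q =>
      nz (q.1.2 * α q.1.1 - q.2.2 * α q.2.1) ≤ 2 * η * P ∧ |T (s q.1.1) - T (s q.2.1)| ≤ Z) ⊆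
      K.biUnion (fun k => NB C P (Uk k) k.2 (fun i => b (s i))) := by
    intro q hq
    rw [Finset.mem_filter] at hq
    obtain ⟨hq1, hq2, hq3⟩ := hq
    have hnr := near C hC n P Q η α r U s d b T hcov hn1 hP1 l2 hQP hη.le hηQ q hq1 hq2 (hZd ▸ hq3)
    rw [mem_QS] at hq1
    obtain ⟨m1, m2, m3, m4, m5, m6, m7, m8, m9⟩ := hq1
    obtain ⟨k, hk, k1, k2, k3, k4, k5⟩ := hK3 _ m1 _ m5 hnr.1 hq3
    rw [Finset.mem_biUnion]
    refine ⟨k, hk, ?_⟩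
    rw [mem_NB, mem_QS, hUk, hUk]
    refine ⟨⟨⟨m1, k1, k2, k3⟩, m2, m3, m4, ⟨m5, ?_, k4, k5⟩, m6, m7, m8, m9⟩, ?_⟩
    · rw [← hnr.1]
      exact k1
    · have := hnr.2
      rw [k1] at this
      exact this
  have hcardsum : (n : ℝ) * P ^ 2 / (24 * C ^ 2 * L ^ (2 * C0)) ≤
      ∑ k ∈ K, ((NB C P (Uk k) k.2 (fun i => b (s i))).card : ℝ) := by
    refine hnear.trans ?_
    have h1 := (Finset.card_le_card hsub).trans Finset.card_biUnion_le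
    exact_mod_cast h1
  -- (5)
  have hδ1 : ∀ k ∈ K, 1 ≤ k.2 ∧ (k.2 : ℝ) ≤ Q := by
    intro k hk
    obtain ⟨i, hi, hi2⟩ := hK1 k hk
    have h1 := hcov.dat (s i) (hcov.lab i hi)
    rw [← hi2]
    exact ⟨h1.1, h1.2.1⟩
  have hboost : ∀ k ∈ K, ((NB C P (Uk k) k.2 (fun i => b (s i))).card : ℝ) ≤
      P ^ 2 * (L ^ T1 * (Uk k).card ^ 2 / (n * k.2) + (Uk k).card / L ^ (2 * C0 + 1)) := by
    intro k hk
    refine hNb' n P k.2 (Uk k) (fun i => b (s i)) hP hPN hn hnN (hδ1 k hk).1 (hδ1 k hk).2 fun i hi => ?_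
    rw [hUk] at hi
    have h1 := hcov.dat (s i) (hcov.lab i hi.1)
    refine ⟨(hcov.rng i hi.1).1, (hcov.rng i hi.1).2, ?_⟩
    rw [← hi.2.1]
    exact h1.2.2.1
  have hsel : (n : ℝ) / (24 * C ^ 2 * L ^ (2 * C0)) ≤
      ∑ k ∈ K, (L ^ T1 * ((Uk k).card : ℝ) ^ 2 / (n * k.2) + (Uk k).card / L ^ (2 * C0 + 1)) := by
    have h1 := hcardsum.trans (sum_le_sum hboost)
    rw [← mul_sum] at h1
    have h2 : (n : ℝ) * P ^ 2 / (24 * C ^ 2 * L ^ (2 * C0)) = P ^ 2 * (n / (24 * C ^ 2 * L ^ (2 * C0))) := by ring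
    rw [h2] at h1
    exact le_of_mul_le_mul_left h1 (by positivity)
  have hUcard : (U.card : ℝ) ≤ C * n := by
    have h1 : U ⊆ Finset.Icc 1 ⌊C * n⌋₊ := by
      intro i hi
      have h2 := hcov.rng i hi
      rw [Finset.mem_Icc]
      constructor
      · have : (0 : ℝ) < i := lt_of_lt_of_le (by positivity) h2.1
        exact_mod_cast this
      · exact Nat.le_floor h2.2
    have h3 := Finset.card_le_card h1
    rw [Nat.card_Icc, Nat.add_sub_cancel] at h3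
    have h4 : (U.card : ℝ) ≤ ⌊C * n⌋₊ := by exact_mod_cast h3
    exact h4.trans (Nat.floor_le (by positivity))
  obtain ⟨k, hkK, hk⟩ := BoostF_sel K (fun k => ((Uk k).card : ℝ)) (fun k => (k.2 : ℝ)) C n L C0 T1 hC hn0 l1
    (fun k _ => Nat.cast_nonneg _) (fun k hk => by
      have := (hδ1 k hk).1
      exact_mod_cast this) (by
      refine hK2.trans ?_
      linarith) hsel
  -- (6)
  have hδk := hδ1 k hkK
  have hδ0 : (0 : ℝ) < k.2 := by exact_mod_cast hδk.1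
  have hUkU : Uk k ⊆ U := Finset.filter_subset _ _
  have hUkc : ((Uk k).card : ℝ) ≤ C * n := by
    have : ((Uk k).card : ℝ) ≤ U.card := by exact_mod_cast Finset.card_le_card hUkU
    exact this.trans hUcard
  have hCL : C ≤ L := by linarith
  have hLe : (0 : ℝ) < L ^ (2 * C0 + T1 + 1) := pow_pos hL0 _
  have hLe1 : L ^ (2 * C0 + T1 + 1) ≤ L ^ (2 * C0 + T1 + 2) := pow_le_pow_right₀ hL1 (by omega)
  have hδL : (k.2 : ℝ) ≤ L ^ (2 * C0 + T1 + 2) := by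
    have h1 : (n : ℝ) * k.2 ≤ n * (C * L ^ (2 * C0 + T1 + 1)) := by
      refine hk.trans ?_
      calc ((Uk k).card : ℝ) * L ^ (2 * C0 + T1 + 1) ≤ C * n * L ^ (2 * C0 + T1 + 1) :=
            mul_le_mul_of_nonneg_right hUkc hLe.le
        _ = n * (C * L ^ (2 * C0 + T1 + 1)) := by ring
    have h2 := le_of_mul_le_mul_left h1 hn0
    refine h2.trans ?_
    calc C * L ^ (2 * C0 + T1 + 1) ≤ L * L ^ (2 * C0 + T1 + 1) := mul_le_mul_of_nonneg_right hCL hLe.le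
      _ = L ^ (2 * C0 + T1 + 2) := by ring
  obtain ⟨c, hc1, hc2⟩ := Finset.exists_le_card_fiber_of_nsmul_le_card_of_maps_to
    (s := Uk k) (t := range k.2) (f := fun i => b (s i) % k.2) (b := (n : ℝ) / L ^ (2 * C0 + T1 + 1))
    (fun i _ => Finset.mem_range.2 (Nat.mod_lt _ hδk.1)) ⟨0, Finset.mem_range.2 hδk.1⟩ (by
      rw [Finset.card_range, nsmul_eq_mul, mul_div_assoc', div_le_iff₀ hLe]
      calc (k.2 : ℝ) * n = n * k.2 := by ring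
        _ ≤ (Uk k).card * L ^ (2 * C0 + T1 + 1) := hk)
  have hF1m : ∀ i ∈ (Uk k).filter (fun i => b (s i) % k.2 = c),
      i ∈ U ∧ d (s i) = k.2 ∧ |T (s i) - k.1 * Z| ≤ 2 * Z ∧ b (s i) % k.2 = c := by
    intro i hi
    rw [Finset.mem_filter, hUk] at hi
    obtain ⟨⟨i1, i2, i3, i4⟩, i5⟩ := hi
    refine ⟨i1, i2, ?_, i5⟩
    rw [abs_le]
    constructor
    · linarith
    · linarith
  refine ⟨k.2, c, k.1 * Z, (Uk k).filter (fun i => b (s i) % k.2 = c), hδk.1, hδL, ?_, ?_, ?_, ?_⟩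
  · -- the bound of `T`
    have hne : ((Uk k).filter (fun i => b (s i) % k.2 = c)).Nonempty := by
      rw [← Finset.card_pos]
      have : (0 : ℝ) < (((Uk k).filter (fun i => b (s i) % k.2 = c)).card : ℝ) := lt_of_lt_of_le (by positivity) hc2
      exact_mod_cast this
    obtain ⟨i, hi⟩ := hne
    obtain ⟨i1, i2, i3, i4⟩ := hF1m i hi
    have h1 := (hcov.dat (s i) (hcov.lab i i1)).2.2.2
    have h2 : |(k.1 : ℝ) * Z| ≤ |T (s i)| + |T (s i) - k.1 * Z| := by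
      have h3 : (k.1 : ℝ) * Z = T (s i) - (T (s i) - k.1 * Z) := by ring
      calc |(k.1 : ℝ) * Z| = |T (s i) - (T (s i) - k.1 * Z)| := by rw [← h3]
        _ ≤ |T (s i)| + |T (s i) - k.1 * Z| := abs_sub _ _
    have hn2 : (n : ℝ) ≤ (n : ℝ) ^ 2 := le_self_pow₀ (by exact_mod_cast hn1) (by norm_num)
    have h4 : 2 * Z ≤ 2 * Q ^ 12 * η * (n : ℝ) ^ 2 := by
      rw [hZd]
      calc 2 * (Q ^ 12 * η * n) = 2 * Q ^ 12 * η * n := by ring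
        _ ≤ 2 * Q ^ 12 * η * (n : ℝ) ^ 2 := mul_le_mul_of_nonneg_left hn2 (by positivity)
    have h5 : Q + 2 * Q ^ 12 ≤ Q ^ 20 := by
      have h6 : Q ≤ Q ^ 12 := le_self_pow₀ hQ1 (by norm_num)
      have h7 : Q ^ 12 * 3 ≤ Q ^ 12 * Q ^ 8 := by
        apply mul_le_mul_of_nonneg_left _ (by positivity)
        have : Q ≤ Q ^ 8 := le_self_pow₀ hQ1 (by norm_num)
        linarith
      calc Q + 2 * Q ^ 12 ≤ Q ^ 12 * 3 := by linarith
        _ ≤ Q ^ 12 * Q ^ 8 := h7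
        _ = Q ^ 20 := by ring
    calc |(k.1 : ℝ) * Z| ≤ Q * η * (n : ℝ) ^ 2 + 2 * Q ^ 12 * η * (n : ℝ) ^ 2 := by linarith
      _ = (Q + 2 * Q ^ 12) * (η * (n : ℝ) ^ 2) := by ring
      _ ≤ Q ^ 20 * (η * (n : ℝ) ^ 2) := mul_le_mul_of_nonneg_right h5 (by positivity)
      _ = Q ^ 20 * η * (n : ℝ) ^ 2 := by ring
  · exact (Finset.filter_subset _ _).trans (hUkU.trans hUF)
  · refine le_trans ?_ hc2
    exact div_le_div_of_nonneg_left hn0.le hLe hLe1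
  · intro i hi
    obtain ⟨i1, i2, i3, i4⟩ := hF1m i hi
    have hfr := hcov.frq i i1
    rw [i2] at hfr
    have hir := (hcov.rng i i1).1
    have hi0 : (0 : ℝ) < i := lt_of_lt_of_le (by positivity) hir
    obtain ⟨m, hdm⟩ : ∃ m : ℕ, (b (s i) : ℝ) = k.2 * (m : ℝ) + c := by
      have := Nat.div_add_mod (b (s i)) k.2
      rw [i4] at this
      exact ⟨b (s i) / k.2, by exact_mod_cast this.symm⟩
    have h1 : α i - (c : ℝ) / k.2 - k.1 * Z / i = (α i - b (s i) / k.2 - T (s i) / i + (T (s i) - k.1 * Z) / i) +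
        ((m : ℤ) : ℝ) := by
      have h2 : (b (s i) : ℝ) / k.2 = (m : ℝ) + c / k.2 := by
        rw [hdm]
        field_simp
      rw [h2, sub_div]
      push_cast
      ring
    rw [h1, Pool.Agent.H53.MID.nz_add_int]
    refine (Pool.Agent.H53.MID.nz_add _ _).trans ?_
    have h3 : nz ((T (s i) - k.1 * Z) / i) ≤ 2 * C * Q ^ 12 * η := by
      refine (Pool.Agent.H53.MID.nz_le_abs _).trans ?_
      rw [abs_div, abs_of_pos hi0, div_le_iff₀ hi0]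
      refine i3.trans ?_
      rw [hZd]
      rw [div_le_iff₀ hC0'] at hir
      calc 2 * (Q ^ 12 * η * n) = 2 * Q ^ 12 * η * n := by ring
        _ ≤ 2 * Q ^ 12 * η * (i * C) := mul_le_mul_of_nonneg_left hir (by positivity)
        _ = 2 * C * Q ^ 12 * η * i := by ring
    have h4 : Q + 2 * C * Q ^ 12 ≤ Q ^ 13 := by
      have h6 : Q ≤ Q ^ 12 := le_self_pow₀ hQ1 (by norm_num)
      calc Q + 2 * C * Q ^ 12 ≤ Q ^ 12 + 2 * C * Q ^ 12 := by linarith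
        _ = Q ^ 12 * (1 + 2 * C) := by ring
        _ ≤ Q ^ 12 * Q := mul_le_mul_of_nonneg_left (by linarith) (by positivity)
        _ = Q ^ 13 := by ring
    calc nz (α i - b (s i) / k.2 - T (s i) / i) + nz ((T (s i) - k.1 * Z) / i)
        ≤ Q * η + 2 * C * Q ^ 12 * η := add_le_add hfr h3
      _ = (Q + 2 * C * Q ^ 12) * η := by ring
      _ ≤ Q ^ 13 * η := mul_le_mul_of_nonneg_right h4 hη.le

end Pool.Agent.H53.MDB

end

section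

/-!
# MDB Final: `CombX t t2` from exponential sums over integers (`VKe t0`)
-/

set_option autoImplicit false

namespace Pool.Agent.H53.MDB

open Pool.Agent.H53.MIX (VKe CombX)

theorem combwk (t t2 : ℝ) (ht : t < 1) (h2 : 2 * (1 - t) < t2) (h2t : t2 < t) : CombWk t t2 := by
  intro C hC C0
  obtain ⟨N0, hN0⟩ := Pool.Agent.H74.MDX.comb_weak t t2 ht h2 h2t C hC C0
  refine ⟨N0, fun N hN n P η F0 G0 α β R0 h1 h3 h4 h5 h6 h7 h8 h9 => ?_⟩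
  exact hN0 N hN n P η F0 G0 α β R0 h1 h3 h4 h5 h6 (by rw [mul_comm (Real.exp _) η]; exact h7) h8 h9

theorem comb_x_all (t0 t t2 : ℝ) (h0 : 0 < t0) (h0t : t0 < t) (h2 : 2 * (1 - t) < t2) (h2t : t2 < t) (ht : t < 1)
    (hV : VKe t0) : CombX t t2 :=
  comb_x t0 t t2 h0 h0t (by linarith) h2t ht hV (combwk t t2 ht h2 h2t)

end Pool.Agent.H53.MDB

end
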