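import Pool.Agent.H43.PL.M06
import Pool.Agent.H43.PL.M07

/-! The parts of this file: H97.VK.BrunC, H76.VKT.BrunT, H35.W.KS1, H76.VKT.PSum. -/

section

/-!
# VK BrunC: the pure sieve of Brun, combinatorial part

`brun_ineq`: `g = gcd(n, y#)` is squarefree with `w` prime factors; the sum over `m ∣ g` with less than `r` prime factors of `μ(m)` is
`∑_{i<r} (-1)^i C(w,i)`, which is `1` for `w = 0` and `(-1)^{r-1} C(w-1,r-1)` for `w ≥ 1`, of absolute value `≤ C(w,r)` = the number of `m ∣ g` with `r` prime factors.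
(`m ∣ y#` and `m ∣ n` iff `m ∣ g`; divisors of a squarefree number correspond to subsets of `primeFactors`: `Nat.sum_divisors_filter_squarefree`, `Finset.powerset`,
`Nat.divisors_prod...`, `Nat.primeFactors_prod`; the partial alternating sum: `Int.alternating_sum_range_choose_eq_choose` or induction on `r`.)
`brun_tail`: `∑_{ω(m)=r} 1/m ≤ (∑_{p≤y} 1/p)^r / r!` (`Finset.sum_powersetCard...`, `Finset.esymm`-type inequality, e.g. induction on `r`, or count ordered
tuples), `r! ≥ (r/e)^r`, `∑_{p≤y} 1/p ≤ log log y + C` (`Pool.Agent.H91.PK.MR_sum_inv` for `y ≥ 65536`, see `rough_upper` in `H35/W/Rough.lean`).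
`brun_sum`: `∑_{m ∣ y#} 1/m = ∏_{p ≤ y} (1 + 1/p) ≤ exp(∑ 1/p) ≤ C log y`.
-/

set_option autoImplicit false

namespace Pool.Agent.H97.VK

open Finset

/-- the divisors of `y#` with exactly `r` prime factors -/
noncomputable def bd (y r : ℕ) : Finset ℕ := (primorial y).divisors.filter (fun m => m.primeFactors.card = r)

/-- the divisors of `y#` with less than `r` prime factors -/
noncomputable def bdl (y r : ℕ) : Finset ℕ := (primorial y).divisors.filter (fun m => m.primeFactors.card < r)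

private theorem BrunC_dvd_iff (N : ℕ) (hN : Squarefree N) (P : ℕ → Prop) [DecidablePred P]
    {M : Type*} [AddCommMonoid M] (F : ℕ → M) :
    ∑ m ∈ N.divisors.filter (fun m => P m.primeFactors.card), F m =
      ∑ T ∈ N.primeFactors.powerset.filter (fun T => P T.card), F (∏ p ∈ T, p) := by
  have hN0 : N ≠ 0 := hN.ne_zero
  have hpr : ∀ T : Finset ℕ, T ⊆ N.primeFactors → ∀ p ∈ T, p.Prime := fun T hT p hp =>
    Nat.prime_of_mem_primeFactors (hT hp)
  refine Finset.sum_nbij' (fun m => m.primeFactors) (fun T => ∏ p ∈ T, p) ?_ ?_ ?_ ?_ ?_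
  · intro m hm
    rw [mem_filter, Nat.mem_divisors] at hm
    rw [mem_filter, mem_powerset]
    exact ⟨Nat.primeFactors_mono hm.1.1 hN0, hm.2⟩
  · intro T hT
    rw [mem_filter, mem_powerset] at hT
    rw [mem_filter, Nat.mem_divisors, Nat.primeFactors_prod (hpr T hT.1)]
    refine ⟨⟨?_, hN0⟩, hT.2⟩
    have h := Finset.prod_dvd_prod_of_subset T N.primeFactors (fun p => p) hT.1
    rwa [Nat.prod_primeFactors_of_squarefree hN] at h
  · intro m hm
    rw [mem_filter, Nat.mem_divisors] at hm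
    exact Nat.prod_primeFactors_of_squarefree (hN.squarefree_of_dvd hm.1.1)
  · intro T hT
    rw [mem_filter, mem_powerset] at hT
    exact Nat.primeFactors_prod (hpr T hT.1)
  · intro m hm
    rw [mem_filter, Nat.mem_divisors] at hm
    rw [Nat.prod_primeFactors_of_squarefree (hN.squarefree_of_dvd hm.1.1)]

private theorem BrunC_mu (T : Finset ℕ) (hT : ∀ p ∈ T, p.Prime) :
    (ArithmeticFunction.moebius (∏ p ∈ T, p) : ℝ) = (-1) ^ T.card := by
  rw [ArithmeticFunction.isMultiplicative_moebius.map_prod_of_prime T hT]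
  rw [Finset.prod_congr rfl (fun p hp => ArithmeticFunction.moebius_apply_prime (hT p hp)),
    Finset.prod_const]
  push_cast
  rfl

private theorem BrunC_alt (A : Finset ℕ) (r : ℕ) :
    ∑ T ∈ A.powerset.filter (fun T => T.card < r), (-1 : ℝ) ^ T.card =
      ∑ i ∈ range r, (-1 : ℝ) ^ i * (A.card.choose i : ℝ) := by
  have h1 : ∑ T ∈ A.powerset.filter (fun T => T.card < r), (-1 : ℝ) ^ T.card =
      ∑ T ∈ A.powerset, (fun j : ℕ => if j < r then (-1 : ℝ) ^ j else 0) T.card := by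
    rw [sum_filter]
  rw [h1, sum_powerset_apply_card (fun j : ℕ => if j < r then (-1 : ℝ) ^ j else 0)]
  have h2 : ∑ j ∈ range (A.card + 1), A.card.choose j • (if j < r then (-1 : ℝ) ^ j else 0) =
      ∑ j ∈ range (max (A.card + 1) r), A.card.choose j • (if j < r then (-1 : ℝ) ^ j else 0) := by
    apply sum_subset
    · intro j hj
      rw [mem_range] at hj ⊢
      exact lt_of_lt_of_le hj (le_max_left _ _)
    · intro j _ hj
      rw [mem_range, not_lt] at hj
      rw [Nat.choose_eq_zero_of_lt (by omega), zero_nsmul]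
  have h4 : ∑ j ∈ range r, (-1 : ℝ) ^ j * (A.card.choose j : ℝ) =
      ∑ j ∈ range r, A.card.choose j • (if j < r then (-1 : ℝ) ^ j else 0) := by
    refine sum_congr rfl fun j hj => ?_
    rw [mem_range] at hj
    rw [if_pos hj, nsmul_eq_mul, mul_comm]
  rw [h2, h4]
  symm
  apply sum_subset
  · intro j hj
    rw [mem_range] at hj ⊢
    exact lt_of_lt_of_le hj (le_max_right _ _)
  · intro j _ hj
    rw [mem_range, not_lt] at hj
    rw [if_neg (by omega), smul_zero]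

private theorem BrunC_abs (w r : ℕ) (hr : 1 ≤ r) :
    |(if w = 0 then (1 : ℝ) else 0) - ∑ i ∈ range r, (-1 : ℝ) ^ i * (w.choose i : ℝ)| ≤
      (w.choose r : ℝ) := by
  obtain ⟨m, rfl⟩ : ∃ m, r = m + 1 := ⟨r - 1, by omega⟩
  rcases Nat.eq_zero_or_pos w with h | h
  · subst h
    rw [if_pos rfl, Finset.sum_range_succ']
    have : ∀ i ∈ range m, (-1 : ℝ) ^ (i + 1) * ((Nat.choose 0 (i + 1) : ℕ) : ℝ) = 0 := by
      intro i _
      rw [Nat.choose_zero_succ]
      simp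
    rw [Finset.sum_eq_zero this]
    simp
  · obtain ⟨n, rfl⟩ : ∃ n, w = n + 1 := ⟨w - 1, by omega⟩
    rw [if_neg (by omega)]
    have h5 := Int.alternating_sum_range_choose_eq_choose (n := n) (m := m)
    have h6 := congrArg (fun z : ℤ => (z : ℝ)) h5
    push_cast at h6
    rw [h6, zero_sub, abs_neg, abs_mul, abs_pow, abs_neg, abs_one, one_pow, one_mul,
      Nat.abs_cast]
    have h7 : n.choose m ≤ (n + 1).choose (m + 1) := by
      rw [Nat.choose_succ_succ]
      omega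
    exact_mod_cast h7

private theorem BrunC_gcd (N n : ℕ) (hN : N ≠ 0) (P : ℕ → Prop) [DecidablePred P] :
    (N.divisors.filter (fun m => P m.primeFactors.card)).filter (fun m => m ∣ n) =
      (Nat.gcd n N).divisors.filter (fun m => P m.primeFactors.card) := by
  ext m
  rw [mem_filter, mem_filter, mem_filter, Nat.mem_divisors, Nat.mem_divisors, Nat.dvd_gcd_iff]
  constructor
  · rintro ⟨⟨⟨h1, _⟩, h2⟩, h3⟩
    exact ⟨⟨⟨h3, h1⟩, Nat.gcd_ne_zero_right hN⟩, h2⟩
  · rintro ⟨⟨⟨h3, h1⟩, _⟩, h2⟩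
    exact ⟨⟨⟨h1, hN⟩, h2⟩, h3⟩

theorem brun_ineq (y r n : ℕ) (hr : 1 ≤ r) (hn : 1 ≤ n) :
    |(if n.Coprime (primorial y) then (1 : ℝ) else 0) -
        ∑ m ∈ (bdl y r).filter (fun m => m ∣ n), (ArithmeticFunction.moebius m : ℝ)| ≤
      (((bd y r).filter (fun m => m ∣ n)).card : ℝ) := by
  have hN0 : primorial y ≠ 0 := primorial_ne_zero y
  have hsq : Squarefree (Nat.gcd n (primorial y)) :=
    (squarefree_primorial y).squarefree_of_dvd (Nat.gcd_dvd_right _ _)
  obtain ⟨g, hg⟩ : ∃ g, g = Nat.gcd n (primorial y) := ⟨_, rfl⟩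
  have e1 : ∑ m ∈ (bdl y r).filter (fun m => m ∣ n), (ArithmeticFunction.moebius m : ℝ) =
      ∑ i ∈ range r, (-1 : ℝ) ^ i * (g.primeFactors.card.choose i : ℝ) := by
    unfold bdl
    rw [BrunC_gcd (primorial y) n hN0 (fun j => j < r), ← hg]
    rw [← hg] at hsq
    rw [BrunC_dvd_iff g hsq (fun j => j < r), ← BrunC_alt]
    refine Finset.sum_congr rfl fun T hT => ?_
    rw [mem_filter, mem_powerset] at hT
    exact BrunC_mu T fun p hp => Nat.prime_of_mem_primeFactors (hT.1 hp)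
  have e2 : (((bd y r).filter (fun m => m ∣ n)).card : ℝ) = (g.primeFactors.card.choose r : ℝ) := by
    unfold bd
    rw [BrunC_gcd (primorial y) n hN0 (fun j => j = r), ← hg]
    rw [← hg] at hsq
    rw [Finset.card_eq_sum_ones, BrunC_dvd_iff g hsq (fun j => j = r), ← Finset.card_eq_sum_ones,
      ← Finset.card_powersetCard r g.primeFactors, Finset.powersetCard_eq_filter]
  have e3 : (if n.Coprime (primorial y) then (1 : ℝ) else 0) =
      if g.primeFactors.card = 0 then 1 else 0 := by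
    have h : n.Coprime (primorial y) ↔ g.primeFactors.card = 0 := by
      rw [Finset.card_eq_zero, Nat.primeFactors_eq_empty, hg]
      constructor
      · exact fun h => Or.inr h
      · rintro (h | h)
        · exact absurd h (Nat.gcd_ne_zero_right hN0)
        · exact h
    simp only [h]
  rw [e1, e2, e3]
  exact BrunC_abs _ r hr

private theorem BrunC_upper : ∃ C : ℝ, 0 < C ∧ ∀ y : ℕ, 2 ≤ y →
    ∑ p ∈ (Icc 1 y).filter Nat.Prime, (1 : ℝ) / p ≤ Real.log (Real.log y) + C :=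
  Pool.Agent.H43.MP.mrt_upper

private theorem BrunC_upper2 : ∃ C : ℝ, 0 < C ∧ ∀ y : ℕ, 2 ≤ y →
    ∑ p ∈ (primorial y).primeFactors, (1 : ℝ) / p ≤ Real.log (Real.log y) + C := by
  obtain ⟨C, hC, h⟩ := BrunC_upper
  refine ⟨C, hC, fun y hy => ?_⟩
  have e : (primorial y).primeFactors = (Icc 1 y).filter Nat.Prime := by
    rw [primeFactors_primorial]
    ext p
    rw [Nat.mem_primesLE, mem_filter, mem_Icc]
    constructor
    · rintro ⟨h1, h2⟩
      exact ⟨⟨h2.one_lt.le, h1⟩, h2⟩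
    · rintro ⟨⟨_, h1⟩, h2⟩
      exact ⟨h1, h2⟩
  rw [e]
  exact h y hy

private theorem BrunC_binom (A a : ℝ) (hA : 0 ≤ A) (ha : 0 ≤ a) (r : ℕ) :
    A ^ (r + 1) + (r + 1 : ℕ) * (a * A ^ r) ≤ (A + a) ^ (r + 1) := by
  induction r with
  | zero => simp
  | succ r ih =>
    have h1 : (A + a) ^ (r + 1 + 1) = (A + a) ^ (r + 1) * (A + a) := pow_succ _ _
    rw [h1]
    have h2 := mul_le_mul_of_nonneg_right ih (add_nonneg hA ha)
    refine le_trans ?_ h2
    have h3 : (A ^ (r + 1) + ((r + 1 : ℕ) : ℝ) * (a * A ^ r)) * (A + a) =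
        A ^ (r + 1 + 1) + ((r + 1 + 1 : ℕ) : ℝ) * (a * A ^ (r + 1)) +
          ((r + 1 : ℕ) : ℝ) * (a * a * A ^ r) := by
      push_cast
      ring
    rw [h3]
    have h4 : 0 ≤ ((r + 1 : ℕ) : ℝ) * (a * a * A ^ r) := by positivity
    linarith

private theorem BrunC_esymm (S : Finset ℕ) (a : ℕ → ℝ) (ha : ∀ p, 0 ≤ a p) (r : ℕ) :
    (r.factorial : ℝ) * ∑ T ∈ S.powersetCard r, ∏ p ∈ T, a p ≤ (∑ p ∈ S, a p) ^ r := by
  induction S using Finset.induction_on generalizing r with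
  | empty =>
    cases r with
    | zero => simp
    | succ r =>
      have h : (∅ : Finset ℕ).powersetCard (r + 1) = ∅ := by
        rw [Finset.powersetCard_eq_empty]
        simp
      rw [h]
      simp
  | insert q S hq ih =>
    cases r with
    | zero => simp
    | succ r =>
      rw [Finset.powersetCard_succ_insert hq, Finset.sum_union, Finset.sum_image,
        Finset.sum_insert hq]
      · have e : ∀ T ∈ S.powersetCard r, ∏ p ∈ insert q T, a p = a q * ∏ p ∈ T, a p := by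
          intro T hT
          rw [mem_powersetCard] at hT
          exact Finset.prod_insert fun h => hq (hT.1 h)
        rw [Finset.sum_congr rfl e, ← Finset.mul_sum]
        have h1 := ih (r + 1)
        have h2 := ih r
        have hA : 0 ≤ ∑ p ∈ S, a p := Finset.sum_nonneg fun p _ => ha p
        have h3 := BrunC_binom (∑ p ∈ S, a p) (a q) hA (ha q) r
        have h4 : ((r + 1).factorial : ℝ) = ((r + 1 : ℕ) : ℝ) * (r.factorial : ℝ) := by
          rw [Nat.factorial_succ]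
          push_cast
          ring
        have h5 := mul_le_mul_of_nonneg_left h2 (mul_nonneg (Nat.cast_nonneg (r + 1)) (ha q))
        rw [add_comm (a q)]
        refine le_trans ?_ h3
        rw [mul_add]
        refine add_le_add h1 ?_
        rw [h4]
        calc ((r + 1 : ℕ) : ℝ) * (r.factorial : ℝ) *
              (a q * ∑ T ∈ S.powersetCard r, ∏ p ∈ T, a p)
            = ((r + 1 : ℕ) : ℝ) * a q *
              ((r.factorial : ℝ) * ∑ T ∈ S.powersetCard r, ∏ p ∈ T, a p) := by ring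
          _ ≤ ((r + 1 : ℕ) : ℝ) * a q * (∑ p ∈ S, a p) ^ r := h5
          _ = ((r + 1 : ℕ) : ℝ) * (a q * (∑ p ∈ S, a p) ^ r) := by ring
      · intro T hT T' hT' h
        rw [mem_coe, mem_powersetCard] at hT hT'
        have h1 : q ∉ T := fun h => hq (hT.1 h)
        have h2 : q ∉ T' := fun h => hq (hT'.1 h)
        rw [← Finset.erase_insert h1, ← Finset.erase_insert h2]
        exact congrArg (fun U => U.erase q) h
      · rw [Finset.disjoint_left]
        intro T hT hT'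
        rw [mem_powersetCard] at hT
        rw [mem_image] at hT'
        obtain ⟨U, _, rfl⟩ := hT'
        exact hq (hT.1 (mem_insert_self q U))

private theorem BrunC_inv (T : Finset ℕ) :
    (1 : ℝ) / ((∏ p ∈ T, p : ℕ) : ℝ) = ∏ p ∈ T, (1 : ℝ) / p := by
  rw [Nat.cast_prod, Finset.prod_div_distrib, Finset.prod_const_one]

theorem brun_tail : ∃ C : ℝ, 1 ≤ C ∧ ∀ y r : ℕ, 3 ≤ y → 1 ≤ r →
    ∑ m ∈ bd y r, (1 : ℝ) / m ≤ (Real.exp 1 * (Real.log (Real.log y) + C) / r) ^ r := by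
  obtain ⟨C, hC, hup⟩ := BrunC_upper2
  refine ⟨max 1 C, le_max_left _ _, fun y r hy hr => ?_⟩
  have hr0 : (0 : ℝ) < r := by exact_mod_cast hr
  have e1 : ∑ m ∈ bd y r, (1 : ℝ) / m =
      ∑ T ∈ (primorial y).primeFactors.powersetCard r, ∏ p ∈ T, (1 : ℝ) / p := by
    unfold bd
    rw [BrunC_dvd_iff (primorial y) (squarefree_primorial y) (fun j => j = r),
      Finset.powersetCard_eq_filter]
    exact Finset.sum_congr rfl fun T _ => BrunC_inv T
  obtain ⟨A, hA⟩ : ∃ A, A = ∑ p ∈ (primorial y).primeFactors, (1 : ℝ) / p := ⟨_, rfl⟩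
  have hA0 : 0 ≤ A := by rw [hA]; exact Finset.sum_nonneg fun p _ => by positivity
  have h1 := BrunC_esymm (primorial y).primeFactors (fun p => (1 : ℝ) / p)
    (fun p => by positivity) r
  rw [← hA] at h1
  have h2 : A ≤ Real.log (Real.log y) + max 1 C := by
    rw [hA]
    exact (hup y (by omega)).trans (add_le_add le_rfl (le_max_right _ _))
  have h3 : (r : ℝ) ^ r / (r.factorial : ℝ) ≤ Real.exp r :=
    Real.pow_div_factorial_le_exp r hr0.le r
  have hf0 : (0 : ℝ) < (r.factorial : ℝ) := by exact_mod_cast Nat.factorial_pos r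
  have h4 : Real.exp (r : ℝ) = Real.exp 1 ^ r := by
    rw [← Real.exp_nat_mul, mul_one]
  rw [e1]
  have h5 : ∑ T ∈ (primorial y).primeFactors.powersetCard r, ∏ p ∈ T, (1 : ℝ) / p ≤
      A ^ r / (r.factorial : ℝ) := by
    rw [le_div_iff₀ hf0, mul_comm]
    exact h1
  refine h5.trans ?_
  have h6 : A ^ r / (r.factorial : ℝ) = (A / r) ^ r * ((r : ℝ) ^ r / (r.factorial : ℝ)) := by
    rw [div_pow]
    field_simp
  rw [h6]
  have h7 : (A / r) ^ r * ((r : ℝ) ^ r / (r.factorial : ℝ)) ≤ (A / r) ^ r * Real.exp 1 ^ r := by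
    rw [← h4]
    exact mul_le_mul_of_nonneg_left h3 (by positivity)
  refine h7.trans ?_
  rw [← mul_pow]
  refine pow_le_pow_left₀ (by positivity) ?_ r
  rw [mul_comm, mul_div_assoc']
  exact div_le_div_of_nonneg_right (mul_le_mul_of_nonneg_left h2 (Real.exp_pos 1).le) hr0.le

theorem brun_sum : ∃ C : ℝ, 1 ≤ C ∧ ∀ y r : ℕ, 3 ≤ y → ∑ m ∈ bdl y r, (1 : ℝ) / m ≤ C * Real.log y := by
  obtain ⟨C, hC, hup⟩ := BrunC_upper2
  refine ⟨Real.exp C, Real.one_le_exp hC.le, fun y r hy => ?_⟩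
  have hy1 : (1 : ℝ) < y := by exact_mod_cast (by omega : 1 < y)
  have hly : 0 < Real.log y := Real.log_pos hy1
  have h1 : ∑ m ∈ bdl y r, (1 : ℝ) / m ≤
      ∑ T ∈ (primorial y).primeFactors.powerset, ∏ p ∈ T, (1 : ℝ) / p := by
    unfold bdl
    rw [BrunC_dvd_iff (primorial y) (squarefree_primorial y) (fun j => j < r)]
    refine (Finset.sum_le_sum_of_subset_of_nonneg (filter_subset _ _)
      fun T _ _ => by positivity).trans (le_of_eq ?_)
    exact Finset.sum_congr rfl fun T _ => BrunC_inv T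
  refine h1.trans ?_
  rw [← Finset.prod_one_add]
  have h2 : ∏ p ∈ (primorial y).primeFactors, (1 + (1 : ℝ) / p) ≤
      Real.exp (∑ p ∈ (primorial y).primeFactors, (1 : ℝ) / p) := by
    rw [Real.exp_sum]
    refine Finset.prod_le_prod (fun p _ => by positivity) fun p _ => ?_
    have h := Real.add_one_le_exp ((1 : ℝ) / p)
    linarith
  refine h2.trans ?_
  have h3 : Real.exp C * Real.log y = Real.exp (Real.log (Real.log y) + C) := by
    rw [Real.exp_add, Real.exp_log hly, mul_comm]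
  rw [h3]
  exact Real.exp_le_exp.2 (hup y (by omega))

theorem bdl_le (y r m : ℕ) (hy : 1 ≤ y) (hm : m ∈ bdl y r) : m ≤ y ^ r := by
  unfold bdl at hm
  rw [mem_filter, Nat.mem_divisors] at hm
  have hsq : Squarefree m := (squarefree_primorial y).squarefree_of_dvd hm.1.1
  rw [← Nat.prod_primeFactors_of_squarefree hsq]
  have h1 : ∏ p ∈ m.primeFactors, p ≤ y ^ m.primeFactors.card := by
    refine Finset.prod_le_pow_card m.primeFactors (fun p => p) y fun p hp => ?_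
    have h2 := Nat.primeFactors_mono hm.1.1 hm.1.2 hp
    rw [primeFactors_primorial, Nat.mem_primesLE] at h2
    exact h2.1
  exact h1.trans (Nat.pow_le_pow_right hy hm.2.le)

end Pool.Agent.H97.VK

end

section

/-!
# VKT (H97/VK of helper97 with the parameter `T0.t` in place of `9/10`, `t1` in place of `19/20`) BrunT: twisted sums over rough numbers

Proof.  `y = Yx x`, `r = ⌈20 (A+1) LL⌉₊ + 1`, `log u ≥ D · LL · L9`, `D = 21(A+1) + 10`, so `u ≥ y^{r+3}` (`log y ≤ L9`).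
`ch_apply`, `brun_ineq`: `|∑_{n≤u} ch(n) ee(t log n) - ∑_{m ∈ bdl y r} μ(m) ∑_{n ≤ u, m ∣ n} χ(n) ee(t log n)| ≤ ∑_{m ∈ bd y r} u/m`.
`n = m k`: `χ(m) ee(t log m) ∑_{k ≤ u/m} χ(k) ee(t log k)`, `u/m ≥ y^{2} ≥ y + 1` (`bdl_le`, `m ≤ y^r`; natural division), `psum (A+3) B`: `≤ (u/m)/L^{A+3}`;
`brun_sum`: total `≤ C (log y) u/L^{A+3} ≤ u/(2 L^A)`.
`brun_tail`: `log log y ≤ LL` and `LL` large: `e (LL + C)/r ≤ 1/e`, so the sum is `≤ e^{-r} ≤ L^{-20(A+1)}`.
-/

set_option autoImplicit false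

namespace Pool.Agent.H76.VKT

open Finset
open Pool.Agent.H91.PK (ee)
open Pool.Agent.H97.VK (bd bdl brun_ineq brun_tail brun_sum bdl_le)

/-- the twisted character -/
private noncomputable def brunT_f {d : ℕ} (χ : DirichletCharacter ℂ d) (t : ℝ) (n : ℕ) : ℂ :=
  χ (n : ZMod d) * ee (t * Real.log n)

private theorem brunT_f_le {d : ℕ} (χ : DirichletCharacter ℂ d) (t : ℝ) (n : ℕ) :
    ‖brunT_f χ t n‖ ≤ 1 := by
  unfold brunT_f
  rw [norm_mul, Pool.Agent.H91.PK.LSa_norm_ee, mul_one]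
  exact DirichletCharacter.norm_le_one _ _

private theorem brunT_f_mul {d : ℕ} (χ : DirichletCharacter ℂ d) (t : ℝ) (m k : ℕ) (hm : m ≠ 0)
    (hk : k ≠ 0) : brunT_f χ t (m * k) = brunT_f χ t m * brunT_f χ t k := by
  unfold brunT_f
  have hm' : (m : ℝ) ≠ 0 := by exact_mod_cast hm
  have hk' : (k : ℝ) ≠ 0 := by exact_mod_cast hk
  rw [Nat.cast_mul, Nat.cast_mul, Real.log_mul hm' hk', mul_add, Pool.Agent.H91.PK.LSa_ee_add, map_mul]
  ring

private theorem brunT_multiples {M : Type} [AddCommMonoid M] (u m : ℕ) (hm : 1 ≤ m) (F : ℕ → M) :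
    ∑ n ∈ (Icc 1 u).filter (fun n => m ∣ n), F n = ∑ k ∈ Icc 1 (u / m), F (m * k) := by
  symm
  refine sum_bij (fun k _ => m * k) ?_ ?_ ?_ ?_
  · intro k hk
    rw [mem_Icc] at hk
    rw [mem_filter, mem_Icc]
    refine ⟨⟨Nat.mul_pos hm hk.1, ?_⟩, Dvd.intro _ rfl⟩
    calc m * k ≤ m * (u / m) := Nat.mul_le_mul_left _ hk.2
      _ ≤ u := Nat.mul_div_le _ _
  · intro a _ b _ hab
    exact Nat.eq_of_mul_eq_mul_left hm hab
  · intro n hn
    rw [mem_filter, mem_Icc] at hn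
    obtain ⟨⟨h1, h2⟩, k, rfl⟩ := hn
    refine ⟨k, ?_, rfl⟩
    rw [mem_Icc]
    constructor
    · rcases Nat.eq_zero_or_pos k with h | h
      · rw [h, mul_zero] at h1
        omega
      · exact h
    · rw [Nat.le_div_iff_mul_le hm]
      calc k * m = m * k := mul_comm _ _
        _ ≤ u := h2
  · intro k _
    rfl

/-- the main inequality. -/
private theorem brunT_main {d : ℕ} (χ : DirichletCharacter ℂ d) (t : ℝ) (y r u : ℕ) (hr : 1 ≤ r)
    (E : ℝ) (hE : ∀ m ∈ bdl y r, ‖∑ k ∈ Icc 1 (u / m), brunT_f χ t k‖ ≤ ((u / m : ℕ) : ℝ) * E)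
    (hE0 : 0 ≤ E) :
    ‖∑ n ∈ Icc 1 u, (if n.Coprime (primorial y) then brunT_f χ t n else 0)‖ ≤
      u * E * ∑ m ∈ bdl y r, (1 : ℝ) / m + u * ∑ m ∈ bd y r, (1 : ℝ) / m := by
  set f : ℕ → ℂ := brunT_f χ t with hf
  set h : ℕ → ℝ := fun n => ∑ m ∈ (bdl y r).filter (fun m => m ∣ n), (ArithmeticFunction.moebius m : ℝ)
    with hh
  set g : ℕ → ℝ := fun n => if n.Coprime (primorial y) then (1 : ℝ) else 0 with hg
  have hpos : ∀ m, m ∣ primorial y → 1 ≤ m := fun m hm => Nat.pos_of_dvd_of_pos hm (primorial_pos y)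
  have hposl : ∀ m ∈ bdl y r, 1 ≤ m := fun m hm => by
    unfold bdl at hm
    exact hpos m (Nat.dvd_of_mem_divisors (mem_filter.1 hm).1)
  have hposb : ∀ m ∈ bd y r, 1 ≤ m := fun m hm => by
    unfold bd at hm
    exact hpos m (Nat.dvd_of_mem_divisors (mem_filter.1 hm).1)
  have e1 : ∑ n ∈ Icc 1 u, (if n.Coprime (primorial y) then f n else 0) =
      ∑ n ∈ Icc 1 u, ((h n : ℝ) : ℂ) * f n + ∑ n ∈ Icc 1 u, (((g n - h n : ℝ)) : ℂ) * f n := by
    rw [← sum_add_distrib]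
    refine sum_congr rfl fun n _ => ?_
    rw [hg]
    dsimp only
    split_ifs
    · push_cast
      ring
    · push_cast
      ring
  -- the error term
  have e2 : ‖∑ n ∈ Icc 1 u, (((g n - h n : ℝ)) : ℂ) * f n‖ ≤ u * ∑ m ∈ bd y r, (1 : ℝ) / m := by
    calc ‖∑ n ∈ Icc 1 u, (((g n - h n : ℝ)) : ℂ) * f n‖
        ≤ ∑ n ∈ Icc 1 u, ‖(((g n - h n : ℝ)) : ℂ) * f n‖ := norm_sum_le _ _
      _ ≤ ∑ n ∈ Icc 1 u, (((bd y r).filter (fun m => m ∣ n)).card : ℝ) := by
          refine sum_le_sum fun n hn => ?_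
          rw [norm_mul, Complex.norm_real, Real.norm_eq_abs]
          have h1 := brun_ineq y r n hr (mem_Icc.1 hn).1
          have h2 := brunT_f_le χ t n
          calc |g n - h n| * ‖f n‖ ≤ |g n - h n| * 1 :=
                mul_le_mul_of_nonneg_left h2 (abs_nonneg _)
            _ = |g n - h n| := mul_one _
            _ ≤ _ := h1
      _ = ∑ m ∈ bd y r, (((Icc 1 u).filter (fun n => m ∣ n)).card : ℝ) := by
          have h3 : ∀ n, (((bd y r).filter (fun m => m ∣ n)).card : ℝ) =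
              ∑ m ∈ bd y r, if m ∣ n then (1 : ℝ) else 0 := by
            intro n
            rw [card_filter]
            push_cast
            rfl
          have h4 : ∀ m, (((Icc 1 u).filter (fun n => m ∣ n)).card : ℝ) =
              ∑ n ∈ Icc 1 u, if m ∣ n then (1 : ℝ) else 0 := by
            intro m
            rw [card_filter]
            push_cast
            rfl
          rw [sum_congr rfl fun n _ => h3 n, sum_comm, sum_congr rfl fun m _ => (h4 m).symm]
      _ ≤ ∑ m ∈ bd y r, (u : ℝ) * (1 / (m : ℝ)) := by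
          refine sum_le_sum fun m hm => ?_
          have h5 : ((Icc 1 u).filter (fun n => m ∣ n)).card = u / m := by
            rw [card_eq_sum_ones, brunT_multiples u m (hposb m hm), ← card_eq_sum_ones, Nat.card_Icc]
            simp
          rw [h5, mul_one_div]
          exact Nat.cast_div_le
      _ = u * ∑ m ∈ bd y r, (1 : ℝ) / m := by rw [mul_sum]
  -- the main term
  have e3 : ‖∑ n ∈ Icc 1 u, ((h n : ℝ) : ℂ) * f n‖ ≤ u * E * ∑ m ∈ bdl y r, (1 : ℝ) / m := by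
    have e4 : ∑ n ∈ Icc 1 u, ((h n : ℝ) : ℂ) * f n =
        ∑ m ∈ bdl y r, ((ArithmeticFunction.moebius m : ℝ) : ℂ) * (f m * ∑ k ∈ Icc 1 (u / m), f k) := by
      have h6 : ∀ n, ((h n : ℝ) : ℂ) * f n =
          ∑ m ∈ bdl y r, if m ∣ n then ((ArithmeticFunction.moebius m : ℝ) : ℂ) * f n else 0 := by
        intro n
        rw [hh]
        dsimp only
        rw [Complex.ofReal_sum, sum_mul, sum_filter]
      rw [sum_congr rfl fun n _ => h6 n, sum_comm]
      refine sum_congr rfl fun m hm => ?_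
      rw [← sum_filter, ← mul_sum, brunT_multiples u m (hposl m hm)]
      congr 1
      rw [mul_sum]
      refine sum_congr rfl fun k hk => ?_
      rw [hf]
      exact brunT_f_mul χ t m k (by have := hposl m hm; omega) (by have := (mem_Icc.1 hk).1; omega)
    rw [e4]
    calc ‖∑ m ∈ bdl y r, ((ArithmeticFunction.moebius m : ℝ) : ℂ) * (f m * ∑ k ∈ Icc 1 (u / m), f k)‖
        ≤ ∑ m ∈ bdl y r, ‖((ArithmeticFunction.moebius m : ℝ) : ℂ) * (f m * ∑ k ∈ Icc 1 (u / m), f k)‖ :=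
          norm_sum_le _ _
      _ ≤ ∑ m ∈ bdl y r, (u : ℝ) * E * (1 / (m : ℝ)) := by
          refine sum_le_sum fun m hm => ?_
          rw [norm_mul, norm_mul, Complex.norm_real, Real.norm_eq_abs]
          have h7 : |((ArithmeticFunction.moebius m : ℤ) : ℝ)| ≤ 1 := by
            have := ArithmeticFunction.abs_moebius_le_one (n := m)
            exact_mod_cast this
          have h8 : ‖f m‖ ≤ 1 := brunT_f_le χ t m
          have h9 : ‖∑ k ∈ Icc 1 (u / m), f k‖ ≤ ((u / m : ℕ) : ℝ) * E := hE m hm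
          have h10 : ((u / m : ℕ) : ℝ) ≤ (u : ℝ) / m := Nat.cast_div_le
          calc |((ArithmeticFunction.moebius m : ℤ) : ℝ)| * (‖f m‖ * ‖∑ k ∈ Icc 1 (u / m), f k‖)
              ≤ 1 * (1 * (((u / m : ℕ) : ℝ) * E)) := by
                refine mul_le_mul h7 ?_ (by positivity) zero_le_one
                exact mul_le_mul h8 h9 (norm_nonneg _) zero_le_one
            _ = ((u / m : ℕ) : ℝ) * E := by ring
            _ ≤ (u : ℝ) / m * E := mul_le_mul_of_nonneg_right h10 hE0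
            _ = (u : ℝ) * E * (1 / (m : ℝ)) := by ring
      _ = u * E * ∑ m ∈ bdl y r, (1 : ℝ) / m := by rw [mul_sum]
  rw [e1]
  exact (norm_add_le _ _).trans (add_le_add e3 e2)

private theorem brunT_ev (c : ℝ) : ∃ x0 : ℕ, ∀ x : ℕ, x0 ≤ x → c ≤ LL x := by
  have h1 : Filter.Tendsto (fun x : ℕ => LL x) Filter.atTop Filter.atTop := by
    unfold LL
    exact Real.tendsto_log_atTop.comp (Real.tendsto_log_atTop.comp tendsto_natCast_atTop_atTop)
  obtain ⟨x0, hx0⟩ := Filter.eventually_atTop.1 (h1.eventually_ge_atTop c)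
  exact ⟨x0, hx0⟩

theorem rtw_h [T0] (h_psum : psum_P)  (A B : ℕ) : ∃ K' D x0 : ℕ, ∀ x : ℕ, x0 ≤ x → ∀ (d : ℕ) (χ : DirichletCharacter ℂ d) (t : ℝ) (u : ℕ),
    1 ≤ d → (d : ℝ) ≤ Real.log x ^ B → Real.log x ^ K' ≤ |t| → |t| ≤ (x : ℝ) ^ (3 : ℕ) → D * (LL x * L9 x) ≤ Real.log u →
    ‖∑ n ∈ Icc 1 u, ch x χ (n : ZMod (qm x d)) * ee (t * Real.log n)‖ ≤ u / Real.log x ^ A := by
  obtain ⟨K', x1, hps⟩ := h_psum (A + 3) B
  obtain ⟨x2, hev⟩ := yx_ev
  obtain ⟨C1, hC1, htail⟩ := brun_tail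
  obtain ⟨C2, hC2, hsum⟩ := brun_sum
  obtain ⟨x3, h3⟩ := brunT_ev (C1 + 2 * C2 + 2)
  refine ⟨K', 20 * (A + 1) + 4, max x1 (max x2 x3), ?_⟩
  intro x hx d χ t u hd hdB ht1 ht2 hu
  have hx1 : x1 ≤ x := (le_max_left _ _).trans hx
  have hx2 : x2 ≤ x := ((le_max_left _ _).trans (le_max_right _ _)).trans hx
  have hx3 : x3 ≤ x := ((le_max_right _ _).trans (le_max_right _ _)).trans hx
  obtain ⟨hy3, hyL, _, hLL1, hL91, hL1, _⟩ := hev x hx2
  have hLLc := h3 x hx3
  set L : ℝ := Real.log x with hL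
  set y : ℕ := Yx x with hy
  have hLLdef : LL x = Real.log L := rfl
  have hLpos : 0 < L := by linarith only [hL1]
  have hexpLL : Real.exp (LL x) = L := by rw [hLLdef, Real.exp_log hLpos]
  have hLbig : C1 + 2 * C2 + 2 ≤ L := by
    have h4 : LL x + 1 ≤ L := by
      have := Real.add_one_le_exp (LL x)
      rwa [hexpLL] at this
    linarith only [hLLc, h4]
  have hL9L : L9 x ≤ L := by
    unfold L9
    calc L ^ T0.t ≤ L ^ (1 : ℝ) := Real.rpow_le_rpow_of_exponent_le hL1 T0.hi.le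
      _ = L := Real.rpow_one L
  set r : ℕ := ⌈20 * ((A : ℝ) + 1) * LL x⌉₊ + 1 with hr
  have hr1 : 1 ≤ r := by omega
  have hA0 : (0 : ℝ) ≤ (A : ℝ) := Nat.cast_nonneg A
  have hrlow : 20 * ((A : ℝ) + 1) * LL x ≤ r := by
    have h5 := Nat.le_ceil (20 * ((A : ℝ) + 1) * LL x)
    rw [hr]
    push_cast
    linarith only [h5]
  have hrup : (r : ℝ) ≤ 20 * ((A : ℝ) + 1) * LL x + 2 := by
    have h5 := Nat.ceil_lt_add_one (a := 20 * ((A : ℝ) + 1) * LL x) (by positivity)
    rw [hr]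
    push_cast
    linarith only [h5]
  have hrpos : (0 : ℝ) < r := by exact_mod_cast hr1
  -- `y ^ (r + 2) ≤ u`
  have hypos : (0 : ℝ) < y := by
    have : 0 < y := by omega
    exact_mod_cast this
  have hlogu : ((r + 2 : ℕ) : ℝ) * Real.log y ≤ Real.log u := by
    have hly : 0 ≤ Real.log y := Real.log_natCast_nonneg y
    have h6 : ((r + 2 : ℕ) : ℝ) ≤ ((20 * (A + 1) + 4 : ℕ) : ℝ) * LL x := by
      push_cast
      nlinarith only [hC1, hC2, hLLc, hrup]
    calc ((r + 2 : ℕ) : ℝ) * Real.log y ≤ ((r + 2 : ℕ) : ℝ) * L9 x :=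
          mul_le_mul_of_nonneg_left hyL (Nat.cast_nonneg _)
      _ ≤ ((20 * (A + 1) + 4 : ℕ) : ℝ) * LL x * L9 x :=
          mul_le_mul_of_nonneg_right h6 (by linarith only [hL91])
      _ = ((20 * (A + 1) + 4 : ℕ) : ℝ) * (LL x * L9 x) := by ring
      _ ≤ Real.log u := hu
  have hupos : (0 : ℝ) < u := by
    rcases Nat.eq_zero_or_pos u with h | h
    · exfalso
      rw [h] at hu
      simp only [Nat.cast_zero, Real.log_zero] at hu
      have h7 : (0 : ℝ) < ((20 * (A + 1) + 4 : ℕ) : ℝ) * (LL x * L9 x) := by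
        have : (0 : ℝ) < ((20 * (A + 1) + 4 : ℕ) : ℝ) := by
          have : 0 < 20 * (A + 1) + 4 := by omega
          exact_mod_cast this
        have h8 : (0 : ℝ) < LL x * L9 x := by nlinarith only [hC1, hC2, hL91, hLLc, hLL1]
        exact mul_pos this h8
      linarith only [hu, h7]
    · exact_mod_cast h
  have hyu : y ^ (r + 2) ≤ u := by
    have h7 : ((y : ℝ)) ^ (r + 2) ≤ u := by
      rw [← Real.log_le_log_iff (by positivity) hupos, Real.log_pow]
      exact hlogu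
    exact_mod_cast h7
  have hdiv : ∀ m ∈ bdl y r, y + 1 ≤ u / m := by
    intro m hm
    have hm1 : 1 ≤ m := by
      unfold bdl at hm
      exact Nat.pos_of_dvd_of_pos (Nat.dvd_of_mem_divisors (mem_filter.1 hm).1) (primorial_pos y)
    rw [Nat.le_div_iff_mul_le hm1]
    have h8 : m ≤ y ^ r := bdl_le y r m (by omega) hm
    calc (y + 1) * m ≤ (y * y) * y ^ r := by
          refine Nat.mul_le_mul ?_ h8
          nlinarith only [hy3]
      _ = y ^ (r + 2) := by ring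
      _ ≤ u := hyu
  have hE : ∀ m ∈ bdl y r, ‖∑ k ∈ Icc 1 (u / m), brunT_f χ t k‖ ≤
      ((u / m : ℕ) : ℝ) * (1 / L ^ (A + 3)) := by
    intro m hm
    have h9 := hps x hx1 d χ t (u / m) hd hdB ht1 ht2 (hdiv m hm)
    unfold brunT_f
    rw [mul_one_div]
    exact h9
  have hmain := brunT_main χ t y r u hr1 (1 / L ^ (A + 3)) hE (by positivity)
  have hrew : ∑ n ∈ Icc 1 u, ch x χ (n : ZMod (qm x d)) * ee (t * Real.log n) =
      ∑ n ∈ Icc 1 u, (if n.Coprime (primorial y) then brunT_f χ t n else 0) := by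
    refine sum_congr rfl fun n _ => ?_
    rw [ch_apply x hd χ n]
    unfold brunT_f
    split_ifs
    · rfl
    · rw [zero_mul]
  rw [hrew]
  refine hmain.trans ?_
  have hLA : 0 < L ^ A := by positivity
  -- first part
  have p1 : (u : ℝ) * (1 / L ^ (A + 3)) * ∑ m ∈ bdl y r, (1 : ℝ) / m ≤ u / L ^ A / 2 := by
    have h10 := hsum y r hy3
    have h11 : C2 * Real.log y ≤ C2 * L := mul_le_mul_of_nonneg_left (hyL.trans hL9L) (by linarith only [hC2])
    calc (u : ℝ) * (1 / L ^ (A + 3)) * ∑ m ∈ bdl y r, (1 : ℝ) / m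
        ≤ (u : ℝ) * (1 / L ^ (A + 3)) * (C2 * L) :=
          mul_le_mul_of_nonneg_left (h10.trans h11) (by positivity)
      _ = (u : ℝ) / L ^ A * (C2 / L ^ 2) := by
          rw [pow_add]
          field_simp
      _ ≤ (u : ℝ) / L ^ A * (1 / 2) := by
          refine mul_le_mul_of_nonneg_left ?_ (by positivity)
          rw [div_le_div_iff₀ (by positivity) (by norm_num)]
          nlinarith only [hC1, hC2, hLbig, hL1]
      _ = u / L ^ A / 2 := by ring
  -- second part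
  have p2 : (u : ℝ) * ∑ m ∈ bd y r, (1 : ℝ) / m ≤ u / L ^ A / 2 := by
    have h12 := htail y r hy3 hr1
    have hlogy1 : 1 ≤ Real.log y := by
      have h13 : Real.exp 1 ≤ y := by
        have := Real.exp_one_lt_d9
        have h14 : (3 : ℝ) ≤ y := by exact_mod_cast hy3
        linarith only [this, h14]
      rw [← Real.log_exp 1]
      exact Real.log_le_log (Real.exp_pos 1) h13
    have hll : Real.log (Real.log y) ≤ LL x := by
      rw [hLLdef]
      exact Real.log_le_log (by linarith) (hyL.trans hL9L)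
    have hll0 : 0 ≤ Real.log (Real.log y) := Real.log_nonneg hlogy1
    have hbase : Real.exp 1 * (Real.log (Real.log y) + C1) / r ≤ Real.exp (-1) := by
      rw [div_le_iff₀ hrpos]
      have h15 : Real.log (Real.log y) + C1 ≤ 2 * LL x := by linarith only [hC2, hLLc, hll]
      have h16 : Real.exp 1 < 3 := by
        have := Real.exp_one_lt_d9
        linarith only [this]
      have h17 : Real.exp 1 * Real.exp (-1) = 1 := by
        rw [← Real.exp_add]
        simp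
      have h18 : (1 : ℝ) / 3 ≤ Real.exp (-1) := by
        have hp : 0 < Real.exp (-1) := Real.exp_pos _
        rw [div_le_iff₀ (by norm_num)]
        nlinarith only [h17, h16, hp]
      have h19 : 20 * LL x ≤ r := by nlinarith only [hrlow, hLL1]
      calc Real.exp 1 * (Real.log (Real.log y) + C1) ≤ 3 * (2 * LL x) := by
            refine mul_le_mul h16.le h15 (by linarith only [hC1, hll0]) (by norm_num)
        _ ≤ 1 / 3 * r := by nlinarith only [hC1, hC2, hLLc, h19]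
        _ ≤ Real.exp (-1) * r := mul_le_mul_of_nonneg_right h18 hrpos.le
    have hbase0 : 0 ≤ Real.exp 1 * (Real.log (Real.log y) + C1) / r := by
      have : 0 ≤ Real.log (Real.log y) + C1 := by linarith only [hC1, hll0]
      positivity
    have h20 : (Real.exp 1 * (Real.log (Real.log y) + C1) / r) ^ r ≤ 1 / L ^ A / 2 := by
      calc (Real.exp 1 * (Real.log (Real.log y) + C1) / r) ^ r ≤ Real.exp (-1) ^ r :=
            pow_le_pow_left₀ hbase0 hbase r
        _ = Real.exp (-(r : ℝ)) := by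
            rw [← Real.exp_nat_mul]
            congr 1
            ring
        _ ≤ Real.exp (-(((A : ℝ) + 1) * LL x)) := by
            refine Real.exp_le_exp.2 ?_
            nlinarith only [hrlow, hrpos]
        _ = 1 / L ^ (A + 1) := by
            rw [Real.exp_neg, one_div]
            congr 1
            have : ((A : ℝ) + 1) * LL x = ((A + 1 : ℕ) : ℝ) * LL x := by push_cast; ring
            rw [this, Real.exp_nat_mul, hexpLL]
        _ ≤ 1 / L ^ A / 2 := by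
            rw [div_div]
            refine one_div_le_one_div_of_le (by positivity) ?_
            rw [pow_succ]
            refine mul_le_mul_of_nonneg_left ?_ hLA.le
            linarith only [hC1, hC2, hLbig]
    calc (u : ℝ) * ∑ m ∈ bd y r, (1 : ℝ) / m ≤ u * (1 / L ^ A / 2) :=
          mul_le_mul_of_nonneg_left (h12.trans h20) hupos.le
      _ = u / L ^ A / 2 := by ring
  linarith only [p1, p2]

end Pool.Agent.H76.VKT

end

section

/-!
# W KS1: sums of `(n + β)^{it}` over intervals starting anywhere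

`|∑_{a < n ≤ b} ee(t log(n+β))| ≤ C K (1/|t| + x^{-δ})` for `b ≤ K`, `x^κ ≤ K ≤ x`, `1 ≤ |t| ≤ x^3`.

Proof.  Let `k0 = ⌈8/κ⌉₊` and let `δ0, C0` be the constants of `EHB.vdc k0`; put `δ = κ δ0 / 4` or smaller
(e.g. `min (κ δ0 / 4) (κ/8)`, we may assume `κ ≤ 1`: if `κ > 1` there is no `K` once `x ≥ 2`).  The terms with
`n ≤ K^{1/2}` contribute at most `K^{1/2} + 1`.  Cut the rest into the intervals `(a', b'] ⊂ (M, 2M]` with
`M = 2^i`, `M ≥ K^{1/2}/2`, `2^i ≤ K`.  For `|t| ≥ M^{1/3}` use `vdc k0` (`|t| ≤ x^3 ≤ M^{k0}` as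
`M ≥ K^{1/2}/2 ≥ x^{κ/2}/2`, for large `x`): `≤ C0 M^{1-δ0}`; for `|t| ≤ M^{1/3}` use `low_sum`:
`≤ 4M/|t| + 7 M^{1/3}`.  The sum over `M = 2^i ≤ K` is `≤ C (K^{1-δ0}·K^{..} + K/|t| + K^{1/3})` (geometric
series; `∑ M^{1-δ0} ≤ (number of i) K^{1-δ0}`, number of `i ≤ 2 log K ≤ C K^{δ0/2}`).  Finally
`K^{-δ0/2}, K^{-1/2} ≤ x^{-δ}`.
-/

set_option autoImplicit false

namespace Pool.Agent.H35.W

open Finset
open Pool.Agent.H91.PK (ee)

private theorem KS1_triv (a b : ℕ) (β t : ℝ) :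
    ‖∑ n ∈ Ioc a b, ee (t * Real.log (n + β))‖ ≤ b := by
  have h1 : ‖∑ n ∈ Ioc a b, ee (t * Real.log (n + β))‖ ≤ ∑ n ∈ Ioc a b, (1 : ℝ) := by
    refine (norm_sum_le _ _).trans (Finset.sum_le_sum fun n _ => ?_)
    rw [Pool.Agent.H91.PK.LSa_norm_ee]
  refine h1.trans ?_
  rw [Finset.sum_const, Nat.card_Ioc, nsmul_eq_mul, mul_one]
  exact_mod_cast Nat.sub_le b a

/-- a dyadic piece -/
private theorem KS1_piece (C0 δ0 δ1 : ℝ) (k0 : ℕ) (hC0 : 1 ≤ C0) (h10 : δ1 ≤ δ0)
    (h1h : δ1 ≤ 1 / 2)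
    (hv : ∀ (M a b : ℕ) (β t : ℝ), 1 ≤ M → M ≤ a → b ≤ 2 * M → 0 ≤ β → β ≤ 1 →
      (M : ℝ) ^ (1 / 3 : ℝ) ≤ |t| → |t| ≤ (M : ℝ) ^ k0 →
      ‖∑ n ∈ Ioc a b, ee (t * Real.log (n + β))‖ ≤ C0 * (M : ℝ) ^ (1 - δ0))
    (M a b : ℕ) (β t : ℝ) (hM : 1 ≤ M) (ha : M ≤ a) (hb : b ≤ 2 * M) (hβ : 0 ≤ β) (hβ1 : β ≤ 1)
    (ht1 : 1 ≤ |t|) (ht : |t| ≤ (M : ℝ) ^ k0) :
    ‖∑ n ∈ Ioc a b, ee (t * Real.log (n + β))‖ ≤
      (C0 + 7) * (M : ℝ) ^ (1 - δ1) + 4 * M / |t| := by
  have hm : (1 : ℝ) ≤ M := by exact_mod_cast hM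
  have hm0 : (0 : ℝ) < M := by linarith
  have hp : 0 < (M : ℝ) ^ (1 - δ1) := Real.rpow_pos_of_pos hm0 _
  have ht0 : 0 < |t| := by linarith only [ht1]
  have hq : 0 ≤ 4 * (M : ℝ) / |t| := by positivity
  rcases le_or_gt ((M : ℝ) ^ (1 / 3 : ℝ)) |t| with h | h
  · refine (hv M a b β t hM ha hb hβ hβ1 h ht).trans ?_
    have h1 : (M : ℝ) ^ (1 - δ0) ≤ (M : ℝ) ^ (1 - δ1) :=
      Real.rpow_le_rpow_of_exponent_le hm (by linarith only [h10])
    nlinarith only [hp, hq, h1, hC0]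
  · refine (Pool.Agent.H76.EHB.low_sum t β M a b hM ha hb hβ hβ1 (abs_pos.1 ht0)).trans ?_
    have h1 : (M : ℝ) ^ (1 / 3 : ℝ) ≤ (M : ℝ) ^ (1 - δ1) :=
      Real.rpow_le_rpow_of_exponent_le hm (by linarith only [h1h])
    nlinarith only [ht1, h, h1, hC0, hp]

/-- halving -/
private theorem KS1_step (C1 δ1 τ : ℝ) (hC1 : 0 ≤ C1) (h1h : δ1 ≤ 1 / 2) (hτ : 0 < τ)
    (m b : ℝ) (hm : 0 ≤ m) (hmb : m ≤ 2 / 3 * b) :
    (C1 * m ^ (1 - δ1) + 4 * m / τ) + (6 * C1 * m ^ (1 - δ1) + 8 * m / τ) ≤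
      6 * C1 * b ^ (1 - δ1) + 8 * b / τ := by
  have hb : 0 ≤ b := by linarith only [hm, hmb]
  have h1 : m ^ (1 - δ1) ≤ 5 / 6 * b ^ (1 - δ1) := by
    calc m ^ (1 - δ1) ≤ (2 / 3 * b) ^ (1 - δ1) := Real.rpow_le_rpow hm hmb (by linarith only [h1h])
      _ = (2 / 3) ^ (1 - δ1) * b ^ (1 - δ1) := Real.mul_rpow (by norm_num) hb
      _ ≤ 5 / 6 * b ^ (1 - δ1) := by
          refine mul_le_mul_of_nonneg_right ?_ (Real.rpow_nonneg hb _)
          calc (2 / 3 : ℝ) ^ (1 - δ1) ≤ (2 / 3 : ℝ) ^ (1 / 2 : ℝ) :=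
                Real.rpow_le_rpow_of_exponent_ge (by norm_num) (by norm_num) (by linarith only [h1h])
            _ ≤ 5 / 6 := by
                rw [← Real.sqrt_eq_rpow, Real.sqrt_le_left (by norm_num)]
                norm_num
  have h2 : m / τ ≤ 2 / 3 * (b / τ) := by
    rw [← mul_div_assoc]
    exact div_le_div_of_nonneg_right hmb hτ.le
  have h3 : 0 ≤ b ^ (1 - δ1) := Real.rpow_nonneg hb _
  have e1 : (C1 * m ^ (1 - δ1) + 4 * m / τ) + (6 * C1 * m ^ (1 - δ1) + 8 * m / τ) =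
      7 * (C1 * m ^ (1 - δ1)) + 12 * (m / τ) := by ring
  have e2 : 6 * C1 * b ^ (1 - δ1) + 8 * b / τ = 6 * (C1 * b ^ (1 - δ1)) + 8 * (b / τ) := by ring
  rw [e1, e2]
  have h4 : C1 * m ^ (1 - δ1) ≤ 5 / 6 * (C1 * b ^ (1 - δ1)) := by
    calc C1 * m ^ (1 - δ1) ≤ C1 * (5 / 6 * b ^ (1 - δ1)) := mul_le_mul_of_nonneg_left h1 hC1
      _ = _ := by ring
  have h5 : 0 ≤ C1 * b ^ (1 - δ1) := by positivity
  linarith only [h2, h4, h5]

/-- all intervals -/
private theorem KS1_all (C0 δ0 δ1 T : ℝ) (k0 : ℕ) (hC0 : 1 ≤ C0) (h10 : δ1 ≤ δ0)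
    (h1h : δ1 ≤ 1 / 2) (hT : 3 ≤ T)
    (hv : ∀ (M a b : ℕ) (β t : ℝ), 1 ≤ M → M ≤ a → b ≤ 2 * M → 0 ≤ β → β ≤ 1 →
      (M : ℝ) ^ (1 / 3 : ℝ) ≤ |t| → |t| ≤ (M : ℝ) ^ k0 →
      ‖∑ n ∈ Ioc a b, ee (t * Real.log (n + β))‖ ≤ C0 * (M : ℝ) ^ (1 - δ0))
    (β t : ℝ) (hβ : 0 ≤ β) (hβ1 : β ≤ 1) (ht1 : 1 ≤ |t|) (ht : |t| ≤ (T / 2) ^ k0) (b : ℕ) :
    ∀ a : ℕ, ‖∑ n ∈ Ioc a b, ee (t * Real.log (n + β))‖ ≤
      T + (6 * (C0 + 7) * (b : ℝ) ^ (1 - δ1) + 8 * b / |t|) := by
  induction b using Nat.strong_induction_on with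
  | _ b ih =>
    intro a
    have ht0 : 0 < |t| := by linarith
    have hG : 0 ≤ 6 * (C0 + 7) * (b : ℝ) ^ (1 - δ1) + 8 * b / |t| := by
      have h1 : 0 ≤ (b : ℝ) ^ (1 - δ1) := Real.rpow_nonneg (Nat.cast_nonneg _) _
      have h2 : 0 ≤ C0 + 7 := by linarith
      positivity
    rcases le_or_gt (b : ℝ) T with hbT | hbT
    · have := KS1_triv a b β t
      linarith only [hG, hbT, this]
    · have hb3 : 3 < b := by
        have : (3 : ℝ) < b := by linarith
        exact_mod_cast this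
      set M := (b + 1) / 2 with hMdef
      have hMb : M < b := by omega
      have hM1 : 1 ≤ M := by omega
      have hb2 : b ≤ 2 * M := by omega
      have h3M : 3 * M ≤ 2 * b := by omega
      have hMr : (M : ℝ) ≤ 2 / 3 * b := by
        have : (3 : ℝ) * M ≤ 2 * b := by exact_mod_cast h3M
        linarith only [this]
      have hMT : T / 2 ≤ (M : ℝ) := by
        have : (b : ℝ) ≤ 2 * M := by exact_mod_cast hb2
        linarith only [hbT, this]
      have htM : |t| ≤ (M : ℝ) ^ k0 := ht.trans (pow_le_pow_left₀ (by linarith only [hT]) hMT k0)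
      have hstep := KS1_step (C0 + 7) δ1 |t| (by linarith only [hC0]) h1h ht0 M b (Nat.cast_nonneg _) hMr
      have hG' : 0 ≤ 6 * (C0 + 7) * (M : ℝ) ^ (1 - δ1) + 8 * M / |t| := by
        have h1 : 0 ≤ (M : ℝ) ^ (1 - δ1) := Real.rpow_nonneg (Nat.cast_nonneg _) _
        have h2 : 0 ≤ C0 + 7 := by linarith only [hC0]
        positivity
      rcases le_or_gt M a with haM | haM
      · have h := KS1_piece C0 δ0 δ1 k0 hC0 h10 h1h hv M a b β t hM1 haM hb2 hβ hβ1 ht1 htM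
        linarith only [hT, hstep, hG', h]
      · have h := KS1_piece C0 δ0 δ1 k0 hC0 h10 h1h hv M M b β t hM1 le_rfl hb2 hβ hβ1 ht1 htM
        have h' := ih M hMb a
        have e : ∑ n ∈ Ioc a b, ee (t * Real.log (n + β)) =
            ∑ n ∈ Ioc a M, ee (t * Real.log (n + β)) +
              ∑ n ∈ Ioc M b, ee (t * Real.log (n + β)) :=
          (Finset.sum_Ioc_consecutive _ haM.le hMb.le).symm
        rw [e]
        have := norm_add_le (∑ n ∈ Ioc a M, ee (t * Real.log (n + β)))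
          (∑ n ∈ Ioc M b, ee (t * Real.log (n + β)))
        linarith only [hstep, h, h', this]

theorem ks1 (kap : ℝ) (hkap : 0 < kap) : ∃ δ C : ℝ, 0 < δ ∧ δ ≤ 1 ∧ 1 ≤ C ∧ ∃ x0 : ℕ,
    ∀ x : ℕ, x0 ≤ x → ∀ (K a b : ℕ) (β t : ℝ), (x : ℝ) ^ kap ≤ K → K ≤ x → b ≤ K → 0 ≤ β → β ≤ 1 →
      1 ≤ |t| → |t| ≤ (x : ℝ) ^ (3 : ℕ) →
      ‖∑ n ∈ Ioc a b, ee (t * Real.log (n + β))‖ ≤ C * K * (1 / |t| + (x : ℝ) ^ (-δ)) := by
  obtain ⟨δ0, C0, hδ0, hδ01, hC0, hv⟩ := Pool.Agent.H76.EHB.vdc ⌈8 / kap⌉₊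
  set k0 := ⌈8 / kap⌉₊ with hk0
  set δ1 : ℝ := min δ0 (1 / 2) with hδ1
  have h10 : δ1 ≤ δ0 := min_le_left _ _
  have h1h : δ1 ≤ 1 / 2 := min_le_right _ _
  have h1p : 0 < δ1 := lt_min hδ0 (by norm_num)
  refine ⟨min (kap * δ1) 1, 6 * C0 + 51, lt_min (by positivity) one_pos, min_le_right _ _,
    by linarith only [hC0], ⌈(2 : ℝ) ^ (8 / kap)⌉₊ + 1, ?_⟩
  intro x hx K a b β t hK hKx hb hβ hβ1 ht1 ht
  have hx2 : (2 : ℝ) ^ (8 / kap) ≤ x := by
    refine (Nat.le_ceil _).trans ?_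
    exact_mod_cast (by omega : ⌈(2 : ℝ) ^ (8 / kap)⌉₊ ≤ x)
  have hx1 : (1 : ℝ) ≤ x := by exact_mod_cast (by omega : 1 ≤ x)
  have hx0 : (0 : ℝ) < x := by linarith only [hx1]
  have h2 : (2 : ℝ) ≤ (x : ℝ) ^ (kap / 8) := by
    calc (2 : ℝ) = ((2 : ℝ) ^ (8 / kap)) ^ (kap / 8) := by
          rw [← Real.rpow_mul (by norm_num)]
          have : 8 / kap * (kap / 8) = 1 := by field_simp
          rw [this, Real.rpow_one]
      _ ≤ (x : ℝ) ^ (kap / 8) := Real.rpow_le_rpow (by positivity) hx2 (by positivity)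
  have hK1 : (1 : ℝ) ≤ K := (Real.one_le_rpow hx1 hkap.le).trans hK
  have hK0 : (0 : ℝ) < K := by linarith only [hK1]
  set T : ℝ := (K : ℝ) ^ (1 / 2 : ℝ) with hT
  have hTx : (x : ℝ) ^ (kap / 2) ≤ T := by
    calc (x : ℝ) ^ (kap / 2) = ((x : ℝ) ^ kap) ^ (1 / 2 : ℝ) := by
          rw [← Real.rpow_mul hx0.le]
          congr 1
          ring
      _ ≤ T := Real.rpow_le_rpow (by positivity) hK (by norm_num)
  have hx4 : (16 : ℝ) ≤ (x : ℝ) ^ (kap / 2) := by
    have e : (x : ℝ) ^ (kap / 2) = ((x : ℝ) ^ (kap / 8)) ^ 4 := by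
      rw [← Real.rpow_natCast, ← Real.rpow_mul hx0.le]
      congr 1
      push_cast
      ring
    rw [e]
    calc (16 : ℝ) = 2 ^ 4 := by norm_num
      _ ≤ _ := pow_le_pow_left₀ (by norm_num) h2 4
  have hT3 : 3 ≤ T := by linarith only [hTx, hx4]
  have hT2 : (x : ℝ) ^ (3 * kap / 8) ≤ T / 2 := by
    have e : (x : ℝ) ^ (kap / 2) = (x : ℝ) ^ (kap / 8) * (x : ℝ) ^ (3 * kap / 8) := by
      rw [← Real.rpow_add hx0]
      congr 1
      ring
    have h3 : 0 < (x : ℝ) ^ (3 * kap / 8) := Real.rpow_pos_of_pos hx0 _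
    rw [e] at hTx
    nlinarith only [hTx, h2, h3]
  have htT : |t| ≤ (T / 2) ^ k0 := by
    refine ht.trans ?_
    calc (x : ℝ) ^ (3 : ℕ) = (x : ℝ) ^ (3 : ℝ) := by
          rw [← Real.rpow_natCast]
          norm_num
      _ ≤ (x : ℝ) ^ (3 * kap / 8 * k0) := by
          apply Real.rpow_le_rpow_of_exponent_le hx1
          have h3 : 8 / kap ≤ k0 := Nat.le_ceil _
          rw [div_le_iff₀ hkap] at h3
          nlinarith only [h3]
      _ = ((x : ℝ) ^ (3 * kap / 8)) ^ k0 := by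
          rw [← Real.rpow_natCast, ← Real.rpow_mul hx0.le]
      _ ≤ (T / 2) ^ k0 := pow_le_pow_left₀ (by positivity) hT2 k0
  have hmain := KS1_all C0 δ0 δ1 T k0 hC0 h10 h1h hT3 hv β t hβ hβ1 ht1 htT b a
  refine hmain.trans ?_
  have ht0 : 0 < |t| := by linarith only [ht1]
  have hbK : (b : ℝ) ≤ K := by exact_mod_cast hb
  have f1 : (b : ℝ) ^ (1 - δ1) ≤ (K : ℝ) ^ (1 - δ1) :=
    Real.rpow_le_rpow (Nat.cast_nonneg _) hbK (by linarith only [h1h])
  have f2 : (b : ℝ) / |t| ≤ K / |t| := div_le_div_of_nonneg_right hbK ht0.le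
  have f3 : T ≤ (K : ℝ) ^ (1 - δ1) := Real.rpow_le_rpow_of_exponent_le hK1 (by linarith only [h1h])
  have f4 : (K : ℝ) ^ (1 - δ1) ≤ K * (x : ℝ) ^ (-(min (kap * δ1) 1)) := by
    have e : (K : ℝ) ^ (1 - δ1) = K * (K : ℝ) ^ (-δ1) := by
      rw [sub_eq_add_neg, Real.rpow_add hK0, Real.rpow_one]
    rw [e]
    refine mul_le_mul_of_nonneg_left ?_ hK0.le
    calc (K : ℝ) ^ (-δ1) ≤ ((x : ℝ) ^ kap) ^ (-δ1) :=
          Real.rpow_le_rpow_of_nonpos (by positivity) hK (by linarith only [h1p])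
      _ = (x : ℝ) ^ (-(kap * δ1)) := by
          rw [← Real.rpow_mul hx0.le]
          congr 1
          ring
      _ ≤ (x : ℝ) ^ (-(min (kap * δ1) 1)) :=
          Real.rpow_le_rpow_of_exponent_le hx1 (neg_le_neg (min_le_left _ _))
  have e1 : 8 * (b : ℝ) / |t| = 8 * (b / |t|) := by ring
  rw [e1]
  have e2 : (6 * C0 + 51) * (K : ℝ) * (1 / |t| + (x : ℝ) ^ (-(min (kap * δ1) 1))) =
      (6 * C0 + 51) * (K / |t|) +
        (6 * C0 + 51) * (K * (x : ℝ) ^ (-(min (kap * δ1) 1))) := by ring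
  rw [e2]
  have g0 : 0 ≤ (K : ℝ) / |t| := by positivity
  have g1 : 0 ≤ (K : ℝ) ^ (1 - δ1) := by positivity
  have g2 : 6 * (C0 + 7) * (b : ℝ) ^ (1 - δ1) ≤ 6 * (C0 + 7) * (K : ℝ) ^ (1 - δ1) :=
    mul_le_mul_of_nonneg_left f1 (by linarith only [hC0])
  have g3 : (6 * C0 + 43) * (K : ℝ) ^ (1 - δ1) ≤
      (6 * C0 + 51) * (K * (x : ℝ) ^ (-(min (kap * δ1) 1))) :=
    mul_le_mul (by linarith only) f4 g1 (by linarith only [hC0])
  have g4 : 8 * ((K : ℝ) / |t|) ≤ (6 * C0 + 51) * (K / |t|) :=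
    mul_le_mul_of_nonneg_right (by linarith only [hC0]) g0
  linarith only [f2, f3, g2, g3, g4]

end Pool.Agent.H35.W

end

section

/-!
# VKT (H97/VK of helper97 with the parameter `T0.t` in place of `9/10`, `t1` in place of `19/20`) PSum: partial sums of `χ(n) n^{it}` for all `v > y`

Proof.  Split `n ≤ v` into classes modulo `d`: `n = d m + r`, `0 ≤ r < d`, `log n = log d + log (m + r/d)`, `χ(n) = χ(r)`.  The terms with `m = 0` contribute at most `d`.
The others form `∑_{m ∈ Ioc 0 b} ee(t log(m + r/d))`, `b = (v - r)/d ≤ v`, up to a constant factor of modulus one.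
`v ≤ x`: `vk_exp (A + B + 2)` with `K = v` (`v ≥ Yx x + 1 > exp(L9 x)`): at most `v (100/|t| + L^{-A-B-2})` per class.
`v > x`: `H35.W.ks1 1` with its `x` equal to `v` and `K = v` (`|t| ≤ x^3 ≤ v^3`): at most `C v (1/|t| + v^{-δ})` per class.
Sum over `d ≤ L^B` classes; `K' = A + B + 2`; `d ≤ L^B ≤ v/L^{A+1}`.
-/

set_option autoImplicit false

namespace Pool.Agent.H76.VKT

open Finset
open Pool.Agent.H91.PK (ee)

private lemma psum_ee_norm (r : ℝ) : ‖ee r‖ = 1 := by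
  have : (2 * Real.pi * r * Complex.I : ℂ) = ((2 * Real.pi * r : ℝ) : ℂ) * Complex.I := by
    push_cast; ring
  rw [ee, this, Complex.norm_exp_ofReal_mul_I]

private lemma psum_ee_add (r s : ℝ) : ee (r + s) = ee r * ee s := by
  rw [ee, ee, ee, ← Complex.exp_add]
  congr 1
  push_cast
  ring

private lemma psum_per (ψ : ℕ → ℂ) (d : ℕ) (h : ∀ n, ψ (n + d) = ψ n) (l k : ℕ) :
    ψ (l + d * k) = ψ l := by
  induction k with
  | zero => simp
  | succ k ih => rw [mul_add, mul_one, ← add_assoc, h, ih]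

/-- one residue class -/
private lemma psum_class (f : ℕ → ℂ) (hf : ∀ n, ‖f n‖ ≤ 1) (B : ℝ) (K' a b d l : ℕ) (hd : 1 ≤ d)
    (hb : b / d ≤ K') (hB : ∀ a' b' : ℕ, b' ≤ K' → ‖∑ n ∈ Ioc a' b', f n‖ ≤ B) :
    ‖∑ k ∈ (range (b + 1)).filter (fun k => a < l + d * k ∧ l + d * k ≤ b), f k‖ ≤ 1 + B := by
  set T := (range (b + 1)).filter (fun k => a < l + d * k ∧ l + d * k ≤ b) with hT
  have e : T.erase 0 = Ioc ((a - l) / d) ((b - l) / d) := by
    ext k
    simp only [hT, mem_erase, mem_filter, mem_range, mem_Ioc]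
    rw [Nat.div_lt_iff_lt_mul (by omega), Nat.le_div_iff_mul_le (by omega)]
    constructor
    · rintro ⟨h0, h1, h2, h3⟩
      rw [mul_comm d k] at h2 h3
      have : 1 ≤ k * d := Nat.mul_pos (by omega) (by omega)
      omega
    · rintro ⟨h1, h2⟩
      have hk : k ≠ 0 := by rintro rfl; simp at h1
      have h3 : k ≤ k * d := Nat.le_mul_of_pos_right k (by omega)
      have : 1 ≤ k * d := Nat.mul_pos (by omega) (by omega)
      rw [mul_comm d k]
      omega
  have h1 : ‖∑ k ∈ T.erase 0, f k‖ ≤ B := by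
    rw [e]
    exact hB _ _ ((Nat.div_le_div_right (Nat.sub_le _ _)).trans hb)
  by_cases h0 : 0 ∈ T
  · rw [← add_sum_erase _ _ h0]
    exact (norm_add_le _ _).trans (add_le_add (hf 0) h1)
  · rw [erase_eq_of_notMem h0] at h1
    linarith

/-- all residue classes -/
private lemma psum_core (ψ : ℕ → ℂ) (d v : ℕ) (t B : ℝ) (hd : 1 ≤ d) (hper : ∀ n, ψ (n + d) = ψ n)
    (hψ : ∀ n, ‖ψ n‖ ≤ 1)
    (hB : ∀ (β : ℝ) (a' b' : ℕ), 0 ≤ β → β ≤ 1 → b' ≤ v →
      ‖∑ n ∈ Ioc a' b', ee (t * Real.log (n + β))‖ ≤ B) :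
    ‖∑ n ∈ Icc 1 v, ψ n * ee (t * Real.log n)‖ ≤ d * (1 + B) := by
  have hdr : (1 : ℝ) ≤ d := by exact_mod_cast hd
  have hd0 : (d : ℝ) ≠ 0 := by positivity
  have hcl : ∀ l ∈ range d, ‖∑ n ∈ (Ioc 0 v).filter (fun n => n % d = l),
      ψ n * ee (t * Real.log n)‖ ≤ 1 + B := by
    intro l hl
    have hl1 := mem_range.1 hl
    have e1 : (Ioc 0 v).filter (fun n => n % d = l)
        = ((range (v + 1)).filter (fun k => 0 < l + d * k ∧ l + d * k ≤ v)).image
          (fun k => l + d * k) := by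
      ext n
      simp only [mem_filter, mem_Ioc, mem_image, mem_range]
      constructor
      · rintro ⟨⟨h1, h2⟩, h3⟩
        have h4 : n % d + d * (n / d) = n := Nat.mod_add_div n d
        have h5 : n / d ≤ n := Nat.div_le_self n d
        refine ⟨n / d, ⟨by omega, ?_, ?_⟩, ?_⟩ <;> rw [← h3, h4] <;> assumption
      · rintro ⟨k, ⟨h1, h2, h3⟩, rfl⟩
        exact ⟨⟨h2, h3⟩, by rw [Nat.add_mul_mod_self_left, Nat.mod_eq_of_lt hl1]⟩
    have hinj : Set.InjOn (fun k => l + d * k)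
        ((range (v + 1)).filter (fun k => 0 < l + d * k ∧ l + d * k ≤ v) : Finset ℕ) := by
      intro u _ w _ huw
      have : d * u = d * w := by simpa using huw
      exact Nat.eq_of_mul_eq_mul_left (by omega) this
    rw [e1, sum_image hinj]
    have hβl0 : 0 ≤ (l : ℝ) / d := by positivity
    have hβl1 : (l : ℝ) / d ≤ 1 := by
      rw [div_le_one (by linarith)]
      exact_mod_cast hl1.le
    have e2 : ∑ k ∈ (range (v + 1)).filter (fun k => 0 < l + d * k ∧ l + d * k ≤ v),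
        ψ (l + d * k) * ee (t * Real.log ((l + d * k : ℕ) : ℝ))
        = (ψ l * ee (t * Real.log d)) *
          ∑ k ∈ (range (v + 1)).filter (fun k => 0 < l + d * k ∧ l + d * k ≤ v),
            ee (t * Real.log ((k : ℝ) + (l : ℝ) / d)) := by
      rw [mul_sum]
      apply sum_congr rfl
      intro k hk
      have hk1 := (mem_filter.1 hk).2.1
      have hpos : (0 : ℝ) < l + d * k := by
        have : 0 < l + d * k := by omega
        exact_mod_cast this
      have h1 : ((l + d * k : ℕ) : ℝ) = d * ((k : ℝ) + (l : ℝ) / d) := by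
        push_cast
        field_simp
        ring
      have h2 : 0 < (k : ℝ) + (l : ℝ) / d := by
        have h3 : (k : ℝ) + (l : ℝ) / d = (l + d * k) / d := by
          field_simp
          ring
        rw [h3]
        exact div_pos hpos (by linarith)
      rw [psum_per ψ d hper, h1, Real.log_mul hd0 h2.ne', mul_add, psum_ee_add]
      ring
    rw [e2, norm_mul, norm_mul, psum_ee_norm, mul_one]
    have h3 := psum_class (fun k => ee (t * Real.log ((k : ℝ) + (l : ℝ) / d)))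
      (fun n => (psum_ee_norm _).le) B v 0 v d l hd (Nat.div_le_self v d)
      (fun a' b' hb' => hB ((l : ℝ) / d) a' b' hβl0 hβl1 hb')
    calc ‖ψ l‖ * _ ≤ 1 * (1 + B) := mul_le_mul (hψ l) h3 (norm_nonneg _) zero_le_one
      _ = 1 + B := one_mul _
  have e0 : Icc 1 v = Ioc 0 v := by
    ext n; simp only [mem_Icc, mem_Ioc]; omega
  have e3 : ∑ n ∈ Ioc 0 v, ψ n * ee (t * Real.log n)
      = ∑ l ∈ range d, ∑ n ∈ (Ioc 0 v).filter (fun n => n % d = l),
        ψ n * ee (t * Real.log n) := by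
    rw [sum_fiberwise_of_maps_to]
    intro n _
    exact mem_range.2 (Nat.mod_lt n (by omega))
  rw [e0, e3]
  refine (norm_sum_le _ _).trans ((sum_le_sum hcl).trans ?_)
  rw [sum_const, card_range, nsmul_eq_mul]

private lemma psum_tendL : Filter.Tendsto (fun x : ℕ => Real.log x) Filter.atTop Filter.atTop :=
  Real.tendsto_log_atTop.comp tendsto_natCast_atTop_atTop

/-- powers of `log x` against `exp ((log x)^{9/10})` -/
private lemma psum_ev1 [T0] (N : ℕ) : ∀ᶠ x : ℕ in Filter.atTop,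
    2 * Real.log x ^ N ≤ Real.exp (Real.log x ^ T0.t) := by
  have h1 : Filter.Tendsto (fun u : ℝ => u ^ T0.t) Filter.atTop Filter.atTop :=
    tendsto_rpow_atTop (by have := T0.lo; linarith)
  have h2 := (Real.isLittleO_pow_exp_atTop (n := 2 * N)).comp_tendsto h1
  have h3 := (h2.bound (show (0 : ℝ) < 1 / 2 by norm_num))
  have h4 := psum_tendL.eventually h3
  filter_upwards [h4, psum_tendL.eventually_ge_atTop 1] with x hx hL
  simp only [Function.comp_def, Real.norm_eq_abs] at hx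
  have hL0 : 0 ≤ Real.log x := by linarith
  rw [abs_of_nonneg (by positivity), abs_of_nonneg (by positivity)] at hx
  have h5 : Real.log x ^ N ≤ (Real.log x ^ T0.t) ^ (2 * N) := by
    rw [← Real.rpow_natCast (Real.log x ^ T0.t), ← Real.rpow_mul hL0, ← Real.rpow_natCast]
    apply Real.rpow_le_rpow_of_exponent_le hL
    push_cast
    have : (0 : ℝ) ≤ N := Nat.cast_nonneg N
    have hlo := T0.lo
    nlinarith
  linarith

/-- powers of `log x` against powers of `x` -/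
private lemma psum_ev2 (N : ℕ) (δ : ℝ) (hδ : 0 < δ) : ∀ᶠ x : ℕ in Filter.atTop,
    (x : ℝ) ^ (-δ) ≤ 1 / Real.log x ^ N := by
  have h1 : Filter.Tendsto (fun u : ℝ => δ * u) Filter.atTop Filter.atTop :=
    Filter.tendsto_id.const_mul_atTop hδ
  have h2 := (Real.isLittleO_pow_exp_atTop (n := N)).comp_tendsto h1
  have h3 := (h2.bound (show (0 : ℝ) < δ ^ N by positivity))
  have h4 := psum_tendL.eventually h3
  filter_upwards [h4, psum_tendL.eventually_ge_atTop 1, Filter.eventually_ge_atTop 1] with x hx hL hx1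
  simp only [Function.comp_def, Real.norm_eq_abs] at hx
  have hL0 : 0 < Real.log x := by linarith
  have hx0 : (0 : ℝ) < x := by exact_mod_cast hx1
  rw [abs_of_nonneg (by positivity), abs_of_nonneg (by positivity), mul_pow] at hx
  have h5 : Real.log x ^ N ≤ Real.exp (δ * Real.log x) := le_of_mul_le_mul_left hx (by positivity)
  have h6 : (x : ℝ) ^ (-δ) = (Real.exp (δ * Real.log x))⁻¹ := by
    rw [← Real.exp_neg, Real.rpow_def_of_pos hx0]
    congr 1
    ring
  rw [h6, ← one_div]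
  exact one_div_le_one_div_of_le (by positivity) h5

theorem psum_h [T0] (h_vk_exp : vk_exp_P)  (A B : ℕ) : ∃ K' x0 : ℕ, ∀ x : ℕ, x0 ≤ x → ∀ (d : ℕ) (χ : DirichletCharacter ℂ d) (t : ℝ) (v : ℕ),
    1 ≤ d → (d : ℝ) ≤ Real.log x ^ B → Real.log x ^ K' ≤ |t| → |t| ≤ (x : ℝ) ^ (3 : ℕ) → Yx x + 1 ≤ v →
    ‖∑ n ∈ Icc 1 v, χ (n : ZMod d) * ee (t * Real.log n)‖ ≤ v / Real.log x ^ A := by
  obtain ⟨x1, hx1⟩ := h_vk_exp (A + B + 2)
  obtain ⟨δ, C, hδ, hδ1, hC, x2, hx2⟩ := Pool.Agent.H35.W.ks1 1 one_pos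
  obtain ⟨x3, hx3⟩ := Filter.eventually_atTop.1 (psum_ev1 (A + B + 2))
  obtain ⟨x4, hx4⟩ := Filter.eventually_atTop.1 (psum_ev2 (A + B + 2) δ hδ)
  obtain ⟨x5, hx5⟩ := Filter.eventually_atTop.1 (psum_tendL.eventually_ge_atTop (4 * C + 202))
  refine ⟨A + B + 2, max (max (max x1 x2) (max x3 x4)) (max x5 1), ?_⟩
  intro x hx d χ t v hd hdL ht1 ht2 hv
  have hxa : x1 ≤ x := (le_max_left _ _).trans ((le_max_left _ _).trans ((le_max_left _ _).trans hx))
  have hxb : x2 ≤ x := (le_max_right _ _).trans ((le_max_left _ _).trans ((le_max_left _ _).trans hx))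
  have hxc : x3 ≤ x := (le_max_left _ _).trans ((le_max_right _ _).trans ((le_max_left _ _).trans hx))
  have hxd : x4 ≤ x := (le_max_right _ _).trans ((le_max_right _ _).trans ((le_max_left _ _).trans hx))
  have hxe : x5 ≤ x := (le_max_left _ _).trans ((le_max_right _ _).trans hx)
  have hxf : 1 ≤ x := (le_max_right _ _).trans ((le_max_right _ _).trans hx)
  have h3 := hx3 x hxc
  have h4 := hx4 x hxd
  have hL := hx5 x hxe
  have hxr : (1 : ℝ) ≤ x := by exact_mod_cast hxf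
  set L := Real.log x with hLdef
  have hL1 : (202 : ℝ) ≤ L := by linarith
  have hL0 : (0 : ℝ) < L := by linarith
  have hLp : ∀ n : ℕ, 0 < L ^ n := fun n => pow_pos hL0 n
  have hvy : Real.exp (L ^ T0.t) ≤ v := by
    have h5 : Real.exp (L9 x) < (Yx x : ℝ) + 1 := Nat.lt_floor_add_one _
    have h6 : ((Yx x : ℝ) + 1) ≤ v := by exact_mod_cast hv
    exact h5.le.trans h6
  have hv0 : (0 : ℝ) < v := (Real.exp_pos _).trans_le hvy
  have ht0 : 1 ≤ |t| := (one_le_pow₀ (by linarith : (1 : ℝ) ≤ L)).trans ht1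
  have htp : 0 < |t| := by linarith
  have hti : 1 / |t| ≤ 1 / L ^ (A + B + 2) := one_div_le_one_div_of_le (hLp _) ht1
  have key : ∀ (β : ℝ) (a' b' : ℕ), 0 ≤ β → β ≤ 1 → b' ≤ v →
      ‖∑ n ∈ Ioc a' b', ee (t * Real.log (n + β))‖ ≤ v * ((2 * C + 101) / L ^ (A + B + 2)) := by
    intro β a' b' hβ0 hβ1 hb'
    rcases le_or_gt v x with hvx | hvx
    · refine (hx1 x hxa v a' b' β t hvy hvx hb' hβ0 hβ1 ht0 ht2).trans ?_
      apply mul_le_mul_of_nonneg_left _ hv0.le
      calc 100 / |t| + 1 / L ^ (A + B + 2) = 100 * (1 / |t|) + 1 / L ^ (A + B + 2) := by ring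
        _ ≤ 100 * (1 / L ^ (A + B + 2)) + 1 / L ^ (A + B + 2) := by linarith
        _ = 101 / L ^ (A + B + 2) := by ring
        _ ≤ (2 * C + 101) / L ^ (A + B + 2) := by
          apply div_le_div_of_nonneg_right _ (hLp _).le
          linarith
    · have hxv : (x : ℝ) ≤ v := by exact_mod_cast hvx.le
      have ht3 : |t| ≤ (v : ℝ) ^ (3 : ℕ) := ht2.trans (pow_le_pow_left₀ (by linarith) hxv 3)
      refine (hx2 v (hxb.trans hvx.le) v a' b' β t (by rw [Real.rpow_one]) le_rfl hb' hβ0 hβ1 ht0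
        ht3).trans ?_
      have h7 : (v : ℝ) ^ (-δ) ≤ (x : ℝ) ^ (-δ) :=
        Real.rpow_le_rpow_of_nonpos (by linarith) hxv (by linarith)
      have h8 : 1 / |t| + (v : ℝ) ^ (-δ) ≤ 2 * (1 / L ^ (A + B + 2)) := by linarith
      calc C * v * (1 / |t| + (v : ℝ) ^ (-δ)) ≤ C * v * (2 * (1 / L ^ (A + B + 2))) := by
            apply mul_le_mul_of_nonneg_left h8 (by positivity)
        _ = v * ((2 * C) / L ^ (A + B + 2)) := by ring
        _ ≤ v * ((2 * C + 101) / L ^ (A + B + 2)) := by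
          apply mul_le_mul_of_nonneg_left _ hv0.le
          apply div_le_div_of_nonneg_right _ (hLp _).le
          linarith
  have hmain := psum_core (fun n => χ (n : ZMod d)) d v t _ hd (fun n => by simp)
    (fun n => DirichletCharacter.norm_le_one _ _) key
  refine hmain.trans ?_
  have hd0 : (0 : ℝ) ≤ d := Nat.cast_nonneg _
  have hvL : 2 * L ^ (A + B + 2) ≤ v := h3.trans hvy
  have hC0 : 0 ≤ (2 * C + 101) / L ^ (A + B + 2) := div_nonneg (by linarith) (hLp _).le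
  have h9 : (d : ℝ) * (1 + v * ((2 * C + 101) / L ^ (A + B + 2))) ≤
      L ^ B * (1 + v * ((2 * C + 101) / L ^ (A + B + 2))) := by
    apply mul_le_mul_of_nonneg_right hdL
    positivity
  refine h9.trans ?_
  rw [le_div_iff₀ (hLp _)]
  have e1 : L ^ (A + B + 2) = L ^ A * L ^ B * L ^ 2 := by
    rw [pow_add, pow_add]
  have e2 : L ^ B * (1 + v * ((2 * C + 101) / L ^ (A + B + 2))) * L ^ A
      = L ^ A * L ^ B + v * ((2 * C + 101) / L ^ 2) := by
    rw [e1]
    have hA := (hLp A).ne'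
    have hB := (hLp B).ne'
    field_simp
  rw [e2]
  have h10 : L ^ A * L ^ B ≤ v / 2 := by
    have h11 : (1 : ℝ) ≤ L ^ 2 := one_le_pow₀ (by linarith)
    have h12 : 0 ≤ L ^ A * L ^ B := by positivity
    rw [e1] at hvL
    nlinarith
  have h13 : (2 * C + 101) / L ^ 2 ≤ 1 / 2 := by
    rw [div_le_iff₀ (hLp 2)]
    nlinarith
  nlinarith

end Pool.Agent.H76.VKT

end
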