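import Pool.Agent.H43.PL.H76.VKT.Exp
import Pool.Agent.H43.PL.H76.VKT.SmShW
import Pool.Agent.H43.PL.H76.VKT.VkChiW
import Pool.Agent.H43.PL.H97.VK.VExp
import Pool.Agent.H43.PL.M17
import Pool.Agent.H43.PL.M18
import Pool.Agent.H43.PL.M19
import Pool.Agent.H43.PL.M20

/-! The parts of this file: H97.VK.VChain, H76.VKT.Chain, H76.VKT.VkClassW, H76.VKT.Main. -/

section

set_option autoImplicit false

namespace Pool.Agent.H97.VK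

open Finset
open Pool.Agent.H91.PK (ee)

theorem vexp : ∃ c C : ℝ, 0 < c ∧ 1 ≤ C ∧ ∀ (κ N a b : ℕ) (β t : ℝ), 4 ≤ κ → (C * κ) ^ C ≤ N →
    N ≤ a → b ≤ 2 * N → 0 ≤ β → β ≤ 1 → (N : ℝ) ^ (4 * κ - 4) ≤ |t| → |t| ≤ (N : ℝ) ^ (4 * κ) →
    ‖∑ n ∈ Ioc a b, ee (t * Real.log (n + β))‖ ≤ C * (N : ℝ) ^ (1 - c / (κ : ℝ) ^ 2) :=
  vexp_h jv_eight

end Pool.Agent.H97.VK

end

section

set_option autoImplicit false

namespace Pool.Agent.H76.VKT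

open Finset
open Pool.Agent.H91.EHA
open Pool.Agent.H91.PK (ee)

theorem vk_exp [T0] (A : ℕ) : ∃ x0 : ℕ, ∀ x : ℕ, x0 ≤ x → ∀ (K a b : ℕ) (β t : ℝ),
    Real.exp (Real.log x ^ T0.t) ≤ K → K ≤ x → b ≤ K → 0 ≤ β → β ≤ 1 →
    1 ≤ |t| → |t| ≤ (x : ℝ) ^ (3 : ℕ) →
    ‖∑ n ∈ Ioc a b, ee (t * Real.log (n + β))‖ ≤ K * (100 / |t| + 1 / Real.log x ^ A) :=
  vk_exp_h Pool.Agent.H97.VK.vexp A

theorem psum [T0] (A B : ℕ) : ∃ K' x0 : ℕ, ∀ x : ℕ, x0 ≤ x → ∀ (d : ℕ) (χ : DirichletCharacter ℂ d) (t : ℝ) (v : ℕ),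
    1 ≤ d → (d : ℝ) ≤ Real.log x ^ B → Real.log x ^ K' ≤ |t| → |t| ≤ (x : ℝ) ^ (3 : ℕ) → Yx x + 1 ≤ v →
    ‖∑ n ∈ Icc 1 v, χ (n : ZMod d) * ee (t * Real.log n)‖ ≤ v / Real.log x ^ A :=
  psum_h vk_exp A B

theorem rtw [T0] (A B : ℕ) : ∃ K' D x0 : ℕ, ∀ x : ℕ, x0 ≤ x → ∀ (d : ℕ) (χ : DirichletCharacter ℂ d) (t : ℝ) (u : ℕ),
    1 ≤ d → (d : ℝ) ≤ Real.log x ^ B → Real.log x ^ K' ≤ |t| → |t| ≤ (x : ℝ) ^ (3 : ℕ) → D * (LL x * L9 x) ≤ Real.log u →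
    ‖∑ n ∈ Icc 1 u, ch x χ (n : ZMod (qm x d)) * ee (t * Real.log n)‖ ≤ u / Real.log x ^ A :=
  rtw_h psum A B

theorem lk_up [T0] (k B : ℕ) : ∃ C : ℝ, 1 ≤ C ∧ ∃ K' x0 : ℕ, ∀ x : ℕ, x0 ≤ x → ∀ (d : ℕ) (χ : DirichletCharacter ℂ d) (s : ℂ),
    1 ≤ d → (d : ℝ) ≤ Real.log x ^ B → 1 + 1 / (4 * Real.log x) ≤ s.re → s.re ≤ 2 →
    Real.log x ^ K' ≤ |s.im| → |s.im| ≤ 6 * (x : ℝ) ^ (3 : ℕ) →
    ‖Lk (qm x d) (ch x χ) k s‖ ≤ C * L9 x ^ k * LL x ^ (k + 1) :=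
  lk_up_h rtw k B

theorem lk_low [T0] (B : ℕ) : ∃ c : ℝ, 0 < c ∧ c ≤ 1 ∧ ∃ K' x0 : ℕ, ∀ x : ℕ, x0 ≤ x → ∀ (d : ℕ) (χ : DirichletCharacter ℂ d) (s : ℂ),
    1 ≤ d → (d : ℝ) ≤ Real.log x ^ B → 1 + 1 / (4 * Real.log x) ≤ s.re → s.re ≤ 2 →
    Real.log x ^ K' ≤ |s.im| → |s.im| ≤ 3 * (x : ℝ) ^ (3 : ℕ) →
    c / LL x ^ 7 ≤ ‖Lk (qm x d) (ch x χ) 0 s‖ :=
  lk_low_h lk_up zy_up B

theorem fk_up [T0] (k B : ℕ) : ∃ C : ℝ, 1 ≤ C ∧ ∃ K' x0 : ℕ, ∀ x : ℕ, x0 ≤ x → ∀ (d : ℕ) (χ : DirichletCharacter ℂ d) (s : ℂ),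
    1 ≤ d → (d : ℝ) ≤ Real.log x ^ B → 1 + 1 / (4 * Real.log x) ≤ s.re → s.re ≤ 2 →
    Real.log x ^ K' ≤ |s.im| → |s.im| ≤ 3 * (x : ℝ) ^ (3 : ℕ) →
    ‖Fk (qm x d) (ch x χ) k s‖ ≤ C * L9 x ^ (k + 1) * LL x ^ (20 * (k + 1)) :=
  fk_up_h lk_low lk_up k B

theorem sm_sharp_w [T0] (t1 : ℝ) (ht1' : T0.t < t1) (k κ B : ℕ) (hκ : 1 ≤ κ) : ∃ C : ℝ, 1 ≤ C ∧ ∃ K' x0 : ℕ, ∀ x : ℕ, x0 ≤ x →
    ∀ (d : ℕ) (χ : DirichletCharacter ℂ d) (t : ℝ) (v z : ℕ), 1 ≤ d → (d : ℝ) ≤ Real.log x ^ B →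
    Real.exp (Real.log x ^ t1) ≤ z → z ≤ x ^ 2 → v ≤ z → Real.log x ^ K' ≤ |t| → |t| ≤ (x : ℝ) ^ (2 : ℕ) →
    ‖∑ n ∈ Icc 1 v, ((Lam n * Real.log n ^ k : ℝ) : ℂ) * ch x χ (n : ZMod (qm x d)) * ee (t * Real.log n)‖ ≤
      C * z * (L9 x ^ (k + 1) * LL x ^ (20 * (k + 1)) * Real.log x ^ (3 * κ) +
        Real.log (2 * z) ^ (k + 1) / Real.log x ^ κ) :=
  sm_sharp_w_h fk_up t1 ht1' k κ B hκ

theorem vk_chi_w [T0] (t1 : ℝ) (ht1' : T0.t < t1) (K B : ℕ) : ∃ K' x0 : ℕ, ∀ x : ℕ, x0 ≤ x →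
    ∀ (d : ℕ) (χ : DirichletCharacter ℂ d) (t : ℝ) (z : ℕ), 1 ≤ d → (d : ℝ) ≤ Real.log x ^ B →
    Real.exp (Real.log x ^ t1) ≤ z → z ≤ x ^ 2 → Real.log x ^ K' ≤ |t| → |t| ≤ (x : ℝ) ^ (2 : ℕ) →
    ‖∑ n ∈ Icc 1 z, ((Lam n : ℝ) : ℂ) * χ (n : ZMod d) * ee (t * Real.log n)‖ ≤ z / Real.log x ^ K :=
  vk_chi_w_h sm_sharp_w t1 ht1' K B

end Pool.Agent.H76.VKT

end

section

/-!
# VKT (H97/VK of helper97 with the parameter `T0.t` in place of `9/10`, `t1` in place of `19/20`) VkClassW: `vk_class` for `z ≥ exp(L^{19/20})`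

Proof.  `(u,d) = 1`: orthogonality (Mathlib `DirichletCharacter.sum_char_inv_mul_char_eq`, compare `swk1_orth` in `EHA/SwK1.lean`):
`∑_{n ≡ u} Λ(n) ee(t log n) = (1/φ(d)) ∑_χ χ(u)^{-1} ∑_{n≤z} Λ(n) χ(n) ee(t log n)`, at most `φ(d)` characters, `vk_chi K B e0`.
`(u,d) > 1`: every `n ≡ u mod d` has a common factor with `d`, so `Λ(n) ≠ 0` only for powers of the primes `p ∣ d`:
at most `∑_{p ∣ d} log z ≤ d · log z ≤ z/L^K` (`DiA_psi_noncoprime` in `PK/DiA.lean`, or directly).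
-/

set_option autoImplicit false

namespace Pool.Agent.H76.VKT

open Finset
open Pool.Agent.H91.EHA
open Pool.Agent.H91.PK (ee)

private theorem VkClass_orth {z d u : ℕ} (hd : 1 ≤ d) (hu : Nat.Coprime u d) (f : ℕ → ℂ) :
    (d.totient : ℂ) * ∑ n ∈ (Icc 1 z).filter (fun n => n % d = u % d), f n =
      ∑ χ : DirichletCharacter ℂ d, χ ((u : ZMod d)⁻¹) *
        ∑ n ∈ Icc 1 z, f n * χ (n : ZMod d) := by
  have : NeZero d := ⟨by omega⟩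
  have hun : IsUnit (u : ZMod d) := (ZMod.isUnit_iff_coprime u d).mpr hu
  simp only [mul_sum]
  rw [sum_comm, sum_filter]
  refine sum_congr rfl fun n _ => ?_
  have h1 : ∀ χ : DirichletCharacter ℂ d,
      χ ((u : ZMod d)⁻¹) * (f n * χ (n : ZMod d))
      = (χ ((u : ZMod d)⁻¹) * χ (n : ZMod d)) * f n := by
    intro χ; ring
  simp only [h1]
  rw [← sum_mul, DirichletCharacter.sum_char_inv_mul_char_eq ℂ hun]
  have hiff : ((u : ZMod d) = (n : ZMod d)) ↔ n % d = u % d := by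
    rw [eq_comm]
    exact ZMod.natCast_eq_natCast_iff' n u d
  by_cases h : n % d = u % d
  · rw [if_pos h, if_pos (hiff.mpr h)]
  · rw [if_neg h, if_neg (fun h' => h (hiff.mp h'))]
    simp

private theorem VkClass_norm_ee (t : ℝ) : ‖ee t‖ = 1 := by
  unfold ee
  rw [show (2 * Real.pi * t * Complex.I : ℂ) = ((2 * Real.pi * t : ℝ) : ℂ) * Complex.I by
    push_cast; ring]
  exact Complex.norm_exp_ofReal_mul_I _

private theorem VkClass_norm_char_le {d : ℕ} (χ : DirichletCharacter ℂ d) (a : ZMod d) : ‖χ a‖ ≤ 1 :=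
  DirichletCharacter.norm_le_one χ a

private theorem VkClass_noncop {z d u : ℕ} (hz : 1 ≤ z) (hd : 1 ≤ d) (hu : ¬ Nat.Coprime u d)
    (t : ℝ) :
    ‖∑ n ∈ (Icc 1 z).filter (fun n => n % d = u % d),
      ((Lam n : ℝ) : ℂ) * ee (t * Real.log n)‖ ≤ d * Real.log z := by
  have h1 : ‖∑ n ∈ (Icc 1 z).filter (fun n => n % d = u % d),
      ((Lam n : ℝ) : ℂ) * ee (t * Real.log n)‖ ≤
      ∑ n ∈ (Icc 1 z).filter (fun n => n % d = u % d), ArithmeticFunction.vonMangoldt n := by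
    refine (norm_sum_le _ _).trans (sum_le_sum fun n _ => ?_)
    rw [norm_mul, VkClass_norm_ee, mul_one, Complex.norm_real, Lam,
      Real.norm_of_nonneg ArithmeticFunction.vonMangoldt_nonneg]
  have h2 : ∑ n ∈ (Icc 1 z).filter (fun n => n % d = u % d), ArithmeticFunction.vonMangoldt n ≤
      ∑ n ∈ (Icc 1 z).filter (fun n => ¬ Nat.Coprime n d), ArithmeticFunction.vonMangoldt n := by
    refine sum_le_sum_of_subset_of_nonneg ?_ (fun _ _ _ => ArithmeticFunction.vonMangoldt_nonneg)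
    intro n hn
    rw [mem_filter] at hn ⊢
    refine ⟨hn.1, fun hc => hu ?_⟩
    have h3 : Nat.gcd n d = Nat.gcd u d := Nat.ModEq.gcd_eq hn.2
    rw [Nat.Coprime, ← h3]
    exact hc
  have h4 := Pool.Agent.H91.PK.DiA_psi_noncoprime (N := z) (d := d) hz hd
  have h5 : (d.primeFactors.card : ℝ) ≤ d := by
    have : d.primeFactors.card ≤ (Icc 1 d).card := by
      refine card_le_card fun p hp => ?_
      rw [mem_Icc]
      exact ⟨(Nat.prime_of_mem_primeFactors hp).one_le,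
        Nat.le_of_dvd hd (Nat.dvd_of_mem_primeFactors hp)⟩
    rw [Nat.card_Icc, Nat.add_sub_cancel] at this
    exact_mod_cast this
  calc _ ≤ _ := h1
    _ ≤ _ := h2
    _ ≤ _ := h4
    _ ≤ _ := mul_le_mul_of_nonneg_right h5 (Real.log_natCast_nonneg z)

private theorem VkClassW_large (t1 : ℝ) (ht1 : 1 / 2 ≤ t1) (K B : ℕ) : ∃ x0 : ℕ, ∀ x : ℕ, x0 ≤ x →
    1 ≤ Real.log x ∧ 2 * Real.log x ^ (B + 1 + K) ≤ Real.exp (Real.log x ^ t1) := by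
  have h1 : ∀ᶠ u : ℝ in Filter.atTop, 2 * u ^ (B + 1 + K) ≤ Real.exp (u ^ t1) := by
    have h := (isLittleO_pow_exp_pos_mul_atTop (2 * (B + 1 + K)) (show (0 : ℝ) < 1 by norm_num)).bound
      (show (0 : ℝ) < 1 / 2 by norm_num)
    have h' := (tendsto_rpow_atTop (show (0 : ℝ) < t1 by linarith)).eventually h
    filter_upwards [h', Filter.eventually_ge_atTop (1 : ℝ)] with u hu hu1
    have hp : 0 ≤ u ^ t1 := Real.rpow_nonneg (by linarith) _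
    rw [Real.norm_of_nonneg (by positivity), Real.norm_of_nonneg (by positivity), one_mul] at hu
    have h2 : u ^ (B + 1 + K) ≤ (u ^ t1) ^ (2 * (B + 1 + K)) := by
      rw [← Real.rpow_natCast (u ^ t1), ← Real.rpow_mul (by linarith),
        ← Real.rpow_natCast u]
      refine Real.rpow_le_rpow_of_exponent_le hu1 ?_
      push_cast
      have h1 : (0 : ℝ) ≤ B := Nat.cast_nonneg _
      have h2 : (0 : ℝ) ≤ K := Nat.cast_nonneg _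
      nlinarith
    linarith
  have h2 : ∀ᶠ x : ℝ in Filter.atTop, 1 ≤ Real.log x := Real.tendsto_log_atTop.eventually_ge_atTop 1
  have h3 := (tendsto_natCast_atTop_atTop (R := ℝ)).eventually
    ((Real.tendsto_log_atTop.eventually h1).and h2)
  obtain ⟨x0, hx0⟩ := Filter.eventually_atTop.mp h3
  exact ⟨x0, fun x hx => ⟨(hx0 x hx).2, (hx0 x hx).1⟩⟩

theorem vk_class_w [T0] (t1 : ℝ) (ht1' : T0.t < t1) (K B : ℕ) : ∃ K' x0 : ℕ, ∀ x : ℕ, x0 ≤ x →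
    ∀ (d u z : ℕ) (t : ℝ), 1 ≤ d → (d : ℝ) ≤ Real.log x ^ B →
    Real.exp (Real.log x ^ t1) ≤ z → z ≤ x ^ 2 → Real.log x ^ K' ≤ |t| → |t| ≤ (x : ℝ) ^ (2 : ℕ) →
    ‖∑ n ∈ (Icc 1 z).filter (fun n => n % d = u % d), ((Lam n : ℝ) : ℂ) * ee (t * Real.log n)‖ ≤
      z / Real.log x ^ K := by
  obtain ⟨K', x1, hchi⟩ := vk_chi_w t1 ht1' K B
  obtain ⟨x2, hlarge⟩ := VkClassW_large t1 (by have := T0.lo; linarith) K B
  refine ⟨K', max (max x1 x2) 1, fun x hx d u z t hd hdB hz1 hz2 ht1 ht2 => ?_⟩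
  have hx1 : x1 ≤ x := ((le_max_left _ _).trans (le_max_left _ _)).trans hx
  have hx2 : x2 ≤ x := ((le_max_right _ _).trans (le_max_left _ _)).trans hx
  have hx3 : 1 ≤ x := (le_max_right _ _).trans hx
  obtain ⟨hL1, hL2⟩ := hlarge x hx2
  have hL0 : 0 < Real.log x := by linarith
  have hLK : 0 < Real.log x ^ K := pow_pos hL0 K
  have hz0 : (0 : ℝ) ≤ z := Nat.cast_nonneg z
  by_cases hu : Nat.Coprime u d
  · have : NeZero d := ⟨by omega⟩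
    have horth := VkClass_orth (z := z) hd hu (fun n => ((Lam n : ℝ) : ℂ) * ee (t * Real.log n))
    have hphi : (0 : ℝ) < d.totient := by exact_mod_cast Nat.totient_pos.2 hd
    have h1 : (d.totient : ℝ) * ‖∑ n ∈ (Icc 1 z).filter (fun n => n % d = u % d),
        ((Lam n : ℝ) : ℂ) * ee (t * Real.log n)‖ ≤ d.totient * (z / Real.log x ^ K) := by
      have h2 : (d.totient : ℝ) * ‖∑ n ∈ (Icc 1 z).filter (fun n => n % d = u % d),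
          ((Lam n : ℝ) : ℂ) * ee (t * Real.log n)‖ =
          ‖(d.totient : ℂ) * ∑ n ∈ (Icc 1 z).filter (fun n => n % d = u % d),
          ((Lam n : ℝ) : ℂ) * ee (t * Real.log n)‖ := by
        rw [norm_mul, Complex.norm_natCast]
      rw [h2, horth]
      have h3 : ∀ χ : DirichletCharacter ℂ d, ‖χ ((u : ZMod d)⁻¹) *
          ∑ n ∈ Icc 1 z, ((Lam n : ℝ) : ℂ) * ee (t * Real.log n) * χ (n : ZMod d)‖ ≤
          z / Real.log x ^ K := by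
        intro χ
        have h4 := hchi x hx1 d χ t z hd hdB hz1 hz2 ht1 ht2
        have h5 : ∑ n ∈ Icc 1 z, ((Lam n : ℝ) : ℂ) * ee (t * Real.log n) * χ (n : ZMod d) =
            ∑ n ∈ Icc 1 z, ((Lam n : ℝ) : ℂ) * χ (n : ZMod d) * ee (t * Real.log n) :=
          sum_congr rfl fun n _ => by ring
        rw [norm_mul, h5]
        calc _ ≤ 1 * ‖∑ n ∈ Icc 1 z, ((Lam n : ℝ) : ℂ) * χ (n : ZMod d) *
              ee (t * Real.log n)‖ :=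
              mul_le_mul_of_nonneg_right (VkClass_norm_char_le χ _) (norm_nonneg _)
          _ ≤ _ := by rw [one_mul]; exact h4
      have h6 : (Finset.univ : Finset (DirichletCharacter ℂ d)).card = d.totient := by
        rw [card_univ, ← Nat.card_eq_fintype_card,
          DirichletCharacter.card_eq_totient_of_hasEnoughRootsOfUnity ℂ d]
      calc _ ≤ ∑ χ : DirichletCharacter ℂ d, ‖χ ((u : ZMod d)⁻¹) *
            ∑ n ∈ Icc 1 z, ((Lam n : ℝ) : ℂ) * ee (t * Real.log n) * χ (n : ZMod d)‖ :=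
            norm_sum_le _ _
        _ ≤ ∑ _χ : DirichletCharacter ℂ d, (z / Real.log x ^ K : ℝ) :=
            sum_le_sum fun χ _ => h3 χ
        _ = _ := by rw [sum_const, h6, nsmul_eq_mul]
    exact le_of_mul_le_mul_left h1 hphi
  · have hz3 : (1 : ℝ) ≤ z := by
      have h1 : (1 : ℝ) ≤ Real.exp (Real.log x ^ t1) :=
        Real.one_le_exp (Real.rpow_nonneg hL0.le _)
      linarith
    have hz4 : 1 ≤ z := by exact_mod_cast hz3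
    have h1 := VkClass_noncop (z := z) (d := d) (u := u) hz4 hd hu t
    have h2 : Real.log z ≤ 2 * Real.log x := by
      have h3 : (z : ℝ) ≤ (x : ℝ) ^ 2 := by exact_mod_cast hz2
      have h4 := Real.log_le_log (by linarith) h3
      rwa [Real.log_pow, Nat.cast_ofNat] at h4
    rw [le_div_iff₀ hLK]
    have hlz : 0 ≤ Real.log z := Real.log_natCast_nonneg z
    calc ‖∑ n ∈ (Icc 1 z).filter (fun n => n % d = u % d),
          ((Lam n : ℝ) : ℂ) * ee (t * Real.log n)‖ * Real.log x ^ K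
        ≤ (d * Real.log z) * Real.log x ^ K := mul_le_mul_of_nonneg_right h1 hLK.le
      _ ≤ (Real.log x ^ B * (2 * Real.log x)) * Real.log x ^ K := by
          refine mul_le_mul_of_nonneg_right ?_ hLK.le
          exact mul_le_mul hdB h2 hlz (pow_nonneg hL0.le B)
      _ = 2 * Real.log x ^ (B + 1 + K) := by rw [pow_add, pow_add]; ring
      _ ≤ Real.exp (Real.log x ^ t1) := hL2
      _ ≤ z := hz1

end Pool.Agent.H76.VKT

end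

section

/-!
# VKT: the Vinogradov-Korobov library `Pool.Agent.H97.VK` with parameters

* `vk_exp_t`: exponential sums `∑ (n+β)^{2πit}` over intervals in `[0, K]`, `K ≥ exp((log x)^t0)`, every `t0 ∈ (2/3, 1)`;
* `vk_class_t`: `∑_{n ≤ z, n ≡ u (d)} Λ(n) n^{2πit}`, `z ≥ exp((log x)^t1)`, every `t1 ∈ (2/3, 1)`, `d ≤ (log x)^B`.
-/

set_option autoImplicit false

namespace Pool.Agent.H76.VKT

open Finset
open Pool.Agent.H91.EHA
open Pool.Agent.H91.PK (ee)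

theorem vk_exp_t (t0 : ℝ) (h : 2 / 3 < t0) (h1 : t0 < 1) (A : ℕ) : ∃ x0 : ℕ, ∀ x : ℕ, x0 ≤ x →
    ∀ (K a b : ℕ) (β t : ℝ), Real.exp (Real.log x ^ t0) ≤ K → K ≤ x → b ≤ K → 0 ≤ β → β ≤ 1 →
    1 ≤ |t| → |t| ≤ (x : ℝ) ^ (3 : ℕ) →
    ‖∑ n ∈ Ioc a b, ee (t * Real.log (n + β))‖ ≤ K * (100 / |t| + 1 / Real.log x ^ A) :=
  @vk_exp ⟨t0, h, h1⟩ A

theorem vk_class_t (t1 : ℝ) (h : 2 / 3 < t1) (h1 : t1 < 1) (K B : ℕ) : ∃ K' x0 : ℕ, ∀ x : ℕ, x0 ≤ x →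
    ∀ (d u z : ℕ) (t : ℝ), 1 ≤ d → (d : ℝ) ≤ Real.log x ^ B →
    Real.exp (Real.log x ^ t1) ≤ z → z ≤ x ^ 2 → Real.log x ^ K' ≤ |t| → |t| ≤ (x : ℝ) ^ (2 : ℕ) →
    ‖∑ n ∈ (Icc 1 z).filter (fun n => n % d = u % d), ((Lam n : ℝ) : ℂ) * ee (t * Real.log n)‖ ≤
      z / Real.log x ^ K :=
  @vk_class_w ⟨(2 / 3 + t1) / 2, by linarith, by linarith⟩ t1
    (show (2 / 3 + t1) / 2 < t1 by linarith) K B

end Pool.Agent.H76.VKT

end
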