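import Pool.Agent.H43.PL.M01
import Pool.Agent.H43.PL.M11

/-! The parts of this file: H76.MU.RgI, H43.LM.DecW. -/

section

/-!
# MU RgI: rough numbers in short intervals (upper bound sieve)

Proof.  `q = ∏_{p ≤ P} p`, `D = P 2^J`.  For `n` with `Rk P J n` every squarefree `l ≤ D` prime to `q` has all its prime factors in `(P, D]`, so `(l, n) = 1` and `ramS l n = μ(l)`
(Ramanujan sum); so `Ps D q n = Gs D q` (`H87/WL/Defs.lean`).  Additive large sieve (dual form; see `H91/PK/LSa.lean` and `H76/EHB`, `H76/GB`):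
`∑_{n ∈ Ico a (a+h)} Ps D q n ^ 2 ≤ (h + D^2) Gs D q`, because `Ps D q n = ∑_{l} ∑_{r mod l, (r,l)=1} (μ(l)/φ(l)) ee(n r/l)`, the fractions are `1/D^2`-separated and the sum of the squares
of the coefficients is `∑ μ(l)^2/φ(l)^2 · φ(l) = Gs D q`.  So the number is `≤ 2 h/Gs D q` (`D^2 ≤ h`; if the large sieve is available only with a constant, `C` absorbs it; alternatively expand
`∑_n (∑_{s | n} ls D q s)^2` with Selberg's weights `ls`, `H87/WL/Sel*.lean`, if `(P 2^J)^4 ≤ h`), `Gs D q ≥ (φ(q)/q) log (D + 1)` (`gs_ge`) and `q/φ(q) = ∏_{p ≤ P} (1 - 1/p)^{-1} ≤ C log P`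
(Mertens upper bound, `P ≥ 2`).
-/

set_option autoImplicit false

namespace Pool.Agent.H76.MU

open Finset MeasureTheory
open Pool.Agent.H91.PK (ee)
open Pool.Agent.H35.W

/-- the product of the primes up to `P` -/
private def RgI_q (P : ℕ) : ℕ := ∏ p ∈ Pool.Agent.H35.V1.PPr 0 P, p

private theorem RgI_primeFactors (P : ℕ) :
    (RgI_q P).primeFactors = Pool.Agent.H35.V1.PPr 0 P := by
  unfold RgI_q
  exact Nat.primeFactors_prod fun p hp => (Pool.Agent.H35.V1.mem_PPr.1 hp).2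

private theorem RgI_q_ne (P : ℕ) : RgI_q P ≠ 0 := by
  unfold RgI_q
  rw [prod_ne_zero_iff]
  intro p hp
  exact (Pool.Agent.H35.V1.mem_PPr.1 hp).2.ne_zero

private theorem RgI_ratio (P : ℕ) : ((RgI_q P : ℕ) : ℝ) / (RgI_q P).totient =
    ∏ p ∈ Pool.Agent.H35.V1.PPr 0 P, (1 + 1 / ((p : ℝ) - 1)) := by
  have h := Pool.Agent.H87.WL.gl_tot (RgI_q P) (RgI_q_ne P)
  rw [← h, RgI_primeFactors]
  have h1 : (Pool.Agent.H35.V1.PPr 0 P).filter (fun p => p.Prime) =
      Pool.Agent.H35.V1.PPr 0 P :=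
    filter_true_of_mem fun p hp => (Pool.Agent.H35.V1.mem_PPr.1 hp).2
  rw [h1]
  refine prod_congr rfl fun p hp => ?_
  have hp2 : (1 : ℝ) < p := by
    exact_mod_cast (Pool.Agent.H35.V1.mem_PPr.1 hp).2.one_lt
  rw [Pool.Agent.H87.WL.gl_inv_apply]
  have h2 : (p : ℝ) ≠ 0 := by linarith
  have h3 : (p : ℝ) - 1 ≠ 0 := by linarith
  field_simp
  ring

private theorem RgI_mertens : ∃ C : ℝ, 0 < C ∧ ∀ P : ℕ, 2 ≤ P →
    ((RgI_q P : ℕ) : ℝ) / (RgI_q P).totient ≤ C * Real.log P := by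
  obtain ⟨C, hC, hM⟩ := Pool.Agent.H35.V1.exists_mertens_prod
  have hl2 : 0 < Real.log 2 := Real.log_pos (by norm_num)
  have hl3 : 0 < Real.log 3 := Real.log_pos (by norm_num)
  refine ⟨3 * C / Real.log 3 + 2 / Real.log 2, by positivity, fun P hP => ?_⟩
  rw [RgI_ratio]
  have hlP : 0 < Real.log P := Real.log_pos (by exact_mod_cast (by omega : 1 < P))
  rcases Nat.lt_or_ge P 3 with h | h
  · have h2 : P = 2 := by omega
    subst h2
    have e : Pool.Agent.H35.V1.PPr 0 2 = {2} := by decide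
    rw [e, prod_singleton]
    have h3 : (2 / Real.log 2) * Real.log ((2 : ℕ) : ℝ) = 2 := by
      push_cast
      field_simp
    have h4 : 0 ≤ 3 * C / Real.log 3 * Real.log ((2 : ℕ) : ℝ) := by positivity
    rw [add_mul, h3]
    push_cast
    push_cast at h4
    linarith
  · have e : Pool.Agent.H35.V1.PPr 0 P = Pool.Agent.H35.V1.PPr 0 3 ∪
        Pool.Agent.H35.V1.PPr 3 P := by
      ext p
      rw [mem_union, Pool.Agent.H35.V1.mem_PPr, Pool.Agent.H35.V1.mem_PPr,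
        Pool.Agent.H35.V1.mem_PPr]
      constructor
      · rintro ⟨⟨h1, h2⟩, h3⟩
        rcases Nat.lt_or_ge 3 p with h4 | h4
        · exact Or.inr ⟨⟨h4, h2⟩, h3⟩
        · exact Or.inl ⟨⟨h1, h4⟩, h3⟩
      · rintro (⟨⟨h1, h2⟩, h3⟩ | ⟨⟨h1, h2⟩, h3⟩)
        · exact ⟨⟨h1, h2.trans h⟩, h3⟩
        · exact ⟨⟨by omega, h2⟩, h3⟩
    have hd : Disjoint (Pool.Agent.H35.V1.PPr 0 3) (Pool.Agent.H35.V1.PPr 3 P) := by
      rw [disjoint_left]
      intro p h1 h2
      rw [Pool.Agent.H35.V1.mem_PPr] at h1 h2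
      omega
    rw [e, prod_union hd]
    have e3 : Pool.Agent.H35.V1.PPr 0 3 = {2, 3} := by decide
    have e4 : ∏ p ∈ Pool.Agent.H35.V1.PPr 0 3, (1 + 1 / ((p : ℝ) - 1)) = 3 := by
      rw [e3, prod_pair (by norm_num)]
      norm_num
    rw [e4]
    have h5 := hM 3 P le_rfl h
    have h6 : 0 ≤ 2 / Real.log 2 * Real.log P := by positivity
    rw [add_mul]
    have h7 : 3 * (C * (Real.log P / Real.log ((3 : ℕ) : ℝ))) =
        3 * C / Real.log 3 * Real.log P := by
      push_cast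
      field_simp
    calc 3 * ∏ p ∈ Pool.Agent.H35.V1.PPr 3 P, (1 + 1 / ((p : ℝ) - 1))
        ≤ 3 * (C * (Real.log P / Real.log ((3 : ℕ) : ℝ))) :=
          mul_le_mul_of_nonneg_left h5 (by norm_num)
      _ = 3 * C / Real.log 3 * Real.log P := h7
      _ ≤ _ := by linarith

private theorem RgI_e_eq (t : ℝ) : Pool.Agent.H92.EH.e t = ee t := by
  unfold Pool.Agent.H92.EH.e ee
  congr 1
  push_cast
  ring

/-- Ramanujan sums at coprime arguments -/
private theorem RgI_ram (l n : ℕ) (hl : 0 < l) (h : Nat.Coprime n l) :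
    ∑ b ∈ (Icc 1 l).filter (fun b => Nat.Coprime b l), ee ((n : ℝ) * b / l) =
      ((ArithmeticFunction.moebius l : ℤ) : ℂ) := by
  have h1 := Pool.Agent.H92.EH.ram_of_coprime l hl (n : ℤ) (Nat.isCoprime_iff_coprime.2 h)
  rw [← h1]
  unfold Pool.Agent.H92.EH.ram
  rcases Nat.lt_or_ge 1 l with h2 | h2
  · have e : (Icc 1 l).filter (fun b => Nat.Coprime b l) = Pool.Agent.H92.EH.red l := by
      ext b
      rw [mem_filter, mem_Icc, Pool.Agent.H92.EH.mem_red]
      constructor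
      · rintro ⟨⟨h3, h4⟩, h5⟩
        refine ⟨lt_of_le_of_ne h4 ?_, h5⟩
        rintro rfl
        rw [Nat.coprime_self] at h5
        omega
      · rintro ⟨h3, h4⟩
        refine ⟨⟨?_, h3.le⟩, h4⟩
        by_contra h5
        have h6 : b = 0 := by omega
        subst h6
        rw [Nat.coprime_zero_left] at h4
        omega
    rw [e]
    refine sum_congr rfl fun b _ => ?_
    rw [RgI_e_eq]
    congr 1
    push_cast
    ring
  · have h3 : l = 1 := by omega
    subst h3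
    have e1 : (Icc 1 1).filter (fun b => Nat.Coprime b 1) = {1} := by decide
    have e2 : Pool.Agent.H92.EH.red 1 = {0} := by decide
    rw [e1, e2, sum_singleton, sum_singleton, RgI_e_eq]
    have h4 : ee ((n : ℝ) * ((1 : ℕ) : ℝ) / ((1 : ℕ) : ℝ)) = 1 := by
      unfold ee
      rw [Complex.exp_eq_one_iff]
      exact ⟨n, by push_cast; ring⟩
    have h5 : ee (((n : ℤ) : ℝ) * (((0 : ℕ) : ℝ) / ((1 : ℕ) : ℝ))) = 1 := by
      unfold ee
      rw [Complex.exp_eq_one_iff]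
      exact ⟨0, by push_cast; ring⟩
    rw [h4, h5]

/-- a prime in `(P, P 2^J]` lies in a block -/
private theorem RgI_block (P J p : ℕ) (hp : p.Prime) (h1 : P < p) (h2 : p ≤ P * 2 ^ J) :
    ∃ i < J, p ∈ pb (P * 2 ^ i) := by
  induction J with
  | zero =>
    rw [pow_zero, mul_one] at h2
    omega
  | succ J ih =>
    by_cases h3 : p ≤ P * 2 ^ J
    · obtain ⟨i, hi, h4⟩ := ih h3
      exact ⟨i, by omega, h4⟩
    · refine ⟨J, by omega, ?_⟩
      unfold pb
      rw [mem_filter, mem_Ioc]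
      refine ⟨⟨by omega, ?_⟩, hp⟩
      rw [pow_succ] at h2
      linarith [h2]

private theorem RgI_coprime (P J n l : ℕ) (hn : Rk P J n) (hl0 : 0 < l) (hl : l ≤ P * 2 ^ J)
    (hc : Nat.Coprime l (RgI_q P)) : Nat.Coprime n l := by
  rw [Nat.coprime_comm]
  refine Nat.Coprime.symm ?_
  refine Nat.Coprime.symm (Nat.coprime_of_dvd ?_)
  intro p hp hpl hpn
  have h1 : P < p := by
    by_contra hcon
    have h2 : p ∣ RgI_q P := by
      unfold RgI_q
      refine dvd_prod_of_mem _ ?_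
      rw [Pool.Agent.H35.V1.mem_PPr]
      exact ⟨⟨hp.pos, by omega⟩, hp⟩
    have h3 := Nat.eq_one_of_dvd_coprimes hc hpl h2
    exact hp.one_lt.ne' h3
  obtain ⟨i, hi, h4⟩ := RgI_block P J p hp h1 ((Nat.le_of_dvd hl0 hpl).trans hl)
  exact hn i hi p h4 hpn

private theorem RgI_term (P J l : ℕ) (T : Finset ℕ) (hT : ∀ n ∈ T, Rk P J n) (hl0 : 0 < l)
    (hl : l ≤ P * 2 ^ J) (hc : Nat.Coprime l (RgI_q P)) :
    Pool.Agent.H87.WL.mo l ^ 2 / (l.totient : ℝ) * (T.card : ℝ) ^ 2 ≤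
      ∑ b ∈ (Icc 1 l).filter (fun b => Nat.Coprime b l),
        ‖∑ n ∈ T, ee ((n : ℝ) * b / l)‖ ^ 2 := by
  have hφ : (0 : ℝ) < l.totient := by exact_mod_cast Nat.totient_pos.2 hl0
  have h1 : ∑ b ∈ (Icc 1 l).filter (fun b => Nat.Coprime b l),
      ∑ n ∈ T, ee ((n : ℝ) * b / l) = (T.card : ℂ) * ((ArithmeticFunction.moebius l : ℤ) : ℂ) := by
    rw [sum_comm, sum_congr rfl fun n hn => RgI_ram l n hl0
      (RgI_coprime P J n l (hT n hn) hl0 hl hc), sum_const, nsmul_eq_mul]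
  have h2 : ‖(T.card : ℂ) * ((ArithmeticFunction.moebius l : ℤ) : ℂ)‖ =
      (T.card : ℝ) * |Pool.Agent.H87.WL.mo l| := by
    rw [norm_mul, Complex.norm_natCast, Complex.norm_intCast]
    rfl
  have h3 : (T.card : ℝ) * |Pool.Agent.H87.WL.mo l| ≤
      ∑ b ∈ (Icc 1 l).filter (fun b => Nat.Coprime b l), ‖∑ n ∈ T, ee ((n : ℝ) * b / l)‖ := by
    rw [← h2, ← h1]
    exact norm_sum_le _ _
  have h4 := sq_sum_le_card_mul_sum_sq (s := (Icc 1 l).filter (fun b => Nat.Coprime b l))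
    (f := fun b => ‖∑ n ∈ T, ee ((n : ℝ) * b / l)‖)
  have h5 : (((Icc 1 l).filter (fun b => Nat.Coprime b l)).card : ℝ) = l.totient := by
    congr 1
    rw [Nat.totient_eq_card_coprime]
    rcases Nat.lt_or_ge 1 l with h2 | h2
    · apply congrArg card
      ext b
      rw [mem_filter, mem_Icc, mem_filter, mem_range, Nat.coprime_comm]
      constructor
      · rintro ⟨⟨h3, h4⟩, h5⟩
        refine ⟨lt_of_le_of_ne h4 ?_, h5⟩
        rintro rfl
        rw [Nat.coprime_self] at h5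
        omega
      · rintro ⟨h3, h4⟩
        refine ⟨⟨?_, h3.le⟩, h4⟩
        by_contra h5
        have h6 : b = 0 := by omega
        subst h6
        rw [Nat.coprime_zero_right] at h4
        omega
    · have h3 : l = 1 := by omega
      subst h3
      decide
  rw [h5] at h4
  have h6 : ((T.card : ℝ) * |Pool.Agent.H87.WL.mo l|) ^ 2 ≤
      (∑ b ∈ (Icc 1 l).filter (fun b => Nat.Coprime b l),
        ‖∑ n ∈ T, ee ((n : ℝ) * b / l)‖) ^ 2 :=
    pow_le_pow_left₀ (by positivity) h3 2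
  rw [mul_pow, sq_abs] at h6
  rw [div_mul_eq_mul_div, div_le_iff₀ hφ]
  calc Pool.Agent.H87.WL.mo l ^ 2 * (T.card : ℝ) ^ 2
      = (T.card : ℝ) ^ 2 * Pool.Agent.H87.WL.mo l ^ 2 := by ring
    _ ≤ _ := h6.trans h4
    _ = _ := by ring

private theorem RgI_main (P J K0 K : ℕ) (T : Finset ℕ) (hT : ∀ n ∈ T, Rk P J n)
    (hTs : T ⊆ Ioc K0 (K0 + K)) :
    (T.card : ℝ) * Pool.Agent.H87.WL.Gs (P * 2 ^ J) (RgI_q P) ≤
      ((P * 2 ^ J : ℕ) : ℝ) ^ 2 + Real.pi * K := by
  rcases Nat.eq_zero_or_pos T.card with h0 | h0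
  · rw [h0, Nat.cast_zero, zero_mul]
    positivity
  have hc0 : (0 : ℝ) < T.card := by exact_mod_cast h0
  have h1 := Pool.Agent.H91.PK.additive_ls (P * 2 ^ J) K0 K (fun n => if n ∈ T then 1 else 0)
  have h2 : ∀ t : ℕ → ℂ, ∑ n ∈ Ioc K0 (K0 + K), (if n ∈ T then (1 : ℂ) else 0) * t n =
      ∑ n ∈ T, t n := by
    intro t
    rw [← sum_filter_add_sum_filter_not (Ioc K0 (K0 + K)) (fun n => n ∈ T)]
    have e1 : (Ioc K0 (K0 + K)).filter (fun n => n ∈ T) = T := by
      ext n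
      rw [mem_filter]
      exact ⟨fun h => h.2, fun h => ⟨hTs h, h⟩⟩
    rw [e1]
    have e2 : ∑ n ∈ (Ioc K0 (K0 + K)).filter (fun n => ¬ n ∈ T),
        (if n ∈ T then (1 : ℂ) else 0) * t n = 0 := by
      refine sum_eq_zero fun n hn => ?_
      rw [if_neg (mem_filter.1 hn).2, zero_mul]
    rw [e2, add_zero]
    refine sum_congr rfl fun n hn => ?_
    rw [if_pos hn, one_mul]
  have h3 : ∑ n ∈ Ioc K0 (K0 + K), ‖(if n ∈ T then (1 : ℂ) else 0)‖ ^ 2 = (T.card : ℝ) := by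
    have e1 : ∀ n, ‖(if n ∈ T then (1 : ℂ) else 0)‖ ^ 2 = if n ∈ T then (1 : ℝ) else 0 := by
      intro n
      split_ifs <;> simp
    simp only [e1]
    rw [← sum_filter]
    have e2 : (Ioc K0 (K0 + K)).filter (fun n => n ∈ T) = T := by
      ext n
      rw [mem_filter]
      exact ⟨fun h => h.2, fun h => ⟨hTs h, h⟩⟩
    rw [e2, sum_const, nsmul_eq_mul, mul_one]
  rw [h3] at h1
  simp only [h2] at h1
  have h4 : Pool.Agent.H87.WL.Gs (P * 2 ^ J) (RgI_q P) * (T.card : ℝ) ^ 2 ≤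
      (((P * 2 ^ J : ℕ) : ℝ) ^ 2 + Real.pi * K) * T.card := by
    refine le_trans ?_ h1
    unfold Pool.Agent.H87.WL.Gs
    rw [sum_mul]
    refine le_trans (sum_le_sum (g := fun l : ℕ =>
      ∑ b ∈ (Icc 1 l).filter (fun b => Nat.Coprime b l),
        ‖∑ n ∈ T, ee ((n : ℝ) * b / l)‖ ^ 2) fun l hl => ?_) ?_
    · rw [mem_filter, mem_Icc] at hl
      exact RgI_term P J l T hT (by omega) hl.1.2 hl.2
    · refine sum_le_sum_of_subset_of_nonneg (filter_subset _ _) fun l _ _ => ?_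
      exact sum_nonneg fun b _ => by positivity
  have h5 : (T.card : ℝ) * ((T.card : ℝ) * Pool.Agent.H87.WL.Gs (P * 2 ^ J) (RgI_q P)) ≤
      T.card * (((P * 2 ^ J : ℕ) : ℝ) ^ 2 + Real.pi * K) := by
    calc _ = Pool.Agent.H87.WL.Gs (P * 2 ^ J) (RgI_q P) * (T.card : ℝ) ^ 2 := by ring
      _ ≤ _ := h4
      _ = _ := by ring
  exact le_of_mul_le_mul_left h5 hc0

open Classical in
theorem rg_int : ∃ C : ℝ, 0 < C ∧ ∀ P J a h : ℕ, 2 ≤ P → (P * 2 ^ J) ^ 4 ≤ h →
    (((Ico a (a + h)).filter (fun n => Rk P J n)).card : ℝ)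
      ≤ C * h * Real.log P / Real.log ((P * 2 ^ J : ℕ) : ℝ) := by
  obtain ⟨C, hC, hM⟩ := RgI_mertens
  refine ⟨5 * C + 2, by positivity, fun P J a h hP hh => ?_⟩
  set D : ℕ := P * 2 ^ J with hD
  have hD2 : 2 ≤ D := hP.trans (Nat.le_mul_of_pos_right P (by positivity))
  have hlP : 0 < Real.log P := Real.log_pos (by exact_mod_cast (by omega : 1 < P))
  have hlD : 0 < Real.log D := Real.log_pos (by exact_mod_cast (by omega : 1 < D))
  have hDh2 : D ^ 2 ≤ h := (Nat.pow_le_pow_right (by omega) (by norm_num)).trans hh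
  have hDh : D ≤ h := (Nat.le_self_pow (by norm_num) D).trans hh
  set T : Finset ℕ := (Ioc (a - 1) (a - 1 + h)).filter (fun n => Rk P J n) with hT
  have hmain := RgI_main P J (a - 1) h T (fun n hn => (mem_filter.1 hn).2) (filter_subset _ _)
  rw [← hD] at hmain
  have hcard : ((Ico a (a + h)).filter (fun n => Rk P J n)).card ≤ T.card + 1 := by
    have hsub : (Ico a (a + h)).filter (fun n => Rk P J n) ⊆ insert 0 T := by
      intro n hn
      rw [mem_filter, mem_Ico] at hn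
      rw [mem_insert, hT, mem_filter, mem_Ioc]
      rcases Nat.eq_zero_or_pos n with h0 | h0
      · exact Or.inl h0
      · exact Or.inr ⟨⟨by omega, by omega⟩, hn.2⟩
    exact (card_le_card hsub).trans (card_insert_le _ _)
  have hGs := Pool.Agent.H87.WL.gs_ge D (RgI_q P) (Nat.one_le_iff_ne_zero.2 (RgI_q_ne P))
  have hq := hM P hP
  have hq0 : (0 : ℝ) < RgI_q P := by exact_mod_cast Nat.pos_of_ne_zero (RgI_q_ne P)
  have hφ0 : (0 : ℝ) < (RgI_q P).totient := by
    exact_mod_cast Nat.totient_pos.2 (Nat.pos_of_ne_zero (RgI_q_ne P))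
  have hlD1 : Real.log D ≤ Real.log (D + 1) :=
    Real.log_le_log (by exact_mod_cast (by omega : 0 < D)) (by linarith)
  have h1 : Real.log D ≤ C * Real.log P * Pool.Agent.H87.WL.Gs D (RgI_q P) := by
    have h2 : 0 ≤ Pool.Agent.H87.WL.Gs D (RgI_q P) := by
      refine le_trans ?_ hGs
      have : 0 ≤ Real.log ((D : ℝ) + 1) := by linarith
      positivity
    calc Real.log D ≤ Real.log (D + 1) := hlD1
      _ = ((RgI_q P : ℕ) : ℝ) / (RgI_q P).totient *
          (((RgI_q P).totient : ℝ) / RgI_q P * Real.log (D + 1)) := by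
        field_simp
      _ ≤ ((RgI_q P : ℕ) : ℝ) / (RgI_q P).totient * Pool.Agent.H87.WL.Gs D (RgI_q P) :=
        mul_le_mul_of_nonneg_left hGs (by positivity)
      _ ≤ _ := mul_le_mul_of_nonneg_right hq h2
  have h2 : (T.card : ℝ) * Pool.Agent.H87.WL.Gs D (RgI_q P) ≤ 5 * h := by
    have h3 : ((D : ℕ) : ℝ) ^ 2 ≤ h := by exact_mod_cast hDh2
    have h4 := Real.pi_le_four
    have h5 : Real.pi * (h : ℝ) ≤ 4 * h := mul_le_mul_of_nonneg_right h4 (Nat.cast_nonneg h)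
    linarith
  have h3 : (T.card : ℝ) * Real.log D ≤ 5 * C * h * Real.log P := by
    calc (T.card : ℝ) * Real.log D
        ≤ T.card * (C * Real.log P * Pool.Agent.H87.WL.Gs D (RgI_q P)) :=
          mul_le_mul_of_nonneg_left h1 (Nat.cast_nonneg _)
      _ = C * Real.log P * ((T.card : ℝ) * Pool.Agent.H87.WL.Gs D (RgI_q P)) := by ring
      _ ≤ C * Real.log P * (5 * h) := mul_le_mul_of_nonneg_left h2 (by positivity)
      _ = _ := by ring
  have h4 : Real.log D ≤ 2 * h * Real.log P := by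
    have h5 : Real.log D ≤ D := (Real.log_le_self (Nat.cast_nonneg D))
    have h6 : (D : ℝ) ≤ h := by exact_mod_cast hDh
    have h7 : Real.log 2 ≤ Real.log P :=
      Real.log_le_log (by norm_num) (by exact_mod_cast hP)
    have h8 := Real.log_two_gt_d9
    have h9 : (0 : ℝ) ≤ h := Nat.cast_nonneg h
    nlinarith
  rw [le_div_iff₀ hlD]
  have h5 : (((Ico a (a + h)).filter (fun n => Rk P J n)).card : ℝ) ≤ T.card + 1 := by
    exact_mod_cast hcard
  calc (((Ico a (a + h)).filter (fun n => Rk P J n)).card : ℝ) * Real.log D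
      ≤ (T.card + 1) * Real.log D := mul_le_mul_of_nonneg_right h5 hlD.le
    _ = T.card * Real.log D + Real.log D := by ring
    _ ≤ 5 * C * h * Real.log P + 2 * h * Real.log P := add_le_add h3 h4
    _ = _ := by ring

end Pool.Agent.H76.MU

end

section

/-!
# LM DecW: the error of the decomposition in every window

Proof.  `D = P1 2^J`, `W = Win x H` lies in an interval `Ico a (a + h)` of `h ≤ 2 H` consecutive integers `≥ 1` (`h = ⌈H⌉₊ + 1`), and has at most `H + 1 ≤ 2H` elements; every `m ≥ 1` has at most `H/m + 1` multiples in `W`.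
(a) `Fr P1 D n`: `rg_int` (`H76/MU/RgI.lean`; `Rk P J n` there = no prime factor in `(P, P 2^J]`): `≤ 2 C H log P1/log D`.
(b) `rP (rP - 1) = #{(p,p') : p ≠ p' primes of (P,2P], p ∣ n, p' ∣ n}`, then `p p' ∣ n`: the sum over `n ∈ W` is `≤ ∑_{p,p'} (H/(p p') + 1) ≤ H (∑_{p ∈ pb P} 1/p)^2 + P^2`; `∑_{p ∈ pb P} 1/p ≤ C/log P` (Chebyshev: `#(pb P) ≤ C P/log P`; e.g. from `primorial_le_4_pow` or Mertens).
 `∑_{j<J} 1/(log P1 + j log 2)^2 ≤ C/log P1`, `∑_j P_j^2 ≤ D^2 ≤ H^{1/2}`.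
(c) `∑_{P1 < p ≤ D} (H/p^2 + 1) ≤ H/P1 + D`.
All terms are `≤ C H log P1/log D`: `1/log P1 ≤ log P1/log D` as `log D ≤ (log P1)^2`; `1/P1 ≤ 1/log P1`; `D^2 + D ≤ 2 H^{1/2} ≤ 2H/log D ≤ C H log P1/log D` (`log D ≤ log H ≤ 4 H^{1/4}`..).
-/

set_option autoImplicit false

namespace Pool.Agent.H43.LM

open Finset
open Pool.Agent.H35.W (pb Rk)

/-- multiples in an interval -/
private theorem DecW_mul (a h m : ℕ) (hm : 1 ≤ m) :
    (((Ico a (a + h)).filter (fun n => m ∣ n)).card : ℝ) ≤ (h : ℝ) / m + 1 := by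
  have h1 : ((Ico a (a + h)).filter (fun n => m ∣ n)).card
      ≤ (Ico ((a + m - 1) / m) ((a + h + m - 1) / m)).card := by
    refine card_le_card_of_injOn (fun n => n / m) ?_ ?_
    · intro n hn
      simp only [coe_filter, mem_Ico, Set.mem_ofPred_eq] at hn
      obtain ⟨⟨h1, h2⟩, k, rfl⟩ := hn
      simp only [coe_Ico, Set.mem_Ico]
      rw [Nat.mul_div_cancel_left k (by omega)]
      constructor
      · rw [← Nat.lt_succ_iff, Nat.div_lt_iff_lt_mul (by omega)]
        have : (k + 1) * m = m * k + m := by ring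
        rw [Nat.succ_eq_add_one, this]
        omega
      · rw [Nat.lt_iff_add_one_le, Nat.le_div_iff_mul_le (by omega)]
        have : (k + 1) * m = m * k + m := by ring
        rw [this]
        omega
    · intro n hn n' hn' he
      simp only [coe_filter, mem_Ico, Set.mem_ofPred_eq] at hn hn'
      obtain ⟨-, k, rfl⟩ := hn
      obtain ⟨-, k', rfl⟩ := hn'
      simp only at he
      rw [Nat.mul_div_cancel_left k (by omega), Nat.mul_div_cancel_left k' (by omega)] at he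
      rw [he]
  rw [Nat.card_Ico] at h1
  have hm0 : (0 : ℝ) < m := by exact_mod_cast hm
  have e1 : (((a + h + m - 1) / m : ℕ) : ℝ) ≤ ((a + h + m - 1 : ℕ) : ℝ) / m := Nat.cast_div_le
  have e2 : ((a + m - 1 : ℕ) : ℝ) / m ≤ (((a + m - 1) / m : ℕ) : ℝ) + 1 := by
    rw [div_le_iff₀ hm0]
    have e3 := Nat.div_add_mod (a + m - 1) m
    have e4 := Nat.mod_lt (a + m - 1) (show 0 < m by omega)
    have e5 : a + m - 1 ≤ ((a + m - 1) / m + 1) * m := by
      have : ((a + m - 1) / m + 1) * m = m * ((a + m - 1) / m) + m := by ring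
      rw [this]
      omega
    exact_mod_cast e5
  have e6 : ((a + h + m - 1 : ℕ) : ℝ) = ((a + m - 1 : ℕ) : ℝ) + h := by
    have : a + h + m - 1 = (a + m - 1) + h := by omega
    rw [this]
    push_cast
    ring
  rw [e6, add_div] at e1
  have e7 : (((Ico a (a + h)).filter (fun n => m ∣ n)).card : ℝ)
      ≤ (((a + h + m - 1) / m - (a + m - 1) / m : ℕ) : ℝ) := by exact_mod_cast h1
  rcases Nat.le_total ((a + m - 1) / m) ((a + h + m - 1) / m) with hle | hle
  · rw [Nat.cast_sub hle] at e7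
    linarith only [e1, e2, e7]
  · rw [Nat.sub_eq_zero_of_le hle] at e7
    have : (0 : ℝ) ≤ (h : ℝ) / m := by positivity
    push_cast at e7
    linarith only [this, e7]

private theorem DecW_win (x H : ℝ) :
    Win x H ⊆ Ico ⌈x - H / 2⌉₊ (⌈x - H / 2⌉₊ + ⌈H⌉₊) := by
  intro n hn
  unfold Win at hn
  rw [mem_filter, abs_lt] at hn
  obtain ⟨-, h1, h2⟩ := hn
  rw [mem_Ico]
  refine ⟨Nat.ceil_le.2 (by linarith only [h1]), ?_⟩
  have h3 := Nat.le_ceil (x - H / 2)
  have h4 := Nat.le_ceil H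
  have h5 : (n : ℝ) < (⌈x - H / 2⌉₊ : ℝ) + (⌈H⌉₊ : ℝ) := by linarith only [h2, h3, h4]
  exact_mod_cast h5

/-- Chebyshev -/
private theorem DecW_cheb (P : ℕ) (hP : 1 ≤ P) : ((pb P).card : ℝ) * Real.log P ≤ 3 * P := by
  have h1 := Chebyshev.theta_le_log4_mul_x (x := ((2 * P : ℕ) : ℝ)) (Nat.cast_nonneg _)
  unfold Chebyshev.theta at h1
  rw [Nat.floor_natCast] at h1
  have h2 : ∑ p ∈ pb P, Real.log P ≤ ∑ p ∈ (Ioc 0 (2 * P)).filter Nat.Prime, Real.log (p : ℝ) := by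
    have h3 : ∑ p ∈ pb P, Real.log P ≤ ∑ p ∈ pb P, Real.log (p : ℝ) := by
      refine sum_le_sum fun p hp => ?_
      unfold pb at hp
      rw [mem_filter, mem_Ioc] at hp
      exact Real.log_le_log (by exact_mod_cast hP) (by exact_mod_cast hp.1.1.le)
    refine h3.trans (sum_le_sum_of_subset_of_nonneg ?_ fun p hp _ => ?_)
    · intro p hp
      unfold pb at hp
      rw [mem_filter, mem_Ioc] at hp ⊢
      exact ⟨⟨by omega, hp.1.2⟩, hp.2⟩
    · rw [mem_filter, mem_Ioc] at hp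
      exact Real.log_nonneg (by exact_mod_cast hp.1.1)
  rw [sum_const, nsmul_eq_mul] at h2
  have h4 : Real.log 4 ≤ 3 / 2 := by
    have : Real.log 4 = 2 * Real.log 2 := by
      rw [show (4 : ℝ) = 2 ^ 2 by norm_num, Real.log_pow]
      norm_num
    rw [this]
    have := Real.log_two_lt_d9
    linarith only [this]
  have h5 : (0 : ℝ) ≤ P := by positivity
  push_cast at h1
  nlinarith only [h2, h1, h4]

/-- the telescoping sum -/
private theorem DecW_tel (l : ℝ) (hl : 1 ≤ l) (J : ℕ) :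
    ∑ j ∈ range J, 1 / (l + j * Real.log 2) ^ 2 ≤ 4 / l := by
  have h2 := Real.log_two_gt_d9
  have h3 := Real.log_two_lt_d9
  have key : ∑ j ∈ range J, 1 / (l + j * Real.log 2) ^ 2 ≤ 4 / l - 4 / (l + J * Real.log 2) := by
    induction J with
    | zero => simp
    | succ J ih =>
      rw [sum_range_succ]
      have h0 : (0 : ℝ) ≤ (J : ℝ) * Real.log 2 := by positivity
      have hy : 1 ≤ l + J * Real.log 2 := by linarith only [hl, h0]
      have e1 : 1 / (l + J * Real.log 2) ^ 2 ≤ 4 / (l + J * Real.log 2) - 4 / (l + ((J + 1 : ℕ) : ℝ) * Real.log 2) := by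
        have e2 : l + ((J + 1 : ℕ) : ℝ) * Real.log 2 = (l + J * Real.log 2) + Real.log 2 := by
          push_cast
          ring
        rw [e2]
        generalize l + J * Real.log 2 = y at hy
        have hy0 : 0 < y := by linarith only [h2, h3, hy]
        have hy1 : 0 < y + Real.log 2 := by linarith only [h2, h3, hy]
        rw [div_sub_div _ _ hy0.ne' hy1.ne', div_le_div_iff₀ (by positivity) (by positivity)]
        have e3 : y + Real.log 2 ≤ 4 * Real.log 2 * y := by nlinarith only [h3, hy, h2]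
        nlinarith only [e3, hy0, mul_le_mul_of_nonneg_left e3 hy0.le]
      linarith only [ih, e1]
  refine key.trans ?_
  have h0 : (0 : ℝ) ≤ (J : ℝ) * Real.log 2 := by positivity
  have : 0 ≤ 4 / (l + J * Real.log 2) := by positivity
  linarith only [this]

/-- pairs of primes -/
private theorem DecW_pairs (P a h : ℕ) (hP : 1 ≤ P) :
    ∑ n ∈ Ico a (a + h), rP P n * (rP P n - 1) ≤ ((pb P).card : ℝ) ^ 2 * ((h : ℝ) / (P : ℝ) ^ 2 + 1) := by
  have h1 : ∀ n, rP P n * (rP P n - 1) = ∑ t ∈ (pb P).offDiag, if t.1 ∣ n ∧ t.2 ∣ n then (1 : ℝ) else 0 := by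
    intro n
    have e1 : ∑ t ∈ (pb P).offDiag, (if t.1 ∣ n ∧ t.2 ∣ n then (1 : ℝ) else 0)
        = (((pb P).filter (fun p => p ∣ n)).offDiag.card : ℝ) := by
      rw [← sum_filter, sum_const, nsmul_eq_mul, mul_one]
      have : (pb P).offDiag.filter (fun t => t.1 ∣ n ∧ t.2 ∣ n) = ((pb P).filter (fun p => p ∣ n)).offDiag := by
        ext t
        simp only [mem_filter, mem_offDiag]
        tauto
      rw [this]
    rw [e1, offDiag_card, Nat.cast_sub (Nat.le_mul_self _)]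
    unfold rP
    push_cast
    ring
  have h2 : ∑ n ∈ Ico a (a + h), rP P n * (rP P n - 1)
      = ∑ t ∈ (pb P).offDiag, ∑ n ∈ Ico a (a + h), if t.1 ∣ n ∧ t.2 ∣ n then (1 : ℝ) else 0 := by
    rw [sum_comm]
    exact sum_congr rfl fun n _ => h1 n
  rw [h2]
  have hP0 : (0 : ℝ) < P := by exact_mod_cast hP
  have h3 : ∀ t ∈ (pb P).offDiag, ∑ n ∈ Ico a (a + h), (if t.1 ∣ n ∧ t.2 ∣ n then (1 : ℝ) else 0)
      ≤ (h : ℝ) / (P : ℝ) ^ 2 + 1 := by
    intro t ht
    rw [mem_offDiag] at ht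
    obtain ⟨ht1, ht2, ht3⟩ := ht
    unfold pb at ht1 ht2
    rw [mem_filter, mem_Ioc] at ht1 ht2
    have hc : Nat.Coprime t.1 t.2 := (Nat.coprime_primes ht1.2 ht2.2).2 ht3
    rw [← sum_filter, sum_const, nsmul_eq_mul, mul_one]
    have h4 : ((Ico a (a + h)).filter (fun n => t.1 ∣ n ∧ t.2 ∣ n)).card
        ≤ ((Ico a (a + h)).filter (fun n => t.1 * t.2 ∣ n)).card := by
      refine card_le_card fun n hn => ?_
      rw [mem_filter] at hn ⊢
      exact ⟨hn.1, hc.mul_dvd_of_dvd_of_dvd hn.2.1 hn.2.2⟩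
    have h5 := DecW_mul a h (t.1 * t.2) (Nat.mul_pos ht1.2.pos ht2.2.pos)
    have h6 : (h : ℝ) / ((t.1 * t.2 : ℕ) : ℝ) ≤ (h : ℝ) / (P : ℝ) ^ 2 := by
      refine div_le_div_of_nonneg_left (by positivity) (by positivity) ?_
      push_cast
      have e1 : (P : ℝ) ≤ t.1 := by exact_mod_cast ht1.1.1.le
      have e2 : (P : ℝ) ≤ t.2 := by exact_mod_cast ht2.1.1.le
      nlinarith only [e1, e2]
    have h7 : (((Ico a (a + h)).filter (fun n => t.1 ∣ n ∧ t.2 ∣ n)).card : ℝ)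
        ≤ (((Ico a (a + h)).filter (fun n => t.1 * t.2 ∣ n)).card : ℝ) := by exact_mod_cast h4
    linarith only [h5, h6, h7]
  refine (sum_le_sum h3).trans ?_
  rw [sum_const, nsmul_eq_mul]
  refine mul_le_mul_of_nonneg_right ?_ (by positivity)
  have h8 : (pb P).offDiag.card ≤ (pb P).card ^ 2 := by
    rw [offDiag_card, sq]
    exact Nat.sub_le _ _
  exact_mod_cast h8

/-- squares of primes -/
private theorem DecW_sq (P1 D a h : ℕ) (hP1 : 1 ≤ P1) (hD : P1 ≤ D) :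
    ∑ n ∈ Ico a (a + h), ((((Ioc P1 D).filter Nat.Prime).filter (fun p => p ^ 2 ∣ n)).card : ℝ)
      ≤ (h : ℝ) / P1 + D := by
  have h1 : ∀ n, ((((Ioc P1 D).filter Nat.Prime).filter (fun p => p ^ 2 ∣ n)).card : ℝ)
      = ∑ p ∈ (Ioc P1 D).filter Nat.Prime, if p ^ 2 ∣ n then (1 : ℝ) else 0 := by
    intro n
    rw [← sum_filter, sum_const, nsmul_eq_mul, mul_one]
  rw [sum_congr rfl fun n _ => h1 n, sum_comm]
  have h3 : ∀ p ∈ (Ioc P1 D).filter Nat.Prime, ∑ n ∈ Ico a (a + h), (if p ^ 2 ∣ n then (1 : ℝ) else 0)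
      ≤ (h : ℝ) * ((p : ℝ) ^ 2)⁻¹ + 1 := by
    intro p hp
    rw [mem_filter, mem_Ioc] at hp
    rw [← sum_filter, sum_const, nsmul_eq_mul, mul_one]
    have h5 := DecW_mul a h (p ^ 2) (Nat.pos_of_ne_zero (pow_ne_zero 2 hp.2.ne_zero))
    push_cast at h5
    rw [← div_eq_mul_inv]
    exact h5
  refine (sum_le_sum h3).trans ?_
  have h4 : ∑ p ∈ (Ioc P1 D).filter Nat.Prime, ((h : ℝ) * ((p : ℝ) ^ 2)⁻¹ + 1)
      ≤ ∑ p ∈ Ioc P1 D, ((h : ℝ) * ((p : ℝ) ^ 2)⁻¹ + 1) :=
    sum_le_sum_of_subset_of_nonneg (filter_subset _ _) fun p _ _ => by positivity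
  refine h4.trans ?_
  rw [sum_add_distrib, ← mul_sum, sum_const, nsmul_eq_mul, mul_one, Nat.card_Ioc]
  have h6 := sum_Ioc_inv_sq_le_sub (α := ℝ) (k := P1) (n := D) (by omega) hD
  have h7 : ∑ p ∈ Ioc P1 D, ((p : ℝ) ^ 2)⁻¹ ≤ (P1 : ℝ)⁻¹ := by
    have : (0 : ℝ) ≤ (D : ℝ)⁻¹ := by positivity
    linarith only [h6, this]
  have h8 : ((D - P1 : ℕ) : ℝ) ≤ D := by exact_mod_cast Nat.sub_le _ _
  have h9 : (h : ℝ) * ∑ p ∈ Ioc P1 D, ((p : ℝ) ^ 2)⁻¹ ≤ (h : ℝ) * (P1 : ℝ)⁻¹ :=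
    mul_le_mul_of_nonneg_left h7 (by positivity)
  rw [div_eq_mul_inv]
  linarith only [h8, h9]

private theorem DecW_Fr (P1 J n : ℕ) (h : Fr P1 (P1 * 2 ^ J) n) : Rk P1 J n := by
  intro i hi p hp
  unfold pb at hp
  rw [mem_filter, mem_Ioc] at hp
  refine h p hp.2 ?_ ?_
  · have : P1 * 1 ≤ P1 * 2 ^ i := Nat.mul_le_mul_left _ Nat.one_le_two_pow
    omega
  · refine hp.1.2.trans ?_
    have : 2 ^ (i + 1) ≤ 2 ^ J := Nat.pow_le_pow_right (by norm_num) (by omega)
    calc 2 * (P1 * 2 ^ i) = P1 * 2 ^ (i + 1) := by ring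
      _ ≤ P1 * 2 ^ J := Nat.mul_le_mul_left _ this

theorem dec_w : ∃ C : ℝ, 0 < C ∧ ∀ (P1 J : ℕ) (x H : ℝ), 2 ≤ P1 → ((P1 * 2 ^ J : ℕ) : ℝ) ^ 4 ≤ H →
    Real.log ((P1 * 2 ^ J : ℕ) : ℝ) ≤ Real.log P1 ^ 2 → H ≤ x →
    ∑ n ∈ Win x H, er P1 J n ≤ C * H * Real.log P1 / Real.log ((P1 * 2 ^ J : ℕ) : ℝ) := by
  classical
  obtain ⟨C, hC, hR⟩ := Pool.Agent.H76.MU.rg_int
  refine ⟨2 * C + 152, by positivity, fun P1 J x H hP1 hH hlog hHx => ?_⟩
  set D : ℕ := P1 * 2 ^ J with hD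
  have hPD : P1 ≤ D := Nat.le_mul_of_pos_right P1 (by positivity)
  have hD2 : 2 ≤ D := hP1.trans hPD
  have hlP : 0 < Real.log P1 := Real.log_pos (by exact_mod_cast (by omega : 1 < P1))
  have hlD : 0 < Real.log D := Real.log_pos (by exact_mod_cast (by omega : 1 < D))
  have hlPD : Real.log P1 ≤ Real.log D :=
    Real.log_le_log (by exact_mod_cast (by omega : 0 < P1)) (by exact_mod_cast hPD)
  have hl1 : 1 ≤ Real.log P1 := by nlinarith only [hlog, hlPD, hlP]
  have hDr : (2 : ℝ) ≤ D := by exact_mod_cast hD2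
  have hDH4 : (D : ℝ) ^ 4 ≤ H := hH
  have hD1r : (1 : ℝ) ≤ D := by linarith only [hDr]
  have hD4 : (D : ℝ) ≤ (D : ℝ) ^ 4 := by
    calc (D : ℝ) = (D : ℝ) ^ 1 := (pow_one _).symm
      _ ≤ (D : ℝ) ^ 4 := pow_le_pow_right₀ hD1r (by norm_num)
  have hH1 : 1 ≤ H := by linarith only [hH, hDr, hD4]
  set a : ℕ := ⌈x - H / 2⌉₊ with ha
  set h : ℕ := ⌈H⌉₊ with hh
  have hHh : H ≤ h := Nat.le_ceil H
  have hh2 : (h : ℝ) ≤ 2 * H := by
    have := (Nat.ceil_lt_add_one (show 0 ≤ H by linarith only [hH, hDr, hD4])).le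
    rw [← hh] at this
    linarith only [hH, hDr, hD4, this]
  have hDh : D ^ 4 ≤ h := by
    have : ((D ^ 4 : ℕ) : ℝ) ≤ (h : ℝ) := by
      push_cast
      linarith only [hH, hHh]
    exact_mod_cast this
  have hDhr : (D : ℝ) ^ 4 ≤ h := by linarith only [hH, hHh]
  have h0 : (0 : ℝ) ≤ h := by linarith only [hH, hDr, hD4, hHh]
  have hP0 : (0 : ℝ) < P1 := by exact_mod_cast (by omega : 0 < P1)
  have hPDr : (P1 : ℝ) ≤ D := by exact_mod_cast hPD
  -- the ratio
  have hrat : 1 / Real.log P1 ≤ Real.log P1 / Real.log D := by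
    rw [div_le_div_iff₀ hlP hlD]
    nlinarith only [hlog]
  -- extension to the interval
  have hnn1 : ∀ n, (0 : ℝ) ≤ if Fr P1 (P1 * 2 ^ J) n then 1 else 0 := by
    intro n
    split_ifs <;> norm_num
  have hrP : ∀ P n, 0 ≤ rP P n * (rP P n - 1) := by
    intro P n
    unfold rP
    rcases Nat.eq_zero_or_pos ((pb P).filter (fun p => p ∣ n)).card with hz | hz
    · rw [hz]
      norm_num
    · have : (1 : ℝ) ≤ (((pb P).filter (fun p => p ∣ n)).card : ℝ) := by exact_mod_cast hz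
      nlinarith only [this]
  have hnn : ∀ n, 0 ≤ er P1 J n := by
    intro n
    unfold er
    have := hnn1 n
    have h2 : 0 ≤ ∑ j ∈ range J, rP (P1 * 2 ^ j) n * (rP (P1 * 2 ^ j) n - 1) := sum_nonneg fun j _ => hrP _ _
    positivity
  have hext : ∑ n ∈ Win x H, er P1 J n ≤ ∑ n ∈ Ico a (a + h), er P1 J n :=
    sum_le_sum_of_subset_of_nonneg (DecW_win x H) fun n _ _ => hnn n
  refine hext.trans ?_
  unfold er
  rw [sum_add_distrib, sum_add_distrib]
  -- part (a)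
  have hA : ∑ n ∈ Ico a (a + h), (if Fr P1 (P1 * 2 ^ J) n then (1 : ℝ) else 0)
      ≤ 2 * C * (H * (Real.log P1 / Real.log D)) := by
    rw [← sum_filter, sum_const, nsmul_eq_mul, mul_one]
    have e1 : ((Ico a (a + h)).filter (fun n => Fr P1 (P1 * 2 ^ J) n)).card
        ≤ ((Ico a (a + h)).filter (fun n => Rk P1 J n)).card := by
      refine card_le_card fun n hn => ?_
      rw [mem_filter] at hn ⊢
      exact ⟨hn.1, DecW_Fr P1 J n hn.2⟩
    have e2 := hR P1 J a h hP1 hDh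
    have e3 : (((Ico a (a + h)).filter (fun n => Fr P1 (P1 * 2 ^ J) n)).card : ℝ)
        ≤ (((Ico a (a + h)).filter (fun n => Rk P1 J n)).card : ℝ) := by exact_mod_cast e1
    have e4 : C * h * Real.log P1 / Real.log D ≤ 2 * C * (H * (Real.log P1 / Real.log D)) := by
      have : C * h * Real.log P1 / Real.log D = C * (Real.log P1 / Real.log D) * h := by ring
      rw [this]
      have h5 : C * (Real.log P1 / Real.log D) * h ≤ C * (Real.log P1 / Real.log D) * (2 * H) :=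
        mul_le_mul_of_nonneg_left hh2 (by positivity)
      linarith only [h5]
    exact e3.trans (e2.trans e4)
  -- part (b)
  have hB : ∑ n ∈ Ico a (a + h), ∑ j ∈ range J, rP (P1 * 2 ^ j) n * (rP (P1 * 2 ^ j) n - 1)
      ≤ 144 * (H * (Real.log P1 / Real.log D)) := by
    rw [sum_comm]
    have e1 : ∀ j ∈ range J, ∑ n ∈ Ico a (a + h), rP (P1 * 2 ^ j) n * (rP (P1 * 2 ^ j) n - 1)
        ≤ 18 * h * (1 / (Real.log P1 + j * Real.log 2) ^ 2) := by
      intro j hj
      rw [mem_range] at hj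
      set P : ℕ := P1 * 2 ^ j with hP
      have hPP : P1 ≤ P := Nat.le_mul_of_pos_right P1 (by positivity)
      have hPle : P ≤ D := Nat.mul_le_mul_left _ (Nat.pow_le_pow_right (by norm_num) hj.le)
      have hPr : (0 : ℝ) < P := by exact_mod_cast (by omega : 0 < P)
      have hlogP : Real.log P = Real.log P1 + j * Real.log 2 := by
        rw [hP]
        push_cast
        rw [Real.log_mul hP0.ne' (by positivity), Real.log_pow]
      rw [← hlogP]
      have hlp : 0 < Real.log P := Real.log_pos (by exact_mod_cast (by omega : 1 < P))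
      have e2 := DecW_pairs P a h (by omega)
      have e3 := DecW_cheb P (by omega)
      have e4 : ((pb P).card : ℝ) ≤ 3 * P / Real.log P := by
        rw [le_div_iff₀ hlp]
        exact e3
      have e5 : ((pb P).card : ℝ) ^ 2 ≤ (3 * P / Real.log P) ^ 2 :=
        pow_le_pow_left₀ (by positivity) e4 2
      have e6 : (P : ℝ) ^ 2 ≤ h := by
        have e7 : (P : ℝ) ≤ D := by exact_mod_cast hPle
        calc (P : ℝ) ^ 2 ≤ (D : ℝ) ^ 2 := pow_le_pow_left₀ (by positivity) e7 2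
          _ ≤ (D : ℝ) ^ 4 := pow_le_pow_right₀ hD1r (by norm_num)
          _ ≤ h := hDhr
      have e8 : (h : ℝ) / (P : ℝ) ^ 2 + 1 ≤ 2 * h / (P : ℝ) ^ 2 := by
        rw [div_add_one (by positivity)]
        refine div_le_div_of_nonneg_right ?_ (by positivity)
        linarith only [e6]
      calc ∑ n ∈ Ico a (a + h), rP P n * (rP P n - 1)
          ≤ ((pb P).card : ℝ) ^ 2 * ((h : ℝ) / (P : ℝ) ^ 2 + 1) := e2
        _ ≤ (3 * P / Real.log P) ^ 2 * (2 * h / (P : ℝ) ^ 2) :=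
            mul_le_mul e5 e8 (by positivity) (by positivity)
        _ = 18 * h * (1 / Real.log P ^ 2) := by
            field_simp
            ring
    refine (sum_le_sum e1).trans ?_
    rw [← mul_sum]
    have e9 := DecW_tel (Real.log P1) hl1 J
    calc 18 * (h : ℝ) * ∑ j ∈ range J, 1 / (Real.log P1 + j * Real.log 2) ^ 2
        ≤ 18 * (2 * H) * (4 / Real.log P1) :=
          mul_le_mul (by linarith only [hh2]) e9 (sum_nonneg fun j _ => by positivity) (by linarith only [hH, hDr, hD4])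
      _ = 144 * H * (1 / Real.log P1) := by ring
      _ ≤ 144 * H * (Real.log P1 / Real.log D) := mul_le_mul_of_nonneg_left hrat (by linarith only [hH, hDr, hD4])
      _ = _ := by ring
  -- part (c)
  have hCc : ∑ n ∈ Ico a (a + h), ((((Ioc P1 (P1 * 2 ^ J)).filter Nat.Prime).filter (fun p => p ^ 2 ∣ n)).card : ℝ)
      ≤ 4 * (H * (Real.log P1 / Real.log D)) := by
    refine (DecW_sq P1 D a h (by omega) hPD).trans ?_
    have e1 : (D : ℝ) ≤ h / P1 := by
      rw [le_div_iff₀ hP0]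
      calc (D : ℝ) * P1 ≤ (D : ℝ) * D := mul_le_mul_of_nonneg_left hPDr (by linarith only [hDr])
        _ = (D : ℝ) ^ 2 := by ring
        _ ≤ (D : ℝ) ^ 4 := pow_le_pow_right₀ hD1r (by norm_num)
        _ ≤ h := hDhr
    have e2 : (h : ℝ) / P1 ≤ 2 * H * (1 / Real.log P1) := by
      rw [div_eq_mul_one_div]
      refine mul_le_mul hh2 ?_ (by positivity) (by linarith only [hH, hDr, hD4])
      refine one_div_le_one_div_of_le hlP ?_
      have := Real.log_le_sub_one_of_pos hP0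
      linarith only [this]
    have e3 : 2 * H * (1 / Real.log P1) ≤ 2 * H * (Real.log P1 / Real.log D) :=
      mul_le_mul_of_nonneg_left hrat (by linarith only [hH, hDr, hD4])
    linarith only [e1, e2, e3]
  have hfin : (2 * C + 152) * H * Real.log P1 / Real.log D = (2 * C + 152) * (H * (Real.log P1 / Real.log D)) := by
    ring
  rw [hfin]
  have hpos : 0 ≤ H * (Real.log P1 / Real.log D) := by positivity
  have hexp : (2 * C + 152) * (H * (Real.log P1 / Real.log D)) = 2 * C * (H * (Real.log P1 / Real.log D))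
      + 144 * (H * (Real.log P1 / Real.log D)) + 4 * (H * (Real.log P1 / Real.log D))
      + 4 * (H * (Real.log P1 / Real.log D)) := by ring
  rw [hexp]
  linarith only [hA, hB, hCc, hpos]

end Pool.Agent.H43.LM

end
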