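import Pool.Agent.H43.PL.H43.LM.LfuY
import Pool.Agent.H43.PL.M15
import Pool.Agent.H43.PL.M21
import Pool.Agent.H43.PL.M22

/-! The parts of this file: H43.LM.LfuG, H43.LM.Fin. -/

section

/-!
# LM LfuG: the blocks for `gP P1 P`

Proof.  As `Pool.Agent.H43.PX.badL_g` (file `H43/PX/LfuG.lean`): `t1 = 2/3 + (t - 2/3)/4`, `t2 = 2/3`, `VKw`, `CombX` from the same theorems, `lfu_y` and `sw_g s C' m k`; block length `H = P^5`, `H^2 = P^10 ≤ exp(10 L^s) ≤ N` for large `N`.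
-/

set_option autoImplicit false

namespace Pool.Agent.H43.LM

open Finset
open Pool.Agent.H53.MID (Fp badB)
open Pool.Agent.H53.MIX (VKw VKe CombX)

/-- powers smaller than the logarithm -/
theorem LfuG_small (s : ℝ) (hs : s < 1) (c : ℝ) (hc : 0 < c) : ∃ N0 : ℕ, ∀ N : ℕ, N0 ≤ N →
    c * Real.log N ^ s ≤ Real.log N := by
  have h1 : Filter.Tendsto (fun N : ℕ => Real.log N) Filter.atTop Filter.atTop :=
    Real.tendsto_log_atTop.comp tendsto_natCast_atTop_atTop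
  have h2 : Filter.Tendsto (fun y : ℝ => y ^ (1 - s)) Filter.atTop Filter.atTop :=
    tendsto_rpow_atTop (by linarith)
  obtain ⟨N0, hN0⟩ := Filter.eventually_atTop.1 (((h2.comp h1).eventually_ge_atTop c).and (h1.eventually_ge_atTop 1))
  refine ⟨N0, fun N hN => ?_⟩
  obtain ⟨h3, h4⟩ := hN0 N hN
  simp only [Function.comp_apply] at h3
  have h5 : 0 < Real.log N := by linarith
  calc c * Real.log N ^ s ≤ Real.log N ^ (1 - s) * Real.log N ^ s :=
        mul_le_mul_of_nonneg_right h3 (Real.rpow_nonneg h5.le _)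
    _ = Real.log N := by
        rw [← Real.rpow_add h5]
        norm_num

theorem lfu_g (t s : ℝ) (ht : 2 / 3 < t) (hts : t ≤ s) (hs : s < 1) (A : ℕ) : ∃ N0 : ℕ, ∀ N : ℕ, N0 ≤ N →
    ∀ P1 P : ℕ, Real.exp (Real.log N ^ t) ≤ P → (P : ℝ) ≤ Real.exp (Real.log N ^ s) →
    ((badB (Fp (gP P1 P) P) N (P ^ 5) (((P ^ 5 : ℕ) : ℝ) / Real.log N ^ A)).card : ℝ)
      ≤ (N / ((P ^ 5 : ℕ) : ℝ)) / Real.log N ^ A := by
  classical
  have ht1 : t < 1 := lt_of_le_of_lt hts hs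
  have e1 : 2 / 3 < 2 / 3 + (t - 2 / 3) / 4 := by linarith
  have e2 : 2 / 3 + (t - 2 / 3) / 4 < 1 := by linarith
  have hVK : VKw (2 / 3 + (t - 2 / 3) / 4) := fun K B => Pool.Agent.H76.VKT.vk_class_t _ e1 e2 K B
  have hVE : VKe (2 / 3 + (t - 2 / 3) / 4) := fun A => Pool.Agent.H76.VKT.vk_exp_t _ e1 e2 A
  have hCX : CombX t (2 / 3) :=
    Pool.Agent.H53.MDB.comb_x_all (2 / 3 + (t - 2 / 3) / 4) _ _ (by linarith) (by linarith) (by linarith)
      (by linarith) (by linarith) hVE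
  obtain ⟨C', m, k, N1, hN1⟩ := lfu_y t (2 / 3 + (t - 2 / 3) / 4) (2 / 3) (by linarith) (by linarith) ht1
    (by norm_num) ht hVK hCX A
  obtain ⟨N2, hN2⟩ := sw_g s (by linarith) hs C' m k
  obtain ⟨N3, hN3⟩ := LfuG_small s hs 10 (by norm_num)
  refine ⟨max N1 (max N2 (max N3 2)), fun N hN P1 P hP1 hP2 => ?_⟩
  simp only [max_le_iff] at hN
  obtain ⟨g1, g2, g3, g4⟩ := hN
  have hN0 : (0 : ℝ) < N := by
    have : 0 < N := by omega
    exact_mod_cast this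
  have hP0 : 1 ≤ P := by
    have h1 : (0 : ℝ) < P := lt_of_lt_of_le (Real.exp_pos _) hP1
    have : 0 < P := by exact_mod_cast h1
    omega
  have h2 : (P ^ 5) ^ 2 ≤ N := by
    have h3 : (((P ^ 5) ^ 2 : ℕ) : ℝ) ≤ N := by
      push_cast
      calc ((P : ℝ) ^ 5) ^ 2 = (P : ℝ) ^ 10 := by ring
        _ ≤ (Real.exp (Real.log N ^ s)) ^ 10 := pow_le_pow_left₀ (Nat.cast_nonneg _) hP2 10
        _ = Real.exp (10 * Real.log N ^ s) := by
            rw [← Real.exp_nat_mul]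
            norm_num
        _ ≤ Real.exp (Real.log N) := Real.exp_le_exp.2 (hN3 N g3)
        _ = N := Real.exp_log hN0
    exact_mod_cast h3
  exact hN1 N g1 (P ^ 5) P (gP P1 P) hP1 le_rfl h2 (gP_abs_le P1 P) (hN2 N g2 P1 P hP0 hP2)

end Pool.Agent.H43.LM

end

section

/-!
# LM Fin: local Fourier uniformity of the Möbius function with a rate

Proof.  `δ = ε/8`, `t = 2/3 + δ`, `s = 1 - δ`, `L = log X`, `N = ⌊X⌋₊`, `P1 = ⌈exp(L^{2/3 + 2δ})⌉₊`, `Q1 = min (H^{1/20}) (exp(L^{1 - 2δ}))`, `J` maximal with `P1 2^J ≤ Q1`.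
`P_j = P1 2^j`, `j < J`: `lfu_g`, `win_a` with `κ = 1/(log N)^4`, `h = P_j^5`, `M0 = 2 log(4N)`; `dec`, `dec_w`.
-/

set_option autoImplicit false

namespace Pool.Agent.H43.LM

open Finset MeasureTheory
open Pool.Agent.H91.PK (ee)
open Pool.Agent.H53.MID (Fp badB Bs)

theorem Fin_log {X : ℝ} {N : ℕ} (hN : (N : ℝ) ≤ X) (hXN : X < N + 1) (hN2 : 1 ≤ N) :
    Real.log N ≤ Real.log X ∧ Real.log X ≤ Real.log N + 1 := by
  have h1 : (1 : ℝ) ≤ N := by exact_mod_cast hN2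
  refine ⟨Real.log_le_log (by linarith only [h1]) hN, ?_⟩
  have h2 : Real.log X ≤ Real.log (2 * N) := Real.log_le_log (by linarith only [hN, h1]) (by linarith)
  rw [Real.log_mul (by norm_num) (by linarith only [h1])] at h2
  have h3 := Real.log_two_lt_d9
  linarith only [h2, h3]

theorem Fin_Fp_zero (P1 P : ℕ) : Fp (gP P1 P) P 0 = 0 := by
  unfold Fp
  refine Finset.sum_eq_zero fun p _ => ?_
  have h1 : mu (0 / p) = 0 := by
    rw [Nat.zero_div]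
    unfold mu
    simp
  unfold gP
  rw [h1]
  simp

theorem Fin_win_pos {x H : ℝ} {n : ℕ} (hx : H ≤ x) (hH : 0 < H) (hn : n ∈ Win x H) : n ≠ 0 := by
  unfold Win at hn
  rw [Finset.mem_filter] at hn
  have h1 := (abs_lt.1 hn.2).1
  rintro rfl
  simp only [Nat.cast_zero] at h1
  linarith only [hx, hH, h1]

theorem Fin_Mw_add (P1 J : ℕ) (x H α : ℝ) (hP1 : 1 ≤ P1) (hx : H ≤ x) (hH : 0 < H) :
    ‖Mw mu x H α‖ ≤ ∑ j ∈ range J, ‖Mw (Fp (gP P1 (P1 * 2 ^ j)) (P1 * 2 ^ j)) x H α‖ + ∑ n ∈ Win x H, er P1 J n := by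
  have h1 : Mw mu x H α = ∑ j ∈ range J, Mw (Fp (gP P1 (P1 * 2 ^ j)) (P1 * 2 ^ j)) x H α
      + ∑ n ∈ Win x H, ((mu n - ∑ j ∈ range J, Fp (gP P1 (P1 * 2 ^ j)) (P1 * 2 ^ j) n : ℝ) : ℂ) * ee (n * α) := by
    unfold Mw
    rw [Finset.sum_comm, ← Finset.sum_add_distrib]
    refine Finset.sum_congr rfl fun n _ => ?_
    rw [← Finset.sum_mul]
    push_cast
    ring
  rw [h1]
  refine (norm_add_le _ _).trans (add_le_add (norm_sum_le _ _) ?_)
  refine (norm_sum_le _ _).trans (Finset.sum_le_sum fun n hn => ?_)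
  rw [norm_mul, Pool.Agent.H91.PK.LSa_norm_ee, mul_one, Complex.norm_real, Real.norm_eq_abs]
  exact dec P1 J n hP1 (Fin_win_pos hx hH hn)

/-- the measure estimate, everything in terms of abstract parameters -/
theorem Fin_meas (P1 J N : ℕ) (X H κ M0 β T : ℝ) (hP1 : 1 ≤ P1) (hN : 2 ≤ N) (hNX : (N : ℝ) ≤ X) (hXN : X < N + 1)
    (hH1 : 1 ≤ H) (hHX : H ≤ X) (hκ : 0 < κ) (hκ1 : κ ≤ 1) (hM0 : 1 ≤ M0) (hβ : 0 ≤ β)
    (hM : 2 * Real.log (4 * N) ≤ M0)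
    (hhH : ∀ j < J, 2 * (((P1 * 2 ^ j) ^ 5 : ℕ) : ℝ) * M0 ≤ κ * H)
    (hbad : ∀ j < J, ((badB (Fp (gP P1 (P1 * 2 ^ j)) (P1 * 2 ^ j)) N ((P1 * 2 ^ j) ^ 5)
      (κ * (((P1 * 2 ^ j) ^ 5 : ℕ) : ℝ))).card : ℝ) ≤ β * (N / (((P1 * 2 ^ j) ^ 5 : ℕ) : ℝ)))
    (her : ∀ x : ℝ, H ≤ x → J * (4 * κ * H) + ∑ n ∈ Win x H, er P1 J n ≤ T) :
    volume {x : ℝ | x ∈ Set.Icc X (2 * X) ∧ ∃ α : ℝ, T < ‖Mw mu x H α‖} ≤ ENNReal.ofReal (J * (β * M0 / κ * X)) := by
  have hX0 : 0 ≤ X := by linarith only [hH1, hHX]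
  have hsub : {x : ℝ | x ∈ Set.Icc X (2 * X) ∧ ∃ α : ℝ, T < ‖Mw mu x H α‖} ⊆
      ⋃ j ∈ range J, {x : ℝ | x ∈ Set.Icc X (2 * X) ∧ ∃ α : ℝ,
        4 * κ * H < ‖Mw (Fp (gP P1 (P1 * 2 ^ j)) (P1 * 2 ^ j)) x H α‖} := by
    rintro x ⟨hx, α, hα⟩
    by_contra hcon
    have hHx : H ≤ x := hHX.trans hx.1
    have h1 : ∀ j ∈ range J, ‖Mw (Fp (gP P1 (P1 * 2 ^ j)) (P1 * 2 ^ j)) x H α‖ ≤ 4 * κ * H := by
      intro j hj
      by_contra h
      push Not at h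
      exact hcon (Set.mem_iUnion₂.2 ⟨j, hj, hx, α, h⟩)
    have h2 := Fin_Mw_add P1 J x H α hP1 hHx (by linarith only [hH1])
    have h3 : ∑ j ∈ range J, ‖Mw (Fp (gP P1 (P1 * 2 ^ j)) (P1 * 2 ^ j)) x H α‖ ≤ J * (4 * κ * H) := by
      refine (Finset.sum_le_sum h1).trans (le_of_eq ?_)
      rw [Finset.sum_const, Finset.card_range, nsmul_eq_mul]
    have h4 := her x hHx
    linarith only [hα, h2, h3, h4]
  refine (measure_mono hsub).trans ((measure_biUnion_finset_le _ _).trans ?_)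
  have h5 : ∀ j ∈ range J, volume {x : ℝ | x ∈ Set.Icc X (2 * X) ∧ ∃ α : ℝ,
        4 * κ * H < ‖Mw (Fp (gP P1 (P1 * 2 ^ j)) (P1 * 2 ^ j)) x H α‖} ≤ ENNReal.ofReal (β * M0 / κ * X) := by
    intro j hj
    rw [Finset.mem_range] at hj
    have hPj : 1 ≤ P1 * 2 ^ j := Nat.one_le_iff_ne_zero.2 (by positivity)
    refine win_a _ N ((P1 * 2 ^ j) ^ 5) X H κ M0 β hN hNX hXN (Nat.one_le_pow _ _ hPj) hH1 hHX hκ hκ1 hM0 hβ ?_
      (hhH j hj) (hbad j hj)
    intro n hn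
    rcases Nat.eq_zero_or_pos n with rfl | hn0
    · rw [Fin_Fp_zero]
      simp only [abs_zero]
      linarith only [hM0]
    · refine (Fp_le P1 (P1 * 2 ^ j) n hPj (by omega)).trans (le_trans ?_ hM)
      have h6 : Real.log n ≤ Real.log (4 * N) := by
        apply Real.log_le_log (by exact_mod_cast hn0)
        exact_mod_cast hn
      linarith only [h6]
  refine (Finset.sum_le_sum h5).trans (le_of_eq ?_)
  rw [Finset.sum_const, Finset.card_range, nsmul_eq_mul, ENNReal.ofReal_mul (Nat.cast_nonneg _)]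
  simp

/-- the parameters `P1`, `J` -/
theorem Fin_par (δ : ℝ) (hδ : 0 < δ) (hδ1 : δ ≤ 1 / 24) (L h : ℝ) (hL : 1 ≤ L) (hK : 40 ≤ L ^ δ)
    (h1 : L ^ (2 / 3 + 8 * δ) ≤ h) (h2 : h ≤ L) :
    ∃ P1 J : ℕ, 2 ≤ P1 ∧ Real.exp (L ^ (2 / 3 + 2 * δ)) ≤ P1 ∧ Real.log P1 ≤ 2 * L ^ (2 / 3 + 2 * δ) ∧
      ((P1 * 2 ^ J : ℕ) : ℝ) ≤ Real.exp (h / 20) ∧ ((P1 * 2 ^ J : ℕ) : ℝ) ≤ Real.exp (L ^ (1 - 2 * δ)) ∧
      h * L ^ (-(2 * δ)) / 40 ≤ Real.log ((P1 * 2 ^ J : ℕ) : ℝ) ∧ (J : ℝ) ≤ 2 * L ∧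
      Real.log ((P1 * 2 ^ J : ℕ) : ℝ) ≤ Real.log P1 ^ 2 := by
  have hL0 : 0 < L := by linarith only [hδ, hδ1, hL]
  have a1 : 1 ≤ L ^ (2 / 3 + 2 * δ) := Real.one_le_rpow hL (by linarith only [hδ, hδ1])
  have a2 : (2 : ℝ) ≤ Real.exp (L ^ (2 / 3 + 2 * δ)) := by
    have := Real.add_one_le_exp (L ^ (2 / 3 + 2 * δ))
    linarith only [a1, this]
  have hq0 : h * L ^ (-(2 * δ)) / 20 ≤ min (h / 20) (L ^ (1 - 2 * δ)) := by
    have hh0 : 0 ≤ h := le_trans (Real.rpow_nonneg hL0.le _) h1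
    refine le_min ?_ ?_
    · have : L ^ (-(2 * δ)) ≤ 1 := Real.rpow_le_one_of_one_le_of_nonpos hL (by linarith only [hδ])
      have := mul_le_mul_of_nonneg_left this hh0
      linarith only [this]
    · have e1 : L ^ (1 - 2 * δ) = L * L ^ (-(2 * δ)) := by
        rw [sub_eq_add_neg, Real.rpow_add hL0, Real.rpow_one]
      rw [e1]
      have h3 : 0 ≤ L ^ (-(2 * δ)) := Real.rpow_nonneg hL0.le _
      have h4 := mul_le_mul_of_nonneg_right h2 h3
      have h5 : 0 ≤ L * L ^ (-(2 * δ)) := mul_nonneg hL0.le h3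
      linarith only [h4, h5]
  have hq1 : L ^ (2 / 3 + 6 * δ) / 20 ≤ h * L ^ (-(2 * δ)) / 20 := by
    have e1 : L ^ (2 / 3 + 6 * δ) = L ^ (2 / 3 + 8 * δ) * L ^ (-(2 * δ)) := by
      rw [← Real.rpow_add hL0]
      congr 1
      ring
    rw [e1]
    have := mul_le_mul_of_nonneg_right h1 (Real.rpow_nonneg hL0.le (-(2 * δ)))
    linarith only [this]
  have hq2 : 2 * L ^ (2 / 3 + 2 * δ) ≤ L ^ (2 / 3 + 6 * δ) / 20 := by
    have e1 : L ^ (2 / 3 + 6 * δ) = L ^ (2 / 3 + 2 * δ) * (L ^ δ) ^ 4 := by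
      rw [← Real.rpow_natCast (L ^ δ) 4, ← Real.rpow_mul hL0.le, ← Real.rpow_add hL0]
      congr 1
      push_cast
      ring
    rw [e1]
    have h3 : (40 : ℝ) ≤ (L ^ δ) ^ 4 := by
      calc (40 : ℝ) ≤ 40 ^ 4 := by norm_num
        _ ≤ (L ^ δ) ^ 4 := pow_le_pow_left₀ (by norm_num) hK 4
    have h4 := mul_le_mul_of_nonneg_left h3 (by linarith only [hδ, hδ1, a1] : (0 : ℝ) ≤ L ^ (2 / 3 + 2 * δ))
    linarith only [h4]
  obtain ⟨q, hq⟩ : ∃ q : ℝ, q = min (h / 20) (L ^ (1 - 2 * δ)) := ⟨_, rfl⟩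
  rw [← hq] at hq0
  have hqh : q ≤ h / 20 := hq ▸ min_le_left _ _
  have hqL : q ≤ L ^ (1 - 2 * δ) := hq ▸ min_le_right _ _
  have hqL2 : q ≤ L := by
    refine hqL.trans ?_
    calc L ^ (1 - 2 * δ) ≤ L ^ (1 : ℝ) := Real.rpow_le_rpow_of_exponent_le hL (by linarith only [hδ])
      _ = L := Real.rpow_one L
  have hq3 : 2 * L ^ (2 / 3 + 2 * δ) ≤ q := by linarith only [hq1, hq2, hq0]
  obtain ⟨P1, hP1⟩ : ∃ P1 : ℕ, P1 = ⌈Real.exp (L ^ (2 / 3 + 2 * δ))⌉₊ := ⟨_, rfl⟩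
  have b1 : Real.exp (L ^ (2 / 3 + 2 * δ)) ≤ P1 := hP1 ▸ Nat.le_ceil _
  have b2 : (P1 : ℝ) ≤ Real.exp (L ^ (2 / 3 + 2 * δ)) + 1 := hP1 ▸ (Nat.ceil_lt_add_one (Real.exp_pos _).le).le
  have b3 : 2 ≤ P1 := by
    have : (2 : ℝ) ≤ P1 := a2.trans b1
    exact_mod_cast this
  have b0 : (0 : ℝ) < P1 := by
    have : (2 : ℝ) ≤ P1 := a2.trans b1
    linarith only [hδ, hδ1, a2, b1]
  have b4 : Real.log P1 ≤ 2 * L ^ (2 / 3 + 2 * δ) := by
    have h3 : Real.log P1 ≤ Real.log (Real.exp (L ^ (2 / 3 + 2 * δ)) * Real.exp 1) := by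
      apply Real.log_le_log b0
      have h4 : (2 : ℝ) ≤ Real.exp 1 := by
        have := Real.add_one_le_exp (1 : ℝ)
        linarith only [this]
      have h5 := mul_le_mul_of_nonneg_left h4 (Real.exp_pos (L ^ (2 / 3 + 2 * δ))).le
      linarith only [hδ, hδ1, a2, b2, h5]
    rw [← Real.exp_add, Real.log_exp] at h3
    linarith only [a1, h3]
  have b5 : L ^ (2 / 3 + 2 * δ) ≤ Real.log P1 := by
    rw [Real.le_log_iff_exp_le b0]
    exact b1
  have b6 : (P1 : ℝ) ≤ Real.exp q := by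
    rw [← Real.log_le_iff_le_exp b0]
    linarith only [hq1, hq2, hq0, b4]
  obtain ⟨R, hR⟩ : ∃ R : ℕ, R = ⌊Real.exp q / P1⌋₊ := ⟨_, rfl⟩
  have c1 : R ≠ 0 := by
    rw [hR, ← Nat.pos_iff_ne_zero, Nat.floor_pos]
    rw [le_div_iff₀ b0]
    linarith only [b6]
  have c2 : (R : ℝ) ≤ Real.exp q / P1 := hR ▸ Nat.floor_le (by positivity)
  have c3 : Real.exp q / P1 < R + 1 := hR ▸ Nat.lt_floor_add_one _
  have c4 : 2 ^ Nat.log 2 R ≤ R := Nat.pow_log_le_self 2 c1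
  have c5 : R < 2 ^ (Nat.log 2 R + 1) := Nat.lt_pow_succ_log_self (by norm_num) R
  have c6 : (2 : ℝ) ^ Nat.log 2 R ≤ R := by exact_mod_cast c4
  have c7 : (R : ℝ) + 1 ≤ 2 * 2 ^ Nat.log 2 R := by
    have : ((R + 1 : ℕ) : ℝ) ≤ ((2 ^ (Nat.log 2 R + 1) : ℕ) : ℝ) := by exact_mod_cast c5
    push_cast at this
    rw [pow_succ] at this
    linarith only [this]
  have hD0 : (0 : ℝ) < ((P1 * 2 ^ Nat.log 2 R : ℕ) : ℝ) := by
    push_cast
    positivity
  have d1 : ((P1 * 2 ^ Nat.log 2 R : ℕ) : ℝ) ≤ Real.exp q := by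
    push_cast
    have h3 := c6.trans c2
    rw [le_div_iff₀ b0] at h3
    linarith only [h3]
  have d2 : Real.exp q ≤ 2 * ((P1 * 2 ^ Nat.log 2 R : ℕ) : ℝ) := by
    push_cast
    have h3 := c3.le.trans c7
    rw [div_le_iff₀ b0] at h3
    linarith only [h3]
  have d3 : Real.log ((P1 * 2 ^ Nat.log 2 R : ℕ) : ℝ) ≤ q := by
    rw [Real.log_le_iff_le_exp hD0]
    exact d1
  have d4 : q / 2 ≤ Real.log ((P1 * 2 ^ Nat.log 2 R : ℕ) : ℝ) := by
    have h3 : q ≤ Real.log (2 * ((P1 * 2 ^ Nat.log 2 R : ℕ) : ℝ)) := by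
      rw [Real.le_log_iff_exp_le (by positivity)]
      exact d2
    rw [Real.log_mul (by norm_num) hD0.ne'] at h3
    have h4 := Real.log_two_lt_d9
    linarith only [hδ, hδ1, a1, hq1, hq2, hq0, h3, h4]
  refine ⟨P1, Nat.log 2 R, b3, b1, b4, d1.trans (Real.exp_le_exp.2 hqh), d1.trans (Real.exp_le_exp.2 hqL), ?_, ?_, ?_⟩
  · linarith only [hq0, d4]
  · have h3 : (2 : ℝ) ^ Nat.log 2 R ≤ Real.exp L := by
      have h4 : (1 : ℝ) ≤ P1 := by linarith only [hδ, hδ1, a2, b1, a2.trans b1]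
      have h5 : (2 : ℝ) ^ Nat.log 2 R ≤ ((P1 * 2 ^ Nat.log 2 R : ℕ) : ℝ) := by
        push_cast
        have := mul_le_mul_of_nonneg_right h4 (by positivity : (0 : ℝ) ≤ 2 ^ Nat.log 2 R)
        linarith only [this]
      exact h5.trans (d1.trans (Real.exp_le_exp.2 hqL2))
    have h4 : (Nat.log 2 R : ℝ) * Real.log 2 ≤ L := by
      have := Real.log_le_log (by positivity) h3
      rw [Real.log_pow, Real.log_exp] at this
      exact this
    have h5 := Real.log_two_gt_d9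
    have h6 : (0 : ℝ) ≤ (Nat.log 2 R : ℝ) := Nat.cast_nonneg _
    nlinarith only [hδ, hδ1, h2, a1, hq1, hq2, hq0, hqh, h4, h5]
  · refine d3.trans (hqL2.trans ?_)
    have h3 : L ≤ (L ^ (2 / 3 + 2 * δ)) ^ 2 := by
      rw [← Real.rpow_natCast (L ^ (2 / 3 + 2 * δ)) 2, ← Real.rpow_mul hL0.le]
      calc L = L ^ (1 : ℝ) := (Real.rpow_one L).symm
        _ ≤ _ := Real.rpow_le_rpow_of_exponent_le hL (by push_cast; linarith only [hδ, hδ1])
    exact h3.trans (pow_le_pow_left₀ (by linarith only [hδ, hδ1, a1]) b5 2)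

/-- growth facts -/
theorem Fin_ev (δ : ℝ) (hδ : 0 < δ) (K : ℝ) (N0 A : ℕ) : ∃ X0 : ℝ, ∀ X : ℝ, X0 ≤ X →
    2 ≤ X ∧ 16 ≤ Real.log X ∧ K ≤ Real.log X ^ δ ∧ (2 : ℝ) ^ (A + 7) ≤ Real.log X ∧
    8 * Real.log (Real.log X) + 8 ≤ Real.log X ^ (2 / 3 : ℝ) / 2 ∧ N0 ≤ ⌊X⌋₊ := by
  have h1 := Real.tendsto_log_atTop
  have h2 : Filter.Tendsto (fun y : ℝ => y ^ δ) Filter.atTop Filter.atTop := tendsto_rpow_atTop hδ
  have h3 : ∀ᶠ y : ℝ in Filter.atTop, 8 * Real.log y + 8 ≤ y ^ (2 / 3 : ℝ) / 2 := by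
    have e1 := (isLittleO_log_rpow_atTop (r := 2 / 3) (by norm_num)).bound (show (0 : ℝ) < 1 / 32 by norm_num)
    have e2 : Filter.Tendsto (fun y : ℝ => y ^ (2 / 3 : ℝ)) Filter.atTop Filter.atTop := tendsto_rpow_atTop (by norm_num)
    filter_upwards [e1, e2.eventually_ge_atTop 32, Filter.eventually_ge_atTop 1] with y g1 g2 g3
    rw [Real.norm_eq_abs, Real.norm_eq_abs, abs_of_nonneg (Real.log_nonneg g3),
      abs_of_nonneg (Real.rpow_nonneg (by linarith only [g3]) _)] at g1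
    linarith only [g1, g2]
  have h4 : Filter.Tendsto (fun X : ℝ => ⌊X⌋₊) Filter.atTop Filter.atTop := tendsto_nat_floor_atTop
  obtain ⟨X0, hX0⟩ := Filter.eventually_atTop.1 ((Filter.eventually_ge_atTop 2).and ((h1.eventually_ge_atTop 16).and
    (((h2.comp h1).eventually_ge_atTop K).and ((h1.eventually_ge_atTop (2 ^ (A + 7))).and
    ((h1.eventually h3).and (h4.eventually_ge_atTop N0))))))
  exact ⟨X0, fun X hX => hX0 X hX⟩

theorem Fin_bad_mono (F : ℕ → ℝ) (N h : ℕ) (a b : ℝ) (hab : a ≤ b) : badB F N h b ⊆ badB F N h a := by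
  intro i hi
  unfold badB at hi ⊢
  simp only [Finset.mem_filter] at hi ⊢
  refine ⟨hi.1, ?_⟩
  obtain ⟨α, hα⟩ := hi.2
  exact ⟨α, lt_of_le_of_lt hab hα⟩

theorem Fin_core (δ : ℝ) (hδ : 0 < δ) (hδ1 : δ ≤ 1 / 24) (A : ℕ) : ∃ X0 : ℝ, ∀ X H : ℝ, X0 ≤ X →
    Real.exp (Real.log X ^ (2 / 3 + 8 * δ)) ≤ H → H ≤ X →
    volume {x : ℝ | x ∈ Set.Icc X (2 * X) ∧ ∃ α : ℝ,
      H * Real.log X ^ (2 / 3 + 8 * δ) / Real.log H < ‖Mw mu x H α‖} ≤ ENNReal.ofReal (X / Real.log X ^ A) := by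
  obtain ⟨C, hC, hdec⟩ := dec_w
  obtain ⟨N0, hN0⟩ := lfu_g (2 / 3 + δ) (1 - δ) (by linarith only [hδ]) (by linarith only [hδ, hδ1]) (by linarith) (A + 8)
  obtain ⟨X0, hX0⟩ := Fin_ev δ hδ (max 40 (160 * C)) N0 A
  refine ⟨X0, fun X H hX hH hHX => ?_⟩
  obtain ⟨hX2, hL16, hK, hA7, hlog, hN0X⟩ := hX0 X hX
  have hK1 : 40 ≤ Real.log X ^ δ := (le_max_left _ _).trans hK
  have hK2 : 160 * C ≤ Real.log X ^ δ := (le_max_right _ _).trans hK
  obtain ⟨N, hNdef⟩ : ∃ N : ℕ, N = ⌊X⌋₊ := ⟨_, rfl⟩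
  rw [← hNdef] at hN0X
  have hNX : (N : ℝ) ≤ X := hNdef ▸ Nat.floor_le (by linarith only [hδ, hδ1, hX2])
  have hXN : X < N + 1 := hNdef ▸ Nat.lt_floor_add_one X
  have hN2 : 2 ≤ N := by
    rw [hNdef]
    exact Nat.le_floor (by exact_mod_cast hX2)
  obtain ⟨hl1, hl2⟩ := Fin_log hNX hXN (by omega)
  obtain ⟨L, hL⟩ : ∃ L : ℝ, L = Real.log X := ⟨_, rfl⟩
  obtain ⟨l, hl⟩ : ∃ l : ℝ, l = Real.log N := ⟨_, rfl⟩
  obtain ⟨h, hh⟩ : ∃ h : ℝ, h = Real.log H := ⟨_, rfl⟩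
  rw [← hL] at hL16 hK1 hK2 hA7 hlog hl1 hl2 hH ⊢
  rw [← hl] at hl1 hl2
  have hH0 : 0 < H := lt_of_lt_of_le (Real.exp_pos _) hH
  have hhL : h ≤ L := by
    rw [hh, hL]
    exact Real.log_le_log hH0 hHX
  have hh1 : L ^ (2 / 3 + 8 * δ) ≤ h := by
    rw [hh, Real.le_log_iff_exp_le hH0]
    exact hH
  rw [← hh]
  have hL1 : 1 ≤ L := by linarith only [hδ, hδ1, hL16]
  have hL0 : 0 < L := by linarith only [hδ, hδ1, hL16]
  obtain ⟨P1, J, p1, p2, p3, p4, p5, p6, p7, p8⟩ := Fin_par δ hδ hδ1 L h hL1 hK1 hh1 hhL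
  have hlL : L / 2 ≤ l := by linarith only [hδ, hδ1, hL16, hl2]
  have hl0 : 0 < l := by linarith only [hδ, hδ1, hL16, hl2]
  have hl1' : 1 ≤ l := by linarith only [hδ, hδ1, hL16, hl2]
  have hE : Real.exp h = H := by rw [hh, Real.exp_log hH0]
  have hA1 : 1 ≤ L ^ (2 / 3 + 8 * δ) := Real.one_le_rpow hL1 (by linarith only [hδ, hδ1])
  have hh0 : 0 < h := by linarith only [hδ, hδ1, hh1, hA1]
  have hH1 : 1 ≤ H := by
    rw [← hE]
    exact Real.one_le_exp hh0.le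
  -- sizes of the `P_j`
  have hPj : ∀ j < J, ((P1 * 2 ^ j : ℕ) : ℝ) ≤ ((P1 * 2 ^ J : ℕ) : ℝ) := by
    intro j hj
    exact_mod_cast Nat.mul_le_mul_left P1 (Nat.pow_le_pow_right (by norm_num) hj.le)
  have hPj1 : ∀ j : ℕ, (P1 : ℝ) ≤ ((P1 * 2 ^ j : ℕ) : ℝ) := by
    intro j
    exact_mod_cast Nat.le_mul_of_pos_right P1 (by positivity)
  have hlog4N : Real.log (4 * N) ≤ 2 * L := by
    have hNp : (0 : ℝ) < N := by
      have : 0 < N := by omega
      exact_mod_cast this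
    rw [Real.log_mul (by norm_num) hNp.ne', ← hl]
    have : Real.log 4 = 2 * Real.log 2 := by
      rw [show (4 : ℝ) = 2 ^ 2 by norm_num, Real.log_pow]
      norm_num
    have := Real.log_two_lt_d9
    linarith
  have hlog4N0 : 1 ≤ 2 * Real.log (4 * N) := by
    have hNp : (2 : ℝ) ≤ N := by exact_mod_cast hN2
    have : Real.log 2 ≤ Real.log (4 * N) := Real.log_le_log (by norm_num) (by linarith only [hδ, hδ1, hNp])
    have := Real.log_two_gt_d9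
    linarith
  have hκ1 : 1 / l ^ 4 ≤ 1 := by
    rw [div_le_one (by positivity)]
    exact one_le_pow₀ hl1'
  -- real powers
  have hLδ1 : 1 ≤ L ^ δ := by linarith only [hδ, hδ1, hK1]
  have hpow1 : L ^ (2 / 3 : ℝ) ≤ h := by
    refine le_trans (Real.rpow_le_rpow_of_exponent_le hL1 ?_) hh1
    linarith only [hδ]
  have hpow2 : Real.exp (l ^ (2 / 3 + δ)) ≤ P1 := by
    refine le_trans (Real.exp_le_exp.2 ?_) p2
    calc l ^ (2 / 3 + δ) ≤ L ^ (2 / 3 + δ) := Real.rpow_le_rpow hl0.le hl1 (by linarith only [hδ, hδ1])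
      _ ≤ L ^ (2 / 3 + 2 * δ) := Real.rpow_le_rpow_of_exponent_le hL1 (by linarith only [hδ])
  have hpow3 : L ^ (1 - 2 * δ) ≤ l ^ (1 - δ) := by
    have e1 : L ^ (1 - 2 * δ) ≤ (2 * l) ^ (1 - 2 * δ) := Real.rpow_le_rpow hL0.le (by linarith only [hδ, hδ1, hL16, hl2]) (by linarith only [hδ, hδ1])
    have e2 : (2 * l) ^ (1 - 2 * δ) = 2 ^ (1 - 2 * δ) * l ^ (1 - 2 * δ) := Real.mul_rpow (by norm_num) hl0.le
    have e3 : (2 : ℝ) ^ (1 - 2 * δ) ≤ 2 := by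
      calc (2 : ℝ) ^ (1 - 2 * δ) ≤ 2 ^ (1 : ℝ) := Real.rpow_le_rpow_of_exponent_le (by norm_num) (by linarith only [hδ])
        _ = 2 := Real.rpow_one 2
    have e4 : l ^ (1 - δ) = l ^ (1 - 2 * δ) * l ^ δ := by
      rw [← Real.rpow_add hl0]
      congr 1
      ring
    have e5 : L ^ δ ≤ 2 * l ^ δ := by
      calc L ^ δ ≤ (2 * l) ^ δ := Real.rpow_le_rpow hL0.le (by linarith only [hδ, hδ1, hL16, hl2]) hδ.le
        _ = 2 ^ δ * l ^ δ := Real.mul_rpow (by norm_num) hl0.le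
        _ ≤ 2 * l ^ δ := by
            apply mul_le_mul_of_nonneg_right _ (Real.rpow_nonneg hl0.le _)
            calc (2 : ℝ) ^ δ ≤ 2 ^ (1 : ℝ) := Real.rpow_le_rpow_of_exponent_le (by norm_num) (by linarith only [hδ, hδ1])
              _ = 2 := Real.rpow_one 2
    have e6 : 2 ≤ l ^ δ := by linarith only [hδ, hδ1, hK1, e5]
    rw [e4]
    refine e1.trans (e2.le.trans ?_)
    have e7 : 0 ≤ l ^ (1 - 2 * δ) := Real.rpow_nonneg hl0.le _
    have e8 := mul_le_mul_of_nonneg_right e3 e7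
    have e9 := mul_le_mul_of_nonneg_left e6 e7
    linarith only [e8, e9]
  refine (Fin_meas P1 J N X H (1 / l ^ 4) (2 * Real.log (4 * N)) (1 / l ^ (A + 8)) _ (by omega) hN2 hNX hXN hH1 hHX
    (by positivity) hκ1 hlog4N0 (by positivity) le_rfl ?_ ?_ ?_).trans ?_
  · intro j hj
    have e1 : (((P1 * 2 ^ j) ^ 5 : ℕ) : ℝ) ≤ Real.exp (h / 4) := by
      rw [Nat.cast_pow]
      calc (((P1 * 2 ^ j : ℕ) : ℝ)) ^ 5 ≤ (Real.exp (h / 20)) ^ 5 :=
            pow_le_pow_left₀ (Nat.cast_nonneg _) ((hPj j hj).trans p4) 5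
        _ = Real.exp (h / 4) := by
            rw [← Real.exp_nat_mul]
            congr 1
            push_cast
            ring
    have e2 : 8 * L ^ 5 ≤ Real.exp (3 * h / 4) := by
      rw [← Real.log_le_iff_le_exp (by positivity), Real.log_mul (by norm_num) (by positivity), Real.log_pow]
      have e3 : Real.log 8 = 3 * Real.log 2 := by
        rw [show (8 : ℝ) = 2 ^ 3 by norm_num, Real.log_pow]
        norm_num
      have e4 := Real.log_two_lt_d9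
      have e5 : 0 ≤ Real.log L := Real.log_nonneg hL1
      push_cast
      linarith only [hδ, hδ1, hlog, hh1, hA1, hpow1, e3, e4]
    have e3 : l ^ 4 ≤ L ^ 4 := pow_le_pow_left₀ hl0.le hl1 4
    calc 2 * (((P1 * 2 ^ j) ^ 5 : ℕ) : ℝ) * (2 * Real.log (4 * N))
        ≤ 2 * Real.exp (h / 4) * (2 * (2 * L)) := by
          apply mul_le_mul (by linarith only [e1]) (by linarith only [hlog4N]) (by linarith only [hδ, hδ1, hlog4N0]) (by positivity)
      _ = 1 / L ^ 4 * (8 * L ^ 5 * Real.exp (h / 4)) := by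
          field_simp
          ring
      _ ≤ 1 / L ^ 4 * (Real.exp (3 * h / 4) * Real.exp (h / 4)) := by
          apply mul_le_mul_of_nonneg_left _ (by positivity)
          exact mul_le_mul_of_nonneg_right e2 (Real.exp_pos _).le
      _ = 1 / L ^ 4 * H := by
          rw [← Real.exp_add, ← hE]
          congr 2
          ring
      _ ≤ 1 / l ^ 4 * H := by
          apply mul_le_mul_of_nonneg_right _ hH0.le
          exact one_div_le_one_div_of_le (by positivity) e3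
  · intro j hj
    have e1 := hN0 N hN0X P1 (P1 * 2 ^ j) (by rw [← hl]; exact hpow2.trans (hPj1 j))
      (by rw [← hl]; exact (hPj j hj).trans (p5.trans (Real.exp_le_exp.2 hpow3)))
    rw [← hl] at e1
    have e2 : (((P1 * 2 ^ j) ^ 5 : ℕ) : ℝ) / l ^ (A + 8) ≤ 1 / l ^ 4 * (((P1 * 2 ^ j) ^ 5 : ℕ) : ℝ) := by
      rw [div_eq_mul_one_div, mul_comm]
      apply mul_le_mul_of_nonneg_right _ (Nat.cast_nonneg _)
      exact one_div_le_one_div_of_le (by positivity) (pow_le_pow_right₀ hl1' (by omega))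
    have e3 : (((badB (Fp (gP P1 (P1 * 2 ^ j)) (P1 * 2 ^ j)) N ((P1 * 2 ^ j) ^ 5)
      (1 / l ^ 4 * (((P1 * 2 ^ j) ^ 5 : ℕ) : ℝ))).card : ℕ) : ℝ) ≤ ((badB (Fp (gP P1 (P1 * 2 ^ j)) (P1 * 2 ^ j)) N
        ((P1 * 2 ^ j) ^ 5) ((((P1 * 2 ^ j) ^ 5 : ℕ) : ℝ) / l ^ (A + 8))).card : ℝ) := by
      exact_mod_cast Finset.card_le_card (Fin_bad_mono _ _ _ _ _ e2)
    refine e3.trans (e1.trans (le_of_eq ?_))
    ring
  · intro x hx
    have e1 := hdec P1 J x H p1 (by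
      calc ((P1 * 2 ^ J : ℕ) : ℝ) ^ 4 ≤ (Real.exp (h / 20)) ^ 4 := pow_le_pow_left₀ (Nat.cast_nonneg _) p4 4
        _ = Real.exp (h / 5) := by
            rw [← Real.exp_nat_mul]
            congr 1
            push_cast
            ring
        _ ≤ Real.exp h := Real.exp_le_exp.2 (by linarith only [hδ, hδ1, hh1, hA1])
        _ = H := hE) p8 hx
    obtain ⟨D, hD⟩ : ∃ D : ℝ, D = Real.log ((P1 * 2 ^ J : ℕ) : ℝ) := ⟨_, rfl⟩
    rw [← hD] at e1 p6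
    obtain ⟨R, hR⟩ : ∃ R : ℝ, R = L ^ (-(2 * δ)) := ⟨_, rfl⟩
    rw [← hR] at p6
    have hR0 : 0 < R := hR ▸ Real.rpow_pos_of_pos hL0 _
    have hD0 : 0 < D := lt_of_lt_of_le (by positivity) p6
    have e2 : C * H * Real.log P1 / D ≤ H * L ^ (2 / 3 + 8 * δ) / h / 2 := by
      have f1 : C * H * Real.log P1 / D ≤ C * H * (2 * L ^ (2 / 3 + 2 * δ)) / (h * R / 40) := by
        apply div_le_div₀ (by positivity) _ (by positivity) p6
        exact mul_le_mul_of_nonneg_left p3 (by positivity)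
      have f2 : L ^ (2 / 3 + 2 * δ) / R = L ^ (2 / 3 + 4 * δ) := by
        rw [hR, ← Real.rpow_sub hL0]
        congr 1
        ring
      have f3 : L ^ (2 / 3 + 8 * δ) = L ^ (2 / 3 + 4 * δ) * (L ^ δ) ^ 4 := by
        rw [← Real.rpow_natCast (L ^ δ) 4, ← Real.rpow_mul hL0.le, ← Real.rpow_add hL0]
        congr 1
        push_cast
        ring
      have f4 : 160 * C ≤ (L ^ δ) ^ 4 := by
        calc 160 * C ≤ L ^ δ := hK2
          _ = (L ^ δ) ^ 1 := (pow_one _).symm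
          _ ≤ (L ^ δ) ^ 4 := pow_le_pow_right₀ hLδ1 (by norm_num)
      have f5 : 0 ≤ L ^ (2 / 3 + 4 * δ) := Real.rpow_nonneg hL0.le _
      calc C * H * Real.log P1 / D ≤ C * H * (2 * L ^ (2 / 3 + 2 * δ)) / (h * R / 40) := f1
        _ = 80 * C * H / h * (L ^ (2 / 3 + 2 * δ) / R) := by
            field_simp
            ring
        _ = 80 * C * H / h * L ^ (2 / 3 + 4 * δ) := by rw [f2]
        _ = (160 * C) * (H / h * L ^ (2 / 3 + 4 * δ) / 2) := by ring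
        _ ≤ (L ^ δ) ^ 4 * (H / h * L ^ (2 / 3 + 4 * δ) / 2) := by
            apply mul_le_mul_of_nonneg_right f4
            positivity
        _ = H * L ^ (2 / 3 + 8 * δ) / h / 2 := by
            rw [f3]
            ring
    have e3 : J * (4 * (1 / l ^ 4) * H) ≤ H * L ^ (2 / 3 + 8 * δ) / h / 2 := by
      have f1 : 1 / l ^ 4 ≤ 16 / L ^ 4 := by
        rw [div_le_div_iff₀ (by positivity) (by positivity), one_mul]
        calc L ^ 4 ≤ (2 * l) ^ 4 := pow_le_pow_left₀ hL0.le (by linarith only [hδ, hδ1, hL16, hl2]) 4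
          _ = 16 * l ^ 4 := by ring
      have f2 : 1 / L ≤ L ^ (2 / 3 + 8 * δ) / h := by
        apply div_le_div₀ (by linarith only [hδ, hδ1, hA1]) hA1 hh0 hhL
      calc J * (4 * (1 / l ^ 4) * H) ≤ (2 * L) * (4 * (16 / L ^ 4) * H) := by
            apply mul_le_mul p7 _ (by positivity) (by positivity)
            apply mul_le_mul_of_nonneg_right _ hH0.le
            linarith only [f1]
        _ = 256 / L ^ 2 * (H * (1 / L) / 2) := by
            field_simp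
            ring
        _ ≤ 1 * (H * (1 / L) / 2) := by
            apply mul_le_mul_of_nonneg_right _ (by positivity)
            rw [div_le_one (by positivity)]
            nlinarith only [hL16]
        _ ≤ H * (L ^ (2 / 3 + 8 * δ) / h) / 2 := by
            have := mul_le_mul_of_nonneg_left f2 hH0.le
            linarith only [this]
        _ = H * L ^ (2 / 3 + 8 * δ) / h / 2 := by ring
    linarith only [e1, e2, e3]
  · apply ENNReal.ofReal_le_ofReal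
    have hX0 : 0 < X := by linarith only [hδ, hδ1, hX2]
    have f1 : 1 / l ^ (A + 4) ≤ 2 ^ (A + 4) / L ^ (A + 4) := by
      rw [div_le_div_iff₀ (by positivity) (by positivity), one_mul, ← mul_pow]
      exact pow_le_pow_left₀ hL0.le (by linarith only [hδ, hδ1, hL16, hl2]) _
    calc J * (1 / l ^ (A + 8) * (2 * Real.log (4 * N)) / (1 / l ^ 4) * X)
        ≤ (2 * L) * (1 / l ^ (A + 8) * (2 * (2 * L)) / (1 / l ^ 4) * X) := by
          apply mul_le_mul p7 _ (by positivity) (by positivity)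
          apply mul_le_mul_of_nonneg_right _ hX0.le
          apply div_le_div_of_nonneg_right _ (by positivity)
          apply mul_le_mul_of_nonneg_left _ (by positivity)
          linarith only [hlog4N]
      _ = 8 * L ^ 2 * (1 / l ^ (A + 4)) * X := by
          have : l ^ (A + 8) = l ^ (A + 4) * l ^ 4 := by ring
          rw [this]
          field_simp
          ring
      _ ≤ 8 * L ^ 2 * (2 ^ (A + 4) / L ^ (A + 4)) * X := by
          apply mul_le_mul_of_nonneg_right _ hX0.le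
          exact mul_le_mul_of_nonneg_left f1 (by positivity)
      _ = (2 ^ (A + 7) / L ^ 2) * (X / L ^ A) := by
          have e1 : L ^ (A + 4) = L ^ A * L ^ 4 := by ring
          have e2 : (2 : ℝ) ^ (A + 7) = 2 ^ (A + 4) * 8 := by ring
          rw [e1, e2]
          field_simp
      _ ≤ 1 * (X / L ^ A) := by
          apply mul_le_mul_of_nonneg_right _ (by positivity)
          rw [div_le_one (by positivity)]
          nlinarith only [hδ1, hA7, hL16, hδ]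
      _ = X / L ^ A := one_mul _

theorem lm_main (ε : ℝ) (hε : 0 < ε) (A : ℕ) : ∃ X0 : ℝ, ∀ X H : ℝ, X0 ≤ X →
    Real.exp (Real.log X ^ (2 / 3 + ε)) ≤ H → H ≤ X →
    volume {x : ℝ | x ∈ Set.Icc X (2 * X) ∧ ∃ α : ℝ,
      H * Real.log X ^ (2 / 3 + ε) / Real.log H < ‖Mw mu x H α‖} ≤ ENNReal.ofReal (X / Real.log X ^ A) := by
  rcases le_or_gt ε (1 / 3) with h | h
  · obtain ⟨X0, hX0⟩ := Fin_core (ε / 8) (by linarith only [hε]) (by linarith only [h]) A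
    refine ⟨X0, fun X H hX hH hHX => ?_⟩
    have e : 2 / 3 + 8 * (ε / 8) = 2 / 3 + ε := by ring
    have := hX0 X H hX (by rw [e]; exact hH) hHX
    rw [e] at this
    exact this
  · refine ⟨Real.exp 2, fun X H hX hH hHX => ?_⟩
    exfalso
    have hX0 : 0 < X := lt_of_lt_of_le (Real.exp_pos _) hX
    have hL : 2 ≤ Real.log X := by
      rw [Real.le_log_iff_exp_le hX0]
      exact hX
    have h1 : Real.log X < Real.log X ^ (2 / 3 + ε) := by
      calc Real.log X = Real.log X ^ (1 : ℝ) := (Real.rpow_one _).symm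
        _ < Real.log X ^ (2 / 3 + ε) := Real.rpow_lt_rpow_of_exponent_lt (by linarith only [hL]) (by linarith only [h])
    have h2 : X < X := by
      calc X = Real.exp (Real.log X) := (Real.exp_log hX0).symm
        _ < Real.exp (Real.log X ^ (2 / 3 + ε)) := Real.exp_lt_exp.2 h1
        _ ≤ X := hH.trans hHX
    exact lt_irrefl _ h2

end Pool.Agent.H43.LM

end
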